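import Pool.Agent.MP_2876a2_nt.Tu.St
import Pool.Agent.MP_bd74a7_nt.Div

/-!
Tuples with a common factor.
-/

set_option autoImplicit false
set_option linter.all false

noncomputable section
open Finset Filter
open scoped Pointwise


namespace Pool.Agent.MP_2876a2_nt.Tu

theorem prod_Block (S : Finset ℕ) (h : ∀ p ∈ S, p.Prime) :
    Squarefree (∏ p ∈ S, p) ∧ sg (∏ p ∈ S, p) = ∏ p ∈ S, (p + 1) := by
  induction S using Finset.induction_on with
  | empty => simp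
  | insert a S ha ih =>
    have h1 := ih fun p hp => h p (mem_insert_of_mem hp)
    have h2 : a.Prime := h a (mem_insert_self a S)
    have h3 : a.Coprime (∏ p ∈ S, p) := Nat.Coprime.prod_right fun p hp =>
      (Nat.coprime_primes h2 (h p (mem_insert_of_mem hp))).2 fun e => ha (e ▸ hp)
    rw [prod_insert ha, prod_insert ha]
    refine ⟨(Nat.squarefree_mul h3).2 ⟨h2.squarefree, h1.1⟩, ?_⟩
    have h4 : sg a = a + 1 := by
      unfold sg
      rw [ArithmeticFunction.sigma_one_apply, h2.sum_divisors]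
    unfold sg at h1 h4 ⊢
    rw [ArithmeticFunction.isMultiplicative_sigma.map_mul_of_coprime h3, h1.2, h4]

theorem core_Block (hC : StCore) (j r : ℕ) (hj : 3 ≤ j) (hr : 1 ≤ r) (P : Finset ℕ)
    (hP : P.card = j ^ 4998) (hG : ∀ p ∈ P, p.Prime ∧ j ^ 5000 < p ∧ p ≤ 2 * j ^ 5000)
    (F : Finset (Finset ℕ)) (s0 : ℕ) (hF : F ⊆ P.powersetCard r) (hc : j ^ (2507 * r) ≤ F.card)
    (hs : ∀ b ∈ F, ∏ p ∈ b, (p + 1) = s0) :
    ∃ (B : Finset ℕ) (s : ℕ), Blk B (∏ p ∈ P, p) s ∧ 2 ∣ s ∧ j ^ r ≤ s ∧ s ≤ j ^ (5001 * r) := by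
  have j0 : 0 < j := by omega
  have j1 : 1 < j := by omega
  obtain ⟨K, hK1, hK2⟩ := hC F (j ^ 1700) (Nat.one_le_pow _ _ j0)
  obtain ⟨FK, hFK⟩ : ∃ FK, FK = F.filter fun b => K ⊆ b := ⟨_, rfl⟩
  rw [← hFK] at hK1 hK2
  have mem : ∀ b ∈ FK, b ∈ F ∧ K ⊆ b := fun b hb => by rw [hFK] at hb; exact mem_filter.1 hb
  have hc2 := hc.trans hK1
  have hne : FK.Nonempty := by
    rw [← card_pos]
    have := Nat.pow_pos (n := 2507 * r) j0
    by_contra h0
    rw [show FK.card = 0 by omega, zero_mul] at hc2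
    omega
  obtain ⟨b0, hb0⟩ := hne
  have sub : ∀ b ∈ FK, b ⊆ P ∧ b.card = r := fun b hb => mem_powersetCard.1 (hF (mem b hb).1)
  obtain ⟨r1, hr1⟩ : ∃ r1, r = K.card + r1 :=
    Nat.exists_eq_add_of_le ((sub b0 hb0).2 ▸ card_le_card (mem b0 hb0).2)
  have sd : ∀ b ∈ FK, b \ K ⊆ P ∧ (b \ K).card = r1 := fun b hb =>
    ⟨sdiff_subset.trans (sub b hb).1, by
      rw [card_sdiff_of_subset (mem b hb).2, (sub b hb).2]; omega⟩
  have pr : ∀ b ∈ FK, ∀ p ∈ b \ K, p.Prime := fun b hb p hp => (hG p ((sd b hb).1 hp)).1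
  have inj1 : Set.InjOn (fun b => b \ K) (FK : Set (Finset ℕ)) := fun b hb b' hb' e => by
    rw [← sdiff_union_of_subset (mem b hb).2, ← sdiff_union_of_subset (mem b' hb').2]
    exact congrArg (· ∪ K) e
  have inj : Set.InjOn (fun b => ∏ p ∈ b \ K, p) (FK : Set (Finset ℕ)) := fun b hb b' hb' e => by
    refine inj1 hb hb' ?_
    have := congrArg Nat.primeFactors e
    rwa [Nat.primeFactors_prod (pr b hb), Nat.primeFactors_prod (pr b' hb')] at this
  have eqs : ∀ b ∈ FK, ∏ p ∈ b \ K, (p + 1) = ∏ p ∈ b0 \ K, (p + 1) := fun b hb => by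
    refine Nat.eq_of_mul_eq_mul_right (m := ∏ p ∈ K, (p + 1)) (prod_pos fun p _ => by omega) ?_
    rw [prod_sdiff (mem b hb).2, prod_sdiff (mem b0 hb0).2, hs b (mem b hb).1, hs b0 (mem b0 hb0).1]
  have up : ∀ p ∈ P, p + 1 ≤ j ^ 5001 := fun p hp => by
    have h1 := (hG p hp).2.2
    have h2 := Nat.pow_pos (n := 5000) j0
    have h3 : j ^ 5001 = j ^ 5000 * j := pow_succ j 5000
    have h4 := Nat.mul_le_mul_left (j ^ 5000) hj
    omega
  have s1 : ∏ p ∈ b0 \ K, (p + 1) ≤ j ^ (5001 * r1) := by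
    rw [pow_mul, ← (sd b0 hb0).2]
    exact prod_le_pow_card _ _ _ fun p hp => up p ((sd b0 hb0).1 hp)
  have s2 : j ^ (5000 * r1) ≤ ∏ p ∈ b0 \ K, (p + 1) := by
    rw [pow_mul, ← (sd b0 hb0).2]
    exact pow_card_le_prod _ _ _ fun p hp => by have := (hG p ((sd b0 hb0).1 hp)).2.1; omega
  have c1 : j ^ (2507 * r1) ≤ FK.card := by
    refine Nat.le_of_mul_le_mul_right (c := j ^ (2507 * K.card)) ?_ (Nat.pow_pos j0)
    rw [← pow_add, show 2507 * r1 + 2507 * K.card = 2507 * r by omega]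
    refine hc2.trans (Nat.mul_le_mul_left _ ?_)
    rw [← pow_mul]
    exact Nat.pow_le_pow_right j0 (by omega)
  have c2 : FK.card ≤ j ^ (4998 * r1) := by
    have h1 : FK.card ≤ (P.powersetCard r1).card :=
      card_le_card_of_injOn (fun b => b \ K) (fun b hb => mem_coe.2 (mem_powersetCard.2 (sd b hb)))
        inj1
    rw [card_powersetCard] at h1
    rw [pow_mul, ← hP]
    exact h1.trans (Nat.choose_le_pow _ _)
  have c3 : 2507 * r ≤ 4998 * r1 + 1700 * K.card := by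
    rw [← Nat.pow_le_pow_iff_right j1, pow_add, pow_mul j 1700]
    exact hc2.trans (Nat.mul_le_mul_right _ c2)
  have cB : (FK.image fun b => ∏ p ∈ b \ K, p).card = FK.card := card_image_of_injOn inj
  refine ⟨FK.image fun b => ∏ p ∈ b \ K, p, ∏ p ∈ b0 \ K, (p + 1),
    ⟨(prod_Block P fun p hp => (hG p hp).1).1, ⟨_, mem_image_of_mem _ hb0⟩, fun x hx => ?_,
      fun x hx => ?_, ?_, fun d => ?_⟩, ?_, (Nat.pow_le_pow_right j0 (by omega)).trans s2,
    s1.trans (Nat.pow_le_pow_right j0 (by omega))⟩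
  · obtain ⟨b, hb, rfl⟩ := mem_image.1 hx
    exact prod_dvd_prod_of_subset _ _ _ (sd b hb).1
  · obtain ⟨b, hb, rfl⟩ := mem_image.1 hx
    rw [(prod_Block _ (pr b hb)).2, eqs b hb]
  · rw [cB]
    refine (Nat.pow_le_pow_left s1 _).trans (le_trans ?_ (Nat.pow_le_pow_left c1 _))
    rw [← pow_mul, ← pow_mul]
    exact Nat.pow_le_pow_right j0 (by omega)
  · rcases ((FK.image fun b => ∏ p ∈ b \ K, p).filter fun b => d ∣ b).eq_empty_or_nonempty with
      h | ⟨x, hx⟩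
    · rw [h]; simp
    have key : ∀ b ∈ FK, d ∣ ∏ p ∈ b \ K, p → d.primeFactors ⊆ b \ K := fun b hb h => by
      rw [← Nat.primeFactors_prod (pr b hb)]
      exact Nat.primeFactors_mono h (prod_Block _ (pr b hb)).1.ne_zero
    obtain ⟨hx1, hx2⟩ := mem_filter.1 hx
    obtain ⟨b1, hb1, rfl⟩ := mem_image.1 hx1
    have hJ := key b1 hb1 hx2
    have hsq : Squarefree d := (prod_Block _ (pr b1 hb1)).1.squarefree_of_dvd hx2
    have hd : d ≤ ((j ^ 1700) ^ d.primeFactors.card) ^ 3 := by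
      have h1 : ∏ p ∈ d.primeFactors, p ≤ (j ^ 5001) ^ d.primeFactors.card :=
        prod_le_pow_card _ _ _ fun p hp => by have := up p ((sd b1 hb1).1 (hJ hp)); omega
      rw [Nat.prod_primeFactors_of_squarefree hsq] at h1
      refine h1.trans ?_
      rw [← pow_mul, ← pow_mul, ← pow_mul]
      exact Nat.pow_le_pow_right j0 (by omega)
    have h2 := hK2 d.primeFactors (disjoint_of_subset_left hJ sdiff_disjoint)
    have h3 : ((FK.image fun b => ∏ p ∈ b \ K, p).filter fun b => d ∣ b).card ≤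
        (F.filter fun b => K ∪ d.primeFactors ⊆ b).card := by
      refine le_trans (card_le_card fun y hy => ?_) (card_image_le (f := fun b => ∏ p ∈ b \ K, p))
      obtain ⟨hy1, hy2⟩ := mem_filter.1 hy
      obtain ⟨b, hb, rfl⟩ := mem_image.1 hy1
      exact mem_image_of_mem _ (mem_filter.2 ⟨(mem b hb).1,
        union_subset (mem b hb).2 ((key b hb hy2).trans sdiff_subset)⟩)
    rw [cB]
    refine (Nat.mul_le_mul (Nat.pow_le_pow_left h3 3) hd).trans ?_
    rw [← mul_pow]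
    exact Nat.pow_le_pow_left h2 3
  · obtain ⟨p, hp⟩ : (b0 \ K).Nonempty := by rw [← card_pos, (sd b0 hb0).2]; omega
    refine Dvd.dvd.trans ?_ (dvd_prod_of_mem (fun p => p + 1) hp)
    obtain ⟨h1, h2, -⟩ := hG p ((sd b0 hb0).1 hp)
    have h3 : j ≤ j ^ 5000 := Nat.le_self_pow (by norm_num) j
    have h4 := h1.eq_two_or_odd
    omega

theorem sBlock (hF : StFib) (hC : StCore) : StBlock := by
  filter_upwards [hF, eventually_ge_atTop 3] with j hj h3 P hP hG
  obtain ⟨F, s0, h1, h2, h4⟩ := hj P hP hG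
  exact core_Block hC j (j ^ 2490) h3 (Nat.one_le_pow _ _ (by omega)) P hP
    (fun p hp => ⟨(hG p hp).1, (hG p hp).2.1, (hG p hp).2.2.1⟩) F s0 h1 h2 h4

end Pool.Agent.MP_2876a2_nt.Tu

end

noncomputable section
open Finset Filter
open scoped Pointwise


namespace Pool.Agent.MP_2876a2_nt.Tu

theorem half_Slow {a j k : ℕ} (hk : 2 ≤ k) (hj : 1 ≤ j) (h : j ≤ 2 * k) :
    j ^ j ^ a ≤ (k ^ k ^ a) ^ (2 * 2 ^ a) := by
  have h1 : j ≤ k ^ 2 := by nlinarith
  calc j ^ j ^ a ≤ j ^ (2 * k) ^ a := Nat.pow_le_pow_right hj (Nat.pow_le_pow_left h a)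
    _ ≤ (k ^ 2) ^ (2 * k) ^ a := Nat.pow_le_pow_left h1 _
    _ = (k ^ k ^ a) ^ (2 * 2 ^ a) := by
      rw [← pow_mul, ← pow_mul, mul_pow]
      congr 1
      ring

theorem sSlow : StSlow := by
  intro a E j0 s hj h n
  obtain ⟨m, hm⟩ : ∃ m, m = E * n * (2 * 2 ^ a) := ⟨_, rfl⟩
  filter_upwards [eventually_ge_atTop (2 * m)] with t ht
  have h1 : ∀ i, 1 ≤ s i := fun i => (Nat.one_le_pow _ _ (by omega)).trans (h i).1
  refine (Nat.pow_le_pow_iff_left (n := 2 * 2 ^ a) (by positivity)).1 ?_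
  calc (s t ^ n) ^ (2 * 2 ^ a) ≤ (((j0 + t) ^ (E * (j0 + t) ^ a)) ^ n) ^ (2 * 2 ^ a) :=
        Nat.pow_le_pow_left (Nat.pow_le_pow_left (h t).2 n) _
    _ = ((j0 + t) ^ (j0 + t) ^ a) ^ (Ico (t - m) t).card := by
      rw [Nat.card_Ico, show t - (t - m) = m by omega, hm, ← pow_mul, ← pow_mul, ← pow_mul]
      congr 1
      ring
    _ ≤ ∏ i ∈ Ico (t - m) t, s i ^ (2 * 2 ^ a) := by
      refine pow_card_le_prod _ _ _ fun i hi => ?_
      have := (mem_Ico.1 hi).1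
      exact (half_Slow (k := j0 + i) (by omega) (by omega) (by omega)).trans
        (Nat.pow_le_pow_left (h i).1 _)
    _ ≤ ∏ i ∈ range t, s i ^ (2 * 2 ^ a) :=
      prod_le_prod_of_subset_of_one_le' (fun i hi => mem_range.2 (mem_Ico.1 hi).2)
        fun i _ _ => Nat.one_le_pow _ _ (h1 i)
    _ = (∏ i ∈ range t, s i) ^ (2 * 2 ^ a) := prod_pow _ _ _

end Pool.Agent.MP_2876a2_nt.Tu

end

noncomputable section
open Finset Filter
open scoped Pointwise


namespace Pool.Agent.MP_2876a2_nt.Tu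

theorem tel_Seq (j0 : ℕ) (h : 2 ≤ j0) (t : ℕ) :
    ∑ i ∈ range t, (1 / ((j0 + i : ℕ) : ℝ) ^ 2) ≤ 1 - 1 / ((t : ℝ) + 1) := by
  induction t with
  | zero => simp
  | succ t ih =>
    rw [sum_range_succ]
    have h0 : (0 : ℝ) ≤ t := Nat.cast_nonneg t
    have h1 : (t : ℝ) + 2 ≤ ((j0 + t : ℕ) : ℝ) := by
      have : t + 2 ≤ j0 + t := by omega
      exact_mod_cast this
    have h2 : 1 / ((j0 + t : ℕ) : ℝ) ^ 2 ≤ 1 / (((t : ℝ) + 1) * ((t : ℝ) + 2)) :=
      one_div_le_one_div_of_le (by positivity) (by nlinarith)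
    have h3 : 1 / (((t : ℝ) + 1) * ((t : ℝ) + 2)) = 1 / ((t : ℝ) + 1) - 1 / ((t : ℝ) + 2) := by
      field_simp; ring
    have h4 : ((t + 1 : ℕ) : ℝ) + 1 = (t : ℝ) + 2 := by push_cast; ring
    rw [h4]
    linarith

theorem sSeq (hB : StBlock) (hP : StPool) (hS : StSlow) : StSeq := by
  obtain ⟨a, ha⟩ := eventually_atTop.1 hB
  obtain ⟨j0, ⟨P, hP1, hP2⟩, h2, h3⟩ :=
    (hP.and ((eventually_ge_atTop 2).and (eventually_ge_atTop a))).exists
  have key := fun i => ha (j0 + i) (by omega) (P i) (hP1 i).1 (hP1 i).2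
  choose B s k1 k2 k3 k4 using key
  refine ⟨B, fun i => ∏ p ∈ P i, p, s, k1, fun i i' hne => ?_, k2, fun i hd => ?_, fun t => ?_,
    hS 2490 5001 j0 s h2 fun i => ⟨k3 i, k4 i⟩⟩
  · refine Nat.Coprime.prod_left fun p hp => Nat.Coprime.prod_right fun q hq => ?_
    refine (Nat.coprime_primes ((hP1 i).2 p hp).1 ((hP1 i').2 q hq).1).2 fun e => ?_
    exact disjoint_left.1 (hP2 i i' hne) hp (e ▸ hq)
  · obtain ⟨p, hp, hd'⟩ := (Prime.dvd_finsetProd_iff Nat.prime_two.prime _).1 hd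
    obtain ⟨g1, g2, -⟩ := (hP1 i).2 p hp
    have e : 2 = p := (Nat.prime_dvd_prime_iff_eq Nat.prime_two g1).1 hd'
    have g3 : j0 + i ≤ (j0 + i) ^ 5000 := Nat.le_self_pow (by norm_num) _
    omega
  · have h0 : (0 : ℝ) ≤ 1 / ((t : ℝ) + 1) := by positivity
    refine le_trans (sum_le_sum fun i _ => ?_) ((tel_Seq j0 h2 t).trans (by linarith))
    rw [Nat.primeFactors_prod fun p hp => ((hP1 i).2 p hp).1]
    have hj : (0 : ℝ) < ((j0 + i : ℕ) : ℝ) := by
      have : 0 < j0 + i := by omega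
      exact_mod_cast this
    have h4 : ∀ p ∈ P i, (1 / p : ℝ) ≤ 1 / ((j0 + i : ℕ) : ℝ) ^ 5000 := by
      intro p hp
      refine one_div_le_one_div_of_le (pow_pos hj _) ?_
      exact_mod_cast ((hP1 i).2 p hp).2.1.le
    refine (sum_le_card_nsmul _ _ _ h4).trans (le_of_eq ?_)
    rw [(hP1 i).1, nsmul_eq_mul, Nat.cast_pow]
    generalize ((j0 + i : ℕ) : ℝ) = y at hj
    rw [show 5000 = 4998 + 2 from rfl, pow_add, mul_one_div, div_mul_eq_div_div,
      div_self (pow_pos hj _).ne']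

end Pool.Agent.MP_2876a2_nt.Tu

end

noncomputable section
open Finset Filter
open scoped Pointwise


namespace Pool.Agent.MP_2876a2_nt.Tu

theorem gcd_Mul {N N' b b' : ℕ} (h : N.Coprime N') (hb : b ∣ N) (hb' : b' ∣ N') :
    Nat.gcd (b * b') N = b := by
  rw [Nat.Coprime.gcd_mul_right_cancel b (h.symm.coprime_dvd_left hb'), Nat.gcd_eq_left hb]

theorem inj_Mul {B B' : Finset ℕ} {N N' : ℕ} (h : N.Coprime N') (hB : ∀ b ∈ B, b ∣ N)
    (hB' : ∀ b ∈ B', b ∣ N') :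
    Set.InjOn (fun p : ℕ × ℕ => p.1 * p.2) ((B ×ˢ B' : Finset (ℕ × ℕ)) : Set (ℕ × ℕ)) := by
  rintro ⟨a, a'⟩ ha ⟨b, b'⟩ hb e
  simp only [coe_product, Set.mem_prod, mem_coe] at ha hb
  change a * a' = b * b' at e
  have e1 := gcd_Mul h (hB a ha.1) (hB' a' ha.2)
  have e2 := gcd_Mul h.symm (hB' a' ha.2) (hB a ha.1)
  rw [e, gcd_Mul h (hB b hb.1) (hB' b' hb.2)] at e1
  rw [mul_comm, e, mul_comm, gcd_Mul h.symm (hB' b' hb.2) (hB b hb.1)] at e2
  rw [e1, e2]

theorem sMul : StMul := by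
  intro B B' N N' s s' h h' hc
  have hi := inj_Mul hc h.dvd h'.dvd
  have hcard : (B * B').card = B.card * B'.card := by
    rw [mul_def, card_image_of_injOn hi, card_product]
  refine ⟨⟨Nat.squarefree_mul_iff.2 ⟨hc, h.sqf, h'.sqf⟩, h.ne.mul h'.ne, fun a ha => ?_,
    fun a ha => ?_, ?_, fun d => ?_⟩, fun f => ?_⟩
  · obtain ⟨b, hb, b', hb', rfl⟩ := mem_mul.1 ha
    exact mul_dvd_mul (h.dvd b hb) (h'.dvd b' hb')
  · obtain ⟨b, hb, b', hb', rfl⟩ := mem_mul.1 ha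
    rw [← h.sig b hb, ← h'.sig b' hb']
    exact ArithmeticFunction.isMultiplicative_sigma.map_mul_of_coprime
      (Nat.Coprime.coprime_dvd_right (h'.dvd b' hb') (hc.coprime_dvd_left (h.dvd b hb)))
  · rw [hcard, mul_pow, mul_pow]
    exact Nat.mul_le_mul h.big h'.big
  · rcases ((B * B').filter fun b => d ∣ b).eq_empty_or_nonempty with he | ⟨a, ha⟩
    · rw [he]; simp
    · obtain ⟨ha, hd⟩ := mem_filter.1 ha
      obtain ⟨b, hb, b', hb', rfl⟩ := mem_mul.1 ha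
      have e : d.gcd N * d.gcd N' = d := by
        rw [← Nat.Coprime.gcd_mul d hc]
        exact Nat.gcd_eq_left (hd.trans (mul_dvd_mul (h.dvd b hb) (h'.dvd b' hb')))
      have hs : ((B * B').filter fun b => d ∣ b) ⊆
          (B.filter fun b => d.gcd N ∣ b) * (B'.filter fun b => d.gcd N' ∣ b) := fun x hx => by
        obtain ⟨hx, hdx⟩ := mem_filter.1 hx
        obtain ⟨c, hc1, c', hc2, rfl⟩ := mem_mul.1 hx
        refine mul_mem_mul (mem_filter.2 ⟨hc1, ?_⟩) (mem_filter.2 ⟨hc2, ?_⟩)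
        · exact Nat.Coprime.dvd_of_dvd_mul_right (Nat.Coprime.coprime_dvd_right (h'.dvd c' hc2)
            (hc.coprime_dvd_left (Nat.gcd_dvd_right _ _))) ((Nat.gcd_dvd_left _ _).trans hdx)
        · exact Nat.Coprime.dvd_of_dvd_mul_left (Nat.Coprime.coprime_dvd_right (h.dvd c hc1)
            (hc.symm.coprime_dvd_left (Nat.gcd_dvd_right _ _))) ((Nat.gcd_dvd_left _ _).trans hdx)
      have h1 := Nat.pow_le_pow_left ((card_le_card hs).trans card_mul_le) 3
      calc _ ≤ ((B.filter fun b => d.gcd N ∣ b).card * (B'.filter fun b => d.gcd N' ∣ b).card) ^ 3 *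
            (d.gcd N * d.gcd N') := Nat.mul_le_mul h1 e.ge
        _ = ((B.filter fun b => d.gcd N ∣ b).card ^ 3 * d.gcd N) *
            ((B'.filter fun b => d.gcd N' ∣ b).card ^ 3 * d.gcd N') := by ring
        _ ≤ B.card ^ 3 * B'.card ^ 3 := Nat.mul_le_mul (h.spr _) (h'.spr _)
        _ = _ := by rw [hcard, mul_pow]
  · rw [mul_def, sum_image hi, sum_product]

end Pool.Agent.MP_2876a2_nt.Tu

end

noncomputable section
/-! Products of blocks. -/


open Finset Filter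
open scoped Pointwise


namespace Pool.Agent.MP_2876a2_nt.Tu

theorem sg_le_Prod {a : ℕ} (ha : Squarefree a) :
    (sg a : ℝ) ≤ a * Real.exp (∑ p ∈ a.primeFactors, (1 / p : ℝ)) := by
  rw [sg, ← ArithmeticFunction.isMultiplicative_sigma.prod_primeFactors ha, Real.exp_sum]
  conv_rhs => rw [← Nat.prod_primeFactors_of_squarefree ha]
  rw [Nat.primeFactors_prod fun p hp => Nat.prime_of_mem_primeFactors hp, Nat.cast_prod,
    Nat.cast_prod, ← prod_mul_distrib]
  refine prod_le_prod (fun _ _ => Nat.cast_nonneg _) fun p hp => ?_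
  have h := Nat.prime_of_mem_primeFactors hp
  have h0 : (0 : ℝ) < p := by exact_mod_cast h.pos
  rw [ArithmeticFunction.sigma_one_apply, h.sum_divisors]
  refine le_trans (le_of_eq ?_) (mul_le_mul_of_nonneg_left (Real.add_one_le_exp _) h0.le)
  push_cast
  field_simp
  ring

theorem sum_le_Prod (N : ℕ → ℕ) (hN : ∀ i, N i ≠ 0) (I : Finset ℕ) :
    ∑ p ∈ (∏ i ∈ I, N i).primeFactors, (1 / p : ℝ) ≤
      ∑ i ∈ I, ∑ p ∈ (N i).primeFactors, (1 / p : ℝ) := by
  induction I using Finset.induction_on with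
  | empty => simp
  | insert i I hi ih =>
    rw [prod_insert hi, sum_insert hi,
      Nat.primeFactors_mul (hN i) (prod_ne_zero_iff.2 fun j _ => hN j)]
    refine le_trans ?_ (add_le_add_right ih _)
    rw [← sum_union_inter]
    exact le_add_of_nonneg_right (sum_nonneg fun _ _ => by positivity)

theorem sProd (hM : StMul) : StProd := by
  intro B N s H I
  have hb : Blk (∏ i ∈ I, B i) (∏ i ∈ I, N i) (∏ i ∈ I, s i) := by
    induction I using Finset.induction_on with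
    | empty =>
      simp only [prod_empty]
      refine ⟨squarefree_one, one_nonempty, fun b hb => ?_, fun b hb => ?_, by simp, fun d => ?_⟩
      · rw [mem_one.1 hb]
      · rw [mem_one.1 hb]
        simp
      · by_cases h : d = 1
        · simp [h]
        · rw [filter_false_of_mem fun b hb => by rw [mem_one.1 hb, Nat.dvd_one]; exact h]
          simp
    | insert i I hi ih =>
      rw [prod_insert hi, prod_insert hi, prod_insert hi]
      exact (hM _ _ _ _ _ _ (H.blk i) ih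
        (Nat.Coprime.prod_right fun j hj => H.cop i j fun e => hi (e ▸ hj))).1
  refine ⟨hb, fun a ha => ⟨hb.pos ha, ?_, ?_⟩⟩
  · rw [← hb.sig a ha, sg, ArithmeticFunction.sigma_one_apply]
    exact single_le_sum (f := fun d => d) (fun _ _ => Nat.zero_le _)
      (Nat.mem_divisors_self a (hb.pos ha).ne')
  · have h1 := sg_le_Prod (hb.sqf.squarefree_of_dvd (hb.dvd a ha))
    have h2 : ∑ p ∈ a.primeFactors, (1 / p : ℝ) ≤ 1 :=
      (sum_le_sum_of_subset_of_nonneg (Nat.primeFactors_mono (hb.dvd a ha) hb.sqf.ne_zero)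
        fun _ _ _ => by positivity).trans ((sum_le_Prod N (fun i => (H.blk i).sqf.ne_zero) I).trans
          ((sum_le_sum_of_subset_of_nonneg (fun i hi => mem_range.2 (Nat.lt_succ_of_le
            (le_sup (f := id) hi))) fun _ _ _ => by positivity).trans (H.thin (I.sup id + 1))))
    have h3 := (Real.exp_le_exp.2 h2).trans Real.exp_one_lt_d9.le
    rw [← hb.sig a ha]
    have h4 : (sg a : ℝ) ≤ 3 * a := by nlinarith [(Nat.cast_nonneg a : (0 : ℝ) ≤ a)]
    exact_mod_cast h4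

end Pool.Agent.MP_2876a2_nt.Tu

end

noncomputable section
open Finset Filter
open scoped Pointwise


namespace Pool.Agent.MP_2876a2_nt.Tu

theorem core_Sel (s : ℕ → ℝ) (n t0 J : ℕ) (Z : ℝ) (hn : 3 ≤ n) (h1 : ∀ i, 1 ≤ s i)
    (hs : ∀ t, t0 ≤ t → s t ^ n ≤ ∏ i ∈ range t, s i) (hZ : 2 ≤ Z)
    (h0 : ∏ i ∈ range t0, s i ≤ Z ^ n) (hJ : Z ^ n * Z ^ n ≤ ∏ i ∈ range J, s i) :
    ∃ t' t : ℕ, t' ≤ t ∧ t ≤ J ∧ 2 * Z ^ n ≤ ∏ i ∈ range t', s i ∧
      ∏ i ∈ range t', s i ≤ Z ^ (n + 3) ∧ Z ^ n ≤ (∏ i ∈ Ico t' t, s i) * Z ^ 3 ∧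
      ∏ i ∈ Ico t' t, s i ≤ Z ^ (n + 3) := by
  classical
  have Z1 : 1 ≤ Z := by linarith
  have Z0 : 0 < Z := by linarith
  have Zn : 2 ≤ Z ^ n := hZ.trans (le_self_pow₀ Z1 (by omega))
  have s0 : ∀ i, 0 ≤ s i := fun i => zero_le_one.trans (h1 i)
  have mono : ∀ a b, a ≤ b → ∏ i ∈ range a, s i ≤ ∏ i ∈ range b, s i := fun a b hab =>
    prod_le_prod_of_subset_of_one_le (range_subset_range.2 hab) (fun i _ => s0 i)
      fun i _ _ => h1 i
  have root : ∀ t k, t0 ≤ t → ∏ i ∈ range t, s i ≤ Z ^ (k * n) → s t ≤ Z ^ k := fun t k ht h => by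
    refine le_of_pow_le_pow_left₀ (n := n) (by omega) (by positivity) ?_
    rw [← pow_mul]
    exact (hs t ht).trans h
  have J2 : 2 * Z ^ n ≤ ∏ i ∈ range J, s i :=
    (mul_le_mul_of_nonneg_right Zn (by positivity)).trans hJ
  have ex : ∃ t, 2 * Z ^ n ≤ ∏ i ∈ range t, s i := ⟨J, J2⟩
  have a1 := Nat.find_spec ex
  have a2 : Nat.find ex ≤ J := Nat.find_min' ex J2
  have a3 : t0 < Nat.find ex := by
    by_contra h
    have := mono _ _ (not_lt.1 h)
    linarith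
  have a4 : ∏ i ∈ range (Nat.find ex), s i ≤ Z ^ (n + 3) := by
    obtain ⟨w, hw⟩ : ∃ w, Nat.find ex = w + 1 := ⟨Nat.find ex - 1, by omega⟩
    have b1 := not_le.1 (Nat.find_min ex (m := w) (by omega))
    have b2 : ∏ i ∈ range w, s i ≤ Z ^ (n + 1) := by
      rw [pow_succ, mul_comm]
      exact b1.le.trans (mul_le_mul_of_nonneg_right hZ (by positivity))
    have b3 := root w 2 (by omega) (b2.trans (pow_le_pow_right₀ Z1 (by omega)))
    rw [hw, prod_range_succ, show n + 3 = n + 1 + 2 from rfl, pow_add]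
    exact mul_le_mul b2 b3 (s0 w) (by positivity)
  generalize Nat.find ex = t1 at a1 a2 a3 a4
  have Z3 : 1 ≤ Z ^ 3 := one_le_pow₀ Z1
  have G0 : ∀ t, 0 ≤ ∏ i ∈ Ico t1 t, s i := fun t => prod_nonneg fun i _ => s0 i
  by_cases hG : ∏ i ∈ Ico t1 J, s i < Z ^ n
  · refine ⟨t1, J, a2, le_rfl, a1, a4, ?_, hG.le.trans (pow_le_pow_right₀ Z1 (by omega))⟩
    rw [← prod_range_mul_prod_Ico s a2] at hJ
    have b1 := hJ.trans (mul_le_mul_of_nonneg_right a4 (G0 J))
    rw [pow_add, mul_assoc] at b1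
    rw [mul_comm]
    exact le_of_mul_le_mul_left b1 (by positivity)
  · have ex2 : ∃ t, Z ^ n ≤ ∏ i ∈ Ico t1 t, s i := ⟨J, not_lt.1 hG⟩
    have c1 := Nat.find_spec ex2
    have c2 : Nat.find ex2 ≤ J := Nat.find_min' ex2 (not_lt.1 hG)
    have c3 : t1 < Nat.find ex2 := by
      by_contra h
      rw [Ico_eq_empty h, prod_empty] at c1
      linarith
    refine ⟨t1, _, c3.le, c2, a1, a4, c1.trans (le_mul_of_one_le_right (G0 _) Z3), ?_⟩
    obtain ⟨w, hw⟩ : ∃ w, Nat.find ex2 = w + 1 := ⟨Nat.find ex2 - 1, by omega⟩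
    have b1 := not_le.1 (Nat.find_min ex2 (m := w) (by omega))
    have b2 : ∏ i ∈ range w, s i ≤ Z ^ (3 * n) := by
      rw [← prod_range_mul_prod_Ico s (show t1 ≤ w by omega)]
      refine (mul_le_mul a4 b1.le (G0 w) (by positivity)).trans ?_
      rw [← pow_add]
      exact pow_le_pow_right₀ Z1 (by omega)
    have b3 := root w 3 (by omega) b2
    rw [hw, prod_Ico_succ_top (by omega), pow_add]
    exact mul_le_mul b1.le b3 (s0 w) (by positivity)

theorem sSel : StSel := by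
  intro s h2 hs
  obtain ⟨t0, ht0⟩ := eventually_atTop.1 (hs 20000)
  filter_upwards [eventually_ge_atTop (∏ i ∈ range t0, (s i : ℝ)), eventually_ge_atTop (1 : ℝ),
    (tendsto_rpow_atTop (show (0 : ℝ) < 1 / 20000 by norm_num)).eventually_ge_atTop 2]
    with Y y1 y2 y3
  intro J hJ
  have y0 : 0 < Y := by linarith
  have e : ∀ k : ℕ, (Y ^ (1 / 20000 : ℝ)) ^ k = Y ^ ((k : ℝ) / 20000) := fun k => by
    rw [← Real.rpow_natCast, ← Real.rpow_mul y0.le, one_div, inv_mul_eq_div]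
  have e0 : (Y ^ (1 / 20000 : ℝ)) ^ 20000 = Y := by
    rw [e, show ((20000 : ℕ) : ℝ) / 20000 = 1 by norm_num, Real.rpow_one]
  obtain ⟨t', t, a1, a2, a3, a4, a5, a6⟩ := core_Sel (fun i => (s i : ℝ)) 20000 t0 J _
    (by norm_num) (fun i => by exact_mod_cast (h2 i).trans' (by norm_num))
    (fun t ht => by exact_mod_cast ht0 t ht) y3 (by rw [e0]; exact y1)
    (by rw [e0, ← sq]; exact_mod_cast hJ)
  rw [e0] at a3 a5
  rw [e] at a4 a5 a6
  have up : Y ^ (((20000 + 3 : ℕ) : ℝ) / 20000) ≤ Y ^ (5001 / 5000 : ℝ) :=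
    Real.rpow_le_rpow_of_exponent_le y2 (by norm_num)
  push_cast
  refine ⟨t', t, a1, a2, a3, a4.trans up, ?_, a6.trans up⟩
  refine le_of_mul_le_mul_right (le_trans ?_ a5) (Real.rpow_pos_of_pos y0 _)
  rw [← Real.rpow_add y0]
  exact (Real.rpow_le_rpow_of_exponent_le y2 (by norm_num)).trans_eq (Real.rpow_one Y)

end Pool.Agent.MP_2876a2_nt.Tu

end

noncomputable section
open Finset Filter
open scoped Pointwise


namespace Pool.Agent.MP_2876a2_nt.Tu

theorem sGcd : StGcd := by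
  obtain ⟨C, hC1, hC⟩ := Pool.Agent.MP_bd74a7_nt.divisor_bound (ε := 1 / 30000) (by norm_num)
  refine ⟨C, by linarith, fun M N s q Y hB hq hY => ?_⟩
  have hq1 : (1 : ℝ) ≤ q := by exact_mod_cast hq
  have hY0 : 0 < Y := by linarith
  have h1 : (M.filter fun m => Y ^ (1 / 5000 : ℝ) < (Nat.gcd m q : ℕ)) ⊆
      (q.divisors.filter fun d : ℕ => Y ^ (1 / 5000 : ℝ) < d).biUnion
        fun d => M.filter fun m => d ∣ m := by
    intro m hm
    rw [mem_filter] at hm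
    exact mem_biUnion.2 ⟨Nat.gcd m q, mem_filter.2
      ⟨Nat.mem_divisors.2 ⟨Nat.gcd_dvd_right _ _, hq.ne'⟩, hm.2⟩,
      mem_filter.2 ⟨hm.1, Nat.gcd_dvd_left _ _⟩⟩
  have h2 : ∀ d ∈ q.divisors.filter fun d : ℕ => Y ^ (1 / 5000 : ℝ) < d,
      ((M.filter fun m => d ∣ m).card : ℝ) ≤ M.card * Y ^ (-(1 / 15000) : ℝ) := by
    intro d hd
    have h3 : ((M.filter fun m => d ∣ m).card : ℝ) ^ 3 * d ≤ (M.card : ℝ) ^ 3 := by
      exact_mod_cast hB.spr d
    have h4 : (Y ^ (1 / 15000 : ℝ)) ^ 3 = Y ^ (1 / 5000 : ℝ) := by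
      rw [← Real.rpow_natCast, ← Real.rpow_mul hY0.le]
      norm_num
    rw [Real.rpow_neg hY0.le, ← div_eq_mul_inv, le_div_iff₀ (Real.rpow_pos_of_pos hY0 _)]
    refine le_of_pow_le_pow_left₀ three_ne_zero (Nat.cast_nonneg _) ?_
    rw [mul_pow, h4]
    exact (mul_le_mul_of_nonneg_left (mem_filter.1 hd).2.le (by positivity)).trans h3
  have h5 : (((q.divisors.filter fun d : ℕ => Y ^ (1 / 5000 : ℝ) < d).card : ℕ) : ℝ)
      ≤ C * Y ^ (1 / 30000 : ℝ) :=
    ((Nat.cast_le.2 (card_filter_le _ _)).trans (hC q)).trans (mul_le_mul_of_nonneg_left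
      (Real.rpow_le_rpow (by linarith) hY (by norm_num)) (by linarith))
  have h6 : Y ^ (1 / 30000 : ℝ) * Y ^ (-(1 / 15000) : ℝ) = Y ^ (-(1 / 30000) : ℝ) := by
    rw [← Real.rpow_add hY0]
    norm_num
  refine (Nat.cast_le.2 ((card_le_card h1).trans card_biUnion_le)).trans ?_
  rw [Nat.cast_sum]
  refine (sum_le_card_nsmul _ _ _ h2).trans ?_
  rw [nsmul_eq_mul, ← h6]
  refine (mul_le_mul_of_nonneg_right h5 (by positivity)).trans (le_of_eq (by ring))

end Pool.Agent.MP_2876a2_nt.Tu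

end

noncomputable section
open Finset Filter
open scoped Pointwise


namespace Pool.Agent.MP_2876a2_nt.Tu

theorem size_Bil {B B' : Finset ℕ} {N N' Q Q' : ℕ} {Y : ℝ} (hY : 1 ≤ Y) (h : Blk B N Q)
    (h' : Blk B' N' Q') (hQ : Y ^ (4999 / 5000 : ℝ) ≤ Q) (hQ' : 2 * Y ≤ Q') :
    Y ^ (5009 / 5000 : ℝ) ≤ (B.card : ℝ) * B'.card := by
  have hY0 : 0 < Y := lt_of_lt_of_le one_pos hY
  have h1 : ((Q : ℝ)) ^ 501 ≤ (B.card : ℝ) ^ 1000 := by exact_mod_cast h.big
  have h2 : ((Q' : ℝ)) ^ 501 ≤ (B'.card : ℝ) ^ 1000 := by exact_mod_cast h'.big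
  have h3 : ((Q : ℝ) * Q') ^ 501 ≤ ((B.card : ℝ) * B'.card) ^ 1000 := by
    rw [mul_pow, mul_pow]
    exact mul_le_mul h1 h2 (pow_nonneg (Nat.cast_nonneg _) _) (pow_nonneg (Nat.cast_nonneg _) _)
  have h4 : Y ^ (9999 / 5000 : ℝ) ≤ (Q : ℝ) * Q' := by
    have e : Y ^ (9999 / 5000 : ℝ) = Y ^ (4999 / 5000 : ℝ) * Y := by
      rw [← Real.rpow_add_one hY0.ne']
      norm_num
    rw [e]
    exact mul_le_mul hQ (by linarith) hY0.le (Nat.cast_nonneg _)
  have h5 : (Y ^ (5009 / 5000 : ℝ)) ^ 1000 ≤ (Y ^ (9999 / 5000 : ℝ)) ^ 501 := by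
    rw [← Real.rpow_natCast, ← Real.rpow_natCast, ← Real.rpow_mul hY0.le, ← Real.rpow_mul hY0.le]
    exact Real.rpow_le_rpow_of_exponent_le hY (by norm_num)
  have h6 : (Y ^ (9999 / 5000 : ℝ)) ^ 501 ≤ ((Q : ℝ) * Q') ^ 501 :=
    pow_le_pow_left₀ (by positivity) h4 _
  exact le_of_pow_le_pow_left₀ (n := 1000) (by norm_num) (by positivity) (h5.trans (h6.trans h3))

theorem sBil (hC : StCS) (hH : StH) (hN : StNum) : StBil := by
  unfold StBil
  filter_upwards [hN, eventually_ge_atTop (1 : ℝ)] with Y hNY hY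
  intro B B' N N' Q Q' m S q u β hB hB' hb hb' hq hu hm hS1 hS2 hqs hQ'1 hQ'2 hQ1 hQ2 hg
  have hY0 : 0 < Y := lt_of_lt_of_le one_pos hY
  have h1 := hC B B' Q Q' ((u / q + β) * m) hb hb'
  have h2 := hH u q m Q Q' S β hq hu hm hB.s_pos hB'.s_pos hS1 hS2 (by rw [hqs]; exact hQ'1)
  rw [hqs] at h2
  have hqY : (q : ℝ) ≤ Y := by rw [← hqs]; exact le_qs S q β
  have h3 := hNY q Q Q' ((Nat.gcd m q : ℕ) : ℝ) (by exact_mod_cast hq) hqY
    (by exact_mod_cast hB.s_pos) hQ2 (Nat.cast_nonneg _) hQ'2 (Nat.cast_nonneg _) hg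
  have hX := size_Bil hY hB hB' hQ1 hQ'1
  have hX0 : (0 : ℝ) ≤ (B.card : ℝ) * B'.card := by positivity
  have h4 := h1.trans (mul_le_mul_of_nonneg_left (h2.trans h3) hX0)
  have h5 : Y ^ (5004 / 5000 : ℝ) =
      Y ^ (5009 / 5000 : ℝ) * (Y ^ (-(1 / 2000) : ℝ)) ^ 2 := by
    rw [← Real.rpow_natCast, ← Real.rpow_mul hY0.le, ← Real.rpow_add hY0]
    norm_num
  refine le_of_pow_le_pow_left₀ (n := 2) (by norm_num) (by positivity) (h4.trans ?_)
  rw [h5, mul_pow, pow_two ((B.card : ℝ) * B'.card), mul_assoc ((B.card : ℝ) * B'.card)]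
  exact mul_le_mul_of_nonneg_left (mul_le_mul_of_nonneg_right hX (by positivity)) hX0

end Pool.Agent.MP_2876a2_nt.Tu

end

noncomputable section
open Finset Filter
open scoped Pointwise


namespace Pool.Agent.MP_2876a2_nt.Tu

theorem split_Dec {M : Type} [CommMonoid M] (f : ℕ → M) {a b c : ℕ} (h1 : a ≤ b) (h2 : b ≤ c) :
    ∏ i ∈ range c, f i = (∏ i ∈ Ico b c, f i) * ((∏ i ∈ Ico a b, f i) * ∏ i ∈ range a, f i) := by
  rw [← prod_range_mul_prod_Ico f h2, ← prod_range_mul_prod_Ico f h1, mul_comm,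
    mul_comm (∏ i ∈ range a, f i)]

theorem cop_Dec {N : ℕ → ℕ} (h : ∀ i i', i ≠ i' → (N i).Coprime (N i')) (I I' : Finset ℕ)
    (hd : ∀ i ∈ I, ∀ i' ∈ I', i ≠ i') : (∏ i ∈ I, N i).Coprime (∏ i ∈ I', N i) :=
  Nat.Coprime.prod_left fun i hi => Nat.Coprime.prod_right fun i' hi' => h i i' (hd i hi i' hi')

theorem ev_Dec (C : ℝ) : ∀ᶠ Y : ℝ in atTop, 1 ≤ Y ∧
    (1 + C) * Y ^ (-(1 / 30000) : ℝ) ≤ Y ^ (-(1 / 60000) : ℝ) := by
  filter_upwards [eventually_ge_atTop 1,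
    (tendsto_rpow_atTop (y := 1 / 60000) (by norm_num)).eventually_ge_atTop (1 + C)] with Y h1 h2
  refine ⟨h1, (mul_le_mul_of_nonneg_right h2 (by positivity)).trans (le_of_eq ?_)⟩
  rw [← Real.rpow_add (by linarith)]
  norm_num

theorem sDec (hP : StProd) (hM : StMul) (hS : StSel) (hG : StGcd) (hB : StBil) : StDec := by
  intro B N s hq
  obtain ⟨C, C0, hC⟩ := hG
  obtain ⟨Y0, hY0⟩ := eventually_atTop.1 (((hS s hq.two_le hq.slow).and hB).and (ev_Dec C))
  refine ⟨Y0, fun J u q β q0 hu hY hsq => ?_⟩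
  obtain ⟨⟨h1, h2⟩, Y1, h3⟩ := hY0 _ hY
  obtain ⟨t', t, tt, tJ, b1, b2, b3, b4⟩ := h1 J hsq
  obtain ⟨k1, r1⟩ := hP B N s hq (range t')
  obtain ⟨k2, r2⟩ := hP B N s hq (Ico t' t)
  obtain ⟨k3, r3⟩ := hP B N s hq (Ico t J)
  have c21 := cop_Dec hq.cop (Ico t' t) (range t') fun i hi i' hi' => by
    have := mem_Ico.1 hi; have := mem_range.1 hi'; omega
  have c31 := cop_Dec hq.cop (Ico t J) (range t') fun i hi i' hi' => by
    have := mem_Ico.1 hi; have := mem_range.1 hi'; omega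
  have c32 := cop_Dec hq.cop (Ico t J) (Ico t' t) fun i hi i' hi' => by
    have := mem_Ico.1 hi; have := mem_Ico.1 hi'; omega
  obtain ⟨k21, s21⟩ := hM _ _ _ _ _ _ k2 k1 c21
  obtain ⟨-, s321⟩ := hM _ _ _ _ _ _ k3 k21 (c32.mul_right c31)
  have eS := split_Dec s tt tJ
  have qY := le_qs (∏ i ∈ range J, s i) q β
  rw [split_Dec B tt tJ]
  generalize ∏ i ∈ range J, s i = S at *
  generalize ∏ i ∈ range t', B i = B1 at *
  generalize ∏ i ∈ Ico t' t, B i = B2 at *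
  generalize ∏ i ∈ Ico t J, B i = M at *
  generalize ∏ i ∈ range t', s i = Q1 at *
  generalize ∏ i ∈ Ico t' t, s i = Q at *
  generalize ∏ i ∈ Ico t J, s i = sM at *
  have e : ∀ f : ℕ → ℂ, ∑ a ∈ M * (B2 * B1), f a
      = ∑ m ∈ M, ∑ b ∈ B2, ∑ b' ∈ B1, f (m * (b * b')) := fun f => by
    rw [s321]
    exact sum_congr rfl fun m _ => s21 fun c => f (m * c)
  have ec : ((M * (B2 * B1)).card : ℝ) = M.card * (B2.card * B1.card) := by
    have := e fun _ => 1
    simp only [sum_const, nsmul_eq_mul, mul_one] at this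
    exact_mod_cast this
  have one : ∀ m ∈ M, ‖∑ b ∈ B2, ∑ b' ∈ B1, ee ((u / q + β) * ((m * (b * b') : ℕ) : ℝ))‖ ≤
      B2.card * B1.card * (qs S q β ^ (-(1 / 30000) : ℝ) +
        if qs S q β ^ (1 / 5000 : ℝ) < (Nat.gcd m q : ℕ) then 1 else 0) := fun m hm => by
    have p0 : 0 ≤ qs S q β ^ (-(1 / 30000) : ℝ) := by positivity
    split_ifs with hg
    · refine (norm_sum_le _ _).trans ((sum_le_sum fun b _ => norm_sum_le _ _).trans ?_)
      simp only [norm_ee, sum_const, nsmul_eq_mul, mul_one]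
      exact le_mul_of_one_le_right (by positivity) (by linarith)
    · obtain ⟨m1, m2, m3⟩ := r3 m hm
      have := h2 B2 B1 _ _ Q Q1 m S q u β k2 k1 (fun b hb => (r2 b hb).2.1)
        (fun b hb => ⟨(r1 b hb).1, (r1 b hb).2.1⟩) q0 hu m1
        (by rw [eS, mul_assoc]; exact Nat.mul_le_mul_right _ m2)
        (by rw [eS, mul_assoc, ← mul_assoc 3]; exact Nat.mul_le_mul_right _ m3) rfl b1 b2 b3 b4
        (not_lt.1 hg)
      simp only [Nat.cast_mul, ← mul_assoc] at this ⊢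
      rw [add_zero]
      exact this.trans (mul_le_mul_of_nonneg_left
        (Real.rpow_le_rpow_of_exponent_le Y1 (by norm_num)) (by positivity))
  have g := hC M _ sM q _ k3 q0 qY
  rw [ES, e, ec]
  refine (norm_sum_le _ _).trans ((sum_le_sum one).trans ?_)
  rw [← mul_sum, sum_add_distrib, sum_const, nsmul_eq_mul, sum_boole]
  have g2 := mul_le_mul_of_nonneg_left h3 (Nat.cast_nonneg (α := ℝ) M.card)
  calc _ ≤ (B2.card * B1.card : ℝ) * (M.card * qs S q β ^ (-(1 / 60000) : ℝ)) :=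
        mul_le_mul_of_nonneg_left (by linarith) (by positivity)
    _ = _ := by ring

end Pool.Agent.MP_2876a2_nt.Tu

end

noncomputable section
/-! Orthogonality of additive characters and the number of representations. -/


open Finset Filter
open scoped Pointwise


namespace Pool.Agent.MP_2876a2_nt.Tu

theorem ee_sum_Four {ι : Type} (s : Finset ι) (f : ι → ℝ) :
    ee (∑ i ∈ s, f i) = ∏ i ∈ s, ee (f i) := by
  classical
  induction s using Finset.induction_on with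
  | empty => simp [ee_zero]
  | insert i s hi ih => rw [sum_insert hi, prod_insert hi, ee_add, ih]

theorem ee_pow_Four (t : ℝ) (n : ℕ) : ee (n * t) = ee t ^ n := by
  simpa using ee_sum_Four (range n) fun _ => t

theorem ee_ne_Four {t : ℝ} (h0 : t ≠ 0) (h1 : |t| < 1) : ee t ≠ 1 := fun h => by
  obtain ⟨n, hn⟩ := Complex.exp_eq_one_iff.1 h
  have e : ((2 * Real.pi * t : ℝ) : ℂ) = ((2 * Real.pi * n : ℝ) : ℂ) := by
    refine mul_right_cancel₀ Complex.I_ne_zero (hn.trans ?_)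
    push_cast
    ring
  have e' : t = n := mul_left_cancel₀ Real.two_pi_pos.ne' (Complex.ofReal_injective e)
  rw [e', ← Int.cast_abs] at h1
  have h2 : |n| < 1 := by exact_mod_cast h1
  exact h0 (by rw [e', Int.abs_lt_one_iff.1 h2, Int.cast_zero])

theorem orth_Four {P N T : ℕ} (hN : N < P) (hT : T < P) :
    ∑ v ∈ range P, ee (v * (((N : ℝ) - T) / P)) = if N = T then (P : ℂ) else 0 := by
  have hP : (0 : ℝ) < P := by exact_mod_cast (by omega : 0 < P)
  split_ifs with h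
  · simp [h, ee_zero]
  · have h1 : ee (((N : ℝ) - T) / P) ≠ 1 := by
      refine ee_ne_Four (div_ne_zero (sub_ne_zero.2 (by exact_mod_cast h)) hP.ne') ?_
      have a1 : (N : ℝ) < P := by exact_mod_cast hN
      have a2 : (T : ℝ) < P := by exact_mod_cast hT
      have a3 : (0 : ℝ) ≤ N := Nat.cast_nonneg _
      have a4 : (0 : ℝ) ≤ T := Nat.cast_nonneg _
      rw [abs_div, abs_of_pos hP, div_lt_one hP, abs_lt]
      constructor <;> linarith
    have h2 : ee (((N : ℝ) - T) / P) ^ P = 1 := by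
      rw [← ee_pow_Four, mul_div_cancel₀ _ hP.ne', ← ee_int ((N : ℤ) - T)]
      push_cast
      rfl
    simp only [ee_pow_Four]
    rw [geom_sum_eq h1, h2, sub_self, zero_div]

theorem sFour : StFour := by
  intro A S k P T hA hk hT
  have e : ∀ v : ℕ, ES A (v / P) ^ k * ee (-(T * v / P)) =
      ∑ a ∈ Fintype.piFinset fun _ : Fin k => A,
        ee (v * ((((∑ i, a i : ℕ) : ℝ) - T) / P)) := fun v => by
    rw [ES, sum_pow', sum_mul]
    refine sum_congr rfl fun a _ => ?_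
    rw [← ee_sum_Four, ← ee_add, ← mul_sum]
    congr 1
    push_cast
    ring
  have hs : ∀ a ∈ Fintype.piFinset fun _ : Fin k => A, ∑ i, a i < P := fun a ha => by
    refine lt_of_le_of_lt ?_ hk
    simpa using sum_le_card_nsmul univ a S fun i _ => hA _ (Fintype.mem_piFinset.1 ha i)
  simp only [e]
  rw [sum_comm, sum_congr rfl fun a ha => orth_Four (hs a ha) hT, ← sum_filter,
    sum_const, nsmul_eq_mul, rp]

end Pool.Agent.MP_2876a2_nt.Tu

end

noncomputable section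
open Finset Filter
open scoped Pointwise


namespace Pool.Agent.MP_2876a2_nt.Tu

theorem pw_Up {Y : ℝ} (hY : 1 ≤ Y) {k : ℕ} (hk : 300000 ≤ k) :
    (Y ^ (-(1 / 60000) : ℝ)) ^ k ≤ Y⁻¹ ^ 4 := by
  have h0 : 0 ≤ Y := zero_le_one.trans hY
  have hk' : (300000 : ℝ) ≤ k := by exact_mod_cast hk
  rw [← Real.rpow_natCast, ← Real.rpow_mul h0, inv_pow, ← Real.rpow_natCast,
    ← Real.rpow_neg h0]
  refine Real.rpow_le_rpow_of_exponent_le hY ?_
  push_cast
  linarith

theorem one_Up {A : Finset ℕ} {S k q : ℕ} {Y0 β : ℝ} {u : ℤ} (hk : 300000 ≤ k) (hD : Dec A S Y0)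
    (hq : 0 < q) (hu : IsCoprime u (q : ℤ)) (hS : qs S q β ^ 2 ≤ S) :
    ‖ES A (u / q + β)‖ ^ k ≤ (A.card : ℝ) ^ k * max Y0 1 ^ 4 * (qs S q β)⁻¹ ^ 4 := by
  have hY := one_le_qs S hq β
  have hz : (1 : ℝ) ≤ max Y0 1 ^ 4 := one_le_pow₀ (le_max_right _ _)
  have hA : (0 : ℝ) ≤ (A.card : ℝ) ^ k := by positivity
  rcases le_total Y0 (qs S q β) with h | h
  · have h1 := pow_le_pow_left₀ (norm_nonneg _) (hD u q β hq hu h hS) k
    rw [mul_pow] at h1
    refine h1.trans ((mul_le_mul_of_nonneg_left (pw_Up hY hk) hA).trans ?_)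
    exact mul_le_mul_of_nonneg_right (le_mul_of_one_le_right hA hz) (by positivity)
  · refine (pow_le_pow_left₀ (norm_nonneg _) (norm_ES_le A _) k).trans ?_
    rw [mul_assoc]
    refine le_mul_of_one_le_right hA ?_
    rw [← mul_pow]
    refine one_le_pow₀ ?_
    rw [← div_eq_mul_inv, le_div_iff₀ (by linarith), one_mul]
    exact h.trans (le_max_left _ _)

theorem sUp (hF : StFour) (hA : StAp) : StUp := by
  intro Y0 k hk
  refine ⟨100 * max Y0 1 ^ 4, by positivity, fun A S hS hle hD T => ?_⟩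
  have hS' : (0 : ℝ) < S := by exact_mod_cast hS
  have hP : k * S < (k + 2) * S := by nlinarith
  rcases le_or_gt ((k + 2) * S) T with hT | hT
  · have h0 : rp A k T = 0 := by
      unfold rp
      rw [card_eq_zero, filter_eq_empty_iff]
      intro a ha h
      have h1 : ∑ i, a i ≤ ∑ _i : Fin k, S :=
        sum_le_sum fun i _ => hle _ (Fintype.mem_piFinset.1 ha i)
      simp only [sum_const, card_univ, Fintype.card_fin, smul_eq_mul] at h1
      omega
    rw [h0, Nat.cast_zero]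
    positivity
  · obtain ⟨u, q, β, h1, h2⟩ := hA (k + 2) S (by omega) hS
    have h3 := congrArg norm (hF A S k ((k + 2) * S) T hle hP hT)
    rw [norm_mul, Complex.norm_natCast, Complex.norm_natCast] at h3
    have h4 : (rp A k T : ℝ) * ((k + 2) * S : ℕ) ≤
        (A.card : ℝ) ^ k * max Y0 1 ^ 4 * (100 * (k + 2 : ℕ)) := by
      rw [h3]
      refine (norm_sum_le _ _).trans (le_trans ?_ (mul_le_mul_of_nonneg_left h2 (by positivity)))
      rw [mul_sum]
      refine sum_le_sum fun v _ => ?_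
      obtain ⟨a1, a2, a3, a4⟩ := h1 v
      rw [norm_mul, norm_ee, mul_one, norm_pow, a3]
      exact one_Up hk hD a1 a2 a4
    rw [le_div_iff₀ hS']
    have hK : (0 : ℝ) < (k + 2 : ℕ) := by positivity
    refine le_of_mul_le_mul_right ?_ hK
    rw [Nat.cast_mul] at h4
    linarith

end Pool.Agent.MP_2876a2_nt.Tu

end

noncomputable section
open Finset Filter
open scoped Pointwise


namespace Pool.Agent.MP_2876a2_nt.Tu

theorem term_Diff {A : Finset ℕ} {S k q0 q T T' : ℕ} {Y0 K ε β : ℝ} {u : ℤ}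
    (hk : 300000 ≤ k) (hD : Dec A S Y0) (hY : Y0 ≤ q0) (hK : 0 < K) (hq0 : 800 * K ≤ q0)
    (hε : ε = 1 / (3200 * K * (q0 : ℝ) ^ 5)) (hq : 0 < q) (hc : IsCoprime u (q : ℤ))
    (hs : qs S q β ^ 2 ≤ S) (hm : T' ≡ T [MOD q0.factorial]) (hT : |(T' : ℝ) - T| ≤ ε * S) :
    ‖ES A (u / q + β) ^ k * (ee (-(T' * (u / q + β))) - ee (-(T * (u / q + β))))‖ ≤
      (A.card : ℝ) ^ k * (1 / (400 * K)) * (qs S q β)⁻¹ ^ 4 := by
  have h1 := one_le_qs S hq β
  set Y := qs S q β with hYd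
  have hY0 : 0 < Y := by linarith
  have hqp : (0 : ℝ) < q0 := by linarith [mul_pos (by norm_num : (0 : ℝ) < 800) hK]
  have hAk : (0 : ℝ) ≤ (A.card : ℝ) ^ k := by positivity
  rw [norm_mul, norm_pow]
  rcases le_or_gt (q0 : ℝ) Y with h | h
  · have h2 := hD u q β hq hc (hY.trans h) hs
    rw [← hYd] at h2
    have h3 : ‖ES A (u / q + β)‖ ^ k ≤ (A.card : ℝ) ^ k * (Y⁻¹ ^ 4 * Y⁻¹) := by
      refine (pow_le_pow_left₀ (norm_nonneg _) h2 k).trans ?_
      rw [mul_pow]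
      refine mul_le_mul_of_nonneg_left ?_ hAk
      have h4 : (300000 : ℝ) ≤ k := by exact_mod_cast hk
      rw [← Real.rpow_natCast, ← Real.rpow_mul hY0.le, ← pow_succ, inv_pow,
        ← Real.rpow_natCast, ← Real.rpow_neg hY0.le]
      refine Real.rpow_le_rpow_of_exponent_le h1 ?_
      push_cast
      linarith
    have h5 : ‖ee (-(T' * (u / q + β))) - ee (-(T * (u / q + β)))‖ ≤ 2 := by
      refine (norm_sub_le _ _).trans ?_
      rw [norm_ee, norm_ee]
      norm_num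
    have h6 : Y⁻¹ ≤ 1 / (800 * K) := by
      rw [one_div]
      exact inv_anti₀ (by positivity) (hq0.trans h)
    calc _ ≤ (A.card : ℝ) ^ k * (Y⁻¹ ^ 4 * Y⁻¹) * 2 :=
          mul_le_mul h3 h5 (norm_nonneg _) (by positivity)
      _ ≤ (A.card : ℝ) ^ k * (Y⁻¹ ^ 4 * (1 / (800 * K))) * 2 := by gcongr
      _ = _ := by field_simp; ring
  · have hqq : q ≤ q0 := by
      have : (q : ℝ) ≤ q0 := (le_qs S q β).trans h.le
      exact_mod_cast this
    obtain ⟨m, hm'⟩ : (q : ℤ) ∣ (T : ℤ) - T' :=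
      (Int.natCast_dvd_natCast.2 (Nat.dvd_factorial hq hqq)).trans hm.dvd
    have hm2 : (T : ℝ) - T' = q * m := by exact_mod_cast hm'
    have hq' : (q : ℝ) ≠ 0 := by positivity
    have e1 : -((T' : ℝ) * (u / q + β)) =
        -(T * (u / q + β)) + (((m * u : ℤ) : ℝ) + ((T : ℝ) - T') * β) := by
      have : (T' : ℝ) = T - q * m := by linarith
      rw [this]
      push_cast
      field_simp
      ring
    have h5 : ‖ee (-(T' * (u / q + β))) - ee (-(T * (u / q + β)))‖ ≤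
        2 * Real.pi * |((T : ℝ) - T') * β| := by
      rw [e1, ee_add, ee_add, ee_int, one_mul, ← mul_sub_one, norm_mul, norm_ee, one_mul]
      exact norm_ee_sub_one _
    have hε0 : 0 < ε := by rw [hε]; positivity
    have h7 : |β| * S ≤ Y := by
      have hq1 : (1 : ℝ) ≤ q := by exact_mod_cast hq
      refine (le_max_right 1 _).trans ?_
      exact le_mul_of_one_le_left (zero_le_one.trans (le_max_left _ _)) hq1
    have h8 : |((T : ℝ) - T') * β| ≤ ε * q0 := by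
      rw [abs_mul, abs_sub_comm]
      calc _ ≤ ε * S * |β| := mul_le_mul_of_nonneg_right hT (abs_nonneg _)
        _ = ε * (|β| * S) := by ring
        _ ≤ ε * q0 := mul_le_mul_of_nonneg_left (h7.trans h.le) hε0.le
    have h9 : (q0 : ℝ)⁻¹ ^ 4 ≤ Y⁻¹ ^ 4 :=
      pow_le_pow_left₀ (by positivity) (inv_anti₀ hY0 h.le) 4
    have h10 : 2 * Real.pi * |((T : ℝ) - T') * β| ≤ 1 / (400 * K) * Y⁻¹ ^ 4 := by
      calc _ ≤ 2 * 4 * (ε * q0) := by
            gcongr
            exact Real.pi_le_four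
        _ = 1 / (400 * K) * (q0 : ℝ)⁻¹ ^ 4 := by rw [hε]; field_simp; ring
        _ ≤ _ := by gcongr
    rw [mul_assoc]
    exact mul_le_mul (pow_le_pow_left₀ (norm_nonneg _) (norm_ES_le A _) k) (h5.trans h10)
      (norm_nonneg _) hAk

theorem sDiff (hF : StFour) (hA : StAp) : StDiff := by
  intro Y0 k hk
  obtain ⟨q0, hq0⟩ := exists_nat_ge (max Y0 (800 * ((k : ℝ) + 2)))
  have hK : (0 : ℝ) < (k : ℝ) + 2 := by positivity
  have hK1 : (1 : ℝ) ≤ (k : ℝ) + 2 := by linarith [Nat.cast_nonneg (α := ℝ) k]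
  have hY : Y0 ≤ q0 := (le_max_left _ _).trans hq0
  have hq : 800 * ((k : ℝ) + 2) ≤ q0 := (le_max_right _ _).trans hq0
  have hq1 : (1 : ℝ) ≤ q0 := by linarith
  have hε1 : 1 / (3200 * ((k : ℝ) + 2) * (q0 : ℝ) ^ 5) ≤ 1 := by
    rw [div_le_one (by positivity)]
    exact one_le_mul_of_one_le_of_one_le (by linarith) (one_le_pow₀ hq1)
  refine ⟨q0.factorial, 1 / (3200 * ((k : ℝ) + 2) * (q0 : ℝ) ^ 5), Nat.factorial_pos _,
    by positivity, hε1, fun A S hS hAS hD T T' hT hm hTT => ?_⟩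
  obtain ⟨u, q, β, h1, h2⟩ := hA (k + 2) S (by omega) hS
  have hS' : (1 : ℝ) ≤ S := by exact_mod_cast hS
  have hP : k * S < (k + 2) * S := by nlinarith
  have hT' : T' < (k + 2) * S := by
    have h3 : (T' : ℝ) - T ≤ S :=
      ((le_abs_self _).trans hTT).trans (mul_le_of_le_one_left (by linarith) hε1)
    have h4 : (T' : ℝ) ≤ T + S := by linarith
    have h5 : T' ≤ T + S := by exact_mod_cast h4
    nlinarith
  have e1 := hF A S k _ T hAS hP (hT.trans_lt hP)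
  have e2 := hF A S k _ T' hAS hP hT'
  have e3 : ‖((rp A k T' : ℂ) - rp A k T) * (((k + 2) * S : ℕ) : ℂ)‖ ≤
      (A.card : ℝ) ^ k * (1 / (400 * ((k : ℝ) + 2))) * (100 * ((k + 2 : ℕ) : ℝ)) := by
    rw [sub_mul, e1, e2, ← sum_sub_distrib]
    refine (norm_sum_le _ _).trans ?_
    refine le_trans (sum_le_sum fun v _ => ?_)
      (le_trans (le_of_eq (mul_sum _ _ _).symm) (mul_le_mul_of_nonneg_left h2 (by positivity)))
    obtain ⟨a1, a2, a3, a4⟩ := h1 v
    rw [← mul_sub, mul_div_assoc, mul_div_assoc, a3]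
    exact term_Diff hk hD hY hK hq rfl a1 a2 a4 hm hTT
  rw [norm_mul, Complex.norm_natCast, ← Complex.ofReal_natCast, ← Complex.ofReal_natCast,
    ← Complex.ofReal_sub, Complex.norm_real, Real.norm_eq_abs] at e3
  rw [le_div_iff₀ (by positivity)]
  push_cast at e3
  have e4 : (A.card : ℝ) ^ k * (1 / (400 * ((k : ℝ) + 2))) * (100 * ((k : ℝ) + 2)) =
      (A.card : ℝ) ^ k / 4 := by field_simp; ring
  rw [e4] at e3
  have hAk : (0 : ℝ) ≤ (A.card : ℝ) ^ k := by positivity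
  nlinarith

end Pool.Agent.MP_2876a2_nt.Tu

end

noncomputable section
/-! A popular sum, by the pigeonhole principle. -/


open Finset Filter
open scoped Pointwise


namespace Pool.Agent.MP_2876a2_nt.Tu

theorem sPop : StPop := by
  intro A S k hS hA hb
  obtain ⟨T, hT, hmax⟩ := exists_max_image (range (k * S + 1)) (fun T => rp A k T)
    ⟨0, mem_range.2 (Nat.succ_pos _)⟩
  have h1 : A.card ^ k = ∑ T ∈ range (k * S + 1), rp A k T := by
    rw [← Fintype.card_piFinset_const]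
    refine card_eq_sum_card_fiberwise (f := fun a : Fin k → ℕ => ∑ i, a i) fun a ha => ?_
    have : ∑ i, a i ≤ ∑ _i : Fin k, S :=
      sum_le_sum fun i _ => (hb _ (Fintype.mem_piFinset.1 (mem_coe.1 ha) i)).1
    rw [sum_const, card_univ, Fintype.card_fin, smul_eq_mul] at this
    exact mem_coe.2 (mem_range.2 (Nat.lt_succ_of_le this))
  have h2 : A.card ^ k ≤ (k * S + 1) * rp A k T := by
    rw [h1]
    simpa using sum_le_card_nsmul _ _ _ hmax
  have h3 : 0 < rp A k T := by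
    have := pow_pos hA.card_pos k
    rcases Nat.eq_zero_or_pos (rp A k T) with h | h
    · rw [h, mul_zero] at h2; omega
    · exact h
  obtain ⟨a, ha⟩ := card_pos.1 h3
  rw [mem_filter] at ha
  refine ⟨T, by have := mem_range.1 hT; omega, ?_, ?_⟩
  · have : ∑ _i : Fin k, S ≤ ∑ i, 3 * a i :=
      sum_le_sum fun i _ => (hb _ (Fintype.mem_piFinset.1 ha.1 i)).2
    rwa [sum_const, card_univ, Fintype.card_fin, smul_eq_mul, ← mul_sum, ha.2] at this
  · have hS' : (0 : ℝ) < S := by exact_mod_cast hS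
    rw [div_le_iff₀ (by positivity), mul_comm]
    have h4 : A.card ^ k ≤ (k + 2) * S * rp A k T :=
      h2.trans (Nat.mul_le_mul_right _ (by nlinarith))
    exact_mod_cast h4

end Pool.Agent.MP_2876a2_nt.Tu

end

noncomputable section
/-! Many ordered representations give one with distinct terms outside a forbidden set. -/


open Finset Filter
open scoped Pointwise


namespace Pool.Agent.MP_2876a2_nt.Tu

/-- the tuples counted by `rp` -/
def R_Inj (A : Finset ℕ) (k T : ℕ) : Finset (Fin k → ℕ) :=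
  (Fintype.piFinset fun _ : Fin k => A).filter fun a => ∑ i, a i = T

lemma mem_Inj {A : Finset ℕ} {k T : ℕ} {a : Fin k → ℕ} :
    a ∈ R_Inj A k T ↔ (∀ i, a i ∈ A) ∧ ∑ i, a i = T := by
  simp only [R_Inj, mem_filter, Fintype.mem_piFinset]

lemma fib_Inj (A : Finset ℕ) (n T f : ℕ) (i : Fin (n + 1)) (p : (Fin n → ℕ) → Prop)
    [DecidablePred p] :
    ((R_Inj A (n + 1) T).filter fun a => a i = f ∧ p fun j => a (i.succAbove j)).card ≤
      ((R_Inj A n (T - f)).filter p).card := by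
  refine card_le_card_of_injOn (fun a j => a (i.succAbove j)) (fun a ha => ?_)
    fun a ha b hb hab => ?_
  · obtain ⟨h1, h2, h3⟩ := mem_filter.1 (mem_coe.1 ha)
    obtain ⟨h4, h5⟩ := mem_Inj.1 h1
    rw [Fin.sum_univ_succAbove _ i, h2] at h5
    exact mem_coe.2 (mem_filter.2 ⟨mem_Inj.2 ⟨fun j => h4 _, Nat.eq_sub_of_add_eq' h5⟩, h3⟩)
  · funext j
    rcases Fin.eq_self_or_eq_succAbove i j with rfl | ⟨j1, rfl⟩
    · rw [(mem_filter.1 (mem_coe.1 ha)).2.1, (mem_filter.1 (mem_coe.1 hb)).2.1]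
    · exact congrFun hab j1

lemma one_Inj (A : Finset ℕ) (n T f : ℕ) (i : Fin (n + 1)) :
    ((R_Inj A (n + 1) T).filter fun a => a i = f).card ≤ rp A n (T - f) := by
  have h := fib_Inj A n T f i fun _ => True
  simp only [and_true, filter_true] at h
  exact h

lemma two_Inj (A : Finset ℕ) (n T f : ℕ) {i j : Fin (n + 2)} (h : j ≠ i) :
    ((R_Inj A (n + 2) T).filter fun a => a i = f ∧ a j = f).card ≤ rp A n (T - f - f) := by
  obtain ⟨j1, rfl⟩ := Fin.exists_succAbove_eq h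
  exact (fib_Inj A (n + 1) T f i fun b => b j1 = f).trans (one_Inj A n (T - f) f j1)

lemma bi_Inj {ι β : Type} [DecidableEq β] (s : Finset ι) (t : ι → Finset β) {U : ℝ}
    (h : ∀ i ∈ s, ((t i).card : ℝ) ≤ U) : ((s.biUnion t).card : ℝ) ≤ s.card * U := by
  have h1 : ((s.biUnion t).card : ℝ) ≤ ∑ i ∈ s, ((t i).card : ℝ) := by
    exact_mod_cast card_biUnion_le
  exact h1.trans ((sum_le_card_nsmul _ _ _ h).trans (le_of_eq (nsmul_eq_mul _ _)))

theorem sInj : StInj := by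
  intro A F k T U1 U2 h1 h2 hlt
  by_contra hne
  have hU : 0 ≤ U2 := (Nat.cast_nonneg _).trans (h2 0)
  have hsub : R_Inj A (k + 2) T ⊆
      ((univ ×ˢ F).biUnion fun q : Fin (k + 2) × ℕ =>
        (R_Inj A (k + 2) T).filter fun a => a q.1 = q.2) ∪
      (((univ : Finset (Fin (k + 2))).offDiag ×ˢ A).biUnion fun q =>
        (R_Inj A (k + 2) T).filter fun a => a q.1.1 = q.2 ∧ a q.1.2 = q.2) := by
    intro a ha
    obtain ⟨h4, h5⟩ := mem_Inj.1 ha
    by_contra hb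
    rw [mem_union, not_or] at hb
    have hi : Function.Injective a := fun i j hij => by
      by_contra hn
      exact hb.2 (mem_biUnion.2 ⟨((i, j), a j), mem_product.2
        ⟨mem_offDiag.2 ⟨mem_univ _, mem_univ _, hn⟩, h4 j⟩, mem_filter.2 ⟨ha, hij, rfl⟩⟩)
    refine hne ⟨univ.image a, fun z hz => ?_, disjoint_left.2 fun z hz hF => ?_, ?_, ?_⟩
    · obtain ⟨i, -, rfl⟩ := mem_image.1 hz
      exact h4 i
    · obtain ⟨i, -, rfl⟩ := mem_image.1 hz
      exact hb.1 (mem_biUnion.2 ⟨(i, a i), mem_product.2 ⟨mem_univ _, hF⟩,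
        mem_filter.2 ⟨ha, rfl⟩⟩)
    · rw [card_image_of_injective _ hi, card_univ, Fintype.card_fin]
    · rw [sum_image fun i _ j _ hij => hi hij, h5]
  have b1 := bi_Inj (univ ×ˢ F) (fun q : Fin (k + 2) × ℕ =>
    (R_Inj A (k + 2) T).filter fun a => a q.1 = q.2) (U := U1) fun q _ =>
      le_trans (Nat.cast_le.2 (one_Inj A (k + 1) T q.2 q.1)) (h1 _)
  have b2 := bi_Inj ((univ : Finset (Fin (k + 2))).offDiag ×ˢ A) (fun q =>
    (R_Inj A (k + 2) T).filter fun a => a q.1.1 = q.2 ∧ a q.1.2 = q.2) (U := U2) fun q hq =>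
      le_trans (Nat.cast_le.2 (two_Inj A k T q.2
        (mem_offDiag.1 (mem_product.1 hq).1).2.2.symm)) (h2 _)
  have c2 : (((univ : Finset (Fin (k + 2))).offDiag ×ˢ A).card : ℝ) ≤ (k + 2) ^ 2 * A.card := by
    have e : ((univ : Finset (Fin (k + 2))).offDiag ×ˢ A).card ≤ (k + 2) ^ 2 * A.card := by
      rw [card_product, offDiag_card, card_univ, Fintype.card_fin, pow_two]
      exact Nat.mul_le_mul_right _ (Nat.sub_le _ _)
    exact_mod_cast e
  rw [card_product, card_univ, Fintype.card_fin] at b1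
  push_cast at b1
  have c3 : (rp A (k + 2) T : ℝ) ≤ _ :=
    Nat.cast_le.2 ((card_le_card hsub).trans (card_union_le _ _))
  rw [Nat.cast_add] at c3
  have c4 := mul_le_mul_of_nonneg_right c2 hU
  linarith

end Pool.Agent.MP_2876a2_nt.Tu

end

noncomputable section
open Finset Filter
open scoped Pointwise


namespace Pool.Agent.MP_2876a2_nt.Tu

theorem sGrp : StGrp := by
  intro A k W G T0 T e hG h1 h2 h3 h4 h
  have e0 : 0 ≤ e := (abs_nonneg _).trans h4
  have step : ∀ (g T' : ℕ) (Z : Finset ℕ), g ≤ G → T' ≡ T0 [MOD W] → |(T' : ℝ) - T0| ≤ e →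
      Z ⊆ A → Z.card = g * k → ∃ Z' : Finset ℕ, Z' ⊆ A ∧ Z'.card = (g + 1) * k ∧
        ∑ z ∈ Z', z = T' + ∑ z ∈ Z, z := by
    intro g T' Z hg a b c d
    obtain ⟨Y, y1, y2, y3, y4⟩ := h T' Z a b (d ▸ Nat.mul_le_mul_right k hg)
    exact ⟨Y ∪ Z, union_subset y1 c, by rw [card_union_of_disjoint y2, y3, d]; ring,
      by rw [sum_union y2, y4]⟩
  have ind : ∀ g, g ≤ G → ∃ Z : Finset ℕ, Z ⊆ A ∧ Z.card = g * k ∧ ∑ z ∈ Z, z = g * T0 := by
    intro g
    induction g with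
    | zero => exact fun _ => ⟨∅, empty_subset _, by simp, by simp⟩
    | succ g ih =>
      intro hg
      obtain ⟨Z, z1, z2, z3⟩ := ih (by omega)
      obtain ⟨Y, y1, y2, y3⟩ := step g T0 Z (by omega) (Nat.ModEq.refl _) (by simpa using e0) z1 z2
      exact ⟨Y, y1, y2, by rw [y3, z3]; ring⟩
  obtain ⟨g, rfl⟩ : ∃ g, G = g + 1 := ⟨G - 1, by omega⟩
  obtain ⟨Z, z1, z2, z3⟩ := ind g (by omega)
  have hle : g * T0 ≤ T := by
    have := (abs_le.1 h4).1
    have h5 : ((g * T0 : ℕ) : ℝ) ≤ T := by push_cast at this ⊢; linarith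
    exact_mod_cast h5
  obtain ⟨T1, rfl⟩ := Nat.exists_eq_add_of_le' hle
  have hm : T1 ≡ T0 [MOD W] := by
    have a : T1 + (g + 1) * T0 ≡ T1 + 0 [MOD W] :=
      Nat.ModEq.add_left _ ((Nat.modEq_zero_iff_dvd).2 (h1.mul_right T0))
    have b : (T1 + g * T0) + T0 ≡ 0 + T0 [MOD W] :=
      Nat.ModEq.add_right _ ((Nat.modEq_zero_iff_dvd).2 h2)
    rw [show T1 + g * T0 + T0 = T1 + (g + 1) * T0 by ring, zero_add] at b
    exact a.symm.trans b
  obtain ⟨Y, y1, y2, y3⟩ := step g T1 Z (by omega) hm (by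
    refine le_of_eq_of_le ?_ h4
    congr 1
    push_cast
    ring) z1 z2
  exact ⟨Y, y1, y2, by rw [y3, z3]⟩

end Pool.Agent.MP_2876a2_nt.Tu

end

noncomputable section
open Finset Filter
open scoped Pointwise


namespace Pool.Agent.MP_2876a2_nt.Tu

theorem num_Rep {a k f g C1 C2 S p : ℝ} (hk : 0 < k) (hC : 0 ≤ C1) (hS : 0 < S) (hp : 0 < p)
    (hf : f ≤ g) (ha0 : 0 < a) (ha : 2 * (k + 2) * (k * g * C1 + k ^ 2 * C2) < a) :
    k * f * (C1 * (p * a) / S) + k ^ 2 * a * (C2 * p / S) < p * a * a / (2 * (k + 2) * S) := by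
  have h1 : k * f * C1 ≤ k * g * C1 :=
    mul_le_mul_of_nonneg_right (mul_le_mul_of_nonneg_left hf hk.le) hC
  have h2 : k * f * C1 + k ^ 2 * C2 < a / (2 * (k + 2)) := by
    rw [lt_div_iff₀ (by positivity)]
    nlinarith
  calc _ = (k * f * C1 + k ^ 2 * C2) * (p * a / S) := by ring
    _ < a / (2 * (k + 2)) * (p * a / S) := mul_lt_mul_of_pos_right h2 (by positivity)
    _ = _ := by field_simp

theorem sRep (hU : StUp) (hD : StDiff) (hP : StPop) (hI : StInj) (hG : StGrp) : StRep := by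
  intro Y0
  obtain ⟨k0, hk0⟩ : ∃ k0 : ℕ, 300000 ≤ k0 := ⟨_, le_rfl⟩
  obtain ⟨C1, hC1, h1⟩ := hU Y0 (k0 + 1) (by omega)
  obtain ⟨C2, hC2, h2⟩ := hU Y0 k0 hk0
  obtain ⟨W, ε, hW, hε, hε1, h3⟩ := hD Y0 (k0 + 2) (by omega)
  refine ⟨k0 + 2, W, ε, by omega, hW, hε, fun G hG0 hWG => ?_⟩
  obtain ⟨M, hM⟩ := exists_nat_gt (2 * ((k0 + 2 : ℝ) + 2) *
    ((k0 + 2) * ((G * (k0 + 2) : ℕ) : ℝ) * C1 + (k0 + 2) ^ 2 * C2))
  refine ⟨M + 1, fun A S hS hA hb hd => ?_⟩
  have hA0 : 0 < A.card := by omega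
  have hb1 : ∀ a ∈ A, a ≤ S := fun a ha => (hb a ha).1
  obtain ⟨T0, t1, t2, t3⟩ := hP A S (k0 + 2) hS (card_pos.1 hA0) hb
  refine ⟨T0, t1, t2, fun T hT hT' => hG A (k0 + 2) W G T0 T (ε * S) hG0 hWG hT ?_ hT'
    fun T' F f1 f2 f3 => ?_⟩
  · have e1 : S ≤ T0 := by nlinarith
    have e2 : (S : ℝ) ≤ T0 := by exact_mod_cast e1
    exact (mul_le_of_le_one_left (Nat.cast_nonneg _) hε1).trans e2
  · refine hI A F k0 T' _ _ (h1 A S hS hb1 hd) (h2 A S hS hb1 hd) ?_
    have S0 : (0 : ℝ) < S := by exact_mod_cast hS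
    have a0 : (0 : ℝ) < A.card := by exact_mod_cast hA0
    have a1 : (M : ℝ) ≤ A.card := by exact_mod_cast (by omega : M ≤ A.card)
    have e1 := (abs_le.1 (h3 A S hS hb1 hd T0 T' t1 f1 f2)).1
    have e2 := num_Rep (k := (k0 : ℝ) + 2) (f := F.card) (C2 := C2) (by positivity) hC1 S0
      (pow_pos a0 k0) (by exact_mod_cast f3) a0 (hM.trans_le a1)
    have e3 : (A.card : ℝ) ^ (k0 + 2) / ((((k0 + 2 : ℕ) : ℝ) + 2) * S) =
        2 * ((A.card : ℝ) ^ (k0 + 2) / (2 * (((k0 + 2 : ℕ) : ℝ) + 2) * S)) := by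
      field_simp
    rw [e3] at t3
    rw [← pow_succ, ← pow_succ] at e2
    push_cast at e1 t3
    linarith

end Pool.Agent.MP_2876a2_nt.Tu

end

noncomputable section
open Finset Filter
open scoped Pointwise


namespace Pool.Agent.MP_2876a2_nt.Tu

theorem big_Cof (c : ℝ) : ∃ U : Finset ℕ, (∀ p ∈ U, p.Prime) ∧ c ≤ ∑ p ∈ U, (1 / p : ℝ) := by
  by_contra hcon
  push Not at hcon
  refine not_summable_one_div_on_primes (summable_of_sum_le (c := c) ?_ fun u => ?_)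
  · intro n
    exact Set.indicator_nonneg (fun p _ => by positivity) _
  · have h := hcon (u.filter Nat.Prime) fun p hp => (mem_filter.1 hp).2
    refine le_trans (le_of_eq ?_) h.le
    rw [sum_filter]
    refine sum_congr rfl fun p _ => ?_
    by_cases hp : p.Prime
    · rw [if_pos hp, Set.indicator_of_mem (by exact hp)]
    · rw [if_neg hp, Set.indicator_of_notMem (by exact hp)]

theorem prod_ge_Cof (V : Finset ℕ) : 1 + ∑ p ∈ V, (1 / p : ℝ) ≤ ∏ p ∈ V, (1 + 1 / p : ℝ) := by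
  induction V using Finset.induction_on with
  | empty => simp
  | insert a s ha ih =>
    rw [sum_insert ha, prod_insert ha]
    have h1 : (0 : ℝ) ≤ 1 / a := by positivity
    have h2 : (0 : ℝ) ≤ ∑ p ∈ s, (1 / p : ℝ) := sum_nonneg fun p _ => by positivity
    nlinarith [mul_le_mul_of_nonneg_left ih h1, mul_nonneg h1 h2]

theorem sig_Cof (V : Finset ℕ) (hV : ∀ p ∈ V, p.Prime) :
    (sg (∏ p ∈ V, p) : ℝ) / (∏ p ∈ V, p : ℕ) = ∏ p ∈ V, (1 + 1 / p : ℝ) := by
  have h := ArithmeticFunction.IsMultiplicative.map_prod_of_prime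
    (ArithmeticFunction.isMultiplicative_sigma (k := 1)) V hV
  rw [show sg (∏ p ∈ V, p) = ∏ p ∈ V, sg p from h]
  push_cast
  rw [← prod_div_distrib]
  refine prod_congr rfl fun p hp => ?_
  have hp0 : (p : ℝ) ≠ 0 := by exact_mod_cast (hV p hp).ne_zero
  have h1 : sg p = p + 1 := by
    have := ArithmeticFunction.sigma_one_apply_prime_pow (i := 1) (hV p hp)
    simpa [sum_range_succ, add_comm] using this
  rw [h1]
  push_cast
  field_simp

theorem thin_Cof (N : ℕ → ℕ) (hN : ∀ i, N i ≠ 0)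
    (ht : ∀ t, ∑ i ∈ range t, ∑ p ∈ (N i).primeFactors, (1 / p : ℝ) ≤ 1) (W : Finset ℕ)
    (hW : ∀ p ∈ W, p.Prime ∧ ∃ i, p ∣ N i) : ∑ p ∈ W, (1 / p : ℝ) ≤ 1 := by
  classical
  have hex : ∃ t0, W ⊆ (range t0).biUnion fun i => (N i).primeFactors := by
    choose! f hf using fun p hp => (hW p hp).2
    refine ⟨W.sup f + 1, fun p hp => mem_biUnion.2 ⟨f p, ?_, ?_⟩⟩
    · exact mem_range.2 (Nat.lt_succ_of_le (le_sup (f := f) hp))
    · exact Nat.mem_primeFactors.2 ⟨(hW p hp).1, hf p hp, hN _⟩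
  obtain ⟨t0, h0⟩ := hex
  refine le_trans ?_ (ht t0)
  refine (sum_le_sum_of_subset_of_nonneg h0 fun p _ _ => by positivity).trans ?_
  generalize range t0 = I
  induction I using Finset.induction_on with
  | empty => simp
  | insert a s ha ih =>
    rw [biUnion_insert, sum_insert ha]
    have h := sum_union_inter (s₁ := (N a).primeFactors)
      (s₂ := s.biUnion fun i => (N i).primeFactors) (f := fun p : ℕ => (1 / p : ℝ))
    have h2 : (0 : ℝ) ≤ ∑ p ∈ (N a).primeFactors ∩ s.biUnion fun i => (N i).primeFactors,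
        (1 / p : ℝ) := sum_nonneg fun p _ => by positivity
    linarith

theorem small_Cof (z : ℕ) (W : Finset ℕ) (hW : ∀ p ∈ W, p ≤ z) :
    ∑ p ∈ W, (1 / p : ℝ) ≤ z + 1 := by
  have h1 : ∑ p ∈ W, (1 / p : ℝ) ≤ ∑ p ∈ W, (1 : ℝ) := by
    refine sum_le_sum fun p _ => ?_
    rcases Nat.eq_zero_or_pos p with rfl | hp
    · simp
    · exact (div_le_one (by exact_mod_cast hp)).2 (by exact_mod_cast hp)
  have h2 : W.card ≤ z + 1 := by
    have : W ⊆ range (z + 1) := fun p hp => mem_range.2 (Nat.lt_succ_of_le (hW p hp))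
    simpa using card_le_card this
  rw [sum_const, nsmul_eq_mul, mul_one] at h1
  exact h1.trans (by exact_mod_cast h2)

theorem sCof : StCof := by
  classical
  intro N hN ht t ε h1t hε
  obtain ⟨z0, hz0⟩ := exists_nat_ge (t / ε)
  set z := z0 + 2 with hz
  have hzpos : (0 : ℝ) < z := by rw [hz]; positivity
  have htz : t / z ≤ ε := by
    rw [div_le_iff₀ hzpos]
    rw [div_le_iff₀ hε] at hz0
    have : (z0 : ℝ) ≤ z := by rw [hz]; push_cast; linarith
    nlinarith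
  obtain ⟨U, hUp, hU⟩ := big_Cof (t + z + 2)
  set V := U.filter fun p => z < p ∧ ∀ i, ¬ p ∣ N i with hV
  have hVsum : t ≤ ∑ p ∈ V, (1 / p : ℝ) := by
    have e1 := sum_filter_add_sum_filter_not U (fun p => z < p ∧ ∀ i, ¬ p ∣ N i)
      (fun p : ℕ => (1 / p : ℝ))
    set R := U.filter fun p => ¬ (z < p ∧ ∀ i, ¬ p ∣ N i) with hR
    have e2 := sum_filter_add_sum_filter_not R (fun p => p ≤ z) (fun p : ℕ => (1 / p : ℝ))
    have e3 := small_Cof z (R.filter fun p => p ≤ z) fun p hp => (mem_filter.1 hp).2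
    have e4 := thin_Cof N hN ht (R.filter fun p => ¬ p ≤ z) fun p hp => by
      obtain ⟨hp1, hp2⟩ := mem_filter.1 hp
      obtain ⟨hp3, hp4⟩ := mem_filter.1 hp1
      refine ⟨hUp p hp3, ?_⟩
      by_contra hc
      exact hp4 ⟨not_le.1 hp2, fun i hi => hc ⟨i, hi⟩⟩
    linarith
  have hVprod : t ≤ ∏ p ∈ V, (1 + 1 / p : ℝ) := by
    have := prod_ge_Cof V
    linarith
  obtain ⟨V1, hV1, hmin⟩ := exists_min_image
    (V.powerset.filter fun X : Finset ℕ => t ≤ ∏ p ∈ X, (1 + 1 / (p : ℕ) : ℝ)) card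
    ⟨V, mem_filter.2 ⟨mem_powerset_self V, hVprod⟩⟩
  obtain ⟨hsub, hge⟩ := mem_filter.1 hV1
  have hsub' := mem_powerset.1 hsub
  have hmem : ∀ p ∈ V1, p.Prime ∧ z < p ∧ ∀ i, ¬ p ∣ N i := fun p hp =>
    ⟨hUp p (mem_filter.1 (hsub' hp)).1, (mem_filter.1 (hsub' hp)).2⟩
  have hsig := sig_Cof V1 fun p hp => (hmem p hp).1
  refine ⟨∏ p ∈ V1, p, prod_pos fun p hp => (hmem p hp).1.pos, ?_, ?_, ?_, ?_⟩
  · intro h2
    obtain ⟨p, hp, h2p⟩ := (Nat.prime_two.prime.dvd_finsetProd_iff _).1 h2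
    have := (Nat.prime_dvd_prime_iff_eq Nat.prime_two (hmem p hp).1).1 h2p
    have := (hmem p hp).2.1
    omega
  · intro i
    exact Nat.Coprime.prod_left fun p hp =>
      (Nat.Prime.coprime_iff_not_dvd (hmem p hp).1).2 ((hmem p hp).2.2 i)
  · rw [hsig]; exact hge
  · rw [hsig]
    rcases V1.eq_empty_or_nonempty with he | ⟨p, hp⟩
    · rw [he, prod_empty]; linarith
    · have hlt : ∏ q ∈ V1.erase p, (1 + 1 / q : ℝ) < t := by
        by_contra hc
        have := hmin (V1.erase p) (mem_filter.2 ⟨mem_powerset.2 ((erase_subset _ _).trans hsub'),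
          not_lt.1 hc⟩)
        have h3 := card_erase_lt_of_mem hp
        omega
      rw [← mul_prod_erase V1 (fun q : ℕ => (1 + 1 / q : ℝ)) hp]
      have hpz : (1 / p : ℝ) ≤ 1 / z :=
        one_div_le_one_div_of_le hzpos (by exact_mod_cast (hmem p hp).2.1.le)
      have hp0 : (0 : ℝ) ≤ 1 / p := by positivity
      have h4 : (1 + 1 / p : ℝ) * ∏ q ∈ V1.erase p, (1 + 1 / q : ℝ) ≤ (1 + 1 / p) * t :=
        mul_le_mul_of_nonneg_left hlt.le (by linarith)
      have h5 : 1 / (p : ℝ) * t ≤ 1 / z * t := mul_le_mul_of_nonneg_right hpz (by linarith)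
      have h6 : 1 / (z : ℝ) * t = t / z := by ring
      nlinarith

end Pool.Agent.MP_2876a2_nt.Tu

end

noncomputable section
open Finset Filter
open scoped Pointwise


namespace Pool.Agent.MP_2876a2_nt.Tu

theorem sg_pow_Two (a : ℕ) : sg (2 ^ a) + 1 = 2 ^ (a + 1) := by
  rw [sg, ArithmeticFunction.sigma_one_apply_prime_pow Nat.prime_two]
  induction a with
  | zero => simp
  | succ a ih => rw [sum_range_succ]; omega

theorem sTwo : StTwo := by
  intro c L a0 hc h2 hL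
  obtain ⟨w, L1, hodd, rfl⟩ := Nat.exists_eq_two_pow_mul_odd hL.ne'
  have hc2 : Nat.Coprime 2 c := (Nat.Prime.coprime_iff_not_dvd Nat.prime_two).2 h2
  have hn : Nat.Coprime 2 (c * L1) := hc2.mul_right (Nat.coprime_two_left.2 hodd)
  have hφ : 0 < (c * L1).totient := Nat.totient_pos.2 (Nat.mul_pos hc hodd.pos)
  obtain ⟨a, ha⟩ : ∃ a, a + 1 = (c * L1).totient * (a0 + 1) :=
    ⟨_, Nat.sub_add_cancel (Nat.mul_pos hφ a0.succ_pos)⟩
  have hm : sg (2 ^ a * c) = sg (2 ^ a) * sg c :=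
    ArithmeticFunction.isMultiplicative_sigma.map_mul_of_coprime (hc2.pow_left a)
  have hs := sg_pow_Two a
  have hd : c * L1 ∣ sg (2 ^ a) := by
    have h := (Nat.ModEq.pow_totient hn).pow (a0 + 1)
    rw [← pow_mul, ← ha, one_pow, ← hs] at h
    exact (Nat.modEq_zero_iff_dvd).1 (Nat.ModEq.add_right_cancel' 1 (by simpa using h))
  refine ⟨a, a + w, by nlinarith, by rw [hm, ← hs]; ring, ?_⟩
  rintro S ⟨T, rfl⟩
  obtain ⟨u, hu⟩ := hd
  exact ⟨u * sg c * T, by rw [hm, hu]; ring⟩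

end Pool.Agent.MP_2876a2_nt.Tu

end

noncomputable section
open Finset Filter
open scoped Pointwise


namespace Pool.Agent.MP_2876a2_nt.Tu

theorem sCo (hC : StCof) (hT : StTwo) : StCo := by
  intro N hN h2 hs t ε L ht hε hL
  obtain ⟨c, c0, c2, cN, l1, l2⟩ := hC N hN hs (t / 2) (ε / 4) (by linarith) (by linarith)
  have cp : (0 : ℝ) < c := by exact_mod_cast c0
  obtain ⟨a0, ha0⟩ := pow_unbounded_of_one_lt ((sg c : ℝ) / c / ε) (one_lt_two (α := ℝ))
  obtain ⟨a, e, ha, h1, hd⟩ := hT c L a0 c0 c2 hL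
  refine ⟨2 ^ a * c, e, by positivity, fun i => Nat.Coprime.mul_left
    (((Nat.Prime.coprime_iff_not_dvd Nat.prime_two).2 (h2 i)).pow_left a) (cN i), ?_, hd⟩
  have p : (0 : ℝ) < 2 ^ a := by positivity
  have h3 : (sg (2 ^ a * c) : ℝ) + sg c = 2 ^ (a + 1) * sg c := by exact_mod_cast h1
  have e1 : (sg (2 ^ a * c) : ℝ) / ((2 ^ a * c : ℕ) : ℝ) =
      2 * ((sg c : ℝ) / c) - (sg c : ℝ) / c / 2 ^ a := by
    rw [eq_sub_of_add_eq h3]
    push_cast
    field_simp
    ring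
  have e2 : (sg c : ℝ) / c / 2 ^ a ≤ ε := by
    rw [div_le_iff₀ p, mul_comm, ← div_le_iff₀ hε]
    exact ha0.le.trans (pow_le_pow_right₀ one_le_two ha)
  have e3 : 0 ≤ (sg c : ℝ) / c / 2 ^ a := by positivity
  rw [e1, abs_le]
  constructor <;> linarith

end Pool.Agent.MP_2876a2_nt.Tu

end
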