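import Pool.Agent.MP_2876a2_nt.Tu.St2

/-!
Fibres of the divisor sum, coloured blocks and cofactors.
-/

set_option autoImplicit false
set_option linter.all false

noncomputable section
open Finset Filter
open scoped Pointwise


namespace Pool.Agent.MP_2876a2_nt.Tu

lemma om_Psi {n L : ℕ} (h0 : n ≠ 0) (h : n ≤ 2 ^ L) :
    ∑ p ∈ n.primeFactors, n.factorization p ≤ L := by
  refine (Nat.pow_le_pow_iff_right Nat.one_lt_two).1 (le_trans ?_ h)
  rw [← Finset.prod_pow_eq_pow_sum]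
  conv_rhs => rw [← Nat.prod_factorization_pow_eq_self h0]
  exact Finset.prod_le_prod' fun p hp =>
    Nat.pow_le_pow_left (Nat.prime_of_mem_primeFactors hp).two_le _

open Classical in
lemma card_Psi (N L r : ℕ) (h : N ≤ 2 ^ L) :
    ((Icc 1 N).filter fun n => Sm r n).card ≤ (r + L).choose r := by
  have hc : (finsuppAntidiag (range (r + 1)) L).card = (r + L).choose r := by
    rw [card_finsuppAntidiag_nat_eq_choose, card_range, show r + 1 + L - 1 = r + L by omega,
      Nat.choose_symm_add]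
  rw [← hc]
  refine card_le_card_of_injOn (fun n => n.factorization +
    Finsupp.single 0 (L - ∑ p ∈ n.primeFactors, n.factorization p)) (fun n hn => ?_) ?_
  · rw [coe_filter, Set.mem_ofPred_eq, mem_Icc] at hn
    have hs : n.primeFactors ⊆ range (r + 1) := fun p hp => mem_range.2 (Nat.lt_succ_of_le
      (hn.2 p (Nat.prime_of_mem_primeFactors hp) (Nat.dvd_of_mem_primeFactors hp)))
    have h1 := om_Psi (n := n) (by omega) (hn.1.2.trans h)
    rw [mem_coe, mem_finsuppAntidiag]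
    constructor
    · simp only [Finsupp.coe_add, Pi.add_apply, sum_add_distrib]
      rw [← sum_subset hs fun p _ hp => Finsupp.notMem_support_iff.1 hp,
        sum_eq_single 0 (fun p _ hp => Finsupp.single_eq_of_ne hp) (by simp),
        Finsupp.single_eq_same]
      omega
    · refine Finsupp.support_add.trans (union_subset hs (Finsupp.support_single_subset.trans ?_))
      simp
  · intro n hn m hm e
    rw [coe_filter, Set.mem_ofPred_eq, mem_Icc] at hn hm
    refine Nat.eq_of_factorization_eq (by omega) (by omega) fun p => ?_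
    rcases eq_or_ne p 0 with rfl | hp
    · simp
    · have := DFunLike.congr_fun e p
      simpa [Finsupp.single_eq_of_ne hp] using this

lemma fac_Psi (r : ℕ) : r ^ r ≤ 3 ^ r * r.factorial := by
  have h1 := Real.pow_div_factorial_le_exp (r : ℝ) (Nat.cast_nonneg r) r
  have h2 : Real.exp r ≤ 3 ^ r := by
    rw [← Real.exp_one_pow]
    exact pow_le_pow_left₀ (Real.exp_pos 1).le (by linarith [Real.exp_one_lt_d9]) r
  rw [div_le_iff₀ (by positivity)] at h1
  have h3 : (r : ℝ) ^ r ≤ 3 ^ r * r.factorial :=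
    h1.trans (mul_le_mul_of_nonneg_right h2 (Nat.cast_nonneg _))
  exact_mod_cast h3

theorem sPsi : StPsi := by
  intro E
  filter_upwards [eventually_ge_atTop ((3 + 6 * E) ^ 2)] with j hj r hr
  have hq : 3 + 6 * E ≤ j.sqrt := Nat.le_sqrt'.2 hj
  have h1 : j ≤ 2 ^ (j.sqrt * 2) := by
    rw [pow_mul]
    exact (Nat.lt_succ_sqrt' j).le.trans (Nat.pow_le_pow_left Nat.lt_two_pow_self 2)
  have h2 : j ^ (E * r) ≤ 2 ^ (j.sqrt * 2 * (E * r)) := by
    rw [pow_mul 2]
    exact Nat.pow_le_pow_left h1 _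
  have h3 : 3 * (1 + j.sqrt * 2 * E) ≤ j := by
    have a1 := Nat.sqrt_le j
    have a2 := Nat.mul_le_mul_left j.sqrt hq
    have a3 : 3 ≤ j.sqrt * 3 := by omega
    nlinarith
  refine (card_Psi _ _ r h2).trans (Nat.le_of_mul_le_mul_right ?_ (pow_pos hr r))
  calc (r + j.sqrt * 2 * (E * r)).choose r * r ^ r
      ≤ (r + j.sqrt * 2 * (E * r)).choose r * (3 ^ r * r.factorial) :=
        Nat.mul_le_mul_left _ (fac_Psi r)
    _ = 3 ^ r * (r + j.sqrt * 2 * (E * r)).descFactorial r := by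
        rw [Nat.descFactorial_eq_factorial_mul_choose]
        ring
    _ ≤ 3 ^ r * (r + j.sqrt * 2 * (E * r)) ^ r :=
        Nat.mul_le_mul_left _ (Nat.descFactorial_le_pow _ _)
    _ = (3 * (1 + j.sqrt * 2 * E)) ^ r * r ^ r := by
        rw [← mul_pow, ← mul_pow]
        congr 1
        ring
    _ ≤ j ^ r * r ^ r := Nat.mul_le_mul_right _ (Nat.pow_le_pow_left h3 r)

end Pool.Agent.MP_2876a2_nt.Tu

end

noncomputable section
open Finset Filter
open scoped Pointwise


namespace Pool.Agent.MP_2876a2_nt.Tu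

lemma choose_Fib (m : ℕ) : ∀ r : ℕ, m ^ r ≤ (m * r).choose r := by
  intro r
  induction r with
  | zero => simp
  | succ r ih =>
    have h := Nat.add_choose_eq (m * r) m (r + 1)
    have h2 : (m * r).choose r * m.choose 1 ≤
        ∑ ij ∈ antidiagonal (r + 1), (m * r).choose ij.1 * m.choose ij.2 :=
      Finset.single_le_sum (f := fun ij : ℕ × ℕ => (m * r).choose ij.1 * m.choose ij.2)
        (fun _ _ => Nat.zero_le _) (a := (r, 1)) (by simp)
    rw [Nat.choose_one_right] at h2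
    calc m ^ (r + 1) = m ^ r * m := pow_succ _ _
      _ ≤ (m * r).choose r * m := Nat.mul_le_mul_right _ ih
      _ ≤ (m * r + m).choose (r + 1) := h ▸ h2
      _ = (m * (r + 1)).choose (r + 1) := by rw [Nat.mul_succ]

theorem sFib (hP : StPsi) : StFib := by
  filter_upwards [hP 5001, eventually_ge_atTop 3] with j hj h3 P hc hG
  classical
  have hj0 : 0 < j := by omega
  have hcard : P.card = j ^ 2508 * j ^ 2490 := by rw [hc, ← pow_add]
  have hr1 : 1 ≤ j ^ 2490 := Nat.one_le_pow _ _ hj0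
  have hG' : ∀ p ∈ P, p + 1 ≤ j ^ 5001 ∧ Sm (j ^ 2490) (p + 1) := by
    intro p hp
    obtain ⟨-, -, h2, h4⟩ := hG p hp
    refine ⟨?_, h4⟩
    have h1 : 1 ≤ j ^ 5000 := Nat.one_le_pow _ _ hj0
    have h5 : j ^ 5001 = j ^ 5000 * j := pow_succ _ _
    have h6 : j ^ 5000 * 3 ≤ j ^ 5000 * j := Nat.mul_le_mul_left _ h3
    omega
  clear hc hG
  generalize j ^ 2490 = r at *
  have hT := hj r hr1
  have hmaps : ∀ b ∈ P.powersetCard r, ∏ p ∈ b, (p + 1) ∈
      (Icc 1 (j ^ (5001 * r))).filter fun n => Sm r n := by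
    intro b hb
    obtain ⟨hbP, hbc⟩ := mem_powersetCard.1 hb
    refine mem_filter.2 ⟨mem_Icc.2 ⟨Finset.prod_pos fun p _ => Nat.succ_pos p, ?_⟩, ?_⟩
    · calc ∏ p ∈ b, (p + 1) ≤ (j ^ 5001) ^ b.card :=
            Finset.prod_le_pow_card _ _ _ fun p hp => (hG' p (hbP hp)).1
        _ = j ^ (5001 * r) := by rw [hbc, ← pow_mul]
    · intro l hl hd
      obtain ⟨p, hp, hlp⟩ := (Prime.dvd_finsetProd_iff hl.prime _).1 hd
      exact (hG' p (hbP hp)).2 l hl hlp
  have hne : ((Icc 1 (j ^ (5001 * r))).filter fun n => Sm r n).Nonempty :=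
    ⟨1, mem_filter.2 ⟨mem_Icc.2 ⟨le_rfl, Nat.one_le_pow _ _ hj0⟩, fun l hl hd =>
      absurd (Nat.dvd_one.1 hd) hl.ne_one⟩⟩
  have hle : ((Icc 1 (j ^ (5001 * r))).filter fun n => Sm r n).card * j ^ (2507 * r) ≤
      (P.powersetCard r).card := by
    rw [card_powersetCard, hcard]
    calc _ ≤ j ^ r * j ^ (2507 * r) := Nat.mul_le_mul_right _ hT
      _ = (j ^ 2508) ^ r := by rw [← pow_add, ← pow_mul]; congr 1; ring
      _ ≤ _ := choose_Fib _ _
  obtain ⟨s, -, hs⟩ := Finset.exists_le_card_fiber_of_mul_le_card_of_maps_to hmaps hne hle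
  exact ⟨_, s, filter_subset _ _, hs, fun b hb => (mem_filter.1 hb).2⟩

end Pool.Agent.MP_2876a2_nt.Tu

end

noncomputable section
open Finset Filter
open scoped Pointwise


namespace Pool.Agent.MP_2876a2_nt.Tu

theorem sCore : StCore := by
  intro F R hR
  obtain ⟨K, hK, hm⟩ := exists_max_image (F.biUnion id).powerset
    (fun K => (F.filter fun b => K ⊆ b).card * R ^ K.card) ⟨∅, empty_mem_powerset _⟩
  refine ⟨K, by simpa using hm ∅ (empty_mem_powerset _), fun J hJ => ?_⟩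
  rcases (F.filter fun b => K ∪ J ⊆ b).eq_empty_or_nonempty with h | ⟨b, hb⟩
  · simp [h]
  · obtain ⟨h1, h2⟩ := mem_filter.1 hb
    have := hm (K ∪ J) (mem_powerset.2 (h2.trans (subset_biUnion_of_mem id h1)))
    rw [card_union_of_disjoint hJ.symm, add_comm, pow_add, ← mul_assoc] at this
    exact Nat.le_of_mul_le_mul_right this (pow_pos hR _)

end Pool.Agent.MP_2876a2_nt.Tu

end

noncomputable section
open Finset Filter
open scoped Pointwise


namespace Pool.Agent.MP_2876a2_nt.Tu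

theorem meet_Dis {r R : ℕ} {F : Finset (Finset ℕ)}
    (h2 : ∀ p, (F.filter fun b => p ∈ b).card * R ≤ F.card) {b : Finset ℕ} (hb : b.card = r) :
    (F.filter fun c => ¬ Disjoint b c).card * R ≤ r * F.card := by
  have h : (F.filter fun c => ¬ Disjoint b c) ⊆ b.biUnion fun p => F.filter fun c => p ∈ c := by
    intro c hc
    obtain ⟨h1, h3⟩ := mem_filter.1 hc
    obtain ⟨p, hp, hp'⟩ := not_disjoint_iff.1 h3
    exact mem_biUnion.2 ⟨p, hp, mem_filter.2 ⟨h1, hp'⟩⟩
  refine (Nat.mul_le_mul_right R ((card_le_card h).trans card_biUnion_le)).trans ?_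
  rw [sum_mul, ← hb, ← smul_eq_mul, ← sum_const]
  exact sum_le_sum fun p _ => h2 p

theorem pair_Dis {M r R : ℕ} {F : Finset (Finset ℕ)} (h1 : ∀ b ∈ F, b.card = r)
    (h2 : ∀ p, (F.filter fun b => p ∈ b).card * R ≤ F.card) {i i' : Fin M} (hi : i ≠ i') :
    ((Fintype.piFinset fun _ : Fin M => F).filter fun b => ¬ Disjoint (b i) (b i')).card * R ≤
      r * F.card ^ M := by
  rcases F.eq_empty_or_nonempty with rfl | hF
  · have : ((Fintype.piFinset fun _ : Fin M => (∅ : Finset (Finset ℕ))).filter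
        fun b => ¬ Disjoint (b i) (b i')) = ∅ :=
      eq_empty_of_forall_notMem fun b hb =>
        notMem_empty _ (Fintype.mem_piFinset.1 (mem_filter.1 hb).1 i)
    rw [this, card_empty, zero_mul]
    exact Nat.zero_le _
  have a1 : (((Fintype.piFinset fun _ : Fin M => F).filter fun b => ¬ Disjoint (b i) (b i')) ×ˢ
      F).card ≤ (((Fintype.piFinset fun _ : Fin M => F) ×ˢ F).filter
        fun x => ¬ Disjoint (x.1 i) x.2).card := by
    refine card_le_card_of_injOn (fun x => (Function.update x.1 i' x.2, x.1 i')) ?_ ?_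
    · intro x hx
      obtain ⟨c1, c2⟩ := mem_product.1 (mem_coe.1 hx)
      obtain ⟨c3, c4⟩ := mem_filter.1 c1
      have c5 := Fintype.mem_piFinset.1 c3
      refine mem_coe.2 (mem_filter.2 ⟨mem_product.2 ⟨Fintype.mem_piFinset.2 fun j => ?_, c5 i'⟩, ?_⟩)
      · by_cases hj : j = i'
        · subst hj
          simpa using c2
        · simpa [Function.update_of_ne hj] using c5 j
      · simpa [Function.update_of_ne hi] using c4
    · intro x _ y _ hxy
      obtain ⟨c1, c2⟩ := Prod.mk.inj hxy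
      refine Prod.ext (funext fun j => ?_) (by simpa using congrFun c1 i')
      by_cases hj : j = i'
      · rw [hj]
        exact c2
      · simpa [Function.update_of_ne hj] using congrFun c1 j
  have a2 : (((Fintype.piFinset fun _ : Fin M => F) ×ˢ F).filter
      fun x => ¬ Disjoint (x.1 i) x.2).card =
      ∑ b ∈ Fintype.piFinset fun _ : Fin M => F, (F.filter fun c => ¬ Disjoint (b i) c).card := by
    rw [card_filter, sum_product]
    exact sum_congr rfl fun b _ => (card_filter _ _).symm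
  rw [card_product, a2] at a1
  refine Nat.le_of_mul_le_mul_right ?_ hF.card_pos
  rw [mul_right_comm]
  refine (Nat.mul_le_mul_right R a1).trans ?_
  rw [sum_mul]
  refine (sum_le_sum fun b hb => meet_Dis h2 (h1 _ (Fintype.mem_piFinset.1 hb i))).trans ?_
  rw [sum_const, Fintype.card_piFinset_const, smul_eq_mul]
  exact le_of_eq (by ring)

theorem sDis : StDis := by
  intro M r R F h1 h2 h3 h4
  have hsub : Dis M F ⊆ Fintype.piFinset fun _ : Fin M => F := filter_subset _ _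
  have b1 := card_sdiff_add_card_eq_card hsub
  rw [Fintype.card_piFinset_const] at b1
  have b2 : (Fintype.piFinset fun _ : Fin M => F) \ Dis M F ⊆
      (univ : Finset (Fin M)).offDiag.biUnion fun x =>
        (Fintype.piFinset fun _ : Fin M => F).filter fun b => ¬ Disjoint (b x.1) (b x.2) := by
    intro b hb
    obtain ⟨c1, c2⟩ := mem_sdiff.1 hb
    by_contra hn
    refine c2 (mem_filter.2 ⟨c1, fun i i' hi => ?_⟩)
    by_contra hd
    exact hn (mem_biUnion.2 ⟨(i, i'), mem_offDiag.2 ⟨mem_univ _, mem_univ _, hi⟩,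
      mem_filter.2 ⟨c1, hd⟩⟩)
  have b3 : ((Fintype.piFinset fun _ : Fin M => F) \ Dis M F).card * R ≤
      M ^ 2 * (r * F.card ^ M) := by
    refine (Nat.mul_le_mul_right R ((card_le_card b2).trans card_biUnion_le)).trans ?_
    rw [sum_mul]
    refine (sum_le_sum fun x hx => pair_Dis h1 h2 (mem_offDiag.1 hx).2.2).trans ?_
    rw [sum_const, smul_eq_mul, offDiag_card, card_univ, Fintype.card_fin, sq]
    exact Nat.mul_le_mul_right _ (Nat.sub_le _ _)
  have b4 : 2 * ((Fintype.piFinset fun _ : Fin M => F) \ Dis M F).card ≤ F.card ^ M := by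
    refine Nat.le_of_mul_le_mul_right ?_ h4
    have := Nat.mul_le_mul_left (F.card ^ M) h3
    linarith
  omega

end Pool.Agent.MP_2876a2_nt.Tu

end

noncomputable section
open Finset Filter
open scoped Pointwise


namespace Pool.Agent.MP_2876a2_nt.Tu

open Classical in
theorem cnt_Avg {M r n : ℕ} (hM : 0 < M) (b : Fin M → Finset ℕ) (hr : ∀ i, (b i).card = r)
    (hd : ∀ i i', i ≠ i' → Disjoint (b i) (b i')) :
    M ^ n ≤ M ^ (M * r) * (univ.filter fun χ : Fin n → Fin M =>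
      ∀ j, ∀ p : Fin n, (p : ℕ) ∈ b j → χ p = j).card := by
  have e : (univ.filter fun χ : Fin n → Fin M => ∀ j, ∀ p : Fin n, (p : ℕ) ∈ b j → χ p = j) =
      Fintype.piFinset fun p : Fin n => univ.filter fun i : Fin M => ∀ j, (p : ℕ) ∈ b j → i = j := by
    ext χ
    simp only [mem_filter, mem_univ, true_and, Fintype.mem_piFinset]
    exact forall_comm
  rw [e, Fintype.card_piFinset]
  obtain ⟨U, hU⟩ : ∃ U : Finset (Fin n), U = univ.filter fun p : Fin n =>
    (p : ℕ) ∈ univ.biUnion b := ⟨_, rfl⟩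
  have hc : U.card ≤ M * r := by
    refine (card_le_card_of_injOn (t := univ.biUnion b) (fun p : Fin n => (p : ℕ))
      (fun p hp => ?_) Fin.val_injective.injOn).trans (card_biUnion_le.trans (by simp [hr]))
    rw [hU] at hp
    exact (mem_filter.1 hp).2
  calc M ^ n = ∏ _p : Fin n, M := by simp
    _ ≤ ∏ p : Fin n, ((if p ∈ U then M else 1) *
        (univ.filter fun i : Fin M => ∀ j, (p : ℕ) ∈ b j → i = j).card) := by
      refine prod_le_prod' fun p _ => ?_
      split_ifs with h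
      · rw [hU, mem_filter, mem_biUnion] at h
        obtain ⟨-, i, -, hi⟩ := h
        refine Nat.le_mul_of_pos_right _ (card_pos.2 ⟨i, mem_filter.2 ⟨mem_univ _, fun j hj => ?_⟩⟩)
        by_contra c
        exact disjoint_left.1 (hd i j c) hi hj
      · rw [filter_true_of_mem fun i _ j hj => absurd
          (hU ▸ mem_filter.2 ⟨mem_univ _, mem_biUnion.2 ⟨j, mem_univ _, hj⟩⟩) h]
        simp
    _ ≤ _ := by
      rw [prod_mul_distrib, prod_ite_mem, univ_inter, prod_const]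
      exact Nat.mul_le_mul_right _ (Nat.pow_le_pow_right hM hc)

theorem sAvg : StAvg := by
  classical
  intro M r F hM hr
  obtain ⟨n, hn⟩ := (F.biUnion id).exists_nat_subset_range
  obtain ⟨ex, hex⟩ : ∃ ex : (Fin n → Fin M) → ℕ → Fin M, ∀ χ (p : Fin n), ex χ p = χ p :=
    ⟨fun χ p => if h : p < n then χ ⟨p, h⟩ else ⟨0, hM⟩, fun χ p => by simp⟩
  haveI : Nonempty (Fin M) := ⟨⟨0, hM⟩⟩
  have key : ∑ _χ : Fin n → Fin M, (Dis M F).card ≤ ∑ χ : Fin n → Fin M,
      M ^ (M * r) * ∏ i : Fin M, (F.filter fun b => ∀ p ∈ b, ex χ p = i).card := by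
    calc _ = ∑ _b ∈ Dis M F, M ^ n := by simp [mul_comm]
      _ ≤ ∑ b ∈ Dis M F, M ^ (M * r) * (univ.filter fun χ : Fin n → Fin M =>
          ∀ j, ∀ p : Fin n, (p : ℕ) ∈ b j → χ p = j).card := by
        refine sum_le_sum fun b hb => ?_
        simp only [Dis, mem_filter, Fintype.mem_piFinset] at hb
        convert cnt_Avg (n := n) hM b (fun i => hr _ (hb.1 i)) hb.2
      _ = ∑ χ : Fin n → Fin M, M ^ (M * r) * ((Dis M F).filter fun b =>
          ∀ j, ∀ p : Fin n, (p : ℕ) ∈ b j → χ p = j).card := by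
        rw [← mul_sum, ← mul_sum]
        simp only [card_filter]
        rw [sum_comm]
      _ ≤ _ := by
        refine sum_le_sum fun χ _ => Nat.mul_le_mul_left _ ?_
        rw [← Fintype.card_piFinset]
        refine card_le_card fun b hb => ?_
        simp only [Dis, mem_filter, Fintype.mem_piFinset] at hb ⊢
        refine fun i => ⟨hb.1.1 i, fun p hp => ?_⟩
        have hp' : p < n := mem_range.1 (hn (mem_biUnion.2 ⟨b i, hb.1.1 i, hp⟩))
        exact (hex χ ⟨p, hp'⟩).trans (hb.2 i ⟨p, hp'⟩ hp)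
  obtain ⟨χ, -, h⟩ := exists_le_of_sum_le univ_nonempty key
  exact ⟨ex χ, h⟩

end Pool.Agent.MP_2876a2_nt.Tu

end

noncomputable section
open Finset Filter
open scoped Pointwise


namespace Pool.Agent.MP_2876a2_nt.Tu

theorem sCol (hD : StDis) (hA : StAvg) : StCol := by
  intro M r R F hM hF hp hR h0
  obtain ⟨χ, hχ⟩ := hA M r F hM hF
  refine ⟨fun p => χ p, fun i hi => ?_⟩
  rcases Nat.eq_zero_or_pos F.card with h | h
  · rw [h]; exact Nat.zero_le _
  have e : (F.filter fun b => ∀ p ∈ b, (χ p : ℕ) = i) = F.filter fun b => ∀ p ∈ b, χ p = ⟨i, hi⟩ := by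
    simp only [Fin.ext_iff]
  have h1 := prod_le_pow_card (univ.erase (⟨i, hi⟩ : Fin M))
    (fun k => (F.filter fun b => ∀ p ∈ b, χ p = k).card) F.card fun _ _ => card_filter_le _ _
  rw [card_erase_of_mem (mem_univ _), card_univ, Fintype.card_fin] at h1
  rw [← mul_prod_erase _ _ (mem_univ (⟨i, hi⟩ : Fin M))] at hχ
  have h2 := (hD M r R F hF hp hR h0).trans (Nat.mul_le_mul_left 2
    (hχ.trans (Nat.mul_le_mul_left _ (Nat.mul_le_mul_left _ h1))))
  obtain ⟨m, rfl⟩ : ∃ m, M = m + 1 := ⟨M - 1, by omega⟩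
  rw [e]
  refine Nat.le_of_mul_le_mul_right ?_ (pow_pos h m)
  rw [← pow_succ']
  simpa only [Nat.add_sub_cancel, mul_assoc] using h2

end Pool.Agent.MP_2876a2_nt.Tu

end

noncomputable section
open Finset Filter
open scoped Pointwise


namespace Pool.Agent.MP_2876a2_nt.Tu

theorem prod_BM (S : Finset ℕ) (h : ∀ p ∈ S, p.Prime) :
    Squarefree (∏ p ∈ S, p) ∧ sg (∏ p ∈ S, p) = ∏ p ∈ S, (p + 1) := by
  induction S using Finset.induction_on with
  | empty => simp
  | insert a S ha ih =>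
    have h1 := ih fun p hp => h p (mem_insert_of_mem hp)
    have h2 : a.Prime := h a (mem_insert_self a S)
    have h3 : a.Coprime (∏ p ∈ S, p) := Nat.Coprime.prod_right fun p hp =>
      (Nat.coprime_primes h2 (h p (mem_insert_of_mem hp))).2 fun e => ha (e ▸ hp)
    rw [prod_insert ha, prod_insert ha]
    refine ⟨(Nat.squarefree_mul h3).2 ⟨h2.squarefree, h1.1⟩, ?_⟩
    have h4 : sg a = a + 1 := by
      unfold sg
      rw [ArithmeticFunction.sigma_one_apply, h2.sum_divisors]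
    unfold sg at h1 h4 ⊢
    rw [ArithmeticFunction.isMultiplicative_sigma.map_mul_of_coprime h3, h1.2, h4]

theorem core_BM (hC : StCore) (hL : StCol) (M j r : ℕ) (hM : 0 < M) (hj : 3 ≤ j) (hr : 1 ≤ r)
    (hM1 : 2 * M ^ 2 * r ≤ j ^ 2500) (hM2 : 2 * M ^ M ≤ j) (P : Finset ℕ)
    (hP : P.card = j ^ 4998) (hG : ∀ p ∈ P, p.Prime ∧ j ^ 5000 < p ∧ p ≤ 2 * j ^ 5000)
    (F : Finset (Finset ℕ)) (s0 : ℕ) (hF : F ⊆ P.powersetCard r) (hc : j ^ (2507 * r) ≤ F.card)
    (hs : ∀ b ∈ F, ∏ p ∈ b, (p + 1) = s0) :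
    ∃ (B : ℕ → Finset ℕ) (N : ℕ → ℕ) (s r' : ℕ),
      (∀ i < M, Bk (B i) (N i) s ∧ (N i).primeFactors ⊆ P ∧
        ∀ b ∈ B i, b.primeFactors.card = r') ∧
      (∀ i < M, ∀ i' < M, i ≠ i' → (N i).Coprime (N i')) ∧ 1 ≤ r' ∧ j ^ r ≤ s ∧
      s ≤ j ^ (5001 * r) := by
  have j0 : 0 < j := by omega
  have j1 : 1 < j := by omega
  obtain ⟨K, hK1, hK2⟩ := hC F (j ^ 2500) (Nat.one_le_pow _ _ j0)
  obtain ⟨FK, hFK⟩ : ∃ FK, FK = F.filter fun b => K ⊆ b := ⟨_, rfl⟩
  rw [← hFK] at hK1 hK2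
  have mem : ∀ b ∈ FK, b ∈ F ∧ K ⊆ b := fun b hb => by rw [hFK] at hb; exact mem_filter.1 hb
  have hc2 := hc.trans hK1
  have hne : FK.Nonempty := by
    rw [← card_pos]
    have := Nat.pow_pos (n := 2507 * r) j0
    by_contra h0
    rw [show FK.card = 0 by omega, zero_mul] at hc2
    omega
  obtain ⟨b0, hb0⟩ := hne
  have sub : ∀ b ∈ FK, b ⊆ P ∧ b.card = r := fun b hb => mem_powersetCard.1 (hF (mem b hb).1)
  obtain ⟨r1, hr1⟩ : ∃ r1, r = K.card + r1 :=
    Nat.exists_eq_add_of_le ((sub b0 hb0).2 ▸ card_le_card (mem b0 hb0).2)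
  have sd : ∀ b ∈ FK, b \ K ⊆ P ∧ (b \ K).card = r1 := fun b hb =>
    ⟨sdiff_subset.trans (sub b hb).1, by
      rw [card_sdiff_of_subset (mem b hb).2, (sub b hb).2]; omega⟩
  have pr : ∀ b ∈ FK, ∀ p ∈ b \ K, p.Prime := fun b hb p hp => (hG p ((sd b hb).1 hp)).1
  have inj1 : Set.InjOn (fun b => b \ K) (FK : Set (Finset ℕ)) := fun b hb b' hb' e => by
    rw [← sdiff_union_of_subset (mem b hb).2, ← sdiff_union_of_subset (mem b' hb').2]
    exact congrArg (· ∪ K) e
  have eqs : ∀ b ∈ FK, ∏ p ∈ b \ K, (p + 1) = ∏ p ∈ b0 \ K, (p + 1) := fun b hb => by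
    refine Nat.eq_of_mul_eq_mul_right (m := ∏ p ∈ K, (p + 1)) (prod_pos fun p _ => by omega) ?_
    rw [prod_sdiff (mem b hb).2, prod_sdiff (mem b0 hb0).2, hs b (mem b hb).1, hs b0 (mem b0 hb0).1]
  have up : ∀ p ∈ P, p + 1 ≤ j ^ 5001 := fun p hp => by
    have h1 := (hG p hp).2.2
    have h2 := Nat.pow_pos (n := 5000) j0
    have h3 : j ^ 5001 = j ^ 5000 * j := pow_succ j 5000
    have h4 := Nat.mul_le_mul_left (j ^ 5000) hj
    omega
  have s1 : ∏ p ∈ b0 \ K, (p + 1) ≤ j ^ (5001 * r1) := by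
    rw [pow_mul, ← (sd b0 hb0).2]
    exact prod_le_pow_card _ _ _ fun p hp => up p ((sd b0 hb0).1 hp)
  have s2 : j ^ (5000 * r1) ≤ ∏ p ∈ b0 \ K, (p + 1) := by
    rw [pow_mul, ← (sd b0 hb0).2]
    exact pow_card_le_prod _ _ _ fun p hp => by have := (hG p ((sd b0 hb0).1 hp)).2.1; omega
  have c1 : j ^ (2507 * r1) ≤ FK.card := by
    refine Nat.le_of_mul_le_mul_right (c := j ^ (2507 * K.card)) ?_ (Nat.pow_pos j0)
    rw [← pow_add, show 2507 * r1 + 2507 * K.card = 2507 * r by omega]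
    refine hc2.trans (Nat.mul_le_mul_left _ ?_)
    rw [← pow_mul]
    exact Nat.pow_le_pow_right j0 (by omega)
  have c2 : FK.card ≤ j ^ (4998 * r1) := by
    have h1 : FK.card ≤ (P.powersetCard r1).card :=
      card_le_card_of_injOn (fun b => b \ K) (fun b hb => mem_coe.2 (mem_powersetCard.2 (sd b hb)))
        inj1
    rw [card_powersetCard] at h1
    rw [pow_mul, ← hP]
    exact h1.trans (Nat.choose_le_pow _ _)
  have c3 : 2507 * r ≤ 4998 * r1 + 2500 * K.card := by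
    rw [← Nat.pow_le_pow_iff_right j1, pow_add, pow_mul j 2500]
    exact hc2.trans (Nat.mul_le_mul_right _ c2)
  have r1p : 1 ≤ r1 := by omega
  obtain ⟨F1, hF1⟩ : ∃ F1, F1 = FK.image fun b => b \ K := ⟨_, rfl⟩
  have cF : F1.card = FK.card := hF1 ▸ card_image_of_injOn inj1
  have m1 : ∀ b ∈ F1, ∃ b' ∈ FK, b' \ K = b := fun b hb => by rw [hF1] at hb; exact mem_image.1 hb
  have spr : ∀ p, (F1.filter fun b => p ∈ b).card * j ^ 2500 ≤ F1.card := fun p => by
    by_cases hp : p ∈ K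
    · rw [filter_eq_empty_iff.2 fun b hb hpb => ?_]
      · simp
      · obtain ⟨b', -, rfl⟩ := m1 b hb
        exact (mem_sdiff.1 hpb).2 hp
    · have h2 := hK2 {p} (disjoint_singleton_left.2 hp)
      rw [card_singleton, pow_one] at h2
      rw [cF]
      refine le_trans (Nat.mul_le_mul_right _ ?_) h2
      refine le_trans (card_le_card fun y hy => ?_) (card_image_le (f := fun b => b \ K))
      obtain ⟨hy1, hy2⟩ := mem_filter.1 hy
      obtain ⟨b, hb, rfl⟩ := m1 y hy1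
      exact mem_image_of_mem _ (mem_filter.2 ⟨(mem b hb).1,
        union_subset (mem b hb).2 (singleton_subset_iff.2 (mem_sdiff.1 hy2).1)⟩)
  obtain ⟨χ, hχ⟩ := hL M r1 (j ^ 2500) F1 hM
    (fun b hb => by obtain ⟨b', hb', rfl⟩ := m1 b hb; exact (sd b' hb').2) spr
    ((Nat.mul_le_mul_left _ (by omega)).trans hM1) (Nat.pow_pos j0)
  have prP : ∀ i, ∀ p ∈ P.filter fun p => χ p = i, p.Prime := fun i p hp =>
    (hG p (mem_filter.1 hp).1).1
  have hMj : 2 * M ^ (M * r1) ≤ j ^ r1 := by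
    refine le_trans ?_ (Nat.pow_le_pow_left hM2 r1)
    rw [mul_pow, ← pow_mul]
    exact Nat.mul_le_mul_right _ (Nat.le_self_pow (by omega) 2)
  refine ⟨fun i => (F1.filter fun b => ∀ p ∈ b, χ p = i).image fun b => ∏ p ∈ b, p,
    fun i => ∏ p ∈ P.filter fun p => χ p = i, p, ∏ p ∈ b0 \ K, (p + 1), r1, fun i hi => ?_,
    fun i _ i' _ hii => ?_, r1p, (Nat.pow_le_pow_right j0 (by omega)).trans s2,
    s1.trans (Nat.pow_le_pow_right j0 (by omega))⟩
  · have m2 : ∀ x ∈ (F1.filter fun b => ∀ p ∈ b, χ p = i).image fun b => ∏ p ∈ b, p,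
        ∃ b ∈ FK, (∀ p ∈ b \ K, χ p = i) ∧ ∏ p ∈ b \ K, p = x := fun x hx => by
      obtain ⟨b, hb, rfl⟩ := mem_image.1 hx
      obtain ⟨h1, h2⟩ := mem_filter.1 hb
      obtain ⟨b', hb', rfl⟩ := m1 b h1
      exact ⟨b', hb', h2, rfl⟩
    have cB : ((F1.filter fun b => ∀ p ∈ b, χ p = i).image fun b => ∏ p ∈ b, p).card =
        (F1.filter fun b => ∀ p ∈ b, χ p = i).card := card_image_of_injOn fun b hb b' hb' e => by
      obtain ⟨c, hc, rfl⟩ := m1 b (mem_filter.1 hb).1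
      obtain ⟨c', hc', rfl⟩ := m1 b' (mem_filter.1 hb').1
      have := congrArg Nat.primeFactors e
      rwa [Nat.primeFactors_prod (pr c hc), Nat.primeFactors_prod (pr c' hc')] at this
    have c4 : j ^ (2506 * r1) ≤ (F1.filter fun b => ∀ p ∈ b, χ p = i).card := by
      refine Nat.le_of_mul_le_mul_left (c := j ^ r1) ?_ (Nat.pow_pos j0)
      rw [← pow_add, show r1 + 2506 * r1 = 2507 * r1 by omega]
      exact (c1.trans (cF ▸ hχ i hi)).trans (Nat.mul_le_mul_right _ hMj)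
    refine ⟨⟨(prod_BM _ (prP i)).1, ?_, fun x hx => ?_, fun x hx => ?_, ?_⟩, ?_, fun x hx => ?_⟩
    · rw [← card_pos, cB]
      exact (Nat.pow_pos j0).trans_le c4
    · obtain ⟨b, hb, h1, rfl⟩ := m2 x hx
      exact prod_dvd_prod_of_subset _ _ _ fun p hp => mem_filter.2 ⟨(sd b hb).1 hp, h1 p hp⟩
    · obtain ⟨b, hb, -, rfl⟩ := m2 x hx
      rw [(prod_BM _ (pr b hb)).2, eqs b hb]
    · rw [cB]
      refine (Nat.pow_le_pow_left s1 _).trans (le_trans ?_ (Nat.pow_le_pow_left c4 _))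
      rw [← pow_mul, ← pow_mul]
      exact Nat.pow_le_pow_right j0 (by omega)
    · rw [Nat.primeFactors_prod (prP i)]
      exact filter_subset _ _
    · obtain ⟨b, hb, -, rfl⟩ := m2 x hx
      rw [Nat.primeFactors_prod (pr b hb), (sd b hb).2]
  · refine Nat.Coprime.prod_left fun p hp => Nat.Coprime.prod_right fun p' hp' => ?_
    refine (Nat.coprime_primes (prP i p hp) (prP i' p' hp')).2 fun e => hii ?_
    rw [← (mem_filter.1 hp).2, ← (mem_filter.1 hp').2, e]

theorem sBM (hF : StFib) (hC : StCore) (hL : StCol) : StBM := by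
  intro M hM
  filter_upwards [hF, eventually_ge_atTop 3, eventually_ge_atTop (2 * M ^ 2),
    eventually_ge_atTop (2 * M ^ M)] with j hj h3 h5 h6 P hP hG
  obtain ⟨F, s0, h1, h2, h4⟩ := hj P hP hG
  refine core_BM hC hL M j (j ^ 2490) hM h3 (Nat.one_le_pow _ _ (by omega)) ?_ h6 P hP
    (fun p hp => ⟨(hG p hp).1, (hG p hp).2.1, (hG p hp).2.2.1⟩) F s0 h1 h2 h4
  refine (Nat.mul_le_mul_right _ h5).trans ?_
  rw [← pow_succ']
  exact Nat.pow_le_pow_right (by omega) (by norm_num)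

end Pool.Agent.MP_2876a2_nt.Tu

end

noncomputable section
open Finset Filter
open scoped Pointwise


namespace Pool.Agent.MP_2876a2_nt.Tu

theorem greedy_Pool (G : ℕ → Finset ℕ) (m : ℕ → ℕ)
    (h : ∀ i, ∑ l ∈ range (i + 1), m l ≤ (G i).card) :
    ∃ P : ℕ → Finset ℕ, (∀ i, (P i).card = m i ∧ P i ⊆ G i) ∧
      ∀ i i', i ≠ i' → Disjoint (P i) (P i') := by
  have ex : ∀ (i : ℕ) (U : Finset ℕ), ∃ Q : Finset ℕ,
      U.card + m i ≤ (G i).card → Q ⊆ G i \ U ∧ Q.card = m i := by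
    intro i U
    by_cases k : U.card + m i ≤ (G i).card
    · have := le_card_sdiff U (G i)
      obtain ⟨Q, h1, h2⟩ := exists_subset_card_eq (s := G i \ U) (n := m i) (by omega)
      exact ⟨Q, fun _ => ⟨h1, h2⟩⟩
    · exact ⟨∅, fun a => absurd a k⟩
  choose f hf using ex
  let U : ℕ → Finset ℕ := fun i => Nat.rec ∅ (fun i V => V ∪ f i V) i
  have us : ∀ i, U (i + 1) = U i ∪ f i (U i) := fun i => rfl
  have inv : ∀ i, (U i).card ≤ ∑ l ∈ range i, m l := by
    intro i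
    induction i with
    | zero => simp [U]
    | succ i ih =>
      have h1 := h i
      rw [sum_range_succ] at h1 ⊢
      have h2 := (hf i (U i) (by omega)).2
      have h3 := card_union_le (U i) (f i (U i))
      rw [us]
      omega
  have ok : ∀ i, f i (U i) ⊆ G i \ U i ∧ (f i (U i)).card = m i := fun i => by
    have h1 := h i
    have h2 := inv i
    rw [sum_range_succ] at h1
    exact hf i (U i) (by omega)
  have mono : Monotone U := monotone_nat_of_le_succ fun i => by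
    rw [us]; exact subset_union_left
  have dj : ∀ i i', i < i' → Disjoint (f i (U i)) (f i' (U i')) := fun i i' hi =>
    disjoint_left.2 fun a h1 h2 => (mem_sdiff.1 ((ok i').1 h2)).2
      (mono (Nat.succ_le_of_lt hi) (by rw [us]; exact mem_union_right _ h1))
  refine ⟨fun i => f i (U i), fun i => ⟨(ok i).2, (ok i).1.trans sdiff_subset⟩, fun i i' hi => ?_⟩
  rcases lt_or_gt_of_ne hi with k | k
  · exact dj i i' k
  · exact (dj i' i k).symm

theorem dz_Pool (j : ℕ) : Dz (j ^ 5000) = j ^ 2490 := by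
  unfold Dz
  rw [Nat.cast_pow, ← Real.rpow_natCast, ← Real.rpow_mul (Nat.cast_nonneg j),
    show ((5000 : ℕ) : ℝ) * (249 / 500) = (2490 : ℕ) by norm_num, Real.rpow_natCast,
    ← Nat.cast_pow, Nat.floor_natCast]

open Classical in
theorem card_Pool (hA : StA) : ∀ᶠ j : ℕ in atTop,
    j ^ 4999 ≤ ((PN (j ^ 5000)).filter fun p => Sm (j ^ 2490) (p + 1)).card := by
  have t : Tendsto (fun j : ℕ => j ^ 5000) atTop atTop := tendsto_pow_atTop (by norm_num)
  have l := (Real.isLittleO_log_id_atTop.bound (c := 1 / 5000000) (by norm_num))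
  filter_upwards [t.eventually hA, tendsto_natCast_atTop_atTop.eventually l,
    eventually_ge_atTop 2] with j h1 h2 h3
  rw [dz_Pool] at h1
  have j1 : (1 : ℝ) < j := by exact_mod_cast h3
  have lp := Real.log_pos j1
  rw [id, Real.norm_of_nonneg lp.le, Real.norm_of_nonneg (by linarith)] at h2
  refine Nat.cast_le (α := ℝ).1 (le_trans ?_ h1)
  rw [Nat.cast_pow, Nat.cast_pow, Real.log_pow, le_div_iff₀ (by positivity),
    show (5000 : ℕ) = 4999 + 1 from rfl, pow_succ (j : ℝ) 4999]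
  refine mul_le_mul_of_nonneg_left ?_ (pow_nonneg (by linarith) _)
  push_cast
  linarith

theorem sPool (hA : StA) : StPool := by
  classical
  obtain ⟨J, hJ⟩ := eventually_atTop.1 (card_Pool hA)
  filter_upwards [eventually_ge_atTop J, eventually_ge_atTop 1] with j0 h1 h2
  obtain ⟨P, k1, k2⟩ := greedy_Pool
    (fun i => (PN ((j0 + i) ^ 5000)).filter fun p => Sm ((j0 + i) ^ 2490) (p + 1))
    (fun i => (j0 + i) ^ 4998) (fun i => by
      refine le_trans ?_ (hJ (j0 + i) (by omega))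
      have a : ∑ l ∈ range (i + 1), (j0 + l) ^ 4998 ≤ (i + 1) * (j0 + i) ^ 4998 := by
        have := sum_le_card_nsmul (range (i + 1)) (fun l => (j0 + l) ^ 4998) ((j0 + i) ^ 4998)
          fun l hl => Nat.pow_le_pow_left (by have := mem_range.1 hl; omega) _
        rwa [card_range, smul_eq_mul] at this
      refine a.trans ?_
      rw [show (4999 : ℕ) = 4998 + 1 from rfl, pow_succ' (j0 + i) 4998]
      exact Nat.mul_le_mul_right _ (by omega))
  refine ⟨P, fun i => ⟨(k1 i).1, fun p hp => ?_⟩, k2⟩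
  have a := mem_filter.1 ((k1 i).2 hp)
  have b := mem_filter.1 a.1
  have c := mem_Ioc.1 b.1
  exact ⟨b.2, c.1, c.2, a.2⟩

end Pool.Agent.MP_2876a2_nt.Tu

end

noncomputable section
open Finset Filter
open scoped Pointwise


namespace Pool.Agent.MP_2876a2_nt.Tu

theorem greedy_Rec (G : ℕ → Finset ℕ) (m : ℕ → ℕ)
    (h : ∀ i, ∑ l ∈ range (i + 1), m l ≤ (G i).card) :
    ∃ P : ℕ → Finset ℕ, (∀ i, (P i).card = m i ∧ P i ⊆ G i) ∧
      ∀ i i', i ≠ i' → Disjoint (P i) (P i') := by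
  have ex : ∀ (i : ℕ) (U : Finset ℕ), ∃ Q : Finset ℕ,
      U.card + m i ≤ (G i).card → Q ⊆ G i \ U ∧ Q.card = m i := by
    intro i U
    by_cases k : U.card + m i ≤ (G i).card
    · have := le_card_sdiff U (G i)
      obtain ⟨Q, h1, h2⟩ := exists_subset_card_eq (s := G i \ U) (n := m i) (by omega)
      exact ⟨Q, fun _ => ⟨h1, h2⟩⟩
    · exact ⟨∅, fun a => absurd a k⟩
  choose f hf using ex
  let U : ℕ → Finset ℕ := fun i => Nat.rec ∅ (fun i V => V ∪ f i V) i
  have us : ∀ i, U (i + 1) = U i ∪ f i (U i) := fun i => rfl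
  have inv : ∀ i, (U i).card ≤ ∑ l ∈ range i, m l := by
    intro i
    induction i with
    | zero => simp [U]
    | succ i ih =>
      have h1 := h i
      rw [sum_range_succ] at h1 ⊢
      have h2 := (hf i (U i) (by omega)).2
      have h3 := card_union_le (U i) (f i (U i))
      rw [us]
      omega
  have ok : ∀ i, f i (U i) ⊆ G i \ U i ∧ (f i (U i)).card = m i := fun i => by
    have h1 := h i
    have h2 := inv i
    rw [sum_range_succ] at h1
    exact hf i (U i) (by omega)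
  have mono : Monotone U := monotone_nat_of_le_succ fun i => by
    rw [us]; exact subset_union_left
  have dj : ∀ i i', i < i' → Disjoint (f i (U i)) (f i' (U i')) := fun i i' hi =>
    disjoint_left.2 fun a h1 h2 => (mem_sdiff.1 ((ok i').1 h2)).2
      (mono (Nat.succ_le_of_lt hi) (by rw [us]; exact mem_union_right _ h1))
  refine ⟨fun i => f i (U i), fun i => ⟨(ok i).2, (ok i).1.trans sdiff_subset⟩, fun i i' hi => ?_⟩
  rcases lt_or_gt_of_ne hi with k | k
  · exact dj i i' k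
  · exact (dj i' i k).symm

theorem sRec : StRec := by
  intro U G m h
  obtain ⟨P, k1, k2⟩ := greedy_Rec (fun i => G i \ U) m fun i => by
    have h1 := h i
    have h2 := le_card_sdiff U (G i)
    omega
  exact ⟨P, fun i => ⟨(k1 i).2.trans sdiff_subset, (k1 i).1,
    disjoint_left.2 fun a ha => (mem_sdiff.1 ((k1 i).2 ha)).2⟩, k2⟩

end Pool.Agent.MP_2876a2_nt.Tu

end

noncomputable section
open Finset Filter
open scoped Pointwise


namespace Pool.Agent.MP_2876a2_nt.Tu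

theorem cop_Ext {a b : ℕ} {P Q : Finset ℕ} (ha : a ≠ 0) (hb : b ≠ 0) (h1 : a.primeFactors ⊆ P)
    (h2 : b.primeFactors ⊆ Q) (h : Disjoint P Q) : a.Coprime b :=
  (Nat.disjoint_primeFactors ha hb).1 (disjoint_of_subset_left h1 (disjoint_of_subset_right h2 h))

theorem cnt_Ext (j0 t2 i e : ℕ) (hj : 1 ≤ j0) :
    ∑ t ∈ range t2, (j0 + t) ^ e + ∑ l ∈ range (i + 1), (j0 + (t2 + l)) ^ e ≤
      (j0 + (t2 + i)) ^ (e + 1) := by
  rw [← sum_range_add (fun t => (j0 + t) ^ e), pow_succ']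
  refine (sum_le_card_nsmul _ _ ((j0 + (t2 + i)) ^ e) fun t ht => ?_).trans ?_
  · exact Nat.pow_le_pow_left (by have := mem_range.1 ht; omega) e
  · rw [card_range, smul_eq_mul]
    exact Nat.mul_le_mul_right _ (by omega)

theorem sExt (hB : StBM) (hP : StPool) (hR : StRec) : StExt := by
  intro M hM
  obtain ⟨jb, hb⟩ := eventually_atTop.1 (hB M hM)
  choose! Bf Nf sf rf h1 h2 h3 h4 h5 using hb
  filter_upwards [hP, eventually_ge_atTop jb, eventually_ge_atTop 1] with j0 hp hj hj1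
  have sm : ∀ P : ℕ → Finset ℕ,
      (∀ i, (P i).card = (j0 + i) ^ 4998 ∧ ∀ p ∈ P i, Gd (j0 + i) p) →
      (∀ i i', i ≠ i' → Disjoint (P i) (P i')) →
      SM M j0 (fun i t => Bf (j0 + t) (P t) i) (fun i t => Nf (j0 + t) (P t) i)
        (fun t => sf (j0 + t) (P t)) := fun P a b => by
    have k1 := fun t => h1 (j0 + t) (by omega) (P t) (a t).1 (a t).2
    have cp : ∀ i < M, ∀ i' < M, ∀ t t', t ≠ t' →
        (Nf (j0 + t) (P t) i).Coprime (Nf (j0 + t') (P t') i') := fun i hi i' hi' t t' h =>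
      cop_Ext (k1 t i hi).1.sqf.ne_zero (k1 t' i' hi').1.sqf.ne_zero (k1 t i hi).2.1
        (k1 t' i' hi').2.1 (b t t' h)
    refine ⟨fun i hi => ⟨fun t => (k1 t i hi).1, cp i hi i hi, fun t p hp => ?_, fun t => ?_,
      fun t => h4 (j0 + t) (by omega) (P t) (a t).1 (a t).2,
      fun t => h5 (j0 + t) (by omega) (P t) (a t).1 (a t).2⟩, fun i hi i' hi' h t t' => ?_⟩
    · have := (a t).2 p ((k1 t i hi).2.1 hp)
      exact ⟨this.2.1, this.2.2.1⟩
    · exact (card_le_card (k1 t i hi).2.1).trans (a t).1.le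
    · by_cases e : t = t'
      · subst e
        exact h2 (j0 + t) (by omega) (P t) (a t).1 (a t).2 i hi i' hi' h
      · exact cp i hi i' hi' t t' e
  obtain ⟨P, a, b⟩ := hp
  refine ⟨_, _, _, sm P a b, fun t2 G ρ hA => ?_⟩
  obtain ⟨Q, q1, q2⟩ := hR ((range t2).biUnion P)
    (fun i => GA (j0 + (t2 + i)) (G (t2 + i)) (ρ (t2 + i))) (fun i => (j0 + (t2 + i)) ^ 4998)
    fun i => by
      refine le_trans ?_ (hA (t2 + i) (by omega))
      refine le_trans (Nat.add_le_add_right (card_biUnion_le.trans (le_of_eq ?_)) _)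
        (cnt_Ext j0 t2 i 4998 hj1)
      exact sum_congr rfl fun t _ => (a t).1
  obtain ⟨P1, e1, e2⟩ : ∃ P1 : ℕ → Finset ℕ, (∀ t < t2, P1 t = P t) ∧
      ∀ i, P1 (t2 + i) = Q i :=
    ⟨fun t => if t < t2 then P t else Q (t - t2), fun t ht => if_pos ht, fun i => by
      simp only [if_neg (show ¬ t2 + i < t2 by omega), Nat.add_sub_cancel_left]⟩
  have a1 : ∀ t, (P1 t).card = (j0 + t) ^ 4998 ∧ ∀ p ∈ P1 t, Gd (j0 + t) p := fun t => by
    rcases lt_or_ge t t2 with h | h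
    · rw [e1 t h]; exact a t
    · obtain ⟨i, rfl⟩ := Nat.exists_eq_add_of_le h
      rw [e2]
      exact ⟨(q1 i).2.1, fun p hp => (mem_GA.1 ((q1 i).1 hp)).1⟩
  have mix : ∀ t < t2, ∀ i, Disjoint (Q i) (P t) := fun t ht i =>
    disjoint_of_subset_right (subset_biUnion_of_mem P (mem_range.2 ht)) (q1 i).2.2
  have b1 : ∀ t t', t ≠ t' → Disjoint (P1 t) (P1 t') := fun t t' hne => by
    rcases lt_or_ge t t2 with h | h <;> rcases lt_or_ge t' t2 with h' | h'
    · rw [e1 t h, e1 t' h']; exact b t t' hne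
    · obtain ⟨i, rfl⟩ := Nat.exists_eq_add_of_le h'
      rw [e1 t h, e2]; exact (mix t h i).symm
    · obtain ⟨i, rfl⟩ := Nat.exists_eq_add_of_le h
      rw [e1 t' h', e2]; exact mix t' h' i
    · obtain ⟨i, rfl⟩ := Nat.exists_eq_add_of_le h
      obtain ⟨i', rfl⟩ := Nat.exists_eq_add_of_le h'
      rw [e2, e2]; exact q2 i i' (by omega)
  refine ⟨_, _, _, fun t => rf (j0 + t) (P1 t), sm P1 a1 b1, fun t ht => ?_, fun t ht => ?_⟩
  · simp only [e1 t ht, and_self, implies_true]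
  · have k1 := h1 (j0 + t) (by omega) (P1 t) (a1 t).1 (a1 t).2
    refine ⟨h3 (j0 + t) (by omega) (P1 t) (a1 t).1 (a1 t).2,
      fun i hi => ⟨(k1 i hi).2.2, fun p hp => ?_⟩⟩
    have := (k1 i hi).2.1 hp
    obtain ⟨l, rfl⟩ := Nat.exists_eq_add_of_le ht
    rw [e2] at this
    exact (mem_GA.1 ((q1 l).1 this)).2

end Pool.Agent.MP_2876a2_nt.Tu

end

noncomputable section
open Finset Filter
open scoped Pointwise


namespace Pool.Agent.MP_2876a2_nt.Tu

theorem gcd_Mul2 {N N' b b' : ℕ} (h : N.Coprime N') (hb : b ∣ N) (hb' : b' ∣ N') :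
    Nat.gcd (b * b') N = b := by
  rw [Nat.Coprime.gcd_mul_right_cancel b (h.symm.coprime_dvd_left hb'), Nat.gcd_eq_left hb]

theorem inj_Mul2 {B B' : Finset ℕ} {N N' : ℕ} (h : N.Coprime N') (hB : ∀ b ∈ B, b ∣ N)
    (hB' : ∀ b ∈ B', b ∣ N') :
    Set.InjOn (fun p : ℕ × ℕ => p.1 * p.2) ((B ×ˢ B' : Finset (ℕ × ℕ)) : Set (ℕ × ℕ)) := by
  rintro ⟨a, a'⟩ ha ⟨b, b'⟩ hb e
  simp only [coe_product, Set.mem_prod, mem_coe] at ha hb
  change a * a' = b * b' at e
  have e1 := gcd_Mul2 h (hB a ha.1) (hB' a' ha.2)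
  have e2 := gcd_Mul2 h.symm (hB' a' ha.2) (hB a ha.1)
  rw [e, gcd_Mul2 h (hB b hb.1) (hB' b' hb.2)] at e1
  rw [mul_comm, e, mul_comm, gcd_Mul2 h.symm (hB' b' hb.2) (hB b hb.1)] at e2
  rw [e1, e2]

theorem sMul2 : StMul2 := by
  intro B B' N N' s s' h h' hc
  have hi := inj_Mul2 hc h.dvd h'.dvd
  have hcard : (B * B').card = B.card * B'.card := by
    rw [mul_def, card_image_of_injOn hi, card_product]
  refine ⟨⟨Nat.squarefree_mul_iff.2 ⟨hc, h.sqf, h'.sqf⟩, h.ne.mul h'.ne, fun a ha => ?_,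
    fun a ha => ?_, ?_⟩, hcard, fun f => ?_⟩
  · obtain ⟨b, hb, b', hb', rfl⟩ := mem_mul.1 ha
    exact mul_dvd_mul (h.dvd b hb) (h'.dvd b' hb')
  · obtain ⟨b, hb, b', hb', rfl⟩ := mem_mul.1 ha
    rw [← h.sig b hb, ← h'.sig b' hb']
    exact ArithmeticFunction.isMultiplicative_sigma.map_mul_of_coprime
      (Nat.Coprime.coprime_dvd_right (h'.dvd b' hb') (hc.coprime_dvd_left (h.dvd b hb)))
  · rw [hcard, mul_pow, mul_pow]
    exact Nat.mul_le_mul h.big h'.big
  · rw [mul_def, sum_image hi, sum_product]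

end Pool.Agent.MP_2876a2_nt.Tu

end

noncomputable section
/-! Products of blocks at late scales. -/


open Finset Filter
open scoped Pointwise


namespace Pool.Agent.MP_2876a2_nt.Tu

theorem sg_le_Prod2 {a : ℕ} (ha : Squarefree a) :
    (sg a : ℝ) ≤ a * Real.exp (∑ p ∈ a.primeFactors, (1 / p : ℝ)) := by
  rw [sg, ← ArithmeticFunction.isMultiplicative_sigma.prod_primeFactors ha, Real.exp_sum]
  conv_rhs => rw [← Nat.prod_primeFactors_of_squarefree ha]
  rw [Nat.primeFactors_prod fun p hp => Nat.prime_of_mem_primeFactors hp, Nat.cast_prod,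
    Nat.cast_prod, ← prod_mul_distrib]
  refine prod_le_prod (fun _ _ => Nat.cast_nonneg _) fun p hp => ?_
  have h := Nat.prime_of_mem_primeFactors hp
  have h0 : (0 : ℝ) < p := by exact_mod_cast h.pos
  rw [ArithmeticFunction.sigma_one_apply, h.sum_divisors]
  refine le_trans (le_of_eq ?_) (mul_le_mul_of_nonneg_left (Real.add_one_le_exp _) h0.le)
  push_cast
  field_simp
  ring

theorem sum_le_Prod2 (N : ℕ → ℕ) (hN : ∀ i, N i ≠ 0) (I : Finset ℕ) :
    ∑ p ∈ (∏ i ∈ I, N i).primeFactors, (1 / p : ℝ) ≤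
      ∑ i ∈ I, ∑ p ∈ (N i).primeFactors, (1 / p : ℝ) := by
  induction I using Finset.induction_on with
  | empty => simp
  | insert i I hi ih =>
    rw [prod_insert hi, sum_insert hi,
      Nat.primeFactors_mul (hN i) (prod_ne_zero_iff.2 fun j _ => hN j)]
    refine le_trans ?_ (add_le_add_right ih _)
    rw [← sum_union_inter]
    exact le_add_of_nonneg_right (sum_nonneg fun _ _ => by positivity)

theorem one_Prod2 (F : Finset ℕ) (n a : ℕ) (hn : 0 < n) (h1 : ∀ p ∈ F, n ^ (a + 2) < p)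
    (h2 : F.card ≤ n ^ a) : ∑ p ∈ F, (1 / p : ℝ) ≤ 1 / (n : ℝ) ^ 2 := by
  have h0 : (0 : ℝ) < n := by exact_mod_cast hn
  have h3 : ∑ p ∈ F, (1 / p : ℝ) ≤ F.card • (1 / (n : ℝ) ^ (a + 2)) := by
    refine sum_le_card_nsmul _ _ _ fun p hp => ?_
    refine one_div_le_one_div_of_le (by positivity) ?_
    exact_mod_cast (h1 p hp).le
  refine h3.trans ?_
  have h4 : (F.card : ℝ) ≤ (n : ℝ) ^ a := by exact_mod_cast h2
  rw [nsmul_eq_mul]
  refine (mul_le_mul_of_nonneg_right h4 (by positivity)).trans (le_of_eq ?_)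
  rw [pow_add]
  field_simp

theorem tel_Prod2 (x : ℝ) (hx : 2 ≤ x) (m : ℕ) :
    ∑ i ∈ range m, 1 / (x + i) ^ 2 ≤ 1 / (x - 1) - 1 / (x - 1 + m) := by
  induction m with
  | zero => simp
  | succ m ih =>
    rw [sum_range_succ]
    have hm : (0 : ℝ) ≤ m := Nat.cast_nonneg m
    have h1 : 0 < x - 1 + m := by linarith
    have h2 : 0 < x + m := by linarith
    have h3 : 1 / (x + m) ^ 2 ≤ 1 / (x - 1 + m) - 1 / (x + m) := by
      rw [div_sub_div _ _ h1.ne' h2.ne', div_le_div_iff₀ (by positivity) (by positivity)]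
      nlinarith
    have h4 : x - 1 + ((m + 1 : ℕ) : ℝ) = x + m := by
      push_cast
      ring
    rw [h4]
    linarith

theorem tail_Prod2 (j0 u : ℕ) (hj : 2 ≤ j0) (I : Finset ℕ) (hI : ∀ t ∈ I, u ≤ t) :
    ∑ t ∈ I, 1 / ((j0 + t : ℕ) : ℝ) ^ 2 ≤ 2 / ((j0 : ℝ) + u) := by
  have hx : (2 : ℝ) ≤ (j0 : ℝ) + u := by
    have : (2 : ℝ) ≤ j0 := by exact_mod_cast hj
    have : (0 : ℝ) ≤ u := Nat.cast_nonneg u
    linarith
  have h1 : I ⊆ Ico u (I.sup id + 1) := fun t ht =>
    mem_Ico.2 ⟨hI t ht, Nat.lt_succ_of_le (le_sup (f := id) ht)⟩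
  refine (sum_le_sum_of_subset_of_nonneg h1 fun _ _ _ => by positivity).trans ?_
  rw [sum_Ico_eq_sum_range]
  have h2 := tel_Prod2 _ hx (I.sup id + 1 - u)
  have h3 : ∀ i : ℕ, ((j0 + (u + i) : ℕ) : ℝ) = (j0 : ℝ) + u + i := fun i => by
    push_cast
    ring
  simp only [h3]
  refine h2.trans ?_
  generalize (j0 : ℝ) + u = x at hx
  generalize I.sup id + 1 - u = m
  have hm : (0 : ℝ) ≤ m := Nat.cast_nonneg m
  have h4 : 0 ≤ 1 / (x - 1 + m) := by
    have : 0 < x - 1 + m := by linarith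
    positivity
  have h5 : 1 / (x - 1) ≤ 2 / x := by
    rw [div_le_div_iff₀ (by linarith) (by linarith)]
    linarith
  linarith

theorem sProd2 (hM : StMul2) : StProd2 := by
  intro j0 B N s hj H u I hI
  have hb : Bk (∏ i ∈ I, B i) (∏ i ∈ I, N i) (∏ i ∈ I, s i) := by
    clear hI
    induction I using Finset.induction_on with
    | empty =>
      simp only [prod_empty]
      refine ⟨squarefree_one, one_nonempty, fun b hb => ?_, fun b hb => ?_, by simp⟩
      · rw [mem_one.1 hb]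
      · rw [mem_one.1 hb]
        simp
    | insert i I hi ih =>
      rw [prod_insert hi, prod_insert hi, prod_insert hi]
      exact (hM _ _ _ _ _ _ (H.blk i) ih
        (Nat.Coprime.prod_right fun j hj => H.cop i j fun e => hi (e ▸ hj))).1
  refine ⟨hb, fun a ha => ⟨hb.pos ha, ?_, ?_⟩⟩
  · rw [← hb.sig a ha, sg, ArithmeticFunction.sigma_one_apply]
    exact single_le_sum (f := fun d => d) (fun _ _ => Nat.zero_le _)
      (Nat.mem_divisors_self a (hb.pos ha).ne')
  · have h1 := sg_le_Prod2 (hb.sqf.squarefree_of_dvd (hb.dvd a ha))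
    have h2 : ∑ p ∈ a.primeFactors, (1 / p : ℝ) ≤ 2 / ((j0 : ℝ) + u) :=
      (sum_le_sum_of_subset_of_nonneg (Nat.primeFactors_mono (hb.dvd a ha) hb.sqf.ne_zero)
        fun _ _ _ => by positivity).trans
        ((sum_le_Prod2 N (fun i => (H.blk i).sqf.ne_zero) I).trans
          ((sum_le_sum fun t _ => one_Prod2 _ (j0 + t) 4998 (by omega)
            (fun p hp => (H.prm t p hp).1) (H.few t)).trans (tail_Prod2 j0 u hj I hI)))
    rw [← hb.sig a ha, mul_comm]
    exact h1.trans (mul_le_mul_of_nonneg_left (Real.exp_le_exp.2 h2) (Nat.cast_nonneg a))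

end Pool.Agent.MP_2876a2_nt.Tu

end

noncomputable section
open Finset Filter
open scoped Pointwise


namespace Pool.Agent.MP_2876a2_nt.Tu

theorem one_Tail {b W ρ : ℕ} (hb : Squarefree b) (h : ∀ p ∈ b.primeFactors, p ≡ ρ [MOD W]) :
    b ≡ ρ ^ b.primeFactors.card [MOD W] := by
  conv_lhs => rw [← Nat.prod_primeFactors_of_squarefree hb]
  rw [← prod_const]
  exact Nat.ModEq.prod h

theorem prod_Tail (W : ℕ) (B : ℕ → Finset ℕ) (x : ℕ → ℕ) (I : Finset ℕ)
    (h : ∀ t ∈ I, ∀ b ∈ B t, b ≡ x t [MOD W]) :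
    ∀ γ ∈ ∏ t ∈ I, B t, γ ≡ ∏ t ∈ I, x t [MOD W] := by
  induction I using Finset.induction_on with
  | empty =>
    intro γ hγ
    rw [prod_empty, Finset.mem_one] at hγ
    rw [hγ, prod_empty]
  | insert a I ha ih =>
    intro γ hγ
    rw [prod_insert ha] at hγ ⊢
    obtain ⟨u, hu, v, hv, rfl⟩ := mem_mul.1 hγ
    exact (h a (mem_insert_self _ _) u hu).mul
      (ih (fun t ht => h t (mem_insert_of_mem ht)) v hv)

theorem mem_Tail (B : ℕ → Finset ℕ) (b : ℕ → ℕ) (hb : ∀ t, b t ∈ B t) (I : Finset ℕ) :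
    ∏ t ∈ I, b t ∈ ∏ t ∈ I, B t := by
  induction I using Finset.induction_on with
  | empty => simp
  | insert a I ha ih => rw [prod_insert ha, prod_insert ha]; exact mul_mem_mul (hb a) ih

theorem sTail : StTail := by
  intro j0 t2 J W B N s G ρ r hS h
  have sq : ∀ t, ∀ b ∈ B t, Squarefree b := fun t b hb =>
    (hS.blk t).sqf.squarefree_of_dvd ((hS.blk t).dvd b hb)
  have sub : ∀ t, ∀ b ∈ B t, b.primeFactors ⊆ (N t).primeFactors := fun t b hb =>
    Nat.primeFactors_mono ((hS.blk t).dvd b hb) (hS.blk t).sqf.ne_zero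
  choose b hb using fun t => (hS.blk t).ne
  have ex : ∀ t, t2 ≤ t → ∃ p, p ∈ (b t).primeFactors := fun t ht =>
    card_pos.1 (by rw [(h t ht).2.2.1 _ (hb t)]; exact (h t ht).1)
  refine ⟨prod_Tail W B _ _ fun t ht x hx => ?_, fun t ht => ?_, fun t ht hG => ?_⟩
  · obtain ⟨-, h2, h3, h4⟩ := h t (mem_Ico.1 ht).1
    rw [← h3 x hx]
    exact one_Tail (sq t x hx) fun p hp => (h4 p (sub t x hx hp)).of_dvd h2
  · obtain ⟨p, hp⟩ := ex t (mem_Ico.1 ht).1
    obtain ⟨n, hn⟩ := (Nat.dvd_of_mem_primeFactors hp).trans (dvd_prod_of_mem b ht)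
    exact ⟨n, p, sub t _ (hb t) hp, by rw [mul_comm, ← hn]; exact mem_Tail B b hb _⟩
  · obtain ⟨p, hp⟩ := ex t ht
    have h1 : p.Prime := Nat.prime_of_mem_primeFactors hp
    obtain ⟨c, hc⟩ := Nat.dvd_of_mem_primeFactors hp
    have h2 : p.Coprime c := Nat.coprime_of_squarefree_mul (hc ▸ sq t _ (hb t))
    have h3 : sg (b t) = (p + 1) * sg c := by
      unfold sg
      rw [hc, ArithmeticFunction.isMultiplicative_sigma.map_mul_of_coprime h2,
        ArithmeticFunction.sigma_one_apply p, h1.sum_divisors]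
    have h4 : G t ∣ p + 1 :=
      (((h t ht).2.2.2 p (sub t _ (hb t) hp)).add_right 1).dvd_iff (dvd_refl _) |>.2 hG
    rw [← (hS.blk t).sig _ (hb t), h3]
    exact h4.mul_right _

end Pool.Agent.MP_2876a2_nt.Tu

end

noncomputable section
open Finset Filter
open scoped Pointwise


namespace Pool.Agent.MP_2876a2_nt.Tu

theorem sRound (hB : StBM) : StRound := by
  intro M hM
  filter_upwards [hB M hM] with j hj P
  induction hn : P.card using Nat.strong_induction_on generalizing P with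
  | _ n ih =>
  intro hP
  by_cases h : P.card < j ^ 4998
  · exact ⟨fun _ => 1, 1, 0, fun i _ => ⟨squarefree_one, by simp, by simp, by simp⟩,
      fun _ _ _ _ _ => Nat.coprime_one_left 1, by omega⟩
  obtain ⟨Q, hQ, hc⟩ := exists_subset_card_eq (not_lt.1 h)
  obtain ⟨B, N, s, r, h1, h2, r1, -⟩ := hj Q hc fun p hp => hP p (hQ hp)
  have ex : ∀ i, ∃ e, i < M → e ∈ B i := fun i => by
    by_cases hi : i < M
    · obtain ⟨e, he⟩ := (h1 i hi).1.ne
      exact ⟨e, fun _ => he⟩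
    · exact ⟨0, fun h => absurd h hi⟩
  choose e he using ex
  have dv : ∀ i < M, e i ∣ N i := fun i hi => (h1 i hi).1.dvd _ (he i hi)
  have sq : ∀ i < M, Squarefree (e i) := fun i hi => (h1 i hi).1.sqf.squarefree_of_dvd (dv i hi)
  have sb : ∀ i < M, (e i).primeFactors ⊆ P := fun i hi =>
    ((Nat.primeFactors_mono (dv i hi) (h1 i hi).1.sqf.ne_zero).trans (h1 i hi).2.1).trans hQ
  have cd : ∀ i < M, (e i).primeFactors.card = r := fun i hi => (h1 i hi).2.2 _ (he i hi)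
  obtain ⟨V, hV⟩ : ∃ V, V = (range M).biUnion fun i => (e i).primeFactors := ⟨_, rfl⟩
  have sV : ∀ i < M, (e i).primeFactors ⊆ V := fun i hi =>
    hV ▸ subset_biUnion_of_mem (fun i => (e i).primeFactors) (mem_range.2 hi)
  have VP : V ⊆ P := hV ▸ biUnion_subset.2 fun i hi => sb i (mem_range.1 hi)
  have V1 : V.card ≤ M * r := by
    have := card_biUnion_le_card_mul (range M) (fun i => (e i).primeFactors) r
      fun i hi => (cd i (mem_range.1 hi)).le
    rwa [card_range, ← hV] at this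
  have V2 : r ≤ V.card := cd 0 hM ▸ card_le_card (sV 0 hM)
  have V3 := card_sdiff_add_card_eq_card VP
  obtain ⟨c, D, w, g1, g2, g3⟩ := ih (P \ V).card (by omega) (P \ V) rfl
    fun p hp => hP p (mem_sdiff.1 hp).1
  have cp : ∀ i < M, ∀ i' < M, (e i).Coprime (c i') := fun i hi i' hi' =>
    (Nat.disjoint_primeFactors (sq i hi).ne_zero (g1 i' hi').1.ne_zero).1
      (disjoint_sdiff.mono (sV i hi) (g1 i' hi').2.1)
  refine ⟨fun i => e i * c i, s * D, r + w, fun i hi => ⟨?_, ?_, ?_, ?_⟩,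
    fun i hi i' hi' hne => ?_, ?_⟩
  · exact Nat.squarefree_mul_iff.2 ⟨cp i hi i hi, sq i hi, (g1 i hi).1⟩
  · rw [(cp i hi i hi).primeFactors_mul]
    exact union_subset (sb i hi) ((g1 i hi).2.1.trans sdiff_subset)
  · rw [(cp i hi i hi).primeFactors_mul, card_union_of_disjoint
      (cp i hi i hi).disjoint_primeFactors, cd i hi, (g1 i hi).2.2.1]
  · rw [← (h1 i hi).1.sig _ (he i hi), ← (g1 i hi).2.2.2]
    exact ArithmeticFunction.isMultiplicative_sigma.map_mul_of_coprime (cp i hi i hi)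
  · exact Nat.Coprime.mul_left
      (((h2 i hi i' hi' hne).of_dvd (dv i hi) (dv i' hi')).mul_right (cp i hi i' hi'))
      ((cp i' hi' i hi).symm.mul_right (g2 i hi i' hi' hne))
  · rw [mul_add]
    omega

end Pool.Agent.MP_2876a2_nt.Tu

end

noncomputable section
open Finset Filter
open scoped Pointwise


namespace Pool.Agent.MP_2876a2_nt.Tu

theorem dz_ER1 (j : ℕ) : Dz (j ^ 5000) = j ^ 2490 := by
  unfold Dz
  rw [Nat.cast_pow, ← Real.rpow_natCast, ← Real.rpow_mul (Nat.cast_nonneg j),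
    show ((5000 : ℕ) : ℝ) * (249 / 500) = (2490 : ℕ) by norm_num, Real.rpow_natCast,
    ← Nat.cast_pow, Nat.floor_natCast]

theorem num_ER1 {N K j m M w P L : ℝ} (hm : 0 < m) (hM : 0 < M) (hK : 0 < K) (hL : 0 < L)
    (hN : N = K * (j * j)) (hj : 7000000 * m ≤ j * j) (hL' : L ≤ 3500 * m)
    (h1 : N / (1000 * 1 * L) ≤ P) (h2 : P ≤ M * w + K) :
    1 / (20000000 * M * m) ≤ w * (1 / (2 * N)) := by
  have a : K * (7000000 * m) ≤ N := hN ▸ mul_le_mul_of_nonneg_left hj hK.le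
  have N0 : 0 < N := lt_of_lt_of_le (by positivity) a
  have b : N / (3500000 * m) ≤ P :=
    le_trans (div_le_div_of_nonneg_left N0.le (by positivity) (by linarith)) h1
  rw [div_le_iff₀ (by positivity)] at b
  have c := mul_le_mul_of_nonneg_right h2 hm.le
  rw [mul_one_div, div_le_div_iff₀ (by positivity) (by positivity)]
  nlinarith

theorem sER1 (hA : StA2) (hR : StRound) : StER1 := by
  classical
  intro M hM
  have t0 : Tendsto (fun m : ℕ => 2 ^ m) atTop atTop :=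
    tendsto_pow_atTop_atTop_of_one_lt one_lt_two
  have t : Tendsto (fun j : ℕ => j ^ 5000) atTop atTop := tendsto_pow_atTop (by norm_num)
  filter_upwards [t0.eventually (t.eventually (hA 1 0 one_pos (by simp))), t0.eventually (hR M hM),
    t0.eventually (eventually_ge_atTop 7000000), eventually_ge_atTop 1] with m h1 h2 h3 h4
  have e : 2 ^ (5000 * m) = (2 ^ m) ^ 5000 := by rw [mul_comm, pow_mul]
  have e' : 2 * (2 ^ m) ^ 5000 ≤ 2 ^ (5000 * (m + 1)) := by
    rw [← e, ← pow_succ']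
    exact Nat.pow_le_pow_right two_pos (by omega)
  have lt : m < 2 ^ m := Nat.lt_two_pow_self
  have lg : Real.log (((2 ^ m) ^ 5000 : ℕ) : ℝ) = 5000 * (m * Real.log 2) := by
    rw [Nat.cast_pow, Nat.cast_pow, Real.log_pow, Real.log_pow]
    norm_num
  rw [e]
  generalize 2 ^ m = j at *
  rw [dz_ER1] at h1
  obtain ⟨c, D, w, k1, k2, k3⟩ := h2 (GA j 1 0) fun p hp => (mem_GA.1 hp).1
  refine ⟨c, D, fun i hi => ?_, k2⟩
  obtain ⟨a1, a2, a3, a4⟩ := k1 i hi
  have g : ∀ p ∈ (c i).primeFactors, Gd j p := fun p hp => (mem_GA.1 (a2 hp)).1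
  refine ⟨a1, a4, fun p hp => ⟨(g p hp).2.1, (g p hp).2.2.1.trans e'⟩, ?_⟩
  have m0 : (0 : ℝ) < m := by exact_mod_cast h4
  have j0 : (0 : ℝ) < j := by exact_mod_cast (by omega : 0 < j)
  have l2 := Real.log_two_lt_d9
  have l0 := Real.log_pos one_lt_two
  have s := card_nsmul_le_sum (c i).primeFactors (fun p : ℕ => (1 / p : ℝ))
    (1 / (2 * ((j ^ 5000 : ℕ) : ℝ))) fun p hp =>
      one_div_le_one_div_of_le (by exact_mod_cast (g p hp).1.pos) (by exact_mod_cast (g p hp).2.2.1)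
  rw [a3, nsmul_eq_mul] at s
  refine le_trans ?_ s
  refine num_ER1 (K := ((j ^ 4998 : ℕ) : ℝ)) (j := j) (P := ((GA j 1 0).card : ℝ))
    (L := Real.log ((j ^ 5000 : ℕ) : ℝ)) m0 (by exact_mod_cast hM)
    (by rw [Nat.cast_pow]; exact pow_pos j0 _) (by rw [lg]; positivity) ?_ ?_ ?_ ?_ ?_
  · rw [Nat.cast_pow, Nat.cast_pow, show (5000 : ℕ) = 4998 + 1 + 1 from rfl, pow_succ (j : ℝ) (4998 + 1),
      pow_succ (j : ℝ) 4998, mul_assoc]
  · exact_mod_cast Nat.mul_le_mul h3 lt.le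
  · rw [lg]
    have := mul_le_mul_of_nonneg_left (show Real.log 2 ≤ 7 / 10 by linarith only [l2]) m0.le
    linarith only [this]
  · rw [Nat.cast_one] at h1
    exact h1
  · exact_mod_cast k3

end Pool.Agent.MP_2876a2_nt.Tu

end

noncomputable section
open Finset Filter
open scoped Pointwise


namespace Pool.Agent.MP_2876a2_nt.Tu

theorem prod_ge_ER (V : Finset ℕ) : 1 + ∑ p ∈ V, (1 / p : ℝ) ≤ ∏ p ∈ V, (1 + 1 / p : ℝ) := by
  induction V using Finset.induction_on with
  | empty => simp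
  | insert a s ha ih =>
    rw [sum_insert ha, prod_insert ha]
    have h1 : (0 : ℝ) ≤ 1 / a := by positivity
    have h2 : (0 : ℝ) ≤ ∑ p ∈ s, (1 / p : ℝ) := sum_nonneg fun p _ => by positivity
    nlinarith [mul_le_mul_of_nonneg_left ih h1, mul_nonneg h1 h2]

theorem sig_ER (V : Finset ℕ) (hV : ∀ p ∈ V, p.Prime) :
    (sg (∏ p ∈ V, p) : ℝ) / (∏ p ∈ V, p : ℕ) = ∏ p ∈ V, (1 + 1 / p : ℝ) := by
  have h := ArithmeticFunction.IsMultiplicative.map_prod_of_prime
    (ArithmeticFunction.isMultiplicative_sigma (k := 1)) V hV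
  rw [show sg (∏ p ∈ V, p) = ∏ p ∈ V, sg p from h]
  push_cast
  rw [← prod_div_distrib]
  refine prod_congr rfl fun p hp => ?_
  have hp0 : (p : ℝ) ≠ 0 := by exact_mod_cast (hV p hp).ne_zero
  have h1 : sg p = p + 1 := by
    have := ArithmeticFunction.sigma_one_apply_prime_pow (i := 1) (hV p hp)
    simpa [sum_range_succ, add_comm] using this
  rw [h1]
  push_cast
  field_simp

theorem ind_ER (M m0 : ℕ) (hm : 1 ≤ m0) (h : ∀ m, m0 ≤ m → ∃ (c : ℕ → ℕ) (D : ℕ),
    (∀ i < M, Squarefree (c i) ∧ sg (c i) = D ∧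
      (∀ p ∈ (c i).primeFactors, 2 ^ (5000 * m) < p ∧ p ≤ 2 ^ (5000 * (m + 1))) ∧
      1 / (20000000 * M * m : ℝ) ≤ ∑ p ∈ (c i).primeFactors, (1 / p : ℝ)) ∧
    ∀ i < M, ∀ i' < M, i ≠ i' → (c i).Coprime (c i')) (n : ℕ) : ∃ (c : ℕ → ℕ) (D : ℕ),
    (∀ i < M, Squarefree (c i) ∧ sg (c i) = D ∧
      (∀ p ∈ (c i).primeFactors, 2 < p ∧ p ≤ 2 ^ (5000 * (m0 + n))) ∧
      ∑ l ∈ range n, 1 / (20000000 * M * ((m0 + l : ℕ) : ℝ)) ≤
        ∑ p ∈ (c i).primeFactors, (1 / p : ℝ)) ∧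
    ∀ i < M, ∀ i' < M, i ≠ i' → (c i).Coprime (c i') := by
  induction n with
  | zero => exact ⟨fun _ => 1, 1, fun i _ => by simp, fun _ _ _ _ _ => Nat.coprime_one_left _⟩
  | succ n ih =>
    obtain ⟨c, D, hc, hcc⟩ := ih
    obtain ⟨c', D', hc', hcc'⟩ := h (m0 + n) (Nat.le_add_right _ _)
    have cop : ∀ i < M, ∀ i' < M, (c i).Coprime (c' i') := by
      intro i hi i' hi'
      refine (Nat.disjoint_primeFactors (hc i hi).1.ne_zero (hc' i' hi').1.ne_zero).1 ?_
      refine disjoint_left.2 fun p hp hp' => ?_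
      exact absurd ((hc i hi).2.2.1 p hp).2 (not_le.2 ((hc' i' hi').2.2.1 p hp').1)
    have e1 : 2 ^ 1 ≤ 2 ^ (5000 * (m0 + n)) := Nat.pow_le_pow_right two_pos (by omega)
    have e2 : 2 ^ (5000 * (m0 + n)) ≤ 2 ^ (5000 * (m0 + (n + 1))) :=
      Nat.pow_le_pow_right two_pos (by omega)
    refine ⟨fun i => c i * c' i, D * D', fun i hi => ⟨?_, ?_, ?_, ?_⟩, fun i hi i' hi' hne => ?_⟩
    · exact Nat.squarefree_mul_iff.2 ⟨cop i hi i hi, (hc i hi).1, (hc' i hi).1⟩
    · rw [← (hc i hi).2.1, ← (hc' i hi).2.1]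
      exact ArithmeticFunction.isMultiplicative_sigma.map_mul_of_coprime (cop i hi i hi)
    · intro p hp
      rw [(cop i hi i hi).primeFactors_mul] at hp
      rcases mem_union.1 hp with h1 | h1
      · exact ⟨((hc i hi).2.2.1 p h1).1, ((hc i hi).2.2.1 p h1).2.trans e2⟩
      · exact ⟨lt_of_le_of_lt e1 ((hc' i hi).2.2.1 p h1).1, ((hc' i hi).2.2.1 p h1).2⟩
    · rw [(cop i hi i hi).primeFactors_mul, sum_union (cop i hi i hi).disjoint_primeFactors,
        sum_range_succ]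
      exact add_le_add (hc i hi).2.2.2 (hc' i hi).2.2.2
    · exact Nat.Coprime.mul_left (Nat.Coprime.mul_right (hcc i hi i' hi' hne) (cop i hi i' hi'))
        (Nat.Coprime.mul_right (cop i' hi' i hi).symm (hcc' i hi i' hi' hne))

theorem sER (h1 : StER1) : StER := by
  intro M hM
  obtain ⟨m1, hm1⟩ := eventually_atTop.1 (h1 M hM)
  obtain ⟨n, hn⟩ := (Real.tendsto_sum_range_one_div_nat_succ_atTop.eventually_ge_atTop
    (20000000 * M * ((m1 + 1 : ℕ) : ℝ) * (2 * M))).exists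
  obtain ⟨c, D, hc, hcc⟩ := ind_ER M (m1 + 1) (by omega) (fun m hm => hm1 m (by omega)) n
  refine ⟨c, D, fun i hi => ?_, hcc⟩
  obtain ⟨sq, hD, hp, hs⟩ := hc i hi
  have c0 : 0 < c i := Nat.pos_of_ne_zero sq.ne_zero
  refine ⟨c0, fun h2 => ?_, hD, ?_⟩
  · exact lt_irrefl _ (hp 2 (Nat.mem_primeFactors.2 ⟨Nat.prime_two, h2, sq.ne_zero⟩)).1
  · have hM' : (0 : ℝ) < M := by exact_mod_cast hM
    have hK : (0 : ℝ) < 20000000 * M * ((m1 + 1 : ℕ) : ℝ) := by positivity
    have h2 : (2 * M : ℝ) ≤ ∑ l ∈ range n, 1 / (20000000 * M * ((m1 + 1 + l : ℕ) : ℝ)) := by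
      refine le_of_mul_le_mul_left (hn.trans ?_) hK
      rw [mul_sum]
      refine sum_le_sum fun l _ => ?_
      rw [mul_one_div, div_le_div_iff₀ (by positivity) (by positivity)]
      push_cast
      have h3 : (0 : ℝ) ≤ M * (m1 * l) := by positivity
      linarith
    have h3 := sig_ER (c i).primeFactors fun p hp => Nat.prime_of_mem_primeFactors hp
    rw [Nat.prod_primeFactors_of_squarefree sq, hD] at h3
    have h4 := prod_ge_ER (c i).primeFactors
    have c1 : (0 : ℝ) < c i := by exact_mod_cast c0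
    have h5 : (2 * M : ℝ) ≤ D / c i := by linarith
    rw [le_div_iff₀ c1] at h5
    exact_mod_cast h5

end Pool.Agent.MP_2876a2_nt.Tu

end
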