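import Pool.Agent.MP_2876a2_nt.Tu.St2

/-!
Exponential sums and the circle method.
-/

set_option autoImplicit false
set_option linter.all false

noncomputable section
open Finset Filter
open scoped Pointwise


namespace Pool.Agent.MP_2876a2_nt.Tu

theorem tel_CS (t : ℝ) (M : ℕ) :
    (ee t - 1) * ∑ n ∈ Icc 1 M, ee (t * n) = ee (t * (M + 1 : ℕ)) - ee t := by
  induction M with
  | zero => simp
  | succ M ih =>
    rw [sum_Icc_succ_top (by omega), mul_add, ih,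
      show t * ((M + 1 + 1 : ℕ) : ℝ) = t + t * (M + 1 : ℕ) by push_cast; ring, ee_add]
    ring

theorem low_CS (t : ℝ) : 4 * nz t ≤ ‖ee t - 1‖ := by
  have e : ee t = ee (t - round t) := by
    conv_lhs => rw [show t = t - round t + (round t : ℤ) by ring, ee_add, ee_int, mul_one]
  have h := Real.mul_abs_le_abs_sin (x := Real.pi * (t - round t)) (by
    rw [abs_mul, abs_of_pos Real.pi_pos]
    nlinarith [abs_sub_round t, Real.pi_pos])
  rw [e, ee, mul_comm _ Complex.I, Complex.norm_exp_I_mul_ofReal_sub_one, Real.norm_eq_abs,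
    abs_mul, show 2 * Real.pi * (t - round t) / 2 = Real.pi * (t - round t) by ring, abs_two]
  rw [abs_mul, abs_of_pos Real.pi_pos, ← mul_assoc, div_mul_cancel₀ _ Real.pi_pos.ne'] at h
  unfold nz
  linarith

theorem geo_CS (t : ℝ) (M : ℕ) : ‖∑ n ∈ Icc 1 M, ee (t * n)‖ ≤ mn M t := by
  have h1 : ‖∑ n ∈ Icc 1 M, ee (t * n)‖ ≤ M := (norm_sum_le _ _).trans (by simp [norm_ee])
  have h2 : ‖ee t - 1‖ * ‖∑ n ∈ Icc 1 M, ee (t * n)‖ ≤ 2 := by
    rw [← norm_mul, tel_CS]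
    refine (norm_sub_le _ _).trans ?_
    rw [norm_ee, norm_ee]
    norm_num
  have h3 := mul_le_mul_of_nonneg_right (low_CS t) (norm_nonneg (∑ n ∈ Icc 1 M, ee (t * n)))
  have h4 : 2 * nz t * ‖∑ n ∈ Icc 1 M, ee (t * n)‖ ≤ 1 := by linarith
  have h5 := mul_le_mul_of_nonneg_left h4 (Nat.cast_nonneg (α := ℝ) M)
  rw [mn, le_div_iff₀ (lt_max_of_lt_left one_pos), mul_max_of_nonneg _ _ (norm_nonneg _)]
  exact max_le (by linarith) (by linarith)

theorem conj_CS (t : ℝ) : (starRingEnd ℂ) (ee t) = ee (-t) := by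
  unfold ee
  rw [← Complex.exp_conj, map_mul, Complex.conj_ofReal, Complex.conj_I]
  congr 1
  push_cast
  ring

theorem sCS : StCS := by
  intro B B' Q Q' θ hB hB'
  have h1 : ‖∑ b ∈ B, ∑ b' ∈ B', ee (θ * ((b * b' : ℕ) : ℝ))‖ ^ 2 ≤
      B'.card * ∑ n ∈ Icc 1 Q', ‖∑ b ∈ B, ee (θ * ((b * n : ℕ) : ℝ))‖ ^ 2 := by
    rw [sum_comm]
    refine (pow_le_pow_left₀ (norm_nonneg _) (norm_sum_le _ _) 2).trans
      (sq_sum_le_card_mul_sum_sq.trans (mul_le_mul_of_nonneg_left ?_ (Nat.cast_nonneg _)))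
    exact sum_le_sum_of_subset_of_nonneg (fun b hb => mem_Icc.2 (hB' b hb))
      fun _ _ _ => sq_nonneg _
  have h2 : ((∑ n ∈ Icc 1 Q', ‖∑ b ∈ B, ee (θ * ((b * n : ℕ) : ℝ))‖ ^ 2 : ℝ) : ℂ) =
      ∑ b ∈ B, ∑ c ∈ B, ∑ n ∈ Icc 1 Q', ee (θ * (((b : ℤ) - c : ℤ) : ℝ) * n) := by
    rw [Complex.ofReal_sum]
    simp only [Complex.ofReal_pow, ← Complex.mul_conj', map_sum, sum_mul_sum, conj_CS, ← ee_add]
    rw [sum_comm]
    refine sum_congr rfl fun b _ => ?_
    rw [sum_comm]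
    refine sum_congr rfl fun c _ => sum_congr rfl fun n _ => ?_
    congr 1
    push_cast
    ring
  have h3 : ∑ n ∈ Icc 1 Q', ‖∑ b ∈ B, ee (θ * ((b * n : ℕ) : ℝ))‖ ^ 2 ≤
      B.card * ∑ h ∈ Icc (-(Q : ℤ)) Q, mn Q' (θ * h) := by
    refine (Real.le_norm_self _).trans ?_
    rw [← Complex.norm_real, h2, ← nsmul_eq_mul]
    refine (norm_sum_le _ _).trans (sum_le_card_nsmul _ _ _ fun b hb => ?_)
    refine (norm_sum_le _ _).trans ((sum_le_sum fun c _ => geo_CS _ _).trans ?_)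
    rw [← sum_image (s := B) (g := fun c : ℕ => (b : ℤ) - c) (f := fun h : ℤ => mn Q' (θ * h))
      fun c _ c' _ h => by simpa using h]
    refine sum_le_sum_of_subset_of_nonneg (fun h hh => ?_)
      fun _ _ _ => mn_nonneg (Nat.cast_nonneg _) _
    obtain ⟨c, hc, rfl⟩ := mem_image.1 hh
    have := hB b hb
    have := hB c hc
    rw [mem_Icc]
    omega
  refine h1.trans ((mul_le_mul_of_nonneg_left h3 (Nat.cast_nonneg _)).trans_eq ?_)
  ring

end Pool.Agent.MP_2876a2_nt.Tu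

end

noncomputable section
open Finset Filter
open scoped Pointwise


namespace Pool.Agent.MP_2876a2_nt.Tu

theorem pt_H1 {w : ℤ} {q r : ℕ} {M e : ℝ} (hM : 0 ≤ M) (hr : r ∈ Ico 1 q) (hw : w % q = r)
    (he : |e| ≤ 1 / (2 * q)) : mn M (w / q + e) ≤ q * ((r : ℝ)⁻¹ + ((q - r : ℕ) : ℝ)⁻¹) := by
  obtain ⟨h1, h2⟩ := mem_Ico.1 hr
  have q0 : (0 : ℝ) < q := by exact_mod_cast (by omega : 0 < q)
  obtain ⟨j, j1, j2, j3, j4⟩ : ∃ j : ℕ, 1 ≤ j ∧ j ≤ r ∧ j ≤ q - r ∧ (j = r ∨ j = q - r) :=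
    ⟨min r (q - r), by omega, by omega, by omega, by omega⟩
  have j0 : (1 : ℝ) ≤ j := by exact_mod_cast j1
  have h3 : ∀ n : ℤ, (j : ℤ) ≤ |w - n * q| := fun n => by
    have e1 := Int.mul_ediv_add_emod w q
    rcases le_or_gt n (w / q) with h | h
    · exact le_abs.2 (Or.inl (by nlinarith))
    · refine le_abs.2 (Or.inr ?_)
      have : (j : ℤ) ≤ q - r := by omega
      nlinarith
  have h4 : (j : ℝ) / (2 * q) ≤ nz (w / q + e) := by
    unfold nz
    generalize round ((w : ℝ) / q + e) = n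
    have h5 : (j : ℝ) ≤ |(w : ℝ) - n * q| := by exact_mod_cast h3 n
    have h6 : (j : ℝ) / q ≤ |(w : ℝ) / q - n| := by
      rw [show (w : ℝ) / q - n = (w - n * q) / q by field_simp, abs_div, abs_of_pos q0]
      exact div_le_div_of_nonneg_right h5 q0.le
    have h7 := abs_sub (w / q + e - n) e
    rw [show (w : ℝ) / q + e - n - e = w / q - n by ring] at h7
    have h8 : 1 / (2 * (q : ℝ)) ≤ j / (2 * q) := div_le_div_of_nonneg_right j0 (by positivity)
    have h9 : (j : ℝ) / q = j / (2 * q) + j / (2 * q) := by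
      field_simp
      ring
    linarith
  refine (mn_le_inv hM (by positivity) h4).trans ?_
  rw [show 1 / (2 * ((j : ℝ) / (2 * q))) = q * (j : ℝ)⁻¹ by field_simp]
  refine mul_le_mul_of_nonneg_left ?_ q0.le
  rcases j4 with h | h
  · rw [h]
    exact le_add_of_nonneg_right (by positivity)
  · rw [h]
    exact le_add_of_nonneg_left (by positivity)

theorem fib_H1 {q Q : ℕ} (hq : 0 < q) {S : Finset ℤ} (hS : S ⊆ Icc (-(Q : ℤ)) Q)
    (h : ∀ a ∈ S, ∀ b ∈ S, (q : ℤ) ∣ a - b) : (S.card : ℝ) ≤ 2 * Q / q + 1 := by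
  have q0 : (0 : ℤ) < q := by exact_mod_cast hq
  have h1 : S.card ≤ (Icc (0 : ℤ) ((2 * Q / q : ℕ) : ℤ)).card := by
    refine card_le_card_of_injOn (fun a => (a + Q) / q) (fun a ha => ?_) fun a ha b hb hab => ?_
    · obtain ⟨h2, h3⟩ := mem_Icc.1 (hS ha)
      refine mem_coe.2 (mem_Icc.2 ⟨Int.ediv_nonneg (by omega) q0.le, ?_⟩)
      push_cast
      exact Int.ediv_le_ediv q0 (by omega)
    · have h2 : (a + Q) % q = (b + Q) % q :=
        Int.emod_eq_emod_iff_emod_sub_eq_zero.2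
          (Int.emod_eq_zero_of_dvd (by simpa using h a ha b hb))
      have h3 := Int.mul_ediv_add_emod (a + Q) q
      have h4 := Int.mul_ediv_add_emod (b + Q) q
      simp only at hab
      rw [hab, h2] at h3
      omega
  rw [Int.card_Icc, sub_zero, Int.toNat_natCast_add_one] at h1
  have h2 : ((2 * Q / q : ℕ) : ℝ) ≤ (2 * Q : ℕ) / q := Nat.cast_div_le
  have h3 : (S.card : ℝ) ≤ ((2 * Q / q : ℕ) : ℝ) + 1 := by exact_mod_cast h1
  push_cast at h2
  linarith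

theorem har_H1 (q : ℕ) :
    ∑ r ∈ Ico 1 q, ((r : ℝ)⁻¹ + ((q - r : ℕ) : ℝ)⁻¹) ≤ 2 * (1 + Real.log q) := by
  have h1 : ∑ r ∈ Ico 1 q, ((q - r : ℕ) : ℝ)⁻¹ = ∑ r ∈ Ico 1 q, (r : ℝ)⁻¹ := by
    refine sum_nbij' (q - ·) (q - ·) ?_ ?_ ?_ ?_ fun _ _ => rfl <;>
    · simp only [mem_Ico]
      omega
  have h2 : ∑ r ∈ Ico 1 q, (r : ℝ)⁻¹ ≤ ∑ r ∈ Icc 1 q, (r : ℝ)⁻¹ :=
    sum_le_sum_of_subset_of_nonneg Ico_subset_Icc_self fun _ _ _ => by positivity
  have h3 := harmonic_le_one_add_log q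
  rw [harmonic_eq_sum_Icc] at h3
  push_cast at h3
  rw [sum_add_distrib, h1]
  linarith

theorem sH1 : StH1 := by
  intro u q Q M γ hq hu hM hγ
  have q0 : (0 : ℤ) < q := by exact_mod_cast hq
  have q1 : (0 : ℝ) < q := by exact_mod_cast hq
  have hc : ∀ h : ℤ, (((u * h) % q).toNat : ℤ) = (u * h) % q := fun h =>
    Int.toNat_of_nonneg (Int.emod_nonneg _ q0.ne')
  have hmap : ∀ h ∈ (Icc (-(Q : ℤ)) Q).filter (fun h => ¬ (q : ℤ) ∣ h),
      ((u * h) % q).toNat ∈ Ico 1 q := fun h hh => by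
    have h1 := Int.emod_lt_of_pos (u * h) q0
    have h2 : (u * h) % q ≠ 0 := fun h0 =>
      (mem_filter.1 hh).2 (hu.symm.dvd_of_dvd_mul_left (Int.dvd_of_emod_eq_zero h0))
    have h3 := hc h
    exact mem_Ico.2 (by omega)
  rw [← sum_fiberwise_of_maps_to hmap]
  refine (sum_le_sum (g := fun r : ℕ => (2 * Q / q + 1) *
    (q * ((r : ℝ)⁻¹ + ((q - r : ℕ) : ℝ)⁻¹))) fun r hr => ?_).trans ?_
  · refine (sum_le_card_nsmul _ _ (q * ((r : ℝ)⁻¹ + ((q - r : ℕ) : ℝ)⁻¹)) fun h hh => ?_).trans ?_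
    · obtain ⟨h1, h2⟩ := mem_filter.1 hh
      have h3 : |(h : ℝ)| ≤ Q := by
        exact_mod_cast abs_le.2 (mem_Icc.1 (mem_filter.1 h1).1)
      rw [show ((u : ℝ) / q + γ) * h = ((u * h : ℤ) : ℝ) / q + γ * h by push_cast; ring]
      refine pt_H1 hM hr (by rw [← hc, h2]) (le_trans ?_ hγ)
      rw [abs_mul]
      exact mul_le_mul_of_nonneg_left h3 (abs_nonneg _)
    · rw [nsmul_eq_mul]
      refine mul_le_mul_of_nonneg_right (fib_H1 hq ((filter_subset _ _).trans (filter_subset _ _))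
        fun a ha b hb => hu.symm.dvd_of_dvd_mul_left ?_) (by positivity)
      rw [mul_sub]
      refine Int.dvd_of_emod_eq_zero (Int.emod_eq_emod_iff_emod_sub_eq_zero.1 ?_)
      rw [← hc a, ← hc b, (mem_filter.1 ha).2, (mem_filter.1 hb).2]
  · rw [← mul_sum, ← mul_sum, ← mul_assoc]
    refine (mul_le_mul_of_nonneg_left (har_H1 q) (by positivity)).trans (le_of_eq ?_)
    field_simp

end Pool.Agent.MP_2876a2_nt.Tu

end

noncomputable section
open Finset Filter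
open scoped Pointwise


namespace Pool.Agent.MP_2876a2_nt.Tu

theorem harm_H (Q : ℕ) : ∑ l ∈ Icc (-(Q : ℤ)) Q, (1 / |(l : ℝ)|) = 2 * (harmonic Q : ℝ) := by
  induction Q with
  | zero => simp
  | succ n ih =>
    have e : Icc (-((n + 1 : ℕ) : ℤ)) ((n + 1 : ℕ) : ℤ) =
        insert (-((n : ℤ) + 1)) (insert ((n : ℤ) + 1) (Icc (-(n : ℤ)) n)) := by
      ext x
      simp only [mem_Icc, mem_insert]
      push_cast
      omega
    rw [e, sum_insert (by simp only [mem_Icc, mem_insert]; omega),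
      sum_insert (by simp only [mem_Icc]; omega), ih, harmonic_succ]
    push_cast
    rw [abs_neg, abs_of_pos (by positivity)]
    ring

theorem nz_H (n : ℤ) (t : ℝ) (ht : |t| ≤ 1 / 2) : |t| ≤ nz (n + t) := by
  unfold nz
  obtain ⟨k, hk⟩ : ∃ k : ℤ, (k : ℝ) = (round ((n : ℝ) + t) : ℤ) - n :=
    ⟨round ((n : ℝ) + t) - n, by push_cast; rfl⟩
  rw [show (n : ℝ) + t - (round ((n : ℝ) + t) : ℤ) = t - k by rw [hk]; ring]
  rcases eq_or_ne k 0 with rfl | h
  · simp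
  · have h1 : (1 : ℝ) ≤ |(k : ℝ)| := by exact_mod_cast Int.one_le_abs h
    have h2 := abs_sub_abs_le_abs_sub (k : ℝ) t
    rw [abs_sub_comm]
    linarith

theorem sH (h1 : StH1) : StH := by
  intro u q m Q Q' S β hq hu hm hQ hQ' hS hS' hqs
  obtain ⟨g, hg⟩ : ∃ g, g = Nat.gcd m q := ⟨_, rfl⟩
  have g0 : 0 < g := hg ▸ Nat.gcd_pos_of_pos_left _ hm
  obtain ⟨q1, e1⟩ : g ∣ q := hg ▸ Nat.gcd_dvd_right _ _
  obtain ⟨m1, e2⟩ : g ∣ m := hg ▸ Nat.gcd_dvd_left _ _
  have hc : Nat.Coprime m1 q1 := by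
    have h := hg
    rw [e1, e2, Nat.gcd_mul_left] at h
    exact (Nat.eq_of_mul_eq_mul_left g0 (by rw [← h, mul_one])).symm
  have q0 : 0 < q1 := Nat.pos_of_ne_zero fun h => by rw [h] at e1; omega
  have hu1 : IsCoprime (u * (m1 : ℤ)) (q1 : ℤ) := by
    refine IsCoprime.mul_left ?_ (Nat.isCoprime_iff_coprime.2 hc)
    rw [e1, Nat.cast_mul] at hu
    exact hu.of_mul_right_right
  rw [← hg]
  have g1 : (1 : ℝ) ≤ g := by exact_mod_cast g0
  have q2 : (1 : ℝ) ≤ q1 := by exact_mod_cast q0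
  have m2 : (0 : ℝ) < m := by exact_mod_cast hm
  have Q1 : (1 : ℝ) ≤ Q := by exact_mod_cast hQ
  have Q2 : (1 : ℝ) ≤ Q' := by exact_mod_cast hQ'
  have e3 : (q : ℝ) = g * q1 := by exact_mod_cast e1
  have e4 : (m : ℝ) = g * m1 := by exact_mod_cast e2
  have S1 : (m : ℝ) * Q * Q' ≤ S := by exact_mod_cast hS
  have S2 : (S : ℝ) ≤ 3 * (m * Q * Q') := by exact_mod_cast hS'
  have b0 := abs_nonneg β
  have q3 : (q1 : ℝ) ≤ q := by rw [e3]; nlinarith
  have e5 : ((u : ℝ) / q + β) * m = ((u * (m1 : ℤ) : ℤ) : ℝ) / q1 + β * m := by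
    rw [add_mul, e3]
    congr 1
    rw [e4]
    push_cast
    field_simp
  have hγ : |β * m| * Q ≤ 1 / (2 * q1) := by
    have a1 : (q : ℝ) * (|β| * S) ≤ qs S q β :=
      mul_le_mul_of_nonneg_left (le_max_right _ _) (Nat.cast_nonneg _)
    have a2 : (q1 : ℝ) * (|β| * (m * Q * Q')) ≤ q * (|β| * S) := by gcongr
    rw [abs_mul, abs_of_pos m2, le_div_iff₀ (by positivity)]
    refine le_of_mul_le_mul_right ?_ (show (0 : ℝ) < Q' by positivity)
    nlinarith
  have L0 : 0 ≤ Real.log Q := Real.log_nonneg Q1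
  have s0 : 0 < qs S q β := one_pos.trans_le (one_le_qs S hq β)
  simp only [e5]
  rw [← sum_filter_add_sum_filter_not _ (fun h : ℤ => (q1 : ℤ) ∣ h)]
  have A := h1 (u * (m1 : ℤ)) q1 Q Q' (β * m) q0 hu1 (by positivity) hγ
  have A' : 2 * (2 * (Q : ℝ) + q1) * (1 + Real.log q1) ≤ 2 * (2 * Q + q) * (1 + Real.log q) := by
    have := Real.log_nonneg q2
    gcongr
  obtain ⟨c, hc'⟩ : ∃ c : ℝ, c = 3 / 2 * g * Q * Q' / qs S q β := ⟨_, rfl⟩
  have c0 : 0 ≤ c := by rw [hc']; positivity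
  have B : ∑ h ∈ (Icc (-(Q : ℤ)) Q).filter (fun h : ℤ => (q1 : ℤ) ∣ h),
      mn Q' ((((u * (m1 : ℤ) : ℤ) : ℝ) / q1 + β * m) * h) ≤
      ∑ l ∈ Icc (-(Q : ℤ)) Q, ((if l = 0 then (Q' : ℝ) else 0) + c * (1 / |(l : ℝ)|)) := by
    have q4 : (q1 : ℤ) ≠ 0 := by exact_mod_cast q0.ne'
    refine le_trans (sum_le_sum (g := fun h : ℤ => (if h / q1 = 0 then (Q' : ℝ) else 0) +
      c * (1 / |((h / q1 : ℤ) : ℝ)|)) fun h hh => ?_) ?_
    · obtain ⟨hh1, l, rfl⟩ := mem_filter.1 hh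
      simp only [Int.mul_ediv_cancel_left _ q4]
      rcases eq_or_ne l 0 with rfl | hl
      · simpa using mn_le (M := Q') (by positivity) _
      rw [if_neg hl, zero_add]
      have l1 : (1 : ℝ) ≤ |(l : ℝ)| := by exact_mod_cast Int.one_le_abs hl
      have l2 : (q1 : ℝ) * |(l : ℝ)| ≤ Q := by
        have a1 : |(q1 : ℤ) * l| ≤ Q := abs_le.2 (mem_Icc.1 hh1)
        have a2 : |(q1 : ℝ) * l| ≤ Q := by exact_mod_cast a1
        rwa [abs_mul, abs_of_pos (by positivity)] at a2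
      rcases le_or_gt (|β| * S) 1 with h2 | h2
      · refine (mn_le (by positivity) _).trans ?_
        rw [hc', qs, max_eq_left h2, mul_one, e3, mul_one_div, div_div, le_div_iff₀ (by positivity)]
        have a3 : (Q' : ℝ) * (g * (q1 * |(l : ℝ)|)) ≤ Q' * (g * Q) := by gcongr
        have a4 : 0 ≤ (Q' : ℝ) * (g * Q) := by positivity
        nlinarith
      · have b1 : 0 < |β| := by
          rcases b0.lt_or_eq with h | h
          · exact h
          · rw [← h, zero_mul] at h2; linarith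
        have a5 : |β * m * (q1 * l)| = |β| * m * (q1 * |(l : ℝ)|) := by
          rw [abs_mul, abs_mul, abs_mul, abs_of_pos m2, abs_of_pos (show (0 : ℝ) < q1 by positivity)]
        have a6 : |β * m * (q1 * l)| ≤ 1 / 2 := by
          rw [abs_mul, abs_of_pos m2] at hγ
          rw [a5]
          calc _ ≤ |β| * m * Q := by gcongr
            _ ≤ 1 / (2 * q1) := hγ
            _ ≤ _ := one_div_le_one_div_of_le two_pos (by linarith)
        have a7 := nz_H (u * m1 * l) _ a6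
        have a8 : (((u * (m1 : ℤ) : ℤ) : ℝ) / q1 + β * m) * (((q1 : ℤ) * l : ℤ) : ℝ) =
            ((u * m1 * l : ℤ) : ℝ) + β * m * (q1 * l) := by
          push_cast
          field_simp
        rw [a8]
        refine (mn_le_inv (by positivity) (by rw [a5]; positivity) a7).trans ?_
        have S0 : (0 : ℝ) < S := lt_of_lt_of_le (by positivity) S1
        rw [a5, hc', qs, max_eq_right h2.le, e3, mul_one_div, div_div,
          div_le_div_iff₀ (by positivity) (by positivity)]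
        have a9 : (g : ℝ) * q1 * |β| * |(l : ℝ)| * S ≤ g * q1 * |β| * |(l : ℝ)| * (3 * (m * Q * Q')) := by
          gcongr
        linarith
    · rw [← sum_image (s := (Icc (-(Q : ℤ)) Q).filter (fun h : ℤ => (q1 : ℤ) ∣ h))
        (g := fun h : ℤ => h / q1)
        (f := fun l : ℤ => (if l = 0 then (Q' : ℝ) else 0) + c * (1 / |(l : ℝ)|))]
      · refine sum_le_sum_of_subset_of_nonneg (fun l hl => ?_) fun l _ _ => ?_
        · obtain ⟨h, hh, rfl⟩ := mem_image.1 hl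
          obtain ⟨hh1, l, rfl⟩ := mem_filter.1 hh
          rw [Int.mul_ediv_cancel_left _ q4]
          have a1 : |(q1 : ℤ) * l| ≤ Q := abs_le.2 (mem_Icc.1 hh1)
          have a2 : (1 : ℤ) ≤ q1 := by exact_mod_cast q0
          rw [abs_mul, abs_of_pos (by omega)] at a1
          exact mem_Icc.2 (abs_le.1 (le_trans (le_mul_of_one_le_left (abs_nonneg l) a2) a1))
        · refine add_nonneg ?_ (by positivity)
          split_ifs <;> positivity
      · intro h hh h' hh' e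
        obtain ⟨-, l, rfl⟩ := mem_filter.1 hh
        obtain ⟨-, l', rfl⟩ := mem_filter.1 hh'
        simp only [Int.mul_ediv_cancel_left _ q4] at e
        rw [e]
  rw [sum_add_distrib, sum_ite_eq', if_pos (mem_Icc.2 ⟨by omega, by omega⟩), ← mul_sum,
    harm_H] at B
  have C := harmonic_le_one_add_log Q
  have D : c * (2 * (harmonic Q : ℝ)) ≤ 3 * (1 + Real.log Q) * g * Q * Q' / qs S q β := by
    calc _ ≤ c * (2 * (1 + Real.log Q)) := by gcongr
      _ = _ := by rw [hc']; ring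
  linarith

end Pool.Agent.MP_2876a2_nt.Tu

end

noncomputable section
open Finset Filter
open scoped Pointwise


namespace Pool.Agent.MP_2876a2_nt.Tu

lemma ev_Num : ∀ᶠ Y : ℝ in atTop, 30 * (1 + Real.log Y) ≤ Y ^ (1 / 5000 : ℝ) := by
  have h1 := (isLittleO_log_rpow_atTop (show (0 : ℝ) < 1 / 5000 by norm_num)).bound
    (show (0 : ℝ) < 1 / 60 by norm_num)
  have h2 := (tendsto_rpow_atTop (show (0 : ℝ) < 1 / 5000 by norm_num)).eventually_ge_atTop 60
  filter_upwards [h1, h2] with Y a b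
  rw [Real.norm_of_nonneg (by linarith : (0 : ℝ) ≤ Y ^ (1 / 5000 : ℝ)), Real.norm_eq_abs] at a
  have := le_abs_self (Real.log Y)
  linarith

theorem sNum : StNum := by
  filter_upwards [ev_Num, eventually_ge_atTop (1 : ℝ)] with Y h hY q Q Q' g q1 qY Q1 hQ Q0 hQ' g0 hg
  have Y0 : 0 < Y := by linarith
  have lY : 0 ≤ Real.log Y := Real.log_nonneg hY
  have lQ : Real.log Q ≤ 2 * Real.log Y := by
    have := Real.log_le_log (by linarith) hQ
    rw [Real.log_rpow Y0] at this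
    linarith
  have lQ0 : 0 ≤ Real.log Q := Real.log_nonneg Q1
  have lq : Real.log q ≤ Real.log Y := Real.log_le_log (by linarith) qY
  have lq0 : 0 ≤ Real.log q := Real.log_nonneg q1
  have e1 : Y ^ (5001 / 5000 : ℝ) = Y * Y ^ (1 / 5000 : ℝ) := by
    rw [show (5001 / 5000 : ℝ) = 1 + 1 / 5000 by norm_num, Real.rpow_add Y0, Real.rpow_one]
  have e4 : Y ^ (5004 / 5000 : ℝ) = Y * (Y ^ (1 / 5000 : ℝ)) ^ 4 := by
    rw [← Real.rpow_natCast, ← Real.rpow_mul Y0.le,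
      show (5004 / 5000 : ℝ) = 1 + 1 / 5000 * (4 : ℕ) by norm_num, Real.rpow_add Y0, Real.rpow_one]
  rw [e1] at hQ hQ'
  rw [e4]
  generalize Y ^ (1 / 5000 : ℝ) = u at *
  set l := 1 + Real.log Y with hl
  have l1 : 1 ≤ l := by linarith
  have u1 : 1 ≤ u := by linarith
  have z1 : Y * u ≤ Y * u ^ 3 :=
    mul_le_mul_of_nonneg_left (le_self_pow₀ u1 (by norm_num)) Y0.le
  have z0 : Y ≤ Y * u := le_mul_of_one_le_right Y0.le u1
  have Z0 : 0 ≤ Y * u ^ 3 := by positivity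
  have t1 : Q' ≤ Y * u ^ 3 * l := (hQ'.trans z1).trans (le_mul_of_one_le_right Z0 l1)
  have t2 : 2 * (2 * Q + q) * (1 + Real.log q) ≤ 6 * (Y * u ^ 3) * l :=
    mul_le_mul (by linarith) (by linarith) (by linarith) (by positivity)
  have t3 : 3 * (1 + Real.log Q) * g * Q * Q' / Y ≤ 6 * (Y * u ^ 3) * l := by
    rw [div_le_iff₀ Y0]
    calc 3 * (1 + Real.log Q) * g * Q * Q' ≤ 6 * l * u * (Y * u) * (Y * u) := by
          refine mul_le_mul (mul_le_mul (mul_le_mul (by linarith) hg g0 (by positivity)) hQ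
            (by linarith) (by positivity)) hQ' Q0 (by positivity)
      _ = 6 * (Y * u ^ 3) * l * Y := by ring
  have t4 : Y * u ^ 3 * (13 * l) ≤ Y * u ^ 3 * u := mul_le_mul_of_nonneg_left (by linarith) Z0
  calc _ ≤ Y * u ^ 3 * (13 * l) := by linarith
    _ ≤ Y * u ^ 3 * u := t4
    _ = Y * u ^ 4 := by ring

end Pool.Agent.MP_2876a2_nt.Tu

end

noncomputable section
open Finset Filter
open scoped Pointwise


namespace Pool.Agent.MP_2876a2_nt.Tu

theorem size_Bil2 {B B' : Finset ℕ} {N N' Q Q' : ℕ} {Y : ℝ} (hY : 1 ≤ Y) (h : Bk B N Q)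
    (h' : Bk B' N' Q') (hQ : Y ^ (4999 / 5000 : ℝ) ≤ Q) (hQ' : 2 * Y ≤ Q') :
    Y ^ (5009 / 5000 : ℝ) ≤ (B.card : ℝ) * B'.card := by
  have hY0 : 0 < Y := lt_of_lt_of_le one_pos hY
  have h1 : ((Q : ℝ)) ^ 501 ≤ (B.card : ℝ) ^ 1000 := by exact_mod_cast h.big
  have h2 : ((Q' : ℝ)) ^ 501 ≤ (B'.card : ℝ) ^ 1000 := by exact_mod_cast h'.big
  have h3 : ((Q : ℝ) * Q') ^ 501 ≤ ((B.card : ℝ) * B'.card) ^ 1000 := by
    rw [mul_pow, mul_pow]
    exact mul_le_mul h1 h2 (pow_nonneg (Nat.cast_nonneg _) _) (pow_nonneg (Nat.cast_nonneg _) _)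
  have h4 : Y ^ (9999 / 5000 : ℝ) ≤ (Q : ℝ) * Q' := by
    have e : Y ^ (9999 / 5000 : ℝ) = Y ^ (4999 / 5000 : ℝ) * Y := by
      rw [← Real.rpow_add_one hY0.ne']
      norm_num
    rw [e]
    exact mul_le_mul hQ (by linarith) hY0.le (Nat.cast_nonneg _)
  have h5 : (Y ^ (5009 / 5000 : ℝ)) ^ 1000 ≤ (Y ^ (9999 / 5000 : ℝ)) ^ 501 := by
    rw [← Real.rpow_natCast, ← Real.rpow_natCast, ← Real.rpow_mul hY0.le, ← Real.rpow_mul hY0.le]
    exact Real.rpow_le_rpow_of_exponent_le hY (by norm_num)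
  have h6 : (Y ^ (9999 / 5000 : ℝ)) ^ 501 ≤ ((Q : ℝ) * Q') ^ 501 :=
    pow_le_pow_left₀ (by positivity) h4 _
  exact le_of_pow_le_pow_left₀ (n := 1000) (by norm_num) (by positivity) (h5.trans (h6.trans h3))

theorem sBil2 (hC : StCS) (hH : StH) (hN : StNum) : StBil2 := by
  unfold StBil2
  filter_upwards [hN, eventually_ge_atTop (1 : ℝ)] with Y hNY hY
  intro B B' N N' Q Q' m S q u β hB hB' hb hb' hq hu hm hS1 hS2 hqs hQ'1 hQ'2 hQ1 hQ2 hg
  have hY0 : 0 < Y := lt_of_lt_of_le one_pos hY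
  have h1 := hC B B' Q Q' ((u / q + β) * m) hb hb'
  have h2 := hH u q m Q Q' S β hq hu hm hB.s_pos hB'.s_pos hS1 hS2 (by rw [hqs]; exact hQ'1)
  rw [hqs] at h2
  have hqY : (q : ℝ) ≤ Y := by rw [← hqs]; exact le_qs S q β
  have h3 := hNY q Q Q' ((Nat.gcd m q : ℕ) : ℝ) (by exact_mod_cast hq) hqY
    (by exact_mod_cast hB.s_pos) hQ2 (Nat.cast_nonneg _) hQ'2 (Nat.cast_nonneg _) hg
  have hX := size_Bil2 hY hB hB' hQ1 hQ'1
  have hX0 : (0 : ℝ) ≤ (B.card : ℝ) * B'.card := by positivity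
  have h4 := h1.trans (mul_le_mul_of_nonneg_left (h2.trans h3) hX0)
  have h5 : Y ^ (5004 / 5000 : ℝ) =
      Y ^ (5009 / 5000 : ℝ) * (Y ^ (-(1 / 2000) : ℝ)) ^ 2 := by
    rw [← Real.rpow_natCast, ← Real.rpow_mul hY0.le, ← Real.rpow_add hY0]
    norm_num
  refine le_of_pow_le_pow_left₀ (n := 2) (by norm_num) (by positivity) (h4.trans ?_)
  rw [h5, mul_pow, pow_two ((B.card : ℝ) * B'.card), mul_assoc ((B.card : ℝ) * B'.card)]
  exact mul_le_mul_of_nonneg_left (mul_le_mul_of_nonneg_right hX (by positivity)) hX0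

end Pool.Agent.MP_2876a2_nt.Tu

end

noncomputable section
open Finset Filter
open scoped Pointwise


namespace Pool.Agent.MP_2876a2_nt.Tu

theorem half_Slow2 {a j k : ℕ} (hk : 2 ≤ k) (hj : 1 ≤ j) (h : j ≤ 2 * k) :
    j ^ j ^ a ≤ (k ^ k ^ a) ^ (2 * 2 ^ a) := by
  have h1 : j ≤ k ^ 2 := by nlinarith
  calc j ^ j ^ a ≤ j ^ (2 * k) ^ a := Nat.pow_le_pow_right hj (Nat.pow_le_pow_left h a)
    _ ≤ (k ^ 2) ^ (2 * k) ^ a := Nat.pow_le_pow_left h1 _
    _ = (k ^ k ^ a) ^ (2 * 2 ^ a) := by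
      rw [← pow_mul, ← pow_mul, mul_pow]
      congr 1
      ring

theorem sSlow2 : StSlow2 := by
  intro a E n
  obtain ⟨m, hm⟩ : ∃ m, m = E * n * (2 * 2 ^ a) := ⟨_, rfl⟩
  refine ⟨2 * m, fun j0 s hj h t ht => ?_⟩
  have h1 : ∀ i, 1 ≤ s i := fun i => (Nat.one_le_pow _ _ (by omega)).trans (h i).1
  refine (Nat.pow_le_pow_iff_left (n := 2 * 2 ^ a) (by positivity)).1 ?_
  calc (s t ^ n) ^ (2 * 2 ^ a) ≤ (((j0 + t) ^ (E * (j0 + t) ^ a)) ^ n) ^ (2 * 2 ^ a) :=
        Nat.pow_le_pow_left (Nat.pow_le_pow_left (h t).2 n) _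
    _ = ((j0 + t) ^ (j0 + t) ^ a) ^ (Ico (t - m) t).card := by
      rw [Nat.card_Ico, show t - (t - m) = m by omega, hm, ← pow_mul, ← pow_mul, ← pow_mul]
      congr 1
      ring
    _ ≤ ∏ i ∈ Ico (t - m) t, s i ^ (2 * 2 ^ a) := by
      refine pow_card_le_prod _ _ _ fun i hi => ?_
      have := (mem_Ico.1 hi).1
      exact (half_Slow2 (k := j0 + i) (by omega) (by omega) (by omega)).trans
        (Nat.pow_le_pow_left (h i).1 _)
    _ ≤ ∏ i ∈ range t, s i ^ (2 * 2 ^ a) :=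
      prod_le_prod_of_subset_of_one_le' (fun i hi => mem_range.2 (mem_Ico.1 hi).2)
        fun i _ _ => Nat.one_le_pow _ _ (h1 i)
    _ = (∏ i ∈ range t, s i) ^ (2 * 2 ^ a) := prod_pow _ _ _

end Pool.Agent.MP_2876a2_nt.Tu

end

noncomputable section
open Finset Filter
open scoped Pointwise


namespace Pool.Agent.MP_2876a2_nt.Tu

theorem core_Sel2 (s : ℕ → ℝ) (n t0 J : ℕ) (Z : ℝ) (hn : 3 ≤ n) (h1 : ∀ i, 1 ≤ s i)
    (hs : ∀ t, t0 ≤ t → s t ^ n ≤ ∏ i ∈ range t, s i) (hZ : 2 ≤ Z)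
    (h0 : ∏ i ∈ range t0, s i ≤ Z ^ n) (hJ : Z ^ n * Z ^ n ≤ Z * ∏ i ∈ range J, s i) :
    ∃ t' t : ℕ, t' ≤ t ∧ t ≤ J ∧ 2 * Z ^ n ≤ ∏ i ∈ range t', s i ∧
      ∏ i ∈ range t', s i ≤ Z ^ (n + 3) ∧ Z ^ n ≤ (∏ i ∈ Ico t' t, s i) * Z ^ 4 ∧
      ∏ i ∈ Ico t' t, s i ≤ Z ^ (n + 3) := by
  classical
  have Z1 : 1 ≤ Z := by linarith
  have Z0 : 0 < Z := by linarith
  have Zn : 2 ≤ Z ^ n := hZ.trans (le_self_pow₀ Z1 (by omega))
  have s0 : ∀ i, 0 ≤ s i := fun i => zero_le_one.trans (h1 i)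
  have mono : ∀ a b, a ≤ b → ∏ i ∈ range a, s i ≤ ∏ i ∈ range b, s i := fun a b hab =>
    prod_le_prod_of_subset_of_one_le (range_subset_range.2 hab) (fun i _ => s0 i)
      fun i _ _ => h1 i
  have root : ∀ t k, t0 ≤ t → ∏ i ∈ range t, s i ≤ Z ^ (k * n) → s t ≤ Z ^ k := fun t k ht h => by
    refine le_of_pow_le_pow_left₀ (n := n) (by omega) (by positivity) ?_
    rw [← pow_mul]
    exact (hs t ht).trans h
  have J2 : 2 * Z ^ n ≤ ∏ i ∈ range J, s i := by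
    have b1 : Z * 2 ≤ Z ^ n := by
      refine le_trans ?_ (pow_le_pow_right₀ Z1 (show 2 ≤ n by omega))
      rw [sq]
      exact mul_le_mul_of_nonneg_left hZ Z0.le
    refine le_of_mul_le_mul_left (le_trans ?_ hJ) Z0
    rw [← mul_assoc]
    exact mul_le_mul_of_nonneg_right b1 (by positivity)
  have ex : ∃ t, 2 * Z ^ n ≤ ∏ i ∈ range t, s i := ⟨J, J2⟩
  have a1 := Nat.find_spec ex
  have a2 : Nat.find ex ≤ J := Nat.find_min' ex J2
  have a3 : t0 < Nat.find ex := by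
    by_contra h
    have := mono _ _ (not_lt.1 h)
    linarith
  have a4 : ∏ i ∈ range (Nat.find ex), s i ≤ Z ^ (n + 3) := by
    obtain ⟨w, hw⟩ : ∃ w, Nat.find ex = w + 1 := ⟨Nat.find ex - 1, by omega⟩
    have b1 := not_le.1 (Nat.find_min ex (m := w) (by omega))
    have b2 : ∏ i ∈ range w, s i ≤ Z ^ (n + 1) := by
      rw [pow_succ, mul_comm]
      exact b1.le.trans (mul_le_mul_of_nonneg_right hZ (by positivity))
    have b3 := root w 2 (by omega) (b2.trans (pow_le_pow_right₀ Z1 (by omega)))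
    rw [hw, prod_range_succ, show n + 3 = n + 1 + 2 from rfl, pow_add]
    exact mul_le_mul b2 b3 (s0 w) (by positivity)
  generalize Nat.find ex = t1 at a1 a2 a3 a4
  have Z3 : 1 ≤ Z ^ 4 := one_le_pow₀ Z1
  have G0 : ∀ t, 0 ≤ ∏ i ∈ Ico t1 t, s i := fun t => prod_nonneg fun i _ => s0 i
  by_cases hG : ∏ i ∈ Ico t1 J, s i < Z ^ n
  · refine ⟨t1, J, a2, le_rfl, a1, a4, ?_, hG.le.trans (pow_le_pow_right₀ Z1 (by omega))⟩
    rw [← prod_range_mul_prod_Ico s a2] at hJ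
    have b1 := hJ.trans (mul_le_mul_of_nonneg_left (mul_le_mul_of_nonneg_right a4 (G0 J)) Z0.le)
    refine le_of_mul_le_mul_left (b1.trans (le_of_eq ?_)) (show 0 < Z ^ n by positivity)
    ring
  · have ex2 : ∃ t, Z ^ n ≤ ∏ i ∈ Ico t1 t, s i := ⟨J, not_lt.1 hG⟩
    have c1 := Nat.find_spec ex2
    have c2 : Nat.find ex2 ≤ J := Nat.find_min' ex2 (not_lt.1 hG)
    have c3 : t1 < Nat.find ex2 := by
      by_contra h
      rw [Ico_eq_empty h, prod_empty] at c1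
      linarith
    refine ⟨t1, _, c3.le, c2, a1, a4, c1.trans (le_mul_of_one_le_right (G0 _) Z3), ?_⟩
    obtain ⟨w, hw⟩ : ∃ w, Nat.find ex2 = w + 1 := ⟨Nat.find ex2 - 1, by omega⟩
    have b1 := not_le.1 (Nat.find_min ex2 (m := w) (by omega))
    have b2 : ∏ i ∈ range w, s i ≤ Z ^ (3 * n) := by
      rw [← prod_range_mul_prod_Ico s (show t1 ≤ w by omega)]
      refine (mul_le_mul a4 b1.le (G0 w) (by positivity)).trans ?_
      rw [← pow_add]
      exact pow_le_pow_right₀ Z1 (by omega)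
    have b3 := root w 3 (by omega) b2
    rw [hw, prod_Ico_succ_top (by omega), pow_add]
    exact mul_le_mul b1.le b3 (s0 w) (by positivity)

theorem sSel2 : StSel2 := by
  intro t0 U L
  filter_upwards [eventually_ge_atTop U, eventually_ge_atTop (1 : ℝ),
    (tendsto_rpow_atTop (show (0 : ℝ) < 1 / 20000 by norm_num)).eventually_ge_atTop 2,
    (tendsto_rpow_atTop (show (0 : ℝ) < 1 / 20000 by norm_num)).eventually_ge_atTop L]
    with Y y1 y2 y3 y4
  intro s h2 ht0 hU J hJ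
  have hU' : ∏ i ∈ range t0, (s i : ℝ) ≤ Y := by
    refine le_trans ?_ (hU.trans y1)
    rw [prod_range_succ]
    exact_mod_cast Nat.le_mul_of_pos_right _ (lt_of_lt_of_le two_pos (h2 t0))
  have y0 : 0 < Y := by linarith
  have e : ∀ k : ℕ, (Y ^ (1 / 20000 : ℝ)) ^ k = Y ^ ((k : ℝ) / 20000) := fun k => by
    rw [← Real.rpow_natCast, ← Real.rpow_mul y0.le, one_div, inv_mul_eq_div]
  have e0 : (Y ^ (1 / 20000 : ℝ)) ^ 20000 = Y := by
    rw [e, show ((20000 : ℕ) : ℝ) / 20000 = 1 by norm_num, Real.rpow_one]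
  obtain ⟨t', t, a1, a2, a3, a4, a5, a6⟩ := core_Sel2 (fun i => (s i : ℝ)) 20000 t0 J _
    (by norm_num) (fun i => by exact_mod_cast (h2 i).trans' (by norm_num))
    (fun t ht => by exact_mod_cast ht0 t ht) y3 (by rw [e0]; exact hU')
    (by
      rw [e0, ← sq, ← Nat.cast_prod]
      exact hJ.trans (mul_le_mul_of_nonneg_right y4 (Nat.cast_nonneg _)))
  rw [e0] at a3 a5
  rw [e] at a4 a5 a6
  have up : Y ^ (((20000 + 3 : ℕ) : ℝ) / 20000) ≤ Y ^ (5001 / 5000 : ℝ) :=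
    Real.rpow_le_rpow_of_exponent_le y2 (by norm_num)
  push_cast
  refine ⟨t', t, a1, a2, a3, a4.trans up, ?_, a6.trans up⟩
  refine le_of_mul_le_mul_right (le_trans ?_ a5) (Real.rpow_pos_of_pos y0 _)
  rw [← Real.rpow_add y0]
  exact (Real.rpow_le_rpow_of_exponent_le y2 (by norm_num)).trans_eq (Real.rpow_one Y)

end Pool.Agent.MP_2876a2_nt.Tu

end

noncomputable section
open Finset Filter
open scoped Pointwise


namespace Pool.Agent.MP_2876a2_nt.Tu

theorem split_Dec1 {M : Type} [CommMonoid M] (f : ℕ → M) {a b c : ℕ} (h1 : a ≤ b) (h2 : b ≤ c) :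
    ∏ i ∈ range c, f i = (∏ i ∈ Ico b c, f i) * ((∏ i ∈ Ico a b, f i) * ∏ i ∈ range a, f i) := by
  rw [← prod_range_mul_prod_Ico f h2, ← prod_range_mul_prod_Ico f h1, mul_comm,
    mul_comm (∏ i ∈ range a, f i)]

theorem cop_Dec1 {N : ℕ → ℕ} (h : ∀ i i', i ≠ i' → (N i).Coprime (N i')) (I I' : Finset ℕ)
    (hd : ∀ i ∈ I, ∀ i' ∈ I', i ≠ i') : (∏ i ∈ I, N i).Coprime (∏ i ∈ I', N i) :=
  Nat.Coprime.prod_left fun i hi => Nat.Coprime.prod_right fun i' hi' => h i i' (hd i hi i' hi')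

theorem qs_Dec1 {c D : ℕ} (H q : ℕ) (β : ℝ) (c0 : 0 < c) (cD : c ≤ D) :
    qs (c * H) q β ≤ qs (D * H) q β ∧ qs (D * H) q β ≤ D * qs (c * H) q β := by
  have h1 : (1 : ℝ) ≤ c := by exact_mod_cast c0
  have h2 : (c : ℝ) ≤ D := by exact_mod_cast cD
  have h3 : (0 : ℝ) ≤ |β| * H := by positivity
  unfold qs
  push_cast
  constructor
  · refine mul_le_mul_of_nonneg_left (max_le_max le_rfl ?_) (Nat.cast_nonneg _)
    nlinarith
  · have h4 : max 1 (|β| * ((D : ℝ) * H)) ≤ D * max 1 (|β| * (c * H)) := by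
      refine max_le (one_le_mul_of_one_le_of_one_le (h1.trans h2) (le_max_left _ _)) ?_
      refine le_trans ?_ (mul_le_mul_of_nonneg_left (le_max_right _ _) (Nat.cast_nonneg _))
      have : (D : ℝ) * (|β| * H) * 1 ≤ D * (|β| * H) * c :=
        mul_le_mul_of_nonneg_left h1 (by positivity)
      nlinarith
    have h5 := mul_le_mul_of_nonneg_left h4 (Nat.cast_nonneg (α := ℝ) q)
    linarith

theorem three_Dec1 {j0 a b : ℕ} (hj : 2 ≤ j0)
    (h : (a : ℝ) ≤ Real.exp (2 / (j0 + (0 : ℕ))) * b) : a ≤ 3 * b := by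
  have h1 : (2 : ℝ) ≤ j0 := by exact_mod_cast hj
  have h2 : Real.exp (2 / (j0 + (0 : ℕ))) ≤ 3 := by
    refine (Real.exp_le_exp.2 ?_).trans (Real.exp_one_lt_d9.le.trans (by norm_num))
    rw [Nat.cast_zero, add_zero, div_le_one (by linarith)]
    exact h1
  exact_mod_cast h.trans (mul_le_mul_of_nonneg_right h2 (Nat.cast_nonneg b))

theorem sDec1 (hP : StProd2) (hM : StMul2) (hW : StSlow2) (hS : StSel2) (hB : StBil2) :
    StDec1 := by
  intro j0 D hj D0
  obtain ⟨t0, ht0⟩ := hW 2490 5001 20000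
  obtain ⟨Y0, hY0⟩ := eventually_atTop.1 ((hS t0
    ((∏ t ∈ range (t0 + 1), (j0 + t) ^ (5001 * (j0 + t) ^ 2490) : ℕ) : ℝ) D).and hB)
  filter_upwards [eventually_ge_atTop (D * Y0), eventually_ge_atTop ((D : ℝ) ^ 2),
    eventually_ge_atTop (1 : ℝ)] with Y a1 a2 a3
  intro B N s hq c J q u β c0 cD q0 hu hY hsq hg
  have Dp : (0 : ℝ) < D := by exact_mod_cast D0
  obtain ⟨y1, y2⟩ := qs_Dec1 (∏ t ∈ range J, s t) q β c0 cD
  rw [hY] at y1 y2
  have y0 := one_le_qs (c * ∏ t ∈ range J, s t) q0 β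
  obtain ⟨Y2, hY2⟩ : ∃ Y2, qs (c * ∏ t ∈ range J, s t) q β = Y2 := ⟨_, rfl⟩
  rw [hY2] at y0 y1 y2
  have y3 : Y / D ≤ Y2 := by rw [div_le_iff₀ Dp]; linarith
  obtain ⟨h1, h2⟩ := hY0 Y2 (le_of_mul_le_mul_left (a1.trans y2) Dp)
  obtain ⟨t', t, tt, tJ, b1, b2, b3, b4⟩ := h1 s (hq.two_le hj)
    (ht0 j0 s hj fun i => ⟨hq.lo i, hq.hi i⟩)
    (Nat.cast_le.2 (prod_le_prod' fun i _ => hq.hi i)) J
    ((pow_le_pow_left₀ (by linarith) y1 2).trans (hsq.trans_eq (Nat.cast_mul _ _)))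
  obtain ⟨k1, r1⟩ := hP j0 B N s hj hq 0 (range t') fun _ _ => Nat.zero_le _
  obtain ⟨k2, r2⟩ := hP j0 B N s hj hq 0 (Ico t' t) fun _ _ => Nat.zero_le _
  obtain ⟨k3, r3⟩ := hP j0 B N s hj hq 0 (Ico t J) fun _ _ => Nat.zero_le _
  have c21 := cop_Dec1 hq.cop (Ico t' t) (range t') fun i hi i' hi' => by
    have := mem_Ico.1 hi; have := mem_range.1 hi'; omega
  have c31 := cop_Dec1 hq.cop (Ico t J) (range t') fun i hi i' hi' => by
    have := mem_Ico.1 hi; have := mem_range.1 hi'; omega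
  have c32 := cop_Dec1 hq.cop (Ico t J) (Ico t' t) fun i hi i' hi' => by
    have := mem_Ico.1 hi; have := mem_Ico.1 hi'; omega
  obtain ⟨k21, n21, s21⟩ := hM _ _ _ _ _ _ k2 k1 c21
  obtain ⟨-, n321, s321⟩ := hM _ _ _ _ _ _ k3 k21 (c32.mul_right c31)
  have eS := split_Dec1 s tt tJ
  have eN : ∏ i ∈ Ico t J, N i ∣ ∏ i ∈ range J, N i := ⟨_, split_Dec1 N tt tJ⟩
  have pw : Y2 ^ (-(1 / 2000) : ℝ) ≤ Y ^ (-(1 / 4000) : ℝ) := by
    have e1 : Y ^ (1 / 2 : ℝ) ≤ Y2 := by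
      refine le_trans ?_ y3
      rw [← Real.sqrt_eq_rpow, le_div_iff₀ Dp]
      have e2 : (D : ℝ) ≤ √Y := Real.le_sqrt_of_sq_le a2
      have e3 := Real.mul_self_sqrt (show 0 ≤ Y by linarith)
      have e4 := mul_le_mul_of_nonneg_left e2 (Real.sqrt_nonneg Y)
      linarith
    refine (Real.rpow_le_rpow_of_nonpos (by positivity) e1 (by norm_num)).trans (le_of_eq ?_)
    rw [← Real.rpow_mul (by linarith)]
    norm_num
  have gm : ∀ m ∈ ∏ i ∈ Ico t J, B i,
      ((Nat.gcd (c * m) q : ℕ) : ℝ) ≤ Y2 ^ (1 / 5000 : ℝ) := fun m hm => by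
    refine le_trans ?_ (hg.trans (Real.rpow_le_rpow (by positivity) y3 (by norm_num)))
    refine Nat.cast_le.2 (Nat.le_of_dvd (Nat.gcd_pos_of_pos_left _ q0) ?_)
    exact Nat.dvd_gcd (Nat.gcd_dvd_right _ _)
      ((Nat.gcd_dvd_left _ _).trans (Nat.mul_dvd_mul_left c ((k3.dvd m hm).trans eN)))
  rw [ES, sum_image fun a _ b _ h => Nat.eq_of_mul_eq_mul_left c0 h, split_Dec1 B tt tJ]
  generalize ∏ i ∈ range J, s i = S at *
  generalize ∏ i ∈ range t', B i = B1 at *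
  generalize ∏ i ∈ Ico t' t, B i = B2 at *
  generalize ∏ i ∈ Ico t J, B i = M at *
  generalize ∏ i ∈ range t', s i = Q1 at *
  generalize ∏ i ∈ Ico t' t, s i = Q at *
  generalize ∏ i ∈ Ico t J, s i = sM at *
  have e : ∀ f : ℕ → ℂ, ∑ a ∈ M * (B2 * B1), f a
      = ∑ m ∈ M, ∑ b ∈ B2, ∑ b' ∈ B1, f (m * (b * b')) := fun f => by
    rw [s321]
    exact sum_congr rfl fun m _ => s21 fun c => f (m * c)
  have one : ∀ m ∈ M, ‖∑ b ∈ B2, ∑ b' ∈ B1, ee ((u / q + β) * ((c * (m * (b * b')) : ℕ) : ℝ))‖ ≤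
      B2.card * B1.card * Y ^ (-(1 / 4000) : ℝ) := fun m hm => by
    obtain ⟨m1, m2, m3⟩ := r3 m hm
    have m4 := three_Dec1 hj m3
    have := h2 B2 B1 _ _ Q Q1 (c * m) (c * S) q u β k2 k1 (fun b hb => (r2 b hb).2.1)
      (fun b hb => ⟨(r1 b hb).1, (r1 b hb).2.1⟩) q0 hu (Nat.mul_pos c0 m1)
      (by
        rw [eS]
        calc c * m * Q * Q1 = c * (m * (Q * Q1)) := by ring
          _ ≤ _ := Nat.mul_le_mul_left _ (Nat.mul_le_mul_right _ m2))
      (by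
        rw [eS]
        calc c * (sM * (Q * Q1)) ≤ c * (3 * m * (Q * Q1)) :=
            Nat.mul_le_mul_left _ (Nat.mul_le_mul_right _ m4)
          _ = _ := by ring) hY2 b1 b2 b3 b4 (gm m hm)
    simp only [Nat.cast_mul, ← mul_assoc] at this ⊢
    exact this.trans (mul_le_mul_of_nonneg_left pw (by positivity))
  rw [e fun a => ee ((u / q + β) * ((c * a : ℕ) : ℝ)), n321, n21]
  refine (norm_sum_le _ _).trans ((sum_le_sum one).trans (le_of_eq ?_))
  rw [sum_const, nsmul_eq_mul]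
  push_cast
  ring

end Pool.Agent.MP_2876a2_nt.Tu

end

noncomputable section
open Finset Filter
open scoped Pointwise


namespace Pool.Agent.MP_2876a2_nt.Tu

theorem sFew : StFew := by
  classical
  intro k q D n Y hc hq hY hD hDY h1
  obtain ⟨x, hx⟩ : ∃ x : ℝ, x = (Y / D) ^ (1 / 5000 : ℝ) := ⟨_, rfl⟩
  rw [← hx]
  obtain ⟨F, hF⟩ : ∃ F, F = (range k).filter fun i => x < (Nat.gcd q (n i) : ℕ) := ⟨_, rfl⟩
  have hD0 : (0 : ℝ) < D := by exact_mod_cast hD
  have hY0 : 0 ≤ Y / D := by positivity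
  have hx0 : 0 ≤ x := hx ▸ Real.rpow_nonneg hY0 _
  have h2 : Y ≤ x ^ 10000 := by
    rw [hx, ← Real.rpow_natCast, ← Real.rpow_mul hY0,
      show (1 / 5000 : ℝ) * ((10000 : ℕ) : ℝ) = ((2 : ℕ) : ℝ) by norm_num, Real.rpow_natCast,
      div_pow, le_div_iff₀ (by positivity)]
    nlinarith
  have h3 : 1 < x := (one_lt_pow_iff_of_nonneg hx0 (by norm_num)).1 (h1.trans_le h2)
  have h4 : ∏ i ∈ F, Nat.gcd q (n i) ∣ q := by
    refine Finset.prod_dvd_of_isRelPrime (fun i hi j hj hij => ?_) fun i _ => Nat.gcd_dvd_left _ _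
    rw [hF, mem_coe, mem_filter, mem_range] at hi hj
    exact Nat.coprime_iff_isRelPrime.1 (Nat.Coprime.coprime_dvd_left (Nat.gcd_dvd_right _ _)
      (Nat.Coprime.coprime_dvd_right (Nat.gcd_dvd_right _ _) (hc i hi.1 j hj.1 hij)))
  have h5 : x ^ F.card ≤ ((∏ i ∈ F, Nat.gcd q (n i) : ℕ) : ℝ) := by
    rw [Nat.cast_prod, ← prod_const]
    refine prod_le_prod (fun _ _ => hx0) fun i hi => ?_
    rw [hF, mem_filter] at hi
    exact hi.2.le
  have h6 : ((∏ i ∈ F, Nat.gcd q (n i) : ℕ) : ℝ) ≤ q := by exact_mod_cast Nat.le_of_dvd hq h4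
  have h7 : F.card ≤ 10000 := (pow_le_pow_iff_right₀ h3).1 (h5.trans (h6.trans (hY.trans h2)))
  rw [hF] at h7
  convert h7

end Pool.Agent.MP_2876a2_nt.Tu

end

noncomputable section
open Finset Filter
open scoped Pointwise


namespace Pool.Agent.MP_2876a2_nt.Tu

theorem prod_DM {k : ℕ} (hk : 30000 ≤ k) (p : ℕ → Prop) [DecidablePred p]
    (hp : ((range k).filter p).card ≤ 10000) {Y : ℝ} (hY : 1 ≤ Y) :
    ∏ i : Fin k, (if p i then 1 else Y ^ (-(1 / 4000) : ℝ)) ≤ Y⁻¹ ^ 5 := by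
  have hY0 : 0 < Y := by linarith
  rw [Fin.prod_univ_eq_prod_range (fun i => if p i then 1 else Y ^ (-(1 / 4000) : ℝ)) k,
    prod_ite, prod_const_one, one_mul, prod_const]
  have h1 := card_filter_add_card_filter_not (s := range k) p
  rw [card_range] at h1
  have h2 : 20000 ≤ ((range k).filter fun i => ¬ p i).card := by omega
  have h3 : Y ^ (-(1 / 4000) : ℝ) ≤ 1 := Real.rpow_le_one_of_one_le_of_nonpos hY (by norm_num)
  refine (pow_le_pow_of_le_one (by positivity) h3 h2).trans (le_of_eq ?_)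
  rw [← Real.rpow_natCast, ← Real.rpow_mul hY0.le, inv_pow, ← Real.rpow_natCast,
    ← Real.rpow_neg hY0.le]
  congr 1
  norm_num

theorem sDM (h1 : StDec1) (hF : StFew) : StDM := by
  classical
  intro j0 D k M hj hD hk hkM
  obtain ⟨Y1, hY1⟩ := eventually_atTop.1 (h1 j0 D hj hD)
  refine ⟨max Y1 (max ((D : ℝ) ^ 2) 2), fun B N s hS c hc hcc hcN J u q β hq hu hY hY2 => ?_⟩
  set Y := qs (D * ∏ t ∈ range J, s t) q β with hYd
  have ha : Y1 ≤ Y := (le_max_left _ _).trans hY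
  have hb : (D : ℝ) ^ 2 ≤ Y := ((le_max_left _ _).trans (le_max_right _ _)).trans hY
  have hd : 2 ≤ Y := ((le_max_right _ _).trans (le_max_right _ _)).trans hY
  have hcop : ∀ i < k, ∀ i' < k, i ≠ i' →
      (c i * ∏ t ∈ range J, N i t).Coprime (c i' * ∏ t ∈ range J, N i' t) := by
    intro i hi i' hi' hne
    have e1 : i < M := hi.trans_le hkM
    have e2 : i' < M := hi'.trans_le hkM
    refine Nat.Coprime.mul_left (Nat.Coprime.mul_right (hcc i e1 i' e2 hne)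
      (Nat.Coprime.prod_right fun t _ => hcN i e1 i' e2 t))
      (Nat.Coprime.prod_left fun t _ => Nat.Coprime.mul_right (hcN i' e2 i e1 t).symm
        (Nat.Coprime.prod_right fun t' _ => hS.cop i e1 i' e2 hne t t'))
  have hbad := hF k q D (fun i => c i * ∏ t ∈ range J, N i t) Y hcop hq (le_qs _ _ _) hD hb
    (by linarith)
  have hw := prod_DM hk (fun i => (Y / D) ^ (1 / 5000 : ℝ) <
    (Nat.gcd q (c i * ∏ t ∈ range J, N i t) : ℕ)) (by convert hbad) (Y := Y) (by linarith)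
  refine le_trans (prod_le_prod (fun i _ => norm_nonneg _) (g := fun i : Fin k =>
    (((∏ t ∈ range J, B i t).image fun a => c i * a).card : ℝ) *
      if (Y / D) ^ (1 / 5000 : ℝ) < (Nat.gcd q (c i * ∏ t ∈ range J, N i t) : ℕ) then 1
      else Y ^ (-(1 / 4000) : ℝ)) fun i _ => ?_) ?_
  · have e1 : (i : ℕ) < M := i.2.trans_le hkM
    split_ifs with h
    · rw [mul_one]
      exact norm_ES_le _ _
    · rw [card_image_of_injective _ (mul_right_injective₀ (hc i e1).1.ne')]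
      exact hY1 Y ha (B i) (N i) s (hS.one i e1) (c i) J q u β (hc i e1).1 (hc i e1).2 hq hu rfl
        hY2 (not_lt.1 h)
  · rw [prod_mul_distrib]
    exact mul_le_mul_of_nonneg_left hw (prod_nonneg fun i _ => Nat.cast_nonneg _)

end Pool.Agent.MP_2876a2_nt.Tu

end

noncomputable section
open Finset Filter
open scoped Pointwise


namespace Pool.Agent.MP_2876a2_nt.Tu

theorem step_In (K x : ℝ) (hK : 1 ≤ K) :
    (max 1 (|x| / K))⁻¹ ^ 2 ≤ 6 * K * ((x + 1) / (K + |x + 1|) - x / (K + |x|)) := by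
  have K0 : 0 < K := by linarith
  have a0 := abs_nonneg x
  have b0 := abs_nonneg (x + 1)
  have b1 : |x + 1| ≤ |x| + 1 := by simpa using abs_add_le x 1
  have h1 : 0 ≤ (x + 1) * |x| - x * |x + 1| := by
    rcases le_total 0 x with h | h
    · rw [abs_of_nonneg h, abs_of_nonneg (by linarith)]
      linarith
    · rcases le_total 0 (x + 1) with h' | h'
      · rw [abs_of_nonpos h, abs_of_nonneg h']
        nlinarith
      · rw [abs_of_nonpos h, abs_of_nonpos h']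
        linarith
  have m1 : 1 ≤ max 1 (|x| / K) := le_max_left _ _
  have m2 : |x| ≤ max 1 (|x| / K) * K := (div_le_iff₀ K0).1 (le_max_right _ _)
  generalize max 1 (|x| / K) = m at m1 m2
  have m3 : K ≤ m * K := le_mul_of_one_le_left K0.le m1
  have h2 : (K + |x + 1|) * (K + |x|) ≤ (3 * (m * K)) * (2 * (m * K)) :=
    mul_le_mul (by linarith) (by linarith) (by linarith) (by linarith)
  rw [div_sub_div _ _ (by positivity) (by positivity), inv_pow, ← mul_div_assoc,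
    inv_eq_one_div, div_le_div_iff₀ (by positivity) (by positivity)]
  have h3 : 0 ≤ K * m ^ 2 * ((x + 1) * |x| - x * |x + 1|) := by positivity
  linarith

theorem sIn : StIn := by
  intro K P y hK
  have K1 : (1 : ℝ) ≤ K := by exact_mod_cast hK
  have hb : ∀ x : ℝ, |x / (K + |x|)| ≤ 1 := fun x => by
    rw [abs_div, abs_of_pos (by positivity : (0 : ℝ) < K + |x|)]
    exact div_le_one_of_le₀ (by linarith) (by positivity)
  have h1 := sum_range_sub (fun v : ℕ => ((v : ℝ) - y) / (K + |(v : ℝ) - y|)) P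
  calc ∑ v ∈ range P, (max 1 (|(v : ℝ) - y| / K))⁻¹ ^ 2
      ≤ ∑ v ∈ range P, 6 * K * ((((v + 1 : ℕ) : ℝ) - y) / (K + |((v + 1 : ℕ) : ℝ) - y|) -
          ((v : ℝ) - y) / (K + |(v : ℝ) - y|)) := by
        refine sum_le_sum fun v _ => ?_
        rw [show ((v + 1 : ℕ) : ℝ) - y = (v : ℝ) - y + 1 by push_cast; ring]
        exact step_In K _ K1
    _ ≤ 6 * K * 2 := by
        rw [← mul_sum, h1]
        refine mul_le_mul_of_nonneg_left ?_ (by positivity)
        linarith [(abs_le.1 (hb ((P : ℝ) - y))).2, (abs_le.1 (hb (((0 : ℕ) : ℝ) - y))).1]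
    _ = 12 * K := by ring

end Pool.Agent.MP_2876a2_nt.Tu

end

noncomputable section
open Finset Filter
open scoped Pointwise


namespace Pool.Agent.MP_2876a2_nt.Tu

theorem sq_Mas (n : ℕ) : ∑ q ∈ Icc 1 n, ((q : ℝ) ^ 2)⁻¹ ≤ 2 := by
  rcases Nat.eq_zero_or_pos n with rfl | hn
  · simp
  have h := sum_Ioc_inv_sq_le_sub (α := ℝ) one_ne_zero hn
  rw [← Finset.insert_Icc_add_one_left_eq_Icc hn, sum_insert (by simp), Icc_add_one_left_eq_Ioc]
  have : (0 : ℝ) ≤ (n : ℝ)⁻¹ := by positivity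
  norm_num at h ⊢
  linarith

theorem rng_Mas {x : ℝ} {u : ℤ} {q : ℕ} (hq : 0 < q) (h0 : 0 ≤ x) (h1 : x < 1)
    (h : |x - u / q| ≤ 1 / q) : u ∈ Icc (-1 : ℤ) q := by
  have p : (0 : ℝ) < q := by exact_mod_cast hq
  have e : x - u / q = (x * q - u) / q := by field_simp
  rw [e, abs_div, abs_of_pos p, div_le_div_iff_of_pos_right p, abs_le] at h
  have a : (-1 : ℝ) ≤ u := by nlinarith [h.2]
  have b : (u : ℝ) < q + 1 := by nlinarith [h.1]
  exact mem_Icc.2 ⟨by exact_mod_cast a, Int.lt_add_one_iff.1 (by exact_mod_cast b)⟩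

theorem sMas (hI : StIn) : StMas := by
  intro K S u q hK hS h
  have k : (0 : ℝ) < K := by exact_mod_cast hK
  have s : (0 : ℝ) < S := by exact_mod_cast hS
  have one : ∀ v ∈ range (K * S), (qs S (q v) ((v : ℝ) / (K * S : ℕ) - u v / q v))⁻¹ ^ 4 ≤
      ∑ r ∈ Icc 1 ((range (K * S)).sup q), ∑ w ∈ Icc (-1 : ℤ) r,
        (r : ℝ)⁻¹ ^ 4 * (max 1 (|(v : ℝ) - w / r * (K * S : ℕ)| / K))⁻¹ ^ 2 := fun v hv => by
    have P : (0 : ℝ) < (K * S : ℕ) := by push_cast; positivity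
    have m := rng_Mas (h v).1 (by positivity)
      ((div_lt_one P).2 (by exact_mod_cast mem_range.1 hv)) (h v).2
    refine le_trans ?_ ((single_le_sum (f := fun w : ℤ => ((q v : ℕ) : ℝ)⁻¹ ^ 4 *
      (max 1 (|(v : ℝ) - w / (q v : ℕ) * (K * S : ℕ)| / K))⁻¹ ^ 2) (fun _ _ => by positivity)
      m).trans (single_le_sum (f := fun r : ℕ => ∑ w ∈ Icc (-1 : ℤ) r, (r : ℝ)⁻¹ ^ 4 *
      (max 1 (|(v : ℝ) - w / r * (K * S : ℕ)| / K))⁻¹ ^ 2) (fun _ _ => by positivity)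
      (mem_Icc.2 ⟨(h v).1, le_sup hv⟩)))
    have e : |(v : ℝ) / (K * S : ℕ) - u v / q v| * S = |(v : ℝ) - u v / q v * (K * S : ℕ)| / K := by
      rw [← abs_of_pos s, ← abs_mul, ← abs_of_pos k, ← abs_div]
      congr 1
      push_cast
      field_simp
    rw [qs, e, mul_inv, mul_pow]
    exact mul_le_mul_of_nonneg_left (pow_le_pow_of_le_one (by positivity)
      (inv_le_one_of_one_le₀ (le_max_left _ _)) (by norm_num)) (by positivity)
  refine (sum_le_sum one).trans ?_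
  rw [sum_comm]
  refine (sum_le_sum (g := fun r : ℕ => 36 * K * ((r : ℝ) ^ 2)⁻¹) fun r hr => ?_).trans ?_
  · have r1 : (1 : ℝ) ≤ r := by exact_mod_cast (mem_Icc.1 hr).1
    rw [sum_comm]
    refine (sum_le_card_nsmul _ _ ((r : ℝ)⁻¹ ^ 4 * (12 * K)) fun w _ => ?_).trans ?_
    · rw [← mul_sum]
      exact mul_le_mul_of_nonneg_left (hI K _ _ hK) (by positivity)
    · have c : (Icc (-1 : ℤ) r).card = r + 2 := by
        rw [Int.card_Icc]
        omega
      rw [c, nsmul_eq_mul]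
      push_cast
      calc _ ≤ 3 * (r : ℝ) ^ 2 * ((r : ℝ)⁻¹ ^ 4 * (12 * K)) :=
            mul_le_mul_of_nonneg_right (by nlinarith) (by positivity)
        _ = _ := by
            field_simp
            ring
  · rw [← mul_sum]
    have := mul_le_mul_of_nonneg_left (sq_Mas ((range (K * S)).sup q))
      (show (0 : ℝ) ≤ 36 * K by positivity)
    linarith

end Pool.Agent.MP_2876a2_nt.Tu

end

noncomputable section
open Finset Filter
open scoped Pointwise


namespace Pool.Agent.MP_2876a2_nt.Tu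

theorem sAp (hM : StMas) : StAp := by
  intro K S hK hS
  have hn : 0 < Nat.sqrt S := Nat.sqrt_pos.2 hS
  choose r hr using fun v : ℕ =>
    Real.exists_rat_abs_sub_le_and_den_le ((v : ℝ) / (K * S : ℕ)) hn
  have h1 : ((Nat.sqrt S : ℕ) : ℝ) ^ 2 ≤ S := by exact_mod_cast Nat.sqrt_le' S
  have h2 : (S : ℝ) ≤ ((Nat.sqrt S : ℕ) + 1) ^ 2 := by exact_mod_cast (Nat.lt_succ_sqrt' S).le
  have h0 : (0 : ℝ) ≤ (Nat.sqrt S : ℕ) := Nat.cast_nonneg _
  have hS0 : (0 : ℝ) ≤ S := Nat.cast_nonneg _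
  have hq : ∀ v, (0 : ℝ) < (r v).den := fun v => by exact_mod_cast (r v).den_pos
  refine ⟨fun v => (r v).num, fun v => (r v).den,
    fun v => (v : ℝ) / (K * S : ℕ) - (r v).num / (r v).den, fun v => ⟨(r v).den_pos,
      Int.isCoprime_iff_gcd_eq_one.2 (r v).reduced, by ring, ?_⟩,
    hM K S _ _ hK hS fun v => ⟨(r v).den_pos, ?_⟩⟩
  · obtain ⟨a, b⟩ := hr v
    rw [Rat.cast_def] at a
    have b' : ((r v).den : ℝ) ≤ (Nat.sqrt S : ℕ) := by exact_mod_cast b
    have q0 := hq v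
    unfold qs
    rcases le_total 1 (|(v : ℝ) / (K * S : ℕ) - (r v).num / (r v).den| * S) with c | c
    · rw [max_eq_right c]
      have e : ((r v).den : ℝ) * (|(v : ℝ) / (K * S : ℕ) - (r v).num / (r v).den| * S) ≤
          S / ((Nat.sqrt S : ℕ) + 1) := by
        refine (mul_le_mul_of_nonneg_left (mul_le_mul_of_nonneg_right a hS0) q0.le).trans_eq ?_
        field_simp
      refine (pow_le_pow_left₀ (by positivity) e 2).trans ?_
      rw [div_pow, div_le_iff₀ (by positivity), sq]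
      exact mul_le_mul_of_nonneg_left h2 hS0
    · rw [max_eq_left c, mul_one]
      exact (pow_le_pow_left₀ q0.le b' 2).trans h1
  · have a := (hr v).1
    rw [Rat.cast_def] at a
    have q0 := hq v
    exact a.trans (one_div_le_one_div_of_le q0 (by nlinarith))

end Pool.Agent.MP_2876a2_nt.Tu

end

noncomputable section
/-! Orthogonality of additive characters and the number of representations. -/


open Finset Filter
open scoped Pointwise


namespace Pool.Agent.MP_2876a2_nt.Tu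

theorem ee_sum_Four2 {ι : Type} (s : Finset ι) (f : ι → ℝ) :
    ee (∑ i ∈ s, f i) = ∏ i ∈ s, ee (f i) := by
  classical
  induction s using Finset.induction_on with
  | empty => simp [ee_zero]
  | insert i s hi ih => rw [sum_insert hi, prod_insert hi, ee_add, ih]

theorem ee_pow_Four2 (t : ℝ) (n : ℕ) : ee (n * t) = ee t ^ n := by
  simpa using ee_sum_Four2 (range n) fun _ => t

theorem ee_ne_Four2 {t : ℝ} (h0 : t ≠ 0) (h1 : |t| < 1) : ee t ≠ 1 := fun h => by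
  obtain ⟨n, hn⟩ := Complex.exp_eq_one_iff.1 h
  have e : ((2 * Real.pi * t : ℝ) : ℂ) = ((2 * Real.pi * n : ℝ) : ℂ) := by
    refine mul_right_cancel₀ Complex.I_ne_zero (hn.trans ?_)
    push_cast
    ring
  have e' : t = n := mul_left_cancel₀ Real.two_pi_pos.ne' (Complex.ofReal_injective e)
  rw [e', ← Int.cast_abs] at h1
  have h2 : |n| < 1 := by exact_mod_cast h1
  exact h0 (by rw [e', Int.abs_lt_one_iff.1 h2, Int.cast_zero])

theorem orth_Four2 {P N T : ℕ} (hN : N < P) (hT : T < P) :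
    ∑ v ∈ range P, ee (v * (((N : ℝ) - T) / P)) = if N = T then (P : ℂ) else 0 := by
  have hP : (0 : ℝ) < P := by exact_mod_cast (by omega : 0 < P)
  split_ifs with h
  · simp [h, ee_zero]
  · have h1 : ee (((N : ℝ) - T) / P) ≠ 1 := by
      refine ee_ne_Four2 (div_ne_zero (sub_ne_zero.2 (by exact_mod_cast h)) hP.ne') ?_
      have a1 : (N : ℝ) < P := by exact_mod_cast hN
      have a2 : (T : ℝ) < P := by exact_mod_cast hT
      have a3 : (0 : ℝ) ≤ N := Nat.cast_nonneg _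
      have a4 : (0 : ℝ) ≤ T := Nat.cast_nonneg _
      rw [abs_div, abs_of_pos hP, div_lt_one hP, abs_lt]
      constructor <;> linarith
    have h2 : ee (((N : ℝ) - T) / P) ^ P = 1 := by
      rw [← ee_pow_Four2, mul_div_cancel₀ _ hP.ne', ← ee_int ((N : ℤ) - T)]
      push_cast
      rfl
    simp only [ee_pow_Four2]
    rw [geom_sum_eq h1, h2, sub_self, zero_div]

theorem sFour2 : StFour2 := by
  intro k A S P T hA hk hT
  have e : ∀ v : ℕ, (∏ i, ES (A i) (v / P)) * ee (-(T * v / P)) =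
      ∑ a ∈ Fintype.piFinset A, ee (v * ((((∑ i, a i : ℕ) : ℝ) - T) / P)) := fun v => by
    simp only [ES]
    rw [prod_univ_sum, sum_mul]
    refine sum_congr rfl fun a _ => ?_
    rw [← ee_sum_Four2, ← ee_add, ← mul_sum]
    congr 1
    push_cast
    ring
  have hs : ∀ a ∈ Fintype.piFinset A, ∑ i, a i < P := fun a ha => by
    refine lt_of_le_of_lt ?_ hk
    simpa using sum_le_card_nsmul univ a S fun i _ => hA i _ (Fintype.mem_piFinset.1 ha i)
  simp only [e]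
  rw [sum_comm, sum_congr rfl fun a ha => orth_Four2 (hs a ha) hT, ← sum_filter,
    sum_const, nsmul_eq_mul, rm]

end Pool.Agent.MP_2876a2_nt.Tu

end

noncomputable section
open Finset Filter
open scoped Pointwise


namespace Pool.Agent.MP_2876a2_nt.Tu

theorem term_Diff2 {E : ℂ} {S q0 q T T' : ℕ} {V Y0 K ε β : ℝ} {u : ℤ} (hAk : 0 ≤ V)
    (hE : ‖E‖ ≤ V) (hD : Y0 ≤ qs S q β → ‖E‖ ≤ V * (qs S q β)⁻¹ ^ 5) (hY : Y0 ≤ q0) (hK : 0 < K)
    (hq0 : 800 * K ≤ q0) (hε : ε = 1 / (3200 * K * (q0 : ℝ) ^ 5)) (hq : 0 < q)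
    (hm : T' ≡ T [MOD q0.factorial]) (hT : |(T' : ℝ) - T| ≤ ε * S) :
    ‖E * (ee (-(T' * (u / q + β))) - ee (-(T * (u / q + β))))‖ ≤
      V * (1 / (400 * K)) * (qs S q β)⁻¹ ^ 4 := by
  have h1 := one_le_qs S hq β
  set Y := qs S q β with hYd
  have hY0 : 0 < Y := by linarith
  have hqp : (0 : ℝ) < q0 := by linarith [mul_pos (by norm_num : (0 : ℝ) < 800) hK]
  rw [norm_mul]
  rcases le_or_gt (q0 : ℝ) Y with h | h
  · have h3 := hD (hY.trans h)
    rw [pow_succ] at h3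
    have h5 : ‖ee (-(T' * (u / q + β))) - ee (-(T * (u / q + β)))‖ ≤ 2 := by
      refine (norm_sub_le _ _).trans ?_
      rw [norm_ee, norm_ee]
      norm_num
    have h6 : Y⁻¹ ≤ 1 / (800 * K) := by
      rw [one_div]
      exact inv_anti₀ (by positivity) (hq0.trans h)
    calc _ ≤ V * (Y⁻¹ ^ 4 * Y⁻¹) * 2 :=
          mul_le_mul h3 h5 (norm_nonneg _) (by positivity)
      _ ≤ V * (Y⁻¹ ^ 4 * (1 / (800 * K))) * 2 := by gcongr
      _ = _ := by field_simp; ring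
  · have hqq : q ≤ q0 := by
      have : (q : ℝ) ≤ q0 := (le_qs S q β).trans h.le
      exact_mod_cast this
    obtain ⟨m, hm'⟩ : (q : ℤ) ∣ (T : ℤ) - T' :=
      (Int.natCast_dvd_natCast.2 (Nat.dvd_factorial hq hqq)).trans hm.dvd
    have hm2 : (T : ℝ) - T' = q * m := by exact_mod_cast hm'
    have hq' : (q : ℝ) ≠ 0 := by positivity
    have e1 : -((T' : ℝ) * (u / q + β)) =
        -(T * (u / q + β)) + (((m * u : ℤ) : ℝ) + ((T : ℝ) - T') * β) := by
      have : (T' : ℝ) = T - q * m := by linarith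
      rw [this]
      push_cast
      field_simp
      ring
    have h5 : ‖ee (-(T' * (u / q + β))) - ee (-(T * (u / q + β)))‖ ≤
        2 * Real.pi * |((T : ℝ) - T') * β| := by
      rw [e1, ee_add, ee_add, ee_int, one_mul, ← mul_sub_one, norm_mul, norm_ee, one_mul]
      exact norm_ee_sub_one _
    have hε0 : 0 < ε := by rw [hε]; positivity
    have h7 : |β| * S ≤ Y := by
      have hq1 : (1 : ℝ) ≤ q := by exact_mod_cast hq
      refine (le_max_right 1 _).trans ?_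
      exact le_mul_of_one_le_left (zero_le_one.trans (le_max_left _ _)) hq1
    have h8 : |((T : ℝ) - T') * β| ≤ ε * q0 := by
      rw [abs_mul, abs_sub_comm]
      calc _ ≤ ε * S * |β| := mul_le_mul_of_nonneg_right hT (abs_nonneg _)
        _ = ε * (|β| * S) := by ring
        _ ≤ ε * q0 := mul_le_mul_of_nonneg_left (h7.trans h.le) hε0.le
    have h9 : (q0 : ℝ)⁻¹ ^ 4 ≤ Y⁻¹ ^ 4 :=
      pow_le_pow_left₀ (by positivity) (inv_anti₀ hY0 h.le) 4
    have h10 : 2 * Real.pi * |((T : ℝ) - T') * β| ≤ 1 / (400 * K) * Y⁻¹ ^ 4 := by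
      calc _ ≤ 2 * 4 * (ε * q0) := by
            gcongr
            exact Real.pi_le_four
        _ = 1 / (400 * K) * (q0 : ℝ)⁻¹ ^ 4 := by rw [hε]; field_simp; ring
        _ ≤ _ := by gcongr
    rw [mul_assoc]
    exact mul_le_mul hE (h5.trans h10) (norm_nonneg _) hAk

theorem sDiff2 (hF : StFour2) (hA : StAp) : StDiff2 := by
  intro Y0 k
  obtain ⟨q0, hq0⟩ := exists_nat_ge (max Y0 (800 * ((k : ℝ) + 2)))
  have hK : (0 : ℝ) < (k : ℝ) + 2 := by positivity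
  have hK1 : (1 : ℝ) ≤ (k : ℝ) + 2 := by linarith [Nat.cast_nonneg (α := ℝ) k]
  have hY : Y0 ≤ q0 := (le_max_left _ _).trans hq0
  have hq : 800 * ((k : ℝ) + 2) ≤ q0 := (le_max_right _ _).trans hq0
  have hq1 : (1 : ℝ) ≤ q0 := by linarith
  have hε1 : 1 / (3200 * ((k : ℝ) + 2) * (q0 : ℝ) ^ 5) ≤ 1 := by
    rw [div_le_one (by positivity)]
    exact one_le_mul_of_one_le_of_one_le (by linarith) (one_le_pow₀ hq1)
  refine ⟨q0.factorial, 1 / (3200 * ((k : ℝ) + 2) * (q0 : ℝ) ^ 5), Nat.factorial_pos _,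
    by positivity, hε1, fun A S hS hAS hD T T' hT hm hTT => ?_⟩
  obtain ⟨u, q, β, h1, h2⟩ := hA (k + 2) S (by omega) hS
  have hS' : (1 : ℝ) ≤ S := by exact_mod_cast hS
  have hP : k * S < (k + 2) * S := by nlinarith
  have hT' : T' < (k + 2) * S := by
    have h3 : (T' : ℝ) - T ≤ S :=
      ((le_abs_self _).trans hTT).trans (mul_le_of_le_one_left (by linarith) hε1)
    have h4 : (T' : ℝ) ≤ T + S := by linarith
    have h5 : T' ≤ T + S := by exact_mod_cast h4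
    nlinarith
  have e1 := hF k A S _ T hAS hP (hT.trans_lt hP)
  have e2 := hF k A S _ T' hAS hP hT'
  obtain ⟨V, hV⟩ : ∃ V : ℝ, ∏ i, ((A i).card : ℝ) = V := ⟨_, rfl⟩
  have hAk : 0 ≤ V := hV ▸ prod_nonneg fun i _ => Nat.cast_nonneg _
  rw [hV]
  have e3 : ‖((rm A T' : ℂ) - rm A T) * (((k + 2) * S : ℕ) : ℂ)‖ ≤
      V * (1 / (400 * ((k : ℝ) + 2))) * (100 * ((k + 2 : ℕ) : ℝ)) := by
    rw [sub_mul, e1, e2, ← sum_sub_distrib]
    refine (norm_sum_le _ _).trans ?_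
    refine le_trans (sum_le_sum fun v _ => ?_)
      (le_trans (le_of_eq (mul_sum _ _ _).symm) (mul_le_mul_of_nonneg_left h2 (by positivity)))
    obtain ⟨a1, a2, a3, a4⟩ := h1 v
    rw [← mul_sub, mul_div_assoc, mul_div_assoc, a3]
    refine term_Diff2 hAk ?_ (fun h => ?_) hY hK hq rfl a1 hm hTT
    · rw [norm_prod, ← hV]
      exact prod_le_prod (fun i _ => norm_nonneg _) fun i _ => norm_ES_le (A i) _
    · rw [norm_prod, ← hV]
      exact hD _ _ _ a1 a2 h a4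
  rw [norm_mul, Complex.norm_natCast, ← Complex.ofReal_natCast, ← Complex.ofReal_natCast,
    ← Complex.ofReal_sub, Complex.norm_real, Real.norm_eq_abs] at e3
  rw [le_div_iff₀ (by positivity)]
  push_cast at e3
  have e4 : V * (1 / (400 * ((k : ℝ) + 2))) * (100 * ((k : ℝ) + 2)) =
      V / 4 := by field_simp; ring
  rw [e4] at e3
  nlinarith

end Pool.Agent.MP_2876a2_nt.Tu

end

noncomputable section
open Finset Filter
open scoped Pointwise


namespace Pool.Agent.MP_2876a2_nt.Tu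

theorem sPopA : StPopA := by
  classical
  intro k X H W η hW hH η0 η1 hX hS
  have H0 : (0 : ℝ) < H := by exact_mod_cast hH
  have c0 : 0 < η * H := mul_pos η0 H0
  set f : (Fin k → ℕ) → ℕ × ℕ := fun x => ((∑ i, x i) % W, ⌊((∑ i, x i : ℕ) : ℝ) / (η * H)⌋₊)
    with hf
  obtain ⟨x0, h0, hm⟩ := exists_max_image (Fintype.piFinset X)
    (fun y => ((Fintype.piFinset X).filter fun x => f x = f y).card)
    (Fintype.piFinset_nonempty.2 hX)
  refine ⟨x0, h0, ?_⟩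
  set m := ((Fintype.piFinset X).filter fun x => f x = f x0).card with hm'
  have h1 : (Fintype.piFinset X).card ≤ m * ((Fintype.piFinset X).image f).card :=
    card_le_mul_card_image _ _ fun b hb => by
      obtain ⟨y, hy, rfl⟩ := mem_image.1 hb
      exact hm y hy
  have h2 : ((Fintype.piFinset X).image f).card ≤ W * (⌊1 / η⌋₊ + 1) := by
    rw [← card_range W, ← card_range (⌊1 / η⌋₊ + 1), ← card_product]
    refine card_le_card fun b hb => ?_
    obtain ⟨y, hy, rfl⟩ := mem_image.1 hb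
    refine mem_product.2 ⟨mem_range.2 (Nat.mod_lt _ hW), mem_range.2 (Nat.lt_succ_of_le
      (Nat.floor_le_floor ?_))⟩
    rw [div_le_div_iff₀ c0 η0]
    have : ((∑ i, y i : ℕ) : ℝ) ≤ H := by exact_mod_cast hS y hy
    nlinarith
  have h3 : m ≤ ((Fintype.piFinset X).filter fun x => ∑ i, x i ≡ ∑ i, x0 i [MOD W] ∧
      |((∑ i, x i : ℕ) : ℝ) - (∑ i, x0 i : ℕ)| ≤ η * H).card := by
    refine card_le_card fun x hx => ?_
    obtain ⟨a, b⟩ := mem_filter.1 hx
    refine mem_filter.2 ⟨a, congrArg Prod.fst b, ?_⟩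
    have b2 : ⌊((∑ i, x i : ℕ) : ℝ) / (η * H)⌋₊ = ⌊((∑ i, x0 i : ℕ) : ℝ) / (η * H)⌋₊ :=
      congrArg Prod.snd b
    have p1 := Nat.floor_le (show 0 ≤ ((∑ i, x i : ℕ) : ℝ) / (η * H) by positivity)
    have p2 := Nat.lt_floor_add_one (((∑ i, x i : ℕ) : ℝ) / (η * H))
    have p3 := Nat.floor_le (show 0 ≤ ((∑ i, x0 i : ℕ) : ℝ) / (η * H) by positivity)
    have p4 := Nat.lt_floor_add_one (((∑ i, x0 i : ℕ) : ℝ) / (η * H))
    rw [b2] at p1 p2
    rw [le_div_iff₀ c0] at p1 p3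
    rw [div_lt_iff₀ c0] at p2 p4
    rw [abs_le]
    constructor <;> nlinarith
  have h4 : η * ((⌊1 / η⌋₊ : ℝ) + 1) ≤ 2 := by
    have := Nat.floor_le (show 0 ≤ 1 / η by positivity)
    rw [le_div_iff₀ η0] at this
    nlinarith
  have h5 : (∏ i, ((X i).card : ℝ)) ≤ m * (W * ((⌊1 / η⌋₊ : ℝ) + 1)) := by
    have := h1.trans (Nat.mul_le_mul_left m h2)
    rw [Fintype.card_piFinset] at this
    exact_mod_cast this
  have h6 : (m : ℝ) ≤ _ := Nat.cast_le.2 h3
  have W0 : (0 : ℝ) ≤ W := W.cast_nonneg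
  have m0 : (0 : ℝ) ≤ m := m.cast_nonneg
  calc _ ≤ η * (m * (W * ((⌊1 / η⌋₊ : ℝ) + 1))) := mul_le_mul_of_nonneg_left h5 η0.le
    _ = W * m * (η * ((⌊1 / η⌋₊ : ℝ) + 1)) := by ring
    _ ≤ W * m * 2 := mul_le_mul_of_nonneg_left h4 (mul_nonneg W0 m0)
    _ = 2 * W * m := by ring
    _ ≤ _ := mul_le_mul_of_nonneg_left h6 (by positivity)

end Pool.Agent.MP_2876a2_nt.Tu

end

noncomputable section
open Finset Filter
open scoped Pointwise


namespace Pool.Agent.MP_2876a2_nt.Tu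

theorem cnt_Pop2 (TT : Finset ℕ) (W c : ℕ) (a D : ℝ) (hW : 0 < W) (hne : TT.Nonempty)
    (h : ∀ T ∈ TT, T ≡ c [MOD W] ∧ |(T : ℝ) - a| ≤ D) : (W : ℝ) * TT.card ≤ 2 * D + W := by
  have hW' : (0 : ℝ) < W := by exact_mod_cast hW
  have hm := TT.min'_mem hne
  have hD : 0 ≤ D := (abs_nonneg _).trans (h _ hm).2
  have hd : ∀ T ∈ TT, W ∣ T - TT.min' hne := fun T hT =>
    (Nat.modEq_iff_dvd' (TT.min'_le T hT)).1 ((h _ hm).1.trans (h T hT).1.symm)
  have h1 : TT.card ≤ (range (⌊2 * D / W⌋₊ + 1)).card := by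
    refine card_le_card_of_injOn (fun T => (T - TT.min' hne) / W) (fun T hT => ?_)
      fun T hT T' hT' e => ?_
    · refine mem_coe.2 (mem_range.2 (Nat.lt_succ_of_le (Nat.le_floor
        (Nat.cast_div_le.trans (div_le_div_of_nonneg_right ?_ hW'.le)))))
      rw [Nat.cast_sub (TT.min'_le T hT)]
      have a1 := abs_le.1 (h T hT).2
      have a2 := abs_le.1 (h _ hm).2
      linarith
    · have a1 := Nat.mul_div_cancel' (hd T hT)
      have a2 := Nat.mul_div_cancel' (hd T' hT')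
      have a3 := TT.min'_le T hT
      have a4 := TT.min'_le T' hT'
      simp only at e
      rw [e] at a1
      omega
  rw [card_range] at h1
  have h2 : (TT.card : ℝ) ≤ 2 * D / W + 1 := by
    have := Nat.floor_le (show 0 ≤ 2 * D / W by positivity)
    have h3 : (TT.card : ℝ) ≤ (⌊2 * D / W⌋₊ : ℕ) + 1 := by exact_mod_cast h1
    linarith
  refine (mul_le_mul_of_nonneg_left h2 hW'.le).trans_eq ?_
  field_simp

theorem sPop2 (hA : StPopA) : StPop2 := by
  classical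
  intro k X H W η hW hH hη hη1 hX hle
  obtain ⟨x0, hx0, hC⟩ := hA k X H W η hW hH hη hη1 hX hle
  refine ⟨x0, hx0, fun Γ S g hΓ hγ hcard hWS => ?_⟩
  set C := (Fintype.piFinset X).filter fun x => ∑ i, x i ≡ ∑ i, x0 i [MOD W] ∧
      |((∑ i, x i : ℕ) : ℝ) - (∑ i, x0 i : ℕ)| ≤ η * H with hCdef
  have hCne : C.Nonempty := ⟨x0, mem_filter.2 ⟨hx0, Nat.ModEq.refl _, by
    rw [sub_self, abs_zero]; positivity⟩⟩
  set Z := C ×ˢ Fintype.piFinset Γ with hZ
  have hZne : Z.Nonempty := hCne.product (Fintype.piFinset_nonempty.2 hΓ)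
  set f : (Fin k → ℕ) × (Fin k → ℕ) → ℕ := fun p => ∑ i, p.1 i * p.2 i with hf
  have hS0 : (0 : ℝ) ≤ S := Nat.cast_nonneg _
  have hT : ∀ T ∈ Z.image f, T ≡ g * ∑ i, x0 i [MOD W] ∧
      |(T : ℝ) - (∑ i, x0 i : ℕ) * S| ≤ 2 * η * H * S := by
    intro T hT
    obtain ⟨⟨x, γ⟩, hp, rfl⟩ := mem_image.1 hT
    obtain ⟨h1, h2⟩ := mem_product.1 hp
    obtain ⟨h3, h4, h5⟩ := mem_filter.1 h1
    have h6 := fun i => hγ i _ (Fintype.mem_piFinset.1 h2 i)
    simp only at h3 h4 h5 h6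
    refine ⟨Nat.ModEq.trans ?_ (h4.mul_left g), ?_⟩
    · rw [mul_sum]
      exact Nat.ModEq.sum fun i _ => by rw [mul_comm g]; exact (h6 i).1.mul_left _
    · have b1 : ((f (x, γ) : ℕ) : ℝ) ≤ ((∑ i, x i : ℕ) : ℝ) * S := by
        have : f (x, γ) ≤ (∑ i, x i) * S := by
          rw [sum_mul]; exact sum_le_sum fun i _ => Nat.mul_le_mul_left _ (h6 i).2.1
        exact_mod_cast this
      have b2 : ((∑ i, x i : ℕ) : ℝ) * (S - η * S) ≤ ((f (x, γ) : ℕ) : ℝ) := by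
        simp only [hf]
        push_cast
        rw [sum_mul]
        refine sum_le_sum fun i _ => mul_le_mul_of_nonneg_left ?_ (Nat.cast_nonneg _)
        have a1 : ((γ i : ℕ) : ℝ) ≤ S := by exact_mod_cast (h6 i).2.1
        nlinarith [(h6 i).2.2]
      have b3 : ((∑ i, x i : ℕ) : ℝ) ≤ H := by exact_mod_cast hle x h3
      have b4 := abs_le.1 h5
      have b5 := mul_le_mul_of_nonneg_right b4.1 hS0
      have b6 := mul_le_mul_of_nonneg_right b4.2 hS0
      have b7 := mul_le_mul_of_nonneg_right b3 (mul_nonneg hη.le hS0)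
      have b8 : 0 ≤ η * H * S := by positivity
      exact abs_le.2 ⟨by nlinarith, by nlinarith⟩
  obtain ⟨T, hT0, hmax⟩ := exists_max_image (Z.image f) (rm fun i => X i * Γ i) (hZne.image f)
  refine ⟨T, (hT T hT0).1, (hT T hT0).2, ?_⟩
  have c1 := cnt_Pop2 _ W _ _ _ hW (hZne.image f) hT
  have c2 : Z.card ≤ (Z.image f).card * rm (fun i => X i * Γ i) T := by
    rw [card_eq_sum_card_image f Z]
    refine (sum_le_sum fun T' hT' => le_trans ?_ (hmax T' hT')).trans (by simp)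
    refine card_le_card_of_injOn (fun p i => p.1 i * p.2 i) (fun p hp => ?_) fun p hp q hq e => ?_
    · obtain ⟨h1, h2⟩ := mem_filter.1 (mem_coe.1 hp)
      obtain ⟨h3, h4⟩ := mem_product.1 h1
      exact mem_coe.2 (mem_filter.2 ⟨Fintype.mem_piFinset.2 fun i => mul_mem_mul
        (Fintype.mem_piFinset.1 (mem_filter.1 h3).1 i) (Fintype.mem_piFinset.1 h4 i), h2⟩)
    · obtain ⟨h1, h2⟩ := mem_product.1 (mem_filter.1 (mem_coe.1 hp)).1
      obtain ⟨h3, h4⟩ := mem_product.1 (mem_filter.1 (mem_coe.1 hq)).1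
      have key : ∀ i, (p.1 i, p.2 i) = (q.1 i, q.2 i) := fun i =>
        card_mul_iff.1 (hcard i) ⟨Fintype.mem_piFinset.1 (mem_filter.1 h1).1 i,
          Fintype.mem_piFinset.1 h2 i⟩ ⟨Fintype.mem_piFinset.1 (mem_filter.1 h3).1 i,
          Fintype.mem_piFinset.1 h4 i⟩ (congrFun e i)
      exact Prod.ext (funext fun i => (Prod.mk.inj (key i)).1)
        (funext fun i => (Prod.mk.inj (key i)).2)
  rw [hZ, card_product, Fintype.card_piFinset, ← hZ] at c2
  have c3 : (C.card : ℝ) * ∏ i, ((Γ i).card : ℝ) ≤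
      (Z.image f).card * (rm (fun i => X i * Γ i) T : ℝ) := by exact_mod_cast c2
  have e : ∏ i, ((X i * Γ i).card : ℝ) = (∏ i, ((X i).card : ℝ)) * ∏ i, ((Γ i).card : ℝ) := by
    rw [← prod_mul_distrib]
    exact prod_congr rfl fun i _ => by rw [hcard i, Nat.cast_mul]
  have g0 : (0 : ℝ) ≤ ∏ i, ((Γ i).card : ℝ) := prod_nonneg fun i _ => Nat.cast_nonneg _
  have r0 : (0 : ℝ) ≤ (rm (fun i => X i * Γ i) T : ℝ) := Nat.cast_nonneg _
  have w0 : (0 : ℝ) ≤ W := Nat.cast_nonneg _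
  rw [e]
  refine le_of_mul_le_mul_left ?_ hη
  have d1 := mul_le_mul_of_nonneg_right hC g0
  have d2 := mul_le_mul_of_nonneg_left c3 w0
  have d3 := mul_le_mul_of_nonneg_right (c1.trans (add_le_add_right hWS _)) r0
  nlinarith

end Pool.Agent.MP_2876a2_nt.Tu

end
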