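import Pool.Agent.MP_2876a2_nt.Tu.P1
import Pool.Agent.MP_2876a2_nt.Tu.P2
import Pool.Agent.MP_2876a2_nt.Tu.P3
import Pool.Agent.MP_2876a2_nt.Tu.Main2
import Pool.Agent.Mg.F436a94p.Gc25967

/-!
Infinitely many pairwise coprime feebly amicable `k`-tuples for every large `k`.
-/

set_option autoImplicit false

open Finset Filter

namespace Pool.Agent.MP_2876a2_nt.Tu

theorem aTh : StTh := sTh MP_43e117_nt.PG.a_BV MP_43e117_nt.PG.s_PNT

theorem aA2 : StA2 := sA2 aTh (sLo2 MP_43e117_nt.PG.a_BV (sMer2 sMer)) (sMid2 sBT2 sMer)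

theorem aA : StA := by
  have h := aA2 1 0 one_pos (by simp)
  unfold StA
  simpa only [PA_one, Nat.cast_one, mul_one] using h

theorem aBM : StBM := sBM (sFib sPsi) sCore (sCol sDis sAvg)

theorem aAp : StAp := sAp (sMas sIn)

theorem coprime_tuples (k : ℕ) (hk : 30004 ≤ k) :
    Set.Infinite {Z : Finset ℕ | Z.card = k ∧ (∀ n ∈ Z, 0 < n) ∧
      (Z : Set ℕ).Pairwise Nat.Coprime ∧
      ∑ n ∈ Z, (n : ℚ) / ((ArithmeticFunction.sigma 1 n : ℕ) : ℚ) = 1} := by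
  refine Set.Infinite.of_image (fun Z => Z.sup id) (Set.infinite_of_forall_exists_gt fun M => ?_)
  obtain ⟨Z, h1, h2, h3, h4, n, hn, h5⟩ := pc (sER (sER1 aA2 (sRound aBM)))
    (sExt aBM (sPool aA) sRec) (sAdm aA2)
    (sDM (sDec1 (sProd2 sMul2) sMul2 sSlow2 sSel2 (sBil2 sCS (sH sH1) sNum)) sFew)
    (sDiff2 sFour2 aAp) (sPop2 sPopA) (sProd2 sMul2) sMul2 sTail sUnits
    (sPads (sCof4 (sDiv4 aTh))) sKey sEnd 30000 (k - 30003) M le_rfl (by norm_num) (by omega)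
  exact ⟨Z.sup id, ⟨Z, ⟨by omega, h2, h3, h4⟩, rfl⟩, h5.trans_le (le_sup (f := id) hn)⟩

end Pool.Agent.MP_2876a2_nt.Tu
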