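import Pool.Agent.MP_2876a2_nt.Tu.St3

set_option autoImplicit false

open Finset Filter
open scoped Pointwise

noncomputable section

namespace Pool.Agent.MP_2876a2_nt.Tu.V

theorem le_pow_M3 {j0 : ℕ} (t : ℕ) : j0 + t ≤ (j0 + t) ^ 5000 := Nat.le_self_pow (Nat.succ_ne_zero _) _

theorem cop_small_M3 {j0 : ℕ} {B : ℕ → Finset ℕ} {N s : ℕ → ℕ} (h : S1 j0 B N s) {c : ℕ}
    (hc : 0 < c) (hc' : c ≤ j0) (t : ℕ) : c.Coprime (N t) := by
  refine Nat.coprime_of_dvd fun p hp h1 h2 => ?_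
  have h3 := (h.prm t p (Nat.mem_primeFactors.2 ⟨hp, h2, (h.blk t).sqf.ne_zero⟩)).1
  have h4 := Nat.le_of_dvd hc h1
  have h5 := le_pow_M3 (j0 := j0) t
  omega

theorem exp_le_M3 {j0 : ℕ} (hj : 2 ≤ j0) : Real.exp (2 / ((j0 : ℝ) + (0 : ℕ))) ≤ 3 := by
  have h1 : (2 : ℝ) ≤ j0 := by exact_mod_cast hj
  have h2 : 2 / ((j0 : ℝ) + (0 : ℕ)) ≤ 1 := by
    rw [Nat.cast_zero, add_zero, div_le_one (by linarith)]
    exact h1
  exact (Real.exp_le_exp.2 h2).trans (Real.exp_one_lt_d9.le.trans (by norm_num))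

theorem ev_exp_M3 (j0 : ℕ) {η : ℝ} (hη : 0 < η) :
    ∀ᶠ t : ℕ in atTop, Real.exp (2 / ((j0 : ℝ) + t)) ≤ 1 + η ∧ 1 ≤ η * t := by
  have h1 : Tendsto (fun t : ℕ => (j0 : ℝ) + t) atTop atTop :=
    tendsto_atTop_add_const_left _ _ tendsto_natCast_atTop_atTop
  have h2 : Tendsto (fun t : ℕ => Real.exp (2 / ((j0 : ℝ) + t))) atTop (nhds (Real.exp 0)) :=
    (Real.continuous_exp.tendsto 0).comp (tendsto_const_nhds.div_atTop h1)
  rw [Real.exp_zero] at h2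
  exact (h2.eventually_le_const (by linarith)).and
    ((tendsto_natCast_atTop_atTop.const_mul_atTop hη).eventually_ge_atTop 1)

theorem ev_adm_M3 (hA : StAdm) (j0 : ℕ) {W : ℕ} (hW : 0 < W) :
    ∀ᶠ t : ℕ in atTop, ∀ ρ ∈ (range W).filter (fun ρ => ρ.Coprime W), Adm (j0 + t) W ρ := by
  refine (eventually_all_finset _).2 fun ρ hρ => ?_
  have h : Tendsto (fun t : ℕ => j0 + t) atTop atTop :=
    tendsto_atTop_mono (fun t => Nat.le_add_left t j0) tendsto_id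
  exact h.eventually (hA W ρ hW (mem_filter.1 hρ).2)

theorem mem_pred_M3 {W : ℕ} (hW : 0 < W) : W - 1 ∈ (range W).filter fun ρ => ρ.Coprime W := by
  refine mem_filter.2 ⟨mem_range.2 (by omega), ?_⟩
  obtain ⟨n, rfl⟩ : ∃ n, W = n + 1 := ⟨W - 1, by omega⟩
  simp

theorem two_pow_le_M3 {s : ℕ → ℕ} (h : ∀ i, 2 ≤ s i) (I : Finset ℕ) :
    I.card < ∏ i ∈ I, s i :=
  Nat.lt_two_pow_self.trans_le (pow_card_le_prod _ _ _ fun i _ => h i)

theorem image_mul_M3 (c : ℕ) (P Q : Finset ℕ) :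
    (P.image fun a => c * a) * Q = (P * Q).image fun a => c * a := by
  ext x
  simp only [Finset.mem_mul, mem_image]
  constructor
  · rintro ⟨_, ⟨a, ha, rfl⟩, b, hb, rfl⟩
    exact ⟨_, ⟨a, ha, b, hb, rfl⟩, (mul_assoc _ _ _).symm⟩
  · rintro ⟨_, ⟨a, ha, b, hb, rfl⟩, rfl⟩
    exact ⟨_, ⟨a, ha, rfl⟩, b, hb, mul_assoc _ _ _⟩

theorem inj_M3 {c : ℕ} (hc : 0 < c) : Function.Injective fun a => c * a :=
  fun _ _ h => Nat.eq_of_mul_eq_mul_left hc h

theorem even_sum_M3 {k : ℕ} (hk : 2 ∣ k) (x : Fin k → ℕ) (h : ∀ i, ¬ 2 ∣ x i) : 2 ∣ ∑ i, x i := by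
  have h1 : ∑ i, x i ≡ ∑ _i : Fin k, 1 [MOD 2] :=
    Nat.ModEq.sum fun i _ => by have := h i; unfold Nat.ModEq; omega
  simp only [sum_const, card_univ, Fintype.card_fin, smul_eq_mul, mul_one] at h1
  unfold Nat.ModEq at h1
  omega

theorem pad_M3 {E : Finset ℕ} {H S W : ℕ} {z X η : ℝ} (hH : 0 < H) (hE : ∀ d ∈ E, 0 < d)
    (hS : W * ∏ d ∈ E, sg d ∣ S) (h : |∑ d ∈ E, (d : ℝ) / (sg d : ℝ) - (H - z - X) / H| ≤ η) :
    (∀ d ∈ E, sg d ∣ H * S) ∧ W ∣ H * S ∧ W ∣ ∑ d ∈ E, d * (H * S / sg d) ∧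
      |((∑ d ∈ E, d * (H * S / sg d) : ℕ) : ℝ) - (H - z - X) * S| ≤ η * H * S := by
  have h1 : ∀ d ∈ E, sg d * W ∣ H * S := fun d hd =>
    Dvd.dvd.mul_left ((by
      rw [mul_comm]; exact Nat.mul_dvd_mul_left W (dvd_prod_of_mem _ hd) :
        sg d * W ∣ W * ∏ d ∈ E, sg d).trans hS) H
  have h2 : ∀ d ∈ E, sg d ∣ H * S := fun d hd => (dvd_mul_right _ _).trans (h1 d hd)
  refine ⟨h2, Dvd.dvd.mul_left ((dvd_mul_right _ _).trans hS) H, dvd_sum fun d hd =>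
    Dvd.dvd.mul_left ((Nat.dvd_div_iff_mul_dvd (h2 d hd)).2 (h1 d hd)) d, ?_⟩
  have hH' : (0 : ℝ) < H := by exact_mod_cast hH
  have h3 : ((∑ d ∈ E, d * (H * S / sg d) : ℕ) : ℝ) = (∑ d ∈ E, (d : ℝ) / (sg d : ℝ)) * (H * S) := by
    rw [sum_mul, Nat.cast_sum]
    refine sum_congr rfl fun d hd => ?_
    have h4 : (sg d : ℝ) ≠ 0 := by
      exact_mod_cast (ArithmeticFunction.sigma_pos 1 d (hE d hd).ne').ne'
    rw [Nat.cast_mul, Nat.cast_div (h2 d hd) h4, Nat.cast_mul]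
    ring
  have h4 : ((H : ℝ) - z - X) * S = (H - z - X) / H * (H * S) := by field_simp
  rw [h3, h4, ← sub_mul, abs_mul, abs_of_nonneg (by positivity : (0 : ℝ) ≤ H * S), mul_assoc]
  exact mul_le_mul_of_nonneg_right h (by positivity)

theorem rm_pos_M3 {k : ℕ} {Pi S r r' : ℝ} (hk : 4 ≤ k) (hP : 0 < Pi) (hS : 0 < S)
    (h1 : Pi ≤ 10 * S * r') (h2 : |r - r'| ≤ Pi / (2 * (k + 2) * S)) : 0 < r := by
  have hk' : (4 : ℝ) ≤ k := by exact_mod_cast hk
  have h3 : Pi / (2 * (k + 2) * S) ≤ Pi / (12 * S) :=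
    div_le_div_of_nonneg_left hP.le (by positivity) (by nlinarith)
  have h4 : Pi / (10 * S) ≤ r' := by rw [div_le_iff₀ (by positivity)]; linarith
  have h5 : Pi / (12 * S) < Pi / (10 * S) :=
    div_lt_div_of_pos_left hP (by positivity) (by linarith)
  linarith [(abs_le.1 h2).1]

set_option maxHeartbeats 2000000 in
theorem pc (hER : StER) (hExt : StExt) (hAdm : StAdm) (hDM : StDM) (hDiff : StDiff3)
    (hPop : StPop2) (hProd : StProd2) (hMul : StMul2) (hTail : StTail) (hU : StUnits)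
    (hPads : StPads) (hKey : StKey) (hEnd : StEnd) (k l M0 : ℕ) (hk : 46 ≤ k) (hk2 : 2 ∣ k)
    (hl : 1 ≤ l) : ∃ Z : Finset ℕ, Z.card = k + 3 + l ∧ (∀ n ∈ Z, 0 < n) ∧
      (Z : Set ℕ).Pairwise Nat.Coprime ∧ ∑ n ∈ Z, (n : ℚ) / (sg n : ℚ) = 1 ∧ ∃ n ∈ Z, M0 < n := by
  obtain ⟨c, D, hc, hcc⟩ := hER (k + 3) (by omega)
  have hD : 0 < D := by have := (hc 0 (by omega)); nlinarith [this.1, this.2.2.2]
  have hcD : ∀ i < k + 3, 0 < c i ∧ c i ≤ D := fun i hi =>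
    ⟨(hc i hi).1, by nlinarith [(hc i hi).2.2.2]⟩
  have hc1 : ∀ i < k + 3, 1 < c i := fun i hi => by
    obtain ⟨h1, -, h2, h3⟩ := hc i hi
    by_contra h4
    obtain h5 : c i = 1 := by omega
    rw [h5] at h2 h3
    simp at h2
    omega
  obtain ⟨j0, ⟨B, N, s, hS, hext⟩, hj, hjD⟩ := ((hExt (k + 3) (by omega)).and
    ((eventually_ge_atTop 2).and (eventually_ge_atTop D))).exists
  obtain ⟨Y0, Λ, hY0⟩ := hDM j0 D k (k + 3) hj hD hk (by omega)
  obtain ⟨W0, ε, hW0, hε, hε1, hdiff⟩ := hDiff Y0 Λ k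
  set W := 4 * W0 with hWd
  have hW : 0 < W := by omega
  have hD' : (1 : ℝ) ≤ D := by exact_mod_cast hD
  obtain ⟨η, hη, hη1, hη2⟩ : ∃ η : ℝ, 0 < η ∧ 4 * η ≤ ε ∧ 2 * η * D ≤ 1 :=
    ⟨min (ε / 4) (1 / (2 * D)), lt_min (by positivity) (by positivity),
      by linarith [min_le_left (ε / 4) (1 / (2 * D) : ℝ)], by
        have := (le_div_iff₀ (by positivity)).1 (min_le_right (ε / 4) (1 / (2 * D) : ℝ))
        linarith⟩
  have hη3 : η ≤ 1 := by linarith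
  obtain ⟨t2, ht2⟩ := eventually_atTop.1 ((ev_adm_M3 hAdm j0 hW).and (ev_exp_M3 j0 hη))
  have hP0 := fun i hi => hProd j0 (B i) (N i) s hj (hS.one i hi) 0 (range t2)
    fun _ _ => Nat.zero_le _
  set H2 := ∏ t ∈ range t2, s t with hH2
  have hH2p : 0 < H2 := (hP0 0 (by omega)).1.s_pos
  have hin : ∀ i < k + 3, ∀ b ∈ ∏ t ∈ range t2, B i t,
      2 * (k + 3) * (c i * b) ≤ D * H2 ∧ ¬ 2 ∣ c i * b ∧ H2 ≤ 3 * (c i * b) := by
    intro i hi b hb
    obtain ⟨h1, h2, h3⟩ := (hP0 i hi).2 b hb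
    refine ⟨?_, fun h4 => ?_, ?_⟩
    · rw [← mul_assoc]
      exact Nat.mul_le_mul (hc i hi).2.2.2 h2
    · rcases (Nat.prime_two.dvd_mul).1 h4 with h5 | h5
      · exact (hc i hi).2.1 h5
      · have h6 : Nat.Coprime 2 (∏ t ∈ range t2, N i t) :=
          Nat.Coprime.prod_right fun t _ => cop_small_M3 (hS.one i hi) two_pos hj t
        exact (Nat.prime_two.coprime_iff_not_dvd.1 h6) (h5.trans ((hP0 i hi).1.dvd b hb))
    · have h4 : (H2 : ℝ) ≤ 3 * b :=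
        h3.trans (mul_le_mul_of_nonneg_right (exp_le_M3 hj) (Nat.cast_nonneg _))
      have h5 : H2 ≤ 3 * b := by exact_mod_cast h4
      exact h5.trans (Nat.mul_le_mul_left _ (Nat.le_mul_of_pos_left _ (hc i hi).1))
  set X : Fin k → Finset ℕ := fun i => (∏ t ∈ range t2, B i t).image fun a => c i * a with hX
  have hXs : ∀ x ∈ Fintype.piFinset X, 2 * (k + 3) * ∑ i, x i ≤ k * (D * H2) ∧ 2 ∣ ∑ i, x i ∧
      k * H2 ≤ 3 * ∑ i, x i := by
    intro x hx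
    have h1 : ∀ i : Fin k, 2 * (k + 3) * x i ≤ D * H2 ∧ ¬ 2 ∣ x i ∧ H2 ≤ 3 * x i := fun i => by
      obtain ⟨b, hb, h2⟩ := mem_image.1 (Fintype.mem_piFinset.1 hx i)
      rw [← h2]
      exact hin i (by omega) b hb
    refine ⟨?_, even_sum_M3 hk2 x fun i => (h1 i).2.1, ?_⟩
    · rw [mul_sum]
      simpa using sum_le_sum (s := univ) fun i _ => (h1 i).1
    · rw [mul_sum]
      simpa using sum_le_sum (s := univ) fun i _ => (h1 i).2.2
  obtain ⟨x0, hx0, hpop⟩ := hPop k X (D * H2) W η hW (by positivity) hη hη3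
    (fun i => (hP0 i (by omega)).1.ne.image _) fun x hx =>
      Nat.le_of_mul_le_mul_left ((Nat.mul_le_mul_right _ (by omega)).trans (hXs x hx).1)
        (by omega : 0 < k)
  obtain ⟨hz1, hz2, hz3⟩ := hXs x0 hx0
  generalize ∑ i, x0 i = z at hpop hz1 hz2 hz3
  have hβ : ∀ e, ∃ b, e < 3 → b ∈ ∏ t ∈ range t2, B (k + e) t := fun e => by
    by_cases he : e < 3
    · obtain ⟨b, hb⟩ := (hP0 (k + e) (by omega)).1.ne
      exact ⟨b, fun _ => hb⟩
    · exact ⟨0, fun h => absurd h he⟩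
  choose β hβ using hβ
  have hNN : ∀ {B' : ℕ → ℕ → Finset ℕ} {N' : ℕ → ℕ → ℕ} {s' : ℕ → ℕ}, SM (k + 3) j0 B' N' s' →
      ∀ I : Finset ℕ, ∀ i < k + 3, ∀ i' < k + 3, i ≠ i' →
        (c i * ∏ t ∈ I, N' i t).Coprime (c i' * ∏ t ∈ I, N' i' t) := by
    intro B' N' s' h I i hi i' hi' hne
    have h1 : ∀ a < k + 3, ∀ b < k + 3, (c a).Coprime (∏ t ∈ I, N' b t) := fun a ha b hb =>
      Nat.Coprime.prod_right fun t _ =>
        cop_small_M3 (h.one b hb) (hcD a ha).1 ((hcD a ha).2.trans hjD) t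
    exact Nat.Coprime.mul_left ((hcc i hi i' hi' hne).mul_right (h1 i hi i' hi'))
      ((h1 i' hi' i hi).symm.mul_right (Nat.Coprime.prod_left fun t _ =>
        Nat.Coprime.prod_right fun t' _ => h.cop i hi i' hi' hne t t'))
  obtain ⟨ρ, u, hρ, hWz⟩ := hU W z (fun e => c (k + e) * β e) hW (fun e he e' he' hne =>
    ((hNN hS (range t2) (k + e) (by omega) (k + e') (by omega) (by omega)).coprime_dvd_left
      (Nat.mul_dvd_mul_left _ ((hP0 _ (by omega)).1.dvd _ (hβ e he)))).coprime_dvd_right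
      (Nat.mul_dvd_mul_left _ ((hP0 _ (by omega)).1.dvd _ (hβ e' he'))))
    (fun e he => (hin _ (by omega) _ (hβ e he)).2.1) hz2
  have hsum : 2 * (z + ∑ e ∈ range 3, c (k + e) * β e) ≤ D * H2 := by
    have h1 := fun e he => (hin (k + e) (by omega) _ (hβ e he)).1
    have h2 := h1 0 (by omega)
    have h3 := h1 1 (by omega)
    have h4 := h1 2 (by omega)
    simp only [sum_range_succ, range_zero, sum_empty]
    refine Nat.le_of_mul_le_mul_left (c := k + 3) ?_ (by omega)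
    nlinarith
  have hHp : (0 : ℝ) < (D * H2 : ℕ) := by positivity
  have hsum' : 2 * ((z : ℝ) + (∑ e ∈ range 3, c (k + e) * β e : ℕ)) ≤ (D * H2 : ℕ) := by
    exact_mod_cast hsum
  obtain ⟨E, hE1, hE2, hE3, hE4⟩ := hPads l (D + 2 * (j0 + (t2 + 3)) ^ 5000)
    (((D * H2 : ℕ) - z - (∑ e ∈ range 3, c (k + e) * β e : ℕ)) / (D * H2 : ℕ)) η hl
    (by rw [le_div_iff₀ hHp]; linarith)
    (by
      rw [div_le_one hHp]
      linarith [Nat.cast_nonneg (α := ℝ) z,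
        Nat.cast_nonneg (α := ℝ) (∑ e ∈ range 3, c (k + e) * β e)]) hη
  set Gs := W * ∏ d ∈ E, sg d with hGs
  have hGs0 : 0 < Gs := Nat.mul_pos hW
    (prod_pos fun d hd => ArithmeticFunction.sigma_pos 1 d (hE2 d hd).1.ne')
  obtain ⟨t3, ht3, ht23⟩ : ∃ t3, (∀ t, t3 ≤ t → Adm (j0 + t) Gs (Gs - 1)) ∧ t2 + 3 ≤ t3 := by
    obtain ⟨t3, h⟩ := eventually_atTop.1 (ev_adm_M3 hAdm j0 hGs0)
    exact ⟨t3 + (t2 + 3), fun t ht => h t (by omega) _ (mem_pred_M3 hGs0), by omega⟩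
  obtain ⟨G, hG1, hG2⟩ : ∃ G : ℕ → ℕ, (∀ t < t3, G t = W) ∧ ∀ t, t3 ≤ t → G t = Gs :=
    ⟨fun t => if t < t3 then W else Gs, fun t ht => if_pos ht, fun t ht => if_neg (by omega)⟩
  obtain ⟨R, hR1, hR2⟩ : ∃ R : ℕ → ℕ, (∀ e < 3, R (t2 + e) = ρ e) ∧
      ∀ t, t2 + 3 ≤ t → R t = G t - 1 :=
    ⟨fun t => if t < t2 + 3 then ρ (t - t2) else G t - 1, fun e he => by
      simp only [if_pos (show t2 + e < t2 + 3 by omega), Nat.add_sub_cancel_left],
      fun t ht => if_neg (by omega)⟩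
  have hWG : ∀ t, W ∣ G t ∧ 0 < G t := fun t => by
    rcases lt_or_ge t t3 with h | h
    · rw [hG1 t h]; exact ⟨dvd_rfl, hW⟩
    · rw [hG2 t h]; exact ⟨dvd_mul_right _ _, hGs0⟩
  obtain ⟨B', N', s', r, hS', hsame, hcls⟩ := hext t2 G R fun t ht => by
    rcases lt_or_ge t (t2 + 3) with h | h
    · obtain ⟨e, rfl⟩ := Nat.exists_eq_add_of_le ht
      rw [hG1 _ (by omega), hR1 e (by omega)]
      exact (ht2 _ ht).1 _ (mem_filter.2 ⟨mem_range.2 (hρ e (by omega)).1, (hρ e (by omega)).2.1⟩)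
    · rw [hR2 t h]
      rcases lt_or_ge t t3 with h' | h'
      · rw [hG1 t h']; exact (ht2 _ ht).1 _ (mem_pred_M3 hW)
      · rw [hG2 t h']; exact ht3 t h'
  obtain ⟨n1, hn1⟩ := exists_nat_ge (W / η)
  obtain ⟨J, hJ⟩ : ∃ J, J = t3 + 1 + n1 + 3 * M0 := ⟨_, rfl⟩
  have htJ : t2 ≤ J := by omega
  have hT := fun i hi => hTail j0 t2 J W (B' i) (N' i) s' G R r (hS'.one i hi) fun t ht =>
    ⟨(hcls t ht).1, (hWG t).1, (hcls t ht).2 i hi⟩
  have hP1 := fun i hi => hProd j0 (B' i) (N' i) s' hj (hS'.one i hi) t2 (Ico t2 J)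
    fun _ h => (mem_Ico.1 h).1
  have hP2 := fun i hi => hProd j0 (B' i) (N' i) s' hj (hS'.one i hi) 0 (range J)
    fun _ _ => Nat.zero_le _
  have eB : ∀ i, ∏ t ∈ range J, B' i t = (∏ t ∈ range t2, B i t) * ∏ t ∈ Ico t2 J, B' i t :=
    fun i => by
      rw [← prod_range_mul_prod_Ico _ htJ,
        prod_congr rfl fun t ht => ((hsame t (mem_range.1 ht)).2 i).1]
  set S := ∏ t ∈ Ico t2 J, s' t with hSd
  have eS : D * ∏ t ∈ range J, s' t = D * H2 * S := by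
    rw [← prod_range_mul_prod_Ico _ htJ, prod_congr rfl fun t ht => (hsame t (mem_range.1 ht)).1,
      mul_assoc]
  have hSJ : J - t2 < S := by
    simpa using two_pow_le_M3 ((hS'.one 0 (by omega)).two_le hj) (Ico t2 J)
  have hS0 : 0 < S := by omega
  have hGS : Gs ∣ S := by
    have h1 := (hT 0 (by omega)).2.2 t3 (by omega) (by
      rw [hR2 t3 ht23, Nat.sub_add_cancel (hWG t3).2])
    rw [hG2 t3 le_rfl] at h1
    exact h1.trans (dvd_prod_of_mem _ (mem_Ico.2 ⟨by omega, by omega⟩))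
  have hΓ : ∀ i < k + 3, ∀ γ ∈ ∏ t ∈ Ico t2 J, B' i t,
      γ ≡ ∏ t ∈ Ico t2 J, R t ^ r t [MOD W] ∧ γ ≤ S ∧ (S : ℝ) ≤ (1 + η) * γ := fun i hi γ hγ =>
    ⟨(hT i hi).1 γ hγ, ((hP1 i hi).2 γ hγ).2.1, ((hP1 i hi).2 γ hγ).2.2.trans
      (mul_le_mul_of_nonneg_right (ht2 t2 le_rfl).2.1 (Nat.cast_nonneg _))⟩
  have eA : ∀ i : Fin k, X i * ∏ t ∈ Ico t2 J, B' i t =
      (∏ t ∈ range J, B' i t).image fun a => c i * a := fun i => by rw [eB, ← image_mul_M3]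
  obtain ⟨T', hT1, hT2, hT3⟩ := hpop (fun i => ∏ t ∈ Ico t2 J, B' i t) S _
    (fun i => (hP1 i (by omega)).1.ne) (fun i => hΓ i (by omega)) (fun i => by
      have h1 := inj_M3 (hcD i (by omega)).1
      rw [eA, card_image_of_injective _ h1, card_image_of_injective _ h1, eB]
      refine (hMul _ _ _ _ _ _ (hP0 i (by omega)).1 (hP1 i (by omega)).1 ?_).2.1
      refine Nat.Coprime.prod_left fun t ht => Nat.Coprime.prod_right fun t' ht' => ?_
      rw [← ((hsame t (mem_range.1 ht)).2 i).2]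
      exact (hS'.one i (by omega)).cop t t' (by
        have := mem_range.1 ht; have := mem_Ico.1 ht'; omega)) (by
      have h1 : (n1 : ℝ) ≤ S := by exact_mod_cast (by omega : n1 ≤ S)
      have h2 : (1 : ℝ) ≤ (D * H2 : ℕ) := by exact_mod_cast Nat.mul_pos hD hH2p
      have h3 := (div_le_iff₀ hη).1 (hn1.trans h1)
      calc (W : ℝ) ≤ η * 1 * S := by linarith
        _ ≤ _ := by gcongr)
  simp only [eA] at hT3
  have hadj : ∀ e, ∃ n p : ℕ, e < 3 → p ∈ (N' (k + e) (t2 + e)).primeFactors ∧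
      n * p ∈ ∏ t ∈ Ico t2 J, B' (k + e) t := fun e => by
    by_cases he : e < 3
    · obtain ⟨n, p, h⟩ := (hT (k + e) (by omega)).2.1 (t2 + e) (mem_Ico.2 ⟨by omega, by omega⟩)
      exact ⟨n, p, fun _ => h⟩
    · exact ⟨0, 0, fun h => absurd h he⟩
  choose n p hnp using hadj
  obtain ⟨hd1, hd2, hd3, hd4⟩ := pad_M3 (S := S) (Nat.mul_pos hD hH2p) (fun d hd => (hE2 d hd).1)
    hGS hE4
  have hz4 : 2 * η * (D * H2 : ℕ) ≤ z := by
    have h1 : (H2 : ℝ) ≤ z := by exact_mod_cast (by nlinarith : H2 ≤ z)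
    push_cast
    nlinarith [Nat.cast_nonneg (α := ℝ) H2]
  obtain ⟨T, hTs, hTm, hTl⟩ := hKey (D * H2) S W z _ T' _ η (fun e => c (k + e) * β e) n p u hη hη3
    hz4 hsum (fun e he => by
      obtain ⟨h1, h2⟩ := hnp e he
      obtain ⟨h3, h4, h5⟩ := hΓ _ (by omega) _ h2
      have h6 := ((hcls (t2 + e) (by omega)).2 (k + e) (by omega)).2 _ h1
      rw [hG1 _ (by omega), hR1 e he] at h6
      refine ⟨h3, (h6.mul_right _).trans (hρ e he).2.2, h4, h5, (ht2 t2 le_rfl).2.2.trans ?_⟩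
      have h7 := ((hS'.one (k + e) (by omega)).prm _ _ h1).1
      have h8 := le_pow_M3 (j0 := j0) (t2 + e)
      exact mul_le_mul_of_nonneg_left (by exact_mod_cast (by omega : t2 ≤ p e)) hη.le)
    hWz hd2 hd3 hd4 hT1 hT2
  have hcN : ∀ i < k + 3, ∀ i' < k + 3, ∀ t, (c i).Coprime (N' i' t) := fun i hi i' hi' t =>
    cop_small_M3 (hS'.one i' hi') (hcD i hi).1 ((hcD i hi).2.trans hjD) t
  have hmem : ∀ i < k + 3, ∀ a ∈ ∏ t ∈ range J, B' i t, sg (c i * a) = D * H2 * S ∧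
      a ∣ ∏ t ∈ range J, N' i t ∧ 0 < a := fun i hi a ha => by
    have h1 := (hP2 i hi).1.dvd a ha
    refine ⟨?_, h1, (hP2 i hi).1.pos ha⟩
    rw [← eS, ← (hc i hi).2.2.1, ← (hP2 i hi).1.sig a ha]
    exact ArithmeticFunction.isMultiplicative_sigma.map_mul_of_coprime
      ((Nat.Coprime.prod_right fun t _ => hcN i hi i hi t).coprime_dvd_right h1)
  have hSt : (0 : ℝ) < (D * H2 * S : ℕ) := by positivity
  have hdm := hY0 B' N' s' hS' c hcD hcc hcN J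
  rw [eS] at hdm
  have hpos := rm_pos_M3 (k := k) (by omega) (prod_pos fun i _ => by
      exact_mod_cast card_pos.2 ((hP2 i (by omega)).1.ne.image _)) hSt
    (by simpa only [Nat.cast_mul, mul_assoc] using hT3)
    (hdiff _ (D * H2 * S) (Nat.mul_pos (Nat.mul_pos hD hH2p) hS0) (fun i a ha => by
      obtain ⟨b, hb, rfl⟩ := mem_image.1 ha
      rw [← eS]
      exact Nat.mul_le_mul (hcD i (by omega)).2 ((hP2 i (by omega)).2 b hb).2.1) hdm T' T (by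
        have h1 := (abs_le.1 hT2).2
        have h2 : (46 : ℝ) ≤ k := by exact_mod_cast hk
        have h3 : (z : ℝ) * S ≤ (D * H2 : ℕ) * S := mul_le_mul_of_nonneg_right (by
          linarith [Nat.cast_nonneg (α := ℝ) z,
            Nat.cast_nonneg (α := ℝ) (∑ e ∈ range 3, c (k + e) * β e)]) (Nat.cast_nonneg _)
        have h4 : (T' : ℝ) ≤ k * ((D * H2 : ℕ) * S) := by
          have h5 : (0 : ℝ) ≤ (D * H2 : ℕ) * S := by positivity
          nlinarith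
        exact_mod_cast h4)
      (hTm.of_dvd (Dvd.intro_left _ rfl)) (hTl.trans (by
        rw [Nat.cast_mul (D * H2), mul_assoc]
        exact mul_le_mul_of_nonneg_right hη1 (by positivity))))
  obtain ⟨a, ha⟩ := card_pos.1 (Nat.cast_pos.1 hpos)
  obtain ⟨ha1, ha2⟩ := mem_filter.1 ha
  have ha3 := fun i => mem_image.1 (Fintype.mem_piFinset.1 ha1 i)
  obtain ⟨v, hv1, hv2⟩ : ∃ v : ℕ → ℕ, (∀ i : Fin k, v i = a i) ∧
      ∀ e, v (k + e) = c (k + e) * β e * n e :=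
    ⟨fun i => if h : i < k then a ⟨i, h⟩ else c i * β (i - k) * n (i - k),
      fun i => dif_pos i.2, fun e => by
        simp only [dif_neg (show ¬ k + e < k by omega), Nat.add_sub_cancel_left]⟩
  obtain ⟨y, hy1, hy2⟩ : ∃ y : ℕ → ℕ, (∀ i < k, y i = 1) ∧ ∀ e, y (k + e) = p e + 1 :=
    ⟨fun i => if i < k then 1 else p (i - k) + 1, fun i hi => if_pos hi, fun e => by
      simp only [if_neg (show ¬ k + e < k by omega), Nat.add_sub_cancel_left]⟩
  have hv : ∀ i < k + 3, sg (v i) * y i = D * H2 * S ∧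
      ∃ b, v i = c i * b ∧ b ∣ ∏ t ∈ range J, N' i t ∧ 0 < b := fun i hi => by
    rcases lt_or_ge i k with h | h
    · obtain ⟨b, hb, h1⟩ := ha3 ⟨i, h⟩
      have h2 : v i = c i * b := (hv1 ⟨i, h⟩).trans h1.symm
      obtain ⟨h3, h4, h5⟩ := hmem i hi b hb
      exact ⟨by rw [hy1 i h, mul_one, h2, h3], b, h2, h4, h5⟩
    · obtain ⟨e, rfl⟩ := Nat.exists_eq_add_of_le h
      obtain ⟨h1, h2⟩ := hnp e (by omega)
      obtain ⟨h3, h4, h5⟩ := hmem _ hi (β e * (n e * p e)) (by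
        rw [eB]; exact mul_mem_mul (hβ e (by omega)) h2)
      rw [← mul_assoc (β e)] at h3 h4 h5
      have h6 := Nat.prime_of_mem_primeFactors h1
      have h7 : (β e * n e).Coprime (p e) :=
        (Nat.squarefree_mul_iff.1 ((hP2 _ hi).1.sqf.squarefree_of_dvd h4)).1
      have h8 : (c (k + e) * (β e * n e)).Coprime (p e) := Nat.Coprime.mul_left
        ((hcN _ hi _ hi _).coprime_dvd_right (Nat.dvd_of_mem_primeFactors h1)) h7
      have h9 : sg (p e) = p e + 1 := by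
        have := ArithmeticFunction.sigma_one_apply_prime_pow (i := 1) h6
        simpa [sum_range_succ, add_comm] using this
      refine ⟨?_, β e * n e, by rw [hv2, mul_assoc], (dvd_mul_right _ _).trans h4,
        Nat.pos_of_mul_pos_right h5⟩
      rw [hv2, hy2, ← h3, ← mul_assoc _ (β e * n e), ← h9, mul_assoc (c _)]
      exact (ArithmeticFunction.isMultiplicative_sigma.map_mul_of_coprime h8).symm
  have hvd : ∀ i < k + 3, v i ∣ c i * ∏ t ∈ range J, N' i t := fun i hi => by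
    obtain ⟨-, b, h1, h2, -⟩ := hv i hi
    rw [h1]
    exact Nat.mul_dvd_mul_left _ h2
  obtain ⟨Z, hZ1, hZ2, hZ3, hZ4, hZ5⟩ := hEnd (k + 3) (D * H2 * S) v y E
    (Nat.mul_pos (Nat.mul_pos hD hH2p) hS0) (fun i hi => by
      obtain ⟨h0, b, h1, -, h2⟩ := hv i hi
      exact ⟨h1 ▸ (hc1 i hi).trans_le (Nat.le_mul_of_pos_right _ h2), h0⟩)
    (fun i hi i' hi' hne => ((hNN hS' (range J) i hi i' hi' hne).coprime_dvd_left
      (hvd i hi)).coprime_dvd_right (hvd i' hi'))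
    (fun d hd => ⟨(hE2 d hd).1, hd1 d hd, fun i hi => by
      refine Nat.Coprime.coprime_dvd_left (hvd i hi) (Nat.coprime_of_dvd fun q hq h1 h2 => ?_)
      obtain ⟨h3, h4⟩ := (hE2 d hd).2 q (Nat.mem_primeFactors.2 ⟨hq, h2, (hE2 d hd).1.ne'⟩)
      rcases hq.dvd_mul.1 h1 with h5 | h5
      · have := (Nat.le_of_dvd (hcD i hi).1 h5).trans (hcD i hi).2
        omega
      · obtain ⟨t, -, h6⟩ := (hq.prime.dvd_finsetProd_iff _).1 h5
        have h7 := Nat.mem_primeFactors.2 ⟨hq, h6, ((hS'.one i hi).blk t).sqf.ne_zero⟩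
        rcases lt_or_ge t (t2 + 3) with h | h
        · have h8 := ((hS'.one i hi).prm t q h7).2
          have h9 : (j0 + t) ^ 5000 ≤ (j0 + (t2 + 3)) ^ 5000 := Nat.pow_le_pow_left (by omega) _
          omega
        · have h8 := ((hcls t (by omega)).2 i hi).2 q h7
          rw [hR2 t h] at h8
          have h9 : 4 ∣ G t := (Dvd.intro _ rfl : 4 ∣ W).trans (hWG t).1
          have h10 := h8.of_dvd h9
          have h11 := (hWG t).2
          unfold Nat.ModEq at h3 h10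
          omega⟩) hE3 (by
      rw [sum_range_add, sum_range fun i => v i * y i]
      simp only [hv1, hv2, hy2, hy1 _ (Fin.is_lt _), mul_one]
      rw [ha2]
      exact hTs)
  refine ⟨Z, by rw [hZ1, hE1], hZ2, hZ3, hZ4, v 0, hZ5 0 (by omega), ?_⟩
  obtain ⟨b, hb, h1⟩ := ha3 ⟨0, by omega⟩
  have h2 : v 0 = c 0 * b := (hv1 ⟨0, by omega⟩).trans h1.symm
  have h3 := ((hP2 0 (by omega)).2 b hb).2.2.trans
    (mul_le_mul_of_nonneg_right (exp_le_M3 hj) (Nat.cast_nonneg _))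
  have h4 : ∏ t ∈ range J, s' t ≤ 3 * b := by exact_mod_cast h3
  have h5 := two_pow_le_M3 ((hS'.one 0 (by omega)).two_le hj) (range J)
  have h6 : b ≤ c 0 * b := Nat.le_mul_of_pos_left _ (hcD 0 (by omega)).1
  rw [card_range] at h5
  omega

end Pool.Agent.MP_2876a2_nt.Tu.V
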