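import Pool.Agent.MP_2876a2_nt.Tu.St3
import Pool.Agent.MP_c903c4_nt.K.BT

/-!
Sharper exponents: smooth shifted primes, decay and the circle method.
-/

set_option autoImplicit false
set_option linter.all false

noncomputable section
open Finset Filter
open scoped Pointwise


namespace Pool.Agent.MP_2876a2_nt.Tu.V

section

open Real Pool.Agent.MP_c903c4_nt.K
open scoped Classical

lemma cntb_BT3 (h b : ℕ) {a q : ℕ} (hq : 0 < q) (hc : a.Coprime q) :
    |(∑ i ∈ range h, if q ∣ a * i + b then (1 : ℝ) else 0) - h * (q : ℝ)⁻¹| ≤ 1 := by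
  obtain ⟨c, -, h1⟩ := Nat.exists_mul_mod_eq_of_coprime ((q - 1) * b) hc hq.ne'
  have h2 : a * c + b ≡ 0 [MOD q] := by
    have h3 := Nat.ModEq.add_right b (show a * c ≡ (q - 1) * b [MOD q] from h1)
    rw [← Nat.succ_mul, Nat.succ_eq_add_one, Nat.sub_add_cancel hq] at h3
    exact h3.trans (Nat.modEq_zero_iff_dvd.2 (dvd_mul_right q b))
  have h3 : ∀ i, q ∣ a * i + b ↔ i ≡ c [MOD q] := fun i => by
    rw [← Nat.modEq_zero_iff_dvd]
    exact ⟨fun h4 => Nat.ModEq.cancel_left_of_coprime hc.symm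
      (Nat.ModEq.add_right_cancel' b (h4.trans h2.symm)),
      fun h4 => ((h4.mul_left a).add_right b).trans h2⟩
  simp only [h3]
  rw [sum_boole, ← Nat.count_eq_card_filter_range, Nat.count_modEq_card h hq c]
  have hq' : (0 : ℝ) < q := by exact_mod_cast hq
  have h4 : ((h / q : ℕ) : ℝ) ≤ h / q := Nat.cast_div_le
  have h5 := Nat.lt_floor_add_one ((h : ℝ) / q)
  rw [Nat.floor_div_natCast, Nat.floor_natCast] at h5
  rw [← div_eq_mul_inv, abs_le]
  split_ifs <;> push_cast <;> constructor <;> linarith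

lemma gen_BT3 (a b R h : ℕ) (y : ℝ) (ha : 0 < a) (hR : 2 ≤ R) (h6 : (h : ℝ) * a ≤ y) :
    (((range h).filter fun i => (a * i + b).Prime ∧ R < a * i + b).card : ℝ) ≤
      y / (a.totient * log R) + (R : ℝ) ^ 2 := by
  set g : ℕ → ℝ := fun p => ((p : ℝ) - 1)⁻¹ ⊔ 0 with hgd
  have hg : ∀ p : ℕ, p.Prime → g p = ((p : ℝ) - 1)⁻¹ := fun p hp =>
    sup_eq_left.2 (inv_nonneg.2 (sub_nonneg.2 (by exact_mod_cast hp.pos)))
  set L := Ld_BT R a with hLd
  set G : ℝ := ∑ l ∈ L, ∏ p ∈ l, g p with hG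
  have hp : ∀ {l}, l ∈ L → ∀ {p}, p ∈ l → p.Prime ∧ p ≤ R := fun hl _ hp =>
    prime_BT (mem_filter.1 hl).1 hp
  have hR1 : (1 : ℝ) < R := by exact_mod_cast hR
  have hφ : (0 : ℝ) < a.totient := by exact_mod_cast Nat.totient_pos.2 ha
  have hlog : a.totient * log R ≤ a * G := by
    have h1 : log R ≤ ∑ l ∈ L_BT R, ∏ p ∈ l, g p := by
      refine (log_le_log (by linarith) (by push_cast; linarith)).trans ((G_BT R).trans_eq ?_)
      exact sum_congr rfl fun l hl => prod_congr rfl fun p hp => (hg p (prime_BT hl hp).1).symm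
    have h2 := mul_le_mul_of_nonneg_left (h1.trans (split_BT (fun p => le_sup_right) R ha.ne'))
      hφ.le
    rwa [← mul_assoc, prod_congr rfl fun q hq => congrArg (1 + ·)
      (hg q (Nat.prime_of_mem_primeFactors hq)), tot_BT] at h2
  have hl0 := mul_pos hφ (log_pos hR1)
  have hG0 : 0 < G := (pos_iff_pos_of_mul_pos (hl0.trans_le hlog)).1 (Nat.cast_pos.2 ha)
  have hmain := main_BT (P := (Icc 1 R).filter Nat.Prime) (ν := fun p => (p : ℝ)⁻¹) (g := g)
    (L := L) (fun p hp => by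
      have h1 := (mem_filter.1 hp).2
      have h2 : (1 : ℝ) < p := by exact_mod_cast h1.one_lt
      have h3 : (p : ℝ) - 1 ≠ 0 := by linarith
      rw [hg p h1]
      field_simp) (fun l hl => mem_powerset.1 (mem_filter.1 (mem_filter.1 hl).1).1) downd_BT
  have habs := abs_BT (g := g) (fun p => le_sup_right) (downd_BT (R := R) (a := a))
  let F : ℕ → ℝ := fun m => ∑ d ∈ L, lam_BT g L d * if ∏ p ∈ d, p ∣ m then 1 else 0
  set S := (range h).filter fun i => (a * i + b).Prime ∧ R < a * i + b with hS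
  have hF : ∀ i ∈ S, F (a * i + b) * F (a * i + b) = G * G := by
    intro i hi
    obtain ⟨h2, h3⟩ := (mem_filter.1 hi).2
    have h4 : F (a * i + b) = G := by
      have h5 := exp_BT (g := g) (downd_BT (R := R) (a := a)) ∅
      simp only [h_BT, notMem_empty, if_false] at h5
      rw [hG, hLd, h5]
      refine sum_congr rfl fun d hd => ?_
      congr 2
      refine propext ⟨fun h6 p hp' => ?_, fun h6 => by simp [subset_empty.1 h6]⟩
      have h7 := hp hd hp'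
      have h8 := (Nat.prime_dvd_prime_iff_eq h7.1 h2).1 ((dvd_prod_of_mem _ hp').trans h6)
      omega
    rw [h4]
  have hu : ∀ d ∈ L, ∀ e ∈ L, ∀ p ∈ d ∪ e, p.Prime ∧ ¬ p ∣ a := fun d hd e he p hp' =>
    (mem_union.1 hp').elim (fun h2 => ⟨(hp hd h2).1, (mem_filter.1 hd).2 p h2⟩)
      fun h2 => ⟨(hp he h2).1, (mem_filter.1 he).2 p h2⟩
  have hdvd : ∀ d ∈ L, ∀ e ∈ L, ∀ m : ℕ,
      (∏ p ∈ d ∪ e, p ∣ m ↔ ∏ p ∈ d, p ∣ m ∧ ∏ p ∈ e, p ∣ m) := by
    intro d hd e he m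
    refine ⟨fun h1 => ⟨(prod_dvd_prod_of_subset _ _ _ subset_union_left).trans h1,
      (prod_dvd_prod_of_subset _ _ _ subset_union_right).trans h1⟩, fun h1 => ?_⟩
    refine prod_primes_dvd m (fun p hp' => (hu d hd e he p hp').1.prime) fun p hp' => ?_
    rcases mem_union.1 hp' with h2 | h2
    · exact (dvd_prod_of_mem _ h2).trans h1.1
    · exact (dvd_prod_of_mem _ h2).trans h1.2
  have h1 : ∑ i ∈ range h, F (a * i + b) * F (a * i + b) = ∑ d ∈ L, ∑ e ∈ L,
      lam_BT g L d * lam_BT g L e *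
        ∑ i ∈ range h, if ∏ p ∈ d ∪ e, p ∣ a * i + b then (1 : ℝ) else 0 := by
    simp only [F, sum_mul_sum]
    simp only [mul_sum]
    rw [sum_comm]
    refine sum_congr rfl fun d hd => ?_
    rw [sum_comm]
    refine sum_congr rfl fun e he => sum_congr rfl fun m _ => ?_
    simp only [hdvd d hd e he]
    by_cases h2 : ∏ p ∈ d, p ∣ a * m + b <;> by_cases h3 : ∏ p ∈ e, p ∣ a * m + b <;>
      simp [h2, h3]
  have h2 : ∑ i ∈ range h, F (a * i + b) * F (a * i + b) ≤ h * G + (R : ℝ) ^ 2 * (G * G) := by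
    have h3 : (L.card : ℝ) ≤ R := by exact_mod_cast (card_filter_le _ _).trans (card_BT R)
    have h4 : ∑ d ∈ L, ∑ e ∈ L, G * G ≤ (R : ℝ) ^ 2 * (G * G) := by
      rw [sum_const, sum_const, nsmul_eq_mul, nsmul_eq_mul, ← mul_assoc, ← sq]
      exact mul_le_mul_of_nonneg_right (pow_le_pow_left₀ (Nat.cast_nonneg _) h3 2)
        (mul_self_nonneg G)
    refine le_trans ?_ (add_le_add_right h4 _)
    rw [h1]
    conv_rhs => rw [show h * G = h * _ from congrArg _ hmain.symm]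
    simp only [mul_sum (a := (h : ℝ)), ← sum_add_distrib]
    refine sum_le_sum fun d hd => sum_le_sum fun e he => ?_
    have h5 := cntb_BT3 h b (a := a) (q := ∏ p ∈ d ∪ e, p)
      (prod_pos fun p hp' => (hu d hd e he p hp').1.pos)
      (Nat.Coprime.prod_right fun p hp' =>
        (((hu d hd e he p hp').1.coprime_iff_not_dvd).2 (hu d hd e he p hp').2).symm)
    rw [Nat.cast_prod, ← prod_inv_distrib] at h5
    have h6 : |lam_BT g L d * lam_BT g L e| ≤ G * G := by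
      rw [abs_mul]
      exact mul_le_mul (habs d) (habs e) (abs_nonneg _) hG0.le
    have h7 := (le_abs_self _).trans ((abs_mul _ _).trans_le
      (mul_le_mul h6 h5 (abs_nonneg _) (mul_self_nonneg G)))
    linarith
  have h3 : (S.card : ℝ) * (G * G) ≤ ∑ i ∈ range h, F (a * i + b) * F (a * i + b) := by
    rw [← nsmul_eq_mul, ← sum_const, ← sum_congr rfl hF]
    exact sum_le_sum_of_subset_of_nonneg (filter_subset _ _) fun m _ _ => mul_self_nonneg _
  have h4 : h * G ≤ y / (a.totient * log R) * (G * G) := by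
    rw [div_mul_eq_mul_div, le_div_iff₀ hl0]
    calc h * G * (a.totient * log R) ≤ h * G * (a * G) :=
          mul_le_mul_of_nonneg_left hlog (mul_nonneg (Nat.cast_nonneg _) hG0.le)
      _ = h * a * (G * G) := by ring
      _ ≤ _ := mul_le_mul_of_nonneg_right h6 (mul_self_nonneg G)
  refine le_of_mul_le_mul_right ?_ (mul_pos hG0 hG0)
  rw [add_mul]
  linarith

end

theorem sBT3 : StBT3 := by
  intro d a R N hd hR hN
  have h5 : (2 * N / d - N / d + 1) * d ≤ N + 2 * d := by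
    have h1 := Nat.div_mul_le_self (2 * N) d
    have h2 := Nat.lt_div_mul_add (a := N) hd
    rw [add_mul, Nat.sub_mul]
    omega
  refine le_trans (Nat.cast_le.2 ?_) (gen_BT3 d (d * (N / d) + a % d) R (2 * N / d - N / d + 1)
    (N + 2 * d) hd hR (by exact_mod_cast h5))
  refine (card_le_card fun p hp' => ?_).trans
    (card_image_le (f := fun i => d * i + (d * (N / d) + a % d)))
  obtain ⟨h6, h7, h8⟩ := mem_filter.1 hp'
  obtain ⟨h9, h10⟩ := mem_Ioc.1 h6
  have h11 : N / d ≤ p / d := Nat.div_le_div_right h9.le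
  have h12 : p / d ≤ 2 * N / d := Nat.div_le_div_right h10
  have e : d * (p / d - N / d) + (d * (N / d) + a % d) = p := by
    rw [← show p % d = a % d from h8, ← add_assoc, ← mul_add, Nat.sub_add_cancel h11]
    exact Nat.div_add_mod p d
  exact mem_image.2 ⟨p / d - N / d, mem_filter.2 ⟨mem_range.2 (by omega),
    by rw [e]; exact ⟨h7, by omega⟩⟩, e⟩

end Pool.Agent.MP_2876a2_nt.Tu.V

end

noncomputable section
open Finset Filter
open scoped Pointwise


namespace Pool.Agent.MP_2876a2_nt.Tu.V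

theorem eta_Rc {r ε : ℝ} (hr : 0 ≤ r) (hε : 0 < ε) :
    ∃ η : ℝ, 0 < η ∧ (1 + η) * (r + η) ≤ r + ε := by
  refine ⟨min 1 (ε / (r + 2)), by positivity, ?_⟩
  have a := min_le_left 1 (ε / (r + 2))
  have b := (le_div_iff₀ (by positivity)).1 (min_le_right 1 (ε / (r + 2)))
  have c : 0 < min 1 (ε / (r + 2)) := by positivity
  nlinarith

theorem sRc (hM : StMer) : StRc := by
  intro u w ε hu huw hε
  obtain ⟨C, hC, hM⟩ := hM
  obtain ⟨η, h0, hη⟩ := eta_Rc (div_nonneg (sub_nonneg.2 huw) hu.le) hε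
  have t1 := (tendsto_rpow_atTop hu).comp (tendsto_natCast_atTop_atTop (R := ℝ))
  have t2 := Real.tendsto_log_atTop.comp (tendsto_natCast_atTop_atTop (R := ℝ))
  filter_upwards [t1.eventually_ge_atTop (1 + 1 / η),
    t2.eventually_ge_atTop ((Real.log 2 + 2 * C) / (u * η)), eventually_ge_atTop 2] with N h1 h2 h3
  simp only [Function.comp] at h1 h2
  have N1 : (1 : ℝ) < N := by exact_mod_cast h3
  have N0 : (0 : ℝ) < N := by linarith
  have L := Real.log_pos N1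
  have uL := mul_pos hu L
  have X1 : (1 : ℝ) ≤ (N : ℝ) ^ u := Real.one_le_rpow N1.le hu.le
  have a1 : 1 ≤ pw N u := Nat.le_floor (by simpa using X1)
  have ab : pw N u ≤ pw N w := Nat.floor_le_floor (Real.rpow_le_rpow_of_exponent_le N1.le huw)
  have xa : (N : ℝ) ^ u < pw N u + 1 := Nat.lt_floor_add_one _
  have one : ∀ l ∈ (Ioc (pw N u) (pw N w)).filter Nat.Prime,
      1 / ((l : ℝ) - 1) ≤ (1 + η) / (u * Real.log N) * (La l / l) := fun l hl => by
    obtain ⟨hl, hp⟩ := mem_filter.1 hl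
    have b : (N : ℝ) ^ u ≤ l := xa.le.trans (by exact_mod_cast (mem_Ioc.1 hl).1)
    have l2 : (2 : ℝ) ≤ l := by exact_mod_cast hp.two_le
    have c : u * Real.log N ≤ Real.log l := by
      rw [← Real.log_rpow N0]
      exact Real.log_le_log (by positivity) b
    have d : 1 + η ≤ η * l := by
      have := mul_le_mul_of_nonneg_left (h1.trans b) h0.le
      rwa [mul_add, mul_one_div_cancel h0.ne', mul_one, add_comm] at this
    rw [La, ArithmeticFunction.vonMangoldt_apply_prime hp]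
    calc 1 / ((l : ℝ) - 1) ≤ (1 + η) / l := by
          rw [div_le_div_iff₀ (by linarith) (by linarith)]
          linarith
      _ = (1 + η) / (u * Real.log N) * (u * Real.log N / l) := by field_simp
      _ ≤ _ := by gcongr
  have two : ∑ d ∈ Ioc (pw N u) (pw N w), La d / d ≤ (w - u) * Real.log N + (Real.log 2 + 2 * C) := by
    have e := sum_Ioc_consecutive (fun d : ℕ => La d / d) (Nat.zero_le (pw N u)) ab
    have p := (hM _ a1).1
    have q := (hM _ (a1.trans ab)).2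
    rw [show ∀ n : ℕ, Icc 1 n = Ioc 0 n from fun n => rfl] at p q
    have a0 : (1 : ℝ) ≤ pw N u := by exact_mod_cast a1
    have b : Real.log (pw N w) ≤ w * Real.log N := by
      rw [← Real.log_rpow N0]
      exact Real.log_le_log (by exact_mod_cast a1.trans ab) (Nat.floor_le (by positivity))
    have a : u * Real.log N ≤ Real.log 2 + Real.log (pw N u) := by
      rw [← Real.log_rpow N0, ← Real.log_mul two_ne_zero (by positivity)]
      exact Real.log_le_log (by positivity) (by linarith)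
    linarith
  refine (sum_le_sum one).trans ?_
  rw [← mul_sum]
  have three := (sum_le_sum_of_subset_of_nonneg (filter_subset Nat.Prime (Ioc (pw N u) (pw N w)))
    (f := fun d : ℕ => La d / d) fun d _ _ =>
      div_nonneg ArithmeticFunction.vonMangoldt_nonneg (Nat.cast_nonneg d)).trans two
  rw [div_le_iff₀ (mul_pos hu h0)] at h2
  refine (mul_le_mul_of_nonneg_left (three.trans (add_le_add le_rfl h2))
    (by positivity)).trans (le_of_eq_of_le ?_ hη)
  field_simp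

end Pool.Agent.MP_2876a2_nt.Tu.V

end

noncomputable section
open Finset Filter
open scoped Pointwise


namespace Pool.Agent.MP_2876a2_nt.Tu.V

open Pool.Agent.MP_43e117_nt.PG in
theorem sum_th_PBV (I : Finset ℕ) (P : ℕ → Prop) [DecidablePred P] :
    ∑ n ∈ I.filter P, th n = ∑ p ∈ (I.filter Nat.Prime).filter P, Real.log p := by
  rw [filter_comm, sum_filter (p := Nat.Prime)]
  rfl

theorem dvd_iff_PBV {d : ℕ} (hd : 1 ≤ d) (n : ℕ) : n ≡ d - 1 [MOD d] ↔ d ∣ n + 1 := by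
  constructor
  · intro h
    have h2 : n + 1 ≡ d - 1 + 1 [MOD d] := h.add_right 1
    rw [Nat.sub_add_cancel hd] at h2
    exact (Nat.modEq_zero_iff_dvd.1 (h2.trans (Nat.modEq_zero_iff_dvd.2 dvd_rfl)))
  · intro h
    apply Nat.ModEq.add_right_cancel' 1
    rw [Nat.sub_add_cancel hd]
    exact (Nat.modEq_zero_iff_dvd.2 h).trans (Nat.modEq_zero_iff_dvd.2 dvd_rfl).symm

theorem cop_PBV {d : ℕ} (hd : 1 ≤ d) : (d - 1).Coprime d := by
  obtain ⟨e, rfl⟩ : ∃ e, d = e + 1 := ⟨d - 1, by omega⟩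
  simp

theorem TH_nonneg_PBV (S : Finset ℕ) : 0 ≤ TH S :=
  sum_nonneg fun p _ => Real.log_natCast_nonneg p

open Pool.Agent.MP_43e117_nt.PG in
theorem inner_PBV {N G ρ d a : ℕ} (hG : 0 < G) (hp : d.Prime) (hc : d.Coprime G) (hdN : G * d ≤ N)
    (ha : a ≡ ρ [MOD G]) (ha' : a ≡ d - 1 [MOD d]) {e : ℝ}
    (h : |Dl th (Ioc N (2 * N)) (G * d) a| ≤ e) :
    TH ((PA N G ρ).filter fun p => d ∣ p + 1) ≤
      TH (PN N) / G.totient * (1 / ((d : ℝ) - 1)) + e := by
  have hd := hp.one_le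
  have h1 : ∑ n ∈ (Ioc N (2 * N)).filter (fun n => n ≡ a [MOD G * d]), th n =
      ∑ p ∈ (PA N G ρ).filter (fun p => d ∣ p + 1), Real.log p := by
    rw [sum_th_PBV]
    refine sum_congr ?_ fun _ _ => rfl
    ext n
    rw [PA, PN, mem_filter, mem_filter (s := filter _ (filter _ _)),
      mem_filter (s := filter _ (Ioc _ _)), and_assoc,
      ← Nat.modEq_and_modEq_iff_modEq_mul hc.symm, ← dvd_iff_PBV hd n]
    exact and_congr_right fun _ => ⟨fun h => ⟨h.1.trans ha, h.2.trans ha'⟩,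
      fun h => ⟨h.1.trans ha.symm, h.2.trans ha'.symm⟩⟩
  have h2 : ∑ n ∈ (Ioc N (2 * N)).filter (fun n => n.Coprime (G * d)), th n = TH (PN N) := by
    rw [sum_th_PBV]
    unfold TH
    refine sum_congr ?_ fun _ _ => rfl
    refine filter_true_of_mem fun p hp => ?_
    rw [mem_filter, mem_Ioc] at hp
    rw [hp.2.coprime_iff_not_dvd]
    intro hh
    have := Nat.le_of_dvd (Nat.mul_pos hG hd) hh
    omega
  unfold Dl at h
  rw [h1, h2, Nat.totient_mul hc.symm, Nat.cast_mul, ← div_div, Nat.totient_prime hp,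
    Nat.cast_sub hd, Nat.cast_one] at h
  have h3 := (abs_le.1 h).2
  rw [mul_one_div, TH]
  linarith

theorem sPBV (hBV : Pool.Agent.MP_43e117_nt.PG.StBV) (hT : StTh) (hR : StRc) : StPBV := by
  intro G ρ u w ε hG hρ hu huw hw hε
  have hk : 0 ≤ (w - u) / u := div_nonneg (by linarith) hu.le
  obtain ⟨η, η0, η1, η2⟩ : ∃ η : ℝ, 0 < η ∧ η ≤ 1 ∧ η * ((w - u) / u + 2) ≤ ε / 3 :=
    ⟨min 1 (ε / 3 / ((w - u) / u + 2)), lt_min one_pos (by positivity), min_le_left _ _,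
      (le_div_iff₀ (by positivity)).1 (min_le_right _ _)⟩
  have hφ : (0 : ℝ) < G.totient := by exact_mod_cast Nat.totient_pos.2 hG
  have hev : ∀ x : ℝ, 0 < x → ∀ᶠ N : ℕ in atTop, (G : ℝ) ≤ (N : ℝ) ^ x := fun x hx =>
    ((tendsto_rpow_atTop hx).comp tendsto_natCast_atTop_atTop).eventually_ge_atTop _
  have hlg : ∀ᶠ N : ℕ in atTop, 3 * G.totient / ε ≤ Real.log N :=
    (Real.tendsto_log_atTop.comp tendsto_natCast_atTop_atTop).eventually_ge_atTop _
  filter_upwards [hBV ((1 / 2 - w) / 2) 1 0 (by linarith) (by linarith), eventually_ge_atTop 2,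
    hev ((1 / 2 - w) / 2) (by linarith), hev u hu, hlg, hT 1 0 one_pos (Nat.coprime_one_right 0) η η0,
    hR u w η hu huw η0] with N hN h2 hGN hGu hlN hTN hRN
  obtain ⟨E, hE0, hE, hs⟩ := hN N (2 * N) le_rfl (by omega) le_rfl
  have hN1 : (1 : ℝ) ≤ N := by exact_mod_cast (by omega : 1 ≤ N)
  have hN2 : (1 : ℝ) < N := by exact_mod_cast (by omega : 1 < N)
  have hL : 0 < Real.log N := Real.log_pos hN2
  have hxN : (N : ℝ) ^ (1 / 2 - (1 / 2 - w) / 2) ≤ N := by
    calc (N : ℝ) ^ (1 / 2 - (1 / 2 - w) / 2) ≤ (N : ℝ) ^ (1 : ℝ) :=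
          Real.rpow_le_rpow_of_exponent_le hN1 (by linarith)
      _ = N := Real.rpow_one _
  have hlev : ∀ d ∈ (Ioc (pw N u) (pw N w)).filter Nat.Prime,
      ((G * d : ℕ) : ℝ) ≤ (N : ℝ) ^ (1 / 2 - (1 / 2 - w) / 2) := fun d hd => by
    have hd2 : (d : ℝ) ≤ pw N w := by exact_mod_cast (mem_Ioc.1 (mem_filter.1 hd).1).2
    rw [show (1 / 2 - (1 / 2 - w) / 2 : ℝ) = (1 / 2 - w) / 2 + w by ring,
      Real.rpow_add (by positivity), Nat.cast_mul]
    exact mul_le_mul hGN (hd2.trans (Nat.floor_le (by positivity))) (Nat.cast_nonneg _)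
      (by positivity)
  have hs' : ∑ d ∈ (Ioc (pw N u) (pw N w)).filter Nat.Prime, E (G * d) ≤ N / Real.log N := by
    have hs2 : ∑ q ∈ Icc 1 ⌊(N : ℝ) ^ (1 / 2 - (1 / 2 - w) / 2)⌋₊, E q ≤ N / Real.log N := by
      simpa only [pow_zero, one_mul, pow_one] using hs
    rw [← sum_image (f := E) fun _ _ _ _ h => Nat.eq_of_mul_eq_mul_left hG h]
    refine le_trans (sum_le_sum_of_subset_of_nonneg (fun q hq => ?_) fun q _ _ => hE0 q) hs2
    obtain ⟨d, hd, rfl⟩ := mem_image.1 hq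
    exact mem_Icc.2 ⟨Nat.mul_pos hG (mem_filter.1 hd).2.pos, Nat.le_floor (hlev d hd)⟩
  have key : ∀ d ∈ (Ioc (pw N u) (pw N w)).filter Nat.Prime,
      TH ((PA N G ρ).filter fun p => d ∣ p + 1) ≤
        TH (PN N) / G.totient * (1 / ((d : ℝ) - 1)) + E (G * d) := by
    intro d hd
    have hdx := hlev d hd
    rw [mem_filter, mem_Ioc] at hd
    have hdN : G * d ≤ N := by exact_mod_cast hdx.trans hxN
    have hGd : G < d := (Nat.le_floor hGu).trans_lt hd.1.1
    have hc : d.Coprime G := hd.2.coprime_iff_not_dvd.2 (Nat.not_dvd_of_pos_of_lt hG hGd)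
    obtain ⟨a, ha, ha'⟩ := Nat.chineseRemainder hc.symm ρ (d - 1)
    have hco : a.Coprime (G * d) := Nat.Coprime.mul_right
      (by rw [Nat.Coprime, ha.gcd_eq]; exact hρ)
      (by rw [Nat.Coprime, ha'.gcd_eq]; exact cop_PBV hd.2.one_le)
    exact inner_PBV hG hd.2 hc hdN ha ha' (hE (G * d) a (Nat.mul_pos hG hd.2.pos) hdx hco)
  refine (sum_le_sum key).trans ?_
  rw [sum_add_distrib, ← mul_sum]
  rw [PA_one, Nat.totient_one, Nat.cast_one, div_one] at hTN
  have a1 : TH (PN N) / G.totient ≤ N / G.totient * (1 + η) := by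
    rw [div_mul_eq_mul_div]
    exact div_le_div_of_nonneg_right (by linarith [(abs_le.1 hTN).2]) hφ.le
  have a2 : (N : ℝ) / Real.log N ≤ N / G.totient * (ε / 3) := by
    rw [div_le_iff₀ hε] at hlN
    rw [div_mul_div_comm, div_le_div_iff₀ hL (by positivity)]
    nlinarith
  have a3 := mul_le_mul_of_nonneg_left hRN (div_nonneg (TH_nonneg_PBV (PN N)) hφ.le)
  have a4 := mul_le_mul_of_nonneg_right a1 (add_nonneg hk η0.le)
  have a5 : (1 + η) * ((w - u) / u + η) + ε / 3 ≤ (w - u) / u + ε := by nlinarith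
  have a6 := mul_le_mul_of_nonneg_left a5 (div_nonneg (Nat.cast_nonneg N) hφ.le)
  linarith

end Pool.Agent.MP_2876a2_nt.Tu.V

end

noncomputable section
open Finset Filter
open scoped Pointwise


namespace Pool.Agent.MP_2876a2_nt.Tu.V

theorem floor_PBT {y : ℝ} (hy : 1 ≤ y) : Real.log y - 1 ≤ Real.log (⌊y⌋₊ : ℕ) := by
  have h1 : (1 : ℝ) ≤ (⌊y⌋₊ : ℕ) := by exact_mod_cast Nat.le_floor (by simpa using hy)
  have h2 := Nat.lt_floor_add_one y
  have h3 : Real.log y ≤ Real.log (2 * (⌊y⌋₊ : ℕ)) :=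
    Real.log_le_log (by linarith) (by linarith)
  rw [Real.log_mul (by norm_num) (by linarith)] at h3
  have := Real.log_two_lt_d9
  linarith

theorem eta_PBT {c A ε : ℝ} (hc : 0 < c) (hε : 0 < ε) : ∃ η : ℝ, 0 < η ∧ η < c ∧
    (1 + η) * (1 / (c - η) + η) * (A + η) ≤ 1 / c * A + ε := by
  have h1 : ContinuousAt (fun η : ℝ => (1 + η) * (1 / (c - η) + η) * (A + η)) 0 := by
    have : c - 0 ≠ 0 := by linarith
    fun_prop (disch := assumption)
  have h2 := h1.eventually (gt_mem_nhds (a := 1 / c * A + ε) (by simp [hε]))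
  obtain ⟨η, h3, h4, h5⟩ := ((h2.filter_mono (nhdsWithin_le_nhds (s := Set.Ioi 0))).and
    (((gt_mem_nhds hc).filter_mono (nhdsWithin_le_nhds (s := Set.Ioi 0))).and
      self_mem_nhdsWithin)).exists
  exact ⟨η, h5, h4, h3.le⟩

theorem sPBT (hB : StBT3) (hR : StRc) : StPBT := by
  classical
  intro G ρ u w ε hG hu huw hw hε
  obtain ⟨φ, hφ⟩ : ∃ φ : ℝ, φ = G.totient := ⟨_, rfl⟩
  have φ0 : 0 < φ := by rw [hφ]; exact_mod_cast Nat.totient_pos.2 hG
  rw [← hφ]
  obtain ⟨η, η0, ηc, hη⟩ := eta_PBT (c := (1 - w) / 2) (A := (w - u) / u) (ε := ε / 2)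
    (by linarith) (by linarith)
  obtain ⟨b, hb⟩ : ∃ b : ℝ, b = (1 - w) / 2 - η := ⟨_, rfl⟩
  rw [← hb, one_div_div] at hη
  have b0 : 0 < b := by linarith
  have t0 : Tendsto (fun N : ℕ => (N : ℝ)) atTop atTop := tendsto_natCast_atTop_atTop
  have ev1 : ∀ᶠ N : ℕ in atTop, max 1 ((1 + 1 / b + η) / (η * b)) ≤ Real.log N :=
    (Real.tendsto_log_atTop.comp t0).eventually_ge_atTop _
  have ev2 : ∀ᶠ N : ℕ in atTop, (G : ℝ) ≤ (N : ℝ) ^ u :=
    ((tendsto_rpow_atTop hu).comp t0).eventually_ge_atTop _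
  have ev3 : ∀ᶠ N : ℕ in atTop, (2 : ℝ) ≤ (N : ℝ) ^ b :=
    ((tendsto_rpow_atTop b0).comp t0).eventually_ge_atTop _
  have ev4 : ∀ᶠ N : ℕ in atTop, ‖Real.log N‖ ≤ ε / (4 * φ) * ‖(N : ℝ) ^ (2 * η)‖ :=
    t0.eventually ((isLittleO_log_rpow_atTop (r := 2 * η) (by positivity)).def (by positivity))
  have ev5 : ∀ᶠ N : ℕ in atTop, 2 * (G : ℝ) / η ≤ (N : ℝ) ^ (1 - w) :=
    ((tendsto_rpow_atTop (by linarith)).comp t0).eventually_ge_atTop _
  filter_upwards [ev1, ev2, ev3, ev4, ev5, hR u w η hu huw η0, eventually_ge_atTop 1]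
    with N h1 h2 h3 h4 h5 sQ hN
  have N1 : (1 : ℝ) ≤ N := by exact_mod_cast hN
  have N0 : (0 : ℝ) < N := by linarith
  obtain ⟨L, hL⟩ : ∃ L : ℝ, L = Real.log N := ⟨_, rfl⟩
  obtain ⟨R, hR'⟩ : ∃ R : ℕ, R = ⌊(N : ℝ) ^ b⌋₊ := ⟨_, rfl⟩
  rw [← hL] at h1 h4
  have L1 : 1 ≤ L := (le_max_left _ _).trans h1
  have L2 : 1 + 1 / b + η ≤ L * (η * b) :=
    (div_le_iff₀ (by positivity)).1 ((le_max_right _ _).trans h1)
  rw [Real.norm_of_nonneg (by linarith), Real.norm_of_nonneg (by positivity)] at h4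
  have R2 : 2 ≤ R := by rw [hR']; exact Nat.le_floor (by simpa using h3)
  have Rle : (R : ℝ) ≤ (N : ℝ) ^ b := by rw [hR']; exact Nat.floor_le (by positivity)
  have RN : R ≤ N := by
    have : (N : ℝ) ^ b ≤ N := Real.rpow_le_self_of_one_le N1 (by linarith)
    exact_mod_cast Rle.trans this
  have logR : b * L - 1 ≤ Real.log R := by
    have := floor_PBT (y := (N : ℝ) ^ b) (by linarith)
    rwa [Real.log_rpow N0, ← hL, ← hR'] at this
  have r0 : 0 < Real.log R := Real.log_pos (by exact_mod_cast (show 1 < R by omega))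
  have rat : (L + 1) / Real.log R ≤ 1 / b + η := by
    rw [div_le_iff₀ r0]
    have a1 := mul_le_mul_of_nonneg_left logR (show 0 ≤ 1 / b + η by positivity)
    have a2 : (1 / b + η) * (b * L - 1) = L - 1 / b + L * (η * b) - η := by
      field_simp
      ring
    linarith
  have Ele : (pw N w : ℝ) ≤ (N : ℝ) ^ w := Nat.floor_le (by positivity)
  have GD : G ≤ pw N u := Nat.le_floor h2
  have GE : 2 * (G : ℝ) * (N : ℝ) ^ w ≤ η * N := by
    have a1 : (N : ℝ) ^ (1 - w) * (N : ℝ) ^ w = N := by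
      rw [← Real.rpow_add N0, sub_add_cancel, Real.rpow_one]
    have a2 := mul_le_mul_of_nonneg_right ((div_le_iff₀ η0).1 h5)
      (show 0 ≤ (N : ℝ) ^ w by positivity)
    rw [mul_right_comm ((N : ℝ) ^ (1 - w)), a1] at a2
    linarith
  unfold TL
  obtain ⟨Q, hQ⟩ : ∃ Q : Finset ℕ, Q = (Ioc (pw N u) (pw N w)).filter Nat.Prime := ⟨_, rfl⟩
  rw [← hQ] at sQ ⊢
  have mQ : ∀ l ∈ Q, l.Prime ∧ pw N u < l ∧ l ≤ pw N w := fun l hl => by
    rw [hQ, mem_filter, mem_Ioc] at hl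
    exact ⟨hl.2, hl.1.1, hl.1.2⟩
  have cQ : (Q.card : ℝ) ≤ (N : ℝ) ^ w := by
    refine le_trans ?_ Ele
    have : Q.card ≤ pw N w := by
      rw [hQ]
      refine (card_filter_le _ _).trans ?_
      rw [Nat.card_Ioc]
      omega
    exact_mod_cast this
  have each : ∀ l ∈ Q, TH ((PA N G ρ).filter fun p => l ∣ p + 1) ≤
      N / φ * ((1 + η) * (1 / b + η)) * (1 / ((l : ℝ) - 1)) + (R : ℝ) ^ 2 * (L + 1) := by
    intro l hl
    obtain ⟨lp, l1, l2⟩ := mQ l hl
    have co : G.Coprime l :=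
      ((Nat.coprime_of_lt_prime hG.ne' (by omega) lp)).symm
    obtain ⟨S, hS⟩ : ∃ S : Finset ℕ, S = (PA N G ρ).filter fun p => l ∣ p + 1 := ⟨_, rfl⟩
    rw [← hS]
    have mS : ∀ p ∈ S, ((N < p ∧ p ≤ 2 * N) ∧ p.Prime) ∧ p ≡ ρ [MOD G] ∧ l ∣ p + 1 :=
      fun p hp => by
        rw [hS, mem_filter, PA, mem_filter, PN, mem_filter, mem_Ioc] at hp
        exact ⟨hp.1.1, hp.1.2, hp.2⟩
    have s1 : TH S ≤ S.card * (L + 1) := by
      have := sum_le_card_nsmul S (fun p : ℕ => Real.log p) (L + 1) fun p hp => by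
        obtain ⟨⟨⟨a, b⟩, c⟩, -⟩ := mS p hp
        have p0 : (0 : ℝ) < p := by exact_mod_cast c.pos
        have p1 : (p : ℝ) ≤ 2 * N := by exact_mod_cast b
        have := Real.log_le_log p0 p1
        rw [Real.log_mul (by norm_num) N0.ne', ← hL] at this
        have := Real.log_two_lt_d9
        show Real.log p ≤ L + 1
        linarith
      rwa [nsmul_eq_mul] at this
    have s2 : (S.card : ℝ) ≤ (N + 2 * ((G * l : ℕ) : ℝ)) / (((G * l).totient : ℕ) * Real.log R) +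
        (R : ℝ) ^ 2 := by
      refine le_trans (Nat.cast_le.2 (card_le_card fun p hp => ?_))
        (hB (G * l) (Nat.chineseRemainder co ρ (l - 1)) R N (Nat.mul_pos hG lp.pos) R2 RN)
      obtain ⟨⟨p1, p2⟩, p3, p4⟩ := mS p hp
      refine mem_filter.2 ⟨mem_Ioc.2 p1, p2, Nat.chineseRemainder_modEq_unique co p3 ?_⟩
      refine Nat.ModEq.add_right_cancel' 1 ((Nat.modEq_zero_iff_dvd.2 p4).trans ?_)
      rw [Nat.sub_add_cancel lp.one_le]
      exact (Nat.modEq_zero_iff_dvd.2 dvd_rfl).symm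
    have a1 : (2 : ℝ) ≤ l := by exact_mod_cast lp.two_le
    have a2 : (0 : ℝ) < (l : ℝ) - 1 := by linarith
    have a3 : ((l.totient : ℕ) : ℝ) = l - 1 := by
      rw [Nat.totient_prime lp, Nat.cast_sub lp.one_le, Nat.cast_one]
    have a4 : (N : ℝ) + 2 * (G * l) ≤ N * (1 + η) := by
      have b1 : (l : ℝ) ≤ (N : ℝ) ^ w := le_trans (by exact_mod_cast l2) Ele
      have b2 := mul_le_mul_of_nonneg_left b1 (show (0 : ℝ) ≤ 2 * G by positivity)
      linarith
    rw [Nat.totient_mul co, Nat.cast_mul G.totient, a3, ← hφ, Nat.cast_mul] at s2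
    have a5 : ((N : ℝ) + 2 * (G * l)) / (φ * ((l : ℝ) - 1) * Real.log R) * (L + 1) =
        ((N : ℝ) + 2 * (G * l)) * ((L + 1) / Real.log R) / φ * (1 / ((l : ℝ) - 1)) := by
      field_simp
    have a6 : ((N : ℝ) + 2 * (G * l)) * ((L + 1) / Real.log R) / φ * (1 / ((l : ℝ) - 1)) ≤
        N * (1 + η) * (1 / b + η) / φ * (1 / ((l : ℝ) - 1)) := by
      gcongr
    have a7 := mul_le_mul_of_nonneg_right s2 (show 0 ≤ L + 1 by linarith)
    rw [add_mul, a5] at a7
    calc TH S ≤ N * (1 + η) * (1 / b + η) / φ * (1 / ((l : ℝ) - 1)) + (R : ℝ) ^ 2 * (L + 1) := by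
          linarith
      _ = _ := by ring
  have b2 := sum_le_sum each
  rw [sum_add_distrib, ← mul_sum, sum_const, nsmul_eq_mul] at b2
  have b3 : (Q.card : ℝ) * ((R : ℝ) ^ 2 * (L + 1)) ≤ N / φ * (ε / 2) := by
    have c1 : (N : ℝ) ^ w * (((N : ℝ) ^ b) ^ 2 * (N : ℝ) ^ (2 * η)) = N := by
      rw [← Real.rpow_natCast, ← Real.rpow_mul N0.le, ← Real.rpow_add N0, ← Real.rpow_add N0,
        show w + (b * ((2 : ℕ) : ℝ) + 2 * η) = 1 by rw [hb]; push_cast; ring, Real.rpow_one]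
    calc (Q.card : ℝ) * ((R : ℝ) ^ 2 * (L + 1))
        ≤ (N : ℝ) ^ w * (((N : ℝ) ^ b) ^ 2 * (2 * (ε / (4 * φ) * (N : ℝ) ^ (2 * η)))) := by
          gcongr
          linarith
      _ = (N : ℝ) ^ w * (((N : ℝ) ^ b) ^ 2 * (N : ℝ) ^ (2 * η)) / φ * (ε / 2) := by
          field_simp
          ring
      _ = _ := by rw [c1]
  have b4 := mul_le_mul_of_nonneg_left sQ
    (show 0 ≤ N / φ * ((1 + η) * (1 / b + η)) by positivity)
  have b5 := mul_le_mul_of_nonneg_left hη (show 0 ≤ (N : ℝ) / φ by positivity)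
  have b6 : N / φ * ((1 + η) * (1 / b + η)) * ((w - u) / u + η) =
      N / φ * ((1 + η) * (1 / b + η) * ((w - u) / u + η)) := by ring
  have b7 : N / φ * (2 / (1 - w) * ((w - u) / u) + ε) =
      N / φ * (2 / (1 - w) * ((w - u) / u) + ε / 2) + N / φ * (ε / 2) := by ring
  linarith

end Pool.Agent.MP_2876a2_nt.Tu.V

end

noncomputable section
/-! The numerical sum over the grid. -/


open Finset Filter
open scoped Pointwise


namespace Pool.Agent.MP_2876a2_nt.Tu.V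

/-- rational form of the grid -/
def grQ_Sum (i : ℕ) : ℚ := (455 + i) / 1000

/-- rational form of the weight -/
def wgQ_Sum (i : ℕ) : ℚ := if i < 44 then 1 else 2 / (1 - grQ_Sum (i + 1))

lemma gr_Sum (i : ℕ) : gr i = (grQ_Sum i : ℝ) := by
  unfold gr grQ_Sum; push_cast; rfl

lemma wg_Sum (i : ℕ) : wg i = (wgQ_Sum i : ℝ) := by
  unfold wg wgQ_Sum
  split_ifs
  · simp
  · rw [gr_Sum]; push_cast; rfl

lemma rat_Sum : (100 / 61 * (109 / 200) + ∑ i ∈ range 155, (1 - 100 / 61 * grQ_Sum i) *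
    (wgQ_Sum i * ((grQ_Sum (i + 1) - grQ_Sum i) / grQ_Sum i)) : ℚ) ≤ 9961 / 10000 := by
  decide +kernel

theorem sSum : StSum := by
  unfold StSum
  have h := (Rat.cast_le (K := ℝ)).2 rat_Sum
  simp only [gr_Sum, wg_Sum]
  push_cast at h
  exact h

end Pool.Agent.MP_2876a2_nt.Tu.V

end

noncomputable section
open Finset Filter
open scoped Pointwise


namespace Pool.Agent.MP_2876a2_nt.Tu.V

theorem sPc (h1 : StPBV) (h2 : StPBT) (h3 : StSum) : StPc := by
  intro G ρ hG hρ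
  have key : ∀ i ∈ range 155, ∀ᶠ N : ℕ in atTop, TL N G ρ (gr i) (gr (i + 1)) ≤
      N / G.totient * (wg i * ((gr (i + 1) - gr i) / gr i) + 1 / 1550000) := fun i hi => by
    have i0 : (0 : ℝ) ≤ i := i.cast_nonneg
    have a1 : 0 < gr i := by unfold gr; positivity
    have a2 : gr i ≤ gr (i + 1) := by unfold gr; push_cast; linarith
    unfold wg
    split_ifs with h
    · have : (i : ℝ) ≤ 43 := by exact_mod_cast Nat.lt_succ_iff.1 h
      rw [one_mul]
      exact h1 G ρ _ _ _ hG hρ a1 a2 (by unfold gr; push_cast; linarith) (by norm_num)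
    · have : (i : ℝ) < 155 := by exact_mod_cast mem_range.1 hi
      exact h2 G ρ _ _ _ hG a1 a2 (by unfold gr; push_cast; linarith) (by norm_num)
  filter_upwards [(eventually_all_finset _).2 key] with N hN
  have c0 : (0 : ℝ) ≤ N / G.totient := by positivity
  have s1 : ∑ i ∈ range 155, (1 - 100 / 61 * gr i) * TL N G ρ (gr i) (gr (i + 1)) ≤
      ∑ i ∈ range 155, N / G.totient * ((1 - 100 / 61 * gr i) *
        (wg i * ((gr (i + 1) - gr i) / gr i)) + 1 / 1550000) := sum_le_sum fun i hi => by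
    have i0 : (0 : ℝ) ≤ i := i.cast_nonneg
    have i1 : (i : ℝ) < 155 := by exact_mod_cast mem_range.1 hi
    have b0 : 0 ≤ 1 - 100 / 61 * gr i := by unfold gr; linarith
    have b1 : 0 ≤ 100 / 61 * gr i := by unfold gr; positivity
    refine (mul_le_mul_of_nonneg_left (hN i hi) b0).trans ?_
    rw [mul_left_comm]
    exact mul_le_mul_of_nonneg_left (by linarith) c0
  rw [← mul_sum, sum_add_distrib, sum_const, card_range, nsmul_eq_mul] at s1
  refine s1.trans (mul_le_mul_of_nonneg_left ?_ c0)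
  unfold StSum at h3
  push_cast
  linarith

end Pool.Agent.MP_2876a2_nt.Tu.V

end

noncomputable section
open Finset Filter
open scoped Pointwise


namespace Pool.Agent.MP_2876a2_nt.Tu.V

theorem sub_Ineq (n D : ℕ) (hn : n ≠ 0) :
    (Icc 1 D).filter (fun d => d ∣ n) ⊆ n.divisors := by
  intro d hd
  exact Nat.mem_divisors.2 ⟨(mem_filter.1 hd).2, hn⟩

theorem pt0_Ineq (n D : ℕ) (hn : n ≠ 0) :
    ∑ d ∈ (Icc 1 D).filter (fun d => d ∣ n), La d ≤ Real.log n := by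
  rw [← ArithmeticFunction.vonMangoldt_sum]
  exact sum_le_sum_of_subset_of_nonneg (sub_Ineq n D hn)
    fun _ _ _ => ArithmeticFunction.vonMangoldt_nonneg

theorem pt1_Ineq (n D l : ℕ) (hn : n ≠ 0) (hl : l.Prime) (hD : D < l) (hd : l ∣ n) :
    ∑ d ∈ (Icc 1 D).filter (fun d => d ∣ n), La d + Real.log l ≤ Real.log n := by
  have hnot : l ∉ (Icc 1 D).filter (fun d => d ∣ n) := by
    intro h
    have := (mem_Icc.1 (mem_filter.1 h).1).2
    omega
  have h1 : ∑ d ∈ insert l ((Icc 1 D).filter (fun d => d ∣ n)), La d ≤ Real.log n := by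
    rw [← ArithmeticFunction.vonMangoldt_sum]
    refine sum_le_sum_of_subset_of_nonneg ?_ fun _ _ _ => ArithmeticFunction.vonMangoldt_nonneg
    exact insert_subset (Nat.mem_divisors.2 ⟨hd, hn⟩) (sub_Ineq n D hn)
  rw [sum_insert hnot] at h1
  have h2 : La l = Real.log l := ArithmeticFunction.vonMangoldt_apply_prime hl
  linarith

theorem lg_Ineq (N l : ℕ) (a : ℝ) (hN : 1 ≤ N) (h : ⌊(N : ℝ) ^ a⌋₊ < l) :
    a * Real.log N ≤ Real.log l := by
  have hN' : (0 : ℝ) < N := by exact_mod_cast hN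
  have h1 : (N : ℝ) ^ a < l := by
    have h2 := Nat.lt_floor_add_one ((N : ℝ) ^ a)
    have h3 : ((⌊(N : ℝ) ^ a⌋₊ + 1 : ℕ) : ℝ) ≤ l := by exact_mod_cast h
    push_cast at h3
    linarith
  rw [← Real.log_rpow hN']
  exact Real.log_le_log (Real.rpow_pos_of_pos hN' a) h1.le

theorem wnn_Ineq {i : ℕ} (hi : i ∈ range 155) : 0 ≤ 1 - 100 / 61 * gr i := by
  have h : (i : ℝ) ≤ 155 := by exact_mod_cast (mem_range.1 hi).le
  unfold gr
  linarith

open Classical in
theorem key_Ineq (N n : ℕ) (hN : 2 ≤ N) (hn : n ≠ 0) :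
    (if ¬ Sm (Dz N) n then (1 : ℝ) else 0) ≤
      100 / 61 / Real.log N * (Real.log n - ∑ d ∈ (Icc 1 (Dz N)).filter (fun d => d ∣ n), La d) +
      ∑ i ∈ range 155, (1 - 100 / 61 * gr i) *
        ∑ l ∈ (Ioc (pw N (gr i)) (pw N (gr (i + 1)))).filter Nat.Prime,
          (if l ∣ n then (1 : ℝ) else 0) := by
  have hL : 0 < Real.log N := Real.log_pos (by exact_mod_cast hN)
  have hin : ∀ i, 0 ≤ ∑ l ∈ (Ioc (pw N (gr i)) (pw N (gr (i + 1)))).filter Nat.Prime,
      (if l ∣ n then (1 : ℝ) else 0) := fun i =>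
    sum_nonneg fun l _ => by split_ifs <;> norm_num
  have hT : ∀ i ∈ range 155, 0 ≤ (1 - 100 / 61 * gr i) *
      ∑ l ∈ (Ioc (pw N (gr i)) (pw N (gr (i + 1)))).filter Nat.Prime,
        (if l ∣ n then (1 : ℝ) else 0) := fun i hi => mul_nonneg (wnn_Ineq hi) (hin i)
  have hS0 := sum_nonneg hT
  have ha : 0 ≤ 100 / 61 / Real.log N := by positivity
  by_cases hS : Sm (Dz N) n
  · rw [if_neg (not_not.2 hS)]
    exact add_nonneg (mul_nonneg ha (sub_nonneg.2 (pt0_Ineq n (Dz N) hn))) hS0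
  · rw [if_pos hS]
    unfold Sm at hS
    push Not at hS
    obtain ⟨l, hl, hd, hD⟩ := hS
    have h1 := pt1_Ineq n (Dz N) l hn hl hD hd
    have big : ∀ u : ℝ, pw N u < l → 100 / 61 * u ≤ 100 / 61 / Real.log N *
        (Real.log n - ∑ d ∈ (Icc 1 (Dz N)).filter (fun d => d ∣ n), La d) := fun u hu => by
      have h2 := lg_Ineq N l u (by omega) hu
      calc 100 / 61 * u = 100 / 61 / Real.log N * (u * Real.log N) := by field_simp
        _ ≤ _ := mul_le_mul_of_nonneg_left (by linarith) ha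
    have e0 : pw N (gr 0) = Dz N := by
      unfold pw gr Dz
      norm_num
    by_cases hE : pw N (gr 155) < l
    · have h2 := big _ hE
      have e : 100 / 61 * gr 155 = 1 := by
        unfold gr
        norm_num
      linarith
    · have hex : ∃ i, l ≤ pw N (gr (i + 1)) := ⟨154, not_lt.1 hE⟩
      have i1 : Nat.find hex ≤ 154 := Nat.find_min' hex (not_lt.1 hE)
      have i2 := Nat.find_spec hex
      have i3 : pw N (gr (Nat.find hex)) < l := by
        rcases Nat.eq_zero_or_pos (Nat.find hex) with c | c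
        · rw [c, e0]
          exact hD
        · have := Nat.find_min hex (show Nat.find hex - 1 < Nat.find hex by omega)
          rw [Nat.sub_add_cancel c] at this
          exact not_le.1 this
      generalize Nat.find hex = i at i1 i2 i3
      have hi : i ∈ range 155 := mem_range.2 (by omega)
      have s1 := single_le_sum hT hi
      have s2 : (1 : ℝ) ≤ ∑ l ∈ (Ioc (pw N (gr i)) (pw N (gr (i + 1)))).filter Nat.Prime,
          (if l ∣ n then (1 : ℝ) else 0) := by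
        refine le_trans ?_ (single_le_sum (f := fun l => if l ∣ n then (1 : ℝ) else 0)
          (fun l _ => by split_ifs <;> norm_num) (mem_filter.2 ⟨mem_Ioc.2 ⟨i3, i2⟩, hl⟩))
        rw [if_pos hd]
      have s3 := mul_le_mul_of_nonneg_left s2 (wnn_Ineq hi)
      have s4 := big _ i3
      linarith

theorem th_Ineq (S : Finset ℕ) (Q : ℕ → Prop) [DecidablePred Q] :
    TH (S.filter Q) = ∑ p ∈ S, Real.log p * if Q p then (1 : ℝ) else 0 := by
  unfold TH
  rw [sum_filter]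
  exact sum_congr rfl fun p _ => by split_ifs <;> simp

theorem sIneq : StIneq := by
  classical
  intro N G ρ hN
  have e : ∑ i ∈ range 155, (1 - 100 / 61 * gr i) * TL N G ρ (gr i) (gr (i + 1)) =
      ∑ p ∈ PA N G ρ, Real.log p * ∑ i ∈ range 155, (1 - 100 / 61 * gr i) *
        ∑ l ∈ (Ioc (pw N (gr i)) (pw N (gr (i + 1)))).filter Nat.Prime,
          (if l ∣ p + 1 then (1 : ℝ) else 0) := by
    simp only [TL, th_Ineq, mul_sum]
    rw [sum_comm (s := PA N G ρ)]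
    refine sum_congr rfl fun i _ => ?_
    rw [sum_comm]
    refine sum_congr rfl fun p _ => sum_congr rfl fun l _ => ?_
    ring
  rw [e, th_Ineq, mul_sum, ← sum_add_distrib]
  refine sum_le_sum fun p _ => ?_
  have h := mul_le_mul_of_nonneg_left (key_Ineq N (p + 1) hN (by omega))
    (Real.log_natCast_nonneg p)
  push_cast at h
  refine le_trans (le_of_eq ?_) (h.trans (le_of_eq ?_))
  · congr
  · ring

end Pool.Agent.MP_2876a2_nt.Tu.V

end

noncomputable section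
open Finset Filter
open scoped Pointwise


namespace Pool.Agent.MP_2876a2_nt.Tu.V

theorem up_A3 (N p : ℕ) (hN : 1 ≤ N) (hp : p ∈ PN N) :
    Real.log ((p : ℝ) + 1) ≤ Real.log N + 2 := by
  have hN' : (1 : ℝ) ≤ N := by exact_mod_cast hN
  have hp2 : (p : ℝ) ≤ 2 * N := by exact_mod_cast (mem_Ioc.1 (mem_filter.1 hp).1).2
  have h2 : Real.log ((p : ℝ) + 1) ≤ Real.log (N * 3) :=
    Real.log_le_log (by positivity) (by linarith)
  rw [Real.log_mul (by linarith) (by norm_num)] at h2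
  have h3 : Real.log 3 ≤ 3 - 1 := Real.log_le_sub_one_of_pos (by norm_num)
  linarith

theorem card_A3 (N : ℕ) (hN : 2 ≤ N) (G : Finset ℕ) (hG : G ⊆ PN N) :
    TH G ≤ G.card * (2 * Real.log N) := by
  have hN' : (2 : ℝ) ≤ N := by exact_mod_cast hN
  unfold TH
  rw [← nsmul_eq_mul]
  refine sum_le_card_nsmul _ _ _ fun p hp => ?_
  have hp' := mem_Ioc.1 (mem_filter.1 (hG hp)).1
  have h1 : (p : ℝ) ≤ N * N := by
    have : (p : ℝ) ≤ 2 * N := by exact_mod_cast hp'.2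
    nlinarith
  have h0 : (0 : ℝ) < p := by
    have : 0 < p := by omega
    exact_mod_cast this
  have h2 := Real.log_le_log h0 h1
  rw [Real.log_mul (by linarith) (by linarith)] at h2
  linarith

theorem num_A3 (n L C T A g b c f S S2 P : ℝ) (hn : 0 ≤ n) (hL : 100000 * (|C| + 3) ≤ L)
    (hf : 100000 * f ≤ L) (hT : 99999 / 100000 * n ≤ T) (hA : A ≤ 100001 / 100000 * n)
    (hA' : 99999 / 100000 * n ≤ A) (hs : g + b = A) (hg : g ≤ c * (2 * L))
    (h1 : S ≤ A * (L + 2) - S2) (h2 : T * (91 / 200 * L - C) - f * n ≤ S2)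
    (h3 : b ≤ 100 / 61 / L * S + P) (h4 : P ≤ n * (9962 / 10000 - 100 / 61 * (109 / 200))) :
    n ≤ c * (1000 * L) := by
  have hC0 := abs_nonneg C
  have hC1 := le_abs_self C
  have hL0 : 0 < L := by linarith
  have h8 : 99999 / 100000 * n * (91 / 200 * L - |C|) ≤ T * (91 / 200 * L - C) :=
    mul_le_mul hT (by linarith) (by linarith) (by linarith)
  have h7 : A * (L + 2) ≤ 100001 / 100000 * n * (L + 2) :=
    mul_le_mul_of_nonneg_right hA (by linarith)
  have h11 : n * (100000 * (|C| + 3)) ≤ n * L := mul_le_mul_of_nonneg_left hL hn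
  have h12 : 0 ≤ n * |C| := mul_nonneg hn hC0
  have h15 : n * (100000 * f) ≤ n * L := mul_le_mul_of_nonneg_left hf hn
  have h16 := mul_nonneg hn hL0.le
  have h9 : S ≤ L * (n * (109 / 200 + 1 / 10000)) := by
    linarith only [h1, h2, h7, h8, h11, h12, h15, h16, hn]
  have h10 : 100 / 61 / L * S ≤ 100 / 61 * (n * (109 / 200 + 1 / 10000)) := by
    rw [div_mul_eq_mul_div, mul_div_assoc]
    exact mul_le_mul_of_nonneg_left ((div_le_iff₀' hL0).2 h9) (by norm_num)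
  linarith only [hs, hg, h3, h4, h10, hA', hn]

theorem sA3 (hT : StTh) (hL : StLo2) (hP : StPc) (hI : StIneq) : StA2 := by
  classical
  intro G ρ hG hc
  obtain ⟨C, hC⟩ := hL G ρ hG hc
  have hlog : Tendsto (fun N : ℕ => Real.log N) atTop atTop :=
    Real.tendsto_log_atTop.comp tendsto_natCast_atTop_atTop
  have hf0 : (0 : ℝ) < G.totient := by exact_mod_cast Nat.totient_pos.2 hG
  have hfG : (G.totient : ℝ) ≤ G := by exact_mod_cast Nat.totient_le G
  have hG0 : (0 : ℝ) < G := by exact_mod_cast hG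
  filter_upwards [hC, hP G ρ hG hc, hT G ρ hG hc (1 / (100000 * G.totient)) (by positivity),
    hT 1 0 one_pos (by simp) (1 / 100000) (by norm_num),
    hlog.eventually_ge_atTop (100000 * (|C| + 3)),
    hlog.eventually_ge_atTop (100000 * G.totient),
    eventually_ge_atTop 2] with N h1 h2 h3 h3' h4 h4' hN
  have hN' : (2 : ℝ) ≤ N := by exact_mod_cast hN
  have hsub : PA N G ρ ⊆ PN N := filter_subset _ _
  have h5 : ∑ p ∈ PA N G ρ, Real.log p * (Real.log (p + 1) -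
      ∑ d ∈ (Icc 1 (Dz N)).filter (fun d => d ∣ p + 1), La d) ≤ TH (PA N G ρ) * (Real.log N + 2) -
      ∑ p ∈ PA N G ρ, Real.log p * ∑ d ∈ (Icc 1 (Dz N)).filter (fun d => d ∣ p + 1), La d := by
    rw [TH, sum_mul, ← sum_sub_distrib]
    refine sum_le_sum fun p hp => ?_
    rw [← mul_sub]
    exact mul_le_mul_of_nonneg_left (sub_le_sub_right (up_A3 N p (by omega) (hsub hp)) _)
      (Real.log_natCast_nonneg p)
  have h6 := card_A3 N hN ((PA N G ρ).filter fun p => Sm (Dz N) (p + 1))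
    ((filter_subset _ _).trans hsub)
  have h7 : TH ((PA N G ρ).filter fun p => Sm (Dz N) (p + 1)) +
      TH ((PA N G ρ).filter fun p => ¬ Sm (Dz N) (p + 1)) = TH (PA N G ρ) :=
    sum_filter_add_sum_filter_not _ _ _
  rw [PA_one, Nat.totient_one, Nat.cast_one, div_one] at h3'
  have hC0 := abs_nonneg C
  have hL0 : 0 < Real.log N := by linarith
  have e1 : (N : ℝ) = G.totient * (N / G.totient) := by field_simp
  have e2 : 1 / (100000 * (G.totient : ℝ)) * N = 1 / 100000 * (N / G.totient) := by field_simp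
  have e3 : 99999 / 100000 * ((N : ℝ) / G.totient) ≤ TH (PN N) / G.totient := by
    rw [← mul_div_assoc]
    refine div_le_div_of_nonneg_right ?_ hf0.le
    linarith only [(abs_le.1 h3').1]
  rw [e2] at h3
  have h14 := num_A3 (N / G.totient) (Real.log N) C (TH (PN N) / G.totient) (TH (PA N G ρ)) _ _ _
    G.totient _ _ _ (by positivity) h4 h4' e3 (by linarith only [(abs_le.1 h3).2])
    (by linarith only [(abs_le.1 h3).1]) h7 h6 h5 (by
      rw [← e1]
      exact h1) (hI N G ρ hN) h2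
  rw [div_le_iff₀ (by positivity)]
  have e5 : (G.totient : ℝ) * (N / G.totient) ≤ G * (N / G.totient) :=
    mul_le_mul_of_nonneg_right hfG (by positivity)
  have e6 := mul_le_mul_of_nonneg_left h14 hG0.le
  linarith

end Pool.Agent.MP_2876a2_nt.Tu.V

end

noncomputable section
/-! The weight of a product of blocks. -/


open Finset Filter
open scoped Pointwise


namespace Pool.Agent.MP_2876a2_nt.Tu.V

theorem nonneg_Wt (n : ℕ) : 0 ≤ wt n := sum_nonneg fun _ _ => by positivity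

theorem mul_Wt (m n : ℕ) : wt (m * n) ≤ wt m * wt n := by
  unfold wt
  rw [Nat.divisors_mul, mul_def, sum_mul_sum, ← sum_product']
  refine (sum_image_le_of_nonneg fun _ _ => by positivity).trans (le_of_eq ?_)
  refine sum_congr rfl fun x _ => ?_
  rw [Nat.cast_mul, Real.sqrt_mul (Nat.cast_nonneg _), mul_inv]

theorem le_Wt (n : ℕ) : wt n ≤ n := by
  have h1 : wt n ≤ n.divisors.card • (1 : ℝ) := by
    refine sum_le_card_nsmul _ _ _ fun d hd => ?_
    have h : (1 : ℝ) ≤ d := by exact_mod_cast Nat.pos_of_mem_divisors hd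
    exact inv_le_one_of_one_le₀ (Real.one_le_sqrt.2 h)
  rw [nsmul_eq_mul, mul_one] at h1
  exact h1.trans (by exact_mod_cast Nat.card_divisors_le_self n)

theorem one_Wt : wt 1 = 1 := by simp [wt]

theorem prod_Wt (F : Finset ℕ) (hF : ∀ p ∈ F, p.Prime) :
    wt (∏ p ∈ F, p) ≤ Real.exp (∑ p ∈ F, (√(p : ℝ))⁻¹) := by
  induction F using Finset.induction_on with
  | empty => simp [one_Wt]
  | insert p F hp ih =>
    rw [prod_insert hp, sum_insert hp, Real.exp_add]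
    refine (mul_Wt _ _).trans (mul_le_mul ?_ (ih fun q hq => hF q (mem_insert_of_mem hq))
      (nonneg_Wt _) (Real.exp_pos _).le)
    have h := hF p (mem_insert_self _ _)
    unfold wt
    rw [h.sum_divisors]
    simpa using Real.add_one_le_exp (√(p : ℝ))⁻¹

theorem blk_Wt (b j : ℕ) (hb : Squarefree b) (hj : 0 < j) (h1 : ∀ p ∈ b.primeFactors, j ^ 5000 < p)
    (h2 : b.primeFactors.card ≤ j ^ 2275) : wt b ≤ Real.exp (1 / (j : ℝ) ^ 2) := by
  have h0 : (0 : ℝ) < j := by exact_mod_cast hj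
  have h := prod_Wt b.primeFactors fun p hp => Nat.prime_of_mem_primeFactors hp
  rw [Nat.prod_primeFactors_of_squarefree hb] at h
  refine h.trans (Real.exp_le_exp.2 ?_)
  obtain ⟨a, e1, e2⟩ : ∃ a : ℕ, 5000 = (a + 2) * 2 ∧ 2275 ≤ a := ⟨2498, by norm_num, by norm_num⟩
  have h2' : b.primeFactors.card ≤ j ^ a := h2.trans (Nat.pow_le_pow_right hj e2)
  rw [e1] at h1
  have h3 : ∑ p ∈ b.primeFactors, (√(p : ℝ))⁻¹ ≤
      b.primeFactors.card • ((j : ℝ) ^ (a + 2))⁻¹ := by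
    refine sum_le_card_nsmul _ _ _ fun p hp => ?_
    refine inv_anti₀ (by positivity) (Real.le_sqrt_of_sq_le ?_)
    rw [← pow_mul]
    exact_mod_cast (h1 p hp).le
  refine h3.trans ?_
  have h4 : (b.primeFactors.card : ℝ) ≤ (j : ℝ) ^ a := by exact_mod_cast h2'
  rw [nsmul_eq_mul]
  refine (mul_le_mul_of_nonneg_right h4 (by positivity)).trans (le_of_eq ?_)
  rw [pow_add]
  field_simp

theorem tel_Wt (x : ℝ) (hx : 2 ≤ x) (m : ℕ) :
    ∑ i ∈ range m, 1 / (x + i) ^ 2 ≤ 1 / (x - 1) - 1 / (x - 1 + m) := by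
  induction m with
  | zero => simp
  | succ m ih =>
    rw [sum_range_succ]
    have hm : (0 : ℝ) ≤ m := Nat.cast_nonneg m
    have h1 : 0 < x - 1 + m := by linarith
    have h2 : 0 < x + m := by linarith
    have h3 : 1 / (x + m) ^ 2 ≤ 1 / (x - 1 + m) - 1 / (x + m) := by
      rw [div_sub_div _ _ h1.ne' h2.ne', div_le_div_iff₀ (by positivity) (by positivity)]
      nlinarith
    have h4 : x - 1 + ((m + 1 : ℕ) : ℝ) = x + m := by
      push_cast
      ring
    rw [h4]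
    linarith

theorem tail_Wt (j0 : ℕ) (hj : 2 ≤ j0) (I : Finset ℕ) :
    ∑ t ∈ I, 1 / ((j0 + t : ℕ) : ℝ) ^ 2 ≤ 1 := by
  have hx : (2 : ℝ) ≤ (j0 : ℝ) := by exact_mod_cast hj
  have h1 : I ⊆ range (I.sup id + 1) := fun t ht =>
    mem_range.2 (Nat.lt_succ_of_le (le_sup (f := id) ht))
  refine (sum_le_sum_of_subset_of_nonneg h1 fun _ _ _ => by positivity).trans ?_
  have h2 := tel_Wt _ hx (I.sup id + 1)
  simp only [Nat.cast_add j0]
  refine h2.trans ?_
  generalize (j0 : ℝ) = x at hx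
  generalize I.sup id + 1 = m
  have hm : (0 : ℝ) ≤ m := Nat.cast_nonneg m
  have h4 : 0 ≤ 1 / (x - 1 + m) := by
    have : 0 < x - 1 + m := by linarith
    positivity
  have h5 : 1 / (x - 1) ≤ 1 := by
    rw [div_le_one (by linarith)]
    linarith
  linarith

theorem sWt : StWt := by
  refine ⟨mul_Wt, fun n => ⟨nonneg_Wt n, le_Wt n⟩, fun j0 B N s hj H I a ha => ?_⟩
  have key : wt a ≤ Real.exp (∑ t ∈ I, 1 / ((j0 + t : ℕ) : ℝ) ^ 2) := by
    induction I using Finset.induction_on generalizing a with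
    | empty =>
      rw [prod_empty] at ha
      rw [mem_one.1 ha, one_Wt, sum_empty, Real.exp_zero]
    | insert t I ht ih =>
      rw [prod_insert ht] at ha
      obtain ⟨b, hb, c, hc, rfl⟩ := mem_mul.1 ha
      rw [sum_insert ht, Real.exp_add]
      refine (mul_Wt _ _).trans (mul_le_mul ?_ (ih c hc) (nonneg_Wt _) (Real.exp_pos _).le)
      have hd := (H.blk t).dvd b hb
      exact blk_Wt b (j0 + t) ((H.blk t).sqf.squarefree_of_dvd hd) (by omega)
        (fun p hp => (H.prm t p (Nat.primeFactors_mono hd (H.blk t).sqf.ne_zero hp)).1)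
        (H.om t b hb)
  refine key.trans ((Real.exp_le_exp.2 (tail_Wt j0 hj I)).trans ?_)
  exact Real.exp_one_lt_three.le

end Pool.Agent.MP_2876a2_nt.Tu.V

end

noncomputable section
open Finset Filter
open scoped Pointwise


namespace Pool.Agent.MP_2876a2_nt.Tu.V

lemma ev_Num3 : ∀ᶠ Y : ℝ in atTop, 30 * (1 + Real.log Y) ≤ Y ^ (1 / 5000 : ℝ) := by
  have h1 := (isLittleO_log_rpow_atTop (show (0 : ℝ) < 1 / 5000 by norm_num)).bound
    (show (0 : ℝ) < 1 / 60 by norm_num)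
  have h2 := (tendsto_rpow_atTop (show (0 : ℝ) < 1 / 5000 by norm_num)).eventually_ge_atTop 60
  filter_upwards [h1, h2] with Y a b
  rw [Real.norm_of_nonneg (by linarith : (0 : ℝ) ≤ Y ^ (1 / 5000 : ℝ)), Real.norm_eq_abs] at a
  have := le_abs_self (Real.log Y)
  linarith

theorem sNum3 : StNum3 := by
  filter_upwards [ev_Num3, eventually_ge_atTop (1 : ℝ)] with Y h hY q Q Q' g q1 qY Q1 hQ Q0 hQ' g1
  have Y0 : 0 < Y := by linarith
  have lY : 0 ≤ Real.log Y := Real.log_nonneg hY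
  have lQ : Real.log Q ≤ 2 * Real.log Y := by
    have := Real.log_le_log (by linarith) hQ
    rw [Real.log_rpow Y0] at this
    linarith
  have lQ0 : 0 ≤ Real.log Q := Real.log_nonneg Q1
  have lq : Real.log q ≤ Real.log Y := Real.log_le_log (by linarith) qY
  have lq0 : 0 ≤ Real.log q := Real.log_nonneg q1
  have e1 : Y ^ (5001 / 5000 : ℝ) = Y * Y ^ (1 / 5000 : ℝ) := by
    rw [show (5001 / 5000 : ℝ) = 1 + 1 / 5000 by norm_num, Real.rpow_add Y0, Real.rpow_one]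
  have e4 : Y ^ (5003 / 5000 : ℝ) = Y * (Y ^ (1 / 5000 : ℝ)) ^ 3 := by
    rw [← Real.rpow_natCast, ← Real.rpow_mul Y0.le,
      show (5003 / 5000 : ℝ) = 1 + 1 / 5000 * (3 : ℕ) by norm_num, Real.rpow_add Y0, Real.rpow_one]
  rw [e1] at hQ hQ'
  rw [e4]
  generalize Y ^ (1 / 5000 : ℝ) = u at *
  set l := 1 + Real.log Y with hl
  have l1 : 1 ≤ l := by linarith
  have u1 : 1 ≤ u := by linarith
  have g0 : 0 ≤ g := by linarith
  have z2 : Y * u ≤ Y * u ^ 2 :=
    mul_le_mul_of_nonneg_left (le_self_pow₀ u1 (by norm_num)) Y0.le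
  have z1 : Y * u ≤ g * (Y * u ^ 2) := z2.trans (le_mul_of_one_le_left (by positivity) g1)
  have z0 : Y ≤ Y * u := le_mul_of_one_le_right Y0.le u1
  have Z0 : 0 ≤ g * (Y * u ^ 2) := by positivity
  have t1 : Q' ≤ g * (Y * u ^ 2) * l := (hQ'.trans z1).trans (le_mul_of_one_le_right Z0 l1)
  have t2 : 2 * (2 * Q + q) * (1 + Real.log q) ≤ 6 * (g * (Y * u ^ 2)) * l :=
    mul_le_mul (by linarith) (by linarith) (by linarith) (by positivity)
  have t3 : 3 * (1 + Real.log Q) * g * Q * Q' / Y ≤ 6 * (g * (Y * u ^ 2)) * l := by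
    rw [div_le_iff₀ Y0]
    calc 3 * (1 + Real.log Q) * g * Q * Q' ≤ 6 * l * g * (Y * u) * (Y * u) := by
          refine mul_le_mul (mul_le_mul (mul_le_mul_of_nonneg_right (by linarith) g0) hQ
            (by linarith) (by positivity)) hQ' Q0 (by positivity)
      _ = 6 * (g * (Y * u ^ 2)) * l * Y := by ring
  have t4 : g * (Y * u ^ 2) * (13 * l) ≤ g * (Y * u ^ 2) * u :=
    mul_le_mul_of_nonneg_left (by linarith) Z0
  calc _ ≤ g * (Y * u ^ 2) * (13 * l) := by linarith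
    _ ≤ g * (Y * u ^ 2) * u := t4
    _ = g * (Y * u ^ 3) := by ring

end Pool.Agent.MP_2876a2_nt.Tu.V

end

noncomputable section
open Finset Filter
open scoped Pointwise


namespace Pool.Agent.MP_2876a2_nt.Tu.V

theorem size_Bil3 {B B' : Finset ℕ} {N N' Q Q' : ℕ} {Y : ℝ} (hY : 1 ≤ Y) (h : Bk B N Q)
    (h' : Bk B' N' Q') (hQ : Y ^ (4999 / 5000 : ℝ) ≤ Q) (hQ' : 2 * Y ≤ Q') :
    Y ^ (10878 / 10000 : ℝ) ≤ (B.card : ℝ) * B'.card := by
  have hY0 : 0 < Y := lt_of_lt_of_le one_pos hY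
  have h1 : ((Q : ℝ)) ^ 544 ≤ (B.card : ℝ) ^ 1000 := by exact_mod_cast h.big
  have h2 : ((Q' : ℝ)) ^ 544 ≤ (B'.card : ℝ) ^ 1000 := by exact_mod_cast h'.big
  have h3 : ((Q : ℝ) * Q') ^ 544 ≤ ((B.card : ℝ) * B'.card) ^ 1000 := by
    rw [mul_pow, mul_pow]
    exact mul_le_mul h1 h2 (pow_nonneg (Nat.cast_nonneg _) _) (pow_nonneg (Nat.cast_nonneg _) _)
  have h4 : Y ^ (9999 / 5000 : ℝ) ≤ (Q : ℝ) * Q' := by
    have e : Y ^ (9999 / 5000 : ℝ) = Y ^ (4999 / 5000 : ℝ) * Y := by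
      rw [← Real.rpow_add_one hY0.ne']
      norm_num
    rw [e]
    exact mul_le_mul hQ (by linarith) hY0.le (Nat.cast_nonneg _)
  have h5 : (Y ^ (10878 / 10000 : ℝ)) ^ 1000 ≤ (Y ^ (9999 / 5000 : ℝ)) ^ 544 := by
    rw [← Real.rpow_natCast, ← Real.rpow_natCast, ← Real.rpow_mul hY0.le, ← Real.rpow_mul hY0.le]
    exact Real.rpow_le_rpow_of_exponent_le hY (by norm_num)
  have h6 : (Y ^ (9999 / 5000 : ℝ)) ^ 544 ≤ ((Q : ℝ) * Q') ^ 544 :=
    pow_le_pow_left₀ (by positivity) h4 _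
  exact le_of_pow_le_pow_left₀ (n := 1000) (by norm_num) (by positivity) (h5.trans (h6.trans h3))

theorem sBil3 (hC : StCS) (hH : StH) (hN : StNum3) : StBil3 := by
  unfold StBil3
  filter_upwards [hN, eventually_ge_atTop (1 : ℝ)] with Y hNY hY
  intro B B' N N' Q Q' m S q u β hB hB' hb hb' hq hu hm hS1 hS2 hqs hQ'1 hQ'2 hQ1 hQ2
  have hY0 : 0 < Y := lt_of_lt_of_le one_pos hY
  have h1 := hC B B' Q Q' ((u / q + β) * m) hb hb'
  have h2 := hH u q m Q Q' S β hq hu hm hB.s_pos hB'.s_pos hS1 hS2 (by rw [hqs]; exact hQ'1)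
  rw [hqs, Nat.gcd_comm m q] at h2
  have hqY : (q : ℝ) ≤ Y := by rw [← hqs]; exact le_qs S q β
  have hg : (1 : ℝ) ≤ ((Nat.gcd q m : ℕ) : ℝ) := by exact_mod_cast Nat.gcd_pos_of_pos_left m hq
  have h3 := hNY q Q Q' ((Nat.gcd q m : ℕ) : ℝ) (by exact_mod_cast hq) hqY
    (by exact_mod_cast hB.s_pos) hQ2 (Nat.cast_nonneg _) hQ'2 hg
  have hX := size_Bil3 hY hB hB' hQ1 hQ'1
  have hX0 : (0 : ℝ) ≤ (B.card : ℝ) * B'.card := by positivity
  have h4 := h1.trans (mul_le_mul_of_nonneg_left (h2.trans h3) hX0)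
  have h5 : Y ^ (5003 / 5000 : ℝ) =
      Y ^ (10878 / 10000 : ℝ) * (Y ^ (-(436 / 10000) : ℝ)) ^ 2 := by
    rw [← Real.rpow_natCast, ← Real.rpow_mul hY0.le, ← Real.rpow_add hY0]
    norm_num
  refine le_of_pow_le_pow_left₀ (n := 2) (by norm_num) (by positivity) (h4.trans ?_)
  rw [h5, mul_pow, mul_pow _ (√_), Real.sq_sqrt (Nat.cast_nonneg _)]
  have h6 : (0 : ℝ) ≤ (B.card : ℝ) * B'.card * ((Nat.gcd q m : ℕ) : ℝ) *
      (Y ^ (-(436 / 10000) : ℝ)) ^ 2 := by positivity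
  calc _ = (B.card : ℝ) * B'.card * ((Nat.gcd q m : ℕ) : ℝ) * (Y ^ (-(436 / 10000) : ℝ)) ^ 2 *
        Y ^ (10878 / 10000 : ℝ) := by ring
    _ ≤ _ := mul_le_mul_of_nonneg_left hX h6
    _ = _ := by ring

end Pool.Agent.MP_2876a2_nt.Tu.V

end

noncomputable section
open Finset Filter
open scoped Pointwise


namespace Pool.Agent.MP_2876a2_nt.Tu.V

theorem split_Dec3 {M : Type} [CommMonoid M] (f : ℕ → M) {a b c : ℕ} (h1 : a ≤ b) (h2 : b ≤ c) :
    ∏ i ∈ range c, f i = (∏ i ∈ Ico b c, f i) * ((∏ i ∈ Ico a b, f i) * ∏ i ∈ range a, f i) := by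
  rw [← prod_range_mul_prod_Ico f h2, ← prod_range_mul_prod_Ico f h1, mul_comm,
    mul_comm (∏ i ∈ range a, f i)]

theorem cop_Dec3 {N : ℕ → ℕ} (h : ∀ i i', i ≠ i' → (N i).Coprime (N i')) (I I' : Finset ℕ)
    (hd : ∀ i ∈ I, ∀ i' ∈ I', i ≠ i') : (∏ i ∈ I, N i).Coprime (∏ i ∈ I', N i) :=
  Nat.Coprime.prod_left fun i hi => Nat.Coprime.prod_right fun i' hi' => h i i' (hd i hi i' hi')

theorem qs_Dec3 {c D : ℕ} (H q : ℕ) (β : ℝ) (c0 : 0 < c) (cD : c ≤ D) :
    qs (c * H) q β ≤ qs (D * H) q β ∧ qs (D * H) q β ≤ D * qs (c * H) q β := by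
  have h1 : (1 : ℝ) ≤ c := by exact_mod_cast c0
  have h2 : (c : ℝ) ≤ D := by exact_mod_cast cD
  have h3 : (0 : ℝ) ≤ |β| * H := by positivity
  unfold qs
  push_cast
  constructor
  · refine mul_le_mul_of_nonneg_left (max_le_max le_rfl ?_) (Nat.cast_nonneg _)
    nlinarith
  · have h4 : max 1 (|β| * ((D : ℝ) * H)) ≤ D * max 1 (|β| * (c * H)) := by
      refine max_le (one_le_mul_of_one_le_of_one_le (h1.trans h2) (le_max_left _ _)) ?_
      refine le_trans ?_ (mul_le_mul_of_nonneg_left (le_max_right _ _) (Nat.cast_nonneg _))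
      have : (D : ℝ) * (|β| * H) * 1 ≤ D * (|β| * H) * c :=
        mul_le_mul_of_nonneg_left h1 (by positivity)
      nlinarith
    have h5 := mul_le_mul_of_nonneg_left h4 (Nat.cast_nonneg (α := ℝ) q)
    linarith

theorem three_Dec3 {j0 a b : ℕ} (hj : 2 ≤ j0)
    (h : (a : ℝ) ≤ Real.exp (2 / (j0 + (0 : ℕ))) * b) : a ≤ 3 * b := by
  have h1 : (2 : ℝ) ≤ j0 := by exact_mod_cast hj
  have h2 : Real.exp (2 / (j0 + (0 : ℕ))) ≤ 3 := by
    refine (Real.exp_le_exp.2 ?_).trans (Real.exp_one_lt_d9.le.trans (by norm_num))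
    rw [Nat.cast_zero, add_zero, div_le_one (by linarith)]
    exact h1
  exact_mod_cast h.trans (mul_le_mul_of_nonneg_right h2 (Nat.cast_nonneg b))

theorem sDec3 (hP : StProd2) (hM : StMul2) (hW : StSlow2) (hS : StSel2) (hB : StBil3) :
    StDec3 := by
  intro j0 D hj D0
  obtain ⟨t0, ht0⟩ := hW 2275 5001 20000
  obtain ⟨Y0, hY0⟩ := eventually_atTop.1 ((hS t0
    ((∏ t ∈ range (t0 + 1), (j0 + t) ^ (5001 * (j0 + t) ^ 2275) : ℕ) : ℝ) D).and hB)
  filter_upwards [eventually_ge_atTop (D * Y0), 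
    (tendsto_rpow_atTop (show (0 : ℝ) < 1 / 1000 by norm_num)).eventually_ge_atTop (D : ℝ),
    eventually_ge_atTop (1 : ℝ)] with Y a1 a2 a3
  intro B N s hq c J q u β c0 cD q0 hu hY hsq
  have Dp : (0 : ℝ) < D := by exact_mod_cast D0
  obtain ⟨y1, y2⟩ := qs_Dec3 (∏ t ∈ range J, s t) q β c0 cD
  rw [hY] at y1 y2
  have y0 := one_le_qs (c * ∏ t ∈ range J, s t) q0 β
  obtain ⟨Y2, hY2⟩ : ∃ Y2, qs (c * ∏ t ∈ range J, s t) q β = Y2 := ⟨_, rfl⟩
  rw [hY2] at y0 y1 y2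
  have y3 : Y / D ≤ Y2 := by rw [div_le_iff₀ Dp]; linarith
  obtain ⟨h1, h2⟩ := hY0 Y2 (le_of_mul_le_mul_left (a1.trans y2) Dp)
  obtain ⟨t', t, tt, tJ, b1, b2, b3, b4⟩ := h1 s (hq.two_le hj)
    (ht0 j0 s hj fun i => ⟨hq.lo i, hq.hi i⟩)
    (Nat.cast_le.2 (prod_le_prod' fun i _ => hq.hi i)) J
    ((pow_le_pow_left₀ (by linarith) y1 2).trans (hsq.trans_eq (Nat.cast_mul _ _)))
  obtain ⟨k1, r1⟩ := hP j0 B N s hj hq 0 (range t') fun _ _ => Nat.zero_le _
  obtain ⟨k2, r2⟩ := hP j0 B N s hj hq 0 (Ico t' t) fun _ _ => Nat.zero_le _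
  obtain ⟨k3, r3⟩ := hP j0 B N s hj hq 0 (Ico t J) fun _ _ => Nat.zero_le _
  have c21 := cop_Dec3 hq.cop (Ico t' t) (range t') fun i hi i' hi' => by
    have := mem_Ico.1 hi; have := mem_range.1 hi'; omega
  have c31 := cop_Dec3 hq.cop (Ico t J) (range t') fun i hi i' hi' => by
    have := mem_Ico.1 hi; have := mem_range.1 hi'; omega
  have c32 := cop_Dec3 hq.cop (Ico t J) (Ico t' t) fun i hi i' hi' => by
    have := mem_Ico.1 hi; have := mem_Ico.1 hi'; omega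
  obtain ⟨k21, -, s21⟩ := hM _ _ _ _ _ _ k2 k1 c21
  obtain ⟨-, -, s321⟩ := hM _ _ _ _ _ _ k3 k21 (c32.mul_right c31)
  have eS := split_Dec3 s tt tJ
  have pw : Y2 ^ (-(436 / 10000) : ℝ) ≤ Y ^ (-(4355 / 100000) : ℝ) := by
    have e1 : Y ^ (999 / 1000 : ℝ) ≤ Y2 := by
      refine le_trans ?_ y3
      rw [le_div_iff₀ Dp]
      refine (mul_le_mul_of_nonneg_left a2 (by positivity)).trans (le_of_eq ?_)
      rw [← Real.rpow_add (by linarith)]
      norm_num
    refine (Real.rpow_le_rpow_of_nonpos (by positivity) e1 (by norm_num)).trans ?_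
    rw [← Real.rpow_mul (by linarith)]
    exact Real.rpow_le_rpow_of_exponent_le a3 (by norm_num)
  rw [ES, sum_image fun a _ b _ h => Nat.eq_of_mul_eq_mul_left c0 h,
    sum_image fun a _ b _ h => Nat.eq_of_mul_eq_mul_left c0 h, split_Dec3 B tt tJ]
  generalize ∏ i ∈ range J, s i = S at *
  generalize ∏ i ∈ range t', B i = B1 at *
  generalize ∏ i ∈ Ico t' t, B i = B2 at *
  generalize ∏ i ∈ Ico t J, B i = M at *
  generalize ∏ i ∈ range t', s i = Q1 at *
  generalize ∏ i ∈ Ico t' t, s i = Q at *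
  generalize ∏ i ∈ Ico t J, s i = sM at *
  have e : ∀ f : ℕ → ℂ, ∑ a ∈ M * (B2 * B1), f a
      = ∑ m ∈ M, ∑ b ∈ B2, ∑ b' ∈ B1, f (m * (b * b')) := fun f => by
    rw [s321]
    exact sum_congr rfl fun m _ => s21 fun c => f (m * c)
  have one : ∀ m ∈ M, ‖∑ b ∈ B2, ∑ b' ∈ B1, ee ((u / q + β) * ((c * (m * (b * b')) : ℕ) : ℝ))‖ ≤
      Y ^ (-(4355 / 100000) : ℝ) * ∑ b ∈ B2, ∑ b' ∈ B1,
        √((Nat.gcd q (c * (m * (b * b'))) : ℕ) : ℝ) := fun m hm => by
    obtain ⟨m1, m2, m3⟩ := r3 m hm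
    have m4 := three_Dec3 hj m3
    have := h2 B2 B1 _ _ Q Q1 (c * m) (c * S) q u β k2 k1 (fun b hb => (r2 b hb).2.1)
      (fun b hb => ⟨(r1 b hb).1, (r1 b hb).2.1⟩) q0 hu (Nat.mul_pos c0 m1)
      (by
        rw [eS]
        calc c * m * Q * Q1 = c * (m * (Q * Q1)) := by ring
          _ ≤ _ := Nat.mul_le_mul_left _ (Nat.mul_le_mul_right _ m2))
      (by
        rw [eS]
        calc c * (sM * (Q * Q1)) ≤ c * (3 * m * (Q * Q1)) :=
            Nat.mul_le_mul_left _ (Nat.mul_le_mul_right _ m4)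
          _ = _ := by ring) hY2 b1 b2 b3 b4
    have g : (B2.card : ℝ) * B1.card * √((Nat.gcd q (c * m) : ℕ) : ℝ) ≤
        ∑ b ∈ B2, ∑ b' ∈ B1, √((Nat.gcd q (c * (m * (b * b'))) : ℕ) : ℝ) := by
      rw [mul_assoc, ← nsmul_eq_mul, ← nsmul_eq_mul, ← sum_const, ← sum_const]
      refine sum_le_sum fun b _ => sum_le_sum fun b' _ => Real.sqrt_le_sqrt (Nat.cast_le.2 ?_)
      exact Nat.le_of_dvd (Nat.gcd_pos_of_pos_left _ q0)
        (Nat.gcd_dvd_gcd_of_dvd_right _ (Nat.mul_dvd_mul_left c (dvd_mul_right _ _)))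
    have g2 := this.trans (mul_le_mul g pw (by positivity)
      (sum_nonneg fun _ _ => sum_nonneg fun _ _ => Real.sqrt_nonneg _))
    rw [mul_comm _ (Y ^ _)] at g2
    refine le_trans (le_of_eq ?_) g2
    simp only [Nat.cast_mul, ← mul_assoc]
  have e2 : ∑ a ∈ M * (B2 * B1), √((Nat.gcd q (c * a) : ℕ) : ℝ) =
      ∑ m ∈ M, ∑ b ∈ B2, ∑ b' ∈ B1, √((Nat.gcd q (c * (m * (b * b'))) : ℕ) : ℝ) := by
    exact_mod_cast e fun a => ((√((Nat.gcd q (c * a) : ℕ) : ℝ) : ℝ) : ℂ)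
  rw [e fun a => ee ((u / q + β) * ((c * a : ℕ) : ℝ)), e2, mul_sum]
  exact (norm_sum_le _ _).trans (sum_le_sum one)

end Pool.Agent.MP_2876a2_nt.Tu.V

end

noncomputable section
open Finset Filter
open scoped Pointwise


namespace Pool.Agent.MP_2876a2_nt.Tu.V

theorem dvd_DM3 (B : ℕ → Finset ℕ) (N : ℕ → ℕ) (h : ∀ t, ∀ b ∈ B t, b ∣ N t) (J : ℕ) :
    ∀ b ∈ ∏ t ∈ range J, B t, b ∣ ∏ t ∈ range J, N t := by
  induction J with
  | zero =>
    intro b hb
    rw [prod_range_zero, Finset.mem_one] at hb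
    rw [hb]
    exact one_dvd _
  | succ J ih =>
    intro b hb
    rw [prod_range_succ] at hb ⊢
    obtain ⟨x, hx, y, hy, rfl⟩ := Finset.mem_mul.1 hb
    exact mul_dvd_mul (ih x hx) (h J y hy)

theorem wt_prod_DM3 (hW : StWt) {ι : Type} (I : Finset ι) (a : ι → ℕ) :
    wt (∏ i ∈ I, a i) ≤ ∏ i ∈ I, wt (a i) := by
  classical
  induction I using Finset.induction_on with
  | empty => simp [wt_one]
  | insert i I hi ih =>
    rw [prod_insert hi, prod_insert hi]
    exact (hW.1 _ _).trans (mul_le_mul_of_nonneg_left ih (hW.2.1 _).1)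

theorem gcd_DM3 {k q : ℕ} (hq : 0 < q) (a : Fin k → ℕ)
    (h : ∀ i i', i ≠ i' → (a i).Coprime (a i')) :
    ∏ i, √((Nat.gcd q (a i) : ℕ) : ℝ) ≤ √((Nat.gcd q (∏ i, a i) : ℕ) : ℝ) := by
  rw [← Real.sqrt_prod _ fun i _ => Nat.cast_nonneg _, ← Nat.cast_prod]
  refine Real.sqrt_le_sqrt (Nat.cast_le.2 (Nat.le_of_dvd (Nat.gcd_pos_of_pos_left _ hq) ?_))
  refine Nat.dvd_gcd ?_ (prod_dvd_prod_of_dvd _ _ fun i _ => Nat.gcd_dvd_right _ _)
  refine Fintype.prod_dvd_of_isRelPrime (fun i i' hne => ?_) fun i => Nat.gcd_dvd_left _ _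
  exact Nat.coprime_iff_isRelPrime.1
    (Nat.Coprime.of_dvd (Nat.gcd_dvd_right _ _) (Nat.gcd_dvd_right _ _) (h i i' hne))

theorem pow_DM3 {k : ℕ} (hk : 46 ≤ k) {Y : ℝ} (hY : 1 ≤ Y) :
    (Y ^ (-(4355 / 100000) : ℝ)) ^ k ≤ Y ^ (-(2003 / 1000) : ℝ) := by
  rw [← Real.rpow_natCast, ← Real.rpow_mul (by linarith)]
  refine Real.rpow_le_rpow_of_exponent_le hY ?_
  have : (46 : ℝ) ≤ k := by exact_mod_cast hk
  linarith

theorem sDM3 (h1 : StDec3) (hW : StWt) : StDM := by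
  classical
  intro j0 D k M hj hD hk hkM
  obtain ⟨Y1, hY1⟩ := eventually_atTop.1 (h1 j0 D hj hD)
  refine ⟨Y1, ((D : ℝ) * 3) ^ k, fun B N s hS c hc hcc hcN J => ⟨fun a ha => ?_,
    fun u q β hq hu hY hY2 => ?_⟩⟩
  · have key : ∀ i : Fin k, a i ≠ 0 ∧ wt (a i) ≤ (D : ℝ) * 3 := by
      intro i
      have e1 : (i : ℕ) < M := i.2.trans_le hkM
      obtain ⟨b, hb, hab⟩ := mem_image.1 (Fintype.mem_piFinset.1 ha i)
      have hd := dvd_DM3 (B i) (N i) (fun t => ((hS.one i e1).blk t).dvd) J b hb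
      have hb0 : b ≠ 0 := ne_zero_of_dvd_ne_zero
        (prod_ne_zero_iff.2 fun t _ => ((hS.one i e1).blk t).sqf.ne_zero) hd
      rw [← hab]
      refine ⟨mul_ne_zero (hc i e1).1.ne' hb0, (hW.1 _ _).trans ?_⟩
      exact mul_le_mul ((hW.2.1 _).2.trans (Nat.cast_le.2 (hc i e1).2))
        (hW.2.2 j0 (B i) (N i) s hj (hS.one i e1) _ b hb) (hW.2.1 _).1 (Nat.cast_nonneg _)
    refine ⟨prod_ne_zero_iff.2 fun i _ => (key i).1, (wt_prod_DM3 hW _ _).trans ?_⟩
    refine (prod_le_prod (fun i _ => (hW.2.1 _).1) fun i _ => (key i).2).trans (le_of_eq ?_)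
    rw [prod_const, card_univ, Fintype.card_fin]
  · have hone := one_le_qs (D * ∏ t ∈ range J, s t) hq β
    set Y := qs (D * ∏ t ∈ range J, s t) q β with hYd
    have hcop : ∀ i < k, ∀ i' < k, i ≠ i' →
        (c i * ∏ t ∈ range J, N i t).Coprime (c i' * ∏ t ∈ range J, N i' t) := by
      intro i hi i' hi' hne
      have e1 : i < M := hi.trans_le hkM
      have e2 : i' < M := hi'.trans_le hkM
      exact Nat.Coprime.mul_left (Nat.Coprime.mul_right (hcc i e1 i' e2 hne)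
        (Nat.Coprime.prod_right fun t _ => hcN i e1 i' e2 t))
        (Nat.Coprime.prod_left fun t _ => Nat.Coprime.mul_right (hcN i' e2 i e1 t).symm
          (Nat.Coprime.prod_right fun t' _ => hS.cop i e1 i' e2 hne t t'))
    refine le_trans (prod_le_prod (fun i _ => norm_nonneg _) (g := fun i : Fin k =>
      Y ^ (-(4355 / 100000) : ℝ) * ∑ a ∈ (∏ t ∈ range J, B i t).image (fun a => c i * a),
        √((Nat.gcd q a : ℕ) : ℝ)) fun i _ => ?_) ?_
    · have e1 : (i : ℕ) < M := i.2.trans_le hkM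
      exact hY1 Y hY (B i) (N i) s (hS.one i e1) (c i) J q u β (hc i e1).1 (hc i e1).2 hq hu rfl
        hY2
    · rw [prod_mul_distrib, prod_const, card_univ, Fintype.card_fin, prod_univ_sum]
      refine mul_le_mul (pow_DM3 hk hone) (sum_le_sum fun a ha => gcd_DM3 hq a ?_)
        (sum_nonneg fun a _ => prod_nonneg fun i _ => Real.sqrt_nonneg _)
        (Real.rpow_nonneg (by linarith) _)
      have hd : ∀ i : Fin k, a i ∣ c i * ∏ t ∈ range J, N i t := by
        intro i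
        have e1 : (i : ℕ) < M := i.2.trans_le hkM
        obtain ⟨b, hb, hab⟩ := mem_image.1 (Fintype.mem_piFinset.1 ha i)
        rw [← hab]
        exact mul_dvd_mul_left _
          (dvd_DM3 (B i) (N i) (fun t => ((hS.one i e1).blk t).dvd) J b hb)
      intro i i' hne
      exact Nat.Coprime.of_dvd (hd i) (hd i') (hcop i i.2 i' i'.2 fun h => hne (Fin.ext h))

end Pool.Agent.MP_2876a2_nt.Tu.V

end

noncomputable section
open Finset Filter
open scoped Pointwise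


namespace Pool.Agent.MP_2876a2_nt.Tu.V

theorem mult_Gs {s : ℝ} (hs : s < -1) (Q : ℕ) {d : ℕ} (hd : 0 < d) :
    ∑ q ∈ Icc 1 Q with d ∣ q, (q : ℝ) ^ s ≤ (∑' e : ℕ, (e : ℝ) ^ s) / d := by
  have hsum : Summable fun e : ℕ => (e : ℝ) ^ s := Real.summable_nat_rpow.2 hs
  have hd1 : (1 : ℝ) ≤ d := by exact_mod_cast hd
  have h1 : ∑ q ∈ Icc 1 Q with d ∣ q, (q : ℝ) ^ s ≤
      ∑ q ∈ Icc 1 Q with d ∣ q, ((q / d : ℕ) : ℝ) ^ s / d := by
    refine sum_le_sum fun q hq => ?_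
    obtain ⟨e, rfl⟩ := (mem_filter.1 hq).2
    rw [Nat.mul_div_cancel_left e hd, Nat.cast_mul, Real.mul_rpow (by positivity) (by positivity),
      mul_comm, div_eq_mul_inv, ← Real.rpow_neg_one]
    exact mul_le_mul_of_nonneg_left (Real.rpow_le_rpow_of_exponent_le hd1 hs.le) (by positivity)
  refine h1.trans ?_
  rw [← sum_div, ← sum_image (s := (Icc 1 Q).filter (d ∣ ·)) (g := fun q => q / d)
    (f := fun e : ℕ => (e : ℝ) ^ s) fun a ha b hb e => by
      obtain ⟨x, rfl⟩ := (mem_filter.1 (mem_coe.1 ha)).2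
      obtain ⟨y, rfl⟩ := (mem_filter.1 (mem_coe.1 hb)).2
      simp only [Nat.mul_div_cancel_left _ hd] at e
      rw [e]]
  exact div_le_div_of_nonneg_right (hsum.sum_le_tsum _ fun _ _ => by positivity) (by positivity)

theorem sGs : StGs := by
  set s : ℝ := -(1002 / 1000) with hs
  refine ⟨∑' e : ℕ, (e : ℝ) ^ s, tsum_nonneg fun _ => by positivity, fun Q n hn => ?_⟩
  calc _ ≤ ∑ q ∈ Icc 1 Q, ∑ d ∈ n.divisors, if d ∣ q then (q : ℝ) ^ s * √(d : ℝ) else 0 := by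
        refine sum_le_sum fun q _ => ?_
        have := single_le_sum (s := n.divisors)
          (f := fun d : ℕ => if d ∣ q then (q : ℝ) ^ s * √(d : ℝ) else 0)
          (fun d _ => by positivity) (Nat.mem_divisors.2 ⟨Nat.gcd_dvd_right q n, hn⟩)
        rwa [if_pos (Nat.gcd_dvd_left q n)] at this
    _ = ∑ d ∈ n.divisors, (∑ q ∈ Icc 1 Q with d ∣ q, (q : ℝ) ^ s) * √(d : ℝ) := by
        rw [sum_comm]
        refine sum_congr rfl fun d _ => ?_
        rw [← sum_filter, sum_mul]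
    _ ≤ _ := by
        rw [wt, mul_sum]
        refine sum_le_sum fun d hd => ?_
        have hd0 := Nat.pos_of_mem_divisors hd
        have hd' : (0 : ℝ) < d := by exact_mod_cast hd0
        refine (mul_le_mul_of_nonneg_right (mult_Gs (by rw [hs]; norm_num) Q hd0)
          (Real.sqrt_nonneg _)).trans (le_of_eq ?_)
        rw [div_mul_eq_mul_div, mul_div_assoc, Real.sqrt_div_self]

end Pool.Agent.MP_2876a2_nt.Tu.V

end

noncomputable section
open Finset Filter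
open scoped Pointwise


namespace Pool.Agent.MP_2876a2_nt.Tu.V

theorem rng_Mas3 {x : ℝ} {u : ℤ} {q : ℕ} (hq : 0 < q) (h0 : 0 ≤ x) (h1 : x < 1)
    (h : |x - u / q| ≤ 1 / q) : u ∈ Icc (-1 : ℤ) q := by
  have p : (0 : ℝ) < q := by exact_mod_cast hq
  have e : x - u / q = (x * q - u) / q := by field_simp
  rw [e, abs_div, abs_of_pos p, div_le_div_iff_of_pos_right p, abs_le] at h
  have a : (-1 : ℝ) ≤ u := by nlinarith [h.2]
  have b : (u : ℝ) < q + 1 := by nlinarith [h.1]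
  exact mem_Icc.2 ⟨by exact_mod_cast a, Int.lt_add_one_iff.1 (by exact_mod_cast b)⟩

theorem pw_Mas3 {m : ℝ} (h : 1 ≤ m) : m ^ (-(2002 / 1000) : ℝ) ≤ m⁻¹ ^ 2 := by
  rw [inv_pow, ← Real.rpow_natCast, ← Real.rpow_neg (by linarith)]
  exact Real.rpow_le_rpow_of_exponent_le h (by norm_num)

theorem sMas3 (hI : StIn) (hG : StGs) : StMas3 := by
  obtain ⟨C, hC, hG⟩ := hG
  refine ⟨36 * C, by positivity, fun K S n u q hK hS hn h => ?_⟩
  have k : (0 : ℝ) < K := by exact_mod_cast hK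
  have s : (0 : ℝ) < S := by exact_mod_cast hS
  have one : ∀ v ∈ range (K * S),
      qs S (q v) ((v : ℝ) / (K * S : ℕ) - u v / q v) ^ (-(2002 / 1000) : ℝ) *
        √((Nat.gcd (q v) n : ℕ) : ℝ) ≤
      ∑ r ∈ Icc 1 ((range (K * S)).sup q), ∑ w ∈ Icc (-1 : ℤ) r,
        (r : ℝ) ^ (-(2002 / 1000) : ℝ) * √((Nat.gcd r n : ℕ) : ℝ) *
          (max 1 (|(v : ℝ) - w / r * (K * S : ℕ)| / K))⁻¹ ^ 2 := fun v hv => by
    have P : (0 : ℝ) < (K * S : ℕ) := by push_cast; positivity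
    have m := rng_Mas3 (h v).1 (by positivity)
      ((div_lt_one P).2 (by exact_mod_cast mem_range.1 hv)) (h v).2
    refine le_trans ?_ ((single_le_sum (f := fun w : ℤ => ((q v : ℕ) : ℝ) ^ (-(2002 / 1000) : ℝ) *
      √((Nat.gcd (q v) n : ℕ) : ℝ) *
      (max 1 (|(v : ℝ) - w / (q v : ℕ) * (K * S : ℕ)| / K))⁻¹ ^ 2) (fun _ _ => by positivity)
      m).trans (single_le_sum (f := fun r : ℕ => ∑ w ∈ Icc (-1 : ℤ) r,
      (r : ℝ) ^ (-(2002 / 1000) : ℝ) * √((Nat.gcd r n : ℕ) : ℝ) *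
      (max 1 (|(v : ℝ) - w / r * (K * S : ℕ)| / K))⁻¹ ^ 2) (fun _ _ => by positivity)
      (mem_Icc.2 ⟨(h v).1, le_sup hv⟩)))
    have e : |(v : ℝ) / (K * S : ℕ) - u v / q v| * S = |(v : ℝ) - u v / q v * (K * S : ℕ)| / K := by
      rw [← abs_of_pos s, ← abs_mul, ← abs_of_pos k, ← abs_div]
      congr 1
      push_cast
      field_simp
    rw [qs, e, Real.mul_rpow (Nat.cast_nonneg _) (by positivity), mul_right_comm]
    exact mul_le_mul_of_nonneg_left (pw_Mas3 (le_max_left _ _)) (by positivity)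
  refine (sum_le_sum one).trans ?_
  rw [sum_comm]
  refine (sum_le_sum (g := fun r : ℕ => 36 * K *
    ((r : ℝ) ^ (-(1002 / 1000) : ℝ) * √((Nat.gcd r n : ℕ) : ℝ))) fun r hr => ?_).trans ?_
  · have r1 : (1 : ℝ) ≤ r := by exact_mod_cast (mem_Icc.1 hr).1
    rw [sum_comm]
    refine (sum_le_card_nsmul _ _ ((r : ℝ) ^ (-(2002 / 1000) : ℝ) * √((Nat.gcd r n : ℕ) : ℝ) *
      (12 * K)) fun w _ => ?_).trans ?_
    · rw [← mul_sum]
      exact mul_le_mul_of_nonneg_left (hI K _ _ hK) (by positivity)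
    · have c : (Icc (-1 : ℤ) r).card = r + 2 := by
        rw [Int.card_Icc]
        omega
      have e : (r : ℝ) ^ (-(1002 / 1000) : ℝ) = r * (r : ℝ) ^ (-(2002 / 1000) : ℝ) := by
        rw [show (-(1002 / 1000) : ℝ) = 1 + -(2002 / 1000) by norm_num,
          Real.rpow_add (by linarith), Real.rpow_one]
      rw [c, nsmul_eq_mul, e]
      push_cast
      calc _ ≤ 3 * (r : ℝ) * ((r : ℝ) ^ (-(2002 / 1000) : ℝ) * √((Nat.gcd r n : ℕ) : ℝ) *
            (12 * K)) := mul_le_mul_of_nonneg_right (by linarith) (by positivity)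
        _ = _ := by ring
  · rw [← mul_sum]
    have := mul_le_mul_of_nonneg_left (hG ((range (K * S)).sup q) n hn)
      (show (0 : ℝ) ≤ 36 * K by positivity)
    linarith

end Pool.Agent.MP_2876a2_nt.Tu.V

end

noncomputable section
open Finset Filter
open scoped Pointwise


namespace Pool.Agent.MP_2876a2_nt.Tu.V

theorem sAp3 (hM : StMas3) : StAp3 := by
  obtain ⟨C, hC, hM⟩ := hM
  refine ⟨C, hC, fun K S hK hS => ?_⟩
  have hn : 0 < Nat.sqrt S := Nat.sqrt_pos.2 hS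
  choose r hr using fun v : ℕ =>
    Real.exists_rat_abs_sub_le_and_den_le ((v : ℝ) / (K * S : ℕ)) hn
  have h1 : ((Nat.sqrt S : ℕ) : ℝ) ^ 2 ≤ S := by exact_mod_cast Nat.sqrt_le' S
  have h2 : (S : ℝ) ≤ ((Nat.sqrt S : ℕ) + 1) ^ 2 := by exact_mod_cast (Nat.lt_succ_sqrt' S).le
  have h0 : (0 : ℝ) ≤ (Nat.sqrt S : ℕ) := Nat.cast_nonneg _
  have hS0 : (0 : ℝ) ≤ S := Nat.cast_nonneg _
  have hq : ∀ v, (0 : ℝ) < (r v).den := fun v => by exact_mod_cast (r v).den_pos
  refine ⟨fun v => (r v).num, fun v => (r v).den,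
    fun v => (v : ℝ) / (K * S : ℕ) - (r v).num / (r v).den, fun v => ⟨(r v).den_pos,
      Int.isCoprime_iff_gcd_eq_one.2 (r v).reduced, by ring, ?_⟩,
    fun n hn0 => hM K S n _ _ hK hS hn0 fun v => ⟨(r v).den_pos, ?_⟩⟩
  · obtain ⟨a, b⟩ := hr v
    rw [Rat.cast_def] at a
    have b' : ((r v).den : ℝ) ≤ (Nat.sqrt S : ℕ) := by exact_mod_cast b
    have q0 := hq v
    unfold qs
    rcases le_total 1 (|(v : ℝ) / (K * S : ℕ) - (r v).num / (r v).den| * S) with c | c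
    · rw [max_eq_right c]
      have e : ((r v).den : ℝ) * (|(v : ℝ) / (K * S : ℕ) - (r v).num / (r v).den| * S) ≤
          S / ((Nat.sqrt S : ℕ) + 1) := by
        refine (mul_le_mul_of_nonneg_left (mul_le_mul_of_nonneg_right a hS0) q0.le).trans_eq ?_
        field_simp
      refine (pow_le_pow_left₀ (by positivity) e 2).trans ?_
      rw [div_pow, div_le_iff₀ (by positivity), sq]
      exact mul_le_mul_of_nonneg_left h2 hS0
    · rw [max_eq_left c, mul_one]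
      exact (pow_le_pow_left₀ q0.le b' 2).trans h1
  · have a := (hr v).1
    rw [Rat.cast_def] at a
    have q0 := hq v
    exact a.trans (one_div_le_one_div_of_le q0 (by nlinarith))

end Pool.Agent.MP_2876a2_nt.Tu.V

end

noncomputable section
open Finset Filter
open scoped Pointwise


namespace Pool.Agent.MP_2876a2_nt.Tu.V

theorem term_Diff3 {E : ℂ} {S q0 q T T' : ℕ} {V G Y0 ε β : ℝ} {u : ℤ} (hAk : 0 ≤ V) (hG : 0 ≤ G)
    (hE : ‖E‖ ≤ V) (hD : Y0 ≤ qs S q β → ‖E‖ ≤ qs S q β ^ (-(2003 / 1000) : ℝ) * G)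
    (hY : Y0 ≤ q0) (hq0 : (1 : ℝ) ≤ q0) (hε0 : 0 ≤ ε) (hq : 0 < q)
    (hm : T' ≡ T [MOD q0.factorial]) (hT : |(T' : ℝ) - T| ≤ ε * S) :
    ‖E * (ee (-(T' * (u / q + β))) - ee (-(T * (u / q + β))))‖ ≤
      2 * (q0 : ℝ) ^ (-(1 / 1000) : ℝ) * (qs S q β ^ (-(2002 / 1000) : ℝ) * G) +
        V * (8 * ε * (q0 : ℝ) ^ 4) * qs S q β ^ (-(2002 / 1000) : ℝ) := by
  have h1 := one_le_qs S hq β
  set Y := qs S q β with hYd
  have hY0 : 0 < Y := by linarith
  have hqp : (0 : ℝ) < q0 := by linarith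
  rw [norm_mul]
  rcases le_or_gt (q0 : ℝ) Y with h | h
  · have h3 := hD (hY.trans h)
    rw [show (-(2003 / 1000) : ℝ) = -(1 / 1000) + -(2002 / 1000) by norm_num,
      Real.rpow_add hY0] at h3
    have h5 : ‖ee (-(T' * (u / q + β))) - ee (-(T * (u / q + β)))‖ ≤ 2 := by
      refine (norm_sub_le _ _).trans ?_
      rw [norm_ee, norm_ee]
      norm_num
    have h6 : Y ^ (-(1 / 1000) : ℝ) ≤ (q0 : ℝ) ^ (-(1 / 1000) : ℝ) :=
      Real.rpow_le_rpow_of_nonpos hqp h (by norm_num)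
    refine le_trans ?_ (le_add_of_nonneg_right (by positivity))
    calc _ ≤ Y ^ (-(1 / 1000) : ℝ) * Y ^ (-(2002 / 1000) : ℝ) * G * 2 :=
          mul_le_mul h3 h5 (norm_nonneg _) (by positivity)
      _ ≤ (q0 : ℝ) ^ (-(1 / 1000) : ℝ) * Y ^ (-(2002 / 1000) : ℝ) * G * 2 := by gcongr
      _ = _ := by ring
  · have hqq : q ≤ q0 := by
      have : (q : ℝ) ≤ q0 := (le_qs S q β).trans h.le
      exact_mod_cast this
    obtain ⟨m, hm'⟩ : (q : ℤ) ∣ (T : ℤ) - T' :=
      (Int.natCast_dvd_natCast.2 (Nat.dvd_factorial hq hqq)).trans hm.dvd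
    have hm2 : (T : ℝ) - T' = q * m := by exact_mod_cast hm'
    have hq' : (q : ℝ) ≠ 0 := by positivity
    have e1 : -((T' : ℝ) * (u / q + β)) =
        -(T * (u / q + β)) + (((m * u : ℤ) : ℝ) + ((T : ℝ) - T') * β) := by
      have : (T' : ℝ) = T - q * m := by linarith
      rw [this]
      push_cast
      field_simp
      ring
    have h5 : ‖ee (-(T' * (u / q + β))) - ee (-(T * (u / q + β)))‖ ≤
        2 * Real.pi * |((T : ℝ) - T') * β| := by
      rw [e1, ee_add, ee_add, ee_int, one_mul, ← mul_sub_one, norm_mul, norm_ee, one_mul]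
      exact norm_ee_sub_one _
    have h7 : |β| * S ≤ Y := by
      have hq1 : (1 : ℝ) ≤ q := by exact_mod_cast hq
      refine (le_max_right 1 _).trans ?_
      exact le_mul_of_one_le_left (zero_le_one.trans (le_max_left _ _)) hq1
    have h8 : |((T : ℝ) - T') * β| ≤ ε * q0 := by
      rw [abs_mul, abs_sub_comm]
      calc _ ≤ ε * S * |β| := mul_le_mul_of_nonneg_right hT (abs_nonneg _)
        _ = ε * (|β| * S) := by ring
        _ ≤ ε * q0 := mul_le_mul_of_nonneg_left (h7.trans h.le) hε0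
    have h9 : 1 ≤ (q0 : ℝ) ^ 3 * Y ^ (-(2002 / 1000) : ℝ) := by
      have a1 : (q0 : ℝ) ^ (-(3 : ℝ)) ≤ Y ^ (-(2002 / 1000) : ℝ) :=
        (Real.rpow_le_rpow_of_nonpos hY0 h.le (by norm_num)).trans
          (Real.rpow_le_rpow_of_exponent_le h1 (by norm_num))
      rw [Real.rpow_neg hqp.le, show (3 : ℝ) = ((3 : ℕ) : ℝ) by norm_num,
        Real.rpow_natCast] at a1
      calc (1 : ℝ) = (q0 : ℝ) ^ 3 * ((q0 : ℝ) ^ 3)⁻¹ := by field_simp
        _ ≤ _ := by gcongr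
    have h10 : 2 * Real.pi * |((T : ℝ) - T') * β| ≤
        8 * ε * (q0 : ℝ) ^ 4 * Y ^ (-(2002 / 1000) : ℝ) := by
      calc _ ≤ 2 * 4 * (ε * q0) * 1 := by
            rw [mul_one]
            gcongr
            exact Real.pi_le_four
        _ ≤ 2 * 4 * (ε * q0) * ((q0 : ℝ) ^ 3 * Y ^ (-(2002 / 1000) : ℝ)) := by gcongr
        _ = _ := by ring
    refine le_trans ?_ (le_add_of_nonneg_left (by positivity))
    rw [mul_assoc]
    exact mul_le_mul hE (h5.trans h10) (norm_nonneg _) hAk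

theorem q0_Diff3 (Y0 L : ℝ) : ∃ q0 : ℕ, Y0 ≤ q0 ∧ (1 : ℝ) ≤ q0 ∧
    2 * (q0 : ℝ) ^ (-(1 / 1000) : ℝ) * L ≤ 1 / 4 := by
  have h1 : Tendsto (fun n : ℕ => 2 * (n : ℝ) ^ (-(1 / 1000) : ℝ) * L) atTop (nhds (2 * 0 * L)) :=
    (((tendsto_rpow_neg_atTop (by norm_num)).comp tendsto_natCast_atTop_atTop).const_mul
      2).mul_const L
  have h2 := h1.eventually (ge_mem_nhds (show 2 * 0 * L < 1 / 4 by norm_num))
  have h3 := (tendsto_natCast_atTop_atTop (R := ℝ)).eventually_ge_atTop Y0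
  have h4 := (tendsto_natCast_atTop_atTop (R := ℝ)).eventually_ge_atTop 1
  exact (h3.and (h4.and h2)).exists

theorem sDiff3 (hF : StFour2) (hA : StAp3) : StDiff3 := by
  intro Y0 Λ k
  obtain ⟨C, hC, hA⟩ := hA
  have hK : (0 : ℝ) < (k : ℝ) + 2 := by positivity
  have hK1 : (1 : ℝ) ≤ (k : ℝ) + 2 := by linarith [Nat.cast_nonneg (α := ℝ) k]
  obtain ⟨q0, hY, hq1, hq⟩ := q0_Diff3 Y0 (C * ((k : ℝ) + 2) * Λ)
  obtain ⟨ε, hε⟩ : ∃ ε : ℝ, ε = 1 / (32 * (C + 1) * ((k : ℝ) + 2) * (q0 : ℝ) ^ 4) := ⟨_, rfl⟩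
  have hε0 : 0 < ε := by rw [hε]; positivity
  have hε1 : ε ≤ 1 := by
    rw [hε, div_le_one (by positivity)]
    exact one_le_mul_of_one_le_of_one_le
      (one_le_mul_of_one_le_of_one_le (by linarith) hK1) (one_le_pow₀ hq1)
  have hε2 : 8 * ε * (q0 : ℝ) ^ 4 * (C * ((k : ℝ) + 2)) ≤ 1 / 4 := by
    have : 8 * ε * (q0 : ℝ) ^ 4 * ((C + 1) * ((k : ℝ) + 2)) = 1 / 4 := by
      rw [hε]; field_simp; ring
    rw [← this]
    gcongr
    linarith
  refine ⟨q0.factorial, ε, Nat.factorial_pos _, hε0, hε1,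
    fun A S hS hAS hD T T' hT hm hTT => ?_⟩
  obtain ⟨u, q, β, h1, h2⟩ := hA (k + 2) S (by omega) hS
  have hS' : (1 : ℝ) ≤ S := by exact_mod_cast hS
  have hP : k * S < (k + 2) * S := by nlinarith
  have hT' : T' < (k + 2) * S := by
    have h3 : (T' : ℝ) - T ≤ S :=
      ((le_abs_self _).trans hTT).trans (mul_le_of_le_one_left (by linarith) hε1)
    have h4 : (T' : ℝ) ≤ T + S := by linarith
    have h5 : T' ≤ T + S := by exact_mod_cast h4
    nlinarith
  have e1 := hF k A S _ T hAS hP (hT.trans_lt hP)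
  have e2 := hF k A S _ T' hAS hP hT'
  obtain ⟨V, hV⟩ : ∃ V : ℝ, ∏ i, ((A i).card : ℝ) = V := ⟨_, rfl⟩
  have hAk : 0 ≤ V := hV ▸ prod_nonneg fun i _ => Nat.cast_nonneg _
  rw [hV]
  have hcard : ((Fintype.piFinset A).card : ℝ) = V := by
    rw [Fintype.card_piFinset, ← hV]; push_cast; rfl
  have s1 : ∑ v ∈ range ((k + 2) * S), qs S (q v) (β v) ^ (-(2002 / 1000) : ℝ) ≤
      C * ((k : ℝ) + 2) := by
    have := h2 1 one_ne_zero
    simpa [wt_one] using this
  have s2 : ∑ v ∈ range ((k + 2) * S), qs S (q v) (β v) ^ (-(2002 / 1000) : ℝ) *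
      ∑ a ∈ Fintype.piFinset A, √((Nat.gcd (q v) (∏ i, a i) : ℕ) : ℝ) ≤
      V * (C * ((k : ℝ) + 2) * Λ) := by
    simp only [mul_sum]
    rw [sum_comm, ← hcard, ← nsmul_eq_mul]
    refine sum_le_card_nsmul _ _ _ fun a ha => (h2 _ (hD.1 a ha).1).trans ?_
    push_cast
    exact mul_le_mul_of_nonneg_left (hD.1 a ha).2 (by positivity)
  have e3 : ‖((rm A T' : ℂ) - rm A T) * (((k + 2) * S : ℕ) : ℂ)‖ ≤
      2 * (q0 : ℝ) ^ (-(1 / 1000) : ℝ) * (V * (C * ((k : ℝ) + 2) * Λ)) +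
        V * (8 * ε * (q0 : ℝ) ^ 4) * (C * ((k : ℝ) + 2)) := by
    rw [sub_mul, e1, e2, ← sum_sub_distrib]
    refine (norm_sum_le _ _).trans ?_
    refine le_trans ?_ (add_le_add (mul_le_mul_of_nonneg_left s2 (by positivity))
      (mul_le_mul_of_nonneg_left s1 (by positivity)))
    rw [mul_sum, mul_sum, ← sum_add_distrib]
    refine sum_le_sum fun v _ => ?_
    obtain ⟨a1, a2, a3, a4⟩ := h1 v
    rw [← mul_sub, mul_div_assoc, mul_div_assoc, a3]
    refine term_Diff3 hAk (sum_nonneg fun _ _ => Real.sqrt_nonneg _) ?_ (fun h => ?_) hY hq1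
      hε0.le a1 hm hTT
    · rw [norm_prod, ← hV]
      exact prod_le_prod (fun i _ => norm_nonneg _) fun i _ => norm_ES_le (A i) _
    · rw [norm_prod]
      exact hD.2 _ _ _ a1 a2 h a4
  rw [norm_mul, Complex.norm_natCast, ← Complex.ofReal_natCast, ← Complex.ofReal_natCast,
    ← Complex.ofReal_sub, Complex.norm_real, Real.norm_eq_abs] at e3
  rw [le_div_iff₀ (by positivity)]
  push_cast at e3
  have b1 := mul_le_mul_of_nonneg_left hq hAk
  have b2 := mul_le_mul_of_nonneg_left hε2 hAk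
  nlinarith

end Pool.Agent.MP_2876a2_nt.Tu.V

end
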