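import Pool.Agent.MP_2876a2_nt.Tu.St3

/-!
Coloured blocks with the sharper exponents.
-/

set_option autoImplicit false
set_option linter.all false

noncomputable section
open Finset Filter
open scoped Pointwise


namespace Pool.Agent.MP_2876a2_nt.Tu.V

lemma choose_Fib (m : ℕ) : ∀ r : ℕ, m ^ r ≤ (m * r).choose r := by
  intro r
  induction r with
  | zero => simp
  | succ r ih =>
    have h := Nat.add_choose_eq (m * r) m (r + 1)
    have h2 : (m * r).choose r * m.choose 1 ≤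
        ∑ ij ∈ antidiagonal (r + 1), (m * r).choose ij.1 * m.choose ij.2 :=
      Finset.single_le_sum (f := fun ij : ℕ × ℕ => (m * r).choose ij.1 * m.choose ij.2)
        (fun _ _ => Nat.zero_le _) (a := (r, 1)) (by simp)
    rw [Nat.choose_one_right] at h2
    calc m ^ (r + 1) = m ^ r * m := pow_succ _ _
      _ ≤ (m * r).choose r * m := Nat.mul_le_mul_right _ ih
      _ ≤ (m * r + m).choose (r + 1) := h ▸ h2
      _ = (m * (r + 1)).choose (r + 1) := by rw [Nat.mul_succ]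

theorem sFib (hP : StPsi) : StFib := by
  filter_upwards [hP 5001, eventually_ge_atTop 3] with j hj h3 P hc hG
  classical
  have hj0 : 0 < j := by omega
  have hcard : P.card = j ^ 2723 * j ^ 2275 := by rw [hc, ← pow_add]
  have hr1 : 1 ≤ j ^ 2275 := Nat.one_le_pow _ _ hj0
  have hG' : ∀ p ∈ P, p + 1 ≤ j ^ 5001 ∧ Sm (j ^ 2275) (p + 1) := by
    intro p hp
    obtain ⟨-, -, h2, h4⟩ := hG p hp
    refine ⟨?_, h4⟩
    have h1 : 1 ≤ j ^ 5000 := Nat.one_le_pow _ _ hj0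
    have h5 : j ^ 5001 = j ^ 5000 * j := pow_succ _ _
    have h6 : j ^ 5000 * 3 ≤ j ^ 5000 * j := Nat.mul_le_mul_left _ h3
    omega
  clear hc hG
  generalize j ^ 2275 = r at *
  have hT := hj r hr1
  have hmaps : ∀ b ∈ P.powersetCard r, ∏ p ∈ b, (p + 1) ∈
      (Icc 1 (j ^ (5001 * r))).filter fun n => Sm r n := by
    intro b hb
    obtain ⟨hbP, hbc⟩ := mem_powersetCard.1 hb
    refine mem_filter.2 ⟨mem_Icc.2 ⟨Finset.prod_pos fun p _ => Nat.succ_pos p, ?_⟩, ?_⟩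
    · calc ∏ p ∈ b, (p + 1) ≤ (j ^ 5001) ^ b.card :=
            Finset.prod_le_pow_card _ _ _ fun p hp => (hG' p (hbP hp)).1
        _ = j ^ (5001 * r) := by rw [hbc, ← pow_mul]
    · intro l hl hd
      obtain ⟨p, hp, hlp⟩ := (Prime.dvd_finsetProd_iff hl.prime _).1 hd
      exact (hG' p (hbP hp)).2 l hl hlp
  have hne : ((Icc 1 (j ^ (5001 * r))).filter fun n => Sm r n).Nonempty :=
    ⟨1, mem_filter.2 ⟨mem_Icc.2 ⟨le_rfl, Nat.one_le_pow _ _ hj0⟩, fun l hl hd =>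
      absurd (Nat.dvd_one.1 hd) hl.ne_one⟩⟩
  have hle : ((Icc 1 (j ^ (5001 * r))).filter fun n => Sm r n).card * j ^ (2722 * r) ≤
      (P.powersetCard r).card := by
    rw [card_powersetCard, hcard]
    calc _ ≤ j ^ r * j ^ (2722 * r) := Nat.mul_le_mul_right _ hT
      _ = (j ^ 2723) ^ r := by rw [← pow_add, ← pow_mul]; congr 1; ring
      _ ≤ _ := choose_Fib _ _
  obtain ⟨s, -, hs⟩ := Finset.exists_le_card_fiber_of_mul_le_card_of_maps_to hmaps hne hle
  exact ⟨_, s, filter_subset _ _, hs, fun b hb => (mem_filter.1 hb).2⟩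

end Pool.Agent.MP_2876a2_nt.Tu.V

end

noncomputable section
open Finset Filter
open scoped Pointwise


namespace Pool.Agent.MP_2876a2_nt.Tu.V

theorem prod_BM (S : Finset ℕ) (h : ∀ p ∈ S, p.Prime) :
    Squarefree (∏ p ∈ S, p) ∧ sg (∏ p ∈ S, p) = ∏ p ∈ S, (p + 1) := by
  induction S using Finset.induction_on with
  | empty => simp
  | insert a S ha ih =>
    have h1 := ih fun p hp => h p (mem_insert_of_mem hp)
    have h2 : a.Prime := h a (mem_insert_self a S)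
    have h3 : a.Coprime (∏ p ∈ S, p) := Nat.Coprime.prod_right fun p hp =>
      (Nat.coprime_primes h2 (h p (mem_insert_of_mem hp))).2 fun e => ha (e ▸ hp)
    rw [prod_insert ha, prod_insert ha]
    refine ⟨(Nat.squarefree_mul h3).2 ⟨h2.squarefree, h1.1⟩, ?_⟩
    have h4 : sg a = a + 1 := by
      unfold sg
      rw [ArithmeticFunction.sigma_one_apply, h2.sum_divisors]
    unfold sg at h1 h4 ⊢
    rw [ArithmeticFunction.isMultiplicative_sigma.map_mul_of_coprime h3, h1.2, h4]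

theorem core_BM (hC : StCore) (hL : StCol) (M j r : ℕ) (hM : 0 < M) (hj : 3 ≤ j) (hr : 1 ≤ r)
    (hM1 : 2 * M ^ 2 * r ≤ j ^ 2285) (hM2 : 2 * M ^ M ≤ j) (P : Finset ℕ)
    (hP : P.card = j ^ 4998) (hG : ∀ p ∈ P, p.Prime ∧ j ^ 5000 < p ∧ p ≤ 2 * j ^ 5000)
    (F : Finset (Finset ℕ)) (s0 : ℕ) (hF : F ⊆ P.powersetCard r) (hc : j ^ (2722 * r) ≤ F.card)
    (hs : ∀ b ∈ F, ∏ p ∈ b, (p + 1) = s0) :
    ∃ (B : ℕ → Finset ℕ) (N : ℕ → ℕ) (s r' : ℕ),
      (∀ i < M, Bk (B i) (N i) s ∧ (N i).primeFactors ⊆ P ∧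
        ∀ b ∈ B i, b.primeFactors.card = r') ∧
      (∀ i < M, ∀ i' < M, i ≠ i' → (N i).Coprime (N i')) ∧ 1 ≤ r' ∧ r' ≤ r ∧ j ^ r ≤ s ∧
      s ≤ j ^ (5001 * r) := by
  have j0 : 0 < j := by omega
  have j1 : 1 < j := by omega
  obtain ⟨K, hK1, hK2⟩ := hC F (j ^ 2285) (Nat.one_le_pow _ _ j0)
  obtain ⟨FK, hFK⟩ : ∃ FK, FK = F.filter fun b => K ⊆ b := ⟨_, rfl⟩
  rw [← hFK] at hK1 hK2
  have mem : ∀ b ∈ FK, b ∈ F ∧ K ⊆ b := fun b hb => by rw [hFK] at hb; exact mem_filter.1 hb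
  have hc2 := hc.trans hK1
  have hne : FK.Nonempty := by
    rw [← card_pos]
    have := Nat.pow_pos (n := 2722 * r) j0
    by_contra h0
    rw [show FK.card = 0 by omega, zero_mul] at hc2
    omega
  obtain ⟨b0, hb0⟩ := hne
  have sub : ∀ b ∈ FK, b ⊆ P ∧ b.card = r := fun b hb => mem_powersetCard.1 (hF (mem b hb).1)
  obtain ⟨r1, hr1⟩ : ∃ r1, r = K.card + r1 :=
    Nat.exists_eq_add_of_le ((sub b0 hb0).2 ▸ card_le_card (mem b0 hb0).2)
  have sd : ∀ b ∈ FK, b \ K ⊆ P ∧ (b \ K).card = r1 := fun b hb =>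
    ⟨sdiff_subset.trans (sub b hb).1, by
      rw [card_sdiff_of_subset (mem b hb).2, (sub b hb).2]; omega⟩
  have pr : ∀ b ∈ FK, ∀ p ∈ b \ K, p.Prime := fun b hb p hp => (hG p ((sd b hb).1 hp)).1
  have inj1 : Set.InjOn (fun b => b \ K) (FK : Set (Finset ℕ)) := fun b hb b' hb' e => by
    rw [← sdiff_union_of_subset (mem b hb).2, ← sdiff_union_of_subset (mem b' hb').2]
    exact congrArg (· ∪ K) e
  have eqs : ∀ b ∈ FK, ∏ p ∈ b \ K, (p + 1) = ∏ p ∈ b0 \ K, (p + 1) := fun b hb => by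
    refine Nat.eq_of_mul_eq_mul_right (m := ∏ p ∈ K, (p + 1)) (prod_pos fun p _ => by omega) ?_
    rw [prod_sdiff (mem b hb).2, prod_sdiff (mem b0 hb0).2, hs b (mem b hb).1, hs b0 (mem b0 hb0).1]
  have up : ∀ p ∈ P, p + 1 ≤ j ^ 5001 := fun p hp => by
    have h1 := (hG p hp).2.2
    have h2 := Nat.pow_pos (n := 5000) j0
    have h3 : j ^ 5001 = j ^ 5000 * j := pow_succ j 5000
    have h4 := Nat.mul_le_mul_left (j ^ 5000) hj
    omega
  have s1 : ∏ p ∈ b0 \ K, (p + 1) ≤ j ^ (5001 * r1) := by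
    rw [pow_mul, ← (sd b0 hb0).2]
    exact prod_le_pow_card _ _ _ fun p hp => up p ((sd b0 hb0).1 hp)
  have s2 : j ^ (5000 * r1) ≤ ∏ p ∈ b0 \ K, (p + 1) := by
    rw [pow_mul, ← (sd b0 hb0).2]
    exact pow_card_le_prod _ _ _ fun p hp => by have := (hG p ((sd b0 hb0).1 hp)).2.1; omega
  have c1 : j ^ (2722 * r1) ≤ FK.card := by
    refine Nat.le_of_mul_le_mul_right (c := j ^ (2722 * K.card)) ?_ (Nat.pow_pos j0)
    rw [← pow_add, show 2722 * r1 + 2722 * K.card = 2722 * r by omega]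
    refine hc2.trans (Nat.mul_le_mul_left _ ?_)
    rw [← pow_mul]
    exact Nat.pow_le_pow_right j0 (by omega)
  have c2 : FK.card ≤ j ^ (4998 * r1) := by
    have h1 : FK.card ≤ (P.powersetCard r1).card :=
      card_le_card_of_injOn (fun b => b \ K) (fun b hb => mem_coe.2 (mem_powersetCard.2 (sd b hb)))
        inj1
    rw [card_powersetCard] at h1
    rw [pow_mul, ← hP]
    exact h1.trans (Nat.choose_le_pow _ _)
  have c3 : 2722 * r ≤ 4998 * r1 + 2285 * K.card := by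
    rw [← Nat.pow_le_pow_iff_right j1, pow_add, pow_mul j 2285]
    exact hc2.trans (Nat.mul_le_mul_right _ c2)
  have r1p : 1 ≤ r1 := by omega
  obtain ⟨F1, hF1⟩ : ∃ F1, F1 = FK.image fun b => b \ K := ⟨_, rfl⟩
  have cF : F1.card = FK.card := hF1 ▸ card_image_of_injOn inj1
  have m1 : ∀ b ∈ F1, ∃ b' ∈ FK, b' \ K = b := fun b hb => by rw [hF1] at hb; exact mem_image.1 hb
  have spr : ∀ p, (F1.filter fun b => p ∈ b).card * j ^ 2285 ≤ F1.card := fun p => by
    by_cases hp : p ∈ K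
    · rw [filter_eq_empty_iff.2 fun b hb hpb => ?_]
      · simp
      · obtain ⟨b', -, rfl⟩ := m1 b hb
        exact (mem_sdiff.1 hpb).2 hp
    · have h2 := hK2 {p} (disjoint_singleton_left.2 hp)
      rw [card_singleton, pow_one] at h2
      rw [cF]
      refine le_trans (Nat.mul_le_mul_right _ ?_) h2
      refine le_trans (card_le_card fun y hy => ?_) (card_image_le (f := fun b => b \ K))
      obtain ⟨hy1, hy2⟩ := mem_filter.1 hy
      obtain ⟨b, hb, rfl⟩ := m1 y hy1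
      exact mem_image_of_mem _ (mem_filter.2 ⟨(mem b hb).1,
        union_subset (mem b hb).2 (singleton_subset_iff.2 (mem_sdiff.1 hy2).1)⟩)
  obtain ⟨χ, hχ⟩ := hL M r1 (j ^ 2285) F1 hM
    (fun b hb => by obtain ⟨b', hb', rfl⟩ := m1 b hb; exact (sd b' hb').2) spr
    ((Nat.mul_le_mul_left _ (by omega)).trans hM1) (Nat.pow_pos j0)
  have prP : ∀ i, ∀ p ∈ P.filter fun p => χ p = i, p.Prime := fun i p hp =>
    (hG p (mem_filter.1 hp).1).1
  have hMj : 2 * M ^ (M * r1) ≤ j ^ r1 := by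
    refine le_trans ?_ (Nat.pow_le_pow_left hM2 r1)
    rw [mul_pow, ← pow_mul]
    exact Nat.mul_le_mul_right _ (Nat.le_self_pow (by omega) 2)
  refine ⟨fun i => (F1.filter fun b => ∀ p ∈ b, χ p = i).image fun b => ∏ p ∈ b, p,
    fun i => ∏ p ∈ P.filter fun p => χ p = i, p, ∏ p ∈ b0 \ K, (p + 1), r1, fun i hi => ?_,
    fun i _ i' _ hii => ?_, r1p, by omega, (Nat.pow_le_pow_right j0 (by omega)).trans s2,
    s1.trans (Nat.pow_le_pow_right j0 (by omega))⟩
  · have m2 : ∀ x ∈ (F1.filter fun b => ∀ p ∈ b, χ p = i).image fun b => ∏ p ∈ b, p,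
        ∃ b ∈ FK, (∀ p ∈ b \ K, χ p = i) ∧ ∏ p ∈ b \ K, p = x := fun x hx => by
      obtain ⟨b, hb, rfl⟩ := mem_image.1 hx
      obtain ⟨h1, h2⟩ := mem_filter.1 hb
      obtain ⟨b', hb', rfl⟩ := m1 b h1
      exact ⟨b', hb', h2, rfl⟩
    have cB : ((F1.filter fun b => ∀ p ∈ b, χ p = i).image fun b => ∏ p ∈ b, p).card =
        (F1.filter fun b => ∀ p ∈ b, χ p = i).card := card_image_of_injOn fun b hb b' hb' e => by
      obtain ⟨c, hc, rfl⟩ := m1 b (mem_filter.1 hb).1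
      obtain ⟨c', hc', rfl⟩ := m1 b' (mem_filter.1 hb').1
      have := congrArg Nat.primeFactors e
      rwa [Nat.primeFactors_prod (pr c hc), Nat.primeFactors_prod (pr c' hc')] at this
    have c4 : j ^ (2721 * r1) ≤ (F1.filter fun b => ∀ p ∈ b, χ p = i).card := by
      refine Nat.le_of_mul_le_mul_left (c := j ^ r1) ?_ (Nat.pow_pos j0)
      rw [← pow_add, show r1 + 2721 * r1 = 2722 * r1 by omega]
      exact (c1.trans (cF ▸ hχ i hi)).trans (Nat.mul_le_mul_right _ hMj)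
    refine ⟨⟨(prod_BM _ (prP i)).1, ?_, fun x hx => ?_, fun x hx => ?_, ?_⟩, ?_, fun x hx => ?_⟩
    · rw [← card_pos, cB]
      exact (Nat.pow_pos j0).trans_le c4
    · obtain ⟨b, hb, h1, rfl⟩ := m2 x hx
      exact prod_dvd_prod_of_subset _ _ _ fun p hp => mem_filter.2 ⟨(sd b hb).1 hp, h1 p hp⟩
    · obtain ⟨b, hb, -, rfl⟩ := m2 x hx
      rw [(prod_BM _ (pr b hb)).2, eqs b hb]
    · rw [cB]
      refine (Nat.pow_le_pow_left s1 _).trans (le_trans ?_ (Nat.pow_le_pow_left c4 _))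
      rw [← pow_mul, ← pow_mul]
      exact Nat.pow_le_pow_right j0 (by omega)
    · rw [Nat.primeFactors_prod (prP i)]
      exact filter_subset _ _
    · obtain ⟨b, hb, -, rfl⟩ := m2 x hx
      rw [Nat.primeFactors_prod (pr b hb), (sd b hb).2]
  · refine Nat.Coprime.prod_left fun p hp => Nat.Coprime.prod_right fun p' hp' => ?_
    refine (Nat.coprime_primes (prP i p hp) (prP i' p' hp')).2 fun e => hii ?_
    rw [← (mem_filter.1 hp).2, ← (mem_filter.1 hp').2, e]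

theorem sBM (hF : StFib) (hC : StCore) (hL : StCol) : StBM := by
  intro M hM
  filter_upwards [hF, eventually_ge_atTop 3, eventually_ge_atTop (2 * M ^ 2),
    eventually_ge_atTop (2 * M ^ M)] with j hj h3 h5 h6 P hP hG
  obtain ⟨F, s0, h1, h2, h4⟩ := hj P hP hG
  refine core_BM hC hL M j (j ^ 2275) hM h3 (Nat.one_le_pow _ _ (by omega)) ?_ h6 P hP
    (fun p hp => ⟨(hG p hp).1, (hG p hp).2.1, (hG p hp).2.2.1⟩) F s0 h1 h2 h4
  refine (Nat.mul_le_mul_right _ h5).trans ?_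
  rw [← pow_succ']
  exact Nat.pow_le_pow_right (by omega) (by norm_num)

end Pool.Agent.MP_2876a2_nt.Tu.V

end

noncomputable section
open Finset Filter
open scoped Pointwise


namespace Pool.Agent.MP_2876a2_nt.Tu.V

theorem cop_Ext {a b : ℕ} {P Q : Finset ℕ} (ha : a ≠ 0) (hb : b ≠ 0) (h1 : a.primeFactors ⊆ P)
    (h2 : b.primeFactors ⊆ Q) (h : Disjoint P Q) : a.Coprime b :=
  (Nat.disjoint_primeFactors ha hb).1 (disjoint_of_subset_left h1 (disjoint_of_subset_right h2 h))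

theorem cnt_Ext (j0 t2 i e : ℕ) (hj : 1 ≤ j0) :
    ∑ t ∈ range t2, (j0 + t) ^ e + ∑ l ∈ range (i + 1), (j0 + (t2 + l)) ^ e ≤
      (j0 + (t2 + i)) ^ (e + 1) := by
  rw [← sum_range_add (fun t => (j0 + t) ^ e), pow_succ']
  refine (sum_le_card_nsmul _ _ ((j0 + (t2 + i)) ^ e) fun t ht => ?_).trans ?_
  · exact Nat.pow_le_pow_left (by have := mem_range.1 ht; omega) e
  · rw [card_range, smul_eq_mul]
    exact Nat.mul_le_mul_right _ (by omega)

theorem sExt (hB : StBM) (hP : StPool) (hR : StRec) : StExt := by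
  intro M hM
  obtain ⟨jb, hb⟩ := eventually_atTop.1 (hB M hM)
  choose! Bf Nf sf rf h1 h2 h3 h35 h4 h5 using hb
  filter_upwards [hP, eventually_ge_atTop jb, eventually_ge_atTop 1] with j0 hp hj hj1
  have sm : ∀ P : ℕ → Finset ℕ,
      (∀ i, (P i).card = (j0 + i) ^ 4998 ∧ ∀ p ∈ P i, Gd (j0 + i) p) →
      (∀ i i', i ≠ i' → Disjoint (P i) (P i')) →
      SM M j0 (fun i t => Bf (j0 + t) (P t) i) (fun i t => Nf (j0 + t) (P t) i)
        (fun t => sf (j0 + t) (P t)) := fun P a b => by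
    have k1 := fun t => h1 (j0 + t) (by omega) (P t) (a t).1 (a t).2
    have cp : ∀ i < M, ∀ i' < M, ∀ t t', t ≠ t' →
        (Nf (j0 + t) (P t) i).Coprime (Nf (j0 + t') (P t') i') := fun i hi i' hi' t t' h =>
      cop_Ext (k1 t i hi).1.sqf.ne_zero (k1 t' i' hi').1.sqf.ne_zero (k1 t i hi).2.1
        (k1 t' i' hi').2.1 (b t t' h)
    refine ⟨fun i hi => ⟨fun t => (k1 t i hi).1, cp i hi i hi, fun t p hp => ?_, fun t => ?_,
      fun t => h4 (j0 + t) (by omega) (P t) (a t).1 (a t).2,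
      fun t => h5 (j0 + t) (by omega) (P t) (a t).1 (a t).2, fun t b hb =>
        ((k1 t i hi).2.2 b hb).trans_le (h35 (j0 + t) (by omega) (P t) (a t).1 (a t).2)⟩,
      fun i hi i' hi' h t t' => ?_⟩
    · have := (a t).2 p ((k1 t i hi).2.1 hp)
      exact ⟨this.2.1, this.2.2.1⟩
    · exact (card_le_card (k1 t i hi).2.1).trans (a t).1.le
    · by_cases e : t = t'
      · subst e
        exact h2 (j0 + t) (by omega) (P t) (a t).1 (a t).2 i hi i' hi' h
      · exact cp i hi i' hi' t t' e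
  obtain ⟨P, a, b⟩ := hp
  refine ⟨_, _, _, sm P a b, fun t2 G ρ hA => ?_⟩
  obtain ⟨Q, q1, q2⟩ := hR ((range t2).biUnion P)
    (fun i => GA (j0 + (t2 + i)) (G (t2 + i)) (ρ (t2 + i))) (fun i => (j0 + (t2 + i)) ^ 4998)
    fun i => by
      refine le_trans ?_ (hA (t2 + i) (by omega))
      refine le_trans (Nat.add_le_add_right (card_biUnion_le.trans (le_of_eq ?_)) _)
        (cnt_Ext j0 t2 i 4998 hj1)
      exact sum_congr rfl fun t _ => (a t).1
  obtain ⟨P1, e1, e2⟩ : ∃ P1 : ℕ → Finset ℕ, (∀ t < t2, P1 t = P t) ∧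
      ∀ i, P1 (t2 + i) = Q i :=
    ⟨fun t => if t < t2 then P t else Q (t - t2), fun t ht => if_pos ht, fun i => by
      simp only [if_neg (show ¬ t2 + i < t2 by omega), Nat.add_sub_cancel_left]⟩
  have a1 : ∀ t, (P1 t).card = (j0 + t) ^ 4998 ∧ ∀ p ∈ P1 t, Gd (j0 + t) p := fun t => by
    rcases lt_or_ge t t2 with h | h
    · rw [e1 t h]; exact a t
    · obtain ⟨i, rfl⟩ := Nat.exists_eq_add_of_le h
      rw [e2]
      exact ⟨(q1 i).2.1, fun p hp => (mem_GA.1 ((q1 i).1 hp)).1⟩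
  have mix : ∀ t < t2, ∀ i, Disjoint (Q i) (P t) := fun t ht i =>
    disjoint_of_subset_right (subset_biUnion_of_mem P (mem_range.2 ht)) (q1 i).2.2
  have b1 : ∀ t t', t ≠ t' → Disjoint (P1 t) (P1 t') := fun t t' hne => by
    rcases lt_or_ge t t2 with h | h <;> rcases lt_or_ge t' t2 with h' | h'
    · rw [e1 t h, e1 t' h']; exact b t t' hne
    · obtain ⟨i, rfl⟩ := Nat.exists_eq_add_of_le h'
      rw [e1 t h, e2]; exact (mix t h i).symm
    · obtain ⟨i, rfl⟩ := Nat.exists_eq_add_of_le h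
      rw [e1 t' h', e2]; exact mix t' h' i
    · obtain ⟨i, rfl⟩ := Nat.exists_eq_add_of_le h
      obtain ⟨i', rfl⟩ := Nat.exists_eq_add_of_le h'
      rw [e2, e2]; exact q2 i i' (by omega)
  refine ⟨_, _, _, fun t => rf (j0 + t) (P1 t), sm P1 a1 b1, fun t ht => ?_, fun t ht => ?_⟩
  · simp only [e1 t ht, and_self, implies_true]
  · have k1 := h1 (j0 + t) (by omega) (P1 t) (a1 t).1 (a1 t).2
    refine ⟨h3 (j0 + t) (by omega) (P1 t) (a1 t).1 (a1 t).2,
      fun i hi => ⟨(k1 i hi).2.2, fun p hp => ?_⟩⟩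
    have := (k1 i hi).2.1 hp
    obtain ⟨l, rfl⟩ := Nat.exists_eq_add_of_le ht
    rw [e2] at this
    exact (mem_GA.1 ((q1 l).1 this)).2

end Pool.Agent.MP_2876a2_nt.Tu.V

end

noncomputable section
open Finset Filter
open scoped Pointwise


namespace Pool.Agent.MP_2876a2_nt.Tu.V

theorem gcd_Mul2 {N N' b b' : ℕ} (h : N.Coprime N') (hb : b ∣ N) (hb' : b' ∣ N') :
    Nat.gcd (b * b') N = b := by
  rw [Nat.Coprime.gcd_mul_right_cancel b (h.symm.coprime_dvd_left hb'), Nat.gcd_eq_left hb]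

theorem inj_Mul2 {B B' : Finset ℕ} {N N' : ℕ} (h : N.Coprime N') (hB : ∀ b ∈ B, b ∣ N)
    (hB' : ∀ b ∈ B', b ∣ N') :
    Set.InjOn (fun p : ℕ × ℕ => p.1 * p.2) ((B ×ˢ B' : Finset (ℕ × ℕ)) : Set (ℕ × ℕ)) := by
  rintro ⟨a, a'⟩ ha ⟨b, b'⟩ hb e
  simp only [coe_product, Set.mem_prod, mem_coe] at ha hb
  change a * a' = b * b' at e
  have e1 := gcd_Mul2 h (hB a ha.1) (hB' a' ha.2)
  have e2 := gcd_Mul2 h.symm (hB' a' ha.2) (hB a ha.1)
  rw [e, gcd_Mul2 h (hB b hb.1) (hB' b' hb.2)] at e1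
  rw [mul_comm, e, mul_comm, gcd_Mul2 h.symm (hB' b' hb.2) (hB b hb.1)] at e2
  rw [e1, e2]

theorem sMul2 : StMul2 := by
  intro B B' N N' s s' h h' hc
  have hi := inj_Mul2 hc h.dvd h'.dvd
  have hcard : (B * B').card = B.card * B'.card := by
    rw [mul_def, card_image_of_injOn hi, card_product]
  refine ⟨⟨Nat.squarefree_mul_iff.2 ⟨hc, h.sqf, h'.sqf⟩, h.ne.mul h'.ne, fun a ha => ?_,
    fun a ha => ?_, ?_⟩, hcard, fun f => ?_⟩
  · obtain ⟨b, hb, b', hb', rfl⟩ := mem_mul.1 ha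
    exact mul_dvd_mul (h.dvd b hb) (h'.dvd b' hb')
  · obtain ⟨b, hb, b', hb', rfl⟩ := mem_mul.1 ha
    rw [← h.sig b hb, ← h'.sig b' hb']
    exact ArithmeticFunction.isMultiplicative_sigma.map_mul_of_coprime
      (Nat.Coprime.coprime_dvd_right (h'.dvd b' hb') (hc.coprime_dvd_left (h.dvd b hb)))
  · rw [hcard, mul_pow, mul_pow]
    exact Nat.mul_le_mul h.big h'.big
  · rw [mul_def, sum_image hi, sum_product]

end Pool.Agent.MP_2876a2_nt.Tu.V

end

noncomputable section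
/-! Products of blocks at late scales. -/


open Finset Filter
open scoped Pointwise


namespace Pool.Agent.MP_2876a2_nt.Tu.V

theorem sg_le_Prod2 {a : ℕ} (ha : Squarefree a) :
    (sg a : ℝ) ≤ a * Real.exp (∑ p ∈ a.primeFactors, (1 / p : ℝ)) := by
  rw [sg, ← ArithmeticFunction.isMultiplicative_sigma.prod_primeFactors ha, Real.exp_sum]
  conv_rhs => rw [← Nat.prod_primeFactors_of_squarefree ha]
  rw [Nat.primeFactors_prod fun p hp => Nat.prime_of_mem_primeFactors hp, Nat.cast_prod,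
    Nat.cast_prod, ← prod_mul_distrib]
  refine prod_le_prod (fun _ _ => Nat.cast_nonneg _) fun p hp => ?_
  have h := Nat.prime_of_mem_primeFactors hp
  have h0 : (0 : ℝ) < p := by exact_mod_cast h.pos
  rw [ArithmeticFunction.sigma_one_apply, h.sum_divisors]
  refine le_trans (le_of_eq ?_) (mul_le_mul_of_nonneg_left (Real.add_one_le_exp _) h0.le)
  push_cast
  field_simp
  ring

theorem sum_le_Prod2 (N : ℕ → ℕ) (hN : ∀ i, N i ≠ 0) (I : Finset ℕ) :
    ∑ p ∈ (∏ i ∈ I, N i).primeFactors, (1 / p : ℝ) ≤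
      ∑ i ∈ I, ∑ p ∈ (N i).primeFactors, (1 / p : ℝ) := by
  induction I using Finset.induction_on with
  | empty => simp
  | insert i I hi ih =>
    rw [prod_insert hi, sum_insert hi,
      Nat.primeFactors_mul (hN i) (prod_ne_zero_iff.2 fun j _ => hN j)]
    refine le_trans ?_ (add_le_add_right ih _)
    rw [← sum_union_inter]
    exact le_add_of_nonneg_right (sum_nonneg fun _ _ => by positivity)

theorem one_Prod2 (F : Finset ℕ) (n a : ℕ) (hn : 0 < n) (h1 : ∀ p ∈ F, n ^ (a + 2) < p)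
    (h2 : F.card ≤ n ^ a) : ∑ p ∈ F, (1 / p : ℝ) ≤ 1 / (n : ℝ) ^ 2 := by
  have h0 : (0 : ℝ) < n := by exact_mod_cast hn
  have h3 : ∑ p ∈ F, (1 / p : ℝ) ≤ F.card • (1 / (n : ℝ) ^ (a + 2)) := by
    refine sum_le_card_nsmul _ _ _ fun p hp => ?_
    refine one_div_le_one_div_of_le (by positivity) ?_
    exact_mod_cast (h1 p hp).le
  refine h3.trans ?_
  have h4 : (F.card : ℝ) ≤ (n : ℝ) ^ a := by exact_mod_cast h2
  rw [nsmul_eq_mul]
  refine (mul_le_mul_of_nonneg_right h4 (by positivity)).trans (le_of_eq ?_)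
  rw [pow_add]
  field_simp

theorem tel_Prod2 (x : ℝ) (hx : 2 ≤ x) (m : ℕ) :
    ∑ i ∈ range m, 1 / (x + i) ^ 2 ≤ 1 / (x - 1) - 1 / (x - 1 + m) := by
  induction m with
  | zero => simp
  | succ m ih =>
    rw [sum_range_succ]
    have hm : (0 : ℝ) ≤ m := Nat.cast_nonneg m
    have h1 : 0 < x - 1 + m := by linarith
    have h2 : 0 < x + m := by linarith
    have h3 : 1 / (x + m) ^ 2 ≤ 1 / (x - 1 + m) - 1 / (x + m) := by
      rw [div_sub_div _ _ h1.ne' h2.ne', div_le_div_iff₀ (by positivity) (by positivity)]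
      nlinarith
    have h4 : x - 1 + ((m + 1 : ℕ) : ℝ) = x + m := by
      push_cast
      ring
    rw [h4]
    linarith

theorem tail_Prod2 (j0 u : ℕ) (hj : 2 ≤ j0) (I : Finset ℕ) (hI : ∀ t ∈ I, u ≤ t) :
    ∑ t ∈ I, 1 / ((j0 + t : ℕ) : ℝ) ^ 2 ≤ 2 / ((j0 : ℝ) + u) := by
  have hx : (2 : ℝ) ≤ (j0 : ℝ) + u := by
    have : (2 : ℝ) ≤ j0 := by exact_mod_cast hj
    have : (0 : ℝ) ≤ u := Nat.cast_nonneg u
    linarith
  have h1 : I ⊆ Ico u (I.sup id + 1) := fun t ht =>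
    mem_Ico.2 ⟨hI t ht, Nat.lt_succ_of_le (le_sup (f := id) ht)⟩
  refine (sum_le_sum_of_subset_of_nonneg h1 fun _ _ _ => by positivity).trans ?_
  rw [sum_Ico_eq_sum_range]
  have h2 := tel_Prod2 _ hx (I.sup id + 1 - u)
  have h3 : ∀ i : ℕ, ((j0 + (u + i) : ℕ) : ℝ) = (j0 : ℝ) + u + i := fun i => by
    push_cast
    ring
  simp only [h3]
  refine h2.trans ?_
  generalize (j0 : ℝ) + u = x at hx
  generalize I.sup id + 1 - u = m
  have hm : (0 : ℝ) ≤ m := Nat.cast_nonneg m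
  have h4 : 0 ≤ 1 / (x - 1 + m) := by
    have : 0 < x - 1 + m := by linarith
    positivity
  have h5 : 1 / (x - 1) ≤ 2 / x := by
    rw [div_le_div_iff₀ (by linarith) (by linarith)]
    linarith
  linarith

theorem sProd2 (hM : StMul2) : StProd2 := by
  intro j0 B N s hj H u I hI
  have hb : Bk (∏ i ∈ I, B i) (∏ i ∈ I, N i) (∏ i ∈ I, s i) := by
    clear hI
    induction I using Finset.induction_on with
    | empty =>
      simp only [prod_empty]
      refine ⟨squarefree_one, one_nonempty, fun b hb => ?_, fun b hb => ?_, by simp⟩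
      · rw [mem_one.1 hb]
      · rw [mem_one.1 hb]
        simp
    | insert i I hi ih =>
      rw [prod_insert hi, prod_insert hi, prod_insert hi]
      exact (hM _ _ _ _ _ _ (H.blk i) ih
        (Nat.Coprime.prod_right fun j hj => H.cop i j fun e => hi (e ▸ hj))).1
  refine ⟨hb, fun a ha => ⟨hb.pos ha, ?_, ?_⟩⟩
  · rw [← hb.sig a ha, sg, ArithmeticFunction.sigma_one_apply]
    exact single_le_sum (f := fun d => d) (fun _ _ => Nat.zero_le _)
      (Nat.mem_divisors_self a (hb.pos ha).ne')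
  · have h1 := sg_le_Prod2 (hb.sqf.squarefree_of_dvd (hb.dvd a ha))
    have h2 : ∑ p ∈ a.primeFactors, (1 / p : ℝ) ≤ 2 / ((j0 : ℝ) + u) :=
      (sum_le_sum_of_subset_of_nonneg (Nat.primeFactors_mono (hb.dvd a ha) hb.sqf.ne_zero)
        fun _ _ _ => by positivity).trans
        ((sum_le_Prod2 N (fun i => (H.blk i).sqf.ne_zero) I).trans
          ((sum_le_sum fun t _ => one_Prod2 _ (j0 + t) 4998 (by omega)
            (fun p hp => (H.prm t p hp).1) (H.few t)).trans (tail_Prod2 j0 u hj I hI)))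
    rw [← hb.sig a ha, mul_comm]
    exact h1.trans (mul_le_mul_of_nonneg_left (Real.exp_le_exp.2 h2) (Nat.cast_nonneg a))

end Pool.Agent.MP_2876a2_nt.Tu.V

end

noncomputable section
open Finset Filter
open scoped Pointwise


namespace Pool.Agent.MP_2876a2_nt.Tu.V

theorem one_Tail {b W ρ : ℕ} (hb : Squarefree b) (h : ∀ p ∈ b.primeFactors, p ≡ ρ [MOD W]) :
    b ≡ ρ ^ b.primeFactors.card [MOD W] := by
  conv_lhs => rw [← Nat.prod_primeFactors_of_squarefree hb]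
  rw [← prod_const]
  exact Nat.ModEq.prod h

theorem prod_Tail (W : ℕ) (B : ℕ → Finset ℕ) (x : ℕ → ℕ) (I : Finset ℕ)
    (h : ∀ t ∈ I, ∀ b ∈ B t, b ≡ x t [MOD W]) :
    ∀ γ ∈ ∏ t ∈ I, B t, γ ≡ ∏ t ∈ I, x t [MOD W] := by
  induction I using Finset.induction_on with
  | empty =>
    intro γ hγ
    rw [prod_empty, Finset.mem_one] at hγ
    rw [hγ, prod_empty]
  | insert a I ha ih =>
    intro γ hγ
    rw [prod_insert ha] at hγ ⊢
    obtain ⟨u, hu, v, hv, rfl⟩ := mem_mul.1 hγ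
    exact (h a (mem_insert_self _ _) u hu).mul
      (ih (fun t ht => h t (mem_insert_of_mem ht)) v hv)

theorem mem_Tail (B : ℕ → Finset ℕ) (b : ℕ → ℕ) (hb : ∀ t, b t ∈ B t) (I : Finset ℕ) :
    ∏ t ∈ I, b t ∈ ∏ t ∈ I, B t := by
  induction I using Finset.induction_on with
  | empty => simp
  | insert a I ha ih => rw [prod_insert ha, prod_insert ha]; exact mul_mem_mul (hb a) ih

theorem sTail : StTail := by
  intro j0 t2 J W B N s G ρ r hS h
  have sq : ∀ t, ∀ b ∈ B t, Squarefree b := fun t b hb =>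
    (hS.blk t).sqf.squarefree_of_dvd ((hS.blk t).dvd b hb)
  have sub : ∀ t, ∀ b ∈ B t, b.primeFactors ⊆ (N t).primeFactors := fun t b hb =>
    Nat.primeFactors_mono ((hS.blk t).dvd b hb) (hS.blk t).sqf.ne_zero
  choose b hb using fun t => (hS.blk t).ne
  have ex : ∀ t, t2 ≤ t → ∃ p, p ∈ (b t).primeFactors := fun t ht =>
    card_pos.1 (by rw [(h t ht).2.2.1 _ (hb t)]; exact (h t ht).1)
  refine ⟨prod_Tail W B _ _ fun t ht x hx => ?_, fun t ht => ?_, fun t ht hG => ?_⟩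
  · obtain ⟨-, h2, h3, h4⟩ := h t (mem_Ico.1 ht).1
    rw [← h3 x hx]
    exact one_Tail (sq t x hx) fun p hp => (h4 p (sub t x hx hp)).of_dvd h2
  · obtain ⟨p, hp⟩ := ex t (mem_Ico.1 ht).1
    obtain ⟨n, hn⟩ := (Nat.dvd_of_mem_primeFactors hp).trans (dvd_prod_of_mem b ht)
    exact ⟨n, p, sub t _ (hb t) hp, by rw [mul_comm, ← hn]; exact mem_Tail B b hb _⟩
  · obtain ⟨p, hp⟩ := ex t ht
    have h1 : p.Prime := Nat.prime_of_mem_primeFactors hp
    obtain ⟨c, hc⟩ := Nat.dvd_of_mem_primeFactors hp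
    have h2 : p.Coprime c := Nat.coprime_of_squarefree_mul (hc ▸ sq t _ (hb t))
    have h3 : sg (b t) = (p + 1) * sg c := by
      unfold sg
      rw [hc, ArithmeticFunction.isMultiplicative_sigma.map_mul_of_coprime h2,
        ArithmeticFunction.sigma_one_apply p, h1.sum_divisors]
    have h4 : G t ∣ p + 1 :=
      (((h t ht).2.2.2 p (sub t _ (hb t) hp)).add_right 1).dvd_iff (dvd_refl _) |>.2 hG
    rw [← (hS.blk t).sig _ (hb t), h3]
    exact h4.mul_right _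

end Pool.Agent.MP_2876a2_nt.Tu.V

end

noncomputable section
open Finset Filter
open scoped Pointwise


namespace Pool.Agent.MP_2876a2_nt.Tu.V

theorem dz_Adm (j : ℕ) : Dz (j ^ 5000) = j ^ 2275 := by
  unfold Dz
  rw [Nat.cast_pow, ← Real.rpow_natCast, ← Real.rpow_mul (Nat.cast_nonneg j),
    show ((5000 : ℕ) : ℝ) * (91 / 200) = (2275 : ℕ) by norm_num, Real.rpow_natCast,
    ← Nat.cast_pow, Nat.floor_natCast]

theorem sAdm (hA : StA2) : StAdm := by
  intro G ρ hG hρ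
  have g : (0 : ℝ) < G := by exact_mod_cast hG
  have t : Tendsto (fun j : ℕ => j ^ 5000) atTop atTop := tendsto_pow_atTop (by norm_num)
  have l := (Real.isLittleO_log_id_atTop.bound (c := 1 / (5000000 * G)) (by positivity))
  filter_upwards [t.eventually (hA G ρ hG hρ), tendsto_natCast_atTop_atTop.eventually l,
    eventually_ge_atTop 2] with j h1 h2 h3
  rw [dz_Adm] at h1
  have j1 : (1 : ℝ) < j := by exact_mod_cast h3
  have lp := Real.log_pos j1
  rw [id, Real.norm_of_nonneg lp.le, Real.norm_of_nonneg (by linarith), one_div, inv_mul_eq_div,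
    le_div_iff₀ (by positivity)] at h2
  refine Nat.cast_le (α := ℝ).1 (le_trans ?_ h1)
  rw [Nat.cast_pow, Nat.cast_pow, Real.log_pow, le_div_iff₀ (by positivity),
    show (5000 : ℕ) = 4999 + 1 from rfl, pow_succ (j : ℝ) 4999]
  refine mul_le_mul_of_nonneg_left ?_ (pow_nonneg (by linarith) _)
  push_cast
  linarith

end Pool.Agent.MP_2876a2_nt.Tu.V

end

noncomputable section
open Finset Filter
open scoped Pointwise


namespace Pool.Agent.MP_2876a2_nt.Tu.V

open Pool.Agent.MP_43e117_nt.PG in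
theorem sum_th_Lo2 (I : Finset ℕ) (P : ℕ → Prop) [DecidablePred P] :
    ∑ n ∈ I.filter P, th n = ∑ p ∈ (I.filter Nat.Prime).filter P, Real.log p := by
  rw [filter_comm, sum_filter (p := Nat.Prime)]
  rfl

theorem dvd_iff_Lo2 {d : ℕ} (hd : 1 ≤ d) (n : ℕ) : n ≡ d - 1 [MOD d] ↔ d ∣ n + 1 := by
  constructor
  · intro h
    have h2 : n + 1 ≡ d - 1 + 1 [MOD d] := h.add_right 1
    rw [Nat.sub_add_cancel hd] at h2
    exact (Nat.modEq_zero_iff_dvd.1 (h2.trans (Nat.modEq_zero_iff_dvd.2 dvd_rfl)))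
  · intro h
    apply Nat.ModEq.add_right_cancel' 1
    rw [Nat.sub_add_cancel hd]
    exact (Nat.modEq_zero_iff_dvd.2 h).trans (Nat.modEq_zero_iff_dvd.2 dvd_rfl).symm

theorem cop_Lo2 {d : ℕ} (hd : 1 ≤ d) : (d - 1).Coprime d := by
  obtain ⟨e, rfl⟩ : ∃ e, d = e + 1 := ⟨d - 1, by omega⟩
  simp

theorem TH_nonneg_Lo2 (S : Finset ℕ) : 0 ≤ TH S :=
  sum_nonneg fun p _ => Real.log_natCast_nonneg p

open Pool.Agent.MP_43e117_nt.PG in
theorem inner_Lo2 {N G ρ d a : ℕ} (hG : 0 < G) (hd : 1 ≤ d) (hc : d.Coprime G) (hdN : G * d ≤ N)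
    (ha : a ≡ ρ [MOD G]) (ha' : a ≡ d - 1 [MOD d]) {e : ℝ}
    (h : |Dl th (Ioc N (2 * N)) (G * d) a| ≤ e) :
    TH (PN N) / G.totient / d - e ≤
      ∑ p ∈ (PA N G ρ).filter (fun p => d ∣ p + 1), Real.log p := by
  have h1 : ∑ n ∈ (Ioc N (2 * N)).filter (fun n => n ≡ a [MOD G * d]), th n =
      ∑ p ∈ (PA N G ρ).filter (fun p => d ∣ p + 1), Real.log p := by
    rw [sum_th_Lo2]
    refine sum_congr ?_ fun _ _ => rfl
    ext n
    rw [PA, PN, mem_filter, mem_filter (s := filter _ (filter _ _)),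
      mem_filter (s := filter _ (Ioc _ _)), and_assoc,
      ← Nat.modEq_and_modEq_iff_modEq_mul hc.symm, ← dvd_iff_Lo2 hd n]
    exact and_congr_right fun _ => ⟨fun h => ⟨h.1.trans ha, h.2.trans ha'⟩,
      fun h => ⟨h.1.trans ha.symm, h.2.trans ha'.symm⟩⟩
  have h2 : ∑ n ∈ (Ioc N (2 * N)).filter (fun n => n.Coprime (G * d)), th n = TH (PN N) := by
    rw [sum_th_Lo2]
    unfold TH
    refine sum_congr ?_ fun _ _ => rfl
    refine filter_true_of_mem fun p hp => ?_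
    rw [mem_filter, mem_Ioc] at hp
    rw [hp.2.coprime_iff_not_dvd]
    intro hh
    have := Nat.le_of_dvd (Nat.mul_pos hG hd) hh
    omega
  unfold Dl at h
  rw [h1, h2, Nat.totient_mul hc.symm, Nat.cast_mul, ← div_div] at h
  have h3 := (abs_le.1 h).1
  have h4 : TH (PN N) / G.totient / d ≤ TH (PN N) / G.totient / d.totient := by
    apply div_le_div_of_nonneg_left (div_nonneg (TH_nonneg_Lo2 _) (Nat.cast_nonneg _))
    · exact_mod_cast Nat.totient_pos.2 hd
    · exact_mod_cast Nat.totient_le d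
  linarith

theorem swap_Lo2 (S D : Finset ℕ) :
    ∑ p ∈ S, Real.log p * ∑ d ∈ D.filter (fun d => d ∣ p + 1), La d =
      ∑ d ∈ D, La d * ∑ p ∈ S.filter (fun p => d ∣ p + 1), Real.log p := by
  simp only [sum_filter, mul_sum]
  rw [sum_comm]
  refine sum_congr rfl fun d _ => sum_congr rfl fun p _ => ?_
  split_ifs
  · ring
  · simp

theorem sLo2 (hBV : Pool.Agent.MP_43e117_nt.PG.StBV) (hM : StMer2) : StLo2 := by
  intro G ρ hG hρ
  obtain ⟨C, hC⟩ := hM G hG
  refine ⟨C + Real.log 2, ?_⟩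
  have hev : ∀ᶠ N : ℕ in atTop, (G : ℝ) ≤ (N : ℝ) ^ (1 / 1000 : ℝ) :=
    ((tendsto_rpow_atTop (by norm_num)).comp tendsto_natCast_atTop_atTop).eventually_ge_atTop _
  filter_upwards [hBV (1 / 1000) 1 0 (by norm_num) (by norm_num), eventually_ge_atTop 2, hev]
    with N hN h2 hGN
  obtain ⟨E, hE0, hE, hs⟩ := hN N (2 * N) le_rfl (by omega) le_rfl
  have e1 : (1 / 2 - 1 / 1000 : ℝ) = 499 / 1000 := by norm_num
  rw [e1] at hE hs
  have hN1 : (1 : ℝ) ≤ N := by exact_mod_cast (by omega : 1 ≤ N)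
  have hN2 : (1 : ℝ) < N := by exact_mod_cast (by omega : 1 < N)
  have hL : 0 < Real.log N := Real.log_pos hN2
  have hx1 : (1 : ℝ) ≤ (N : ℝ) ^ (91 / 200 : ℝ) := Real.one_le_rpow hN1 (by norm_num)
  have hxN : (N : ℝ) ^ (499 / 1000 : ℝ) ≤ N := by
    calc (N : ℝ) ^ (499 / 1000 : ℝ) ≤ (N : ℝ) ^ (1 : ℝ) :=
          Real.rpow_le_rpow_of_exponent_le hN1 (by norm_num)
      _ = N := Real.rpow_one _
  have hD1 : 1 ≤ Dz N := Nat.le_floor (by exact_mod_cast hx1)
  have hDx : (Dz N : ℝ) ≤ (N : ℝ) ^ (91 / 200 : ℝ) := Nat.floor_le (by linarith)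
  have hDh : (N : ℝ) ^ (91 / 200 : ℝ) / 2 < Dz N := Nat.div_two_lt_floor hx1
  have hlog : 91 / 200 * Real.log N - Real.log 2 ≤ Real.log (Dz N) := by
    have := Real.log_le_log (by positivity) hDh.le
    rw [Real.log_div (by positivity) (by norm_num), Real.log_rpow (by positivity)] at this
    exact this
  have hlev : ∀ d ∈ (Icc 1 (Dz N)).filter (fun d => d.Coprime G),
      ((G * d : ℕ) : ℝ) ≤ (N : ℝ) ^ (499 / 1000 : ℝ) := fun d hd => by
    have hd2 : (d : ℝ) ≤ Dz N := by exact_mod_cast (mem_Icc.1 (mem_filter.1 hd).1).2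
    refine le_trans ?_ (Real.rpow_le_rpow_of_exponent_le hN1
      (show (1 / 1000 + 91 / 200 : ℝ) ≤ 499 / 1000 by norm_num))
    rw [Real.rpow_add (by positivity), Nat.cast_mul]
    exact mul_le_mul hGN (hd2.trans hDx) (Nat.cast_nonneg _) (by positivity)
  have hs' : ∑ d ∈ (Icc 1 (Dz N)).filter (fun d => d.Coprime G), E (G * d) ≤ N / Real.log N := by
    have hs2 : ∑ q ∈ Icc 1 ⌊(N : ℝ) ^ (499 / 1000 : ℝ)⌋₊, E q ≤ N / Real.log N := by
      simpa using hs
    rw [← sum_image (f := E) fun _ _ _ _ h => Nat.eq_of_mul_eq_mul_left hG h]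
    refine le_trans (sum_le_sum_of_subset_of_nonneg (fun q hq => ?_) fun q _ _ => hE0 q) hs2
    obtain ⟨d, hd, rfl⟩ := mem_image.1 hq
    exact mem_Icc.2 ⟨Nat.mul_pos hG (mem_Icc.1 (mem_filter.1 hd).1).1, Nat.le_floor (hlev d hd)⟩
  rw [swap_Lo2]
  have key : ∀ d ∈ (Icc 1 (Dz N)).filter (fun d => d.Coprime G),
      TH (PN N) / G.totient * (La d / d) - Real.log N * E (G * d) ≤
      La d * ∑ p ∈ (PA N G ρ).filter (fun p => d ∣ p + 1), Real.log p := by
    intro d hd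
    have hdx := hlev d hd
    rw [mem_filter, mem_Icc] at hd
    have hdN : G * d ≤ N := by exact_mod_cast hdx.trans hxN
    obtain ⟨a, ha, ha'⟩ := Nat.chineseRemainder hd.2.symm ρ (d - 1)
    have hco : a.Coprime (G * d) := Nat.Coprime.mul_right
      (by rw [Nat.Coprime, ha.gcd_eq]; exact hρ) (by rw [Nat.Coprime, ha'.gcd_eq]; exact cop_Lo2 hd.1.1)
    have h1 := inner_Lo2 hG hd.1.1 hd.2 hdN ha ha' (hE (G * d) a (Nat.mul_pos hG hd.1.1) hdx hco)
    have h0 : 0 ≤ La d := ArithmeticFunction.vonMangoldt_nonneg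
    have h3 : La d ≤ Real.log N :=
      ArithmeticFunction.vonMangoldt_le_log.trans
        (Real.log_le_log (by exact_mod_cast hd.1.1)
          (by exact_mod_cast (Nat.le_mul_of_pos_left d hG).trans hdN))
    have h4 := mul_le_mul_of_nonneg_left h1 h0
    have h5 := mul_le_mul_of_nonneg_right h3 (hE0 (G * d))
    have h6 : TH (PN N) / G.totient * (La d / d) = La d * (TH (PN N) / G.totient / d) := by ring
    rw [h6]
    nlinarith
  refine le_trans ?_ ((sum_le_sum key).trans (sum_le_sum_of_subset_of_nonneg (filter_subset _ _)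
    fun d _ _ => mul_nonneg ArithmeticFunction.vonMangoldt_nonneg (TH_nonneg_Lo2 _)))
  rw [sum_sub_distrib, ← mul_sum, ← mul_sum]
  have h7 : Real.log N * ∑ d ∈ (Icc 1 (Dz N)).filter (fun d => d.Coprime G), E (G * d) ≤ N := by
    calc _ ≤ Real.log N * (N / Real.log N) := mul_le_mul_of_nonneg_left hs' hL.le
      _ = N := by field_simp
  have h8 : 91 / 200 * Real.log N - (C + Real.log 2) ≤
      ∑ d ∈ (Icc 1 (Dz N)).filter (fun d => d.Coprime G), La d / d := by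
    have := hC (Dz N) hD1
    linarith
  have h9 := mul_le_mul_of_nonneg_left h8
    (div_nonneg (TH_nonneg_Lo2 (PN N)) (Nat.cast_nonneg G.totient))
  linarith

end Pool.Agent.MP_2876a2_nt.Tu.V

end

noncomputable section
open Finset Filter
open scoped Pointwise

namespace Pool.Agent.MP_2876a2_nt.Tu.V

theorem sPool (hA : StAdm) (hR : StRec) : StPool := by
  obtain ⟨j1, h1⟩ := eventually_atTop.1 (hA 1 0 one_pos (by simp))
  filter_upwards [eventually_ge_atTop j1, eventually_ge_atTop 1] with j0 hj hj1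
  obtain ⟨P, h2, h3⟩ := hR ∅ (fun i => GA (j0 + i) 1 0) (fun i => (j0 + i) ^ 4998) fun i => by
    refine le_trans ?_ (h1 (j0 + i) (by omega))
    have := cnt_Ext j0 0 i 4998 hj1
    simpa using this
  exact ⟨P, fun i => ⟨(h2 i).2.1, fun p hp => (mem_GA.1 ((h2 i).1 hp)).1⟩, h3⟩

end Pool.Agent.MP_2876a2_nt.Tu.V

end
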