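import Pool.Agent.MP_2876a2_nt.Tu.Fin2
import Pool.Agent.MP_2876a2_nt.Tu.V1
import Pool.Agent.MP_2876a2_nt.Tu.V2
import Pool.Agent.MP_2876a2_nt.Tu.Main3

/-!
Infinitely many pairwise coprime feebly amicable `k`-tuples for every `k ≥ 50`.
-/

set_option autoImplicit false

open Finset Filter

namespace Pool.Agent.MP_2876a2_nt.Tu.V

theorem aRc : StRc := sRc sMer

theorem aA3 : StA2 := sA3 aTh (sLo2 MP_43e117_nt.PG.a_BV (sMer2 sMer))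
  (sPc (sPBV MP_43e117_nt.PG.a_BV aTh aRc) (sPBT sBT3 aRc) sSum) sIneq

theorem aAdm : StAdm := sAdm aA3

theorem aBM3 : StBM := sBM (sFib sPsi) sCore (sCol sDis sAvg)

theorem coprime_tuples (k : ℕ) (hk : 50 ≤ k) :
    Set.Infinite {Z : Finset ℕ | Z.card = k ∧ (∀ n ∈ Z, 0 < n) ∧
      (Z : Set ℕ).Pairwise Nat.Coprime ∧
      ∑ n ∈ Z, (n : ℚ) / ((ArithmeticFunction.sigma 1 n : ℕ) : ℚ) = 1} := by
  refine Set.Infinite.of_image (fun Z => Z.sup id) (Set.infinite_of_forall_exists_gt fun M => ?_)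
  obtain ⟨Z, h1, h2, h3, h4, n, hn, h5⟩ := pc (sER (sER1 aA2 (sRound aBM)))
    (sExt aBM3 (sPool aAdm sRec) sRec) aAdm
    (sDM3 (sDec3 (sProd2 sMul2) sMul2 sSlow2 sSel2 (sBil3 sCS (sH sH1) sNum3)) sWt)
    (sDiff3 sFour2 (sAp3 (sMas3 sIn sGs))) (sPop2 sPopA) (sProd2 sMul2) sMul2 sTail sUnits
    (sPads (sCof4 (sDiv4 aTh))) sKey sEnd 46 (k - 49) M le_rfl (by norm_num) (by omega)
  exact ⟨Z.sup id, ⟨Z, ⟨by omega, h2, h3, h4⟩, rfl⟩, h5.trans_le (le_sup (f := id) hn)⟩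

end Pool.Agent.MP_2876a2_nt.Tu.V
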