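import Pool.Agent.MP_2876a2_nt.Tu.St4
import Pool.Agent.MP_357fb4_an.FL
import Pool.Agent.MP_fdd1d3_nt.Mertens
import Pool.Agent.MP_c7a479_co.PolySieve

/-!
Trees of primes of bounded depth.
-/

set_option autoImplicit false
set_option linter.all false

noncomputable section
open Finset Filter
open scoped Pointwise


namespace Pool.Agent.MP_2876a2_nt.Tu.Z

theorem cons_Path {z q j : ℕ} {c : ℕ → ℕ} (h : Ch z q (c 0)) (hc : Cn z j c) :
    Cn z (j + 1) fun i => Nat.casesOn i q c := by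
  intro i hi
  cases i with
  | zero => exact h
  | succ i => exact hc i (by omega)

theorem step_Path {z q p K : ℕ} (h : Sh (K + 1) z q) (hc : Ch z q p) : Sh K z p := by
  rintro ⟨c, rfl, k⟩
  exact h ⟨_, rfl, cons_Path hc k⟩

theorem mono_Path {z q K : ℕ} (h : Sh K z q) : Sh (K + 1) z q := by
  rintro ⟨c, e, k⟩
  exact h ⟨c, e, fun i hi => k i (by omega)⟩

theorem sPath : StPath := by
  classical
  refine ⟨fun z q p K hp hK => ?_, fun z q p K => step_Path,
    fun z q h => h ⟨fun _ => q, rfl, fun i hi => absurd hi (Nat.not_lt_zero i)⟩⟩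
  have r : Relation.ReflTransGen (Ch z) q p := (mem_filter.1 hp).2
  have a : (Sh K z q → Sh K z p) ∧ ∃ j, ∃ c : ℕ → ℕ, c 0 = q ∧ c j = p ∧ Cn z j c := by
    clear hp hK
    induction r using Relation.ReflTransGen.head_induction_on with
    | refl => exact ⟨id, 0, fun _ => p, rfl, rfl, fun i hi => absurd hi (Nat.not_lt_zero i)⟩
    | head h _ ih =>
      obtain ⟨i1, j, c, rfl, e, k⟩ := ih
      exact ⟨fun s => i1 (step_Path (mono_Path s) h), j + 1, _, rfl, e, cons_Path h k⟩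
  obtain ⟨a1, j, c, e0, e1, k⟩ := a
  refine ⟨a1 hK, j, ?_, c, e0, e1, k⟩
  by_contra n
  exact hK ⟨c, e0, fun i hi => k i (by omega)⟩

end Pool.Agent.MP_2876a2_nt.Tu.Z

end

noncomputable section
open Finset Filter
open scoped Pointwise


namespace Pool.Agent.MP_2876a2_nt.Tu.Z

theorem kids_Card {z q : ℕ} (hz : 2 ≤ z) (hq : q < z ^ 101) (C : Finset ℕ)
    (hC : ∀ c ∈ C, Ch z q c) : C.card ≤ 101 := by
  have h1 : ∏ c ∈ C, c ∣ q + 1 :=
    Finset.prod_primes_dvd _ (fun c hc => (hC c hc).1.prime) fun c hc => (hC c hc).2.2.2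
  have h2 : z ^ C.card ≤ ∏ c ∈ C, c :=
    Finset.pow_card_le_prod C (fun c => c) z fun c hc => (hC c hc).2.1.le
  have h3 : z ^ C.card ≤ z ^ 101 := h2.trans ((Nat.le_of_dvd q.succ_pos h1).trans hq)
  exact (Nat.pow_le_pow_iff_right (by omega)).1 h3

theorem sCard (hP : StPath) : StCard := by
  classical
  intro K
  induction K with
  | zero => exact fun z q _ _ h => absurd h (hP.2.2 z q)
  | succ K ih =>
    intro z q hz hq h
    have hC : ∀ c ∈ (range q).filter (Ch z q), Ch z q c := fun c hc => (mem_filter.1 hc).2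
    have h1 : nd z q ⊆ insert q (((range q).filter (Ch z q)).biUnion (nd z)) := by
      intro p hp
      rcases nd_head hp with rfl | ⟨c, h1, h2⟩
      · exact mem_insert_self _ _
      · exact mem_insert_of_mem
          (mem_biUnion.2 ⟨c, mem_filter.2 ⟨mem_range.2 h1.2.2.1, h1⟩, h2⟩)
    have h2 := card_biUnion_le_card_mul ((range q).filter (Ch z q)) (nd z) (102 ^ K)
      fun c hc => ih z c hz ((hC c hc).2.2.1.trans hq) (hP.2.1 z q c K h (hC c hc))
    have h3 := Nat.mul_le_mul_right (102 ^ K) (kids_Card hz hq _ hC)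
    have h4 := (card_le_card h1).trans (card_insert_le _ _)
    have h5 : 1 ≤ 102 ^ K := Nat.one_le_pow _ _ (by norm_num)
    rw [pow_succ]
    omega

end Pool.Agent.MP_2876a2_nt.Tu.Z

end

noncomputable section
open Finset Filter
open scoped Pointwise


namespace Pool.Agent.MP_2876a2_nt.Tu.Z

theorem img_An (X c : ℕ) (hc : 1 ≤ c) (f : ℕ → ℝ) (hf : ∀ t, 0 ≤ f t) :
    ∑ u ∈ (Icc 1 X).filter (fun u => c ∣ u + 1), f ((u + 1) / c) ≤
      ∑ t ∈ Icc 1 ((X + 1) / c), f t := by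
  have hi : Set.InjOn (fun u => (u + 1) / c) ((Icc 1 X).filter (fun u => c ∣ u + 1) : Finset ℕ) := by
    intro a ha b hb e
    have h1 := Nat.mul_div_cancel' (mem_filter.1 (mem_coe.1 ha)).2
    have h2 := Nat.mul_div_cancel' (mem_filter.1 (mem_coe.1 hb)).2
    have e' : (a + 1) / c = (b + 1) / c := e
    rw [e'] at h1
    omega
  rw [← sum_image hi]
  refine sum_le_sum_of_subset_of_nonneg (fun t ht => ?_) fun t _ _ => hf t
  obtain ⟨u, hu, rfl⟩ := mem_image.1 ht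
  obtain ⟨h1, h2⟩ := mem_filter.1 hu
  rw [mem_Icc] at h1 ⊢
  exact ⟨Nat.div_pos (Nat.le_of_dvd (Nat.succ_pos u) h2) hc, Nat.div_le_div_right (by omega)⟩

theorem rec_An (X c : ℕ) (hc : 1 ≤ c) :
    ∑ u ∈ (Icc 1 X).filter (fun u => c ∣ u + 1), (1 / u : ℝ) ≤
      (2 + 2 * Real.log (X + 1)) * (1 / c) := by
  have hc' : (0 : ℝ) < c := by exact_mod_cast hc
  have h1 : ∑ u ∈ (Icc 1 X).filter (fun u => c ∣ u + 1), (1 / u : ℝ) ≤
      ∑ u ∈ (Icc 1 X).filter (fun u => c ∣ u + 1), 2 / c * ((((u + 1) / c : ℕ) : ℝ))⁻¹ := by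
    refine sum_le_sum fun u hu => ?_
    obtain ⟨h1, h2⟩ := mem_filter.1 hu
    have hu1 : (1 : ℝ) ≤ u := by exact_mod_cast (mem_Icc.1 h1).1
    rw [Nat.cast_div h2 hc'.ne']
    push_cast
    have e : 2 / (c : ℝ) * (((u : ℝ) + 1) / c)⁻¹ = 2 / (u + 1) := by field_simp
    rw [e, div_le_div_iff₀ (by linarith) (by linarith)]
    linarith
  have h2 := img_An X c hc (fun t => 2 / c * ((t : ℕ) : ℝ)⁻¹) fun t => by positivity
  have h3 : ∑ t ∈ Icc 1 ((X + 1) / c), 2 / (c : ℝ) * ((t : ℕ) : ℝ)⁻¹ ≤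
      ∑ t ∈ Icc 1 (X + 1), 2 / (c : ℝ) * ((t : ℕ) : ℝ)⁻¹ :=
    sum_le_sum_of_subset_of_nonneg (Icc_subset_Icc_right (Nat.div_le_self _ _))
      fun t _ _ => by positivity
  have h4 : ∑ t ∈ Icc 1 (X + 1), ((t : ℕ) : ℝ)⁻¹ ≤ 1 + Real.log (X + 1) := by
    have := harmonic_le_one_add_log (X + 1)
    rw [harmonic_eq_sum_Icc] at this
    push_cast at this
    exact this
  rw [← mul_sum] at h3
  have h5 := mul_le_mul_of_nonneg_left h4 (show (0 : ℝ) ≤ 2 / c by positivity)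
  have e : 2 / (c : ℝ) * (1 + Real.log (X + 1)) = (2 + 2 * Real.log (X + 1)) * (1 / c) := by ring
  rw [← mul_sum] at h2 h3
  rw [← mul_sum] at h1
  rw [← mul_sum] at h2
  linarith

theorem cnt_An (X c : ℕ) (hX : 1 ≤ X) (hc : 1 ≤ c) :
    ∑ _u ∈ (Icc 1 X).filter (fun u => c ∣ u + 1), (1 : ℝ) ≤ 2 * X * (1 / c) := by
  have hc' : (0 : ℝ) < c := by exact_mod_cast hc
  have hX' : (1 : ℝ) ≤ X := by exact_mod_cast hX
  refine (img_An X c hc (fun _ => 1) fun _ => zero_le_one).trans ?_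
  rw [sum_const, Nat.card_Icc, nsmul_eq_mul, mul_one, Nat.add_sub_cancel]
  refine Nat.cast_div_le.trans ?_
  push_cast
  rw [mul_one_div]
  exact div_le_div_of_nonneg_right (by linarith) hc'.le

open Classical in
theorem step_An (hP : StPath) (K z X p : ℕ) (w : ℕ → ℝ) (hw : ∀ u, 0 ≤ w u) :
    ∑ u ∈ (Icc 1 X).filter (fun u => Sh (K + 1) z u ∧ p ∈ nd z u), w u ≤
      (if p ∈ Icc 1 X then w p else 0) +
      ∑ c ∈ (Icc 1 X).filter (fun u => Sh K z u ∧ p ∈ nd z u),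
        ∑ u ∈ (Icc 1 X).filter (fun u => c ∣ u + 1), w u := by
  simp_rw [sum_filter (fun u => _ ∣ u + 1)]
  rw [sum_comm, ← sum_ite_eq' (Icc 1 X) p w, ← sum_add_distrib, sum_filter]
  refine sum_le_sum fun u hu => ?_
  have n1 : 0 ≤ (if u = p then w u else 0) := by split_ifs <;> simp [hw]
  have n2 : ∀ c, 0 ≤ (if c ∣ u + 1 then w u else 0) := fun c => by split_ifs <;> simp [hw]
  have n3 := sum_nonneg (s := (Icc 1 X).filter (fun u => Sh K z u ∧ p ∈ nd z u))
    fun c _ => n2 c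
  by_cases h : Sh (K + 1) z u ∧ p ∈ nd z u
  · rw [if_pos h]
    rcases nd_head h.2 with e | ⟨c, h1, h2⟩
    · rw [if_pos e.symm]
      linarith
    · have hc : c ∈ (Icc 1 X).filter (fun u => Sh K z u ∧ p ∈ nd z u) :=
        mem_filter.2 ⟨mem_Icc.2 ⟨h1.1.one_le, h1.2.2.1.le.trans (mem_Icc.1 hu).2⟩,
          hP.2.1 z u c K h.1 h1, h2⟩
      have := single_le_sum (fun c _ => n2 c) hc
      rw [if_pos h1.2.2.2] at this
      linarith
  · rw [if_neg h]
    linarith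

theorem sAn (hP : StPath) : StAn := by
  classical
  intro K z X p hp
  have hp' : (0 : ℝ) < p := by exact_mod_cast hp
  have hl : 0 ≤ Real.log (X + 1) :=
    Real.log_nonneg (by linarith [(Nat.cast_nonneg X : (0 : ℝ) ≤ X)])
  have hL : ∀ k : ℕ, 1 ≤ (3 + 2 * Real.log (X + 1)) ^ k := fun k => one_le_pow₀ (by linarith)
  have h0 : (Icc 1 X).filter (fun u => Sh 0 z u ∧ p ∈ nd z u) = ∅ :=
    filter_eq_empty_iff.2 fun u _ h => hP.2.2 z u h.1
  have hF : ∀ k : ℕ, ∑ u ∈ (Icc 1 X).filter (fun u => Sh k z u ∧ p ∈ nd z u), (1 / u : ℝ) ≤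
      (3 + 2 * Real.log (X + 1)) ^ k / p := by
    intro k
    induction k with
    | zero => rw [h0, sum_empty]; positivity
    | succ k ih =>
      refine (step_An hP k z X p (fun u => (1 / u : ℝ)) fun u => by positivity).trans ?_
      have a1 : (if p ∈ Icc 1 X then (1 / p : ℝ) else 0) ≤ 1 / p := by
        split_ifs
        · exact le_rfl
        · positivity
      have a2 := sum_le_sum (s := (Icc 1 X).filter (fun u => Sh k z u ∧ p ∈ nd z u))
        fun c hc => rec_An X c (mem_Icc.1 (mem_filter.1 hc).1).1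
      rw [← mul_sum] at a2
      have a3 := mul_le_mul_of_nonneg_left ih
        (show 0 ≤ 2 + 2 * Real.log (X + 1) by linarith)
      have a4 : (1 / p : ℝ) ≤ (3 + 2 * Real.log (X + 1)) ^ k / p :=
        div_le_div_of_nonneg_right (hL k) hp'.le
      have e : (3 + 2 * Real.log (X + 1)) ^ (k + 1) / p =
          (3 + 2 * Real.log (X + 1)) ^ k / p +
            (2 + 2 * Real.log (X + 1)) * ((3 + 2 * Real.log (X + 1)) ^ k / p) := by ring
      linarith
  refine ⟨hF K, ?_⟩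
  cases K with
  | zero => rw [h0, card_empty]; simp; positivity
  | succ k =>
    rw [card_eq_sum_ones, Nat.cast_sum, Nat.cast_one]
    refine (step_An hP k z X p (fun _ => (1 : ℝ)) fun _ => zero_le_one).trans ?_
    have hX0 : (0 : ℝ) ≤ X := Nat.cast_nonneg X
    have a1 : (if p ∈ Icc 1 X then (1 : ℝ) else 0) ≤ X / p := by
      split_ifs with h
      · rw [one_le_div hp']
        exact_mod_cast (mem_Icc.1 h).2
      · positivity
    have a2 := sum_le_sum (s := (Icc 1 X).filter (fun u => Sh k z u ∧ p ∈ nd z u))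
      fun c hc => cnt_An X c ((mem_Icc.1 (mem_filter.1 hc).1).1.trans
        (mem_Icc.1 (mem_filter.1 hc).1).2) (mem_Icc.1 (mem_filter.1 hc).1).1
    rw [← mul_sum] at a2
    have a3 := mul_le_mul_of_nonneg_left (hF k) (show (0 : ℝ) ≤ 2 * X by positivity)
    have a4 : (X / p : ℝ) ≤ X * (3 + 2 * Real.log (X + 1)) ^ k / p :=
      div_le_div_of_nonneg_right (le_mul_of_one_le_right hX0 (hL k)) hp'.le
    have a5 : 0 ≤ Real.log (X + 1) * (X * (3 + 2 * Real.log (X + 1)) ^ k / p) := by positivity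
    have e : X * (3 + 2 * Real.log (X + 1)) ^ (k + 1) / p =
        X * (3 + 2 * Real.log (X + 1)) ^ k / p +
          2 * X * ((3 + 2 * Real.log (X + 1)) ^ k / p) +
          2 * (Real.log (X + 1) * (X * (3 + 2 * Real.log (X + 1)) ^ k / p)) := by ring
    linarith

end Pool.Agent.MP_2876a2_nt.Tu.Z

end

noncomputable section
open Finset Filter
open scoped Pointwise


namespace Pool.Agent.MP_2876a2_nt.Tu.Z

theorem sDiv : StDiv := by
  intro z q hq
  have h : ∏ p ∈ nd z q, p ∣ (∏ p ∈ nd z q, (p + 1)) * q := by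
    refine Finset.prod_primes_dvd _ (fun p hp => (prime_nd hq hp).prime) fun p hp => ?_
    rcases nd_tail hp with rfl | ⟨c, hc, h⟩
    · exact dvd_mul_left _ _
    · exact (h.2.2.2.trans (dvd_prod_of_mem (fun p => p + 1) hc)).mul_right _
  exact (Nat.div_mul_cancel h).symm

end Pool.Agent.MP_2876a2_nt.Tu.Z

end

noncomputable section
open Finset Filter
open scoped Pointwise


namespace Pool.Agent.MP_2876a2_nt.Tu.Z

theorem lt_nd_Str {z q p : ℕ} (hq : z < q) (h : p ∈ nd z q) : z < p := by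
  rcases nd_tail h with rfl | ⟨c, -, h⟩
  exacts [hq, h.2.1]

theorem ch_Str {z c l : ℕ} (hz : 2 ≤ z) (hc : c.Prime) (hzc : z < c) (hl : l.Prime) (hzl : z < l)
    (h : l ∣ c + 1) : Ch z c l := by
  refine ⟨hl, hzl, ?_, h⟩
  have h1 : l ≤ c + 1 := Nat.le_of_dvd (Nat.succ_pos c) h
  have h2 : l ≠ c + 1 := by
    have a := hl.eq_two_or_odd
    have b := hc.eq_two_or_odd
    omega
  have h3 : l ≠ c := by
    rintro rfl
    have := Nat.le_of_dvd one_pos ((Nat.dvd_add_right dvd_rfl).1 h)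
    omega
  omega

theorem mul_Str {z q a b : ℕ} (ha : Ch z q a) (hb : Ch z q b) (h : a ≠ b) : a * b ∣ q + 1 :=
  Nat.Coprime.mul_dvd_of_dvd_of_dvd ((Nat.coprime_primes ha.1 hb.1).2 h) ha.2.2.2 hb.2.2.2

theorem sStr (hD : StDiv) : StStr := by
  classical
  intro z q l hz hzq hq hl hzl hd
  have hpr : ∀ p ∈ nd z q, p.Prime := fun p hp => prime_nd hq hp
  have hch : ∀ c ∈ nd z q, l ∣ c + 1 → Ch z c l := fun c hc h =>
    ch_Str hz (hpr c hc) (lt_nd_Str hzq hc) hl hzl h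
  have e := hD z q hq
  rw [← mul_prod_erase (nd z q) (fun p => p) (self_mem_nd z q)] at e
  have e2 : ∏ p ∈ nd z q, (p + 1) = Dq z q * ∏ p ∈ (nd z q).erase q, p := by
    apply Nat.eq_of_mul_eq_mul_right hq.pos
    rw [e]
    ring
  have h1 : l ∣ ∏ p ∈ nd z q, (p + 1) := e2 ▸ hd.mul_right _
  obtain ⟨c, hc, hlc⟩ := (Prime.dvd_finsetProd_iff hl.prime _).1 h1
  have cl := hch c hc hlc
  have hlq : l ∈ (nd z q).erase q :=
    mem_erase.2 ⟨(cl.2.2.1.trans_le (le_of_mem_nd hc)).ne, nd_trans hc cl.mem_nd⟩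
  have h2 : l * l ∣ ∏ p ∈ nd z q, (p + 1) :=
    e2 ▸ mul_dvd_mul hd (dvd_prod_of_mem (fun p => p) hlq)
  rw [← mul_prod_erase (nd z q) (fun p => p + 1) hc] at h2
  obtain ⟨k, hk⟩ := hlc
  rw [hk, mul_assoc] at h2
  rcases (Nat.Prime.dvd_mul hl).1 (Nat.dvd_of_mul_dvd_mul_left hl.pos h2) with h3 | h3
  · exact ⟨c, hc, l, l, cl, cl, hk ▸ mul_dvd_mul_left l h3, self_mem_nd z l, self_mem_nd z l⟩
  obtain ⟨d, hd', hld⟩ := (Prime.dvd_finsetProd_iff hl.prime _).1 h3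
  obtain ⟨hdc, hd2⟩ := mem_erase.1 hd'
  have dl := hch d hd2 hld
  obtain ⟨r, hr, hmin⟩ := exists_min_image
    ((nd z q).filter fun r => c ∈ nd z r ∧ d ∈ nd z r) (fun r => r)
    ⟨q, mem_filter.2 ⟨self_mem_nd z q, hc, hd2⟩⟩
  obtain ⟨hr1, hr2, hr3⟩ := mem_filter.1 hr
  refine ⟨r, hr1, ?_⟩
  rcases nd_head hr2 with rfl | ⟨p1, a1, b1⟩
  · obtain ⟨p2, a2, b2⟩ := (nd_head hr3).resolve_left hdc
    exact ⟨l, p2, cl, a2, mul_Str cl a2 (dl.2.2.1.trans_le (le_of_mem_nd b2)).ne,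
      self_mem_nd z l, nd_trans b2 dl.mem_nd⟩
  rcases nd_head hr3 with rfl | ⟨p2, a2, b2⟩
  · exact ⟨l, p1, dl, a1, mul_Str dl a1 (cl.2.2.1.trans_le (le_of_mem_nd b1)).ne,
      self_mem_nd z l, nd_trans b1 cl.mem_nd⟩
  refine ⟨p1, p2, a1, a2, mul_Str a1 a2 ?_, nd_trans b1 cl.mem_nd, nd_trans b2 dl.mem_nd⟩
  rintro rfl
  have := hmin p1 (mem_filter.2 ⟨nd_trans hr1 a1.mem_nd, b1, b2⟩)
  exact absurd a1.2.2.1 (not_lt.2 this)

end Pool.Agent.MP_2876a2_nt.Tu.Z

end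

noncomputable section
open Finset Filter
open scoped Pointwise


namespace Pool.Agent.MP_2876a2_nt.Tu.Z

theorem cov_Cl (T : Finset ℕ) (f : ℕ → Finset ℕ) (g : ℕ → ℝ) (hg : ∀ x, 0 ≤ g x) :
    ∑ x ∈ T.biUnion f, g x ≤ ∑ t ∈ T, ∑ x ∈ f t, g x := by
  induction T using Finset.induction_on with
  | empty => simp
  | insert a s ha ih =>
    rw [biUnion_insert, sum_insert ha]
    have h1 := sum_union_inter (s₁ := f a) (s₂ := s.biUnion f) (f := g)
    have h0 : 0 ≤ ∑ x ∈ f a ∩ s.biUnion f, g x := sum_nonneg fun x _ => hg x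
    linarith

theorem har_Cl (X d : ℕ) (hd : 1 ≤ d) :
    ∑ q ∈ (Icc 1 X).filter (fun q => d ∣ q + 1), (1 / q : ℝ) ≤
      (3 + 2 * Real.log (X + 1)) / d := by
  have hdR : (0 : ℝ) < d := by exact_mod_cast hd
  have h1 : ∑ q ∈ (Icc 1 X).filter (fun q => d ∣ q + 1), (1 / q : ℝ) ≤
      ∑ q ∈ (Icc 1 X).filter (fun q => d ∣ q + 1), 2 / d * ((((q + 1) / d : ℕ) : ℝ))⁻¹ := by
    refine sum_le_sum fun q hq => ?_
    obtain ⟨hq1, t, ht⟩ := mem_filter.1 hq
    have hq1' : (1 : ℝ) ≤ q := by exact_mod_cast (mem_Icc.1 hq1).1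
    have hdt : (q : ℝ) + 1 = d * t := by exact_mod_cast ht
    have htp : (0 : ℝ) < t := by
      by_contra h
      have : (d : ℝ) * t ≤ 0 := mul_nonpos_of_nonneg_of_nonpos hdR.le (not_lt.1 h)
      linarith
    rw [ht, Nat.mul_div_cancel_left t hd]
    have e : 2 / (d : ℝ) * (t : ℝ)⁻¹ = 2 / (q + 1) := by rw [hdt]; field_simp
    rw [e, div_le_div_iff₀ (by linarith) (by linarith)]
    linarith
  have h2 : ∑ q ∈ (Icc 1 X).filter (fun q => d ∣ q + 1), ((((q + 1) / d : ℕ) : ℝ))⁻¹ ≤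
      ∑ t ∈ Icc 1 (X + 1), ((t : ℝ))⁻¹ := by
    rw [← sum_image (s := (Icc 1 X).filter (fun q => d ∣ q + 1)) (g := fun q => (q + 1) / d)
      (f := fun t : ℕ => ((t : ℝ))⁻¹)]
    · refine sum_le_sum_of_subset_of_nonneg ?_ fun t _ _ => by positivity
      intro t ht
      obtain ⟨q, hq, rfl⟩ := mem_image.1 ht
      obtain ⟨hq1, hq2⟩ := mem_filter.1 hq
      refine mem_Icc.2 ⟨Nat.div_pos (Nat.le_of_dvd (Nat.succ_pos q) hq2) hd, ?_⟩
      exact (Nat.div_le_self _ _).trans (Nat.succ_le_succ (mem_Icc.1 hq1).2)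
    · intro a ha b hb hab
      have ha2 := (mem_filter.1 (mem_coe.1 ha)).2
      have hb2 := (mem_filter.1 (mem_coe.1 hb)).2
      have h3 : a + 1 = b + 1 := by
        rw [← Nat.mul_div_cancel' ha2, ← Nat.mul_div_cancel' hb2]
        exact congrArg (d * ·) hab
      omega
  have h3 : ∑ t ∈ Icc 1 (X + 1), ((t : ℝ))⁻¹ ≤ 1 + Real.log (X + 1) := by
    have h := harmonic_le_one_add_log (X + 1)
    rw [harmonic_eq_sum_Icc] at h
    push_cast at h
    exact h
  rw [← mul_sum] at h1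
  have h4 : 2 / (d : ℝ) * (1 + Real.log (X + 1)) ≤ (3 + 2 * Real.log (X + 1)) / d := by
    rw [div_mul_eq_mul_div]
    exact div_le_div_of_nonneg_right (by linarith) hdR.le
  exact h1.trans ((mul_le_mul_of_nonneg_left (h2.trans h3) (by positivity)).trans h4)

open Classical in
/-- shallow numbers with `l` in their tree -/
def U_Cl (K z X l : ℕ) : Finset ℕ := (Icc 1 X).filter fun u => Sh K z u ∧ l ∈ nd z u

/-- nodes with a repeated descendant -/
def R_Cl (K z X : ℕ) : Finset ℕ := (Ioc z X).biUnion fun l => (U_Cl K z X l).biUnion fun p1 =>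
  (U_Cl K z X l).biUnion fun p2 => (Icc 1 X).filter fun q => p1 * p2 ∣ q + 1

open Classical in
theorem sumR_Cl (hA : StAn) (K z X : ℕ) (hz : 1 ≤ z) (hzX : z ≤ X) :
    ∑ q ∈ R_Cl K z X, (1 / q : ℝ) ≤ (3 + 2 * Real.log (X + 1)) ^ (2 * K + 1) / z := by
  set L : ℝ := 3 + 2 * Real.log (X + 1) with hL
  have hL0 : 0 ≤ L := by
    have : 0 ≤ Real.log ((X : ℝ) + 1) := Real.log_nonneg (by linarith [Nat.cast_nonneg (α := ℝ) X])
    linarith
  have hg : ∀ x : ℕ, (0 : ℝ) ≤ 1 / x := fun x => by positivity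
  have h1 : ∀ l ∈ Ioc z X, ∑ q ∈ (U_Cl K z X l).biUnion (fun p1 =>
      (U_Cl K z X l).biUnion fun p2 => (Icc 1 X).filter fun q => p1 * p2 ∣ q + 1), (1 / q : ℝ) ≤
      L ^ (2 * K + 1) * ((l : ℝ) ^ 2)⁻¹ := by
    intro l hl
    have hl1 : 1 ≤ l := hz.trans (mem_Ioc.1 hl).1.le
    have hU : ∑ u ∈ U_Cl K z X l, (1 / u : ℝ) ≤ L ^ K / l := (hA K z X l hl1).1
    have hU0 : 0 ≤ ∑ u ∈ U_Cl K z X l, (1 / u : ℝ) := sum_nonneg fun x _ => hg x
    refine (cov_Cl _ _ _ hg).trans ?_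
    have h2 : ∀ p1 ∈ U_Cl K z X l, ∑ q ∈ (U_Cl K z X l).biUnion (fun p2 =>
        (Icc 1 X).filter fun q => p1 * p2 ∣ q + 1), (1 / q : ℝ) ≤
        ∑ p2 ∈ U_Cl K z X l, L * ((1 / p1 : ℝ) * (1 / p2)) := by
      intro p1 h1
      refine (cov_Cl _ _ _ hg).trans (sum_le_sum fun p2 h2 => ?_)
      have a1 : 1 ≤ p1 := (mem_Icc.1 (mem_filter.1 h1).1).1
      have a2 : 1 ≤ p2 := (mem_Icc.1 (mem_filter.1 h2).1).1
      refine (har_Cl X (p1 * p2) (Nat.mul_pos a1 a2)).trans (le_of_eq ?_)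
      push_cast
      rw [← hL]
      ring
    refine (sum_le_sum h2).trans ?_
    have e : ∑ p1 ∈ U_Cl K z X l, ∑ p2 ∈ U_Cl K z X l, L * ((1 / p1 : ℝ) * (1 / p2)) =
        L * (∑ u ∈ U_Cl K z X l, (1 / u : ℝ)) ^ 2 := by
      rw [sq, sum_mul_sum, mul_sum]
      exact sum_congr rfl fun p1 _ => by rw [mul_sum]
    rw [e]
    calc L * (∑ u ∈ U_Cl K z X l, (1 / u : ℝ)) ^ 2 ≤ L * (L ^ K / l) ^ 2 :=
          mul_le_mul_of_nonneg_left (pow_le_pow_left₀ hU0 hU 2) hL0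
      _ = L ^ (2 * K + 1) * ((l : ℝ) ^ 2)⁻¹ := by ring
  refine (cov_Cl _ _ _ hg).trans ((sum_le_sum h1).trans ?_)
  rw [← mul_sum, div_eq_mul_inv]
  refine mul_le_mul_of_nonneg_left ?_ (pow_nonneg hL0 _)
  have h := sum_Ioc_inv_sq_le_sub (α := ℝ) (k := z) (n := X) (by omega) hzX
  have h0 : (0 : ℝ) ≤ (X : ℝ)⁻¹ := by positivity
  linarith

open Classical in
theorem cnt_Cl (hP : StPath) (hA : StAn) (hS : StStr) (K z N : ℕ) (hz : 2 ≤ z) (hzN : z ≤ N) :
    (((PN N).filter fun q => Sh K z q ∧ ¬ Sm z (Dq z q)).card : ℝ) ≤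
      (2 * N : ℕ) * (3 + 2 * Real.log ((2 * N : ℕ) + 1)) ^ (3 * K + 1) / z := by
  set X := 2 * N with hX
  set L : ℝ := 3 + 2 * Real.log (X + 1) with hL
  have hL0 : 0 ≤ L := by
    have : 0 ≤ Real.log ((X : ℝ) + 1) := Real.log_nonneg (by linarith [Nat.cast_nonneg (α := ℝ) X])
    linarith
  have hsub : ((PN N).filter fun q => Sh K z q ∧ ¬ Sm z (Dq z q)) ⊆
      (R_Cl K z X).biUnion (U_Cl K z X) := by
    intro q hq
    obtain ⟨hq1, hsh, hsm⟩ := mem_filter.1 hq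
    obtain ⟨hq2, hqp⟩ := mem_filter.1 hq1
    obtain ⟨hq3, hq4⟩ := mem_Ioc.1 hq2
    simp only [Sm, not_forall, not_le] at hsm
    obtain ⟨l, hl, hld, hzl⟩ := hsm
    obtain ⟨q', hq', p1, p2, c1, c2, hd, hl1, hl2⟩ := hS z q l hz (by omega) hqp hl hzl hld
    have hq'q := le_of_mem_nd hq'
    have hq'p := prime_nd hqp hq'
    have s1 : Sh K z p1 := (hP.1 z q p1 K (nd_trans hq' c1.mem_nd) hsh).1
    have s2 : Sh K z p2 := (hP.1 z q p2 K (nd_trans hq' c2.mem_nd) hsh).1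
    have b1 := c1.2.2.1
    have b2 := c2.2.2.1
    have b3 := le_of_mem_nd hl1
    refine mem_biUnion.2 ⟨q', ?_, mem_filter.2 ⟨mem_Icc.2 ⟨hqp.one_le, hq4⟩, hsh, hq'⟩⟩
    refine mem_biUnion.2 ⟨l, mem_Ioc.2 ⟨hzl, by omega⟩, mem_biUnion.2 ⟨p1, ?_,
      mem_biUnion.2 ⟨p2, ?_, mem_filter.2 ⟨mem_Icc.2 ⟨hq'p.one_le, by omega⟩, hd⟩⟩⟩⟩
    · exact mem_filter.2 ⟨mem_Icc.2 ⟨c1.1.one_le, by omega⟩, s1, hl1⟩
    · exact mem_filter.2 ⟨mem_Icc.2 ⟨c2.1.one_le, by omega⟩, s2, hl2⟩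
  have h1 : (((PN N).filter fun q => Sh K z q ∧ ¬ Sm z (Dq z q)).card : ℝ) ≤
      ∑ q ∈ R_Cl K z X, ((U_Cl K z X q).card : ℝ) := by
    exact_mod_cast (card_le_card hsub).trans card_biUnion_le
  have h2 : ∀ q ∈ R_Cl K z X, ((U_Cl K z X q).card : ℝ) ≤ X * L ^ K * (1 / q) := by
    intro q hq
    obtain ⟨l, -, hq⟩ := mem_biUnion.1 hq
    obtain ⟨p1, -, hq⟩ := mem_biUnion.1 hq
    obtain ⟨p2, -, hq⟩ := mem_biUnion.1 hq
    have h := (hA K z X q (mem_Icc.1 (mem_filter.1 hq).1).1).2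
    rw [mul_one_div]
    exact h
  refine h1.trans ((sum_le_sum h2).trans ?_)
  rw [← mul_sum]
  have h3 := sumR_Cl hA K z X (by omega) (by omega)
  calc X * L ^ K * ∑ q ∈ R_Cl K z X, (1 / q : ℝ) ≤ X * L ^ K * (L ^ (2 * K + 1) / z) :=
        mul_le_mul_of_nonneg_left h3 (by positivity)
    _ = X * L ^ (3 * K + 1) / z := by ring

theorem sCl (hP : StPath) (hA : StAn) (hS : StStr) : StCl := by
  intro K
  have ht := tendsto_pow_const_div_const_pow_of_one_lt (3 * K + 3) (r := 2) one_lt_two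
  have hc : (0 : ℝ) < 1 / (2 * 300 ^ (3 * K + 1)) := by positivity
  filter_upwards [ht.eventually (gt_mem_nhds hc), eventually_ge_atTop 1] with m hm hm1
  have hmR : (1 : ℝ) ≤ m := by exact_mod_cast hm1
  have hz : 2 ≤ 2 ^ m := Nat.le_self_pow (by omega) 2
  have hzN : 2 ^ m ≤ 2 ^ (100 * m) := Nat.pow_le_pow_right (by norm_num) (by omega)
  refine (cnt_Cl hP hA hS K (2 ^ m) (2 ^ (100 * m)) hz hzN).trans ?_
  have hN1 : (1 : ℝ) ≤ 2 ^ (100 * m) := one_le_pow₀ one_le_two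
  have hlog : Real.log (((2 * 2 ^ (100 * m) : ℕ) : ℝ) + 1) ≤ (100 * m + 2) * 0.7 := by
    have h1 : ((2 * 2 ^ (100 * m) : ℕ) : ℝ) + 1 ≤ 2 ^ (100 * m + 2) := by
      push_cast
      rw [pow_add]
      linarith
    refine (Real.log_le_log (by positivity) h1).trans ?_
    rw [Real.log_pow]
    push_cast
    exact mul_le_mul_of_nonneg_left (by linarith [Real.log_two_lt_d9]) (by positivity)
  have hlog0 : 0 ≤ Real.log (((2 * 2 ^ (100 * m) : ℕ) : ℝ) + 1) :=
    Real.log_nonneg (by linarith [Nat.cast_nonneg (α := ℝ) (2 * 2 ^ (100 * m))])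
  have hL : (3 + 2 * Real.log (((2 * 2 ^ (100 * m) : ℕ) : ℝ) + 1)) ^ (3 * K + 1) ≤
      (300 * (m : ℝ)) ^ (3 * K + 1) := pow_le_pow_left₀ (by linarith) (by linarith) _
  generalize (3 + 2 * Real.log (((2 * 2 ^ (100 * m) : ℕ) : ℝ) + 1)) ^ (3 * K + 1) = A at hL
  push_cast
  rw [div_lt_div_iff₀ (by positivity) (by positivity)] at hm
  rw [div_le_div_iff₀ (by positivity) (by positivity)]
  have h2 : 2 * A * (m : ℝ) ^ 2 ≤ 2 ^ m := by
    calc 2 * A * (m : ℝ) ^ 2 ≤ 2 * (300 * (m : ℝ)) ^ (3 * K + 1) * (m : ℝ) ^ 2 := by gcongr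
      _ = (m : ℝ) ^ (3 * K + 3) * (2 * 300 ^ (3 * K + 1)) := by rw [mul_pow]; ring
      _ ≤ 2 ^ m := by linarith
  calc 2 * 2 ^ (100 * m) * A * (m : ℝ) ^ 2 = 2 ^ (100 * m) * (2 * A * (m : ℝ) ^ 2) := by ring
    _ ≤ 2 ^ (100 * m) * 2 ^ m := mul_le_mul_of_nonneg_left h2 (by positivity)

end Pool.Agent.MP_2876a2_nt.Tu.Z

end

noncomputable section
/-!
Size of the denominator attached to a prime with a short tree.
-/


open Finset Filter
open scoped Pointwise


namespace Pool.Agent.MP_2876a2_nt.Tu.Z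

theorem lt_Dq {K g m q : ℕ} (hm : 1 ≤ m) (h : Nice K g m q) : q < (2 ^ m) ^ 101 := by
  have hp := h.prime
  have hhi := h.hi
  have hlo := h.lo
  have h1 : 2 * 2 ^ (100 * m) ≤ (2 ^ m) ^ 101 := by
    rw [← pow_mul, ← pow_succ']
    exact Nat.pow_le_pow_right (by norm_num) (by omega)
  rcases lt_or_eq_of_le hhi with hlt | heq
  · omega
  · exfalso
    have h2 : 2 ∣ q := ⟨_, heq⟩
    have h3 := (Nat.prime_dvd_prime_iff_eq Nat.prime_two hp).mp h2
    have h4 : 2 ^ 1 ≤ 2 ^ (100 * m) := Nat.pow_le_pow_right (by norm_num) (by omega)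
    omega

theorem sDq (hD : StDiv) (hC : StCard) : StDq := by
  intro K g m q hm h
  have hp := h.prime
  have hdiv := hD (2 ^ m) q hp
  have hz : 2 ≤ 2 ^ m := by
    calc 2 = 2 ^ 1 := by norm_num
      _ ≤ 2 ^ m := Nat.pow_le_pow_right (by norm_num) hm
  have hcard := hC K (2 ^ m) q hz (lt_Dq hm h) h.sh
  have hpos : ∀ p ∈ nd (2 ^ m) q, 0 < p := fun p hp' =>
    lt_of_le_of_lt (Nat.zero_le _) (h.gap p hp')
  have hP : 0 < ∏ p ∈ nd (2 ^ m) q, p := Finset.prod_pos hpos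
  constructor
  · have h1 : ∏ p ∈ nd (2 ^ m) q, p ≤ ∏ p ∈ nd (2 ^ m) q, (p + 1) :=
      Finset.prod_le_prod' fun p _ => Nat.le_succ p
    have h2 : q * ∏ p ∈ nd (2 ^ m) q, p ≤ Dq (2 ^ m) q * ∏ p ∈ nd (2 ^ m) q, p := by
      rw [← hdiv, mul_comm]
      exact Nat.mul_le_mul_right _ h1
    exact Nat.le_of_mul_le_mul_right h2 hP
  · set W : ℝ := 2 ^ (m + 8 * (m / g)) with hW
    have hW0 : 0 < W := by positivity
    have hdivR : (∏ p ∈ nd (2 ^ m) q, ((p : ℝ) + 1)) * q =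
        (Dq (2 ^ m) q : ℝ) * ∏ p ∈ nd (2 ^ m) q, (p : ℝ) := by
      have h0 := congrArg (Nat.cast : ℕ → ℝ) hdiv
      simpa only [Nat.cast_mul, Nat.cast_prod, Nat.cast_add, Nat.cast_one] using h0
    have hPR : (0 : ℝ) < ∏ p ∈ nd (2 ^ m) q, (p : ℝ) :=
      Finset.prod_pos fun p hp' => Nat.cast_pos.mpr (hpos p hp')
    have h1 : ∏ p ∈ nd (2 ^ m) q, ((p : ℝ) + 1) ≤
        ∏ p ∈ nd (2 ^ m) q, (Real.exp (1 / W) * (p : ℝ)) := by
      refine Finset.prod_le_prod (fun p _ => by positivity) fun p hp' => ?_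
      have hg : W < p := by
        rw [hW]
        exact_mod_cast h.gap p hp'
      have he := Real.add_one_le_exp (1 / W)
      have hp0 : (0 : ℝ) < p := lt_trans hW0 hg
      have h3 : 1 ≤ 1 / W * p := by
        rw [one_div, inv_mul_eq_div, le_div_iff₀ hW0]
        linarith
      nlinarith
    rw [Finset.prod_mul_distrib, Finset.prod_const, ← Real.exp_nat_mul] at h1
    have h4 : Real.exp (((nd (2 ^ m) q).card : ℝ) * (1 / W)) ≤ Real.exp (102 ^ K / W) := by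
      apply Real.exp_le_exp.mpr
      rw [mul_one_div]
      apply div_le_div_of_nonneg_right _ hW0.le
      exact_mod_cast hcard
    have hq0 : (0 : ℝ) ≤ q := Nat.cast_nonneg q
    have h5 : (Dq (2 ^ m) q : ℝ) * ∏ p ∈ nd (2 ^ m) q, (p : ℝ) ≤
        (Real.exp (102 ^ K / W) * q) * ∏ p ∈ nd (2 ^ m) q, (p : ℝ) := by
      rw [← hdivR]
      calc (∏ p ∈ nd (2 ^ m) q, ((p : ℝ) + 1)) * q
          ≤ (Real.exp (102 ^ K / W) * ∏ p ∈ nd (2 ^ m) q, (p : ℝ)) * q := by
            apply mul_le_mul_of_nonneg_right _ hq0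
            exact h1.trans (mul_le_mul_of_nonneg_right h4 hPR.le)
        _ = _ := by ring
    exact le_of_mul_le_mul_right h5 hPR

end Pool.Agent.MP_2876a2_nt.Tu.Z

end

noncomputable section
open Finset Filter
open scoped Pointwise


namespace Pool.Agent.MP_2876a2_nt.Tu.Z

open Classical Pool.Agent.GT Pool.Agent.MP_357fb4_an in
theorem up_FL0 (K : ℝ) (m : ℕ) (hm : 2 ≤ m) (hm₁ : Real.exp (4 * K) ≤ 2 ^ m) (Ω P : Type)
    [Finite Ω] [Fintype P] (E : P → Ω → Prop) (g : P → ℝ) (blk : P → ℕ) (J : ℕ) (ρ : ℝ)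
    (hg : ∀ p, 0 ≤ g p ∧ g p ≤ 1 / 2) (hJ : ∀ p, blk p < J)
    (hK : ∀ j, ∑ p ∈ univ.filter (fun p => blk p = j), g p ≤ K)
    (hρ : ∑ T ∈ univ.filter (fun T : Finset P => ∀ j, (T.filter fun p => blk p = j).card ≤
      2 * (m + j) + 1), |pr (fun ω => ∀ p ∈ T, E p ω) - ∏ p ∈ T, g p| ≤ ρ) :
    pr (fun ω => ∀ p, ¬ E p ω) ≤ 2 * ∏ p, (1 - g p) + ρ := by
  set B : ℕ → Finset P := fun j => univ.filter fun p => blk p = j with hB
  set X : (P → ℝ) → ℕ → ℝ := fun t j => ∏ p ∈ B j, (1 - t p) with hX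
  set Y : (P → ℝ) → ℕ → ℝ := fun t j => flS (B j) (flY (2 * (m + j))) t with hY
  set e : (P → ℝ) → ℕ → ℝ := fun t j => flS (B j) (flE (2 * (m + j) + 1)) t with he
  set χ : Ω → P → ℝ := fun ω p => ind (E p ω) with hχ
  have hχ1 : ∀ ω p, 0 ≤ χ ω p ∧ χ ω p ≤ 1 := fun ω p => ⟨ind_nonneg _, ind_le_one _⟩
  have hg1 : ∀ p, 0 ≤ g p ∧ g p ≤ 1 := fun p => ⟨(hg p).1, by linarith [(hg p).2]⟩
  have hX0 : ∀ t : P → ℝ, (∀ p, 0 ≤ t p ∧ t p ≤ 1) → ∀ j, 0 ≤ X t j := fun t ht j =>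
    prod_nonneg fun p _ => sub_nonneg.2 (ht p).2
  have hXY : ∀ t : P → ℝ, (∀ p, 0 ≤ t p ∧ t p ≤ 1) → ∀ j, X t j ≤ Y t j := fun t ht j =>
    fl_lower ht _ _
  have hYX : ∀ t : P → ℝ, (∀ p, 0 ≤ t p ∧ t p ≤ 1) → ∀ j, Y t j ≤ X t j + e t j := fun t ht j =>
    fl_upper ht _ _
  have hfib : ∀ t : P → ℝ, ∏ p, (1 - t p) = ∏ j ∈ range J, X t j := fun t =>
    (prod_fiberwise_of_maps_to (fun p _ => mem_range.2 (hJ p)) _).symm
  have hpr : pr (fun ω => ∀ p, ¬ E p ω) = av fun ω => ∏ j ∈ range J, X (χ ω) j := by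
    refine av_congr fun ω => ?_
    rw [← hfib]
    simp only [hχ, ← ind_not, ← ind_forall, mem_univ, true_implies]
  have hYb : ∀ n k, |flY n k| ≤ 1 := fun n k => by unfold flY; split_ifs <;> simp
  have c1 : |av (fun ω => ∏ j ∈ range J, Y (χ ω) j) - ∏ j ∈ range J, Y g j| ≤ ρ :=
    fl_close E g blk hJ (fun j => 2 * (m + j) + 1) (fun j => flY (2 * (m + j)))
      (fun j k => hYb _ _) (fun j k h => if_neg (by omega)) hρ
  have hm2 : (4 : ℝ) ≤ 2 ^ m := by
    calc (4 : ℝ) = 2 ^ 2 := by norm_num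
      _ ≤ 2 ^ m := pow_le_pow_right₀ one_le_two hm
  have he1 : ∀ j, e g j ≤ 1 / 2 ^ (m + j) * X g j := fun j => by
    have h1 := fl_E_le (fun p => (hg p).1) (B j) (2 * (m + j) + 1)
    have h2 := fl_X_ge hg (B j)
    have h3 : Real.exp (2 * ∑ p ∈ B j, g p) ≤
        Real.exp (4 * K) * Real.exp (-(2 * ∑ p ∈ B j, g p)) := by
      rw [← Real.exp_add]
      exact Real.exp_le_exp.2 (by linarith [hK j])
    have h4 : Real.exp (4 * K) ≤ 2 ^ (m + j) :=
      hm₁.trans (pow_le_pow_right₀ one_le_two (by omega))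
    have h5 : (0 : ℝ) < 2 ^ (m + j) := by positivity
    have h6 := fl_E_nonneg (fun p => (hg p).1) (B j) (2 * (m + j) + 1)
    have h7 : (2 : ℝ) ^ (2 * (m + j) + 1) * e g j ≤ 2 ^ (m + j) * X g j :=
      h1.trans (h3.trans (mul_le_mul h4 h2 (Real.exp_pos _).le h5.le))
    rw [pow_succ, two_mul, pow_add 2 (m + j) (m + j), mul_assoc, mul_assoc] at h7
    have h8 := le_of_mul_le_mul_left h7 h5
    rw [one_div, inv_mul_eq_div, le_div_iff₀ h5]
    change 0 ≤ e g j at h6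
    nlinarith [mul_nonneg h5.le h6]
  have hsum : ∑ j ∈ range J, (1 : ℝ) / 2 ^ (m + j) ≤ 2 / 2 ^ m := by
    have h1 := sum_geometric_two_le J
    calc ∑ j ∈ range J, (1 : ℝ) / 2 ^ (m + j) = (∑ j ∈ range J, (1 / 2 : ℝ) ^ j) / 2 ^ m := by
          rw [sum_div]
          exact sum_congr rfl fun j _ => by rw [pow_add, one_div_pow]; field_simp
      _ ≤ 2 / 2 ^ m := div_le_div_of_nonneg_right h1 (by positivity)
  have hq : (2 : ℝ) / 2 ^ m ≤ 1 / 2 := by
    rw [div_le_div_iff₀ (by positivity) two_pos]; linarith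
  have u5 : ∏ j ∈ range J, Y g j ≤ (1 + 2 * (2 / 2 ^ m)) * ∏ j ∈ range J, X g j := by
    calc ∏ j ∈ range J, Y g j ≤ ∏ j ∈ range J, (1 + 1 / 2 ^ (m + j)) * X g j :=
          prod_le_prod (fun j _ => (hX0 g hg1 j).trans (hXY g hg1 j)) fun j _ => by
            linarith [hYX g hg1 j, he1 j]
      _ = (∏ j ∈ range J, (1 + 1 / 2 ^ (m + j) : ℝ)) * ∏ j ∈ range J, X g j := prod_mul_distrib
      _ ≤ _ := mul_le_mul_of_nonneg_right (fl_prod_one_add _ (fun j => by positivity) hsum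
          (by linarith)) (prod_nonneg fun j _ => hX0 g hg1 j)
  have hP0 : 0 ≤ ∏ j ∈ range J, X g j := prod_nonneg fun j _ => hX0 g hg1 j
  have u1 : (av fun ω => ∏ j ∈ range J, X (χ ω) j) ≤ av fun ω => ∏ j ∈ range J, Y (χ ω) j :=
    av_mono fun ω => prod_le_prod (fun j _ => hX0 _ (hχ1 ω) j) fun j _ => hXY _ (hχ1 ω) j
  rw [hpr, hfib g]
  obtain ⟨c3, c4⟩ := abs_le.1 c1
  have u6 := mul_le_mul_of_nonneg_right hq hP0
  nlinarith

open Pool.Agent.GT in
theorem pr_FL0 (S : Finset ℕ) (Q : ℕ → Prop) [DecidablePred Q] :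
    pr (fun x : {x // x ∈ S} => Q x) = ((S.filter Q).card : ℝ) / S.card := by
  rw [pr, av_eq_sum, Fintype.card_coe, sum_coe_sort S (fun x => ind (Q x)), ← sum_boole]
  congr 1
  refine sum_congr rfl fun x _ => ?_
  split_ifs with h
  exacts [ind_of h, ind_of_not h]

open Classical Pool.Agent.GT in
theorem sFL0 : StFL0 := by
  intro K ρ m J S P E g blk hm hK hg hJ hb hρ
  have hρ0 : 0 ≤ ρ := le_trans (sum_nonneg fun _ _ => abs_nonneg _) hρ
  have hP0 : 0 ≤ ∏ p ∈ P, (1 - g p) := prod_nonneg fun p hp => by linarith [(hg p hp).2]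
  have hJρ : ρ ≤ (J + 1) * ρ := by nlinarith [mul_nonneg (Nat.cast_nonneg (α := ℝ) J) hρ0]
  rcases S.eq_empty_or_nonempty with rfl | hS
  · simpa using hρ0.trans hJρ
  have hc : (0 : ℝ) < S.card := by exact_mod_cast hS.card_pos
  have key := up_FL0 K m (by omega) (by linarith [Real.exp_pos (4 * K)]) {x // x ∈ S} {p // p ∈ P}
    (fun p x => E p x) (fun p => g p) (fun p => blk p) J (ρ / S.card) (fun p => hg p p.2)
    (fun p => hJ p p.2) (fun j => ?_) ?_
  · have e1 : pr (fun x : {x // x ∈ S} => ∀ p : {p // p ∈ P}, ¬ E p x) =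
        ((S.filter fun x => ∀ p ∈ P, ¬ E p x).card : ℝ) / S.card := by
      rw [← pr_FL0]
      congr 1
      funext x
      simp
    rw [e1, prod_coe_sort P (fun p => 1 - g p), div_le_iff₀ hc, add_mul,
      div_mul_cancel₀ _ hc.ne'] at key
    nlinarith
  · refine le_trans (le_of_eq ?_) (hb j)
    rw [sum_filter, sum_filter, sum_coe_sort P (fun p => if blk p = j then g p else 0)]
  · rw [le_div_iff₀ hc, sum_mul]
    refine le_trans (le_of_eq ?_) hρ
    refine sum_bij (fun T _ => T.map (Function.Embedding.subtype _)) (fun T hT => ?_)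
      (fun T _ T' _ h => map_injective _ h) (fun T hT => ?_) (fun T _ => ?_)
    · rw [mem_filter] at hT ⊢
      refine ⟨mem_powerset.2 fun p hp => ?_, fun j => ?_⟩
      · obtain ⟨q, _, rfl⟩ := mem_map.1 hp
        exact q.2
      · rw [filter_map, card_map]
        exact hT.2 j
    · rw [mem_filter, mem_powerset] at hT
      have e : (T.subtype (· ∈ P)).map (Function.Embedding.subtype _) = T :=
        subtype_map_of_mem fun p hp => hT.1 hp
      refine ⟨T.subtype (· ∈ P), mem_filter.2 ⟨mem_univ _, fun j => ?_⟩, e⟩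
      have h := hT.2 j
      rw [← e, filter_map, card_map] at h
      exact h
    · have e1 : pr (fun x : {x // x ∈ S} => ∀ p ∈ T, E p x) =
          ((S.filter fun x => ∀ p ∈ T.map (Function.Embedding.subtype _), E p x).card : ℝ) /
            S.card := by
        rw [← pr_FL0]
        congr 1
        funext x
        simp
      rw [e1, prod_map, ← abs_of_pos hc, ← abs_mul, abs_of_pos hc, sub_mul,
        div_mul_cancel₀ _ hc.ne', mul_comm]
      rfl

end Pool.Agent.MP_2876a2_nt.Tu.Z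

end

noncomputable section
open Finset Filter
open scoped Pointwise


namespace Pool.Agent.MP_2876a2_nt.Tu.Z

theorem crt_FL (Ω : ℕ → Finset ℕ) (T : Finset ℕ) (h : ∀ p ∈ T, p.Prime ∧ Ω p ⊆ range p) :
    ((range (∏ p ∈ T, p)).filter fun x => ∀ p ∈ T, x % p ∈ Ω p).card = ∏ p ∈ T, (Ω p).card := by
  induction T using Finset.induction_on with
  | empty => simp
  | insert p T hp ih =>
    have hT : ∀ q ∈ T, q.Prime ∧ Ω q ⊆ range q := fun q hq => h q (mem_insert_of_mem hq)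
    obtain ⟨pp, hΩ⟩ := h p (mem_insert_self _ _)
    have co : p.Coprime (∏ q ∈ T, q) := Nat.Coprime.prod_right fun q hq =>
      (Nat.coprime_primes pp (hT q hq).1).2 fun e => hp (e ▸ hq)
    have d0 : 0 < ∏ q ∈ T, q := prod_pos fun q hq => (hT q hq).1.pos
    rw [prod_insert hp, prod_insert hp, ← ih hT, ← card_product]
    refine card_nbij (fun x => (x % p, x % ∏ q ∈ T, q)) (fun x hx => ?_) (fun x hx y hy e => ?_)
      fun u hu => ?_
    · simp only [coe_filter, mem_range, Set.mem_ofPred_eq, forall_mem_insert] at hx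
      simp only [coe_product, Set.mem_prod, mem_coe, mem_filter, mem_range]
      refine ⟨hx.2.1, Nat.mod_lt _ d0, fun q hq => ?_⟩
      rw [Nat.mod_mod_of_dvd _ (dvd_prod_of_mem _ hq)]
      exact hx.2.2 q hq
    · simp only [coe_filter, mem_range, Set.mem_ofPred_eq] at hx hy
      obtain ⟨e1, e2⟩ := Prod.mk.inj e
      exact ((Nat.modEq_and_modEq_iff_modEq_mul co).1 ⟨e1, e2⟩).eq_of_lt_of_lt hx.1 hy.1
    · simp only [coe_product, Set.mem_prod, mem_coe, mem_filter, mem_range] at hu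
      obtain ⟨u1, u2, u3⟩ := hu
      have k := (Nat.chineseRemainder co u.1 u.2).2
      have e1 : (Nat.chineseRemainder co u.1 u.2).1 % p = u.1 :=
        Eq.trans k.1 (Nat.mod_eq_of_lt (mem_range.1 (hΩ u1)))
      have e2 : (Nat.chineseRemainder co u.1 u.2).1 % ∏ q ∈ T, q = u.2 :=
        Eq.trans k.2 (Nat.mod_eq_of_lt u2)
      refine ⟨_, ?_, Prod.ext e1 e2⟩
      simp only [coe_filter, mem_range, Set.mem_ofPred_eq, forall_mem_insert]
      refine ⟨Nat.chineseRemainder_lt_mul co _ _ pp.ne_zero d0.ne', e1.symm ▸ u1, fun q hq => ?_⟩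
      rw [← Nat.mod_mod_of_dvd _ (dvd_prod_of_mem (fun q => q) hq), e2]
      exact u3 q hq

theorem per_FL (Q : ℕ → Prop) [DecidablePred Q] {d : ℕ} (hQ : Function.Periodic Q d)
    (b k : ℕ) : ((Ico b (b + k * d)).filter Q).card = k * ((range d).filter Q).card := by
  induction k with
  | zero => simp
  | succ k ih =>
    rw [← Ico_union_Ico_eq_Ico (b := b + k * d) (by omega) (by nlinarith), filter_union,
      card_union_of_disjoint (disjoint_filter_filter (Ico_disjoint_Ico_consecutive _ _ _)), ih,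
      show b + (k + 1) * d = b + k * d + d by ring, Nat.filter_Ico_card_eq_of_periodic _ _ _ hQ,
      Nat.count_eq_card_filter_range]
    ring

theorem cnt_FL (Q : ℕ → Prop) [DecidablePred Q] {d : ℕ} (hd : 0 < d)
    (hQ : Function.Periodic Q d) (a X : ℕ) :
    |(((Ioc a (a + X)).filter Q).card : ℝ) - X * (((range d).filter Q).card / d : ℝ)| ≤ d := by
  have e : Ioc a (a + X) = Ico (a + 1) (a + 1 + X) := by
    ext x; simp only [mem_Ioc, mem_Ico]; omega
  have h1 := Nat.div_add_mod X d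
  have h2 := Nat.mod_lt X hd
  have x1 : X / d * d ≤ X := Nat.div_mul_le_self X d
  have x2 : X ≤ (X / d + 1) * d := by nlinarith
  have a1 := card_le_card (filter_subset_filter Q
    (Ico_subset_Ico_right (a := a + 1) (Nat.add_le_add_left x1 (a + 1))))
  have a2 := card_le_card (filter_subset_filter Q
    (Ico_subset_Ico_right (a := a + 1) (Nat.add_le_add_left x2 (a + 1))))
  rw [per_FL Q hQ] at a1 a2
  have a3 : ((range d).filter Q).card ≤ d := (card_filter_le _ _).trans (card_range d).le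
  rw [e]
  generalize ((Ico (a + 1) (a + 1 + X)).filter Q).card = c at a1 a2 ⊢
  generalize ((range d).filter Q).card = N at a1 a2 a3 ⊢
  generalize X / d = k at x1 x2 a1 a2
  have d0 : (0 : ℝ) < d := by exact_mod_cast hd
  have N0 : (0 : ℝ) ≤ N / d := by positivity
  have b1 : (k : ℝ) * d ≤ X := by exact_mod_cast x1
  have b2 : (X : ℝ) ≤ (k + 1) * d := by exact_mod_cast x2
  have b3 : (k : ℝ) * N ≤ c := by exact_mod_cast a1
  have b4 : (c : ℝ) ≤ (k + 1) * N := by exact_mod_cast a2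
  have b5 : (N : ℝ) ≤ d := by exact_mod_cast a3
  have c0 : (d : ℝ) * (N / d) = N := by field_simp
  have c1 := mul_le_mul_of_nonneg_right b1 N0
  have c2 := mul_le_mul_of_nonneg_right b2 N0
  rw [mul_assoc, c0] at c1 c2
  rw [abs_le]
  constructor <;> linarith

theorem err_FL (Ω : ℕ → Finset ℕ) (T : Finset ℕ) (h : ∀ p ∈ T, p.Prime ∧ Ω p ⊆ range p)
    (a X : ℕ) : |(((Ioc a (a + X)).filter fun x => ∀ p ∈ T, x % p ∈ Ω p).card : ℝ) -
      X * ∏ p ∈ T, (((Ω p).card : ℝ) / p)| ≤ ((∏ p ∈ T, p : ℕ) : ℝ) := by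
  have h1 := cnt_FL (fun x => ∀ p ∈ T, x % p ∈ Ω p) (prod_pos fun q hq => (h q hq).1.pos)
    (fun x => propext (forall₂_congr fun p hp => by
      rw [Nat.add_mod, Nat.mod_eq_zero_of_dvd (dvd_prod_of_mem (fun q => q) hp), add_zero,
        Nat.mod_mod])) a X
  rw [crt_FL Ω T h] at h1
  rw [prod_div_distrib]
  push_cast at h1 ⊢
  exact h1

theorem pow_FL (w j : ℕ) : (Nat.sqrt^[j] w) ^ 2 ^ j ≤ w := by
  induction j with
  | zero => simp
  | succ j ih =>
    rw [Function.iterate_succ_apply', pow_succ', pow_mul]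
    exact (Nat.pow_le_pow_left (Nat.sqrt_le' _) _).trans ih

theorem ex_FL (w l : ℕ) : ∃ j, 2 ≤ l → l ≤ w →
    j < w ∧ Nat.sqrt (Nat.sqrt^[j] w) < l ∧ l ≤ Nat.sqrt^[j] w := by
  by_cases h : 2 ≤ l ∧ l ≤ w
  swap
  · exact ⟨0, fun a b => (h ⟨a, b⟩).elim⟩
  have h1 : Nat.sqrt^[w] w < l := by
    by_contra hc
    have a := (Nat.pow_le_pow_left (h.1.trans (not_lt.1 hc)) _).trans (pow_FL w w)
    have b : w < 2 ^ w := Nat.lt_two_pow_self
    have c : 2 ^ w < 2 ^ 2 ^ w := Nat.lt_two_pow_self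
    omega
  have h2 : ∃ j, Nat.sqrt^[j] w < l := ⟨w, h1⟩
  have h3 := Nat.find_spec h2
  have h4 : Nat.find h2 ≤ w := Nat.find_min' h2 h1
  obtain ⟨j, hj⟩ : ∃ j, Nat.find h2 = j + 1 := by
    refine Nat.exists_eq_succ_of_ne_zero fun e => ?_
    rw [e] at h3
    simp only [Function.iterate_zero, id] at h3
    omega
  have h5 := Nat.find_min h2 (m := j) (by omega)
  rw [hj, Function.iterate_succ_apply'] at h3
  exact ⟨j, fun _ _ => ⟨by omega, h3, not_lt.1 h5⟩⟩

theorem geo_FL (m : ℝ) (J : ℕ) : ∑ j ∈ range J, (2 * (m + j) + 1) / 2 ^ j =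
    4 * m + 6 - (4 * m + 6 + 4 * J) / 2 ^ J := by
  induction J with
  | zero => simp
  | succ J ih => rw [sum_range_succ, ih]; push_cast; field_simp; ring

theorem size_FL {w m : ℕ} (hw : 2 ≤ w) (T : Finset ℕ) (blk : ℕ → ℕ)
    (h : ∀ p ∈ T, 0 < p ∧ blk p < w ∧ p ≤ Nat.sqrt^[blk p] w)
    (hc : ∀ j, (T.filter fun p => blk p = j).card ≤ 2 * (m + j) + 1) :
    ∏ p ∈ T, p ≤ w ^ (4 * m + 6) := by
  have w0 : (0 : ℝ) < w := by exact_mod_cast (by omega : 0 < w)
  have L0 : 0 ≤ Real.log w := Real.log_natCast_nonneg w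
  have h1 : ∀ p ∈ T, Real.log p ≤ Real.log w / 2 ^ blk p := fun p hp => by
    obtain ⟨a, -, c⟩ := h p hp
    have e : p ^ 2 ^ blk p ≤ w := (Nat.pow_le_pow_left c _).trans (pow_FL w _)
    have e' : (p : ℝ) ^ 2 ^ blk p ≤ w := by exact_mod_cast e
    have := Real.log_le_log (by positivity) e'
    rw [Real.log_pow] at this
    rw [le_div_iff₀ (by positivity)]
    push_cast at this
    linarith
  have h2 : ∑ p ∈ T, Real.log p ≤ (4 * m + 6) * Real.log w := by
    rw [← sum_fiberwise_of_maps_to (s := T) (t := range w) (g := blk)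
      fun p hp => mem_range.2 (h p hp).2.1]
    calc _ ≤ ∑ j ∈ range w, (2 * ((m : ℝ) + j) + 1) / 2 ^ j * Real.log w := by
          refine sum_le_sum fun j _ => ?_
          refine (sum_le_card_nsmul _ _ (Real.log w / 2 ^ j) fun p hp => ?_).trans ?_
          · obtain ⟨a, b⟩ := mem_filter.1 hp
            exact b ▸ h1 p a
          · have c : (((T.filter fun p => blk p = j).card : ℕ) : ℝ) ≤ 2 * (m + j) + 1 := by
              exact_mod_cast hc j
            rw [nsmul_eq_mul, div_mul_eq_mul_div, ← mul_div_assoc]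
            gcongr
      _ ≤ _ := by
          rw [← sum_mul, geo_FL]
          refine mul_le_mul_of_nonneg_right (sub_le_self _ (by positivity)) L0
  have h3 : ((∏ p ∈ T, p : ℕ) : ℝ) ≤ (w : ℝ) ^ (4 * m + 6) := by
    have p0 : ∀ p ∈ T, (0 : ℝ) < p := fun p hp => by exact_mod_cast (h p hp).1
    rw [Nat.cast_prod, ← Real.log_le_log_iff (prod_pos p0) (by positivity),
      Real.log_prod fun p hp => (p0 p hp).ne', Real.log_pow]
    push_cast
    exact h2
  exact_mod_cast h3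

theorem exp_FL (κ : ℕ) : Real.exp (4 * (4 * κ : ℝ)) * 8 ≤ 2 ^ (24 * κ + 3) := by
  have h1 : Real.exp 2 ≤ 8 := by
    have := Real.exp_one_lt_d9
    have h0 := Real.exp_pos 1
    rw [show (2 : ℝ) = 1 + 1 by norm_num, Real.exp_add]
    nlinarith
  have h2 : Real.exp (4 * (4 * κ : ℝ)) = Real.exp 2 ^ (8 * κ) := by
    rw [← Real.exp_nat_mul]; congr 1; push_cast; ring
  have h3 : (2 : ℝ) ^ (24 * κ + 3) = 8 ^ (8 * κ) * 8 := by
    rw [pow_add, show 24 * κ = 3 * (8 * κ) by ring, pow_mul]; norm_num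
  rw [h2, h3]
  gcongr

open Classical in
theorem sFL (h0 : StFL0) : StFL := by
  refine ⟨230, by norm_num, fun κ w a X I Ω hκ hw hI => ?_⟩
  choose blk hb using ex_FL w
  have hb' := fun l (hl : l ∈ I) => hb l (hI l hl).1.two_le (hI l hl).2.2.1
  have w1 : (1 : ℝ) ≤ w := by exact_mod_cast (by omega : 1 ≤ w)
  have key := h0 (4 * κ) ((w : ℝ) ^ (8 * (24 * κ + 3) + 12)) (24 * κ + 3) w (Ioc a (a + X)) I
    (fun l x => x % l ∈ Ω l) (fun l => ((Ω l).card : ℝ) / l) blk (by omega) (exp_FL κ)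
    (fun p hp => ?_) (fun p hp => (hb' p hp).1) (fun j => ?_) ?_
  · rw [Nat.card_Ioc, Nat.add_sub_cancel_left] at key
    refine le_trans (le_of_eq ?_) (key.trans (add_le_add le_rfl ?_))
    · congr
    · have w2 : (2 : ℝ) ≤ w := by exact_mod_cast hw
      calc ((w : ℝ) + 1) * w ^ (8 * (24 * κ + 3) + 12) ≤ w ^ 2 * w ^ (8 * (24 * κ + 3) + 12) :=
            mul_le_mul_of_nonneg_right (by nlinarith) (by positivity)
        _ ≤ _ := by rw [← pow_add]; exact pow_le_pow_right₀ w1 (by omega)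
  · obtain ⟨a1, a2, -, -, a3⟩ := hI p hp
    refine ⟨by positivity, ?_⟩
    have p0 : (0 : ℝ) < p := by exact_mod_cast a1.pos
    have : (((Ω p).card * 2 : ℕ) : ℝ) ≤ p := by exact_mod_cast (by omega : (Ω p).card * 2 ≤ p)
    rw [div_le_div_iff₀ p0 two_pos]
    push_cast at this
    linarith
  · by_cases ht : 2 ≤ Nat.sqrt^[j] w
    · have h1 := Pool.Agent.MP_c7a479_co.PolySieve.sum_inv_le _ ht
      calc _ ≤ ∑ p ∈ I.filter (fun p => blk p = j), (κ : ℝ) * (p : ℝ)⁻¹ := by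
            refine sum_le_sum fun p hp => ?_
            have c : (((Ω p).card : ℕ) : ℝ) ≤ κ := by
              exact_mod_cast (hI p (mem_filter.1 hp).1).2.2.2.2
            rw [div_eq_mul_inv]
            gcongr
        _ ≤ κ * 4 := by
            rw [← mul_sum]
            refine mul_le_mul_of_nonneg_left (le_trans (sum_le_sum_of_subset_of_nonneg
              (fun p hp => ?_) fun _ _ _ => by positivity) h1) (by positivity)
            obtain ⟨b1, b2⟩ := mem_filter.1 hp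
            have := hb' p b1
            rw [b2] at this
            exact Pool.Agent.MP_c7a479_co.PolySieve.mem_blk.2 ⟨this.2, (hI p b1).1⟩
        _ = _ := mul_comm _ _
    · rw [sum_eq_zero fun p hp => ?_]
      · positivity
      · obtain ⟨b1, b2⟩ := mem_filter.1 hp
        have := hb' p b1
        have := (hI p b1).1.two_le
        rw [b2] at *
        omega
  · have hs : ∀ T ∈ I.powerset.filter (fun T => ∀ j,
        (T.filter fun p => blk p = j).card ≤ 2 * (24 * κ + 3 + j) + 1),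
        T ⊆ I ∧ ∏ p ∈ T, p ≤ w ^ (4 * (24 * κ + 3) + 6) := fun T hT => by
      obtain ⟨t1, t2⟩ := mem_filter.1 hT
      have t3 := mem_powerset.1 t1
      exact ⟨t3, size_FL hw T blk (fun p hp =>
        ⟨(hI p (t3 hp)).1.pos, (hb' p (t3 hp)).1, (hb' p (t3 hp)).2.2⟩) t2⟩
    have hc := card_le_card_of_injOn (s := I.powerset.filter (fun T => ∀ j,
        (T.filter fun p => blk p = j).card ≤ 2 * (24 * κ + 3 + j) + 1))
      (t := Ioc 0 (w ^ (4 * (24 * κ + 3) + 6)))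
      (fun T : Finset ℕ => ∏ p ∈ T, p)
      (fun T hT => mem_coe.2 (mem_Ioc.2 ⟨prod_pos fun p hp => (hI p ((hs T hT).1 hp)).1.pos,
        (hs T hT).2⟩))
      fun T hT T' hT' e => by
        rw [← Nat.primeFactors_prod fun p hp => (hI p ((hs T hT).1 hp)).1,
          ← Nat.primeFactors_prod fun p hp => (hI p ((hs T' hT').1 hp)).1]
        exact congrArg _ e
    rw [Nat.card_Ioc, Nat.sub_zero] at hc
    refine (sum_le_card_nsmul _ _ ((w : ℝ) ^ (4 * (24 * κ + 3) + 6)) fun T hT => ?_).trans ?_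
    · obtain ⟨t1, t2⟩ := hs T (by convert hT)
      have h1 := err_FL Ω T (fun p hp => ⟨(hI p (t1 hp)).1, (hI p (t1 hp)).2.2.2.1⟩) a X
      rw [Nat.card_Ioc, Nat.add_sub_cancel_left]
      refine le_trans (le_of_eq ?_) (h1.trans (by exact_mod_cast t2))
      congr
    · rw [nsmul_eq_mul, show 8 * (24 * κ + 3) + 12 =
        4 * (24 * κ + 3) + 6 + (4 * (24 * κ + 3) + 6) by ring, pow_add _ (4 * (24 * κ + 3) + 6)]
      have hc' := (Nat.cast_le (α := ℝ)).2 hc
      rw [Nat.cast_pow] at hc'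
      have p0 : (0 : ℝ) ≤ (w : ℝ) ^ (4 * (24 * κ + 3) + 6) := by positivity
      convert mul_le_mul_of_nonneg_right hc' p0

end Pool.Agent.MP_2876a2_nt.Tu.Z

end

noncomputable section
open Finset Filter
open scoped Pointwise


namespace Pool.Agent.MP_2876a2_nt.Tu.Z

open Pool.Agent.MP_fdd1d3_nt in
theorem sum_Me (P : Finset ℕ) :
    ∑ s ∈ P.powerset, 1 / nn (fun p => p) s = ∏ l ∈ P, (1 + 1 / (l : ℝ)) := by
  rw [prod_one_add]
  refine sum_congr rfl fun s _ => ?_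
  simp [nn, Finset.prod_inv_distrib]

open Pool.Agent.MP_fdd1d3_nt in
theorem sMe : StMe := by
  refine ⟨fun a w ha haw => ?_, fun w hw => ?_⟩
  · have h1 := mertens_c a w w ha le_rfl
    have la : 0 < Real.log a := Real.log_pos (by exact_mod_cast ha)
    have w1 : (1 : ℝ) < w := by exact_mod_cast ha.trans haw
    have lw : 0 < Real.log w := Real.log_pos w1
    have h2 : ∑ s ∈ (PP a w).powerset.filter (fun s => ∏ p ∈ s, p ≤ w), 1 / nn (fun p => p) s ≤
        ∏ l ∈ PP a w, (1 + 1 / (l : ℝ)) := by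
      rw [← sum_Me]
      refine sum_le_sum_of_subset_of_nonneg (filter_subset _ _) fun s _ _ => ?_
      rw [nn_id]
      positivity
    have h3 : Real.log w ≤ 30 * Real.log a * ∏ l ∈ PP a w, (1 + 1 / (l : ℝ)) :=
      (Real.log_le_log (by linarith) (by linarith)).trans
        (h1.trans (mul_le_mul_of_nonneg_left h2 (by positivity)))
    have h4 : ∀ l ∈ PP a w, 0 ≤ 1 - 1 / (l : ℝ) := fun l hl => by
      have : (1 : ℝ) ≤ l := by exact_mod_cast ((mem_PP _ _ _).1 hl).2.one_le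
      rw [sub_nonneg, div_le_one (by linarith)]
      exact this
    have h5 : (∏ l ∈ PP a w, (1 - 1 / (l : ℝ))) * ∏ l ∈ PP a w, (1 + 1 / (l : ℝ)) ≤ 1 := by
      rw [← prod_mul_distrib]
      refine prod_le_one (fun l hl => mul_nonneg (h4 l hl) (by positivity)) fun l _ => ?_
      nlinarith [sq_nonneg (1 / (l : ℝ))]
    have h6 := prod_nonneg h4
    change ∏ l ∈ PP a w, (1 - 1 / (l : ℝ)) ≤ _
    rw [le_div_iff₀ lw]
    nlinarith [mul_le_mul_of_nonneg_left h3 h6,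
      mul_le_mul_of_nonneg_left h5 (show 0 ≤ 30 * Real.log a by positivity)]
  · have := mertens_b w hw
    rwa [sum_Me] at this

end Pool.Agent.MP_2876a2_nt.Tu.Z

end

noncomputable section
open Finset Filter
open scoped Pointwise


namespace Pool.Agent.MP_2876a2_nt.Tu.Z

/-- the leading coefficient of `n` steps of a chain that start at the index `a` -/
def A_Om (μ : ℕ → ℕ) : ℕ → ℕ → ℕ
  | 0, _ => 1
  | n + 1, a => μ a * A_Om μ n (a + 1)

theorem id_Om {R : Type} [CommRing R] (μ : ℕ → ℕ) (y : ℕ → R) : ∀ n a : ℕ,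
    (∀ i, a ≤ i → i < a + n → y i + 1 = (μ i : R) * y (i + 1)) →
    y a + (Bf μ n a : R) = (A_Om μ n a : R) * y (a + n) := by
  intro n
  induction n with
  | zero => intro a _; simp [Bf, A_Om]
  | succ n ih =>
    intro a h
    have h1 := ih (a + 1) fun i hi hi' => h i (by omega) (by omega)
    have h2 := h a le_rfl (by omega)
    have e : a + (n + 1) = a + 1 + n := by omega
    rw [e]
    simp only [Bf, A_Om]
    push_cast
    linear_combination h2 + (μ a : R) * h1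

theorem nd_Om (μ : ℕ → ℕ) {l : ℕ} (hl : l.Prime) : ∀ n a : ℕ,
    (∀ i, a ≤ i → i < a + n → ¬ l ∣ μ i) → ¬ l ∣ A_Om μ n a := by
  intro n
  induction n with
  | zero => intro a _; simpa [A_Om] using hl.ne_one
  | succ n ih =>
    intro a h hd
    simp only [A_Om] at hd
    rcases (Nat.Prime.dvd_mul hl).1 hd with e | e
    · exact h a le_rfl (by omega) e
    · exact ih (a + 1) (fun i hi hi' => h i (by omega) (by omega)) e

theorem rec_Om {R : Type} [CommRing R] (μ : ℕ → ℕ) (j : ℕ) (x : R) (i : ℕ) (hi : i < j) :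
    ((A_Om μ (j - i) i : R) * x - (Bf μ (j - i) i : R)) + 1 =
      (μ i : R) * ((A_Om μ (j - (i + 1)) (i + 1) : R) * x - (Bf μ (j - (i + 1)) (i + 1) : R)) := by
  have e : j - i = j - (i + 1) + 1 := by omega
  rw [e]
  simp only [Bf, A_Om]
  push_cast
  ring

theorem sOm : StOm := by
  intro j w l μ hl
  obtain ⟨-, hp, h1, h2⟩ := mem_filter.1 hl
  have : Fact l.Prime := ⟨hp⟩
  have hA : ∀ a ≤ j, ((A_Om μ (j - a) a : ℕ) : ZMod l) ≠ 0 := by
    intro a ha h
    exact nd_Om μ hp (j - a) a (fun i _ hi => h1 i (mem_range.2 (by omega)))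
      ((ZMod.natCast_eq_zero_iff _ _).1 h)
  set r : ℕ → ZMod l := fun a => (Bf μ (j - a) a : ZMod l) / (A_Om μ (j - a) a : ZMod l) with hr
  have hr0 : ∀ a ≤ j, (A_Om μ (j - a) a : ZMod l) * r a = (Bf μ (j - a) a : ZMod l) := by
    intro a ha
    simp only [hr]
    exact mul_div_cancel₀ _ (hA a ha)
  have inj : ∀ a a', a < a' → a' ≤ j → r a ≠ r a' := by
    intro a a' h h' e
    have k := id_Om μ (fun i => (A_Om μ (j - i) i : ZMod l) * r a - (Bf μ (j - i) i : ZMod l))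
      (a' - a) a fun i _ hi => rec_Om μ j (r a) i (by omega)
    have e2 : a + (a' - a) = a' := by omega
    simp only [e2] at k
    rw [hr0 a (by omega), e, hr0 a' h'] at k
    have k' : ((Bf μ (a' - a) a : ℕ) : ZMod l) = 0 := by simpa using k
    have e3 : a' - a = a' - a - 1 + 1 := by omega
    rw [e3] at k'
    exact h2 a (mem_range.2 (by omega)) (a' - a - 1) (mem_range.2 (by omega))
      ((ZMod.natCast_eq_zero_iff _ _).1 k')
  refine ⟨(range (j + 1)).image fun a => (r a).val, ?_, ?_, ?_⟩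
  · intro x hx
    obtain ⟨a, -, rfl⟩ := mem_image.1 hx
    exact mem_range.2 (ZMod.val_lt _)
  · rw [card_image_of_injOn, card_range]
    intro a ha a' ha' e
    have ha1 : a < j + 1 := by simpa using ha
    have ha2 : a' < j + 1 := by simpa using ha'
    have e' : r a = r a' := ZMod.val_injective l e
    rcases lt_trichotomy a a' with h | h | h
    · exact absurd e' (inj a a' h (by omega))
    · exact h
    · exact absurd e'.symm (inj a' a h (by omega))
  · intro c hc hn hm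
    obtain ⟨a, ha, e⟩ := mem_image.1 hm
    have ha1 : a ≤ j := Nat.lt_succ_iff.1 (mem_range.1 ha)
    have e' : r a = (c j : ZMod l) := ZMod.val_injective l (by rw [e, ZMod.val_natCast])
    have k := id_Om μ (fun i => (c i : ZMod l)) (j - a) a fun i _ hi => by
      have := congrArg (fun n : ℕ => (n : ZMod l)) (hc i (by omega))
      simpa using this
    have e2 : a + (j - a) = j := by omega
    simp only [e2] at k
    rw [← e', hr0 a ha1] at k
    have k' : ((c a : ℕ) : ZMod l) = 0 := by simpa using k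
    exact hn a ha1 ((ZMod.natCast_eq_zero_iff _ _).1 k')

end Pool.Agent.MP_2876a2_nt.Tu.Z

end

noncomputable section
open Finset Filter
open scoped Pointwise


namespace Pool.Agent.MP_2876a2_nt.Tu.Z

theorem card_Pr {n E : ℕ} (h0 : 0 < n) (h : n ≤ 2 ^ E) : n.primeFactors.card ≤ E := by
  have h1 : 2 ^ n.primeFactors.card ≤ ∏ p ∈ n.primeFactors, p :=
    pow_card_le_prod _ _ _ fun p hp => (Nat.prime_of_mem_primeFactors hp).two_le
  have h2 := Nat.le_of_dvd h0 (Nat.prod_primeFactors_dvd n)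
  exact (Nat.pow_le_pow_iff_right (by norm_num)).1 (h1.trans (h2.trans h))

theorem one_Pr (κ w : ℕ) {L E n : ℕ} (hL : 1 ≤ L) (h0 : 0 < n) (h : n ≤ 2 ^ E) :
    gs κ w n ≤ gs κ L n + (E : ℝ) / L := by
  have L0 : (0 : ℝ) < L := by exact_mod_cast hL
  unfold gs
  rw [← sum_filter_add_sum_filter_not _ (fun l => l ≤ L)]
  refine add_le_add (sum_le_sum_of_subset_of_nonneg (fun l hl => ?_) fun _ _ _ => by positivity) ?_
  · simp only [mem_filter, mem_Ioc] at hl ⊢
    exact ⟨⟨hl.1.1.1, hl.2⟩, hl.1.2⟩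
  · refine (sum_le_card_nsmul _ _ (1 / L : ℝ) fun l hl => ?_).trans ?_
    · have : L ≤ l := (not_le.1 (mem_filter.1 hl).2).le
      exact one_div_le_one_div_of_le L0 (by exact_mod_cast this)
    · rw [nsmul_eq_mul, mul_one_div]
      refine div_le_div_of_nonneg_right ?_ L0.le
      refine Nat.cast_le.2 (le_trans (card_le_card fun l hl => ?_) (card_Pr h0 h))
      simp only [mem_filter] at hl
      exact Nat.mem_primeFactors.2 ⟨hl.1.2.1, hl.1.2.2, h0.ne'⟩

theorem bad_Pr (j w : ℕ) (μ : ℕ → ℕ) :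
    ∑ l ∈ (Ioc (4 * (j + 1) ^ 4) w).filter Nat.Prime \ Ig j w μ, (1 / l : ℝ) ≤ Gs j w μ := by
  set P := (Ioc (4 * (j + 1) ^ 4) w).filter Nat.Prime with hP
  have e : ∀ n, gs (j + 1) w n = ∑ l ∈ P, if l ∣ n then (1 / l : ℝ) else 0 := fun n => by
    rw [gs, ← filter_filter, sum_filter]
  have p : ∀ l n : ℕ, 0 ≤ (if l ∣ n then (1 / l : ℝ) else 0) := fun l n => by
    split_ifs <;> positivity
  have e2 : Gs j w μ = ∑ l ∈ P, ((∑ a ∈ range j, if l ∣ μ a then (1 / l : ℝ) else 0) +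
      ∑ a ∈ range j, ∑ n ∈ range (j - a), if l ∣ Bf μ (n + 1) a then (1 / l : ℝ) else 0) := by
    simp only [Gs, e]
    rw [sum_add_distrib, sum_comm]
    congr 1
    rw [sum_comm (s := P)]
    exact sum_congr rfl fun a _ => sum_comm
  rw [e2]
  refine le_trans (sum_le_sum fun l hl => ?_) (sum_le_sum_of_subset_of_nonneg sdiff_subset
    fun l _ _ => add_nonneg (sum_nonneg fun _ _ => p _ _)
      (sum_nonneg fun _ _ => sum_nonneg fun _ _ => p _ _))
  obtain ⟨h1, h2⟩ := mem_sdiff.1 hl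
  have a1 : 0 ≤ ∑ a ∈ range j, if l ∣ μ a then (1 / l : ℝ) else 0 := sum_nonneg fun _ _ => p _ _
  have a2 : 0 ≤ ∑ a ∈ range j, ∑ n ∈ range (j - a),
      if l ∣ Bf μ (n + 1) a then (1 / l : ℝ) else 0 :=
    sum_nonneg fun _ _ => sum_nonneg fun _ _ => p _ _
  by_cases c1 : ∃ a ∈ range j, l ∣ μ a
  · obtain ⟨a, ha, hd⟩ := c1
    have := single_le_sum (f := fun a => if l ∣ μ a then (1 / l : ℝ) else 0)
      (fun _ _ => p _ _) ha
    simp only [if_pos hd] at this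
    linarith
  by_cases c2 : ∃ a ∈ range j, ∃ n ∈ range (j - a), l ∣ Bf μ (n + 1) a
  · obtain ⟨a, ha, n, hn, hd⟩ := c2
    have b1 := single_le_sum (f := fun n => if l ∣ Bf μ (n + 1) a then (1 / l : ℝ) else 0)
      (fun _ _ => p _ _) hn
    have b2 := single_le_sum (f := fun a => ∑ n ∈ range (j - a),
      if l ∣ Bf μ (n + 1) a then (1 / l : ℝ) else 0)
      (fun _ _ => sum_nonneg fun _ _ => p _ _) ha
    simp only [if_pos hd] at b1
    linarith
  · exact absurd (mem_filter.2 ⟨(mem_filter.1 h1).1, (mem_filter.1 h1).2,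
      fun a ha hd => c1 ⟨a, ha, hd⟩, fun a ha n hn hd => c2 ⟨a, ha, n, hn, hd⟩⟩) h2

theorem big_Pr {j L E : ℕ} (w : ℕ) {μ : ℕ → ℕ} (hL : 1 ≤ L) (h1 : ∀ a < j, 0 < μ a ∧ μ a ≤ 2 ^ E)
    (h2 : ∀ a n, a + n < j → Bf μ (n + 1) a ≤ 2 ^ E) :
    Gs j w μ ≤ Gs j L μ + (j + 1) ^ 2 * E / L := by
  have t0 : (0 : ℝ) ≤ (E : ℝ) / L := by positivity
  have a1 : ∑ a ∈ range j, gs (j + 1) w (μ a) ≤
      ∑ a ∈ range j, gs (j + 1) L (μ a) + j * ((E : ℝ) / L) := by
    refine (sum_le_sum fun a ha => one_Pr (j + 1) w hL (h1 a (mem_range.1 ha)).1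
      (h1 a (mem_range.1 ha)).2).trans ?_
    rw [sum_add_distrib, sum_const, card_range, nsmul_eq_mul]
  have a2 : ∀ a ∈ range j, ∑ n ∈ range (j - a), gs (j + 1) w (Bf μ (n + 1) a) ≤
      ∑ n ∈ range (j - a), gs (j + 1) L (Bf μ (n + 1) a) + j * ((E : ℝ) / L) := fun a _ => by
    refine (sum_le_sum fun n hn => one_Pr (j + 1) w hL (Nat.succ_pos _)
      (h2 a n (by have := mem_range.1 hn; omega))).trans ?_
    rw [sum_add_distrib, sum_const, card_range, nsmul_eq_mul]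
    have : ((j - a : ℕ) : ℝ) ≤ j := Nat.cast_le.2 (Nat.sub_le _ _)
    exact add_le_add le_rfl (mul_le_mul_of_nonneg_right this t0)
  have a3 := sum_le_sum a2
  rw [sum_add_distrib, sum_const, card_range, nsmul_eq_mul] at a3
  have j0 : (0 : ℝ) ≤ j := Nat.cast_nonneg j
  rw [Gs, Gs, mul_div_assoc]
  nlinarith [mul_nonneg j0 t0]

theorem sPr (hM : StMe) : StPr := by
  intro j w L E μ hj hw hL h1 h2
  set P := (Ioc (4 * (j + 1) ^ 4) w).filter Nat.Prime with hP
  have k2 : j + 1 ≤ 4 * (j + 1) ^ 4 :=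
    (Nat.le_self_pow (by norm_num) _).trans (Nat.le_mul_of_pos_left _ (by norm_num))
  have sub : Ig j w μ ⊆ P := fun l hl =>
    mem_filter.2 ⟨(mem_filter.1 hl).1, (mem_filter.1 hl).2.1⟩
  have l2 : ∀ l ∈ P, (2 : ℝ) ≤ l := fun l hl => by exact_mod_cast (mem_filter.1 hl).2.two_le
  have x2 : ∀ l ∈ P, 0 ≤ (1 / l : ℝ) ∧ (1 / l : ℝ) ≤ 1 / 2 := fun l hl =>
    ⟨by positivity, one_div_le_one_div_of_le two_pos (l2 l hl)⟩
  have s1 : ∏ l ∈ Ig j w μ, (1 - ((j + 1 : ℕ) : ℝ) / l) ≤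
      (∏ l ∈ Ig j w μ, (1 - 1 / (l : ℝ))) ^ (j + 1) := by
    rw [← prod_pow]
    refine prod_le_prod (fun l hl => ?_) fun l hl => ?_
    · have a : j + 1 ≤ l := k2.trans (mem_Ioc.1 (mem_filter.1 hl).1).1.le
      have b := l2 l (sub hl)
      rw [sub_nonneg, div_le_one (by linarith)]
      exact_mod_cast a
    · have := one_add_mul_le_pow (a := -(1 / (l : ℝ))) (by linarith [(x2 l (sub hl)).2]) (j + 1)
      rw [← sub_eq_add_neg, mul_neg, ← sub_eq_add_neg, mul_one_div] at this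
      exact this
  have n1 : 0 ≤ ∏ l ∈ Ig j w μ, (1 - 1 / (l : ℝ)) :=
    prod_nonneg fun l hl => by linarith [(x2 l (sub hl)).2]
  have s2 : 1 ≤ (∏ l ∈ P \ Ig j w μ, (1 - 1 / (l : ℝ))) *
      Real.exp (2 * ∑ l ∈ P \ Ig j w μ, (1 / l : ℝ)) := by
    rw [mul_sum, Real.exp_sum, ← prod_mul_distrib]
    refine le_trans (by simp) (prod_le_prod (f := fun _ => (1 : ℝ)) (fun _ _ => zero_le_one)
      fun l hl => ?_)
    obtain ⟨a, b⟩ := x2 l (sdiff_subset hl)
    have c := mul_le_mul_of_nonneg_left (Real.add_one_le_exp (2 * (1 / (l : ℝ))))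
      (show 0 ≤ 1 - 1 / (l : ℝ) by linarith)
    nlinarith [mul_nonneg a (sub_nonneg.2 b)]
  have w2 : 2 ≤ 4 * (j + 1) ^ 4 := le_trans (by omega) k2
  have s3 := hM.1 _ w w2 hw
  have lw : 0 < Real.log w := Real.log_pos (by exact_mod_cast (by omega : 1 < w))
  have s4 : Real.log ((4 * (j + 1) ^ 4 : ℕ) : ℝ) ≤ 6 * Real.log (j + 1) := by
    have a : (2 : ℝ) ≤ j + 1 := by
      have : (1 : ℝ) ≤ j := by exact_mod_cast hj
      linarith
    have b : ((4 * (j + 1) ^ 4 : ℕ) : ℝ) ≤ ((j : ℝ) + 1) ^ 6 := by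
      push_cast
      have : (4 : ℝ) ≤ (j + 1) ^ 2 := by nlinarith
      calc (4 : ℝ) * (j + 1) ^ 4 ≤ (j + 1) ^ 2 * (j + 1) ^ 4 := by gcongr
        _ = _ := by ring
    refine (Real.log_le_log (by positivity) b).trans ?_
    rw [Real.log_pow]
    norm_num
  have s5 : ∏ l ∈ P, (1 - 1 / (l : ℝ)) ≤ 180 * Real.log (j + 1) / Real.log w :=
    s3.trans (div_le_div_of_nonneg_right (by linarith) lw.le)
  have s6 : ∏ l ∈ Ig j w μ, (1 - 1 / (l : ℝ)) ≤ 180 * Real.log (j + 1) / Real.log w *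
      Real.exp (2 * (Gs j L μ + (j + 1) ^ 2 * E / L)) := by
    refine (le_mul_of_one_le_left n1 s2).trans ?_
    rw [mul_right_comm, prod_sdiff sub]
    refine mul_le_mul s5 (Real.exp_le_exp.2 ?_) (Real.exp_pos _).le
      (le_trans (prod_nonneg fun l hl => by linarith [(x2 l hl).2]) s5)
    linarith [bad_Pr j w μ, big_Pr w hL h1 h2]
  refine s1.trans ((pow_le_pow_left₀ n1 s6 _).trans (le_of_eq ?_))
  rw [mul_pow, ← Real.exp_nat_mul]
  congr 2
  push_cast
  ring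

end Pool.Agent.MP_2876a2_nt.Tu.Z

end

noncomputable section
open Finset Filter
open scoped Pointwise


namespace Pool.Agent.MP_2876a2_nt.Tu.Z

theorem id_One (j : ℕ) (μ c : ℕ → ℕ) (h : ∀ i < j, c i + 1 = μ i * c (i + 1)) :
    ∀ n a, a + n ≤ j → c a + Bf μ n a = (∏ i ∈ range n, μ (a + i)) * c (a + n) := by
  intro n
  induction n with
  | zero => intro a _; simp [Bf]
  | succ n ih =>
    intro a ha
    have h1 := ih (a + 1) (by omega)
    have h2 := h a (by omega)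
    have e : ∏ i ∈ range n, μ (a + (i + 1)) = ∏ i ∈ range n, μ (a + 1 + i) :=
      prod_congr rfl fun i _ => by rw [show a + (i + 1) = a + 1 + i by ring]
    rw [prod_range_succ', Bf, e, show a + (n + 1) = a + 1 + n by ring, add_zero]
    calc c a + (μ a * Bf μ n (a + 1) + 1) = μ a * (c (a + 1) + Bf μ n (a + 1)) := by
          rw [mul_add, ← h2]; ring
      _ = _ := by rw [h1]; ring

theorem bd_One (j : ℕ) (μ c : ℕ → ℕ) (h : ∀ i < j, c i + 1 = μ i * c (i + 1))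
    (hp : ∀ i ≤ j, 1 ≤ c i) (a : ℕ) :
    ∀ n, a + n ≤ j → (∏ i ∈ range n, μ (a + i)) * c (a + n) ≤ 2 ^ n * c a := by
  intro n
  induction n with
  | zero => intro _; simp
  | succ n ih =>
    intro ha
    have h1 := ih (by omega)
    have h2 := h (a + n) (by omega)
    have h3 := hp (a + n) (by omega)
    rw [prod_range_succ, mul_assoc, ← add_assoc, ← h2, pow_succ]
    calc (∏ i ∈ range n, μ (a + i)) * (c (a + n) + 1)
        ≤ (∏ i ∈ range n, μ (a + i)) * (c (a + n) * 2) := Nat.mul_le_mul_left _ (by omega)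
      _ = (∏ i ∈ range n, μ (a + i)) * c (a + n) * 2 := by ring
      _ ≤ 2 ^ n * c a * 2 := Nat.mul_le_mul_right _ h1
      _ = _ := by ring

theorem ch_One {m j : ℕ} {c : ℕ → ℕ} (hq : c 0 ∈ PN (2 ^ (100 * m))) (hc : Cn (2 ^ m) j c) :
    ∀ i ≤ j, (c i).Prime ∧ 2 ^ m < c i ∧ c i ≤ 2 * 2 ^ (100 * m) := by
  intro i
  induction i with
  | zero =>
    intro _
    obtain ⟨h1, h2⟩ := mem_filter.1 hq
    obtain ⟨h3, h4⟩ := mem_Ioc.1 h1
    exact ⟨h2, (Nat.pow_le_pow_right two_pos (by omega)).trans_lt h3, h4⟩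
  | succ i ih =>
    intro hi
    obtain ⟨h1, h2, h3, -⟩ := hc i (by omega)
    exact ⟨h1, h2, h3.le.trans (ih (by omega)).2.2⟩

theorem cnt_One (m j w : ℕ) (μ : ℕ → ℕ) (Ω : ℕ → Finset ℕ) (hw : w ≤ 2 ^ m)
    (hμ : ∀ i < j, 1 ≤ μ i)
    (hΩ : ∀ l ∈ Ig j w μ, ∀ c : ℕ → ℕ, (∀ i < j, c i + 1 = μ i * c (i + 1)) →
      (∀ i ≤ j, ¬ l ∣ c i) → c j % l ∉ Ω l) :
    (cn m j μ).card ≤ ((Ioc ((2 ^ (100 * m) + Bf μ j 0) / ∏ i ∈ range j, μ i)
      ((2 ^ (100 * m) + Bf μ j 0) / (∏ i ∈ range j, μ i) +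
        (2 ^ (100 * m) / (∏ i ∈ range j, μ i) + 1))).filter
          fun x => ∀ l ∈ Ig j w μ, x % l ∉ Ω l).card := by
  classical
  have hA : 0 < ∏ i ∈ range j, μ i := prod_pos fun i hi => hμ i (mem_range.1 hi)
  have key : ∀ q ∈ cn m j μ, ∃ c : ℕ → ℕ, c 0 = q ∧ c 0 ∈ PN (2 ^ (100 * m)) ∧ Cn (2 ^ m) j c ∧
      (∀ i < j, c i + 1 = μ i * c (i + 1)) ∧ q + Bf μ j 0 = (∏ i ∈ range j, μ i) * c j := by
    intro q hq
    obtain ⟨h1, c, h2, h3, h4⟩ := mem_filter.1 hq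
    refine ⟨c, h2, h2 ▸ h1, h3, h4, ?_⟩
    simpa [h2] using id_One j μ c h4 j 0 (by omega)
  refine card_le_card_of_injOn (fun q => (q + Bf μ j 0) / ∏ i ∈ range j, μ i) ?_ ?_
  · intro q hq
    obtain ⟨c, h0, h1, h2, h3, h4⟩ := key q (mem_coe.1 hq)
    have h5 := ch_One h1 h2
    obtain ⟨h6, h7⟩ := mem_Ioc.1 (mem_filter.1 h1).1
    rw [h0] at h6 h7
    have hx : (q + Bf μ j 0) / ∏ i ∈ range j, μ i = c j := by
      rw [h4, Nat.mul_div_cancel_left _ hA]
    refine mem_coe.2 (mem_filter.2 ⟨mem_Ioc.2 ⟨?_, ?_⟩, ?_⟩)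
    · show _ < (q + Bf μ j 0) / ∏ i ∈ range j, μ i
      rw [hx, Nat.div_lt_iff_lt_mul hA, mul_comm (c j), ← h4]
      omega
    · show (q + Bf μ j 0) / ∏ i ∈ range j, μ i ≤ _
      refine (Nat.div_le_div_right
        (show q + Bf μ j 0 ≤ 2 ^ (100 * m) + Bf μ j 0 + 2 ^ (100 * m) by omega)).trans ?_
      rw [← add_assoc]
      exact Nat.add_div_le_div_add_div_add_one _ _ _
    · intro l hl
      show ((q + Bf μ j 0) / ∏ i ∈ range j, μ i) % l ∉ Ω l
      rw [hx]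
      refine hΩ l hl c h3 fun i hi hd => ?_
      obtain ⟨a1, a2, -⟩ := mem_filter.1 hl
      have a3 := (mem_Ioc.1 a1).2
      have a4 := (Nat.prime_dvd_prime_iff_eq a2 (h5 i hi).1).1 hd
      have a5 := (h5 i hi).2.1
      omega
  · intro q hq q' hq' he
    obtain ⟨c, -, -, -, -, h4⟩ := key q (mem_coe.1 hq)
    obtain ⟨c', -, -, -, -, h4'⟩ := key q' (mem_coe.1 hq')
    have he' : (q + Bf μ j 0) / ∏ i ∈ range j, μ i = (q' + Bf μ j 0) / ∏ i ∈ range j, μ i := he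
    rw [h4, h4', Nat.mul_div_cancel_left _ hA, Nat.mul_div_cancel_left _ hA] at he'
    rw [he'] at h4
    omega

theorem num_One (κ : ℕ) (hκ : 1 ≤ κ) (S R X P T D G m : ℝ) (hm : 0 < m) (hR : 0 ≤ R)
    (hX : X ≤ 2 * R) (hX0 : 0 ≤ X) (hD : 1 ≤ D) (hG : 1 ≤ G) (hP : P ≤ (D / m) ^ κ * (G * 3))
    (hT : T ≤ R / m ^ κ) (hS : S ≤ 2 * X * P + T) : S ≤ R * (13 * D / m) ^ κ * G := by
  have h1 : 0 ≤ (D / m) ^ κ := by positivity
  have h2 : 1 / m ^ κ ≤ (D / m) ^ κ := by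
    rw [div_pow]
    exact div_le_div_of_nonneg_right (one_le_pow₀ hD) (by positivity)
  have h3 : T ≤ R * ((D / m) ^ κ * G) := by
    refine hT.trans ?_
    rw [div_eq_mul_one_div]
    exact mul_le_mul_of_nonneg_left (h2.trans (le_mul_of_one_le_right h1 hG)) hR
  have h4 : 2 * X * P ≤ 2 * (2 * R) * ((D / m) ^ κ * (G * 3)) :=
    (mul_le_mul_of_nonneg_left hP (by positivity)).trans
      (mul_le_mul_of_nonneg_right (by linarith) (by positivity))
  have h5 : (13 : ℝ) ≤ 13 ^ κ := le_self_pow₀ (by norm_num) (by omega)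
  have h6 : 0 ≤ R * ((D / m) ^ κ * G) := by positivity
  rw [mul_div_assoc, mul_pow]
  nlinarith [mul_le_mul_of_nonneg_right h5 h6]

theorem gs_One (j L : ℕ) (μ : ℕ → ℕ) : 0 ≤ Gs j L μ := by
  have h : ∀ κ n, 0 ≤ gs κ L n := fun κ n => sum_nonneg fun l _ => by positivity
  exact add_nonneg (sum_nonneg fun _ _ => h _ _) (sum_nonneg fun _ _ => sum_nonneg fun _ _ => h _ _)

theorem ev_One (κ : ℕ) : ∀ᶠ m : ℕ in atTop, ∀ t : ℕ, 4 * t ≤ m →
    (2 : ℝ) ^ t * ((m : ℝ) ^ κ * 2 ^ κ) ≤ 2 ^ m := by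
  have h := (tendsto_pow_const_div_const_pow_of_one_lt κ
    (show (1 : ℝ) < 3 / 2 by norm_num)).eventually
      (ge_mem_nhds (show (0 : ℝ) < 1 / 2 ^ κ by positivity))
  filter_upwards [h] with m hm t ht
  rw [div_le_div_iff₀ (by positivity) (by positivity), one_mul] at hm
  have h1 : (2 : ℝ) ^ t ≤ (4 / 3) ^ m :=
    calc (2 : ℝ) ^ t ≤ ((4 / 3) ^ 4) ^ t := pow_le_pow_left₀ (by norm_num) (by norm_num) t
      _ = (4 / 3) ^ (4 * t) := by rw [pow_mul]
      _ ≤ _ := pow_le_pow_right₀ (by norm_num) ht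
  calc (2 : ℝ) ^ t * ((m : ℝ) ^ κ * 2 ^ κ) ≤ (4 / 3) ^ m * (3 / 2) ^ m :=
        mul_le_mul h1 hm (by positivity) (by positivity)
    _ = 2 ^ m := by rw [← mul_pow]; norm_num

theorem sOne (hF : StFL) (hO : StOm) (hP : StPr) : StOne := by
  classical
  obtain ⟨C, hC, hF⟩ := hF
  have hC' : (1 : ℝ) ≤ C := by exact_mod_cast hC
  refine ⟨13 * (2880 * C), by linarith, fun j hj => ?_⟩
  filter_upwards [ev_One (j + 1), eventually_ge_atTop (4 * C * (j + 1) * (4 * (j + 1) ^ 4)),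
    eventually_ge_atTop (204 * (j + 1) ^ 3), eventually_ge_atTop (j + 1)] with m e1 e2 e3 e4 μ hμ
  have hm0 : (0 : ℝ) < m := by exact_mod_cast (show 0 < m by omega)
  have hj' : (1 : ℝ) ≤ j := by exact_mod_cast hj
  have hl2 : (1 : ℝ) / 2 ≤ Real.log 2 := by have := Real.log_two_gt_d9; linarith
  have hlj : (1 : ℝ) / 2 ≤ Real.log (j + 1) :=
    hl2.trans (Real.log_le_log (by norm_num) (by linarith))
  rcases (cn m j μ).eq_empty_or_nonempty with he | ⟨q, hq⟩
  · rw [he, card_empty, Nat.cast_zero]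
    have : 0 ≤ Real.log (j + 1) := by linarith
    positivity
  obtain ⟨h1, c, h2, h3, h4⟩ := mem_filter.1 hq
  have h5 := ch_One (h2 ▸ h1) h3
  have h6 := bd_One j μ c h4 fun i hi => (h5 i hi).1.pos
  have hA : 0 < ∏ i ∈ range j, μ i := prod_pos fun i hi => hμ i (mem_range.1 hi)
  have hA' : (0 : ℝ) < ((∏ i ∈ range j, μ i : ℕ) : ℝ) := by exact_mod_cast hA
  have hK : 0 < 4 * C * (j + 1) := by positivity
  have hk4 : 1 ≤ (j + 1) ^ 4 := Nat.one_le_pow _ _ (by omega)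
  obtain ⟨t, ht⟩ : ∃ t, t = m / (4 * C * (j + 1)) := ⟨_, rfl⟩
  have t1 : 4 * (j + 1) ^ 4 ≤ t := by
    rw [ht, Nat.le_div_iff_mul_le hK, mul_comm]; exact e2
  have t2 : t * (4 * C * (j + 1)) ≤ m := ht ▸ Nat.div_mul_le_self _ _
  have t3 : m < (t + 1) * (4 * C * (j + 1)) := by
    rw [ht, ← Nat.div_lt_iff_lt_mul hK]; omega
  have w1 : 4 * (j + 1) ^ 4 ≤ 2 ^ t := t1.trans Nat.lt_two_pow_self.le
  have w2 : 2 ^ t ≤ 2 ^ m := Nat.pow_le_pow_right two_pos ((Nat.le_mul_of_pos_right _ hK).trans t2)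
  choose! Ω o1 o2 o3 using fun l => hO j (2 ^ t) l μ
  have s1 := cnt_One m j (2 ^ t) μ Ω w2 hμ o3
  have s2 := hF (j + 1) (2 ^ t) ((2 ^ (100 * m) + Bf μ j 0) / ∏ i ∈ range j, μ i)
    (2 ^ (100 * m) / (∏ i ∈ range j, μ i) + 1) (Ig j (2 ^ t) μ) Ω (by omega) (by omega) (by
      intro l hl
      obtain ⟨a1, a2, -⟩ := mem_filter.1 hl
      obtain ⟨a3, a4⟩ := mem_Ioc.1 a1
      have a5 : j + 1 ≤ (j + 1) ^ 4 := Nat.le_self_pow (by norm_num) _
      exact ⟨a2, by omega, a4, o1 l hl, (o2 l hl).le⟩)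
  have hE : 2 ^ j * (2 * 2 ^ (100 * m)) ≤ 2 ^ (101 * m + j) := by
    rw [← pow_succ', ← pow_add]
    exact Nat.pow_le_pow_right two_pos (by omega)
  have hB : ∀ a n, a + n ≤ j → (∏ i ∈ range n, μ (a + i)) * c (a + n) ≤ 2 ^ (101 * m + j) :=
    fun a n han => (h6 a n han).trans ((Nat.mul_le_mul (Nat.pow_le_pow_right two_pos (by omega))
      (h5 a (by omega)).2.2).trans hE)
  have s3 := hP j (2 ^ t) (m ^ 2) (101 * m + j) μ hj w1 (Nat.one_le_pow _ _ (by omega))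
    (fun a ha => ⟨hμ a ha, by
      have b1 := hB a 1 (by omega)
      rw [prod_range_one, add_zero] at b1
      exact (Nat.le_mul_of_pos_right _ (h5 (a + 1) (by omega)).1.pos).trans b1⟩)
    (fun a n han => by
      have b1 := hB a (n + 1) (by omega)
      rw [← id_One j μ c h4 (n + 1) a (by omega)] at b1
      omega)
  have r1 : (∏ i ∈ range j, μ i) * 2 ^ m ≤ 2 ^ (100 * m) * 2 ^ (j + 1) := by
    have b1 := h6 0 j (by omega)
    simp only [zero_add] at b1
    calc (∏ i ∈ range j, μ i) * 2 ^ m ≤ (∏ i ∈ range j, μ i) * c j :=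
          Nat.mul_le_mul_left _ (h5 j le_rfl).2.1.le
      _ ≤ 2 ^ j * (2 * 2 ^ (100 * m)) := b1.trans (Nat.mul_le_mul_left _ (h5 0 (by omega)).2.2)
      _ = _ := by ring
  have r2 : (2 : ℝ) ^ m / 2 ^ (j + 1) ≤ 2 ^ (100 * m) / ((∏ i ∈ range j, μ i : ℕ) : ℝ) := by
    rw [div_le_div_iff₀ (by positivity) hA', mul_comm]
    exact_mod_cast r1
  have r3 : (1 : ℝ) ≤ 2 ^ m / 2 ^ (j + 1) := by
    rw [le_div_iff₀ (by positivity), one_mul]
    exact pow_le_pow_right₀ (by norm_num) e4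
  have r4 : ((2 ^ (100 * m) / (∏ i ∈ range j, μ i) : ℕ) : ℝ) ≤
      2 ^ (100 * m) / ((∏ i ∈ range j, μ i : ℕ) : ℝ) := by
    have := Nat.cast_div_le (α := ℝ) (m := 2 ^ (100 * m)) (n := ∏ i ∈ range j, μ i)
    rwa [Nat.cast_pow, Nat.cast_ofNat] at this
  have hD : (1 : ℝ) ≤ 2880 * C * (j + 1) * Real.log (j + 1) := by
    have b1 : (2 : ℝ) ≤ C * (j + 1) := by nlinarith
    nlinarith
  have := num_One (j + 1) (by omega) _ (2 ^ (100 * m) / ((∏ i ∈ range j, μ i : ℕ) : ℝ)) _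
    (∏ l ∈ Ig j (2 ^ t) μ, (1 - ((Ω l).card : ℝ) / l)) _
    (2880 * C * (j + 1) * Real.log (j + 1)) (Real.exp (2 * (j + 1) * Gs j (m ^ 2) μ)) m hm0
    (by positivity) ?_ (Nat.cast_nonneg _) hD
    (Real.one_le_exp (mul_nonneg (by positivity) (gs_One _ _ _))) ?_ ?_
    ((Nat.cast_le.2 s1).trans s2)
  · convert this using 4
    ring
  · rw [Nat.cast_add, Nat.cast_one]
    linarith
  · rw [prod_congr rfl fun l hl => by rw [o2 l hl]]
    refine s3.trans (mul_le_mul (pow_le_pow_left₀ ?_ ?_ _) ?_ (Real.exp_pos _).le (by positivity))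
    · exact div_nonneg (by linarith) (Real.log_natCast_nonneg _)
    · have t4 : (m : ℝ) ≤ (t + 1) * (4 * C * (j + 1)) := by exact_mod_cast t3.le
      have t5 : (1 : ℝ) ≤ t := by exact_mod_cast (show 1 ≤ t by omega)
      have t6 : (0 : ℝ) < C * (j + 1) := by positivity
      rw [Nat.cast_pow, Real.log_pow, Nat.cast_ofNat,
        div_le_div_iff₀ (by positivity) hm0]
      have t7 : (m : ℝ) ≤ 16 * (C * (j + 1)) * (t * Real.log 2) := by
        have t8 : (t : ℝ) * (1 / 2) ≤ t * Real.log 2 := mul_le_mul_of_nonneg_left hl2 (by linarith)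
        nlinarith [mul_le_mul_of_nonneg_left t8 t6.le, mul_le_mul_of_nonneg_left t5 t6.le]
      nlinarith [mul_le_mul_of_nonneg_left t7 (show 0 ≤ 180 * Real.log (j + 1) by linarith)]
    · rw [mul_add, Real.exp_add]
      refine mul_le_mul_of_nonneg_left ?_ (Real.exp_pos _).le
      refine le_trans (Real.exp_le_exp.2 (show _ ≤ 1 from ?_)) ?_
      · have b1 : 2 * (j + 1) * ((j + 1) ^ 2 * (101 * m + j)) ≤ m ^ 2 :=
          calc 2 * (j + 1) * ((j + 1) ^ 2 * (101 * m + j))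
              ≤ 2 * (j + 1) * ((j + 1) ^ 2 * (102 * m)) := by gcongr; omega
            _ = 204 * (j + 1) ^ 3 * m := by ring
            _ ≤ m * m := Nat.mul_le_mul_right _ e3
            _ = _ := by ring
        rw [← mul_div_assoc, div_le_one (by rw [Nat.cast_pow]; positivity)]
        exact_mod_cast b1
      · have := Real.exp_one_lt_d9
        linarith
  · refine le_trans ?_ (div_le_div_of_nonneg_right r2 (by positivity))
    rw [div_div, le_div_iff₀ (by positivity), Nat.cast_pow, Nat.cast_ofNat, ← pow_mul,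
      mul_comm ((2 : ℝ) ^ (j + 1))]
    exact e1 _ (by rw [show 4 * (t * (C * (j + 1))) = t * (4 * C * (j + 1)) by ring]; exact t2)

end Pool.Agent.MP_2876a2_nt.Tu.Z

end

noncomputable section
open Finset Filter
open scoped Pointwise


namespace Pool.Agent.MP_2876a2_nt.Tu.Z

theorem cnt_Av1 (T β e d : ℕ) (he : e = 1 ∨ β = 1 ∧ e = 0) :
    (((Ico T (2 * T)).filter fun x => d ∣ x * β + e).card : ℝ) ≤ T / d + 1 := by
  have h : ((Ico T (2 * T)).filter fun x => d ∣ x * β + e).card ≤ (range (T / d + 1)).card := by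
    refine card_le_card_of_injOn (fun x => (x - T) / d) (fun x hx => ?_) fun x hx y hy h => ?_
    · have := mem_Ico.1 (mem_filter.1 hx).1
      exact mem_coe.2 (mem_range.2 (Nat.lt_succ_of_le (Nat.div_le_div_right (by omega))))
    · obtain ⟨x1, x2⟩ := mem_filter.1 hx
      obtain ⟨y1, y2⟩ := mem_filter.1 hy
      have x3 := mem_Ico.1 x1
      have y3 := mem_Ico.1 y1
      have hc : Nat.Coprime d β := by
        rcases he with rfl | ⟨rfl, -⟩
        · exact Nat.Coprime.coprime_dvd_left x2 (by simp)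
        · simp
      have h1 : x * β + e ≡ y * β + e [MOD d] :=
        ((Nat.modEq_zero_iff_dvd).2 x2).trans ((Nat.modEq_zero_iff_dvd).2 y2).symm
      have h2 : x ≡ y [MOD d] :=
        Nat.ModEq.cancel_right_of_coprime hc (Nat.ModEq.add_right_cancel' e h1)
      have h3 : x - T ≡ y - T [MOD d] := Nat.ModEq.add_right_cancel' T (by
        rwa [Nat.sub_add_cancel x3.1, Nat.sub_add_cancel y3.1])
      have h4 := Nat.div_add_mod (x - T) d
      have h5 := Nat.div_add_mod (y - T) d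
      have h6 : (x - T) / d = (y - T) / d := h
      rw [h6, show (x - T) % d = (y - T) % d from h3] at h4
      omega
  rw [card_range] at h
  have h' : (((Ico T (2 * T)).filter fun x => d ∣ x * β + e).card : ℝ) ≤ ((T / d : ℕ) : ℝ) + 1 := by
    exact_mod_cast h
  linarith [Nat.cast_div_le (α := ℝ) (m := T) (n := d)]

theorem exp_Av1 {y : ℝ} (h0 : 0 ≤ y) (h1 : y ≤ 1) : Real.exp y ≤ 1 + 2 * y := by
  have := Real.abs_exp_sub_one_le (x := y) (by rwa [abs_of_nonneg h0])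
  rw [abs_of_nonneg h0] at this
  linarith [le_abs_self (Real.exp y - 1)]

theorem sAv1 (hM : StMe) : StAv1 := by
  intro κ L T β e hκ hL hT he
  obtain ⟨P, hP⟩ : ∃ P, P = (Ioc (4 * κ ^ 4) L).filter Nat.Prime := ⟨_, rfl⟩
  have hk : (2 : ℝ) ≤ κ := by exact_mod_cast hκ
  have hl : ∀ l ∈ P, l.Prime ∧ (4 * κ ^ 4 : ℝ) < l := fun l h => by
    rw [hP] at h
    exact ⟨(mem_filter.1 h).2, by exact_mod_cast (mem_Ioc.1 (mem_filter.1 h).1).1⟩
  have k3 : (0 : ℝ) < κ ^ 3 := by positivity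
  have pt : ∀ n, Real.exp (2 * κ ^ 3 * gs κ L n) ≤
      ∑ s ∈ P.powerset, if (∏ l ∈ s, l) ∣ n then ∏ l ∈ s, (4 * κ ^ 3 / l : ℝ) else 0 := fun n => by
    have e1 : gs κ L n = ∑ l ∈ P, if l ∣ n then (1 / l : ℝ) else 0 := by
      rw [gs, hP, ← sum_filter, filter_filter]
    rw [e1, mul_sum, Real.exp_sum]
    refine (prod_le_prod (g := fun l => 1 + if l ∣ n then (4 * κ ^ 3 / l : ℝ) else 0)
      (fun _ _ => (Real.exp_pos _).le) fun l h => ?_).trans ?_
    · have h2 := (hl l h).2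
      have h3 : (0 : ℝ) < l := lt_of_le_of_lt (by positivity) h2
      split_ifs
      · refine (exp_Av1 (by positivity) ?_).trans (le_of_eq (by ring))
        rw [mul_one_div, div_le_one h3]
        nlinarith
      · simp
    · rw [prod_one_add]
      refine sum_le_sum fun s hs => ?_
      rw [prod_ite_zero]
      split_ifs with c1 c2
      · exact le_rfl
      · exact absurd (prod_primes_dvd n (fun l h => (hl l (mem_powerset.1 hs h)).1.prime) c1) c2
      · positivity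
      · exact le_rfl
  refine (sum_le_sum fun x _ => pt _).trans ?_
  rw [sum_comm]
  have s1 : ∀ s ∈ P.powerset, (∑ x ∈ Ico T (2 * T), if (∏ l ∈ s, l) ∣ x * β + e then
      ∏ l ∈ s, (4 * κ ^ 3 / l : ℝ) else 0) ≤
      T * ∏ l ∈ s, (4 * κ ^ 3 * ((l : ℝ) ^ 2)⁻¹) + ∏ l ∈ s, (4 * κ ^ 3 / l : ℝ) := fun s _ => by
    rw [← sum_filter, sum_const, nsmul_eq_mul]
    refine (mul_le_mul_of_nonneg_right (cnt_Av1 T β e _ he) (by positivity)).trans (le_of_eq ?_)
    rw [add_mul, one_mul, Nat.cast_prod, div_eq_mul_inv, ← prod_inv_distrib, mul_assoc,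
      ← prod_mul_distrib]
    congr 2
    exact prod_congr rfl fun l _ => by ring
  refine (sum_le_sum s1).trans ?_
  rw [sum_add_distrib, ← mul_sum, ← prod_one_add, ← prod_one_add]
  have f1 : ∏ l ∈ P, (1 + 4 * κ ^ 3 * ((l : ℝ) ^ 2)⁻¹) ≤ 2 := by
    have g1 : ∑ l ∈ P, ((l : ℝ) ^ 2)⁻¹ ≤ (4 * κ ^ 4 : ℝ)⁻¹ := by
      refine (sum_le_sum_of_subset_of_nonneg (t := Ioc (4 * κ ^ 4) L)
        (by rw [hP]; exact filter_subset _ _) fun _ _ _ => by positivity).trans ?_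
      rcases le_total (4 * κ ^ 4) L with c | c
      · refine (sum_Ioc_inv_sq_le_sub (by positivity) c).trans ?_
        push_cast
        linarith [inv_nonneg.2 (Nat.cast_nonneg (α := ℝ) L)]
      · rw [Ioc_eq_empty_of_le c, sum_empty]
        positivity
    have g2 : 4 * κ ^ 3 * ∑ l ∈ P, ((l : ℝ) ^ 2)⁻¹ ≤ 1 / 2 := by
      refine (mul_le_mul_of_nonneg_left g1 (by positivity)).trans ?_
      rw [← div_eq_mul_inv, div_le_iff₀ (by positivity)]
      nlinarith
    refine (Real.prod_one_add_le_exp_sum P (f := fun l : ℕ => 4 * κ ^ 3 * ((l : ℝ) ^ 2)⁻¹)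
      fun _ => by positivity).trans ?_
    rw [← mul_sum]
    refine (exp_Av1 (by positivity) (by linarith)).trans (by linarith)
  have f2 : ∏ l ∈ P, (1 + (4 * κ ^ 3 / l : ℝ)) ≤ (15 * Real.log L) ^ (4 * κ ^ 3) := by
    refine (prod_le_prod (f := fun l : ℕ => 1 + (4 * κ ^ 3 / l : ℝ))
      (g := fun l : ℕ => (1 + 1 / (l : ℝ)) ^ (4 * κ ^ 3))
      (fun _ _ => by positivity) fun l _ => ?_).trans ?_
    · refine le_trans (le_of_eq ?_) (one_add_mul_le_pow (a := 1 / (l : ℝ))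
        (le_trans (by norm_num) (by positivity : (0 : ℝ) ≤ 1 / l)) _)
      push_cast
      ring
    · rw [prod_pow]
      refine pow_le_pow_left₀ (by positivity) (le_trans ?_ (hM.2 L hL)) _
      refine prod_le_prod_of_subset_of_one_le ?_ (fun _ _ => by positivity) fun l _ _ => ?_
      · rw [hP]
        exact filter_subset_filter _ (Ioc_subset_Ioc_left (Nat.zero_le _))
      · exact le_add_of_nonneg_right (by positivity)
  nlinarith [Nat.cast_nonneg (α := ℝ) T]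

end Pool.Agent.MP_2876a2_nt.Tu.Z

end

noncomputable section
open Finset Filter
open scoped Pointwise


namespace Pool.Agent.MP_2876a2_nt.Tu.Z

theorem exp_Av {ι : Type} (s : Finset ι) (hs : s.Nonempty) (g : ι → ℝ) (hg : ∀ i, 0 ≤ g i)
    {c n : ℝ} (hc : 0 ≤ c) (hn : (s.card : ℝ) ≤ n) :
    Real.exp (c * ∑ i ∈ s, g i) ≤ ∑ i ∈ s, Real.exp (c * n * g i) := by
  obtain ⟨i, hi, hm⟩ := exists_max_image s g hs
  refine le_trans (Real.exp_le_exp.2 ?_)
    (single_le_sum (f := fun i => Real.exp (c * n * g i)) (fun _ _ => (Real.exp_pos _).le) hi)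
  rw [mul_assoc]
  refine mul_le_mul_of_nonneg_left ((sum_le_card_nsmul s g (g i) hm).trans ?_) hc
  rw [nsmul_eq_mul]
  exact mul_le_mul_of_nonneg_right hn (hg i)

theorem fib_Av {j : ℕ} (t : Fin j → Finset ℕ) (a : Fin j) (f : (Fin j → ℕ) → ℝ) (B : ℝ)
    (h : ∀ μ, ∑ x ∈ t a, f (Function.update μ a x) ≤ B) :
    ((t a).card : ℝ) * ∑ μ ∈ Fintype.piFinset t, f μ ≤ (Fintype.piFinset t).card * B := by
  have m : ∀ p ∈ Fintype.piFinset t ×ˢ t a,
      (Function.update p.1 a p.2, p.1 a) ∈ Fintype.piFinset t ×ˢ t a := by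
    intro p hp
    obtain ⟨h1, h2⟩ := mem_product.1 hp
    refine mem_product.2 ⟨Fintype.mem_piFinset.2 fun i => ?_, Fintype.mem_piFinset.1 h1 a⟩
    by_cases e : i = a
    · subst e; simpa using h2
    · simpa [e] using Fintype.mem_piFinset.1 h1 i
  have e : ∑ p ∈ Fintype.piFinset t ×ˢ t a, f p.1 =
      ∑ p ∈ Fintype.piFinset t ×ˢ t a, f (Function.update p.1 a p.2) :=
    sum_nbij' (fun p => (Function.update p.1 a p.2, p.1 a))
      (fun p => (Function.update p.1 a p.2, p.1 a)) m m (fun p _ => by simp) (fun p _ => by simp)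
      fun p _ => by simp
  rw [sum_product, sum_product] at e
  simp only [sum_const, nsmul_eq_mul] at e
  rw [mul_sum, e, ← nsmul_eq_mul]
  exact sum_le_card_nsmul _ _ _ fun μ _ => h μ

theorem ex_Av {j : ℕ} (μ : Fin j → ℕ) (a : Fin j) (x : ℕ) :
    ex (Function.update μ a x) = Function.update (ex μ) a x := by
  funext i
  by_cases e : i = a
  · subst e; simp [ex]
  · rw [Function.update_of_ne e]
    unfold ex
    split_ifs with h
    · exact Function.update_of_ne (fun e' => e (congrArg Fin.val e')) _ _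
    · rfl

theorem bf_Av (ν : ℕ → ℕ) (a x : ℕ) : ∀ n b, a < b → Bf (Function.update ν a x) n b = Bf ν n b
  | 0, _, _ => rfl
  | n + 1, b, h => by
    rw [Bf, Bf, bf_Av ν a x n (b + 1) (by omega), Function.update_of_ne h.ne']

/-- the forms -/
def fv_Av (μ : ℕ → ℕ) (a : ℕ) : ℕ → ℕ
  | 0 => μ a
  | n + 1 => Bf μ (n + 1) a

theorem gs_Av (κ L n : ℕ) : 0 ≤ gs κ L n := sum_nonneg fun _ _ => by positivity

theorem Gs_Av (j L : ℕ) (μ : ℕ → ℕ) :
    Gs j L μ ≤ ∑ p ∈ range j ×ˢ range (j + 1), gs (j + 1) L (fv_Av μ p.1 p.2) := by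
  rw [sum_product, Gs, ← sum_add_distrib]
  refine sum_le_sum fun a _ => ?_
  rw [sum_range_succ', add_comm]
  exact add_le_add (sum_le_sum_of_subset_of_nonneg (range_subset_range.2 (Nat.sub_le _ _))
    fun _ _ _ => gs_Av _ _ _) le_rfl

theorem sAv (h1 : StAv1) : StAv := by
  intro j L e hj hL
  set Λ := (15 * Real.log L) ^ (4 * (j + 1) ^ 3) with hΛ
  have hΛ0 : 0 ≤ Λ := pow_nonneg (mul_nonneg (by norm_num) (Real.log_natCast_nonneg L)) _
  have hc : (((range j ×ˢ range (j + 1)).card : ℕ) : ℝ) ≤ ((j : ℝ) + 1) ^ 2 := by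
    rw [card_product, card_range, card_range]
    push_cast
    nlinarith [(Nat.cast_nonneg j : (0 : ℝ) ≤ j)]
  have hb : ((bx e).card : ℝ) = 2 ^ (∑ i, e i) := by
    rw [bx, Fintype.card_piFinset, ← prod_pow_eq_pow_sum]
    push_cast
    refine prod_congr rfl fun i _ => ?_
    rw [Nat.card_Ico, show 2 * 2 ^ e i - 2 ^ e i = 2 ^ e i by omega]
    push_cast
    rfl
  have one : ∀ p ∈ range j ×ˢ range (j + 1),
      ∑ μ ∈ bx e, Real.exp (2 * ((j : ℝ) + 1) * ((j : ℝ) + 1) ^ 2 *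
        gs (j + 1) L (fv_Av (ex μ) p.1 p.2)) ≤
      2 ^ (∑ i, e i) * (2 + Λ * ∑ i, 1 / (2 : ℝ) ^ e i) := by
    rintro ⟨a, n⟩ hp
    have ha : a < j := mem_range.1 (mem_product.1 hp).1
    have k := fib_Av (fun i => Ico (2 ^ e i) (2 * 2 ^ e i)) ⟨a, ha⟩
      (fun μ => Real.exp (2 * ((j : ℝ) + 1) * ((j : ℝ) + 1) ^ 2 * gs (j + 1) L (fv_Av (ex μ) a n)))
      (2 * 2 ^ e ⟨a, ha⟩ + Λ) fun μ => by
        have z : 2 * ((j : ℝ) + 1) * ((j : ℝ) + 1) ^ 2 = 2 * ((j + 1 : ℕ) : ℝ) ^ 3 := by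
          push_cast; ring
        simp only [ex_Av, z]
        cases n with
        | zero =>
          have := h1 (j + 1) L (2 ^ e ⟨a, ha⟩) 1 0 (by omega) hL Nat.one_le_two_pow
            (Or.inr ⟨rfl, rfl⟩)
          simpa [fv_Av] using this
        | succ n =>
          have := h1 (j + 1) L (2 ^ e ⟨a, ha⟩) (Bf (ex μ) n (a + 1)) 1 (by omega) hL
            Nat.one_le_two_pow (Or.inl rfl)
          simpa [fv_Av, Bf, bf_Av _ a _ n (a + 1) (Nat.lt_succ_self a)] using this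
    rw [Nat.card_Ico, show 2 * 2 ^ e ⟨a, ha⟩ - 2 ^ e ⟨a, ha⟩ = 2 ^ e ⟨a, ha⟩ by omega] at k
    change _ * ∑ μ ∈ bx e, _ ≤ ((bx e).card : ℝ) * _ at k
    rw [hb] at k
    push_cast at k
    have p0 : (0 : ℝ) < 2 ^ e ⟨a, ha⟩ := by positivity
    have s1 : 1 / (2 : ℝ) ^ e ⟨a, ha⟩ ≤ ∑ i, 1 / (2 : ℝ) ^ e i :=
      single_le_sum (f := fun i => 1 / (2 : ℝ) ^ e i) (fun _ _ => by positivity) (mem_univ _)
    refine le_of_mul_le_mul_left (k.trans ?_) p0
    rw [mul_left_comm]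
    refine mul_le_mul_of_nonneg_left ?_ (by positivity)
    have s2 := mul_le_mul_of_nonneg_left ((div_le_iff₀ p0).1 s1) hΛ0
    nlinarith
  calc _ ≤ ∑ μ ∈ bx e, ∑ p ∈ range j ×ˢ range (j + 1), Real.exp (2 * ((j : ℝ) + 1) *
        ((j : ℝ) + 1) ^ 2 * gs (j + 1) L (fv_Av (ex μ) p.1 p.2)) := sum_le_sum fun μ _ =>
        (Real.exp_le_exp.2 (mul_le_mul_of_nonneg_left (Gs_Av j L _) (by positivity))).trans
          (exp_Av _ ⟨(0, 0), by simp; omega⟩ _ (fun _ => gs_Av _ _ _) (by positivity) hc)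
    _ ≤ _ := by
      rw [sum_comm]
      refine (sum_le_card_nsmul _ _ _ one).trans ?_
      rw [nsmul_eq_mul, mul_comm ((2 : ℝ) ^ _) (((j : ℝ) + 1) ^ 2), mul_assoc]
      refine mul_le_mul_of_nonneg_right hc ?_
      have : 0 ≤ ∑ i, 1 / (2 : ℝ) ^ e i := sum_nonneg fun _ _ => by positivity
      positivity

end Pool.Agent.MP_2876a2_nt.Tu.Z

end

noncomputable section
open Finset Filter
open scoped Pointwise


namespace Pool.Agent.MP_2876a2_nt.Tu.Z

theorem geo_Box {k M : ℕ} (A : Finset (Fin (k + 1) → ℕ)) (hA : ∀ e ∈ A, ∀ i, e i < M)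
    (i : Fin (k + 1)) : ∑ e ∈ A, 1 / (2 : ℝ) ^ e i ≤ 2 * (M : ℝ) ^ k := by
  have h1 : ∑ e ∈ A, 1 / (2 : ℝ) ^ e i ≤
      ∑ e ∈ Fintype.piFinset fun _ : Fin (k + 1) => range M, 1 / (2 : ℝ) ^ e i :=
    sum_le_sum_of_subset_of_nonneg
      (fun e he => Fintype.mem_piFinset.2 fun i => mem_range.2 (hA e he i))
      fun _ _ _ => by positivity
  have h2 := prod_univ_sum (fun _ : Fin (k + 1) => range M)
    fun i' x => if i' = i then 1 / (2 : ℝ) ^ x else 1
  simp only [prod_ite_eq', mem_univ, if_true] at h2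
  rw [← h2, Fin.prod_univ_succAbove _ i] at h1
  simp only [if_true, Fin.succAbove_ne, if_false, sum_const, card_range, nsmul_eq_mul, mul_one,
    prod_const, card_univ, Fintype.card_fin] at h1
  refine h1.trans (mul_le_mul_of_nonneg_right ?_ (by positivity))
  simpa only [one_div, inv_pow] using sum_geometric_two_le M

theorem pow_Box (k : ℕ) : 2 * ((k : ℝ) + 1 + 1) ^ 2 ≤ 4 ^ (k + 1 + 1) := by
  induction k with
  | zero => norm_num
  | succ k ih =>
    rw [pow_succ (4 : ℝ)]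
    push_cast
    nlinarith [(Nat.cast_nonneg k : (0 : ℝ) ≤ k)]

theorem ev_Box (K δ : ℝ) (p k : ℕ) (hK : 0 ≤ K) (hδ : 0 < δ) : ∀ᶠ m : ℕ in atTop,
    K * ((15 * Real.log ((m ^ 2 : ℕ) : ℝ)) ^ p * ((101 * m + 1 : ℕ) : ℝ) ^ k) ≤
      δ * (m : ℝ) ^ (k + 1) := by
  obtain ⟨K', hK'⟩ : ∃ K' : ℝ, K' = K * 30 ^ p * 102 ^ k := ⟨_, rfl⟩
  have h0 : 0 ≤ K' := by rw [hK']; positivity
  have h1 := tendsto_natCast_atTop_atTop.eventually
    ((Real.isLittleO_pow_log_id_atTop (n := p)).bound (c := δ / (K' + 1)) (by positivity))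
  filter_upwards [h1, eventually_ge_atTop 1] with m h1 hm
  have hm' : (1 : ℝ) ≤ m := by exact_mod_cast hm
  have hl : 0 ≤ Real.log m := Real.log_nonneg hm'
  rw [id, Real.norm_of_nonneg (by positivity), Real.norm_of_nonneg (by positivity),
    div_mul_eq_mul_div, le_div_iff₀ (by positivity)] at h1
  have h2 : (((101 * m + 1 : ℕ) : ℝ)) ^ k ≤ (102 * m) ^ k :=
    pow_le_pow_left₀ (by positivity) (by push_cast; linarith) k
  have h3 : 15 * Real.log ((m ^ 2 : ℕ) : ℝ) = 30 * Real.log m := by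
    rw [Nat.cast_pow, Real.log_pow]; push_cast; ring
  rw [h3]
  calc K * ((30 * Real.log m) ^ p * ((101 * m + 1 : ℕ) : ℝ) ^ k)
      ≤ K * ((30 * Real.log m) ^ p * (102 * m) ^ k) := by gcongr
    _ = Real.log m ^ p * K' * (m : ℝ) ^ k := by rw [hK', mul_pow, mul_pow]; ring
    _ ≤ δ * m * (m : ℝ) ^ k := by
      refine mul_le_mul_of_nonneg_right (le_trans ?_ h1) (by positivity)
      gcongr
      linarith
    _ = δ * (m : ℝ) ^ (k + 1) := by ring

theorem low_Box {j : ℕ} {e μ : Fin j → ℕ} (h : μ ∈ bx e) :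
    (∀ i < j, 1 ≤ ex μ i) ∧ 2 ^ (∑ i, e i) ≤ ∏ i ∈ range j, ex μ i := by
  have h1 : ∀ i, 2 ^ e i ≤ μ i := fun i => (mem_Ico.1 (Fintype.mem_piFinset.1 h i)).1
  refine ⟨fun i hi => ?_, ?_⟩
  · rw [ex, dif_pos hi]
    exact Nat.one_le_two_pow.trans (h1 _)
  · rw [prod_range, ← prod_pow_eq_pow_sum]
    refine prod_le_prod' fun i _ => ?_
    rw [ex, dif_pos i.2]
    exact h1 i

theorem sBox (h1 : StOne) (hA : StAv) : StBox := by
  classical
  obtain ⟨C, hC, h1⟩ := h1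
  refine ⟨4 * C, by linarith, fun j δ hj hδ => ?_⟩
  obtain ⟨k, rfl⟩ : ∃ k, j = k + 1 := ⟨j - 1, by omega⟩
  obtain ⟨κ, hκ⟩ : ∃ κ : ℝ, κ = ((k + 1 : ℕ) : ℝ) + 1 := ⟨_, rfl⟩
  have hκ1 : 1 ≤ κ := by rw [hκ]; linarith [(Nat.cast_nonneg (k + 1) : (0 : ℝ) ≤ _)]
  have hl := Real.log_nonneg hκ1
  obtain ⟨D, hD⟩ : ∃ D : ℝ, D = (C * κ * Real.log κ) ^ (k + 1 + 1) := ⟨_, rfl⟩
  have hD0 : 0 ≤ D := by rw [hD]; positivity
  filter_upwards [h1 (k + 1) hj, eventually_ge_atTop 2,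
    ev_Box (D * κ ^ 2 * ((k + 1) * 2)) δ (4 * (k + 1 + 1) ^ 3) k (by positivity) hδ]
    with m h1 hm h3 A hb
  have hm0 : (0 : ℝ) < m := by exact_mod_cast (by omega : 0 < m)
  have hL : 2 ≤ m ^ 2 := by nlinarith
  obtain ⟨Λ, hΛ⟩ : ∃ Λ : ℝ, Λ = (15 * Real.log ((m ^ 2 : ℕ) : ℝ)) ^ (4 * (k + 1 + 1) ^ 3) :=
    ⟨_, rfl⟩
  have hΛ0 : 0 ≤ Λ := by
    rw [hΛ]
    exact pow_nonneg (mul_nonneg (by norm_num) (Real.log_natCast_nonneg _)) _
  obtain ⟨N, hN⟩ : ∃ N : ℝ, N = 2 ^ (100 * m) / (m : ℝ) ^ (k + 1 + 1) := ⟨_, rfl⟩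
  have hN0 : 0 ≤ N := by rw [hN]; positivity
  rw [← hκ] at h1 ⊢
  rw [← hΛ] at h3
  rw [← hN]
  have s1 : ((PN (2 ^ (100 * m))).filter fun q => ∃ c : ℕ → ℕ, c 0 = q ∧ Cn (2 ^ m) (k + 1) c ∧
      (fun i : Fin (k + 1) => lg c i) ∈ A) ⊆
      A.biUnion fun e => (bx e).biUnion fun μ => cn m (k + 1) (ex μ) := by
    intro q hq
    obtain ⟨a1, c, a2, a3, a4⟩ := mem_filter.1 hq
    refine mem_biUnion.2 ⟨_, a4, mem_biUnion.2 ⟨fun i => (c i + 1) / c (i + 1),
      Fintype.mem_piFinset.2 fun i => mem_Ico.2 ⟨Nat.pow_log_le_self 2 fun h0 => ?_, ?_⟩, ?_⟩⟩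
    · have := Nat.div_mul_cancel (a3 i i.2).2.2.2
      rw [h0] at this
      omega
    · rw [mul_comm, ← pow_succ]
      exact Nat.lt_pow_succ_log_self one_lt_two _
    · simp only [cn, mem_filter]
      refine ⟨a1, c, a2, a3, fun i hi => ?_⟩
      rw [ex, dif_pos hi]
      exact (Nat.div_mul_cancel (a3 i hi).2.2.2).symm
  have s2 : ∀ e : Fin (k + 1) → ℕ, ∑ μ ∈ bx e, ((cn m (k + 1) (ex μ)).card : ℝ) ≤
      N * D * κ ^ 2 * (2 + Λ * ∑ i, 1 / (2 : ℝ) ^ e i) := fun e => by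
    have a1 := hA (k + 1) (m ^ 2) e hj hL
    rw [← hκ, ← hΛ] at a1
    have a2 : ∑ μ ∈ bx e, ((cn m (k + 1) (ex μ)).card : ℝ) ≤ ∑ μ ∈ bx e,
        N * D / 2 ^ (∑ i, e i) * Real.exp (2 * κ * Gs (k + 1) (m ^ 2) (ex μ)) := by
      refine sum_le_sum fun μ hμ => (h1 _ (low_Box hμ).1).trans ?_
      refine mul_le_mul_of_nonneg_right ?_ (Real.exp_pos _).le
      have b1 : (2 : ℝ) ^ (∑ i, e i) ≤ ((∏ i ∈ range (k + 1), ex μ i : ℕ) : ℝ) := by
        exact_mod_cast (low_Box hμ).2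
      rw [div_mul_eq_mul_div, div_pow, ← hD]
      refine div_le_div₀ (by positivity) (le_of_eq ?_) (by positivity) b1
      rw [hN]
      ring
    rw [← mul_sum] at a2
    refine a2.trans ((mul_le_mul_of_nonneg_left a1 (by positivity)).trans_eq ?_)
    field_simp
  have s3 : ∑ e ∈ A, ∑ i, 1 / (2 : ℝ) ^ e i ≤ (k + 1) * (2 * ((101 * m + 1 : ℕ) : ℝ) ^ k) := by
    rw [sum_comm]
    refine (sum_le_sum fun i _ =>
      geo_Box (M := 101 * m + 1) A (fun e he i => Nat.lt_succ_of_le (hb e he i)) i).trans_eq ?_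
    simp
  have s4 : D * κ ^ 2 * 2 ≤ (4 * C * κ * Real.log κ) ^ (k + 1 + 1) := by
    have a1 := pow_Box k
    have a2 : κ = (k : ℝ) + 1 + 1 := by rw [hκ]; push_cast; ring
    rw [← a2] at a1
    rw [show 4 * C * κ * Real.log κ = 4 * (C * κ * Real.log κ) by ring, mul_pow, ← hD]
    nlinarith
  calc _ ≤ ((∑ e ∈ A, ∑ μ ∈ bx e, (cn m (k + 1) (ex μ)).card : ℕ) : ℝ) := by
        exact_mod_cast (card_le_card s1).trans
          (card_biUnion_le.trans (sum_le_sum fun e _ => card_biUnion_le))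
    _ ≤ ∑ e ∈ A, N * D * κ ^ 2 * (2 + Λ * ∑ i, 1 / (2 : ℝ) ^ e i) := by
        push_cast
        exact sum_le_sum fun e _ => s2 e
    _ = N * (D * κ ^ 2 * 2 * A.card + D * κ ^ 2 * Λ * ∑ e ∈ A, ∑ i, 1 / (2 : ℝ) ^ e i) := by
        rw [← mul_sum, sum_add_distrib, ← mul_sum, sum_const, nsmul_eq_mul]
        ring
    _ ≤ _ := by
        refine mul_le_mul_of_nonneg_left (add_le_add
          (mul_le_mul_of_nonneg_right s4 (Nat.cast_nonneg _)) (le_trans ?_ h3)) hN0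
        refine (mul_le_mul_of_nonneg_left s3 (by positivity)).trans_eq ?_
        ring

end Pool.Agent.MP_2876a2_nt.Tu.Z

end

noncomputable section
open Finset Filter
open scoped Pointwise


namespace Pool.Agent.MP_2876a2_nt.Tu.Z

lemma cnt_Vec1 (j E : ℕ) : ∃ B : Finset (Fin j → ℕ), (∀ e : Fin j → ℕ, ∑ i, e i ≤ E → e ∈ B) ∧
    B.card * j.factorial ≤ (E + j) ^ j := by
  classical
  refine ⟨((univ : Finset (Fin (j + 1))).finsuppAntidiag E).image fun f i => f i.succ,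
    fun e he => mem_image.2 ⟨Finsupp.equivFunOnFinite.symm (Fin.cons (E - ∑ i, e i) e),
      mem_finsuppAntidiag.2 ⟨?_, subset_univ _⟩, ?_⟩, ?_⟩
  · rw [Fin.sum_univ_succ]
    simp only [Finsupp.equivFunOnFinite_symm_apply_apply, Fin.cons_zero, Fin.cons_succ]
    omega
  · funext i
    simp only [Finsupp.equivFunOnFinite_symm_apply_apply, Fin.cons_succ]
  · refine (Nat.mul_le_mul_right _ card_image_le).trans ?_
    rw [card_finsuppAntidiag_nat_eq_choose, card_univ, Fintype.card_fin,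
      show j + 1 + E - 1 = E + j by omega, Nat.choose_symm_add, mul_comm,
      ← Nat.descFactorial_eq_factorial_mul_choose]
    exact Nat.descFactorial_le_pow _ _

theorem sVec1 : StVec1 := by
  intro j K E F A hA
  obtain ⟨B, b1, b2⟩ := cnt_Vec1 j E
  obtain ⟨C, c1, c2⟩ := cnt_Vec1 K F
  have h : A.card ≤ (B ×ˢ C).card := by
    refine card_le_card_of_injOn
      (fun e => (fun i => e (Fin.castAdd K i), fun i => e (Fin.natAdd j i)))
      (fun e he => mem_coe.2 (mem_product.2 ⟨b1 _ ?_, c1 _ ?_⟩)) fun e _ e' _ h => ?_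
    · refine le_of_eq_of_le ?_ (hA e he).1
      rw [sum_range]
      exact sum_congr rfl fun i _ => by
        unfold ex
        rw [dif_pos (i.2.trans_le (Nat.le_add_right j K))]
        rfl
    · refine le_of_eq_of_le ?_ (hA e he).2
      rw [sum_range]
      exact sum_congr rfl fun i _ => by
        unfold ex
        rw [dif_pos (Nat.add_lt_add_left i.2 j)]
        rfl
    · funext i
      refine Fin.addCases (fun i => ?_) (fun i => ?_) i
      · exact congrFun (congrArg Prod.fst h) i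
      · exact congrFun (congrArg Prod.snd h) i
  rw [card_product] at h
  calc A.card * (j.factorial * K.factorial)
      ≤ B.card * C.card * (j.factorial * K.factorial) := Nat.mul_le_mul_right _ h
    _ = B.card * j.factorial * (C.card * K.factorial) := by ring
    _ ≤ _ := Nat.mul_le_mul b2 c2

end Pool.Agent.MP_2876a2_nt.Tu.Z

end

noncomputable section
open Finset Filter
open scoped Pointwise


namespace Pool.Agent.MP_2876a2_nt.Tu.Z

theorem sVec2 : StVec2 := by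
  intro j E F A hA
  have h := card_le_card_of_injOn (s := A)
    (t := Icc E (E + F) ×ˢ Fintype.piFinset fun _ : Fin j => range (E + F + 1))
    (fun e => (∑ i, e i, Fin.tail e)) (fun e he => ?_) (fun e _ e' _ h => ?_)
  · rw [card_product, Nat.card_Icc, Fintype.card_piFinset] at h
    simp only [card_range, prod_const, card_univ, Fintype.card_fin] at h
    rwa [show E + F + 1 - E = F + 1 by omega] at h
  · have h1 := hA e (mem_coe.1 he)
    refine mem_coe.2 (mem_product.2 ⟨mem_Icc.2 h1, Fintype.mem_piFinset.2 fun i => ?_⟩)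
    have h2 : e i.succ ≤ ∑ i, e i := single_le_sum (f := e) (fun _ _ => Nat.zero_le _) (mem_univ _)
    exact mem_range.2 (Nat.lt_succ_of_le (h2.trans h1.2))
  · obtain ⟨h1, h2⟩ := Prod.mk.inj h
    have h3 : ∀ i : Fin j, e i.succ = e' i.succ := fun i => congrFun h2 i
    rw [Fin.sum_univ_succ, Fin.sum_univ_succ, sum_congr rfl fun i _ => h3 i] at h1
    funext i
    exact Fin.cases (Nat.add_right_cancel h1) h3 i

end Pool.Agent.MP_2876a2_nt.Tu.Z

end

noncomputable section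
open Finset Filter
open scoped Pointwise


namespace Pool.Agent.MP_2876a2_nt.Tu.Z

theorem step_Lg {z q p : ℕ} (h : Ch z q p) :
    2 ^ Nat.log 2 ((q + 1) / p) * p ≤ 2 * q ∧ q ≤ 2 ^ Nat.log 2 ((q + 1) / p) * 2 * p := by
  obtain ⟨hp, -, hlt, hd⟩ := h
  have e : (q + 1) / p * p = q + 1 := Nat.div_mul_cancel hd
  have h0 : (q + 1) / p ≠ 0 := fun h0 => by rw [h0] at e; omega
  have h1 : 2 ^ Nat.log 2 ((q + 1) / p) ≤ (q + 1) / p := Nat.pow_log_le_self 2 h0
  have h2 : (q + 1) / p < 2 ^ (Nat.log 2 ((q + 1) / p) + 1) :=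
    Nat.lt_pow_succ_log_self (by norm_num) _
  have h3 := Nat.mul_le_mul_right p h1
  have h4 := Nat.mul_le_mul_right p h2.le
  rw [pow_succ] at h4
  omega

theorem sLg : StLg := by
  intro z j c hc a n
  induction n with
  | zero => intro _; simp
  | succ n ih =>
    intro hn
    obtain ⟨i1, i2⟩ := ih (by omega)
    obtain ⟨s1, s2⟩ := step_Lg (hc (a + n) (by omega))
    have e : lg c (a + n) = Nat.log 2 ((c (a + n) + 1) / c (a + n + 1)) := rfl
    rw [← e] at s1 s2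
    rw [sum_range_succ, ← add_assoc a n 1]
    constructor
    · calc 2 ^ (∑ i ∈ range n, lg c (a + i) + lg c (a + n)) * c (a + n + 1)
          = 2 ^ (∑ i ∈ range n, lg c (a + i)) * (2 ^ lg c (a + n) * c (a + n + 1)) := by ring
        _ ≤ 2 ^ (∑ i ∈ range n, lg c (a + i)) * (2 * c (a + n)) := Nat.mul_le_mul_left _ s1
        _ = 2 * (2 ^ (∑ i ∈ range n, lg c (a + i)) * c (a + n)) := by ring
        _ ≤ 2 * (2 ^ n * c a) := Nat.mul_le_mul_left _ i1
        _ = 2 ^ (n + 1) * c a := by ring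
    · calc c a ≤ 2 ^ (∑ i ∈ range n, lg c (a + i) + n) * c (a + n) := i2
        _ ≤ 2 ^ (∑ i ∈ range n, lg c (a + i) + n) * (2 ^ lg c (a + n) * 2 * c (a + n + 1)) :=
          Nat.mul_le_mul_left _ s2
        _ = 2 ^ (∑ i ∈ range n, lg c (a + i) + lg c (a + n) + (n + 1)) * c (a + n + 1) := by ring

end Pool.Agent.MP_2876a2_nt.Tu.Z

end

noncomputable section
open Finset Filter
open scoped Pointwise


namespace Pool.Agent.MP_2876a2_nt.Tu.Z

theorem anti_Bad {z n : ℕ} {c : ℕ → ℕ} (h : Cn z n c) : ∀ i ≤ n, c i ≤ c 0 := by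
  intro i
  induction i with
  | zero => intro _; exact le_rfl
  | succ i ih =>
    intro hi
    exact ((h i (by omega)).2.2.1.le).trans (ih (by omega))

theorem ex_Bad {n : ℕ} (c : ℕ → ℕ) {i : ℕ} (hi : i < n) :
    ex (fun i : Fin n => lg c i) i = lg c i := by
  simp [ex, hi]

theorem ent_Bad {z n m : ℕ} {c : ℕ → ℕ} (h : Cn z n c) (hm : 1 ≤ m)
    (h0 : c 0 ≤ 2 * 2 ^ (100 * m)) {i : ℕ} (hi : i < n) : lg c i ≤ 101 * m := by
  have h1 : c i ≤ c 0 := anti_Bad h i hi.le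
  have h2 : (c i + 1) / c (i + 1) ≤ c i + 1 := Nat.div_le_self _ _
  have h3 : 2 * 2 ^ (100 * m) ≤ 2 ^ (101 * m) := by
    rw [← pow_succ']
    exact Nat.pow_le_pow_right (by norm_num) (by omega)
  have h4 : 1 < 2 ^ (101 * m) := Nat.one_lt_two_pow (by omega)
  have h5 : (c i + 1) / c (i + 1) < 2 ^ (101 * m + 1) := by
    rw [pow_succ]; omega
  have := Nat.log_lt_of_lt_pow' (b := 2) (by omega) h5
  unfold lg
  omega

theorem s1_Bad (hL : StLg) {j K m : ℕ} {c : ℕ → ℕ} (h : Cn (2 ^ m) (j + K) c) (hj : 1 ≤ j)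
    (h0 : c 0 ≤ 2 * 2 ^ (100 * m)) : ∑ i ∈ range j, lg c i ≤ 99 * m + j + 1 := by
  have h1 := (hL _ _ c h 0 j (by omega)).1
  simp only [zero_add] at h1
  have h2 : 2 ^ m < c j := by
    have := (h (j - 1) (by omega)).2.1
    rwa [show j - 1 + 1 = j by omega] at this
  have h3 : 2 ^ (∑ i ∈ range j, lg c i + m) ≤ 2 ^ (j + (100 * m + 1)) := by
    calc 2 ^ (∑ i ∈ range j, lg c i + m) = 2 ^ (∑ i ∈ range j, lg c i) * 2 ^ m := pow_add _ _ _
      _ ≤ 2 ^ (∑ i ∈ range j, lg c i) * c j := Nat.mul_le_mul_left _ h2.le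
      _ ≤ 2 ^ j * c 0 := h1
      _ ≤ 2 ^ j * (2 * 2 ^ (100 * m)) := Nat.mul_le_mul_left _ h0
      _ = 2 ^ (j + (100 * m + 1)) := by rw [pow_add, pow_succ]; ring
  have := (Nat.pow_le_pow_iff_right (by norm_num : 1 < 2)).1 h3
  omega

theorem s2_Bad (hL : StLg) {j K z : ℕ} {x : ℝ} {c : ℕ → ℕ} (h : Cn z (j + K) c) (hK : 1 ≤ K)
    (hx : 0 ≤ x) (hc : (c j : ℝ) ≤ (2 : ℝ) ^ x * c (j + K)) :
    ∑ i ∈ range K, lg c (j + i) ≤ ⌊x⌋₊ + K := by
  have h1 := (hL _ _ c h j K le_rfl).1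
  have h2 : 0 < c (j + K) := by
    have := (h (j + K - 1) (by omega)).1.pos
    rwa [show j + K - 1 + 1 = j + K by omega] at this
  set S := ∑ i ∈ range K, lg c (j + i)
  have h2' : (0 : ℝ) < c (j + K) := by exact_mod_cast h2
  have h3 : (2 : ℝ) ^ S * c (j + K) ≤ 2 ^ K * c j := by exact_mod_cast h1
  have h4 : (2 : ℝ) ^ S * c (j + K) ≤ (2 ^ K * (2 : ℝ) ^ x) * c (j + K) := by
    rw [mul_assoc]
    exact h3.trans (mul_le_mul_of_nonneg_left hc (by positivity))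
  have h5 : (2 : ℝ) ^ S ≤ 2 ^ K * (2 : ℝ) ^ x := le_of_mul_le_mul_right h4 h2'
  rw [← Real.rpow_natCast, ← Real.rpow_natCast, ← Real.rpow_add (by norm_num),
    Real.rpow_le_rpow_left_iff (by norm_num)] at h5
  by_cases hS : S ≤ K
  · omega
  · have h6 : S - K ≤ ⌊x⌋₊ := by
      rw [Nat.le_floor_iff hx, Nat.cast_sub (by omega)]
      linarith
    omega

theorem sBad (hB : StBox) (hV : StVec1) (hL : StLg) : StBad := by
  classical
  obtain ⟨C, hC, hB⟩ := hB
  refine ⟨C, hC, fun j K f hj hK hf => ?_⟩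
  have hlog : 0 < Real.log (((j + K : ℕ) : ℝ) + 1) := by
    apply Real.log_pos
    have : (1 : ℝ) ≤ ((j + K : ℕ) : ℝ) := by exact_mod_cast (by omega : 1 ≤ j + K)
    linarith
  have hP : 0 < (C * (((j + K : ℕ) : ℝ) + 1) * Real.log (((j + K : ℕ) : ℝ) + 1)) ^ (j + K + 1) := by
    have : 0 < C := by linarith
    positivity
  have hbd : 0 < bd C j K f := by
    unfold bd
    positivity
  have hev : ∀ᶠ m : ℕ in atTop, 2 * (K : ℝ) ≤ f * m :=
    (tendsto_natCast_atTop_atTop.const_mul_atTop hf).eventually_ge_atTop _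
  filter_upwards [hB (j + K) (bd C j K f) (by omega) hbd, hev, eventually_ge_atTop (j + 1)]
    with m h1 h2 h3
  set A : Finset (Fin (j + K) → ℕ) :=
    (Fintype.piFinset fun _ => range (101 * m + 1)).filter fun e =>
      ∑ i ∈ range j, ex e i ≤ 99 * m + j + 1 ∧ ∑ i ∈ range K, ex e (j + i) ≤ ⌊f * m⌋₊ + K with hA
  have hm : (0 : ℝ) < m := by exact_mod_cast (by omega : 0 < m)
  have h4 := h1 A fun e he i => by
    have := Fintype.mem_piFinset.1 (mem_filter.1 he).1 i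
    rw [mem_range] at this
    omega
  have h5 := hV j K _ _ A fun e he => (mem_filter.1 he).2
  have h6 : (A.card : ℝ) * (j.factorial * K.factorial) ≤ (101 * m) ^ j * (2 * f * m) ^ K := by
    have h7 : (A.card : ℝ) * (j.factorial * K.factorial) ≤
        ((99 * m + j + 1 + j : ℕ) : ℝ) ^ j * ((⌊f * m⌋₊ + K + K : ℕ) : ℝ) ^ K := by
      exact_mod_cast h5
    refine h7.trans (mul_le_mul (pow_le_pow_left₀ (by positivity) ?_ _)
      (pow_le_pow_left₀ (by positivity) ?_ _) (by positivity) (by positivity))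
    · exact_mod_cast (by omega : 99 * m + j + 1 + j ≤ 101 * m)
    · have := Nat.floor_le (show 0 ≤ f * m by positivity)
      push_cast
      linarith
  refine le_trans ?_ (h4.trans ?_)
  · refine Nat.cast_le.2 (card_le_card fun q hq => ?_)
    obtain ⟨hq, c, h0, hc, hx⟩ := mem_filter.1 hq
    refine mem_filter.2 ⟨hq, c, h0, hc, mem_filter.2 ⟨?_, ?_, ?_⟩⟩
    all_goals have hq2 : c 0 ≤ 2 * 2 ^ (100 * m) := h0 ▸ (mem_Ioc.1 (mem_filter.1 hq).1).2
    · exact Fintype.mem_piFinset.2 fun i =>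
        mem_range.2 (Nat.lt_succ_of_le (ent_Bad hc (by omega) hq2 i.2))
    · rw [sum_congr rfl fun i hi => ex_Bad c (show i < j + K by have := mem_range.1 hi; omega)]
      exact s1_Bad hL hc hj hq2
    · rw [sum_congr rfl fun i hi => ex_Bad c (show j + i < j + K by have := mem_range.1 hi; omega)]
      exact s2_Bad hL hc hK (by positivity) hx
  · have hf1 : (0 : ℝ) < j.factorial * K.factorial := by positivity
    have h8 : (A.card : ℝ) ≤ (101 * m) ^ j * (2 * f * m) ^ K / (j.factorial * K.factorial) :=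
      (le_div_iff₀ hf1).2 h6
    have h9 : (C * (((j + K : ℕ) : ℝ) + 1) * Real.log (((j + K : ℕ) : ℝ) + 1)) ^ (j + K + 1) *
        A.card ≤ bd C j K f * (m : ℝ) ^ (j + K) := by
      refine (mul_le_mul_of_nonneg_left h8 hP.le).trans (le_of_eq ?_)
      unfold bd
      rw [mul_pow (101 : ℝ), mul_pow (2 * f), pow_add (m : ℝ)]
      field_simp
    calc _ ≤ 2 ^ (100 * m) / (m : ℝ) ^ (j + K + 1) *
          (bd C j K f * (m : ℝ) ^ (j + K) + bd C j K f * (m : ℝ) ^ (j + K)) := by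
          gcongr
      _ = _ := by
          rw [pow_succ]
          field_simp
          ring

end Pool.Agent.MP_2876a2_nt.Tu.Z

end

noncomputable section
open Finset Filter
open scoped Pointwise


namespace Pool.Agent.MP_2876a2_nt.Tu.Z

theorem step_Dv {c x : ℝ} (hc : 2 ≤ c) (hx : 1 ≤ x) :
    Real.log (Real.log (c * (x + 1))) - Real.log (Real.log (c * x)) ≤
      1 / (x * Real.log (c * x)) := by
  have h1 : 0 < Real.log (c * x) := Real.log_pos (by nlinarith)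
  have h2 : 0 < Real.log (c * (x + 1)) := Real.log_pos (by nlinarith)
  have h3 : Real.log (c * (x + 1)) - Real.log (c * x) ≤ 1 / x := by
    rw [← Real.log_div (by positivity) (by positivity)]
    refine (Real.log_le_sub_one_of_pos (by positivity)).trans (le_of_eq ?_)
    field_simp
    ring
  rw [← Real.log_div h2.ne' h1.ne', ← div_div]
  refine (Real.log_le_sub_one_of_pos (by positivity)).trans ?_
  rw [div_sub_one h1.ne']
  exact div_le_div_of_nonneg_right h3 h1.le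

theorem sDv : StDv := by
  intro a T ha
  have hc : (2 : ℝ) ≤ 2 * a := by
    have : (1 : ℝ) ≤ a := by exact_mod_cast ha
    linarith
  have key : ∀ I : ℕ, Real.log (Real.log (2 * a * ((I : ℝ) + 1))) - Real.log (Real.log (2 * a)) ≤
      ∑ i ∈ range I, 1 / (((i : ℝ) + 1) * Real.log (2 * a * ((i : ℝ) + 1))) := by
    intro I
    induction I with
    | zero => simp
    | succ n ih =>
      have := step_Dv hc (x := (n : ℝ) + 1) (le_add_of_nonneg_left n.cast_nonneg)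
      rw [sum_range_succ]
      push_cast
      linarith
  have h1 : Tendsto (fun I : ℕ => Real.log (Real.log (2 * a * ((I : ℝ) + 1)))) atTop atTop :=
    Real.tendsto_log_atTop.comp (Real.tendsto_log_atTop.comp
      ((tendsto_atTop_add_const_right _ 1 tendsto_natCast_atTop_atTop).const_mul_atTop
        (by linarith)))
  obtain ⟨I, hI⟩ := (h1.eventually_ge_atTop (T + Real.log (Real.log (2 * a)))).exists
  exact ⟨I, by linarith [key I]⟩

end Pool.Agent.MP_2876a2_nt.Tu.Z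

end

noncomputable section
open Finset Filter
open scoped Pointwise


namespace Pool.Agent.MP_2876a2_nt.Tu.Z

theorem fac_Bd (j K : ℕ) : (j + K + 1).factorial ≤ 4 ^ (j + K + 1) * (j.factorial * K.factorial) := by
  rw [Nat.factorial_succ, ← Nat.add_choose_mul_factorial_mul_factorial j K, mul_assoc, ← mul_assoc]
  refine Nat.mul_le_mul_right _ ?_
  rw [show 4 = 2 * 2 from rfl, mul_pow]
  exact Nat.mul_le_mul Nat.lt_two_pow_self.le
    ((Nat.choose_le_two_pow _ _).trans (Nat.pow_le_pow_right two_pos (Nat.le_succ _)))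

theorem pow_Bd (j K : ℕ) : (((j + K : ℕ) : ℝ) + 1) ^ (j + K + 1) ≤
    11 ^ (j + K + 1) * (j.factorial * K.factorial : ℝ) := by
  have h1 := Real.pow_div_factorial_le_exp (((j + K + 1 : ℕ) : ℝ)) (Nat.cast_nonneg _) (j + K + 1)
  rw [div_le_iff₀ (by positivity), ← Real.exp_one_pow] at h1
  have h2 : ((j + K + 1).factorial : ℝ) ≤ 4 ^ (j + K + 1) * (j.factorial * K.factorial : ℝ) := by
    exact_mod_cast fac_Bd j K
  have h3 : Real.exp 1 ^ (j + K + 1) * 4 ^ (j + K + 1) ≤ (11 : ℝ) ^ (j + K + 1) := by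
    rw [← mul_pow]
    exact pow_le_pow_left₀ (by positivity) (by linarith [Real.exp_one_lt_d9]) _
  rw [Nat.cast_succ] at h1
  calc _ ≤ _ := h1
    _ ≤ Real.exp 1 ^ (j + K + 1) * (4 ^ (j + K + 1) * (j.factorial * K.factorial : ℝ)) :=
      mul_le_mul_of_nonneg_left h2 (by positivity)
    _ ≤ _ := by
      rw [← mul_assoc]
      exact mul_le_mul_of_nonneg_right h3 (by positivity)

theorem sBd : StBd := by
  intro C f j K hC hj hf
  obtain ⟨L, hL⟩ : ∃ L : ℝ, L = Real.log ((j + K : ℕ) + 1) := ⟨_, rfl⟩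
  have L1 : 1 / 2 ≤ L := by
    have h1 : (1 : ℝ) ≤ (j + K : ℕ) := by exact_mod_cast hj.trans (Nat.le_add_right j K)
    have h2 := Real.log_le_log two_pos (show (2 : ℝ) ≤ (j + K : ℕ) + 1 by linarith)
    linarith [Real.log_two_gt_d9]
  obtain ⟨y, hy⟩ : ∃ y : ℝ, y = 11 * C * L := ⟨_, rfl⟩
  have y1 : 1 ≤ y := by nlinarith
  have h1 : (C * ((j + K : ℕ) + 1) * L) ^ (j + K + 1) ≤
      y ^ (j + K + 1) * (j.factorial * K.factorial : ℝ) := by
    have e1 : C * ((j + K : ℕ) + 1) * L = ((j + K : ℕ) + 1) * (C * L) := by ring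
    have e2 : y = C * L * 11 := by rw [hy]; ring
    rw [e1, e2, mul_pow, mul_pow (C * L), mul_assoc, mul_comm]
    exact mul_le_mul_of_nonneg_left (pow_Bd j K) (by positivity)
  have h2 : y ^ (j + 1) * 101 ^ j ≤ (101 * y) ^ (2 * j) := by
    rw [mul_pow, mul_comm]
    exact mul_le_mul (pow_le_pow_right₀ (by norm_num) (by omega))
      (pow_le_pow_right₀ y1 (by omega)) (by positivity) (by positivity)
  have e3 : 1111 * C * L = 101 * y := by rw [hy]; ring
  have e4 : 22 * C * L * f = y * (2 * f) := by rw [hy]; ring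
  unfold bd
  rw [← hL, e3, e4]
  calc _ = (C * ((j + K : ℕ) + 1) * L) ^ (j + K + 1) / (j.factorial * K.factorial : ℝ) *
        (101 ^ j * (2 * f) ^ K) := by
        field_simp
    _ ≤ y ^ (j + K + 1) * (101 ^ j * (2 * f) ^ K) :=
        mul_le_mul_of_nonneg_right ((div_le_iff₀ (by positivity)).2 h1) (by positivity)
    _ = y ^ (j + 1) * 101 ^ j * (y * (2 * f)) ^ K := by ring
    _ ≤ _ := mul_le_mul_of_nonneg_right h2 (by positivity)

end Pool.Agent.MP_2876a2_nt.Tu.Z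

end

noncomputable section
open Finset Filter
open scoped Pointwise


namespace Pool.Agent.MP_2876a2_nt.Tu.Z

def jj_Sched (a : ℕ) : ℕ → ℕ
  | 0 => 1
  | i + 1 => jj_Sched a i + a * (i + 1) * jj_Sched a i

theorem pos_Sched (a i : ℕ) : 1 ≤ jj_Sched a i := by
  induction i with
  | zero => exact le_rfl
  | succ i ih => exact ih.trans (Nat.le_add_right _ _)

theorem le_Sched {a : ℕ} (ha : 1 ≤ a) (i : ℕ) : jj_Sched a i ≤ (2 * a * i) ^ i := by
  induction i with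
  | zero => exact le_rfl
  | succ i ih =>
    have h : jj_Sched a i ≤ (2 * a * (i + 1)) ^ i :=
      ih.trans (Nat.pow_le_pow_left (Nat.mul_le_mul_left _ (Nat.le_succ i)) i)
    have k : 1 + a * (i + 1) ≤ 2 * a * (i + 1) := by nlinarith
    calc jj_Sched a (i + 1) = jj_Sched a i * (1 + a * (i + 1)) := by rw [jj_Sched]; ring
      _ ≤ _ := by rw [pow_succ]; exact Nat.mul_le_mul h k

theorem log_Sched {a : ℕ} (ha : 1 ≤ a) (i : ℕ) :
    0 < Real.log ((jj_Sched a (i + 1) : ℝ) + 1) ∧ Real.log ((jj_Sched a (i + 1) : ℝ) + 1) ≤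
      2 * (((i : ℝ) + 1) * Real.log (2 * a * ((i : ℝ) + 1))) := by
  have p := pos_Sched a (i + 1)
  have q := le_Sched ha (i + 1)
  have r : 2 ≤ (2 * a * (i + 1)) ^ (i + 1) :=
    le_trans (by nlinarith) (Nat.le_self_pow (Nat.succ_ne_zero i) _)
  have s : jj_Sched a (i + 1) + 1 ≤ (2 * a * (i + 1)) ^ (2 * (i + 1)) := by
    rw [two_mul (i + 1), pow_add]
    nlinarith
  have p' : (1 : ℝ) ≤ jj_Sched a (i + 1) := by exact_mod_cast p
  refine ⟨Real.log_pos (by linarith), ?_⟩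
  have s' : (jj_Sched a (i + 1) : ℝ) + 1 ≤ (2 * a * ((i : ℝ) + 1)) ^ (2 * (i + 1)) := by
    exact_mod_cast s
  refine (Real.log_le_log (by linarith) s').trans_eq ?_
  rw [Real.log_pow]
  push_cast
  ring

theorem ex_Sched {B δ : ℝ} (hB : 0 < B) (hδ : 0 < δ) :
    ∃ c : ℕ, (B * ((c + 5 : ℕ) : ℝ)) ^ 2 ≤ δ * 2 ^ c := by
  obtain ⟨a, h, k⟩ := (((tendsto_pow_const_div_const_pow_of_one_lt 2 (one_lt_two (α := ℝ))).eventually
    (gt_mem_nhds (show 0 < δ / (32 * B ^ 2) by positivity))).and (eventually_ge_atTop 5)).exists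
  obtain ⟨c, rfl⟩ := Nat.exists_eq_add_of_le' k
  rw [div_lt_div_iff₀ (by positivity) (by positivity), pow_add] at h
  exact ⟨c, by nlinarith⟩

theorem sSched (hB : StBd) (hD : StDv) : StSched := by
  intro C ε hC hε
  have C0 : 0 < C := by linarith
  have d0 : 0 < min 1 ε := lt_min one_pos hε
  obtain ⟨c, hc⟩ := ex_Sched (B := 4444 * C) (by positivity) d0
  have ha : 1 ≤ c + 5 := by omega
  obtain ⟨I, hI⟩ := hD (c + 5) (101 * (88 * C)) ha
  have lg := log_Sched ha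
  refine ⟨I, jj_Sched (c + 5), fun i => 1 / (44 * C * Real.log (jj_Sched (c + 5) (i + 1) + 1)),
    le_rfl, fun i => ?_, fun i => ?_, ?_, ?_⟩
  · have := pos_Sched (c + 5) i
    rw [jj_Sched]
    exact Nat.lt_add_of_pos_right (by positivity)
  · have := (lg i).1
    positivity
  · rw [← le_div_iff₀ (by positivity), sum_div] at hI
    refine hI.trans (sum_le_sum fun i _ => ?_)
    obtain ⟨p, q⟩ := lg i
    rw [div_div]
    refine one_div_le_one_div_of_le (by positivity) ?_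
    nlinarith [mul_le_mul_of_nonneg_left q C0.le]
  · refine (sum_le_sum (g := fun i => ε / 2 * (1 / 2) ^ i) fun i _ => ?_).trans ?_
    · obtain ⟨p, q⟩ := lg i
      have e : jj_Sched (c + 5) (i + 1) - jj_Sched (c + 5) i =
          (c + 5) * (i + 1) * jj_Sched (c + 5) i := by
        rw [jj_Sched, Nat.add_sub_cancel_left]
      refine (hB C _ _ _ hC (pos_Sched _ i) (by positivity)).trans ?_
      rw [e, ← jj_Sched]
      beta_reduce
      have l : Real.log (2 * ((c + 5 : ℕ) : ℝ) * ((i : ℝ) + 1)) ≤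
          2 * ((c + 5 : ℕ) : ℝ) * ((i : ℝ) + 1) := Real.log_le_self (by positivity)
      have n : (i : ℝ) + 1 ≤ 2 ^ (i + 1) := by exact_mod_cast Nat.lt_two_pow_self.le
      have q' := q.trans (mul_le_mul_of_nonneg_left (mul_le_mul_of_nonneg_left l (by positivity))
        zero_le_two)
      generalize Real.log ((jj_Sched (c + 5) (i + 1) : ℝ) + 1) = L at p q' ⊢
      rw [show 22 * C * L * (1 / (44 * C * L)) = 1 / 2 by field_simp; norm_num, pow_mul,
        pow_mul _ _ (jj_Sched (c + 5) i), ← mul_pow]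
      have b : (1111 * C * L) ^ 2 * (1 / 2) ^ ((c + 5) * (i + 1)) ≤
          min 1 ε * (1 / 2) ^ (i + 1) := by
        have b1 : 1111 * C * L ≤ 4444 * C * ((c + 5 : ℕ) : ℝ) * (2 ^ (i + 1)) ^ 2 := by
          calc 1111 * C * L ≤ 1111 * C * (2 * (((i : ℝ) + 1) *
                (2 * ((c + 5 : ℕ) : ℝ) * ((i : ℝ) + 1)))) := by gcongr
            _ = 4444 * C * ((c + 5 : ℕ) : ℝ) * ((i : ℝ) + 1) ^ 2 := by ring
            _ ≤ _ := by gcongr
        have b2 : (2 : ℝ) ^ c ≤ 2 ^ (c * (i + 1)) :=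
          pow_le_pow_right₀ one_le_two (Nat.le_mul_of_pos_right c (Nat.succ_pos i))
        calc _ ≤ (4444 * C * ((c + 5 : ℕ) : ℝ) * (2 ^ (i + 1)) ^ 2) ^ 2 *
              (1 / 2) ^ ((c + 5) * (i + 1)) := by gcongr
          _ ≤ min 1 ε * 2 ^ (c * (i + 1)) * ((2 ^ (i + 1)) ^ 2) ^ 2 *
              (1 / 2) ^ ((c + 5) * (i + 1)) := by
            rw [mul_pow]
            gcongr
            exact hc.trans (mul_le_mul_of_nonneg_left b2 d0.le)
          _ = _ := by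
            rw [add_mul, pow_add (1 / 2 : ℝ), mul_comm 5, pow_mul _ (i + 1), one_div, inv_pow,
              inv_pow]
            field_simp
      have h1 : (1 / 2 : ℝ) ^ (i + 1) ≤ 1 := pow_le_one₀ (by norm_num) (by norm_num)
      refine (pow_le_of_le_one (by positivity) (b.trans (mul_le_one₀ (min_le_left _ _)
        (by positivity) h1)) (Nat.one_le_iff_ne_zero.1 (pos_Sched _ i))).trans (b.trans ?_)
      refine (mul_le_mul_of_nonneg_right (min_le_right _ _) (by positivity)).trans_eq ?_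
      ring
    · rw [← mul_sum]
      have := mul_le_mul_of_nonneg_left (sum_geometric_two_le I) (show 0 ≤ ε / 2 by positivity)
      linarith

end Pool.Agent.MP_2876a2_nt.Tu.Z

end

noncomputable section
open Finset Filter
open scoped Pointwise


namespace Pool.Agent.MP_2876a2_nt.Tu.Z

theorem dec_Dep {z K : ℕ} {c : ℕ → ℕ} (h : Cn z K c) : ∀ n ≤ K, c n ≤ c 0 := by
  intro n
  induction n with
  | zero => exact fun _ => le_rfl
  | succ n ih => exact fun hn => (h n hn).2.2.1.le.trans (ih (Nat.le_of_succ_le hn))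

theorem jump_Dep {I m z : ℕ} {j c : ℕ → ℕ} {f : ℕ → ℝ} (h1 : 1 ≤ j 0) (sm : StrictMono j)
    (hs : 101 ≤ ∑ i ∈ range I, f i) (m1 : 1 ≤ m) (hc : Cn z (j I) c)
    (h0 : c 0 ≤ 2 * 2 ^ (100 * m)) :
    ∃ i < I, (c (j i) : ℝ) ≤ (2 : ℝ) ^ (f i * m) * c (j (i + 1)) := by
  by_contra hn
  push Not at hn
  have ind : ∀ n ≤ I, (2 : ℝ) ^ ((∑ i ∈ range n, f i) * m) * c (j n) ≤ c (j 0) := by
    intro n
    induction n with
    | zero => intro _; simp
    | succ n ih =>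
      intro h
      refine le_trans ?_ (ih (Nat.le_of_succ_le h))
      rw [sum_range_succ, add_mul, Real.rpow_add two_pos, mul_assoc]
      exact mul_le_mul_of_nonneg_left (hn n h).le (Real.rpow_nonneg zero_le_two _)
  have a1 : 1 ≤ j I := h1.trans (sm.monotone (Nat.zero_le I))
  have a2 : 2 ≤ c (j I) := by
    have := (hc (j I - 1) (by omega)).1.two_le
    rwa [Nat.sub_add_cancel a1] at this
  have a3 : c (j 0) ≤ c 0 := dec_Dep hc _ (sm.monotone (Nat.zero_le I))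
  have a4 : (2 : ℝ) ^ (101 * m) ≤ (2 : ℝ) ^ ((∑ i ∈ range I, f i) * m) := by
    rw [← Real.rpow_natCast]
    refine Real.rpow_le_rpow_of_exponent_le one_le_two ?_
    push_cast
    exact mul_le_mul_of_nonneg_right hs (Nat.cast_nonneg m)
  have a5 : (2 : ℝ) ^ (101 * m) * 2 ≤ c (j 0) :=
    le_trans (mul_le_mul a4 (by exact_mod_cast a2) zero_le_two (Real.rpow_nonneg zero_le_two _))
      (ind I le_rfl)
  have a6 : 2 ^ (101 * m) * 2 ≤ c (j 0) := by exact_mod_cast a5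
  have a7 : 2 ^ (100 * m) < 2 ^ (101 * m) := Nat.pow_lt_pow_right one_lt_two (by omega)
  omega

open Classical in
theorem sDep (hB : StBad) (hS : StSched) : StDep := by
  intro ε hε
  obtain ⟨C, hC, hB⟩ := hB
  obtain ⟨I, j, f, h1, hj, hf, hs, hb⟩ := hS C (ε / 2) hC (half_pos hε)
  have sm : StrictMono j := strictMono_nat_of_lt_succ hj
  refine ⟨j I, ?_⟩
  have hE := (eventually_all_finset (range I)).2 fun i _ => hB (j i) (j (i + 1) - j i) (f i)
    (h1.trans (sm.monotone (Nat.zero_le i))) (Nat.sub_pos_of_lt (hj i)) (hf i)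
  filter_upwards [hE, eventually_ge_atTop 1] with m hm m1
  have sub : ((PN (2 ^ (100 * m))).filter fun q => ¬ Sh (j I) (2 ^ m) q) ⊆
      (range I).biUnion fun i => (PN (2 ^ (100 * m))).filter fun q => ∃ c : ℕ → ℕ, c 0 = q ∧
        Cn (2 ^ m) (j i + (j (i + 1) - j i)) c ∧
          (c (j i) : ℝ) ≤ (2 : ℝ) ^ (f i * m) * c (j i + (j (i + 1) - j i)) := by
    intro q hq
    obtain ⟨q1, q2⟩ := mem_filter.1 hq
    obtain ⟨c, c0, hc⟩ := not_not.1 q2
    have hi : q ≤ 2 * 2 ^ (100 * m) := (mem_Ioc.1 (mem_filter.1 q1).1).2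
    obtain ⟨i, i1, i2⟩ := jump_Dep h1 sm hs m1 hc (c0 ▸ hi)
    refine mem_biUnion.2 ⟨i, mem_range.2 i1, mem_filter.2 ⟨q1, c, c0, ?_⟩⟩
    rw [Nat.add_sub_cancel' (hj i).le]
    exact ⟨fun a ha => hc a (ha.trans_le (sm.monotone i1)), i2⟩
  have c1 := (card_le_card sub).trans card_biUnion_le
  have c2 := (Nat.cast_le (α := ℝ)).2 c1
  rw [Nat.cast_sum] at c2
  refine c2.trans ((sum_le_sum hm).trans ?_)
  rw [← mul_sum, ← mul_sum]
  have p : (0 : ℝ) ≤ 2 ^ (100 * m) / (m : ℝ) := by positivity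
  calc (2 : ℝ) ^ (100 * m) / (m : ℝ) * (2 * ∑ i ∈ range I, bd C (j i) (j (i + 1) - j i) (f i))
      ≤ 2 ^ (100 * m) / (m : ℝ) * ε := mul_le_mul_of_nonneg_left (by linarith) p
    _ = ε * 2 ^ (100 * m) / m := by ring

end Pool.Agent.MP_2876a2_nt.Tu.Z

end

noncomputable section
open Finset Filter
open scoped Pointwise


namespace Pool.Agent.MP_2876a2_nt.Tu.Z

/-- the vectors with the sum in a window -/
def win_Gap (j m E F : ℕ) : Finset (Fin j → ℕ) :=
  (Fintype.piFinset fun _ : Fin j => range (101 * m + 1)).filter fun e =>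
    E ≤ ∑ i, e i ∧ ∑ i, e i ≤ E + F

theorem mem_Gap (hL : StLg) {j m h : ℕ} {c : ℕ → ℕ} (hj : 1 ≤ j) (hjm : j + 1 ≤ m)
    (hh : 16 * h ≤ m) (hq : c 0 ∈ PN (2 ^ (100 * m))) (hc : Cn (2 ^ m) j c)
    (hp : c j ≤ 2 ^ (m + 8 * h)) :
    (fun i : Fin j => lg c i) ∈ win_Gap j m (99 * m - 8 * h - j) (8 * h + 2 * j) := by
  obtain ⟨h1, h2⟩ := hL _ _ _ hc 0 j (by omega)
  simp only [zero_add] at h1 h2
  obtain ⟨hq1, hq2⟩ := mem_Ioc.1 (mem_filter.1 hq).1
  have hz : 2 ^ m < c j := by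
    have := (hc (j - 1) (by omega)).2.1
    rwa [Nat.sub_add_cancel hj] at this
  set s := ∑ i ∈ range j, lg c i with hs
  have hlo : 100 * m < s + j + (m + 8 * h) := by
    refine (Nat.pow_lt_pow_iff_right (a := 2) (by norm_num)).1 ?_
    calc 2 ^ (100 * m) < c 0 := hq1
      _ ≤ 2 ^ (s + j) * c j := h2
      _ ≤ 2 ^ (s + j) * 2 ^ (m + 8 * h) := Nat.mul_le_mul_left _ hp
      _ = 2 ^ (s + j + (m + 8 * h)) := (pow_add _ _ _).symm
  have hhi : s + m ≤ j + (1 + 100 * m) - 1 := by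
    have : s + m < j + (1 + 100 * m) := by
      refine (Nat.pow_lt_pow_iff_right (a := 2) (by norm_num)).1 ?_
      calc 2 ^ (s + m) = 2 ^ s * 2 ^ m := pow_add _ _ _
        _ < 2 ^ s * c j := Nat.mul_lt_mul_of_pos_left hz (by positivity)
        _ ≤ 2 ^ j * c 0 := h1
        _ ≤ 2 ^ j * (2 * 2 ^ (100 * m)) := Nat.mul_le_mul_left _ hq2
        _ = 2 ^ (j + (1 + 100 * m)) := by rw [pow_add, pow_add, pow_one]
    omega
  have hsum : ∑ i : Fin j, lg c i = s := Fin.sum_univ_eq_sum_range (fun i => lg c i) j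
  refine mem_filter.2 ⟨Fintype.mem_piFinset.2 fun i => mem_range.2 ?_, ?_, ?_⟩
  · have : lg c i ≤ s :=
      single_le_sum (f := fun i => lg c i) (fun _ _ => Nat.zero_le _) (mem_range.2 i.2)
    omega
  · rw [hsum]; omega
  · rw [hsum]; omega

theorem card_Gap (hV : StVec2) {j m g : ℕ} (hg : 16 ≤ g) (hm : (2 * j + 3) * g ≤ m) :
    ((win_Gap (j + 1) m (99 * m - 8 * (m / g) - (j + 1)) (8 * (m / g) + 2 * (j + 1))).card : ℝ) ≤
      9 / g * 100 ^ j * (m : ℝ) ^ (j + 1) := by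
  have h0 := hV j _ _ (win_Gap (j + 1) m (99 * m - 8 * (m / g) - (j + 1))
    (8 * (m / g) + 2 * (j + 1))) fun e he => (mem_filter.1 he).2
  have hd : m / g * g ≤ m := Nat.div_mul_le_self m g
  have h16 : 16 * (m / g) ≤ m := by nlinarith
  have hj : 16 * (2 * j + 3) ≤ m := by nlinarith
  have h1 : 99 * m - 8 * (m / g) - (j + 1) + (8 * (m / g) + 2 * (j + 1)) + 1 ≤ 100 * m := by
    omega
  have h2 : (8 * (m / g) + 2 * (j + 1) + 1) * g ≤ 9 * m := by nlinarith
  have hg0 : (0 : ℝ) < g := by exact_mod_cast (by omega : 0 < g)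
  have h3 : ((8 * (m / g) + 2 * (j + 1) + 1 : ℕ) : ℝ) ≤ 9 / g * m := by
    rw [div_mul_eq_mul_div, le_div_iff₀ hg0]
    exact_mod_cast h2
  have h4 := h0.trans (Nat.mul_le_mul_left _ (Nat.pow_le_pow_left h1 j))
  have h5 : ((win_Gap (j + 1) m (99 * m - 8 * (m / g) - (j + 1))
      (8 * (m / g) + 2 * (j + 1))).card : ℝ) ≤
      ((8 * (m / g) + 2 * (j + 1) + 1 : ℕ) : ℝ) * (100 * (m : ℝ)) ^ j := by
    exact_mod_cast h4
  refine h5.trans ?_
  calc ((8 * (m / g) + 2 * (j + 1) + 1 : ℕ) : ℝ) * (100 * (m : ℝ)) ^ j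
      ≤ 9 / g * m * (100 * (m : ℝ)) ^ j := mul_le_mul_of_nonneg_right h3 (by positivity)
    _ = 9 / g * 100 ^ j * (m : ℝ) ^ (j + 1) := by rw [mul_pow]; ring

/-- the constant of the chains of length `j + 1` -/
def cc_Gap (C : ℝ) (j : ℕ) : ℝ :=
  |(C * (((j + 1 : ℕ) : ℝ) + 1) * Real.log (((j + 1 : ℕ) : ℝ) + 1)) ^ (j + 1 + 1)| * 9 * 100 ^ j

open Classical in
theorem sGap (hB : StBox) (hV : StVec2) (hL : StLg) (hP : StPath) : StGap := by
  obtain ⟨C, -, hC⟩ := hB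
  intro K ε hε
  set S : ℝ := ∑ j ∈ range K, cc_Gap C j with hS
  obtain ⟨g0, hg0⟩ := exists_nat_ge (2 * S / ε)
  refine ⟨g0 + 16, by omega, ?_⟩
  set g := g0 + 16 with hg
  have hg16 : 16 ≤ g := by omega
  have hgp : (0 : ℝ) < g := by exact_mod_cast (by omega : 0 < g)
  have hSg : S / g ≤ ε / 2 := by
    rw [div_le_iff₀ hε] at hg0
    rw [div_le_iff₀ hgp]
    have : (g0 : ℝ) ≤ g := by exact_mod_cast (by omega : g0 ≤ g)
    nlinarith
  set δ : ℝ := ε / (2 * (K + 1)) with hδ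
  have hδ0 : 0 < δ := by positivity
  have hδK : K * δ ≤ ε / 2 := by
    rw [hδ, mul_div_assoc', div_le_div_iff₀ (by positivity) (by norm_num)]
    nlinarith
  have hall := (eventually_all_finset (range K)).2 fun j _ => hC (j + 1) δ (by omega) hδ0
  filter_upwards [hall, eventually_ge_atTop ((2 * K + 3) * g)] with m hm hmK
  have hd : m / g * g ≤ m := Nat.div_mul_le_self m g
  have h16 : 16 * (m / g) ≤ m := by nlinarith
  have hK : 16 * (2 * K + 3) ≤ m := by nlinarith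
  have hm0 : (0 : ℝ) < m := by exact_mod_cast (by omega : 0 < m)
  set T : ℕ → Finset ℕ := fun j => (PN (2 ^ (100 * m))).filter fun q => ∃ c : ℕ → ℕ, c 0 = q ∧
    Cn (2 ^ m) (j + 1) c ∧ (fun i : Fin (j + 1) => lg c i) ∈
      win_Gap (j + 1) m (99 * m - 8 * (m / g) - (j + 1)) (8 * (m / g) + 2 * (j + 1)) with hT
  have hsub : ∀ q, (q ∈ PN (2 ^ (100 * m)) ∧ Sh K (2 ^ m) q ∧
      ∃ p ∈ nd (2 ^ m) q, p ≤ 2 ^ (m + 8 * (m / g))) → q ∈ (range K).biUnion T := by
    rintro q ⟨hq, hsh, p, hp, hpl⟩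
    obtain ⟨-, j, hj, c, hc0, hcj, hc⟩ := hP.1 _ _ _ _ hp hsh
    have hq1 := (mem_Ioc.1 (mem_filter.1 hq).1).1
    rcases j with _ | j
    · exfalso
      have : 2 ^ (m + 8 * (m / g)) ≤ 2 ^ (100 * m) := Nat.pow_le_pow_right (by norm_num) (by omega)
      omega
    · refine mem_biUnion.2 ⟨j, mem_range.2 (by omega), mem_filter.2 ⟨hq, c, hc0, hc, ?_⟩⟩
      exact mem_Gap hL (by omega) (by omega) h16 (hc0 ▸ hq) hc (hcj ▸ hpl)
  have hone : ∀ j ∈ range K, ((T j).card : ℝ) ≤ 2 ^ (100 * m) / m * (cc_Gap C j / g + δ) := by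
    intro j hj
    have hjK := mem_range.1 hj
    have h1 := hm j hj (win_Gap (j + 1) m (99 * m - 8 * (m / g) - (j + 1))
      (8 * (m / g) + 2 * (j + 1))) fun e he i => by
        have := mem_range.1 (Fintype.mem_piFinset.1 (mem_filter.1 he).1 i)
        omega
    have h2 := card_Gap hV (j := j) (m := m) hg16 (by nlinarith)
    have h0 : ((T j).card : ℝ) ≤ _ := le_of_eq_of_le (by rw [hT]) h1
    refine h0.trans ?_
    set a : ℝ := (C * (((j + 1 : ℕ) : ℝ) + 1) * Real.log (((j + 1 : ℕ) : ℝ) + 1)) ^ (j + 1 + 1)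
      with ha
    have h3 : a * ((win_Gap (j + 1) m (99 * m - 8 * (m / g) - (j + 1))
        (8 * (m / g) + 2 * (j + 1))).card : ℝ) ≤ |a| * (9 / g * 100 ^ j * (m : ℝ) ^ (j + 1)) :=
      (mul_le_mul_of_nonneg_right (le_abs_self a) (Nat.cast_nonneg _)).trans
        (mul_le_mul_of_nonneg_left h2 (abs_nonneg a))
    calc _ ≤ 2 ^ (100 * m) / (m : ℝ) ^ (j + 1 + 1) *
          (|a| * (9 / g * 100 ^ j * (m : ℝ) ^ (j + 1)) + δ * (m : ℝ) ^ (j + 1)) :=
          mul_le_mul_of_nonneg_left (add_le_add h3 le_rfl) (by positivity)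
      _ = 2 ^ (100 * m) / m * (cc_Gap C j / g + δ) := by
          rw [cc_Gap, ← ha]
          field_simp
          ring
  calc _ ≤ (((range K).biUnion T).card : ℝ) :=
        Nat.cast_le.2 (card_le_card fun q hq => hsub q (by simpa only [mem_filter] using hq))
    _ ≤ ∑ j ∈ range K, ((T j).card : ℝ) := by exact_mod_cast card_biUnion_le
    _ ≤ ∑ j ∈ range K, 2 ^ (100 * m) / m * (cc_Gap C j / g + δ) := sum_le_sum hone
    _ = 2 ^ (100 * m) / m * (S / g + K * δ) := by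
        rw [← mul_sum, sum_add_distrib, ← sum_div, sum_const, card_range, nsmul_eq_mul]
    _ ≤ 2 ^ (100 * m) / m * ε := mul_le_mul_of_nonneg_left (by linarith) (by positivity)
    _ = ε * 2 ^ (100 * m) / m := by ring

end Pool.Agent.MP_2876a2_nt.Tu.Z

end

noncomputable section
open Finset Filter
open scoped Pointwise


namespace Pool.Agent.MP_2876a2_nt.Tu.Z

theorem th_Nice (m G ρ : ℕ) (hm : 1 ≤ m) :
    TH (PA (2 ^ (100 * m)) G ρ) ≤ (PA (2 ^ (100 * m)) G ρ).card * (101 * (m : ℝ)) := by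
  unfold TH
  rw [← nsmul_eq_mul]
  refine sum_le_card_nsmul _ _ _ fun p hp => ?_
  obtain ⟨h1, h2⟩ := mem_filter.1 (mem_filter.1 hp).1
  have a : (p : ℝ) ≤ 2 ^ (100 * m + 1) := by
    rw [pow_succ, mul_comm]
    exact_mod_cast (mem_Ioc.1 h1).2
  have b := Real.log_le_log (by exact_mod_cast h2.pos) a
  rw [Real.log_pow] at b
  have c : Real.log 2 ≤ 1 := by linarith [Real.log_two_lt_d9]
  have d : (1 : ℝ) ≤ m := by exact_mod_cast hm
  have e : ((100 * m + 1 : ℕ) : ℝ) * Real.log 2 ≤ ((100 * m + 1 : ℕ) : ℝ) * 1 :=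
    mul_le_mul_of_nonneg_left c (Nat.cast_nonneg _)
  push_cast at b e
  linarith

theorem num_Nice {N G m a b c d x : ℝ} (hN : 0 < N) (hG : 1 ≤ G) (hm : 1000 * G ≤ m)
    (h0 : N / (2 * G) ≤ a * (101 * m)) (h1 : b ≤ 1 / (1000 * G) * N / m)
    (h2 : c ≤ 1 / (1000 * G) * N / m) (h3 : d ≤ N / m ^ 2) (h4 : a ≤ x + b + c + d) :
    N / m ^ 2 ≤ x := by
  have m0 : 0 < m := by linarith
  have G0 : 0 < G := by linarith
  have e1 : 1 / (1000 * G) * N / m = N / (G * m) / 1000 := by field_simp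
  have e2 : N / (G * m) / 202 ≤ a := by
    rw [div_le_iff₀ (by positivity)] at h0
    rw [div_div, div_le_iff₀ (by positivity)]
    linarith
  have e3 : N / m ^ 2 ≤ N / (G * m) / 1000 := by
    rw [div_div]
    exact div_le_div_of_nonneg_left hN.le (by positivity) (by nlinarith)
  have e4 : 0 ≤ N / (G * m) := by positivity
  rw [e1] at h1 h2
  linarith

theorem sNice (hT : StTh) (hD : StDep) (hG : StGap) (hC : StCl) : StNice := by
  classical
  intro G ρ G0 hc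
  have G1 : (1 : ℝ) ≤ G := by exact_mod_cast G0
  obtain ⟨K, hK⟩ := hD (1 / (1000 * G)) (by positivity)
  obtain ⟨g, g16, hg⟩ := hG K (1 / (1000 * G)) (by positivity)
  refine ⟨K, g, g16, ?_⟩
  have t : Tendsto (fun m : ℕ => 2 ^ (100 * m)) atTop atTop :=
    (tendsto_pow_atTop_atTop_of_one_lt (show 1 < 2 by norm_num)).comp
      (tendsto_id.const_mul_atTop' (show 0 < 100 by norm_num))
  filter_upwards [hK, hg, hC K, t.eventually (hT G ρ G0 hc (1 / (2 * G)) (by positivity)),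
    eventually_ge_atTop (1000 * G)] with m h1 h2 h3 h4 h5
  have N0 : (0 : ℝ) < 2 ^ (100 * m) := by positivity
  have h6 : (2 : ℝ) ^ (100 * m) / (2 * G) ≤ TH (PA (2 ^ (100 * m)) G ρ) := by
    have a := (abs_le.1 h4).1
    have b : (2 : ℝ) ^ (100 * m) / G ≤ 2 ^ (100 * m) / G.totient :=
      div_le_div_of_nonneg_left N0.le (by exact_mod_cast Nat.totient_pos.2 G0)
        (by exact_mod_cast Nat.totient_le G)
    have c : (2 : ℝ) ^ (100 * m) / G = 2 * (2 ^ (100 * m) / (2 * G)) := by field_simp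
    have d : 1 / (2 * (G : ℝ)) * 2 ^ (100 * m) = 2 ^ (100 * m) / (2 * G) := by field_simp
    push_cast at a
    linarith
  refine num_Nice N0 G1 (by exact_mod_cast h5) (h6.trans (th_Nice m G ρ (by omega))) h1 h2 h3 ?_
  norm_cast
  refine le_trans (card_le_card ?_) ((card_union_le _ _).trans (Nat.add_le_add_right
    ((card_union_le _ _).trans (Nat.add_le_add_right (card_union_le _ _) _)) _))
  intro q hq
  have hP : q ∈ PN (2 ^ (100 * m)) := (mem_filter.1 hq).1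
  simp only [mem_union, mem_filter]
  by_cases a : Sh K (2 ^ m) q
  · by_cases b : ∃ p ∈ nd (2 ^ m) q, p ≤ 2 ^ (m + 8 * (m / g))
    · exact Or.inl (Or.inr ⟨hP, a, b⟩)
    · by_cases c : Sm (2 ^ m) (Dq (2 ^ m) q)
      · exact Or.inl (Or.inl (Or.inl
          ⟨hq, hP, a, fun p hp => not_le.1 fun h => b ⟨p, hp, h⟩, c⟩))
      · exact Or.inr ⟨hP, a, c⟩
  · exact Or.inl (Or.inl (Or.inr ⟨hP, a⟩))

end Pool.Agent.MP_2876a2_nt.Tu.Z

end
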