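import Pool.Agent.MP_2876a2_nt.Tu.St4

/-!
Pools, spread families and blocks.
-/

set_option autoImplicit false
set_option linter.all false

noncomputable section
open Finset Filter
open scoped Pointwise


namespace Pool.Agent.MP_2876a2_nt.Tu.Z

theorem card_Po1 (i : ℕ) (hi : 2 ≤ i) (S : Finset ℕ) (h : ∀ p ∈ S, Rsv p ∧ Nat.log 2 p = i) :
    S.card ≤ 8 := by
  rcases S.eq_empty_or_nonempty with rfl | hS
  · simp
  have h0 := h _ (S.max'_mem hS)
  have h1 := h0.1.2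
  rw [h0.2] at h1
  refine le_trans (card_le_card fun p hp => ?_) h1
  have hp' := h p hp
  have hpp : p.Prime := hp'.1.1
  have h2 : 2 ^ i ≤ p := by
    rw [← hp'.2]
    exact Nat.pow_log_le_self 2 hpp.ne_zero
  have h3 : 2 ^ i ≠ p := by
    intro e
    rw [← e] at hpp
    have := hpp.eq_one_of_pow
    omega
  exact mem_filter.2 ⟨mem_Ioc.2 ⟨lt_of_le_of_ne h2 h3, S.le_max' p hp⟩, hpp⟩

theorem sum_Po1 (m : ℕ) (hm : 2 ≤ m) (S : Finset ℕ) (h : ∀ p ∈ S, Rsv p ∧ 2 ^ m < p) :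
    ∑ p ∈ S, (1 / p : ℝ) ≤ 16 / 2 ^ m := by
  have hmap : ∀ p ∈ S, Nat.log 2 p ∈ Ico m (S.sup (Nat.log 2) + 1) := fun p hp =>
    mem_Ico.2 ⟨Nat.le_log_of_pow_le (by norm_num) (h p hp).2.le,
      Nat.lt_succ_of_le (le_sup (f := Nat.log 2) hp)⟩
  rw [← sum_fiberwise_of_maps_to hmap]
  have h1 : ∀ i ∈ Ico m (S.sup (Nat.log 2) + 1),
      ∑ p ∈ S.filter (fun p => Nat.log 2 p = i), (1 / p : ℝ) ≤ 8 * (1 / 2) ^ i := by
    intro i hi
    have hi' : 2 ≤ i := hm.trans (mem_Ico.1 hi).1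
    have hc := card_Po1 i hi' (S.filter fun p => Nat.log 2 p = i) fun p hp =>
      ⟨(h p (mem_filter.1 hp).1).1, (mem_filter.1 hp).2⟩
    have hb : ∀ p ∈ S.filter (fun p => Nat.log 2 p = i), (1 / p : ℝ) ≤ (1 / 2) ^ i := by
      intro p hp
      have hpp : p.Prime := (h p (mem_filter.1 hp).1).1.1
      have h2 : 2 ^ i ≤ p := by
        rw [← (mem_filter.1 hp).2]
        exact Nat.pow_log_le_self 2 hpp.ne_zero
      have h3 : (2 : ℝ) ^ i ≤ p := by exact_mod_cast h2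
      rw [one_div_pow]
      exact one_div_le_one_div_of_le (by positivity) h3
    refine (sum_le_card_nsmul _ _ _ hb).trans ?_
    rw [nsmul_eq_mul]
    exact mul_le_mul_of_nonneg_right (by exact_mod_cast hc) (by positivity)
  refine (sum_le_sum h1).trans ?_
  rw [← mul_sum]
  have h2 := geom_sum_Ico_le_of_lt_one (m := m) (n := S.sup (Nat.log 2) + 1)
    (x := (1 / 2 : ℝ)) (by norm_num) (by norm_num)
  have h3 : (1 / 2 : ℝ) ^ m / (1 - 1 / 2) = 2 / 2 ^ m := by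
    rw [one_div_pow]
    field_simp
    norm_num
  rw [h3] at h2
  have h4 : (16 : ℝ) / 2 ^ m = 8 * (2 / 2 ^ m) := by ring
  rw [h4]
  linarith

theorem num_Po1 (K : ℕ) : ∀ᶠ m : ℕ in atTop,
    68 * (300 * (m : ℝ)) ^ K * (m : ℝ) ^ 2 * Real.exp (-√(m : ℝ) / 30) ≤ 1 := by
  have h1 : Tendsto (fun m : ℕ => √(m : ℝ) / 30) atTop atTop :=
    (Real.tendsto_sqrt_atTop.comp tendsto_natCast_atTop_atTop).atTop_div_const (by norm_num)
  have h2 := ((Real.tendsto_pow_mul_exp_neg_atTop_nhds_zero (2 * (K + 2))).comp h1).const_mul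
    (68 * 300 ^ K * 900 ^ (K + 2))
  rw [mul_zero] at h2
  filter_upwards [h2.eventually (ge_mem_nhds one_pos)] with m hm
  refine le_of_eq_of_le ?_ hm
  have e : (√(m : ℝ) / 30) ^ 2 = m / 900 := by
    rw [div_pow, Real.sq_sqrt (Nat.cast_nonneg m)]
    norm_num
  simp only [Function.comp]
  rw [pow_mul, e, neg_div, div_pow, mul_pow]
  field_simp
  ring

theorem two_Po1 (m : ℕ) : 1 / (2 : ℝ) ^ m ≤ Real.exp (-√(m : ℝ) / 30) := by
  have h1 : √(m : ℝ) ≤ m := by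
    rcases Nat.eq_zero_or_pos m with rfl | hm
    · simp
    have : (1 : ℝ) ≤ m := by exact_mod_cast hm
    rw [Real.sqrt_le_left (by linarith)]
    nlinarith
  have h2 : (1 : ℝ) / 2 < Real.log 2 := by
    have := Real.log_two_gt_d9
    linarith
  have h3 : (0 : ℝ) ≤ m := Nat.cast_nonneg m
  have h4 : 1 / (2 : ℝ) ^ m = Real.exp (-(m * Real.log 2)) := by
    rw [Real.exp_neg, Real.exp_nat_mul, Real.exp_log (by norm_num), one_div]
  rw [h4]
  refine Real.exp_le_exp.2 ?_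
  nlinarith

theorem log_Po1 (m : ℕ) (hm : 1 ≤ m) :
    3 + 2 * Real.log (((2 * 2 ^ (100 * m) : ℕ) : ℝ) + 1) ≤ 300 * m := by
  have h0 : (1 : ℝ) ≤ 2 ^ (100 * m) := one_le_pow₀ (by norm_num)
  have h1 : ((2 * 2 ^ (100 * m) : ℕ) : ℝ) + 1 ≤ 2 ^ (100 * m + 2) := by
    push_cast
    rw [pow_add]
    linarith
  have h2 := Real.log_le_log (by positivity) h1
  rw [Real.log_pow] at h2
  have h3 : Real.log 2 ≤ 1 := by
    have := Real.log_two_lt_d9
    linarith
  have h4 : (1 : ℝ) ≤ m := by exact_mod_cast hm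
  push_cast at h2 ⊢
  nlinarith

def Good_Po1 (m : ℕ) (Φ : Finset ℕ) (q : ℕ) : Prop := ∀ p ∈ nd (2 ^ m) q, p ∉ Φ ∧ ¬ Rsv p

theorem sPo1 (hA : StAn) : StPo1 := by
  classical
  intro K g
  filter_upwards [num_Po1 K, eventually_ge_atTop 2] with m hnum hm Q Φ hQ hc hT
  have hm' : (2 : ℝ) ≤ m := by exact_mod_cast hm
  set X : ℕ := 2 * 2 ^ (100 * m) with hX
  set A := Φ.filter fun p => 2 ^ m < p with hAd
  set B := (Ioc (2 ^ m) X).filter Rsv with hBd
  have hB : ∑ p ∈ B, (1 / p : ℝ) ≤ 16 / 2 ^ m := sum_Po1 m hm B fun p hp =>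
    ⟨(mem_filter.1 hp).2, (mem_Ioc.1 (mem_filter.1 hp).1).1⟩
  have hAB : ∑ p ∈ A ∪ B, (1 / p : ℝ) ≤ 17 * Real.exp (-√(m : ℝ) / 30) := by
    have e := sum_union_inter (s₁ := A) (s₂ := B) (f := fun p : ℕ => (1 / p : ℝ))
    have e0 : 0 ≤ ∑ p ∈ A ∩ B, (1 / p : ℝ) := sum_nonneg fun _ _ => by positivity
    have e1 := two_Po1 m
    have e2 : (16 : ℝ) / 2 ^ m = 16 * (1 / 2 ^ m) := by ring
    have e3 : ∑ p ∈ A, (1 / p : ℝ) ≤ Real.exp (-√(m : ℝ) / 30) := hT
    linarith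
  have hpos : ∀ p ∈ A ∪ B, 1 ≤ p := by
    intro p hp
    have h0 : 0 < 2 ^ m := by positivity
    rcases mem_union.1 hp with h | h
    · have := (mem_filter.1 h).2
      omega
    · have := (mem_Ioc.1 (mem_filter.1 h).1).1
      omega
  have hsub : Q.filter (fun q => ¬ Good_Po1 m Φ q) ⊆
      (A ∪ B).biUnion fun p => (Icc 1 X).filter fun u => Sh K (2 ^ m) u ∧ p ∈ nd (2 ^ m) u := by
    intro q hq
    obtain ⟨hq1, hq2⟩ := mem_filter.1 hq
    have hn := hQ q hq1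
    unfold Good_Po1 at hq2
    push Not at hq2
    obtain ⟨p, hp, hp2⟩ := hq2
    have h1 : 2 ^ m < p :=
      lt_of_le_of_lt (Nat.pow_le_pow_right (by norm_num) (Nat.le_add_right _ _)) (hn.gap p hp)
    refine mem_biUnion.2 ⟨p, ?_, mem_filter.2 ⟨mem_Icc.2 ⟨hn.prime.one_le, hn.hi⟩, hn.sh, hp⟩⟩
    by_cases hΦ : p ∈ Φ
    · exact mem_union_left _ (mem_filter.2 ⟨hΦ, h1⟩)
    · exact mem_union_right _
        (mem_filter.2 ⟨mem_Ioc.2 ⟨h1, (le_of_mem_nd hp).trans hn.hi⟩, hp2 hΦ⟩)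
  have hL0 : 0 ≤ 3 + 2 * Real.log ((X : ℝ) + 1) := by
    have : 0 ≤ Real.log ((X : ℝ) + 1) := Real.log_nonneg (by linarith [Nat.cast_nonneg (α := ℝ) X])
    linarith
  have hL : (3 + 2 * Real.log ((X : ℝ) + 1)) ^ K ≤ (300 * (m : ℝ)) ^ K :=
    pow_le_pow_left₀ hL0 (log_Po1 m (by omega)) K
  have hrem : ((Q.filter fun q => ¬ Good_Po1 m Φ q).card : ℝ) ≤
      X * (300 * (m : ℝ)) ^ K * (17 * Real.exp (-√(m : ℝ) / 30)) := by
    have h1 : ((Q.filter fun q => ¬ Good_Po1 m Φ q).card : ℝ) ≤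
        ∑ p ∈ A ∪ B,
          (((Icc 1 X).filter fun u => Sh K (2 ^ m) u ∧ p ∈ nd (2 ^ m) u).card : ℝ) := by
      exact_mod_cast (card_le_card hsub).trans card_biUnion_le
    have h2 : ∀ p ∈ A ∪ B,
        (((Icc 1 X).filter fun u => Sh K (2 ^ m) u ∧ p ∈ nd (2 ^ m) u).card : ℝ) ≤
          X * (300 * (m : ℝ)) ^ K * (1 / p) := by
      intro p hp
      refine ((hA K (2 ^ m) X p (hpos p hp)).2).trans ?_
      rw [mul_one_div]
      exact div_le_div_of_nonneg_right (mul_le_mul_of_nonneg_left hL (Nat.cast_nonneg X))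
        (Nat.cast_nonneg p)
    refine h1.trans ((sum_le_sum h2).trans ?_)
    rw [← mul_sum]
    exact mul_le_mul_of_nonneg_left hAB (by positivity)
  refine ⟨Q.filter fun q => Good_Po1 m Φ q, filter_subset _ _, ?_,
    fun q hq => (mem_filter.1 hq).2⟩
  have hsplit : ((Q.filter fun q => Good_Po1 m Φ q).card : ℝ) +
      (Q.filter fun q => ¬ Good_Po1 m Φ q).card = Q.card := by
    exact_mod_cast card_filter_add_card_filter_not _
  have hX' : (X : ℝ) = 2 * 2 ^ (100 * m) := by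
    rw [hX]
    push_cast
    ring
  have hfin : X * (300 * (m : ℝ)) ^ K * (17 * Real.exp (-√(m : ℝ) / 30)) ≤
      2 ^ (100 * m) / (2 * (m : ℝ) ^ 2) := by
    rw [le_div_iff₀ (by positivity), hX']
    have := mul_le_mul_of_nonneg_left hnum (show (0 : ℝ) ≤ 2 ^ (100 * m) by positivity)
    linarith
  have hh : (2 : ℝ) ^ (100 * m) / (m : ℝ) ^ 2 = 2 * (2 ^ (100 * m) / (2 * (m : ℝ) ^ 2)) := by
    field_simp
  linarith

end Pool.Agent.MP_2876a2_nt.Tu.Z

end

noncomputable section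
open Finset Filter
open scoped Pointwise


namespace Pool.Agent.MP_2876a2_nt.Tu.Z

theorem keys_Po2 (R n : ℕ) :
    (((range R).powerset).filter fun k => k.card ≤ n).card ≤ (R + 1) ^ n := by
  have h1 : (((range R).powerset).filter fun k => k.card ≤ n) ⊆
      (range (n + 1)).biUnion fun i => powersetCard i (range R) := by
    intro k hk
    rw [mem_filter, mem_powerset] at hk
    exact mem_biUnion.2 ⟨k.card, mem_range.2 (Nat.lt_succ_of_le hk.2), mem_powersetCard.2 ⟨hk.1, rfl⟩⟩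
  refine (card_le_card h1).trans (card_biUnion_le.trans ?_)
  rw [add_pow]
  refine sum_le_sum fun i hi => ?_
  rw [card_powersetCard, card_range, one_pow, mul_one, Nat.cast_id]
  have h2 : 1 ≤ n.choose i := Nat.choose_pos (Nat.le_of_lt_succ (mem_range.1 hi))
  exact (Nat.choose_le_pow R i).trans (Nat.le_mul_of_pos_right _ h2)

theorem cls_Po2 (R r X : ℕ) (hR : 0 < R) (S : Finset ℕ)
    (hS : ∀ p ∈ S, R ≤ p ∧ p ≤ X ∧ p % R = r) :
    ∑ p ∈ S, (1 / p : ℝ) ≤ (1 + Real.log X) / R := by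
  have hR' : (0 : ℝ) < R := by exact_mod_cast hR
  have hinj : Set.InjOn (fun p => p / R) (S : Set ℕ) := by
    intro a ha b hb hab
    have h1 := Nat.div_add_mod a R
    have h2 := Nat.div_add_mod b R
    have h3 := (hS a ha).2.2
    have h4 := (hS b hb).2.2
    simp only at hab
    rw [← h1, ← h2, hab, h3, h4]
  have h1 : ∑ p ∈ S, (1 / p : ℝ) ≤ ∑ p ∈ S, ((p / R : ℕ) : ℝ)⁻¹ / R := by
    refine sum_le_sum fun p hp => ?_
    have h2 : 0 < p / R := Nat.div_pos (hS p hp).1 hR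
    have h2' : (0 : ℝ) < (p / R : ℕ) := by exact_mod_cast h2
    have h3 : ((p / R : ℕ) : ℝ) * R ≤ p := by exact_mod_cast Nat.div_mul_le_self p R
    rw [div_eq_mul_inv _ (R : ℝ), ← mul_inv, one_div]
    exact inv_anti₀ (mul_pos h2' hR') h3
  refine h1.trans ?_
  rw [← sum_div]
  refine div_le_div_of_nonneg_right ?_ hR'.le
  rw [← sum_image (f := fun t : ℕ => ((t : ℕ) : ℝ)⁻¹) hinj]
  have h4 : S.image (fun p => p / R) ⊆ Icc 1 X := by
    intro t ht
    obtain ⟨p, hp, rfl⟩ := mem_image.1 ht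
    exact mem_Icc.2 ⟨Nat.div_pos (hS p hp).1 hR, (Nat.div_le_self p R).trans (hS p hp).2.1⟩
  refine (sum_le_sum_of_subset_of_nonneg h4 fun t _ _ => by positivity).trans ?_
  have h5 := harmonic_le_one_add_log X
  rw [harmonic_eq_sum_Icc] at h5
  push_cast at h5
  exact h5

theorem sq_Po2 : Tendsto Nat.sqrt atTop atTop :=
  tendsto_atTop_atTop.2 fun a => ⟨a ^ 2, fun _ h => Nat.le_sqrt'.2 h⟩

theorem n1_Po2 (n g : ℕ) (hg : 1 ≤ g) : ∀ᶠ m : ℕ in atTop,
    2 * m ^ 2 * (2 ^ Nat.sqrt m + 1) ^ n ≤ 2 ^ (m / g) := by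
  filter_upwards [sq_Po2.eventually (eventually_ge_atTop (g * (5 + 2 * n) + 1))] with m hm
  set s := Nat.sqrt m with hs
  have h1 : m < (s + 1) ^ 2 := Nat.lt_succ_sqrt' m
  have h2 : s ^ 2 ≤ m := Nat.sqrt_le' m
  have h3 : s + 1 ≤ 2 ^ s := Nat.lt_two_pow_self
  have h4 : m ≤ (2 ^ s) ^ 2 := h1.le.trans (Nat.pow_le_pow_left h3 2)
  have h5 : 2 ^ s + 1 ≤ 2 ^ (s + 1) := by
    have : 1 ≤ 2 ^ s := Nat.one_le_two_pow
    rw [pow_succ]; omega
  have h6 : 1 + 4 * s + (s + 1) * n ≤ m / g := by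
    rw [Nat.le_div_iff_mul_le (by omega)]
    have hs1 : 1 ≤ s := by omega
    have h7 : 1 + 4 * s + (s + 1) * n ≤ s * (5 + 2 * n) := by nlinarith
    calc (1 + 4 * s + (s + 1) * n) * g ≤ s * (5 + 2 * n) * g := Nat.mul_le_mul_right _ h7
      _ = s * (g * (5 + 2 * n)) := by ring
      _ ≤ s * s := Nat.mul_le_mul_left _ (by omega)
      _ ≤ m := by rw [← pow_two]; exact h2
  calc 2 * m ^ 2 * (2 ^ s + 1) ^ n ≤ 2 * ((2 ^ s) ^ 2) ^ 2 * (2 ^ (s + 1)) ^ n :=
        Nat.mul_le_mul (Nat.mul_le_mul_left _ (Nat.pow_le_pow_left h4 2)) (Nat.pow_le_pow_left h5 n)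
    _ = 2 ^ (1 + 4 * s + (s + 1) * n) := by
        rw [← pow_mul, ← pow_mul, ← pow_mul, pow_add, pow_add, pow_one]
        congr 3
        ring
    _ ≤ 2 ^ (m / g) := Nat.pow_le_pow_right (by norm_num) h6

theorem n2_Po2 (n : ℕ) (hn : 1 ≤ n) : ∀ᶠ m : ℕ in atTop,
    (n : ℝ) * ((1 + 101 * m) / 2 ^ Nat.sqrt m) ≤ Real.exp (-√(m : ℝ) / 2) := by
  have hn' : (0 : ℝ) < n := by exact_mod_cast hn
  have h0 := tendsto_pow_const_div_const_pow_of_one_lt 2 (r := 40 / 33) (by norm_num)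
  have h1 := (h0.comp ((tendsto_add_atTop_nat 1).comp sq_Po2)).eventually
    (eventually_le_nhds (show (0 : ℝ) < 1 / (204 * n) by positivity))
  filter_upwards [h1] with m hm
  simp only [Function.comp] at hm
  set t := Nat.sqrt m + 1 with ht
  have h2 : (m : ℝ) + 1 ≤ (t : ℝ) ^ 2 := by exact_mod_cast Nat.lt_succ_sqrt' m
  have hm0 : (0 : ℝ) ≤ m := Nat.cast_nonneg m
  have h3 : √(m : ℝ) ≤ t := Real.sqrt_le_iff.2 ⟨Nat.cast_nonneg t, by linarith⟩
  have hE : Real.exp (1 / 2) ≤ 33 / 20 := by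
    have h4 : Real.exp (1 / 2) ^ 2 = Real.exp 1 := by rw [← Real.exp_nat_mul]; norm_num
    have h5 := Real.exp_one_lt_d9
    exact le_of_lt (lt_of_pow_lt_pow_left₀ 2 (by norm_num) (by rw [h4]; linarith))
  have h6 : Real.exp (√(m : ℝ) / 2) ≤ (33 / 20) ^ t := by
    calc Real.exp (√(m : ℝ) / 2) ≤ Real.exp (t * (1 / 2)) := Real.exp_le_exp.2 (by linarith)
      _ = Real.exp (1 / 2) ^ t := Real.exp_nat_mul _ _
      _ ≤ (33 / 20) ^ t := pow_le_pow_left₀ (Real.exp_pos _).le hE t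
  rw [div_le_div_iff₀ (by positivity) (by positivity), one_mul] at hm
  have h7 : ((40 : ℝ) / 33) ^ t * (33 / 20) ^ t = 2 * 2 ^ Nat.sqrt m := by
    rw [← mul_pow, ht, pow_succ]; norm_num; ring
  rw [neg_div, Real.exp_neg, ← mul_div_assoc, ← one_div,
    div_le_div_iff₀ (by positivity) (Real.exp_pos _), one_mul]
  have h8 : (n : ℝ) * (1 + 101 * m) ≤ (40 / 33) ^ t / 2 := by nlinarith
  calc (n : ℝ) * (1 + 101 * m) * Real.exp (√(m : ℝ) / 2) ≤ (40 / 33) ^ t / 2 * (33 / 20) ^ t :=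
        mul_le_mul h8 h6 (Real.exp_pos _).le (by positivity)
    _ = 2 ^ Nat.sqrt m := by linarith

theorem sPo2 (hC : StCard) : StPo2 := by
  classical
  intro K g hg
  have hn : 1 ≤ 102 ^ K := Nat.one_le_pow _ _ (by norm_num)
  filter_upwards [n1_Po2 (102 ^ K) g hg, n2_Po2 (102 ^ K) hn, eventually_ge_atTop 2]
    with m h1 h2 hm Q hQ hc
  set R := 2 ^ Nat.sqrt m with hR
  have hR0 : 0 < R := by positivity
  have hRm : R ≤ 2 ^ m := Nat.pow_le_pow_right (by norm_num) (Nat.sqrt_le_self m)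
  have hq : ∀ q ∈ Q, q < 2 ^ (101 * m) := fun q hq => by
    refine (hQ q hq).hi.trans_lt ?_
    rw [← pow_succ']
    exact Nat.pow_lt_pow_right (by norm_num) (by omega)
  set key : ℕ → Finset ℕ := fun q => (nd (2 ^ m) q).image fun p => p % R with hkey
  set T := ((range R).powerset).filter fun k => k.card ≤ 102 ^ K with hT
  have hmap : ∀ q ∈ Q, key q ∈ T := fun q h => by
    refine mem_filter.2 ⟨mem_powerset.2 fun x hx => ?_, card_image_le.trans ?_⟩
    · obtain ⟨p, -, rfl⟩ := mem_image.1 hx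
      exact mem_range.2 (Nat.mod_lt _ hR0)
    · refine hC K (2 ^ m) q ?_ ?_ (hQ q h).sh
      · exact Nat.le_self_pow (by omega) 2
      · rw [← pow_mul, mul_comm]; exact hq q h
  have hTne : T.Nonempty := ⟨∅, mem_filter.2 ⟨empty_mem_powerset _, Nat.zero_le _⟩⟩
  obtain ⟨k, hk, hmax⟩ := exists_max_image T (fun k => (Q.filter fun q => key q = k).card) hTne
  have hQc : Q.card ≤ (R + 1) ^ (102 ^ K) * (Q.filter fun q => key q = k).card := by
    rw [card_eq_sum_card_fiberwise hmap]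
    refine (sum_le_card_nsmul _ _ _ hmax).trans ?_
    rw [smul_eq_mul]
    exact Nat.mul_le_mul_right _ (keys_Po2 R _)
  have hrange : ∀ p ∈ (Q.filter fun q => key q = k).biUnion (nd (2 ^ m)),
      (2 ^ m < p ∧ p ≤ 2 ^ (101 * m)) ∧ p % R ∈ k := by
    intro p hp
    obtain ⟨q, hq1, hp1⟩ := mem_biUnion.1 hp
    obtain ⟨hq2, hq3⟩ := mem_filter.1 hq1
    refine ⟨⟨lt_of_le_of_lt ?_ ((hQ q hq2).gap p hp1), (le_of_mem_nd hp1).trans (hq q hq2).le⟩, ?_⟩
    · exact Nat.pow_le_pow_right (by norm_num) (Nat.le_add_right _ _)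
    · rw [← hq3]
      exact mem_image_of_mem _ hp1
  refine ⟨Q.filter fun q => key q = k, filter_subset _ _, ?_, fun p hp => (hrange p hp).1, ?_⟩
  · have hm' : (0 : ℝ) < m := by exact_mod_cast (by omega : 0 < m)
    rw [div_le_iff₀ (by positivity)] at hc
    have h3 : 2 ^ (100 * m) ≤ Q.card * (2 * m ^ 2) := by exact_mod_cast hc
    calc 2 ^ (100 * m) ≤ Q.card * (2 * m ^ 2) := h3
      _ ≤ (R + 1) ^ (102 ^ K) * (Q.filter fun q => key q = k).card * (2 * m ^ 2) :=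
          Nat.mul_le_mul_right _ hQc
      _ = (Q.filter fun q => key q = k).card * (2 * m ^ 2 * (R + 1) ^ (102 ^ K)) := by ring
      _ ≤ _ := Nat.mul_le_mul_left _ h1
  · rw [← sum_fiberwise_of_maps_to (g := fun p => p % R) fun p hp => (hrange p hp).2]
    have hlog : Real.log ((2 ^ (101 * m) : ℕ) : ℝ) ≤ 101 * m := by
      rw [Nat.cast_pow, Real.log_pow]
      have h4 : Real.log ((2 : ℕ) : ℝ) ≤ 1 := by
        have := Real.log_two_lt_d9
        push_cast; linarith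
      have h5 : (0 : ℝ) ≤ ((101 * m : ℕ) : ℝ) := Nat.cast_nonneg _
      have h6 := mul_le_mul_of_nonneg_left h4 h5
      push_cast at h6 ⊢
      linarith
    have hb : ∀ r ∈ k, ∑ p ∈ ((Q.filter fun q => key q = k).biUnion (nd (2 ^ m))).filter
        (fun p => p % R = r), (1 / p : ℝ) ≤ (1 + 101 * m) / 2 ^ Nat.sqrt m := by
      intro r _
      refine (cls_Po2 R r (2 ^ (101 * m)) hR0 _ fun p hp => ?_).trans ?_
      · obtain ⟨hp1, hp2⟩ := mem_filter.1 hp
        exact ⟨hRm.trans (hrange p hp1).1.1.le, (hrange p hp1).1.2, hp2⟩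
      · have h7 : (R : ℝ) = 2 ^ Nat.sqrt m := by rw [hR]; push_cast; rfl
        rw [h7]
        refine div_le_div_of_nonneg_right ?_ (by positivity)
        linarith
    refine (sum_le_card_nsmul _ _ _ hb).trans ?_
    rw [nsmul_eq_mul]
    refine le_trans (mul_le_mul_of_nonneg_right ?_ (by positivity)) h2
    exact_mod_cast (mem_filter.1 hk).2

end Pool.Agent.MP_2876a2_nt.Tu.Z

end

noncomputable section
open Finset Filter
open scoped Pointwise


namespace Pool.Agent.MP_2876a2_nt.Tu.Z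

open Classical in
theorem step_Gr {P : Finset ℕ} {nb : ℕ → Finset ℕ} {Δ : ℕ}
    (h : ∀ q ∈ P, (nb q).Nonempty ∧ (P.filter fun q' => ¬ Disjoint (nb q) (nb q')).card ≤ Δ)
    (i : ℕ) : ((P.powersetCard i).filter (PD nb)).card * (P.card - i * Δ) ≤
      ((P.powersetCard (i + 1)).filter (PD nb)).card * (i + 1) := by
  refine card_mul_le_card_mul (fun b c => b ⊆ c) (fun b hb => ?_) fun c hc => ?_
  · obtain ⟨hb1, hb2⟩ := mem_filter.1 hb
    obtain ⟨hbP, hbi⟩ := mem_powersetCard.1 hb1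
    have hn : ∀ q ∈ P.filter (fun q => ∀ q' ∈ b, Disjoint (nb q') (nb q)), q ∉ b := by
      intro q hq hqb
      obtain ⟨h1, h2⟩ := mem_filter.1 hq
      exact (h q h1).1.ne_empty (disjoint_self.1 (h2 q hqb))
    have h1 : (P.filter fun q => ¬ ∀ q' ∈ b, Disjoint (nb q') (nb q)).card ≤ i * Δ := by
      refine (card_le_card (t := b.biUnion fun q' => P.filter fun q => ¬ Disjoint (nb q') (nb q))
        fun q hq => ?_).trans (hbi ▸ card_biUnion_le_card_mul _ _ _ fun q hq => (h q (hbP hq)).2)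
      obtain ⟨h1, h2⟩ := mem_filter.1 hq
      push Not at h2
      obtain ⟨q', a, a'⟩ := h2
      exact mem_biUnion.2 ⟨q', a, mem_filter.2 ⟨h1, a'⟩⟩
    have h2 := card_filter_add_card_filter_not (s := P) fun q => ∀ q' ∈ b, Disjoint (nb q') (nb q)
    refine le_trans (by omega) (card_le_card_of_injOn
      (s := P.filter fun q => ∀ q' ∈ b, Disjoint (nb q') (nb q)) (fun q => insert q b)
      (fun q hq => ?_) fun q hq q' _ e => ?_)
    · obtain ⟨a, a'⟩ := mem_filter.1 hq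
      refine mem_coe.2 (mem_bipartiteAbove _ |>.2 ⟨mem_filter.2 ⟨mem_powersetCard.2
        ⟨insert_subset a hbP, by rw [card_insert_of_notMem (hn q hq), hbi]⟩,
        fun x hx y hy hne => ?_⟩, subset_insert _ _⟩)
      rcases mem_insert.1 hx with rfl | hx' <;> rcases mem_insert.1 hy with rfl | hy'
      exacts [absurd rfl hne, (a' y hy').symm, a' x hx', hb2 x hx' y hy' hne]
    · have : q ∈ insert q' b := (show insert q b = insert q' b from e) ▸ mem_insert_self q b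
      exact (mem_insert.1 this).resolve_right (hn q hq)
  · have hc' := (mem_powersetCard.1 (mem_filter.1 hc).1).2
    refine (card_le_card (t := c.powersetCard i) fun b hb => ?_).trans ?_
    · obtain ⟨a, a'⟩ := (mem_bipartiteBelow _).1 hb
      exact mem_powersetCard.2 ⟨a', (mem_powersetCard.1 (mem_filter.1 a).1).2⟩
    · rw [card_powersetCard, hc', Nat.choose_succ_self_right]

open Classical in
theorem sGr : StGr := by
  intro P nb r Δ h hr
  have k : ∀ i ≤ r, P.card ^ i ≤ (2 * r) ^ i * ((P.powersetCard i).filter (PD nb)).card := by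
    intro i hi
    induction i with
    | zero =>
      rw [pow_zero, pow_zero, one_mul]
      exact card_pos.2 ⟨∅, mem_filter.2 ⟨by simp, fun q hq => absurd hq (notMem_empty q)⟩⟩
    | succ i ih =>
      have h1 := step_Gr h i
      have h2 : P.card ≤ 2 * (P.card - i * Δ) := by
        have := Nat.mul_le_mul_right Δ (show i ≤ r by omega)
        rw [mul_assoc] at hr
        omega
      have h3 := ih (by omega)
      generalize ((P.powersetCard i).filter (PD nb)).card = a at h1 h3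
      generalize ((P.powersetCard (i + 1)).filter (PD nb)).card = b at h1 ⊢
      calc P.card ^ (i + 1) ≤ (2 * r) ^ i * a * (2 * (P.card - i * Δ)) :=
            pow_succ P.card i ▸ Nat.mul_le_mul h3 h2
        _ = (2 * r) ^ i * 2 * (a * (P.card - i * Δ)) := by ring
        _ ≤ (2 * r) ^ i * 2 * (b * r) :=
            Nat.mul_le_mul_left _ (h1.trans (Nat.mul_le_mul_left _ hi))
        _ = _ := by ring
  exact k r le_rfl

end Pool.Agent.MP_2876a2_nt.Tu.Z

end

noncomputable section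
open Finset Filter
open scoped Pointwise


namespace Pool.Agent.MP_2876a2_nt.Tu.Z

theorem ev_Az (K g : ℕ) (hg : 1 ≤ g) :
    ∀ᶠ m : ℕ in atTop, 2 * (300 * (m : ℝ)) ^ K ≤ 2 ^ (m / g) := by
  have hg' : (0 : ℝ) < g := by exact_mod_cast hg
  have hc : (0 : ℝ) < 1 / (2 * (600 * (g : ℝ)) ^ K) := by positivity
  have h1 := (tendsto_pow_const_div_const_pow_of_one_lt K
    (show (1 : ℝ) < 2 by norm_num)).eventually (gt_mem_nhds hc)
  have h2 := (Nat.tendsto_div_const_atTop (show g ≠ 0 by omega)).eventually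
    (h1.and (eventually_ge_atTop 1))
  filter_upwards [h2] with m hm
  obtain ⟨ha, hb⟩ := hm
  have h3 : m ≤ 2 * g * (m / g) := by
    have h4 := Nat.div_add_mod m g
    have h5 := Nat.mod_lt m (show g > 0 by omega)
    have h6 : g * 1 ≤ g * (m / g) := Nat.mul_le_mul_left _ hb
    have h7 : 2 * g * (m / g) = g * (m / g) + g * (m / g) := by ring
    omega
  have h4 : (300 * (m : ℝ)) ≤ 600 * g * ((m / g : ℕ) : ℝ) := by
    have : (m : ℝ) ≤ 2 * g * ((m / g : ℕ) : ℝ) := by exact_mod_cast h3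
    linarith
  have h5 : (300 * (m : ℝ)) ^ K ≤ (600 * (g : ℝ)) ^ K * ((m / g : ℕ) : ℝ) ^ K := by
    rw [← mul_pow]
    exact pow_le_pow_left₀ (by positivity) h4 K
  rw [div_lt_div_iff₀ (by positivity) (by positivity)] at ha
  nlinarith

theorem lg_Az (m : ℕ) (hm : 1 ≤ m) :
    3 + 2 * Real.log (((2 * 2 ^ (100 * m) : ℕ) : ℝ) + 1) ≤ 300 * (m : ℝ) := by
  have h0 : (1 : ℝ) ≤ 2 ^ (100 * m) := one_le_pow₀ (by norm_num)
  have h1 : (((2 * 2 ^ (100 * m) : ℕ) : ℝ) + 1) ≤ 2 ^ (100 * m + 2) := by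
    push_cast
    rw [pow_add]
    linarith
  have h2 := Real.log_le_log (by positivity) h1
  rw [Real.log_pow] at h2
  have h3 : Real.log 2 ≤ 1 := by
    have := Real.log_two_lt_d9
    linarith
  have h4 : ((100 * m + 2 : ℕ) : ℝ) * Real.log 2 ≤ ((100 * m + 2 : ℕ) : ℝ) * 1 :=
    mul_le_mul_of_nonneg_left h3 (by positivity)
  have h5 : (1 : ℝ) ≤ m := by exact_mod_cast hm
  push_cast at h2 h4 ⊢
  linarith

theorem sAz (hA : StAn) : StAz := by
  classical
  intro K g hg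
  filter_upwards [ev_Az K g (by omega), eventually_ge_atTop 1] with m h1 hm P hP p
  by_cases hp : p ≤ 2 ^ (m + 8 * (m / g))
  · have : (P.filter fun q => p ∈ nd (2 ^ m) q) = ∅ := by
      refine filter_eq_empty_iff.2 fun q hq hn => ?_
      have := (hP q hq).gap p hn
      omega
    rw [this]
    simp
  push Not at hp
  have hp1 : 1 ≤ p := lt_of_le_of_lt (Nat.zero_le _) hp
  have h2 := (hA K (2 ^ m) (2 * 2 ^ (100 * m)) p hp1).2
  have hs : (P.filter fun q => p ∈ nd (2 ^ m) q) ⊆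
      (Icc 1 (2 * 2 ^ (100 * m))).filter fun u => Sh K (2 ^ m) u ∧ p ∈ nd (2 ^ m) u := by
    intro q hq
    obtain ⟨hq1, hq2⟩ := mem_filter.1 hq
    have hn := hP q hq1
    exact mem_filter.2 ⟨mem_Icc.2 ⟨hn.prime.one_le, hn.hi⟩, hn.sh, hq2⟩
  have h3 : ((P.filter fun q => p ∈ nd (2 ^ m) q).card : ℝ) ≤ _ :=
    le_trans (Nat.cast_le.2 (card_le_card hs)) h2
  have hpr : (2 : ℝ) ^ (m + 8 * (m / g)) ≤ p := by exact_mod_cast hp.le
  have hp0 : (0 : ℝ) < p := lt_of_lt_of_le (by positivity) hpr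
  have hl0 : (0 : ℝ) ≤ 3 + 2 * Real.log (((2 * 2 ^ (100 * m) : ℕ) : ℝ) + 1) := by
    have := Real.log_nonneg (x := ((2 * 2 ^ (100 * m) : ℕ) : ℝ) + 1) (by
      have : (0 : ℝ) ≤ ((2 * 2 ^ (100 * m) : ℕ) : ℝ) := Nat.cast_nonneg _
      linarith)
    linarith
  have h4 := pow_le_pow_left₀ hl0 (lg_Az m hm) K
  have hd : m / g ≤ m := Nat.div_le_self _ _
  have he : (2 : ℝ) ^ (99 * m - 7 * (m / g)) * 2 ^ (m + 8 * (m / g)) =
      2 ^ (100 * m) * 2 ^ (m / g) := by
    rw [← pow_add, ← pow_add]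
    congr 1
    omega
  have h5 : ((P.filter fun q => p ∈ nd (2 ^ m) q).card : ℝ) ≤ 2 ^ (99 * m - 7 * (m / g)) := by
    refine h3.trans ?_
    rw [div_le_iff₀ hp0]
    have h6 : (2 : ℝ) ^ (99 * m - 7 * (m / g)) * 2 ^ (m + 8 * (m / g)) ≤
        2 ^ (99 * m - 7 * (m / g)) * p := mul_le_mul_of_nonneg_left hpr (by positivity)
    have h7 : (2 : ℝ) ^ (100 * m) * (2 * (300 * (m : ℝ)) ^ K) ≤ 2 ^ (100 * m) * 2 ^ (m / g) :=
      mul_le_mul_of_nonneg_left h1 (by positivity)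
    have h8 : ((2 * 2 ^ (100 * m) : ℕ) : ℝ) *
        (3 + 2 * Real.log (((2 * 2 ^ (100 * m) : ℕ) : ℝ) + 1)) ^ K ≤
        ((2 * 2 ^ (100 * m) : ℕ) : ℝ) * (300 * (m : ℝ)) ^ K :=
      mul_le_mul_of_nonneg_left h4 (Nat.cast_nonneg _)
    refine h8.trans ?_
    push_cast
    linarith
  exact_mod_cast h5

end Pool.Agent.MP_2876a2_nt.Tu.Z

end

noncomputable section
open Finset Filter
open scoped Pointwise


namespace Pool.Agent.MP_2876a2_nt.Tu.Z

theorem dq_Fib (hD : StDq) {K g m q : ℕ} (hm : 3 ≤ m) (hK : 102 ^ K ≤ 2 ^ (m + 8 * (m / g)))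
    (h : Nice K g m q) : 0 < Dq (2 ^ m) q ∧ Dq (2 ^ m) q ≤ 2 ^ (101 * m) := by
  obtain ⟨h1, h2⟩ := hD K g m q (by omega) h
  refine ⟨h.prime.pos.trans_le h1, ?_⟩
  have a1 : (102 : ℝ) ^ K / 2 ^ (m + 8 * (m / g)) ≤ 1 := by
    rw [div_le_one (by positivity)]
    exact_mod_cast hK
  have a2 : Real.exp (102 ^ K / 2 ^ (m + 8 * (m / g))) ≤ 3 :=
    (Real.exp_le_exp.2 a1).trans (by linarith [Real.exp_one_lt_d9])
  have a3 : Dq (2 ^ m) q ≤ 3 * q := by
    have := h2.trans (mul_le_mul_of_nonneg_right a2 (Nat.cast_nonneg q))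
    exact_mod_cast this
  have a4 : 2 ^ 3 ≤ 2 ^ m := Nat.pow_le_pow_right two_pos hm
  have a5 : 2 ^ (101 * m) = 2 ^ m * 2 ^ (100 * m) := by
    rw [← pow_add]
    congr 1
    omega
  have a6 := Nat.mul_le_mul_right (2 ^ (100 * m)) a4
  have a7 := h.hi
  omega

theorem sFib (hPsi : StPsi) (hG : StGr) (hA : StAz) (hC : StCard) (hD : StDq) : StFib := by
  classical
  intro K g hg
  have t1 : Tendsto (fun m : ℕ => 2 ^ (m / g)) atTop atTop :=
    (tendsto_pow_atTop_atTop_of_one_lt one_lt_two).comp (Nat.tendsto_div_const_atTop (by omega))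
  filter_upwards [t1.eventually (hPsi (202 * g)), t1.eventually_ge_atTop (2 * 102 ^ K),
    hA K g hg] with m hj hK hAz P hP hc
  have k1 : 1 ≤ 102 ^ K := Nat.one_le_pow _ _ (by norm_num)
  have hdq : ∀ q ∈ P, 3 ≤ m → 102 ^ K ≤ 2 ^ (m + 8 * (m / g)) →
      0 < Dq (2 ^ m) q ∧ Dq (2 ^ m) q ≤ 2 ^ (101 * m) := fun q hq a b => dq_Fib hD a b (hP q hq)
  have hAz' := hAz P hP
  have d1 : g * (m / g) ≤ m := Nat.mul_div_le m g
  have d2 : m < g * (m / g + 1) := Nat.lt_mul_div_succ m (by omega)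
  generalize m / g = h at hj hK hAz' hc hdq d1 d2 ⊢
  have h1 : 1 ≤ h := by
    rcases Nat.eq_zero_or_pos h with rfl | h0
    · omega
    · exact h0
  have h16 : 16 * h ≤ m := (Nat.mul_le_mul_right h hg).trans d1
  have d3 : 101 * m ≤ h * (202 * g) := by
    have := Nat.mul_le_mul_left g h1
    nlinarith
  have hK' : 102 ^ K ≤ 2 ^ (m + 8 * h) :=
    le_trans (by omega) (hK.trans (Nat.pow_le_pow_right two_pos (by omega)))
  have hr1 : 1 ≤ 2 ^ m := Nat.one_le_two_pow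
  have cP : 2 ^ (100 * m - h) ≤ P.card := by
    refine Nat.le_of_mul_le_mul_right ?_ (Nat.two_pow_pos h)
    rwa [← pow_add, Nat.sub_add_cancel (by omega)]
  have z2 : 4 ≤ 2 ^ m := Nat.pow_le_pow_right two_pos (show 2 ≤ m by omega)
  have gr := hG P (nd (2 ^ m)) (2 ^ m) (102 ^ K * 2 ^ (99 * m - 7 * h)) (fun q hq => by
    refine ⟨⟨q, self_mem_nd _ _⟩, ?_⟩
    have c1 : (nd (2 ^ m) q).card ≤ 102 ^ K := by
      refine hC K _ q (by omega) ?_ (hP q hq).sh
      have a1 := (hP q hq).hi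
      have a2 : (2 ^ m) ^ 101 = 2 ^ m * 2 ^ (100 * m) := by
        rw [← pow_mul, ← pow_add]
        congr 1
        omega
      have a3 := Nat.mul_le_mul_right (2 ^ (100 * m)) z2
      have a4 := Nat.two_pow_pos (100 * m)
      omega
    refine le_trans (card_le_card (t := (nd (2 ^ m) q).biUnion fun p =>
      P.filter fun q' => p ∈ nd (2 ^ m) q') fun q' hq' => ?_)
      ((card_biUnion_le_card_mul _ _ _ fun p _ => hAz' p).trans (Nat.mul_le_mul_right _ c1))
    obtain ⟨a1, a2⟩ := mem_filter.1 hq'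
    obtain ⟨p, p1, p2⟩ := not_disjoint_iff.1 a2
    exact mem_biUnion.2 ⟨p, p1, mem_filter.2 ⟨a1, p2⟩⟩) (by
    refine le_trans ?_ cP
    calc 2 * 2 ^ m * (102 ^ K * 2 ^ (99 * m - 7 * h))
        = 2 * 102 ^ K * (2 ^ m * 2 ^ (99 * m - 7 * h)) := by ring
      _ ≤ 2 ^ h * (2 ^ m * 2 ^ (99 * m - 7 * h)) := Nat.mul_le_mul_right _ hK
      _ ≤ _ := by
        rw [← pow_add, ← pow_add]
        exact Nat.pow_le_pow_right two_pos (by omega))
  obtain ⟨S, hS⟩ : ∃ S, S = (P.powersetCard (2 ^ m)).filter (PD (nd (2 ^ m))) := ⟨_, rfl⟩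
  have cS : (2 ^ (99 * m - h - 1)) ^ 2 ^ m ≤ S.card := by
    refine Nat.le_of_mul_le_mul_left (c := (2 * 2 ^ m) ^ 2 ^ m) ?_ (by positivity)
    rw [hS]
    refine le_trans ?_ ((Nat.pow_le_pow_left cP _).trans (by convert gr))
    rw [← mul_pow, ← pow_succ', ← pow_add]
    exact Nat.pow_le_pow_left (Nat.pow_le_pow_right two_pos (by omega)) _
  have hT := hj (2 ^ m) hr1
  have hmaps : ∀ b ∈ S, ∏ q ∈ b, Dq (2 ^ m) q ∈
      (Icc 1 ((2 ^ h) ^ (202 * g * 2 ^ m))).filter fun n => Sm (2 ^ m) n := by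
    intro b hb
    rw [hS] at hb
    obtain ⟨hbP, hbc⟩ := mem_powersetCard.1 (mem_filter.1 hb).1
    refine mem_filter.2 ⟨mem_Icc.2 ⟨Finset.prod_pos fun q hq =>
      (hdq q (hbP hq) (by omega) hK').1, ?_⟩, ?_⟩
    · calc ∏ q ∈ b, Dq (2 ^ m) q ≤ (2 ^ (101 * m)) ^ b.card :=
            Finset.prod_le_pow_card _ _ _ fun q hq => (hdq q (hbP hq) (by omega) hK').2
        _ ≤ (2 ^ (h * (202 * g))) ^ 2 ^ m := by
            rw [hbc]
            exact Nat.pow_le_pow_left (Nat.pow_le_pow_right two_pos d3) _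
        _ = _ := by rw [pow_mul, ← pow_mul (2 ^ h)]
    · intro l hl hd
      obtain ⟨q, hq, hlq⟩ := (Prime.dvd_finsetProd_iff hl.prime _).1 hd
      exact (hP q (hbP hq)).sm l hl hlq
  have hne : ((Icc 1 ((2 ^ h) ^ (202 * g * 2 ^ m))).filter fun n => Sm (2 ^ m) n).Nonempty :=
    ⟨1, mem_filter.2 ⟨mem_Icc.2 ⟨le_rfl, Nat.one_le_pow _ _ (Nat.two_pow_pos h)⟩, fun l hl hd =>
      absurd (Nat.dvd_one.1 hd) hl.ne_one⟩⟩
  have hle : ((Icc 1 ((2 ^ h) ^ (202 * g * 2 ^ m))).filter fun n => Sm (2 ^ m) n).card *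
      2 ^ ((99 * m - 3 * h) * 2 ^ m) ≤ S.card := by
    refine le_trans ?_ cS
    refine (Nat.mul_le_mul_right _ (show _ ≤ (2 ^ h) ^ 2 ^ m by convert hT)).trans ?_
    rw [pow_mul 2 (99 * m - 3 * h), ← mul_pow, ← pow_add]
    exact Nat.pow_le_pow_left (Nat.pow_le_pow_right two_pos (by omega)) _
  obtain ⟨s, -, hs⟩ := Finset.exists_le_card_fiber_of_mul_le_card_of_maps_to hmaps hne hle
  refine ⟨_, s, (filter_subset _ _).trans (hS ▸ filter_subset _ _), hs, fun b hb => ?_⟩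
  obtain ⟨b1, b2⟩ := mem_filter.1 hb
  rw [hS] at b1
  exact ⟨(mem_filter.1 b1).2, b2⟩

end Pool.Agent.MP_2876a2_nt.Tu.Z

end

noncomputable section
open Finset Filter
open scoped Pointwise


namespace Pool.Agent.MP_2876a2_nt.Tu.Z

theorem main_Ns (P Kc : Finset ℕ) (nb : ℕ → Finset ℕ) (F : Finset (Finset ℕ))
    (K1 A R κ : ℕ) (h1 : ∀ q ∈ P, (nb q).card ≤ K1)
    (h2 : ∀ p, (P.filter fun q => p ∈ nb q).card ≤ A) (h3 : ∀ b ∈ F, b ⊆ P)
    (h4 : ∀ J : Finset ℕ, Disjoint J Kc →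
      (F.filter fun b => Kc ∪ J ⊆ b).card * R ^ J.card ≤ (F.filter fun b => Kc ⊆ b).card)
    (h5 : (2 * κ) ^ K1 * A ≤ R) (h6 : 1 ≤ κ) (n : ℕ) :
    ∀ (U J : Finset ℕ), J.card ≤ n → Disjoint U Kc → Disjoint J (U.biUnion nb) →
      (F.filter fun b => Kc ∪ U ⊆ b ∧ J ⊆ (b \ Kc).biUnion nb).card * R ^ U.card * κ ^ J.card ≤
        (F.filter fun b => Kc ⊆ b).card := by
  have base : ∀ U : Finset ℕ, Disjoint U Kc →
      (F.filter fun b => Kc ∪ U ⊆ b ∧ (∅ : Finset ℕ) ⊆ (b \ Kc).biUnion nb).card * R ^ U.card *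
        κ ^ (∅ : Finset ℕ).card ≤ (F.filter fun b => Kc ⊆ b).card := by
    intro U hU
    have := h4 U hU
    simpa using this
  induction n with
  | zero =>
    intro U J hJ hU _
    have : J = ∅ := Finset.card_eq_zero.mp (Nat.le_zero.mp hJ)
    subst this
    exact base U hU
  | succ n ih =>
    intro U J hJ hU hJU
    rcases J.eq_empty_or_nonempty with rfl | ⟨p, hp⟩
    · exact base U hU
    set N := (F.filter fun b => Kc ⊆ b).card with hN
    set Q := (P.filter fun q => p ∈ nb q).filter fun q => q ∉ Kc with hQ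
    have hQA : Q.card ≤ A := (Finset.card_filter_le _ _).trans (h2 p)
    set c : ℕ → ℕ := fun q =>
      (F.filter fun b => Kc ∪ insert q U ⊆ b ∧ J \ nb q ⊆ (b \ Kc).biUnion nb).card with hc
    have hcov : (F.filter fun b => Kc ∪ U ⊆ b ∧ J ⊆ (b \ Kc).biUnion nb).card ≤ ∑ q ∈ Q, c q := by
      refine le_trans (Finset.card_le_card ?_) (Finset.card_biUnion_le (s := Q)
        (t := fun q => F.filter fun b => Kc ∪ insert q U ⊆ b ∧ J \ nb q ⊆ (b \ Kc).biUnion nb))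
      intro b hb
      rw [Finset.mem_filter] at hb
      obtain ⟨hbF, hb1, hb2⟩ := hb
      obtain ⟨q, hq, hpq⟩ := Finset.mem_biUnion.mp (hb2 hp)
      rw [Finset.mem_sdiff] at hq
      refine Finset.mem_biUnion.mpr ⟨q, ?_, ?_⟩
      · simp only [hQ, Finset.mem_filter]
        exact ⟨⟨h3 b hbF hq.1, hpq⟩, hq.2⟩
      · rw [Finset.mem_filter]
        refine ⟨hbF, ?_, (Finset.sdiff_subset).trans hb2⟩
        intro x hx
        rcases Finset.mem_union.mp hx with hx | hx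
        · exact hb1 (Finset.mem_union_left _ hx)
        · rcases Finset.mem_insert.mp hx with rfl | hx
          · exact hq.1
          · exact hb1 (Finset.mem_union_right _ hx)
    have hterm : ∀ q ∈ Q, c q * R ^ U.card * κ ^ J.card * R ≤ N * κ ^ K1 := by
      intro q hq
      simp only [hQ, Finset.mem_filter] at hq
      obtain ⟨⟨hqP, hpq⟩, hqK⟩ := hq
      have hqU : q ∉ U := fun hqU =>
        Finset.disjoint_left.mp hJU hp (Finset.mem_biUnion.mpr ⟨q, hqU, hpq⟩)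
      have hlt : (J \ nb q).card < J.card := by
        refine Finset.card_lt_card ⟨Finset.sdiff_subset, fun h => ?_⟩
        exact (Finset.mem_sdiff.mp (h hp)).2 hpq
      have hd1 : Disjoint (insert q U) Kc := Finset.disjoint_insert_left.mpr ⟨hqK, hU⟩
      have hd2 : Disjoint (J \ nb q) ((insert q U).biUnion nb) := by
        rw [Finset.disjoint_left]
        intro x hx hx2
        rw [Finset.mem_sdiff] at hx
        obtain ⟨r, hr, hxr⟩ := Finset.mem_biUnion.mp hx2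
        rcases Finset.mem_insert.mp hr with rfl | hr
        · exact hx.2 hxr
        · exact Finset.disjoint_left.mp hJU hx.1 (Finset.mem_biUnion.mpr ⟨r, hr, hxr⟩)
      have hi := ih (insert q U) (J \ nb q) (by omega) hd1 hd2
      rw [Finset.card_insert_of_notMem hqU] at hi
      have hJc : J.card ≤ (J \ nb q).card + K1 := by
        have := Finset.le_card_sdiff (nb q) J
        have := h1 q hqP
        omega
      have hk : κ ^ J.card ≤ κ ^ (J \ nb q).card * κ ^ K1 := by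
        rw [← pow_add]
        exact Nat.pow_le_pow_right h6 hJc
      calc c q * R ^ U.card * κ ^ J.card * R
          ≤ c q * R ^ U.card * (κ ^ (J \ nb q).card * κ ^ K1) * R := by gcongr
        _ = c q * R ^ (U.card + 1) * κ ^ (J \ nb q).card * κ ^ K1 := by ring
        _ ≤ N * κ ^ K1 := Nat.mul_le_mul_right _ hi
    have hkA : κ ^ K1 * A ≤ R := by
      refine le_trans (Nat.mul_le_mul_right _ (Nat.pow_le_pow_left ?_ _)) h5
      omega
    rcases Nat.eq_zero_or_pos R with hR | hR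
    · have hpos : 0 < κ ^ K1 := pow_pos h6 _
      have hA : A = 0 := by
        rw [hR] at hkA
        rcases Nat.mul_eq_zero.mp (Nat.le_zero.mp hkA) with h | h
        · omega
        · exact h
      have hQ0 : Q = ∅ := Finset.card_eq_zero.mp (by omega)
      rw [hQ0, Finset.sum_empty] at hcov
      rw [Nat.le_zero.mp hcov]
      simp
    · refine Nat.le_of_mul_le_mul_right ?_ hR
      calc (F.filter fun b => Kc ∪ U ⊆ b ∧ J ⊆ (b \ Kc).biUnion nb).card * R ^ U.card *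
            κ ^ J.card * R
          ≤ (∑ q ∈ Q, c q) * R ^ U.card * κ ^ J.card * R := by gcongr
        _ = ∑ q ∈ Q, c q * R ^ U.card * κ ^ J.card * R := by
            simp only [Finset.sum_mul]
        _ ≤ ∑ _q ∈ Q, N * κ ^ K1 := Finset.sum_le_sum hterm
        _ = Q.card * (N * κ ^ K1) := by simp
        _ ≤ A * (N * κ ^ K1) := Nat.mul_le_mul_right _ hQA
        _ = N * (κ ^ K1 * A) := by ring
        _ ≤ N * R := Nat.mul_le_mul_left _ hkA

theorem sNs : StNs := by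
  intro P Kc nb F K1 A R κ h1 h2 h3 h4 h5 h6 J
  have h := main_Ns P Kc nb F K1 A R κ h1 h2 h3 h4 h5 h6 J.card ∅ J le_rfl (by simp) (by simp)
  rw [Finset.filter_filter]
  simpa using h

end Pool.Agent.MP_2876a2_nt.Tu.Z

end

noncomputable section
open Finset Filter
open scoped Pointwise


namespace Pool.Agent.MP_2876a2_nt.Tu.Z

theorem ins_Un (p : ℝ) {a : ℕ} {Ω : Finset ℕ} (ha : a ∉ Ω) (f : Finset ℕ → ℝ) :
    Ex p (insert a Ω) f = p * Ex p Ω (fun W => f (insert a W)) + (1 - p) * Ex p Ω f := by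
  unfold Ex
  rw [sum_powerset_insert ha, mul_sum, mul_sum, add_comm]
  congr 1
  · refine sum_congr rfl fun W hW => ?_
    have hW' : a ∉ W := fun e => ha (mem_powerset.1 hW e)
    rw [insert_sdiff_insert, sdiff_insert_of_notMem ha, card_insert_of_notMem hW']
    ring
  · refine sum_congr rfl fun W hW => ?_
    have hW' : a ∉ W := fun e => ha (mem_powerset.1 hW e)
    have h2 : a ∉ Ω \ W := fun e => ha (mem_sdiff.1 e).1
    rw [insert_sdiff_of_notMem _ hW', card_insert_of_notMem h2]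
    ring

theorem lin_Un (p a b : ℝ) (Ω : Finset ℕ) (f g : Finset ℕ → ℝ) :
    Ex p Ω (fun W => a * f W + b * g W) = a * Ex p Ω f + b * Ex p Ω g := by
  unfold Ex
  rw [mul_sum, mul_sum, ← sum_add_distrib]
  exact sum_congr rfl fun W _ => by ring

theorem emp_Un (p : ℝ) (f : Finset ℕ → ℝ) : Ex p ∅ f = f ∅ := by
  simp [Ex]

theorem sUn : StUn := by
  refine ⟨fun p p' Ω => ?_, fun p c Ω => ?_⟩
  · induction Ω using Finset.induction_on with
    | empty => intro f; simp only [emp_Un, union_empty]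
    | insert a Ω ha ih =>
      intro f
      rw [ins_Un _ ha, ins_Un _ ha, ih, ih]
      simp only [ins_Un _ ha, insert_union, union_insert, insert_idem]
      rw [lin_Un, lin_Un]
      ring
  · induction Ω using Finset.induction_on with
    | empty => exact emp_Un _ _
    | insert a Ω ha ih =>
      rw [ins_Un _ ha, ih]
      ring

end Pool.Agent.MP_2876a2_nt.Tu.Z

end

noncomputable section
open Finset Filter
open scoped Pointwise


namespace Pool.Agent.MP_2876a2_nt.Tu.Z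

theorem ins_Mg (p : ℝ) {a : ℕ} {Ω : Finset ℕ} (ha : a ∉ Ω) (f : Finset ℕ → ℝ) :
    Ex p (insert a Ω) f = p * Ex p Ω (fun W => f (insert a W)) + (1 - p) * Ex p Ω f := by
  unfold Ex
  rw [sum_powerset_insert ha, add_comm, mul_sum, mul_sum]
  congr 1 <;> refine sum_congr rfl fun W hW => ?_
  · have h : a ∉ W := fun h => ha (mem_powerset.1 hW h)
    rw [insert_sdiff_insert, sdiff_insert_of_notMem ha, card_insert_of_notMem h]
    ring
  · have h : a ∉ W := fun h => ha (mem_powerset.1 hW h)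
    rw [insert_sdiff_of_notMem _ h, card_insert_of_notMem fun h => ha (mem_sdiff.1 h).1]
    ring

theorem sMg : StMg := by
  intro M Ω f hM
  have hM' : (M : ℝ) ≠ 0 := Nat.cast_ne_zero.2 hM.ne'
  induction Ω using Finset.induction_on generalizing f with
  | empty => exact ⟨fun _ => 0, by simp [Ex]⟩
  | insert a Ω ha ih =>
    obtain ⟨A, hA⟩ : ∃ A : ℕ → ℝ, ∀ c, A c = Ex (1 / M) Ω fun W => f c (insert a W) :=
      ⟨_, fun _ => rfl⟩
    obtain ⟨B, hB⟩ : ∃ B : ℕ → ℝ, ∀ c, B c = Ex (1 / M) Ω (f c) := ⟨_, fun _ => rfl⟩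
    obtain ⟨c0, h0, h1⟩ := exists_le_of_sum_le (nonempty_range_iff.2 hM.ne')
      (f := fun c0 => ∑ c ∈ range M, B c + (A c0 - B c0))
      (g := fun _ => ∑ c ∈ range M, (1 / M * A c + (1 - 1 / M) * B c)) (le_of_eq (by
        simp only [sum_add_distrib, sum_sub_distrib, sum_const, card_range, nsmul_eq_mul, ← mul_sum]
        field_simp
        ring))
    obtain ⟨χ, h2⟩ := ih fun c W => if c = c0 then f c (insert a W) else f c W
    refine ⟨Function.update χ a c0, (le_of_eq (sum_congr rfl fun c _ => ?_)).trans (h2.trans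
      ((le_of_eq ?_).trans (h1.trans_eq (sum_congr rfl fun c _ => ?_))))⟩
    · have e : (Ω.filter fun x => Function.update χ a c0 x = c) = Ω.filter fun x => χ x = c :=
        filter_congr fun x hx => by rw [Function.update_of_ne fun h : x = a => ha (h ▸ hx)]
      rw [filter_insert, e, Function.update_self]
      by_cases h : c = c0
      · rw [if_pos h, if_pos h.symm]
      · rw [if_neg h, if_neg (Ne.symm h)]
    · have e : ∀ c, Ex (1 / M) Ω (fun W => if c = c0 then f c (insert a W) else f c W) =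
          B c + if c = c0 then A c - B c else 0 := fun c => by
        by_cases h : c = c0
        · simp only [if_pos h, hA, add_sub_cancel]
        · simp only [if_neg h, hB, add_zero]
      simp only [e]
      rw [sum_add_distrib, sum_ite_eq', if_pos h0]
    · rw [ins_Mg _ ha, hA, hB]

end Pool.Agent.MP_2876a2_nt.Tu.Z

end

noncomputable section
open Finset Filter
open scoped Pointwise


namespace Pool.Agent.MP_2876a2_nt.Tu.Z

/-- the weight of a subset -/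
def P_Rd (p : ℝ) (Ω W : Finset ℕ) : ℝ := p ^ W.card * (1 - p) ^ (Ω \ W).card

theorem P_nonneg_Rd {p : ℝ} (hp : 0 < p) (hp1 : p ≤ 1) (Ω W : Finset ℕ) : 0 ≤ P_Rd p Ω W :=
  mul_nonneg (pow_nonneg hp.le _) (pow_nonneg (sub_nonneg.2 hp1) _)

theorem P_sum_Rd (p : ℝ) (Ω : Finset ℕ) : ∑ W ∈ Ω.powerset, P_Rd p Ω W = 1 := by
  have h := Finset.sum_pow_mul_eq_add_pow p (1 - p) Ω
  rw [show p + (1 - p) = 1 by ring, one_pow] at h
  rw [← h]
  refine sum_congr rfl fun W hW => ?_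
  rw [P_Rd, card_sdiff_of_subset (mem_powerset.1 hW)]

theorem P_le_Rd {p : ℝ} (hp : 0 < p) (hp1 : p ≤ 1) (Ω W U : Finset ℕ) (hd : Disjoint W U) :
    P_Rd p Ω W ≤ P_Rd p Ω (W ∪ U) / p ^ U.card := by
  rw [le_div_iff₀ (pow_pos hp _), P_Rd, P_Rd, card_union_of_disjoint hd, pow_add]
  have h1 : (1 - p) ^ (Ω \ W).card ≤ (1 - p) ^ (Ω \ (W ∪ U)).card :=
    pow_le_pow_of_le_one (sub_nonneg.2 hp1) (by linarith)
      (card_le_card (sdiff_subset_sdiff subset_rfl subset_union_left))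
  have h2 : 0 ≤ p ^ W.card * p ^ U.card := by positivity
  calc p ^ W.card * (1 - p) ^ (Ω \ W).card * p ^ U.card
      = p ^ W.card * p ^ U.card * (1 - p) ^ (Ω \ W).card := by ring
    _ ≤ _ := mul_le_mul_of_nonneg_left h1 h2

theorem inj_Rd {p : ℝ} (hp : 0 < p) (hp1 : p ≤ 1) (Ω Ti : Finset ℕ) (h : ℕ)
    (U hat : Finset ℕ → Finset ℕ) (hΩ : Ti ⊆ Ω) (h1 : ∀ W, U W ⊆ Ti) (h2 : ∀ W, Disjoint W (U W))
    (h3 : ∀ W, U W ⊆ hat (W ∪ U W)) :
    ∑ W ∈ Ω.powerset, (if h ≤ (U W).card then P_Rd p Ω W else 0) ≤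
      ∑ Z ∈ Ω.powerset, ∑ V ∈ (hat Z).powerset,
        (if h ≤ V.card ∧ V ⊆ Ti then P_Rd p Ω Z / p ^ V.card else 0) := by
  classical
  rw [sum_sigma']
  let φ : Finset ℕ → (Σ _ : Finset ℕ, Finset ℕ) := fun W => ⟨W ∪ U W, U W⟩
  let g : (Σ _ : Finset ℕ, Finset ℕ) → ℝ := fun y =>
    if h ≤ y.2.card ∧ y.2 ⊆ Ti then P_Rd p Ω y.1 / p ^ y.2.card else 0
  have hg : ∀ y, 0 ≤ g y := fun y => by
    simp only [g]
    split_ifs
    · exact div_nonneg (P_nonneg_Rd hp hp1 _ _) (pow_pos hp _).le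
    · exact le_rfl
  have hinj : Set.InjOn φ (Ω.powerset : Set (Finset ℕ)) := by
    intro W _ W' _ e
    have e1 : W ∪ U W = W' ∪ U W' := congrArg Sigma.fst e
    have e2 : U W = U W' := congrArg (fun y : (Σ _ : Finset ℕ, Finset ℕ) => y.2) e
    rw [← union_sdiff_cancel_right (h2 W), ← union_sdiff_cancel_right (h2 W'), e1, e2]
  calc ∑ W ∈ Ω.powerset, (if h ≤ (U W).card then P_Rd p Ω W else 0)
      ≤ ∑ W ∈ Ω.powerset, g (φ W) := by
        refine sum_le_sum fun W _ => ?_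
        by_cases c : h ≤ (U W).card
        · simp only [g, φ]
          rw [if_pos c, if_pos ⟨c, h1 W⟩]
          exact P_le_Rd hp hp1 Ω W (U W) (h2 W)
        · rw [if_neg c]
          exact hg _
    _ = ∑ y ∈ Ω.powerset.image φ, g y := (sum_image hinj).symm
    _ ≤ _ := by
        refine sum_le_sum_of_subset_of_nonneg ?_ fun y _ _ => hg y
        intro y hy
        obtain ⟨W, hW, rfl⟩ := mem_image.1 hy
        exact mem_sigma.2 ⟨mem_powerset.2 (union_subset (mem_powerset.1 hW) ((h1 W).trans hΩ)),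
          mem_powerset.2 (h3 W)⟩

theorem sRd : StRd := by
  intro ι I T Ω h p κ A hp hp1 hpk hh hT hA
  classical
  have hex : ∀ W : Finset ℕ, ∀ i : ι, ∃ U : Finset ℕ, i ∈ I →
      (∃ i1 ∈ I, U = T i1 \ W ∧ T i1 ⊆ W ∪ T i) ∧
        ∀ i2 ∈ I, T i2 ⊆ W ∪ T i → U.card ≤ (T i2 \ W).card := by
    intro W i
    by_cases hi : i ∈ I
    · obtain ⟨i1, h1, h2⟩ := exists_min_image (I.filter fun i' => T i' ⊆ W ∪ T i)
        (fun i' => (T i' \ W).card) ⟨i, mem_filter.2 ⟨hi, subset_union_right⟩⟩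
      exact ⟨T i1 \ W, fun _ => ⟨⟨i1, (mem_filter.1 h1).1, rfl, (mem_filter.1 h1).2⟩,
        fun i2 hi2 hs => h2 i2 (mem_filter.2 ⟨hi2, hs⟩)⟩⟩
    · exact ⟨∅, fun h => absurd h hi⟩
  choose T' hT' using hex
  have hhat : ∀ Z : Finset ℕ, ∃ Y : Finset ℕ, Y.card ≤ 2 * h ∧
      ((∃ i ∈ I, T i ⊆ Z) → ∃ i ∈ I, T i ⊆ Z ∧ Y = T i) := by
    intro Z
    by_cases c : ∃ i ∈ I, T i ⊆ Z
    · obtain ⟨i, hi, hs⟩ := c
      exact ⟨T i, (hT i hi).2.le, fun _ => ⟨i, hi, hs, rfl⟩⟩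
    · exact ⟨∅, by simp, fun h => absurd h c⟩
  choose hat hh1 hh2 using hhat
  have hsub : ∀ W, ∀ i ∈ I, T' W i ⊆ T i := by
    intro W i hi
    obtain ⟨⟨i1, -, e, hs⟩, -⟩ := hT' W i hi
    rw [e]
    intro x hx
    exact (mem_union.1 (hs (mem_sdiff.1 hx).1)).resolve_left (mem_sdiff.1 hx).2
  have hdis : ∀ W, ∀ i ∈ I, Disjoint W (T' W i) := by
    intro W i hi
    obtain ⟨⟨i1, -, e, -⟩, -⟩ := hT' W i hi
    rw [e]
    exact disjoint_sdiff
  have hcov : ∀ W, ∀ i ∈ I, ∃ i' ∈ I, T i' ⊆ W ∪ T' W i := by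
    intro W i hi
    obtain ⟨⟨i1, h1, e, -⟩, -⟩ := hT' W i hi
    refine ⟨i1, h1, ?_⟩
    rw [e, union_sdiff_self_eq_union]
    exact subset_union_right
  have hin : ∀ W, ∀ i ∈ I, T' W i ⊆ hat (W ∪ T' W i) := by
    intro W i hi
    obtain ⟨i0, h0, hs, e⟩ := hh2 _ (hcov W i hi)
    have h1 : T i0 \ W ⊆ T' W i := fun x hx =>
      (mem_union.1 (hs (mem_sdiff.1 hx).1)).resolve_left (mem_sdiff.1 hx).2
    have h2 := (hT' W i hi).2 i0 h0 (hs.trans (union_subset_union subset_rfl (hsub W i hi)))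
    rw [e, ← eq_of_subset_of_card_le h1 h2]
    exact sdiff_subset
  refine ⟨T', fun W i hi => ⟨hsub W i hi, hcov W i hi⟩, ?_⟩
  have hq : 0 < p * κ := by linarith
  have hκ : 0 < κ := (mul_pos_iff_of_pos_left hp).1 hq
  have hA0 : 0 ≤ A := le_trans (by positivity) (hA ∅)
  calc Ex p Ω (fun W => ((I.filter fun i => h ≤ (T' W i).card).card : ℝ))
      = ∑ W ∈ Ω.powerset, ∑ i ∈ I, (if h ≤ (T' W i).card then P_Rd p Ω W else 0) := by
        refine sum_congr rfl fun W _ => ?_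
        rw [← sum_filter, sum_const, nsmul_eq_mul, mul_comm]
        rfl
    _ = ∑ i ∈ I, ∑ W ∈ Ω.powerset, (if h ≤ (T' W i).card then P_Rd p Ω W else 0) := sum_comm
    _ ≤ ∑ i ∈ I, ∑ Z ∈ Ω.powerset, ∑ V ∈ (hat Z).powerset,
        (if h ≤ V.card ∧ V ⊆ T i then P_Rd p Ω Z / p ^ V.card else 0) :=
        sum_le_sum fun i hi => inj_Rd hp hp1 Ω (T i) h (fun W => T' W i) hat (hT i hi).1
          (fun W => hsub W i hi) (fun W => hdis W i hi) fun W => hin W i hi
    _ = ∑ Z ∈ Ω.powerset, ∑ V ∈ (hat Z).powerset, ∑ i ∈ I,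
        (if h ≤ V.card ∧ V ⊆ T i then P_Rd p Ω Z / p ^ V.card else 0) := by
        rw [sum_comm]
        exact sum_congr rfl fun Z _ => sum_comm
    _ ≤ ∑ Z ∈ Ω.powerset, ∑ V ∈ (hat Z).powerset, P_Rd p Ω Z * (A / (p * κ) ^ h) := by
        refine sum_le_sum fun Z _ => sum_le_sum fun V _ => ?_
        have hP := P_nonneg_Rd hp hp1 Ω Z
        by_cases c : h ≤ V.card
        · simp only [c, true_and]
          rw [← sum_filter, sum_const, nsmul_eq_mul]
          have h1 : ((I.filter fun i => V ⊆ T i).card : ℝ) ≤ A / κ ^ V.card :=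
            (le_div_iff₀ (pow_pos hκ _)).2 (hA V)
          have h2 : A / (p * κ) ^ V.card ≤ A / (p * κ) ^ h :=
            div_le_div_of_nonneg_left hA0 (pow_pos hq _) (pow_le_pow_right₀ (by linarith) c)
          calc _ ≤ A / κ ^ V.card * (P_Rd p Ω Z / p ^ V.card) :=
                mul_le_mul_of_nonneg_right h1 (div_nonneg hP (pow_pos hp _).le)
            _ = P_Rd p Ω Z * (A / (p * κ) ^ V.card) := by
                rw [mul_pow]
                field_simp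
            _ ≤ _ := mul_le_mul_of_nonneg_left h2 hP
        · simp only [c, false_and, if_false, sum_const_zero]
          positivity
    _ ≤ ∑ Z ∈ Ω.powerset, P_Rd p Ω Z * (4 * A / (p * κ)) := by
        refine sum_le_sum fun Z _ => ?_
        have hP := P_nonneg_Rd hp hp1 Ω Z
        rw [sum_const, card_powerset, nsmul_eq_mul]
        have h1 : ((2 ^ (hat Z).card : ℕ) : ℝ) ≤ 4 ^ h := by
          have : (2 ^ (hat Z).card : ℕ) ≤ 4 ^ h := by
            rw [show (4 : ℕ) = 2 ^ 2 by norm_num, ← pow_mul]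
            exact Nat.pow_le_pow_right (by norm_num) (hh1 Z)
          exact_mod_cast this
        have h2 : (4 / (p * κ)) ^ h ≤ 4 / (p * κ) := by
          have := pow_le_pow_of_le_one (a := 4 / (p * κ)) (by positivity)
            ((div_le_one hq).2 hpk) hh
          rwa [pow_one] at this
        calc _ ≤ 4 ^ h * (P_Rd p Ω Z * (A / (p * κ) ^ h)) :=
              mul_le_mul_of_nonneg_right h1 (by positivity)
          _ = P_Rd p Ω Z * A * (4 / (p * κ)) ^ h := by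
              rw [div_pow]
              ring
          _ ≤ P_Rd p Ω Z * A * (4 / (p * κ)) := mul_le_mul_of_nonneg_left h2 (by positivity)
          _ = _ := by ring
    _ = 4 * A / (p * κ) := by rw [← sum_mul, P_sum_Rd, one_mul]

end Pool.Agent.MP_2876a2_nt.Tu.Z

end

noncomputable section
open Finset Filter
open scoped Pointwise


namespace Pool.Agent.MP_2876a2_nt.Tu.Z

theorem mono_Ex {p : ℝ} (h0 : 0 ≤ p) (h1 : p ≤ 1) (Ω : Finset ℕ) {f g : Finset ℕ → ℝ}
    (h : ∀ W, f W ≤ g W) : Ex p Ω f ≤ Ex p Ω g :=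
  sum_le_sum fun W _ => mul_le_mul_of_nonneg_left (h W)
    (mul_nonneg (pow_nonneg h0 _) (pow_nonneg (sub_nonneg.2 h1) _))

theorem add_Ex (p : ℝ) (Ω : Finset ℕ) (f g : Finset ℕ → ℝ) :
    Ex p Ω (fun W => f W + g W) = Ex p Ω f + Ex p Ω g := by
  simp only [Ex, mul_add, sum_add_distrib]

theorem sEx (hU : StUn) (hR : StRd) : StEx := by
  intro ι Ω p κ A hp hp1 hκ l
  have hκ0 : 0 ≤ κ := by
    by_contra h
    nlinarith [mul_pos hp (neg_pos.2 (not_le.1 h))]
  induction l with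
  | zero =>
    intro I T hT _
    refine le_of_eq ((congrArg _ (funext fun W => ?_)).trans ((hU.2 _ 0 Ω).trans (by simp)))
    split_ifs with h
    · rfl
    · rw [Nat.cast_eq_zero, card_eq_zero, eq_empty_iff_forall_notMem]
      intro i hi
      have : T i = ∅ := card_eq_zero.1 (by have := (hT i hi).2; omega)
      exact h ⟨i, hi, by rw [this]; exact empty_subset _⟩
  | succ l ih =>
    intro I T hT hA
    obtain ⟨T', h1, h2⟩ := hR ι I T Ω (2 ^ l) p κ A hp hp1 hκ Nat.one_le_two_pow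
      (fun i hi => ⟨(hT i hi).1, by have := (hT i hi).2; omega⟩) hA
    have q0 : 0 ≤ (1 - p) ^ l := pow_nonneg (by linarith) _
    have q1 : (1 - p) ^ l ≤ 1 := pow_le_one₀ (by linarith) (by linarith)
    rw [show 1 - (1 - p) ^ (l + 1) = 1 - (1 - p) * (1 - (1 - (1 - p) ^ l)) by ring, hU.1]
    refine (mono_Ex hp.le hp1 Ω (g := fun W => l * (4 * A / (p * κ)) +
      ((I.filter fun i => 2 ^ l ≤ (T' W i).card).card : ℝ)) fun W => ?_).trans ?_
    · have k := ih (I.filter fun i => (T' W i).card < 2 ^ l) (T' W)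
        (fun i hi => ⟨(h1 W i (mem_filter.1 hi).1).1.trans (hT i (mem_filter.1 hi).1).1,
          (mem_filter.1 hi).2⟩)
        (fun J => le_trans (mul_le_mul_of_nonneg_right (Nat.cast_le.2 (card_le_card fun i hi => by
          obtain ⟨a, b⟩ := mem_filter.1 hi
          have c := (mem_filter.1 a).1
          exact mem_filter.2 ⟨c, b.trans (h1 W i c).1⟩)) (pow_nonneg hκ0 _)) (hA J))
      refine le_trans ?_ (add_le_add k (hU.2 (1 - (1 - p) ^ l) _ Ω).le)
      rw [← add_Ex]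
      refine mono_Ex (by linarith) (by linarith) Ω fun W' => ?_
      have e := card_filter_add_card_filter_not (s := I) fun i => (T' W i).card < 2 ^ l
      simp only [not_lt] at e
      split_ifs with a b b
      · positivity
      · positivity
      · obtain ⟨i, hi, hs⟩ := b
        obtain ⟨-, i', hi', hs'⟩ := h1 W i (mem_filter.1 hi).1
        exact absurd ⟨i', hi', hs'.trans (union_subset_union_right hs)⟩ a
      · exact_mod_cast e.ge
    · rw [add_Ex, hU.2]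
      push_cast
      linarith

end Pool.Agent.MP_2876a2_nt.Tu.Z

end

noncomputable section
open Finset Filter
open scoped Pointwise


namespace Pool.Agent.MP_2876a2_nt.Tu.Z

theorem ex_insert_Poor (p : ℝ) {a : ℕ} {Ω : Finset ℕ} (ha : a ∉ Ω) (f : Finset ℕ → ℝ) :
    Ex p (insert a Ω) f = (1 - p) * Ex p Ω f + p * Ex p Ω fun W => f (insert a W) := by
  unfold Ex
  rw [sum_powerset_insert ha, mul_sum, mul_sum]
  congr 1
  · refine sum_congr rfl fun W hW => ?_
    have h : a ∉ W := fun h => ha (mem_powerset.1 hW h)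
    rw [insert_sdiff_of_notMem _ h, card_insert_of_notMem fun k => ha (mem_sdiff.1 k).1]
    ring
  · refine sum_congr rfl fun W hW => ?_
    have h : a ∉ W := fun h => ha (mem_powerset.1 hW h)
    rw [insert_sdiff_insert, sdiff_insert_of_notMem ha, card_insert_of_notMem h]
    ring

theorem ex_congr_Poor (p : ℝ) {Ω : Finset ℕ} {f g : Finset ℕ → ℝ} (h : ∀ W ⊆ Ω, f W = g W) :
    Ex p Ω f = Ex p Ω g :=
  sum_congr rfl fun W hW => by rw [h W (mem_powerset.1 hW)]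

theorem ex_mono_Poor {p : ℝ} (h0 : 0 ≤ p) (h1 : p ≤ 1) (Ω : Finset ℕ) {f g : Finset ℕ → ℝ}
    (h : ∀ W, f W ≤ g W) : Ex p Ω f ≤ Ex p Ω g :=
  sum_le_sum fun W _ => mul_le_mul_of_nonneg_left (h W)
    (mul_nonneg (pow_nonneg h0 _) (pow_nonneg (sub_nonneg.2 h1) _))

theorem ex_const_Poor (p c : ℝ) (Ω : Finset ℕ) : Ex p Ω (fun _ => c) = c := by
  induction Ω using Finset.induction_on with
  | empty => simp [Ex]
  | insert a Ω ha ih => rw [ex_insert_Poor p ha, ih]; ring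

theorem ex_sum_Poor {ι : Type} (p : ℝ) (Ω : Finset ℕ) (I : Finset ι) (f : ι → Finset ℕ → ℝ) :
    Ex p Ω (fun W => ∑ i ∈ I, f i W) = ∑ i ∈ I, Ex p Ω (f i) := by
  unfold Ex
  simp only [mul_sum]
  exact sum_comm

theorem ex_cond_Poor (p : ℝ) (Ω : Finset ℕ) : ∀ S ⊆ Ω, ∀ φ : Finset ℕ → ℝ,
    p ^ S.card * Ex p Ω (fun W => φ (S ∪ W)) = Ex p Ω fun Z => if S ⊆ Z then φ Z else 0 := by
  induction Ω using Finset.induction_on with
  | empty =>
    intro S hS φ
    rw [subset_empty.1 hS]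
    simp
  | insert a Ω ha ih =>
    intro S hS φ
    rw [ex_insert_Poor p ha, ex_insert_Poor p ha]
    by_cases h : a ∈ S
    · obtain ⟨S, h', rfl⟩ : ∃ S', a ∉ S' ∧ S = insert a S' :=
        ⟨S.erase a, notMem_erase a S, (insert_erase h).symm⟩
      have hS' : S ⊆ Ω := (subset_insert_iff_of_notMem h').1 ((subset_insert a S).trans hS)
      have e1 : Ex p Ω (fun Z => if insert a S ⊆ Z then φ Z else 0) = 0 := by
        rw [← ex_const_Poor p 0 Ω]
        refine ex_congr_Poor p fun W hW => ?_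
        rw [if_neg fun k => ha (hW (k (mem_insert_self a S))), ex_const_Poor]
      have e2 : Ex p Ω (fun Z => if insert a S ⊆ insert a Z then φ (insert a Z) else 0) =
          Ex p Ω fun Z => if S ⊆ Z then φ (insert a Z) else 0 := by
        simp only [insert_subset_insert_iff h']
      rw [e1, e2, ← ih S hS' fun Z => φ (insert a Z), card_insert_of_notMem h']
      simp only [insert_union, union_insert, insert_idem]
      ring
    · have hS' : S ⊆ Ω := (subset_insert_iff_of_notMem h).1 hS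
      simp only [subset_insert_iff_of_notMem h, union_insert]
      rw [← ih S hS' φ, ← ih S hS' fun Z => φ (insert a Z)]
      ring

theorem sPoor : StPoor := by
  classical
  intro ι I T Ω n p τ h0 h1 hτ hT
  let φ : Finset ℕ → ℝ := fun Z =>
    if ((I.filter fun i' => T i' ⊆ Z).card : ℝ) < τ then 1 else 0
  have hφ : ∀ Z, 0 ≤ φ Z := fun Z => by
    simp only [φ]
    split_ifs
    exacts [zero_le_one, le_rfl]
  have e : ∀ W, ((I.filter fun i =>
      ((I.filter fun i' => T i' ⊆ T i ∪ W).card : ℝ) < τ).card : ℝ) = ∑ i ∈ I, φ (T i ∪ W) :=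
    fun W => natCast_card_filter _ _
  simp only [e]
  rw [ex_sum_Poor, le_div_iff₀ (pow_pos h0 n), mul_comm, mul_sum]
  calc ∑ i ∈ I, p ^ n * Ex p Ω (fun W => φ (T i ∪ W))
      ≤ ∑ i ∈ I, Ex p Ω fun Z => if T i ⊆ Z then φ Z else 0 := by
        refine sum_le_sum fun i hi => ?_
        rw [← ex_cond_Poor p Ω _ (hT i hi).1]
        refine mul_le_mul_of_nonneg_right (pow_le_pow_of_le_one h0.le h1 (hT i hi).2) ?_
        rw [← ex_const_Poor p 0 Ω]
        exact ex_mono_Poor h0.le h1 Ω fun W => hφ _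
    _ ≤ τ := by
        rw [← ex_sum_Poor]
        refine (ex_mono_Poor h0.le h1 Ω fun Z => ?_).trans (ex_const_Poor p τ Ω).le
        rw [← sum_filter, sum_const, nsmul_eq_mul]
        simp only [φ]
        split_ifs with h
        · rw [mul_one]; exact h.le
        · rw [mul_zero]; exact hτ

end Pool.Agent.MP_2876a2_nt.Tu.Z

end

noncomputable section
open Finset Filter
open scoped Pointwise


namespace Pool.Agent.MP_2876a2_nt.Tu.Z

theorem mono_Sp {p : ℝ} (h0 : 0 ≤ p) (h1 : p ≤ 1) {Ω : Finset ℕ} {f g : Finset ℕ → ℝ}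
    (h : ∀ W, f W ≤ g W) : Ex p Ω f ≤ Ex p Ω g :=
  sum_le_sum fun W _ => mul_le_mul_of_nonneg_left (h W)
    (mul_nonneg (pow_nonneg h0 _) (pow_nonneg (sub_nonneg.2 h1) _))

theorem add_Sp (p : ℝ) (Ω : Finset ℕ) (f g : Finset ℕ → ℝ) :
    Ex p Ω (fun W => f W + g W) = Ex p Ω f + Ex p Ω g := by
  simp only [Ex, mul_add, sum_add_distrib]

theorem mul_Sp (p c : ℝ) (Ω : Finset ℕ) (f : Finset ℕ → ℝ) :
    c * Ex p Ω f = Ex p Ω (fun W => c * f W) := by
  simp only [Ex, mul_sum]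
  exact sum_congr rfl fun _ _ => by ring

theorem cd_Sp {ι : Type} (I : Finset ι) (P Q : ι → Prop) [DecidablePred P] [DecidablePred Q]
    (h : ∀ j, P j → Q j) : ((I.filter P).card : ℝ) ≤ (I.filter Q).card :=
  Nat.cast_le.2 (card_le_card (monotone_filter_right I fun j _ => h j))

open Classical in
theorem two_Sp (hU : StUn) (hE : StEx) (hP : StPoor) (ι : Type) (I : Finset ι)
    (T : ι → Finset ℕ) (Ω : Finset ℕ) (l n : ℕ) (p κ τ : ℝ) (h0 : 0 < p) (h1 : p ≤ 1)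
    (hκ : 4 ≤ p * κ) (hτ : 0 ≤ τ) (hT : ∀ i ∈ I, T i ⊆ Ω ∧ (T i).card ≤ n) (hn : n < 2 ^ l)
    (hJ : ∀ J : Finset ℕ, ((I.filter fun i => J ⊆ T i).card : ℝ) * κ ^ J.card ≤ I.card)
    (ind : Finset ℕ → ℝ) (hi : ∀ U, ind U ≤ 1)
    (hz : ∀ U, τ ≤ ((I.filter fun i => T i ⊆ U).card : ℝ) → ind U = 0) :
    I.card * Ex (1 - (1 - p) ^ (l + 1)) Ω ind ≤ τ / p ^ n + l * (4 * I.card / (p * κ)) := by
  have k0 : 0 ≤ κ := by
    by_contra h
    nlinarith [mul_pos h0 (neg_pos.2 (not_le.1 h))]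
  have q0 : 0 ≤ (1 - p) ^ l := pow_nonneg (sub_nonneg.2 h1) _
  have q1 : (1 - p) ^ l ≤ 1 := pow_le_one₀ (sub_nonneg.2 h1) (by linarith)
  have e : 1 - (1 - p) ^ (l + 1) = 1 - (1 - p) * (1 - (1 - (1 - p) ^ l)) := by ring
  rw [mul_Sp, e, hU.1]
  refine le_trans (mono_Sp h0.le h1 (g := fun W => ((I.filter fun i =>
    ((I.filter fun i' => T i' ⊆ T i ∪ W).card : ℝ) < τ).card : ℝ) +
      l * (4 * I.card / (p * κ))) fun W => ?_) ?_
  · obtain ⟨R, hR⟩ : ∃ R, R = I.filter fun i =>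
      ¬ ((I.filter fun i' => T i' ⊆ T i ∪ W).card : ℝ) < τ := ⟨_, rfl⟩
    have RI : R ⊆ I := hR ▸ filter_subset _ _
    have a := hE ι Ω p κ I.card h0 h1 hκ l R T
      (fun i h => ⟨(hT i (RI h)).1, (hT i (RI h)).2.trans_lt hn⟩) fun J =>
        le_trans (mul_le_mul_of_nonneg_right
          (by exact_mod_cast card_le_card (filter_subset_filter _ RI)) (pow_nonneg k0 _)) (hJ J)
    refine le_trans (mono_Sp (by linarith) (by linarith) (g := fun W' => ((I.filter fun i =>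
      ((I.filter fun i' => T i' ⊆ T i ∪ W).card : ℝ) < τ).card : ℝ) +
        if ∃ i ∈ R, T i ⊆ W' then 0 else (R.card : ℝ)) fun W' => ?_) ?_
    · split_ifs with h
      · obtain ⟨i, h2, h3⟩ := h
        rw [hR] at h2
        rw [hz _ ((not_lt.1 (mem_filter.1 h2).2).trans ?_)]
        · simp
        · exact cd_Sp I _ _ fun j h4 => h4.trans (by
            rw [union_comm]
            exact union_subset_union_right h3)
      · rw [← Nat.cast_add, hR, card_filter_add_card_filter_not]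
        exact mul_le_of_le_one_right (Nat.cast_nonneg _) (hi _)
    · rw [add_Sp, hU.2]
      exact add_le_add_right a _
  · rw [add_Sp, hU.2]
    exact add_le_add_left (hP ι I T Ω n p τ h0 h1 hτ hT) _

theorem sSp (hU : StUn) (hM : StMg) (hE : StEx) (hP : StPoor) : StSp := by
  intro ι I T M l n h2 hT hn hJ
  rcases I.eq_empty_or_nonempty with rfl | hI
  · exact ⟨fun _ => 0, by simp⟩
  have c0 : (0 : ℝ) < I.card := by exact_mod_cast hI.card_pos
  have m2 : (2 : ℝ) ≤ M := by exact_mod_cast h2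
  have l0 : (0 : ℝ) ≤ l := Nat.cast_nonneg _
  have m0 : (0 : ℝ) < M := by linarith
  have d1 : (1 : ℝ) ≤ M * (l + 1) := by nlinarith
  obtain ⟨p, hp⟩ : ∃ p : ℝ, p = 1 / (M * (l + 1)) := ⟨_, rfl⟩
  have p0 : 0 < p := by rw [hp]; positivity
  have p1 : p ≤ 1 := by rw [hp]; exact (div_le_one (by linarith)).2 d1
  have pk : p * (16 * M ^ 2 * (l + 1) ^ 2) = 16 * (M * (l + 1)) := by rw [hp]; field_simp
  obtain ⟨τ, hτ⟩ : ∃ τ : ℝ, τ = I.card * p ^ n / (4 * M) := ⟨_, rfl⟩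
  obtain ⟨ind, hi⟩ : ∃ ind : Finset ℕ → ℝ, ∀ U, ind U =
    if τ ≤ ((I.filter fun i => T i ⊆ U).card : ℝ) then 0 else 1 := ⟨_, fun _ => rfl⟩
  have i0 : ∀ U, 0 ≤ ind U := fun U => by rw [hi]; split_ifs <;> simp
  have i1 : ∀ U, ind U ≤ 1 := fun U => by rw [hi]; split_ifs <;> simp
  have iz : ∀ U, τ ≤ ((I.filter fun i => T i ⊆ U).card : ℝ) → ind U = 0 := fun U h => by
    rw [hi, if_pos h]
  have ia : ∀ U W, ind (U ∪ W) ≤ ind U := fun U W => by
    rw [hi U]
    split_ifs with h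
    · refine (iz _ (h.trans ?_)).le
      exact cd_Sp I _ _ fun j h4 => h4.trans subset_union_left
    · exact i1 _
  have a := two_Sp hU hE hP ι I T (I.biUnion T) l n p (16 * M ^ 2 * (l + 1) ^ 2) τ p0 p1
    (by rw [pk]; linarith) (by rw [hτ]; positivity)
    (fun i h => ⟨subset_biUnion_of_mem T h, hT i h⟩) hn (fun J => by exact_mod_cast hJ J) ind i1 iz
  obtain ⟨r, hr⟩ : ∃ r : ℝ, r = 1 - (1 - p) ^ (l + 1) := ⟨_, rfl⟩
  have r0 : 0 ≤ r := by
    rw [hr]
    exact sub_nonneg.2 (pow_le_one₀ (sub_nonneg.2 p1) (by linarith))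
  have r1 : r ≤ 1 / M := by
    have b := one_add_mul_le_pow (show (-2 : ℝ) ≤ -p by linarith) (l + 1)
    have c : ((l + 1 : ℕ) : ℝ) * -p = -(1 / M) := by rw [hp]; push_cast; field_simp
    rw [c, ← sub_eq_add_neg, ← sub_eq_add_neg] at b
    linarith
  have r2 : (1 : ℝ) / M ≤ 1 / 2 := one_div_le_one_div_of_le two_pos m2
  have r3 : 0 < 1 - r := by linarith
  have b : Ex (1 / M) (I.biUnion T) ind ≤ Ex r (I.biUnion T) ind := by
    have e : (1 : ℝ) / M = 1 - (1 - r) * (1 - (1 / M - r) / (1 - r)) := by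
      field_simp
      ring
    rw [e, hU.1]
    refine mono_Sp r0 (by linarith) fun W => ?_
    refine (mono_Sp (div_nonneg (by linarith) r3.le) ((div_le_one r3).2 (by linarith))
      (ia W)).trans (hU.2 _ _ _).le
  have c : M * Ex r (I.biUnion T) ind ≤ 1 / 2 := by
    rw [← hr, pk] at a
    have e1 : τ / p ^ n = I.card / (4 * M) := by rw [hτ]; field_simp
    have e2 : l * (4 * (I.card : ℝ) / (16 * (M * (l + 1)))) ≤ I.card / (4 * M) := by
      rw [← mul_div_assoc, div_le_div_iff₀ (by positivity) (by positivity)]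
      nlinarith [mul_pos c0 m0]
    have e3 : (M : ℝ) * (I.card / (4 * M)) = I.card / 4 := by field_simp
    refine le_of_mul_le_mul_left ?_ c0
    nlinarith [mul_le_mul_of_nonneg_left (a.trans (add_le_add e1.le e2)) m0.le]
  obtain ⟨χ, hχ⟩ := hM M (I.biUnion T) (fun _ => ind) (by omega)
  rw [sum_const, card_range, nsmul_eq_mul] at hχ
  refine ⟨χ, fun k hk => ?_⟩
  have d := (single_le_sum (f := fun c => ind ((I.biUnion T).filter fun x => χ x = c))
    (fun _ _ => i0 _) (mem_range.2 hk)).trans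
      (hχ.trans ((mul_le_mul_of_nonneg_left b m0.le).trans c))
  simp only [hi] at d
  split_ifs at d with h
  · have e : ((I.filter fun i => T i ⊆ (I.biUnion T).filter fun x => χ x = k).card : ℝ) ≤
        (I.filter fun i => ∀ x ∈ T i, χ x = k).card :=
      cd_Sp I _ _ fun j h4 x hx => (mem_filter.1 (h4 hx)).2
    have f := h.trans e
    rw [hτ, hp, one_div, inv_pow, div_le_iff₀ (by positivity), ← div_eq_mul_inv,
      div_le_iff₀ (by positivity)] at f
    have g : (I.card : ℝ) ≤ 4 * M * (M * (l + 1)) ^ n *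
        (I.filter fun i => ∀ x ∈ T i, χ x = k).card := by linarith
    exact_mod_cast g
  · norm_num at d

end Pool.Agent.MP_2876a2_nt.Tu.Z

end

noncomputable section
open Finset Filter
open scoped Pointwise


namespace Pool.Agent.MP_2876a2_nt.Tu.Z

theorem up_BlkA (P Kc : Finset ℕ) (F : Finset (Finset ℕ)) (r : ℕ)
    (hF : F ⊆ P.powersetCard (r + Kc.card)) :
    (F.filter fun b => Kc ⊆ b).card ≤ P.card ^ r := by
  refine le_trans ?_ (Nat.choose_le_pow P.card r)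
  rw [← card_powersetCard]
  refine card_le_card_of_injOn (fun b => b \ Kc) (fun b hb => ?_) fun b hb b' hb' e => ?_
  · obtain ⟨h1, h2⟩ := mem_filter.1 (mem_coe.1 hb)
    obtain ⟨h3, h4⟩ := mem_powersetCard.1 (hF h1)
    refine mem_coe.2 (mem_powersetCard.2 ⟨sdiff_subset.trans h3, ?_⟩)
    rw [card_sdiff_of_subset h2, h4]
    omega
  · have h2 := (mem_filter.1 (mem_coe.1 hb)).2
    have h2' := (mem_filter.1 (mem_coe.1 hb')).2
    have e' : b \ Kc = b' \ Kc := e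
    rw [← sdiff_union_of_subset h2, ← sdiff_union_of_subset h2', e']

theorem sBlkA (hC : StCore) (hN : StNs) (hS : StSp) : StBlkA := by
  intro M K1 m h P nb F hM h2 hm hP hK hA hF hc n1 n2
  obtain ⟨a, ha⟩ : ∃ a, 99 * m = a + 7 * h := ⟨99 * m - 7 * h, by omega⟩
  have e7 : 99 * m - 7 * h = a := by omega
  have e4 : 99 * m - 4 * h = a + 3 * h := by omega
  have e3 : 99 * m - 3 * h = a + 4 * h := by omega
  rw [e7] at hA
  rw [e3] at hc
  rw [e4]
  obtain ⟨Kc, c1, c2⟩ := hC F (2 ^ (a + 3 * h)) (Nat.one_le_two_pow)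
  have c3 := hc.trans c1
  have hne : (F.filter fun b => Kc ⊆ b).Nonempty := by
    rw [← card_pos]
    refine Nat.pos_of_ne_zero fun e => ?_
    rw [e, zero_mul] at c3
    exact absurd c3 (not_le.2 (by positivity))
  obtain ⟨r, hr⟩ : ∃ r, r + Kc.card = 2 ^ m := by
    obtain ⟨b, hb⟩ := hne
    obtain ⟨h1, h3⟩ := mem_filter.1 hb
    have := card_le_card h3
    rw [(mem_powersetCard.1 (hF h1)).2] at this
    exact ⟨2 ^ m - Kc.card, by omega⟩
  have lo : 2 ^ ((a + 4 * h) * r + h * Kc.card) ≤ (F.filter fun b => Kc ⊆ b).card := by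
    have e : (a + 4 * h) * 2 ^ m = ((a + 4 * h) * r + h * Kc.card) + (a + 3 * h) * Kc.card := by
      rw [← hr]; ring
    rw [e, pow_add, ← pow_mul] at c3
    exact Nat.le_of_mul_le_mul_right c3 (by positivity)
  have up : (F.filter fun b => Kc ⊆ b).card ≤ 2 ^ (100 * m * r) := by
    refine (up_BlkA P Kc F r (by rw [hr]; exact hF)).trans ?_
    rw [pow_mul]
    exact Nat.pow_le_pow_left hP r
  have ex : (a + 4 * h) * r + h * Kc.card ≤ 100 * m * r :=
    (Nat.pow_le_pow_iff_right (by norm_num)).1 (lo.trans up)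
  have hmr : 2 ^ m ≤ m * r := by
    have e1 : 100 * m * r = (a + 4 * h) * r + (3 * h + m) * r := by
      have : 100 * m = (a + 4 * h) + (3 * h + m) := by omega
      rw [this]; ring
    have e2 : h * Kc.card ≤ (3 * h + m) * r := by omega
    have e5 : h * (r + Kc.card) ≤ h * (m * r) := by
      have k1 : (4 * h + m) * r ≤ (h * m) * r :=
        Nat.mul_le_mul_right r (le_trans (by omega) (Nat.mul_le_mul_right m h2))
      calc h * (r + Kc.card) = h * r + h * Kc.card := by ring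
        _ ≤ h * r + (3 * h + m) * r := by omega
        _ = (4 * h + m) * r := by ring
        _ ≤ (h * m) * r := k1
        _ = h * (m * r) := by ring
    rw [← hr]
    exact Nat.le_of_mul_le_mul_left e5 (by omega)
  have hr1 : 1 ≤ r := by
    refine Nat.pos_of_ne_zero fun e => ?_
    rw [e, mul_zero] at hmr
    exact absurd hmr (not_le.2 (by positivity))
  have sub : ∀ b ∈ F, b ⊆ P := fun b hb => (mem_powersetCard.1 (hF hb)).1
  have spr := hN P Kc nb F K1 (2 ^ a) (2 ^ (a + 3 * h)) (16 * M ^ 2 * (m + K1 + 1) ^ 2) hK hA sub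
    c2 (by
      have e : 2 * (16 * M ^ 2 * (m + K1 + 1) ^ 2) = 32 * M ^ 2 * (m + K1 + 1) ^ 2 := by ring
      rw [e, pow_add, mul_comm (2 ^ a)]
      exact Nat.mul_le_mul_right _ n1) (Nat.succ_le_of_lt (by positivity))
  obtain ⟨χ, hχ⟩ := hS (Finset ℕ) (F.filter fun b => Kc ⊆ b) (fun b => (b \ Kc).biUnion nb) M
    (m + K1) (K1 * r) hM (by
      intro b hb
      obtain ⟨h1, h3⟩ := mem_filter.1 hb
      have e : (b \ Kc).card = r := by
        rw [card_sdiff_of_subset h3, (mem_powersetCard.1 (hF h1)).2]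
        omega
      refine (card_biUnion_le_card_mul _ _ K1 fun q hq =>
        hK q (sub b h1 (sdiff_subset hq))).trans ?_
      rw [e, mul_comm]) (by
      rw [pow_add, mul_comm (2 ^ m)]
      exact (Nat.mul_le_mul_left K1 (by omega : r ≤ 2 ^ m)).trans_lt
        (Nat.mul_lt_mul_of_pos_right Nat.lt_two_pow_self (by positivity))) spr
  refine ⟨Kc, χ, r, hr, hmr, fun i hi => ?_⟩
  have k1 := hχ i hi
  have k2 : 4 * M * (M * (m + K1 + 1)) ^ (K1 * r) ≤ 2 ^ (h * r) := by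
    rw [pow_mul, pow_mul 2 h r]
    refine le_trans ?_ (Nat.pow_le_pow_left n2 r)
    rw [mul_pow (4 * M)]
    exact Nat.mul_le_mul_right _ (Nat.le_self_pow (by omega) _)
  have k3 : ((F.filter fun b => Kc ⊆ b).filter
      fun b => ∀ x ∈ (b \ Kc).biUnion nb, χ x = i).card ≤
      (F.filter fun b => Kc ⊆ b ∧ ∀ p ∈ (b \ Kc).biUnion nb, χ p = i).card :=
    card_le_card fun b hb => by
      obtain ⟨h1, h3⟩ := mem_filter.1 hb
      exact mem_filter.2 ⟨(mem_filter.1 h1).1, (mem_filter.1 h1).2, h3⟩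
  have k4 : 2 ^ (h * r) * 2 ^ ((a + 3 * h) * r) ≤ (F.filter fun b => Kc ⊆ b).card := by
    rw [← pow_add]
    refine le_trans (Nat.pow_le_pow_right (by norm_num) ?_) lo
    have : h * r + (a + 3 * h) * r = (a + 4 * h) * r := by ring
    omega
  exact Nat.le_of_mul_le_mul_left ((k4.trans k1).trans (Nat.mul_le_mul k2 k3)) (by positivity)

end Pool.Agent.MP_2876a2_nt.Tu.Z

end

noncomputable section
open Finset Filter
open scoped Pointwise


namespace Pool.Agent.MP_2876a2_nt.Tu.Z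

theorem sig_Asm (V : Finset ℕ) (hV : ∀ p ∈ V, p.Prime) :
    sg (∏ p ∈ V, p) = ∏ p ∈ V, (p + 1) := by
  have h := ArithmeticFunction.IsMultiplicative.map_prod_of_prime
    (ArithmeticFunction.isMultiplicative_sigma (k := 1)) V hV
  rw [show sg (∏ p ∈ V, p) = ∏ p ∈ V, sg p from h]
  refine prod_congr rfl fun p hp => ?_
  have := ArithmeticFunction.sigma_one_apply_prime_pow (i := 1) (hV p hp)
  simpa [sum_range_succ, add_comm] using this

theorem sqf_Asm (V : Finset ℕ) (hV : ∀ p ∈ V, p.Prime) : Squarefree (∏ p ∈ V, p) :=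
  Finset.squarefree_prod_of_pairwise_isCoprime
    (fun _ hp _ hq hpq => Nat.coprime_iff_isRelPrime.1
      ((Nat.coprime_primes (hV _ hp) (hV _ hq)).2 hpq))
    fun p hp => (hV p hp).squarefree

theorem dq_pos_Asm (hD : StDiv) (z q : ℕ) (hq : q.Prime) : 0 < Dq z q := by
  have h := hD z q hq
  have h1 : 0 < (∏ p ∈ nd z q, (p + 1)) * q :=
    Nat.mul_pos (prod_pos fun p _ => Nat.succ_pos p) hq.pos
  rw [h] at h1
  exact Nat.pos_of_mul_pos_right h1

theorem key_Asm (hD : StDiv) (z : ℕ) (c : Finset ℕ) (hc : ∀ q ∈ c, q.Prime) (hd : PD (nd z) c) :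
    sg (∏ p ∈ c.biUnion (nd z), p) * ∏ q ∈ c, q =
      (∏ q ∈ c, Dq z q) * ∏ p ∈ c.biUnion (nd z), p := by
  have hpd : Set.PairwiseDisjoint (c : Set ℕ) (nd z) := fun q hq q' hq' h => hd q hq q' hq' h
  rw [sig_Asm _ fun p hp => by
    obtain ⟨q, hq, hp⟩ := mem_biUnion.1 hp
    exact prime_nd (hc q hq) hp]
  rw [prod_biUnion hpd, prod_biUnion hpd, ← prod_mul_distrib, ← prod_mul_distrib]
  exact prod_congr rfl fun q hq => hD z q (hc q hq)

theorem sAsm (hD : StDiv) : StAsm := by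
  intro z s0 P Kc F χ hP hF
  have hU : ∀ p ∈ P.biUnion (nd z), p.Prime := fun p hp => by
    obtain ⟨q, hq, hp⟩ := mem_biUnion.1 hp
    exact prime_nd (hP q hq) hp
  have hUi : ∀ i, ∀ p ∈ (P.biUnion (nd z)).filter (fun p => χ p = i), p.Prime :=
    fun i p hp => hU p (mem_filter.1 hp).1
  refine ⟨fun i => (F.filter fun b => Kc ⊆ b ∧ ∀ p ∈ (b \ Kc).biUnion (nd z), χ p = i).image
      fun b => ∏ q ∈ b \ Kc, q,
    fun i => ∏ p ∈ (P.biUnion (nd z)).filter (fun p => χ p = i), p,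
    s0 / ∏ q ∈ Kc, Dq z q, fun i i' hii => ?_, fun i => ⟨sqf_Asm _ (hUi i), ?_, ?_, ?_⟩⟩
  · refine Nat.Coprime.prod_left fun p hp => Nat.Coprime.prod_right fun p' hp' => ?_
    refine (Nat.coprime_primes (hUi i p hp) (hUi i' p' hp')).2 fun h => hii ?_
    rw [← (mem_filter.1 hp).2, ← (mem_filter.1 hp').2, h]
  · rw [Nat.primeFactors_prod (hUi i)]
    exact filter_subset _ _
  · refine card_image_of_injOn fun b hb b' hb' h => ?_
    obtain ⟨h1, h2, -⟩ := mem_filter.1 (mem_coe.1 hb)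
    obtain ⟨h1', h2', -⟩ := mem_filter.1 (mem_coe.1 hb')
    have e : b \ Kc = b' \ Kc := by
      rw [← Nat.primeFactors_prod (s := b \ Kc) fun p hp => hP p ((hF b h1).1 (mem_sdiff.1 hp).1),
        ← Nat.primeFactors_prod (s := b' \ Kc) fun p hp => hP p ((hF b' h1').1 (mem_sdiff.1 hp).1)]
      exact congrArg Nat.primeFactors h
    rw [← sdiff_union_of_subset h2, ← sdiff_union_of_subset h2', e]
  · intro x hx
    obtain ⟨b, hb, rfl⟩ := mem_image.1 hx
    obtain ⟨h1, h2, h3⟩ := mem_filter.1 hb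
    obtain ⟨hbP, hpd, hs⟩ := hF b h1
    have hc : ∀ q ∈ b \ Kc, q.Prime := fun q hq => hP q (hbP (mem_sdiff.1 hq).1)
    have hs' : ∏ q ∈ b \ Kc, Dq z q = s0 / ∏ q ∈ Kc, Dq z q := by
      rw [← hs, ← prod_sdiff h2, Nat.mul_div_cancel _
        (prod_pos fun q hq => dq_pos_Asm hD z q (hP q (hbP (h2 hq))))]
    refine ⟨⟨b, h1, h2, rfl, hs'⟩, ∏ p ∈ (b \ Kc).biUnion (nd z), p, ?_, ?_, ?_⟩
    · exact prod_dvd_prod_of_subset _ _ _ fun q hq => mem_biUnion.2 ⟨q, hq, self_mem_nd z q⟩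
    · refine prod_dvd_prod_of_subset _ _ _ fun p hp => mem_filter.2 ⟨?_, h3 p hp⟩
      exact biUnion_subset_biUnion_of_subset_left _ (sdiff_subset.trans hbP) hp
    · rw [← hs']
      exact key_Asm hD z _ hc fun q hq q' hq' h =>
        hpd q (mem_sdiff.1 hq).1 q' (mem_sdiff.1 hq').1 h

end Pool.Agent.MP_2876a2_nt.Tu.Z

end

noncomputable section
open Finset Filter
open scoped Pointwise


namespace Pool.Agent.MP_2876a2_nt.Tu.Z

theorem poly_le_NumZ (c e : ℕ) : ∀ᶠ h : ℕ in atTop, c * (h + 1) ^ e ≤ 2 ^ h := by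
  have h1 := (tendsto_pow_const_div_const_pow_of_one_lt e (r := (2 : ℝ)) one_lt_two).comp
    (tendsto_add_atTop_nat 1)
  have h2 : (0 : ℝ) < 1 / (2 * (c + 1)) := by positivity
  filter_upwards [h1.eventually (gt_mem_nhds h2)] with h hh
  simp only [Function.comp] at hh
  rw [div_lt_div_iff₀ (by positivity) (by positivity), pow_succ] at hh
  have h3 : (0 : ℝ) ≤ ((h + 1 : ℕ) : ℝ) ^ e := by positivity
  have h4 : (c : ℝ) * ((h + 1 : ℕ) : ℝ) ^ e ≤ 2 ^ h := by
    generalize ((h + 1 : ℕ) : ℝ) ^ e = x at hh h3 ⊢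
    generalize (2 : ℝ) ^ h = y at hh ⊢
    linarith
  exact_mod_cast h4

theorem sNumZ : StNumZ := by
  intro M K1 g hg
  have ht : Tendsto (fun j => lev j / g) atTop atTop :=
    (Nat.tendsto_div_const_atTop (by omega)).comp tendsto_lev
  filter_upwards [ht.eventually (eventually_ge_atTop 2),
    ht.eventually (poly_le_NumZ ((32 * M ^ 2 * (g + K1 + 1) ^ 2) ^ K1) (2 * K1)),
    ht.eventually (poly_le_NumZ (4 * M * (M * (g + K1 + 1)) ^ K1) K1),
    ht.eventually (poly_le_NumZ (K1 * (g + K1 + 1) ^ 8) 8),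
    ht.eventually (poly_le_NumZ ((g + K1 + 1) ^ 8) 8)] with j h0 h1 h2 h3 h4
  have hj := lt_lev j
  have hm : lev j < g * (lev j / g + 1) := Nat.lt_mul_div_succ _ (by omega)
  have hh : lev j / g ≤ lev j := Nat.div_le_self _ _
  generalize lev j / g = h at *
  generalize lev j = m at *
  have hL : m + K1 + 1 ≤ (g + K1 + 1) * (h + 1) := by
    have e : (g + K1 + 1) * (h + 1) = g * (h + 1) + K1 * h + K1 + h + 1 := by ring
    rw [e]
    clear h1 h2 h3 h4 hj e
    omega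
  have hj2 : j ^ 2 ≤ (g + K1 + 1) ^ 8 * (h + 1) ^ 8 := by
    calc j ^ 2 ≤ ((m + 1) ^ 4) ^ 2 := Nat.pow_le_pow_left hj.le 2
      _ = (m + 1) ^ 8 := by rw [← pow_mul]
      _ ≤ ((g + K1 + 1) * (h + 1)) ^ 8 := Nat.pow_le_pow_left (by omega) 8
      _ = _ := mul_pow _ _ _
  refine ⟨h0, ?_, ?_, ?_, ?_⟩
  · calc (32 * M ^ 2 * (m + K1 + 1) ^ 2) ^ K1
        ≤ (32 * M ^ 2 * ((g + K1 + 1) * (h + 1)) ^ 2) ^ K1 := by gcongr
      _ = (32 * M ^ 2 * (g + K1 + 1) ^ 2) ^ K1 * (h + 1) ^ (2 * K1) := by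
        rw [pow_mul, ← mul_pow, mul_pow (g + K1 + 1), mul_assoc (32 * M ^ 2)]
      _ ≤ 2 ^ h := h1
      _ ≤ 2 ^ (3 * h) := Nat.pow_le_pow_right (by norm_num) (by omega)
  · calc 4 * M * (M * (m + K1 + 1)) ^ K1
        ≤ 4 * M * (M * ((g + K1 + 1) * (h + 1))) ^ K1 := by gcongr
      _ = 4 * M * (M * (g + K1 + 1)) ^ K1 * (h + 1) ^ K1 := by
        rw [← mul_assoc M, mul_pow (M * (g + K1 + 1)), mul_assoc (4 * M)]
      _ ≤ 2 ^ h := h2
  · calc K1 * j ^ 2 ≤ K1 * ((g + K1 + 1) ^ 8 * (h + 1) ^ 8) := by gcongr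
      _ = K1 * (g + K1 + 1) ^ 8 * (h + 1) ^ 8 := (mul_assoc _ _ _).symm
      _ ≤ 2 ^ h := h3
      _ ≤ 2 ^ (8 * h) := Nat.pow_le_pow_right (by norm_num) (by omega)
  · exact (hj2.trans h4).trans (Nat.pow_le_pow_right (by norm_num) hh)

end Pool.Agent.MP_2876a2_nt.Tu.Z

end

noncomputable section
/-! Sizes of a product of roots. -/


open Finset Filter
open scoped Pointwise


namespace Pool.Agent.MP_2876a2_nt.Tu.Z

theorem nonneg_Sz (n : ℕ) : 0 ≤ wt n := sum_nonneg fun _ _ => by positivity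

theorem mul_Sz (m n : ℕ) : wt (m * n) ≤ wt m * wt n := by
  unfold wt
  rw [Nat.divisors_mul, mul_def, sum_mul_sum, ← sum_product']
  refine (sum_image_le_of_nonneg fun _ _ => by positivity).trans (le_of_eq ?_)
  refine sum_congr rfl fun x _ => ?_
  rw [Nat.cast_mul, Real.mul_rpow (Nat.cast_nonneg _) (Nat.cast_nonneg _)]

theorem prod_Sz (F : Finset ℕ) (hF : ∀ p ∈ F, p.Prime) :
    wt (∏ p ∈ F, p) ≤ Real.exp (∑ p ∈ F, (p : ℝ) ^ (-(1 / 50) : ℝ)) := by
  induction F using Finset.induction_on with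
  | empty => simp [wt_one]
  | insert p F hp ih =>
    rw [prod_insert hp, sum_insert hp, Real.exp_add]
    refine (mul_Sz _ _).trans (mul_le_mul ?_ (ih fun q hq => hF q (mem_insert_of_mem hq))
      (nonneg_Sz _) (Real.exp_pos _).le)
    have h := hF p (mem_insert_self _ _)
    unfold wt
    rw [h.sum_divisors, Nat.cast_one, Real.one_rpow]
    exact Real.add_one_le_exp _

theorem rp_Sz (m q : ℕ) (h : 2 ^ (100 * m) < q) :
    (q : ℝ) ^ (-(1 / 50) : ℝ) ≤ ((2 : ℝ) ^ (2 * m))⁻¹ := by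
  have h1 : ((2 : ℝ) ^ (2 * m)) ^ 50 ≤ q := by
    rw [← pow_mul, show 2 * m * 50 = 100 * m by ring]
    exact_mod_cast h.le
  rw [Real.rpow_neg (Nat.cast_nonneg _)]
  refine inv_anti₀ (by positivity) ?_
  have h2 := Real.rpow_le_rpow (by positivity) h1 (show (0 : ℝ) ≤ 1 / 50 by norm_num)
  rwa [← Real.rpow_natCast, ← Real.rpow_mul (by positivity), show ((50 : ℕ) : ℝ) * (1 / 50) = 1 by
    norm_num, Real.rpow_one] at h2

theorem sSz (hD : StDq) : StSz := by
  intro K g m j r b hm hj hb hr hrm hK hjm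
  have hj0 : (1 : ℝ) ≤ j := by exact_mod_cast hj
  have hrm' : (r : ℝ) ≤ 2 ^ m := by exact_mod_cast hrm
  have hK' : (102 : ℝ) ^ K * (j : ℝ) ^ 2 ≤ 2 ^ (8 * (m / g)) := by exact_mod_cast hK
  have hjm' : (j : ℝ) ^ 2 ≤ 2 ^ m := by exact_mod_cast hjm
  obtain ⟨c, hc⟩ : ∃ c : ℝ, c = 102 ^ K / 2 ^ (m + 8 * (m / g)) := ⟨_, rfl⟩
  have hc0 : 0 ≤ c := by rw [hc]; positivity
  have hc1 : 2 ^ m * c ≤ 1 / (j : ℝ) ^ 2 := by
    rw [hc, pow_add, le_div_iff₀ (by positivity)]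
    calc (2 : ℝ) ^ m * (102 ^ K / (2 ^ m * 2 ^ (8 * (m / g)))) * (j : ℝ) ^ 2
        = 102 ^ K * (j : ℝ) ^ 2 / 2 ^ (8 * (m / g)) := by field_simp
      _ ≤ 1 := div_le_one_of_le₀ hK' (by positivity)
  have hj1 : 1 / (j : ℝ) ^ 2 ≤ 1 := by
    rw [div_le_one (by positivity)]; exact one_le_pow₀ hj0
  have hc2 : c ≤ 1 :=
    (le_mul_of_one_le_left hc0 (one_le_pow₀ (by norm_num))).trans (hc1.trans hj1)
  have hp : ∀ q ∈ b, q.Prime := fun q hq => (hb q hq).prime
  refine ⟨Nat.primeFactors_prod hp, ?_, ?_, ?_, ?_⟩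
  · rw [pow_mul, ← hr]
    exact pow_card_le_prod _ _ _ fun q hq => (hb q hq).lo.le.trans (hD K g m q hm (hb q hq)).1
  · rw [pow_mul, ← hr]
    refine prod_le_pow_card _ _ _ fun q hq => ?_
    have h1 := (hD K g m q hm (hb q hq)).2
    rw [← hc] at h1
    have h2 : (q : ℝ) ≤ 2 * 2 ^ (100 * m) := by exact_mod_cast (hb q hq).hi
    have h3 : Real.exp c ≤ 3 := (Real.exp_le_exp.2 hc2).trans Real.exp_one_lt_three.le
    have h4 : (Dq (2 ^ m) q : ℝ) ≤ 2 ^ (100 * m + 3) := by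
      refine h1.trans ((mul_le_mul h3 h2 (Nat.cast_nonneg _) (by norm_num)).trans ?_)
      rw [pow_add]
      have : (0 : ℝ) < 2 ^ (100 * m) := by positivity
      linarith
    exact_mod_cast h4
  · push_cast
    calc ∏ q ∈ b, (Dq (2 ^ m) q : ℝ) ≤ ∏ q ∈ b, (Real.exp c * q) :=
          prod_le_prod (fun _ _ => Nat.cast_nonneg _) fun q hq => by
            rw [hc]; exact (hD K g m q hm (hb q hq)).2
      _ = Real.exp (r * c) * ∏ q ∈ b, (q : ℝ) := by
          rw [prod_mul_distrib, prod_const, hr, Real.exp_nat_mul]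
      _ ≤ _ := mul_le_mul_of_nonneg_right
          (Real.exp_le_exp.2 ((mul_le_mul_of_nonneg_right hrm' hc0).trans hc1))
          (prod_nonneg fun _ _ => Nat.cast_nonneg _)
  · refine (prod_Sz b hp).trans (Real.exp_le_exp.2 ?_)
    refine (sum_le_card_nsmul _ _ _ fun q hq => rp_Sz m q (hb q hq).lo).trans ?_
    rw [nsmul_eq_mul, hr]
    calc (r : ℝ) * ((2 : ℝ) ^ (2 * m))⁻¹ ≤ 2 ^ m * ((2 : ℝ) ^ (2 * m))⁻¹ :=
          mul_le_mul_of_nonneg_right hrm' (by positivity)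
      _ = 1 / 2 ^ m := by rw [two_mul, pow_add]; field_simp
      _ ≤ _ := one_div_le_one_div_of_le (by positivity) hjm'

end Pool.Agent.MP_2876a2_nt.Tu.Z

end

noncomputable section
open Finset Filter
open scoped Pointwise


namespace Pool.Agent.MP_2876a2_nt.Tu.Z

theorem sBlk (hF : StFib) (hZ : StAz) (hC : StCard) (hA : StBlkA) (hS : StAsm) (hN : StNumZ)
    (hz : StSz) : StBlk := by
  intro M K g hM hg
  filter_upwards [tendsto_lev.eventually (hF K g hg), tendsto_lev.eventually (hZ K g hg),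
    hN M (102 ^ K) g (by omega)] with j h1 h2 h3
  intro P hP hPc hR
  obtain ⟨n1, n2, n3, n4, n5⟩ := h3
  have h16 : 16 * (lev j / g) ≤ lev j :=
    (Nat.mul_le_mul_right _ hg).trans (Nat.mul_div_le _ _)
  have hm : 32 ≤ lev j := by omega
  have hj : 1 ≤ j := by
    have := le_lev.1 (show 1 ≤ lev j by omega)
    simpa using this
  have hhi : ∀ q ∈ P, q < 2 ^ (101 * lev j) := by
    intro q hq
    calc q ≤ 2 * 2 ^ (100 * lev j) := (hP q hq).hi
      _ = 2 ^ (100 * lev j + 1) := by rw [pow_succ, mul_comm]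
      _ < 2 ^ (101 * lev j) := Nat.pow_lt_pow_right (by norm_num) (by omega)
  have hcard : P.card ≤ 2 ^ (100 * lev j) := by
    have hs : P ⊆ Ioc (2 ^ (100 * lev j)) (2 * 2 ^ (100 * lev j)) := fun q hq =>
      mem_Ioc.2 ⟨(hP q hq).lo, (hP q hq).hi⟩
    have := card_le_card hs
    rw [Nat.card_Ioc] at this
    omega
  have hnb : ∀ q ∈ P, (nd (2 ^ lev j) q).card ≤ 102 ^ K := by
    intro q hq
    refine hC K _ q ?_ ?_ (hP q hq).sh
    · exact Nat.le_self_pow (by omega) 2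
    · rw [← pow_mul, mul_comm]
      exact hhi q hq
  obtain ⟨F, s0, hF1, hF2, hF3⟩ := h1 P hP hPc
  obtain ⟨Kc, χ, r, hr1, hr2, hr3⟩ := hA M (102 ^ K) (lev j) (lev j / g) P (nd (2 ^ lev j)) F hM
    n1 h16 hcard hnb (h2 P hP) hF1 hF2 n2 n3
  have hFb : ∀ b ∈ F, b ⊆ P ∧ b.card = 2 ^ lev j := fun b hb => mem_powersetCard.1 (hF1 hb)
  obtain ⟨B, N, s, hco, hB⟩ := hS (2 ^ lev j) s0 P Kc F χ (fun q hq => (hP q hq).prime)
    fun b hb => ⟨(hFb b hb).1, hF3 b hb⟩
  have hr0 : 1 ≤ r := by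
    rcases Nat.eq_zero_or_pos r with rfl | h
    · have := Nat.two_pow_pos (lev j)
      omega
    · exact h
  have hrle : r ≤ 2 ^ lev j := by omega
  refine ⟨B, N, s, r, hr0, hco, fun i hi => ?_⟩
  obtain ⟨b1, b2, b3, b4⟩ := hB i
  have hx : ∀ x ∈ B i, x.primeFactors.card = r ∧ x.primeFactors ⊆ P ∧
      2 ^ (100 * lev j * r) ≤ s ∧ s ≤ 2 ^ ((100 * lev j + 3) * r) ∧
      (s : ℝ) ≤ Real.exp (1 / (j : ℝ) ^ 2) * x ∧ wt x ≤ Real.exp (1 / (j : ℝ) ^ 2) := by
    intro x hx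
    obtain ⟨⟨b, hb, hK, rfl, rfl⟩, -⟩ := b4 x hx
    have hsub : b \ Kc ⊆ P := sdiff_subset.trans (hFb b hb).1
    have hc : (b \ Kc).card = r := by
      have e1 := card_sdiff_add_card_eq_card hK
      have e2 := (hFb b hb).2
      omega
    obtain ⟨z1, z2, z3, z4, z5⟩ := hz K g (lev j) j r (b \ Kc) (by omega) hj
      (fun q hq => hP q (hsub hq)) hc hrle n4 n5
    refine ⟨by rw [z1, hc], by rw [z1]; exact hsub, z2, z3, z4, z5⟩
  have hbig : 2 ^ ((99 * lev j - 4 * (lev j / g)) * r) ≤ (B i).card := by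
    rw [b3]
    exact hr3 i hi
  have hne : (B i).Nonempty := card_pos.1 (lt_of_lt_of_le (Nat.two_pow_pos _) hbig)
  obtain ⟨x0, hx0⟩ := hne
  obtain ⟨-, -, s1, s2, -, -⟩ := hx x0 hx0
  refine ⟨⟨⟨b1, ⟨x0, hx0⟩, fun x h => (b4 x h).2, ?_⟩, ?_, fun x h => (hx x h).2.2.2.2.1,
    fun x h => (hx x h).2.2.2.2.2, ?_, ?_⟩, b2, fun x h => ⟨(hx x h).1, (hx x h).2.1⟩⟩
  · calc s ^ 97 ≤ (2 ^ ((100 * lev j + 3) * r)) ^ 97 := Nat.pow_le_pow_left s2 _
      _ = 2 ^ ((100 * lev j + 3) * 97 * r) := by rw [← pow_mul, mul_right_comm]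
      _ ≤ 2 ^ ((99 * lev j - 4 * (lev j / g)) * 100 * r) :=
        Nat.pow_le_pow_right (by norm_num) (Nat.mul_le_mul_right _ (by omega))
      _ = (2 ^ ((99 * lev j - 4 * (lev j / g)) * r)) ^ 100 := by rw [← pow_mul, mul_right_comm]
      _ ≤ (B i).card ^ 100 := Nat.pow_le_pow_left hbig _
  · intro p hp
    obtain ⟨q, hq, hpq⟩ := mem_biUnion.1 (b2 hp)
    refine ⟨lt_of_le_of_lt (Nat.pow_le_pow_right (by norm_num) (Nat.le_add_right _ _))
      ((hP q hq).gap p hpq), (le_of_mem_nd hpq).trans (hhi q hq).le, hR q hq p hpq⟩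
  · refine le_trans (Nat.pow_le_pow_right (by norm_num) (hr2.trans ?_)) s1
    exact Nat.mul_le_mul_right _ (by omega)
  · refine s2.trans (Nat.pow_le_pow_right (by norm_num) ?_)
    exact Nat.mul_le_mul (by omega) hrle

end Pool.Agent.MP_2876a2_nt.Tu.Z

end

noncomputable section
open Finset Filter
open scoped Pointwise


namespace Pool.Agent.MP_2876a2_nt.Tu.Z

theorem sAdm (hN : StNice) (h1 : StPo1) (h2 : StPo2) (hB : StBlk) : StAdm := by
  classical
  intro M G ρ hM hG hρ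
  obtain ⟨K, g, hg, hn⟩ := hN G ρ hG hρ
  filter_upwards [tendsto_lev.eventually hn, tendsto_lev.eventually (h1 K g),
    tendsto_lev.eventually (h2 K g (by omega)), hB M K g hM hg] with j a1 a2 a3 a4
  intro Φ hΦ
  obtain ⟨Q', hQ', b1, b2⟩ := a2 _ Φ (fun q hq => (mem_filter.1 hq).2) a1 hΦ
  obtain ⟨P, hP, c1, c2⟩ := a3 Q' (fun q hq => (mem_filter.1 (hQ' hq)).2) b1
  obtain ⟨B, N, s, r, d1, d2, d3⟩ := a4 P (fun q hq => (mem_filter.1 (hQ' (hP hq))).2) c1
    fun q hq p hp => (b2 q (hP hq) p hp).2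
  refine ⟨B, N, s, r, P.biUnion (nd (2 ^ lev j)), c2, ?_, d1, d2, fun i hi => ?_⟩
  · refine disjoint_left.2 fun p hp => ?_
    obtain ⟨q, hq, hp⟩ := mem_biUnion.1 hp
    exact (b2 q (hP hq) p hp).1
  · obtain ⟨e1, e2, e3⟩ := d3 i hi
    exact ⟨e1, e2, fun b hb => ⟨(e3 b hb).1, fun p hp =>
      (mem_filter.1 (mem_filter.1 (hQ' (hP ((e3 b hb).2 hp)))).1).2⟩⟩

end Pool.Agent.MP_2876a2_nt.Tu.Z

end

noncomputable section
open Finset Filter
open scoped Pointwise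


namespace Pool.Agent.MP_2876a2_nt.Tu.Z

theorem bi_Tol (f : ℕ → ℝ) (hf : ∀ p, 0 ≤ f p) (g : ℕ → Finset ℕ) (t : ℕ) :
    ∑ p ∈ (range t).biUnion g, f p ≤ ∑ i ∈ range t, ∑ p ∈ g i, f p := by
  induction t with
  | zero => simp
  | succ t ih =>
    rw [Finset.range_add_one, Finset.biUnion_insert, Finset.sum_insert (by simp)]
    have h := Finset.sum_union_inter (s₁ := g t) (s₂ := (range t).biUnion g) (f := f)
    have h2 : 0 ≤ ∑ p ∈ g t ∩ (range t).biUnion g, f p := Finset.sum_nonneg fun p _ => hf p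
    linarith

theorem ev_Tol : ∀ᶠ m : ℕ in atTop,
    (((m : ℝ) + 1) ^ 4 + 1) * Real.exp (-√(m : ℝ) / 22) ≤ Real.exp (-√(m : ℝ) / 30) := by
  have ht : Tendsto (fun m : ℕ => √(m : ℝ)) atTop atTop :=
    Real.tendsto_sqrt_atTop.comp tendsto_natCast_atTop_atTop
  filter_upwards [ht.eventually_ge_atTop (17 * 362880 * 100 ^ 9), eventually_ge_atTop 1]
    with m hm hm1
  set y := √(m : ℝ) with hy
  have hy0 : 0 ≤ y := Real.sqrt_nonneg _
  have hm0 : (1 : ℝ) ≤ m := by exact_mod_cast hm1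
  have hyy : y ^ 2 = m := Real.sq_sqrt (by linarith)
  have h1 : ((m : ℝ) + 1) ^ 4 + 1 ≤ 17 * y ^ 8 := by
    have e : y ^ 8 = (m : ℝ) ^ 4 := by rw [← hyy]; ring
    have a : ((m : ℝ) + 1) ^ 4 ≤ (2 * m) ^ 4 := pow_le_pow_left₀ (by linarith) (by linarith) 4
    have b : (1 : ℝ) ≤ (m : ℝ) ^ 4 := one_le_pow₀ hm0
    rw [e]; nlinarith
  have h2 : (y / 100) ^ 9 / (Nat.factorial 9 : ℝ) ≤ Real.exp (y / 100) :=
    Real.pow_div_factorial_le_exp _ (by positivity) 9
  have h3 : (Nat.factorial 9 : ℝ) = 362880 := by norm_num [Nat.factorial]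
  have h4 : 17 * y ^ 8 ≤ (y / 100) ^ 9 / (Nat.factorial 9 : ℝ) := by
    rw [h3, div_pow, div_div, le_div_iff₀ (by positivity)]
    have : 0 ≤ y ^ 8 := by positivity
    calc 17 * y ^ 8 * (100 ^ 9 * 362880) = y ^ 8 * (17 * 362880 * 100 ^ 9) := by ring
      _ ≤ y ^ 8 * y := mul_le_mul_of_nonneg_left hm this
      _ = y ^ 9 := by ring
  calc (((m : ℝ) + 1) ^ 4 + 1) * Real.exp (-y / 22)
      ≤ Real.exp (y / 100) * Real.exp (-y / 22) :=
        mul_le_mul_of_nonneg_right (h1.trans (h4.trans h2)) (Real.exp_pos _).le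
    _ = Real.exp (y / 100 + -y / 22) := (Real.exp_add _ _).symm
    _ ≤ Real.exp (-y / 30) := Real.exp_le_exp.2 (by linarith)

theorem one_Tol (m π : ℕ) :
    (if 2 ^ m < π then (1 / π : ℝ) else 0) ≤ Real.exp (-√(m : ℝ) / 22) := by
  split_ifs with h
  · have h1 : (m : ℝ) + 1 ≤ π := by
      have : m < 2 ^ m := Nat.lt_two_pow_self
      exact_mod_cast (by omega : m + 1 ≤ π)
    have h2 : ((2 : ℝ) ^ m) ≤ π := by exact_mod_cast h.le
    have hp : (0 : ℝ) < 2 ^ m := by positivity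
    have hs : √(m : ℝ) ≤ m := by
      rw [Real.sqrt_le_left (by positivity)]
      rcases Nat.eq_zero_or_pos m with h0 | h0
      · simp [h0]
      · have : (1 : ℝ) ≤ m := by exact_mod_cast h0
        nlinarith
    have h3 : Real.exp (√(m : ℝ) / 22) ≤ 2 ^ m := by
      have e : (2 : ℝ) ^ m = Real.exp (m * Real.log 2) := by
        rw [Real.exp_nat_mul, Real.exp_log (by norm_num)]
      rw [e]
      apply Real.exp_le_exp.2
      have := Real.log_two_gt_d9
      have h0 : (0 : ℝ) ≤ m := by positivity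
      nlinarith
    rw [neg_div, Real.exp_neg, one_div]
    exact inv_anti₀ (Real.exp_pos _) (h3.trans h2)
  · exact (Real.exp_pos _).le

theorem out_Tol {m m' : ℕ} {Ψ : Finset ℕ} (h : Out m' Ψ) :
    ∑ p ∈ Ψ, (if 2 ^ m < p then (1 / p : ℝ) else 0) ≤ Real.exp (-√(m : ℝ) / 22) := by
  by_cases hm : m < 101 * m'
  · have h1 : ∑ p ∈ Ψ, (if 2 ^ m < p then (1 / p : ℝ) else 0) ≤ ∑ p ∈ Ψ, (1 / p : ℝ) :=
      Finset.sum_le_sum fun p _ => by split_ifs <;> [exact le_rfl; positivity]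
    refine h1.trans (h.2.trans (Real.exp_le_exp.2 ?_))
    have h2 : √(m : ℝ) ≤ 11 * √(m' : ℝ) := by
      have : (m : ℝ) ≤ 11 ^ 2 * m' := by exact_mod_cast (by omega : m ≤ 11 ^ 2 * m')
      calc √(m : ℝ) ≤ √(11 ^ 2 * (m' : ℝ)) := Real.sqrt_le_sqrt this
        _ = 11 * √(m' : ℝ) := by
          rw [Real.sqrt_mul (by positivity), Real.sqrt_sq (by norm_num)]
    linarith
  · have : ∑ p ∈ Ψ, (if 2 ^ m < p then (1 / p : ℝ) else 0) = 0 := by
      refine Finset.sum_eq_zero fun p hp => if_neg ?_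
      have h1 := (h.1 p hp).2
      have h2 : 2 ^ (101 * m') ≤ 2 ^ m := Nat.pow_le_pow_right (by norm_num) (by omega)
      omega
    rw [this]; exact (Real.exp_pos _).le

theorem sTol : StTol := by
  obtain ⟨m0, hm0⟩ := eventually_atTop.1 ev_Tol
  filter_upwards [tendsto_lev.eventually_ge_atTop m0] with j0 hj0 t π Ψ hΨ
  set m := lev (j0 + t) with hm
  have hmm : m0 ≤ m := hj0.trans (lev_mono (by omega))
  have ht : t < (m + 1) ^ 4 := lt_of_le_of_lt (by omega) (lt_lev (j0 + t))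
  unfold Tol
  rw [Finset.sum_filter]
  set f : ℕ → ℝ := fun p => if 2 ^ m < p then (1 / p : ℝ) else 0 with hf
  have hf0 : ∀ p, 0 ≤ f p := fun p => by
    simp only [hf]; split_ifs <;> [positivity; exact le_rfl]
  have h1 : ∑ p ∈ insert π ((range t).biUnion Ψ), f p
      ≤ f π + ∑ p ∈ (range t).biUnion Ψ, f p := by
    by_cases hπ : π ∈ (range t).biUnion Ψ
    · rw [Finset.insert_eq_of_mem hπ]; linarith [hf0 π]
    · rw [Finset.sum_insert hπ]
  have h2 := bi_Tol f hf0 Ψ t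
  have h3 : ∑ i ∈ range t, ∑ p ∈ Ψ i, f p ≤ t * Real.exp (-√(m : ℝ) / 22) := by
    have := Finset.sum_le_card_nsmul (range t) (fun i => ∑ p ∈ Ψ i, f p)
      (Real.exp (-√(m : ℝ) / 22)) fun i hi => out_Tol (hΨ i (mem_range.1 hi))
    simpa using this
  have h4 : f π ≤ Real.exp (-√(m : ℝ) / 22) := one_Tol m π
  have h5 : (t : ℝ) ≤ ((m : ℝ) + 1) ^ 4 := by exact_mod_cast ht.le
  have h6 := hm0 m hmm
  have h7 := mul_le_mul_of_nonneg_right h5 (Real.exp_pos (-√(m : ℝ) / 22)).le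
  calc ∑ p ∈ insert π ((range t).biUnion Ψ), f p
      ≤ (((m : ℝ) + 1) ^ 4 + 1) * Real.exp (-√(m : ℝ) / 22) := by linarith
    _ ≤ _ := h6

end Pool.Agent.MP_2876a2_nt.Tu.Z

end

noncomputable section
open Finset Filter
open scoped Pointwise


namespace Pool.Agent.MP_2876a2_nt.Tu.Z

theorem rec_DC {α : Type} (x0 : ℕ → α) (step : ℕ → (ℕ → α) → α) :
    ∃ x : ℕ → α, ∀ t, x t = step t fun t' => if t' < t then x t' else x0 t' := by
  refine ⟨(wellFounded_lt (α := ℕ)).fix fun t ih =>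
    step t fun t' => if h : t' < t then ih t' h else x0 t', fun t => ?_⟩
  rw [WellFounded.fix_eq]
  simp only [dite_eq_ite]

theorem sDC : StDC := by
  intro α Good Q Rel x0 t2 h0 h1
  have h2 : ∀ (t : ℕ) (x : ℕ → α), ∃ a, (t < t2 → a = x0 t) ∧
      (t2 ≤ t → (∀ t' < t, Good t' (x t')) → Good t a ∧ Q t a ∧ ∀ t' < t, Rel (x t') a) := by
    intro t x
    by_cases h : t2 ≤ t ∧ ∀ t' < t, Good t' (x t')
    · obtain ⟨a, ha⟩ := h1 t h.1 x h.2
      exact ⟨a, fun h' => absurd h.1 (not_le.2 h'), fun _ _ => ha⟩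
    · exact ⟨x0 t, fun _ => rfl, fun e1 e2 => absurd ⟨e1, e2⟩ h⟩
  choose step hs1 hs2 using h2
  obtain ⟨x, hx⟩ := rec_DC x0 step
  have h3 : ∀ t < t2, x t = x0 t := fun t ht => (hx t).trans (hs1 t _ ht)
  have h4 : ∀ t, t2 ≤ t → (∀ t' < t, Good t' (x t')) →
      Good t (x t) ∧ Q t (x t) ∧ ∀ t' < t, Rel (x t') (x t) := by
    intro t ht hg
    obtain ⟨e1, e2, e3⟩ := hs2 t (fun t' => if t' < t then x t' else x0 t') ht
      fun t' ht' => by simpa only [if_pos ht'] using hg t' ht'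
    rw [← hx t] at e1 e2 e3
    exact ⟨e1, e2, fun t' ht' => by simpa only [if_pos ht'] using e3 t' ht'⟩
  have h5 : ∀ t, Good t (x t) := by
    intro t
    induction t using Nat.strong_induction_on with
    | _ t ih =>
      rcases lt_or_ge t t2 with h | h
      · rw [h3 t h]
        exact h0 t h
      · exact (h4 t h ih).1
  exact ⟨x, h3, h5, fun t ht => (h4 t ht fun t' _ => h5 t').2⟩

end Pool.Agent.MP_2876a2_nt.Tu.Z

end

noncomputable section
open Finset Filter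
open scoped Pointwise


namespace Pool.Agent.MP_2876a2_nt.Tu.Z

/-- the data chosen at one scale -/
abbrev Dt_Ext : Type := (ℕ → Finset ℕ) × (ℕ → ℕ) × ℕ × ℕ × Finset ℕ

def Good_Ext (M j0 t : ℕ) (a : Dt_Ext) : Prop := Out (lev (j0 + t)) a.2.2.2.2 ∧
  (∀ i i', i ≠ i' → (a.2.1 i).Coprime (a.2.1 i')) ∧
  ∀ i < M, B1 (j0 + t) (a.1 i) (a.2.1 i) a.2.2.1 ∧ (a.2.1 i).primeFactors ⊆ a.2.2.2.2

def Cls_Ext (M π : ℕ) (G ρ : ℕ → ℕ) (t : ℕ) (a : Dt_Ext) : Prop := π ∉ a.2.2.2.2 ∧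
  1 ≤ a.2.2.2.1 ∧ ∀ i < M, ∀ b ∈ a.1 i, b.primeFactors.card = a.2.2.2.1 ∧
    ∀ p ∈ b.primeFactors, p ≡ ρ t [MOD G t]

def Rel_Ext (a a' : Dt_Ext) : Prop := Disjoint a.2.2.2.2 a'.2.2.2.2

theorem step_Ext {M j0 t π : ℕ} {G ρ : ℕ → ℕ}
    (hT : ∀ (t π : ℕ) (Ψ : ℕ → Finset ℕ), (∀ t' < t, Out (lev (j0 + t')) (Ψ t')) →
      Tol (lev (j0 + t)) (insert π ((range t).biUnion Ψ)))
    (hA : Adm M (j0 + t) (G t) (ρ t)) (x : ℕ → Dt_Ext) (hx : ∀ t' < t, Good_Ext M j0 t' (x t')) :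
    ∃ a, Good_Ext M j0 t a ∧ Cls_Ext M π G ρ t a ∧ ∀ t' < t, Rel_Ext (x t') a := by
  obtain ⟨B, N, s, r, Ψ, h1, h2, h3, h4, h5⟩ :=
    hA _ (hT t π (fun t' => (x t').2.2.2.2) fun t' ht' => (hx t' ht').1)
  refine ⟨(B, N, s, r, Ψ), ⟨h1, h4, fun i hi => ⟨(h5 i hi).1, (h5 i hi).2.1⟩⟩,
    ⟨fun hπ => ?_, h3, fun i hi => (h5 i hi).2.2⟩, fun t' ht' => ?_⟩
  · exact disjoint_left.1 h2 hπ (mem_insert_self _ _)
  · refine disjoint_left.2 fun p hp hp' => disjoint_left.1 h2 hp' ?_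
    exact mem_insert_of_mem (mem_biUnion.2 ⟨t', mem_range.2 ht', hp⟩)

theorem sm_Ext {M j0 : ℕ} (x : ℕ → Dt_Ext) (hG : ∀ t, Good_Ext M j0 t (x t))
    (hR : ∀ t, ∀ t' < t, Rel_Ext (x t') (x t)) :
    SM M j0 (fun i t => (x t).1 i) (fun i t => (x t).2.1 i) fun t => (x t).2.2.1 := by
  have key : ∀ i < M, ∀ i' < M, ∀ t t', t ≠ t' → ((x t).2.1 i).Coprime ((x t').2.1 i') := by
    intro i hi i' hi' t t' h
    have h1 := (hG t).2.2 i hi
    have h2 := (hG t').2.2 i' hi'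
    rw [← Nat.disjoint_primeFactors h1.1.blk.sqf.ne_zero h2.1.blk.sqf.ne_zero]
    refine Disjoint.mono h1.2 h2.2 ?_
    rcases lt_or_gt_of_ne h with h | h
    · exact hR t' t h
    · exact (hR t t' h).symm
  refine ⟨fun i hi => ⟨fun t => ((hG t).2.2 i hi).1, fun t t' h => key i hi i hi t t' h⟩,
    fun i hi i' hi' hii t t' => ?_⟩
  by_cases h : t = t'
  · subst h
    exact (hG t).2.1 i i' hii
  · exact key i hi i' hi' t t' h

theorem sExt (hA : StAdm) (hT : StTol) (hD : StDC) : StExt := by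
  intro M hM
  have h1 := eventually_forall_ge_atTop.2 (hA M 1 0 hM one_pos (Nat.coprime_one_right 0))
  filter_upwards [h1, hT] with j0 hj hTj
  obtain ⟨x, -, hxG, hxQ⟩ := hD Dt_Ext (Good_Ext M j0) (Cls_Ext M 0 (fun _ => 1) fun _ => 0)
    Rel_Ext (fun _ => (fun _ => ∅, fun _ => 0, 0, 0, ∅)) 0 (fun t ht => absurd ht (Nat.not_lt_zero t))
    fun t _ x hx => step_Ext hTj (hj _ (Nat.le_add_right _ _)) x hx
  have hxR : ∀ t, ∀ t' < t, Rel_Ext (x t') (x t) := fun t => (hxQ t (Nat.zero_le t)).2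
  refine ⟨_, _, _, sm_Ext x hxG hxR, fun t2 π G ρ hG => ?_⟩
  obtain ⟨y, hy0, hyG, hyQ⟩ := hD Dt_Ext (Good_Ext M j0) (Cls_Ext M π G ρ) Rel_Ext x t2
    (fun t _ => hxG t) fun t ht x hx => step_Ext hTj (hG t ht) x hx
  have hyR : ∀ t, ∀ t' < t, Rel_Ext (y t') (y t) := by
    intro t t' h
    rcases lt_or_ge t t2 with ht | ht
    · rw [hy0 t ht, hy0 t' (h.trans ht)]
      exact hxR t t' h
    · exact (hyQ t ht).2 t' h
  refine ⟨_, _, _, fun t => (y t).2.2.2.1, sm_Ext y hyG hyR, fun t ht => ?_, fun t ht => ?_⟩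
  · simp only [hy0 t ht, implies_true, and_self]
  · obtain ⟨⟨q1, q2, q3⟩, -⟩ := hyQ t ht
    exact ⟨q2, fun i hi => ⟨fun h => q1 (((hyG t).2.2 i hi).2 h), q3 i hi⟩⟩

end Pool.Agent.MP_2876a2_nt.Tu.Z

end

noncomputable section
open Finset Filter
open scoped Pointwise


namespace Pool.Agent.MP_2876a2_nt.Tu.Z

theorem gcd_Mul {N N' b b' : ℕ} (h : N.Coprime N') (hb : b ∣ N) (hb' : b' ∣ N') :
    Nat.gcd (b * b') N = b := by
  rw [Nat.Coprime.gcd_mul_right_cancel b (h.symm.coprime_dvd_left hb'), Nat.gcd_eq_left hb]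

theorem inj_Mul {B B' : Finset ℕ} {N N' : ℕ} (h : N.Coprime N') (hB : ∀ b ∈ B, b ∣ N)
    (hB' : ∀ b ∈ B', b ∣ N') :
    Set.InjOn (fun p : ℕ × ℕ => p.1 * p.2) ((B ×ˢ B' : Finset (ℕ × ℕ)) : Set (ℕ × ℕ)) := by
  rintro ⟨a, a'⟩ ha ⟨b, b'⟩ hb e
  simp only [coe_product, Set.mem_prod, mem_coe] at ha hb
  change a * a' = b * b' at e
  have e1 := gcd_Mul h (hB a ha.1) (hB' a' ha.2)
  have e2 := gcd_Mul h.symm (hB' a' ha.2) (hB a ha.1)
  rw [e, gcd_Mul h (hB b hb.1) (hB' b' hb.2)] at e1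
  rw [mul_comm, e, mul_comm, gcd_Mul h.symm (hB' b' hb.2) (hB b hb.1)] at e2
  rw [e1, e2]

theorem sMul : StMul := by
  intro B B' N N' s s' h h' hc
  have hi := inj_Mul hc h.dvd h'.dvd
  have hcard : (B * B').card = B.card * B'.card := by
    rw [mul_def, card_image_of_injOn hi, card_product]
  refine ⟨⟨Nat.squarefree_mul_iff.2 ⟨hc, h.sqf, h'.sqf⟩, h.ne.mul h'.ne, fun a ha => ?_, ?_⟩,
    hcard, fun f => ?_⟩
  · obtain ⟨b, hb, b', hb', rfl⟩ := mem_mul.1 ha
    obtain ⟨n, h1, h2, h3⟩ := h.sup b hb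
    obtain ⟨n', h1', h2', h3'⟩ := h'.sup b' hb'
    refine ⟨n * n', mul_dvd_mul h1 h1', mul_dvd_mul h2 h2', ?_⟩
    have e : sg (n * n') = sg n * sg n' :=
      ArithmeticFunction.isMultiplicative_sigma.map_mul_of_coprime
        (Nat.Coprime.coprime_dvd_right h2' (hc.coprime_dvd_left h2))
    rw [e, mul_mul_mul_comm, h3, h3', mul_mul_mul_comm]
  · rw [hcard, mul_pow, mul_pow]
    exact Nat.mul_le_mul h.big h'.big
  · rw [mul_def, sum_image hi, sum_product]

end Pool.Agent.MP_2876a2_nt.Tu.Z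

end

noncomputable section
/-! Products of blocks at late scales. -/


open Finset Filter
open scoped Pointwise


namespace Pool.Agent.MP_2876a2_nt.Tu.Z

theorem tel_Prod (x : ℝ) (hx : 2 ≤ x) (m : ℕ) :
    ∑ i ∈ range m, 1 / (x + i) ^ 2 ≤ 1 / (x - 1) - 1 / (x - 1 + m) := by
  induction m with
  | zero => simp
  | succ m ih =>
    rw [sum_range_succ]
    have hm : (0 : ℝ) ≤ m := Nat.cast_nonneg m
    have h1 : 0 < x - 1 + m := by linarith
    have h2 : 0 < x + m := by linarith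
    have h3 : 1 / (x + m) ^ 2 ≤ 1 / (x - 1 + m) - 1 / (x + m) := by
      rw [div_sub_div _ _ h1.ne' h2.ne', div_le_div_iff₀ (by positivity) (by positivity)]
      nlinarith
    have h4 : x - 1 + ((m + 1 : ℕ) : ℝ) = x + m := by
      push_cast
      ring
    rw [h4]
    linarith

theorem tail_Prod (j0 u : ℕ) (hj : 2 ≤ j0) (I : Finset ℕ) (hI : ∀ t ∈ I, u ≤ t) :
    ∑ t ∈ I, 1 / ((j0 + t : ℕ) : ℝ) ^ 2 ≤ 2 / ((j0 : ℝ) + u) := by
  have hx : (2 : ℝ) ≤ (j0 : ℝ) + u := by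
    have : (2 : ℝ) ≤ j0 := by exact_mod_cast hj
    have : (0 : ℝ) ≤ u := Nat.cast_nonneg u
    linarith
  have h1 : I ⊆ Ico u (I.sup id + 1) := fun t ht =>
    mem_Ico.2 ⟨hI t ht, Nat.lt_succ_of_le (le_sup (f := id) ht)⟩
  refine (sum_le_sum_of_subset_of_nonneg h1 fun _ _ _ => by positivity).trans ?_
  rw [sum_Ico_eq_sum_range]
  have h2 := tel_Prod _ hx (I.sup id + 1 - u)
  have h3 : ∀ i : ℕ, ((j0 + (u + i) : ℕ) : ℝ) = (j0 : ℝ) + u + i := fun i => by
    push_cast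
    ring
  simp only [h3]
  refine h2.trans ?_
  generalize (j0 : ℝ) + u = x at hx
  generalize I.sup id + 1 - u = m
  have hm : (0 : ℝ) ≤ m := Nat.cast_nonneg m
  have h4 : 0 ≤ 1 / (x - 1 + m) := by
    have : 0 < x - 1 + m := by linarith
    positivity
  have h5 : 1 / (x - 1) ≤ 2 / x := by
    rw [div_le_div_iff₀ (by linarith) (by linarith)]
    linarith
  linarith

theorem sProd (hM : StMul) : StProd := by
  intro j0 B N s hj H u I hI
  have hb : Bk (∏ i ∈ I, B i) (∏ i ∈ I, N i) (∏ i ∈ I, s i) := by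
    clear hI
    induction I using Finset.induction_on with
    | empty =>
      simp only [prod_empty]
      refine ⟨squarefree_one, one_nonempty, fun b hb => ⟨1, ?_, dvd_rfl, ?_⟩, by simp⟩
      · rw [mem_one.1 hb]
      · rw [mem_one.1 hb]
        simp
    | insert i I hi ih =>
      rw [prod_insert hi, prod_insert hi, prod_insert hi]
      exact (hM _ _ _ _ _ _ (H.one i).blk ih
        (Nat.Coprime.prod_right fun j hj => H.cop i j fun e => hi (e ▸ hj))).1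
  have hr : ∀ a ∈ ∏ t ∈ I, B t, ((∏ t ∈ I, s t : ℕ) : ℝ) ≤
      Real.exp (∑ t ∈ I, 1 / ((j0 + t : ℕ) : ℝ) ^ 2) * a := by
    clear hI hb
    induction I using Finset.induction_on with
    | empty =>
      intro a ha
      rw [prod_empty] at ha
      rw [mem_one.1 ha]
      simp
    | insert i I hi ih =>
      intro a ha
      rw [prod_insert hi] at ha
      obtain ⟨b, hb, c, hc, rfl⟩ := mem_mul.1 ha
      rw [prod_insert hi, sum_insert hi, Real.exp_add, Nat.cast_mul, Nat.cast_mul,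
        mul_mul_mul_comm]
      exact mul_le_mul ((H.one i).rat b hb) (ih c hc) (Nat.cast_nonneg _) (by positivity)
  exact ⟨hb, fun a ha => ⟨hb.pos ha, hb.le ha, (hr a ha).trans (mul_le_mul_of_nonneg_right
    (Real.exp_le_exp.2 (tail_Prod j0 u hj I hI)) (Nat.cast_nonneg a))⟩⟩

end Pool.Agent.MP_2876a2_nt.Tu.Z

end

noncomputable section
open Finset Filter
open scoped Pointwise


namespace Pool.Agent.MP_2876a2_nt.Tu.Z

theorem one_z_Tail {b W ρ : ℕ} (hb : Squarefree b) (h : ∀ p ∈ b.primeFactors, p ≡ ρ [MOD W]) :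
    b ≡ ρ ^ b.primeFactors.card [MOD W] := by
  conv_lhs => rw [← Nat.prod_primeFactors_of_squarefree hb]
  rw [← prod_const]
  exact Nat.ModEq.prod h

theorem prod_z_Tail (W : ℕ) (B : ℕ → Finset ℕ) (x : ℕ → ℕ) (I : Finset ℕ)
    (h : ∀ t ∈ I, ∀ b ∈ B t, b ≡ x t [MOD W]) :
    ∀ γ ∈ ∏ t ∈ I, B t, γ ≡ ∏ t ∈ I, x t [MOD W] := by
  induction I using Finset.induction_on with
  | empty =>
    intro γ hγ
    rw [prod_empty, Finset.mem_one] at hγ
    rw [hγ, prod_empty]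
  | insert a I ha ih =>
    intro γ hγ
    rw [prod_insert ha] at hγ ⊢
    obtain ⟨u, hu, v, hv, rfl⟩ := mem_mul.1 hγ
    exact (h a (mem_insert_self _ _) u hu).mul
      (ih (fun t ht => h t (mem_insert_of_mem ht)) v hv)

theorem mem_z_Tail (B : ℕ → Finset ℕ) (b : ℕ → ℕ) (hb : ∀ t, b t ∈ B t) (I : Finset ℕ) :
    ∏ t ∈ I, b t ∈ ∏ t ∈ I, B t := by
  induction I using Finset.induction_on with
  | empty => simp
  | insert a I ha ih => rw [prod_insert ha, prod_insert ha]; exact mul_mem_mul (hb a) ih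

theorem sTail : StTail := by
  intro j0 t2 J W B N s G ρ r hS h
  have sq : ∀ t, ∀ b ∈ B t, Squarefree b := fun t b hb =>
    (hS.one t).blk.sqf.squarefree_of_dvd ((hS.one t).blk.dvd b hb)
  have sub : ∀ t, ∀ b ∈ B t, b.primeFactors ⊆ (N t).primeFactors := fun t b hb =>
    Nat.primeFactors_mono ((hS.one t).blk.dvd b hb) (hS.one t).blk.sqf.ne_zero
  choose b hb using fun t => (hS.one t).blk.ne
  have hx : ∀ t, t2 ≤ t → ∃ p, p ∈ (b t).primeFactors := fun t ht =>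
    card_pos.1 (by rw [((h t ht).2.2 _ (hb t)).1]; exact (h t ht).1)
  refine ⟨prod_z_Tail W B _ _ fun t ht x hx => ?_, fun t ht => ?_, fun t ht hG hW => ?_⟩
  · obtain ⟨-, h2, h3⟩ := h t (mem_Ico.1 ht).1
    rw [← (h3 x hx).1]
    exact one_z_Tail (sq t x hx) fun p hp => ((h3 x hx).2 p hp).of_dvd h2
  · obtain ⟨p, hp⟩ := hx t (mem_Ico.1 ht).1
    obtain ⟨n, hn⟩ := (Nat.dvd_of_mem_primeFactors hp).trans (dvd_prod_of_mem b ht)
    exact ⟨n, p, sub t _ (hb t) hp, ((h t (mem_Ico.1 ht).1).2.2 _ (hb t)).2 p hp,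
      by rw [mul_comm, ← hn]; exact mem_z_Tail B b hb _⟩
  · obtain ⟨p, hp⟩ := hx t ht
    have h1 : p.Prime := Nat.prime_of_mem_primeFactors hp
    obtain ⟨n, hn1, hn2, hn3⟩ := (hS.one t).blk.sup _ (hb t)
    obtain ⟨c, hc⟩ := (Nat.dvd_of_mem_primeFactors hp).trans hn1
    have hsq : Squarefree n := (hS.one t).blk.sqf.squarefree_of_dvd hn2
    have h2 : p.Coprime c := Nat.coprime_of_squarefree_mul (hc ▸ hsq)
    have h3 : sg n = (p + 1) * sg c := by
      unfold sg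
      rw [hc, ArithmeticFunction.isMultiplicative_sigma.map_mul_of_coprime h2,
        ArithmeticFunction.sigma_one_apply p, h1.sum_divisors]
    have h4 : W ∣ p + 1 :=
      ((((((h t ht).2.2 _ (hb t)).2 p hp).of_dvd (h t ht).2.1).add_right 1).dvd_iff
        (dvd_refl _)).2 hG
    have h5 : W ∣ s t * n := by
      rw [← hn3, h3]
      exact (h4.mul_right _).mul_right _
    exact (Nat.Coprime.coprime_dvd_right hn2 hW).dvd_of_dvd_mul_right h5

end Pool.Agent.MP_2876a2_nt.Tu.Z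

end
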