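import Pool.Agent.MP_2876a2_nt.Tu.St4

/-!
Exponential sums and the last member.
-/

set_option autoImplicit false
set_option linter.all false

noncomputable section
/-! The weight of a product of blocks. -/


open Finset Filter
open scoped Pointwise


namespace Pool.Agent.MP_2876a2_nt.Tu.Z

theorem nonneg_Wt (n : ℕ) : 0 ≤ wt n := sum_nonneg fun _ _ => by positivity

theorem mul_Wt (m n : ℕ) : wt (m * n) ≤ wt m * wt n := by
  unfold wt
  rw [Nat.divisors_mul, mul_def, sum_mul_sum, ← sum_product']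
  refine (sum_image_le_of_nonneg fun _ _ => by positivity).trans (le_of_eq ?_)
  refine sum_congr rfl fun x _ => ?_
  rw [Nat.cast_mul, Real.mul_rpow (Nat.cast_nonneg _) (Nat.cast_nonneg _)]

theorem le_Wt (n : ℕ) : wt n ≤ n := by
  have h1 : wt n ≤ n.divisors.card • (1 : ℝ) := by
    refine sum_le_card_nsmul _ _ _ fun d hd => ?_
    have h : (1 : ℝ) ≤ d := by exact_mod_cast Nat.pos_of_mem_divisors hd
    exact Real.rpow_le_one_of_one_le_of_nonpos h (by norm_num)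
  rw [nsmul_eq_mul, mul_one] at h1
  exact h1.trans (by exact_mod_cast Nat.card_divisors_le_self n)

theorem one_Wt : wt 1 = 1 := by simp [wt]

theorem cmp_Wt (n : ℕ) : V.wt n ≤ wt n := by
  refine sum_le_sum fun d hd => ?_
  have h : (1 : ℝ) ≤ d := by exact_mod_cast Nat.pos_of_mem_divisors hd
  rw [Real.sqrt_eq_rpow, ← Real.rpow_neg (Nat.cast_nonneg d)]
  exact Real.rpow_le_rpow_of_exponent_le h (by norm_num)

theorem tel_Wt (x : ℝ) (hx : 2 ≤ x) (m : ℕ) :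
    ∑ i ∈ range m, 1 / (x + i) ^ 2 ≤ 1 / (x - 1) - 1 / (x - 1 + m) := by
  induction m with
  | zero => simp
  | succ m ih =>
    rw [sum_range_succ]
    have hm : (0 : ℝ) ≤ m := Nat.cast_nonneg m
    have h1 : 0 < x - 1 + m := by linarith
    have h2 : 0 < x + m := by linarith
    have h3 : 1 / (x + m) ^ 2 ≤ 1 / (x - 1 + m) - 1 / (x + m) := by
      rw [div_sub_div _ _ h1.ne' h2.ne', div_le_div_iff₀ (by positivity) (by positivity)]
      nlinarith
    have h4 : x - 1 + ((m + 1 : ℕ) : ℝ) = x + m := by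
      push_cast
      ring
    rw [h4]
    linarith

theorem tail_Wt (j0 : ℕ) (hj : 2 ≤ j0) (I : Finset ℕ) :
    ∑ t ∈ I, 1 / ((j0 + t : ℕ) : ℝ) ^ 2 ≤ 1 := by
  have hx : (2 : ℝ) ≤ (j0 : ℝ) := by exact_mod_cast hj
  have h1 : I ⊆ range (I.sup id + 1) := fun t ht =>
    mem_range.2 (Nat.lt_succ_of_le (le_sup (f := id) ht))
  refine (sum_le_sum_of_subset_of_nonneg h1 fun _ _ _ => by positivity).trans ?_
  have h2 := tel_Wt _ hx (I.sup id + 1)
  simp only [Nat.cast_add j0]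
  refine h2.trans ?_
  generalize (j0 : ℝ) = x at hx
  generalize I.sup id + 1 = m
  have hm : (0 : ℝ) ≤ m := Nat.cast_nonneg m
  have h4 : 0 ≤ 1 / (x - 1 + m) := by
    have : 0 < x - 1 + m := by linarith
    positivity
  have h5 : 1 / (x - 1) ≤ 1 := by
    rw [div_le_one (by linarith)]
    linarith
  linarith

theorem sWt : StWt := by
  refine ⟨mul_Wt, fun n => ⟨nonneg_Wt n, le_Wt n, cmp_Wt n⟩, fun j0 B N s hj H I a ha => ?_⟩
  have key : wt a ≤ Real.exp (∑ t ∈ I, 1 / ((j0 + t : ℕ) : ℝ) ^ 2) := by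
    induction I using Finset.induction_on generalizing a with
    | empty =>
      rw [prod_empty] at ha
      rw [mem_one.1 ha, one_Wt, sum_empty, Real.exp_zero]
    | insert t I ht ih =>
      rw [prod_insert ht] at ha
      obtain ⟨b, hb, c, hc, rfl⟩ := mem_mul.1 ha
      rw [sum_insert ht, Real.exp_add]
      exact (mul_Wt _ _).trans
        (mul_le_mul ((H.one t).thin b hb) (ih c hc) (nonneg_Wt _) (Real.exp_pos _).le)
  refine key.trans ((Real.exp_le_exp.2 (tail_Wt j0 hj I)).trans ?_)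
  exact Real.exp_one_lt_three.le

end Pool.Agent.MP_2876a2_nt.Tu.Z

end

noncomputable section
open Finset Filter
open scoped Pointwise


namespace Pool.Agent.MP_2876a2_nt.Tu.Z

theorem sSlow : StSlow := by
  intro j0 n
  refine ⟨(j0 + 202 * n + 2) ^ 4, fun s hs t ht => ?_⟩
  have h0 : j0 + 202 * n + 2 ≤ lev (j0 + t) := le_lev.2 (by omega)
  have h1 : lev (j0 + t) ^ 4 ≤ j0 + t := le_lev.1 le_rfl
  have h2 := (hs t).2
  obtain ⟨m, hm⟩ : ∃ m, lev (j0 + t) = m + 1 := ⟨lev (j0 + t) - 1, by omega⟩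
  rw [hm] at h0 h1 h2
  have h3 : m ≤ m ^ 4 := Nat.le_self_pow (by norm_num) m
  have h4 : m ^ 4 + (m + 1) ^ 3 ≤ (m + 1) ^ 4 := by
    have : (m + 1) ^ 4 = m ^ 4 + (m + 1) ^ 3 + (3 * m ^ 3 + 3 * m ^ 2 + m) := by ring
    omega
  have hsub : Ico (m ^ 4 - j0) ((m + 1) ^ 4 - j0) ⊆ range t := fun i hi => by
    rw [mem_Ico] at hi
    rw [mem_range]
    omega
  have h5 : ∏ i ∈ Ico (m ^ 4 - j0) ((m + 1) ^ 4 - j0), s i ≤ ∏ i ∈ range t, s i :=
    prod_le_prod_of_subset_of_one_le' hsub fun i _ _ => Nat.one_le_two_pow.trans (hs i).1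
  have h6 : (2 ^ 2 ^ m) ^ (Ico (m ^ 4 - j0) ((m + 1) ^ 4 - j0)).card ≤
      ∏ i ∈ Ico (m ^ 4 - j0) ((m + 1) ^ 4 - j0), s i :=
    pow_card_le_prod _ _ _ fun i hi => by
      rw [mem_Ico] at hi
      have : m ≤ lev (j0 + i) := le_lev.2 (by omega)
      exact (Nat.pow_le_pow_right two_pos (Nat.pow_le_pow_right two_pos this)).trans (hs i).1
  refine (Nat.pow_le_pow_left h2 n).trans (le_trans ?_ (h6.trans h5))
  rw [← pow_mul, ← pow_mul, Nat.card_Ico]
  refine Nat.pow_le_pow_right two_pos ?_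
  have h7 : (m + 1) ^ 3 ≤ (m + 1) ^ 4 - j0 - (m ^ 4 - j0) := by omega
  have h8 : 202 * n ≤ (m + 1) ^ 2 := le_trans (by omega) (Nat.le_self_pow two_ne_zero (m + 1))
  calc 101 * (m + 1) * 2 ^ (m + 1) * n = 2 ^ m * ((m + 1) * (202 * n)) := by ring
    _ ≤ 2 ^ m * ((m + 1) * (m + 1) ^ 2) :=
        Nat.mul_le_mul_left _ (Nat.mul_le_mul_left _ h8)
    _ = 2 ^ m * (m + 1) ^ 3 := by ring
    _ ≤ _ := Nat.mul_le_mul_left _ h7

end Pool.Agent.MP_2876a2_nt.Tu.Z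

end

noncomputable section
open Finset Filter
open scoped Pointwise


namespace Pool.Agent.MP_2876a2_nt.Tu.Z

theorem size_Bil {B B' : Finset ℕ} {N N' Q Q' : ℕ} {Y : ℝ} (hY : 1 ≤ Y) (h : Bk B N Q)
    (h' : Bk B' N' Q') (hQ : Y ^ (4999 / 5000 : ℝ) ≤ Q) (hQ' : 2 * Y ≤ Q') :
    Y ^ (19386 / 10000 : ℝ) ≤ (B.card : ℝ) * B'.card := by
  have hY0 : 0 < Y := lt_of_lt_of_le one_pos hY
  have h1 : ((Q : ℝ)) ^ 97 ≤ (B.card : ℝ) ^ 100 := by exact_mod_cast h.big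
  have h2 : ((Q' : ℝ)) ^ 97 ≤ (B'.card : ℝ) ^ 100 := by exact_mod_cast h'.big
  have h3 : ((Q : ℝ) * Q') ^ 97 ≤ ((B.card : ℝ) * B'.card) ^ 100 := by
    rw [mul_pow, mul_pow]
    exact mul_le_mul h1 h2 (pow_nonneg (Nat.cast_nonneg _) _) (pow_nonneg (Nat.cast_nonneg _) _)
  have h4 : Y ^ (9999 / 5000 : ℝ) ≤ (Q : ℝ) * Q' := by
    have e : Y ^ (9999 / 5000 : ℝ) = Y ^ (4999 / 5000 : ℝ) * Y := by
      rw [← Real.rpow_add_one hY0.ne']
      norm_num
    rw [e]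
    exact mul_le_mul hQ (by linarith) hY0.le (Nat.cast_nonneg _)
  have h5 : (Y ^ (19386 / 10000 : ℝ)) ^ 100 ≤ (Y ^ (9999 / 5000 : ℝ)) ^ 97 := by
    rw [← Real.rpow_natCast, ← Real.rpow_natCast, ← Real.rpow_mul hY0.le, ← Real.rpow_mul hY0.le]
    exact Real.rpow_le_rpow_of_exponent_le hY (by norm_num)
  have h6 : (Y ^ (9999 / 5000 : ℝ)) ^ 97 ≤ ((Q : ℝ) * Q') ^ 97 :=
    pow_le_pow_left₀ (by positivity) h4 _
  exact le_of_pow_le_pow_left₀ (n := 100) (by norm_num) (by positivity) (h5.trans (h6.trans h3))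

theorem sBil (hC : StCS) (hH : StH) (hN : V.StNum3) : StBil := by
  unfold StBil
  filter_upwards [hN, eventually_ge_atTop (1 : ℝ)] with Y hNY hY
  intro B B' N N' Q Q' m S q u β hB hB' hb hb' hq hu hm hS1 hS2 hqs hQ'1 hQ'2 hQ1 hQ2
  have hY0 : 0 < Y := lt_of_lt_of_le one_pos hY
  have h1 := hC B B' Q Q' ((u / q + β) * m) hb hb'
  have h2 := hH u q m Q Q' S β hq hu hm hB.s_pos hB'.s_pos hS1 hS2 (by rw [hqs]; exact hQ'1)
  rw [hqs, Nat.gcd_comm m q] at h2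
  have hqY : (q : ℝ) ≤ Y := by rw [← hqs]; exact le_qs S q β
  have hg : (1 : ℝ) ≤ ((Nat.gcd q m : ℕ) : ℝ) := by exact_mod_cast Nat.gcd_pos_of_pos_left m hq
  have h3 := hNY q Q Q' ((Nat.gcd q m : ℕ) : ℝ) (by exact_mod_cast hq) hqY
    (by exact_mod_cast hB.s_pos) hQ2 (Nat.cast_nonneg _) hQ'2 hg
  have hX := size_Bil hY hB hB' hQ1 hQ'1
  have hX0 : (0 : ℝ) ≤ (B.card : ℝ) * B'.card := by positivity
  have h4 := h1.trans (mul_le_mul_of_nonneg_left (h2.trans h3) hX0)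
  have h5 : Y ^ (5003 / 5000 : ℝ) =
      Y ^ (19386 / 10000 : ℝ) * (Y ^ (-(469 / 1000) : ℝ)) ^ 2 := by
    rw [← Real.rpow_natCast, ← Real.rpow_mul hY0.le, ← Real.rpow_add hY0]
    norm_num
  refine le_of_pow_le_pow_left₀ (n := 2) (by norm_num) (by positivity) (h4.trans ?_)
  rw [h5, mul_pow, mul_pow _ (√_), Real.sq_sqrt (Nat.cast_nonneg _)]
  have h6 : (0 : ℝ) ≤ (B.card : ℝ) * B'.card * ((Nat.gcd q m : ℕ) : ℝ) *
      (Y ^ (-(469 / 1000) : ℝ)) ^ 2 := by positivity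
  calc _ = (B.card : ℝ) * B'.card * ((Nat.gcd q m : ℕ) : ℝ) * (Y ^ (-(469 / 1000) : ℝ)) ^ 2 *
        Y ^ (19386 / 10000 : ℝ) := by ring
    _ ≤ _ := mul_le_mul_of_nonneg_left hX h6
    _ = _ := by ring

end Pool.Agent.MP_2876a2_nt.Tu.Z

end

noncomputable section
open Finset Filter
open scoped Pointwise


namespace Pool.Agent.MP_2876a2_nt.Tu.Z

theorem split_Dec {M : Type} [CommMonoid M] (f : ℕ → M) {a b c : ℕ} (h1 : a ≤ b) (h2 : b ≤ c) :
    ∏ i ∈ range c, f i = (∏ i ∈ Ico b c, f i) * ((∏ i ∈ Ico a b, f i) * ∏ i ∈ range a, f i) := by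
  rw [← prod_range_mul_prod_Ico f h2, ← prod_range_mul_prod_Ico f h1, mul_comm,
    mul_comm (∏ i ∈ range a, f i)]

theorem cop_Dec {N : ℕ → ℕ} (h : ∀ i i', i ≠ i' → (N i).Coprime (N i')) (I I' : Finset ℕ)
    (hd : ∀ i ∈ I, ∀ i' ∈ I', i ≠ i') : (∏ i ∈ I, N i).Coprime (∏ i ∈ I', N i) :=
  Nat.Coprime.prod_left fun i hi => Nat.Coprime.prod_right fun i' hi' => h i i' (hd i hi i' hi')

theorem qs_Dec {c D : ℕ} (H q : ℕ) (β : ℝ) (c0 : 0 < c) (cD : c ≤ D) :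
    qs (c * H) q β ≤ qs (D * H) q β ∧ qs (D * H) q β ≤ D * qs (c * H) q β := by
  have h1 : (1 : ℝ) ≤ c := by exact_mod_cast c0
  have h2 : (c : ℝ) ≤ D := by exact_mod_cast cD
  have h3 : (0 : ℝ) ≤ |β| * H := by positivity
  unfold qs
  push_cast
  constructor
  · refine mul_le_mul_of_nonneg_left (max_le_max le_rfl ?_) (Nat.cast_nonneg _)
    nlinarith
  · have h4 : max 1 (|β| * ((D : ℝ) * H)) ≤ D * max 1 (|β| * (c * H)) := by
      refine max_le (one_le_mul_of_one_le_of_one_le (h1.trans h2) (le_max_left _ _)) ?_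
      refine le_trans ?_ (mul_le_mul_of_nonneg_left (le_max_right _ _) (Nat.cast_nonneg _))
      have : (D : ℝ) * (|β| * H) * 1 ≤ D * (|β| * H) * c :=
        mul_le_mul_of_nonneg_left h1 (by positivity)
      nlinarith
    have h5 := mul_le_mul_of_nonneg_left h4 (Nat.cast_nonneg (α := ℝ) q)
    linarith

theorem three_Dec {j0 a b : ℕ} (hj : 2 ≤ j0)
    (h : (a : ℝ) ≤ Real.exp (2 / (j0 + (0 : ℕ))) * b) : a ≤ 3 * b := by
  have h1 : (2 : ℝ) ≤ j0 := by exact_mod_cast hj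
  have h2 : Real.exp (2 / (j0 + (0 : ℕ))) ≤ 3 := by
    refine (Real.exp_le_exp.2 ?_).trans (Real.exp_one_lt_d9.le.trans (by norm_num))
    rw [Nat.cast_zero, add_zero, div_le_one (by linarith)]
    exact h1
  exact_mod_cast h.trans (mul_le_mul_of_nonneg_right h2 (Nat.cast_nonneg b))

theorem sDec (hP : StProd) (hM : StMul) (hW : StSlow) (hS : StSel2) (hB : StBil) :
    StDec := by
  intro j0 D hj D0
  obtain ⟨t0, ht0⟩ := hW j0 20000
  obtain ⟨Y0, hY0⟩ := eventually_atTop.1 ((hS t0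
    ((∏ t ∈ range (t0 + 1), 2 ^ (101 * lev (j0 + t) * 2 ^ lev (j0 + t)) : ℕ) : ℝ) D).and hB)
  filter_upwards [eventually_ge_atTop (D * Y0),
    (tendsto_rpow_atTop (show (0 : ℝ) < 1 / 1000 by norm_num)).eventually_ge_atTop (D : ℝ),
    eventually_ge_atTop (1 : ℝ)] with Y a1 a2 a3
  intro B N s hq c J q u β c0 cD q0 hu hY hsq
  have Dp : (0 : ℝ) < D := by exact_mod_cast D0
  obtain ⟨y1, y2⟩ := qs_Dec (∏ t ∈ range J, s t) q β c0 cD
  rw [hY] at y1 y2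
  have y0 := one_le_qs (c * ∏ t ∈ range J, s t) q0 β
  obtain ⟨Y2, hY2⟩ : ∃ Y2, qs (c * ∏ t ∈ range J, s t) q β = Y2 := ⟨_, rfl⟩
  rw [hY2] at y0 y1 y2
  have y3 : Y / D ≤ Y2 := by rw [div_le_iff₀ Dp]; linarith
  obtain ⟨h1, h2⟩ := hY0 Y2 (le_of_mul_le_mul_left (a1.trans y2) Dp)
  obtain ⟨t', t, tt, tJ, b1, b2, b3, b4⟩ := h1 s hq.two_le
    (ht0 s fun i => ⟨(hq.one i).lo, (hq.one i).hi⟩)
    (Nat.cast_le.2 (prod_le_prod' fun i _ => (hq.one i).hi)) J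
    ((pow_le_pow_left₀ (by linarith) y1 2).trans (hsq.trans_eq (Nat.cast_mul _ _)))
  obtain ⟨k1, r1⟩ := hP j0 B N s hj hq 0 (range t') fun _ _ => Nat.zero_le _
  obtain ⟨k2, r2⟩ := hP j0 B N s hj hq 0 (Ico t' t) fun _ _ => Nat.zero_le _
  obtain ⟨k3, r3⟩ := hP j0 B N s hj hq 0 (Ico t J) fun _ _ => Nat.zero_le _
  have c21 := cop_Dec hq.cop (Ico t' t) (range t') fun i hi i' hi' => by
    have := mem_Ico.1 hi; have := mem_range.1 hi'; omega
  have c31 := cop_Dec hq.cop (Ico t J) (range t') fun i hi i' hi' => by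
    have := mem_Ico.1 hi; have := mem_range.1 hi'; omega
  have c32 := cop_Dec hq.cop (Ico t J) (Ico t' t) fun i hi i' hi' => by
    have := mem_Ico.1 hi; have := mem_Ico.1 hi'; omega
  obtain ⟨k21, -, s21⟩ := hM _ _ _ _ _ _ k2 k1 c21
  obtain ⟨-, -, s321⟩ := hM _ _ _ _ _ _ k3 k21 (c32.mul_right c31)
  have eS := split_Dec s tt tJ
  have pw : Y2 ^ (-(469 / 1000) : ℝ) ≤ Y ^ (-(468 / 1000) : ℝ) := by
    have e1 : Y ^ (999 / 1000 : ℝ) ≤ Y2 := by
      refine le_trans ?_ y3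
      rw [le_div_iff₀ Dp]
      refine (mul_le_mul_of_nonneg_left a2 (by positivity)).trans (le_of_eq ?_)
      rw [← Real.rpow_add (by linarith)]
      norm_num
    refine (Real.rpow_le_rpow_of_nonpos (by positivity) e1 (by norm_num)).trans ?_
    rw [← Real.rpow_mul (by linarith)]
    exact Real.rpow_le_rpow_of_exponent_le a3 (by norm_num)
  rw [ES, sum_image fun a _ b _ h => Nat.eq_of_mul_eq_mul_left c0 h,
    sum_image fun a _ b _ h => Nat.eq_of_mul_eq_mul_left c0 h, split_Dec B tt tJ]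
  generalize ∏ i ∈ range J, s i = S at *
  generalize ∏ i ∈ range t', B i = B1 at *
  generalize ∏ i ∈ Ico t' t, B i = B2 at *
  generalize ∏ i ∈ Ico t J, B i = M at *
  generalize ∏ i ∈ range t', s i = Q1 at *
  generalize ∏ i ∈ Ico t' t, s i = Q at *
  generalize ∏ i ∈ Ico t J, s i = sM at *
  have e : ∀ f : ℕ → ℂ, ∑ a ∈ M * (B2 * B1), f a
      = ∑ m ∈ M, ∑ b ∈ B2, ∑ b' ∈ B1, f (m * (b * b')) := fun f => by
    rw [s321]
    exact sum_congr rfl fun m _ => s21 fun c => f (m * c)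
  have one : ∀ m ∈ M, ‖∑ b ∈ B2, ∑ b' ∈ B1, ee ((u / q + β) * ((c * (m * (b * b')) : ℕ) : ℝ))‖ ≤
      Y ^ (-(468 / 1000) : ℝ) * ∑ b ∈ B2, ∑ b' ∈ B1,
        √((Nat.gcd q (c * (m * (b * b'))) : ℕ) : ℝ) := fun m hm => by
    obtain ⟨m1, m2, m3⟩ := r3 m hm
    have m4 := three_Dec hj m3
    have := h2 B2 B1 _ _ Q Q1 (c * m) (c * S) q u β k2 k1 (fun b hb => (r2 b hb).2.1)
      (fun b hb => ⟨(r1 b hb).1, (r1 b hb).2.1⟩) q0 hu (Nat.mul_pos c0 m1)
      (by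
        rw [eS]
        calc c * m * Q * Q1 = c * (m * (Q * Q1)) := by ring
          _ ≤ _ := Nat.mul_le_mul_left _ (Nat.mul_le_mul_right _ m2))
      (by
        rw [eS]
        calc c * (sM * (Q * Q1)) ≤ c * (3 * m * (Q * Q1)) :=
            Nat.mul_le_mul_left _ (Nat.mul_le_mul_right _ m4)
          _ = _ := by ring) hY2 b1 b2 b3 b4
    have g : (B2.card : ℝ) * B1.card * √((Nat.gcd q (c * m) : ℕ) : ℝ) ≤
        ∑ b ∈ B2, ∑ b' ∈ B1, √((Nat.gcd q (c * (m * (b * b'))) : ℕ) : ℝ) := by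
      rw [mul_assoc, ← nsmul_eq_mul, ← nsmul_eq_mul, ← sum_const, ← sum_const]
      refine sum_le_sum fun b _ => sum_le_sum fun b' _ => Real.sqrt_le_sqrt (Nat.cast_le.2 ?_)
      exact Nat.le_of_dvd (Nat.gcd_pos_of_pos_left _ q0)
        (Nat.gcd_dvd_gcd_of_dvd_right _ (Nat.mul_dvd_mul_left c (dvd_mul_right _ _)))
    have g2 := this.trans (mul_le_mul g pw (by positivity)
      (sum_nonneg fun _ _ => sum_nonneg fun _ _ => Real.sqrt_nonneg _))
    rw [mul_comm _ (Y ^ _)] at g2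
    refine le_trans (le_of_eq ?_) g2
    simp only [Nat.cast_mul, ← mul_assoc]
  have e2 : ∑ a ∈ M * (B2 * B1), √((Nat.gcd q (c * a) : ℕ) : ℝ) =
      ∑ m ∈ M, ∑ b ∈ B2, ∑ b' ∈ B1, √((Nat.gcd q (c * (m * (b * b'))) : ℕ) : ℝ) := by
    exact_mod_cast e fun a => ((√((Nat.gcd q (c * a) : ℕ) : ℝ) : ℝ) : ℂ)
  rw [e fun a => ee ((u / q + β) * ((c * a : ℕ) : ℝ)), e2, mul_sum]
  exact (norm_sum_le _ _).trans (sum_le_sum one)

end Pool.Agent.MP_2876a2_nt.Tu.Z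

end

noncomputable section
open Finset Filter
open scoped Pointwise


namespace Pool.Agent.MP_2876a2_nt.Tu.Z

theorem tel_LS (t : ℝ) (M : ℕ) :
    (ee t - 1) * ∑ n ∈ Icc 1 M, ee (t * n) = ee (t * (M + 1 : ℕ)) - ee t := by
  induction M with
  | zero => simp
  | succ M ih =>
    rw [sum_Icc_succ_top (by omega), mul_add, ih,
      show t * ((M + 1 + 1 : ℕ) : ℝ) = t + t * (M + 1 : ℕ) by push_cast; ring, ee_add]
    ring

theorem low_LS (t : ℝ) : 4 * nz t ≤ ‖ee t - 1‖ := by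
  have e : ee t = ee (t - round t) := by
    conv_lhs => rw [show t = t - round t + (round t : ℤ) by ring, ee_add, ee_int, mul_one]
  have h := Real.mul_abs_le_abs_sin (x := Real.pi * (t - round t)) (by
    rw [abs_mul, abs_of_pos Real.pi_pos]
    nlinarith [abs_sub_round t, Real.pi_pos])
  rw [e, ee, mul_comm _ Complex.I, Complex.norm_exp_I_mul_ofReal_sub_one, Real.norm_eq_abs,
    abs_mul, show 2 * Real.pi * (t - round t) / 2 = Real.pi * (t - round t) by ring, abs_two]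
  rw [abs_mul, abs_of_pos Real.pi_pos, ← mul_assoc, div_mul_cancel₀ _ Real.pi_pos.ne'] at h
  unfold nz
  linarith

theorem geo_LS (t : ℝ) (M : ℕ) : ‖∑ n ∈ Icc 1 M, ee (t * n)‖ ≤ mn M t := by
  have h1 : ‖∑ n ∈ Icc 1 M, ee (t * n)‖ ≤ M := (norm_sum_le _ _).trans (by simp [norm_ee])
  have h2 : ‖ee t - 1‖ * ‖∑ n ∈ Icc 1 M, ee (t * n)‖ ≤ 2 := by
    rw [← norm_mul, tel_LS]
    refine (norm_sub_le _ _).trans ?_
    rw [norm_ee, norm_ee]
    norm_num
  have h3 := mul_le_mul_of_nonneg_right (low_LS t) (norm_nonneg (∑ n ∈ Icc 1 M, ee (t * n)))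
  have h4 : 2 * nz t * ‖∑ n ∈ Icc 1 M, ee (t * n)‖ ≤ 1 := by linarith
  have h5 := mul_le_mul_of_nonneg_left h4 (Nat.cast_nonneg (α := ℝ) M)
  rw [mn, le_div_iff₀ (lt_max_of_lt_left one_pos), mul_max_of_nonneg _ _ (norm_nonneg _)]
  exact max_le (by linarith) (by linarith)

theorem conj_LS (t : ℝ) : (starRingEnd ℂ) (ee t) = ee (-t) := by
  unfold ee
  rw [← Complex.exp_conj, map_mul, Complex.conj_ofReal, Complex.conj_I]
  congr 1
  push_cast
  ring

theorem nzle_LS (t : ℝ) : nz (-t) ≤ nz t := by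
  have h := round_le (-t) (-round t)
  unfold nz
  rwa [Int.cast_neg, show -t - -(round t : ℝ) = -(t - round t) by ring, abs_neg] at h

theorem even_LS (M s t : ℝ) : mn M (s - t) = mn M (t - s) := by
  have h : nz (s - t) = nz (t - s) :=
    le_antisymm (by simpa using nzle_LS (t - s)) (by simpa using nzle_LS (s - t))
  rw [mn, mn, h]

theorem sLS : StLS := by
  intro V B Q α ω H hB hω hH
  have m0 : ∀ t, 0 ≤ mn Q t := fun t => mn_nonneg (Nat.cast_nonneg _) _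
  have H0 : 0 ≤ H := (sum_nonneg fun v hv => mul_nonneg (hω v hv) (m0 _)).trans (hH 0)
  obtain ⟨X, hX⟩ : ∃ X, X = ∑ v ∈ V, ω v * ‖ES B (α v)‖ ^ 2 := ⟨_, rfl⟩
  obtain ⟨c, hc⟩ : ∃ c : ℕ → ℂ, ∀ v, c v = ω v * (starRingEnd ℂ) (ES B (α v)) := ⟨_, fun _ => rfl⟩
  have nc : ∀ v ∈ V, ‖c v‖ = ω v * ‖ES B (α v)‖ := fun v hv => by
    rw [hc, norm_mul, Complex.norm_conj, Complex.norm_real, Real.norm_of_nonneg (hω v hv)]
  have X0 : 0 ≤ X := hX ▸ sum_nonneg fun v hv => mul_nonneg (hω v hv) (sq_nonneg _)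
  have h0 : (X : ℂ) = ∑ b ∈ B, ∑ v ∈ V, c v * ee (α v * b) := by
    rw [sum_comm, hX, Complex.ofReal_sum]
    refine sum_congr rfl fun v _ => ?_
    rw [← mul_sum, hc, mul_assoc, Complex.ofReal_mul, Complex.ofReal_pow, ← Complex.conj_mul']
    rfl
  have h1 : X ^ 2 ≤ B.card * ∑ n ∈ Icc 1 Q, ‖∑ v ∈ V, c v * ee (α v * n)‖ ^ 2 := by
    have e : X = ‖(X : ℂ)‖ := by rw [Complex.norm_real, Real.norm_of_nonneg X0]
    rw [e, h0]
    refine (pow_le_pow_left₀ (norm_nonneg _) (norm_sum_le _ _) 2).trans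
      (sq_sum_le_card_mul_sum_sq.trans (mul_le_mul_of_nonneg_left ?_ (Nat.cast_nonneg _)))
    exact sum_le_sum_of_subset_of_nonneg (fun b hb => mem_Icc.2 (hB b hb))
      fun _ _ _ => sq_nonneg _
  have h2 : ((∑ n ∈ Icc 1 Q, ‖∑ v ∈ V, c v * ee (α v * n)‖ ^ 2 : ℝ) : ℂ) =
      ∑ v ∈ V, ∑ w ∈ V, c v * (starRingEnd ℂ) (c w) * ∑ n ∈ Icc 1 Q, ee ((α v - α w) * n) := by
    rw [Complex.ofReal_sum]
    simp only [Complex.ofReal_pow, ← Complex.mul_conj', map_sum, sum_mul_sum, map_mul, conj_LS]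
    simp only [mul_sum]
    rw [sum_comm]
    refine sum_congr rfl fun v _ => ?_
    rw [sum_comm]
    refine sum_congr rfl fun w _ => sum_congr rfl fun n _ => ?_
    rw [show (α v - α w) * n = α v * n + -(α w * n) by ring, ee_add]
    ring
  have h3 : ∑ v ∈ V, ∑ w ∈ V, ω v * ‖ES B (α v)‖ ^ 2 * (ω w * mn Q (α w - α v)) ≤ H * X := by
    rw [hX, mul_sum]
    refine sum_le_sum fun v hv => ?_
    rw [← mul_sum, mul_comm H]
    exact mul_le_mul_of_nonneg_left (hH _) (mul_nonneg (hω v hv) (sq_nonneg _))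
  have h4 : ∑ n ∈ Icc 1 Q, ‖∑ v ∈ V, c v * ee (α v * n)‖ ^ 2 ≤ H * X := by
    refine (Real.le_norm_self _).trans ?_
    rw [← Complex.norm_real, h2]
    have h5 := h3
    rw [sum_comm] at h5
    have h6 := add_le_add h3 h5
    rw [← sum_add_distrib, ← two_mul] at h6
    refine le_of_mul_le_mul_left (le_trans ?_ h6) two_pos
    refine (mul_le_mul_of_nonneg_left (norm_sum_le _ _) zero_le_two).trans ?_
    rw [mul_sum]
    refine sum_le_sum fun v hv => ?_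
    refine (mul_le_mul_of_nonneg_left (norm_sum_le _ _) zero_le_two).trans ?_
    rw [mul_sum, ← sum_add_distrib]
    refine sum_le_sum fun w hw => ?_
    rw [norm_mul, norm_mul, Complex.norm_conj, nc v hv, nc w hw, even_LS _ (α w)]
    have a := mul_nonneg (hω v hv) (hω w hw)
    have b := mul_le_mul_of_nonneg_left (geo_LS (α v - α w) Q)
      (mul_nonneg a (mul_nonneg (norm_nonneg (ES B (α v))) (norm_nonneg (ES B (α w)))))
    have d := mul_nonneg (mul_nonneg a (m0 (α v - α w)))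
      (sq_nonneg (‖ES B (α v)‖ - ‖ES B (α w)‖))
    nlinarith
  have h7 := h1.trans (mul_le_mul_of_nonneg_left h4 (Nat.cast_nonneg _))
  rw [← hX]
  by_contra h
  have h8 := not_le.1 h
  have h9 : 0 ≤ (B.card : ℝ) * H := mul_nonneg (Nat.cast_nonneg _) H0
  nlinarith

end Pool.Agent.MP_2876a2_nt.Tu.Z

end

noncomputable section
open Finset Filter
open scoped Pointwise


namespace Pool.Agent.MP_2876a2_nt.Tu.Z

theorem near_Cov {Q a x : ℝ} {i : ℕ} (hQ : 0 < Q) (h : ⌊Q * nz (a - x)⌋₊ = i) :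
    nz (a - (x + i / Q)) ≤ 1 / Q ∨ nz (a - (x - i / Q)) ≤ 1 / Q := by
  have h0 : 0 ≤ Q * nz (a - x) := mul_nonneg hQ.le (abs_nonneg _)
  have h1 : (i : ℝ) / Q ≤ nz (a - x) := by
    rw [div_le_iff₀' hQ, ← h]
    exact Nat.floor_le h0
  have h2 : nz (a - x) ≤ i / Q + 1 / Q := by
    rw [← add_div, le_div_iff₀' hQ, ← h]
    exact (Nat.lt_floor_add_one _).le
  have h3 : 0 < 1 / Q := by positivity
  unfold nz at *
  rcases le_total 0 (a - x - round (a - x)) with e | e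
  · rw [abs_of_nonneg e] at h1 h2
    exact Or.inl ((round_le _ (round (a - x))).trans (abs_le.2 ⟨by linarith, by linarith⟩))
  · rw [abs_of_nonpos e] at h1 h2
    exact Or.inr ((round_le _ (round (a - x))).trans (abs_le.2 ⟨by linarith, by linarith⟩))

theorem mn_Cov {Q t : ℝ} {i : ℕ} (hQ : 0 < Q) (h : ⌊Q * nz t⌋₊ = i) :
    mn Q t ≤ Q * ((i : ℝ) + 1)⁻¹ := by
  have h1 : (i : ℝ) ≤ Q * nz t := by
    rw [← h]
    exact Nat.floor_le (mul_nonneg hQ.le (abs_nonneg _))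
  rw [mn, ← div_eq_mul_inv]
  refine div_le_div_of_nonneg_left hQ.le (by positivity) ?_
  rcases Nat.eq_zero_or_pos i with rfl | hi
  · simp
  · have : (1 : ℝ) ≤ i := by exact_mod_cast hi
    exact le_max_of_le_right (by linarith)

theorem sCov : StCov := by
  classical
  intro V Q α μ hQ h x
  have hQ0 : (0 : ℝ) < Q := by exact_mod_cast hQ
  have hμ : 0 ≤ μ := (Nat.cast_nonneg _).trans (h 0)
  have hm : ∀ v ∈ V, ⌊(Q : ℝ) * nz (α v - x)⌋₊ ∈ range Q := by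
    intro v _
    have h0 : 0 ≤ nz (α v - x) := abs_nonneg _
    rw [mem_range, Nat.floor_lt (mul_nonneg hQ0.le h0)]
    have : nz (α v - x) ≤ 1 / 2 := abs_sub_round _
    nlinarith
  have hH : ∑ i ∈ range Q, ((i : ℝ) + 1)⁻¹ ≤ 1 + Real.log Q := by
    have := harmonic_le_one_add_log Q
    simpa [harmonic] using this
  have hL : 0 ≤ Real.log Q := Real.log_natCast_nonneg Q
  rw [← sum_fiberwise_of_maps_to hm]
  calc _ ≤ ∑ i ∈ range Q, 2 * μ * (Q * ((i : ℝ) + 1)⁻¹) := by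
        refine sum_le_sum fun i _ => ?_
        refine (sum_le_card_nsmul _ _ _ fun v hv => mn_Cov hQ0 (mem_filter.1 hv).2).trans ?_
        rw [nsmul_eq_mul]
        refine mul_le_mul_of_nonneg_right ?_ (by positivity)
        have hs : (V.filter fun v => ⌊(Q : ℝ) * nz (α v - x)⌋₊ = i) ⊆
            (V.filter fun v => nz (α v - (x + i / Q)) ≤ 1 / Q) ∪
              V.filter fun v => nz (α v - (x - i / Q)) ≤ 1 / Q := by
          intro v hv
          obtain ⟨h1, h2⟩ := mem_filter.1 hv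
          rcases near_Cov hQ0 h2 with e | e
          · exact mem_union_left _ (mem_filter.2 ⟨h1, e⟩)
          · exact mem_union_right _ (mem_filter.2 ⟨h1, e⟩)
        have hc := (Nat.cast_le (α := ℝ)).2 ((card_le_card hs).trans (card_union_le _ _))
        rw [Nat.cast_add] at hc
        linarith [h (x + i / Q), h (x - i / Q)]
    _ = 2 * μ * Q * ∑ i ∈ range Q, ((i : ℝ) + 1)⁻¹ := by
        rw [mul_sum]
        exact sum_congr rfl fun i _ => by ring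
    _ ≤ 2 * μ * Q * (1 + Real.log Q) := mul_le_mul_of_nonneg_left hH (by positivity)
    _ ≤ _ := by
        have : 0 ≤ μ * Q * (1 + Real.log Q) := by positivity
        linarith

end Pool.Agent.MP_2876a2_nt.Tu.Z

end

noncomputable section
open Finset Filter
open scoped Pointwise


namespace Pool.Agent.MP_2876a2_nt.Tu.Z

def ph_Prim (s : ℝ) : ℝ := if 1 < s then 2 - s⁻¹ else if s < -1 then -2 - s⁻¹ else s

def mm_Prim (s : ℝ) : ℝ := if 1 < s then s⁻¹ else if s < -1 then -s⁻¹ else 1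

theorem cases_Prim (s : ℝ) : ∃ r : ℝ, 0 < r ∧ r ≤ 1 ∧ mm_Prim s = r ∧
    ((1 < s ∧ r * s = 1 ∧ ph_Prim s = 2 - r) ∨ (s < -1 ∧ r * s = -1 ∧ ph_Prim s = -2 + r) ∨
      (-1 ≤ s ∧ s ≤ 1 ∧ r = 1 ∧ ph_Prim s = s)) := by
  unfold mm_Prim ph_Prim
  split_ifs with h1 h2
  · exact ⟨s⁻¹, inv_pos.2 (by linarith), inv_le_one_of_one_le₀ h1.le, rfl,
      Or.inl ⟨h1, inv_mul_cancel₀ (by linarith), rfl⟩⟩
  · have h3 : (-s)⁻¹ = -s⁻¹ := inv_neg
    refine ⟨-s⁻¹, h3 ▸ inv_pos.2 (by linarith), h3 ▸ inv_le_one_of_one_le₀ (by linarith), rfl,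
      Or.inr (Or.inl ⟨h2, ?_, by ring⟩)⟩
    rw [neg_mul, inv_mul_cancel₀ (by linarith)]
  · exact ⟨1, one_pos, le_rfl, rfl, Or.inr (Or.inr ⟨not_lt.1 h2, not_lt.1 h1, rfl, rfl⟩)⟩

theorem range_Prim (s : ℝ) : -2 ≤ ph_Prim s ∧ ph_Prim s ≤ 2 := by
  obtain ⟨r, r0, r1, -, h | h | h⟩ := cases_Prim s
  · rw [h.2.2]; constructor <;> linarith
  · rw [h.2.2]; constructor <;> linarith
  · rw [h.2.2.2]; constructor <;> linarith [h.1, h.2.1]

theorem le_mm_Prim {s w : ℝ} (h1 : w ≤ 1) (h2 : |s * w| ≤ 1) : w ≤ mm_Prim s := by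
  obtain ⟨h3, h4⟩ := abs_le.1 h2
  obtain ⟨r, r0, r1, e, h | h | h⟩ := cases_Prim s <;> rw [e]
  · have := mul_le_mul_of_nonneg_left h4 r0.le
    rwa [← mul_assoc, h.2.1, one_mul, mul_one] at this
  · have := mul_le_mul_of_nonneg_left h3 r0.le
    rw [← mul_assoc, h.2.1] at this
    linarith
  · linarith [h.2.2.1]

theorem sep_Prim {s s' : ℝ} (hs : s ≤ s') :
    mm_Prim s * mm_Prim s' * (s' - s) ≤ ph_Prim s' - ph_Prim s := by
  obtain ⟨r, r0, r1, e, h⟩ := cases_Prim s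
  obtain ⟨r', r0', r1', e', h'⟩ := cases_Prim s'
  have k : r * r' * (s' - s) = r * (r' * s') - r' * (r * s) := by ring
  rw [e, e', k]
  rcases h with ⟨a, b, c⟩ | ⟨a, b, c⟩ | ⟨a, a2, b, c⟩ <;>
    rcases h' with ⟨a', b', c'⟩ | ⟨a', b', c'⟩ | ⟨a', a2', b', c'⟩ <;> rw [c, c']
  · rw [b, b']; linarith
  · linarith
  · linarith
  · rw [b, b']; linarith
  · rw [b, b']; linarith
  · rw [b, b']
    nlinarith [mul_nonneg (sub_nonneg.2 r1) (show 0 ≤ 1 + s' by linarith)]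
  · rw [b, b']
    nlinarith [mul_nonneg (sub_nonneg.2 r1') (sub_nonneg.2 a2)]
  · linarith
  · rw [b, b']; linarith

theorem det_Prim {a a' : ℤ × ℕ} (h : 1 ≤ a.2) (_h' : 1 ≤ a'.2) (c : IsCoprime a.1 (a.2 : ℤ))
    (c' : IsCoprime a'.1 (a'.2 : ℤ)) (e : (a.2 : ℤ) * a'.1 = a'.2 * a.1) : a = a' := by
  have d1 : (a.2 : ℤ) ∣ a'.2 := c.symm.dvd_of_dvd_mul_right ⟨_, e.symm⟩
  have d2 : (a'.2 : ℤ) ∣ a.2 := c'.symm.dvd_of_dvd_mul_right ⟨_, e⟩
  have e2 : a.2 = a'.2 := Nat.dvd_antisymm (Int.natCast_dvd_natCast.1 d1)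
    (Int.natCast_dvd_natCast.1 d2)
  rw [← e2] at e
  exact Prod.ext (mul_left_cancel₀ (by exact_mod_cast (by omega : a.2 ≠ 0)) e).symm e2

theorem sPrim : StPrim := by
  intro x η Z A hη hA
  have hZ0 : (0 : ℝ) ≤ Z := Nat.cast_nonneg Z
  rcases hη.eq_or_lt with rfl | hη0
  · have : A.card ≤ 1 := card_le_one.2 fun a ha a' ha' => by
      obtain ⟨p1, -, p3, p4⟩ := hA a ha
      obtain ⟨q1, -, q3, q4⟩ := hA a' ha'
      refine det_Prim p1 q1 p3 q3 ?_
      have e1 := abs_nonpos_iff.1 p4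
      have e2 := abs_nonpos_iff.1 q4
      have : ((a.2 : ℤ) : ℝ) * a'.1 = ((a'.2 : ℤ) : ℝ) * a.1 := by
        push_cast
        linear_combination (a.2 : ℝ) * e2 - (a'.2 : ℝ) * e1
      exact_mod_cast this
    have h1 : (A.card : ℝ) ≤ 1 := by exact_mod_cast this
    linarith
  set s : ℤ × ℕ → ℝ := fun a => ((a.1 : ℝ) - x * a.2) * Z / (η * a.2) with hs
  set f : ℤ × ℕ → ℝ := fun a => η * Z * (ph_Prim (s a) + 2) with hf
  have hw : ∀ a ∈ A, (0 : ℝ) < a.2 ∧ (0 : ℝ) < Z ∧ (a.2 : ℝ) / Z ≤ mm_Prim (s a) := by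
    intro a ha
    obtain ⟨p1, p2, -, p4⟩ := hA a ha
    have b0 : (0 : ℝ) < a.2 := by exact_mod_cast p1
    have b1 : (a.2 : ℝ) ≤ Z := by exact_mod_cast p2
    have z0 : (0 : ℝ) < Z := b0.trans_le b1
    refine ⟨b0, z0, le_mm_Prim ((div_le_one z0).2 b1) ?_⟩
    have : s a * ((a.2 : ℝ) / Z) = ((a.1 : ℝ) - x * a.2) / η := by
      simp only [hs]
      field_simp
    rw [this, abs_div, abs_of_pos hη0, div_le_one hη0]
    exact p4
  have key : ∀ a ∈ A, ∀ a' ∈ A, a ≠ a' → s a ≤ s a' → f a + 1 ≤ f a' := by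
    intro a ha a' ha' hne hle
    obtain ⟨b0, z0, m1⟩ := hw a ha
    obtain ⟨b0', -, m2⟩ := hw a' ha'
    have e : η * Z * ((a.2 : ℝ) / Z * ((a'.2 : ℝ) / Z) * (s a' - s a)) =
        (((a.2 : ℤ) * a'.1 - a'.2 * a.1 : ℤ) : ℝ) := by
      simp only [hs]
      push_cast
      field_simp
      ring
    have g0 : (0 : ℝ) ≤ (((a.2 : ℤ) * a'.1 - a'.2 * a.1 : ℤ) : ℝ) := by
      rw [← e]
      have := sub_nonneg.2 hle
      positivity
    have g1 : (1 : ℤ) ≤ (a.2 : ℤ) * a'.1 - a'.2 * a.1 := by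
      have g2 : (0 : ℤ) ≤ (a.2 : ℤ) * a'.1 - a'.2 * a.1 := by exact_mod_cast g0
      have g3 : (a.2 : ℤ) * a'.1 ≠ a'.2 * a.1 := fun h =>
        hne (det_Prim (hA a ha).1 (hA a' ha').1 (hA a ha).2.2.1 (hA a' ha').2.2.1 h)
      omega
    have g4 : (1 : ℝ) ≤ (((a.2 : ℤ) * a'.1 - a'.2 * a.1 : ℤ) : ℝ) := by exact_mod_cast g1
    have g5 : (a.2 : ℝ) / Z * ((a'.2 : ℝ) / Z) * (s a' - s a) ≤ ph_Prim (s a') - ph_Prim (s a) :=
      (mul_le_mul_of_nonneg_right (mul_le_mul m1 m2 (by positivity)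
        (le_trans (by positivity) m1)) (sub_nonneg.2 hle)).trans (sep_Prim hle)
    have g6 := mul_le_mul_of_nonneg_left g5 (show 0 ≤ η * Z by positivity)
    rw [e] at g6
    simp only [hf]
    linarith
  have f0 : ∀ a, 0 ≤ f a := fun a =>
    mul_nonneg (by positivity) (by linarith [(range_Prim (s a)).1])
  have f1 : ∀ a, f a ≤ 4 * η * Z := fun a => by
    have := mul_le_mul_of_nonneg_left (range_Prim (s a)).2 (show 0 ≤ η * Z by positivity)
    simp only [hf]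
    linarith
  have hc : A.card ≤ (range (⌊4 * η * Z⌋₊ + 1)).card := by
    refine card_le_card_of_injOn (fun a => ⌊f a⌋₊) (fun a _ => ?_) fun a ha a' ha' h => ?_
    · exact mem_coe.2 (mem_range.2 (Nat.lt_succ_of_le (Nat.floor_mono (f1 a))))
    · by_contra hne
      have h' : ⌊f a⌋₊ = ⌊f a'⌋₊ := h
      rcases le_total (s a) (s a') with hle | hle
      · have := Nat.floor_mono (key a ha a' ha' hne hle)
        rw [Nat.floor_add_one (f0 a)] at this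
        omega
      · have := Nat.floor_mono (key a' ha' a ha (Ne.symm hne) hle)
        rw [Nat.floor_add_one (f0 a')] at this
        omega
  rw [card_range] at hc
  have h1 : (A.card : ℝ) ≤ (⌊4 * η * Z⌋₊ : ℝ) + 1 := by exact_mod_cast hc
  linarith [Nat.floor_le (show 0 ≤ 4 * η * Z by positivity)]

end Pool.Agent.MP_2876a2_nt.Tu.Z

end

noncomputable section
open Finset Filter
open scoped Pointwise


namespace Pool.Agent.MP_2876a2_nt.Tu.Z

theorem near_Cnt {K S m Q L v w : ℕ} {x n : ℝ} (hK : 1 ≤ K) (hm : 0 < m) (hQ : 0 < Q) (hS : 0 < S)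
    (h : S ≤ L * (m * Q)) (h1 : |(v : ℝ) / (K * S : ℕ) * m - x - n| ≤ 1 / Q)
    (h2 : |(w : ℝ) / (K * S : ℕ) * m - x - n| ≤ 1 / Q) : v ≤ w + 2 * (K * L) := by
  have t0 : (0 : ℝ) < (K * S : ℕ) := by exact_mod_cast Nat.mul_pos hK hS
  have q0 : (0 : ℝ) < Q := by exact_mod_cast hQ
  have m0 : (0 : ℝ) < m := by exact_mod_cast hm
  have a1 := (abs_le.1 h1).2
  have a2 := (abs_le.1 h2).1
  have a3 : ((v : ℝ) - w) * m / (K * S : ℕ) ≤ 2 / Q := by
    have : ((v : ℝ) - w) * m / (K * S : ℕ) =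
      (v : ℝ) / (K * S : ℕ) * m - (w : ℝ) / (K * S : ℕ) * m := by ring
    have e : (2 : ℝ) / Q = 1 / Q + 1 / Q := by ring
    linarith
  rw [div_le_div_iff₀ t0 q0] at a3
  have a4 : ((K * S : ℕ) : ℝ) ≤ (K * L : ℕ) * (m * Q) := by
    have : K * S ≤ K * L * (m * Q) := by rw [mul_assoc]; exact Nat.mul_le_mul_left _ h
    exact_mod_cast this
  have a5 : ((v : ℝ) - w) * (m * Q) ≤ 2 * (K * L : ℕ) * (m * Q) := by nlinarith
  have a6 := le_of_mul_le_mul_right a5 (mul_pos m0 q0)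
  have : (v : ℝ) ≤ w + 2 * (K * L : ℕ) := by linarith
  exact_mod_cast this

theorem pt_Cnt {T S m Q d b m1 v : ℕ} {u n : ℤ} {β Y x : ℝ} (hd : 0 < d) (hb : 0 < b)
    (hm : m = d * m1) (hQ : 0 < Q) (hmQ : m * Q ≤ S) (hY : 2 ≤ Y) (hS : Y ^ 2 ≤ S) (hv : v < T)
    (e : (v : ℝ) / T = u / (d * b : ℕ) + β) (hq : qs S (d * b) β < 2 * Y)
    (hn : |(v : ℝ) / T * m - x - n| ≤ 1 / Q) :
    (b : ℝ) ≤ 2 * Y / d ∧ |((u * m1 - n * b : ℤ) : ℝ) - x * b| ≤ 4 * Y / (d * Q) ∧ 0 ≤ u ∧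
      u ≤ d * b := by
  have d0 : (0 : ℝ) < d := by exact_mod_cast hd
  have b0 : (0 : ℝ) < b := by exact_mod_cast hb
  have q0 : (0 : ℝ) < Q := by exact_mod_cast hQ
  have T0 : (0 : ℝ) < T := by exact_mod_cast (Nat.zero_le v).trans_lt hv
  have S2 : 2 * Y ≤ S := by nlinarith
  have S0 : (0 : ℝ) < S := by linarith
  have db : (0 : ℝ) < d * b := mul_pos d0 b0
  have h1 : (d : ℝ) * b < 2 * Y := by
    have := (le_qs S (d * b) β).trans_lt hq
    exact_mod_cast this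
  have h2 : (d : ℝ) * b * (|β| * S) < 2 * Y := by
    refine lt_of_le_of_lt ?_ hq
    unfold qs
    push_cast
    exact mul_le_mul_of_nonneg_left (le_max_right _ _) db.le
  have h3 : (d : ℝ) * b * |β| < 1 := by
    refine lt_of_mul_lt_mul_right (a := (S : ℝ)) ?_ S0.le
    nlinarith
  have hu : (u : ℝ) = d * b * ((v : ℝ) / T) - d * b * β := by
    rw [e]
    push_cast
    field_simp
    ring
  have v0 : 0 ≤ (v : ℝ) / T := by positivity
  have v1 : (v : ℝ) / T ≤ 1 := (div_le_one T0).2 (by exact_mod_cast hv.le)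
  have k1 := mul_le_mul_of_nonneg_left (le_abs_self β) db.le
  have k2 := mul_le_mul_of_nonneg_left (neg_abs_le β) db.le
  have b1 : (b : ℝ) ≤ 2 * Y / d := by
    rw [le_div_iff₀ d0]
    linarith
  refine ⟨b1, ?_, ?_, ?_⟩
  · have mm : (m : ℝ) = d * m1 := by exact_mod_cast hm
    have e2 : ((u * m1 - n * b : ℤ) : ℝ) - x * b =
        b * ((v : ℝ) / T * m - x - n) - b * m * β := by
      push_cast
      rw [hu, mm]
      ring
    have e3 : (m : ℝ) * Q ≤ S := by exact_mod_cast hmQ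
    have c1 : |b * ((v : ℝ) / T * m - x - n)| ≤ 2 * Y / d * (1 / Q) := by
      rw [abs_mul, abs_of_pos b0]
      exact mul_le_mul b1 hn (abs_nonneg _) (by positivity)
    have c2 : |(b : ℝ) * m * β| ≤ 2 * Y / (d * Q) := by
      rw [abs_mul, abs_of_nonneg (by positivity : (0 : ℝ) ≤ b * m), le_div_iff₀ (mul_pos d0 q0)]
      have := mul_le_mul_of_nonneg_left e3 (mul_nonneg db.le (abs_nonneg β))
      nlinarith
    have c3 : 4 * Y / (d * Q) = 2 * Y / d * (1 / Q) + 2 * Y / (d * Q) := by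
      field_simp
      ring
    rw [e2, c3]
    exact (abs_sub _ _).trans (add_le_add c1 c2)
  · have : (-1 : ℝ) < u := by nlinarith [mul_nonneg db.le v0]
    have : (-1 : ℤ) < u := by exact_mod_cast this
    omega
  · have : (u : ℝ) < d * b + 1 := by nlinarith [mul_le_mul_of_nonneg_left v1 db.le]
    have : u < d * b + 1 := by exact_mod_cast this
    omega

theorem sCnt (hP : StPrim) : StCnt := by
  intro K S m Q L d u q β Y x hA hK hm hmQ hL hY hQ hS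
  classical
  obtain ⟨V, hV⟩ : ∃ V, V = (Vy K S q β Y).filter fun v => Nat.gcd (q v) m = d ∧
    nz ((v : ℝ) / (K * S : ℕ) * m - x) ≤ 1 / Q := ⟨_, rfl⟩
  rw [← hV]
  have Q0 : (0 : ℝ) < Q := by linarith
  have hQ0 : 0 < Q := by exact_mod_cast Q0
  have hS0 : 0 < S := (Nat.mul_pos hm hQ0).trans_le hmQ
  have hL1 : 1 ≤ L := Nat.pos_of_ne_zero fun e => by simp [e] at hL; omega
  rcases V.eq_empty_or_nonempty with rfl | ⟨v0, hv0⟩
  · simp only [card_empty, Nat.cast_zero]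
    positivity
  have hd : 0 < d := by
    rw [hV] at hv0
    rw [← (mem_filter.1 hv0).2.1]
    exact Nat.gcd_pos_of_pos_right _ hm
  obtain ⟨b, hb⟩ : ∃ b : ℕ → ℕ, b = fun v => q v / d := ⟨_, rfl⟩
  obtain ⟨n, hn⟩ : ∃ n : ℕ → ℤ, n = fun v : ℕ => round ((v : ℝ) / (K * S : ℕ) * m - x) := ⟨_, rfl⟩
  obtain ⟨a, ha⟩ : ∃ a : ℕ → ℤ, a = fun v => u v * (m / d : ℕ) - n v * b v := ⟨_, rfl⟩
  have key : ∀ v ∈ V, 0 < b v ∧ IsCoprime ((m / d : ℕ) : ℤ) (b v : ℤ) ∧ IsCoprime (a v) (b v : ℤ) ∧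
      |(v : ℝ) / (K * S : ℕ) * m - x - n v| ≤ 1 / Q ∧ (b v : ℝ) ≤ 2 * Y / d ∧
      |(a v : ℝ) - x * b v| ≤ 4 * Y / (d * Q) ∧ 0 ≤ u v ∧ u v ≤ d * b v := by
    intro v hv
    rw [hV] at hv
    obtain ⟨h1, h2, h3⟩ := mem_filter.1 hv
    obtain ⟨h4, -, h5⟩ := mem_filter.1 h1
    obtain ⟨k1, k2, k3, -⟩ := hA v
    have e1 : q v = d * b v := by
      rw [hb]
      exact (Nat.mul_div_cancel' (h2 ▸ Nat.gcd_dvd_left _ _)).symm
    have e2 : m = d * (m / d) := (Nat.mul_div_cancel' (h2 ▸ Nat.gcd_dvd_right _ _)).symm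
    have b0 : 0 < b v := Nat.pos_of_mul_pos_left (e1 ▸ k1)
    have c1 : IsCoprime ((m / d : ℕ) : ℤ) (b v : ℤ) := by
      rw [Nat.isCoprime_iff_coprime, hb, ← h2]
      exact (Nat.coprime_div_gcd_div_gcd (h2 ▸ hd)).symm
    have c2 : IsCoprime (u v) (b v : ℤ) := by
      rw [e1] at k2
      push_cast at k2
      exact k2.of_mul_right_right
    have c3 : |(v : ℝ) / (K * S : ℕ) * m - x - n v| ≤ 1 / Q := by
      rw [hn]
      exact h3
    refine ⟨b0, c1, ?_, c3, ?_⟩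
    · have := (c2.mul_left c1).add_mul_right_left (-n v)
      rw [ha]
      simpa [sub_eq_add_neg] using this
    · rw [ha]
      exact pt_Cnt hd b0 e2 hQ0 hmQ hY hS (mem_range.1 h4) (e1 ▸ k3) (e1 ▸ h5) c3
  have d0 : (0 : ℝ) < d := by exact_mod_cast hd
  have d1 : (1 : ℝ) ≤ d := by exact_mod_cast hd
  have hA' := hP x (4 * Y / (d * Q)) ⌊2 * Y / d⌋₊ (V.image fun v => (a v, b v)) (by positivity)
    (by
      intro p hp
      obtain ⟨v, hv, rfl⟩ := mem_image.1 hp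
      obtain ⟨k1, -, k2, -, k3, k4, -⟩ := key v hv
      exact ⟨k1, Nat.le_floor k3, k2, k4⟩)
  have f1 : V.card ≤ 5 * (K * L) * (V.image fun v => ((a v, b v), u v / b v)).card := by
    refine card_le_mul_card_image _ _ fun p hp => ?_
    obtain ⟨w, hw, rfl⟩ := mem_image.1 hp
    have hs : (V.filter fun v => ((a v, b v), u v / b v) = ((a w, b w), u w / b w)) ⊆
        Icc (w - 2 * (K * L)) (w + 2 * (K * L)) := by
      intro v hv
      obtain ⟨hv, e⟩ := mem_filter.1 hv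
      simp only [Prod.mk.injEq] at e
      obtain ⟨⟨e1, e2⟩, e3⟩ := e
      obtain ⟨k1, k2, -, k3, -⟩ := key v hv
      obtain ⟨-, -, -, l3, -⟩ := key w hw
      rw [ha] at e1
      simp only at e1
      rw [← e2] at e1 e3
      have g1 : (b v : ℤ) ∣ (u v - u w) * (m / d : ℕ) := ⟨n v - n w, by linarith⟩
      have g2 : u w % b v = u v % b v :=
        Int.modEq_iff_dvd.2 (k2.symm.dvd_of_dvd_mul_right g1)
      have g3 : u v = u w := by
        rw [← Int.emod_add_mul_ediv (u v) (b v), ← Int.emod_add_mul_ediv (u w) (b v), g2, e3]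
      have g4 : n v = n w := by
        have b0 : (b v : ℤ) ≠ 0 := by exact_mod_cast k1.ne'
        refine mul_right_cancel₀ b0 ?_
        rw [g3] at e1
        linarith
      rw [g4] at k3
      have := near_Cnt hK hm hQ0 hS0 hL k3 l3
      have := near_Cnt hK hm hQ0 hS0 hL l3 k3
      rw [mem_Icc]
      omega
    refine (card_le_card hs).trans ?_
    have : 1 ≤ K * L := Nat.mul_pos hK hL1
    rw [Nat.card_Icc]
    omega
  have f2 : (V.image fun v => ((a v, b v), u v / b v)).card ≤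
      (V.image fun v => (a v, b v)).card * (d + 1) := by
    have hs : (V.image fun v => ((a v, b v), u v / b v)) ⊆
        (V.image fun v => (a v, b v)) ×ˢ Icc (0 : ℤ) d := by
      intro p hp
      obtain ⟨v, hv, rfl⟩ := mem_image.1 hp
      obtain ⟨k1, -, -, -, -, -, k2, k3⟩ := key v hv
      have b0 : (0 : ℤ) < b v := by exact_mod_cast k1
      exact mem_product.2 ⟨mem_image_of_mem _ hv, mem_Icc.2 ⟨Int.ediv_nonneg k2 b0.le,
        Int.ediv_le_of_le_mul b0 k3⟩⟩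
    refine (card_le_card hs).trans ?_
    rw [card_product, Int.card_Icc]
    simp
  have f3 : (V.card : ℝ) ≤ 5 * (K * L) * ((V.image fun v => (a v, b v)).card * (d + 1)) := by
    exact_mod_cast f1.trans (Nat.mul_le_mul_left _ f2)
  have y0 : 0 ≤ Y ^ 2 / Q := by positivity
  have f4 : ((V.image fun v => (a v, b v)).card : ℝ) ≤ 32 * (1 + Y ^ 2 / Q) := by
    have z1 : (⌊2 * Y / d⌋₊ : ℝ) ≤ 2 * Y :=
      (Nat.floor_le (by positivity)).trans (div_le_self (by positivity) d1)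
    have z2 : 4 * Y / (d * Q) ≤ 4 * Y / Q :=
      div_le_div_of_nonneg_left (by positivity) Q0 (le_mul_of_one_le_left Q0.le d1)
    have z3 : 4 * Y / (d * Q) * (⌊2 * Y / d⌋₊ : ℝ) ≤ 4 * Y / Q * (2 * Y) :=
      mul_le_mul z2 z1 (Nat.cast_nonneg _) (by positivity)
    have z4 : 4 * Y / Q * (2 * Y) = 8 * (Y ^ 2 / Q) := by ring
    linarith
  have f5 : ((V.image fun v => (a v, b v)).card : ℝ) * (d + 1) ≤ 32 * (1 + Y ^ 2 / Q) * (2 * d) :=
    mul_le_mul f4 (by linarith) (by positivity) (by positivity)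
  have f6 := mul_le_mul_of_nonneg_left f5 (by positivity : (0 : ℝ) ≤ 5 * (K * L))
  have f7 : (0 : ℝ) ≤ L * K * d * (1 + Y ^ 2 / Q) := by positivity
  nlinarith

end Pool.Agent.MP_2876a2_nt.Tu.Z

end

noncomputable section
open Finset Filter
open scoped Pointwise


namespace Pool.Agent.MP_2876a2_nt.Tu.Z

theorem sHv (hL : StLS) (hC : StCov) (hN : StCnt) : StHv := by
  classical
  intro K S m Q L u q β Y B hAp hK hm h1 h2 hY hQ hS hB
  have hQ1 : 1 ≤ Q := by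
    have : (1 : ℝ) ≤ Q := by linarith
    exact_mod_cast this
  have hQ0 : (0 : ℝ) < Q := by linarith
  refine hL _ B Q (fun v => (v : ℝ) / (K * S : ℕ) * m) (fun v => ((Nat.gcd (q v) m : ℕ) : ℝ)⁻¹) _ hB
    (fun v _ => by positivity) fun x => ?_
  set Dv := m.divisors.filter fun d : ℕ => (d : ℝ) ≤ 2 * Y with hDv
  have hlog : 0 ≤ Real.log Q := Real.log_nonneg (by exact_mod_cast hQ1)
  set E : ℝ := 2000 * L * K * (Q + Y ^ 2) * (1 + Real.log Q) with hE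
  have hE0 : 0 ≤ E := by positivity
  have hmap : ∀ v ∈ Vy K S q β Y, Nat.gcd (q v) m ∈ Dv := fun v hv => by
    refine mem_filter.2 ⟨Nat.mem_divisors.2 ⟨Nat.gcd_dvd_right _ _, hm.ne'⟩, ?_⟩
    have h3 := (mem_filter.1 hv).2.2
    have h4 : ((Nat.gcd (q v) m : ℕ) : ℝ) ≤ q v := by
      exact_mod_cast Nat.gcd_le_left _ (hAp v).1
    have h5 : (q v : ℝ) ≤ qs S (q v) (β v) :=
      le_mul_of_one_le_right (Nat.cast_nonneg _) (le_max_left _ _)
    linarith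
  rw [← sum_fiberwise_of_maps_to hmap]
  calc _ ≤ ∑ _d ∈ Dv, E := sum_le_sum fun d hd => by
        have hd0 : (0 : ℝ) < d := by
          exact_mod_cast Nat.pos_of_mem_divisors (mem_filter.1 hd).1
        rw [sum_congr rfl fun v hv => by rw [(mem_filter.1 hv).2], ← mul_sum]
        have h3 := hC ((Vy K S q β Y).filter fun v => Nat.gcd (q v) m = d) Q
          (fun v => (v : ℝ) / (K * S : ℕ) * m) (500 * L * K * d * (1 + Y ^ 2 / Q)) hQ1 (fun y => by
            rw [filter_filter]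
            convert hN K S m Q L d u q β Y y hAp hK hm h1 h2 hY hQ hS) x
        refine (mul_le_mul_of_nonneg_left h3 (by positivity)).trans (le_of_eq ?_)
        rw [hE]
        field_simp
        ring
    _ = E * ∑ _d ∈ Dv, (1 : ℝ) := by simp [mul_comm]
    _ ≤ _ := by
        refine mul_le_mul_of_nonneg_left ?_ hE0
        rw [wt, mul_sum]
        refine (sum_le_sum fun d hd => ?_).trans (sum_le_sum_of_subset_of_nonneg
          (filter_subset _ _) fun d _ _ => by positivity)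
        have hd0 : (0 : ℝ) < d := by
          exact_mod_cast Nat.pos_of_mem_divisors (mem_filter.1 hd).1
        rw [Real.rpow_neg hd0.le, ← div_eq_mul_inv, ← Real.div_rpow (by positivity) hd0.le]
        exact Real.one_le_rpow ((one_le_div hd0).2 (mem_filter.1 hd).2) (by norm_num)

end Pool.Agent.MP_2876a2_nt.Tu.Z

end

noncomputable section
open Finset Filter
open scoped Pointwise


namespace Pool.Agent.MP_2876a2_nt.Tu.Z

theorem core_Sel1 (s : ℕ → ℝ) (t0 J : ℕ) (W : ℝ) (h1 : ∀ i, 1 ≤ s i)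
    (hs : ∀ t, t0 ≤ t → s t ^ 20000 ≤ ∏ i ∈ range t, s i) (W1 : 1 ≤ W)
    (h0 : ∏ i ∈ range (t0 + 1), s i ≤ W) (hJ : W ^ 200 ≤ W * ∏ i ∈ range J, s i) :
    ∃ t ≤ J, W ^ 199 ≤ ∏ i ∈ range t, s i ∧ ∏ i ∈ range t, s i ≤ W ^ 200 := by
  classical
  have W0 : 0 < W := by linarith
  have s0 : ∀ i, 0 ≤ s i := fun i => zero_le_one.trans (h1 i)
  have J2 : W ^ 199 ≤ ∏ i ∈ range J, s i := by
    refine le_of_mul_le_mul_left (le_trans (le_of_eq ?_) hJ) W0
    rw [← pow_succ']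
  have ex : ∃ t, W ^ 199 ≤ ∏ i ∈ range t, s i := ⟨J, J2⟩
  refine ⟨Nat.find ex, Nat.find_min' ex J2, Nat.find_spec ex, ?_⟩
  by_cases h : Nat.find ex ≤ t0 + 1
  · refine le_trans ?_ (h0.trans (le_self_pow₀ W1 (by norm_num)))
    exact prod_le_prod_of_subset_of_one_le (range_subset_range.2 h) (fun i _ => s0 i)
      fun i _ _ => h1 i
  · obtain ⟨w, hw⟩ : ∃ w, Nat.find ex = w + 1 := ⟨Nat.find ex - 1, by omega⟩
    have b1 := not_le.1 (Nat.find_min ex (m := w) (by omega))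
    have b3 : s w ≤ W := by
      refine le_of_pow_le_pow_left₀ (n := 20000) (by norm_num) W0.le ?_
      exact ((hs w (by omega)).trans b1.le).trans (pow_le_pow_right₀ W1 (by norm_num))
    rw [hw, prod_range_succ, show 200 = 199 + 1 from rfl, pow_succ]
    exact mul_le_mul b1.le b3 (s0 w) (by positivity)

theorem sSel1 : StSel1 := by
  intro t0 U L
  filter_upwards [eventually_ge_atTop (1 : ℝ),
    (tendsto_rpow_atTop (show (0 : ℝ) < 1 / 100 by norm_num)).eventually_ge_atTop 1,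
    (tendsto_rpow_atTop (show (0 : ℝ) < 1 / 100 by norm_num)).eventually_ge_atTop U,
    (tendsto_rpow_atTop (show (0 : ℝ) < 1 / 100 by norm_num)).eventually_ge_atTop L]
    with Y y1 y2 y3 y4
  intro s h2 ht0 hU J hJ
  have y0 : 0 < Y := by linarith
  have e : ∀ k : ℕ, (Y ^ (1 / 100 : ℝ)) ^ k = Y ^ ((k : ℝ) / 100) := fun k => by
    rw [← Real.rpow_natCast, ← Real.rpow_mul y0.le, one_div, inv_mul_eq_div]
  have e0 : (Y ^ (1 / 100 : ℝ)) ^ 200 = Y ^ 2 := by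
    rw [e, show ((200 : ℕ) : ℝ) / 100 = (2 : ℕ) by norm_num, Real.rpow_natCast]
  have e1 : (Y ^ (1 / 100 : ℝ)) ^ 199 = Y ^ (199 / 100 : ℝ) := by
    rw [e, show ((199 : ℕ) : ℝ) / 100 = 199 / 100 by norm_num]
  obtain ⟨t, a1, a2, a3⟩ := core_Sel1 (fun i => (s i : ℝ)) t0 J _
    (fun i => by exact_mod_cast (h2 i).trans' (by norm_num))
    (fun t ht => by exact_mod_cast ht0 t ht) y2
    (by rw [← Nat.cast_prod]; exact hU.trans y3)
    (by
      rw [e0, ← Nat.cast_prod]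
      exact hJ.trans (mul_le_mul_of_nonneg_right y4 (Nat.cast_nonneg _)))
  rw [e0] at a3
  rw [e1] at a2
  push_cast
  exact ⟨t, a1, a2, a3⟩

end Pool.Agent.MP_2876a2_nt.Tu.Z

end

noncomputable section
open Finset Filter
open scoped Pointwise


namespace Pool.Agent.MP_2876a2_nt.Tu.Z

theorem cop_L2 {N : ℕ → ℕ} (h : ∀ i i', i ≠ i' → (N i).Coprime (N i')) (I I' : Finset ℕ)
    (hd : ∀ i ∈ I, ∀ i' ∈ I', i ≠ i') : (∏ i ∈ I, N i).Coprime (∏ i ∈ I', N i) :=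
  Nat.Coprime.prod_left fun i hi => Nat.Coprime.prod_right fun i' hi' => h i i' (hd i hi i' hi')

theorem three_L2 {j0 a b : ℕ} (hj : 2 ≤ j0)
    (h : (a : ℝ) ≤ Real.exp (2 / (j0 + (0 : ℕ))) * b) : a ≤ 3 * b := by
  have h1 : (2 : ℝ) ≤ j0 := by exact_mod_cast hj
  have h2 : Real.exp (2 / (j0 + (0 : ℕ))) ≤ 3 := by
    refine (Real.exp_le_exp.2 ?_).trans (Real.exp_one_lt_d9.le.trans (by norm_num))
    rw [Nat.cast_zero, add_zero, div_le_one (by linarith)]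
    exact h1
  exact_mod_cast h.trans (mul_le_mul_of_nonneg_right h2 (Nat.cast_nonneg b))

theorem num_L2 (D : ℝ) (hD : 0 ≤ D) : ∀ᶠ Y : ℝ in atTop, 2 ≤ Y ∧ 8 * Y ≤ Y ^ (199 / 100 : ℝ) ∧
    ∀ Q w n : ℝ, Y ^ (199 / 100 : ℝ) ≤ Q → Q ≤ Y ^ 2 → 0 ≤ w → w ≤ 3 * D → 0 ≤ n →
      Q ^ 97 ≤ n ^ 100 →
      2000 * (3 * D) * (Q + Y ^ 2) * (1 + Real.log Q) * ((2 * Y) ^ (1 / 50 : ℝ) * w) ≤
        n * Y ^ (1 / 5 : ℝ) := by
  have ht := tendsto_rpow_atTop (show (0 : ℝ) < 1 / 100 by norm_num)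
  filter_upwards [ht.eventually_ge_atTop (15000000 * D ^ 2), ht.eventually_ge_atTop 8,
    eventually_ge_atTop (2 : ℝ)] with Y a1 a2 a3
  have Y0 : 0 ≤ Y := by linarith
  have pw : ∀ k : ℕ, (Y ^ (1 / 100 : ℝ)) ^ k = Y ^ ((k : ℝ) / 100) := fun k => by
    rw [← Real.rpow_natCast, ← Real.rpow_mul Y0]
    congr 1
    ring
  have e1 : Y ^ (199 / 100 : ℝ) = (Y ^ (1 / 100 : ℝ)) ^ 199 := by rw [pw]; norm_num
  have e2 : Y ^ (1 / 5 : ℝ) = (Y ^ (1 / 100 : ℝ)) ^ 20 := by rw [pw]; norm_num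
  have e3 : Y ^ (1 / 50 : ℝ) = (Y ^ (1 / 100 : ℝ)) ^ 2 := by rw [pw]; norm_num
  have e4 : Y = (Y ^ (1 / 100 : ℝ)) ^ 100 := by rw [pw]; norm_num
  have e5 : (2 * Y) ^ (1 / 50 : ℝ) ≤ 2 * (Y ^ (1 / 100 : ℝ)) ^ 2 := by
    rw [Real.mul_rpow (by norm_num) Y0, e3]
    refine mul_le_mul_of_nonneg_right ?_ (by positivity)
    exact (Real.rpow_le_rpow_of_exponent_le (by norm_num) (by norm_num)).trans
      (Real.rpow_one 2).le
  have e6 : 0 ≤ (2 * Y) ^ (1 / 50 : ℝ) := by positivity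
  rw [e1, e2]
  generalize (2 * Y) ^ (1 / 50 : ℝ) = T at e5 e6
  generalize Y ^ (1 / 100 : ℝ) = Z at *
  have Z1 : 1 ≤ Z := by linarith
  have Z0 : 0 < Z := by linarith
  refine ⟨a3, ?_, fun Q w n q1 q2 w0 w1 n0 hn => ?_⟩
  · rw [e4]
    calc 8 * Z ^ 100 ≤ Z * Z ^ 100 := mul_le_mul_of_nonneg_right a2 (by positivity)
      _ = Z ^ 101 := by ring
      _ ≤ Z ^ 199 := pow_le_pow_right₀ Z1 (by norm_num)
  have e7 : Y ^ 2 = Z ^ 200 := by rw [e4, ← pow_mul]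
  rw [e7] at q2 ⊢
  have Q1 : 1 ≤ Q := (one_le_pow₀ Z1).trans q1
  have l1 : 1 + Real.log Q ≤ 201 * Z := by
    have h1 := Real.log_le_log (by linarith) q2
    rw [Real.log_pow] at h1
    have h2 := Real.log_le_sub_one_of_pos Z0
    push_cast at h1
    linarith
  have l0 : 0 ≤ 1 + Real.log Q := add_nonneg zero_le_one (Real.log_nonneg Q1)
  have n1 : Z ^ 193 ≤ n := by
    refine le_of_pow_le_pow_left₀ (n := 100) (by norm_num) n0 (le_trans ?_ hn)
    refine le_trans ?_ (pow_le_pow_left₀ (by positivity) q1 97)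
    rw [← pow_mul, ← pow_mul]
    exact pow_le_pow_right₀ Z1 (by norm_num)
  calc 2000 * (3 * D) * (Q + Z ^ 200) * (1 + Real.log Q) * (T * w)
      ≤ 2000 * (3 * D) * (Z ^ 200 + Z ^ 200) * (201 * Z) * (2 * Z ^ 2 * (3 * D)) := by
        gcongr
    _ = 14472000 * D ^ 2 * Z ^ 203 := by ring
    _ ≤ Z * Z ^ 203 := mul_le_mul_of_nonneg_right (by nlinarith [sq_nonneg D]) (by positivity)
    _ = Z ^ 204 := by ring
    _ ≤ Z ^ 213 := pow_le_pow_right₀ Z1 (by norm_num)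
    _ = Z ^ 193 * Z ^ 20 := by ring
    _ ≤ n * Z ^ 20 := mul_le_mul_of_nonneg_right n1 (by positivity)

theorem sL2 (hP : StProd) (hM : StMul) (hW : StWt) (hS : StSlow) (h1 : StSel1) (hH : StHv) :
    StL2 := by
  intro j0 D hj D0
  obtain ⟨t0, ht0⟩ := hS j0 20000
  filter_upwards [h1 t0
    ((∏ i ∈ range (t0 + 1), 2 ^ (101 * lev (j0 + i) * 2 ^ lev (j0 + i)) : ℕ) : ℝ) D,
    num_L2 D (Nat.cast_nonneg D)] with Y a1 a2
  obtain ⟨a2, a3, a4⟩ := a2
  intro B N s hq c J K u q β c0 cD K1 hA hsq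
  obtain ⟨t, tJ, b1, b2⟩ := a1 s hq.two_le (ht0 s fun i => ⟨(hq.one i).lo, (hq.one i).hi⟩)
    (Nat.cast_le.2 (prod_le_prod' fun i _ => (hq.one i).hi)) J (hsq.trans_eq (Nat.cast_mul _ _))
  obtain ⟨k1, r1⟩ := hP j0 B N s hj hq 0 (range t) fun _ _ => Nat.zero_le _
  obtain ⟨k2, r2⟩ := hP j0 B N s hj hq 0 (Ico t J) fun _ _ => Nat.zero_le _
  have c21 := cop_L2 hq.cop (Ico t J) (range t) fun i hi i' hi' => by
    have := mem_Ico.1 hi; have := mem_range.1 hi'; omega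
  obtain ⟨-, n21, s21⟩ := hM _ _ _ _ _ _ k2 k1 c21
  have w2 := hW.2.2 j0 B N s hj hq (Ico t J)
  have eS : ∏ i ∈ range J, s i = (∏ i ∈ Ico t J, s i) * ∏ i ∈ range t, s i := by
    rw [← prod_range_mul_prod_Ico s tJ, mul_comm]
  have eB : ∏ i ∈ range J, B i = (∏ i ∈ Ico t J, B i) * ∏ i ∈ range t, B i := by
    rw [← prod_range_mul_prod_Ico B tJ, mul_comm]
  have eN : ∏ i ∈ range J, N i = (∏ i ∈ Ico t J, N i) * ∏ i ∈ range t, N i := by
    rw [← prod_range_mul_prod_Ico N tJ, mul_comm]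
  have inj : ∀ A : Finset ℕ, Set.InjOn (fun a => c * a) (A : Set ℕ) :=
    fun A a _ b _ h => Nat.eq_of_mul_eq_mul_left c0 h
  refine ⟨(∏ i ∈ Ico t J, B i).image fun a => c * a, ∏ i ∈ range t, B i, ?_, ?_, ?_⟩
  · intro α
    rw [ES, sum_image (inj _), sum_image (inj _), eB, s21 fun a => ee (α * ((c * a : ℕ) : ℝ))]
    refine sum_congr rfl fun m _ => sum_congr rfl fun b _ => ?_
    congr 1
    push_cast
    ring
  · rw [card_image_of_injOn (inj _), card_image_of_injOn (inj _), eB, n21]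
  intro m hm
  obtain ⟨b, hb, rfl⟩ := mem_image.1 hm
  refine ⟨Nat.mul_dvd_mul_left _ (eN ▸ (k2.dvd b hb).mul_right _), ?_⟩
  obtain ⟨m1, m2, m3⟩ := r2 b hb
  have m4 := three_L2 hj m3
  have w0 := (hW.2.1 (c * b)).1
  have w1 : wt (c * b) ≤ 3 * (D : ℝ) := by
    refine (hW.1 c b).trans ?_
    rw [mul_comm]
    exact mul_le_mul (w2 b hb) ((hW.2.1 c).2.1.trans (Nat.cast_le.2 cD)) (hW.2.1 c).1
      (by norm_num)
  have big : ((∏ i ∈ range t, s i : ℕ) : ℝ) ^ 97 ≤ ((∏ i ∈ range t, B i).card : ℝ) ^ 100 := by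
    exact_mod_cast k1.big
  have h2 := a4 _ _ _ b1 b2 w0 w1 (Nat.cast_nonneg _) big
  refine (hH K _ (c * b) (∏ i ∈ range t, s i) (3 * D) u q β Y (∏ i ∈ range t, B i) hA K1
    (Nat.mul_pos c0 m1) ?_ ?_ a2 (a3.trans b1) hsq
    fun a ha => ⟨(r1 a ha).1, (r1 a ha).2.1⟩).trans ?_
  · rw [eS, mul_assoc]
    exact Nat.mul_le_mul cD (Nat.mul_le_mul_right _ m2)
  · rw [eS]
    calc D * ((∏ i ∈ Ico t J, s i) * ∏ i ∈ range t, s i)
        ≤ D * (3 * (c * b) * ∏ i ∈ range t, s i) :=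
          Nat.mul_le_mul_left _ (Nat.mul_le_mul_right _
            (m4.trans (Nat.mul_le_mul_left _ (Nat.le_mul_of_pos_left _ c0))))
      _ = _ := by ring
  · have h3 := mul_le_mul_of_nonneg_left h2
      (mul_nonneg (Nat.cast_nonneg (α := ℝ) (∏ i ∈ range t, B i).card) (Nat.cast_nonneg K))
    rw [Nat.cast_mul, Nat.cast_ofNat]
    refine le_trans (le_of_eq ?_) (h3.trans (le_of_eq ?_)) <;> ring

end Pool.Agent.MP_2876a2_nt.Tu.Z

end

noncomputable section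
open Finset Filter
open scoped Pointwise


namespace Pool.Agent.MP_2876a2_nt.Tu.Z

theorem gcd_M4 {q a b c d : ℕ} {Y : ℝ} (hq : 0 < q) (hY : (q : ℝ) ≤ Y) (ab : a.Coprime b)
    (ac : a.Coprime c) (ad : a.Coprime d) (bc : b.Coprime c) (bd : b.Coprime d)
    (cd : c.Coprime d) : √((Nat.gcd q a : ℕ) : ℝ) * √((Nat.gcd q b : ℕ) : ℝ) ≤
      √Y * ((√((Nat.gcd q c : ℕ) : ℝ))⁻¹ * (√((Nat.gcd q d : ℕ) : ℝ))⁻¹) := by
  have co : ∀ {x y : ℕ}, x.Coprime y → (Nat.gcd q x).Coprime (Nat.gcd q y) := fun h =>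
    Nat.Coprime.coprime_dvd_left (Nat.gcd_dvd_right _ _)
      (Nat.Coprime.coprime_dvd_right (Nat.gcd_dvd_right _ _) h)
  have h1 : Nat.gcd q a * Nat.gcd q b * Nat.gcd q c * Nat.gcd q d ∣ q :=
    Nat.Coprime.mul_dvd_of_dvd_of_dvd
      (Nat.Coprime.mul_left (Nat.Coprime.mul_left (co ad) (co bd)) (co cd))
      (Nat.Coprime.mul_dvd_of_dvd_of_dvd (Nat.Coprime.mul_left (co ac) (co bc))
        (Nat.Coprime.mul_dvd_of_dvd_of_dvd (co ab) (Nat.gcd_dvd_left _ _) (Nat.gcd_dvd_left _ _))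
        (Nat.gcd_dvd_left _ _)) (Nat.gcd_dvd_left _ _)
  have h2 : ((Nat.gcd q a : ℕ) : ℝ) * (Nat.gcd q b : ℕ) * (Nat.gcd q c : ℕ) * (Nat.gcd q d : ℕ) ≤
      Y := le_trans (by exact_mod_cast Nat.le_of_dvd hq h1) hY
  have p : ∀ x, 0 < √((Nat.gcd q x : ℕ) : ℝ) := fun x =>
    Real.sqrt_pos.2 (by exact_mod_cast Nat.gcd_pos_of_pos_left x hq)
  have h3 := Real.sqrt_le_sqrt h2
  rw [Real.sqrt_mul (by positivity), Real.sqrt_mul (by positivity),
    Real.sqrt_mul (by positivity)] at h3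
  rw [← mul_inv, ← div_eq_mul_inv, le_div_iff₀ (mul_pos (p c) (p d)), ← mul_assoc]
  exact h3

theorem sM4 : StM4 := by
  intro V A0 A1 M2 M3 q n S0 S1 S2 S3 T2 T3 δ Y H2 H3 hδ h2 h3 hn a0 a1 m2 m3 hV hT k2 k3
  have co : ∀ {i j x y : ℕ}, i < 4 → j < 4 → i ≠ j → x ∣ n i → y ∣ n j → x.Coprime y :=
    fun hi hj hij hx hy => Nat.Coprime.coprime_dvd_left hx
      (Nat.Coprime.coprime_dvd_right hy (hn _ hi _ hj hij))
  set c : ℝ := δ ^ 2 * √Y * A0.card * A1.card with hc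
  have c0 : 0 ≤ c := by positivity
  let s : ℕ → ℕ → ℝ := fun v a => √((Nat.gcd (q v) a : ℕ) : ℝ)
  have pt : ∀ v ∈ V, S0 v * S1 v * S2 v * S3 v ≤
      ∑ x ∈ M2, ∑ y ∈ M3, c * (((s v x)⁻¹ * T2 x v) * ((s v y)⁻¹ * T3 y v)) := by
    intro v hv
    obtain ⟨q0, qY, p0, p1, p2, p3, b0, b1, b2, b3⟩ := hV v hv
    have e1 : S0 v * S1 v * S2 v * S3 v ≤ (δ * ∑ a ∈ A0, s v a) * (δ * ∑ a ∈ A1, s v a) *
        (∑ m ∈ M2, T2 m v) * ∑ m ∈ M3, T3 m v :=
      mul_le_mul (mul_le_mul (mul_le_mul b0 b1 p1 (p0.trans b0)) b2 p2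
        (mul_nonneg (p0.trans b0) (p1.trans b1))) b3 p3
        (mul_nonneg (mul_nonneg (p0.trans b0) (p1.trans b1)) (p2.trans b2))
    refine e1.trans ?_
    rw [mul_assoc, sum_mul_sum, mul_sum]
    refine sum_le_sum fun x hx => ?_
    rw [mul_sum]
    refine sum_le_sum fun y hy => ?_
    have e2 : (∑ a ∈ A0, s v a) * ∑ a ∈ A1, s v a ≤
        A0.card * (A1.card * (√Y * ((s v x)⁻¹ * (s v y)⁻¹))) := by
      rw [sum_mul_sum, ← nsmul_eq_mul, ← nsmul_eq_mul]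
      refine sum_le_card_nsmul _ _ _ fun a ha => sum_le_card_nsmul _ _ _ fun b hb => ?_
      exact gcd_M4 q0 qY (co (by omega) (by omega) (by omega) (a0 a ha) (a1 b hb))
        (co (by omega) (by omega) (by omega) (a0 a ha) (m2 x hx))
        (co (by omega) (by omega) (by omega) (a0 a ha) (m3 y hy))
        (co (by omega) (by omega) (by omega) (a1 b hb) (m2 x hx))
        (co (by omega) (by omega) (by omega) (a1 b hb) (m3 y hy))
        (co (by omega) (by omega) (by omega) (m2 x hx) (m3 y hy))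
    have e3 := mul_le_mul_of_nonneg_left e2
      (mul_nonneg (sq_nonneg δ) (mul_nonneg (hT x v).1 (hT y v).2))
    refine le_trans (le_of_eq ?_) (e3.trans (le_of_eq ?_))
    · ring
    · rw [hc]
      ring
  have sq : ∀ v a (t : ℝ), ((s v a)⁻¹ * t) ^ 2 = ((Nat.gcd (q v) a : ℕ) : ℝ)⁻¹ * t ^ 2 :=
    fun v a t => by rw [mul_pow, inv_pow, Real.sq_sqrt (Nat.cast_nonneg _)]
  refine (sum_le_sum pt).trans ?_
  have fin : ∀ x ∈ M2, ∀ y ∈ M3,
      ∑ v ∈ V, c * (((s v x)⁻¹ * T2 x v) * ((s v y)⁻¹ * T3 y v)) ≤ c * (H2 * H3) := by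
    intro x hx y hy
    rw [← mul_sum]
    refine mul_le_mul_of_nonneg_left ((le_abs_self _).trans
      (abs_le_of_sq_le_sq ((sum_mul_sq_le_sq_mul_sq _ _ _).trans ?_) (mul_nonneg h2 h3))) c0
    simp only [sq]
    rw [mul_pow]
    exact mul_le_mul (k2 x hx) (k3 y hy) (sum_nonneg fun v _ => by positivity) (sq_nonneg _)
  rw [sum_comm]
  refine (sum_le_card_nsmul _ _ (M3.card • (c * (H2 * H3))) fun x hx => ?_).trans (le_of_eq ?_)
  · rw [sum_comm]
    exact sum_le_card_nsmul _ _ _ (fin x hx)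
  · simp only [nsmul_eq_mul]
    ring

end Pool.Agent.MP_2876a2_nt.Tu.Z

end

noncomputable section
open Finset Filter
open scoped Pointwise


namespace Pool.Agent.MP_2876a2_nt.Tu.Z

theorem nES_MS (A : Finset ℕ) (α : ℝ) : ‖ES A α‖ ≤ A.card := by
  unfold ES
  refine (norm_sum_le _ _).trans ?_
  have h : ∀ a ∈ A, ‖ee (α * a)‖ = 1 := fun a _ => Complex.norm_exp_ofReal_mul_I _
  rw [sum_congr rfl h]
  simp

theorem split_MS {k : ℕ} (hk : 4 ≤ k) (g : ℕ → ℝ) :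
    ∏ i : Fin k, g i = g 0 * g 1 * g 2 * g 3 * ∏ i ∈ Ico 4 k, g i := by
  rw [Fin.prod_univ_eq_prod_range g k, ← prod_range_mul_prod_Ico g hk]
  simp only [prod_range_succ, prod_range_zero, one_mul]

theorem num_MS : ∀ᶠ Y : ℝ in atTop, 1 ≤ Y ∧
    (Y ^ (-(468 / 1000) : ℝ)) ^ 2 * √(2 * Y) * Y ^ (1 / 5 : ℝ) ≤ Y ^ (-(1 / 5) : ℝ) := by
  filter_upwards [eventually_ge_atTop (1 : ℝ),
    (tendsto_rpow_atTop (y := 36 / 1000) (by norm_num)).eventually_ge_atTop 2] with Y h1 h2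
  refine ⟨h1, ?_⟩
  have h0 : 0 < Y := by linarith
  have e1 : √(2 * Y) ≤ Y ^ (36 / 1000 : ℝ) * Y ^ (1 / 2 : ℝ) := by
    rw [← Real.sqrt_eq_rpow]
    have : √(2 * Y) ≤ 2 * √Y := by
      rw [Real.sqrt_le_left (by positivity), mul_pow, Real.sq_sqrt h0.le]
      linarith
    exact this.trans (by gcongr)
  calc _ ≤ (Y ^ (-(468 / 1000) : ℝ)) ^ 2 * (Y ^ (36 / 1000 : ℝ) * Y ^ (1 / 2 : ℝ)) *
        Y ^ (1 / 5 : ℝ) := by gcongr
    _ = _ := by
      rw [sq, ← Real.rpow_add h0, ← Real.rpow_add h0, ← Real.rpow_add h0, ← Real.rpow_add h0]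
      norm_num

theorem q_le_MS (S q : ℕ) (β : ℝ) : (q : ℝ) ≤ qs S q β :=
  le_mul_of_one_le_right (Nat.cast_nonneg _) (le_max_left _ _)

theorem mem_MS {K S : ℕ} {q : ℕ → ℕ} {β : ℕ → ℝ} {Y : ℝ} {v : ℕ} (h : v ∈ Vy K S q β Y) :
    Y ≤ qs S (q v) (β v) ∧ qs S (q v) (β v) < 2 * Y := by
  classical
  exact (mem_filter.1 h).2

theorem fin_MS {k : ℕ} (hk : 4 ≤ k) (V : Finset ℕ) (f : ℕ → ℕ → ℝ) (g : ℕ → ℝ)
    (K δ Z y w m2 b2 m3 b3 : ℝ) (h0 : ∀ i v, 0 ≤ f i v) (h1 : ∀ i v, f i v ≤ g i)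
    (hg : ∀ i, 0 ≤ g i) (hK : 0 ≤ K) (hy : 0 ≤ y) (c2 : g 2 = m2 * b2) (c3 : g 3 = m3 * b3)
    (hnum : δ ^ 2 * Z * y ≤ w)
    (key : ∑ v ∈ V, f 0 v * f 1 v * f 2 v * f 3 v ≤
      δ ^ 2 * Z * g 0 * g 1 * (m2 * (√(K * y) * b2)) * (m3 * (√(K * y) * b3))) :
    ∑ v ∈ V, ∏ i : Fin k, f i v ≤ K * (∏ i : Fin k, g i) * w := by
  obtain ⟨R, hR⟩ : ∃ R : ℝ, R = ∏ i ∈ Ico 4 k, g i := ⟨_, rfl⟩
  have hR0 : 0 ≤ R := by
    rw [hR]
    exact prod_nonneg fun i _ => hg i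
  have hpt : ∀ v ∈ V, ∏ i : Fin k, f i v ≤ f 0 v * f 1 v * f 2 v * f 3 v * R := by
    intro v _
    rw [split_MS hk fun i => f i v, hR]
    exact mul_le_mul_of_nonneg_left (prod_le_prod (fun i _ => h0 i v) fun i _ => h1 i v)
      (mul_nonneg (mul_nonneg (mul_nonneg (h0 0 v) (h0 1 v)) (h0 2 v)) (h0 3 v))
  refine (sum_le_sum hpt).trans ?_
  rw [← sum_mul, split_MS hk g, ← hR]
  refine (mul_le_mul_of_nonneg_right key hR0).trans ?_
  have hm : √(K * y) * √(K * y) = K * y := Real.mul_self_sqrt (mul_nonneg hK hy)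
  have hp : 0 ≤ K * (g 0 * g 1 * g 2 * g 3 * R) := mul_nonneg hK
    (mul_nonneg (mul_nonneg (mul_nonneg (mul_nonneg (hg 0) (hg 1)) (hg 2)) (hg 3)) hR0)
  calc _ = (√(K * y) * √(K * y)) * (δ ^ 2 * Z) * (g 0 * g 1 * (m2 * b2) * (m3 * b3) * R) := by
        ring
    _ = K * (g 0 * g 1 * g 2 * g 3 * R) * (δ ^ 2 * Z * y) := by
        rw [hm, c2, c3]
        ring
    _ ≤ _ := mul_le_mul_of_nonneg_left hnum hp

theorem sq_MS (K y b : ℝ) (hK : 0 ≤ K) (hy : 0 ≤ y) : (√(K * y) * b) ^ 2 = K * b ^ 2 * y := by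
  rw [mul_pow, Real.sq_sqrt (mul_nonneg hK hy)]
  ring

theorem mid_MS (h4 : StM4) {k : ℕ} (hk : 4 ≤ k) (V : Finset ℕ) (A : ℕ → Finset ℕ)
    (q n : ℕ → ℕ) (α : ℕ → ℝ) (K δ Z y w : ℝ) (hK : 0 ≤ K) (hy : 0 ≤ y) (hδ : 0 ≤ δ)
    (hnum : δ ^ 2 * √Z * y ≤ w) (hcop : ∀ i < 4, ∀ i' < 4, i ≠ i' → (n i).Coprime (n i'))
    (hdv : ∀ i < 4, ∀ a ∈ A i, a ∣ n i) (hq : ∀ v ∈ V, 0 < q v ∧ (q v : ℝ) ≤ Z)
    (hdec : ∀ i < 4, ∀ v ∈ V, ‖ES (A i) (α v)‖ ≤ δ * ∑ a ∈ A i, √((Nat.gcd (q v) a : ℕ) : ℝ))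
    (hl2 : ∀ i < 4, ∃ M' B' : Finset ℕ,
      (∀ x : ℝ, ES (A i) x = ∑ m ∈ M', ES B' (x * m)) ∧ (A i).card = M'.card * B'.card ∧
      ∀ m ∈ M', m ∣ n i ∧ ∑ v ∈ V, ((Nat.gcd (q v) m : ℕ) : ℝ)⁻¹ * ‖ES B' (α v * m)‖ ^ 2 ≤
        K * (B'.card : ℝ) ^ 2 * y) :
    ∑ v ∈ V, ∏ i : Fin k, ‖ES (A i) (α v)‖ ≤ K * (∏ i : Fin k, ((A i).card : ℝ)) * w := by
  obtain ⟨M2, B2, e2, c2, l2⟩ := hl2 2 (by omega)
  obtain ⟨M3, B3, e3, c3, l3⟩ := hl2 3 (by omega)
  refine fin_MS hk V (fun i v => ‖ES (A i) (α v)‖) (fun i => ((A i).card : ℝ)) K δ √Z y w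
    M2.card B2.card M3.card B3.card (fun _ _ => norm_nonneg _) (fun _ _ => nES_MS _ _)
    (fun _ => Nat.cast_nonneg _) hK hy (by rw [c2, Nat.cast_mul]) (by rw [c3, Nat.cast_mul])
    hnum ?_
  refine h4 V (A 0) (A 1) M2 M3 q n (fun v => ‖ES (A 0) (α v)‖) (fun v => ‖ES (A 1) (α v)‖)
    (fun v => ‖ES (A 2) (α v)‖) (fun v => ‖ES (A 3) (α v)‖) (fun m v => ‖ES B2 (α v * m)‖)
    (fun m v => ‖ES B3 (α v * m)‖) δ Z (√(K * y) * B2.card) (√(K * y) * B3.card) hδ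
    (mul_nonneg (Real.sqrt_nonneg _) (Nat.cast_nonneg _))
    (mul_nonneg (Real.sqrt_nonneg _) (Nat.cast_nonneg _)) hcop (hdv 0 (by omega))
    (hdv 1 (by omega)) (fun m hm => (l2 m hm).1) (fun m hm => (l3 m hm).1) ?_
    (fun _ _ => ⟨norm_nonneg _, norm_nonneg _⟩) ?_ ?_
  · intro v hv
    refine ⟨(hq v hv).1, (hq v hv).2, norm_nonneg _, norm_nonneg _, norm_nonneg _, norm_nonneg _,
      hdec 0 (by omega) v hv, hdec 1 (by omega) v hv, ?_, ?_⟩
    · rw [e2]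
      exact norm_sum_le _ _
    · rw [e3]
      exact norm_sum_le _ _
  · intro m hm
    rw [sq_MS K y _ hK hy]
    exact (l2 m hm).2
  · intro m hm
    rw [sq_MS K y _ hK hy]
    exact (l3 m hm).2

theorem sMS (hD : StDec) (hL : StL2) (h4 : StM4) (hP : StProd) : StMS := by
  intro j0 D k M hj hD0 hk hM
  obtain ⟨Y1, h1⟩ := eventually_atTop.1 (hD j0 D hj hD0)
  obtain ⟨Y2, h2⟩ := eventually_atTop.1 (hL j0 D hj hD0)
  obtain ⟨Y3, h3⟩ := eventually_atTop.1 num_MS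
  refine ⟨max Y1 (max Y2 Y3), ?_⟩
  intro B N s hSM c hc hcop J K u q β hK hAp Y hY
  have hY1 : Y1 ≤ Y := (le_max_left _ _).trans hY
  have hY2 : Y2 ≤ Y := ((le_max_left _ _).trans (le_max_right _ _)).trans hY
  have hY3 : Y3 ≤ Y := ((le_max_right _ _).trans (le_max_right _ _)).trans hY
  obtain ⟨hone, hnum⟩ := h3 Y hY3
  have h0 : 0 < Y := lt_of_lt_of_le one_pos hone
  have hM4 : ∀ i < 4, i < M := fun i hi => by omega
  rcases (Vy K (D * ∏ t ∈ range J, s t) q β Y).eq_empty_or_nonempty with he | ⟨v0, hv0⟩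
  · rw [he, sum_empty]
    exact mul_nonneg (mul_nonneg (Nat.cast_nonneg _) (prod_nonneg fun _ _ => Nat.cast_nonneg _))
      (Real.rpow_nonneg h0.le _)
  have hYS : Y ^ 2 ≤ ((D * ∏ t ∈ range J, s t : ℕ) : ℝ) :=
    (pow_le_pow_left₀ h0.le (mem_MS hv0).1 2).trans (hAp v0).2.2.2
  refine mid_MS h4 hk _ (fun i => (∏ t ∈ range J, B i t).image fun a => c i * a) q
    (fun i => c i * ∏ t ∈ range J, N i t)
    (fun v => (v : ℝ) / (K * (D * ∏ t ∈ range J, s t) : ℕ)) K (Y ^ (-(468 / 1000) : ℝ)) (2 * Y)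
    (Y ^ (1 / 5 : ℝ)) _ (Nat.cast_nonneg _) (Real.rpow_nonneg h0.le _) (Real.rpow_nonneg h0.le _)
    hnum (fun i hi i' hi' hne => hcop i (lt_of_lt_of_le hi hk) i' (lt_of_lt_of_le hi' hk) hne J)
    ?_ (fun v hv => ⟨(hAp v).1, (q_le_MS _ _ _).trans (mem_MS hv).2.le⟩) ?_ ?_
  · intro i hi a ha
    obtain ⟨b, hb, rfl⟩ := mem_image.1 ha
    exact Nat.mul_dvd_mul_left _ ((hP j0 (B i) (N i) s hj (hSM.one i (hM4 i hi)) 0 (range J)
      fun _ _ => Nat.zero_le _).1.dvd b hb)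
  · intro i hi v hv
    have hv' := mem_MS hv
    have e := h1 _ (hY1.trans hv'.1) (B i) (N i) s (hSM.one i (hM4 i hi)) (c i) J (q v) (u v) (β v)
      (hc i (hM4 i hi)).1 (hc i (hM4 i hi)).2 (hAp v).1 (hAp v).2.1 rfl (hAp v).2.2.2
    rw [← (hAp v).2.2.1] at e
    exact e.trans (mul_le_mul_of_nonneg_right
      (Real.rpow_le_rpow_of_nonpos h0 hv'.1 (by norm_num))
      (sum_nonneg fun _ _ => Real.sqrt_nonneg _))
  · intro i hi
    exact h2 Y hY2 (B i) (N i) s (hSM.one i (hM4 i hi)) (c i) J K u q β (hc i (hM4 i hi)).1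
      (hc i (hM4 i hi)).2 hK hAp hYS

end Pool.Agent.MP_2876a2_nt.Tu.Z

end

noncomputable section
open Finset Filter
open scoped Pointwise


namespace Pool.Agent.MP_2876a2_nt.Tu.Z

theorem term_Diff {E : ℂ} {S q0 q T T' : ℕ} {V ε β : ℝ} {u : ℤ} (hAk : 0 ≤ V) (hE : ‖E‖ ≤ V)
    (hq0 : (1 : ℝ) ≤ q0) (hε0 : 0 ≤ ε) (hq : 0 < q) (h : qs S q β < q0)
    (hm : T' ≡ T [MOD q0.factorial]) (hT : |(T' : ℝ) - T| ≤ ε * S) :
    ‖E * (ee (-(T' * (u / q + β))) - ee (-(T * (u / q + β))))‖ ≤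
      V * (8 * ε * (q0 : ℝ) ^ 4) * qs S q β ^ (-(2002 / 1000) : ℝ) := by
  have h1 := one_le_qs S hq β
  set Y := qs S q β with hYd
  have hY0 : 0 < Y := by linarith
  have hqp : (0 : ℝ) < q0 := by linarith
  rw [norm_mul]
  have hqq : q ≤ q0 := by
    have : (q : ℝ) ≤ q0 := (le_qs S q β).trans h.le
    exact_mod_cast this
  obtain ⟨m, hm'⟩ : (q : ℤ) ∣ (T : ℤ) - T' :=
    (Int.natCast_dvd_natCast.2 (Nat.dvd_factorial hq hqq)).trans hm.dvd
  have hm2 : (T : ℝ) - T' = q * m := by exact_mod_cast hm'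
  have hq' : (q : ℝ) ≠ 0 := by positivity
  have e1 : -((T' : ℝ) * (u / q + β)) =
      -(T * (u / q + β)) + (((m * u : ℤ) : ℝ) + ((T : ℝ) - T') * β) := by
    have : (T' : ℝ) = T - q * m := by linarith
    rw [this]
    push_cast
    field_simp
    ring
  have h5 : ‖ee (-(T' * (u / q + β))) - ee (-(T * (u / q + β)))‖ ≤
      2 * Real.pi * |((T : ℝ) - T') * β| := by
    rw [e1, ee_add, ee_add, ee_int, one_mul, ← mul_sub_one, norm_mul, norm_ee, one_mul]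
    exact norm_ee_sub_one _
  have h7 : |β| * S ≤ Y := by
    have hq1 : (1 : ℝ) ≤ q := by exact_mod_cast hq
    refine (le_max_right 1 _).trans ?_
    exact le_mul_of_one_le_left (zero_le_one.trans (le_max_left _ _)) hq1
  have h8 : |((T : ℝ) - T') * β| ≤ ε * q0 := by
    rw [abs_mul, abs_sub_comm]
    calc _ ≤ ε * S * |β| := mul_le_mul_of_nonneg_right hT (abs_nonneg _)
      _ = ε * (|β| * S) := by ring
      _ ≤ ε * q0 := mul_le_mul_of_nonneg_left (h7.trans h.le) hε0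
  have h9 : 1 ≤ (q0 : ℝ) ^ 3 * Y ^ (-(2002 / 1000) : ℝ) := by
    have a1 : (q0 : ℝ) ^ (-(3 : ℝ)) ≤ Y ^ (-(2002 / 1000) : ℝ) :=
      (Real.rpow_le_rpow_of_nonpos hY0 h.le (by norm_num)).trans
        (Real.rpow_le_rpow_of_exponent_le h1 (by norm_num))
    rw [Real.rpow_neg hqp.le, show (3 : ℝ) = ((3 : ℕ) : ℝ) by norm_num,
      Real.rpow_natCast] at a1
    calc (1 : ℝ) = (q0 : ℝ) ^ 3 * ((q0 : ℝ) ^ 3)⁻¹ := by field_simp
      _ ≤ _ := by gcongr
  have h10 : 2 * Real.pi * |((T : ℝ) - T') * β| ≤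
      8 * ε * (q0 : ℝ) ^ 4 * Y ^ (-(2002 / 1000) : ℝ) := by
    calc _ ≤ 2 * 4 * (ε * q0) * 1 := by
          rw [mul_one]
          gcongr
          exact Real.pi_le_four
      _ ≤ 2 * 4 * (ε * q0) * ((q0 : ℝ) ^ 3 * Y ^ (-(2002 / 1000) : ℝ)) := by gcongr
      _ = _ := by ring
  rw [mul_assoc]
  exact mul_le_mul hE (h5.trans h10) (norm_nonneg _) hAk

theorem q0_Diff (Y0 L : ℝ) : ∃ q0 : ℕ, Y0 ≤ q0 ∧ (1 : ℝ) ≤ q0 ∧
    2 * (q0 : ℝ) ^ (-(1 / 5) : ℝ) * L ≤ 1 / 4 := by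
  have h1 : Tendsto (fun n : ℕ => 2 * (n : ℝ) ^ (-(1 / 5) : ℝ) * L) atTop (nhds (2 * 0 * L)) :=
    (((tendsto_rpow_neg_atTop (by norm_num)).comp tendsto_natCast_atTop_atTop).const_mul
      2).mul_const L
  have h2 := h1.eventually (ge_mem_nhds (show 2 * 0 * L < 1 / 4 by norm_num))
  have h3 := (tendsto_natCast_atTop_atTop (R := ℝ)).eventually_ge_atTop Y0
  have h4 := (tendsto_natCast_atTop_atTop (R := ℝ)).eventually_ge_atTop 1
  exact (h3.and (h4.and h2)).exists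

theorem two_Diff : (2 : ℝ) ^ (-(1 / 5) : ℝ) ≤ 7 / 8 := by
  refine le_of_pow_le_pow_left₀ (n := 5) (by norm_num) (by norm_num) ?_
  rw [← Real.rpow_natCast, ← Real.rpow_mul (by norm_num)]
  norm_num

theorem geo_Diff {x : ℝ} (hx : 0 < x) (n : ℕ) :
    ∑ i ∈ range n, (x * 2 ^ i) ^ (-(1 / 5) : ℝ) ≤ x ^ (-(1 / 5) : ℝ) * 8 := by
  have h1 : ∀ i : ℕ, (x * 2 ^ i) ^ (-(1 / 5) : ℝ) ≤ x ^ (-(1 / 5) : ℝ) * (7 / 8) ^ i := by
    intro i
    rw [Real.mul_rpow hx.le (by positivity), ← Real.rpow_natCast, ← Real.rpow_mul (by norm_num),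
      mul_comm (i : ℝ), Real.rpow_mul (by norm_num), Real.rpow_natCast]
    exact mul_le_mul_of_nonneg_left (pow_le_pow_left₀ (by positivity) two_Diff i) (by positivity)
  refine (sum_le_sum fun i _ => h1 i).trans ?_
  rw [← mul_sum]
  refine mul_le_mul_of_nonneg_left ?_ (by positivity)
  have h2 := geom_sum_mul_neg (7 / 8 : ℝ) n
  have h3 : (0 : ℝ) ≤ (7 / 8) ^ n := by positivity
  linarith

theorem dy_Diff {S : ℕ} {x Y : ℝ} (hx : 1 ≤ x) (h : x ≤ Y) (hS : Y ^ 2 ≤ S) :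
    ∃ i ∈ range (S + 1), x * 2 ^ i ≤ Y ∧ Y < 2 * (x * 2 ^ i) := by
  have hx0 : 0 < x := by linarith
  obtain ⟨i, h1, h2⟩ := exists_nat_pow_near ((one_le_div hx0).2 h) (one_lt_two (α := ℝ))
  rw [le_div_iff₀ hx0] at h1
  rw [div_lt_iff₀ hx0, pow_succ] at h2
  refine ⟨i, mem_range.2 (Nat.lt_succ_of_le ?_), by linarith, by linarith⟩
  have h3 : (i : ℝ) ≤ 2 ^ i := by exact_mod_cast (Nat.lt_two_pow_self).le
  have h4 : (2 : ℝ) ^ i ≤ 2 ^ i * x := le_mul_of_one_le_right (by positivity) hx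
  have h5 : (i : ℝ) ≤ S := by nlinarith
  exact_mod_cast h5

theorem sDiff (hF : StFour2) (hA : V.StAp3) : StDiff := by
  intro Y0 k
  obtain ⟨C, hC, hA⟩ := hA
  have hK : (0 : ℝ) < (k : ℝ) + 2 := by positivity
  have hK1 : (1 : ℝ) ≤ (k : ℝ) + 2 := by linarith [Nat.cast_nonneg (α := ℝ) k]
  obtain ⟨q0, hY, hq1, hq⟩ := q0_Diff Y0 (8 * ((k : ℝ) + 2))
  obtain ⟨ε, hε⟩ : ∃ ε : ℝ, ε = 1 / (32 * (C + 1) * ((k : ℝ) + 2) * (q0 : ℝ) ^ 4) := ⟨_, rfl⟩
  have hε0 : 0 < ε := by rw [hε]; positivity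
  have hε1 : ε ≤ 1 := by
    rw [hε, div_le_one (by positivity)]
    exact one_le_mul_of_one_le_of_one_le
      (one_le_mul_of_one_le_of_one_le (by linarith) hK1) (one_le_pow₀ hq1)
  have hε2 : 8 * ε * (q0 : ℝ) ^ 4 * (C * ((k : ℝ) + 2)) ≤ 1 / 4 := by
    have : 8 * ε * (q0 : ℝ) ^ 4 * ((C + 1) * ((k : ℝ) + 2)) = 1 / 4 := by
      rw [hε]; field_simp; ring
    rw [← this]
    gcongr
    linarith
  refine ⟨q0.factorial, ε, Nat.factorial_pos _, hε0, hε1,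
    fun A S hS hAS hD T T' hT hm hTT => ?_⟩
  obtain ⟨u, q, β, h1, h2⟩ := hA (k + 2) S (by omega) hS
  have hS' : (1 : ℝ) ≤ S := by exact_mod_cast hS
  have hP : k * S < (k + 2) * S := by nlinarith
  have hT' : T' < (k + 2) * S := by
    have h3 : (T' : ℝ) - T ≤ S :=
      ((le_abs_self _).trans hTT).trans (mul_le_of_le_one_left (by linarith) hε1)
    have h4 : (T' : ℝ) ≤ T + S := by linarith
    have h5 : T' ≤ T + S := by exact_mod_cast h4
    nlinarith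
  have e1 := hF k A S _ T hAS hP (hT.trans_lt hP)
  have e2 := hF k A S _ T' hAS hP hT'
  obtain ⟨V, hV⟩ : ∃ V : ℝ, ∏ i, ((A i).card : ℝ) = V := ⟨_, rfl⟩
  have hAk : 0 ≤ V := hV ▸ prod_nonneg fun i _ => Nat.cast_nonneg _
  rw [hV]
  have s1 : ∑ v ∈ range ((k + 2) * S), qs S (q v) (β v) ^ (-(2002 / 1000) : ℝ) ≤
      C * ((k : ℝ) + 2) := by
    have h3 := h2 1 one_ne_zero
    rw [Tu.V.wt_one] at h3
    simpa using h3
  have s2 : ∑ v ∈ range ((k + 2) * S), ∑ i ∈ range (S + 1),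
      (if v ∈ Vy (k + 2) S q β (q0 * 2 ^ i) then
        ∏ j, ‖ES (A j) ((v : ℝ) / ((k + 2) * S : ℕ))‖ else 0) ≤
      ((k : ℝ) + 2) * V * ((q0 : ℝ) ^ (-(1 / 5) : ℝ) * 8) := by
    rw [sum_comm]
    refine le_trans (sum_le_sum fun i _ => ?_) ((mul_sum _ _ _).symm.le.trans
      (mul_le_mul_of_nonneg_left (geo_Diff (by linarith) (S + 1)) (by positivity)))
    rw [sum_ite_mem, inter_eq_right.2 (by unfold Vy; exact filter_subset _ _)]
    have h3 := hD (k + 2) u q β (by omega) h1 (q0 * 2 ^ i)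
      (hY.trans (le_mul_of_one_le_right (by linarith) (one_le_pow₀ one_le_two)))
    rw [hV] at h3
    push_cast at h3 ⊢
    exact h3
  have e3 : ‖((rm A T' : ℂ) - rm A T) * (((k + 2) * S : ℕ) : ℂ)‖ ≤
      2 * (((k : ℝ) + 2) * V * ((q0 : ℝ) ^ (-(1 / 5) : ℝ) * 8)) +
        V * (8 * ε * (q0 : ℝ) ^ 4) * (C * ((k : ℝ) + 2)) := by
    rw [sub_mul, e1, e2, ← sum_sub_distrib]
    refine (norm_sum_le _ _).trans ?_
    refine le_trans ?_ (add_le_add (mul_le_mul_of_nonneg_left s2 (by positivity))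
      (mul_le_mul_of_nonneg_left s1 (by positivity)))
    rw [mul_sum, mul_sum, ← sum_add_distrib]
    refine sum_le_sum fun v hv => ?_
    obtain ⟨a1, a2, a3, a4⟩ := h1 v
    have n0 : ∀ i ∈ range (S + 1), 0 ≤ (if v ∈ Vy (k + 2) S q β (q0 * 2 ^ i) then
        ∏ j, ‖ES (A j) ((v : ℝ) / ((k + 2) * S : ℕ))‖ else 0) := fun i _ => by
      split_ifs
      · exact prod_nonneg fun _ _ => norm_nonneg _
      · exact le_rfl
    have n1 := (one_le_qs S a1 (β v))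
    rw [← mul_sub]
    rcases le_or_gt (q0 : ℝ) (qs S (q v) (β v)) with h | h
    · obtain ⟨i, hi, b1, b2⟩ := dy_Diff hq1 h a4
      have b3 := single_le_sum n0 hi
      rw [if_pos (by unfold Vy; exact mem_filter.2 ⟨hv, b1, b2⟩)] at b3
      refine le_trans ?_ (le_add_of_nonneg_right (by positivity))
      rw [norm_mul, norm_prod, mul_comm]
      refine mul_le_mul ?_ b3 (prod_nonneg fun _ _ => norm_nonneg _) zero_le_two
      refine (norm_sub_le _ _).trans ?_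
      rw [norm_ee, norm_ee]
      norm_num
    · refine le_trans ?_ (le_add_of_nonneg_left (mul_nonneg zero_le_two (sum_nonneg n0)))
      rw [mul_div_assoc, mul_div_assoc, a3]
      refine term_Diff hAk ?_ hq1 hε0.le a1 h hm hTT
      rw [norm_prod, ← hV]
      exact prod_le_prod (fun i _ => norm_nonneg _) fun i _ => norm_ES_le (A i) _
  rw [norm_mul, Complex.norm_natCast, ← Complex.ofReal_natCast, ← Complex.ofReal_natCast,
    ← Complex.ofReal_sub, Complex.norm_real, Real.norm_eq_abs] at e3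
  rw [le_div_iff₀ (by positivity)]
  push_cast at e3
  have b1 := mul_le_mul_of_nonneg_left hq hAk
  have b2 := mul_le_mul_of_nonneg_left hε2 hAk
  nlinarith

end Pool.Agent.MP_2876a2_nt.Tu.Z

end

noncomputable section
open Finset Filter
open scoped Pointwise


namespace Pool.Agent.MP_2876a2_nt.Tu.Z

open Classical in
def gr_K1 (a : ℕ → ℝ) (x : ℝ) : ℕ → Finset ℕ
  | 0 => ∅
  | n + 1 => if ∑ i ∈ gr_K1 a x n, a i + a n ≤ x then insert n (gr_K1 a x n) else gr_K1 a x n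

theorem sub_K1 (a : ℕ → ℝ) (x : ℝ) (n : ℕ) : gr_K1 a x n ⊆ range n := by
  induction n with
  | zero => exact empty_subset _
  | succ n ih =>
    rw [gr_K1, range_add_one]
    split_ifs
    · exact insert_subset_insert _ ih
    · exact ih.trans (subset_insert _ _)

theorem step_K1 (a : ℕ → ℝ) (x : ℝ) (n : ℕ) : ∑ i ∈ gr_K1 a x (n + 1), a i =
    if ∑ i ∈ gr_K1 a x n, a i + a n ≤ x then ∑ i ∈ gr_K1 a x n, a i + a n
    else ∑ i ∈ gr_K1 a x n, a i := by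
  rw [gr_K1]
  split_ifs
  · rw [sum_insert fun h => by simpa using sub_K1 a x n h, add_comm]
  · rfl

theorem sK1 : StK1 := by
  intro a h0 h1 h2 x η n0 hx hx' hη
  obtain ⟨S, hS⟩ : ∃ S : ℕ → ℝ, ∀ n, S n = ∑ i ∈ gr_K1 a x n, a i := ⟨_, fun _ => rfl⟩
  have st : ∀ n, S (n + 1) = if S n + a n ≤ x then S n + a n else S n := fun n => by
    rw [hS, hS]; exact step_K1 a x n
  have s0 : S 0 = 0 := by rw [hS, gr_K1, sum_empty]
  have le : ∀ n, S n ≤ x := by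
    intro n
    induction n with
    | zero => rwa [s0]
    | succ n ih => rw [st]; split_ifs with h; exacts [h, ih]
  by_contra hc
  have lt : ∀ n, S n < x - η := fun n => lt_of_not_ge fun h => hc ⟨_, hS n ▸ h, hS n ▸ le n⟩
  have run : ∀ m, (∀ i, m ≤ i → S i + a i ≤ x) → ∀ n, m ≤ n → S n = S m + ∑ i ∈ Ico m n, a i := by
    intro m hm n hn
    induction n, hn using Nat.le_induction with
    | base => simp
    | succ n hn ih => rw [st, if_pos (hm n hn), sum_Ico_succ_top hn, ih, add_assoc]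
  have down : ∀ m, (∀ i, m ≤ i → S i + a i ≤ x) → ∀ i, S i + a i ≤ x := by
    intro m
    induction m with
    | zero => exact fun h i => h i (Nat.zero_le i)
    | succ m ih =>
      refine fun h => ih fun i hi => ?_
      rcases hi.eq_or_lt with rfl | hi'
      · by_contra hs
        obtain ⟨n', hn'⟩ := h1 m
        have e := run (m + 1) h (m + 1 + n') (Nat.le_add_right _ _)
        rw [st, if_neg hs] at e
        have k : ∑ i ∈ Ioc m n', a i ≤ ∑ i ∈ Ico (m + 1) (m + 1 + n'), a i :=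
          sum_le_sum_of_subset_of_nonneg (fun i hi => by
            rw [mem_Ioc] at hi
            rw [mem_Ico]
            omega) fun i _ _ => h0 i
        linarith [le (m + 1 + n'), not_le.1 hs]
      · exact h i hi'
  obtain ⟨N, hN⟩ := eventually_atTop.1 (h2.eventually (eventually_le_nhds hη))
  have all := down N fun i hi => by linarith [lt i, hN i hi]
  have e := run 0 (fun i _ => all i) n0 (Nat.zero_le _)
  rw [s0, zero_add, ← range_eq_Ico] at e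
  linarith [lt n0]

end Pool.Agent.MP_2876a2_nt.Tu.Z

end

noncomputable section
open Finset Filter
open scoped Pointwise


namespace Pool.Agent.MP_2876a2_nt.Tu.Z

theorem pow_K2 (i : ℕ) (hi : 7 ≤ i) : 14 * (i + 1) < 2 ^ i := by
  induction i, hi using Nat.le_induction with
  | base => norm_num
  | succ n _ ih => rw [pow_succ]; omega

theorem card_K2 (hT : StTh) : ∀ᶠ i : ℕ in atTop, 8 ≤ (PN (2 ^ i)).card := by
  have h := (tendsto_pow_atTop_atTop_of_one_lt (one_lt_two (α := ℕ))).eventually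
    (hT 1 0 one_pos (by simp) (1 / 2) (by norm_num))
  filter_upwards [h, eventually_ge_atTop 7] with i h1 h7
  rw [PA_one] at h1
  by_contra hc
  have hc' : ((PN (2 ^ i)).card : ℝ) ≤ 7 := by exact_mod_cast (by omega : (PN (2 ^ i)).card ≤ 7)
  have h2 : TH (PN (2 ^ i)) ≤ (PN (2 ^ i)).card * ((i : ℝ) + 1) := by
    rw [TH, ← nsmul_eq_mul]
    refine sum_le_card_nsmul _ _ _ fun p hp => ?_
    obtain ⟨hp1, hp2⟩ := mem_filter.1 hp
    have hle : (p : ℝ) ≤ 2 ^ (i + 1) := by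
      have := (mem_Ioc.1 hp1).2
      rw [pow_succ']
      exact_mod_cast this
    have h3 := Real.log_le_log (by exact_mod_cast hp2.pos) hle
    rw [Real.log_pow] at h3
    have h4 : Real.log 2 ≤ 1 := by linarith [Real.log_two_lt_d9]
    have h5 : (0 : ℝ) ≤ (i : ℝ) + 1 := by positivity
    push_cast at h3
    nlinarith
  have h6 : (14 : ℝ) * (i + 1) < 2 ^ i := by exact_mod_cast pow_K2 i h7
  have h8 := (abs_le.1 h1).1
  simp only [Nat.totient_one, Nat.cast_one, div_one, Nat.cast_pow, Nat.cast_ofNat] at h8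
  have h5 : (0 : ℝ) ≤ (i : ℝ) + 1 := by positivity
  nlinarith

theorem log_K2 {i p : ℕ} (hi : 1 ≤ i) (hp : p ∈ PN (2 ^ i)) : Nat.log 2 p = i := by
  obtain ⟨hp1, hp2⟩ := mem_filter.1 hp
  obtain ⟨h1, h2⟩ := mem_Ioc.1 hp1
  refine Nat.log_eq_of_pow_le_of_lt_pow h1.le ?_
  rw [pow_succ']
  refine lt_of_le_of_ne h2 fun e => ?_
  have h3 : 2 ∣ p := e ▸ dvd_mul_right _ _
  have h4 := (Nat.prime_dvd_prime_iff_eq Nat.prime_two hp2).1 h3
  have h5 : 2 ^ 1 ≤ 2 ^ i := Nat.pow_le_pow_right two_pos hi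
  omega

theorem sK2 (hT : StTh) : StK2 := by
  classical
  unfold StK2
  filter_upwards [card_K2 hT, eventually_ge_atTop 1] with i h8 hi
  by_contra hc
  set R := (Ioc (2 ^ i) (2 * 2 ^ i)).filter Rsv with hR
  have hne : ((PN (2 ^ i)).filter fun p => ¬ Rsv p).Nonempty := by
    by_contra hn
    have hs : PN (2 ^ i) ⊆ R := by
      intro p hp
      refine mem_filter.2 ⟨(mem_filter.1 hp).1, ?_⟩
      by_contra hr
      exact hn ⟨p, mem_filter.2 ⟨hp, hr⟩⟩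
    have := card_le_card hs
    exact hc (h8.trans (this.trans_eq (by congr)))
  obtain ⟨p, hp, hmin⟩ := exists_min_image _ id hne
  obtain ⟨hp1, hp2⟩ := mem_filter.1 hp
  refine hp2 ⟨(mem_filter.1 hp1).2, ?_⟩
  rw [log_K2 hi hp1]
  have hs : (Ioc (2 ^ i) p).filter Nat.Prime ⊆ insert p R := by
    intro x hx
    obtain ⟨hx1, hx2⟩ := mem_filter.1 hx
    obtain ⟨hx3, hx4⟩ := mem_Ioc.1 hx1
    have hxI : x ∈ Ioc (2 ^ i) (2 * 2 ^ i) :=
      mem_Ioc.2 ⟨hx3, hx4.trans (mem_Ioc.1 (mem_filter.1 hp1).1).2⟩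
    by_cases hr : Rsv x
    · exact mem_insert_of_mem (mem_filter.2 ⟨hxI, hr⟩)
    · have := hmin x (mem_filter.2 ⟨mem_filter.2 ⟨hxI, hx2⟩, hr⟩)
      exact mem_insert.2 (Or.inl (le_antisymm hx4 this))
  have h1 := (card_le_card hs).trans (card_insert_le _ _)
  have h2 : R.card < 8 := not_le.1 fun h => hc (h.trans_eq (by congr))
  omega

end Pool.Agent.MP_2876a2_nt.Tu.Z

end

noncomputable section
open Finset Filter
open scoped Pointwise


namespace Pool.Agent.MP_2876a2_nt.Tu.Z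

theorem log_lo_Kak {n : ℕ} (hn : 1 ≤ n) : 1 / (2 * (n : ℝ)) ≤ Real.log (1 + 1 / n) := by
  have h0 : (1 : ℝ) ≤ n := by exact_mod_cast hn
  have h1 := Real.one_sub_inv_le_log_of_pos (x := 1 + 1 / (n : ℝ)) (by positivity)
  refine le_trans ?_ h1
  have e : 1 - (1 + 1 / (n : ℝ))⁻¹ = 1 / (n + 1) := by
    field_simp
    ring
  rw [e]
  exact one_div_le_one_div_of_le (by positivity) (by linarith)

theorem log_hi_Kak (n : ℕ) : Real.log (1 + 1 / (n : ℝ)) ≤ 1 / n := by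
  have := Real.log_le_sub_one_of_pos (x := 1 + 1 / (n : ℝ)) (by positivity)
  linarith

theorem big_Kak (L : ℕ) : ∃ Z : ℕ,
    1 ≤ ∑ i ∈ (Ioc L Z).filter Nat.Prime, Real.log (1 + 1 / (i : ℝ)) := by
  have h := (not_summable_iff_tendsto_nat_atTop_of_nonneg
    (f := Set.indicator {p : ℕ | p.Prime} fun n : ℕ => (1 : ℝ) / n)
    fun n => Set.indicator_nonneg (fun _ _ => by positivity) n).mp not_summable_one_div_on_primes
  obtain ⟨m, hm, hL⟩ := ((h.eventually_ge_atTop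
    (∑ i ∈ range (L + 1), Set.indicator {p : ℕ | p.Prime} (fun n : ℕ => (1 : ℝ) / n) i + 2)).and
    (eventually_ge_atTop (L + 1))).exists
  rw [← Finset.sum_range_add_sum_Ico _ hL] at hm
  refine ⟨m, ?_⟩
  have h2 : ∑ i ∈ Ico (L + 1) m, Set.indicator {p : ℕ | p.Prime} (fun n : ℕ => (1 : ℝ) / n) i ≤
      ∑ i ∈ (Ioc L m).filter Nat.Prime, 2 * Real.log (1 + 1 / (i : ℝ)) := by
    rw [Finset.sum_filter]
    refine le_trans (Finset.sum_le_sum fun i _ => ?_) (Finset.sum_le_sum_of_subset_of_nonneg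
      (s := Ico (L + 1) m) (fun i hi => ?_) fun i _ _ => ?_)
    · by_cases hp : i.Prime
      · rw [Set.indicator_of_mem (by exact hp), if_pos hp]
        have h3 := log_lo_Kak hp.one_le
        have h4 : (0 : ℝ) < i := by exact_mod_cast hp.pos
        have e : 1 / (i : ℝ) = 2 * (1 / (2 * (i : ℝ))) := by field_simp
        linarith
      · rw [Set.indicator_of_notMem (by exact hp), if_neg hp]
    · simp only [mem_Ico, mem_Ioc] at hi ⊢
      omega
    · split_ifs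
      · have := Real.log_nonneg (x := 1 + 1 / (i : ℝ)) (le_add_of_nonneg_right (by positivity))
        linarith
      · exact le_rfl
  rw [← Finset.mul_sum] at h2
  linarith

theorem sKak (h1 : StK1) (h2 : StK2) : StKak := by
  classical
  intro D
  obtain ⟨i0, hi0⟩ := eventually_atTop.1 h2
  obtain ⟨Z1, hZ1⟩ := big_Kak (D + 2 ^ i0)
  filter_upwards [eventually_ge_atTop Z1] with Z0 hZ0 τ η t1 t2 hη
  set a : ℕ → ℝ := fun n =>
    if n.Prime ∧ D < n ∧ (n ≤ Z0 ∨ Rsv n) then Real.log (1 + 1 / (n : ℝ)) else 0 with ha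
  have a0 : ∀ n, 0 ≤ a n := fun n => by
    simp only [ha]
    split_ifs
    · exact Real.log_nonneg (le_add_of_nonneg_right (by positivity))
    · exact le_rfl
  have a1 : ∀ n, a n ≤ 1 / (n : ℝ) := fun n => by
    simp only [ha]
    split_ifs
    · exact log_hi_Kak n
    · positivity
  have s0 : 1 ≤ ∑ i ∈ Ioc (D + 2 ^ i0) Z0, a i := by
    refine hZ1.trans (le_trans (le_of_eq (Finset.sum_congr rfl fun i hi => ?_))
      (Finset.sum_le_sum_of_subset_of_nonneg (fun i hi => ?_) fun i _ _ => a0 i))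
    · simp only [mem_filter, mem_Ioc] at hi
      simp only [ha]
      rw [if_pos ⟨hi.2, lt_of_le_of_lt (Nat.le_add_right _ _) hi.1.1, Or.inl (hi.1.2.trans hZ0)⟩]
    · simp only [mem_filter, mem_Ioc] at hi ⊢
      omega
  have tl : ∀ n, ∃ n', a n ≤ ∑ i ∈ Ioc n n', a i := by
    intro n
    by_cases hn : n ≤ D + 2 ^ i0
    · refine ⟨Z0, le_trans ?_ (s0.trans (Finset.sum_le_sum_of_subset_of_nonneg
        (Ioc_subset_Ioc_left hn) fun i _ _ => a0 i))⟩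
      refine (a1 n).trans ?_
      rcases Nat.eq_zero_or_pos n with rfl | h
      · simp
      · rw [div_le_one (by exact_mod_cast h)]
        exact_mod_cast h
    · push Not at hn
      have n0 : n ≠ 0 := (lt_of_le_of_lt (Nat.zero_le _) hn).ne'
      have nD : D < n := lt_of_le_of_lt (Nat.le_add_right _ _) hn
      have l1 : i0 ≤ Nat.log 2 n := Nat.le_log_of_pow_le (by norm_num) (by omega)
      have l2 : 2 ^ Nat.log 2 n ≤ n := Nat.pow_log_le_self 2 n0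
      have l3 : n < 2 ^ (Nat.log 2 n + 1) := Nat.lt_pow_succ_log_self (by norm_num) n
      generalize Nat.log 2 n = i at l1 l2 l3
      have c8 := hi0 (i + 1) (by omega)
      refine ⟨2 * 2 ^ (i + 1), (a1 n).trans ?_⟩
      have b1 : ∀ p ∈ (Ioc (2 ^ (i + 1)) (2 * 2 ^ (i + 1))).filter Rsv,
          1 / (8 * (2 : ℝ) ^ i) ≤ a p := by
        intro p hp
        simp only [mem_filter, mem_Ioc] at hp
        simp only [ha]
        rw [if_pos ⟨hp.2.1, by omega, Or.inr hp.2⟩]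
        refine le_trans ?_ (log_lo_Kak hp.2.1.one_le)
        have h3 : (p : ℝ) ≤ 2 * 2 ^ (i + 1) := by exact_mod_cast hp.1.2
        have h4 : (0 : ℝ) < p := by exact_mod_cast hp.2.1.pos
        refine one_div_le_one_div_of_le (by positivity) ?_
        rw [pow_succ] at h3
        linarith
      have b2 := Finset.card_nsmul_le_sum _ _ _ b1
      have b3 : ∑ p ∈ (Ioc (2 ^ (i + 1)) (2 * 2 ^ (i + 1))).filter Rsv, a p ≤
          ∑ p ∈ Ioc n (2 * 2 ^ (i + 1)), a p :=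
        Finset.sum_le_sum_of_subset_of_nonneg ((filter_subset _ _).trans
          (Ioc_subset_Ioc_left l3.le)) fun i _ _ => a0 i
      rw [nsmul_eq_mul] at b2
      have b4 : (8 : ℝ) ≤ ((Ioc (2 ^ (i + 1)) (2 * 2 ^ (i + 1))).filter Rsv).card := by
        exact_mod_cast c8
      have b5 : 1 / (n : ℝ) ≤ 1 / (2 : ℝ) ^ i :=
        one_div_le_one_div_of_le (by positivity) (by exact_mod_cast l2)
      have b6 : 1 / (2 : ℝ) ^ i = 8 * (1 / (8 * (2 : ℝ) ^ i)) := by field_simp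
      have b7 := mul_le_mul_of_nonneg_right b4 (show 0 ≤ 1 / (8 * (2 : ℝ) ^ i) by positivity)
      linarith
  have tz : Tendsto a atTop (nhds 0) :=
    squeeze_zero a0 a1 tendsto_one_div_atTop_nhds_zero_nat
  have τ0 : 0 < τ := by linarith
  have x0 : 0 ≤ -Real.log τ := neg_nonneg.2 (Real.log_nonpos τ0.le t2)
  have x1 : -Real.log τ ≤ ∑ i ∈ range (Z0 + 1), a i := by
    have e1 := Real.one_sub_inv_le_log_of_pos τ0
    have e2 : τ⁻¹ ≤ 2 := by
      rw [inv_le_comm₀ τ0 two_pos]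
      linarith
    have e3 : ∑ i ∈ Ioc (D + 2 ^ i0) Z0, a i ≤ ∑ i ∈ range (Z0 + 1), a i :=
      Finset.sum_le_sum_of_subset_of_nonneg (fun i hi => by
        simp only [mem_Ioc, mem_range] at hi ⊢
        omega) fun i _ _ => a0 i
    linarith
  obtain ⟨I, I1, I2⟩ := h1 a a0 tl tz (-Real.log τ) (min (η / 2) 1) (Z0 + 1) x0 x1
    (lt_min (by linarith) one_pos)
  set J := I.filter fun n => n.Prime ∧ D < n ∧ (n ≤ Z0 ∨ Rsv n) with hJ
  have Jp : ∀ p ∈ J, p.Prime := fun p hp => (mem_filter.1 hp).2.1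
  refine ⟨∏ p ∈ J, p, Finset.prod_pos fun p hp => (Jp p hp).pos, ?_, ?_⟩
  · rw [Nat.primeFactors_prod Jp]
    exact fun p hp => (mem_filter.1 hp).2.2
  · have e1 : sg (∏ p ∈ J, p) = ∏ p ∈ J, (p + 1) := by
      rw [sg, ArithmeticFunction.isMultiplicative_sigma.map_prod_of_prime J Jp]
      refine Finset.prod_congr rfl fun p hp => ?_
      rw [ArithmeticFunction.sigma_one_apply, (Jp p hp).sum_divisors]
    have e2 : ((∏ p ∈ J, p : ℕ) : ℝ) / (sg (∏ p ∈ J, p) : ℝ) = Real.exp (-∑ i ∈ I, a i) := by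
      have e3 : ∑ i ∈ I, a i = ∑ p ∈ J, Real.log (1 + 1 / (p : ℝ)) := by
        rw [hJ, Finset.sum_filter]
      rw [e1, e3, ← Finset.sum_neg_distrib, Real.exp_sum]
      push_cast
      rw [← Finset.prod_div_distrib]
      refine Finset.prod_congr rfl fun p hp => ?_
      have h4 : (0 : ℝ) < p := by exact_mod_cast (Jp p hp).pos
      rw [Real.exp_neg, Real.exp_log (by positivity)]
      field_simp
    rw [e2]
    have m1 := min_le_left (η / 2) 1
    have m2 := min_le_right (η / 2) 1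
    have m0 : 0 < min (η / 2) 1 := lt_min (by linarith) one_pos
    generalize min (η / 2) 1 = ε at *
    have u1 : τ ≤ Real.exp (-∑ i ∈ I, a i) := by
      rw [← Real.exp_log τ0]
      exact Real.exp_le_exp.2 (by linarith)
    have u2 : Real.exp (-∑ i ∈ I, a i) ≤ τ * Real.exp ε := by
      have : Real.exp (-∑ i ∈ I, a i) ≤ Real.exp (Real.log τ + ε) :=
        Real.exp_le_exp.2 (by linarith)
      rwa [Real.exp_add, Real.exp_log τ0] at this
    have u3 := (abs_le.1 (Real.abs_exp_sub_one_le (x := ε) (by rw [abs_of_pos m0]; exact m2))).2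
    rw [abs_of_pos m0] at u3
    rw [abs_of_nonneg (by linarith)]
    nlinarith

end Pool.Agent.MP_2876a2_nt.Tu.Z

end

noncomputable section
open Finset Filter
open scoped Pointwise


namespace Pool.Agent.MP_2876a2_nt.Tu.Z

theorem theta_Key {S η n q p : ℝ} (hη : 0 < η) (hη1 : η ≤ 1) (hn : 0 ≤ n) (hq : 0 ≤ q) (hp : 0 ≤ p)
    (h1 : n * q ≤ S) (h2 : S ≤ (1 + η) * (n * q)) (h3 : 1 ≤ η * q) (h4 : 1 ≤ η * p) :
    S - 2 * η * S ≤ n * (q + 1) * (p / (p + 1)) ∧ n * (q + 1) * (p / (p + 1)) ≤ S + η * S := by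
  have a0 : 0 ≤ n * q := mul_nonneg hn hq
  have a1 := mul_le_mul_of_nonneg_left h1 hη.le
  have a2 := mul_le_mul_of_nonneg_left h3 hn
  have a3 : (1 - η) * S ≤ n * (q + 1) := by linarith
  have a4 : n * (q + 1) ≤ S + η * S := by linarith
  have b1 : p / (p + 1) ≤ 1 := (div_le_one (by linarith)).2 (by linarith)
  have b2 : 1 - η ≤ p / (p + 1) := (le_div_iff₀ (by linarith)).2 (by linarith)
  have c0 : 0 ≤ n * (q + 1) := mul_nonneg hn (by linarith)
  have c1 := mul_le_mul_of_nonneg_left b1 c0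
  have c2 := mul_le_mul a3 b2 (by linarith) c0
  have c3 : 0 ≤ η * η * S := mul_nonneg (mul_self_nonneg η) (a0.trans h1)
  constructor <;> linarith

theorem sKey : StKey := by
  intro H S W z g T' d sd π π1 n q w η hη hη1 hH hd hsd hπ hq hW hg h1 h2 h3 h4 hS hz h5 h6 h7
  have hH' : (0 : ℝ) < H := by exact_mod_cast hH
  have hd' : (0 : ℝ) < d := by exact_mod_cast hd
  have hsd' : (d : ℝ) ≤ sd := by exact_mod_cast hsd
  have hsd0 : (0 : ℝ) < sd := hd'.trans_le hsd'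
  have hS0 : (0 : ℝ) ≤ S := Nat.cast_nonneg _
  have hπ0 : (0 : ℝ) ≤ π := Nat.cast_nonneg _
  have hπ' : (π : ℝ) + 1 = H * d * W * π1 := by exact_mod_cast hπ
  have hq' : (q : ℝ) + 1 = sd * W * π1 * w := by exact_mod_cast hq
  obtain ⟨t1, t2⟩ := theta_Key hη hη1 (Nat.cast_nonneg n) (Nat.cast_nonneg q) hπ0
    (by exact_mod_cast h1 : (n : ℝ) * q ≤ S) (by exact_mod_cast h2) h3 h4
  have e1 : (π : ℝ) * n * w = H * (d / sd) * (n * (q + 1) * (π / (π + 1))) := by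
    have e2 : ((q : ℝ) + 1) * (H * d) = sd * w * (π + 1) := by rw [hπ', hq']; ring
    have e3 : (π : ℝ) + 1 ≠ 0 := by linarith
    field_simp
    linear_combination (-(π : ℝ) * n) * e2
  have r1 : (d : ℝ) / sd ≤ 1 := (div_le_one hsd0).2 hsd'
  have r0 : (0 : ℝ) ≤ H * (d / sd) := by positivity
  obtain ⟨s1, s2⟩ := abs_le.1 h5
  have e4 : (H : ℝ) * (z / H) = z := mul_div_cancel₀ _ hH'.ne'
  have s3 := mul_le_mul_of_nonneg_left s1 hH'.le
  have s4 := mul_le_mul_of_nonneg_left s2 hH'.le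
  have s5 : (H : ℝ) - z - η * H ≤ H * (d / sd) := by linarith
  have s6 : H * ((d : ℝ) / sd) ≤ H - z + η * H := by linarith
  have s7 : H * ((d : ℝ) / sd) ≤ H := by linarith [mul_le_mul_of_nonneg_left r1 hH'.le]
  have u1 := mul_le_mul_of_nonneg_left t1 r0
  have u2 := mul_le_mul_of_nonneg_left t2 r0
  rw [← e1] at u1 u2
  generalize (H : ℝ) * (d / sd) = ρ at *
  have v1 := mul_le_mul_of_nonneg_right s5 hS0
  have v2 := mul_le_mul_of_nonneg_right s6 hS0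
  have v3 := mul_le_mul_of_nonneg_right s7 (mul_nonneg hη.le hS0)
  have v4 := mul_le_mul_of_nonneg_right hz hS0
  have v5 : 0 ≤ η * H * S := by positivity
  obtain ⟨d3, d4⟩ := abs_le.1 h7
  have hle : π * n * w ≤ H * S := by
    rw [← Nat.cast_le (α := ℝ)]
    push_cast
    linarith
  obtain ⟨T, hT⟩ := Nat.exists_eq_add_of_le' hle
  refine ⟨T, hT.symm, ?_, ?_⟩
  · rw [← ZMod.natCast_eq_natCast_iff]
    have f1 := (ZMod.natCast_eq_zero_iff _ _).2 hW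
    have f2 := (ZMod.natCast_eq_zero_iff _ _).2 hS
    have f3 := (ZMod.natCast_eq_natCast_iff _ _ _).2 hg
    have f4 := (ZMod.natCast_eq_natCast_iff _ _ _).2 h6
    have f5 := congrArg (Nat.cast : ℕ → ZMod W) hπ
    have f6 := congrArg (Nat.cast : ℕ → ZMod W) hq
    rw [hT] at f2
    push_cast at f1 f2 f3 f4 f5 f6
    rw [ZMod.natCast_self, mul_zero, zero_mul] at f5
    rw [ZMod.natCast_self, mul_zero, zero_mul, zero_mul] at f6
    linear_combination f2 - f4 - (n * w : ZMod W) * f5 + (n * w : ZMod W) * f6 -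
      (w : ZMod W) * f3 - (g : ZMod W) * f1
  · have e := congrArg (Nat.cast : ℕ → ℝ) hT
    push_cast at e
    rw [abs_le]
    constructor <;> linarith

end Pool.Agent.MP_2876a2_nt.Tu.Z

end

noncomputable section
open Finset Filter
open scoped Pointwise


namespace Pool.Agent.MP_2876a2_nt.Tu.Z

theorem frac_End (n q s S : ℕ) (hS : 0 < S) (hn : 0 < n) (h : q * s = S * n) :
    (n : ℚ) / (s : ℚ) = (q : ℚ) / S := by
  have h1 : s ≠ 0 := by
    intro h0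
    rw [h0, mul_zero] at h
    exact (Nat.mul_pos hS hn).ne h
  have h1' : (s : ℚ) ≠ 0 := by exact_mod_cast h1
  have h2' : (S : ℚ) ≠ 0 := by exact_mod_cast hS.ne'
  have h3 : (q : ℚ) * s = S * n := by exact_mod_cast h
  rw [div_eq_div_iff h1' h2', h3, mul_comm]

theorem sEnd : StEnd := by
  intro M S v x hS hv hc hsum
  have hinj : Set.InjOn v (range M : Set ℕ) := by
    intro i hi i' hi' e
    by_contra hne
    have h1 := hc i (by simpa using hi) i' (by simpa using hi') hne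
    rw [← e, Nat.coprime_self] at h1
    have := (hv i (by simpa using hi)).1
    omega
  refine ⟨(range M).image v, ?_, ?_, ?_, ?_, ?_⟩
  · rw [card_image_of_injOn hinj, card_range]
  · intro n hn
    obtain ⟨i, hi, rfl⟩ := mem_image.1 hn
    have := (hv i (mem_range.1 hi)).1
    omega
  · intro a ha b hb hab
    obtain ⟨i, hi, rfl⟩ := mem_image.1 (mem_coe.1 ha)
    obtain ⟨i', hi', rfl⟩ := mem_image.1 (mem_coe.1 hb)
    exact hc i (mem_range.1 hi) i' (mem_range.1 hi') fun e => hab (by rw [e])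
  · rw [sum_image hinj]
    have e1 : ∑ i ∈ range M, (v i : ℚ) / (sg (v i) : ℚ) = ∑ i ∈ range M, (x i : ℚ) / S :=
      sum_congr rfl fun i hi => frac_End _ _ _ _ hS
        (zero_lt_one.trans (hv i (mem_range.1 hi)).1) (hv i (mem_range.1 hi)).2
    have hS' : (S : ℚ) ≠ 0 := by exact_mod_cast hS.ne'
    rw [e1, ← sum_div, ← Nat.cast_sum, hsum, div_self hS']
  · intro i hi
    exact mem_image_of_mem v (mem_range.2 hi)

end Pool.Agent.MP_2876a2_nt.Tu.Z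

end
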