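import Pool.Agent.MP_2876a2_nt.Tu.Fin2
import Pool.Agent.MP_2876a2_nt.Tu.V1
import Pool.Agent.MP_2876a2_nt.Tu.Z1
import Pool.Agent.MP_2876a2_nt.Tu.Z2
import Pool.Agent.MP_2876a2_nt.Tu.Z3
import Pool.Agent.MP_2876a2_nt.Tu.Main4

/-!
Infinitely many pairwise coprime feebly amicable `k`-tuples for every `k ≥ 5`.
-/

set_option autoImplicit false

open Finset Filter

namespace Pool.Agent.MP_2876a2_nt.Tu.Z

theorem aAn : StAn := sAn sPath

theorem aCard : StCard := sCard sPath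

theorem aDq : StDq := sDq sDiv aCard

theorem aBox : StBox := sBox (sOne (sFL sFL0) sOm (sPr sMe)) (sAv (sAv1 sMe))

theorem aNice : StNice := sNice aTh (sDep (sBad aBox sVec1 sLg) (sSched sBd sDv))
  (sGap aBox sVec2 sLg sPath) (sCl sPath aAn (sStr sDiv))

theorem aBlk : StBlk := sBlk (sFib sPsi sGr (sAz aAn) aCard aDq) (sAz aAn) aCard
  (sBlkA sCore sNs (sSp sUn sMg (sEx sUn sRd) sPoor)) (sAsm sDiv) sNumZ (sSz aDq)

theorem aAdm : StAdm := sAdm aNice (sPo1 aAn) (sPo2 aCard) aBlk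

theorem aProd : StProd := sProd sMul

theorem aMS : StMS := sMS (sDec aProd sMul sSlow sSel2 (sBil sCS (sH sH1) V.sNum3))
  (sL2 aProd sMul sWt sSlow sSel1 (sHv sLS sCov (sCnt sPrim))) sM4 aProd

theorem coprime_tuples (k : ℕ) (hk : 5 ≤ k) :
    Set.Infinite {Z : Finset ℕ | Z.card = k ∧ (∀ n ∈ Z, 0 < n) ∧
      (Z : Set ℕ).Pairwise Nat.Coprime ∧
      ∑ n ∈ Z, (n : ℚ) / ((ArithmeticFunction.sigma 1 n : ℕ) : ℚ) = 1} := by
  refine Set.Infinite.of_image (fun Z => Z.sup id) (Set.infinite_of_forall_exists_gt fun M => ?_)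
  obtain ⟨Z, h1, h2, h3, h4, n, hn, h5⟩ := pc (sER (sER1 aA2 (sRound aBM)))
    (sExt aAdm sTol sDC) aAdm aMS (sDiff sFour2 (V.sAp3 (V.sMas3 sIn V.sGs))) (sPop2 sPopA) aProd
    sMul sTail (sKak sK1 (sK2 aTh)) sKey sEnd (k - 1) M (by omega)
  exact ⟨Z.sup id, ⟨Z, ⟨by omega, h2, h3, h4⟩, rfl⟩, h5.trans_le (le_sup (f := id) hn)⟩

end Pool.Agent.MP_2876a2_nt.Tu.Z
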