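import Pool.Agent.MP_2876a2_nt.Tu.St5
import Pool.Agent.MP_2876a2_nt.Tu.Main4

set_option autoImplicit false

open Finset Filter
open scoped Pointwise

noncomputable section

namespace Pool.Agent.MP_2876a2_nt.Tu.Z

theorem rm_pos_M5 {k : ℕ} {Pi S r r' : ℝ} (hk : 3 ≤ k) (hP : 0 < Pi) (hS : 0 < S)
    (h1 : Pi ≤ 10 * S * r') (h2 : |r - r'| ≤ Pi / (4 * (k + 2) * S)) : 0 < r := by
  have hk' : (3 : ℝ) ≤ k := by exact_mod_cast hk
  have h3 : Pi / (4 * (k + 2) * S) ≤ Pi / (12 * S) :=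
    div_le_div_of_nonneg_left hP.le (by positivity) (by nlinarith)
  have h4 : Pi / (10 * S) ≤ r' := by rw [div_le_iff₀ (by positivity)]; linarith
  have h5 : Pi / (12 * S) < Pi / (10 * S) :=
    div_lt_div_of_pos_left hP (by positivity) (by linarith)
  linarith [(abs_le.1 h2).1]

set_option maxHeartbeats 2000000 in
theorem pc5 (hER : StER) (hExt : StExt5) (hAdm : StAdm5) (hMS : StMS5) (hDiff : StDiff5)
    (hPop : StPop2) (hProd : StProd) (hMul : StMul) (hTail : StTail) (hKak : StKak)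
    (hKey : StKey) (hEnd : StEnd) (k M0 : ℕ) (hk : 3 ≤ k) :
    ∃ Z : Finset ℕ, Z.card = k + 1 ∧ (∀ n ∈ Z, 0 < n) ∧
      (Z : Set ℕ).Pairwise Nat.Coprime ∧ ∑ n ∈ Z, (n : ℚ) / (sg n : ℚ) = 1 ∧ ∃ n ∈ Z, M0 < n := by
  obtain ⟨c, D, hc, hcc⟩ := hER (k + 1) (by omega)
  have hD : 0 < D := by have := (hc 0 (by omega)); nlinarith [this.1, this.2.2.2]
  have hcD : ∀ i < k + 1, 0 < c i ∧ c i ≤ D := fun i hi =>
    ⟨(hc i hi).1, by nlinarith [(hc i hi).2.2.2]⟩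
  have hc1 : ∀ i < k + 1, 1 < c i := fun i hi => by
    obtain ⟨h1, -, h2, h3⟩ := hc i hi
    by_contra h4
    obtain h5 : c i = 1 := by omega
    rw [h5] at h2 h3
    simp at h2
    omega
  obtain ⟨Z0, hkak⟩ := (hKak D).exists
  obtain ⟨j0, ⟨B, N, s, hS, hext⟩, hj5, hjD⟩ := ((hExt (k + 1) (by omega)).and
    ((eventually_ge_atTop (50 ^ 4)).and (tendsto_lev.eventually_ge_atTop (D + Z0)))).exists
  have hj : 2 ≤ j0 := le_trans (by norm_num) hj5
  obtain ⟨Y0, hY0⟩ := hMS j0 D k (k + 1) hj5 hD hk (by omega)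
  obtain ⟨W, ε, hW, hε, hε1, hdiff⟩ := hDiff Y0 k
  have hD' : (1 : ℝ) ≤ D := by exact_mod_cast hD
  obtain ⟨η, hη, hη1, hη2⟩ : ∃ η : ℝ, 0 < η ∧ 5 * η ≤ ε ∧ 3 * η * D ≤ 1 :=
    ⟨min (ε / 5) (1 / (3 * D)), lt_min (by positivity) (by positivity),
      by linarith [min_le_left (ε / 5) (1 / (3 * D) : ℝ)], by
        have := (le_div_iff₀ (by positivity)).1 (min_le_right (ε / 5) (1 / (3 * D) : ℝ))
        linarith⟩
  have hη3 : η ≤ 1 := by linarith
  obtain ⟨t2, ht2⟩ := eventually_atTop.1 (((shift_M4 j0).eventually (hAdm (k + 1) W (W - 1)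
    (by omega) hW (cop_pred_M4 hW fun _ _ h => h))).and
      ((ev_exp_M4 j0 hη).and (ev_lev_M4 j0 W hη)))
  have hP0 := fun i hi => hProd j0 (B i) (N i) s hj (hS.one i hi) 0 (range t2)
    fun _ _ => Nat.zero_le _
  set H2 := ∏ t ∈ range t2, s t with hH2
  have hH2p : 0 < H2 := (hP0 0 (by omega)).1.s_pos
  have hin : ∀ i < k + 1, ∀ b ∈ ∏ t ∈ range t2, B i t,
      2 * (k + 1) * (c i * b) ≤ D * H2 ∧ H2 ≤ 3 * (c i * b) := by
    intro i hi b hb
    obtain ⟨h1, h2, h3⟩ := (hP0 i hi).2 b hb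
    refine ⟨?_, ?_⟩
    · rw [← mul_assoc]
      exact Nat.mul_le_mul (hc i hi).2.2.2 h2
    · have h4 : (H2 : ℝ) ≤ 3 * b :=
        h3.trans (mul_le_mul_of_nonneg_right (exp_le_M4 hj) (Nat.cast_nonneg _))
      have h5 : H2 ≤ 3 * b := by exact_mod_cast h4
      exact h5.trans (Nat.mul_le_mul_left _ (Nat.le_mul_of_pos_left _ (hc i hi).1))
  set X : Fin k → Finset ℕ := fun i => (∏ t ∈ range t2, B i t).image fun a => c i * a with hX
  have hXs : ∀ x ∈ Fintype.piFinset X, 2 * (k + 1) * ∑ i, x i ≤ k * (D * H2) ∧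
      k * H2 ≤ 3 * ∑ i, x i := by
    intro x hx
    have h1 : ∀ i : Fin k, 2 * (k + 1) * x i ≤ D * H2 ∧ H2 ≤ 3 * x i := fun i => by
      obtain ⟨b, hb, h2⟩ := mem_image.1 (Fintype.mem_piFinset.1 hx i)
      rw [← h2]
      exact hin i (by omega) b hb
    refine ⟨?_, ?_⟩
    · rw [mul_sum]
      simpa using sum_le_sum (s := univ) fun i _ => (h1 i).1
    · rw [mul_sum]
      simpa using sum_le_sum (s := univ) fun i _ => (h1 i).2
  obtain ⟨x0, hx0, hpop⟩ := hPop k X (D * H2) W η hW (by positivity) hη hη3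
    (fun i => (hP0 i (by omega)).1.ne.image _) fun x hx =>
      Nat.le_of_mul_le_mul_left ((Nat.mul_le_mul_right _ (by omega)).trans (hXs x hx).1)
        (by omega : 0 < k)
  obtain ⟨hz1, hz3⟩ := hXs x0 hx0
  generalize ∑ i, x0 i = z at hpop hz1 hz3
  have hNN : ∀ {B' : ℕ → ℕ → Finset ℕ} {N' : ℕ → ℕ → ℕ} {s' : ℕ → ℕ}, SM (k + 1) j0 B' N' s' →
      ∀ I : Finset ℕ, ∀ i < k + 1, ∀ i' < k + 1, i ≠ i' →
        (c i * ∏ t ∈ I, N' i t).Coprime (c i' * ∏ t ∈ I, N' i' t) := by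
    intro B' N' s' h I i hi i' hi' hne
    have h1 : ∀ a < k + 1, ∀ b < k + 1, (c a).Coprime (∏ t ∈ I, N' b t) := fun a ha b hb =>
      Nat.Coprime.prod_right fun t _ => cop_small_M4 (u := 0) (h.one b hb) (hcD a ha).1
        ((hcD a ha).2.trans ((Nat.le_add_right _ _).trans hjD)) (Nat.zero_le _)
    exact Nat.Coprime.mul_left ((hcc i hi i' hi' hne).mul_right (h1 i hi i' hi'))
      ((h1 i' hi' i hi).symm.mul_right (Nat.Coprime.prod_left fun t _ =>
        Nat.Coprime.prod_right fun t' _ => h.cop i hi i' hi' hne t t'))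
  have hsum : 2 * z ≤ D * H2 := by
    refine Nat.le_of_mul_le_mul_left (c := k + 1) ?_ (by omega)
    nlinarith
  have hH0 : 0 < D * H2 := Nat.mul_pos hD hH2p
  have hHp : (0 : ℝ) < (D * H2 : ℕ) := by positivity
  have hsum' : 2 * (z : ℝ) ≤ (D * H2 : ℕ) := by exact_mod_cast hsum
  obtain ⟨d, hd0, hdp, hdτ⟩ := hkak (1 - z / (D * H2 : ℕ)) η
    (by
      have : (z : ℝ) / (D * H2 : ℕ) ≤ 1 / 2 := by rw [div_le_iff₀ hHp]; linarith
      linarith)
    (by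
      have : (0 : ℝ) ≤ z / (D * H2 : ℕ) := by positivity
      linarith) hη
  obtain ⟨n0, hn0⟩ := exists_nat_ge (1 / η)
  have hQ0 : 0 < D * H2 * d * W := by positivity
  obtain ⟨π, hπ1, hπ, hπ2⟩ := Nat.forall_exists_prime_gt_and_modEq
    (2 ^ (101 * lev (j0 + t2)) + d + D + n0) hQ0.ne' (cop_pred_M4 hQ0 fun _ _ h => h)
  obtain ⟨π1, hπ3⟩ : D * H2 * d * W ∣ π + 1 := by
    have h1 := hπ2.add_right 1
    rw [Nat.sub_add_cancel hQ0] at h1
    exact (Nat.modEq_zero_iff_dvd.1 (h1.trans (Nat.modEq_zero_iff_dvd.2 dvd_rfl)))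
  have hπ10 : 0 < π1 := Nat.pos_of_ne_zero fun h => by simp [h] at hπ3
  have hsd : 0 < sg d := ArithmeticFunction.sigma_pos 1 d hd0.ne'
  set σ' := sg d * W * π1 with hσ'
  have hσ0 : 0 < σ' := by positivity
  have hWσ : W ∣ σ' := Dvd.dvd.mul_right (dvd_mul_left _ _) _
  have hw0 : 0 < W - z % W := Nat.sub_pos_of_lt (Nat.mod_lt _ hW)
  have hρ0 : 0 < σ' * (W - z % W) := Nat.mul_pos hσ0 hw0
  obtain ⟨t3, ht3, ht23⟩ := (((shift_M4 j0).eventually (hAdm (k + 1) (σ' * W)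
    (σ' * (W - z % W) - 1) (by omega) (Nat.mul_pos hσ0 hW) (cop_pred_M4 hρ0 fun p hp h =>
      Dvd.dvd.mul_right ((hp.dvd_mul.1 h).elim id fun h => h.trans hWσ) _))).and
        (eventually_ge_atTop t2)).exists
  obtain ⟨G, hG1, hG2⟩ : ∃ G : ℕ → ℕ, (∀ t, t ≠ t3 → G t = W) ∧ G t3 = σ' * W :=
    ⟨fun t => if t = t3 then σ' * W else W, fun t ht => if_neg ht, if_pos rfl⟩
  obtain ⟨R, hR1, hR2⟩ : ∃ R : ℕ → ℕ, (∀ t, t ≠ t3 → R t = W - 1) ∧
      R t3 = σ' * (W - z % W) - 1 :=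
    ⟨fun t => if t = t3 then σ' * (W - z % W) - 1 else W - 1, fun t ht => if_neg ht, if_pos rfl⟩
  have hWG : ∀ t, W ∣ G t := fun t => by
    by_cases h : t = t3
    · rw [h, hG2]; exact dvd_mul_left _ _
    · rw [hG1 t h]
  obtain ⟨B', N', s', r, hS', hspr, hsame, hcls⟩ := hext t2 π G R fun t ht => by
    by_cases h : t = t3
    · rw [h, hG2, hR2]; exact ht3
    · rw [hG1 t h, hR1 t h]; exact (ht2 t ht).1
  obtain ⟨n1, hn1⟩ := exists_nat_ge (W / η)
  obtain ⟨J, hJ⟩ : ∃ J, J = t3 + 1 + n1 + 3 * M0 := ⟨_, rfl⟩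
  have htJ : t2 ≤ J := by omega
  have hT := fun i hi => hTail j0 t2 J W (B' i) (N' i) s' G R r (hS'.one i hi) fun t ht =>
    ⟨(hcls t ht).1, hWG t, ((hcls t ht).2 i hi).2⟩
  have hP1 := fun i hi => hProd j0 (B' i) (N' i) s' hj (hS'.one i hi) t2 (Ico t2 J)
    fun _ h => (mem_Ico.1 h).1
  have hP2 := fun i hi => hProd j0 (B' i) (N' i) s' hj (hS'.one i hi) 0 (range J)
    fun _ _ => Nat.zero_le _
  have eB : ∀ i, ∏ t ∈ range J, B' i t = (∏ t ∈ range t2, B i t) * ∏ t ∈ Ico t2 J, B' i t :=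
    fun i => by
      rw [← prod_range_mul_prod_Ico _ htJ,
        prod_congr rfl fun t ht => ((hsame t (mem_range.1 ht)).2 i).1]
  set S := ∏ t ∈ Ico t2 J, s' t with hSd
  have eS : D * ∏ t ∈ range J, s' t = D * H2 * S := by
    rw [← prod_range_mul_prod_Ico _ htJ, prod_congr rfl fun t ht => (hsame t (mem_range.1 ht)).1,
      mul_assoc]
  have hSJ : J - t2 < S := by
    simpa using two_pow_le_M4 (hS'.one 0 (by omega)).two_le (Ico t2 J)
  have hS0 : 0 < S := by omega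
  have hWS : W ∣ S := by
    have h1 := (hT 0 (by omega)).2.2 t3 ht23 (by
      rw [hR2, Nat.sub_add_cancel hρ0]; exact hWσ.mul_right _)
      (cop_small_M4 (hS'.one 0 (by omega)) hW (ht2 t2 le_rfl).2.2.1 ht23)
    exact h1.trans (dvd_prod_of_mem _ (mem_Ico.2 ⟨by omega, by omega⟩))
  have hΓ : ∀ i < k + 1, ∀ γ ∈ ∏ t ∈ Ico t2 J, B' i t,
      γ ≡ ∏ t ∈ Ico t2 J, R t ^ r t [MOD W] ∧ γ ≤ S ∧ (S : ℝ) ≤ (1 + η) * γ := fun i hi γ hγ =>
    ⟨(hT i hi).1 γ hγ, ((hP1 i hi).2 γ hγ).2.1, ((hP1 i hi).2 γ hγ).2.2.trans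
      (mul_le_mul_of_nonneg_right (ht2 t2 le_rfl).2.1.1 (Nat.cast_nonneg _))⟩
  have eA : ∀ i : Fin k, X i * ∏ t ∈ Ico t2 J, B' i t =
      (∏ t ∈ range J, B' i t).image fun a => c i * a := fun i => by rw [eB, ← image_mul_M4]
  obtain ⟨T', hT1, hT2, hT3⟩ := hpop (fun i => ∏ t ∈ Ico t2 J, B' i t) S _
    (fun i => (hP1 i (by omega)).1.ne) (fun i => hΓ i (by omega)) (fun i => by
      have h1 := inj_M4 (hcD i (by omega)).1
      rw [eA, card_image_of_injective _ h1, card_image_of_injective _ h1, eB]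
      refine (hMul _ _ _ _ _ _ (hP0 i (by omega)).1 (hP1 i (by omega)).1 ?_).2.1
      refine Nat.Coprime.prod_left fun t ht => Nat.Coprime.prod_right fun t' ht' => ?_
      rw [← ((hsame t (mem_range.1 ht)).2 i).2]
      exact (hS'.one i (by omega)).cop t t' (by
        have := mem_range.1 ht; have := mem_Ico.1 ht'; omega)) (by
      have h1 : (n1 : ℝ) ≤ S := by exact_mod_cast (by omega : n1 ≤ S)
      have h2 : (1 : ℝ) ≤ (D * H2 : ℕ) := by exact_mod_cast hH0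
      have h3 := (div_le_iff₀ hη).1 (hn1.trans h1)
      calc (W : ℝ) ≤ η * 1 * S := by linarith
        _ ≤ _ := by gcongr)
  simp only [eA] at hT3
  obtain ⟨n, q, hq1, hq2, hq3⟩ := (hT k (by omega)).2.1 t3 (mem_Ico.2 ⟨by omega, by omega⟩)
  rw [hG2, hR2] at hq2
  have hq := Nat.prime_of_mem_primeFactors hq1
  have hq4 : q + 1 ≡ σ' * (W - z % W) [MOD σ' * W] := by
    have h1 := hq2.add_right 1
    rwa [Nat.sub_add_cancel hρ0] at h1
  obtain ⟨w, hw⟩ : σ' ∣ q + 1 := Nat.modEq_zero_iff_dvd.1 ((hq4.of_mul_right W).trans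
    (Nat.modEq_zero_iff_dvd.2 (dvd_mul_right _ _)))
  have hwz : W ∣ w + z := by
    rw [hw] at hq4
    have h1 : w ≡ W - z % W [MOD W] := Nat.ModEq.mul_left_cancel' hσ0.ne' hq4
    have h2 : w + z ≡ W - z % W + z % W [MOD W] := h1.add (Nat.mod_modEq z W).symm
    rw [Nat.sub_add_cancel (Nat.mod_lt _ hW).le] at h2
    exact Nat.modEq_zero_iff_dvd.1 (h2.trans (Nat.modEq_zero_iff_dvd.2 dvd_rfl))
  have hz4 : 3 * η * (D * H2 : ℕ) ≤ z := by
    have h1 : (H2 : ℝ) ≤ z := by exact_mod_cast (by nlinarith : H2 ≤ z)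
    push_cast
    nlinarith [Nat.cast_nonneg (α := ℝ) H2]
  obtain ⟨hγ1, hγ2, hγ3⟩ := hΓ k (by omega) _ hq3
  obtain ⟨T, hTs, hTm, hTl⟩ := hKey (D * H2) S W z _ T' d (sg d) π π1 n q w η hη hη3 hH0 hd0
    (le_sg d) hπ3 hw hwz hγ1 hγ2 hγ3
    ((ht2 t2 le_rfl).2.2.2.trans (mul_le_mul_of_nonneg_left (by
      exact_mod_cast (big_M4 (hS'.one k (by omega)) ht23 hq
        (Nat.dvd_of_mem_primeFactors hq1)).le) hη.le))
    (by
      have h1 : (n0 : ℝ) ≤ π := by exact_mod_cast ((Nat.le_add_left _ _).trans hπ1.le)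
      have h2 := (div_le_iff₀ hη).1 (hn0.trans h1)
      linarith)
    (hWS.mul_left _) hz4 hdτ hT1 hT2
  have hcN : ∀ i < k + 1, ∀ i' < k + 1, ∀ t, (c i).Coprime (N' i' t) := fun i hi i' hi' t =>
    cop_small_M4 (u := 0) (hS'.one i' hi') (hcD i hi).1
      ((hcD i hi).2.trans ((Nat.le_add_right _ _).trans hjD)) (Nat.zero_le _)
  have hSt : (0 : ℝ) < (D * H2 * S : ℕ) := by positivity
  have hdm := hY0 B' N' s' hS' hspr c hcD J
  rw [eS] at hdm
  have hpos := rm_pos_M5 (k := k) hk (prod_pos fun i _ => by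
      exact_mod_cast card_pos.2 ((hP2 i (by omega)).1.ne.image _)) hSt
    (by simpa only [Nat.cast_mul, mul_assoc] using hT3)
    (hdiff _ (D * H2 * S) (Nat.mul_pos hH0 hS0) (fun i a ha => by
      obtain ⟨b, hb, rfl⟩ := mem_image.1 ha
      rw [← eS]
      exact Nat.mul_le_mul (hcD i (by omega)).2 ((hP2 i (by omega)).2 b hb).2.1) hdm T' T (by
        have h1 := (abs_le.1 hT2).2
        have h2 : (3 : ℝ) ≤ k := by exact_mod_cast hk
        have h3 : (z : ℝ) * S ≤ (D * H2 : ℕ) * S := mul_le_mul_of_nonneg_right (by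
          linarith [Nat.cast_nonneg (α := ℝ) z]) (Nat.cast_nonneg _)
        have h4 : (T' : ℝ) ≤ k * ((D * H2 : ℕ) * S) := by
          have h5 : (0 : ℝ) ≤ (D * H2 : ℕ) * S := by positivity
          nlinarith
        exact_mod_cast h4)
      hTm (hTl.trans (by
        rw [Nat.cast_mul (D * H2), mul_assoc]
        exact mul_le_mul_of_nonneg_right hη1 (by positivity))))
  obtain ⟨a, ha⟩ := card_pos.1 (Nat.cast_pos.1 hpos)
  obtain ⟨ha1, ha2⟩ := mem_filter.1 ha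
  have ha3 : ∀ i : Fin k, ∃ b m : ℕ, b ∈ ∏ t ∈ range J, B' i t ∧ a i = c i * b ∧ b ∣ m ∧
      m ∣ ∏ t ∈ range J, N' i t ∧ sg m * b = (∏ t ∈ range J, s' t) * m := fun i => by
    obtain ⟨b, hb, h1⟩ := mem_image.1 (Fintype.mem_piFinset.1 ha1 i)
    obtain ⟨m, h2⟩ := (hP2 i (by omega)).1.sup b hb
    exact ⟨b, m, hb, h1.symm, h2⟩
  choose b m hb1 hb2 hb3 hb4 hb5 using ha3
  obtain ⟨mγ, hm1, hm2, hm3⟩ := (hP1 k (by omega)).1.sup _ hq3
  obtain ⟨m1, rfl⟩ : q ∣ mγ := (dvd_mul_left _ _).trans hm1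
  have hm4 : q.Coprime m1 :=
    (Nat.squarefree_mul_iff.1 ((hP1 k (by omega)).1.sqf.squarefree_of_dvd hm2)).1
  have hm5 : m1 ∣ ∏ t ∈ range J, N' k t := ((dvd_mul_left _ _).trans hm2).trans
    (prod_dvd_prod_of_subset _ _ _ fun t ht => mem_range.2 (mem_Ico.1 ht).2)
  have hNp : ∀ i < k + 1, 0 < ∏ t ∈ range J, N' i t := fun i hi =>
    Nat.pos_of_ne_zero (hP2 i hi).1.sqf.ne_zero
  have hdN : ∀ i < k + 1, d.Coprime (∏ t ∈ range J, N' i t) := fun i hi =>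
    Nat.Coprime.prod_right fun t _ => Nat.coprime_of_dvd fun p hp h1 h2 => by
      have h3 := big_M4 (u := 0) (hS'.one i hi) (Nat.zero_le t) hp h2
      rw [add_zero] at h3
      rcases (hdp p (Nat.mem_primeFactors.2 ⟨hp, h1, hd0.ne'⟩)).2 with h4 | h4
      · omega
      · exact (((hS'.one i hi).one t).prm p (Nat.mem_primeFactors.2
          ⟨hp, h2, ((hS'.one i hi).one t).blk.sqf.ne_zero⟩)).2.2 h4
  have hπN : ∀ i < k + 1, π.Coprime (∏ t ∈ range J, N' i t) := fun i hi =>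
    Nat.Coprime.prod_right fun t _ => hπ.coprime_iff_not_dvd.2 fun h2 => by
      have h3 := Nat.mem_primeFactors.2 ⟨hπ, h2, ((hS'.one i hi).one t).blk.sqf.ne_zero⟩
      rcases lt_or_ge t t2 with h | h
      · have h4 := (((hS'.one i hi).one t).prm π h3).2.1
        have h5 : 2 ^ (101 * lev (j0 + t)) ≤ 2 ^ (101 * lev (j0 + t2)) :=
          Nat.pow_le_pow_right two_pos (Nat.mul_le_mul_left _ (lev_mono (by omega)))
        omega
      · exact ((hcls t h).2 i hi).1 h3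
  have hπs : ∀ e, 0 < e → e ≤ d + D → π.Coprime e := fun e h1 h2 =>
    hπ.coprime_iff_not_dvd.2 fun h3 => by
      have := Nat.le_of_dvd h1 h3
      have : 0 < 2 ^ (101 * lev (j0 + t2)) := by positivity
      omega
  have hdc : ∀ i < k + 1, d.Coprime (c i) := fun i hi => Nat.coprime_of_dvd fun p hp h1 h2 => by
    have h3 := (hdp p (Nat.mem_primeFactors.2 ⟨hp, h1, hd0.ne'⟩)).1
    have h4 := (Nat.le_of_dvd (hcD i hi).1 h2).trans (hcD i hi).2
    omega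
  obtain ⟨v, hv1, hv2⟩ : ∃ v : ℕ → ℕ, (∀ i : Fin k, v i = c i * m i) ∧ v k = d * π * m1 :=
    ⟨fun i => if h : i < k then c i * m ⟨i, h⟩ else d * π * m1, fun i => dif_pos i.2,
      dif_neg (lt_irrefl k)⟩
  obtain ⟨x, hx1, hx2⟩ : ∃ x : ℕ → ℕ, (∀ i : Fin k, x i = a i) ∧ x k = π * n * w :=
    ⟨fun i => if h : i < k then a ⟨i, h⟩ else π * n * w, fun i => dif_pos i.2,
      dif_neg (lt_irrefl k)⟩
  have hvd : ∀ i : Fin k, v i ∣ c i * ∏ t ∈ range J, N' i t := fun i => by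
    rw [hv1]
    exact Nat.mul_dvd_mul_left _ (hb4 i)
  have hm0 : ∀ i : Fin k, 0 < m i := fun i => Nat.pos_of_dvd_of_pos (hb4 i) (hNp i (by omega))
  have hvk : ∀ i : Fin k, (v k).Coprime (v i) := fun i => by
    refine Nat.Coprime.coprime_dvd_right (hvd i) ?_
    rw [hv2]
    refine Nat.Coprime.mul_left (Nat.Coprime.mul_left
      ((hdc i (by omega)).mul_right (hdN i (by omega)))
      ((hπs _ (hcD i (by omega)).1 (by have := (hcD i (by omega)).2; omega)).mul_right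
        (hπN i (by omega)))) ?_
    exact (hNN hS' (range J) k (by omega) i (by omega) (by omega)).coprime_dvd_left
      (hm5.mul_left _)
  obtain ⟨Z, hZ1, hZ2, hZ3, hZ4, hZ5⟩ := hEnd (k + 1) (D * H2 * S) v x (Nat.mul_pos hH0 hS0)
    (fun i hi => by
      rcases lt_or_ge i k with h | h
      · have h1 := hv1 ⟨i, h⟩
        have h2 := hx1 ⟨i, h⟩
        simp only at h1 h2
        refine ⟨h1 ▸ (hc1 i hi).trans_le (Nat.le_mul_of_pos_right _ (hm0 _)), ?_⟩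
        have h3 : (c i).Coprime (m ⟨i, h⟩) :=
          (Nat.Coprime.prod_right fun t _ => hcN i hi i hi t).coprime_dvd_right (hb4 ⟨i, h⟩)
        have h4 := hb5 ⟨i, h⟩
        rw [h1, h2, hb2, sg_mul_M4 h3, (hc i hi).2.2.1, ← eS]
        simp only
        calc c i * b ⟨i, h⟩ * (D * sg (m ⟨i, h⟩)) = c i * D * (sg (m ⟨i, h⟩) * b ⟨i, h⟩) := by ring
          _ = _ := by rw [h4]; ring
      · obtain rfl : i = k := by omega
        have h1 : 0 < m1 := Nat.pos_of_dvd_of_pos hm5 (hNp i hi)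
        refine ⟨hv2 ▸ hπ.one_lt.trans_le ((Nat.le_mul_of_pos_left _ hd0).trans
          (Nat.le_mul_of_pos_right _ h1)), ?_⟩
        have h2 : (d * π).Coprime m1 :=
          (Nat.Coprime.mul_left (hdN i hi) (hπN i hi)).coprime_dvd_right hm5
        rw [sg_mul_M4 hm4, sg_prime_M4 hq] at hm3
        have h3 : (q + 1) * sg m1 * n = S * m1 :=
          Nat.eq_of_mul_eq_mul_right hq.pos (by linarith)
        rw [hv2, hx2, sg_mul_M4 h2, sg_mul_M4 (hπs d hd0 (by omega)).symm, sg_prime_M4 hπ, hπ3]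
        calc π * n * w * (sg d * (D * H2 * d * W * π1) * sg m1) =
              π * (D * H2) * d * (sg d * W * π1 * w * sg m1 * n) := by ring
          _ = _ := by rw [← hσ', ← hw, h3]; ring)
    (fun i hi i' hi' hne => by
      rcases lt_or_ge i k with h | h <;> rcases lt_or_ge i' k with h' | h'
      · exact ((hNN hS' (range J) i hi i' hi' hne).coprime_dvd_left
          (hvd ⟨i, h⟩)).coprime_dvd_right (hvd ⟨i', h'⟩)
      · obtain rfl : i' = k := by omega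
        exact (hvk ⟨i, h⟩).symm
      · obtain rfl : i = k := by omega
        exact hvk ⟨i', h'⟩
      · omega)
    (by
      rw [sum_range_succ, sum_range x]
      simp only [hx1, hx2]
      rw [ha2]
      exact hTs)
  refine ⟨Z, hZ1, hZ2, hZ3, hZ4, v 0, hZ5 0 (by omega), ?_⟩
  have h2 : v 0 = c 0 * m ⟨0, by omega⟩ := hv1 ⟨0, by omega⟩
  have h3 := ((hP2 0 (by omega)).2 _ (hb1 ⟨0, by omega⟩)).2.2.trans
    (mul_le_mul_of_nonneg_right (exp_le_M4 hj) (Nat.cast_nonneg _))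
  have h4 : ∏ t ∈ range J, s' t ≤ 3 * b ⟨0, by omega⟩ := by exact_mod_cast h3
  have h5 := two_pow_le_M4 (hS'.one 0 (by omega)).two_le (range J)
  have h6 : b ⟨0, by omega⟩ ≤ c 0 * m ⟨0, by omega⟩ :=
    (Nat.le_of_dvd (hm0 _) (hb3 _)).trans (Nat.le_mul_of_pos_left _ (hcD 0 (by omega)).1)
  rw [card_range] at h5
  omega

end Pool.Agent.MP_2876a2_nt.Tu.Z
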