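import Pool.Agent.MP_2876a2_nt.Tu.St5

/-!
Spread colour classes and the ternary estimate.
-/

set_option autoImplicit false
set_option linter.all false

noncomputable section
open Finset Filter
open scoped Pointwise


namespace Pool.Agent.MP_2876a2_nt.Tu.Z

theorem ins_YEv (p : ℕ → ℝ) {a : ℕ} {Ω : Finset ℕ} (ha : a ∉ Ω) (f : Finset ℕ → ℝ) :
    Ev p (insert a Ω) f = p a * Ev p Ω (fun W => f (insert a W)) + (1 - p a) * Ev p Ω f := by
  unfold Ev
  rw [sum_powerset_insert ha, mul_sum, mul_sum, add_comm]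
  congr 1
  · refine sum_congr rfl fun W hW => ?_
    have hW' : a ∉ W := fun e => ha (mem_powerset.1 hW e)
    rw [insert_sdiff_insert, sdiff_insert_of_notMem ha, prod_insert hW']
    ring
  · refine sum_congr rfl fun W hW => ?_
    have hW' : a ∉ W := fun e => ha (mem_powerset.1 hW e)
    have h2 : a ∉ Ω \ W := fun e => ha (mem_sdiff.1 e).1
    rw [insert_sdiff_of_notMem _ hW', prod_insert h2]
    ring

theorem emp_YEv (p : ℕ → ℝ) (f : Finset ℕ → ℝ) : Ev p ∅ f = f ∅ := by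
  simp [Ev]

theorem con_YEv (p : ℕ → ℝ) (c : ℝ) (Ω : Finset ℕ) : Ev p Ω (fun _ => c) = c := by
  induction Ω using Finset.induction_on with
  | empty => exact emp_YEv _ _
  | insert a Ω ha ih =>
    rw [ins_YEv _ ha, ih]
    ring

theorem sEv : StEv := by
  refine ⟨fun p p' Ω => ?_, con_YEv, fun p Ω Ω' => ?_, fun p Ω J hp => ?_⟩
  · induction Ω using Finset.induction_on with
    | empty => intro f; simp only [emp_YEv, union_empty]
    | insert a Ω ha ih =>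
      intro f
      rw [ins_YEv _ ha, ins_YEv _ ha, ih, ih]
      simp only [ins_YEv _ ha, insert_union, union_insert, insert_idem, Ev_add, Ev_mul]
      ring
  · induction Ω using Finset.induction_on with
    | empty => intro f _; simp only [emp_YEv, empty_union]
    | insert a Ω ha ih =>
      intro f hd
      rw [disjoint_insert_left] at hd
      have h1 : a ∉ Ω ∪ Ω' := fun h => (mem_union.1 h).elim ha hd.1
      rw [insert_union, ins_YEv _ h1, ins_YEv _ ha, ih _ hd.2, ih _ hd.2]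
      simp only [insert_union]
  · induction Ω using Finset.induction_on generalizing J with
    | empty =>
      rw [emp_YEv]
      split_ifs with h
      · rw [subset_empty.1 h, prod_empty]
      · exact prod_nonneg fun x _ => (hp x).1
    | insert a Ω ha ih =>
      rw [ins_YEv _ ha]
      simp only [subset_insert_iff]
      have h1 := mul_le_mul_of_nonneg_left (ih (J.erase a)) (hp a).1
      by_cases hJ : a ∈ J
      · have h2 : Ev p Ω (fun W => if J ⊆ W then 1 else 0) ≤ 0 :=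
          (Ev_mono hp fun W hW => (if_neg fun h => ha (hW (h hJ))).le).trans (con_YEv p 0 Ω).le
        have h3 := mul_le_mul_of_nonneg_left h2 (sub_nonneg.2 (hp a).2)
        rw [mul_prod_erase J p hJ] at h1
        linarith
      · have h3 := mul_le_mul_of_nonneg_left (ih J) (sub_nonneg.2 (hp a).2)
        rw [erase_eq_of_notMem hJ] at h1 ⊢
        linarith

end Pool.Agent.MP_2876a2_nt.Tu.Z

end

noncomputable section
open Finset Filter
open scoped Pointwise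


namespace Pool.Agent.MP_2876a2_nt.Tu.Z

/-- the weight of a subset -/
def P_YRd5 (p : ℕ → ℝ) (Ω W : Finset ℕ) : ℝ := (∏ x ∈ W, p x) * ∏ x ∈ Ω \ W, (1 - p x)

theorem P_nonneg_YRd5 {p : ℕ → ℝ} (hp : ∀ x, 0 < p x) (hp1 : ∀ x, p x ≤ 1) (Ω W : Finset ℕ) :
    0 ≤ P_YRd5 p Ω W :=
  mul_nonneg (prod_nonneg fun x _ => (hp x).le) (prod_nonneg fun x _ => sub_nonneg.2 (hp1 x))

theorem P_le_YRd5 {p : ℕ → ℝ} (hp : ∀ x, 0 < p x) (hp1 : ∀ x, p x ≤ 1) (Ω W U : Finset ℕ)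
    (hd : Disjoint W U) : P_YRd5 p Ω W ≤ P_YRd5 p Ω (W ∪ U) / ∏ x ∈ U, p x := by
  have h0 : 0 < ∏ x ∈ U, p x := prod_pos fun x _ => hp x
  rw [le_div_iff₀ h0, P_YRd5, P_YRd5, prod_union hd]
  have h1 : ∏ x ∈ Ω \ W, (1 - p x) ≤ ∏ x ∈ Ω \ (W ∪ U), (1 - p x) :=
    prod_le_prod_of_subset_of_le_one (sdiff_subset_sdiff subset_rfl subset_union_left)
      (fun x _ => sub_nonneg.2 (hp1 x)) fun x _ _ => by linarith [hp x]
  have h2 : 0 ≤ (∏ x ∈ W, p x) * ∏ x ∈ U, p x :=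
    mul_nonneg (prod_nonneg fun x _ => (hp x).le) h0.le
  calc ((∏ x ∈ W, p x) * ∏ x ∈ Ω \ W, (1 - p x)) * ∏ x ∈ U, p x
      = ((∏ x ∈ W, p x) * ∏ x ∈ U, p x) * ∏ x ∈ Ω \ W, (1 - p x) := by ring
    _ ≤ _ := mul_le_mul_of_nonneg_left h1 h2

theorem inj_YRd5 {p : ℕ → ℝ} (hp : ∀ x, 0 < p x) (hp1 : ∀ x, p x ≤ 1) (Ω Ti : Finset ℕ) (h : ℕ)
    (U hat : Finset ℕ → Finset ℕ) (hΩ : Ti ⊆ Ω) (h1 : ∀ W, U W ⊆ Ti) (h2 : ∀ W, Disjoint W (U W))
    (h3 : ∀ W, U W ⊆ hat (W ∪ U W)) :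
    ∑ W ∈ Ω.powerset, (if h ≤ (U W).card then P_YRd5 p Ω W else 0) ≤
      ∑ Z ∈ Ω.powerset, ∑ V ∈ (hat Z).powerset,
        (if h ≤ V.card ∧ V ⊆ Ti then P_YRd5 p Ω Z / ∏ x ∈ V, p x else 0) := by
  classical
  rw [sum_sigma']
  let φ : Finset ℕ → (Σ _ : Finset ℕ, Finset ℕ) := fun W => ⟨W ∪ U W, U W⟩
  let g : (Σ _ : Finset ℕ, Finset ℕ) → ℝ := fun y =>
    if h ≤ y.2.card ∧ y.2 ⊆ Ti then P_YRd5 p Ω y.1 / ∏ x ∈ y.2, p x else 0
  have hg : ∀ y, 0 ≤ g y := fun y => by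
    simp only [g]
    split_ifs
    · exact div_nonneg (P_nonneg_YRd5 hp hp1 _ _) (prod_nonneg fun x _ => (hp x).le)
    · exact le_rfl
  have hinj : Set.InjOn φ (Ω.powerset : Set (Finset ℕ)) := by
    intro W _ W' _ e
    have e1 : W ∪ U W = W' ∪ U W' := congrArg Sigma.fst e
    have e2 : U W = U W' := congrArg (fun y : (Σ _ : Finset ℕ, Finset ℕ) => y.2) e
    rw [← union_sdiff_cancel_right (h2 W), ← union_sdiff_cancel_right (h2 W'), e1, e2]
  calc ∑ W ∈ Ω.powerset, (if h ≤ (U W).card then P_YRd5 p Ω W else 0)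
      ≤ ∑ W ∈ Ω.powerset, g (φ W) := by
        refine sum_le_sum fun W _ => ?_
        by_cases c : h ≤ (U W).card
        · simp only [g, φ]
          rw [if_pos c, if_pos ⟨c, h1 W⟩]
          exact P_le_YRd5 hp hp1 Ω W (U W) (h2 W)
        · rw [if_neg c]
          exact hg _
    _ = ∑ y ∈ Ω.powerset.image φ, g y := (sum_image hinj).symm
    _ ≤ _ := by
        refine sum_le_sum_of_subset_of_nonneg ?_ fun y _ _ => hg y
        intro y hy
        obtain ⟨W, hW, rfl⟩ := mem_image.1 hy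
        exact mem_sigma.2 ⟨mem_powerset.2 (union_subset (mem_powerset.1 hW) ((h1 W).trans hΩ)),
          mem_powerset.2 (h3 W)⟩

theorem sRd5 (hV : StEv) : StRd5 := by
  intro ι I T Ω h p κ θ A hpp hpk hh hT hA
  have hp : ∀ x, 0 < p x := fun x => (hpp x).1
  have hp1 : ∀ x, p x ≤ 1 := fun x => (hpp x).2.1
  classical
  have hex : ∀ W : Finset ℕ, ∀ i : ι, ∃ U : Finset ℕ, i ∈ I →
      (∃ i1 ∈ I, U = T i1 \ W ∧ T i1 ⊆ W ∪ T i) ∧
        ∀ i2 ∈ I, T i2 ⊆ W ∪ T i → U.card ≤ (T i2 \ W).card := by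
    intro W i
    by_cases hi : i ∈ I
    · obtain ⟨i1, h1, h2⟩ := exists_min_image (I.filter fun i' => T i' ⊆ W ∪ T i)
        (fun i' => (T i' \ W).card) ⟨i, mem_filter.2 ⟨hi, subset_union_right⟩⟩
      exact ⟨T i1 \ W, fun _ => ⟨⟨i1, (mem_filter.1 h1).1, rfl, (mem_filter.1 h1).2⟩,
        fun i2 hi2 hs => h2 i2 (mem_filter.2 ⟨hi2, hs⟩)⟩⟩
    · exact ⟨∅, fun h => absurd h hi⟩
  choose T' hT' using hex
  have hhat : ∀ Z : Finset ℕ, ∃ Y : Finset ℕ, Y.card ≤ 2 * h ∧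
      ((∃ i ∈ I, T i ⊆ Z) → ∃ i ∈ I, T i ⊆ Z ∧ Y = T i) := by
    intro Z
    by_cases c : ∃ i ∈ I, T i ⊆ Z
    · obtain ⟨i, hi, hs⟩ := c
      exact ⟨T i, (hT i hi).2.le, fun _ => ⟨i, hi, hs, rfl⟩⟩
    · exact ⟨∅, by simp, fun h => absurd h c⟩
  choose hat hh1 hh2 using hhat
  have hsub : ∀ W, ∀ i ∈ I, T' W i ⊆ T i := by
    intro W i hi
    obtain ⟨⟨i1, -, e, hs⟩, -⟩ := hT' W i hi
    rw [e]
    intro x hx
    exact (mem_union.1 (hs (mem_sdiff.1 hx).1)).resolve_left (mem_sdiff.1 hx).2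
  have hdis : ∀ W, ∀ i ∈ I, Disjoint W (T' W i) := by
    intro W i hi
    obtain ⟨⟨i1, -, e, -⟩, -⟩ := hT' W i hi
    rw [e]
    exact disjoint_sdiff
  have hcov : ∀ W, ∀ i ∈ I, ∃ i' ∈ I, T i' ⊆ W ∪ T' W i := by
    intro W i hi
    obtain ⟨⟨i1, h1, e, -⟩, -⟩ := hT' W i hi
    refine ⟨i1, h1, ?_⟩
    rw [e, union_sdiff_self_eq_union]
    exact subset_union_right
  have hin : ∀ W, ∀ i ∈ I, T' W i ⊆ hat (W ∪ T' W i) := by
    intro W i hi
    obtain ⟨i0, h0, hs, e⟩ := hh2 _ (hcov W i hi)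
    have h1 : T i0 \ W ⊆ T' W i := fun x hx =>
      (mem_union.1 (hs (mem_sdiff.1 hx).1)).resolve_left (mem_sdiff.1 hx).2
    have h2 := (hT' W i hi).2 i0 h0 (hs.trans (union_subset_union subset_rfl (hsub W i hi)))
    rw [e, ← eq_of_subset_of_card_le h1 h2]
    exact sdiff_subset
  refine ⟨T', fun W i hi => ⟨hsub W i hi, hcov W i hi⟩, ?_⟩
  have hq : 0 < θ := by linarith
  have hκ : ∀ x, 0 < κ x := fun x =>
    (mul_pos_iff_of_pos_left (hp x)).1 (hq.trans_le (hpp x).2.2)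
  have hA0 : 0 ≤ A := le_trans (by rw [prod_empty]; positivity) (hA ∅)
  have hone : ∑ W ∈ Ω.powerset, P_YRd5 p Ω W = 1 := by
    rw [← hV.2.1 p 1 Ω]
    exact sum_congr rfl fun W _ => (mul_one _).symm
  calc Ev p Ω (fun W => ((I.filter fun i => h ≤ (T' W i).card).card : ℝ))
      = ∑ W ∈ Ω.powerset, ∑ i ∈ I, (if h ≤ (T' W i).card then P_YRd5 p Ω W else 0) := by
        refine sum_congr rfl fun W _ => ?_
        rw [← sum_filter, sum_const, nsmul_eq_mul, mul_comm]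
        rfl
    _ = ∑ i ∈ I, ∑ W ∈ Ω.powerset, (if h ≤ (T' W i).card then P_YRd5 p Ω W else 0) := sum_comm
    _ ≤ ∑ i ∈ I, ∑ Z ∈ Ω.powerset, ∑ V ∈ (hat Z).powerset,
        (if h ≤ V.card ∧ V ⊆ T i then P_YRd5 p Ω Z / ∏ x ∈ V, p x else 0) :=
        sum_le_sum fun i hi => inj_YRd5 hp hp1 Ω (T i) h (fun W => T' W i) hat (hT i hi).1
          (fun W => hsub W i hi) (fun W => hdis W i hi) fun W => hin W i hi
    _ = ∑ Z ∈ Ω.powerset, ∑ V ∈ (hat Z).powerset, ∑ i ∈ I,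
        (if h ≤ V.card ∧ V ⊆ T i then P_YRd5 p Ω Z / ∏ x ∈ V, p x else 0) := by
        rw [sum_comm]
        exact sum_congr rfl fun Z _ => sum_comm
    _ ≤ ∑ Z ∈ Ω.powerset, ∑ V ∈ (hat Z).powerset, P_YRd5 p Ω Z * (A / θ ^ h) := by
        refine sum_le_sum fun Z _ => sum_le_sum fun V _ => ?_
        have hP := P_nonneg_YRd5 hp hp1 Ω Z
        by_cases c : h ≤ V.card
        · simp only [c, true_and]
          rw [← sum_filter, sum_const, nsmul_eq_mul]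
          have k0 : 0 < ∏ x ∈ V, κ x := prod_pos fun x _ => hκ x
          have p0 : 0 < ∏ x ∈ V, p x := prod_pos fun x _ => hp x
          have h1 : ((I.filter fun i => V ⊆ T i).card : ℝ) ≤ A / ∏ x ∈ V, κ x :=
            (le_div_iff₀ k0).2 (hA V)
          have h3 : θ ^ h ≤ (∏ x ∈ V, p x) * ∏ x ∈ V, κ x := by
            rw [← prod_mul_distrib]
            refine (pow_le_pow_right₀ (by linarith) c).trans ?_
            rw [← prod_const]
            exact prod_le_prod (fun _ _ => hq.le) fun x _ => (hpp x).2.2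
          have h2 : A / ((∏ x ∈ V, p x) * ∏ x ∈ V, κ x) ≤ A / θ ^ h :=
            div_le_div_of_nonneg_left hA0 (pow_pos hq _) h3
          calc _ ≤ A / (∏ x ∈ V, κ x) * (P_YRd5 p Ω Z / ∏ x ∈ V, p x) :=
                mul_le_mul_of_nonneg_right h1 (div_nonneg hP p0.le)
            _ = P_YRd5 p Ω Z * (A / ((∏ x ∈ V, p x) * ∏ x ∈ V, κ x)) := by
                field_simp
            _ ≤ _ := mul_le_mul_of_nonneg_left h2 hP
        · simp only [c, false_and, if_false, sum_const_zero]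
          positivity
    _ ≤ ∑ Z ∈ Ω.powerset, P_YRd5 p Ω Z * (4 * A / θ) := by
        refine sum_le_sum fun Z _ => ?_
        have hP := P_nonneg_YRd5 hp hp1 Ω Z
        rw [sum_const, card_powerset, nsmul_eq_mul]
        have h1 : ((2 ^ (hat Z).card : ℕ) : ℝ) ≤ 4 ^ h := by
          have : (2 ^ (hat Z).card : ℕ) ≤ 4 ^ h := by
            rw [show (4 : ℕ) = 2 ^ 2 by norm_num, ← pow_mul]
            exact Nat.pow_le_pow_right (by norm_num) (hh1 Z)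
          exact_mod_cast this
        have h2 : (4 / θ) ^ h ≤ 4 / θ := by
          have := pow_le_pow_of_le_one (a := 4 / θ) (by positivity)
            ((div_le_one hq).2 hpk) hh
          rwa [pow_one] at this
        calc _ ≤ 4 ^ h * (P_YRd5 p Ω Z * (A / θ ^ h)) :=
              mul_le_mul_of_nonneg_right h1 (by positivity)
          _ = P_YRd5 p Ω Z * A * (4 / θ) ^ h := by
              rw [div_pow]
              ring
          _ ≤ P_YRd5 p Ω Z * A * (4 / θ) := mul_le_mul_of_nonneg_left h2 (by positivity)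
          _ = _ := by ring
    _ = 4 * A / θ := by rw [← sum_mul, hone, one_mul]

end Pool.Agent.MP_2876a2_nt.Tu.Z

end

noncomputable section
open Finset Filter
open scoped Pointwise


namespace Pool.Agent.MP_2876a2_nt.Tu.Z

theorem sEx5 (hV : StEv) (hR : StRd5) : StEx5 := by
  intro ι Ω p κ θ A hp hθ l
  have hκ0 : ∀ x, 0 ≤ κ x := fun x => by
    by_contra h
    nlinarith [mul_pos (hp x).1 (neg_pos.2 (not_le.1 h)), (hp x).2.2]
  induction l with
  | zero =>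
    intro I T hT _
    refine le_of_eq ((congrArg _ (funext fun W => ?_)).trans ((hV.2.1 _ 0 Ω).trans (by simp)))
    split_ifs with h
    · rfl
    · rw [Nat.cast_eq_zero, card_eq_zero, eq_empty_iff_forall_notMem]
      intro i hi
      have : T i = ∅ := card_eq_zero.1 (by have := (hT i hi).2; omega)
      exact h ⟨i, hi, by rw [this]; exact empty_subset _⟩
  | succ l ih =>
    intro I T hT hA
    obtain ⟨T', h1, h2⟩ := hR ι I T Ω (2 ^ l) p κ θ A hp hθ Nat.one_le_two_pow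
      (fun i hi => ⟨(hT i hi).1, by have := (hT i hi).2; omega⟩) hA
    have q : ∀ x, 0 ≤ 1 - (1 - p x) ^ l ∧ 1 - (1 - p x) ^ l ≤ 1 := fun x =>
      ⟨sub_nonneg.2 (pow_le_one₀ (by linarith [(hp x).2.1]) (by linarith [(hp x).1])),
        sub_le_self _ (pow_nonneg (by linarith [(hp x).2.1]) _)⟩
    rw [show (fun x => 1 - (1 - p x) ^ (l + 1)) =
      fun x => 1 - (1 - p x) * (1 - (fun y => 1 - (1 - p y) ^ l) x) from
        funext fun x => by ring, hV.1]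
    refine (Ev_mono (fun x => ⟨(hp x).1.le, (hp x).2.1⟩) (g := fun W => l * (4 * A / θ) +
      ((I.filter fun i => 2 ^ l ≤ (T' W i).card).card : ℝ)) fun W _ => ?_).trans ?_
    · have k := ih (I.filter fun i => (T' W i).card < 2 ^ l) (T' W)
        (fun i hi => ⟨(h1 W i (mem_filter.1 hi).1).1.trans (hT i (mem_filter.1 hi).1).1,
          (mem_filter.1 hi).2⟩)
        (fun J => le_trans (mul_le_mul_of_nonneg_right (Nat.cast_le.2 (card_le_card fun i hi => by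
          obtain ⟨a, b⟩ := mem_filter.1 hi
          have c := (mem_filter.1 a).1
          exact mem_filter.2 ⟨c, b.trans (h1 W i c).1⟩)) (prod_nonneg fun x _ => hκ0 x)) (hA J))
      refine le_trans ?_ (add_le_add k (hV.2.1 (fun y => 1 - (1 - p y) ^ l) _ Ω).le)
      rw [← Ev_add]
      refine Ev_mono q fun W' _ => ?_
      have e := card_filter_add_card_filter_not (s := I) fun i => (T' W i).card < 2 ^ l
      simp only [not_lt] at e
      split_ifs with a b b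
      · positivity
      · positivity
      · obtain ⟨i, hi, hs⟩ := b
        obtain ⟨-, i', hi', hs'⟩ := h1 W i (mem_filter.1 hi).1
        exact absurd ⟨i', hi', hs'.trans (union_subset_union_right hs)⟩ a
      · exact_mod_cast e.ge
    · rw [Ev_add, hV.2.1]
      push_cast
      linarith

end Pool.Agent.MP_2876a2_nt.Tu.Z

end

noncomputable section
open Finset Filter
open scoped Pointwise


namespace Pool.Agent.MP_2876a2_nt.Tu.Z

lemma har_YGd (n b a : ℕ) (h : b + a ≤ n) :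
    (harmonic b : ℝ) + (a : ℝ) / n ≤ (harmonic (b + a) : ℝ) := by
  induction a with
  | zero => simp
  | succ a ih =>
    have h1 := ih (by omega)
    have h2 : (1 : ℝ) / n ≤ 1 / ((b + a + 1 : ℕ) : ℝ) :=
      one_div_le_one_div_of_le (by positivity) (by exact_mod_cast h)
    rw [← add_assoc, harmonic_succ]
    push_cast at h1 h2 ⊢
    rw [add_div, inv_eq_one_div]
    linarith

lemma ind_YGd (ι : Type) (T : ι → Finset ℕ) (R : ℕ) (hR : 1 ≤ R) (n : ℕ) :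
    ∀ G : Finset ι, G.card = n → (∃ I' ⊆ G, I'.Nonempty ∧
      ∀ J : Finset ℕ, (I'.filter fun i => J ⊆ T i).card * R ^ J.card ≤ I'.card) ∨
    ∃ C : Finset (Finset ℕ), (∀ J ∈ C, J.Nonempty) ∧ (∀ i ∈ G, ∃ J ∈ C, J ⊆ T i) ∧
      ∑ J ∈ C, 1 / (R : ℝ) ^ J.card ≤ (harmonic n : ℝ) := by
  induction n using Nat.strong_induction_on with
  | _ n ih =>
    intro G hG
    rcases G.eq_empty_or_nonempty with rfl | hne
    · subst hG
      exact Or.inr ⟨∅, by simp, by simp, by simp⟩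
    by_cases hs : ∀ J : Finset ℕ, (G.filter fun i => J ⊆ T i).card * R ^ J.card ≤ G.card
    · exact Or.inl ⟨G, Subset.refl _, hne, hs⟩
    obtain ⟨J, hJ⟩ := not_forall.1 hs
    rw [not_le] at hJ
    have hJn : J.Nonempty := by
      rw [nonempty_iff_ne_empty]
      rintro rfl
      simp at hJ
    have ha : (G.filter fun i => J ⊆ T i).card ≠ 0 := fun h0 => by simp [h0] at hJ
    have hc := card_filter_add_card_filter_not (s := G) fun i => J ⊆ T i
    rcases ih (G.filter fun i => ¬ J ⊆ T i).card (by omega) _ rfl with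
      ⟨I', h1, h2⟩ | ⟨C, h1, h2, h3⟩
    · exact Or.inl ⟨I', h1.trans (filter_subset _ _), h2⟩
    refine Or.inr ⟨insert J C, ?_, fun i hi => ?_, ?_⟩
    · intro K hK
      rcases mem_insert.1 hK with rfl | hK
      exacts [hJn, h1 K hK]
    · by_cases hi' : J ⊆ T i
      · exact ⟨J, mem_insert_self _ _, hi'⟩
      · obtain ⟨K, hK, hK'⟩ := h2 i (mem_filter.2 ⟨hi, hi'⟩)
        exact ⟨K, mem_insert_of_mem hK, hK'⟩
    · have hR' : (0 : ℝ) < (R : ℝ) ^ J.card := pow_pos (by exact_mod_cast hR) _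
      have hn : (0 : ℝ) < n := by
        have := hne.card_pos
        exact_mod_cast hG ▸ this
      have h4 := har_YGd n (G.filter fun i => ¬ J ⊆ T i).card (G.filter fun i => J ⊆ T i).card
        (by omega)
      rw [show (G.filter fun i => ¬ J ⊆ T i).card + (G.filter fun i => J ⊆ T i).card = n by
        omega] at h4
      have h5 : 1 / (R : ℝ) ^ J.card ≤ ((G.filter fun i => J ⊆ T i).card : ℝ) / n := by
        rw [div_le_div_iff₀ hR' hn, one_mul]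
        exact_mod_cast hG ▸ hJ.le
      have h6 : ∑ K ∈ insert J C, 1 / (R : ℝ) ^ K.card ≤
          1 / (R : ℝ) ^ J.card + ∑ K ∈ C, 1 / (R : ℝ) ^ K.card := by
        by_cases hm : J ∈ C
        · rw [insert_eq_of_mem hm]
          exact le_add_of_nonneg_left (by positivity)
        · rw [sum_insert hm]
      linarith

theorem sGd : StGd := by
  intro ι T R G hR
  refine (ind_YGd ι T R hR _ G rfl).imp_right fun ⟨C, h1, h2, h3⟩ => ⟨C, h1, h2, h3.trans ?_⟩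
  exact harmonic_le_one_add_log _

end Pool.Agent.MP_2876a2_nt.Tu.Z

end

noncomputable section
open Finset Filter
open scoped Pointwise


namespace Pool.Agent.MP_2876a2_nt.Tu.Z

theorem ber_YSpA {a : ℝ} (h0 : 0 < a) (h1 : a ≤ 1) (l : ℕ) :
    0 ≤ 1 - (1 - a) ^ l ∧ 1 - (1 - a) ^ l ≤ 1 ∧ 1 - (1 - a) ^ l ≤ l * a := by
  have b := one_add_mul_le_pow (show (-2 : ℝ) ≤ -a by linarith) l
  rw [← sub_eq_add_neg] at b
  exact ⟨sub_nonneg.2 (pow_le_one₀ (sub_nonneg.2 h1) (by linarith)),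
    sub_le_self _ (pow_nonneg (sub_nonneg.2 h1) _), by linarith⟩

theorem sSpA (hV : StEv) (hM : StMg) (hE : StEx5) : StSpA := by
  classical
  intro ι I T1 T2 Ω1 Ω2 M l R h2 hI hd hT hJ hR
  have c0 : (0 : ℝ) < I.card := by exact_mod_cast hI.card_pos
  have m2 : (2 : ℝ) ≤ M := by exact_mod_cast h2
  have l0 : (0 : ℝ) ≤ l := Nat.cast_nonneg _
  have m0 : (0 : ℝ) < M := by linarith
  have d1 : (1 : ℝ) ≤ M * (l + 1) := by nlinarith
  have R1 : 16 * ((M : ℝ) * (l + 1)) ≤ R := by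
    rw [← mul_assoc]
    exact_mod_cast hR
  have R0 : (0 : ℝ) < R := by linarith
  obtain ⟨a, ha⟩ : ∃ a : ℝ, a = 1 / (M * (l + 1)) := ⟨_, rfl⟩
  have a0 : 0 < a := by rw [ha]; positivity
  have a1 : a ≤ 1 := by rw [ha]; exact (div_le_one (by linarith)).2 d1
  have ak : a * (16 * M ^ 2 * (l + 1) ^ 2) = 16 * (M * (l + 1)) := by rw [ha]; field_simp
  obtain ⟨b, hb⟩ : ∃ b : ℝ, b = 16 * (M * (l + 1)) / R := ⟨_, rfl⟩
  have b0 : 0 < b := by rw [hb]; positivity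
  have b1 : b ≤ 1 := by rw [hb]; exact (div_le_one R0).2 R1
  have bk : b * R = 16 * (M * (l + 1)) := by rw [hb]; field_simp
  obtain ⟨ind, hi⟩ : ∃ ind : Finset ℕ → ℝ, ∀ U, ind U =
    if ∃ i ∈ I, T1 i ∪ T2 i ⊆ U then 0 else 1 := ⟨_, fun _ => rfl⟩
  have i0 : ∀ U, 0 ≤ ind U := fun U => by rw [hi]; split_ifs <;> simp
  have ia : ∀ U W, U ⊆ W → ind W ≤ ind U := fun U W h => by
    rw [hi U, hi W]
    split_ifs with h1 h3 h3
    · exact le_rfl
    · exact zero_le_one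
    · exact absurd (h3.imp fun i k => ⟨k.1, k.2.trans h⟩) h1
    · exact le_rfl
  have e := hE ι (Ω1 ∪ Ω2) (fun x => if x ∈ Ω1 then a else b)
    (fun x => if x ∈ Ω1 then 16 * (M : ℝ) ^ 2 * (l + 1) ^ 2 else R) (16 * (M * (l + 1))) I.card
    (fun x => by
      split_ifs
      exacts [⟨a0, a1, ak.ge⟩, ⟨b0, b1, bk.ge⟩]) (by linarith) l I (fun i => T1 i ∪ T2 i)
    (fun i h => ⟨union_subset_union (hT i h).1 (hT i h).2.1,
      (card_union_le _ _).trans_lt (hT i h).2.2⟩) fun J => by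
      rw [prod_ite, prod_const, prod_const, ← mul_assoc]
      have k := (Nat.cast_le (α := ℝ)).2 (hJ (J.filter (· ∈ Ω1)) (J.filter (· ∉ Ω1)))
      push_cast at k
      refine le_trans (mul_le_mul_of_nonneg_right (mul_le_mul_of_nonneg_right
        (Nat.cast_le.2 (card_le_card fun i h => ?_)) (by positivity)) (by positivity)) k
      obtain ⟨h, h3⟩ := mem_filter.1 h
      refine mem_filter.2 ⟨h, fun x hx => ?_, fun x hx => ?_⟩
      · exact (mem_union.1 (h3 (mem_filter.1 hx).1)).resolve_right fun h4 =>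
          disjoint_left.1 hd (mem_filter.1 hx).2 ((hT i h).2.1 h4)
      · exact (mem_union.1 (h3 (mem_filter.1 hx).1)).resolve_left fun h4 =>
          (mem_filter.1 hx).2 ((hT i h).1 h4)
  have e0 : (fun W : Finset ℕ => if ∃ i ∈ I, T1 i ∪ T2 i ⊆ W then 0 else (I.card : ℝ)) =
      fun W => I.card * ind W := funext fun W => by rw [hi]; split_ifs <;> simp
  obtain ⟨r0, -, r1⟩ := ber_YSpA a0 a1 l
  obtain ⟨p0, p1, p2⟩ := ber_YSpA b0 b1 l
  obtain ⟨f, hf⟩ : ∃ f : Finset ℕ → ℝ, f = fun W =>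
    Ev (fun _ => 1 - (1 - b) ^ l) Ω2 fun V => ind (W ∪ V) := ⟨_, rfl⟩
  have e1 : Ev (fun x => 1 - (1 - if x ∈ Ω1 then a else b) ^ l) (Ω1 ∪ Ω2) ind =
      Ev (fun _ => 1 - (1 - a) ^ l) Ω1 f := by
    rw [hV.2.2.1 _ _ _ _ hd, hf, Ev_congr (p' := fun _ => 1 - (1 - a) ^ l) fun x hx => by
      rw [if_pos hx]]
    congr 1
    funext W
    exact Ev_congr (fun x hx => by rw [if_neg (disjoint_right.1 hd hx)]) _
  rw [e0, Ev_mul, e1] at e
  generalize 1 - (1 - a) ^ l = r at e r0 r1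
  generalize 1 - (1 - b) ^ l = p at hf p0 p1 p2
  have f0 : ∀ U, 0 ≤ f U := fun U => by
    rw [hf]
    exact (hV.2.1 (fun _ => p) 0 Ω2).ge.trans (Ev_mono (fun _ => ⟨p0, p1⟩) fun V _ => i0 _)
  have fa : ∀ U W, f (U ∪ W) ≤ f U := fun U W => by
    rw [hf]
    exact Ev_mono (fun _ => ⟨p0, p1⟩) fun V _ =>
      ia _ _ (union_subset_union_left subset_union_left)
  have r4 : r ≤ 1 / M := by
    refine r1.trans ?_
    rw [ha, mul_one_div, div_le_div_iff₀ (by positivity) m0]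
    nlinarith
  have r2 : (1 : ℝ) / M ≤ 1 / 2 := one_div_le_one_div_of_le two_pos m2
  have r3 : 0 < 1 - r := by linarith
  have g : Ev (fun _ => 1 / M) Ω1 f ≤ Ev (fun _ => r) Ω1 f := by
    have k : (1 : ℝ) / M = 1 - (1 - r) * (1 - (1 / M - r) / (1 - r)) := by
      field_simp
      ring
    rw [k, hV.1 (fun _ => r) fun _ => (1 / M - r) / (1 - r)]
    refine Ev_mono (fun _ => ⟨r0, by linarith⟩) fun W _ => ?_
    exact (Ev_mono (fun _ => ⟨div_nonneg (by linarith) r3.le, (div_le_one r3).2 (by linarith)⟩)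
      fun V _ => fa W V).trans (hV.2.1 _ _ _).le
  have c : M * Ev (fun _ => r) Ω1 f ≤ 1 / 4 := by
    have e2 : l * (4 * (I.card : ℝ) / (16 * (M * (l + 1)))) ≤ I.card / (4 * M) := by
      rw [← mul_div_assoc, div_le_div_iff₀ (by positivity) (by positivity)]
      nlinarith [mul_pos c0 m0]
    have e3 : (M : ℝ) * (I.card / (4 * M)) = I.card / 4 := by field_simp
    refine le_of_mul_le_mul_left ?_ c0
    nlinarith [mul_le_mul_of_nonneg_left (e.trans e2) m0.le]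
  obtain ⟨χ, hχ⟩ := hM M Ω1 (fun _ => f) (by omega)
  rw [sum_const, card_range, nsmul_eq_mul, ← Ev_const] at hχ
  refine ⟨χ, p, p0, p1, by nlinarith [mul_le_mul_of_nonneg_right p2 R0.le], fun k hk => ?_⟩
  refine le_trans ?_ ((single_le_sum (f := fun c => f (Ω1.filter fun x => χ x = c))
    (fun _ _ => f0 _) (mem_range.2 hk)).trans
      (hχ.trans ((mul_le_mul_of_nonneg_left g m0.le).trans c)))
  rw [hf]
  refine Ev_mono (fun _ => ⟨p0, p1⟩) fun V hV' => ?_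
  split_ifs with h
  · exact i0 _
  · rw [hi, if_neg]
    rintro ⟨i, h3, h4⟩
    refine h ⟨i, h3, fun x hx => ?_, fun x hx => ?_⟩
    · exact (mem_filter.1 ((mem_union.1 (h4 (mem_union_left _ hx))).resolve_right fun h5 =>
        disjoint_left.1 hd ((hT i h3).1 hx) (hV' h5))).2
    · exact (mem_union.1 (h4 (mem_union_right _ hx))).resolve_left fun h5 =>
        disjoint_left.1 hd (mem_filter.1 h5).1 ((hT i h3).2.1 hx)

end Pool.Agent.MP_2876a2_nt.Tu.Z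

end

noncomputable section
open Finset Filter
open scoped Pointwise


namespace Pool.Agent.MP_2876a2_nt.Tu.Z

theorem pow_YSp5 {p lam R : ℝ} {n : ℕ} (hp : 0 ≤ p) (hl : 1 ≤ lam) (hR : 0 < R)
    (h : p * R * (2 * lam) ≤ 1) (hn : n ≠ 0) : p ^ n ≤ 1 / (2 * lam) * (1 / R ^ n) := by
  have h1 : p * R ≤ 1 / (2 * lam) := by rwa [le_div_iff₀ (by linarith)]
  have h2 : 1 / (2 * lam) ≤ 1 := by
    rw [div_le_one (by linarith)]
    linarith
  have h3 := (pow_le_of_le_one (by positivity) (h1.trans h2) hn).trans h1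
  rw [mul_one_div, le_div_iff₀ (by positivity), ← mul_pow]
  exact h3

theorem sSp5 (hV : StEv) (hA : StSpA) (hG : StGd) : StSp5 := by
  classical
  intro ι I T1 T2 M l R R2 hM hI hc hs hR2 hR
  have i1 : Function.Injective fun x : ℕ => 2 * x := fun x y h => by
    simp only at h
    omega
  have i2 : Function.Injective fun x : ℕ => 2 * x + 1 := fun x y h => by
    simp only at h
    omega
  have l0 : 0 ≤ Real.log I.card := Real.log_natCast_nonneg _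
  have r1 : (1 : ℝ) ≤ R2 := by exact_mod_cast hR2
  have m0 : (0 : ℝ) < M := by exact_mod_cast (show 0 < M by omega)
  have a0 : (0 : ℝ) < 16 * M * (l + 1) ^ 2 := by positivity
  have hR' : 16 * M * (l + 1) ≤ R := by
    have h1 : (1 : ℝ) ≤ R2 * (1 + Real.log I.card) :=
      one_le_mul_of_one_le_of_one_le r1 (by linarith)
    have h2 : (l + 1 : ℝ) ≤ (l + 1) ^ 2 :=
      le_self_pow₀ (by linarith [Nat.cast_nonneg (α := ℝ) l]) two_ne_zero
    have h3 := mul_le_mul_of_nonneg_left h1 a0.le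
    have h4 := mul_le_mul_of_nonneg_left h2 m0.le
    have h5 : (16 * M * (l + 1) : ℝ) ≤ R := by nlinarith
    exact_mod_cast h5
  obtain ⟨χ, p, p0, p1, p2, hp⟩ := hA ι I (fun i => (T1 i).image fun x => 2 * x)
    (fun i => (T2 i).image fun x => 2 * x + 1) (I.biUnion fun i => (T1 i).image fun x => 2 * x)
    (I.biUnion fun i => (T2 i).image fun x => 2 * x + 1) M l R hM hI
    (by
      rw [disjoint_left]
      intro x h1 h2
      simp only [mem_biUnion, mem_image] at h1 h2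
      obtain ⟨_, -, y, -, e1⟩ := h1
      obtain ⟨_, -, z, -, e2⟩ := h2
      omega)
    (fun i hi => ⟨subset_biUnion_of_mem (fun i => (T1 i).image fun x => 2 * x) hi,
      subset_biUnion_of_mem (fun i => (T2 i).image fun x => 2 * x + 1) hi, by
        rw [card_image_of_injective _ i1, card_image_of_injective _ i2]
        exact hc i hi⟩)
    (fun J1 J2 => by
      rcases (I.filter fun i => J1 ⊆ (T1 i).image (fun x => 2 * x) ∧
        J2 ⊆ (T2 i).image fun x => 2 * x + 1).eq_empty_or_nonempty with e | ⟨i, hi⟩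
      · rw [e, card_empty, zero_mul, zero_mul]
        exact Nat.zero_le _
      · obtain ⟨-, h1, h2⟩ := mem_filter.1 hi
        obtain ⟨K1, -, rfl⟩ := subset_image_iff.1 h1
        obtain ⟨K2, -, rfl⟩ := subset_image_iff.1 h2
        simp only [image_subset_image_iff i1, image_subset_image_iff i2,
          card_image_of_injective _ i1, card_image_of_injective _ i2]
        exact hs K1 K2) hR'
  refine ⟨fun x => χ (2 * x), fun c hcM => ?_⟩
  rcases hG ι T2 R2 (I.filter fun i => ∀ x ∈ T1 i, χ (2 * x) = c) hR2 with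
    ⟨I', h1, h2, h3⟩ | ⟨C, h1, h2, h3⟩
  · exact ⟨I', h1.trans (filter_subset _ _), h2, fun i hi => (mem_filter.1 (h1 hi)).2, h3⟩
  exfalso
  have k0 := hp c hcM
  generalize (I.biUnion fun i => (T2 i).image fun x => 2 * x + 1) = Ω at k0
  obtain ⟨g, g0, g1, g2⟩ : ∃ g : Finset ℕ → ℝ, Ev (fun _ => p) Ω g ≤ 1 / 4 ∧ (∀ V, 0 ≤ g V) ∧
      ∀ V, ¬ (∃ i ∈ I, (∀ x ∈ (T1 i).image fun x => 2 * x, χ x = c) ∧
        ((T2 i).image fun x => 2 * x + 1) ⊆ V) → g V = 1 :=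
    ⟨_, k0, fun V => by split_ifs <;> norm_num, fun V h => if_neg h⟩
  have pp : ∀ _ : ℕ, 0 ≤ p ∧ p ≤ 1 := fun _ => ⟨p0, p1⟩
  have k1 := Ev_mono (p := fun _ => p) pp (Ω := Ω) (f := fun _ => 1)
    (g := fun V => g V + ∑ J ∈ C, if (J.image fun x => 2 * x + 1) ⊆ V then 1 else 0)
    fun V _ => by
      have z : ∀ J ∈ C, (0 : ℝ) ≤ if (J.image fun x => 2 * x + 1) ⊆ V then 1 else 0 :=
        fun J _ => by split_ifs <;> norm_num
      by_cases e : ∃ i ∈ I, (∀ x ∈ (T1 i).image fun x => 2 * x, χ x = c) ∧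
          ((T2 i).image fun x => 2 * x + 1) ⊆ V
      · obtain ⟨i, hi, e1, e2⟩ := e
        obtain ⟨J, hJ, e3⟩ := h2 i (mem_filter.2 ⟨hi, fun x hx => e1 _ (mem_image_of_mem _ hx)⟩)
        have := single_le_sum z hJ
        rw [if_pos ((image_subset_image e3).trans e2)] at this
        linarith [g1 V]
      · linarith [sum_nonneg z, g2 V e]
  rw [hV.2.1, Ev_add, Ev_sum] at k1
  have k2 : p * R2 * (2 * (1 + Real.log I.card)) ≤ 1 := by
    have h4 := (mul_le_mul_of_nonneg_left hR p0).trans p2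
    refine le_of_mul_le_mul_left ?_ a0
    linarith
  have k3 : ∑ J ∈ C, Ev (fun _ => p) Ω
      (fun V => if (J.image fun x => 2 * x + 1) ⊆ V then 1 else 0) ≤
      ∑ J ∈ C, 1 / (2 * (1 + Real.log I.card)) * (1 / (R2 : ℝ) ^ J.card) :=
    sum_le_sum fun J hJ => by
      refine (hV.2.2.2 (fun _ => p) Ω _ pp).trans ?_
      rw [prod_const, card_image_of_injective _ i2]
      exact pow_YSp5 p0 (by linarith) (by linarith) k2 (h1 J hJ).card_ne_zero
  have k4 : Real.log (I.filter fun i => ∀ x ∈ T1 i, χ (2 * x) = c).card ≤ Real.log I.card := by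
    rcases Nat.eq_zero_or_pos (I.filter fun i => ∀ x ∈ T1 i, χ (2 * x) = c).card with e | e
    · rw [e, Nat.cast_zero, Real.log_zero]
      exact l0
    · exact Real.log_le_log (by exact_mod_cast e) (by exact_mod_cast card_filter_le _ _)
  have k5 : 1 / (2 * (1 + Real.log I.card)) * (1 + Real.log I.card) = 1 / 2 := by
    field_simp
  have k6 := mul_le_mul_of_nonneg_left (h3.trans (add_le_add_right k4 1))
    (show 0 ≤ 1 / (2 * (1 + Real.log I.card)) by positivity)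
  rw [← mul_sum] at k3
  linarith

end Pool.Agent.MP_2876a2_nt.Tu.Z

end

noncomputable section
open Finset Filter
open scoped Pointwise


namespace Pool.Agent.MP_2876a2_nt.Tu.Z

theorem main_YNs5 (P Kc : Finset ℕ) (nb : ℕ → Finset ℕ) (F : Finset (Finset ℕ))
    (K1 A R κ : ℕ) (h1 : ∀ q ∈ P, (nb q).card ≤ K1)
    (h2 : ∀ p, (P.filter fun q => p ∈ nb q).card ≤ A) (h3 : ∀ b ∈ F, b ⊆ P)
    (h4 : ∀ J : Finset ℕ, Disjoint J Kc →
      (F.filter fun b => Kc ∪ J ⊆ b).card * R ^ J.card ≤ (F.filter fun b => Kc ⊆ b).card)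
    (h5 : (2 * κ) ^ K1 * A ≤ R) (h6 : 1 ≤ κ) (n : ℕ) :
    ∀ (U J : Finset ℕ), J.card ≤ n → Disjoint U Kc → Disjoint J (U.biUnion nb) →
      (F.filter fun b => Kc ∪ U ⊆ b ∧ J ⊆ (b \ Kc).biUnion nb).card * R ^ U.card * κ ^ J.card ≤
        (F.filter fun b => Kc ⊆ b).card := by
  have base : ∀ U : Finset ℕ, Disjoint U Kc →
      (F.filter fun b => Kc ∪ U ⊆ b ∧ (∅ : Finset ℕ) ⊆ (b \ Kc).biUnion nb).card * R ^ U.card *
        κ ^ (∅ : Finset ℕ).card ≤ (F.filter fun b => Kc ⊆ b).card := by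
    intro U hU
    have := h4 U hU
    simpa using this
  induction n with
  | zero =>
    intro U J hJ hU _
    have : J = ∅ := Finset.card_eq_zero.mp (Nat.le_zero.mp hJ)
    subst this
    exact base U hU
  | succ n ih =>
    intro U J hJ hU hJU
    rcases J.eq_empty_or_nonempty with rfl | ⟨p, hp⟩
    · exact base U hU
    set N := (F.filter fun b => Kc ⊆ b).card with hN
    set Q := (P.filter fun q => p ∈ nb q).filter fun q => q ∉ Kc with hQ
    have hQA : Q.card ≤ A := (Finset.card_filter_le _ _).trans (h2 p)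
    set c : ℕ → ℕ := fun q =>
      (F.filter fun b => Kc ∪ insert q U ⊆ b ∧ J \ nb q ⊆ (b \ Kc).biUnion nb).card with hc
    have hcov : (F.filter fun b => Kc ∪ U ⊆ b ∧ J ⊆ (b \ Kc).biUnion nb).card ≤ ∑ q ∈ Q, c q := by
      refine le_trans (Finset.card_le_card ?_) (Finset.card_biUnion_le (s := Q)
        (t := fun q => F.filter fun b => Kc ∪ insert q U ⊆ b ∧ J \ nb q ⊆ (b \ Kc).biUnion nb))
      intro b hb
      rw [Finset.mem_filter] at hb
      obtain ⟨hbF, hb1, hb2⟩ := hb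
      obtain ⟨q, hq, hpq⟩ := Finset.mem_biUnion.mp (hb2 hp)
      rw [Finset.mem_sdiff] at hq
      refine Finset.mem_biUnion.mpr ⟨q, ?_, ?_⟩
      · simp only [hQ, Finset.mem_filter]
        exact ⟨⟨h3 b hbF hq.1, hpq⟩, hq.2⟩
      · rw [Finset.mem_filter]
        refine ⟨hbF, ?_, (Finset.sdiff_subset).trans hb2⟩
        intro x hx
        rcases Finset.mem_union.mp hx with hx | hx
        · exact hb1 (Finset.mem_union_left _ hx)
        · rcases Finset.mem_insert.mp hx with rfl | hx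
          · exact hq.1
          · exact hb1 (Finset.mem_union_right _ hx)
    have hterm : ∀ q ∈ Q, c q * R ^ U.card * κ ^ J.card * R ≤ N * κ ^ K1 := by
      intro q hq
      simp only [hQ, Finset.mem_filter] at hq
      obtain ⟨⟨hqP, hpq⟩, hqK⟩ := hq
      have hqU : q ∉ U := fun hqU =>
        Finset.disjoint_left.mp hJU hp (Finset.mem_biUnion.mpr ⟨q, hqU, hpq⟩)
      have hlt : (J \ nb q).card < J.card := by
        refine Finset.card_lt_card ⟨Finset.sdiff_subset, fun h => ?_⟩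
        exact (Finset.mem_sdiff.mp (h hp)).2 hpq
      have hd1 : Disjoint (insert q U) Kc := Finset.disjoint_insert_left.mpr ⟨hqK, hU⟩
      have hd2 : Disjoint (J \ nb q) ((insert q U).biUnion nb) := by
        rw [Finset.disjoint_left]
        intro x hx hx2
        rw [Finset.mem_sdiff] at hx
        obtain ⟨r, hr, hxr⟩ := Finset.mem_biUnion.mp hx2
        rcases Finset.mem_insert.mp hr with rfl | hr
        · exact hx.2 hxr
        · exact Finset.disjoint_left.mp hJU hx.1 (Finset.mem_biUnion.mpr ⟨r, hr, hxr⟩)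
      have hi := ih (insert q U) (J \ nb q) (by omega) hd1 hd2
      rw [Finset.card_insert_of_notMem hqU] at hi
      have hJc : J.card ≤ (J \ nb q).card + K1 := by
        have := Finset.le_card_sdiff (nb q) J
        have := h1 q hqP
        omega
      have hk : κ ^ J.card ≤ κ ^ (J \ nb q).card * κ ^ K1 := by
        rw [← pow_add]
        exact Nat.pow_le_pow_right h6 hJc
      calc c q * R ^ U.card * κ ^ J.card * R
          ≤ c q * R ^ U.card * (κ ^ (J \ nb q).card * κ ^ K1) * R := by gcongr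
        _ = c q * R ^ (U.card + 1) * κ ^ (J \ nb q).card * κ ^ K1 := by ring
        _ ≤ N * κ ^ K1 := Nat.mul_le_mul_right _ hi
    have hkA : κ ^ K1 * A ≤ R := by
      refine le_trans (Nat.mul_le_mul_right _ (Nat.pow_le_pow_left ?_ _)) h5
      omega
    rcases Nat.eq_zero_or_pos R with hR | hR
    · have hpos : 0 < κ ^ K1 := pow_pos h6 _
      have hA : A = 0 := by
        rw [hR] at hkA
        rcases Nat.mul_eq_zero.mp (Nat.le_zero.mp hkA) with h | h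
        · omega
        · exact h
      have hQ0 : Q = ∅ := Finset.card_eq_zero.mp (by omega)
      rw [hQ0, Finset.sum_empty] at hcov
      rw [Nat.le_zero.mp hcov]
      simp
    · refine Nat.le_of_mul_le_mul_right ?_ hR
      calc (F.filter fun b => Kc ∪ U ⊆ b ∧ J ⊆ (b \ Kc).biUnion nb).card * R ^ U.card *
            κ ^ J.card * R
          ≤ (∑ q ∈ Q, c q) * R ^ U.card * κ ^ J.card * R := by gcongr
        _ = ∑ q ∈ Q, c q * R ^ U.card * κ ^ J.card * R := by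
            simp only [Finset.sum_mul]
        _ ≤ ∑ _q ∈ Q, N * κ ^ K1 := Finset.sum_le_sum hterm
        _ = Q.card * (N * κ ^ K1) := by simp
        _ ≤ A * (N * κ ^ K1) := Nat.mul_le_mul_right _ hQA
        _ = N * (κ ^ K1 * A) := by ring
        _ ≤ N * R := Nat.mul_le_mul_left _ hkA

theorem sNs5 : StNs5 := by
  intro P Kc nb F K1 A R R1 κ h1 h2 h3 h4 h5 h7 h6 J1 J2
  rcases ((F.filter fun b => Kc ⊆ b).filter fun b =>
      J1 ⊆ (b \ Kc).biUnion nb ∧ J2 ⊆ b \ Kc).eq_empty_or_nonempty with h0 | ⟨b0, hb0⟩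
  · rw [h0]
    simp
  obtain ⟨hb1, -, hb2⟩ := Finset.mem_filter.mp hb0
  have hP : J2 ⊆ P := hb2.trans (Finset.sdiff_subset.trans (h3 b0 (Finset.mem_filter.mp hb1).1))
  have hd : Disjoint J2 Kc := Finset.disjoint_of_subset_left hb2 Finset.sdiff_disjoint
  have h := main_YNs5 P Kc nb F K1 A R κ h1 h2 h3 h4 h5 h6 _ J2 (J1 \ J2.biUnion nb) le_rfl hd
    Finset.sdiff_disjoint
  have c1 : (J2.biUnion nb).card ≤ J2.card * K1 :=
    Finset.card_biUnion_le_card_mul _ _ _ fun q hq => h1 q (hP hq)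
  have c2 : J1.card ≤ (J1 \ J2.biUnion nb).card + K1 * J2.card := by
    have := Finset.le_card_sdiff (J2.biUnion nb) J1
    rw [mul_comm] at c1
    omega
  have c3 : κ ^ J1.card ≤ κ ^ (J1 \ J2.biUnion nb).card * (κ ^ K1) ^ J2.card := by
    rw [← pow_mul, ← pow_add]
    exact Nat.pow_le_pow_right h6 c2
  have c4 : (κ ^ K1) ^ J2.card * R1 ^ J2.card ≤ R ^ J2.card := by
    rw [← mul_pow]
    exact Nat.pow_le_pow_left h7 _
  have c5 : ((F.filter fun b => Kc ⊆ b).filter fun b =>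
      J1 ⊆ (b \ Kc).biUnion nb ∧ J2 ⊆ b \ Kc).card ≤ (F.filter fun b => Kc ∪ J2 ⊆ b ∧
        J1 \ J2.biUnion nb ⊆ (b \ Kc).biUnion nb).card := by
    refine Finset.card_le_card fun b hb => ?_
    obtain ⟨a1, a2, a3⟩ := Finset.mem_filter.mp hb
    obtain ⟨a4, a5⟩ := Finset.mem_filter.mp a1
    exact Finset.mem_filter.mpr ⟨a4, Finset.union_subset a5 (a3.trans Finset.sdiff_subset),
      Finset.sdiff_subset.trans a2⟩
  refine le_trans ?_ h
  calc _ ≤ (F.filter fun b => Kc ∪ J2 ⊆ b ∧ J1 \ J2.biUnion nb ⊆ (b \ Kc).biUnion nb).card *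
        (κ ^ (J1 \ J2.biUnion nb).card * (κ ^ K1) ^ J2.card) * R1 ^ J2.card := by gcongr
    _ = (F.filter fun b => Kc ∪ J2 ⊆ b ∧ J1 \ J2.biUnion nb ⊆ (b \ Kc).biUnion nb).card *
        ((κ ^ K1) ^ J2.card * R1 ^ J2.card) * κ ^ (J1 \ J2.biUnion nb).card := by ring
    _ ≤ _ := by gcongr

end Pool.Agent.MP_2876a2_nt.Tu.Z

end

noncomputable section
open Finset Filter
open scoped Pointwise


namespace Pool.Agent.MP_2876a2_nt.Tu.Z

theorem up_YBlkA5 (P Kc : Finset ℕ) (F : Finset (Finset ℕ)) (r : ℕ)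
    (hF : F ⊆ P.powersetCard (r + Kc.card)) :
    (F.filter fun b => Kc ⊆ b).card ≤ P.card ^ r := by
  refine le_trans ?_ (Nat.choose_le_pow P.card r)
  rw [← card_powersetCard]
  refine card_le_card_of_injOn (fun b => b \ Kc) (fun b hb => ?_) fun b hb b' hb' e => ?_
  · obtain ⟨h1, h2⟩ := mem_filter.1 (mem_coe.1 hb)
    obtain ⟨h3, h4⟩ := mem_powersetCard.1 (hF h1)
    refine mem_coe.2 (mem_powersetCard.2 ⟨sdiff_subset.trans h3, ?_⟩)
    rw [card_sdiff_of_subset h2, h4]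
    omega
  · have h2 := (mem_filter.1 (mem_coe.1 hb)).2
    have h2' := (mem_filter.1 (mem_coe.1 hb')).2
    have e' : b \ Kc = b' \ Kc := e
    rw [← sdiff_union_of_subset h2, ← sdiff_union_of_subset h2', e']

theorem num_YBlkA5 (M K1 m h L : ℕ) (hM : 2 ≤ M) (hK : 1 ≤ K1) (hm : 32 ≤ m) (hL : m ≤ L)
    (n2 : 4 * M * (M * L) ^ (K1 + 1) ≤ 2 ^ h) : 3232 * M * m * L ^ 2 ≤ 2 ^ (2 * h) := by
  have h1 : (M * L) ^ 2 ≤ (M * L) ^ (K1 + 1) :=
    Nat.pow_le_pow_right (Nat.mul_pos (by omega) (by omega)) (by omega)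
  have h2 : 4 * M * (M * L) ^ 2 ≤ 2 ^ h := (Nat.mul_le_mul_left _ h1).trans n2
  have h3 : 2 ^ 5 ≤ M ^ 5 := Nat.pow_le_pow_left hM 5
  have h4 : 32 * m ≤ L * L := Nat.mul_le_mul (hm.trans hL) hL
  have h5 : 2 ^ 5 * (32 * m) ≤ M ^ 5 * (L * L) := Nat.mul_le_mul h3 h4
  rw [mul_comm 2 h, pow_mul]
  refine le_trans ?_ (Nat.pow_le_pow_left h2 2)
  calc 3232 * M * m * L ^ 2 = 16 * M * L ^ 2 * (202 * m) := by ring
    _ ≤ 16 * M * L ^ 2 * (M ^ 5 * (L * L)) := Nat.mul_le_mul_left _ (by omega)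
    _ = (4 * M * (M * L) ^ 2) ^ 2 := by ring

theorem sBlkA5 (hC : StCore) (hN : StNs5) (hS : StSp5) : StBlkA5 := by
  intro M K1 m h P nb F hM hK1 h2 hm hP hK hA hF hc n1 n2
  obtain ⟨a, ha⟩ : ∃ a, 99 * m = a + 7 * h := ⟨99 * m - 7 * h, by omega⟩
  have e7 : 99 * m - 7 * h = a := by omega
  have e3 : 99 * m - 3 * h = a + 4 * h := by omega
  rw [e7] at hA
  rw [e3] at hc
  obtain ⟨Kc, c1, c2⟩ := hC F (2 ^ (a + 3 * h)) (Nat.one_le_two_pow)
  have c3 := hc.trans c1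
  have hne : (F.filter fun b => Kc ⊆ b).Nonempty := by
    rw [← card_pos]
    refine Nat.pos_of_ne_zero fun e => ?_
    rw [e, zero_mul] at c3
    exact absurd c3 (not_le.2 (by positivity))
  obtain ⟨r, hr⟩ : ∃ r, r + Kc.card = 2 ^ m := by
    obtain ⟨b, hb⟩ := hne
    obtain ⟨h1, h3⟩ := mem_filter.1 hb
    have := card_le_card h3
    rw [(mem_powersetCard.1 (hF h1)).2] at this
    exact ⟨2 ^ m - Kc.card, by omega⟩
  have lo : 2 ^ ((a + 4 * h) * r + h * Kc.card) ≤ (F.filter fun b => Kc ⊆ b).card := by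
    have e : (a + 4 * h) * 2 ^ m = ((a + 4 * h) * r + h * Kc.card) + (a + 3 * h) * Kc.card := by
      rw [← hr]; ring
    rw [e, pow_add, ← pow_mul] at c3
    exact Nat.le_of_mul_le_mul_right c3 (by positivity)
  have up : (F.filter fun b => Kc ⊆ b).card ≤ 2 ^ (100 * m * r) := by
    refine (up_YBlkA5 P Kc F r (by rw [hr]; exact hF)).trans ?_
    rw [pow_mul]
    exact Nat.pow_le_pow_left hP r
  have ex : (a + 4 * h) * r + h * Kc.card ≤ 100 * m * r :=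
    (Nat.pow_le_pow_iff_right (by norm_num)).1 (lo.trans up)
  have hmr : 2 ^ m ≤ m * r := by
    have e1 : 100 * m * r = (a + 4 * h) * r + (3 * h + m) * r := by
      have : 100 * m = (a + 4 * h) + (3 * h + m) := by omega
      rw [this]; ring
    have e2 : h * Kc.card ≤ (3 * h + m) * r := by omega
    have e5 : h * (r + Kc.card) ≤ h * (m * r) := by
      have k1 : (4 * h + m) * r ≤ (h * m) * r :=
        Nat.mul_le_mul_right r (le_trans (by omega) (Nat.mul_le_mul_right m h2))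
      calc h * (r + Kc.card) = h * r + h * Kc.card := by ring
        _ ≤ h * r + (3 * h + m) * r := by omega
        _ = (4 * h + m) * r := by ring
        _ ≤ (h * m) * r := k1
        _ = h * (m * r) := by ring
    rw [← hr]
    exact Nat.le_of_mul_le_mul_left e5 (by omega)
  have sub : ∀ b ∈ F, b ⊆ P := fun b hb => (mem_powersetCard.1 (hF hb)).1
  have n3 : (2 * (16 * M ^ 2 * (m + K1 + 1 + 1) ^ 2)) ^ K1 * 2 ^ a ≤ 2 ^ (a + 3 * h) := by
    have e : 2 * (16 * M ^ 2 * (m + K1 + 1 + 1) ^ 2) = 32 * M ^ 2 * (m + (K1 + 1) + 1) ^ 2 := by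
      ring
    rw [e, pow_add 2 a, mul_comm (2 ^ a)]
    exact Nat.mul_le_mul_right _
      ((Nat.pow_le_pow_right (by positivity) (Nat.le_succ K1)).trans n1)
  have spr := hN P Kc nb F K1 (2 ^ a) (2 ^ (a + 3 * h)) (2 ^ a)
    (16 * M ^ 2 * (m + K1 + 1 + 1) ^ 2) hK hA sub c2 n3
    (le_trans (Nat.mul_le_mul_right _ (Nat.pow_le_pow_left (by omega) K1)) n3)
    (Nat.succ_le_of_lt (by positivity))
  obtain ⟨χ, hχ⟩ := hS (Finset ℕ) (F.filter fun b => Kc ⊆ b) (fun b => (b \ Kc).biUnion nb)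
    (fun b => b \ Kc) M (m + K1 + 1) (2 ^ a) (2 ^ (98 * m - 9 * h)) hM hne (by
      intro b hb
      obtain ⟨h1, h3⟩ := mem_filter.1 hb
      have e : (b \ Kc).card = r := by
        rw [card_sdiff_of_subset h3, (mem_powersetCard.1 (hF h1)).2]
        omega
      have k1 : ((b \ Kc).biUnion nb).card ≤ (b \ Kc).card * K1 :=
        card_biUnion_le_card_mul _ _ K1 fun q hq => hK q (sub b h1 (sdiff_subset hq))
      have k2 : r * (K1 + 1) < 2 ^ m * 2 ^ (K1 + 1) :=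
        (Nat.mul_le_mul_right _ (by omega : r ≤ 2 ^ m)).trans_lt
          (Nat.mul_lt_mul_of_pos_left Nat.lt_two_pow_self (by positivity))
      rw [← pow_add, mul_add, mul_one] at k2
      rw [e] at k1 ⊢
      exact lt_of_le_of_lt (by omega) k2) spr Nat.one_le_two_pow (by
      have k0 := num_YBlkA5 M K1 m h (m + (K1 + 1) + 1) hM hK1 (by omega) (by omega) n2
      have k1 : Real.log (F.filter fun b => Kc ⊆ b).card ≤ ((100 * m * r : ℕ) : ℝ) := by
        have p0 : (0 : ℝ) < (F.filter fun b => Kc ⊆ b).card := by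
          exact_mod_cast card_pos.2 hne
        have p1 : ((F.filter fun b => Kc ⊆ b).card : ℝ) ≤ 2 ^ (100 * m * r) := by
          exact_mod_cast up
        refine (Real.log_le_log p0 p1).trans ?_
        rw [Real.log_pow]
        exact mul_le_of_le_one_right (Nat.cast_nonneg _) (by linarith [Real.log_two_lt_d9])
      have k2 : 1 + 100 * m * r ≤ 101 * m * 2 ^ m := by
        have p0 : 100 * m * r ≤ 100 * m * 2 ^ m := Nat.mul_le_mul_left _ (by omega)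
        have p1 : 0 < m * 2 ^ m := Nat.mul_pos (by omega) (by positivity)
        have p2 : 101 * m * 2 ^ m = 100 * m * 2 ^ m + m * 2 ^ m := by ring
        omega
      have k3 : 32 * M * (m + K1 + 1 + 1) ^ 2 * 2 ^ (98 * m - 9 * h) * (1 + 100 * m * r) ≤
          2 ^ a := by
        have p0 : a = 2 * h + (98 * m - 9 * h + m) := by omega
        rw [p0, pow_add 2 (2 * h), pow_add 2 _ m]
        refine (Nat.mul_le_mul_left _ k2).trans ?_
        refine le_trans (le_of_eq ?_) (Nat.mul_le_mul_right _ k0)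
        ring
      have k4 := (Nat.cast_le (α := ℝ)).2 k3
      refine le_trans ?_ k4
      push_cast at k1 ⊢
      exact mul_le_mul_of_nonneg_left (by linarith) (by positivity))
  choose! F' f1 f2 f3 f4 using hχ
  exact ⟨Kc, χ, r, F', hr, hmr, fun i hi => ⟨(f1 i hi).trans (filter_subset _ _), f2 i hi,
    fun b hb => ⟨(mem_filter.1 (f1 i hi hb)).2, f3 i hi b hb⟩, f4 i hi⟩⟩

end Pool.Agent.MP_2876a2_nt.Tu.Z

end

noncomputable section
open Finset Filter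
open scoped Pointwise


namespace Pool.Agent.MP_2876a2_nt.Tu.Z

theorem sig_YAsm5 (V : Finset ℕ) (hV : ∀ p ∈ V, p.Prime) :
    sg (∏ p ∈ V, p) = ∏ p ∈ V, (p + 1) := by
  have h := ArithmeticFunction.IsMultiplicative.map_prod_of_prime
    (ArithmeticFunction.isMultiplicative_sigma (k := 1)) V hV
  rw [show sg (∏ p ∈ V, p) = ∏ p ∈ V, sg p from h]
  refine prod_congr rfl fun p hp => ?_
  have := ArithmeticFunction.sigma_one_apply_prime_pow (i := 1) (hV p hp)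
  simpa [sum_range_succ, add_comm] using this

theorem sqf_YAsm5 (V : Finset ℕ) (hV : ∀ p ∈ V, p.Prime) : Squarefree (∏ p ∈ V, p) :=
  Finset.squarefree_prod_of_pairwise_isCoprime
    (fun _ hp _ hq hpq => Nat.coprime_iff_isRelPrime.1
      ((Nat.coprime_primes (hV _ hp) (hV _ hq)).2 hpq))
    fun p hp => (hV p hp).squarefree

theorem dq_pos_YAsm5 (hD : StDiv) (z q : ℕ) (hq : q.Prime) : 0 < Dq z q := by
  have h := hD z q hq
  have h1 : 0 < (∏ p ∈ nd z q, (p + 1)) * q :=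
    Nat.mul_pos (prod_pos fun p _ => Nat.succ_pos p) hq.pos
  rw [h] at h1
  exact Nat.pos_of_mul_pos_right h1

theorem key_YAsm5 (hD : StDiv) (z : ℕ) (c : Finset ℕ) (hc : ∀ q ∈ c, q.Prime) (hd : PD (nd z) c) :
    sg (∏ p ∈ c.biUnion (nd z), p) * ∏ q ∈ c, q =
      (∏ q ∈ c, Dq z q) * ∏ p ∈ c.biUnion (nd z), p := by
  have hpd : Set.PairwiseDisjoint (c : Set ℕ) (nd z) := fun q hq q' hq' h => hd q hq q' hq' h
  rw [sig_YAsm5 _ fun p hp => by
    obtain ⟨q, hq, hp⟩ := mem_biUnion.1 hp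
    exact prime_nd (hc q hq) hp]
  rw [prod_biUnion hpd, prod_biUnion hpd, ← prod_mul_distrib, ← prod_mul_distrib]
  exact prod_congr rfl fun q hq => hD z q (hc q hq)

theorem sAsm5 (hD : StDiv) : StAsm5 := by
  intro z s0 M P Kc F χ hP hF
  have hU : ∀ p ∈ P.biUnion (nd z), p.Prime := fun p hp => by
    obtain ⟨q, hq, hp⟩ := mem_biUnion.1 hp
    exact prime_nd (hP q hq) hp
  have hUi : ∀ i, ∀ p ∈ (P.biUnion (nd z)).filter (fun p => χ p = i), p.Prime :=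
    fun i p hp => hU p (mem_filter.1 hp).1
  refine ⟨fun i => ∏ p ∈ (P.biUnion (nd z)).filter (fun p => χ p = i), p,
    s0 / ∏ q ∈ Kc, Dq z q, fun i i' hii => ?_, fun i hi => ⟨sqf_YAsm5 _ (hUi i), ?_, ?_, ?_⟩⟩
  · refine Nat.Coprime.prod_left fun p hp => Nat.Coprime.prod_right fun p' hp' => ?_
    refine (Nat.coprime_primes (hUi i p hp) (hUi i' p' hp')).2 fun h => hii ?_
    rw [← (mem_filter.1 hp).2, ← (mem_filter.1 hp').2, h]
  · rw [Nat.primeFactors_prod (hUi i)]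
    exact filter_subset _ _
  · refine card_image_of_injOn fun b hb b' hb' h => ?_
    obtain ⟨h2, h1, -⟩ := hF i hi b (mem_coe.1 hb)
    obtain ⟨h2', h1', -⟩ := hF i hi b' (mem_coe.1 hb')
    have e : b \ Kc = b' \ Kc := by
      rw [← Nat.primeFactors_prod (s := b \ Kc) fun p hp => hP p (h1 (mem_sdiff.1 hp).1),
        ← Nat.primeFactors_prod (s := b' \ Kc) fun p hp => hP p (h1' (mem_sdiff.1 hp).1)]
      exact congrArg Nat.primeFactors h
    rw [← sdiff_union_of_subset h2, ← sdiff_union_of_subset h2', e]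
  · intro b hb
    obtain ⟨h2, hbP, hpd, hs, h3⟩ := hF i hi b hb
    have hc : ∀ q ∈ b \ Kc, q.Prime := fun q hq => hP q (hbP (mem_sdiff.1 hq).1)
    have hs' : ∏ q ∈ b \ Kc, Dq z q = s0 / ∏ q ∈ Kc, Dq z q := by
      rw [← hs, ← prod_sdiff h2, Nat.mul_div_cancel _
        (prod_pos fun q hq => dq_pos_YAsm5 hD z q (hP q (hbP (h2 hq))))]
    refine ⟨hs', ∏ p ∈ (b \ Kc).biUnion (nd z), p, ?_, ?_, ?_⟩
    · exact prod_dvd_prod_of_subset _ _ _ fun q hq => mem_biUnion.2 ⟨q, hq, self_mem_nd z q⟩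
    · refine prod_dvd_prod_of_subset _ _ _ fun p hp => mem_filter.2 ⟨?_, h3 p hp⟩
      exact biUnion_subset_biUnion_of_subset_left _ (sdiff_subset.trans hbP) hp
    · rw [← hs']
      exact key_YAsm5 hD z _ hc fun q hq q' hq' h =>
        hpd q (mem_sdiff.1 hq).1 q' (mem_sdiff.1 hq').1 h

end Pool.Agent.MP_2876a2_nt.Tu.Z

end

noncomputable section
open Finset Filter
open scoped Pointwise


namespace Pool.Agent.MP_2876a2_nt.Tu.Z

theorem sub_YSpr1 {S : Finset ℕ} (hS : ∀ q ∈ S, q.Prime) {d : ℕ} (hd : d ∣ ∏ q ∈ S, q) :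
    d.primeFactors ⊆ S := by
  intro p hp
  have h := Nat.prime_of_mem_primeFactors hp
  obtain ⟨q, hq, hpq⟩ := (h.prime.dvd_finsetProd_iff _).1
    ((Nat.dvd_of_mem_primeFactors hp).trans hd)
  rwa [(Nat.prime_dvd_prime_iff_eq h (hS q hq)).1 hpq]

theorem sqf_YSpr1 (S : Finset ℕ) (hS : ∀ q ∈ S, q.Prime) : Squarefree (∏ q ∈ S, q) := by
  refine Finset.squarefree_prod_of_pairwise_isCoprime (fun p hp q hq hpq => ?_)
    fun q hq => (hS q hq).squarefree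
  exact Nat.coprime_iff_isRelPrime.1 ((Nat.coprime_primes (hS p hp) (hS q hq)).2 hpq)

theorem sSpr1 : StSpr1 := by
  intro F Kc R X hF hcard hJ hX d
  rcases ((F.image fun b => ∏ q ∈ b \ Kc, q).filter fun b => d ∣ b).eq_empty_or_nonempty with
    he | ⟨a, ha⟩
  · rw [he, card_empty, zero_pow (by norm_num), zero_mul]
    exact Nat.zero_le _
  obtain ⟨ha1, ha2⟩ := mem_filter.1 ha
  obtain ⟨b0, hb0, rfl⟩ := mem_image.1 ha1
  have hp0 : ∀ q ∈ b0 \ Kc, q.Prime := fun q hq => (hF b0 hb0 q hq).1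
  have hsub := sub_YSpr1 hp0 ha2
  have hsq : Squarefree d := (sqf_YSpr1 _ hp0).squarefree_of_dvd ha2
  have hd : d ≤ X ^ d.primeFactors.card := by
    conv_lhs => rw [← Nat.prod_primeFactors_of_squarefree hsq]
    exact prod_le_pow_card _ _ _ fun q hq => (hF b0 hb0 q (hsub hq)).2
  have h1 : ((F.image fun b => ∏ q ∈ b \ Kc, q).filter fun b => d ∣ b).card ≤
      (F.filter fun b => d.primeFactors ⊆ b \ Kc).card := by
    refine le_trans (card_le_card (t := (F.filter fun b => d.primeFactors ⊆ b \ Kc).image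
      fun b => ∏ q ∈ b \ Kc, q) fun a ha => ?_) card_image_le
    obtain ⟨h1, h2⟩ := mem_filter.1 ha
    obtain ⟨b, hb, rfl⟩ := mem_image.1 h1
    exact mem_image.2 ⟨b, mem_filter.2 ⟨hb, sub_YSpr1 (fun q hq => (hF b hb q hq).1) h2⟩, rfl⟩
  have h2 := hJ d.primeFactors
  rw [hcard]
  generalize ((F.image fun b => ∏ q ∈ b \ Kc, q).filter fun b => d ∣ b).card = u at *
  generalize (F.filter fun b => d.primeFactors ⊆ b \ Kc).card = v at *
  generalize d.primeFactors.card = m at *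
  have h3 : d ^ 19 ≤ (R ^ m) ^ 20 :=
    calc d ^ 19 ≤ (X ^ m) ^ 19 := Nat.pow_le_pow_left hd 19
      _ = (X ^ 19) ^ m := by rw [← pow_mul, ← pow_mul, mul_comm]
      _ ≤ (R ^ 20) ^ m := Nat.pow_le_pow_left hX m
      _ = (R ^ m) ^ 20 := by rw [← pow_mul, ← pow_mul, mul_comm]
  calc u ^ 20 * d ^ 19 ≤ v ^ 20 * (R ^ m) ^ 20 := Nat.mul_le_mul (Nat.pow_le_pow_left h1 20) h3
    _ = (v * R ^ m) ^ 20 := (mul_pow _ _ _).symm
    _ ≤ F.card ^ 20 := Nat.pow_le_pow_left h2 20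

end Pool.Agent.MP_2876a2_nt.Tu.Z

end

noncomputable section
open Finset Filter
open scoped Pointwise


namespace Pool.Agent.MP_2876a2_nt.Tu.Z

theorem sBlk5 (hF : StFib) (hZ : StAz) (hC : StCard) (hA : StBlkA5) (hS : StAsm5) (hN : StNumZ)
    (hz : StSz) (hp : StSpr1) : StBlk5 := by
  intro M K g hM hg
  filter_upwards [tendsto_lev.eventually (hF K g hg), tendsto_lev.eventually (hZ K g hg),
    hN M (102 ^ K + 1) g (by omega)] with j h1 h2 h3
  intro P hP hPc hR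
  obtain ⟨n1, n2, n3, n4', n5⟩ := h3
  have n4 := (Nat.mul_le_mul_right (j ^ 2) (Nat.le_succ (102 ^ K))).trans n4'
  have h16 : 16 * (lev j / g) ≤ lev j :=
    (Nat.mul_le_mul_right _ hg).trans (Nat.mul_div_le _ _)
  have hm : 32 ≤ lev j := by omega
  have hj : 1 ≤ j := by
    have := le_lev.1 (show 1 ≤ lev j by omega)
    simpa using this
  have hhi : ∀ q ∈ P, q < 2 ^ (101 * lev j) := by
    intro q hq
    calc q ≤ 2 * 2 ^ (100 * lev j) := (hP q hq).hi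
      _ = 2 ^ (100 * lev j + 1) := by rw [pow_succ, mul_comm]
      _ < 2 ^ (101 * lev j) := Nat.pow_lt_pow_right (by norm_num) (by omega)
  have hcard : P.card ≤ 2 ^ (100 * lev j) := by
    have hs : P ⊆ Ioc (2 ^ (100 * lev j)) (2 * 2 ^ (100 * lev j)) := fun q hq =>
      mem_Ioc.2 ⟨(hP q hq).lo, (hP q hq).hi⟩
    have := card_le_card hs
    rw [Nat.card_Ioc] at this
    omega
  have hnb : ∀ q ∈ P, (nd (2 ^ lev j) q).card ≤ 102 ^ K := by
    intro q hq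
    refine hC K _ q ?_ ?_ (hP q hq).sh
    · exact Nat.le_self_pow (by omega) 2
    · rw [← pow_mul, mul_comm]
      exact hhi q hq
  obtain ⟨F, s0, hF1, hF2, hF3⟩ := h1 P hP hPc
  obtain ⟨Kc, χ, r, F', hr1, hr2, hr3⟩ := hA M (102 ^ K) (lev j) (lev j / g) P (nd (2 ^ lev j)) F
    hM (Nat.one_le_pow _ _ (by norm_num)) n1 h16 hcard hnb (h2 P hP) hF1 hF2 n2 n3
  have hFb : ∀ b ∈ F, b ⊆ P ∧ b.card = 2 ^ lev j := fun b hb => mem_powersetCard.1 (hF1 hb)
  obtain ⟨N, s, hco, hB⟩ := hS (2 ^ lev j) s0 M P Kc F' χ (fun q hq => (hP q hq).prime)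
    fun i hi b hb => ⟨((hr3 i hi).2.2.1 b hb).1, (hFb b ((hr3 i hi).1 hb)).1,
      (hF3 b ((hr3 i hi).1 hb)).1, (hF3 b ((hr3 i hi).1 hb)).2, ((hr3 i hi).2.2.1 b hb).2⟩
  have hr0 : 1 ≤ r := by
    rcases Nat.eq_zero_or_pos r with rfl | h
    · have := Nat.two_pow_pos (lev j)
      omega
    · exact h
  have hrle : r ≤ 2 ^ lev j := by omega
  refine ⟨fun i => (F' i).image fun b => ∏ q ∈ b \ Kc, q, N, s, r, hr0, hco, fun i hi => ?_⟩
  obtain ⟨b1, b2, b3, b4⟩ := hB i hi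
  obtain ⟨c1, ⟨b0, hb0⟩, c3, c4⟩ := hr3 i hi
  have hsub : ∀ b ∈ F' i, b \ Kc ⊆ P := fun b hb => sdiff_subset.trans (hFb b (c1 hb)).1
  have hc : ∀ b ∈ F' i, (b \ Kc).card = r := fun b hb => by
    have e1 := card_sdiff_add_card_eq_card (c3 b hb).1
    have e2 := (hFb b (c1 hb)).2
    omega
  have hx : ∀ x ∈ (F' i).image fun b => ∏ q ∈ b \ Kc, q,
      x.primeFactors.card = r ∧ x.primeFactors ⊆ P ∧
      2 ^ (100 * lev j * r) ≤ s ∧ s ≤ 2 ^ ((100 * lev j + 3) * r) ∧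
      (s : ℝ) ≤ Real.exp (1 / (j : ℝ) ^ 2) * x ∧ wt x ≤ Real.exp (1 / (j : ℝ) ^ 2) ∧
      ∃ n, x ∣ n ∧ n ∣ N i ∧ sg n * x = s * n := by
    intro x hx
    obtain ⟨b, hb, rfl⟩ := mem_image.1 hx
    obtain ⟨z1, z2, z3, z4, z5⟩ := hz K g (lev j) j r (b \ Kc) (by omega) hj
      (fun q hq => hP q (hsub b hb hq)) (hc b hb) hrle n4 n5
    rw [(b4 b hb).1] at z2 z3 z4
    exact ⟨by rw [z1, hc b hb], by rw [z1]; exact hsub b hb, z2, z3, z4, z5, (b4 b hb).2⟩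
  have hbig : 2 ^ ((98 * lev j - 9 * (lev j / g)) * r) ≤
      ((F' i).image fun b => ∏ q ∈ b \ Kc, q).card := by
    have e := c4 (b0 \ Kc)
    rw [hc b0 hb0, ← pow_mul] at e
    rw [b3]
    refine (Nat.le_mul_of_pos_left _ (card_pos.2 ⟨b0, ?_⟩)).trans e
    exact mem_filter.2 ⟨hb0, Subset.refl _⟩
  have hx0 := mem_image_of_mem (fun b => ∏ q ∈ b \ Kc, q) hb0
  obtain ⟨-, -, s1, s2, -, -⟩ := hx _ hx0
  refine ⟨⟨⟨⟨b1, ⟨_, hx0⟩, fun x h => (hx x h).2.2.2.2.2.2, ?_⟩, ?_,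
    fun x h => (hx x h).2.2.2.2.1, fun x h => (hx x h).2.2.2.2.2.1, ?_, ?_⟩,
    hp (F' i) Kc _ (2 ^ (100 * lev j + 1)) (fun b hb q hq => ⟨(hP q (hsub b hb hq)).prime,
      (hP q (hsub b hb hq)).hi.trans_eq (by rw [pow_succ, mul_comm])⟩) b3 c4 ?_⟩,
    b2, fun x h => ⟨(hx x h).1, (hx x h).2.1⟩⟩
  · calc s ^ 97 ≤ (2 ^ ((100 * lev j + 3) * r)) ^ 97 := Nat.pow_le_pow_left s2 _
      _ = 2 ^ ((100 * lev j + 3) * 97 * r) := by rw [← pow_mul, mul_right_comm]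
      _ ≤ 2 ^ ((98 * lev j - 9 * (lev j / g)) * 100 * r) :=
        Nat.pow_le_pow_right (by norm_num) (Nat.mul_le_mul_right _ (by omega))
      _ = (2 ^ ((98 * lev j - 9 * (lev j / g)) * r)) ^ 100 := by rw [← pow_mul, mul_right_comm]
      _ ≤ _ := Nat.pow_le_pow_left hbig _
  · intro p hp
    obtain ⟨q, hq, hpq⟩ := mem_biUnion.1 (b2 hp)
    refine ⟨lt_of_le_of_lt (Nat.pow_le_pow_right (by norm_num) (Nat.le_add_right _ _))
      ((hP q hq).gap p hpq), (le_of_mem_nd hpq).trans (hhi q hq).le, hR q hq p hpq⟩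
  · refine le_trans (Nat.pow_le_pow_right (by norm_num) (hr2.trans ?_)) s1
    exact Nat.mul_le_mul_right _ (by omega)
  · refine s2.trans (Nat.pow_le_pow_right (by norm_num) ?_)
    exact Nat.mul_le_mul (by omega) hrle
  · rw [← pow_mul, ← pow_mul]
    exact Nat.pow_le_pow_right (by norm_num) (by omega)

end Pool.Agent.MP_2876a2_nt.Tu.Z

end

noncomputable section
open Finset Filter
open scoped Pointwise


namespace Pool.Agent.MP_2876a2_nt.Tu.Z

theorem sAdm5 (hN : StNice) (h1 : StPo1) (h2 : StPo2) (hB : StBlk5) : StAdm5 := by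
  classical
  intro M G ρ hM hG hρ
  obtain ⟨K, g, hg, hn⟩ := hN G ρ hG hρ
  filter_upwards [tendsto_lev.eventually hn, tendsto_lev.eventually (h1 K g),
    tendsto_lev.eventually (h2 K g (by omega)), hB M K g hM hg] with j a1 a2 a3 a4
  intro Φ hΦ
  obtain ⟨Q', hQ', b1, b2⟩ := a2 _ Φ (fun q hq => (mem_filter.1 hq).2) a1 hΦ
  obtain ⟨P, hP, c1, c2⟩ := a3 Q' (fun q hq => (mem_filter.1 (hQ' hq)).2) b1
  obtain ⟨B, N, s, r, d1, d2, d3⟩ := a4 P (fun q hq => (mem_filter.1 (hQ' (hP hq))).2) c1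
    fun q hq p hp => (b2 q (hP hq) p hp).2
  refine ⟨B, N, s, r, P.biUnion (nd (2 ^ lev j)), c2, ?_, d1, d2, fun i hi => ?_⟩
  · refine disjoint_left.2 fun p hp => ?_
    obtain ⟨q, hq, hp⟩ := mem_biUnion.1 hp
    exact (b2 q (hP hq) p hp).1
  · obtain ⟨e1, e2, e3⟩ := d3 i hi
    exact ⟨e1, e2, fun b hb => ⟨(e3 b hb).1, fun p hp =>
      (mem_filter.1 (mem_filter.1 (hQ' (hP ((e3 b hb).2 hp)))).1).2⟩⟩

end Pool.Agent.MP_2876a2_nt.Tu.Z

end

noncomputable section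
open Finset Filter
open scoped Pointwise


namespace Pool.Agent.MP_2876a2_nt.Tu.Z

/-- the data chosen at one scale -/
abbrev Dt_YExt5 : Type := (ℕ → Finset ℕ) × (ℕ → ℕ) × ℕ × ℕ × Finset ℕ

def Good_YExt5 (M j0 t : ℕ) (a : Dt_YExt5) : Prop := Out (lev (j0 + t)) a.2.2.2.2 ∧
  (∀ i i', i ≠ i' → (a.2.1 i).Coprime (a.2.1 i')) ∧
  ∀ i < M, (B1 (j0 + t) (a.1 i) (a.2.1 i) a.2.2.1 ∧ Spr (a.1 i)) ∧
    (a.2.1 i).primeFactors ⊆ a.2.2.2.2

def Cls_YExt5 (M π : ℕ) (G ρ : ℕ → ℕ) (t : ℕ) (a : Dt_YExt5) : Prop := π ∉ a.2.2.2.2 ∧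
  1 ≤ a.2.2.2.1 ∧ ∀ i < M, ∀ b ∈ a.1 i, b.primeFactors.card = a.2.2.2.1 ∧
    ∀ p ∈ b.primeFactors, p ≡ ρ t [MOD G t]

def Rel_YExt5 (a a' : Dt_YExt5) : Prop := Disjoint a.2.2.2.2 a'.2.2.2.2

theorem step_YExt5 {M j0 t π : ℕ} {G ρ : ℕ → ℕ}
    (hT : ∀ (t π : ℕ) (Ψ : ℕ → Finset ℕ), (∀ t' < t, Out (lev (j0 + t')) (Ψ t')) →
      Tol (lev (j0 + t)) (insert π ((range t).biUnion Ψ)))
    (hA : Adm5 M (j0 + t) (G t) (ρ t)) (x : ℕ → Dt_YExt5)
    (hx : ∀ t' < t, Good_YExt5 M j0 t' (x t')) :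
    ∃ a, Good_YExt5 M j0 t a ∧ Cls_YExt5 M π G ρ t a ∧ ∀ t' < t, Rel_YExt5 (x t') a := by
  obtain ⟨B, N, s, r, Ψ, h1, h2, h3, h4, h5⟩ :=
    hA _ (hT t π (fun t' => (x t').2.2.2.2) fun t' ht' => (hx t' ht').1)
  refine ⟨(B, N, s, r, Ψ), ⟨h1, h4, fun i hi => ⟨(h5 i hi).1, (h5 i hi).2.1⟩⟩,
    ⟨fun hπ => ?_, h3, fun i hi => (h5 i hi).2.2⟩, fun t' ht' => ?_⟩
  · exact disjoint_left.1 h2 hπ (mem_insert_self _ _)
  · refine disjoint_left.2 fun p hp hp' => disjoint_left.1 h2 hp' ?_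
    exact mem_insert_of_mem (mem_biUnion.2 ⟨t', mem_range.2 ht', hp⟩)

theorem sm_YExt5 {M j0 : ℕ} (x : ℕ → Dt_YExt5) (hG : ∀ t, Good_YExt5 M j0 t (x t))
    (hR : ∀ t, ∀ t' < t, Rel_YExt5 (x t') (x t)) :
    SM M j0 (fun i t => (x t).1 i) (fun i t => (x t).2.1 i) fun t => (x t).2.2.1 := by
  have key : ∀ i < M, ∀ i' < M, ∀ t t', t ≠ t' → ((x t).2.1 i).Coprime ((x t').2.1 i') := by
    intro i hi i' hi' t t' h
    have h1 := (hG t).2.2 i hi
    have h2 := (hG t').2.2 i' hi'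
    rw [← Nat.disjoint_primeFactors h1.1.1.blk.sqf.ne_zero h2.1.1.blk.sqf.ne_zero]
    refine Disjoint.mono h1.2 h2.2 ?_
    rcases lt_or_gt_of_ne h with h | h
    · exact hR t' t h
    · exact (hR t t' h).symm
  refine ⟨fun i hi => ⟨fun t => ((hG t).2.2 i hi).1.1, fun t t' h => key i hi i hi t t' h⟩,
    fun i hi i' hi' hii t t' => ?_⟩
  by_cases h : t = t'
  · subst h
    exact (hG t).2.1 i i' hii
  · exact key i hi i' hi' t t' h

theorem sExt5 (hA : StAdm5) (hT : StTol) (hD : StDC) : StExt5 := by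
  intro M hM
  have h1 := eventually_forall_ge_atTop.2 (hA M 1 0 hM one_pos (Nat.coprime_one_right 0))
  filter_upwards [h1, hT] with j0 hj hTj
  obtain ⟨x, -, hxG, hxQ⟩ := hD Dt_YExt5 (Good_YExt5 M j0) (Cls_YExt5 M 0 (fun _ => 1) fun _ => 0)
    Rel_YExt5 (fun _ => (fun _ => ∅, fun _ => 0, 0, 0, ∅)) 0
    (fun t ht => absurd ht (Nat.not_lt_zero t))
    fun t _ x hx => step_YExt5 hTj (hj _ (Nat.le_add_right _ _)) x hx
  have hxR : ∀ t, ∀ t' < t, Rel_YExt5 (x t') (x t) := fun t => (hxQ t (Nat.zero_le t)).2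
  refine ⟨_, _, _, sm_YExt5 x hxG hxR, fun t2 π G ρ hG => ?_⟩
  obtain ⟨y, hy0, hyG, hyQ⟩ := hD Dt_YExt5 (Good_YExt5 M j0) (Cls_YExt5 M π G ρ) Rel_YExt5 x t2
    (fun t _ => hxG t) fun t ht x hx => step_YExt5 hTj (hG t ht) x hx
  have hyR : ∀ t, ∀ t' < t, Rel_YExt5 (y t') (y t) := by
    intro t t' h
    rcases lt_or_ge t t2 with ht | ht
    · rw [hy0 t ht, hy0 t' (h.trans ht)]
      exact hxR t t' h
    · exact (hyQ t ht).2 t' h
  refine ⟨_, _, _, fun t => (y t).2.2.2.1, sm_YExt5 y hyG hyR,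
    fun i hi t => ((hyG t).2.2 i hi).1.2, fun t ht => ?_, fun t ht => ?_⟩
  · simp only [hy0 t ht, implies_true, and_self]
  · obtain ⟨⟨q1, q2, q3⟩, -⟩ := hyQ t ht
    exact ⟨q2, fun i hi => ⟨fun h => q1 (((hyG t).2.2 i hi).2 h), q3 i hi⟩⟩

end Pool.Agent.MP_2876a2_nt.Tu.Z

end

noncomputable section
open Finset Filter
open scoped Pointwise


namespace Pool.Agent.MP_2876a2_nt.Tu.Z

theorem mul_YSprP {B B' : Finset ℕ} {N N' : ℕ} (hd1 : ∀ b ∈ B, b ∣ N) (hd2 : ∀ b ∈ B', b ∣ N')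
    (hc : N.Coprime N') (hcard : (B * B').card = B.card * B'.card) (h : Spr B) (h' : Spr B') :
    Spr (B * B') := by
  intro d
  rcases ((B * B').filter fun b => d ∣ b).eq_empty_or_nonempty with he | ⟨a, ha⟩
  · rw [he]; simp
  · obtain ⟨ha, hd⟩ := mem_filter.1 ha
    obtain ⟨b, hb, b', hb', rfl⟩ := mem_mul.1 ha
    have e : d.gcd N * d.gcd N' = d := by
      rw [← Nat.Coprime.gcd_mul d hc]
      exact Nat.gcd_eq_left (hd.trans (mul_dvd_mul (hd1 b hb) (hd2 b' hb')))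
    have hs : ((B * B').filter fun b => d ∣ b) ⊆
        (B.filter fun b => d.gcd N ∣ b) * (B'.filter fun b => d.gcd N' ∣ b) := fun x hx => by
      obtain ⟨hx, hdx⟩ := mem_filter.1 hx
      obtain ⟨c, hc1, c', hc2, rfl⟩ := mem_mul.1 hx
      refine mul_mem_mul (mem_filter.2 ⟨hc1, ?_⟩) (mem_filter.2 ⟨hc2, ?_⟩)
      · exact Nat.Coprime.dvd_of_dvd_mul_right (Nat.Coprime.coprime_dvd_right (hd2 c' hc2)
          (hc.coprime_dvd_left (Nat.gcd_dvd_right _ _))) ((Nat.gcd_dvd_left _ _).trans hdx)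
      · exact Nat.Coprime.dvd_of_dvd_mul_left (Nat.Coprime.coprime_dvd_right (hd1 c hc1)
          (hc.symm.coprime_dvd_left (Nat.gcd_dvd_right _ _))) ((Nat.gcd_dvd_left _ _).trans hdx)
    have h1 := Nat.pow_le_pow_left ((card_le_card hs).trans card_mul_le) 20
    have h2 : d ^ 19 ≤ (d.gcd N * d.gcd N') ^ 19 := Nat.pow_le_pow_left e.ge 19
    calc _ ≤ ((B.filter fun b => d.gcd N ∣ b).card * (B'.filter fun b => d.gcd N' ∣ b).card) ^ 20 *
          (d.gcd N * d.gcd N') ^ 19 := Nat.mul_le_mul h1 h2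
      _ = ((B.filter fun b => d.gcd N ∣ b).card ^ 20 * d.gcd N ^ 19) *
          ((B'.filter fun b => d.gcd N' ∣ b).card ^ 20 * d.gcd N' ^ 19) := by
        rw [mul_pow, mul_pow, mul_mul_mul_comm]
      _ ≤ B.card ^ 20 * B'.card ^ 20 := Nat.mul_le_mul (h _) (h' _)
      _ = _ := by rw [hcard, mul_pow]

theorem one_YSprP : Spr (1 : Finset ℕ) := by
  intro d
  by_cases hd : d = 1
  · subst hd
    simp
  · have : ((1 : Finset ℕ).filter fun b => d ∣ b) = ∅ := by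
      refine filter_eq_empty_iff.2 fun b hb => ?_
      rw [mem_one.1 hb, Nat.dvd_one]
      exact hd
    rw [this]
    simp

theorem sSprP (hP : StProd) (hM : StMul) : StSprP := by
  intro j0 B N s hj H hS I
  induction I using Finset.induction_on with
  | empty =>
    rw [prod_empty]
    exact one_YSprP
  | insert i I hi ih =>
    rw [prod_insert hi]
    have hb := (hP j0 B N s hj H 0 I fun t _ => Nat.zero_le t).1
    have hc : (N i).Coprime (∏ t ∈ I, N t) :=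
      Nat.Coprime.prod_right fun j hj => H.cop i j fun e => hi (e ▸ hj)
    exact mul_YSprP (H.one i).blk.dvd hb.dvd hc (hM _ _ _ _ _ _ (H.one i).blk hb hc).2.1 (hS i) ih

end Pool.Agent.MP_2876a2_nt.Tu.Z

end

noncomputable section
open Finset Filter
open scoped Pointwise


namespace Pool.Agent.MP_2876a2_nt.Tu.Z

theorem root_YEg {x y : ℝ} {k : ℕ} (hk : k ≠ 0) (hx : 0 ≤ x) (hy : 0 ≤ y) (h : x ^ k ≤ y) :
    x ≤ y ^ (1 / (k : ℝ)) := by
  refine (pow_le_pow_iff_left₀ hx (Real.rpow_nonneg hy _) hk).1 ?_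
  rwa [one_div, Real.rpow_inv_natCast_pow hy hk]

theorem div_YEg {g : ℕ} (hg : Squarefree g) (hp : ∀ p ∈ g.primeFactors, 2 ^ 50 ≤ p) :
    g.divisors.card ^ 50 ≤ g := by
  rw [Nat.card_divisors hg.ne_zero, ← prod_pow]
  refine le_trans (prod_le_prod' fun p h => ?_) (Nat.prod_primeFactors_of_squarefree hg).le
  refine le_trans (Nat.pow_le_pow_left ?_ 50) (hp p h)
  exact Nat.succ_le_succ (hg.natFactorization_le_one p)

theorem gen_YEg {A : Finset ℕ} {n q : ℕ} (hn : Squarefree n) (hA : ∀ b ∈ A, b ∣ n) (hS : Spr A)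
    (hp : ∀ p ∈ n.primeFactors, 2 ^ 50 ≤ p) (hq : 0 < q) :
    ∑ b ∈ A, ((Nat.gcd q b : ℕ) : ℝ) ≤ (q : ℝ) ^ (7 / 100 : ℝ) * A.card := by
  have g0 : Nat.gcd q n ≠ 0 := (Nat.gcd_pos_of_pos_left n hq).ne'
  have gq : Nat.gcd q n ≤ q := Nat.gcd_le_left n hq
  have q0 : (0 : ℝ) < q := by exact_mod_cast hq
  have h1 : ∑ b ∈ A, ((Nat.gcd q b : ℕ) : ℝ) ≤
      ∑ b ∈ A, ∑ d ∈ (Nat.gcd q n).divisors, if d ∣ b then (d : ℝ) else 0 := by
    refine sum_le_sum fun b hb => le_trans ?_ (single_le_sum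
      (f := fun d : ℕ => if d ∣ b then (d : ℝ) else 0)
      (fun d _ => by split_ifs <;> positivity)
      (Nat.mem_divisors.2 ⟨Nat.gcd_dvd_gcd_of_dvd_right q (hA b hb), g0⟩))
    exact (if_pos (Nat.gcd_dvd_right q b)).ge
  have h2 : ∀ d ∈ (Nat.gcd q n).divisors, (∑ b ∈ A, if d ∣ b then (d : ℝ) else 0) ≤
      (q : ℝ) ^ (1 / 20 : ℝ) * A.card := by
    intro d hd
    have dq : d ≤ q := (Nat.divisor_le hd).trans gq
    rw [← sum_filter, sum_const, nsmul_eq_mul]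
    have a1 : ((A.filter fun b => d ∣ b).card * d) ^ 20 ≤ q * A.card ^ 20 := by
      calc ((A.filter fun b => d ∣ b).card * d) ^ 20
          = d * ((A.filter fun b => d ∣ b).card ^ 20 * d ^ 19) := by ring
        _ ≤ q * A.card ^ 20 := Nat.mul_le_mul dq (hS d)
    have a2 : (((A.filter fun b => d ∣ b).card : ℝ) * d) ^ 20 ≤ q * (A.card : ℝ) ^ 20 := by
      exact_mod_cast a1
    refine (pow_le_pow_iff_left₀ (by positivity) (by positivity) (by norm_num : 20 ≠ 0)).1 ?_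
    have a3 : ((q : ℝ) ^ (1 / 20 : ℝ)) ^ 20 = q := by
      rw [← Real.rpow_natCast, ← Real.rpow_mul q0.le]
      norm_num
    rwa [mul_pow ((q : ℝ) ^ (1 / 20 : ℝ)), a3]
  have h3 : (((Nat.gcd q n).divisors.card : ℕ) : ℝ) ≤ (q : ℝ) ^ (1 / 50 : ℝ) := by
    have a1 := (div_YEg (hn.squarefree_of_dvd (Nat.gcd_dvd_right q n)) fun p h =>
      hp p (Nat.primeFactors_mono (Nat.gcd_dvd_right q n) hn.ne_zero h)).trans gq
    have a2 := root_YEg (k := 50) (x := ((Nat.gcd q n).divisors.card : ℕ)) (y := q) (by norm_num)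
      (Nat.cast_nonneg _) q0.le (by exact_mod_cast a1)
    simpa using a2
  refine h1.trans ?_
  rw [sum_comm]
  refine (sum_le_card_nsmul _ _ _ h2).trans ?_
  rw [nsmul_eq_mul]
  refine (mul_le_mul_of_nonneg_right h3 (by positivity)).trans (le_of_eq ?_)
  rw [← mul_assoc, ← Real.rpow_add q0]
  norm_num

theorem sEg (hP : StProd) (hS : StSprP) : StEg := by
  intro j0 B N s hj h hB I c D q hc hD hq
  have j2 : 2 ≤ j0 := le_trans (by norm_num) hj
  have bk := (hP j0 B N s j2 h 0 I fun _ _ => Nat.zero_le _).1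
  have hp : ∀ p ∈ (∏ t ∈ I, N t).primeFactors, 2 ^ 50 ≤ p := by
    intro p hp
    have pp := Nat.prime_of_mem_primeFactors hp
    obtain ⟨t, -, ht⟩ := (pp.prime.dvd_finset_prod_iff _).1 (Nat.dvd_of_mem_primeFactors hp)
    have a1 := ((h.one t).prm p (Nat.mem_primeFactors.2 ⟨pp, ht, (h.one t).blk.sqf.ne_zero⟩)).1
    have a2 : 50 ≤ lev (j0 + t) := le_lev.2 (hj.trans (Nat.le_add_right _ _))
    exact (Nat.pow_le_pow_right two_pos a2).trans a1.le
  have h1 := gen_YEg bk.sqf bk.dvd (hS j0 B N s j2 h hB I) hp hq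
  have inj : Function.Injective fun a => c * a := mul_right_injective₀ hc.ne'
  rw [sum_image fun a _ b _ e => inj e, card_image_of_injective _ inj, mul_assoc]
  refine le_trans ?_ (mul_le_mul_of_nonneg_left h1 (Nat.cast_nonneg D))
  rw [mul_sum]
  refine sum_le_sum fun b _ => ?_
  have a1 : Nat.gcd q (c * b) ∣ c * Nat.gcd q b := by
    rw [← Nat.gcd_mul_left]
    exact Nat.gcd_dvd_gcd_of_dvd_left _ (Dvd.intro_left c rfl)
  have a2 : Nat.gcd q (c * b) ≤ D * Nat.gcd q b :=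
    (Nat.le_of_dvd (Nat.mul_pos hc (Nat.gcd_pos_of_pos_left b hq)) a1).trans
      (Nat.mul_le_mul_right _ hD)
  exact_mod_cast a2

end Pool.Agent.MP_2876a2_nt.Tu.Z

end

noncomputable section
open Finset Filter
open scoped Pointwise


namespace Pool.Agent.MP_2876a2_nt.Tu.Z

theorem cop_YL25 {N : ℕ → ℕ} (h : ∀ i i', i ≠ i' → (N i).Coprime (N i')) (I I' : Finset ℕ)
    (hd : ∀ i ∈ I, ∀ i' ∈ I', i ≠ i') : (∏ i ∈ I, N i).Coprime (∏ i ∈ I', N i) :=
  Nat.Coprime.prod_left fun i hi => Nat.Coprime.prod_right fun i' hi' => h i i' (hd i hi i' hi')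

theorem three_YL25 {j0 a b : ℕ} (hj : 2 ≤ j0)
    (h : (a : ℝ) ≤ Real.exp (2 / (j0 + (0 : ℕ))) * b) : a ≤ 3 * b := by
  have h1 : (2 : ℝ) ≤ j0 := by exact_mod_cast hj
  have h2 : Real.exp (2 / (j0 + (0 : ℕ))) ≤ 3 := by
    refine (Real.exp_le_exp.2 ?_).trans (Real.exp_one_lt_d9.le.trans (by norm_num))
    rw [Nat.cast_zero, add_zero, div_le_one (by linarith)]
    exact h1
  exact_mod_cast h.trans (mul_le_mul_of_nonneg_right h2 (Nat.cast_nonneg b))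

theorem num_YL25 (D : ℝ) (hD : 0 ≤ D) : ∀ᶠ Y : ℝ in atTop, 2 ≤ Y ∧ 8 * Y ≤ Y ^ (199 / 100 : ℝ) ∧
    ∀ Q w n : ℝ, Y ^ (199 / 100 : ℝ) ≤ Q → Q ≤ Y ^ 2 → 0 ≤ w → w ≤ 3 * D → 0 ≤ n →
      Q ^ 97 ≤ n ^ 100 →
      2000 * (3 * D) * (Q + Y ^ 2) * (1 + Real.log Q) * ((2 * Y) ^ (1 / 50 : ℝ) * w) ≤
        n * Y ^ (1 / 10 : ℝ) := by
  have ht := tendsto_rpow_atTop (show (0 : ℝ) < 1 / 200 by norm_num)
  filter_upwards [ht.eventually_ge_atTop (30000000 * D ^ 2), ht.eventually_ge_atTop 8,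
    eventually_ge_atTop (2 : ℝ)] with Y a1 a2 a3
  have Y0 : 0 ≤ Y := by linarith
  have pw : ∀ k : ℕ, (Y ^ (1 / 200 : ℝ)) ^ k = Y ^ ((k : ℝ) / 200) := fun k => by
    rw [← Real.rpow_natCast, ← Real.rpow_mul Y0]
    congr 1
    ring
  have e1 : Y ^ (199 / 100 : ℝ) = (Y ^ (1 / 200 : ℝ)) ^ 398 := by rw [pw]; norm_num
  have e2 : Y ^ (1 / 10 : ℝ) = (Y ^ (1 / 200 : ℝ)) ^ 20 := by rw [pw]; norm_num
  have e3 : Y ^ (1 / 50 : ℝ) = (Y ^ (1 / 200 : ℝ)) ^ 4 := by rw [pw]; norm_num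
  have e4 : Y = (Y ^ (1 / 200 : ℝ)) ^ 200 := by rw [pw]; norm_num
  have e5 : (2 * Y) ^ (1 / 50 : ℝ) ≤ 2 * (Y ^ (1 / 200 : ℝ)) ^ 4 := by
    rw [Real.mul_rpow (by norm_num) Y0, e3]
    refine mul_le_mul_of_nonneg_right ?_ (by positivity)
    exact (Real.rpow_le_rpow_of_exponent_le (by norm_num) (by norm_num)).trans
      (Real.rpow_one 2).le
  have e6 : 0 ≤ (2 * Y) ^ (1 / 50 : ℝ) := by positivity
  rw [e1, e2]
  generalize (2 * Y) ^ (1 / 50 : ℝ) = T at e5 e6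
  generalize Y ^ (1 / 200 : ℝ) = Z at *
  have Z1 : 1 ≤ Z := by linarith
  have Z0 : 0 < Z := by linarith
  refine ⟨a3, ?_, fun Q w n q1 q2 w0 w1 n0 hn => ?_⟩
  · rw [e4]
    calc 8 * Z ^ 200 ≤ Z * Z ^ 200 := mul_le_mul_of_nonneg_right a2 (by positivity)
      _ = Z ^ 201 := by ring
      _ ≤ Z ^ 398 := pow_le_pow_right₀ Z1 (by norm_num)
  have e7 : Y ^ 2 = Z ^ 400 := by rw [e4, ← pow_mul]
  rw [e7] at q2 ⊢
  have Q1 : 1 ≤ Q := (one_le_pow₀ Z1).trans q1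
  have l1 : 1 + Real.log Q ≤ 401 * Z := by
    have h1 := Real.log_le_log (by linarith) q2
    rw [Real.log_pow] at h1
    have h2 := Real.log_le_sub_one_of_pos Z0
    push_cast at h1
    linarith
  have l0 : 0 ≤ 1 + Real.log Q := add_nonneg zero_le_one (Real.log_nonneg Q1)
  have n1 : Z ^ 386 ≤ n := by
    refine le_of_pow_le_pow_left₀ (n := 100) (by norm_num) n0 (le_trans ?_ hn)
    refine le_trans ?_ (pow_le_pow_left₀ (by positivity) q1 97)
    rw [← pow_mul, ← pow_mul]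
    exact pow_le_pow_right₀ Z1 (by norm_num)
  calc 2000 * (3 * D) * (Q + Z ^ 400) * (1 + Real.log Q) * (T * w)
      ≤ 2000 * (3 * D) * (Z ^ 400 + Z ^ 400) * (401 * Z) * (2 * Z ^ 4 * (3 * D)) := by
        gcongr
    _ = 28872000 * D ^ 2 * Z ^ 405 := by ring
    _ ≤ Z * Z ^ 405 := mul_le_mul_of_nonneg_right (by nlinarith [sq_nonneg D]) (by positivity)
    _ = Z ^ 386 * Z ^ 20 := by ring
    _ ≤ n * Z ^ 20 := mul_le_mul_of_nonneg_right n1 (by positivity)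

theorem sL25 (hP : StProd) (hM : StMul) (hW : StWt) (hS : StSlow) (h1 : StSel1) (hH : StHv) :
    StL25 := by
  intro j0 D hj D0
  obtain ⟨t0, ht0⟩ := hS j0 20000
  filter_upwards [h1 t0
    ((∏ i ∈ range (t0 + 1), 2 ^ (101 * lev (j0 + i) * 2 ^ lev (j0 + i)) : ℕ) : ℝ) D,
    num_YL25 D (Nat.cast_nonneg D)] with Y a1 a2
  obtain ⟨a2, a3, a4⟩ := a2
  intro B N s hq c J K u q β c0 cD K1 hA hsq
  obtain ⟨t, tJ, b1, b2⟩ := a1 s hq.two_le (ht0 s fun i => ⟨(hq.one i).lo, (hq.one i).hi⟩)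
    (Nat.cast_le.2 (prod_le_prod' fun i _ => (hq.one i).hi)) J (hsq.trans_eq (Nat.cast_mul _ _))
  obtain ⟨k1, r1⟩ := hP j0 B N s hj hq 0 (range t) fun _ _ => Nat.zero_le _
  obtain ⟨k2, r2⟩ := hP j0 B N s hj hq 0 (Ico t J) fun _ _ => Nat.zero_le _
  have c21 := cop_YL25 hq.cop (Ico t J) (range t) fun i hi i' hi' => by
    have := mem_Ico.1 hi; have := mem_range.1 hi'; omega
  obtain ⟨-, n21, s21⟩ := hM _ _ _ _ _ _ k2 k1 c21
  have w2 := hW.2.2 j0 B N s hj hq (Ico t J)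
  have eS : ∏ i ∈ range J, s i = (∏ i ∈ Ico t J, s i) * ∏ i ∈ range t, s i := by
    rw [← prod_range_mul_prod_Ico s tJ, mul_comm]
  have eB : ∏ i ∈ range J, B i = (∏ i ∈ Ico t J, B i) * ∏ i ∈ range t, B i := by
    rw [← prod_range_mul_prod_Ico B tJ, mul_comm]
  have inj : ∀ A : Finset ℕ, Set.InjOn (fun a => c * a) (A : Set ℕ) :=
    fun A a _ b _ h => Nat.eq_of_mul_eq_mul_left c0 h
  refine ⟨Ico t J, ∏ i ∈ range t, B i, ?_, ?_, ?_⟩
  · intro α
    rw [ES, sum_image (inj _), sum_image (inj _), eB, s21 fun a => ee (α * ((c * a : ℕ) : ℝ))]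
    refine sum_congr rfl fun m _ => sum_congr rfl fun b _ => ?_
    congr 1
    push_cast
    ring
  · rw [card_image_of_injOn (inj _), card_image_of_injOn (inj _), eB, n21]
  intro m hm
  obtain ⟨b, hb, rfl⟩ := mem_image.1 hm
  obtain ⟨m1, m2, m3⟩ := r2 b hb
  have m4 := three_YL25 hj m3
  have w0 := (hW.2.1 (c * b)).1
  have w1 : wt (c * b) ≤ 3 * (D : ℝ) := by
    refine (hW.1 c b).trans ?_
    rw [mul_comm]
    exact mul_le_mul (w2 b hb) ((hW.2.1 c).2.1.trans (Nat.cast_le.2 cD)) (hW.2.1 c).1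
      (by norm_num)
  have big : ((∏ i ∈ range t, s i : ℕ) : ℝ) ^ 97 ≤ ((∏ i ∈ range t, B i).card : ℝ) ^ 100 := by
    exact_mod_cast k1.big
  have h2 := a4 _ _ _ b1 b2 w0 w1 (Nat.cast_nonneg _) big
  refine (hH K _ (c * b) (∏ i ∈ range t, s i) (3 * D) u q β Y (∏ i ∈ range t, B i) hA K1
    (Nat.mul_pos c0 m1) ?_ ?_ a2 (a3.trans b1) hsq
    fun a ha => ⟨(r1 a ha).1, (r1 a ha).2.1⟩).trans ?_
  · rw [eS, mul_assoc]
    exact Nat.mul_le_mul cD (Nat.mul_le_mul_right _ m2)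
  · rw [eS]
    calc D * ((∏ i ∈ Ico t J, s i) * ∏ i ∈ range t, s i)
        ≤ D * (3 * (c * b) * ∏ i ∈ range t, s i) :=
          Nat.mul_le_mul_left _ (Nat.mul_le_mul_right _
            (m4.trans (Nat.mul_le_mul_left _ (Nat.le_mul_of_pos_left _ c0))))
      _ = _ := by ring
  · have h3 := mul_le_mul_of_nonneg_left h2
      (mul_nonneg (Nat.cast_nonneg (α := ℝ) (∏ i ∈ range t, B i).card) (Nat.cast_nonneg K))
    rw [Nat.cast_mul, Nat.cast_ofNat]
    refine le_trans (le_of_eq ?_) (h3.trans (le_of_eq ?_)) <;> ring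

end Pool.Agent.MP_2876a2_nt.Tu.Z

end

noncomputable section
/-! A weighted Cauchy-Schwarz bound for a triple product. -/


open Finset Filter
open scoped Pointwise


namespace Pool.Agent.MP_2876a2_nt.Tu.Z

lemma one_YM3 (V M : Finset ℕ) (g : ℕ → ℕ → ℝ) (S : ℕ → ℝ) (T : ℕ → ℕ → ℝ) (Γ H : ℝ)
    (hΓ : 0 ≤ Γ) (h : ∀ v ∈ V, (∀ m, 0 < g v m) ∧ 0 ≤ S v ∧ S v ≤ ∑ m ∈ M, T m v ∧
      ∑ m ∈ M, g v m ≤ Γ * M.card) (hT : ∀ m ∈ M, ∑ v ∈ V, (g v m)⁻¹ * T m v ^ 2 ≤ H ^ 2) :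
    ∑ v ∈ V, S v ^ 2 ≤ Γ * (M.card * H) ^ 2 := by
  have h1 : ∀ v ∈ V, S v ^ 2 ≤ Γ * M.card * ∑ m ∈ M, (g v m)⁻¹ * T m v ^ 2 := by
    intro v hv
    obtain ⟨a1, a2, a3, a4⟩ := h v hv
    have b1 : ∀ m ∈ M, 0 ≤ (g v m)⁻¹ * T m v ^ 2 := fun m _ =>
      mul_nonneg (inv_nonneg.2 (a1 m).le) (sq_nonneg _)
    calc S v ^ 2 ≤ (∑ m ∈ M, T m v) ^ 2 := pow_le_pow_left₀ a2 a3 2
      _ ≤ (∑ m ∈ M, g v m) * ∑ m ∈ M, (g v m)⁻¹ * T m v ^ 2 :=
        sum_sq_le_sum_mul_sum_of_sq_le_mul M (fun m _ => (a1 m).le) b1 fun m _ => by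
          rw [← mul_assoc, mul_inv_cancel₀ (a1 m).ne', one_mul]
      _ ≤ _ := mul_le_mul_of_nonneg_right a4 (sum_nonneg b1)
  calc ∑ v ∈ V, S v ^ 2 ≤ ∑ v ∈ V, Γ * M.card * ∑ m ∈ M, (g v m)⁻¹ * T m v ^ 2 := sum_le_sum h1
    _ = Γ * M.card * ∑ m ∈ M, ∑ v ∈ V, (g v m)⁻¹ * T m v ^ 2 := by rw [← mul_sum, sum_comm]
    _ ≤ Γ * M.card * ∑ _m ∈ M, H ^ 2 :=
      mul_le_mul_of_nonneg_left (sum_le_sum hT) (by positivity)
    _ = _ := by rw [sum_const, nsmul_eq_mul]; ring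

theorem sM3 : StM3 := by
  intro V A0 M1 M2 q S0 S1 S2 T1 T2 δ Γ H1 H2 hδ hΓ hH1 hH2 h hT1 hT2
  have hg : ∀ v ∈ V, ∀ m, (0 : ℝ) < ((Nat.gcd (q v) m : ℕ) : ℝ) := fun v hv m =>
    Nat.cast_pos.2 (Nat.gcd_pos_of_pos_left m (h v hv).1)
  have e1 := one_YM3 V M1 (fun v m => ((Nat.gcd (q v) m : ℕ) : ℝ)) S1 T1 Γ H1 hΓ
    (fun v hv => by
      obtain ⟨-, -, a1, -, -, a2, -, -, a3, -⟩ := h v hv
      exact ⟨hg v hv, a1, a2, a3⟩) hT1
  have e2 := one_YM3 V M2 (fun v m => ((Nat.gcd (q v) m : ℕ) : ℝ)) S2 T2 Γ H2 hΓ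
    (fun v hv => by
      obtain ⟨-, -, -, a1, -, -, a2, -, -, a3⟩ := h v hv
      exact ⟨hg v hv, a1, a2, a3⟩) hT2
  have e3 : ∑ v ∈ V, S1 v * S2 v ≤ Γ * (M1.card * H1) * (M2.card * H2) := by
    refine (le_abs_self _).trans (abs_le_of_sq_le_sq ?_ (by positivity))
    calc (∑ v ∈ V, S1 v * S2 v) ^ 2 ≤ (∑ v ∈ V, S1 v ^ 2) * ∑ v ∈ V, S2 v ^ 2 :=
        sum_mul_sq_le_sq_mul_sq V S1 S2
      _ ≤ (Γ * (M1.card * H1) ^ 2) * (Γ * (M2.card * H2) ^ 2) :=
        mul_le_mul e1 e2 (sum_nonneg fun _ _ => sq_nonneg _) (by positivity)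
      _ = _ := by ring
  have e4 : ∀ v ∈ V, S0 v ≤ δ * (√Γ * A0.card) := by
    intro v hv
    obtain ⟨-, -, -, -, a1, -, -, a2, -, -⟩ := h v hv
    refine a1.trans (mul_le_mul_of_nonneg_left ?_ hδ)
    refine (le_abs_self _).trans (abs_le_of_sq_le_sq ?_ (by positivity))
    refine sq_sum_le_card_mul_sum_sq.trans ?_
    rw [sum_congr rfl fun a _ => Real.sq_sqrt (hg v hv a).le, mul_pow, Real.sq_sqrt hΓ]
    calc (A0.card : ℝ) * ∑ a ∈ A0, ((Nat.gcd (q v) a : ℕ) : ℝ) ≤ A0.card * (Γ * A0.card) :=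
        mul_le_mul_of_nonneg_left a2 (Nat.cast_nonneg _)
      _ = _ := by ring
  calc ∑ v ∈ V, S0 v * S1 v * S2 v ≤ ∑ v ∈ V, δ * (√Γ * A0.card) * (S1 v * S2 v) :=
      sum_le_sum fun v hv => by
        rw [mul_assoc (S0 v)]
        exact mul_le_mul_of_nonneg_right (e4 v hv) (mul_nonneg (h v hv).2.2.1 (h v hv).2.2.2.1)
    _ = δ * (√Γ * A0.card) * ∑ v ∈ V, S1 v * S2 v := by rw [← mul_sum]
    _ ≤ δ * (√Γ * A0.card) * (Γ * (M1.card * H1) * (M2.card * H2)) :=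
      mul_le_mul_of_nonneg_left e3 (by positivity)
    _ = _ := by ring

end Pool.Agent.MP_2876a2_nt.Tu.Z

end

noncomputable section
open Finset Filter
open scoped Pointwise


namespace Pool.Agent.MP_2876a2_nt.Tu.Z

theorem split_YMS5 {k : ℕ} (hk : 3 ≤ k) (g : ℕ → ℝ) :
    ∏ i : Fin k, g i = g 0 * g 1 * g 2 * ∏ i ∈ Ico 3 k, g i := by
  rw [Fin.prod_univ_eq_prod_range g k, ← prod_range_mul_prod_Ico g hk]
  simp only [prod_range_succ, prod_range_zero, one_mul]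

theorem num_YMS5 (D : ℕ) : ∀ᶠ Y : ℝ in atTop, 1 ≤ Y ∧
    Y ^ (-(468 / 1000) : ℝ) * √(Y ^ (11 / 100 : ℝ)) * Y ^ (11 / 100 : ℝ) * Y ^ (1 / 10 : ℝ) ≤
      Y ^ (-(1 / 5) : ℝ) ∧
    ∀ x : ℝ, 0 ≤ x → x ≤ 2 * Y → D * x ^ (7 / 100 : ℝ) ≤ Y ^ (11 / 100 : ℝ) := by
  filter_upwards [eventually_ge_atTop (1 : ℝ),
    (tendsto_rpow_atTop (y := 4 / 100) (by norm_num)).eventually_ge_atTop (D * 2)] with Y h1 h2
  have h0 : 0 < Y := by linarith
  refine ⟨h1, ?_, fun x hx hxY => ?_⟩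
  · rw [Real.sqrt_eq_rpow, ← Real.rpow_mul h0.le, ← Real.rpow_add h0, ← Real.rpow_add h0,
      ← Real.rpow_add h0]
    exact Real.rpow_le_rpow_of_exponent_le h1 (by norm_num)
  · have e1 : (2 : ℝ) ^ (7 / 100 : ℝ) ≤ 2 :=
      (Real.rpow_le_rpow_of_exponent_le one_le_two (by norm_num)).trans_eq (Real.rpow_one 2)
    calc D * x ^ (7 / 100 : ℝ) ≤ D * (2 * Y) ^ (7 / 100 : ℝ) := by gcongr
      _ = D * (2 : ℝ) ^ (7 / 100 : ℝ) * Y ^ (7 / 100 : ℝ) := by
        rw [Real.mul_rpow zero_le_two h0.le, mul_assoc]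
      _ ≤ D * 2 * Y ^ (7 / 100 : ℝ) := by gcongr
      _ ≤ Y ^ (4 / 100 : ℝ) * Y ^ (7 / 100 : ℝ) := by gcongr
      _ = _ := by
        rw [← Real.rpow_add h0]
        norm_num

theorem mem_YMS5 {K S : ℕ} {q : ℕ → ℕ} {β : ℕ → ℝ} {Y : ℝ} {v : ℕ} (h : v ∈ Vy K S q β Y) :
    Y ≤ qs S (q v) (β v) ∧ qs S (q v) (β v) < 2 * Y := by
  classical
  exact (mem_filter.1 h).2

theorem fin_YMS5 {k : ℕ} (hk : 3 ≤ k) (V : Finset ℕ) (f : ℕ → ℕ → ℝ) (g : ℕ → ℝ)
    (K Z y w m1 b1 m2 b2 : ℝ) (h0 : ∀ i v, 0 ≤ f i v) (h1 : ∀ i v, f i v ≤ g i)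
    (hg : ∀ i, 0 ≤ g i) (hK : 0 ≤ K) (hy : 0 ≤ y) (c1 : g 1 = m1 * b1) (c2 : g 2 = m2 * b2)
    (hnum : Z * y ≤ w)
    (key : ∑ v ∈ V, f 0 v * f 1 v * f 2 v ≤
      Z * g 0 * (m1 * (√(K * y) * b1)) * (m2 * (√(K * y) * b2))) :
    ∑ v ∈ V, ∏ i : Fin k, f i v ≤ K * (∏ i : Fin k, g i) * w := by
  obtain ⟨R, hR⟩ : ∃ R : ℝ, R = ∏ i ∈ Ico 3 k, g i := ⟨_, rfl⟩
  have hR0 : 0 ≤ R := by
    rw [hR]
    exact prod_nonneg fun i _ => hg i
  have hpt : ∀ v ∈ V, ∏ i : Fin k, f i v ≤ f 0 v * f 1 v * f 2 v * R := by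
    intro v _
    rw [split_YMS5 hk fun i => f i v, hR]
    exact mul_le_mul_of_nonneg_left (prod_le_prod (fun i _ => h0 i v) fun i _ => h1 i v)
      (mul_nonneg (mul_nonneg (h0 0 v) (h0 1 v)) (h0 2 v))
  refine (sum_le_sum hpt).trans ?_
  rw [← sum_mul, split_YMS5 hk g, ← hR]
  refine (mul_le_mul_of_nonneg_right key hR0).trans ?_
  have hm : √(K * y) * √(K * y) = K * y := Real.mul_self_sqrt (mul_nonneg hK hy)
  have hp : 0 ≤ K * (g 0 * g 1 * g 2 * R) := mul_nonneg hK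
    (mul_nonneg (mul_nonneg (mul_nonneg (hg 0) (hg 1)) (hg 2)) hR0)
  calc _ = (√(K * y) * √(K * y)) * Z * (g 0 * (m1 * b1) * (m2 * b2) * R) := by ring
    _ = K * (g 0 * g 1 * g 2 * R) * (Z * y) := by
        rw [hm, c1, c2]
        ring
    _ ≤ _ := mul_le_mul_of_nonneg_left hnum hp

theorem sq_YMS5 (K y b : ℝ) (hK : 0 ≤ K) (hy : 0 ≤ y) : (√(K * y) * b) ^ 2 = K * b ^ 2 * y := by
  rw [mul_pow, Real.sq_sqrt (mul_nonneg hK hy)]
  ring

theorem mid_YMS5 (h3 : StM3) {k : ℕ} (hk : 3 ≤ k) (V : Finset ℕ) (A : ℕ → Finset ℕ)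
    (q : ℕ → ℕ) (α : ℕ → ℝ) (K δ Γ y w : ℝ) (hK : 0 ≤ K) (hy : 0 ≤ y) (hδ : 0 ≤ δ) (hΓ : 0 ≤ Γ)
    (hnum : δ * √Γ * Γ * y ≤ w) (hq : ∀ v ∈ V, 0 < q v)
    (hg : ∀ v ∈ V, ∑ a ∈ A 0, ((Nat.gcd (q v) a : ℕ) : ℝ) ≤ Γ * (A 0).card)
    (hdec : ∀ v ∈ V, ‖ES (A 0) (α v)‖ ≤ δ * ∑ a ∈ A 0, √((Nat.gcd (q v) a : ℕ) : ℝ))
    (hl2 : ∀ i < 3, ∃ M' B' : Finset ℕ,
      (∀ x : ℝ, ES (A i) x = ∑ m ∈ M', ES B' (x * m)) ∧ (A i).card = M'.card * B'.card ∧
      (∀ v ∈ V, ∑ a ∈ M', ((Nat.gcd (q v) a : ℕ) : ℝ) ≤ Γ * M'.card) ∧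
      ∀ m ∈ M', ∑ v ∈ V, ((Nat.gcd (q v) m : ℕ) : ℝ)⁻¹ * ‖ES B' (α v * m)‖ ^ 2 ≤
        K * (B'.card : ℝ) ^ 2 * y) :
    ∑ v ∈ V, ∏ i : Fin k, ‖ES (A i) (α v)‖ ≤ K * (∏ i : Fin k, ((A i).card : ℝ)) * w := by
  obtain ⟨M1, B1, e1, c1, g1, l1⟩ := hl2 1 (by omega)
  obtain ⟨M2, B2, e2, c2, g2, l2⟩ := hl2 2 (by omega)
  refine fin_YMS5 hk V (fun i v => ‖ES (A i) (α v)‖) (fun i => ((A i).card : ℝ)) K (δ * √Γ * Γ)
    y w M1.card B1.card M2.card B2.card (fun _ _ => norm_nonneg _) (fun _ _ => norm_ES_le _ _)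
    (fun _ => Nat.cast_nonneg _) hK hy (by rw [c1, Nat.cast_mul]) (by rw [c2, Nat.cast_mul])
    hnum ?_
  refine h3 V (A 0) M1 M2 q (fun v => ‖ES (A 0) (α v)‖) (fun v => ‖ES (A 1) (α v)‖)
    (fun v => ‖ES (A 2) (α v)‖) (fun m v => ‖ES B1 (α v * m)‖)
    (fun m v => ‖ES B2 (α v * m)‖) δ Γ (√(K * y) * B1.card) (√(K * y) * B2.card) hδ hΓ
    (mul_nonneg (Real.sqrt_nonneg _) (Nat.cast_nonneg _))
    (mul_nonneg (Real.sqrt_nonneg _) (Nat.cast_nonneg _)) ?_ ?_ ?_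
  · intro v hv
    refine ⟨hq v hv, norm_nonneg _, norm_nonneg _, norm_nonneg _, hdec v hv, ?_, ?_, hg v hv,
      g1 v hv, g2 v hv⟩
    · rw [e1]
      exact norm_sum_le _ _
    · rw [e2]
      exact norm_sum_le _ _
  · intro m hm
    rw [sq_YMS5 K y _ hK hy]
    exact l1 m hm
  · intro m hm
    rw [sq_YMS5 K y _ hK hy]
    exact l2 m hm

theorem sMS5 (hD : StDec) (hL : StL25) (h3 : StM3) (hE : StEg) : StMS5 := by
  intro j0 D k M hj hD0 hk hM
  have hj2 : 2 ≤ j0 := le_trans (by norm_num) hj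
  obtain ⟨Y1, h1⟩ := eventually_atTop.1 (hD j0 D hj2 hD0)
  obtain ⟨Y2, h2⟩ := eventually_atTop.1 (hL j0 D hj2 hD0)
  obtain ⟨Y3, h4⟩ := eventually_atTop.1 (num_YMS5 D)
  refine ⟨max Y1 (max Y2 Y3), ?_⟩
  intro B N s hSM hS c hc J K u q β hK hAp Y hY
  have hY1 : Y1 ≤ Y := (le_max_left _ _).trans hY
  have hY2 : Y2 ≤ Y := ((le_max_left _ _).trans (le_max_right _ _)).trans hY
  have hY3 : Y3 ≤ Y := ((le_max_right _ _).trans (le_max_right _ _)).trans hY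
  obtain ⟨hone, hnum, hG⟩ := h4 Y hY3
  have h0 : 0 < Y := lt_of_lt_of_le one_pos hone
  have hM3 : ∀ i < 3, i < M := fun i hi => by omega
  rcases (Vy K (D * ∏ t ∈ range J, s t) q β Y).eq_empty_or_nonempty with he | ⟨v0, hv0⟩
  · rw [he, sum_empty]
    exact mul_nonneg (mul_nonneg (Nat.cast_nonneg _) (prod_nonneg fun _ _ => Nat.cast_nonneg _))
      (Real.rpow_nonneg h0.le _)
  have hYS : Y ^ 2 ≤ ((D * ∏ t ∈ range J, s t : ℕ) : ℝ) :=
    (pow_le_pow_left₀ h0.le (mem_YMS5 hv0).1 2).trans (hAp v0).2.2.2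
  have hgc : ∀ i < 3, ∀ I : Finset ℕ, ∀ v ∈ Vy K (D * ∏ t ∈ range J, s t) q β Y,
      ∑ a ∈ (∏ t ∈ I, B i t).image (fun a => c i * a), ((Nat.gcd (q v) a : ℕ) : ℝ) ≤
        Y ^ (11 / 100 : ℝ) * ((∏ t ∈ I, B i t).image fun a => c i * a).card :=
    fun i hi I v hv => (hE j0 (B i) (N i) s hj (hSM.one i (hM3 i hi)) (hS i (hM3 i hi)) I (c i) D
      (q v) (hc i (hM3 i hi)).1 (hc i (hM3 i hi)).2 (hAp v).1).trans (mul_le_mul_of_nonneg_right
        (hG _ (Nat.cast_nonneg _) ((le_qs _ _ _).trans (mem_YMS5 hv).2.le)) (Nat.cast_nonneg _))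
  refine mid_YMS5 h3 hk _ (fun i => (∏ t ∈ range J, B i t).image fun a => c i * a) q
    (fun v => (v : ℝ) / (K * (D * ∏ t ∈ range J, s t) : ℕ)) K (Y ^ (-(468 / 1000) : ℝ))
    (Y ^ (11 / 100 : ℝ)) (Y ^ (1 / 10 : ℝ)) _ (Nat.cast_nonneg _) (Real.rpow_nonneg h0.le _)
    (Real.rpow_nonneg h0.le _) (Real.rpow_nonneg h0.le _) hnum (fun v _ => (hAp v).1)
    (hgc 0 (by omega) _) ?_ ?_
  · intro v hv
    have hv' := mem_YMS5 hv
    have hi : 0 < M := by omega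
    have e := h1 _ (hY1.trans hv'.1) (B 0) (N 0) s (hSM.one 0 hi) (c 0) J (q v) (u v) (β v)
      (hc 0 hi).1 (hc 0 hi).2 (hAp v).1 (hAp v).2.1 rfl (hAp v).2.2.2
    rw [← (hAp v).2.2.1] at e
    exact e.trans (mul_le_mul_of_nonneg_right
      (Real.rpow_le_rpow_of_nonpos h0 hv'.1 (by norm_num))
      (sum_nonneg fun _ _ => Real.sqrt_nonneg _))
  · intro i hi
    obtain ⟨I, B', a1, a2, a3⟩ := h2 Y hY2 (B i) (N i) s (hSM.one i (hM3 i hi)) (c i) J K u q β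
      (hc i (hM3 i hi)).1 (hc i (hM3 i hi)).2 hK hAp hYS
    exact ⟨_, B', a1, a2, hgc i hi I, a3⟩

end Pool.Agent.MP_2876a2_nt.Tu.Z

end

noncomputable section
open Finset Filter
open scoped Pointwise


namespace Pool.Agent.MP_2876a2_nt.Tu.Z

theorem term_YDiff5 {E : ℂ} {S q0 q T T' : ℕ} {V ε β : ℝ} {u : ℤ} (hAk : 0 ≤ V) (hE : ‖E‖ ≤ V)
    (hq0 : (1 : ℝ) ≤ q0) (hε0 : 0 ≤ ε) (hq : 0 < q) (h : qs S q β < q0)
    (hm : T' ≡ T [MOD q0.factorial]) (hT : |(T' : ℝ) - T| ≤ ε * S) :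
    ‖E * (ee (-(T' * (u / q + β))) - ee (-(T * (u / q + β))))‖ ≤
      V * (8 * ε * (q0 : ℝ) ^ 4) * qs S q β ^ (-(2002 / 1000) : ℝ) := by
  have h1 := one_le_qs S hq β
  set Y := qs S q β with hYd
  have hY0 : 0 < Y := by linarith
  have hqp : (0 : ℝ) < q0 := by linarith
  rw [norm_mul]
  have hqq : q ≤ q0 := by
    have : (q : ℝ) ≤ q0 := (le_qs S q β).trans h.le
    exact_mod_cast this
  obtain ⟨m, hm'⟩ : (q : ℤ) ∣ (T : ℤ) - T' :=
    (Int.natCast_dvd_natCast.2 (Nat.dvd_factorial hq hqq)).trans hm.dvd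
  have hm2 : (T : ℝ) - T' = q * m := by exact_mod_cast hm'
  have hq' : (q : ℝ) ≠ 0 := by positivity
  have e1 : -((T' : ℝ) * (u / q + β)) =
      -(T * (u / q + β)) + (((m * u : ℤ) : ℝ) + ((T : ℝ) - T') * β) := by
    have : (T' : ℝ) = T - q * m := by linarith
    rw [this]
    push_cast
    field_simp
    ring
  have h5 : ‖ee (-(T' * (u / q + β))) - ee (-(T * (u / q + β)))‖ ≤
      2 * Real.pi * |((T : ℝ) - T') * β| := by
    rw [e1, ee_add, ee_add, ee_int, one_mul, ← mul_sub_one, norm_mul, norm_ee, one_mul]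
    exact norm_ee_sub_one _
  have h7 : |β| * S ≤ Y := by
    have hq1 : (1 : ℝ) ≤ q := by exact_mod_cast hq
    refine (le_max_right 1 _).trans ?_
    exact le_mul_of_one_le_left (zero_le_one.trans (le_max_left _ _)) hq1
  have h8 : |((T : ℝ) - T') * β| ≤ ε * q0 := by
    rw [abs_mul, abs_sub_comm]
    calc _ ≤ ε * S * |β| := mul_le_mul_of_nonneg_right hT (abs_nonneg _)
      _ = ε * (|β| * S) := by ring
      _ ≤ ε * q0 := mul_le_mul_of_nonneg_left (h7.trans h.le) hε0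
  have h9 : 1 ≤ (q0 : ℝ) ^ 3 * Y ^ (-(2002 / 1000) : ℝ) := by
    have a1 : (q0 : ℝ) ^ (-(3 : ℝ)) ≤ Y ^ (-(2002 / 1000) : ℝ) :=
      (Real.rpow_le_rpow_of_nonpos hY0 h.le (by norm_num)).trans
        (Real.rpow_le_rpow_of_exponent_le h1 (by norm_num))
    rw [Real.rpow_neg hqp.le, show (3 : ℝ) = ((3 : ℕ) : ℝ) by norm_num,
      Real.rpow_natCast] at a1
    calc (1 : ℝ) = (q0 : ℝ) ^ 3 * ((q0 : ℝ) ^ 3)⁻¹ := by field_simp
      _ ≤ _ := by gcongr
  have h10 : 2 * Real.pi * |((T : ℝ) - T') * β| ≤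
      8 * ε * (q0 : ℝ) ^ 4 * Y ^ (-(2002 / 1000) : ℝ) := by
    calc _ ≤ 2 * 4 * (ε * q0) * 1 := by
          rw [mul_one]
          gcongr
          exact Real.pi_le_four
      _ ≤ 2 * 4 * (ε * q0) * ((q0 : ℝ) ^ 3 * Y ^ (-(2002 / 1000) : ℝ)) := by gcongr
      _ = _ := by ring
  rw [mul_assoc]
  exact mul_le_mul hE (h5.trans h10) (norm_nonneg _) hAk

theorem q0_YDiff5 (Y0 L : ℝ) : ∃ q0 : ℕ, Y0 ≤ q0 ∧ (1 : ℝ) ≤ q0 ∧
    2 * (q0 : ℝ) ^ (-(1 / 5) : ℝ) * L ≤ 1 / 8 := by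
  have h1 : Tendsto (fun n : ℕ => 2 * (n : ℝ) ^ (-(1 / 5) : ℝ) * L) atTop (nhds (2 * 0 * L)) :=
    (((tendsto_rpow_neg_atTop (by norm_num)).comp tendsto_natCast_atTop_atTop).const_mul
      2).mul_const L
  have h2 := h1.eventually (ge_mem_nhds (show 2 * 0 * L < 1 / 8 by norm_num))
  have h3 := (tendsto_natCast_atTop_atTop (R := ℝ)).eventually_ge_atTop Y0
  have h4 := (tendsto_natCast_atTop_atTop (R := ℝ)).eventually_ge_atTop 1
  exact (h3.and (h4.and h2)).exists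

theorem two_YDiff5 : (2 : ℝ) ^ (-(1 / 5) : ℝ) ≤ 7 / 8 := by
  refine le_of_pow_le_pow_left₀ (n := 5) (by norm_num) (by norm_num) ?_
  rw [← Real.rpow_natCast, ← Real.rpow_mul (by norm_num)]
  norm_num

theorem geo_YDiff5 {x : ℝ} (hx : 0 < x) (n : ℕ) :
    ∑ i ∈ range n, (x * 2 ^ i) ^ (-(1 / 5) : ℝ) ≤ x ^ (-(1 / 5) : ℝ) * 8 := by
  have h1 : ∀ i : ℕ, (x * 2 ^ i) ^ (-(1 / 5) : ℝ) ≤ x ^ (-(1 / 5) : ℝ) * (7 / 8) ^ i := by
    intro i
    rw [Real.mul_rpow hx.le (by positivity), ← Real.rpow_natCast, ← Real.rpow_mul (by norm_num),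
      mul_comm (i : ℝ), Real.rpow_mul (by norm_num), Real.rpow_natCast]
    exact mul_le_mul_of_nonneg_left (pow_le_pow_left₀ (by positivity) two_YDiff5 i) (by positivity)
  refine (sum_le_sum fun i _ => h1 i).trans ?_
  rw [← mul_sum]
  refine mul_le_mul_of_nonneg_left ?_ (by positivity)
  have h2 := geom_sum_mul_neg (7 / 8 : ℝ) n
  have h3 : (0 : ℝ) ≤ (7 / 8) ^ n := by positivity
  linarith

theorem dy_YDiff5 {S : ℕ} {x Y : ℝ} (hx : 1 ≤ x) (h : x ≤ Y) (hS : Y ^ 2 ≤ S) :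
    ∃ i ∈ range (S + 1), x * 2 ^ i ≤ Y ∧ Y < 2 * (x * 2 ^ i) := by
  have hx0 : 0 < x := by linarith
  obtain ⟨i, h1, h2⟩ := exists_nat_pow_near ((one_le_div hx0).2 h) (one_lt_two (α := ℝ))
  rw [le_div_iff₀ hx0] at h1
  rw [div_lt_iff₀ hx0, pow_succ] at h2
  refine ⟨i, mem_range.2 (Nat.lt_succ_of_le ?_), by linarith, by linarith⟩
  have h3 : (i : ℝ) ≤ 2 ^ i := by exact_mod_cast (Nat.lt_two_pow_self).le
  have h4 : (2 : ℝ) ^ i ≤ 2 ^ i * x := le_mul_of_one_le_right (by positivity) hx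
  have h5 : (i : ℝ) ≤ S := by nlinarith
  exact_mod_cast h5

theorem sDiff5 (hF : StFour2) (hA : V.StAp3) : StDiff5 := by
  intro Y0 k
  obtain ⟨C, hC, hA⟩ := hA
  have hK : (0 : ℝ) < (k : ℝ) + 2 := by positivity
  have hK1 : (1 : ℝ) ≤ (k : ℝ) + 2 := by linarith [Nat.cast_nonneg (α := ℝ) k]
  obtain ⟨q0, hY, hq1, hq⟩ := q0_YDiff5 Y0 (8 * ((k : ℝ) + 2))
  obtain ⟨ε, hε⟩ : ∃ ε : ℝ, ε = 1 / (64 * (C + 1) * ((k : ℝ) + 2) * (q0 : ℝ) ^ 4) := ⟨_, rfl⟩
  have hε0 : 0 < ε := by rw [hε]; positivity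
  have hε1 : ε ≤ 1 := by
    rw [hε, div_le_one (by positivity)]
    exact one_le_mul_of_one_le_of_one_le
      (one_le_mul_of_one_le_of_one_le (by linarith) hK1) (one_le_pow₀ hq1)
  have hε2 : 8 * ε * (q0 : ℝ) ^ 4 * (C * ((k : ℝ) + 2)) ≤ 1 / 8 := by
    have : 8 * ε * (q0 : ℝ) ^ 4 * ((C + 1) * ((k : ℝ) + 2)) = 1 / 8 := by
      rw [hε]; field_simp; ring
    rw [← this]
    gcongr
    linarith
  refine ⟨q0.factorial, ε, Nat.factorial_pos _, hε0, hε1,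
    fun A S hS hAS hD T T' hT hm hTT => ?_⟩
  obtain ⟨u, q, β, h1, h2⟩ := hA (k + 2) S (by omega) hS
  have hS' : (1 : ℝ) ≤ S := by exact_mod_cast hS
  have hP : k * S < (k + 2) * S := by nlinarith
  have hT' : T' < (k + 2) * S := by
    have h3 : (T' : ℝ) - T ≤ S :=
      ((le_abs_self _).trans hTT).trans (mul_le_of_le_one_left (by linarith) hε1)
    have h4 : (T' : ℝ) ≤ T + S := by linarith
    have h5 : T' ≤ T + S := by exact_mod_cast h4
    nlinarith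
  have e1 := hF k A S _ T hAS hP (hT.trans_lt hP)
  have e2 := hF k A S _ T' hAS hP hT'
  obtain ⟨V, hV⟩ : ∃ V : ℝ, ∏ i, ((A i).card : ℝ) = V := ⟨_, rfl⟩
  have hAk : 0 ≤ V := hV ▸ prod_nonneg fun i _ => Nat.cast_nonneg _
  rw [hV]
  have s1 : ∑ v ∈ range ((k + 2) * S), qs S (q v) (β v) ^ (-(2002 / 1000) : ℝ) ≤
      C * ((k : ℝ) + 2) := by
    have h3 := h2 1 one_ne_zero
    rw [Tu.V.wt_one] at h3
    simpa using h3
  have s2 : ∑ v ∈ range ((k + 2) * S), ∑ i ∈ range (S + 1),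
      (if v ∈ Vy (k + 2) S q β (q0 * 2 ^ i) then
        ∏ j, ‖ES (A j) ((v : ℝ) / ((k + 2) * S : ℕ))‖ else 0) ≤
      ((k : ℝ) + 2) * V * ((q0 : ℝ) ^ (-(1 / 5) : ℝ) * 8) := by
    rw [sum_comm]
    refine le_trans (sum_le_sum fun i _ => ?_) ((mul_sum _ _ _).symm.le.trans
      (mul_le_mul_of_nonneg_left (geo_YDiff5 (by linarith) (S + 1)) (by positivity)))
    rw [sum_ite_mem, inter_eq_right.2 (by unfold Vy; exact filter_subset _ _)]
    have h3 := hD (k + 2) u q β (by omega) h1 (q0 * 2 ^ i)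
      (hY.trans (le_mul_of_one_le_right (by linarith) (one_le_pow₀ one_le_two)))
    rw [hV] at h3
    push_cast at h3 ⊢
    exact h3
  have e3 : ‖((rm A T' : ℂ) - rm A T) * (((k + 2) * S : ℕ) : ℂ)‖ ≤
      2 * (((k : ℝ) + 2) * V * ((q0 : ℝ) ^ (-(1 / 5) : ℝ) * 8)) +
        V * (8 * ε * (q0 : ℝ) ^ 4) * (C * ((k : ℝ) + 2)) := by
    rw [sub_mul, e1, e2, ← sum_sub_distrib]
    refine (norm_sum_le _ _).trans ?_
    refine le_trans ?_ (add_le_add (mul_le_mul_of_nonneg_left s2 (by positivity))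
      (mul_le_mul_of_nonneg_left s1 (by positivity)))
    rw [mul_sum, mul_sum, ← sum_add_distrib]
    refine sum_le_sum fun v hv => ?_
    obtain ⟨a1, a2, a3, a4⟩ := h1 v
    have n0 : ∀ i ∈ range (S + 1), 0 ≤ (if v ∈ Vy (k + 2) S q β (q0 * 2 ^ i) then
        ∏ j, ‖ES (A j) ((v : ℝ) / ((k + 2) * S : ℕ))‖ else 0) := fun i _ => by
      split_ifs
      · exact prod_nonneg fun _ _ => norm_nonneg _
      · exact le_rfl
    have n1 := (one_le_qs S a1 (β v))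
    rw [← mul_sub]
    rcases le_or_gt (q0 : ℝ) (qs S (q v) (β v)) with h | h
    · obtain ⟨i, hi, b1, b2⟩ := dy_YDiff5 hq1 h a4
      have b3 := single_le_sum n0 hi
      rw [if_pos (by unfold Vy; exact mem_filter.2 ⟨hv, b1, b2⟩)] at b3
      refine le_trans ?_ (le_add_of_nonneg_right (by positivity))
      rw [norm_mul, norm_prod, mul_comm]
      refine mul_le_mul ?_ b3 (prod_nonneg fun _ _ => norm_nonneg _) zero_le_two
      refine (norm_sub_le _ _).trans ?_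
      rw [norm_ee, norm_ee]
      norm_num
    · refine le_trans ?_ (le_add_of_nonneg_left (mul_nonneg zero_le_two (sum_nonneg n0)))
      rw [mul_div_assoc, mul_div_assoc, a3]
      refine term_YDiff5 hAk ?_ hq1 hε0.le a1 h hm hTT
      rw [norm_prod, ← hV]
      exact prod_le_prod (fun i _ => norm_nonneg _) fun i _ => norm_ES_le (A i) _
  rw [norm_mul, Complex.norm_natCast, ← Complex.ofReal_natCast, ← Complex.ofReal_natCast,
    ← Complex.ofReal_sub, Complex.norm_real, Real.norm_eq_abs] at e3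
  rw [le_div_iff₀ (by positivity)]
  push_cast at e3
  have b1 := mul_le_mul_of_nonneg_left hq hAk
  have b2 := mul_le_mul_of_nonneg_left hε2 hAk
  nlinarith

end Pool.Agent.MP_2876a2_nt.Tu.Z

end
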