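import Pool.Agent.MP_2876a2_nt.Tu.Fin4
import Pool.Agent.MP_2876a2_nt.Tu.Y1
import Pool.Agent.MP_2876a2_nt.Tu.Main5

/-!
Infinitely many pairwise coprime feebly amicable `k`-tuples for every `k ≥ 4`.
-/

set_option autoImplicit false

open Finset Filter

namespace Pool.Agent.MP_2876a2_nt.Tu.Z

theorem aSp5 : StSp5 := sSp5 sEv (sSpA sEv sMg (sEx5 sEv (sRd5 sEv))) sGd

theorem aBlk5 : StBlk5 := sBlk5 (sFib sPsi sGr (sAz aAn) aCard aDq) (sAz aAn) aCard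
  (sBlkA5 sCore sNs5 aSp5) (sAsm5 sDiv) sNumZ (sSz aDq) sSpr1

theorem aAdm5 : StAdm5 := sAdm5 aNice (sPo1 aAn) (sPo2 aCard) aBlk5

theorem aMS5 : StMS5 := sMS5 (sDec aProd sMul sSlow sSel2 (sBil sCS (sH sH1) V.sNum3))
  (sL25 aProd sMul sWt sSlow sSel1 (sHv sLS sCov (sCnt sPrim))) sM3 (sEg aProd (sSprP aProd sMul))

theorem coprime_tuples5 (k : ℕ) (hk : 4 ≤ k) :
    Set.Infinite {Z : Finset ℕ | Z.card = k ∧ (∀ n ∈ Z, 0 < n) ∧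
      (Z : Set ℕ).Pairwise Nat.Coprime ∧
      ∑ n ∈ Z, (n : ℚ) / ((ArithmeticFunction.sigma 1 n : ℕ) : ℚ) = 1} := by
  refine Set.Infinite.of_image (fun Z => Z.sup id) (Set.infinite_of_forall_exists_gt fun M => ?_)
  obtain ⟨Z, h1, h2, h3, h4, n, hn, h5⟩ := pc5 (sER (sER1 aA2 (sRound aBM)))
    (sExt5 aAdm5 sTol sDC) aAdm5 aMS5 (sDiff5 sFour2 (V.sAp3 (V.sMas3 sIn V.sGs))) (sPop2 sPopA)
    aProd sMul sTail (sKak sK1 (sK2 aTh)) sKey sEnd (k - 1) M (by omega)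
  exact ⟨Z.sup id, ⟨Z, ⟨by omega, h2, h3, h4⟩, rfl⟩, h5.trans_le (le_sup (f := id) hn)⟩

end Pool.Agent.MP_2876a2_nt.Tu.Z
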