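import Pool.Agent.MP_2876a2_nt.Tu.M6a

set_option autoImplicit false

open Finset Filter
open scoped Pointwise

noncomputable section

namespace Pool.Agent.MP_2876a2_nt.Tu.Z

theorem er_M6 (hER : StER) : ∃ (c : ℕ → ℕ) (D : ℕ), 0 < D ∧
    (∀ i < 3, 1 < c i ∧ c i ≤ D ∧ sg (c i) = D) ∧ (∀ i < 3, 0 < c i ∧ c i ≤ D) ∧
    (∀ i < 3, 6 * c i ≤ D) ∧ ∀ i < 3, ∀ i' < 3, i ≠ i' → (c i).Coprime (c i') := by
  obtain ⟨c, D, hc, hcc⟩ := hER 3 (by omega)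
  have hD : 0 < D := by have := (hc 0 (by omega)); nlinarith [this.1, this.2.2.2]
  have hcD : ∀ i < 3, 0 < c i ∧ c i ≤ D := fun i hi =>
    ⟨(hc i hi).1, by nlinarith [(hc i hi).2.2.2]⟩
  refine ⟨c, D, hD, fun i hi => ⟨?_, (hcD i hi).2, (hc i hi).2.2.1⟩, hcD,
    fun i hi => (hc i hi).2.2.2, hcc⟩
  obtain ⟨h1, -, h2, h3⟩ := hc i hi
  by_contra h4
  obtain h5 : c i = 1 := by omega
  rw [h5] at h2 h3
  simp at h2
  omega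

theorem succ_M6 {q a G : ℕ} (ha : 0 < a) (h : q ≡ a - 1 [MOD G]) : q + 1 ≡ a [MOD G] := by
  have h1 := h.add_right 1
  rwa [Nat.sub_add_cancel ha] at h1

theorem J_M6 {t1 t2 t3 : ℕ} (h12 : t1 ≤ t2) (h23 : t2 ≤ t3) (n M L : ℕ) : ∃ J, t3 < J ∧ t2 ≤ J ∧
    t3 ∈ Ico t1 J ∧ t3 ∈ Ico t2 J ∧ n ≤ (Ico t2 J).card ∧ M ≤ J ∧ L ≤ (Ico t1 J).card := by
  refine ⟨t3 + 1 + n + M + L, ?_⟩
  simp only [mem_Ico, Nat.card_Ico]
  omega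

theorem eta_le_M6 {η : ℝ} {n x : ℕ} {y : ℝ} (hη : 0 < η) (h : y / η ≤ n) (hx : n ≤ x) :
    y ≤ η * x := by
  have h1 : (n : ℝ) ≤ x := by exact_mod_cast hx
  have h2 := (div_le_iff₀ hη).1 (h.trans h1)
  linarith

theorem ne_M6 {t t' u v w : ℕ} (h : t ∈ Ico u v) (h' : t' ∈ Ico v w) : t ≠ t' :=
  ((mem_Ico.1 h).2.trans_le (mem_Ico.1 h').1).ne

theorem a_M6 {l d D n a π : ℕ} (ha : l + d + D + n ≤ a) (h : 2 ^ (2 * a) < π) :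
    l ≤ a ∧ d < π ∧ D < π ∧ n ≤ π := by
  have : 2 * a < 2 ^ (2 * a) := Nat.lt_two_pow_self
  omega

theorem q_M6 {l m q : ℕ} (h : l ≤ m) (h' : 2 ^ (100 * m) < q) : l ≤ q := by
  have : 100 * m < 2 ^ (100 * m) := Nat.lt_two_pow_self
  omega

set_option maxHeartbeats 4000000 in
theorem pc6 (hER : StER) (hExt : StExt6) (hAdm : StAdm5) (hAd6 : StAdm6) (hZ : StZ) (hS3 : StS3)
    (hMn : StMn) (hDiff : StDiff6) (hPi : StPi) (hAvg : StAvg) (hBig : StBigS) (hGam : StGam2)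
    (hLoc : StLoc) (hWin : StWin) (hKey : StKey6) (hProd : StProd) (hMul : StMul)
    (hTail : StTail) (hKak : StKak) (hEnd : StEnd) (M0 : ℕ) :
    ∃ Z : Finset ℕ, Z.card = 3 ∧ (∀ n ∈ Z, 0 < n) ∧
      (Z : Set ℕ).Pairwise Nat.Coprime ∧ ∑ n ∈ Z, (n : ℚ) / (sg n : ℚ) = 1 ∧ ∃ n ∈ Z, M0 < n := by
  have i0 : 0 < 3 := by decide
  have i1 : 1 < 3 := by decide
  have i2 : 2 < 3 := by decide
  obtain ⟨c, D, hD, hc, hcD, hc6, hcc⟩ := er_M6 hER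
  obtain ⟨Z0, hkak⟩ := (hKak D).exists
  obtain ⟨j0, ⟨⟨B, N, s, Ψ, hS⟩, hext⟩, hj5, hjD⟩ := (hExt.and
    ((eventually_ge_atTop (50 ^ 4)).and (tendsto_lev.eventually_ge_atTop (D + Z0)))).exists
  have hj : 2 ≤ j0 := le_trans (by norm_num) hj5
  obtain ⟨t1, hgam, ht1, -⟩ := ((hGam j0 D hj5 hD).and
    (ev_exp_M4 j0 (show (0 : ℝ) < 1 / (2 * D) by positivity))).exists
  obtain ⟨YS, hYS⟩ := eventually_atTop.1 (hS3 j0 t1 hj5)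
  obtain ⟨YZ, hYZ⟩ := two_Z_M6 hZ hj5 hD hcD
  obtain ⟨q0, havg, hq1, hq2, hq3, hq4⟩ := ((hAvg (1 / 52) (by norm_num)).and
    ((tendsto_natCast_atTop_atTop.eventually_ge_atTop YS).and
      ((tendsto_natCast_atTop_atTop.eventually_ge_atTop YZ).and
        (ev_q0_M6.and (eventually_ge_atTop 1))))).exists
  obtain ⟨C, hC, hdiff⟩ := hDiff
  obtain ⟨W, hWd⟩ : ∃ W, q0.factorial = W := ⟨_, rfl⟩
  have hW : 0 < W := hWd ▸ Nat.factorial_pos _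
  obtain ⟨η, hη, hη1, hη2⟩ := eta_M6 hC (pow_pos (Nat.cast_pos.2 hq4 : (0 : ℝ) < q0) 4)
  have hη3 : η ≤ 1 := hη1.trans (by norm_num)
  obtain ⟨t2, ht2⟩ := eventually_atTop.1 (((shift_M4 j0).eventually (hAdm 3 W (W - 1)
    i2.le hW (cop_pred_M4 hW fun _ _ h => h))).and
      ((ev_exp_M4 j0 hη).and ((ev_lev_M4 j0 W hη).and
        ((eventually_ge_atTop t1).and (eventually_ge_atTop (W ^ 2))))))
  obtain ⟨-, ⟨hx1, -⟩, ⟨hx2, hx3⟩, h12, hW2⟩ := ht2 t2 le_rfl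
  have hP0 := fun i hi => hProd j0 (B i) (N i) s hj (hS.sm.one i hi) 0 (range t2)
    fun _ _ => Nat.zero_le _
  have hPA := hProd j0 (B 2) (N 2) s hj (hS.sm.one 2 i2) t1 (Ico t1 t2)
    fun _ h => (mem_Ico.1 h).1
  have hH1p : 0 < ∏ t ∈ range t1, s t :=
    prod_pos fun t _ => lt_of_lt_of_le two_pos ((hS.sm.one 0 i0).two_le t)
  have eH : ∏ t ∈ range t2, s t = (∏ t ∈ range t1, s t) * ∏ t ∈ Ico t1 t2, s t :=
    (prod_range_mul_prod_Ico _ h12).symm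
  have hG := hgam B N s hS.sm hS.spr (c 0) (c 1) W t2 (hcD 0 i0).1 (hcD 0 i0).2
    (hcD 1 i1).1 (hcD 1 i1).2 hW (hW2.trans ((card_range t2).ge.trans
      (two_pow_le_M4 (hS.sm.one 0 i0).two_le (range t2)).le))
  obtain ⟨H1, hH1⟩ : ∃ H1, ∏ t ∈ range t1, s t = H1 := ⟨_, rfl⟩
  obtain ⟨H3, hH3⟩ : ∃ H3, ∏ t ∈ Ico t1 t2, s t = H3 := ⟨_, rfl⟩
  obtain ⟨A, hA⟩ : ∃ A, ∏ t ∈ Ico t1 t2, B 2 t = A := ⟨_, rfl⟩
  obtain ⟨X, hX⟩ : ∃ X : ℕ → Finset ℕ, ∀ i, ((∏ t ∈ range t2, B i t).image fun a => c i * a) = X i :=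
    ⟨_, fun _ => rfl⟩
  rw [hH1] at hH1p eH
  rw [hH3] at eH hPA
  rw [hA] at hPA hG
  rw [hX, hX] at hG
  have hH3p : 0 < H3 := hPA.1.s_pos
  have hin : ∀ i < 3, ∀ x ∈ X i, 6 * x ≤ D * H1 * H3 ∧ H1 * H3 ≤ 3 * x := by
    intro i hi x hx
    rw [← hX] at hx
    obtain ⟨b, hb, rfl⟩ := mem_image.1 hx
    obtain ⟨h1, h2, h3⟩ := (hP0 i hi).2 b hb
    rw [eH] at h2 h3
    refine ⟨?_, (three_M6 hj h3).trans
      (Nat.mul_le_mul_left _ (Nat.le_mul_of_pos_left _ (hcD i hi).1))⟩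
    rw [← mul_assoc, mul_assoc D]
    exact Nat.mul_le_mul (hc6 i hi) h2
  have hAa : ∀ a ∈ A, 0 < a ∧ a ≤ H3 ∧ 2 * D * H3 ≤ (2 * D + 1) * a := fun a ha =>
    ⟨(hPA.2 a ha).1, (hPA.2 a ha).2.1, rat_M6 hD (hPA.2 a ha).2.2 ht1⟩
  have hloc : ∀ x1 ∈ X 0, ∀ x2 ∈ X 1, ∀ a ∈ A, 0 < a ∧ D * H1 * a ≤ D * H1 * H3 ∧
      2 * (x1 + x2) ≤ D * H1 * H3 ∧ D * H1 * H3 ≤ x1 + x2 + D * H1 * a :=
    fun x1 h1 x2 h2 a ha => ⟨(hAa a ha).1, loc_M6 (hAa a ha).2.1 (hAa a ha).2.2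
      (hin 0 i0 x1 h1).1 (hin 0 i0 x1 h1).2 (hin 1 i1 x2 h2).1 (hin 1 i1 x2 h2).2⟩
  have hκ : 0 < D * H1 := Nat.mul_pos hD hH1p
  obtain ⟨τ, hτ1, hτ2, hNw⟩ := hLoc (X 0) (X 1) A (D * H1) (D * H1 * H3) W η hW hκ hη hη3 hloc hG
  obtain ⟨d, hd0, hdp, hdτ⟩ := hkak τ η hτ1 hτ2 hη
  obtain ⟨n0, hn0⟩ := exists_nat_ge (1 / η)
  have hQ0 : 0 < D * H1 * d * W := Nat.mul_pos (Nat.mul_pos hκ hd0) hW
  obtain ⟨a, ⟨P, hP1, hP2⟩, ha⟩ := ((hPi _ hQ0).and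
    (eventually_ge_atTop (101 * lev (j0 + t2) + d + D + n0))).exists
  have hPN : P ⊆ PN (2 ^ (2 * a)) := hP1.trans (filter_subset _ _)
  have hsd : 0 < sg d := ArithmeticFunction.sigma_pos 1 d hd0.ne'
  obtain ⟨σ, hσ⟩ : ∃ σ : ℕ → ℕ, ∀ π, σ π = sg d * W * ((π + 1) / (D * H1 * d * W)) :=
    ⟨_, fun _ => rfl⟩
  have hPd : ∀ π ∈ P, π + 1 = D * H1 * d * W * ((π + 1) / (D * H1 * d * W)) := fun π hπ =>
    (Nat.mul_div_cancel' (Nat.modEq_zero_iff_dvd.1 ((succ_M6 hQ0 (mem_filter.1 (hP1 hπ)).2).trans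
      (Nat.modEq_zero_iff_dvd.2 dvd_rfl)))).symm
  have hσP : ∀ π ∈ P, 0 < σ π ∧ W ∣ σ π := fun π hπ => by
    rw [hσ]
    exact ⟨Nat.mul_pos (Nat.mul_pos hsd hW) (Nat.pos_of_mul_pos_left
      ((Nat.succ_pos π).trans_eq (hPd π hπ))), Dvd.dvd.mul_right (dvd_mul_left _ _) _⟩
  obtain ⟨By, Ny, sy, Ψy, hSy, hy1, hy2⟩ := hext B N s Ψ hS t2 a P (fun _ B _ => Cl W (W - 1) B)
    hPN hP2.le fun t ht => (ht2 t ht).1.admQ
  obtain ⟨t3, havg3, had3, hbig, ht23⟩ := (((tendsto_lev.comp (shift_M4 j0)).eventually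
    (havg W a P σ hW hPN hP2 hσP)).and (((eventually_all_finset P).2 fun π hπ =>
      (eventually_all_finset (Icc 1 W)).2 fun w hw => (shift_M4 j0).eventually
        (hAd6 (σ π * W) (σ π * w - 1) (Nat.mul_pos (hσP π hπ).1 hW)
          (cop_pred_M4 (Nat.mul_pos (hσP π hπ).1 (mem_Icc.1 hw).1) fun p hp h =>
            Dvd.dvd.mul_right ((hp.dvd_mul.1 h).elim id fun h => h.trans (hσP π hπ).2) _))).and
      ((hBig j0 q0 a).and (eventually_ge_atTop t2)))).exists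
  simp only [Function.comp] at havg3
  obtain ⟨n, hn⟩ : ∃ n, 20 * (2 * a + 1 + 101 * lev (j0 + t3)) = n := ⟨_, rfl⟩
  rw [hn] at hbig
  have hYi : ∀ i, YZ ≤ ((q0 * 2 ^ i : ℕ) : ℝ) := fun i =>
    hq2.trans (Nat.cast_le.2 (Nat.le_mul_of_pos_right _ (Nat.two_pow_pos i)))
  have hZs : ∀ i, ∃ Z : ℕ → ℝ, (∀ e, 0 ≤ Z e) ∧ (i < n →
      ∑ e ∈ Icc 1 (2 * (q0 * 2 ^ i)), Z e ≤ 2 * ((q0 * 2 ^ i : ℕ) : ℝ) ^ (1 / 4 : ℝ) ∧
        ∀ (B' : ℕ → ℕ → Finset ℕ) (N' : ℕ → ℕ → ℕ) (s' : ℕ → ℕ), SM 3 j0 B' N' s' →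
          (∀ i < 3, ∀ t, Spr (B' i t)) → (∀ t < t3, s' t = sy t ∧ ∀ i, B' i t = By i t) →
          ∀ J, t3 ≤ J →
            ZB ((∏ t ∈ range J, B' 0 t).image fun a => c 0 * a) (D * ∏ t ∈ range J, s' t)
              (q0 * 2 ^ i : ℕ) Z ∧
            ZB ((∏ t ∈ range J, B' 1 t).image fun a => c 1 * a) (D * ∏ t ∈ range J, s' t)
              (q0 * 2 ^ i : ℕ) Z) := fun i => by
    by_cases hi : i < n
    · obtain ⟨Z, h1, h2⟩ := hYZ (q0 * 2 ^ i) (hYi i) By Ny sy hSy.sm t3 (by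
        have h3 := hbig sy fun i => ((hSy.sm.one 0 i0).one i).lo
        have h4 : (q0 * 2 ^ i) ^ 2 ≤ (q0 * 2 ^ n) ^ 2 := Nat.pow_le_pow_left
          (Nat.mul_le_mul_left _ (Nat.pow_le_pow_right two_pos hi.le)) 2
        rw [← Nat.cast_pow]
        exact Nat.cast_le.2 ((h4.trans h3).trans (Nat.le_mul_of_pos_left _ hD)))
      exact ⟨Z, h1, fun _ => h2⟩
    · exact ⟨fun _ => 0, fun _ => le_rfl, fun h => absurd h hi⟩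
  choose Zs hZ0 hZs using hZs
  have hXp : ∀ i < 3, (0 : ℝ) < (X i).card := fun i hi =>
    Nat.cast_pos.2 (card_pos.2 (hX i ▸ (hP0 i hi).1.ne.image _))
  have hPi0 : (0 : ℝ) < A.card * (X 0).card * (X 1).card :=
    mul_pos (mul_pos (Nat.cast_pos.2 (card_pos.2 hPA.1.ne)) (hXp 0 i0)) (hXp 1 i1)
  obtain ⟨π, hπP, w0, hw0, Bad, hBad, hEr⟩ := havg3 n Zs (fun w =>
    (Nw (X 0) (X 1) A (D * H1) (D * H1 * H3) W η τ w : ℝ) *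
      (W / (13 * η * (A.card * (X 0).card * (X 1).card))))
    hZ0 (fun i hi => (hZs i hi).1) (by
      rw [← sum_mul]
      exact avg_M6 hPi0 hη (Nat.cast_nonneg _) hNw)
  obtain ⟨hσ0, hWσ⟩ := hσP π hπP
  have hπ3 := hPd π hπP
  obtain ⟨hπI, hπ⟩ := mem_filter.1 (hPN hπP)
  obtain ⟨hπ1, hπ2⟩ := mem_Ioc.1 hπI
  obtain ⟨hπ4, hπ5, hπ6, hπ7⟩ := a_M6 ha hπ1
  have hρ0 : 0 < σ π * w0 := Nat.mul_pos hσ0 (mem_Icc.1 hw0).1
  obtain ⟨B', N', s', Ψ', hS', hz1, hz2⟩ := hext By Ny sy Ψy hSy t3 a P (fun t B Ψ =>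
    (t = t3 → Cl (σ π * W) (σ π * w0 - 1) B ∧ ∃ q ∈ PA (2 ^ (100 * lev (j0 + t3))) (σ π * W)
      (σ π * w0 - 1), q ∉ Bad ∧ Mk (j0 + t3) q (B 2) Ψ) ∧ (t ≠ t3 → Cl W (W - 1) B))
    hPN hP2.le fun t ht => by
      by_cases h : t = t3
      · rw [h]
        exact admQ_mono_M6 (had3 π hπP w0 hw0 Bad hBad) fun B Ψ h' =>
          ⟨fun _ => h', fun h => absurd rfl h⟩
      · exact admQ_mono_M6 (ht2 t (ht23.trans ht)).1.admQ fun B Ψ h' =>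
          ⟨fun h'' => absurd h'' h, fun _ => h'⟩
  obtain ⟨hcl3, q, hqA, hqB, Bs, Ns, ss, hm1, hm2, hm3, hm4⟩ := (hz2 t3 le_rfl).2.1 rfl
  have hsame : ∀ t < t2, s' t = s t ∧ ∀ i, B' i t = B i t ∧ N' i t = N i t := fun t ht =>
    ⟨(hz1 t (ht.trans_le ht23)).1.trans (hy1 t ht).1, fun i =>
      ⟨((hz1 t (ht.trans_le ht23)).2.2 i).1.trans ((hy1 t ht).2.2 i).1,
        ((hz1 t (ht.trans_le ht23)).2.2 i).2.trans ((hy1 t ht).2.2 i).2⟩⟩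
  obtain ⟨G, hG1, hG2⟩ : ∃ G : ℕ → ℕ, (∀ t, t ≠ t3 → G t = W) ∧ G t3 = σ π * W :=
    ⟨fun t => if t = t3 then σ π * W else W, fun t ht => if_neg ht, if_pos rfl⟩
  obtain ⟨R, hR1, hR2⟩ : ∃ R : ℕ → ℕ, (∀ t, t ≠ t3 → R t = W - 1) ∧ R t3 = σ π * w0 - 1 :=
    ⟨fun t => if t = t3 then σ π * w0 - 1 else W - 1, fun t ht => if_neg ht, if_pos rfl⟩
  have hWG : ∀ t, W ∣ G t := fun t => by
    by_cases h : t = t3
    · rw [h, hG2]; exact dvd_mul_left _ _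
    · rw [hG1 t h]
  have hcls : ∀ t, ∃ r, t2 ≤ t → 1 ≤ r ∧ ∀ i < 3, ∀ b ∈ B' i t,
      b.primeFactors.card = r ∧ ∀ p ∈ b.primeFactors, p ≡ R t [MOD G t] := fun t => by
    by_cases h0 : t2 ≤ t
    · rcases lt_trichotomy t t3 with h | h | h
      · obtain ⟨r, h1, h2⟩ := (hy2 t h0).2
        refine ⟨r, fun _ => ⟨h1, fun i hi => ?_⟩⟩
        rw [hG1 t h.ne, hR1 t h.ne, ((hz1 t h).2.2 i).1]
        exact h2 i hi
      · obtain ⟨r, h1, h2⟩ := hcl3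
        exact ⟨r, fun _ => ⟨h1, by rw [h, hG2, hR2]; exact h2⟩⟩
      · obtain ⟨r, h1, h2⟩ := (hz2 t h.le).2.2 h.ne'
        exact ⟨r, fun _ => ⟨h1, by rw [hG1 t h.ne', hR1 t h.ne']; exact h2⟩⟩
    · exact ⟨0, fun h => absurd h h0⟩
  choose r hcls using hcls
  have hdis : ∀ t, t2 ≤ t → Disjoint (Ψ' t) P := fun t ht => by
    rcases lt_or_ge t t3 with h | h
    · rw [(hz1 t h).2.1]; exact (hy2 t ht).1
    · exact (hz2 t h).1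
  obtain ⟨hSu, hSp⟩ := upd_M6 hS' hm1 hm2 hm3
  have hmq : ∀ I : Finset ℕ, t3 ∈ I → ∀ b ∈ ∏ i ∈ I, Function.update (B' 2) t3 Bs i,
      b * q ∈ ∏ i ∈ I, B' 2 i := fun I hI b hb => mulq_M6 hI hm4 hb
  have eA0 : A = ∏ t ∈ Ico t1 t2, Function.update (B' 2) t3 Bs t := by
    rw [← hA]
    exact prod_congr rfl fun t ht => by
      rw [Function.update_of_ne ((mem_Ico.1 ht).2.trans_le ht23).ne,
        ((hsame t (mem_Ico.1 ht).2).2 2).1]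
  generalize Function.update (B' 2) t3 Bs = Bu at hSu hSp hmq eA0
  generalize Function.update (N' 2) t3 Ns = Nu at hSu
  generalize Function.update s' t3 ss = su at hSu
  obtain ⟨hqN, hq5⟩ := mem_filter.1 hqA
  obtain ⟨hqI, hq⟩ := mem_filter.1 hqN
  obtain ⟨hq6, hq7⟩ := mem_Ioc.1 hqI
  have hq8 := succ_M6 hρ0 hq5
  obtain ⟨w, hw⟩ : σ π ∣ q + 1 := Nat.modEq_zero_iff_dvd.1 ((hq8.of_mul_right W).trans
    (Nat.modEq_zero_iff_dvd.2 (dvd_mul_right _ _)))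
  have hww : w ≡ w0 [MOD W] := Nat.ModEq.mul_left_cancel' hσ0.ne' (hw ▸ hq8)
  have hEr' := hEr q hqA hqB
  rw [hw, Nat.mul_div_cancel_left _ hσ0] at hEr'
  have hμ : 0 < π * w :=
    Nat.mul_pos hπ.pos (Nat.pos_of_mul_pos_left ((Nat.succ_pos q).trans_eq hw))
  have hμ2 : (π * w) ^ 20 ≤ q0 * 2 ^ n := hn ▸ mu_M6 hπ2 hw hσ0 hq7
    (le_lev.2 (hj5.trans (Nat.le_add_right _ _))) hq4
  rw [hσ] at hw
  obtain ⟨n1, hn1⟩ := exists_nat_ge (W / η)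
  obtain ⟨J, hJ3, htJ, hJ1, hJ2, hJn, hJM, hJL⟩ :=
    J_M6 h12 ht23 n1 (3 * M0) ((4 * (π * w)) ^ 20000)
  have hT := fun i hi => hTail j0 t2 J W (B' i) (N' i) s' G R r (hS'.sm.one i hi) fun t ht =>
    ⟨(hcls t ht).1, hWG t, (hcls t ht).2 i hi⟩
  have hP1' := fun i hi => hProd j0 (B' i) (N' i) s' hj (hS'.sm.one i hi) t2 (Ico t2 J)
    fun _ h => (mem_Ico.1 h).1
  have hP2' := fun i hi => hProd j0 (B' i) (N' i) s' hj (hS'.sm.one i hi) 0 (range J)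
    fun _ _ => Nat.zero_le _
  have hP3 := hProd j0 (B' 2) (N' 2) s' hj (hS'.sm.one 2 i2) 0 (Ico t1 J)
    fun _ _ => Nat.zero_le _
  have hPu := fun I => hProd j0 Bu _ _ hj hSu 0 I fun _ _ => Nat.zero_le _
  have eB : ∀ i, ∏ t ∈ range J, B' i t = (∏ t ∈ range t2, B i t) * ∏ t ∈ Ico t2 J, B' i t :=
    fun i => by
      rw [← prod_range_mul_prod_Ico _ htJ,
        prod_congr rfl fun t ht => ((hsame t (mem_range.1 ht)).2 i).1]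
  have eU : ∏ t ∈ Ico t1 J, Bu t = A * ∏ t ∈ Ico t2 J, Bu t := by
    rw [eA0, prod_Ico_consecutive _ h12 htJ]
  obtain ⟨S, hSd⟩ : ∃ S, ∏ t ∈ Ico t2 J, s' t = S := ⟨_, rfl⟩
  have eS3 : ∏ t ∈ Ico t1 J, s' t = H3 * S := by
    rw [← prod_Ico_consecutive _ h12 htJ,
      prod_congr rfl fun t ht => (hsame t (mem_Ico.1 ht).2).1, hH3, hSd]
  have eS : D * ∏ t ∈ range J, s' t = D * H1 * H3 * S := by
    rw [← prod_range_mul_prod_Ico _ htJ, prod_congr rfl fun t ht => (hsame t (mem_range.1 ht)).1,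
      eH, hSd, ← mul_assoc, ← mul_assoc]
  have hSJ : n1 < S :=
    hJn.trans_lt (hSd ▸ two_pow_le_M4 (hS'.sm.one 0 i0).two_le (Ico t2 J))
  have hS0 : 0 < S := (Nat.zero_le _).trans_lt hSJ
  have hWS : W ∣ S := ((hT 0 i0).2.2 t3 ht23 (by
      rw [hR2, Nat.sub_add_cancel hρ0]; exact hWσ.mul_right _)
      (cop_small_M4 (hS'.sm.one 0 i0) hW hx2 ht23)).trans (hSd ▸ dvd_prod_of_mem _ hJ2)
  have hΓ : ∀ i < 3, ∀ γ ∈ ∏ t ∈ Ico t2 J, B' i t,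
      γ ≡ ∏ t ∈ Ico t2 J, R t ^ r t [MOD W] ∧ γ ≤ S ∧ (S : ℝ) ≤ (1 + η) * γ := fun i hi γ hγ => by
    rw [← hSd]
    exact ⟨(hT i hi).1 γ hγ, ((hP1' i hi).2 γ hγ).2.1, ((hP1' i hi).2 γ hγ).2.2.trans
      (mul_le_mul_of_nonneg_right hx1 (Nat.cast_nonneg _))⟩
  generalize ∏ t ∈ Ico t2 J, R t ^ r t = g at hΓ
  have eA : ∀ i, X i * ∏ t ∈ Ico t2 J, B' i t =
      (∏ t ∈ range J, B' i t).image fun a => c i * a := fun i => by rw [eB, ← image_mul_M4, hX]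
  have eA2 : A * ((∏ t ∈ Ico t2 J, Bu t).image fun a => π * w * a) =
      (∏ t ∈ Ico t1 J, Bu t).image fun a => π * w * a := by
    rw [mul_comm A, image_mul_M4, mul_comm _ A, eU]
  have cA : ∀ i < 3, (X i * ∏ t ∈ Ico t2 J, B' i t).card =
      (X i).card * (∏ t ∈ Ico t2 J, B' i t).card := fun i hi => by
    have h1 := inj_M4 (hcD i hi).1
    rw [eA, ← hX, card_image_of_injective _ h1, card_image_of_injective _ h1, eB]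
    refine (hMul _ _ _ _ _ _ (hP0 i hi).1 (hP1' i hi).1 ?_).2.1
    refine Nat.Coprime.prod_left fun t ht => Nat.Coprime.prod_right fun t' ht' => ?_
    rw [← ((hsame t (mem_range.1 ht)).2 i).2]
    exact (hS'.sm.one i hi).cop t t' ((mem_range.1 ht).trans_le (mem_Ico.1 ht').1).ne
  have cA2 : (A * ((∏ t ∈ Ico t2 J, Bu t).image fun a => π * w * a)).card =
      A.card * ((∏ t ∈ Ico t2 J, Bu t).image fun a => π * w * a).card := by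
    have h1 := inj_M4 hμ
    rw [eA2, card_image_of_injective _ h1, card_image_of_injective _ h1, eU, eA0]
    exact (hMul _ _ _ _ _ _ (hPu _).1 (hPu _).1 (Nat.Coprime.prod_left fun t ht =>
      Nat.Coprime.prod_right fun t' ht' => hSu.cop t t' (ne_M6 ht ht'))).2.1
  have hγ3 : ∀ b ∈ ∏ t ∈ Ico t2 J, Bu t, π * w * b ≡ g * w0 [MOD W] ∧
      |((π * w * b : ℕ) : ℝ) - τ * (D * H1 : ℕ) * S| ≤ 4 * η * (D * H1 : ℕ) * S := fun b hb => by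
    obtain ⟨h1, h2, h3⟩ := hΓ 2 i2 _ (hmq _ hJ2 b hb)
    obtain ⟨h4, h5⟩ := hKey (D * H1) S W _ d (sg d) π _ b q w η τ hη hη3 hκ hd0 (le_sg d) hπ3 hw
      h1 h2 h3 (hx3.trans (mul_le_mul_of_nonneg_left (Nat.cast_le.2
        (q_M6 (lev_mono (Nat.add_le_add_left ht23 _)) hq6)) hη.le)) (eta_le_M6 hη hn0 hπ7) hdτ
    exact ⟨h4.trans (hww.mul_left _), h5⟩
  have hH0 : 0 < D * H1 * H3 := Nat.mul_pos hκ hH3p
  obtain ⟨T, hT1, hT2, hT3⟩ := hWin (X 0) (X 1) A (∏ t ∈ Ico t2 J, B' 0 t)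
    (∏ t ∈ Ico t2 J, B' 1 t) ((∏ t ∈ Ico t2 J, Bu t).image fun a => π * w * a) (D * H1)
    (D * H1 * H3) W S g w0 η τ hW hη (cA 0 i0) (cA 1 i1) cA2
    (fun x1 h1 x2 h2 a ha => ⟨(hloc x1 h1 x2 h2 a ha).2.1,
      (Nat.le_mul_of_pos_left _ two_pos).trans (hloc x1 h1 x2 h2 a ha).2.2.1⟩)
    (fun γ hγ => (mem_union.1 hγ).elim (hΓ 0 i0 γ) (hΓ 1 i1 γ))
    (fun γ hγ => by
      obtain ⟨b, hb, rfl⟩ := mem_image.1 hγ
      exact hγ3 b hb)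
    (by
      rw [mul_assoc, ← Nat.cast_mul]
      exact eta_le_M6 hη hn1 (hSJ.le.trans (Nat.le_mul_of_pos_left _ hH0)))
  have hdN := fun i hi => dN_M6 (hS'.sm.one i hi) hd0 hjD hdp (range J)
  have hπN := fun i hi => piN_M6 (hS'.sm.one i hi) hπ hπ1 hπ4
    (fun t ht h => disjoint_left.1 (hdis t ht) (hS'.sub i hi t h) hπP) (range J)
  have hX2 : ∀ b ∈ ∏ t ∈ Ico t1 J, Bu t, ∃ m1, m1 ∣ ∏ t ∈ range J, N' 2 t ∧ 0 < m1 ∧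
      π * w * b * sg (d * π * m1) = D * H1 * H3 * S * (d * π * m1) := fun b hb => by
    obtain ⟨mγ, h1, h2, h3⟩ := hP3.1.sup _ (hmq _ hJ1 b hb)
    obtain ⟨m1, rfl⟩ : q ∣ mγ := (dvd_mul_left _ _).trans h1
    have h5 : m1 ∣ ∏ t ∈ range J, N' 2 t := ((dvd_mul_left _ _).trans h2).trans
      (prod_dvd_prod_of_subset _ _ _ fun t ht => mem_range.2 (mem_Ico.1 ht).2)
    refine ⟨m1, h5, Nat.pos_of_dvd_of_pos h5 (Nat.pos_of_ne_zero (hP2' 2 i2).1.sqf.ne_zero), ?_⟩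
    rw [eS3] at h3
    rw [mul_assoc (D * H1) H3]
    exact id_M6 hπ hq (hπ.coprime_iff_not_dvd.2 fun h =>
        absurd (Nat.le_of_dvd hd0 h) (not_le.2 hπ5)).symm
      ((Nat.Coprime.mul_left (hdN 2 i2) (hπN 2 i2)).coprime_dvd_right h5)
      (Nat.squarefree_mul_iff.1 (hP3.1.sqf.squarefree_of_dvd h2)).1 hπ3 hw h3
  have hX3 : ∀ b ∈ ∏ t ∈ Ico t1 J, Bu t, π * w * b ≤ D * H1 * H3 * S := fun b hb => by
    obtain ⟨m1, -, h1, h2⟩ := hX2 b hb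
    refine Nat.le_of_mul_le_mul_right (c := d * π * m1) ?_
      (Nat.mul_pos (Nat.mul_pos hd0 hπ.pos) h1)
    rw [← h2]
    exact Nat.mul_le_mul_left _ (le_sg _)
  have hsz : π * w * ∏ t ∈ Ico t1 J, su t ≤ 4 * (D * H1 * H3 * S) ∧
      D * H1 * H3 * S ≤ 4 * (π * w * ∏ t ∈ Ico t1 J, su t) := by
    obtain ⟨a1, ha1⟩ := hPA.1.ne
    obtain ⟨b, hb⟩ := (hPu (Ico t2 J)).1.ne
    have h1 : a1 * b ∈ ∏ t ∈ Ico t1 J, Bu t := by rw [eU]; exact mul_mem_mul ha1 hb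
    obtain ⟨-, h2, h3⟩ := (hPu (Ico t1 J)).2 _ h1
    exact sz_M6 hD (hAa a1 ha1).2.2 h2 (three_M6 hj h3) (hX3 _ h1) (hγ3 b hb).2 hτ1 hη1
  have hmb := hMn ![(∏ t ∈ range J, B' 0 t).image fun a => c 0 * a,
      (∏ t ∈ range J, B' 1 t).image fun a => c 1 * a,
      (∏ t ∈ Ico t1 J, Bu t).image fun a => π * w * a] (D * H1 * H3 * S) q0 n (π * w) Zs hq4 hμ hμ2
    hZ0 (fun q' u β h1 h2 h3 h4 => hYS _ (hq1.trans h3) Bu _ _ hSu hSp (π * w) J _ q' u β hμ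
      hsz.1 hsz.2 (hJL.trans (two_pow_le_M4 hSu.two_le (Ico t1 J)).le) h1 h2 rfl h4)
    (fun i hi => eS ▸ (hZs i hi).2 B' N' s' hS'.sm hS'.spr
        (fun t ht => ⟨(hz1 t ht).1, fun i => ((hz1 t ht).2.2 i).1⟩) J hJ3.le)
    (fun i _ h1 => by
      obtain ⟨Z, h2, h3, h4⟩ := hYZ (q0 * 2 ^ i) (hYi i) B' N' s' hS'.sm J (eS ▸ h1)
      exact ⟨Z, h2, h3,
        eS ▸ h4 B' N' s' hS'.sm hS'.spr (fun _ _ => ⟨rfl, fun _ => rfl⟩) J le_rfl⟩)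
  have hle : ∀ i < 3, ∀ x ∈ (∏ t ∈ range J, B' i t).image fun a => c i * a,
      x ≤ D * H1 * H3 * S := fun i hi x hx => by
    obtain ⟨b, hb, rfl⟩ := mem_image.1 hx
    rw [← eS]
    exact Nat.mul_le_mul (hcD i hi).2 ((hP2' i hi).2 b hb).2.1
  have hle2 : ∀ x ∈ (∏ t ∈ Ico t1 J, Bu t).image fun a => π * w * a, x ≤ D * H1 * H3 * S :=
    fun x hx => by
      obtain ⟨b, hb, rfl⟩ := mem_image.1 hx
      exact hX3 b hb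
  have hSt : 0 < D * H1 * H3 * S := Nat.mul_pos hH0 hS0
  have hdf := hdiff _ (D * H1 * H3 * S) q0 _ (6 * η) hSt hq4 (mul_pos (by norm_num) hη).le
    ((mul_le_mul_of_nonneg_left hη1 (by norm_num)).trans (by norm_num))
    (Fin.forall_fin_succ.2 ⟨hle 0 i0, Fin.forall_fin_succ.2 ⟨hle 1 i1,
      Fin.forall_fin_succ.2 ⟨hle2, fun i => i.elim0⟩⟩⟩) hmb T (D * H1 * H3 * S) (win_M6 hη1 hT2).1
    (hWd ▸ (Nat.modEq_zero_iff_dvd.2 (hWS.mul_left _)).trans (Nat.modEq_zero_iff_dvd.2 hT1).symm)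
    (win_M6 hη1 hT2).2
  rw [Fin.prod_univ_three] at hdf
  have hlow := low_M6 hPi0 hη (cA 0 i0) (cA 1 i1) cA2 hT3
  rw [eA, eA, eA2] at hlow
  have hpos := pos_M6 (mul_pos (mul_pos
      (Nat.cast_pos.2 (card_pos.2 ((hP2' 0 i0).1.ne.image fun a => c 0 * a)))
      (Nat.cast_pos.2 (card_pos.2 ((hP2' 1 i1).1.ne.image fun a => c 1 * a))))
      (Nat.cast_pos.2 (card_pos.2 ((hPu (Ico t1 J)).1.ne.image fun a => π * w * a))))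
    (Nat.cast_pos.2 hSt) hlow hdf hEr' (by rw [← mul_assoc]; norm_num at hq3 ⊢; exact hq3) hη2
  exact fin_M6 hProd hEnd hS'.sm hj hc hcc ((Nat.le_add_right _ _).trans hjD) eS hd0 hπ hπ6
    (fun p hp => (hdp p hp).1) hdN hπN (fun x hx => by
      obtain ⟨b, hb, rfl⟩ := mem_image.1 hx
      exact hX2 b hb) hSt hJM (Nat.cast_pos.1 hpos)

end Pool.Agent.MP_2876a2_nt.Tu.Z
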