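import Pool.Agent.MP_2876a2_nt.Tu.St6
import Pool.Agent.Mg.Fbd74a7.G9f9525

/-!
Majorants, minor arcs and the choice of the multiplier.
-/

set_option autoImplicit false
set_option linter.all false

noncomputable section
open Finset Filter
open scoped Pointwise


namespace Pool.Agent.MP_2876a2_nt.Tu.Z

theorem sMx0 : StMx0 := by
  intro B Q α
  have hc : Continuous fun θ : ℝ => ‖ES B (α + θ / Q)‖ ^ 2 := by
    unfold ES ee
    fun_prop
  obtain ⟨θ0, h0, hm⟩ := isCompact_Icc.exists_isMaxOn (Set.nonempty_Icc.2 (zero_le_one' ℝ))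
    hc.continuousOn
  have hb : BddAbove (Set.range fun θ : Set.Icc (0 : ℝ) 1 => ‖ES B (α + θ / Q)‖ ^ 2) :=
    ⟨‖ES B (α + θ0 / Q)‖ ^ 2, by rintro _ ⟨θ, rfl⟩; exact hm θ.2⟩
  have h1 : ∀ θ : ℝ, 0 ≤ θ → θ ≤ 1 → ‖ES B (α + θ / Q)‖ ^ 2 ≤ Mx B Q α :=
    fun θ a b => le_ciSup hb ⟨θ, a, b⟩
  exact ⟨h1, θ0, h0.1, h0.2, le_antisymm (ciSup_le fun θ => hm θ.2) (h1 θ0 h0.1 h0.2)⟩

end Pool.Agent.MP_2876a2_nt.Tu.Z

end

noncomputable section
open Finset Filter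
open scoped Pointwise


namespace Pool.Agent.MP_2876a2_nt.Tu.Z

lemma gen_XMx (hL : StLS) (hC : StCov) {ι : Type} [Encodable ι] (I : Finset ι) (B : Finset ℕ)
    (Q : ℕ) (α : ι → ℝ) (μ : ℝ) (hB : ∀ b ∈ B, 1 ≤ b ∧ b ≤ Q) (hQ : 1 ≤ Q)
    (hμ : ∀ x : ℝ, ((I.filter fun v => nz (α v - x) ≤ 1 / Q).card : ℝ) ≤ μ) :
    ∑ v ∈ I, ‖ES B (α v)‖ ^ 2 ≤ B.card * (4 * μ * Q * (1 + Real.log Q)) := by
  obtain ⟨β, hβ⟩ : ∃ β : ℕ → ℝ, ∀ v : ι, β (Encodable.encode v) = α v :=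
    ⟨fun n => ((Encodable.decode n : Option ι).map α).getD 0, fun v => by simp⟩
  have h1 := hC (I.map ⟨Encodable.encode, Encodable.encode_injective⟩) Q β μ hQ fun x => by
    rw [filter_map, card_map]
    refine le_of_eq_of_le ?_ (hμ x)
    congr 2
    ext v
    simp [hβ]
  have h2 := hL (I.map ⟨Encodable.encode, Encodable.encode_injective⟩) B Q β (fun _ => 1) _ hB
    (fun _ _ => zero_le_one) fun x => by simpa only [one_mul] using h1 x
  simpa [hβ] using h2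

lemma pt_XMx {Q a b : ℕ} {i n : ℤ} {θ x Y : ℝ} (hQ : 1 ≤ Q) (hb : 1 ≤ b) (hbY : (b : ℝ) ≤ 2 * Y)
    (hi : |(i : ℝ)| ≤ 2 * Y / b + 1) (h0 : 0 ≤ θ) (h1 : θ ≤ 1)
    (h : |(a : ℝ) / b + i / Q + θ / Q - x - n| ≤ 1 / Q) :
    |(((a : ℤ) - n * b : ℤ) : ℝ) - x * b| ≤ 8 * Y / Q ∧
      ⌈(Q : ℝ) * (x + n - a / b) - 2⌉ ≤ i ∧ i ≤ ⌈(Q : ℝ) * (x + n - a / b) - 2⌉ + 3 := by
  have q0 : (0 : ℝ) < Q := by exact_mod_cast hQ
  have b0 : (0 : ℝ) < b := by exact_mod_cast hb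
  have h2 : |(i : ℝ) + θ - Q * (x + n - a / b)| ≤ 1 := by
    have e : (i : ℝ) + θ - Q * (x + n - a / b) = Q * ((a : ℝ) / b + i / Q + θ / Q - x - n) := by
      field_simp
      ring
    rw [e, abs_mul, abs_of_pos q0]
    exact (mul_le_mul_of_nonneg_left h q0.le).trans_eq (by field_simp)
  obtain ⟨h3, h4⟩ := abs_le.1 h2
  obtain ⟨h5, h6⟩ := abs_le.1 hi
  refine ⟨?_, Int.ceil_le.2 (by linarith), ?_⟩
  · have e : (((a : ℤ) - n * b : ℤ) : ℝ) - x * b = -(b * (Q * (x + n - a / b))) / Q := by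
      push_cast
      field_simp
      ring
    have h7 : |(Q : ℝ) * (x + n - a / b)| ≤ 2 * Y / b + 3 := abs_le.2 ⟨by linarith, by linarith⟩
    have h8 : (b : ℝ) * (2 * Y / b + 3) = 2 * Y + 3 * b := by field_simp
    rw [e, abs_div, abs_neg, abs_mul, abs_of_pos b0, abs_of_pos q0]
    refine div_le_div_of_nonneg_right ?_ q0.le
    linarith [mul_le_mul_of_nonneg_left h7 b0.le]
  · have h7 := Int.le_ceil ((Q : ℝ) * (x + n - a / b) - 2)
    have h8 : (i : ℝ) ≤ ⌈(Q : ℝ) * (x + n - a / b) - 2⌉ + 3 := by linarith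
    exact_mod_cast h8

theorem sMx (h0 : StMx0) (hL : StLS) (hC : StCov) (hP : StPrim) : StMx := by
  intro B Q Y hB hQ hY
  classical
  choose θ t0 t1 t2 using fun α => (h0 B Q α).2
  have q0 : (0 : ℝ) < Q := by exact_mod_cast hQ
  obtain ⟨I, hI⟩ : ∃ I : Finset (Σ _ : ℕ, ℕ × ℤ), I = (Icc 1 ⌊2 * Y⌋₊).sigma fun b =>
    ((range b).filter fun a => a.Coprime b) ×ˢ
      Icc (-((⌊2 * Y / b⌋₊ + 1 : ℕ) : ℤ)) (⌊2 * Y / b⌋₊ + 1 : ℕ) := ⟨_, rfl⟩
  obtain ⟨α, hα⟩ : ∃ α : (Σ _ : ℕ, ℕ × ℤ) → ℝ, α = fun v => (v.2.1 : ℝ) / v.1 + v.2.2 / Q +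
    θ ((v.2.1 : ℝ) / v.1 + v.2.2 / Q) / Q := ⟨_, rfl⟩
  have e1 : ∑ b ∈ Icc 1 ⌊2 * Y⌋₊, Zb B Q Y b = ∑ v ∈ I, ‖ES B (α v)‖ ^ 2 := by
    rw [hI, sum_sigma, hα]
    refine sum_congr rfl fun b _ => ?_
    rw [sum_product, Zb]
    exact sum_congr rfl fun a _ => sum_congr rfl fun i _ => t2 _
  have e2 : 1040 * (Q + Y ^ 2) * (1 + Real.log Q) =
      4 * (260 * (1 + Y ^ 2 / Q)) * Q * (1 + Real.log Q) := by
    field_simp
    ring
  rw [e1, e2]
  refine gen_XMx hL hC I B Q α _ hB hQ fun x => ?_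
  obtain ⟨W, hW⟩ : ∃ W, W = I.filter fun v => nz (α v - x) ≤ 1 / Q := ⟨_, rfl⟩
  obtain ⟨n, hn⟩ : ∃ n : (Σ _ : ℕ, ℕ × ℤ) → ℤ, n = fun v => round (α v - x) := ⟨_, rfl⟩
  rw [← hW]
  have key : ∀ v ∈ W, (1 ≤ v.1 ∧ v.1 ≤ ⌊2 * Y⌋₊) ∧ v.2.1 < v.1 ∧ v.2.1.Coprime v.1 ∧
      |(((v.2.1 : ℤ) - n v * v.1 : ℤ) : ℝ) - x * v.1| ≤ 8 * Y / Q ∧
      ⌈(Q : ℝ) * (x + n v - v.2.1 / v.1) - 2⌉ ≤ v.2.2 ∧
      v.2.2 ≤ ⌈(Q : ℝ) * (x + n v - v.2.1 / v.1) - 2⌉ + 3 := by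
    intro v hv
    rw [hW, mem_filter, hI, mem_sigma, mem_product, mem_filter, mem_range, mem_Icc, mem_Icc] at hv
    obtain ⟨⟨k1, ⟨k2, k3⟩, k4⟩, k5⟩ := hv
    have k6 : |α v - x - n v| ≤ 1 / Q := by
      rw [hn]
      exact k5
    rw [hα] at k6
    have k7 : (v.1 : ℝ) ≤ 2 * Y := (Nat.le_floor_iff (by linarith)).1 k1.2
    have k8 : |(v.2.2 : ℝ)| ≤ 2 * Y / v.1 + 1 := by
      have a1 : |v.2.2| ≤ ((⌊2 * Y / v.1⌋₊ + 1 : ℕ) : ℤ) := abs_le.2 k4
      have a2 : |(v.2.2 : ℝ)| ≤ (⌊2 * Y / v.1⌋₊ : ℝ) + 1 := by exact_mod_cast a1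
      have a3 := Nat.floor_le (a := 2 * Y / v.1) (by positivity)
      linarith
    exact ⟨k1, k2, k3, pt_XMx hQ k1.1 k7 k8 (t0 _) (t1 _) k6⟩
  have hA := hP x (8 * Y / Q) ⌊2 * Y⌋₊ (W.image fun v => ((v.2.1 : ℤ) - n v * v.1, v.1))
    (by positivity) (by
      intro p hp
      obtain ⟨v, hv, rfl⟩ := mem_image.1 hp
      obtain ⟨k1, -, k2, k3, -⟩ := key v hv
      refine ⟨k1.1, k1.2, ?_, k3⟩
      have := (Nat.isCoprime_iff_coprime.2 k2).add_mul_right_left (-n v)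
      simpa [sub_eq_add_neg] using this)
  have f1 : W.card ≤ 4 * (W.image fun v => ((v.2.1 : ℤ) - n v * v.1, v.1)).card := by
    refine card_le_mul_card_image _ _ fun p hp => ?_
    obtain ⟨w, hw, rfl⟩ := mem_image.1 hp
    have hf : ∀ v ∈ W.filter fun v => ((v.2.1 : ℤ) - n v * v.1, v.1) =
        ((w.2.1 : ℤ) - n w * w.1, w.1), v.1 = w.1 ∧ v.2.1 = w.2.1 ∧ n v = n w := by
      intro v hv
      obtain ⟨hv, e⟩ := mem_filter.1 hv
      obtain ⟨e1, e2⟩ := Prod.mk.inj e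
      obtain ⟨k1, k2, -⟩ := key v hv
      obtain ⟨-, l2, -⟩ := key w hw
      rw [← e2] at e1 l2
      have g1 : (v.2.1 : ℤ) = w.2.1 := by
        have g0 : (v.2.1 : ℤ) % v.1 = w.2.1 % v.1 :=
          Int.modEq_iff_dvd.2 ⟨n w - n v, by linarith⟩
        rwa [Int.emod_eq_of_lt (by omega) (by omega),
          Int.emod_eq_of_lt (by omega) (by omega)] at g0
      have b0 : (v.1 : ℤ) ≠ 0 := by omega
      exact ⟨e2, by exact_mod_cast g1, mul_right_cancel₀ b0 (by linarith)⟩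
    refine (card_le_card_of_injOn (t := Icc ⌈(Q : ℝ) * (x + n w - w.2.1 / w.1) - 2⌉
      (⌈(Q : ℝ) * (x + n w - w.2.1 / w.1) - 2⌉ + 3)) (fun v => v.2.2) (fun v hv => ?_)
      fun v hv v' hv' e => ?_).trans ?_
    · obtain ⟨g1, g2, g3⟩ := hf v hv
      have := (key v (mem_filter.1 hv).1).2.2.2.2
      rw [g2, g1, g3] at this
      exact mem_Icc.2 this
    · obtain ⟨g1, g2, -⟩ := hf v hv
      obtain ⟨g3, g4, -⟩ := hf v' hv'
      exact Sigma.ext (g1.trans g3.symm) (heq_of_eq (Prod.ext (g2.trans g4.symm) e))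
    · rw [Int.card_Icc]
      omega
  have f2 : (W.card : ℝ) ≤ 4 * (W.image fun v => ((v.2.1 : ℤ) - n v * v.1, v.1)).card := by
    exact_mod_cast f1
  have z1 : (⌊2 * Y⌋₊ : ℝ) ≤ 2 * Y := Nat.floor_le (by linarith)
  have z2 : 4 * (8 * Y / Q) * (⌊2 * Y⌋₊ : ℝ) ≤ 4 * (8 * Y / Q) * (2 * Y) :=
    mul_le_mul_of_nonneg_left z1 (by positivity)
  have z3 : 4 * (8 * Y / Q) * (2 * Y) = 64 * (Y ^ 2 / Q) := by ring
  have y0 : 0 ≤ Y ^ 2 / Q := by positivity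
  linarith

end Pool.Agent.MP_2876a2_nt.Tu.Z

end

noncomputable section
open Finset Filter
open scoped Pointwise


namespace Pool.Agent.MP_2876a2_nt.Tu.Z

theorem fib_XZ1 {α γ : Type} [DecidableEq γ] (V : Finset α) (T : Finset γ) (g : α → γ)
    (F : α → ℝ) (f : γ → ℝ) (C : ℝ) (hm : ∀ v ∈ V, g v ∈ T) (hF : ∀ v ∈ V, F v ≤ f (g v))
    (h0 : ∀ p, 0 ≤ f p) (hc : ∀ p ∈ T, ((V.filter fun v => g v = p).card : ℝ) ≤ C) :
    ∑ v ∈ V, F v ≤ C * ∑ p ∈ T, f p := by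
  rw [← sum_fiberwise_of_maps_to hm, mul_sum]
  refine sum_le_sum fun p hp => ?_
  refine (sum_le_card_nsmul _ _ (f p) fun v hv => ?_).trans ?_
  · obtain ⟨h1, h2⟩ := mem_filter.1 hv
    exact h2 ▸ hF v h1
  · rw [nsmul_eq_mul]
    exact mul_le_mul_of_nonneg_right (hc p hp) (h0 p)

theorem per_XZ1 (B : Finset ℕ) (x : ℝ) (w : ℤ) : ES B (x + w) = ES B x := by
  refine sum_congr rfl fun a _ => ?_
  have : (x + w) * a = x * a + ((w * a : ℤ) : ℝ) := by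
    push_cast
    ring
  rw [this, ee_add, ee_int, mul_one]

theorem sZ1 (h0 : StMx0) : StZ1 := by
  intro B Q e m Y he
  have M0 : ∀ x, 0 ≤ Mx B Q x := fun x =>
    (sq_nonneg _).trans ((h0 B Q x).1 0 le_rfl zero_le_one)
  obtain ⟨d, hd⟩ : ∃ d, d = Nat.gcd e m := ⟨_, rfl⟩
  obtain ⟨b, hb⟩ : ∃ b, b = e / d := ⟨_, rfl⟩
  obtain ⟨m1, hm1⟩ : ∃ m1, m1 = m / d := ⟨_, rfl⟩
  rw [← hd, ← hb]
  have d0 : 0 < d := hd ▸ Nat.gcd_pos_of_pos_left _ he
  have e1 : e = d * b := by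
    rw [hb]
    exact (Nat.mul_div_cancel' (hd ▸ Nat.gcd_dvd_left _ _)).symm
  have e2 : m = d * m1 := by
    rw [hm1]
    exact (Nat.mul_div_cancel' (hd ▸ Nat.gcd_dvd_right _ _)).symm
  have c1 : m1.Coprime b := by
    rw [hb, hm1, hd]
    exact (Nat.coprime_div_gcd_div_gcd (hd ▸ d0)).symm
  have b0 : 0 < b := Nat.pos_of_mul_pos_left (e1 ▸ he)
  have B0 : (0 : ℝ) < b := Nat.cast_pos.2 b0
  have D0 : (0 : ℝ) < d := Nat.cast_pos.2 d0
  refine fib_XZ1 _ _ (fun u => u * m1 % b) _ _ d (fun u hu => ?_) (fun u _ => ?_)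
    (fun a => sum_nonneg fun _ _ => M0 _) fun a _ => ?_
  · refine mem_filter.2 ⟨mem_range.2 (Nat.mod_lt _ b0), ?_⟩
    have h1 : u.Coprime b := (mem_filter.1 hu).2.coprime_dvd_right ⟨d, by rw [e1, mul_comm]⟩
    have h2 := Nat.Coprime.mul_left h1 c1
    rw [Nat.Coprime, ← Nat.gcd_rec, Nat.gcd_comm]
    exact h2
  · have h1 : (u : ℝ) / e * m = ((u * m1 % b : ℕ) : ℝ) / b + ((u * m1 / b : ℕ) : ℤ) := by
      have h2 : ((u * m1 % b : ℕ) : ℝ) + b * ((u * m1 / b : ℕ) : ℝ) = u * m1 := by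
        exact_mod_cast Nat.mod_add_div (u * m1) b
      rw [e1, e2, Int.cast_natCast, Nat.cast_mul, Nat.cast_mul, eq_sub_of_add_eq h2]
      field_simp
      ring
    rw [h1, per_XZ1]
    have h3 := (h0 B Q (((u * m1 % b : ℕ) : ℝ) / b + ((0 : ℤ) : ℝ) / Q)).1 0 le_rfl zero_le_one
    rw [Int.cast_zero, zero_div, add_zero, add_zero] at h3
    refine h3.trans (le_trans (le_of_eq ?_) (single_le_sum
      (f := fun i : ℤ => Mx B Q (((u * m1 % b : ℕ) : ℝ) / b + i / Q)) (fun _ _ => M0 _)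
      (a := 0) (mem_Icc.2 ⟨by omega, by omega⟩)))
    rw [Int.cast_zero, zero_div, add_zero]
  · refine Nat.cast_le.2 (le_trans (card_le_card_of_injOn (t := range d) (fun u => u / b)
      (fun u hu => ?_) fun u hu u' hu' h => ?_) (card_range d).le)
    · have := mem_range.1 (mem_filter.1 (mem_filter.1 hu).1).1
      exact mem_range.2 ((Nat.div_lt_iff_lt_mul b0).2 (e1 ▸ this))
    · have h1 := (mem_filter.1 hu).2
      have h2 := (mem_filter.1 hu').2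
      have h3 : u ≡ u' [MOD b] :=
        Nat.ModEq.cancel_right_of_coprime c1.symm (h1.trans h2.symm)
      have h4 : u / b = u' / b := h
      rw [← Nat.mod_add_div u b, ← Nat.mod_add_div u' b, h4, h3]

end Pool.Agent.MP_2876a2_nt.Tu.Z

end

noncomputable section
open Finset Filter
open scoped Pointwise


namespace Pool.Agent.MP_2876a2_nt.Tu.Z

theorem fib_XZ2 {α γ : Type} [DecidableEq γ] (V : Finset α) (T : Finset γ) (g : α → γ)
    (F : α → ℝ) (f : γ → ℝ) (C : ℝ) (hm : ∀ v ∈ V, g v ∈ T) (hF : ∀ v ∈ V, F v ≤ f (g v))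
    (h0 : ∀ p, 0 ≤ f p) (hc : ∀ p ∈ T, ((V.filter fun v => g v = p).card : ℝ) ≤ C) :
    ∑ v ∈ V, F v ≤ C * ∑ p ∈ T, f p := by
  rw [← sum_fiberwise_of_maps_to hm, mul_sum]
  refine sum_le_sum fun p hp => ?_
  refine (sum_le_card_nsmul _ _ (f p) fun v hv => ?_).trans ?_
  · obtain ⟨h1, h2⟩ := mem_filter.1 hv
    exact h2 ▸ hF v h1
  · rw [nsmul_eq_mul]
    exact mul_le_mul_of_nonneg_right (hc p hp) (h0 p)

theorem per_XZ2 (B : Finset ℕ) (x : ℝ) (w : ℤ) : ES B (x + w) = ES B x := by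
  refine sum_congr rfl fun a _ => ?_
  have : (x + w) * a = x * a + ((w * a : ℤ) : ℝ) := by
    push_cast
    ring
  rw [this, ee_add, ee_int, mul_one]

theorem pt_XZ2 {T S e v : ℕ} {u : ℤ} {β Y : ℝ} (he : 0 < e) (hY : 2 ≤ Y) (hS : Y ^ 2 ≤ S)
    (hv : v < T) (h : (v : ℝ) / T = u / e + β) (hq : qs S e β < 2 * Y) :
    (e : ℝ) * (|β| * S) < 2 * Y ∧ 0 ≤ u ∧ u ≤ e := by
  have e0 : (0 : ℝ) < e := by exact_mod_cast he
  have T0 : (0 : ℝ) < T := by exact_mod_cast (Nat.zero_le v).trans_lt hv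
  have S2 : 2 * Y ≤ S := by nlinarith
  have S0 : (0 : ℝ) < S := by linarith
  have h2 : (e : ℝ) * (|β| * S) < 2 * Y :=
    lt_of_le_of_lt (mul_le_mul_of_nonneg_left (le_max_right _ _) e0.le) hq
  have h3 : (e : ℝ) * |β| < 1 := by
    refine lt_of_mul_lt_mul_right (a := (S : ℝ)) ?_ S0.le
    nlinarith
  have hu : (u : ℝ) = e * ((v : ℝ) / T) - e * β := by
    rw [h]
    field_simp
    ring
  have v0 : 0 ≤ (v : ℝ) / T := by positivity
  have v1 : (v : ℝ) / T ≤ 1 := (div_le_one T0).2 (by exact_mod_cast hv.le)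
  have k1 := mul_le_mul_of_nonneg_left (le_abs_self β) e0.le
  have k2 := mul_le_mul_of_nonneg_left (neg_abs_le β) e0.le
  refine ⟨h2, ?_, ?_⟩
  · have : (-1 : ℝ) < u := by nlinarith [mul_nonneg e0.le v0]
    have : (-1 : ℤ) < u := by exact_mod_cast this
    omega
  · have : (u : ℝ) < e + 1 := by nlinarith [mul_le_mul_of_nonneg_left v1 e0.le]
    have : u < e + 1 := by exact_mod_cast this
    omega

theorem near_XZ2 {K S m Q L v w : ℕ} {x β β' : ℝ} (hK : 1 ≤ K) (hm : 0 < m) (hQ : 0 < Q)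
    (hS : 0 < S) (h : S ≤ L * (m * Q)) (h1 : (v : ℝ) / (K * S : ℕ) = x + β)
    (h2 : (w : ℝ) / (K * S : ℕ) = x + β') (h3 : ⌊β * m * Q⌋ = ⌊β' * m * Q⌋) : v < w + K * L := by
  have t0 : (0 : ℝ) < (K * S : ℕ) := by exact_mod_cast Nat.mul_pos hK hS
  have q0 : (0 : ℝ) < Q := by exact_mod_cast hQ
  have m0 : (0 : ℝ) < m := by exact_mod_cast hm
  have a1 := Int.lt_floor_add_one (β * m * Q)
  have a2 := Int.floor_le (β' * m * Q)
  rw [h3] at a1
  have a3 : ((v : ℝ) - w) * (m * Q) / (K * S : ℕ) < 1 := by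
    have : ((v : ℝ) - w) * (m * Q) / (K * S : ℕ) =
      ((v : ℝ) / (K * S : ℕ) - (w : ℝ) / (K * S : ℕ)) * (m * Q) := by ring
    rw [this, h1, h2]
    nlinarith
  rw [div_lt_one t0] at a3
  have a4 : ((K * S : ℕ) : ℝ) ≤ (K * L : ℕ) * (m * Q) := by
    have : K * S ≤ K * L * (m * Q) := by rw [mul_assoc]; exact Nat.mul_le_mul_left _ h
    exact_mod_cast this
  have a6 := lt_of_mul_lt_mul_right (a3.trans_le a4) (mul_pos m0 q0).le
  have : (v : ℝ) < w + (K * L : ℕ) := by linarith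
  exact_mod_cast this

theorem sZ2 (h0 : StMx0) : StZ2 := by
  intro B K S m Q L e u q β Y hA hK hm hQ hmQ hL hY hS
  classical
  have M0 : ∀ x, 0 ≤ Mx B Q x := fun x => by
    obtain ⟨θ, -, -, h⟩ := (h0 B Q x).2
    rw [h]
    positivity
  obtain ⟨V, hV⟩ : ∃ V, V = (Vy K S q β Y).filter fun v => q v = e := ⟨_, rfl⟩
  obtain ⟨d, hd⟩ : ∃ d, d = Nat.gcd e m := ⟨_, rfl⟩
  obtain ⟨b, hb⟩ : ∃ b, b = e / d := ⟨_, rfl⟩
  obtain ⟨m1, hm1⟩ : ∃ m1, m1 = m / d := ⟨_, rfl⟩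
  rw [← hV, ← hd, ← hb]
  have d0 : 0 < d := hd ▸ Nat.gcd_pos_of_pos_right _ hm
  have e1 : e = d * b := by
    rw [hb]
    exact (Nat.mul_div_cancel' (hd ▸ Nat.gcd_dvd_left _ _)).symm
  have e2 : m = d * m1 := by
    rw [hm1]
    exact (Nat.mul_div_cancel' (hd ▸ Nat.gcd_dvd_right _ _)).symm
  have c1 : IsCoprime (m1 : ℤ) (b : ℤ) := by
    rw [Nat.isCoprime_iff_coprime, hb, hm1, hd]
    exact (Nat.coprime_div_gcd_div_gcd (hd ▸ d0)).symm
  have hS0 : 0 < S := (Nat.mul_pos hm hQ).trans_le hmQ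
  have q0 : (0 : ℝ) < Q := by exact_mod_cast hQ
  have D0 : (0 : ℝ) < d := by exact_mod_cast d0
  have key : ∀ v ∈ V, 0 < b ∧ IsCoprime (u v) (b : ℤ) ∧
      (v : ℝ) / (K * S : ℕ) = u v / e + β v ∧ (e : ℝ) * (|β v| * S) < 2 * Y ∧ 0 ≤ u v ∧
      u v ≤ e := fun v hv => by
    rw [hV] at hv
    obtain ⟨h1, h2⟩ := mem_filter.1 hv
    obtain ⟨h4, -, h5⟩ := mem_filter.1 h1
    obtain ⟨k1, k2, k3, -⟩ := hA v
    rw [h2] at k1 k2 k3 h5
    refine ⟨Nat.pos_of_mul_pos_left (e1 ▸ k1), ?_, k3, pt_XZ2 k1 hY hS (mem_range.1 h4) k3 h5⟩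
    rw [e1] at k2
    push_cast at k2
    exact k2.of_mul_right_right
  unfold Zb
  rw [← sum_product']
  refine fib_XZ2 V _ (fun v => ((u v * m1 % b).toNat, ⌊β v * m * Q⌋)) _
    (fun p => Mx B Q ((p.1 : ℝ) / b + (p.2 : ℝ) / Q)) _ (fun v hv => ?_) (fun v hv => ?_)
    (fun p => M0 _) fun p _ => ?_
  · obtain ⟨b0, k1, -, k2, -⟩ := key v hv
    have b1 : (0 : ℤ) < b := by exact_mod_cast b0
    have B0 : (0 : ℝ) < b := by exact_mod_cast b0
    have r0 := Int.emod_nonneg (u v * m1) b1.ne'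
    have r1 := Int.emod_lt_of_pos (u v * m1) b1
    refine mem_product.2 ⟨mem_filter.2 ⟨mem_range.2 (by simp only; omega), ?_⟩, ?_⟩
    · rw [← Nat.isCoprime_iff_coprime, Int.toNat_of_nonneg r0, Int.emod_def]
      have := (k1.mul_left c1).add_mul_left_left (-(u v * m1 / b))
      simpa [sub_eq_add_neg] using this
    · have z1 : |β v * m * Q| ≤ 2 * Y / b := by
        have y1 : (m : ℝ) * Q ≤ S := by exact_mod_cast hmQ
        have y2 : (b : ℝ) ≤ e := by exact_mod_cast e1 ▸ Nat.le_mul_of_pos_left b d0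
        rw [mul_assoc, abs_mul, abs_of_nonneg (by positivity : (0 : ℝ) ≤ m * Q), le_div_iff₀ B0]
        have y3 := mul_le_mul (mul_le_mul_of_nonneg_left y1 (abs_nonneg (β v))) y2 B0.le
          (by positivity)
        linarith
      have z2 := Nat.lt_floor_add_one (2 * Y / b)
      obtain ⟨z3, z4⟩ := abs_le.1 z1
      refine mem_Icc.2 ⟨Int.le_floor.2 ?_, ?_⟩
      · push_cast
        linarith
      · have : ((⌊β v * m * Q⌋ : ℤ) : ℝ) ≤ (((⌊2 * Y / b⌋₊ + 1 : ℕ) : ℤ) : ℝ) := by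
          have := Int.floor_le (β v * m * Q)
          push_cast
          linarith
        exact_mod_cast this
  · obtain ⟨b0, -, k1, -⟩ := key v hv
    have b1 : (0 : ℤ) < b := by exact_mod_cast b0
    have B0 : (0 : ℝ) < b := by exact_mod_cast b0
    have r0 := Int.emod_nonneg (u v * m1) b1.ne'
    have r2 : (((u v * m1 % b).toNat : ℕ) : ℝ) = u v * m1 - b * ((u v * m1 / b : ℤ) : ℝ) := by
      rw [← Int.cast_natCast, Int.toNat_of_nonneg r0, Int.emod_def]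
      push_cast
      ring
    have r3 : (v : ℝ) / (K * S : ℕ) * m = ((((u v * m1 % b).toNat : ℕ) : ℝ) / b +
        (⌊β v * m * Q⌋ : ℤ) / Q + Int.fract (β v * m * Q) / Q) + ((u v * m1 / b : ℤ) : ℝ) := by
      have x1 : (e : ℝ) = d * b := by exact_mod_cast e1
      have x2 : (m : ℝ) = d * m1 := by exact_mod_cast e2
      rw [k1, r2, Int.fract, x1]
      generalize ((⌊β v * m * Q⌋ : ℤ) : ℝ) = i
      rw [x2]
      field_simp
      ring
    rw [r3, per_XZ2]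
    exact (h0 B Q _).1 _ (Int.fract_nonneg _) (Int.fract_lt_one _).le
  · have f1 : (V.filter fun v => ((u v * m1 % b).toNat, ⌊β v * m * Q⌋) = p).card ≤
        2 * (K * L) * (Icc (0 : ℤ) d).card := by
      refine card_le_mul_card_image_of_maps_to (f := fun v => u v / b) (fun v hv => ?_) _
        fun k _ => ?_
      · obtain ⟨b0, -, -, -, k2, k3⟩ := key v (mem_filter.1 hv).1
        have b1 : (0 : ℤ) < b := by exact_mod_cast b0
        refine mem_Icc.2 ⟨Int.ediv_nonneg k2 b1.le, Int.ediv_le_of_le_mul b1 ?_⟩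
        rw [e1] at k3
        exact_mod_cast k3
      rcases eq_empty_or_nonempty (filter (fun v => u v / b = k)
        (V.filter fun v => ((u v * m1 % b).toNat, ⌊β v * m * Q⌋) = p)) with c | ⟨w, hw⟩
      · rw [c]
        simp
      refine (card_le_card (t := Ico (w + 1 - K * L) (w + K * L)) fun v hv => ?_).trans ?_
      swap
      · rw [Nat.card_Ico]
        omega
      obtain ⟨v1, v2⟩ := mem_filter.1 hv
      obtain ⟨v3, v4⟩ := mem_filter.1 v1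
      obtain ⟨w1, w2⟩ := mem_filter.1 hw
      obtain ⟨w3, w4⟩ := mem_filter.1 w1
      obtain ⟨g0, g4⟩ := Prod.mk.inj (v4.trans w4.symm)
      obtain ⟨b0, -, k1, -⟩ := key v v3
      obtain ⟨-, -, l1, -⟩ := key w w3
      have b1 : (0 : ℤ) < b := by exact_mod_cast b0
      have r0 := Int.emod_nonneg (u v * m1) b1.ne'
      have r1 := Int.emod_nonneg (u w * m1) b1.ne'
      have g1 : u w * m1 % b = u v * m1 % b := by omega
      have g2 : u w % b = u v % b := by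
        have := Int.modEq_iff_dvd.1 g1
        rw [← sub_mul] at this
        exact Int.modEq_iff_dvd.2 (c1.symm.dvd_of_dvd_mul_right this)
      have g3 : u v = u w := by
        rw [← Int.emod_add_mul_ediv (u v) b, ← Int.emod_add_mul_ediv (u w) b, g2, v2, w2]
      rw [g3] at k1
      have := near_XZ2 hK hm hQ hS0 hL k1 l1 g4
      have := near_XZ2 hK hm hQ hS0 hL l1 k1 g4.symm
      rw [mem_Ico]
      omega
    have f2 : 2 * (K * L) * (Icc (0 : ℤ) d).card ≤ 4 * L * K * d := by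
      have : (Icc (0 : ℤ) d).card = d + 1 := by simp
      rw [this]
      nlinarith [Nat.mul_le_mul_left (K * L) d0]
    exact_mod_cast f1.trans f2

end Pool.Agent.MP_2876a2_nt.Tu.Z

end

noncomputable section
open Finset Filter
open scoped Pointwise


namespace Pool.Agent.MP_2876a2_nt.Tu.Z

theorem cop_XZ {N : ℕ → ℕ} (h : ∀ i i', i ≠ i' → (N i).Coprime (N i')) (I I' : Finset ℕ)
    (hd : ∀ i ∈ I, ∀ i' ∈ I', i ≠ i') : (∏ i ∈ I, N i).Coprime (∏ i ∈ I', N i) :=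
  Nat.Coprime.prod_left fun i hi => Nat.Coprime.prod_right fun i' hi' => h i i' (hd i hi i' hi')

theorem three_XZ {j0 a b : ℕ} (hj : 2 ≤ j0)
    (h : (a : ℝ) ≤ Real.exp (2 / (j0 + (0 : ℕ))) * b) : a ≤ 3 * b := by
  have h1 : (2 : ℝ) ≤ j0 := by exact_mod_cast hj
  have h2 : Real.exp (2 / (j0 + (0 : ℕ))) ≤ 3 := by
    refine (Real.exp_le_exp.2 ?_).trans (Real.exp_one_lt_d9.le.trans (by norm_num))
    rw [Nat.cast_zero, add_zero, div_le_one (by linarith)]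
    exact h1
  exact_mod_cast h.trans (mul_le_mul_of_nonneg_right h2 (Nat.cast_nonneg b))

theorem core_XZ (V M : Finset ℕ) (T : ℕ → ℕ → ℂ) (F : ℕ → ℂ) (e : ℕ) (he : 0 < e) (Γ C : ℝ)
    (z w : ℕ → ℝ) (hz : ∀ b, 0 ≤ z b) (hC : 0 ≤ C) (hΓ : 0 ≤ Γ)
    (hF : ∀ v ∈ V, F v = ∑ m ∈ M, T m v)
    (hg : ∑ m ∈ M, ((Nat.gcd e m : ℕ) : ℝ) ≤ Γ * M.card)
    (hT : ∀ m ∈ M, ∑ v ∈ V, ‖T m v‖ ^ 2 ≤ C * (Nat.gcd e m : ℕ) * z (e / Nat.gcd e m))
    (hw : ∀ d ∈ e.divisors, ((M.filter fun m => d ∣ m).card : ℝ) ≤ w d * M.card) :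
    ∑ v ∈ V, ‖F v‖ ^ 2 ≤ (M.card : ℝ) ^ 2 * (C * Γ * ∑ d ∈ e.divisors, w d * z (e / d)) := by
  have gp : ∀ m, (0 : ℝ) < (Nat.gcd e m : ℕ) := fun m =>
    Nat.cast_pos.2 (Nat.gcd_pos_of_pos_left _ he)
  have h1 : ∀ v ∈ V, ‖F v‖ ^ 2 ≤
      Γ * M.card * ∑ m ∈ M, ‖T m v‖ ^ 2 / ((Nat.gcd e m : ℕ) : ℝ) := fun v hv => by
    rw [hF v hv]
    refine (pow_le_pow_left₀ (norm_nonneg _) (norm_sum_le _ _) 2).trans ?_
    refine (sum_sq_le_sum_mul_sum_of_sq_le_mul M (f := fun m => ((Nat.gcd e m : ℕ) : ℝ))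
      (g := fun m => ‖T m v‖ ^ 2 / ((Nat.gcd e m : ℕ) : ℝ)) (fun m _ => (gp m).le)
      (fun m _ => div_nonneg (sq_nonneg _) (gp m).le) fun m _ => ?_).trans ?_
    · rw [mul_div_cancel₀ _ (gp m).ne']
    · exact mul_le_mul_of_nonneg_right hg
        (sum_nonneg fun m _ => div_nonneg (sq_nonneg _) (gp m).le)
  have h2 : ∑ m ∈ M, z (e / Nat.gcd e m) ≤ M.card * ∑ d ∈ e.divisors, w d * z (e / d) := by
    calc ∑ m ∈ M, z (e / Nat.gcd e m)
        ≤ ∑ m ∈ M, ∑ d ∈ e.divisors, if d ∣ m then z (e / d) else 0 := by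
          refine sum_le_sum fun m _ => ?_
          refine le_trans ?_ (single_le_sum (f := fun d => if d ∣ m then z (e / d) else 0)
            (fun d _ => by split_ifs; exacts [hz _, le_rfl])
            (Nat.mem_divisors.2 ⟨Nat.gcd_dvd_left e m, he.ne'⟩))
          rw [if_pos (Nat.gcd_dvd_right e m)]
      _ = ∑ d ∈ e.divisors, ((M.filter fun m => d ∣ m).card : ℝ) * z (e / d) := by
          rw [sum_comm]
          refine sum_congr rfl fun d _ => ?_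
          rw [← sum_filter, sum_const, nsmul_eq_mul]
      _ ≤ _ := by
          rw [mul_sum]
          refine sum_le_sum fun d hd => ?_
          exact (mul_le_mul_of_nonneg_right (hw d hd) (hz _)).trans (le_of_eq (by ring))
  have h3 : ∑ v ∈ V, ∑ m ∈ M, ‖T m v‖ ^ 2 / ((Nat.gcd e m : ℕ) : ℝ) ≤
      C * ∑ m ∈ M, z (e / Nat.gcd e m) := by
    rw [sum_comm, mul_sum]
    refine sum_le_sum fun m hm => ?_
    rw [← sum_div, div_le_iff₀ (gp m)]
    exact (hT m hm).trans (le_of_eq (by ring))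
  refine (sum_le_sum h1).trans ?_
  rw [← mul_sum]
  refine (mul_le_mul_of_nonneg_left (h3.trans (mul_le_mul_of_nonneg_left h2 hC))
    (mul_nonneg hΓ (Nat.cast_nonneg _))).trans (le_of_eq (by ring))

theorem fib_XZ {P : Finset ℕ} (hP : Spr P) {c D d : ℕ} (c0 : 0 < c) (cD : c ≤ D) (d0 : 0 < d)
    {T : ℝ} (T0 : 0 ≤ T) (hT : (d : ℝ) ≤ T ^ 20) :
    (((P.image fun a => c * a).filter fun m => d ∣ m).card : ℝ) ≤
      D * T / d * (P.image fun a => c * a).card := by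
  have inj : Set.InjOn (fun a => c * a) (P : Set ℕ) :=
    fun a _ b _ h => Nat.eq_of_mul_eq_mul_left c0 h
  rw [card_image_of_injOn inj]
  have g0 : 0 < Nat.gcd d c := Nat.gcd_pos_of_pos_left _ d0
  have h1 : ((P.image fun a => c * a).filter fun m => d ∣ m).card ≤
      (P.filter fun b => d / Nat.gcd d c ∣ b).card := by
    rw [filter_image]
    refine card_image_le.trans (card_le_card fun b hb => ?_)
    rw [mem_filter] at hb ⊢
    refine ⟨hb.1, ?_⟩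
    have h2 := Nat.coprime_div_gcd_div_gcd g0
    refine h2.dvd_of_dvd_mul_left ?_
    refine Nat.dvd_of_mul_dvd_mul_left g0 ?_
    rw [← mul_assoc, Nat.mul_div_cancel' (Nat.gcd_dvd_left d c),
      Nat.mul_div_cancel' (Nat.gcd_dvd_right d c)]
    exact hb.2
  have h3 : d ≤ D * (d / Nat.gcd d c) := by
    conv_lhs => rw [← Nat.mul_div_cancel' (Nat.gcd_dvd_left d c)]
    exact Nat.mul_le_mul_right _ ((Nat.le_of_dvd c0 (Nat.gcd_dvd_right d c)).trans cD)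
  have h4 := hP (d / Nat.gcd d c)
  generalize ((P.image fun a => c * a).filter fun m => d ∣ m).card = x at h1 ⊢
  generalize (P.filter fun b => d / Nat.gcd d c ∣ b).card = y at h1 h4
  generalize d / Nat.gcd d c = d' at h3 h4
  have h5 : x ^ 20 * d ^ 19 ≤ D ^ 20 * P.card ^ 20 :=
    calc x ^ 20 * d ^ 19 ≤ y ^ 20 * (D * d') ^ 19 := by gcongr
      _ = D ^ 19 * (y ^ 20 * d' ^ 19) := by ring
      _ ≤ D ^ 20 * P.card ^ 20 :=
        Nat.mul_le_mul (Nat.pow_le_pow_right (by omega) (by norm_num)) h4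
  have h6 : (x : ℝ) ^ 20 * (d : ℝ) ^ 19 ≤ (D : ℝ) ^ 20 * (P.card : ℝ) ^ 20 := by exact_mod_cast h5
  have d1 : (0 : ℝ) < d := Nat.cast_pos.2 d0
  rw [div_mul_eq_mul_div, le_div_iff₀ d1]
  refine le_of_pow_le_pow_left₀ (n := 20) (by norm_num) (by positivity) ?_
  calc ((x : ℝ) * d) ^ 20 = (x : ℝ) ^ 20 * (d : ℝ) ^ 19 * d := by ring
    _ ≤ (D : ℝ) ^ 20 * (P.card : ℝ) ^ 20 * T ^ 20 := mul_le_mul h6 hT d1.le (by positivity)
    _ = _ := by ring

theorem conv_XZ (n : ℕ) (f g : ℕ → ℝ) (hf : ∀ d, 0 ≤ f d) (hg : ∀ b, 0 ≤ g b) :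
    ∑ e ∈ Icc 1 n, ∑ d ∈ e.divisors, f d * g (e / d) ≤
      (∑ d ∈ Icc 1 n, f d) * ∑ b ∈ Icc 1 n, g b := by
  have p0 : ∀ d b e : ℕ, 0 ≤ if d * b = e then f d * g b else 0 := fun d b e => by
    split_ifs
    exacts [mul_nonneg (hf _) (hg _), le_rfl]
  calc ∑ e ∈ Icc 1 n, ∑ d ∈ e.divisors, f d * g (e / d)
      ≤ ∑ e ∈ Icc 1 n, ∑ d ∈ Icc 1 n, ∑ b ∈ Icc 1 n, if d * b = e then f d * g b else 0 := by
        refine sum_le_sum fun e he => ?_
        have he' := mem_Icc.1 he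
        refine le_trans (sum_le_sum fun d hd => ?_) (sum_le_sum_of_subset_of_nonneg
          (s := e.divisors) (fun d hd => mem_Icc.2 ⟨Nat.pos_of_mem_divisors hd,
            (Nat.divisor_le hd).trans he'.2⟩) fun d _ _ => sum_nonneg fun b _ => p0 d b e)
        have hd' := Nat.dvd_of_mem_divisors hd
        refine le_trans ?_ (single_le_sum (f := fun b => if d * b = e then f d * g b else 0)
          (fun b _ => p0 d b e) (a := e / d) (mem_Icc.2 ⟨Nat.div_pos (Nat.divisor_le hd)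
            (Nat.pos_of_mem_divisors hd), (Nat.div_le_self _ _).trans he'.2⟩))
        rw [if_pos (Nat.mul_div_cancel' hd')]
    _ ≤ _ := by
        rw [sum_mul_sum, sum_comm]
        refine sum_le_sum fun d _ => ?_
        rw [sum_comm]
        refine sum_le_sum fun b _ => ?_
        rw [sum_ite_eq]
        split_ifs
        exacts [le_rfl, mul_nonneg (hf _) (hg _)]

theorem num_XZ (D : ℝ) (hD : 0 ≤ D) : ∀ᶠ Y : ℝ in atTop, 2 ≤ Y ∧
    ∀ Q n H S : ℝ, Y ^ (199 / 100 : ℝ) ≤ Q → Q ≤ Y ^ 2 → 0 ≤ n → Q ^ 97 ≤ n ^ 100 → 0 ≤ H →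
      H ≤ 1 + Real.log (2 * Y) → 0 ≤ S → S ≤ n * (1040 * (Q + Y ^ 2) * (1 + Real.log Q)) →
      0 < n ∧ 12 * D * (D * (2 * Y) ^ (7 / 100 : ℝ)) *
        (D * (2 * Y) ^ (1 / 20 : ℝ) * H * S) / n ^ 2 ≤ Y ^ (1 / 4 : ℝ) := by
  have ht := tendsto_rpow_atTop (show (0 : ℝ) < 1 / 200 by norm_num)
  filter_upwards [ht.eventually_ge_atTop (20000000000 * D ^ 3), ht.eventually_ge_atTop 8,
    eventually_ge_atTop (2 : ℝ)] with Y a1 a2 a3
  have Y0 : 0 ≤ Y := by linarith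
  have pw : ∀ k : ℕ, (Y ^ (1 / 200 : ℝ)) ^ k = Y ^ ((k : ℝ) / 200) := fun k => by
    rw [← Real.rpow_natCast, ← Real.rpow_mul Y0]
    congr 1
    ring
  have e1 : Y ^ (199 / 100 : ℝ) = (Y ^ (1 / 200 : ℝ)) ^ 398 := by rw [pw]; norm_num
  have e2 : Y ^ (1 / 4 : ℝ) = (Y ^ (1 / 200 : ℝ)) ^ 50 := by rw [pw]; norm_num
  have e3 : Y ^ (1 / 20 : ℝ) = (Y ^ (1 / 200 : ℝ)) ^ 10 := by rw [pw]; norm_num
  have e3' : Y ^ (7 / 100 : ℝ) = (Y ^ (1 / 200 : ℝ)) ^ 14 := by rw [pw]; norm_num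
  have e4 : Y = (Y ^ (1 / 200 : ℝ)) ^ 200 := by rw [pw]; norm_num
  have e5 : (2 * Y) ^ (1 / 20 : ℝ) ≤ 2 * (Y ^ (1 / 200 : ℝ)) ^ 10 := by
    rw [Real.mul_rpow (by norm_num) Y0, e3]
    refine mul_le_mul_of_nonneg_right ?_ (by positivity)
    exact (Real.rpow_le_rpow_of_exponent_le (by norm_num) (by norm_num)).trans
      (Real.rpow_one 2).le
  have e5' : (2 * Y) ^ (7 / 100 : ℝ) ≤ 2 * (Y ^ (1 / 200 : ℝ)) ^ 14 := by
    rw [Real.mul_rpow (by norm_num) Y0, e3']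
    refine mul_le_mul_of_nonneg_right ?_ (by positivity)
    exact (Real.rpow_le_rpow_of_exponent_le (by norm_num) (by norm_num)).trans
      (Real.rpow_one 2).le
  have e6 : 0 ≤ (2 * Y) ^ (1 / 20 : ℝ) := by positivity
  have e6' : 0 ≤ (2 * Y) ^ (7 / 100 : ℝ) := by positivity
  rw [e1, e2]
  generalize (2 * Y) ^ (1 / 20 : ℝ) = T at e5 e6
  generalize (2 * Y) ^ (7 / 100 : ℝ) = T' at e5' e6'
  generalize Y ^ (1 / 200 : ℝ) = Z at *
  have Z1 : 1 ≤ Z := by linarith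
  have Z0 : 0 < Z := by linarith
  refine ⟨a3, fun Q n H S q1 q2 n0 hn H0 H1 S0 S1 => ?_⟩
  have e7 : Y ^ 2 = Z ^ 400 := by rw [e4, ← pow_mul]
  have lg : ∀ x : ℝ, 0 < x → x ≤ Y ^ 2 → 1 + Real.log x ≤ 401 * Z := fun x x0 x1 => by
    rw [e7] at x1
    have h1 := Real.log_le_log x0 x1
    rw [Real.log_pow] at h1
    have h2 := Real.log_le_sub_one_of_pos Z0
    push_cast at h1
    linarith
  have Q1 : 1 ≤ Q := (one_le_pow₀ Z1).trans q1
  have l1 := lg Q (by linarith) q2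
  have l2 := H1.trans (lg (2 * Y) (by linarith) (by nlinarith))
  rw [e7] at q2 S1
  have l0 : 0 ≤ 1 + Real.log Q := add_nonneg zero_le_one (Real.log_nonneg Q1)
  have n1 : Z ^ 386 ≤ n := by
    refine le_of_pow_le_pow_left₀ (n := 100) (by norm_num) n0 (le_trans ?_ hn)
    refine le_trans ?_ (pow_le_pow_left₀ (by positivity) q1 97)
    rw [← pow_mul, ← pow_mul]
    exact pow_le_pow_right₀ Z1 (by norm_num)
  have n2 : 0 < n := lt_of_lt_of_le (by positivity) n1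
  refine ⟨n2, ?_⟩
  have S2 : S ≤ n * (1040 * (Z ^ 400 + Z ^ 400) * (401 * Z)) := S1.trans (by gcongr)
  rw [div_le_iff₀ (by positivity)]
  have D3 : 0 ≤ D ^ 3 := by positivity
  calc 12 * D * (D * T') * (D * T * H * S)
      ≤ 12 * D * (D * (2 * Z ^ 14)) * (D * (2 * Z ^ 10) * (401 * Z) *
          (n * (1040 * (Z ^ 400 + Z ^ 400) * (401 * Z)))) := by gcongr
    _ = 16054371840 * D ^ 3 * (Z ^ 426 * n) := by ring
    _ ≤ Z * (Z ^ 426 * n) := mul_le_mul_of_nonneg_right (by linarith) (by positivity)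
    _ = Z ^ 41 * n * Z ^ 386 := by ring
    _ ≤ Z ^ 50 * n * n :=
        mul_le_mul (mul_le_mul_of_nonneg_right (pow_le_pow_right₀ Z1 (by norm_num)) n0) n1
          (by positivity) (by positivity)
    _ = _ := by ring

theorem sZ (hP : StProd) (hM : StMul) (hS : StSlow) (h1 : StSel1) (hE : StEg) (hR : StSprP)
    (h0 : StMx0) (hX : StMx) (hA : StZ1) (hB : StZ2) : StZ := by
  intro j0 D hj D0
  have hj2 : 2 ≤ j0 := le_trans (by norm_num) hj
  obtain ⟨t', ht'⟩ := hS j0 20000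
  filter_upwards [h1 t'
    ((∏ i ∈ range (t' + 1), 2 ^ (101 * lev (j0 + i) * 2 ^ lev (j0 + i)) : ℕ) : ℝ) D,
    num_XZ D (Nat.cast_nonneg D)] with Y a1 a2
  obtain ⟨a2, a4⟩ := a2
  intro B N s hq t0 hsq
  obtain ⟨t, tJ, b1, b2⟩ := a1 s hq.two_le (ht' s fun i => ⟨(hq.one i).lo, (hq.one i).hi⟩)
    (Nat.cast_le.2 (prod_le_prod' fun i _ => (hq.one i).hi)) t0 (hsq.trans_eq (Nat.cast_mul _ _))
  obtain ⟨k1, r1⟩ := hP j0 B N s hj2 hq 0 (range t) fun _ _ => Nat.zero_le _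
  have Q1 : 1 ≤ ∏ i ∈ range t, s i := one_le_prod' fun i _ => le_trans one_le_two (hq.two_le i)
  have z0 : ∀ b, 0 ≤ Zb (∏ i ∈ range t, B i) (∏ i ∈ range t, s i) Y b := fun b =>
    sum_nonneg fun a _ => sum_nonneg fun i _ => by
      obtain ⟨θ, -, -, h⟩ := (h0 (∏ i ∈ range t, B i) (∏ i ∈ range t, s i)
        ((a : ℝ) / b + (i : ℝ) / (∏ i ∈ range t, s i : ℕ))).2
      rw [h]
      positivity
  have big : ((∏ i ∈ range t, s i : ℕ) : ℝ) ^ 97 ≤ ((∏ i ∈ range t, B i).card : ℝ) ^ 100 := by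
    exact_mod_cast k1.big
  have Y2 : (0 : ℝ) ≤ 2 * Y := by linarith
  have T0 : 0 ≤ (2 * Y) ^ (1 / 20 : ℝ) := by positivity
  have T1 : ((2 * Y) ^ (1 / 20 : ℝ)) ^ 20 = 2 * Y := by
    rw [← Real.rpow_natCast, ← Real.rpow_mul Y2]; norm_num
  have G0 : 0 ≤ (D : ℝ) * (2 * Y) ^ (7 / 100 : ℝ) := by positivity
  have har : ∑ d ∈ Icc 1 ⌊2 * Y⌋₊, (1 / (d : ℝ)) ≤ 1 + Real.log (2 * Y) := by
    have h2 := harmonic_le_one_add_log ⌊2 * Y⌋₊
    rw [harmonic_eq_sum_Icc] at h2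
    push_cast at h2
    have h3 : (0 : ℝ) < ⌊2 * Y⌋₊ := Nat.cast_pos.2 (Nat.floor_pos.2 (by linarith))
    have h4 := Real.log_le_log h3 (Nat.floor_le Y2)
    simp only [one_div]
    linarith
  obtain ⟨n0, a5⟩ := a4 _ _ _ _ b1 b2 (Nat.cast_nonneg _) big
    (sum_nonneg fun d _ => by positivity) har (sum_nonneg fun b _ => z0 b)
    (hX _ _ Y (fun a ha => ⟨(r1 a ha).1, (r1 a ha).2.1⟩) Q1 (by linarith))
  refine ⟨fun e => 12 * D * (D * (2 * Y) ^ (7 / 100 : ℝ)) *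
    (∑ d ∈ e.divisors, D * (2 * Y) ^ (1 / 20 : ℝ) / d *
      Zb (∏ i ∈ range t, B i) (∏ i ∈ range t, s i) Y (e / d)) /
        ((∏ i ∈ range t, B i).card : ℝ) ^ 2, fun e => ?_, ?_, ?_⟩
  · refine div_nonneg (mul_nonneg (by positivity) (sum_nonneg fun d _ => ?_)) (by positivity)
    exact mul_nonneg (by positivity) (z0 _)
  · refine le_trans ?_ a5
    rw [← sum_div, ← mul_sum]
    refine div_le_div_of_nonneg_right (mul_le_mul_of_nonneg_left ?_ (by positivity))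
      (by positivity)
    refine (conv_XZ _ (fun d => D * (2 * Y) ^ (1 / 20 : ℝ) / d) _ (fun d => by positivity)
      z0).trans (le_of_eq ?_)
    congr 1
    rw [mul_sum]
    exact sum_congr rfl fun d _ => by ring
  intro B' N' s' hq' hsp hag c J c0 cD t0J
  have tJ' : t ≤ J := tJ.trans t0J
  have eB0 : ∏ i ∈ range t, B' i = ∏ i ∈ range t, B i :=
    prod_congr rfl fun i hi => (hag i ((mem_range.1 hi).trans_le tJ)).1
  have eQ : ∏ i ∈ range t, s' i = ∏ i ∈ range t, s i :=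
    prod_congr rfl fun i hi => (hag i ((mem_range.1 hi).trans_le tJ)).2
  obtain ⟨k1', -⟩ := hP j0 B' N' s' hj2 hq' 0 (range t) fun _ _ => Nat.zero_le _
  obtain ⟨k2, r2⟩ := hP j0 B' N' s' hj2 hq' 0 (Ico t J) fun _ _ => Nat.zero_le _
  have c21 := cop_XZ hq'.cop (Ico t J) (range t) fun i hi i' hi' => by
    have := mem_Ico.1 hi; have := mem_range.1 hi'; omega
  obtain ⟨-, n21, s21⟩ := hM _ _ _ _ _ _ k2 k1' c21
  rw [eB0] at n21 s21
  have eS : ∏ i ∈ range J, s' i = (∏ i ∈ Ico t J, s' i) * ∏ i ∈ range t, s i := by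
    rw [← prod_range_mul_prod_Ico s' tJ', mul_comm, eQ]
  have eB : ∏ i ∈ range J, B' i = (∏ i ∈ Ico t J, B' i) * ∏ i ∈ range t, B i := by
    rw [← prod_range_mul_prod_Ico B' tJ', mul_comm, eB0]
  have inj : ∀ A : Finset ℕ, Set.InjOn (fun a => c * a) (A : Set ℕ) :=
    fun A a _ b _ h => Nat.eq_of_mul_eq_mul_left c0 h
  have eE : ∀ α : ℝ, ES ((∏ i ∈ range J, B' i).image fun a => c * a) α =
      ∑ m ∈ (∏ i ∈ Ico t J, B' i).image (fun a => c * a), ES (∏ i ∈ range t, B i) (α * m) := by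
    intro α
    rw [ES, sum_image (inj _), sum_image (inj _), eB, s21 fun a => ee (α * ((c * a : ℕ) : ℝ))]
    refine sum_congr rfl fun m _ => sum_congr rfl fun b _ => ?_
    congr 1
    push_cast
    ring
  have eC : (((∏ i ∈ range J, B' i).image fun a => c * a).card : ℝ) =
      (((∏ i ∈ Ico t J, B' i).image fun a => c * a).card : ℝ) * (∏ i ∈ range t, B i).card := by
    rw [card_image_of_injOn (inj _), card_image_of_injOn (inj _), eB, n21, Nat.cast_mul]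
  have key : ∀ (V : Finset ℕ) (α : ℕ → ℝ) (e : ℕ) (k : ℝ), 0 ≤ k → 0 < e → (e : ℝ) ≤ 2 * Y →
      (∀ m ∈ (∏ i ∈ Ico t J, B' i).image (fun a => c * a),
        ∑ v ∈ V, ‖ES (∏ i ∈ range t, B i) (α v * m)‖ ^ 2 ≤ k * (12 * D) * (Nat.gcd e m : ℕ) *
          Zb (∏ i ∈ range t, B i) (∏ i ∈ range t, s i) Y (e / Nat.gcd e m)) →
      ∑ v ∈ V, ‖ES ((∏ i ∈ range J, B' i).image fun a => c * a) (α v)‖ ^ 2 ≤
        k * (((∏ i ∈ range J, B' i).image fun a => c * a).card : ℝ) ^ 2 *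
          (12 * D * (D * (2 * Y) ^ (7 / 100 : ℝ)) *
            (∑ d ∈ e.divisors, D * (2 * Y) ^ (1 / 20 : ℝ) / d *
              Zb (∏ i ∈ range t, B i) (∏ i ∈ range t, s i) Y (e / d)) /
            ((∏ i ∈ range t, B i).card : ℝ) ^ 2) := by
    intro V α e k k0 e0 e1 hT
    refine (core_XZ V _ (fun m v => ES (∏ i ∈ range t, B i) (α v * m)) _ e e0
      (D * (2 * Y) ^ (7 / 100 : ℝ)) (k * (12 * D)) _
      (fun d => D * (2 * Y) ^ (1 / 20 : ℝ) / d) z0 (by positivity) G0 (fun v _ => eE (α v))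
      ?_ hT fun d hd => ?_).trans (le_of_eq ?_)
    · refine (hE j0 B' N' s' hj hq' hsp (Ico t J) c D e c0 cD e0).trans ?_
      gcongr
    · refine fib_XZ (hR j0 B' N' s' hj2 hq' hsp _) c0 cD (Nat.pos_of_mem_divisors hd) T0 ?_
      rw [T1]
      exact (Nat.cast_le.2 (Nat.divisor_le hd)).trans e1
    · rw [eC]
      field_simp
  have D1 : (1 : ℝ) ≤ D := by exact_mod_cast D0
  refine ⟨fun e e0 e1 => ?_, fun K u q β K1 hAp e => ?_⟩
  · refine (key _ (fun u => (u : ℝ) / e) e 1 zero_le_one e0 e1 fun m _ => ?_).trans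
      (le_of_eq (by rw [one_mul]))
    refine (hA _ (∏ i ∈ range t, s i) e m Y e0).trans (mul_le_mul_of_nonneg_right ?_ (z0 _))
    exact le_mul_of_one_le_left (Nat.cast_nonneg _) (by linarith)
  rcases ((Vy K (D * ∏ i ∈ range J, s' i) q β Y).filter fun v => q v = e).eq_empty_or_nonempty
    with hV | ⟨v, hv⟩
  · rw [hV, sum_empty]
    refine mul_nonneg (by positivity) (div_nonneg (mul_nonneg (by positivity)
      (sum_nonneg fun d _ => mul_nonneg (by positivity) (z0 _))) (by positivity))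
  obtain ⟨hv1, rfl⟩ := mem_filter.1 hv
  have e0 := (hAp v).1
  have e1 : (q v : ℝ) ≤ 2 * Y := by
    classical
    have h2 := (mem_filter.1 hv1).2.2
    exact (le_mul_of_one_le_right (Nat.cast_nonneg _) (le_max_left _ _)).trans h2.le
  have hsq' : Y ^ 2 ≤ ((D * ∏ i ∈ range J, s' i : ℕ) : ℝ) := by
    refine hsq.trans (Nat.cast_le.2 (Nat.mul_le_mul_left _ ?_))
    rw [← prod_congr rfl fun i hi => (hag i (mem_range.1 hi)).2, ← prod_range_mul_prod_Ico s' t0J]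
    exact Nat.le_mul_of_pos_right _ (prod_pos fun i _ => lt_of_lt_of_le two_pos (hq'.two_le i))
  refine key _ (fun v => (v : ℝ) / (K * (D * ∏ i ∈ range J, s' i) : ℕ)) (q v) K
    (Nat.cast_nonneg _) e0 e1 fun m hm => ?_
  obtain ⟨b, hb, rfl⟩ := mem_image.1 hm
  obtain ⟨m1, m2, m3⟩ := r2 b hb
  have m4 := three_XZ hj2 m3
  refine (hB _ K _ (c * b) (∏ i ∈ range t, s i) (3 * D) (q v) u q β Y hAp K1
    (Nat.mul_pos c0 m1) Q1 ?_ ?_ a2 hsq').trans (le_of_eq ?_)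
  · rw [eS, mul_assoc]
    exact Nat.mul_le_mul cD (Nat.mul_le_mul_right _ m2)
  · rw [eS]
    calc D * ((∏ i ∈ Ico t J, s' i) * ∏ i ∈ range t, s i)
        ≤ D * (3 * (c * b) * ∏ i ∈ range t, s i) :=
          Nat.mul_le_mul_left _ (Nat.mul_le_mul_right _
            (m4.trans (Nat.mul_le_mul_left _ (Nat.le_mul_of_pos_left _ c0))))
      _ = _ := by ring
  · rw [Nat.cast_mul 3 D, Nat.cast_ofNat]
    ring

end Pool.Agent.MP_2876a2_nt.Tu.Z

end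

noncomputable section
open Finset Filter
open scoped Pointwise


namespace Pool.Agent.MP_2876a2_nt.Tu.Z

theorem core_XSel6 (s : ℕ → ℝ) (n N t0 J : ℕ) (Z : ℝ) (hn : 30 ≤ n) (hN : N = 10 * n)
    (h1 : ∀ i, 1 ≤ s i)
    (hs : ∀ t, t0 ≤ t → s t ^ n ≤ ∏ i ∈ range t, s i) (hZ : 2 ≤ Z)
    (h0 : ∏ i ∈ range t0, s i ≤ Z ^ N) (hJ : Z ^ N * Z ^ N ≤ Z ^ 21 * ∏ i ∈ range J, s i) :
    ∃ t' t : ℕ, t' ≤ t ∧ t ≤ J ∧ 2 * Z ^ N ≤ ∏ i ∈ range t', s i ∧
      ∏ i ∈ range t', s i ≤ Z ^ (N + 12) ∧ Z ^ N ≤ (∏ i ∈ Ico t' t, s i) * Z ^ 33 ∧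
      ∏ i ∈ Ico t' t, s i ≤ Z ^ (N + 21) := by
  classical
  have Z1 : 1 ≤ Z := by linarith
  have Z0 : 0 < Z := by linarith
  have Zn : 2 ≤ Z ^ N := hZ.trans (le_self_pow₀ Z1 (by omega))
  have s0 : ∀ i, 0 ≤ s i := fun i => zero_le_one.trans (h1 i)
  have mono : ∀ a b, a ≤ b → ∏ i ∈ range a, s i ≤ ∏ i ∈ range b, s i := fun a b hab =>
    prod_le_prod_of_subset_of_one_le (range_subset_range.2 hab) (fun i _ => s0 i)
      fun i _ _ => h1 i
  have root : ∀ t k, t0 ≤ t → ∏ i ∈ range t, s i ≤ Z ^ (k * n) → s t ≤ Z ^ k := fun t k ht h => by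
    refine le_of_pow_le_pow_left₀ (n := n) (by omega) (by positivity) ?_
    rw [← pow_mul]
    exact (hs t ht).trans h
  have J2 : 2 * Z ^ N ≤ ∏ i ∈ range J, s i := by
    have b1 : Z ^ 21 * 2 ≤ Z ^ N := by
      refine le_trans ?_ (pow_le_pow_right₀ Z1 (show 21 + 1 ≤ N by omega))
      rw [pow_succ Z 21]
      exact mul_le_mul_of_nonneg_left hZ (by positivity)
    refine le_of_mul_le_mul_left (le_trans ?_ hJ) (show 0 < Z ^ 21 by positivity)
    rw [← mul_assoc]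
    exact mul_le_mul_of_nonneg_right b1 (by positivity)
  have ex : ∃ t, 2 * Z ^ N ≤ ∏ i ∈ range t, s i := ⟨J, J2⟩
  have a1 := Nat.find_spec ex
  have a2 : Nat.find ex ≤ J := Nat.find_min' ex J2
  have a3 : t0 < Nat.find ex := by
    by_contra h
    have := mono _ _ (not_lt.1 h)
    linarith
  have a4 : ∏ i ∈ range (Nat.find ex), s i ≤ Z ^ (N + 12) := by
    obtain ⟨w, hw⟩ : ∃ w, Nat.find ex = w + 1 := ⟨Nat.find ex - 1, by omega⟩
    have b1 := not_le.1 (Nat.find_min ex (m := w) (by omega))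
    have b2 : ∏ i ∈ range w, s i ≤ Z ^ (N + 1) := by
      rw [pow_succ, mul_comm]
      exact b1.le.trans (mul_le_mul_of_nonneg_right hZ (by positivity))
    have b3 := root w 11 (by omega) (b2.trans (pow_le_pow_right₀ Z1 (by omega)))
    rw [hw, prod_range_succ, show N + 12 = N + 1 + 11 from rfl, pow_add]
    exact mul_le_mul b2 b3 (s0 w) (by positivity)
  generalize Nat.find ex = t1 at a1 a2 a3 a4
  have Z3 : 1 ≤ Z ^ 33 := one_le_pow₀ Z1
  have G0 : ∀ t, 0 ≤ ∏ i ∈ Ico t1 t, s i := fun t => prod_nonneg fun i _ => s0 i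
  by_cases hG : ∏ i ∈ Ico t1 J, s i < Z ^ N
  · refine ⟨t1, J, a2, le_rfl, a1, a4, ?_, hG.le.trans (pow_le_pow_right₀ Z1 (by omega))⟩
    rw [← prod_range_mul_prod_Ico s a2] at hJ
    have b1 := hJ.trans (mul_le_mul_of_nonneg_left (mul_le_mul_of_nonneg_right a4 (G0 J))
      (show 0 ≤ Z ^ 21 by positivity))
    refine le_of_mul_le_mul_left (b1.trans (le_of_eq ?_)) (show 0 < Z ^ N by positivity)
    ring
  · have ex2 : ∃ t, Z ^ N ≤ ∏ i ∈ Ico t1 t, s i := ⟨J, not_lt.1 hG⟩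
    have c1 := Nat.find_spec ex2
    have c2 : Nat.find ex2 ≤ J := Nat.find_min' ex2 (not_lt.1 hG)
    have c3 : t1 < Nat.find ex2 := by
      by_contra h
      rw [Ico_eq_empty h, prod_empty] at c1
      linarith
    refine ⟨t1, _, c3.le, c2, a1, a4, c1.trans (le_mul_of_one_le_right (G0 _) Z3), ?_⟩
    obtain ⟨w, hw⟩ : ∃ w, Nat.find ex2 = w + 1 := ⟨Nat.find ex2 - 1, by omega⟩
    have b1 := not_le.1 (Nat.find_min ex2 (m := w) (by omega))
    have b2 : ∏ i ∈ range w, s i ≤ Z ^ (21 * n) := by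
      rw [← prod_range_mul_prod_Ico s (show t1 ≤ w by omega)]
      refine (mul_le_mul a4 b1.le (G0 w) (by positivity)).trans ?_
      rw [← pow_add]
      exact pow_le_pow_right₀ Z1 (by omega)
    have b3 := root w 21 (by omega) b2
    rw [hw, prod_Ico_succ_top (by omega), pow_add]
    exact mul_le_mul b1.le b3 (s0 w) (by positivity)

theorem sSel6 : StSel6 := by
  intro t0 U L
  filter_upwards [eventually_ge_atTop U, eventually_ge_atTop (1 : ℝ),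
    (tendsto_rpow_atTop (show (0 : ℝ) < 1 / 200000 by norm_num)).eventually_ge_atTop 2,
    (tendsto_rpow_atTop (show (0 : ℝ) < 1 / 200000 by norm_num)).eventually_ge_atTop L]
    with Y y1 y2 y3 y4
  intro s h2 ht0 hU J hJ
  have hU' : ∏ i ∈ range t0, (s i : ℝ) ≤ Y := by
    refine le_trans ?_ (hU.trans y1)
    rw [prod_range_succ]
    exact_mod_cast Nat.le_mul_of_pos_right _ (lt_of_lt_of_le two_pos (h2 t0))
  have y0 : 0 < Y := by linarith
  have e : ∀ k : ℕ, (Y ^ (1 / 200000 : ℝ)) ^ k = Y ^ ((k : ℝ) / 200000) := fun k => by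
    rw [← Real.rpow_natCast, ← Real.rpow_mul y0.le, one_div, inv_mul_eq_div]
  have e0 : (Y ^ (1 / 200000 : ℝ)) ^ 200000 = Y := by
    rw [e, show ((200000 : ℕ) : ℝ) / 200000 = 1 by norm_num, Real.rpow_one]
  have k0 : Y * Y = Y ^ (20 / 200000 : ℝ) * Y ^ (19999 / 10000 : ℝ) := by
    rw [← Real.rpow_add y0, ← sq, ← Real.rpow_two]
    norm_num
  have k1 : Y ^ (((21 : ℕ) : ℝ) / 200000) = Y ^ (20 / 200000 : ℝ) * Y ^ (1 / 200000 : ℝ) := by
    rw [← Real.rpow_add y0]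
    norm_num
  obtain ⟨t', t, a1, a2, a3, a4, a5, a6⟩ := core_XSel6 (fun i => (s i : ℝ)) 20000 200000 t0 J _
    (by norm_num) (by norm_num) (fun i => by exact_mod_cast (h2 i).trans' (by norm_num))
    (fun t ht => by exact_mod_cast ht0 t ht) y3 (by rw [e0]; exact hU')
    (by
      rw [e0, e 21, k0, k1, mul_assoc, ← Nat.cast_prod]
      exact mul_le_mul_of_nonneg_left
        (hJ.trans (mul_le_mul_of_nonneg_right y4 (Nat.cast_nonneg _))) (by positivity))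
  rw [e0] at a3 a5
  rw [e] at a4 a5 a6
  have up : Y ^ (((200000 + 12 : ℕ) : ℝ) / 200000) ≤ Y ^ (5001 / 5000 : ℝ) :=
    Real.rpow_le_rpow_of_exponent_le y2 (by norm_num)
  have up' : Y ^ (((200000 + 21 : ℕ) : ℝ) / 200000) ≤ Y ^ (5001 / 5000 : ℝ) :=
    Real.rpow_le_rpow_of_exponent_le y2 (by norm_num)
  push_cast
  refine ⟨t', t, a1, a2, a3, a4.trans up, ?_, a6.trans up'⟩
  refine le_of_mul_le_mul_right (le_trans ?_ a5) (Real.rpow_pos_of_pos y0 _)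
  rw [← Real.rpow_add y0]
  exact (Real.rpow_le_rpow_of_exponent_le y2 (by norm_num)).trans_eq (Real.rpow_one Y)

end Pool.Agent.MP_2876a2_nt.Tu.Z

end

noncomputable section
open Finset Filter
open scoped Pointwise


namespace Pool.Agent.MP_2876a2_nt.Tu.Z

theorem split_XDec6 {M : Type} [CommMonoid M] (f : ℕ → M) {a b c : ℕ} (h1 : a ≤ b) (h2 : b ≤ c) :
    ∏ i ∈ range c, f i = (∏ i ∈ Ico b c, f i) * ((∏ i ∈ Ico a b, f i) * ∏ i ∈ range a, f i) := by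
  rw [← prod_range_mul_prod_Ico f h2, ← prod_range_mul_prod_Ico f h1, mul_comm,
    mul_comm (∏ i ∈ range a, f i)]

theorem cop_XDec6 {N : ℕ → ℕ} (h : ∀ i i', i ≠ i' → (N i).Coprime (N i')) (I I' : Finset ℕ)
    (hd : ∀ i ∈ I, ∀ i' ∈ I', i ≠ i') : (∏ i ∈ I, N i).Coprime (∏ i ∈ I', N i) :=
  Nat.Coprime.prod_left fun i hi => Nat.Coprime.prod_right fun i' hi' => h i i' (hd i hi i' hi')

theorem qs_XDec6 {A B : ℕ} (q : ℕ) (β : ℝ) (h : A ≤ 4 * B) : qs A q β ≤ 4 * qs B q β := by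
  have h2 : (A : ℝ) ≤ 4 * B := by exact_mod_cast h
  unfold qs
  have h4 : max 1 (|β| * (A : ℝ)) ≤ 4 * max 1 (|β| * B) := by
    refine max_le (one_le_mul_of_one_le_of_one_le (by norm_num) (le_max_left _ _)) ?_
    refine le_trans ?_ (mul_le_mul_of_nonneg_left (le_max_right _ _) (by norm_num))
    have := mul_le_mul_of_nonneg_left h2 (abs_nonneg β)
    linarith
  have h5 := mul_le_mul_of_nonneg_left h4 (Nat.cast_nonneg (α := ℝ) q)
  linarith

theorem big_XDec6 {Y Y2 x P : ℝ} (n : ℕ) (hn : n = 20000) (h1 : 1 ≤ Y) (h0 : 0 ≤ Y2)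
    (h2 : Y2 ≤ 4 * Y) (hP : 0 ≤ P) (h3 : x ^ n ≤ P) (h4 : Y ^ 2 ≤ x * P) :
    Y2 ^ (19999 / 10000 : ℝ) ≤ 16 * P := by
  have Yp : 0 < Y := by linarith
  have k1 : Y ^ (19999 / 10000 : ℝ) ≤ P := by
    rcases le_total (Y ^ 2) P with e | e
    · refine le_trans ?_ e
      rw [← Real.rpow_natCast]
      exact Real.rpow_le_rpow_of_exponent_le h1 (by norm_num)
    · have e1 : (Y ^ (1 / 10000 : ℝ)) ^ n = Y ^ 2 := by
        rw [← Real.rpow_natCast, ← Real.rpow_mul Yp.le, ← Real.rpow_natCast, hn]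
        congr 1
        norm_num
      have e2 : x ≤ Y ^ (1 / 10000 : ℝ) :=
        le_of_pow_le_pow_left₀ (n := n) (by omega) (by positivity) (e1 ▸ h3.trans e)
      have e3 : Y ^ (1 / 10000 : ℝ) * Y ^ (19999 / 10000 : ℝ) = Y ^ 2 := by
        rw [← Real.rpow_add Yp, ← Real.rpow_natCast]
        congr 1
        norm_num
      refine le_of_mul_le_mul_left ?_ (Real.rpow_pos_of_pos Yp (1 / 10000))
      rw [e3]
      exact h4.trans (mul_le_mul_of_nonneg_right e2 hP)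
  have k2 : (4 : ℝ) ^ (19999 / 10000 : ℝ) ≤ 16 := by
    refine (Real.rpow_le_rpow_of_exponent_le (by norm_num)
      (show (19999 / 10000 : ℝ) ≤ (2 : ℕ) by norm_num)).trans (le_of_eq ?_)
    rw [Real.rpow_natCast]
    norm_num
  refine (Real.rpow_le_rpow h0 h2 (by norm_num)).trans ?_
  rw [Real.mul_rpow (by norm_num) Yp.le]
  exact mul_le_mul k2 k1 (by positivity) (by norm_num)

theorem three_XDec6 {j0 a b : ℕ} (hj : 2 ≤ j0)
    (h : (a : ℝ) ≤ Real.exp (2 / (j0 + (0 : ℕ))) * b) : a ≤ 3 * b := by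
  have h1 : (2 : ℝ) ≤ j0 := by exact_mod_cast hj
  have h2 : Real.exp (2 / (j0 + (0 : ℕ))) ≤ 3 := by
    refine (Real.exp_le_exp.2 ?_).trans (Real.exp_one_lt_d9.le.trans (by norm_num))
    rw [Nat.cast_zero, add_zero, div_le_one (by linarith)]
    exact h1
  exact_mod_cast h.trans (mul_le_mul_of_nonneg_right h2 (Nat.cast_nonneg b))

theorem sDec6 (hP : StProd) (hM : StMul) (hW : StSlow) (hS : StSel6) (hB : StBil) :
    StDec6 := by
  intro j0 hj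
  obtain ⟨t0, ht0⟩ := hW j0 20000
  obtain ⟨Y0, hY0⟩ := eventually_atTop.1 ((hS t0
    ((∏ t ∈ range (t0 + 1), 2 ^ (101 * lev (j0 + t) * 2 ^ lev (j0 + t)) : ℕ) : ℝ) 16).and hB)
  filter_upwards [eventually_ge_atTop (4 * Y0),
    (tendsto_rpow_atTop (show (0 : ℝ) < 1 / 1000 by norm_num)).eventually_ge_atTop (4 : ℝ),
    eventually_ge_atTop (1 : ℝ)] with Y a1 a2 a3
  intro B N s hq c J S0 q u β c0 cS Sc cP q0 hu hY hsq
  have Dp : (0 : ℝ) < 4 := by norm_num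
  have y1 := qs_XDec6 q β cS
  have y2 := qs_XDec6 q β Sc
  rw [hY] at y1 y2
  have y0 := one_le_qs (c * ∏ t ∈ range J, s t) q0 β
  obtain ⟨Y2, hY2⟩ : ∃ Y2, qs (c * ∏ t ∈ range J, s t) q β = Y2 := ⟨_, rfl⟩
  rw [hY2] at y0 y1 y2
  have y3 : Y / 4 ≤ Y2 := by rw [div_le_iff₀ Dp]; linarith
  obtain ⟨h1, h2⟩ := hY0 Y2 (le_of_mul_le_mul_left (a1.trans y2) Dp)
  have cP' : (((4 * c : ℕ) : ℝ)) ^ 20000 ≤ ((∏ t ∈ range J, s t : ℕ) : ℝ) := by
    rw [← Nat.cast_pow]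
    exact Nat.cast_le.2 cP
  have Sc' : Y ^ 2 ≤ ((4 * c : ℕ) : ℝ) * ((∏ t ∈ range J, s t : ℕ) : ℝ) := by
    rw [← Nat.cast_mul, mul_assoc]
    exact hsq.trans (Nat.cast_le.2 Sc)
  obtain ⟨t', t, tt, tJ, b1, b2, b3, b4⟩ := h1 s hq.two_le
    (ht0 s fun i => ⟨(hq.one i).lo, (hq.one i).hi⟩)
    (Nat.cast_le.2 (prod_le_prod' fun i _ => (hq.one i).hi)) J
    (big_XDec6 20000 rfl a3 (by linarith) y1 (Nat.cast_nonneg _) cP' Sc')
  clear cP' Sc' cP cS Sc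
  obtain ⟨k1, r1⟩ := hP j0 B N s hj hq 0 (range t') fun _ _ => Nat.zero_le _
  obtain ⟨k2, r2⟩ := hP j0 B N s hj hq 0 (Ico t' t) fun _ _ => Nat.zero_le _
  obtain ⟨k3, r3⟩ := hP j0 B N s hj hq 0 (Ico t J) fun _ _ => Nat.zero_le _
  have c21 := cop_XDec6 hq.cop (Ico t' t) (range t') fun i hi i' hi' => by
    have := mem_Ico.1 hi; have := mem_range.1 hi'; omega
  have c31 := cop_XDec6 hq.cop (Ico t J) (range t') fun i hi i' hi' => by
    have := mem_Ico.1 hi; have := mem_range.1 hi'; omega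
  have c32 := cop_XDec6 hq.cop (Ico t J) (Ico t' t) fun i hi i' hi' => by
    have := mem_Ico.1 hi; have := mem_Ico.1 hi'; omega
  obtain ⟨k21, -, s21⟩ := hM _ _ _ _ _ _ k2 k1 c21
  obtain ⟨-, -, s321⟩ := hM _ _ _ _ _ _ k3 k21 (c32.mul_right c31)
  have eS := split_XDec6 s tt tJ
  have pw : Y2 ^ (-(469 / 1000) : ℝ) ≤ Y ^ (-(468 / 1000) : ℝ) := by
    have e1 : Y ^ (999 / 1000 : ℝ) ≤ Y2 := by
      refine le_trans ?_ y3
      rw [le_div_iff₀ Dp]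
      refine (mul_le_mul_of_nonneg_left a2 (by positivity)).trans (le_of_eq ?_)
      rw [← Real.rpow_add (by linarith)]
      norm_num
    refine (Real.rpow_le_rpow_of_nonpos (by positivity) e1 (by norm_num)).trans ?_
    rw [← Real.rpow_mul (by linarith)]
    exact Real.rpow_le_rpow_of_exponent_le a3 (by norm_num)
  rw [ES, sum_image fun a _ b _ h => Nat.eq_of_mul_eq_mul_left c0 h,
    sum_image fun a _ b _ h => Nat.eq_of_mul_eq_mul_left c0 h, split_XDec6 B tt tJ]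
  generalize ∏ i ∈ range J, s i = S at *
  generalize ∏ i ∈ range t', B i = B1 at *
  generalize ∏ i ∈ Ico t' t, B i = B2 at *
  generalize ∏ i ∈ Ico t J, B i = M at *
  generalize ∏ i ∈ range t', s i = Q1 at *
  generalize ∏ i ∈ Ico t' t, s i = Q at *
  generalize ∏ i ∈ Ico t J, s i = sM at *
  have e : ∀ f : ℕ → ℂ, ∑ a ∈ M * (B2 * B1), f a
      = ∑ m ∈ M, ∑ b ∈ B2, ∑ b' ∈ B1, f (m * (b * b')) := fun f => by
    rw [s321]
    exact sum_congr rfl fun m _ => s21 fun c => f (m * c)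
  have one : ∀ m ∈ M, ‖∑ b ∈ B2, ∑ b' ∈ B1, ee ((u / q + β) * ((c * (m * (b * b')) : ℕ) : ℝ))‖ ≤
      Y ^ (-(468 / 1000) : ℝ) * ∑ b ∈ B2, ∑ b' ∈ B1,
        √((Nat.gcd q (c * (m * (b * b'))) : ℕ) : ℝ) := fun m hm => by
    obtain ⟨m1, m2, m3⟩ := r3 m hm
    have m4 := three_XDec6 hj m3
    have := h2 B2 B1 _ _ Q Q1 (c * m) (c * S) q u β k2 k1 (fun b hb => (r2 b hb).2.1)
      (fun b hb => ⟨(r1 b hb).1, (r1 b hb).2.1⟩) q0 hu (Nat.mul_pos c0 m1)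
      (by
        rw [eS]
        calc c * m * Q * Q1 = c * (m * (Q * Q1)) := by ring
          _ ≤ _ := Nat.mul_le_mul_left _ (Nat.mul_le_mul_right _ m2))
      (by
        rw [eS]
        calc c * (sM * (Q * Q1)) ≤ c * (3 * m * (Q * Q1)) :=
            Nat.mul_le_mul_left _ (Nat.mul_le_mul_right _ m4)
          _ = _ := by ring) hY2 b1 b2 b3 b4
    have g : (B2.card : ℝ) * B1.card * √((Nat.gcd q (c * m) : ℕ) : ℝ) ≤
        ∑ b ∈ B2, ∑ b' ∈ B1, √((Nat.gcd q (c * (m * (b * b'))) : ℕ) : ℝ) := by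
      rw [mul_assoc, ← nsmul_eq_mul, ← nsmul_eq_mul, ← sum_const, ← sum_const]
      refine sum_le_sum fun b _ => sum_le_sum fun b' _ => Real.sqrt_le_sqrt (Nat.cast_le.2 ?_)
      exact Nat.le_of_dvd (Nat.gcd_pos_of_pos_left _ q0)
        (Nat.gcd_dvd_gcd_of_dvd_right _ (Nat.mul_dvd_mul_left c (dvd_mul_right _ _)))
    have g2 := this.trans (mul_le_mul g pw (by positivity)
      (sum_nonneg fun _ _ => sum_nonneg fun _ _ => Real.sqrt_nonneg _))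
    rw [mul_comm _ (Y ^ _)] at g2
    refine le_trans (le_of_eq ?_) g2
    simp only [Nat.cast_mul, ← mul_assoc]
  have e2 : ∑ a ∈ M * (B2 * B1), √((Nat.gcd q (c * a) : ℕ) : ℝ) =
      ∑ m ∈ M, ∑ b ∈ B2, ∑ b' ∈ B1, √((Nat.gcd q (c * (m * (b * b'))) : ℕ) : ℝ) := by
    exact_mod_cast e fun a => ((√((Nat.gcd q (c * a) : ℕ) : ℝ) : ℝ) : ℂ)
  rw [e fun a => ee ((u / q + β) * ((c * a : ℕ) : ℝ)), e2, mul_sum]
  exact (norm_sum_le _ _).trans (sum_le_sum one)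

end Pool.Agent.MP_2876a2_nt.Tu.Z

end

noncomputable section
open Finset Filter
open scoped Pointwise


namespace Pool.Agent.MP_2876a2_nt.Tu.Z

theorem mul_XEg6 {B B' : Finset ℕ} {N N' : ℕ} (hd1 : ∀ b ∈ B, b ∣ N) (hd2 : ∀ b ∈ B', b ∣ N')
    (hc : N.Coprime N') (hcard : (B * B').card = B.card * B'.card) (h : Sp 18 B) (h' : Sp 18 B') :
    Sp 18 (B * B') := by
  intro d
  rcases ((B * B').filter fun b => d ∣ b).eq_empty_or_nonempty with he | ⟨a, ha⟩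
  · rw [he]; simp
  · obtain ⟨ha, hd⟩ := mem_filter.1 ha
    obtain ⟨b, hb, b', hb', rfl⟩ := mem_mul.1 ha
    have e : d.gcd N * d.gcd N' = d := by
      rw [← Nat.Coprime.gcd_mul d hc]
      exact Nat.gcd_eq_left (hd.trans (mul_dvd_mul (hd1 b hb) (hd2 b' hb')))
    have hs : ((B * B').filter fun b => d ∣ b) ⊆
        (B.filter fun b => d.gcd N ∣ b) * (B'.filter fun b => d.gcd N' ∣ b) := fun x hx => by
      obtain ⟨hx, hdx⟩ := mem_filter.1 hx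
      obtain ⟨c, hc1, c', hc2, rfl⟩ := mem_mul.1 hx
      refine mul_mem_mul (mem_filter.2 ⟨hc1, ?_⟩) (mem_filter.2 ⟨hc2, ?_⟩)
      · exact Nat.Coprime.dvd_of_dvd_mul_right (Nat.Coprime.coprime_dvd_right (hd2 c' hc2)
          (hc.coprime_dvd_left (Nat.gcd_dvd_right _ _))) ((Nat.gcd_dvd_left _ _).trans hdx)
      · exact Nat.Coprime.dvd_of_dvd_mul_left (Nat.Coprime.coprime_dvd_right (hd1 c hc1)
          (hc.symm.coprime_dvd_left (Nat.gcd_dvd_right _ _))) ((Nat.gcd_dvd_left _ _).trans hdx)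
    have h1 := Nat.pow_le_pow_left ((card_le_card hs).trans card_mul_le) 20
    have h2 : d ^ 18 ≤ (d.gcd N * d.gcd N') ^ 18 := Nat.pow_le_pow_left e.ge 18
    calc _ ≤ ((B.filter fun b => d.gcd N ∣ b).card * (B'.filter fun b => d.gcd N' ∣ b).card) ^ 20 *
          (d.gcd N * d.gcd N') ^ 18 := Nat.mul_le_mul h1 h2
      _ = ((B.filter fun b => d.gcd N ∣ b).card ^ 20 * d.gcd N ^ 18) *
          ((B'.filter fun b => d.gcd N' ∣ b).card ^ 20 * d.gcd N' ^ 18) := by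
        rw [mul_pow, mul_pow, mul_mul_mul_comm]
      _ ≤ B.card ^ 20 * B'.card ^ 20 := Nat.mul_le_mul (h _) (h' _)
      _ = _ := by rw [hcard, mul_pow]

theorem one_XEg6 : Sp 18 (1 : Finset ℕ) := by
  intro d
  by_cases hd : d = 1
  · subst hd
    simp
  · have : ((1 : Finset ℕ).filter fun b => d ∣ b) = ∅ := by
      refine filter_eq_empty_iff.2 fun b hb => ?_
      rw [mem_one.1 hb, Nat.dvd_one]
      exact hd
    rw [this]
    simp

theorem prod_XEg6 (hP : StProd) (hM : StMul) (j0 : ℕ) (B : ℕ → Finset ℕ) (N s : ℕ → ℕ)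
    (hj : 2 ≤ j0) (H : S1 j0 B N s) (hS : ∀ t, Sp 18 (B t)) (I : Finset ℕ) :
    Sp 18 (∏ t ∈ I, B t) := by
  induction I using Finset.induction_on with
  | empty =>
    rw [prod_empty]
    exact one_XEg6
  | insert i I hi ih =>
    rw [prod_insert hi]
    have hb := (hP j0 B N s hj H 0 I fun t _ => Nat.zero_le t).1
    have hc : (N i).Coprime (∏ t ∈ I, N t) :=
      Nat.Coprime.prod_right fun j hj => H.cop i j fun e => hi (e ▸ hj)
    exact mul_XEg6 (H.one i).blk.dvd hb.dvd hc (hM _ _ _ _ _ _ (H.one i).blk hb hc).2.1 (hS i) ih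

theorem root_XEg6 {x y : ℝ} {k : ℕ} (hk : k ≠ 0) (hx : 0 ≤ x) (hy : 0 ≤ y) (h : x ^ k ≤ y) :
    x ≤ y ^ (1 / (k : ℝ)) := by
  refine (pow_le_pow_iff_left₀ hx (Real.rpow_nonneg hy _) hk).1 ?_
  rwa [one_div, Real.rpow_inv_natCast_pow hy hk]

theorem div_XEg6 {g : ℕ} (hg : Squarefree g) (hp : ∀ p ∈ g.primeFactors, 2 ^ 50 ≤ p) :
    g.divisors.card ^ 50 ≤ g := by
  rw [Nat.card_divisors hg.ne_zero, ← prod_pow]
  refine le_trans (prod_le_prod' fun p h => ?_) (Nat.prod_primeFactors_of_squarefree hg).le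
  refine le_trans (Nat.pow_le_pow_left ?_ 50) (hp p h)
  exact Nat.succ_le_succ (hg.natFactorization_le_one p)

theorem gen_XEg6 {A : Finset ℕ} {n q : ℕ} (hn : Squarefree n) (hA : ∀ b ∈ A, b ∣ n) (hS : Sp 18 A)
    (hp : ∀ p ∈ n.primeFactors, 2 ^ 50 ≤ p) (hq : 0 < q) :
    ∑ b ∈ A, ((Nat.gcd q b : ℕ) : ℝ) ≤ (q : ℝ) ^ (12 / 100 : ℝ) * A.card := by
  have g0 : Nat.gcd q n ≠ 0 := (Nat.gcd_pos_of_pos_left n hq).ne'
  have gq : Nat.gcd q n ≤ q := Nat.gcd_le_left n hq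
  have q0 : (0 : ℝ) < q := by exact_mod_cast hq
  have h1 : ∑ b ∈ A, ((Nat.gcd q b : ℕ) : ℝ) ≤
      ∑ b ∈ A, ∑ d ∈ (Nat.gcd q n).divisors, if d ∣ b then (d : ℝ) else 0 := by
    refine sum_le_sum fun b hb => le_trans ?_ (single_le_sum
      (f := fun d : ℕ => if d ∣ b then (d : ℝ) else 0)
      (fun d _ => by split_ifs <;> positivity)
      (Nat.mem_divisors.2 ⟨Nat.gcd_dvd_gcd_of_dvd_right q (hA b hb), g0⟩))
    exact (if_pos (Nat.gcd_dvd_right q b)).ge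
  have h2 : ∀ d ∈ (Nat.gcd q n).divisors, (∑ b ∈ A, if d ∣ b then (d : ℝ) else 0) ≤
      (q : ℝ) ^ (1 / 10 : ℝ) * A.card := by
    intro d hd
    have dq : d ≤ q := (Nat.divisor_le hd).trans gq
    rw [← sum_filter, sum_const, nsmul_eq_mul]
    have a1 : ((A.filter fun b => d ∣ b).card * d) ^ 20 ≤ q ^ 2 * A.card ^ 20 := by
      calc ((A.filter fun b => d ∣ b).card * d) ^ 20
          = d ^ 2 * ((A.filter fun b => d ∣ b).card ^ 20 * d ^ 18) := by ring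
        _ ≤ q ^ 2 * A.card ^ 20 := Nat.mul_le_mul (Nat.pow_le_pow_left dq 2) (hS d)
    have a2 : (((A.filter fun b => d ∣ b).card : ℝ) * d) ^ 20 ≤
        (q : ℝ) ^ 2 * (A.card : ℝ) ^ 20 := by
      exact_mod_cast a1
    refine (pow_le_pow_iff_left₀ (by positivity) (by positivity) (by norm_num : 20 ≠ 0)).1 ?_
    have a3 : ((q : ℝ) ^ (1 / 10 : ℝ)) ^ 20 = (q : ℝ) ^ 2 := by
      rw [← Real.rpow_natCast, ← Real.rpow_mul q0.le]
      norm_num
    rwa [mul_pow ((q : ℝ) ^ (1 / 10 : ℝ)), a3]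
  have h3 : (((Nat.gcd q n).divisors.card : ℕ) : ℝ) ≤ (q : ℝ) ^ (1 / 50 : ℝ) := by
    have a1 := (div_XEg6 (hn.squarefree_of_dvd (Nat.gcd_dvd_right q n)) fun p h =>
      hp p (Nat.primeFactors_mono (Nat.gcd_dvd_right q n) hn.ne_zero h)).trans gq
    have a2 := root_XEg6 (k := 50) (x := ((Nat.gcd q n).divisors.card : ℕ)) (y := q) (by norm_num)
      (Nat.cast_nonneg _) q0.le (by exact_mod_cast a1)
    simpa using a2
  refine h1.trans ?_
  rw [sum_comm]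
  refine (sum_le_card_nsmul _ _ _ h2).trans ?_
  rw [nsmul_eq_mul]
  refine (mul_le_mul_of_nonneg_right h3 (by positivity)).trans (le_of_eq ?_)
  rw [← mul_assoc, ← Real.rpow_add q0]
  norm_num

theorem sEg6 (hP : StProd) (hM : StMul) : StEg6 := by
  intro j0 B N s hj h hB I q hq
  have j2 : 2 ≤ j0 := le_trans (by norm_num) hj
  have bk := (hP j0 B N s j2 h 0 I fun _ _ => Nat.zero_le _).1
  have hp : ∀ p ∈ (∏ t ∈ I, N t).primeFactors, 2 ^ 50 ≤ p := by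
    intro p hp
    have pp := Nat.prime_of_mem_primeFactors hp
    obtain ⟨t, -, ht⟩ := (pp.prime.dvd_finsetProd_iff _).1 (Nat.dvd_of_mem_primeFactors hp)
    have a1 := ((h.one t).prm p (Nat.mem_primeFactors.2 ⟨pp, ht, (h.one t).blk.sqf.ne_zero⟩)).1
    have a2 : 50 ≤ lev (j0 + t) := le_lev.2 (hj.trans (Nat.le_add_right _ _))
    exact (Nat.pow_le_pow_right two_pos a2).trans a1.le
  exact gen_XEg6 bk.sqf bk.dvd (prod_XEg6 hP hM j0 B N s j2 h hB I) hp hq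

end Pool.Agent.MP_2876a2_nt.Tu.Z

end

noncomputable section
open Finset Filter
open scoped Pointwise


namespace Pool.Agent.MP_2876a2_nt.Tu.Z

theorem sum_XS3 (A : Finset ℕ) (q c : ℕ) (Y : ℝ) (hc : 0 < c) (hq : 0 < q) (hqY : (q : ℝ) ≤ Y)
    (h : ∑ a ∈ A, ((Nat.gcd q a : ℕ) : ℝ) ≤ (q : ℝ) ^ (12 / 100 : ℝ) * A.card) :
    ∑ a ∈ A.image (fun a => c * a), √((Nat.gcd q a : ℕ) : ℝ) ≤
      Y ^ (6 / 100 : ℝ) * √((Nat.gcd q c : ℕ) : ℝ) * (A.image fun a => c * a).card := by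
  have hinj : Function.Injective fun a : ℕ => c * a := fun a b e => Nat.eq_of_mul_eq_mul_left hc e
  have hq0 : (0 : ℝ) ≤ q := Nat.cast_nonneg q
  have hY0 : (0 : ℝ) ≤ Y := hq0.trans hqY
  rw [sum_image fun a _ b _ e => hinj e, card_image_of_injective _ hinj]
  have h1 : ∀ a ∈ A, √((Nat.gcd q (c * a) : ℕ) : ℝ) ≤
      √((Nat.gcd q c : ℕ) : ℝ) * √((Nat.gcd q a : ℕ) : ℝ) := by
    intro a _
    rw [← Real.sqrt_mul (Nat.cast_nonneg _)]
    refine Real.sqrt_le_sqrt ?_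
    have h2 : Nat.gcd q (c * a) ≤ Nat.gcd q c * Nat.gcd q a :=
      Nat.le_of_dvd (Nat.mul_pos (Nat.gcd_pos_of_pos_left _ hq) (Nat.gcd_pos_of_pos_left _ hq))
        (Nat.gcd_mul_right_dvd_mul_gcd q c a)
    exact_mod_cast h2
  have h2 : (∑ a ∈ A, √((Nat.gcd q a : ℕ) : ℝ)) ^ 2 ≤ (Y ^ (6 / 100 : ℝ) * A.card) ^ 2 := by
    refine sq_sum_le_card_mul_sum_sq.trans ?_
    have e : ∑ a ∈ A, √((Nat.gcd q a : ℕ) : ℝ) ^ 2 = ∑ a ∈ A, ((Nat.gcd q a : ℕ) : ℝ) :=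
      sum_congr rfl fun a _ => Real.sq_sqrt (Nat.cast_nonneg _)
    have e2 : (Y ^ (6 / 100 : ℝ)) ^ 2 = Y ^ (12 / 100 : ℝ) := by
      rw [← Real.rpow_natCast, ← Real.rpow_mul hY0]
      norm_num
    have h3 : (q : ℝ) ^ (12 / 100 : ℝ) ≤ Y ^ (12 / 100 : ℝ) :=
      Real.rpow_le_rpow hq0 hqY (by norm_num)
    rw [e, mul_pow, e2]
    calc (A.card : ℝ) * ∑ a ∈ A, ((Nat.gcd q a : ℕ) : ℝ)
        ≤ A.card * (Y ^ (12 / 100 : ℝ) * A.card) :=
          mul_le_mul_of_nonneg_left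
            (h.trans (mul_le_mul_of_nonneg_right h3 (Nat.cast_nonneg _))) (Nat.cast_nonneg _)
      _ = Y ^ (12 / 100 : ℝ) * (A.card : ℝ) ^ 2 := by ring
  have h4 : ∑ a ∈ A, √((Nat.gcd q a : ℕ) : ℝ) ≤ Y ^ (6 / 100 : ℝ) * A.card :=
    (pow_le_pow_iff_left₀ (sum_nonneg fun a _ => Real.sqrt_nonneg _) (by positivity)
      two_ne_zero).1 h2
  refine (sum_le_sum h1).trans ?_
  rw [← mul_sum]
  calc √((Nat.gcd q c : ℕ) : ℝ) * ∑ a ∈ A, √((Nat.gcd q a : ℕ) : ℝ)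
      ≤ √((Nat.gcd q c : ℕ) : ℝ) * (Y ^ (6 / 100 : ℝ) * A.card) :=
        mul_le_mul_of_nonneg_left h4 (Real.sqrt_nonneg _)
    _ = Y ^ (6 / 100 : ℝ) * √((Nat.gcd q c : ℕ) : ℝ) * A.card := by ring

theorem sS3 (hD : StDec6) (hE : StEg6) : StS3 := by
  intro j0 t1 hj
  filter_upwards [hD (j0 + t1) (by omega), eventually_ge_atTop (1 : ℝ)] with Y hY hY1
  intro B N s hS hSp c J S q u β hc h1 h2 h3 hq hu hqs hYS
  have hS' : S1 (j0 + t1) (fun t => B (t1 + t)) (fun t => N (t1 + t)) fun t => s (t1 + t) :=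
    ⟨fun t => by rw [add_assoc]; exact hS.one (t1 + t),
      fun t t' h => hS.cop _ _ fun e => h (Nat.add_left_cancel e)⟩
  have hg := hE j0 B N s hj hS hSp (Ico t1 J) q hq
  have hqY : (q : ℝ) ≤ Y := by
    rw [← hqs, qs]
    exact le_mul_of_one_le_right (Nat.cast_nonneg q) (le_max_left _ _)
  have h5 := sum_XS3 _ q c Y hc hq hqY hg
  rw [prod_Ico_eq_prod_range] at h1 h2 h3
  have h4 := hY _ _ _ hS' c (J - t1) S q u β hc h1 h2 h3 hq hu hqs hYS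
  rw [← prod_Ico_eq_prod_range] at h4
  have hY0 : (0 : ℝ) < Y := by linarith
  have h6 : Y ^ (-(468 / 1000) : ℝ) * Y ^ (6 / 100 : ℝ) ≤ Y ^ (-(38 / 100) : ℝ) := by
    rw [← Real.rpow_add hY0]
    exact Real.rpow_le_rpow_of_exponent_le hY1 (by norm_num)
  refine h4.trans ((mul_le_mul_of_nonneg_left h5 (by positivity)).trans ?_)
  rw [← mul_assoc, ← mul_assoc]
  gcongr

end Pool.Agent.MP_2876a2_nt.Tu.Z

end

noncomputable section
open Finset Filter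
open scoped Pointwise


namespace Pool.Agent.MP_2876a2_nt.Tu.Z

theorem two_XMn : (2 : ℝ) ^ (-(1 / 10) : ℝ) ≤ 14 / 15 := by
  refine le_of_pow_le_pow_left₀ (n := 10) (by norm_num) (by norm_num) ?_
  rw [← Real.rpow_natCast, ← Real.rpow_mul (by norm_num)]
  norm_num

theorem geo_XMn {x : ℝ} (hx : 0 < x) (n : ℕ) :
    ∑ i ∈ range n, (x * 2 ^ i) ^ (-(1 / 10) : ℝ) ≤ x ^ (-(1 / 10) : ℝ) * 15 := by
  have h1 : ∀ i : ℕ, (x * 2 ^ i) ^ (-(1 / 10) : ℝ) ≤ x ^ (-(1 / 10) : ℝ) * (14 / 15) ^ i := by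
    intro i
    rw [Real.mul_rpow hx.le (by positivity), ← Real.rpow_natCast, ← Real.rpow_mul (by norm_num),
      mul_comm (i : ℝ), Real.rpow_mul (by norm_num), Real.rpow_natCast]
    exact mul_le_mul_of_nonneg_left (pow_le_pow_left₀ (by positivity) two_XMn i) (by positivity)
  refine (sum_le_sum fun i _ => h1 i).trans ?_
  rw [← mul_sum]
  refine mul_le_mul_of_nonneg_left ?_ (by positivity)
  have h2 := geom_sum_mul_neg (14 / 15 : ℝ) n
  have h3 : (0 : ℝ) ≤ (14 / 15) ^ n := by positivity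
  linarith

theorem dy_XMn {S : ℕ} {x Y : ℝ} (hx : 1 ≤ x) (h : x ≤ Y) (hS : Y ^ 2 ≤ S) :
    ∃ i ∈ range (S + 1), x * 2 ^ i ≤ Y ∧ Y < 2 * (x * 2 ^ i) := by
  have hx0 : 0 < x := by linarith
  obtain ⟨i, h1, h2⟩ := exists_nat_pow_near ((one_le_div hx0).2 h) (one_lt_two (α := ℝ))
  rw [le_div_iff₀ hx0] at h1
  rw [div_lt_iff₀ hx0, pow_succ] at h2
  refine ⟨i, mem_range.2 (Nat.lt_succ_of_le ?_), by linarith, by linarith⟩
  have h3 : (i : ℝ) ≤ 2 ^ i := by exact_mod_cast (Nat.lt_two_pow_self).le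
  have h4 : (2 : ℝ) ^ i ≤ 2 ^ i * x := le_mul_of_one_le_right (by positivity) hx
  have h5 : (i : ℝ) ≤ S := by nlinarith
  exact_mod_cast h5

theorem mem_XMn {K S v : ℕ} {q : ℕ → ℕ} {β : ℕ → ℝ} {Y : ℝ} : v ∈ Vy K S q β Y ↔
    v ∈ range (K * S) ∧ Y ≤ qs S (q v) (β v) ∧ qs S (q v) (β v) < 2 * Y := by
  unfold Vy
  exact mem_filter

theorem blk_XMn {A : Fin 3 → Finset ℕ} {S q0 μ Y : ℕ} {Z : ℕ → ℝ} {u : ℕ → ℤ} {q : ℕ → ℕ}
    {β : ℕ → ℝ} (hY : q0 ≤ Y) (hY0 : 0 < Y) (hZ : ∀ e, 0 ≤ Z e)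
    (h2 : ∀ (q : ℕ) (u : ℤ) (β : ℝ), 0 < q → IsCoprime u (q : ℤ) → (q0 : ℝ) ≤ qs S q β →
      qs S q β ^ 2 ≤ S → ‖ES (A 2) (u / q + β)‖ ≤
        qs S q β ^ (-(38 / 100) : ℝ) * √((Nat.gcd q μ : ℕ) : ℝ) * (A 2).card)
    (h0 : ZB (A 0) S Y Z) (h1 : ZB (A 1) S Y Z) (hA : Ap 5 S u q β) :
    ∑ v ∈ Vy 5 S q β Y, ∏ i, ‖ES (A i) ((v : ℝ) / (5 * S : ℕ))‖ ≤
      5 * (∏ i, ((A i).card : ℝ)) * ((Y : ℝ) ^ (-(38 / 100) : ℝ) *
        ∑ e ∈ Icc 1 (2 * Y), √((Nat.gcd e μ : ℕ) : ℝ) * Z e) := by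
  have hYr : (0 : ℝ) < Y := by exact_mod_cast hY0
  have hm : ∀ v ∈ Vy 5 S q β Y, q v ∈ Icc 1 (2 * Y) := fun v hv => by
    refine mem_Icc.2 ⟨(hA v).1, ?_⟩
    have : (q v : ℝ) ≤ 2 * Y := (le_qs S _ _).trans (mem_XMn.1 hv).2.2.le
    exact_mod_cast this
  rw [← sum_fiberwise_of_maps_to hm, mul_sum, mul_sum]
  refine sum_le_sum fun e _ => ?_
  have a0 := h0 5 u q β (by norm_num) hA e
  have a1 := h1 5 u q β (by norm_num) hA e
  have hze := hZ e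
  have cs : ∑ v ∈ (Vy 5 S q β Y).filter (fun v => q v = e),
      ‖ES (A 0) ((v : ℝ) / (5 * S : ℕ))‖ * ‖ES (A 1) ((v : ℝ) / (5 * S : ℕ))‖ ≤
      5 * (A 0).card * (A 1).card * Z e := by
    refine le_of_pow_le_pow_left₀ (n := 2) (by norm_num) (by positivity) ?_
    refine (sum_mul_sq_le_sq_mul_sq _ _ _).trans ?_
    refine (mul_le_mul a0 a1 (sum_nonneg fun _ _ => sq_nonneg _) (by positivity)).trans_eq ?_
    push_cast
    ring
  calc _ ≤ ∑ v ∈ (Vy 5 S q β Y).filter (fun v => q v = e),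
        ‖ES (A 0) ((v : ℝ) / (5 * S : ℕ))‖ * ‖ES (A 1) ((v : ℝ) / (5 * S : ℕ))‖ *
          ((Y : ℝ) ^ (-(38 / 100) : ℝ) * √((Nat.gcd e μ : ℕ) : ℝ) * (A 2).card) := by
        refine sum_le_sum fun v hv => ?_
        obtain ⟨hv, he⟩ := mem_filter.1 hv
        obtain ⟨-, b1, -⟩ := mem_XMn.1 hv
        obtain ⟨c1, c2, c3, c4⟩ := hA v
        rw [Fin.prod_univ_three]
        refine mul_le_mul_of_nonneg_left ?_ (by positivity)
        have hq : (q0 : ℝ) ≤ Y := by exact_mod_cast hY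
        have := h2 _ _ _ c1 c2 (hq.trans b1) c4
        rw [← c3, he] at this
        refine this.trans ?_
        rw [he] at b1
        exact mul_le_mul_of_nonneg_right (mul_le_mul_of_nonneg_right
          (Real.rpow_le_rpow_of_nonpos hYr b1 (by norm_num)) (Real.sqrt_nonneg _))
          (Nat.cast_nonneg _)
    _ ≤ 5 * (A 0).card * (A 1).card * Z e *
          ((Y : ℝ) ^ (-(38 / 100) : ℝ) * √((Nat.gcd e μ : ℕ) : ℝ) * (A 2).card) := by
        rw [← sum_mul]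
        exact mul_le_mul_of_nonneg_right cs (by positivity)
    _ = _ := by rw [Fin.prod_univ_three]; ring

theorem tail_XMn {μ Y : ℕ} {Z : ℕ → ℝ} (hμ : 0 < μ) (hY : μ ^ 20 ≤ Y) (hZ : ∀ e, 0 ≤ Z e)
    (hs : ∑ e ∈ Icc 1 (2 * Y), Z e ≤ 2 * (Y : ℝ) ^ (1 / 4 : ℝ)) :
    (Y : ℝ) ^ (-(38 / 100) : ℝ) * ∑ e ∈ Icc 1 (2 * Y), √((Nat.gcd e μ : ℕ) : ℝ) * Z e ≤
      2 * (Y : ℝ) ^ (-(1 / 10) : ℝ) := by
  have hY1 : (1 : ℝ) ≤ Y := by exact_mod_cast (Nat.pow_pos hμ).trans_le hY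
  have hY0 : (0 : ℝ) < Y := by linarith
  have h1 : √(μ : ℝ) ≤ (Y : ℝ) ^ (1 / 40 : ℝ) := by
    have a : ((μ : ℝ) ^ 20) ^ (1 / 40 : ℝ) ≤ (Y : ℝ) ^ (1 / 40 : ℝ) :=
      Real.rpow_le_rpow (by positivity) (by exact_mod_cast hY) (by norm_num)
    rw [← Real.rpow_natCast, ← Real.rpow_mul (Nat.cast_nonneg _)] at a
    rw [Real.sqrt_eq_rpow]
    refine le_of_eq_of_le ?_ a
    norm_num
  have h2 : ∑ e ∈ Icc 1 (2 * Y), √((Nat.gcd e μ : ℕ) : ℝ) * Z e ≤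
      (Y : ℝ) ^ (1 / 40 : ℝ) * (2 * (Y : ℝ) ^ (1 / 4 : ℝ)) := by
    refine le_trans (sum_le_sum fun e _ => ?_) ((mul_sum _ _ _).symm.le.trans
      (mul_le_mul_of_nonneg_left hs (by positivity)))
    refine mul_le_mul_of_nonneg_right (le_trans (Real.sqrt_le_sqrt ?_) h1) (hZ e)
    exact_mod_cast Nat.gcd_le_right e hμ
  calc _ ≤ (Y : ℝ) ^ (-(38 / 100) : ℝ) * ((Y : ℝ) ^ (1 / 40 : ℝ) * (2 * (Y : ℝ) ^ (1 / 4 : ℝ))) :=
        mul_le_mul_of_nonneg_left h2 (by positivity)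
    _ = 2 * (Y : ℝ) ^ (-(38 / 100) + (1 / 40 + 1 / 4) : ℝ) := by
        rw [Real.rpow_add hY0, Real.rpow_add hY0]; ring
    _ ≤ 2 * (Y : ℝ) ^ (-(1 / 10) : ℝ) :=
        mul_le_mul_of_nonneg_left (Real.rpow_le_rpow_of_exponent_le hY1 (by norm_num))
          zero_le_two

theorem sMn : StMn := by
  intro A S q0 n μ Zs hq0 hμ hμn hZs h2 hlo hhi u q β hA
  have hq1 : (1 : ℝ) ≤ q0 := by exact_mod_cast hq0
  obtain ⟨V, hV⟩ : ∃ V : ℝ, ∏ i, ((A i).card : ℝ) = V := ⟨_, rfl⟩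
  have hAk : 0 ≤ V := hV ▸ prod_nonneg fun i _ => Nat.cast_nonneg _
  obtain ⟨E, hE⟩ : ∃ E : ℕ → ℝ, ∀ i, E i = ((q0 * 2 ^ i : ℕ) : ℝ) ^ (-(38 / 100) : ℝ) *
      ∑ e ∈ Icc 1 (2 * (q0 * 2 ^ i)), √((Nat.gcd e μ : ℕ) : ℝ) * Zs i e := ⟨_, fun _ => rfl⟩
  have hE0 : ∀ i, 0 ≤ E i := fun i => by
    rw [hE]
    exact mul_nonneg (by positivity)
      (sum_nonneg fun e _ => mul_nonneg (Real.sqrt_nonneg _) (hZs i e))
  have hEr : Er Zs q0 n μ = ∑ i ∈ range n, E i := sum_congr rfl fun i _ => (hE i).symm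
  have hb : ∀ i : ℕ, ∑ v ∈ Vy 5 S q β (q0 * 2 ^ i : ℕ),
      ∏ j, ‖ES (A j) ((v : ℝ) / (5 * S : ℕ))‖ ≤
      5 * V * ((if i < n then E i else 0) + 2 * ((q0 : ℝ) * 2 ^ i) ^ (-(1 / 10) : ℝ)) := by
    intro i
    have hY : q0 ≤ q0 * 2 ^ i := Nat.le_mul_of_pos_right _ (by positivity)
    have hY0 : 0 < q0 * 2 ^ i := by positivity
    split_ifs with hi
    · refine (blk_XMn hY hY0 (hZs i) h2 (hlo i hi).1 (hlo i hi).2 hA).trans ?_
      rw [hV, ← hE]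
      exact mul_le_mul_of_nonneg_left (le_add_of_nonneg_right (by positivity)) (by positivity)
    · rcases (Vy 5 S q β (q0 * 2 ^ i : ℕ)).eq_empty_or_nonempty with h | ⟨v, hv⟩
      · rw [h, sum_empty]
        positivity
      · have hS : ((q0 * 2 ^ i : ℕ) : ℝ) ^ 2 ≤ S :=
          (pow_le_pow_left₀ (Nat.cast_nonneg _) (mem_XMn.1 hv).2.1 2).trans (hA v).2.2.2
        obtain ⟨Z, z0, z1, z2, z3⟩ := hhi i (not_lt.1 hi) hS
        refine (blk_XMn hY hY0 z0 h2 z2 z3 hA).trans ?_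
        rw [hV, zero_add]
        refine mul_le_mul_of_nonneg_left ?_ (by positivity)
        have := tail_XMn hμ (hμn.trans (Nat.mul_le_mul_left _
          (Nat.pow_le_pow_right two_pos (not_lt.1 hi)))) z0 z1
        refine this.trans_eq ?_
        push_cast
        rfl
  have s1 : ∑ i ∈ range (S + 1), (if i < n then E i else 0) ≤ ∑ i ∈ range n, E i := by
    rw [← sum_filter]
    exact sum_le_sum_of_subset_of_nonneg (fun i hi => mem_range.2 (mem_filter.1 hi).2)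
      fun i _ _ => hE0 i
  have s2 := geo_XMn (x := q0) (by linarith) (S + 1)
  have s3 : ∑ v ∈ range (5 * S), ∑ i ∈ range (S + 1),
      (if v ∈ Vy 5 S q β (q0 * 2 ^ i : ℕ) then
        ∏ j, ‖ES (A j) ((v : ℝ) / (5 * S : ℕ))‖ else 0) ≤
      5 * V * (∑ i ∈ range n, E i + 40 * (q0 : ℝ) ^ (-(1 / 10) : ℝ)) := by
    rw [sum_comm]
    refine le_trans (sum_le_sum fun i _ => le_of_eq_of_le ?_ (hb i)) ?_
    · rw [sum_ite_mem, inter_eq_right.2 fun v hv => (mem_XMn.1 hv).1]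
    · rw [← mul_sum, sum_add_distrib, ← mul_sum]
      refine mul_le_mul_of_nonneg_left ?_ (by positivity)
      have : (0 : ℝ) ≤ (q0 : ℝ) ^ (-(1 / 10) : ℝ) := by positivity
      linarith
  rw [hV, hEr]
  refine le_trans ?_ s3
  rw [sum_filter]
  refine sum_le_sum fun v hv => ?_
  have n0 : ∀ i ∈ range (S + 1), 0 ≤ (if v ∈ Vy 5 S q β (q0 * 2 ^ i : ℕ) then
      ∏ j, ‖ES (A j) ((v : ℝ) / (5 * S : ℕ))‖ else 0) := fun i _ => by
    split_ifs
    · exact prod_nonneg fun _ _ => norm_nonneg _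
    · exact le_rfl
  split_ifs with h
  · obtain ⟨i, hi, b1, b2⟩ := dy_XMn hq1 h (hA v).2.2.2
    have b3 := single_le_sum n0 hi
    rwa [if_pos (mem_XMn.2 ⟨hv, by push_cast; exact b1, by push_cast; exact b2⟩)] at b3
  · exact sum_nonneg n0

end Pool.Agent.MP_2876a2_nt.Tu.Z

end

noncomputable section
open Finset Filter
open scoped Pointwise


namespace Pool.Agent.MP_2876a2_nt.Tu.Z

theorem term_XDiff6 {E : ℂ} {S q0 q T T' : ℕ} {V ε β : ℝ} {u : ℤ} (hAk : 0 ≤ V) (hE : ‖E‖ ≤ V)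
    (hq0 : (1 : ℝ) ≤ q0) (hε0 : 0 ≤ ε) (hq : 0 < q) (h : qs S q β < q0)
    (hm : T' ≡ T [MOD q0.factorial]) (hT : |(T' : ℝ) - T| ≤ ε * S) :
    ‖E * (ee (-(T' * (u / q + β))) - ee (-(T * (u / q + β))))‖ ≤
      V * (8 * ε * (q0 : ℝ) ^ 4) * qs S q β ^ (-(2002 / 1000) : ℝ) := by
  have h1 := one_le_qs S hq β
  set Y := qs S q β with hYd
  have hY0 : 0 < Y := by linarith
  have hqp : (0 : ℝ) < q0 := by linarith
  rw [norm_mul]
  have hqq : q ≤ q0 := by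
    have : (q : ℝ) ≤ q0 := (le_qs S q β).trans h.le
    exact_mod_cast this
  obtain ⟨m, hm'⟩ : (q : ℤ) ∣ (T : ℤ) - T' :=
    (Int.natCast_dvd_natCast.2 (Nat.dvd_factorial hq hqq)).trans hm.dvd
  have hm2 : (T : ℝ) - T' = q * m := by exact_mod_cast hm'
  have hq' : (q : ℝ) ≠ 0 := by positivity
  have e1 : -((T' : ℝ) * (u / q + β)) =
      -(T * (u / q + β)) + (((m * u : ℤ) : ℝ) + ((T : ℝ) - T') * β) := by
    have : (T' : ℝ) = T - q * m := by linarith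
    rw [this]
    push_cast
    field_simp
    ring
  have h5 : ‖ee (-(T' * (u / q + β))) - ee (-(T * (u / q + β)))‖ ≤
      2 * Real.pi * |((T : ℝ) - T') * β| := by
    rw [e1, ee_add, ee_add, ee_int, one_mul, ← mul_sub_one, norm_mul, norm_ee, one_mul]
    exact norm_ee_sub_one _
  have h7 : |β| * S ≤ Y := by
    have hq1 : (1 : ℝ) ≤ q := by exact_mod_cast hq
    refine (le_max_right 1 _).trans ?_
    exact le_mul_of_one_le_left (zero_le_one.trans (le_max_left _ _)) hq1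
  have h8 : |((T : ℝ) - T') * β| ≤ ε * q0 := by
    rw [abs_mul, abs_sub_comm]
    calc _ ≤ ε * S * |β| := mul_le_mul_of_nonneg_right hT (abs_nonneg _)
      _ = ε * (|β| * S) := by ring
      _ ≤ ε * q0 := mul_le_mul_of_nonneg_left (h7.trans h.le) hε0
  have h9 : 1 ≤ (q0 : ℝ) ^ 3 * Y ^ (-(2002 / 1000) : ℝ) := by
    have a1 : (q0 : ℝ) ^ (-(3 : ℝ)) ≤ Y ^ (-(2002 / 1000) : ℝ) :=
      (Real.rpow_le_rpow_of_nonpos hY0 h.le (by norm_num)).trans
        (Real.rpow_le_rpow_of_exponent_le h1 (by norm_num))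
    rw [Real.rpow_neg hqp.le, show (3 : ℝ) = ((3 : ℕ) : ℝ) by norm_num,
      Real.rpow_natCast] at a1
    calc (1 : ℝ) = (q0 : ℝ) ^ 3 * ((q0 : ℝ) ^ 3)⁻¹ := by field_simp
      _ ≤ _ := by gcongr
  have h10 : 2 * Real.pi * |((T : ℝ) - T') * β| ≤
      8 * ε * (q0 : ℝ) ^ 4 * Y ^ (-(2002 / 1000) : ℝ) := by
    calc _ ≤ 2 * 4 * (ε * q0) * 1 := by
          rw [mul_one]
          gcongr
          exact Real.pi_le_four
      _ ≤ 2 * 4 * (ε * q0) * ((q0 : ℝ) ^ 3 * Y ^ (-(2002 / 1000) : ℝ)) := by gcongr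
      _ = _ := by ring
  rw [mul_assoc]
  exact mul_le_mul hE (h5.trans h10) (norm_nonneg _) hAk

theorem sDiff6 (hF : StFour2) (hA : V.StAp3) : StDiff6 := by
  classical
  obtain ⟨C, hC, hA⟩ := hA
  refine ⟨8 * C, by positivity, fun A S q0 E ε hS hq0 hε0 hε1 hAS hD T T' hT hm hTT => ?_⟩
  have hq1 : (1 : ℝ) ≤ q0 := by exact_mod_cast hq0
  obtain ⟨u, q, β, h1, h2⟩ := hA 5 S (by omega) hS
  have hS' : (1 : ℝ) ≤ S := by exact_mod_cast hS
  have hP : 3 * S < 5 * S := by omega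
  have hT' : T' < 5 * S := by
    have h3 : (T' : ℝ) - T ≤ S :=
      ((le_abs_self _).trans hTT).trans (mul_le_of_le_one_left (by linarith) hε1)
    have h4 : (T' : ℝ) ≤ T + S := by linarith
    have h5 : T' ≤ T + S := by exact_mod_cast h4
    omega
  have e1 := hF 3 A S _ T hAS hP (hT.trans_lt hP)
  have e2 := hF 3 A S _ T' hAS hP hT'
  have s2 := hD u q β h1
  obtain ⟨V, hV⟩ : ∃ V : ℝ, ∏ i, ((A i).card : ℝ) = V := ⟨_, rfl⟩
  have hAk : 0 ≤ V := hV ▸ prod_nonneg fun i _ => Nat.cast_nonneg _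
  rw [hV] at s2 ⊢
  have s1 : ∑ v ∈ range (5 * S), qs S (q v) (β v) ^ (-(2002 / 1000) : ℝ) ≤ C * 5 := by
    have h3 := h2 1 one_ne_zero
    rw [Tu.V.wt_one] at h3
    simpa using h3
  rw [sum_filter] at s2
  have e3 : ‖((rm A T' : ℂ) - rm A T) * ((5 * S : ℕ) : ℂ)‖ ≤
      2 * (5 * V * E) + V * (8 * ε * (q0 : ℝ) ^ 4) * (C * 5) := by
    rw [sub_mul, e1, e2, ← sum_sub_distrib]
    refine (norm_sum_le _ _).trans ?_
    refine le_trans ?_ (add_le_add (mul_le_mul_of_nonneg_left s2 (by positivity))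
      (mul_le_mul_of_nonneg_left s1 (by positivity)))
    rw [mul_sum, mul_sum, ← sum_add_distrib]
    refine sum_le_sum fun v hv => ?_
    obtain ⟨a1, a2, a3, a4⟩ := h1 v
    have n1 := (one_le_qs S a1 (β v))
    rw [← mul_sub]
    rcases le_or_gt (q0 : ℝ) (qs S (q v) (β v)) with h | h
    · rw [if_pos h]
      refine le_trans ?_ (le_add_of_nonneg_right (by positivity))
      rw [norm_mul, norm_prod, mul_comm]
      refine mul_le_mul_of_nonneg_right ?_ (prod_nonneg fun _ _ => norm_nonneg _)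
      refine (norm_sub_le _ _).trans ?_
      rw [norm_ee, norm_ee]
      norm_num
    · rw [if_neg (not_le.2 h), mul_zero, zero_add, mul_div_assoc, mul_div_assoc, a3]
      refine term_XDiff6 hAk ?_ hq1 hε0 a1 h hm hTT
      rw [norm_prod, ← hV]
      exact prod_le_prod (fun i _ => norm_nonneg _) fun i _ => norm_ES_le (A i) _
  rw [norm_mul, Complex.norm_natCast, ← Complex.ofReal_natCast, ← Complex.ofReal_natCast,
    ← Complex.ofReal_sub, Complex.norm_real, Real.norm_eq_abs] at e3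
  rw [le_div_iff₀ (by positivity)]
  push_cast at e3
  nlinarith

end Pool.Agent.MP_2876a2_nt.Tu.Z

end

noncomputable section
open Finset Filter
open scoped Pointwise


namespace Pool.Agent.MP_2876a2_nt.Tu.Z

theorem big_XPi (Q : ℕ) : ∀ᶠ a : ℕ in atTop, 4 * Q * (2 * a + 1) ≤ 2 ^ a := by
  filter_upwards [eventually_ge_atTop (12 * Q + 5)] with a ha
  have h : ∀ n : ℕ, 4 ≤ n → n ^ 2 ≤ 2 ^ n := fun n hn => by
    induction n, hn using Nat.le_induction with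
    | base => norm_num
    | succ n hn ih => rw [pow_succ 2 n]; nlinarith
  refine le_trans ?_ (h a (by omega))
  nlinarith

theorem sPi (hT : StTh) : StPi := by
  intro Q hQ
  have hc : (Q - 1).Coprime Q := by
    obtain ⟨k, rfl⟩ : ∃ k, Q = k + 1 := ⟨Q - 1, by omega⟩
    simp
  have Q0 : (0 : ℝ) < Q := by exact_mod_cast hQ
  have ht : Tendsto (fun a : ℕ => 2 ^ (2 * a)) atTop atTop :=
    (tendsto_pow_atTop_atTop_of_one_lt (one_lt_two (α := ℕ))).comp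
      (tendsto_id.const_mul_atTop' two_pos)
  filter_upwards [ht.eventually (hT Q (Q - 1) hQ hc (1 / (2 * Q)) (by positivity)), big_XPi Q]
    with a h1 h2
  refine exists_subset_card_eq ?_
  generalize hS : PA (2 ^ (2 * a)) Q (Q - 1) = S at h1
  have t0 : (0 : ℝ) < Q.totient := by exact_mod_cast Nat.totient_pos.2 hQ
  have t1 : (Q.totient : ℝ) ≤ Q := by exact_mod_cast Nat.totient_le Q
  have e1 : ((2 ^ (2 * a) : ℕ) : ℝ) / Q ≤ ((2 ^ (2 * a) : ℕ) : ℝ) / Q.totient :=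
    div_le_div_of_nonneg_left (Nat.cast_nonneg _) t0 t1
  have e2 : TH S ≤ S.card * (2 * a + 1 : ℝ) := by
    rw [← nsmul_eq_mul]
    refine sum_le_card_nsmul _ _ _ fun p hp => ?_
    rw [← hS] at hp
    have hp2 : p ≤ 2 ^ (2 * a + 1) := by
      have := (mem_Ioc.1 (mem_filter.1 (mem_filter.1 hp).1).1).2
      rw [pow_succ]; omega
    have hp0 : (0 : ℝ) < p := by exact_mod_cast (mem_filter.1 (mem_filter.1 hp).1).2.pos
    refine (Real.log_le_log hp0 (by exact_mod_cast hp2 : (p : ℝ) ≤ 2 ^ (2 * a + 1))).trans ?_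
    rw [Real.log_pow]
    have := Real.log_two_lt_d9
    push_cast
    nlinarith [(Nat.cast_nonneg a : (0 : ℝ) ≤ a)]
  have e3 : ((2 ^ (2 * a) : ℕ) : ℝ) ≤ 2 * Q * (S.card * (2 * a + 1 : ℝ)) := by
    have := (abs_le.1 h1).1
    have e4 : ((2 ^ (2 * a) : ℕ) : ℝ) / Q = 2 * (1 / (2 * Q) * ((2 ^ (2 * a) : ℕ) : ℝ)) := by
      field_simp
    have e5 : ((2 ^ (2 * a) : ℕ) : ℝ) = 2 * Q * (1 / (2 * Q) * ((2 ^ (2 * a) : ℕ) : ℝ)) := by
      field_simp
    rw [e5]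
    exact mul_le_mul_of_nonneg_left (by linarith) (by positivity)
  have e6 : 2 ^ (2 * a) ≤ 2 * Q * (S.card * (2 * a + 1)) := by exact_mod_cast e3
  have e7 : 2 ^ (a + 1) * (2 * Q * (2 * a + 1)) ≤ S.card * (2 * Q * (2 * a + 1)) := by
    calc 2 ^ (a + 1) * (2 * Q * (2 * a + 1)) = 2 ^ a * (4 * Q * (2 * a + 1)) := by ring
      _ ≤ 2 ^ a * 2 ^ a := Nat.mul_le_mul_left _ h2
      _ = 2 ^ (2 * a) := by ring
      _ ≤ _ := e6
      _ = _ := by ring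
  exact Nat.le_of_mul_le_mul_right e7 (by positivity)

end Pool.Agent.MP_2876a2_nt.Tu.Z

end

noncomputable section
open Finset Filter
open scoped Pointwise


namespace Pool.Agent.MP_2876a2_nt.Tu.Z

theorem both_XTot (n : ℕ) : n ≤ 2 * n.totient ^ 2 ∧ (¬ 2 ∣ n → n ≤ n.totient ^ 2) := by
  induction n using Nat.recOnPosPrimePosCoprime with
  | prime_pow p k hp hk =>
    obtain ⟨j, rfl⟩ : ∃ j, k = j + 1 := ⟨k - 1, by omega⟩
    rw [Nat.totient_prime_pow_succ hp]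
    have h1 : 1 ≤ p ^ j := Nat.one_le_pow _ _ hp.pos
    obtain ⟨q, rfl⟩ : ∃ q, p = q + 2 := ⟨p - 2, by have := hp.two_le; omega⟩
    have e : q + 2 - 1 = q + 1 := by omega
    rw [e, pow_succ]
    generalize hx : (q + 2) ^ j = x at h1
    have h2 : x ≤ x ^ 2 := by nlinarith
    refine ⟨?_, fun ho => ?_⟩
    · calc x * (q + 2) ≤ x ^ 2 * (2 * (q + 1) ^ 2) := Nat.mul_le_mul h2 (by nlinarith)
        _ = _ := by ring
    · have hq : 1 ≤ q := by
        rcases Nat.eq_zero_or_pos q with rfl | h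
        · exact (ho (Dvd.intro_left x rfl)).elim
        · exact h
      calc x * (q + 2) ≤ x ^ 2 * (q + 1) ^ 2 := Nat.mul_le_mul h2 (by nlinarith)
        _ = _ := by ring
  | zero => simp
  | one => simp
  | coprime a b _ _ hab ha hb =>
    rw [Nat.totient_mul hab, mul_pow]
    refine ⟨?_, fun ho => Nat.mul_le_mul (ha.2 fun h => ho (h.mul_right _))
      (hb.2 fun h => ho (h.mul_left _))⟩
    by_cases h : 2 ∣ a
    · have hb2 : ¬ 2 ∣ b := fun h' => by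
        have := Nat.dvd_gcd h h'
        rw [hab] at this
        omega
      calc a * b ≤ 2 * a.totient ^ 2 * b.totient ^ 2 := Nat.mul_le_mul ha.1 (hb.2 hb2)
        _ = _ := by ring
    · calc a * b ≤ a.totient ^ 2 * (2 * b.totient ^ 2) := Nat.mul_le_mul (ha.2 h) hb.1
        _ = _ := by ring

theorem sTot : StTot := fun n => (both_XTot n).1

end Pool.Agent.MP_2876a2_nt.Tu.Z

end

noncomputable section
/-! The mean of the square root of a common divisor over shifted primes. -/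


open Finset Filter
open scoped Pointwise


namespace Pool.Agent.MP_2876a2_nt.Tu.Z

theorem cnt_XGw (N d : ℕ) (hd : 0 < d) :
    (((PN N).filter fun q => d ∣ q + 1).card : ℝ) ≤ N / d + 1 := by
  have h1 : ((PN N).filter fun q => d ∣ q + 1).card ≤ (Ioc ((N + 1) / d) ((2 * N + 1) / d)).card := by
    refine card_le_card_of_injOn (fun q => (q + 1) / d) (fun q hq => ?_) fun q hq q' hq' e => ?_
    · obtain ⟨h2, k, hk⟩ := mem_filter.1 (mem_coe.1 hq)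
      obtain ⟨h3, h4⟩ := mem_Ioc.1 (mem_filter.1 h2).1
      refine mem_coe.2 (mem_Ioc.2 ⟨?_, Nat.div_le_div_right (by omega)⟩)
      show (N + 1) / d < (q + 1) / d
      rw [hk, Nat.mul_div_cancel_left _ hd]
      exact Nat.div_lt_of_lt_mul (by omega)
    · have h2 := Nat.mul_div_cancel' (mem_filter.1 (mem_coe.1 hq)).2
      have h3 := Nat.mul_div_cancel' (mem_filter.1 (mem_coe.1 hq')).2
      have e' : (q + 1) / d = (q' + 1) / d := e
      rw [e'] at h2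
      omega
  have h2 : (2 * N + 1) / d ≤ N / d + (N + 1) / d + 1 := by
    rw [show 2 * N + 1 = N + (N + 1) by ring, Nat.add_div hd]
    split_ifs <;> simp
  rw [Nat.card_Ioc] at h1
  have h3 : ((PN N).filter fun q => d ∣ q + 1).card ≤ N / d + 1 :=
    h1.trans (Nat.sub_le_iff_le_add.2 (h2.trans_eq (Nat.add_right_comm _ _ _)))
  calc (((PN N).filter fun q => d ∣ q + 1).card : ℝ) ≤ ((N / d + 1 : ℕ) : ℝ) := by
        exact_mod_cast h3
    _ ≤ N / d + 1 := by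
        push_cast
        linarith [Nat.cast_div_le (α := ℝ) (m := N) (n := d)]

theorem one_XGw (hB : V.StBT3) (hT : StTot) (σ m X f : ℕ) (hσ : 0 < σ) (hm : 0 < m) (hX : 2 ≤ X)
    (hx : σ * m ≤ X) (hl : 13 * (m : ℝ) ≤ 20 * Real.log X) (hf : 0 < f) :
    √(f : ℝ) * ((PN (X ^ 100)).filter fun q => σ * f ∣ q + 1).card ≤
      3 * ((X : ℝ) ^ 100 / (σ.totient * m)) := by
  have x1 : (1 : ℝ) ≤ X := by exact_mod_cast (by omega : 1 ≤ X)
  have m0 : (0 : ℝ) < m := by exact_mod_cast hm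
  have f0 : (0 : ℝ) < f := by exact_mod_cast hf
  have s0 : (0 : ℝ) < σ := by exact_mod_cast hσ
  have p0 : (0 : ℝ) < σ.totient := by exact_mod_cast Nat.totient_pos.2 hσ
  have p1 : (σ.totient : ℝ) ≤ σ := by exact_mod_cast Nat.totient_le σ
  have hd : 0 < σ * f := Nat.mul_pos hσ hf
  have fd : f ≤ σ * f := Nat.le_mul_of_pos_left f hσ
  have hA : (X : ℝ) ^ 99 ≤ (X : ℝ) ^ 100 / (σ.totient * m) := by
    have h1 : (σ.totient : ℝ) * m ≤ X :=
      (mul_le_mul_of_nonneg_right p1 m0.le).trans (by exact_mod_cast hx)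
    rw [le_div_iff₀ (by positivity), pow_succ (X : ℝ) 99]
    exact mul_le_mul_of_nonneg_left h1 (by positivity)
  have hA0 : (0 : ℝ) ≤ (X : ℝ) ^ 100 / (σ.totient * m) := by positivity
  rcases le_or_gt (σ * f) (X ^ 50) with hc | hc
  · have r2 : 2 ≤ X ^ 20 := hX.trans (Nat.le_self_pow (by norm_num) X)
    have h1 := hB (σ * f) (σ * f - 1) (X ^ 20) (X ^ 100) hd r2
      (Nat.pow_le_pow_right (by omega) (by norm_num))
    have h2 : ((PN (X ^ 100)).filter fun q => σ * f ∣ q + 1).card ≤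
        ((Ioc (X ^ 100) (2 * X ^ 100)).filter fun p => p.Prime ∧ p ≡ σ * f - 1 [MOD σ * f]).card := by
      refine card_le_card fun q hq => ?_
      obtain ⟨h3, h4⟩ := mem_filter.1 hq
      obtain ⟨h5, h6⟩ := mem_filter.1 h3
      refine mem_filter.2 ⟨h5, h6, Nat.ModEq.add_right_cancel' 1 ?_⟩
      rw [Nat.sub_add_cancel hd]
      exact ((Nat.modEq_zero_iff_dvd.2 h4).trans (Nat.modEq_zero_iff_dvd.2 dvd_rfl).symm)
    have h3 := (Nat.cast_le.2 h2).trans h1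
    have q0 : (0 : ℝ) < f.totient := by exact_mod_cast Nat.totient_pos.2 hf
    have h4 : (σ.totient : ℝ) * f.totient ≤ (σ * f).totient := by
      exact_mod_cast Nat.totient_super_multiplicative σ f
    have h5 : √(f : ℝ) ≤ 2 * f.totient := by
      refine Real.sqrt_le_iff.2 ⟨by positivity, ?_⟩
      have : (f : ℝ) ≤ 2 * (f.totient : ℝ) ^ 2 := by exact_mod_cast hT f
      nlinarith
    have h6 : √(f : ℝ) ≤ (X : ℝ) ^ 25 := by
      refine Real.sqrt_le_iff.2 ⟨by positivity, ?_⟩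
      rw [← pow_mul]
      exact_mod_cast fd.trans hc
    have h7 : ((σ * f : ℕ) : ℝ) ≤ (X : ℝ) ^ 100 := by
      exact_mod_cast hc.trans (Nat.pow_le_pow_right (by omega) (by norm_num))
    have h8 : Real.log ((X ^ 20 : ℕ) : ℝ) = 20 * Real.log X := by
      rw [Nat.cast_pow, Real.log_pow]
      norm_num
    rw [h8, Nat.cast_pow, Nat.cast_pow] at h3
    have h9 : ((X : ℝ) ^ 100 + 2 * ((σ * f : ℕ) : ℝ)) / ((σ * f).totient * (20 * Real.log X)) ≤
        3 * (X : ℝ) ^ 100 / (σ.totient * f.totient * (13 * m)) :=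
      div_le_div₀ (by positivity) (by linarith) (by positivity)
        (mul_le_mul h4 hl (by positivity) (by positivity))
    have h10 : 2 * (f.totient : ℝ) * (3 * (X : ℝ) ^ 100 / (σ.totient * f.totient * (13 * m))) =
        6 / 13 * ((X : ℝ) ^ 100 / (σ.totient * m)) := by
      field_simp
      norm_num
    have h11 : (X : ℝ) ^ 25 * ((X : ℝ) ^ 20) ^ 2 ≤ (X : ℝ) ^ 99 := by
      rw [← pow_mul, ← pow_add]
      exact pow_le_pow_right₀ x1 (by norm_num)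
    have h12 := mul_le_mul_of_nonneg_left (h3.trans (add_le_add_left h9 _)) (Real.sqrt_nonneg f)
    have h13 := mul_le_mul_of_nonneg_right h5
      (show (0 : ℝ) ≤ 3 * (X : ℝ) ^ 100 / (σ.totient * f.totient * (13 * m)) by positivity)
    have h14 := mul_le_mul_of_nonneg_right h6 (show (0 : ℝ) ≤ ((X : ℝ) ^ 20) ^ 2 by positivity)
    rw [mul_add] at h12
    linarith
  · rcases le_or_gt (σ * f) (2 * X ^ 100 + 1) with hb | hb
    · have h1 := mul_le_mul_of_nonneg_left (cnt_XGw (X ^ 100) (σ * f) hd) (Real.sqrt_nonneg f)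
      have h2 : √(f : ℝ) ≤ (X : ℝ) ^ 51 := by
        refine Real.sqrt_le_iff.2 ⟨by positivity, ?_⟩
        rw [← pow_mul]
        have a1 : 1 ≤ X ^ 100 := Nat.one_le_pow _ _ (by omega)
        have a2 : X ^ 100 * 2 ^ 2 ≤ X ^ 100 * X ^ 2 :=
          Nat.mul_le_mul_left _ (Nat.pow_le_pow_left hX 2)
        have a3 : f ≤ X ^ (51 * 2) := by
          rw [show 51 * 2 = 100 + 2 from rfl, pow_add]
          omega
        exact_mod_cast a3
      have h3 : (m : ℝ) ≤ √(f : ℝ) := by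
        refine Real.le_sqrt_of_sq_le ?_
        have a1 : (σ * m) ^ 2 ≤ X ^ 50 :=
          (Nat.pow_le_pow_left hx 2).trans (Nat.pow_le_pow_right (by omega) (by norm_num))
        have a2 : σ * m ^ 2 ≤ (σ * m) ^ 2 := by
          rw [mul_pow]
          exact Nat.mul_le_mul_right _ (Nat.le_self_pow (by norm_num) σ)
        have a3 : m ^ 2 ≤ f := (Nat.lt_of_mul_lt_mul_left ((a2.trans a1).trans_lt hc)).le
        exact_mod_cast a3
      have h4 : √(f : ℝ) * (((X ^ 100 : ℕ) : ℝ) / ((σ * f : ℕ) : ℝ)) ≤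
          (X : ℝ) ^ 100 / (σ.totient * m) := by
        have r0 : 0 < √(f : ℝ) := Real.sqrt_pos.2 f0
        have e : √(f : ℝ) * (((X ^ 100 : ℕ) : ℝ) / ((σ * f : ℕ) : ℝ)) =
            (X : ℝ) ^ 100 / (σ * √(f : ℝ)) := by
          push_cast
          nth_rewrite 2 [← Real.mul_self_sqrt f0.le]
          field_simp
        rw [e]
        exact div_le_div_of_nonneg_left (by positivity) (by positivity)
          (mul_le_mul p1 h3 m0.le s0.le)
      have h5 : (X : ℝ) ^ 51 ≤ (X : ℝ) ^ 99 := pow_le_pow_right₀ x1 (by norm_num)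
      rw [mul_add, mul_one] at h1
      linarith
    · rw [filter_false_of_mem fun q hq h => ?_, card_empty, Nat.cast_zero, mul_zero]
      · positivity
      · have h1 := (mem_Ioc.1 (mem_filter.1 hq).1).2
        have h2 := Nat.le_of_dvd (Nat.succ_pos q) h
        omega

theorem sGw (hB : V.StBT3) (hT : StTot) : StGw := by
  intro σ hσ
  have ev : ∀ᶠ m : ℕ in atTop, σ * m ≤ 2 ^ m := by
    filter_upwards [eventually_ge_atTop σ, eventually_ge_atTop 4] with m h1 h2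
    refine (Nat.mul_le_mul_right m h1).trans ?_
    clear h1
    induction m, h2 using Nat.le_induction with
    | base => norm_num
    | succ k hk ih =>
      rw [pow_succ]
      nlinarith
  filter_upwards [ev, eventually_ge_atTop 1] with m h1 h2 e he
  have hX : 2 ≤ 2 ^ m := Nat.le_self_pow (by omega) 2
  have hl : 13 * (m : ℝ) ≤ 20 * Real.log ((2 ^ m : ℕ) : ℝ) := by
    rw [Nat.cast_pow, Real.log_pow, Nat.cast_ofNat]
    nlinarith [Real.log_two_gt_d9, (Nat.cast_nonneg m : (0 : ℝ) ≤ m)]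
  have e1 : 2 ^ (100 * m) = (2 ^ m) ^ 100 := by rw [← pow_mul, mul_comm]
  have e2 : (2 : ℝ) ^ (100 * m) = ((2 ^ m : ℕ) : ℝ) ^ 100 := by exact_mod_cast e1
  rw [e1, e2]
  generalize 2 ^ m = X at h1 hX hl ⊢
  have s1 : ∀ q ∈ (PN (X ^ 100)).filter (fun q => σ ∣ q + 1),
      √((Nat.gcd e ((q + 1) / σ) : ℕ) : ℝ) ≤
        ∑ f ∈ e.divisors, if σ * f ∣ q + 1 then √(f : ℝ) else 0 := by
    intro q hq
    have h3 := (mem_filter.1 hq).2
    refine le_trans ?_ (single_le_sum (f := fun f : ℕ => if σ * f ∣ q + 1 then √(f : ℝ) else 0)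
      (fun f _ => by split_ifs <;> positivity)
      (Nat.mem_divisors.2 ⟨Nat.gcd_dvd_left e ((q + 1) / σ), he.ne'⟩))
    rw [if_pos (Nat.mul_dvd_of_dvd_div h3 (Nat.gcd_dvd_right _ _))]
  refine (sum_le_sum s1).trans ?_
  rw [sum_comm]
  have s2 : ∀ f ∈ e.divisors, (∑ q ∈ (PN (X ^ 100)).filter (fun q => σ ∣ q + 1),
      if σ * f ∣ q + 1 then √(f : ℝ) else 0) ≤ 3 * ((X : ℝ) ^ 100 / (σ.totient * m)) := by
    intro f hf
    refine le_trans ?_ (one_XGw hB hT σ m X f hσ h2 hX h1 hl (Nat.pos_of_mem_divisors hf))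
    rw [← sum_filter, sum_const, nsmul_eq_mul, mul_comm]
    refine mul_le_mul_of_nonneg_left (Nat.cast_le.2 (card_le_card fun q hq => ?_))
      (Real.sqrt_nonneg _)
    exact mem_filter.2 ⟨(mem_filter.1 (mem_filter.1 hq).1).1, (mem_filter.1 hq).2⟩
  refine (sum_le_card_nsmul _ _ _ s2).trans (le_of_eq ?_)
  rw [nsmul_eq_mul]
  ring

end Pool.Agent.MP_2876a2_nt.Tu.Z

end

noncomputable section
open Finset Filter
open scoped Pointwise


namespace Pool.Agent.MP_2876a2_nt.Tu.Z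

theorem mk_XAvg (A : Finset ℕ) (f : ℕ → ℝ) (l : ℝ) (hf : ∀ q, 0 ≤ f q) (hl : 0 < l) :
    ((A.filter fun q => l * ∑ x ∈ A, f x < f q).card : ℝ) ≤ 1 / l := by
  rcases (A.filter fun q => l * ∑ x ∈ A, f x < f q).eq_empty_or_nonempty with h | h
  · rw [h, card_empty, Nat.cast_zero]
    positivity
  have h1 := sum_lt_sum_of_nonempty h (f := fun _ => l * ∑ x ∈ A, f x) (g := f)
    fun q hq => (mem_filter.1 hq).2
  have h2 := h1.trans_le (sum_le_sum_of_subset_of_nonneg (filter_subset _ _) fun q _ _ => hf q)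
  rw [sum_const, nsmul_eq_mul, ← mul_assoc] at h2
  have h3 : 0 ≤ ∑ x ∈ A, f x := sum_nonneg fun q _ => hf q
  rw [le_div_iff₀ hl]
  by_contra h4
  nlinarith [mul_le_mul_of_nonneg_right (not_le.1 h4).le h3]

theorem dis_XAvg (N σ W : ℕ) (hσ : 0 < σ) (f : ℕ → ℝ) (hf : ∀ q, 0 ≤ f q) :
    ∑ w ∈ Icc 1 W, ∑ q ∈ PA N (σ * W) (σ * w - 1), f q ≤
      ∑ q ∈ (PN N).filter (fun q => σ ∣ q + 1), f q := by
  have k : ∀ w ∈ Icc 1 W, ∀ q ∈ PA N (σ * W) (σ * w - 1), q + 1 ≡ σ * w [MOD σ * W] :=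
    fun w hw q hq => by
      have h := (mem_filter.1 hq).2.add_right 1
      rwa [Nat.sub_add_cancel (Nat.mul_pos hσ (mem_Icc.1 hw).1)] at h
  rw [← sum_biUnion]
  · refine sum_le_sum_of_subset_of_nonneg (fun q hq => ?_) fun q _ _ => hf q
    obtain ⟨w, hw, h⟩ := mem_biUnion.1 hq
    exact mem_filter.2 ⟨(mem_filter.1 h).1, (((k w hw q h).of_mul_right W).dvd_iff dvd_rfl).2
      (dvd_mul_right _ _)⟩
  · intro w hw w' hw' ne
    refine disjoint_left.2 fun q h h' => ne ?_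
    have h1 := ((k w hw q h).symm.trans (k w' hw' q h')).mul_left_cancel' hσ.ne'
    have h2 := mem_Icc.1 (mem_coe.1 hw)
    have h3 := mem_Icc.1 (mem_coe.1 hw')
    exact h1.eq_of_abs_lt (by rw [abs_lt]; omega)

theorem pi_XAvg (a e : ℕ) (P : Finset ℕ) (hP : P ⊆ PN (2 ^ (2 * a))) (hc : P.card = 2 ^ (a + 1))
    (he : 0 < e) : ∑ π ∈ P, √((Nat.gcd e π : ℕ) : ℝ) ≤ 2 * P.card * e.divisors.card := by
  have h1 : ∀ π ∈ P, √((Nat.gcd e π : ℕ) : ℝ) ≤ 1 + if π ∣ e then (P.card : ℝ) else 0 :=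
    fun π h => by
      obtain ⟨h2, h3⟩ := mem_filter.1 (hP h)
      split_ifs with h4
      · refine le_trans (Real.sqrt_le_iff.2 ⟨Nat.cast_nonneg _, ?_⟩) (le_add_of_nonneg_left zero_le_one)
        have h5 : Nat.gcd e π ≤ P.card ^ 2 := by
          refine (Nat.gcd_le_right _ h3.pos).trans ((mem_Ioc.1 h2).2.trans ?_)
          rw [hc, ← pow_mul, ← pow_succ']
          exact Nat.pow_le_pow_right two_pos (by omega)
        exact_mod_cast h5
      · rw [((Nat.Prime.coprime_iff_not_dvd h3).2 h4).symm.gcd_eq_one]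
        simp
  refine (sum_le_sum h1).trans ?_
  rw [sum_add_distrib, ← sum_filter, sum_const, sum_const, nsmul_eq_mul, nsmul_eq_mul]
  have h2 : ((P.filter fun π => π ∣ e).card : ℝ) ≤ e.divisors.card :=
    Nat.cast_le.2 (card_le_card fun π h => Nat.mem_divisors.2 ⟨(mem_filter.1 h).2, he.ne'⟩)
  have h3 : (1 : ℝ) ≤ e.divisors.card :=
    Nat.one_le_cast.2 (card_pos.2 ⟨1, Nat.one_mem_divisors.2 he.ne'⟩)
  have h4 : (0 : ℝ) ≤ P.card := Nat.cast_nonneg _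
  nlinarith [mul_le_mul_of_nonneg_right h2 h4, mul_le_mul_of_nonneg_right h3 h4]

theorem er_XAvg (Zs : ℕ → ℕ → ℝ) (q0 n π : ℕ) (A : Finset ℕ) (x : ℕ → ℕ) (L : ℝ)
    (hZ : ∀ i e, 0 ≤ Zs i e)
    (h : ∀ e : ℕ, 0 < e → ∑ q ∈ A, √((Nat.gcd e (x q) : ℕ) : ℝ) ≤ e.divisors.card * L) :
    ∑ q ∈ A, Er Zs q0 n (π * x q) ≤ L * ∑ i ∈ range n, ((q0 * 2 ^ i : ℕ) : ℝ) ^ (-(38 / 100) : ℝ) *
      ∑ e ∈ Icc 1 (2 * (q0 * 2 ^ i)), √((Nat.gcd e π : ℕ) : ℝ) * (e.divisors.card * Zs i e) := by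
  simp only [Er]
  rw [sum_comm, mul_sum]
  refine sum_le_sum fun i _ => ?_
  rw [← mul_sum, mul_left_comm L]
  refine mul_le_mul_of_nonneg_left ?_ (Real.rpow_nonneg (Nat.cast_nonneg _) _)
  rw [sum_comm, mul_sum]
  refine sum_le_sum fun e he => ?_
  have e0 := (mem_Icc.1 he).1
  have k : ∑ q ∈ A, √((Nat.gcd e (π * x q) : ℕ) : ℝ) ≤
      √((Nat.gcd e π : ℕ) : ℝ) * (e.divisors.card * L) := by
    refine le_trans ?_ (mul_le_mul_of_nonneg_left (h e e0) (Real.sqrt_nonneg _))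
    rw [mul_sum]
    refine sum_le_sum fun q _ => ?_
    rw [← Real.sqrt_mul (Nat.cast_nonneg _), ← Nat.cast_mul]
    exact Real.sqrt_le_sqrt (Nat.cast_le.2 (Nat.le_of_dvd
      (Nat.mul_pos (Nat.gcd_pos_of_pos_left _ e0) (Nat.gcd_pos_of_pos_left _ e0))
      (Nat.gcd_mul_right_dvd_mul_gcd _ _ _)))
  rw [← sum_mul]
  exact (mul_le_mul_of_nonneg_right k (hZ i e)).trans_eq (by ring)

theorem tot_XAvg (Zs : ℕ → ℕ → ℝ) (q0 n a : ℕ) (P : Finset ℕ) (C : ℝ) (hq : 1 ≤ q0) (C1 : 1 ≤ C)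
    (hC : ∀ n : ℕ, ((n.divisors.card : ℕ) : ℝ) ≤ C * (n : ℝ) ^ (1 / 100 : ℝ))
    (hP : P ⊆ PN (2 ^ (2 * a))) (hc : P.card = 2 ^ (a + 1)) (hZ : ∀ i e, 0 ≤ Zs i e)
    (hS : ∀ i < n, ∑ e ∈ Icc 1 (2 * (q0 * 2 ^ i)), Zs i e ≤
      2 * ((q0 * 2 ^ i : ℕ) : ℝ) ^ (1 / 4 : ℝ)) :
    ∑ π ∈ P, ∑ i ∈ range n, ((q0 * 2 ^ i : ℕ) : ℝ) ^ (-(38 / 100) : ℝ) *
      ∑ e ∈ Icc 1 (2 * (q0 * 2 ^ i)), √((Nat.gcd e π : ℕ) : ℝ) * (e.divisors.card * Zs i e) ≤
      P.card * (16 * C ^ 2 * (1 - (2 : ℝ) ^ (-(11 / 100) : ℝ))⁻¹ *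
        (q0 : ℝ) ^ (-(11 / 100) : ℝ)) := by
  have r0 : 0 ≤ (2 : ℝ) ^ (-(11 / 100) : ℝ) := by positivity
  have r1 : (2 : ℝ) ^ (-(11 / 100) : ℝ) < 1 :=
    Real.rpow_lt_one_of_one_lt_of_neg one_lt_two (by norm_num)
  have g : ∑ i ∈ range n, ((2 : ℝ) ^ (-(11 / 100) : ℝ)) ^ i ≤
      (1 - (2 : ℝ) ^ (-(11 / 100) : ℝ))⁻¹ :=
    sum_le_hasSum _ (fun i _ => pow_nonneg r0 i) (hasSum_geometric_of_lt_one r0 r1)
  rw [sum_comm]
  refine le_trans (sum_le_sum (g := fun i => P.card * (16 * C ^ 2) *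
    (q0 : ℝ) ^ (-(11 / 100) : ℝ) * ((2 : ℝ) ^ (-(11 / 100) : ℝ)) ^ i) fun i hi => ?_) ?_
  · have e1 : ((q0 * 2 ^ i : ℕ) : ℝ) ^ (-(11 / 100) : ℝ) =
        (q0 : ℝ) ^ (-(11 / 100) : ℝ) * ((2 : ℝ) ^ (-(11 / 100) : ℝ)) ^ i := by
      rw [Nat.cast_mul, Real.mul_rpow (by positivity) (by positivity), Nat.cast_pow,
        Nat.cast_ofNat, ← Real.rpow_natCast, ← Real.rpow_natCast, ← Real.rpow_mul two_pos.le,
        ← Real.rpow_mul two_pos.le, mul_comm (i : ℝ)]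
    have s := hS i (mem_range.1 hi)
    rw [mul_assoc, ← e1]
    have Y0 : 0 < q0 * 2 ^ i := Nat.mul_pos hq (by positivity)
    generalize q0 * 2 ^ i = Y at s Y0
    have Y1 : (0 : ℝ) < Y := Nat.cast_pos.2 Y0
    have e2 : (Y : ℝ) ^ (-(11 / 100) : ℝ) = (Y : ℝ) ^ (-(38 / 100) : ℝ) *
        (((Y : ℝ) ^ (1 / 100 : ℝ) * (Y : ℝ) ^ (1 / 100 : ℝ)) * (Y : ℝ) ^ (1 / 4 : ℝ)) := by
      rw [← Real.rpow_add Y1, ← Real.rpow_add Y1, ← Real.rpow_add Y1]
      norm_num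
    rw [← mul_sum, e2, mul_left_comm]
    refine mul_le_mul_of_nonneg_left ?_ (by positivity)
    rw [sum_comm]
    refine le_trans (sum_le_sum (g := fun e => 2 * P.card * (2 * C * (Y : ℝ) ^ (1 / 100 : ℝ)) ^ 2 *
      Zs i e) fun e he => ?_) ?_
    · obtain ⟨e0, e3⟩ := mem_Icc.1 he
      have t : ((e.divisors.card : ℕ) : ℝ) ≤ 2 * C * (Y : ℝ) ^ (1 / 100 : ℝ) := by
        have t1 : (e : ℝ) ^ (1 / 100 : ℝ) ≤ (2 * Y : ℝ) ^ (1 / 100 : ℝ) :=
          Real.rpow_le_rpow (Nat.cast_nonneg _) (by exact_mod_cast e3) (by norm_num)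
        have t2 : (2 : ℝ) ^ (1 / 100 : ℝ) ≤ 2 :=
          (Real.rpow_le_rpow_of_exponent_le one_le_two (by norm_num)).trans_eq (Real.rpow_one 2)
        rw [Real.mul_rpow two_pos.le Y1.le] at t1
        refine (hC e).trans ?_
        rw [mul_comm 2 C, mul_assoc]
        exact mul_le_mul_of_nonneg_left
          (t1.trans (mul_le_mul_of_nonneg_right t2 (by positivity))) (by linarith)
      rw [← sum_mul]
      refine (mul_le_mul_of_nonneg_right (pi_XAvg a e P hP hc e0)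
        (mul_nonneg (Nat.cast_nonneg _) (hZ i e))).trans ?_
      rw [← mul_assoc, mul_assoc (2 * (P.card : ℝ)), ← sq]
      exact mul_le_mul_of_nonneg_right (mul_le_mul_of_nonneg_left
        (pow_le_pow_left₀ (Nat.cast_nonneg _) t 2) (by positivity)) (hZ i e)
    · rw [← mul_sum]
      exact (mul_le_mul_of_nonneg_left s (by positivity)).trans_eq (by ring)
  · rw [← mul_sum]
    exact (mul_le_mul_of_nonneg_left g (by positivity)).trans_eq (by ring)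

theorem sAvg (hG : StGw) : StAvg := by
  intro c0 h0
  obtain ⟨C, C1, hC⟩ := Pool.Agent.MP_bd74a7_nt.divisor_bound (ε := 1 / 100) (by norm_num)
  have t : Tendsto (fun q0 : ℕ => 16 * C ^ 2 * (1 - (2 : ℝ) ^ (-(11 / 100) : ℝ))⁻¹ *
      (q0 : ℝ) ^ (-(11 / 100) : ℝ)) atTop (nhds 0) := by
    simpa using ((tendsto_rpow_neg_atTop (show (0 : ℝ) < 11 / 100 by norm_num)).comp
      tendsto_natCast_atTop_atTop).const_mul (16 * C ^ 2 * (1 - (2 : ℝ) ^ (-(11 / 100) : ℝ))⁻¹)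
  filter_upwards [t.eventually_le_const (show 0 < c0 / 1600 by positivity),
    eventually_ge_atTop 1] with q0 hs hq W a P σ hW hP hc hσ
  filter_upwards [(eventually_all_finset P).2 fun π h => hG (σ π) (hσ π h).1,
    eventually_ge_atTop 1] with m hm m1 n Zs Mn hZ hS hM
  have E0 : ∀ μ, 0 ≤ Er Zs q0 n μ := fun μ => sum_nonneg fun i _ => mul_nonneg (by positivity)
    (sum_nonneg fun e _ => mul_nonneg (Real.sqrt_nonneg _) (hZ i e))
  have m0 : (0 : ℝ) < m := Nat.cast_pos.2 m1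
  have W0 : (0 : ℝ) < W := Nat.cast_pos.2 hW
  obtain ⟨T, hT⟩ : ∃ T : ℕ → ℕ → ℝ, ∀ π w, T π w =
    200 * (σ π * W).totient * m / 2 ^ (100 * m) *
      ∑ q ∈ PA (2 ^ (100 * m)) (σ π * W) (σ π * w - 1), Er Zs q0 n (π * ((q + 1) / σ π)) :=
    ⟨_, fun _ _ => rfl⟩
  have h1 : ∀ π ∈ P, ∑ w ∈ Icc 1 W, T π w ≤
      600 * W * ∑ i ∈ range n, ((q0 * 2 ^ i : ℕ) : ℝ) ^ (-(38 / 100) : ℝ) *
        ∑ e ∈ Icc 1 (2 * (q0 * 2 ^ i)),
          √((Nat.gcd e π : ℕ) : ℝ) * (e.divisors.card * Zs i e) := fun π h => by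
    have p0 : (0 : ℝ) < (σ π).totient := Nat.cast_pos.2 (Nat.totient_pos.2 (hσ π h).1)
    have e : (σ π * W).totient = (σ π).totient * W := by
      have k := Nat.totient_gcd_mul_totient_mul (σ π) W
      rw [Nat.gcd_eq_right (hσ π h).2] at k
      refine Nat.eq_of_mul_eq_mul_left (Nat.totient_pos.2 hW) ?_
      rw [k]
      ring
    simp only [hT]
    rw [← mul_sum, e]
    refine (mul_le_mul_of_nonneg_left ((dis_XAvg _ _ W (hσ π h).1 _ fun q => E0 _).trans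
      (er_XAvg Zs q0 n π _ (fun q => (q + 1) / σ π) (3 * 2 ^ (100 * m) / ((σ π).totient * m)) hZ
        fun e he => (hm π h e he).trans_eq (by ring))) (by positivity)).trans_eq ?_
    rw [← mul_assoc]
    congr 1
    push_cast
    field_simp
    norm_num
  have h2 : ∑ π ∈ P, ∑ w ∈ Icc 1 W, T π w ≤ 600 * W * (P.card * (c0 / 1600)) := by
    refine (sum_le_sum h1).trans ?_
    rw [← mul_sum]
    exact mul_le_mul_of_nonneg_left ((tot_XAvg Zs q0 n a P C hq C1 hC hP hc hZ hS).trans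
      (mul_le_mul_of_nonneg_left hs (Nat.cast_nonneg _))) (by positivity)
  obtain ⟨⟨π, w⟩, h3, h4⟩ := exists_le_of_sum_le (s := P ×ˢ Icc 1 W)
    (f := fun z => 2 * T z.1 z.2 + c0 / 4) (g := fun z => Mn z.2)
    ((card_pos.1 (hc ▸ by positivity)).product ⟨1, mem_Icc.2 ⟨le_rfl, hW⟩⟩) (by
      rw [sum_add_distrib, ← mul_sum, sum_product, sum_product' _ _ fun _ w => Mn w, sum_const,
        sum_const, card_product, Nat.card_Icc, nsmul_eq_mul, nsmul_eq_mul]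
      push_cast
      nlinarith [mul_le_mul_of_nonneg_left hM (Nat.cast_nonneg (α := ℝ) P.card)])
  obtain ⟨h5, h6⟩ := mem_product.1 h3
  have p0 : (0 : ℝ) < (σ π * W).totient :=
    Nat.cast_pos.2 (Nat.totient_pos.2 (Nat.mul_pos (hσ π h5).1 hW))
  refine ⟨π, h5, w, h6, _, (mk_XAvg (PA (2 ^ (100 * m)) (σ π * W) (σ π * w - 1))
    (fun q => Er Zs q0 n (π * ((q + 1) / σ π))) (200 * (σ π * W).totient * m / 2 ^ (100 * m))
    (fun q => E0 _) (by positivity)).trans_eq (one_div_div _ _), fun q h7 h8 => ?_⟩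
  have h9 := not_lt.1 fun k => h8 (mem_filter.2 ⟨h7, k⟩)
  rw [← hT] at h9
  dsimp only at h4 h9
  linarith

end Pool.Agent.MP_2876a2_nt.Tu.Z

end
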