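import Pool.Agent.MP_2876a2_nt.Tu.St6

/-!
Marked blocks and the main term.
-/

set_option autoImplicit false
set_option linter.all false

noncomputable section
open Finset Filter
open scoped Pointwise


namespace Pool.Agent.MP_2876a2_nt.Tu.Z

theorem th_XNice6 (m G ρ : ℕ) (hm : 1 ≤ m) :
    TH (PA (2 ^ (100 * m)) G ρ) ≤ (PA (2 ^ (100 * m)) G ρ).card * (101 * (m : ℝ)) := by
  unfold TH
  rw [← nsmul_eq_mul]
  refine sum_le_card_nsmul _ _ _ fun p hp => ?_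
  obtain ⟨h1, h2⟩ := mem_filter.1 (mem_filter.1 hp).1
  have a : (p : ℝ) ≤ 2 ^ (100 * m + 1) := by
    rw [pow_succ, mul_comm]
    exact_mod_cast (mem_Ioc.1 h1).2
  have b := Real.log_le_log (by exact_mod_cast h2.pos) a
  rw [Real.log_pow] at b
  have c : Real.log 2 ≤ 1 := by linarith [Real.log_two_lt_d9]
  have d : (1 : ℝ) ≤ m := by exact_mod_cast hm
  have e : ((100 * m + 1 : ℕ) : ℝ) * Real.log 2 ≤ ((100 * m + 1 : ℕ) : ℝ) * 1 :=
    mul_le_mul_of_nonneg_left c (Nat.cast_nonneg _)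
  push_cast at b e
  linarith

theorem num_XNice6 {N G m a b c d e x : ℝ} (hN : 0 < N) (hG : 1 ≤ G) (hm : 2000 * G ≤ m)
    (h0 : 9 / 10 * (N / G) ≤ a * (101 * m)) (h1 : b ≤ 1 / (2000 * G) * N / m)
    (h2 : c ≤ 1 / (2000 * G) * N / m) (h3 : d ≤ N / m ^ 2) (h5 : e ≤ N / (200 * G * m))
    (h4 : a ≤ x + b + c + d + e) : N / m ^ 2 ≤ x := by
  have m0 : 0 < m := by linarith
  have G0 : 0 < G := by linarith
  have e1 : 1 / (2000 * G) * N / m = N / (G * m) / 2000 := by field_simp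
  have e5 : N / (200 * G * m) = N / (G * m) / 200 := by field_simp
  have e2 : 9 / 1010 * (N / (G * m)) ≤ a := by
    refine le_of_mul_le_mul_right (le_of_eq_of_le ?_ h0) (by positivity)
    field_simp
    norm_num
  have e3 : N / m ^ 2 ≤ N / (G * m) / 2000 := by
    rw [div_div]
    exact div_le_div_of_nonneg_left hN.le (by positivity) (by nlinarith)
  have e4 : 0 ≤ N / (G * m) := by positivity
  rw [e1] at h1 h2
  rw [e5] at h5
  linarith

theorem sNice6 (hT : StTh) (hD : StDep) (hG : StGap) (hC : StCl) : StNice6 := by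
  classical
  intro G ρ G0 hc
  have G2 : 1 ≤ G.totient := Nat.totient_pos.2 G0
  have G1 : (1 : ℝ) ≤ G.totient := by exact_mod_cast G2
  obtain ⟨K, hK⟩ := hD (1 / (2000 * G.totient)) (by positivity)
  obtain ⟨g, g16, hg⟩ := hG K (1 / (2000 * G.totient)) (by positivity)
  refine ⟨K, g, g16, ?_⟩
  have t : Tendsto (fun m : ℕ => 2 ^ (100 * m)) atTop atTop :=
    (tendsto_pow_atTop_atTop_of_one_lt (show 1 < 2 by norm_num)).comp
      (tendsto_id.const_mul_atTop' (show 0 < 100 by norm_num))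
  filter_upwards [hK, hg, hC K, t.eventually (hT G ρ G0 hc (1 / (10 * G.totient)) (by positivity)),
    eventually_ge_atTop (2000 * G.totient)] with m h1 h2 h3 h4 h5 Bad hB
  have N0 : (0 : ℝ) < 2 ^ (100 * m) := by positivity
  have h6 : 9 / 10 * ((2 : ℝ) ^ (100 * m) / G.totient) ≤ TH (PA (2 ^ (100 * m)) G ρ) := by
    have a := (abs_le.1 h4).1
    have d : 1 / (10 * (G.totient : ℝ)) * 2 ^ (100 * m) = 1 / 10 * (2 ^ (100 * m) / G.totient) := by
      field_simp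
    push_cast at a
    linarith
  refine num_XNice6 N0 G1 (by exact_mod_cast h5) (h6.trans (th_XNice6 m G ρ (by omega))) h1 h2 h3
    hB ?_
  norm_cast
  refine le_trans (card_le_card ?_) ((card_union_le _ _).trans (Nat.add_le_add_right
    ((card_union_le _ _).trans (Nat.add_le_add_right
    ((card_union_le _ _).trans (Nat.add_le_add_right (card_union_le _ _) _)) _)) _))
  intro q hq
  have hP : q ∈ PN (2 ^ (100 * m)) := (mem_filter.1 hq).1
  simp only [mem_union, mem_filter]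
  by_cases e : q ∈ Bad
  · exact Or.inr e
  refine Or.inl ?_
  by_cases a : Sh K (2 ^ m) q
  · by_cases b : ∃ p ∈ nd (2 ^ m) q, p ≤ 2 ^ (m + 8 * (m / g))
    · exact Or.inl (Or.inr ⟨hP, a, b⟩)
    · by_cases c : Sm (2 ^ m) (Dq (2 ^ m) q)
      · exact Or.inl (Or.inl (Or.inl
          ⟨hq, ⟨hP, a, fun p hp => not_le.1 fun h => b ⟨p, hp, h⟩, c⟩, e⟩))
      · exact Or.inr ⟨hP, a, c⟩
  · exact Or.inl (Or.inl (Or.inr ⟨hP, a⟩))

end Pool.Agent.MP_2876a2_nt.Tu.Z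

end

noncomputable section
open Finset Filter
open scoped Pointwise


namespace Pool.Agent.MP_2876a2_nt.Tu.Z

theorem sub_XSpr6 {S : Finset ℕ} (hS : ∀ q ∈ S, q.Prime) {d : ℕ} (hd : d ∣ ∏ q ∈ S, q) :
    d.primeFactors ⊆ S := by
  intro p hp
  have h := Nat.prime_of_mem_primeFactors hp
  obtain ⟨q, hq, hpq⟩ := (h.prime.dvd_finsetProd_iff _).1
    ((Nat.dvd_of_mem_primeFactors hp).trans hd)
  rwa [(Nat.prime_dvd_prime_iff_eq h (hS q hq)).1 hpq]

theorem sqf_XSpr6 (S : Finset ℕ) (hS : ∀ q ∈ S, q.Prime) : Squarefree (∏ q ∈ S, q) := by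
  refine Finset.squarefree_prod_of_pairwise_isCoprime (fun p hp q hq hpq => ?_)
    fun q hq => (hS q hq).squarefree
  exact Nat.coprime_iff_isRelPrime.1 ((Nat.coprime_primes (hS p hp) (hS q hq)).2 hpq)

theorem sSpr6 : StSpr6 := by
  intro F Kc R X n hF hcard hJ hX d
  rcases ((F.image fun b => ∏ q ∈ b \ Kc, q).filter fun b => d ∣ b).eq_empty_or_nonempty with
    he | ⟨a, ha⟩
  · rw [he, card_empty, zero_pow (by norm_num), zero_mul]
    exact Nat.zero_le _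
  obtain ⟨ha1, ha2⟩ := mem_filter.1 ha
  obtain ⟨b0, hb0, rfl⟩ := mem_image.1 ha1
  have hp0 : ∀ q ∈ b0 \ Kc, q.Prime := fun q hq => (hF b0 hb0 q hq).1
  have hsub := sub_XSpr6 hp0 ha2
  have hsq : Squarefree d := (sqf_XSpr6 _ hp0).squarefree_of_dvd ha2
  have hd : d ≤ X ^ d.primeFactors.card := by
    conv_lhs => rw [← Nat.prod_primeFactors_of_squarefree hsq]
    exact prod_le_pow_card _ _ _ fun q hq => (hF b0 hb0 q (hsub hq)).2
  have h1 : ((F.image fun b => ∏ q ∈ b \ Kc, q).filter fun b => d ∣ b).card ≤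
      (F.filter fun b => d.primeFactors ⊆ b \ Kc).card := by
    refine le_trans (card_le_card (t := (F.filter fun b => d.primeFactors ⊆ b \ Kc).image
      fun b => ∏ q ∈ b \ Kc, q) fun a ha => ?_) card_image_le
    obtain ⟨h1, h2⟩ := mem_filter.1 ha
    obtain ⟨b, hb, rfl⟩ := mem_image.1 h1
    exact mem_image.2 ⟨b, mem_filter.2 ⟨hb, sub_XSpr6 (fun q hq => (hF b hb q hq).1) h2⟩, rfl⟩
  have h2 := hJ d.primeFactors
  rw [hcard]
  generalize ((F.image fun b => ∏ q ∈ b \ Kc, q).filter fun b => d ∣ b).card = u at *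
  generalize (F.filter fun b => d.primeFactors ⊆ b \ Kc).card = v at *
  generalize d.primeFactors.card = m at *
  have h3 : d ^ n ≤ (R ^ m) ^ 20 :=
    calc d ^ n ≤ (X ^ m) ^ n := Nat.pow_le_pow_left hd n
      _ = (X ^ n) ^ m := by rw [← pow_mul, ← pow_mul, mul_comm]
      _ ≤ (R ^ 20) ^ m := Nat.pow_le_pow_left hX m
      _ = (R ^ m) ^ 20 := by rw [← pow_mul, ← pow_mul, mul_comm]
  calc u ^ 20 * d ^ n ≤ v ^ 20 * (R ^ m) ^ 20 := Nat.mul_le_mul (Nat.pow_le_pow_left h1 20) h3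
    _ = (v * R ^ m) ^ 20 := (mul_pow _ _ _).symm
    _ ≤ F.card ^ 20 := Nat.pow_le_pow_left h2 20

end Pool.Agent.MP_2876a2_nt.Tu.Z

end

noncomputable section
open Finset Filter
open scoped Pointwise


namespace Pool.Agent.MP_2876a2_nt.Tu.Z

theorem pow_XBlk6 {m : ℕ} (h : 32 ≤ m) : 14 * m ≤ 2 ^ m := by
  induction m, h using Nat.le_induction with
  | base => norm_num
  | succ n hn ih => rw [pow_succ]; omega

theorem one_XBlk6 (hz : StSz) {K g j r E N s : ℕ} {P Kc : Finset ℕ} {G : Finset (Finset ℕ)}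
    (hm : 1 ≤ lev j) (hj : 1 ≤ j) (hP : ∀ q ∈ P, Nice K g (lev j) q)
    (hhi : ∀ q ∈ P, q < 2 ^ (101 * lev j)) (hR : ∀ q ∈ P, ∀ p ∈ nd (2 ^ lev j) q, ¬ Rsv p)
    (n4 : 102 ^ K * j ^ 2 ≤ 2 ^ (8 * (lev j / g))) (n5 : j ^ 2 ≤ 2 ^ lev j) (h3 : 3 ≤ lev j)
    (hsub : ∀ b ∈ G, b \ Kc ⊆ P) (hc : ∀ b ∈ G, (b \ Kc).card = r) (hrle : r ≤ 2 ^ lev j)
    (hlo : 2 ^ lev j ≤ 100 * lev j * r) (hE : 2 ^ E ≤ G.card)
    (hE' : (100 * lev j + 3) * r * 97 ≤ E * 100) (b1 : Squarefree N)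
    (b2 : N.primeFactors ⊆ P.biUnion (nd (2 ^ lev j)))
    (b3 : (G.image fun b => ∏ q ∈ b \ Kc, q).card = G.card)
    (b4 : ∀ b ∈ G, ∏ q ∈ b \ Kc, Dq (2 ^ lev j) q = s ∧
      ∃ n, ∏ q ∈ b \ Kc, q ∣ n ∧ n ∣ N ∧ sg n * ∏ q ∈ b \ Kc, q = s * n) :
    B1 j (G.image fun b => ∏ q ∈ b \ Kc, q) N s ∧
      ∀ x ∈ G.image fun b => ∏ q ∈ b \ Kc, q, x.primeFactors.card = r ∧ x.primeFactors ⊆ P := by
  have hx : ∀ x ∈ G.image fun b => ∏ q ∈ b \ Kc, q,
      x.primeFactors.card = r ∧ x.primeFactors ⊆ P ∧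
      2 ^ (100 * lev j * r) ≤ s ∧ s ≤ 2 ^ ((100 * lev j + 3) * r) ∧
      (s : ℝ) ≤ Real.exp (1 / (j : ℝ) ^ 2) * x ∧ wt x ≤ Real.exp (1 / (j : ℝ) ^ 2) ∧
      ∃ n, x ∣ n ∧ n ∣ N ∧ sg n * x = s * n := by
    intro x hx
    obtain ⟨b, hb, rfl⟩ := mem_image.1 hx
    obtain ⟨z1, z2, z3, z4, z5⟩ := hz K g (lev j) j r (b \ Kc) hm hj
      (fun q hq => hP q (hsub b hb hq)) (hc b hb) hrle n4 n5
    rw [(b4 b hb).1] at z2 z3 z4
    exact ⟨by rw [z1, hc b hb], by rw [z1]; exact hsub b hb, z2, z3, z4, z5, (b4 b hb).2⟩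
  obtain ⟨b0, hb0⟩ := card_pos.1 ((Nat.two_pow_pos E).trans_le hE)
  have hx0 := mem_image_of_mem (fun b => ∏ q ∈ b \ Kc, q) hb0
  obtain ⟨-, -, s1, s2, -, -⟩ := hx _ hx0
  refine ⟨⟨⟨b1, ⟨_, hx0⟩, fun x h => (hx x h).2.2.2.2.2.2, ?_⟩, ?_,
    fun x h => (hx x h).2.2.2.2.1, fun x h => (hx x h).2.2.2.2.2.1, ?_, ?_⟩,
    fun x h => ⟨(hx x h).1, (hx x h).2.1⟩⟩
  · calc s ^ 97 ≤ (2 ^ ((100 * lev j + 3) * r)) ^ 97 := Nat.pow_le_pow_left s2 _
      _ = 2 ^ ((100 * lev j + 3) * r * 97) := by rw [← pow_mul]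
      _ ≤ 2 ^ (E * 100) := Nat.pow_le_pow_right (by norm_num) hE'
      _ = (2 ^ E) ^ 100 := by rw [← pow_mul]
      _ ≤ _ := Nat.pow_le_pow_left (hE.trans b3.ge) _
  · intro p hp
    obtain ⟨q, hq, hpq⟩ := mem_biUnion.1 (b2 hp)
    refine ⟨lt_of_le_of_lt (Nat.pow_le_pow_right (by norm_num) (Nat.le_add_right _ _))
      ((hP q hq).gap p hpq), (le_of_mem_nd hpq).trans (hhi q hq).le, hR q hq p hpq⟩
  · exact le_trans (Nat.pow_le_pow_right (by norm_num) hlo) s1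
  · refine s2.trans (Nat.pow_le_pow_right (by norm_num) ?_)
    exact Nat.mul_le_mul (by omega) hrle

theorem sBlk6 (hF : StFib) (hZ : StAz) (hC : StCard) (hA : StBlkA5) (hS : StAsm5) (hN : StNumZ)
    (hz : StSz) (h1 : StSpr6) : StBlk6 := by
  intro K g hg
  filter_upwards [tendsto_lev.eventually (hF K g hg), tendsto_lev.eventually (hZ K g hg),
    hN 3 (102 ^ K + 1) g (by omega)] with j h0 h2 h3
  intro P hP hPc hR
  obtain ⟨n1, n2, n3, n4', n5⟩ := h3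
  have n4 := (Nat.mul_le_mul_right (j ^ 2) (Nat.le_succ (102 ^ K))).trans n4'
  have h16 : 16 * (lev j / g) ≤ lev j :=
    (Nat.mul_le_mul_right _ hg).trans (Nat.mul_div_le _ _)
  have hm : 32 ≤ lev j := by omega
  have hj : 1 ≤ j := by
    have := le_lev.1 (show 1 ≤ lev j by omega)
    simpa using this
  have hX : ∀ q ∈ P, q.Prime ∧ q ≤ 2 ^ (100 * lev j + 1) := fun q hq =>
    ⟨(hP q hq).prime, (hP q hq).hi.trans_eq (by rw [pow_succ, mul_comm])⟩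
  have hhi : ∀ q ∈ P, q < 2 ^ (101 * lev j) := fun q hq =>
    (hX q hq).2.trans_lt (Nat.pow_lt_pow_right (by norm_num) (by omega))
  have hcard : P.card ≤ 2 ^ (100 * lev j) := by
    have hs : P ⊆ Ioc (2 ^ (100 * lev j)) (2 * 2 ^ (100 * lev j)) := fun q hq =>
      mem_Ioc.2 ⟨(hP q hq).lo, (hP q hq).hi⟩
    have := card_le_card hs
    rw [Nat.card_Ioc] at this
    omega
  have hnb : ∀ q ∈ P, (nd (2 ^ lev j) q).card ≤ 102 ^ K := by
    intro q hq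
    refine hC K _ q ?_ ?_ (hP q hq).sh
    · exact Nat.le_self_pow (by omega) 2
    · rw [← pow_mul, mul_comm]
      exact hhi q hq
  obtain ⟨F, s0, hF1, hF2, hF3⟩ := h0 P hP hPc
  obtain ⟨Kc, χ, r, F', hr1, hr2, hr3⟩ := hA 3 (102 ^ K) (lev j) (lev j / g) P (nd (2 ^ lev j)) F
    (by norm_num) (Nat.one_le_pow _ _ (by norm_num)) n1 h16 hcard hnb (h2 P hP) hF1 hF2 n2 n3
  have hFb : ∀ b ∈ F, b ⊆ P ∧ b.card = 2 ^ lev j := fun b hb => mem_powersetCard.1 (hF1 hb)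
  obtain ⟨N, s, hco, hB⟩ := hS (2 ^ lev j) s0 3 P Kc F' χ (fun q hq => (hP q hq).prime)
    fun i hi b hb => ⟨((hr3 i hi).2.2.1 b hb).1, (hFb b ((hr3 i hi).1 hb)).1,
      (hF3 b ((hr3 i hi).1 hb)).1, (hF3 b ((hr3 i hi).1 hb)).2, ((hr3 i hi).2.2.1 b hb).2⟩
  have hr0 : 14 ≤ r := by
    have := (pow_XBlk6 hm).trans hr2
    rw [mul_comm] at this
    exact Nat.le_of_mul_le_mul_left this (by omega)
  have hrle : r ≤ 2 ^ lev j := by omega
  have hsub : ∀ i < 3, ∀ b ∈ F' i, b \ Kc ⊆ P := fun i hi b hb =>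
    sdiff_subset.trans (hFb b ((hr3 i hi).1 hb)).1
  have hc : ∀ i < 3, ∀ b ∈ F' i, (b \ Kc).card = r := fun i hi b hb => by
    have e1 := card_sdiff_add_card_eq_card ((hr3 i hi).2.2.1 b hb).1
    have e2 := (hFb b ((hr3 i hi).1 hb)).2
    omega
  have hbig : ∀ i < 3, 2 ^ ((98 * lev j - 9 * (lev j / g)) * r) ≤ (F' i).card := fun i hi => by
    obtain ⟨b0, hb0⟩ := (hr3 i hi).2.1
    have e := (hr3 i hi).2.2.2 (b0 \ Kc)
    rw [hc i hi b0 hb0, ← pow_mul] at e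
    refine (Nat.le_mul_of_pos_left _ (card_pos.2 ⟨b0, ?_⟩)).trans e
    exact mem_filter.2 ⟨hb0, Subset.refl _⟩
  refine ⟨fun i => (F' i).image fun b => ∏ q ∈ b \ Kc, q, N, s, r, by omega, hco,
    fun i hi => ?_, ?_⟩
  · obtain ⟨b1, b2, b3, b4⟩ := hB i hi
    obtain ⟨o1, o2⟩ := one_XBlk6 hz (by omega) hj hP hhi hR n4 n5 (by omega) (hsub i hi) (hc i hi)
      hrle (hr2.trans (Nat.mul_le_mul_right _ (by omega))) (hbig i hi)
      (by rw [mul_right_comm, mul_right_comm _ r]; exact Nat.mul_le_mul_right _ (by omega))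
      b1 b2 b3 b4
    refine ⟨⟨o1, h1 (F' i) Kc _ _ 19 (fun b hb q hq => hX q (hsub i hi b hb hq)) b3
      (hr3 i hi).2.2.2 ?_⟩, b2, o2⟩
    rw [← pow_mul, ← pow_mul]
    exact Nat.pow_le_pow_right (by norm_num) (by omega)
  obtain ⟨c1, ⟨b0, hb0⟩, c3, c4⟩ := hr3 2 (by norm_num)
  have two : 2 < 3 := by norm_num
  have hPne : P.Nonempty := by
    obtain ⟨q, hq⟩ := card_pos.1 (show 0 < (b0 \ Kc).card by rw [hc 2 two b0 hb0]; omega)
    exact ⟨q, hsub 2 two b0 hb0 hq⟩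
  obtain ⟨q, hq, hmax⟩ := exists_max_image P
    (fun q => ((F' 2).filter fun b => q ∈ b \ Kc).card) hPne
  obtain ⟨G, hG⟩ : ∃ G, G = (F' 2).filter fun b => q ∈ b \ Kc := ⟨_, rfl⟩
  have mG : ∀ b, b ∈ G ↔ b ∈ F' 2 ∧ q ∈ b \ Kc := fun b => by rw [hG, mem_filter]
  have hfib : (F' 2).card ≤ 2 ^ (100 * lev j) * G.card := by
    have hs : F' 2 ⊆ P.biUnion fun q => (F' 2).filter fun b => q ∈ b \ Kc := fun b hb => by
      obtain ⟨p, hp⟩ := card_pos.1 (show 0 < (b \ Kc).card by rw [hc 2 two b hb]; omega)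
      exact mem_biUnion.2 ⟨p, hsub 2 two b hb hp, mem_filter.2 ⟨hb, hp⟩⟩
    refine ((card_le_card hs).trans card_biUnion_le).trans
      ((sum_le_card_nsmul _ _ _ hmax).trans ?_)
    rw [smul_eq_mul, hG]
    exact Nat.mul_le_mul_right _ hcard
  have ein : ∀ b : Finset ℕ, b \ insert q Kc = (b \ Kc).erase q := fun b => sdiff_insert b Kc q
  have esub : ∀ b : Finset ℕ, b \ insert q Kc ⊆ b \ Kc := fun b => ein b ▸ erase_subset _ _
  obtain ⟨N', s', -, hB'⟩ := hS (2 ^ lev j) s0 3 P (insert q Kc) (fun i => if i = 2 then G else ∅) χ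
    (fun q hq => (hP q hq).prime) fun i hi b hb => by
      by_cases e : i = 2
      · rw [if_pos e, mG] at hb
        exact ⟨insert_subset (mem_sdiff.1 hb.2).1 (c3 b hb.1).1, (hFb b (c1 hb.1)).1,
          (hF3 b (c1 hb.1)).1, (hF3 b (c1 hb.1)).2,
          fun p hp => e ▸ (c3 b hb.1).2 p (biUnion_subset_biUnion_of_subset_left _ (esub b) hp)⟩
      · simp [e] at hb
  obtain ⟨b1, b2, b3, b4⟩ := hB' 2 two
  simp only [if_true] at b3 b4
  obtain ⟨r', rfl⟩ : ∃ r', r = r' + 1 := ⟨r - 1, by omega⟩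
  obtain ⟨a, ha⟩ : ∃ a, a = 98 * lev j - 9 * (lev j / g) := ⟨_, rfl⟩
  rw [← ha] at hbig c4
  have t1 : (9734 * lev j + 291) * r' ≤ 100 * a * r' := Nat.mul_le_mul_right _ (by omega)
  have t2 : lev j * 13 ≤ lev j * r' := Nat.mul_le_mul_left _ (by omega)
  have t3 : 100 * lev j ≤ a * (r' + 1) := by nlinarith
  have hE : 2 ^ (a * (r' + 1) - 100 * lev j) ≤ G.card := by
    refine Nat.le_of_mul_le_mul_left (le_trans ?_ ((hbig 2 two).trans hfib))
      (Nat.two_pow_pos (100 * lev j))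
    rw [← pow_add, Nat.add_sub_cancel' t3]
  have sG : ∀ b ∈ G, b \ insert q Kc ⊆ P := fun b hb =>
    (esub b).trans (hsub 2 two b ((mG b).1 hb).1)
  obtain ⟨o1, -⟩ := one_XBlk6 hz (r := r') (by omega) hj hP hhi hR n4 n5 (by omega) sG
    (fun b hb => by rw [ein, card_erase_of_mem ((mG b).1 hb).2, hc 2 two b ((mG b).1 hb).1]; rfl)
    (by omega) (by nlinarith) hE
    (by
      rw [Nat.sub_mul]
      refine Nat.le_sub_of_add_le ?_
      have : 9734 * lev j ≤ 100 * a := by omega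
      nlinarith) b1 b2 b3 b4
  refine ⟨q, hq, _, N' 2, s', o1, h1 G (insert q Kc) (2 ^ (96 * lev j - 18 * (lev j / g))) _ 18
    (fun b hb p hp => hX p (sG b hb hp)) b3 (fun J => ?_) ?_, b2, fun x hx => ?_⟩
  · rcases J.eq_empty_or_nonempty with rfl | hJ
    · simp
    by_cases e : q ∈ J
    · rw [filter_eq_empty_iff.2 fun b _ hb => (mem_sdiff.1 (hb e)).2 (mem_insert_self _ _)]
      simp
    have k := c4 (insert q J)
    rw [card_insert_of_notMem e, ← pow_mul] at k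
    have hs : (G.filter fun b => J ⊆ b \ insert q Kc) ⊆
        (F' 2).filter fun b => insert q J ⊆ b \ Kc := fun b hb => by
      obtain ⟨u, v⟩ := mem_filter.1 hb
      exact mem_filter.2 ⟨((mG b).1 u).1, insert_subset ((mG b).1 u).2 (v.trans (esub b))⟩
    refine Nat.le_of_mul_le_mul_left (le_trans ?_ (k.trans hfib)) (Nat.two_pow_pos (100 * lev j))
    rw [mul_left_comm, ← pow_mul, ← pow_add]
    refine Nat.mul_le_mul (card_le_card hs) (Nat.pow_le_pow_right (by norm_num) ?_)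
    obtain ⟨c, hc'⟩ : ∃ c, c = 96 * lev j - 18 * (lev j / g) := ⟨_, rfl⟩
    obtain ⟨d, hd⟩ : ∃ d, a = c + d := ⟨a - c, by omega⟩
    have l1 : d * 1 ≤ d * J.card := Nat.mul_le_mul_left _ (card_pos.2 hJ)
    have l2 : 100 * lev j ≤ c + 2 * d := by omega
    rw [← hc', hd]
    nlinarith
  · rw [← pow_mul, ← pow_mul]
    exact Nat.pow_le_pow_right (by norm_num) (by omega)
  · obtain ⟨b, hb, rfl⟩ := mem_image.1 hx
    refine mem_image.2 ⟨b, ((mG b).1 hb).1, ?_⟩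
    rw [ein, prod_erase_mul _ _ ((mG b).1 hb).2]

end Pool.Agent.MP_2876a2_nt.Tu.Z

end

noncomputable section
open Finset Filter
open scoped Pointwise


namespace Pool.Agent.MP_2876a2_nt.Tu.Z

theorem sAdm6 (hN : StNice6) (h1 : StPo1) (h2 : StPo2) (hB : StBlk6) : StAdm6 := by
  classical
  intro G ρ hG hρ
  obtain ⟨K, g, hg, hn⟩ := hN G ρ hG hρ
  filter_upwards [tendsto_lev.eventually hn, tendsto_lev.eventually (h1 K g),
    tendsto_lev.eventually (h2 K g (by omega)), hB K g hg] with j a1 a2 a3 a4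
  intro Bad hBad Φ hΦ
  obtain ⟨Q', hQ', b1, b2⟩ := a2 _ Φ (fun q hq => (mem_filter.1 hq).2.1) (a1 Bad hBad) hΦ
  obtain ⟨P, hP, c1, c2⟩ := a3 Q' (fun q hq => (mem_filter.1 (hQ' hq)).2.1) b1
  obtain ⟨B, N, s, r, d1, d2, d3, q, hq, d4⟩ :=
    a4 P (fun q hq => (mem_filter.1 (hQ' (hP hq))).2.1) c1 fun q hq p hp => (b2 q (hP hq) p hp).2
  refine ⟨B, N, s, P.biUnion (nd (2 ^ lev j)), c2, ?_, d2,
    fun i hi => ⟨(d3 i hi).1.1, (d3 i hi).1.2, (d3 i hi).2.1⟩, ⟨r, d1, fun i hi b hb => ?_⟩,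
    q, (mem_filter.1 (hQ' (hP hq))).1, (mem_filter.1 (hQ' (hP hq))).2.2, d4⟩
  · refine disjoint_left.2 fun p hp => ?_
    obtain ⟨q, hq, hp⟩ := mem_biUnion.1 hp
    exact (b2 q (hP hq) p hp).1
  · exact ⟨((d3 i hi).2.2 b hb).1, fun p hp =>
      (mem_filter.1 (mem_filter.1 (hQ' (hP (((d3 i hi).2.2 b hb).2 hp)))).1).2⟩

end Pool.Agent.MP_2876a2_nt.Tu.Z

end

noncomputable section
open Finset Filter
open scoped Pointwise


namespace Pool.Agent.MP_2876a2_nt.Tu.Z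

theorem bi_XTol6 (f : ℕ → ℝ) (hf : ∀ p, 0 ≤ f p) (g : ℕ → Finset ℕ) (t : ℕ) :
    ∑ p ∈ (range t).biUnion g, f p ≤ ∑ i ∈ range t, ∑ p ∈ g i, f p := by
  induction t with
  | zero => simp
  | succ t ih =>
    rw [Finset.range_add_one, Finset.biUnion_insert, Finset.sum_insert (by simp)]
    have h := Finset.sum_union_inter (s₁ := g t) (s₂ := (range t).biUnion g) (f := f)
    have h2 : 0 ≤ ∑ p ∈ g t ∩ (range t).biUnion g, f p := Finset.sum_nonneg fun p _ => hf p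
    linarith

theorem ev_XTol6 : ∀ᶠ m : ℕ in atTop,
    (((m : ℝ) + 1) ^ 4 + 1) * Real.exp (-√(m : ℝ) / 22) ≤ Real.exp (-√(m : ℝ) / 30) := by
  have ht : Tendsto (fun m : ℕ => √(m : ℝ)) atTop atTop :=
    Real.tendsto_sqrt_atTop.comp tendsto_natCast_atTop_atTop
  filter_upwards [ht.eventually_ge_atTop (17 * 362880 * 100 ^ 9), eventually_ge_atTop 1]
    with m hm hm1
  set y := √(m : ℝ) with hy
  have hy0 : 0 ≤ y := Real.sqrt_nonneg _
  have hm0 : (1 : ℝ) ≤ m := by exact_mod_cast hm1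
  have hyy : y ^ 2 = m := Real.sq_sqrt (by linarith)
  have h1 : ((m : ℝ) + 1) ^ 4 + 1 ≤ 17 * y ^ 8 := by
    have e : y ^ 8 = (m : ℝ) ^ 4 := by rw [← hyy]; ring
    have a : ((m : ℝ) + 1) ^ 4 ≤ (2 * m) ^ 4 := pow_le_pow_left₀ (by linarith) (by linarith) 4
    have b : (1 : ℝ) ≤ (m : ℝ) ^ 4 := one_le_pow₀ hm0
    rw [e]; nlinarith
  have h2 : (y / 100) ^ 9 / (Nat.factorial 9 : ℝ) ≤ Real.exp (y / 100) :=
    Real.pow_div_factorial_le_exp _ (by positivity) 9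
  have h3 : (Nat.factorial 9 : ℝ) = 362880 := by norm_num [Nat.factorial]
  have h4 : 17 * y ^ 8 ≤ (y / 100) ^ 9 / (Nat.factorial 9 : ℝ) := by
    rw [h3, div_pow, div_div, le_div_iff₀ (by positivity)]
    have : 0 ≤ y ^ 8 := by positivity
    calc 17 * y ^ 8 * (100 ^ 9 * 362880) = y ^ 8 * (17 * 362880 * 100 ^ 9) := by ring
      _ ≤ y ^ 8 * y := mul_le_mul_of_nonneg_left hm this
      _ = y ^ 9 := by ring
  calc (((m : ℝ) + 1) ^ 4 + 1) * Real.exp (-y / 22)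
      ≤ Real.exp (y / 100) * Real.exp (-y / 22) :=
        mul_le_mul_of_nonneg_right (h1.trans (h4.trans h2)) (Real.exp_pos _).le
    _ = Real.exp (y / 100 + -y / 22) := (Real.exp_add _ _).symm
    _ ≤ Real.exp (-y / 30) := Real.exp_le_exp.2 (by linarith)

theorem one_XTol6 {m a : ℕ} (hm : 4 ≤ m) {P : Finset ℕ} (hP : P ⊆ PN (2 ^ (2 * a)))
    (hc : P.card ≤ 2 ^ (a + 1)) :
    ∑ p ∈ P, (if 2 ^ m < p then (1 / p : ℝ) else 0) ≤ Real.exp (-√(m : ℝ) / 22) := by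
  have hI : ∀ p ∈ P, 2 ^ (2 * a) < p ∧ p ≤ 2 * 2 ^ (2 * a) := fun p hp =>
    mem_Ioc.1 (mem_filter.1 (hP hp)).1
  by_cases h : m ≤ 2 * a
  · have h1 : ∑ p ∈ P, (if 2 ^ m < p then (1 / p : ℝ) else 0) ≤
        P.card • (1 / (2 : ℝ) ^ (2 * a)) :=
      Finset.sum_le_card_nsmul _ _ _ fun p hp => by
        split_ifs
        · have : ((2 : ℝ) ^ (2 * a)) ≤ p := by exact_mod_cast (hI p hp).1.le
          exact one_div_le_one_div_of_le (by positivity) this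
        · positivity
    obtain ⟨b, rfl⟩ : ∃ b, a = b + 1 := ⟨a - 1, by omega⟩
    have h2 : (P.card : ℝ) ≤ 2 ^ (b + 1 + 1) := by exact_mod_cast hc
    have h3 : P.card • (1 / (2 : ℝ) ^ (2 * (b + 1))) ≤ ((2 : ℝ) ^ b)⁻¹ := by
      rw [nsmul_eq_mul]
      refine (mul_le_mul_of_nonneg_right h2 (by positivity)).trans (le_of_eq ?_)
      field_simp
      ring
    have hs : √(m : ℝ) ≤ m := by
      rw [Real.sqrt_le_left (by positivity)]
      have : (4 : ℝ) ≤ m := by exact_mod_cast hm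
      nlinarith
    have h4 : Real.exp (√(m : ℝ) / 22) ≤ 2 ^ b := by
      have e : (2 : ℝ) ^ b = Real.exp (b * Real.log 2) := by
        rw [Real.exp_nat_mul, Real.exp_log (by norm_num)]
      rw [e]
      apply Real.exp_le_exp.2
      have := Real.log_two_gt_d9
      have h0 : (0 : ℝ) ≤ b := by positivity
      have h5 : (m : ℝ) ≤ 4 * b := by exact_mod_cast (by omega : m ≤ 4 * b)
      nlinarith
    rw [neg_div, Real.exp_neg]
    exact h1.trans (h3.trans (inv_anti₀ (Real.exp_pos _) h4))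
  · have : ∑ p ∈ P, (if 2 ^ m < p then (1 / p : ℝ) else 0) = 0 := by
      refine Finset.sum_eq_zero fun p hp => if_neg ?_
      have h1 := (hI p hp).2
      have h2 : 2 ^ (2 * a + 1) ≤ 2 ^ m := Nat.pow_le_pow_right (by norm_num) (by omega)
      rw [pow_succ] at h2
      omega
    rw [this]; exact (Real.exp_pos _).le

theorem out_XTol6 {m m' : ℕ} {Ψ : Finset ℕ} (h : Out m' Ψ) :
    ∑ p ∈ Ψ, (if 2 ^ m < p then (1 / p : ℝ) else 0) ≤ Real.exp (-√(m : ℝ) / 22) := by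
  by_cases hm : m < 101 * m'
  · have h1 : ∑ p ∈ Ψ, (if 2 ^ m < p then (1 / p : ℝ) else 0) ≤ ∑ p ∈ Ψ, (1 / p : ℝ) :=
      Finset.sum_le_sum fun p _ => by split_ifs <;> [exact le_rfl; positivity]
    refine h1.trans (h.2.trans (Real.exp_le_exp.2 ?_))
    have h2 : √(m : ℝ) ≤ 11 * √(m' : ℝ) := by
      have : (m : ℝ) ≤ 11 ^ 2 * m' := by exact_mod_cast (by omega : m ≤ 11 ^ 2 * m')
      calc √(m : ℝ) ≤ √(11 ^ 2 * (m' : ℝ)) := Real.sqrt_le_sqrt this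
        _ = 11 * √(m' : ℝ) := by
          rw [Real.sqrt_mul (by positivity), Real.sqrt_sq (by norm_num)]
    linarith
  · have : ∑ p ∈ Ψ, (if 2 ^ m < p then (1 / p : ℝ) else 0) = 0 := by
      refine Finset.sum_eq_zero fun p hp => if_neg ?_
      have h1 := (h.1 p hp).2
      have h2 : 2 ^ (101 * m') ≤ 2 ^ m := Nat.pow_le_pow_right (by norm_num) (by omega)
      omega
    rw [this]; exact (Real.exp_pos _).le

theorem sTol6 : StTol6 := by
  obtain ⟨m0, hm0⟩ := eventually_atTop.1 ev_XTol6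
  filter_upwards [tendsto_lev.eventually_ge_atTop m0, tendsto_lev.eventually_ge_atTop 4]
    with j0 hj0 hj4 t a P Ψ hP hc hΨ
  set m := lev (j0 + t) with hm
  have hmm : m0 ≤ m := hj0.trans (lev_mono (by omega))
  have hm4 : 4 ≤ m := hj4.trans (lev_mono (by omega))
  have ht : t < (m + 1) ^ 4 := lt_of_le_of_lt (by omega) (lt_lev (j0 + t))
  unfold Tol
  rw [Finset.sum_filter]
  set f : ℕ → ℝ := fun p => if 2 ^ m < p then (1 / p : ℝ) else 0 with hf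
  have hf0 : ∀ p, 0 ≤ f p := fun p => by
    simp only [hf]; split_ifs <;> [positivity; exact le_rfl]
  have h1 : ∑ p ∈ P ∪ (range t).biUnion Ψ, f p
      ≤ ∑ p ∈ P, f p + ∑ p ∈ (range t).biUnion Ψ, f p := by
    have h := Finset.sum_union_inter (s₁ := P) (s₂ := (range t).biUnion Ψ) (f := f)
    have h2 : 0 ≤ ∑ p ∈ P ∩ (range t).biUnion Ψ, f p := Finset.sum_nonneg fun p _ => hf0 p
    linarith
  have h2 := bi_XTol6 f hf0 Ψ t
  have h3 : ∑ i ∈ range t, ∑ p ∈ Ψ i, f p ≤ t * Real.exp (-√(m : ℝ) / 22) := by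
    have := Finset.sum_le_card_nsmul (range t) (fun i => ∑ p ∈ Ψ i, f p)
      (Real.exp (-√(m : ℝ) / 22)) fun i hi => out_XTol6 (hΨ i (mem_range.1 hi))
    simpa using this
  have h4 : ∑ p ∈ P, f p ≤ Real.exp (-√(m : ℝ) / 22) := one_XTol6 hm4 hP hc
  have h5 : (t : ℝ) ≤ ((m : ℝ) + 1) ^ 4 := by exact_mod_cast ht.le
  have h6 := hm0 m hmm
  have h7 := mul_le_mul_of_nonneg_right h5 (Real.exp_pos (-√(m : ℝ) / 22)).le
  calc ∑ p ∈ P ∪ (range t).biUnion Ψ, f p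
      ≤ (((m : ℝ) + 1) ^ 4 + 1) * Real.exp (-√(m : ℝ) / 22) := by linarith
    _ ≤ _ := h6

end Pool.Agent.MP_2876a2_nt.Tu.Z

end

noncomputable section
open Finset Filter
open scoped Pointwise


namespace Pool.Agent.MP_2876a2_nt.Tu.Z

/-- the data chosen at one scale -/
abbrev Dt_XExt6 : Type := (ℕ → Finset ℕ) × (ℕ → ℕ) × ℕ × Finset ℕ

def Good_XExt6 (j0 t : ℕ) (a : Dt_XExt6) : Prop := Out (lev (j0 + t)) a.2.2.2 ∧
  (∀ i < 3, ∀ i' < 3, i ≠ i' → (a.2.1 i).Coprime (a.2.1 i')) ∧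
  ∀ i < 3, B1 (j0 + t) (a.1 i) (a.2.1 i) a.2.2.1 ∧ Spr (a.1 i) ∧
    (a.2.1 i).primeFactors ⊆ a.2.2.2

theorem sq_XExt6 {j0 : ℕ} (x : ℕ → Dt_XExt6) (hG : ∀ t, Good_XExt6 j0 t (x t))
    (hR : ∀ t, ∀ t' < t, Disjoint (x t').2.2.2 (x t).2.2.2) :
    SQ j0 (fun i t => (x t).1 i) (fun i t => (x t).2.1 i) (fun t => (x t).2.2.1)
      fun t => (x t).2.2.2 := by
  have dis : ∀ t t', t ≠ t' → Disjoint (x t).2.2.2 (x t').2.2.2 := fun t t' h => by
    rcases lt_or_gt_of_ne h with h | h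
    · exact hR t' t h
    · exact (hR t t' h).symm
  have key : ∀ i < 3, ∀ i' < 3, ∀ t t', t ≠ t' → ((x t).2.1 i).Coprime ((x t').2.1 i') := by
    intro i hi i' hi' t t' h
    have h1 := (hG t).2.2 i hi
    have h2 := (hG t').2.2 i' hi'
    rw [← Nat.disjoint_primeFactors h1.1.blk.sqf.ne_zero h2.1.blk.sqf.ne_zero]
    exact Disjoint.mono h1.2.2 h2.2.2 (dis t t' h)
  refine ⟨⟨fun i hi => ⟨fun t => ((hG t).2.2 i hi).1, fun t t' h => key i hi i hi t t' h⟩,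
    fun i hi i' hi' hii t t' => ?_⟩, fun i hi t => ((hG t).2.2 i hi).2.1, fun t => (hG t).1,
    fun i hi t => ((hG t).2.2 i hi).2.2, dis⟩
  by_cases h : t = t'
  · subst h
    exact (hG t).2.1 i hi i' hi' hii
  · exact key i hi i' hi' t t' h

theorem ext_XExt6 (hD : StDC) {j0 t2 : ℕ} {P : Finset ℕ}
    {Q : ℕ → (ℕ → Finset ℕ) → Finset ℕ → Prop}
    (hT : ∀ (t : ℕ) (Ψ : ℕ → Finset ℕ), (∀ t' < t, Out (lev (j0 + t')) (Ψ t')) →
      Tol (lev (j0 + t)) (P ∪ (range t).biUnion Ψ))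
    (hA : ∀ t, t2 ≤ t → AdmQ (j0 + t) (Q t)) (x : ℕ → Dt_XExt6)
    (hx : ∀ t < t2, Good_XExt6 j0 t (x t))
    (hR : ∀ t < t2, ∀ t' < t, Disjoint (x t').2.2.2 (x t).2.2.2) :
    ∃ y : ℕ → Dt_XExt6, SQ j0 (fun i t => (y t).1 i) (fun i t => (y t).2.1 i)
      (fun t => (y t).2.2.1) (fun t => (y t).2.2.2) ∧ (∀ t < t2, y t = x t) ∧
      ∀ t, t2 ≤ t → Disjoint (y t).2.2.2 P ∧ Q t (y t).1 (y t).2.2.2 := by
  obtain ⟨y, hy0, hyG, hyQ⟩ := hD Dt_XExt6 (Good_XExt6 j0)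
    (fun t a => Disjoint a.2.2.2 P ∧ Q t a.1 a.2.2.2) (fun a a' => Disjoint a.2.2.2 a'.2.2.2)
    x t2 hx fun t ht z hz => by
      obtain ⟨B, N, s, Ψ, h1, h2, h3, h4, h5⟩ :=
        hA t ht _ (hT t (fun t' => (z t').2.2.2) fun t' ht' => (hz t' ht').1)
      refine ⟨(B, N, s, Ψ), ⟨h1, fun i _ i' _ h => h3 i i' h, h4⟩,
        ⟨h2.mono_right subset_union_left, h5⟩, fun t' ht' => ?_⟩
      exact disjoint_left.2 fun p hp hp' => disjoint_left.1 h2 hp'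
        (mem_union_right _ (mem_biUnion.2 ⟨t', mem_range.2 ht', hp⟩))
  refine ⟨y, sq_XExt6 y hyG fun t t' h => ?_, hy0, fun t ht => (hyQ t ht).1⟩
  rcases lt_or_ge t t2 with ht | ht
  · rw [hy0 t ht, hy0 t' (h.trans ht)]
    exact hR t ht t' h
  · exact (hyQ t ht).2 t' h

theorem sExt6 (hA : StAdm5) (hT : StTol6) (hD : StDC) : StExt6 := by
  have h1 := eventually_forall_ge_atTop.2
    (hA 3 1 0 (by norm_num) one_pos (Nat.coprime_one_right 0))
  filter_upwards [h1, hT] with j0 hj hTj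
  refine ⟨?_, fun B N s Ψ h t2 a P Q hP hc hQ => ?_⟩
  · obtain ⟨y, hy, -⟩ := ext_XExt6 hD (j0 := j0) (t2 := 0) (P := ∅)
      (Q := fun _ B _ => Cl 1 0 B)
      (fun t Ψ hΨ => hTj t 0 ∅ Ψ (empty_subset _) (by simp) hΨ)
      (fun t _ => (hj _ (Nat.le_add_right _ _)).admQ) (fun _ => (fun _ => ∅, fun _ => 0, 0, ∅))
      (fun t ht => absurd ht (Nat.not_lt_zero t)) fun t ht => absurd ht (Nat.not_lt_zero t)
    exact ⟨_, _, _, _, hy⟩
  · obtain ⟨y, hy, hy0, hyQ⟩ := ext_XExt6 hD (fun t Ψ hΨ => hTj t a P Ψ hP hc hΨ) hQ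
      (fun t => (fun i => B i t, fun i => N i t, s t, Ψ t))
      (fun t _ => ⟨h.out t, fun i hi i' hi' hii => h.sm.cop i hi i' hi' hii t t,
        fun i hi => ⟨(h.sm.one i hi).one t, h.spr i hi t, h.sub i hi t⟩⟩)
      fun t _ t' ht' => h.dis t' t ht'.ne
    refine ⟨_, _, _, _, hy, fun t ht => ?_, hyQ⟩
    simp only [hy0 t ht, implies_true, and_self]

end Pool.Agent.MP_2876a2_nt.Tu.Z

end

noncomputable section
open Finset Filter
open scoped Pointwise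


namespace Pool.Agent.MP_2876a2_nt.Tu.Z

theorem sq_XBigS (m : ℕ) (h : 4 ≤ m) : m * m ≤ 2 ^ m := by
  induction m, h using Nat.le_induction with
  | base => norm_num
  | succ n hn ih =>
    rw [pow_succ]
    nlinarith

theorem sBigS : StBigS := by
  intro j0 q0 a
  refine eventually_atTop.2 ⟨(2 * q0 + 80 * a + 10000) ^ 4 + 1, fun t ht s hs => ?_⟩
  have h0 : 2 * q0 + 80 * a + 10000 ≤ lev (j0 + t) := le_lev.2 (by omega)
  have h1 : lev (j0 + t) ^ 4 ≤ j0 + t := le_lev.1 le_rfl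
  obtain ⟨m, hm⟩ : ∃ m, lev (j0 + t) = m + 1 := ⟨lev (j0 + t) - 1, by omega⟩
  obtain ⟨t', rfl⟩ : ∃ t', t = t' + 1 := ⟨t - 1, by omega⟩
  rw [hm] at h0 h1 ⊢
  have h4 : m ^ 4 < (m + 1) ^ 4 := Nat.pow_lt_pow_left (Nat.lt_succ_self m) (by norm_num)
  have h5 : m ≤ lev (j0 + t') := le_lev.2 (by omega)
  have h6 : s t' ≤ ∏ i ∈ range (t' + 1), s i :=
    single_le_prod' (fun i _ => Nat.one_le_two_pow.trans (hs i)) (self_mem_range_succ t')
  have h7 : 2 ^ 2 ^ m ≤ s t' :=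
    (Nat.pow_le_pow_right two_pos (Nat.pow_le_pow_right two_pos h5)).trans (hs t')
  refine le_trans ?_ (h7.trans h6)
  have h8 : q0 ≤ 2 ^ q0 := Nat.lt_two_pow_self.le
  refine (Nat.pow_le_pow_left (Nat.mul_le_mul_right _ h8) 2).trans ?_
  rw [← pow_add, ← pow_mul]
  refine Nat.pow_le_pow_right two_pos (le_trans ?_ (sq_XBigS m (by omega)))
  have h9 : 5000 * m ≤ m * m := Nat.mul_le_mul_right m (by omega)
  refine le_trans ?_ h9
  have h10 : (q0 + 20 * (2 * a + 1 + 101 * (m + 1))) * 2 = 2 * q0 + 80 * a + 4040 * m + 4080 := by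
    ring
  rw [h10]
  linarith

end Pool.Agent.MP_2876a2_nt.Tu.Z

end

noncomputable section
open Finset Filter
open scoped Pointwise


namespace Pool.Agent.MP_2876a2_nt.Tu.Z

theorem ee_pow_XGam (t : ℝ) (n : ℕ) : ee (n * t) = ee t ^ n := by
  induction n with
  | zero => simp [ee_zero]
  | succ n ih => rw [Nat.cast_succ, add_mul, one_mul, ee_add, ih, pow_succ]

theorem orth_XGam {g : ℕ} (hg : 0 < g) (z : ℕ) :
    ∑ u ∈ range g, ee ((u : ℝ) / g * z) = if g ∣ z then (g : ℂ) else 0 := by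
  have g0 : (0 : ℝ) < g := by exact_mod_cast hg
  have e : ∀ u : ℕ, ee ((u : ℝ) / g * z) = ee ((z : ℝ) / g) ^ u := fun u => by
    rw [← ee_pow_XGam]
    congr 1
    ring
  simp only [e]
  split_ifs with h
  · obtain ⟨k, rfl⟩ := h
    have e1 : ee (((g * k : ℕ) : ℝ) / g) = 1 := by
      rw [← ee_int (k : ℤ)]
      congr 1
      push_cast
      field_simp
    simp only [e1, one_pow, sum_const, card_range, nsmul_eq_mul, mul_one]
  · have h1 : ee ((z : ℝ) / g) ≠ 1 := fun h1 => by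
      obtain ⟨n, hn⟩ := Complex.exp_eq_one_iff.1 h1
      have e1 : ((2 * Real.pi * ((z : ℝ) / g) : ℝ) : ℂ) = ((2 * Real.pi * n : ℝ) : ℂ) := by
        refine mul_right_cancel₀ Complex.I_ne_zero (hn.trans ?_)
        push_cast
        ring
      have e2 : (z : ℝ) / g = n :=
        mul_left_cancel₀ Real.two_pi_pos.ne' (Complex.ofReal_injective e1)
      rw [div_eq_iff g0.ne'] at e2
      have e3 : (z : ℤ) = n * g := by exact_mod_cast e2
      exact h (Int.natCast_dvd_natCast.1 ⟨n, by rw [e3, mul_comm]⟩)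
    have h2 : ee ((z : ℝ) / g) ^ g = 1 := by
      rw [← ee_pow_XGam, mul_div_cancel₀ _ g0.ne', ← ee_int (z : ℤ)]
      push_cast
      rfl
    rw [geom_sum_eq h1, h2, sub_self, zero_div]

theorem grp_XGam {g W : ℕ} (hg : 0 < g) (gW : g ≤ W) (f : ℝ → ℝ) (hf : ∀ t, 0 ≤ f t) :
    ∑ u ∈ Ico 1 g, f ((u : ℝ) / g) ≤ ∑ e ∈ (Icc 2 W).filter (fun e => e ∣ g),
      ∑ u ∈ (range e).filter (fun u => u.Coprime e), f ((u : ℝ) / e) := by
  have hm : ∀ u ∈ Ico 1 g, g / Nat.gcd u g ∈ (Icc 2 W).filter (fun e => e ∣ g) := by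
    intro u hu
    obtain ⟨u1, ug⟩ := mem_Ico.1 hu
    have c1 : Nat.gcd u g ≤ u := Nat.gcd_le_left g u1
    have c2 : Nat.gcd u g * (g / Nat.gcd u g) = g := Nat.mul_div_cancel' (Nat.gcd_dvd_right u g)
    refine mem_filter.2 ⟨mem_Icc.2 ⟨?_, (Nat.div_le_self _ _).trans gW⟩,
      Nat.div_dvd_of_dvd (Nat.gcd_dvd_right u g)⟩
    by_contra hn
    have c3 : g / Nat.gcd u g ≤ 1 := by omega
    have c4 := Nat.mul_le_mul_left (Nat.gcd u g) c3
    omega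
  rw [← sum_fiberwise_of_maps_to hm]
  refine sum_le_sum fun e he => ?_
  obtain ⟨he1, d, rfl⟩ := mem_filter.1 he
  have e0 : 0 < e := by
    have := (mem_Icc.1 he1).1
    omega
  have d0 : 0 < d := Nat.pos_of_mul_pos_left hg
  have hs : ((Ico 1 (e * d)).filter fun u => e * d / Nat.gcd u (e * d) = e) ⊆
      ((range e).filter fun u => u.Coprime e).image fun u => d * u := by
    intro u hu
    obtain ⟨hu1, hu2⟩ := mem_filter.1 hu
    obtain ⟨-, ug⟩ := mem_Ico.1 hu1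
    have c0 : 0 < Nat.gcd u (e * d) := Nat.gcd_pos_of_pos_right u hg
    have c2 : Nat.gcd u (e * d) * (e * d / Nat.gcd u (e * d)) = e * d :=
      Nat.mul_div_cancel' (Nat.gcd_dvd_right u _)
    have c5 := Nat.coprime_div_gcd_div_gcd c0
    rw [hu2] at c2 c5
    have c3 : Nat.gcd u (e * d) = d := Nat.eq_of_mul_eq_mul_right e0 (c2.trans (mul_comm e d))
    have c4 : d * (u / d) = u := Nat.mul_div_cancel' (c3 ▸ Nat.gcd_dvd_left u (e * d))
    rw [c3] at c5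
    refine mem_image.2 ⟨u / d, mem_filter.2 ⟨mem_range.2 ?_, c5⟩, c4⟩
    exact (Nat.div_lt_iff_lt_mul d0).2 ug
  refine (sum_le_sum_of_subset_of_nonneg hs fun _ _ _ => hf _).trans (le_of_eq ?_)
  rw [sum_image fun x _ y _ h => Nat.eq_of_mul_eq_mul_left d0 h]
  refine sum_congr rfl fun u _ => ?_
  congr 1
  have d1 : (d : ℝ) ≠ 0 := by exact_mod_cast d0.ne'
  have e1 : (e : ℝ) ≠ 0 := by exact_mod_cast e0.ne'
  push_cast
  field_simp

theorem one_XGam (X1 X2 : Finset ℕ) {g W : ℕ} (hg : 0 < g) (gW : g ≤ W) (Z : ℕ → ℝ)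
    (hZ : ∀ e, 0 ≤ Z e) (h : ∀ e : ℕ, 1 < e → e ≤ W → e ∣ g →
      ∑ u ∈ (range e).filter (fun u => u.Coprime e), ‖ES X1 ((u : ℝ) / e)‖ ^ 2 ≤
        (X1.card : ℝ) ^ 2 * Z e ∧
      ∑ u ∈ (range e).filter (fun u => u.Coprime e), ‖ES X2 ((u : ℝ) / e)‖ ^ 2 ≤
        (X2.card : ℝ) ^ 2 * Z e) :
    (X1.card : ℝ) * X2.card ≤ g * ((X1 ×ˢ X2).filter fun x => g ∣ x.1 + x.2).card +
      X1.card * X2.card * ∑ e ∈ (Icc 2 W).filter (fun e => e ∣ g), Z e := by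
  have e1 : ∀ α : ℝ, ES X1 α * ES X2 α = ∑ x ∈ X1 ×ˢ X2, ee (α * ((x.1 + x.2 : ℕ) : ℝ)) := by
    intro α
    simp only [ES]
    rw [sum_mul_sum, sum_product]
    refine sum_congr rfl fun a _ => sum_congr rfl fun b _ => ?_
    rw [← ee_add]
    congr 1
    push_cast
    ring
  have e2 : ∑ u ∈ range g, ES X1 ((u : ℝ) / g) * ES X2 ((u : ℝ) / g) =
      ((g * ((X1 ×ˢ X2).filter fun x => g ∣ x.1 + x.2).card : ℕ) : ℂ) := by
    simp only [e1]
    rw [sum_comm, sum_congr rfl fun x _ => orth_XGam hg (x.1 + x.2), ← sum_filter, sum_const,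
      nsmul_eq_mul]
    push_cast
    ring
  have e3 : ∀ X : Finset ℕ, ES X (((0 : ℕ) : ℝ) / g) = X.card := fun X => by
    simp [ES, ee_zero]
  rw [range_eq_Ico, sum_eq_sum_Ico_succ_bot hg, e3, e3] at e2
  have e4 : ((X1.card * X2.card : ℕ) : ℂ) =
      ((g * ((X1 ×ˢ X2).filter fun x => g ∣ x.1 + x.2).card : ℕ) : ℂ) -
        ∑ u ∈ Ico (0 + 1) g, ES X1 ((u : ℝ) / g) * ES X2 ((u : ℝ) / g) := by
    rw [← e2]
    push_cast
    ring
  have e5 := congrArg norm e4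
  have e6 := e5.le.trans (norm_sub_le _ _)
  rw [Complex.norm_natCast, Complex.norm_natCast] at e6
  push_cast at e6
  refine e6.trans (add_le_add le_rfl ((norm_sum_le _ _).trans ?_))
  simp only [norm_mul]
  refine (grp_XGam hg gW (fun t => ‖ES X1 t‖ * ‖ES X2 t‖) fun t => by positivity).trans ?_
  rw [mul_sum]
  refine sum_le_sum fun e he => ?_
  obtain ⟨he1, he2⟩ := mem_filter.1 he
  obtain ⟨a1, a2⟩ := h e (mem_Icc.1 he1).1 (mem_Icc.1 he1).2 he2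
  have z0 := hZ e
  refine (pow_le_pow_iff_left₀ (sum_nonneg fun _ _ => by positivity) (by positivity)
    (by norm_num : 2 ≠ 0)).1 ((sum_mul_sq_le_sq_mul_sq _ _ _).trans ?_)
  refine (mul_le_mul a1 a2 (sum_nonneg fun _ _ => by positivity) (by positivity)).trans
    (le_of_eq ?_)
  ring

theorem spr_XGam {A : Finset ℕ} (hS : Spr A) {e : ℕ} (he : 0 < e) :
    ((A.filter fun a => e ∣ a).card : ℝ) ≤ A.card * (e : ℝ) ^ (-(19 / 20) : ℝ) := by
  have e0 : (0 : ℝ) < e := by exact_mod_cast he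
  have a2 : ((A.filter fun b => e ∣ b).card : ℝ) ^ 20 * (e : ℝ) ^ 19 ≤ (A.card : ℝ) ^ 20 := by
    exact_mod_cast hS e
  refine (pow_le_pow_iff_left₀ (by positivity) (by positivity) (by norm_num : 20 ≠ 0)).1 ?_
  have a3 : ((e : ℝ) ^ (-(19 / 20) : ℝ)) ^ 20 = ((e : ℝ) ^ 19)⁻¹ := by
    rw [← Real.rpow_natCast, ← Real.rpow_mul e0.le, ← Real.rpow_natCast, ← Real.rpow_neg e0.le]
    norm_num
  rw [mul_pow, a3, ← div_eq_mul_inv, le_div_iff₀ (by positivity)]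
  exact a2

theorem sGam : StGam := by
  intro X1 X2 A W Z hS hW hZ h hs
  have h1 : ∀ a ∈ A, (X1.card : ℝ) * X2.card ≤
      (Nat.gcd a W : ℕ) * ((X1 ×ˢ X2).filter fun x => Nat.gcd a W ∣ x.1 + x.2).card +
        X1.card * X2.card * ∑ e ∈ Icc 2 W, if e ∣ a then Z e else 0 := by
    intro a ha
    refine (one_XGam X1 X2 (Nat.gcd_pos_of_pos_right a hW) (Nat.gcd_le_right a hW) Z hZ
      fun e e1 eW ed => h e e1 eW ⟨a, ha, ed.trans (Nat.gcd_dvd_left a W)⟩).trans ?_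
    refine add_le_add le_rfl (mul_le_mul_of_nonneg_left ?_ (by positivity))
    rw [← sum_filter]
    refine sum_le_sum_of_subset_of_nonneg ?_ fun _ _ _ => hZ _
    intro e he
    exact mem_filter.2 ⟨(mem_filter.1 he).1, (mem_filter.1 he).2.trans (Nat.gcd_dvd_left a W)⟩
  have h2 : (∑ a ∈ A, ∑ e ∈ Icc 2 W, if e ∣ a then Z e else 0) ≤ A.card * (1 / 2) := by
    rw [sum_comm]
    refine le_trans ?_ (mul_le_mul_of_nonneg_left hs (Nat.cast_nonneg _))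
    rw [mul_sum]
    refine sum_le_sum fun e he => ?_
    rw [← sum_filter, sum_const, nsmul_eq_mul, ← mul_assoc]
    refine mul_le_mul_of_nonneg_right (spr_XGam hS ?_) (hZ e)
    have := (mem_Icc.1 he).1
    omega
  have h3 := sum_le_sum h1
  rw [sum_const, nsmul_eq_mul, sum_add_distrib, ← mul_sum] at h3
  have h4 := mul_le_mul_of_nonneg_left h2 (by positivity : (0 : ℝ) ≤ (X1.card : ℝ) * X2.card)
  have h5 : (A.card : ℝ) * X1.card * X2.card ≤ 2 * ∑ a ∈ A, ((Nat.gcd a W : ℕ) : ℝ) *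
      ((X1 ×ˢ X2).filter fun x => Nat.gcd a W ∣ x.1 + x.2).card := by
    linarith
  unfold Gam
  exact_mod_cast h5

end Pool.Agent.MP_2876a2_nt.Tu.Z

end

noncomputable section
open Finset Filter
open scoped Pointwise


namespace Pool.Agent.MP_2876a2_nt.Tu.Z

theorem pw_XGam2 (i : ℕ) : ((2 : ℝ) ^ i) ^ (-(19 / 20) : ℝ) * (2 * ((2 : ℝ) ^ i) ^ (1 / 4 : ℝ)) ≤
    2 * (2 / 3) ^ i := by
  have h1 : (2 : ℝ) ^ (-(7 / 10) : ℝ) ≤ 2 / 3 := by
    refine le_of_pow_le_pow_left₀ (n := 10) (by norm_num) (by norm_num) ?_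
    rw [← Real.rpow_natCast, ← Real.rpow_mul (by norm_num),
      show (-(7 / 10) : ℝ) * (10 : ℕ) = ((-7 : ℤ) : ℝ) by norm_num, Real.rpow_intCast]
    norm_num
  rw [mul_left_comm, ← Real.rpow_add (by positivity),
    show (-(19 / 20) : ℝ) + 1 / 4 = -(7 / 10) by norm_num,
    ← Real.rpow_pow_comm (by norm_num)]
  gcongr

theorem sum_XGam2 (i1 W : ℕ) (h7 : 7 ≤ i1) (Zs : ℕ → ℕ → ℝ) (z0 : ∀ i e, 0 ≤ Zs i e)
    (z1 : ∀ i, ∑ e ∈ Icc 1 (2 * 2 ^ i), Zs i e ≤ 2 * ((2 : ℝ) ^ i) ^ (1 / 4 : ℝ)) :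
    ∑ e ∈ Icc 2 W, (e : ℝ) ^ (-(19 / 20) : ℝ) *
      (if i1 ≤ Nat.log 2 e then Zs (Nat.log 2 e) e else 0) ≤ 1 / 2 := by
  simp only [mul_ite, mul_zero]
  rw [← sum_filter, ← sum_fiberwise_of_maps_to (t := Ico i1 (W + 1)) (g := Nat.log 2)
    fun e he => by
      obtain ⟨h1, h2⟩ := mem_filter.1 he
      exact mem_Ico.2 ⟨h2, Nat.lt_succ_of_le ((Nat.log_le_self 2 e).trans (mem_Icc.1 h1).2)⟩]
  have h1 : ∀ i ∈ Ico i1 (W + 1), ∑ e ∈ ((Icc 2 W).filter fun e => i1 ≤ Nat.log 2 e).filter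
      (fun e => Nat.log 2 e = i), (e : ℝ) ^ (-(19 / 20) : ℝ) * Zs (Nat.log 2 e) e ≤
      2 * (2 / 3) ^ i := fun i _ => by
    refine le_trans ?_ ((mul_le_mul_of_nonneg_left (z1 i) (by positivity)).trans (pw_XGam2 i))
    rw [mul_sum]
    refine le_trans (sum_le_sum fun e he => ?_) (sum_le_sum_of_subset_of_nonneg (fun e he => ?_)
      fun e _ _ => mul_nonneg (by positivity) (z0 i e))
    · obtain ⟨h2, rfl⟩ := mem_filter.1 he
      have h3 := (mem_Icc.1 (mem_filter.1 h2).1).1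
      refine mul_le_mul_of_nonneg_right
        (Real.rpow_le_rpow_of_nonpos (by positivity) ?_ (by norm_num)) (z0 _ _)
      exact_mod_cast Nat.pow_log_le_self 2 (show e ≠ 0 by omega)
    · obtain ⟨h2, rfl⟩ := mem_filter.1 he
      have h3 := (mem_Icc.1 (mem_filter.1 h2).1).1
      have h4 := Nat.lt_pow_succ_log_self (b := 2) (by norm_num) e
      rw [pow_succ] at h4
      exact mem_Icc.2 ⟨by omega, by omega⟩
  refine (sum_le_sum h1).trans ?_
  rw [← mul_sum]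
  have h2 := geom_sum_Ico_le_of_lt_one (x := (2 / 3 : ℝ)) (m := i1) (n := W + 1) (by norm_num)
    (by norm_num)
  have h3 := pow_le_pow_of_le_one (a := (2 / 3 : ℝ)) (by norm_num) (by norm_num) h7
  norm_num at h2 h3 ⊢
  linarith

theorem sGam2 (hZ : StZ) (hG : StGam) (hP : StProd) (hR : StSprP) : StGam2 := by
  intro j0 D hj D0
  have hj2 : 2 ≤ j0 := le_trans (by norm_num) hj
  obtain ⟨Y0, hY0⟩ := eventually_atTop.1 (hZ j0 D hj D0)
  obtain ⟨i1, y1, h7⟩ := (((tendsto_pow_atTop_atTop_of_one_lt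
    (show (1 : ℝ) < 2 by norm_num)).eventually_ge_atTop Y0).and (eventually_ge_atTop 7)).exists
  filter_upwards [eventually_ge_atTop (i1 ^ 4)] with t1 ht1
  intro B N s hs hsp c0 c1 W t2 p0 q0 p1 q1 W0 hW
  have s0 := hs.one 0 (by norm_num)
  have s1 := hs.one 1 (by norm_num)
  have s2 := hs.one 2 (by norm_num)
  have ex : ∀ i : ℕ, ∃ Z : ℕ → ℝ, (∀ e, 0 ≤ Z e) ∧
      ∑ e ∈ Icc 1 (2 * 2 ^ i), Z e ≤ 2 * ((2 : ℝ) ^ i) ^ (1 / 4 : ℝ) ∧
      (i1 ≤ i → 2 ^ i ≤ W → ∀ e : ℕ, 0 < e → e ≤ 2 * 2 ^ i →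
        ∑ u ∈ (range e).filter (fun u => u.Coprime e),
          ‖ES ((∏ t ∈ range t2, B 0 t).image fun a => c0 * a) ((u : ℝ) / e)‖ ^ 2 ≤
            (((∏ t ∈ range t2, B 0 t).image fun a => c0 * a).card : ℝ) ^ 2 * Z e ∧
        ∑ u ∈ (range e).filter (fun u => u.Coprime e),
          ‖ES ((∏ t ∈ range t2, B 1 t).image fun a => c1 * a) ((u : ℝ) / e)‖ ^ 2 ≤
            (((∏ t ∈ range t2, B 1 t).image fun a => c1 * a).card : ℝ) ^ 2 * Z e) := fun i => by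
    by_cases k : i1 ≤ i ∧ 2 ^ i ≤ W
    swap
    · exact ⟨fun _ => 0, fun _ => le_rfl, by rw [sum_const_zero]; positivity,
        fun a b => absurd ⟨a, b⟩ k⟩
    have y2 : Y0 ≤ (2 : ℝ) ^ i := y1.trans (pow_le_pow_right₀ (by norm_num) k.1)
    have y3 : ((2 : ℝ) ^ i) ^ 2 ≤ ((D * ∏ t ∈ range t2, s t : ℕ) : ℝ) := by
      exact_mod_cast ((Nat.pow_le_pow_left k.2 2).trans hW).trans (Nat.le_mul_of_pos_left _ D0)
    have fl : ⌊2 * (2 : ℝ) ^ i⌋₊ = 2 * 2 ^ i := by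
      exact_mod_cast Nat.floor_natCast (R := ℝ) (2 * 2 ^ i)
    obtain ⟨Z0, a0, a1, a2⟩ := hY0 _ y2 (B 0) (N 0) s s0 t2 y3
    obtain ⟨Z1, b0, b1, b2⟩ := hY0 _ y2 (B 1) (N 1) s s1 t2 y3
    rw [fl] at a1 b1
    refine ⟨fun e => Z0 e + Z1 e, fun e => add_nonneg (a0 e) (b0 e), ?_, fun _ _ e e0 e1 => ?_⟩
    · rw [sum_add_distrib]
      linarith
    · have e2 : (e : ℝ) ≤ 2 * 2 ^ i := by exact_mod_cast e1
      exact ⟨((a2 _ _ _ s0 (hsp 0 (by norm_num)) (fun _ _ => ⟨rfl, rfl⟩) c0 t2 p0 q0 le_rfl).1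
          e e0 e2).trans (mul_le_mul_of_nonneg_left (le_add_of_nonneg_right (b0 e)) (sq_nonneg _)),
        ((b2 _ _ _ s1 (hsp 1 (by norm_num)) (fun _ _ => ⟨rfl, rfl⟩) c1 t2 p1 q1 le_rfl).1
          e e0 e2).trans (mul_le_mul_of_nonneg_left (le_add_of_nonneg_left (a0 e)) (sq_nonneg _))⟩
  choose Zs z0 z1 z2 using ex
  refine hG _ _ _ W (fun e => if i1 ≤ Nat.log 2 e then Zs (Nat.log 2 e) e else 0)
    (hR j0 (B 2) (N 2) s hj2 s2 (hsp 2 (by norm_num)) _) W0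
    (fun e => by split_ifs; exacts [z0 _ _, le_rfl]) (fun e e1 eW ⟨a, ha, ea⟩ => ?_)
    (sum_XGam2 i1 W h7 Zs z0 z1)
  have pp := Nat.minFac_prime e1.ne'
  have d1 := ((Nat.minFac_dvd e).trans ea).trans
    ((hP j0 (B 2) (N 2) s hj2 s2 0 (Ico t1 t2) fun _ _ => Nat.zero_le _).1.dvd a ha)
  obtain ⟨t, ht, d2⟩ := (pp.prime.dvd_finsetProd_iff _).1 d1
  have d3 := ((s2.one t).prm _ (Nat.mem_primeFactors.2 ⟨pp, d2, (s2.one t).blk.sqf.ne_zero⟩)).1
  have d4 : i1 ≤ lev (j0 + t) := le_lev.2 (by have := (mem_Ico.1 ht).1; omega)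
  have d5 : 2 ^ i1 ≤ e := ((Nat.pow_le_pow_right two_pos d4).trans d3.le).trans
    (Nat.minFac_le (by omega))
  have d6 : i1 ≤ Nat.log 2 e := Nat.le_log_of_pow_le (by norm_num) d5
  have d7 := Nat.lt_pow_succ_log_self (b := 2) (by norm_num) e
  rw [pow_succ] at d7
  simp only [if_pos d6]
  exact z2 _ d6 ((Nat.pow_log_le_self 2 (by omega)).trans eW) e (by omega) (by omega)

end Pool.Agent.MP_2876a2_nt.Tu.Z

end

noncomputable section
open Finset Filter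
open scoped Pointwise


namespace Pool.Agent.MP_2876a2_nt.Tu.Z

theorem cnt0_XLoc (g a W z : ℕ) (hW : 0 < W) (hc : a.Coprime W) :
    g ≤ ((Icc 1 (g * W)).filter fun w => g * W ∣ g * z + w * (g * a)).card := by
  obtain ⟨m, hm, hm'⟩ := Nat.exists_mul_mod_eq_of_coprime ((W - 1) * (z + a)) hc hW.ne'
  have h1 : W ∣ z + (m + 1) * a := by
    obtain ⟨V, rfl⟩ : ∃ V, W = V + 1 := ⟨W - 1, by omega⟩
    have h2 : a * m ≡ V * (z + a) [MOD V + 1] := by simpa [Nat.ModEq] using hm'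
    have h3 : (z + a) + a * m ≡ (z + a) + V * (z + a) [MOD V + 1] := h2.add_left _
    have h4 : (z + a) + V * (z + a) = (V + 1) * (z + a) := by ring
    have h5 : z + (m + 1) * a = (z + a) + a * m := by ring
    rw [h5, ← Nat.modEq_zero_iff_dvd]
    exact h3.trans (h4 ▸ Nat.modEq_zero_iff_dvd.2 (dvd_mul_right _ _))
  calc g = (range g).card := (card_range g).symm
    _ ≤ _ := by
      refine card_le_card_of_injOn (fun k => m + 1 + k * W) ?_ ?_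
      · intro k hk
        have hk' : k + 1 ≤ g := mem_range.1 (mem_coe.1 hk)
        have h6 : (k + 1) * W ≤ g * W := Nat.mul_le_mul_right _ hk'
        simp only [coe_filter, mem_Icc, Set.mem_ofPred_eq]
        refine ⟨⟨by omega, by nlinarith⟩, ?_⟩
        have h7 : g * z + (m + 1 + k * W) * (g * a) = g * (z + (m + 1) * a) + g * W * (k * a) := by
          ring
        rw [h7]
        exact dvd_add (Nat.mul_dvd_mul_left g h1) (dvd_mul_right _ _)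
      · intro k _ l _ h
        have h8 : k * W = l * W := by
          have : m + 1 + k * W = m + 1 + l * W := h
          omega
        exact Nat.eq_of_mul_eq_mul_right hW h8

theorem cnt_XLoc (a W z : ℕ) (hW : 0 < W) :
    (if Nat.gcd a W ∣ z then Nat.gcd a W else 0) ≤
      ((Icc 1 W).filter fun w => W ∣ z + w * a).card := by
  split_ifs with h
  · have hg : 0 < Nat.gcd a W := Nat.gcd_pos_of_pos_right _ hW
    obtain ⟨a1, W1, hc, ha, hW1⟩ := Nat.exists_coprime a W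
    obtain ⟨z1, hz⟩ := h
    generalize Nat.gcd a W = g at *
    have hW1' : 0 < W1 := by
      rcases Nat.eq_zero_or_pos W1 with e | e
      · simp [e] at hW1
        omega
      · exact e
    have := cnt0_XLoc g a1 W1 z1 hW1' hc
    rw [ha, hW1, hz, mul_comm a1 g, mul_comm W1 g]
    exact this
  · exact Nat.zero_le _

theorem near_XLoc (z a κ H : ℕ) (η : ℝ) (hκ : 0 < κ) (hη : 0 < η) (ha : 0 < a) (h1 : κ * a ≤ H)
    (h2 : 2 * z ≤ H) (h3 : H ≤ z + κ * a) : ∃ k ∈ range (⌊1 / η⌋₊ + 1),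
      |(z : ℝ) + max (1 / 2) (k * η) * κ * a - H| ≤ η * H := by
  have hp : (0 : ℝ) < κ * a := by positivity
  have h1' : (κ : ℝ) * a ≤ H := by exact_mod_cast h1
  have h2' : 2 * (z : ℝ) ≤ H := by exact_mod_cast h2
  have h3' : (H : ℝ) ≤ z + κ * a := by exact_mod_cast h3
  obtain ⟨τ, hτ⟩ : ∃ τ : ℝ, τ * (κ * a) = H - z := ⟨(H - z) / (κ * a), by field_simp⟩
  have t1 : 1 / 2 ≤ τ := by
    by_contra hn
    push Not at hn
    nlinarith
  have t2 : τ ≤ 1 := by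
    by_contra hn
    push Not at hn
    nlinarith
  have t0 : 0 ≤ τ / η := by positivity
  refine ⟨⌊τ / η⌋₊, mem_range.2 (Nat.lt_succ_of_le (Nat.floor_le_floor (by gcongr))), ?_⟩
  have f1 : (⌊τ / η⌋₊ : ℝ) * η ≤ τ := (le_div_iff₀ hη).1 (Nat.floor_le t0)
  have f2 : τ < (⌊τ / η⌋₊ + 1) * η := (div_lt_iff₀ hη).1 (Nat.lt_floor_add_one _)
  have f3 : max (1 / 2) ((⌊τ / η⌋₊ : ℝ) * η) ≤ τ := max_le t1 f1
  have f4 : (⌊τ / η⌋₊ : ℝ) * η ≤ max (1 / 2) ((⌊τ / η⌋₊ : ℝ) * η) := le_max_right _ _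
  generalize max (1 / 2) ((⌊τ / η⌋₊ : ℝ) * η) = σ at f3 f4 ⊢
  have e : (z : ℝ) + σ * κ * a - H = -((τ - σ) * (κ * a)) := by linarith
  rw [e, abs_neg, abs_of_nonneg (mul_nonneg (by linarith) hp.le)]
  exact mul_le_mul (by linarith) h1' hp.le hη.le

open Classical in
theorem sum_XLoc (X1 X2 A : Finset ℕ) (κ H W : ℕ) (η τ : ℝ) :
    ∑ w ∈ Icc 1 W, Nw X1 X2 A κ H W η τ w = ∑ x ∈ (X1 ×ˢ X2) ×ˢ A,
      if |((x.1.1 + x.1.2 : ℕ) : ℝ) + τ * κ * x.2 - H| ≤ η * H then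
        ((Icc 1 W).filter fun w => W ∣ x.1.1 + x.1.2 + w * x.2).card else 0 := by
  unfold Nw
  simp only [card_filter]
  rw [sum_comm]
  refine sum_congr rfl fun x _ => ?_
  split_ifs with h
  · simp only [h, and_true]
  · simp only [h, and_false, if_false, sum_const_zero]

theorem sLoc : StLoc := by
  classical
  intro X1 X2 A κ H W η hW hκ hη hη1 h hG
  have key : ∑ a ∈ A, Nat.gcd a W * ((X1 ×ˢ X2).filter fun x => Nat.gcd a W ∣ x.1 + x.2).card ≤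
      ∑ k ∈ range (⌊1 / η⌋₊ + 1), ∑ w ∈ Icc 1 W,
        Nw X1 X2 A κ H W η (max (1 / 2) (k * η)) w := by
    simp only [sum_XLoc]
    rw [sum_comm]
    calc _ = ∑ x ∈ (X1 ×ˢ X2) ×ˢ A,
          (if Nat.gcd x.2 W ∣ x.1.1 + x.1.2 then Nat.gcd x.2 W else 0) := by
          rw [sum_product_right]
          refine sum_congr rfl fun a _ => ?_
          rw [← sum_filter]
          simp [mul_comm]
      _ ≤ _ := by
          refine sum_le_sum fun x hx => ?_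
          obtain ⟨hx1, hx2⟩ := mem_product.1 hx
          obtain ⟨hx3, hx4⟩ := mem_product.1 hx1
          obtain ⟨b1, b2, b3, b4⟩ := h _ hx3 _ hx4 _ hx2
          obtain ⟨k, hk, hk'⟩ := near_XLoc (x.1.1 + x.1.2) x.2 κ H η hκ hη b1 b2 b3 b4
          refine (cnt_XLoc _ _ _ hW).trans (le_trans ?_ (single_le_sum (fun _ _ => Nat.zero_le _) hk))
          rw [if_pos hk']
  have hG' : (A.card * X1.card * X2.card : ℝ) ≤ 2 * ∑ k ∈ range (⌊1 / η⌋₊ + 1), ∑ w ∈ Icc 1 W,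
      (Nw X1 X2 A κ H W η (max (1 / 2) (k * η)) w : ℝ) := by
    exact_mod_cast le_trans hG (Nat.mul_le_mul_left 2 key)
  have n1 : (⌊1 / η⌋₊ : ℝ) * η ≤ 1 := (le_div_iff₀ hη).1 (Nat.floor_le (by positivity))
  have hP : (0 : ℝ) ≤ A.card * X1.card * X2.card := by positivity
  have hs : ∑ _k ∈ range (⌊1 / η⌋₊ + 1), η / 4 * (A.card * X1.card * X2.card : ℝ) ≤
      ∑ k ∈ range (⌊1 / η⌋₊ + 1), ∑ w ∈ Icc 1 W,
        (Nw X1 X2 A κ H W η (max (1 / 2) (k * η)) w : ℝ) := by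
    rw [sum_const, card_range, nsmul_eq_mul]
    push_cast
    have : ((⌊1 / η⌋₊ : ℝ) + 1) * η ≤ 2 := by linarith
    nlinarith [mul_le_mul_of_nonneg_right this hP]
  obtain ⟨k, hk, hk'⟩ := exists_le_of_sum_le nonempty_range_add_one hs
  refine ⟨_, le_max_left _ _, max_le (by norm_num) ?_, hk'⟩
  have : (k : ℝ) ≤ ⌊1 / η⌋₊ := by exact_mod_cast Nat.le_of_lt_succ (mem_range.1 hk)
  nlinarith

end Pool.Agent.MP_2876a2_nt.Tu.Z

end

noncomputable section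
open Finset Filter
open scoped Pointwise


namespace Pool.Agent.MP_2876a2_nt.Tu.Z

theorem cnt_XWin (TT : Finset ℕ) (W c : ℕ) (a D : ℝ) (hW : 0 < W) (hne : TT.Nonempty)
    (h : ∀ T ∈ TT, T ≡ c [MOD W] ∧ |(T : ℝ) - a| ≤ D) : (W : ℝ) * TT.card ≤ 2 * D + W := by
  have hW' : (0 : ℝ) < W := by exact_mod_cast hW
  have hm := TT.min'_mem hne
  have hD : 0 ≤ D := (abs_nonneg _).trans (h _ hm).2
  have hd : ∀ T ∈ TT, W ∣ T - TT.min' hne := fun T hT =>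
    (Nat.modEq_iff_dvd' (TT.min'_le T hT)).1 ((h _ hm).1.trans (h T hT).1.symm)
  have h1 : TT.card ≤ (range (⌊2 * D / W⌋₊ + 1)).card := by
    refine card_le_card_of_injOn (fun T => (T - TT.min' hne) / W) (fun T hT => ?_)
      fun T hT T' hT' e => ?_
    · refine mem_coe.2 (mem_range.2 (Nat.lt_succ_of_le (Nat.le_floor
        (Nat.cast_div_le.trans (div_le_div_of_nonneg_right ?_ hW'.le)))))
      rw [Nat.cast_sub (TT.min'_le T hT)]
      have a1 := abs_le.1 (h T hT).2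
      have a2 := abs_le.1 (h _ hm).2
      linarith
    · have a1 := Nat.mul_div_cancel' (hd T hT)
      have a2 := Nat.mul_div_cancel' (hd T' hT')
      have a3 := TT.min'_le T hT
      have a4 := TT.min'_le T' hT'
      simp only at e
      rw [e] at a1
      omega
  rw [card_range] at h1
  have h2 : (TT.card : ℝ) ≤ 2 * D / W + 1 := by
    have := Nat.floor_le (show 0 ≤ 2 * D / W by positivity)
    have h3 : (TT.card : ℝ) ≤ (⌊2 * D / W⌋₊ : ℕ) + 1 := by exact_mod_cast h1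
    linarith
  refine (mul_le_mul_of_nonneg_left h2 hW'.le).trans_eq ?_
  field_simp

theorem near_XWin (x1 x2 a g1 g2 g3 κ H S η τ : ℝ) (hη : 0 < η) (h1 : 0 ≤ x1) (h2 : 0 ≤ x2)
    (ha : 0 ≤ a) (hS : 0 ≤ S) (hκ : κ * a ≤ H) (hx : x1 + x2 ≤ H) (a1 : g1 ≤ S)
    (b1 : S ≤ (1 + η) * g1) (a2 : g2 ≤ S) (b2 : S ≤ (1 + η) * g2)
    (h3 : |g3 - τ * κ * S| ≤ 4 * η * κ * S) (h4 : |x1 + x2 + τ * κ * a - H| ≤ η * H) :
    |x1 * g1 + x2 * g2 + a * g3 - H * S| ≤ 6 * η * H * S := by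
  have c1 : S - η * S ≤ g1 := by nlinarith
  have c2 : S - η * S ≤ g2 := by nlinarith
  have d1 := mul_le_mul_of_nonneg_left a1 h1
  have d2 := mul_le_mul_of_nonneg_left a2 h2
  have d3 := mul_le_mul_of_nonneg_left c1 h1
  have d4 := mul_le_mul_of_nonneg_left c2 h2
  have d5 := mul_le_mul_of_nonneg_left (abs_le.1 h3).1 ha
  have d6 := mul_le_mul_of_nonneg_left (abs_le.1 h3).2 ha
  have d7 := mul_le_mul_of_nonneg_right (abs_le.1 h4).1 hS
  have d8 := mul_le_mul_of_nonneg_right (abs_le.1 h4).2 hS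
  have e0 : 0 ≤ η * S := mul_nonneg hη.le hS
  have d9 := mul_le_mul_of_nonneg_right hκ e0
  have d10 := mul_le_mul_of_nonneg_right hx e0
  have d11 : 0 ≤ (x1 + x2) * (η * S) := mul_nonneg (add_nonneg h1 h2) e0
  exact abs_le.2 ⟨by nlinarith, by nlinarith⟩

theorem inj_XWin {X Y : Finset ℕ} (h : (X * Y).card = X.card * Y.card) {a b c d : ℕ}
    (ha : a ∈ X) (hb : b ∈ Y) (hc : c ∈ X) (hd : d ∈ Y) (e : a * b = c * d) : a = c ∧ b = d :=
  have k := card_mul_iff.1 h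
  Prod.mk.inj (@k (a, b) ⟨ha, hb⟩ (c, d) ⟨hc, hd⟩ e)

theorem sWin : StWin := by
  classical
  intro X1 X2 A Γ1 Γ2 Γ3 κ H W S g w η τ hW hη k1 k2 k3 hX h12 h3 hWS
  set C := ((X1 ×ˢ X2) ×ˢ A).filter fun x : (ℕ × ℕ) × ℕ => W ∣ x.1.1 + x.1.2 + w * x.2 ∧
    |((x.1.1 + x.1.2 : ℕ) : ℝ) + τ * κ * x.2 - H| ≤ η * H with hCdef
  have hN : Nw X1 X2 A κ H W η τ w = C.card := by
    unfold Nw
    congr
  set Z := C ×ˢ ((Γ1 ×ˢ Γ2) ×ˢ Γ3) with hZ
  have hZc : (Z.card : ℝ) =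
      (Nw X1 X2 A κ H W η τ w : ℝ) * (Γ1.card * Γ2.card * Γ3.card) := by
    rw [hN, hZ, card_product, card_product, card_product]
    push_cast
    ring
  rw [← hZc]
  have hW' : (0 : ℝ) < W := by exact_mod_cast hW
  have hHS : (0 : ℝ) ≤ η * H * S := by positivity
  rcases Z.eq_empty_or_nonempty with hZe | hZne
  · refine ⟨W * (H * S / W), dvd_mul_right _ _, ?_, ?_⟩
    · have e1 : W * (H * S / W) ≤ H * S := Nat.mul_div_le _ _
      have e2 : H * S < W * (H * S / W) + W := by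
        have := Nat.div_add_mod (H * S) W
        have := Nat.mod_lt (H * S) hW
        omega
      have e3 : ((W * (H * S / W) : ℕ) : ℝ) ≤ (H : ℝ) * S := by exact_mod_cast e1
      have e4 : (H : ℝ) * S < ((W * (H * S / W) : ℕ) : ℝ) + W := by exact_mod_cast e2
      exact abs_le.2 ⟨by linarith, by linarith⟩
    · rw [hZe, card_empty, Nat.cast_zero, zero_mul]
      positivity
  set f : ((ℕ × ℕ) × ℕ) × ((ℕ × ℕ) × ℕ) → ℕ :=
    fun p => p.1.1.1 * p.2.1.1 + p.1.1.2 * p.2.1.2 + p.1.2 * p.2.2 with hf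
  have hmem : ∀ p ∈ Z, (p.1.1.1 ∈ X1 ∧ p.1.1.2 ∈ X2 ∧ p.1.2 ∈ A) ∧
      (p.2.1.1 ∈ Γ1 ∧ p.2.1.2 ∈ Γ2 ∧ p.2.2 ∈ Γ3) ∧ W ∣ p.1.1.1 + p.1.1.2 + w * p.1.2 ∧
      |((p.1.1.1 + p.1.1.2 : ℕ) : ℝ) + τ * κ * p.1.2 - H| ≤ η * H := by
    intro p hp
    obtain ⟨u1, u2⟩ := mem_product.1 hp
    obtain ⟨u3, u4⟩ := mem_filter.1 u1
    obtain ⟨u5, u6⟩ := mem_product.1 u3
    obtain ⟨u7, u8⟩ := mem_product.1 u2
    exact ⟨⟨(mem_product.1 u5).1, (mem_product.1 u5).2, u6⟩,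
      ⟨(mem_product.1 u7).1, (mem_product.1 u7).2, u8⟩, u4⟩
  have hT : ∀ T ∈ Z.image f, T ≡ 0 [MOD W] ∧ |(T : ℝ) - H * S| ≤ 6 * η * H * S := by
    intro T hT
    obtain ⟨p, hp, rfl⟩ := mem_image.1 hT
    obtain ⟨⟨m1, m2, m3⟩, ⟨n1, n2, n3⟩, dv, cl⟩ := hmem p hp
    have q1 := h12 _ (mem_union_left Γ2 n1)
    have q2 := h12 _ (mem_union_right Γ1 n2)
    have q3 := h3 _ n3
    have q4 := hX _ m1 _ m2 _ m3
    constructor
    · have r1 : f p ≡ p.1.1.1 * g + p.1.1.2 * g + p.1.2 * (g * w) [MOD W] :=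
        ((q1.1.mul_left _).add (q2.1.mul_left _)).add (q3.1.mul_left _)
      refine r1.trans (Nat.modEq_zero_iff_dvd.2 ?_)
      have r2 : p.1.1.1 * g + p.1.1.2 * g + p.1.2 * (g * w) =
          (p.1.1.1 + p.1.1.2 + w * p.1.2) * g := by ring
      rw [r2]
      exact dv.mul_right _
    · have r3 := near_XWin p.1.1.1 p.1.1.2 p.1.2 p.2.1.1 p.2.1.2 p.2.2 κ H S η τ hη
        (Nat.cast_nonneg _) (Nat.cast_nonneg _) (Nat.cast_nonneg _) (Nat.cast_nonneg _)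
        (by exact_mod_cast q4.1) (by exact_mod_cast q4.2) (by exact_mod_cast q1.2.1) q1.2.2
        (by exact_mod_cast q2.2.1) q2.2.2 q3.2 (by exact_mod_cast cl)
      simp only [hf]
      push_cast
      exact r3
  obtain ⟨T, hT0, hmax⟩ :=
    exists_max_image (Z.image f) (rm ![X1 * Γ1, X2 * Γ2, A * Γ3]) (hZne.image f)
  refine ⟨T, Nat.modEq_zero_iff_dvd.1 (hT T hT0).1, (hT T hT0).2, ?_⟩
  have c1 := cnt_XWin _ W _ _ _ hW (hZne.image f) hT
  have c2 : Z.card ≤ (Z.image f).card * rm ![X1 * Γ1, X2 * Γ2, A * Γ3] T := by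
    rw [card_eq_sum_card_image f Z]
    refine (sum_le_sum fun T' hT' => le_trans ?_ (hmax T' hT')).trans (by simp)
    refine card_le_card_of_injOn
      (fun p => ![p.1.1.1 * p.2.1.1, p.1.1.2 * p.2.1.2, p.1.2 * p.2.2]) (fun p hp => ?_)
      fun p hp q hq e => ?_
    · obtain ⟨u1, u2⟩ := mem_filter.1 (mem_coe.1 hp)
      obtain ⟨⟨m1, m2, m3⟩, ⟨n1, n2, n3⟩, -⟩ := hmem p u1
      refine mem_coe.2 (mem_filter.2 ⟨Fintype.mem_piFinset.2 fun i => ?_, ?_⟩)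
      · fin_cases i
        · exact mul_mem_mul m1 n1
        · exact mul_mem_mul m2 n2
        · exact mul_mem_mul m3 n3
      · rw [Fin.sum_univ_three]
        exact u2
    · obtain ⟨⟨m1, m2, m3⟩, ⟨n1, n2, n3⟩, -⟩ := hmem p (mem_filter.1 (mem_coe.1 hp)).1
      obtain ⟨⟨m1', m2', m3'⟩, ⟨n1', n2', n3'⟩, -⟩ := hmem q (mem_filter.1 (mem_coe.1 hq)).1
      have y1 := inj_XWin k1 m1 n1 m1' n1' (congrFun e 0)
      have y2 := inj_XWin k2 m2 n2 m2' n2' (congrFun e 1)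
      have y3 := inj_XWin k3 m3 n3 m3' n3' (congrFun e 2)
      exact Prod.ext (Prod.ext (Prod.ext y1.1 y2.1) y3.1) (Prod.ext (Prod.ext y1.2 y2.2) y3.2)
  have c3 : (Z.card : ℝ) ≤ (Z.image f).card * (rm ![X1 * Γ1, X2 * Γ2, A * Γ3] T : ℝ) := by
    exact_mod_cast c2
  have r0 : (0 : ℝ) ≤ (rm ![X1 * Γ1, X2 * Γ2, A * Γ3] T : ℝ) := Nat.cast_nonneg _
  have d2 := mul_le_mul_of_nonneg_left c3 hW'.le
  have d3 := mul_le_mul_of_nonneg_right (c1.trans (add_le_add_right hWS _)) r0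
  nlinarith

end Pool.Agent.MP_2876a2_nt.Tu.Z

end

noncomputable section
open Finset Filter
open scoped Pointwise


namespace Pool.Agent.MP_2876a2_nt.Tu.Z

theorem theta_XKey6 {S η n q p : ℝ} (hη : 0 < η) (hη1 : η ≤ 1) (hn : 0 ≤ n) (hq : 0 ≤ q) (hp : 0 ≤ p)
    (h1 : n * q ≤ S) (h2 : S ≤ (1 + η) * (n * q)) (h3 : 1 ≤ η * q) (h4 : 1 ≤ η * p) :
    S - 2 * η * S ≤ n * (q + 1) * (p / (p + 1)) ∧ n * (q + 1) * (p / (p + 1)) ≤ S + η * S := by
  have a0 : 0 ≤ n * q := mul_nonneg hn hq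
  have a1 := mul_le_mul_of_nonneg_left h1 hη.le
  have a2 := mul_le_mul_of_nonneg_left h3 hn
  have a3 : (1 - η) * S ≤ n * (q + 1) := by linarith
  have a4 : n * (q + 1) ≤ S + η * S := by linarith
  have b1 : p / (p + 1) ≤ 1 := (div_le_one (by linarith)).2 (by linarith)
  have b2 : 1 - η ≤ p / (p + 1) := (le_div_iff₀ (by linarith)).2 (by linarith)
  have c0 : 0 ≤ n * (q + 1) := mul_nonneg hn (by linarith)
  have c1 := mul_le_mul_of_nonneg_left b1 c0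
  have c2 := mul_le_mul a3 b2 (by linarith) c0
  have c3 : 0 ≤ η * η * S := mul_nonneg (mul_self_nonneg η) (a0.trans h1)
  constructor <;> linarith

theorem sKey6 : StKey6 := by
  intro H S W g d sd π π1 n q w η τ hη hη1 hH hd hsd hπ hq hg h1 h2 h3 h4 h5
  have hH' : (0 : ℝ) < H := by exact_mod_cast hH
  have hd' : (0 : ℝ) < d := by exact_mod_cast hd
  have hsd' : (d : ℝ) ≤ sd := by exact_mod_cast hsd
  have hsd0 : (0 : ℝ) < sd := hd'.trans_le hsd'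
  have hS0 : (0 : ℝ) ≤ S := Nat.cast_nonneg _
  have hπ0 : (0 : ℝ) ≤ π := Nat.cast_nonneg _
  have hπ' : (π : ℝ) + 1 = H * d * W * π1 := by exact_mod_cast hπ
  have hq' : (q : ℝ) + 1 = sd * W * π1 * w := by exact_mod_cast hq
  obtain ⟨t1, t2⟩ := theta_XKey6 hη hη1 (Nat.cast_nonneg n) (Nat.cast_nonneg q) hπ0
    (by exact_mod_cast h1 : (n : ℝ) * q ≤ S) (by exact_mod_cast h2) h3 h4
  have e1 : (π : ℝ) * w * n = H * (d / sd) * (n * (q + 1) * (π / (π + 1))) := by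
    have e2 : ((q : ℝ) + 1) * (H * d) = sd * w * (π + 1) := by rw [hπ', hq']; ring
    have e3 : (π : ℝ) + 1 ≠ 0 := by linarith
    field_simp
    linear_combination (-(π : ℝ) * n) * e2
  have r1 : (d : ℝ) / sd ≤ 1 := (div_le_one hsd0).2 hsd'
  have r0 : (0 : ℝ) ≤ H * (d / sd) := by positivity
  obtain ⟨s1, s2⟩ := abs_le.1 h5
  have s3 := mul_le_mul_of_nonneg_left s1 hH'.le
  have s4 := mul_le_mul_of_nonneg_left s2 hH'.le
  have s5 : τ * H - η * H ≤ H * ((d : ℝ) / sd) := by linarith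
  have s6 : H * ((d : ℝ) / sd) ≤ τ * H + η * H := by linarith
  have s7 : H * ((d : ℝ) / sd) ≤ H := by linarith [mul_le_mul_of_nonneg_left r1 hH'.le]
  have u1 := mul_le_mul_of_nonneg_left t1 r0
  have u2 := mul_le_mul_of_nonneg_left t2 r0
  rw [← e1] at u1 u2
  generalize (H : ℝ) * (d / sd) = ρ at *
  have v1 := mul_le_mul_of_nonneg_right s5 hS0
  have v2 := mul_le_mul_of_nonneg_right s6 hS0
  have v3 := mul_le_mul_of_nonneg_right s7 (mul_nonneg hη.le hS0)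
  have v5 : 0 ≤ η * H * S := by positivity
  refine ⟨?_, ?_⟩
  · rw [← ZMod.natCast_eq_natCast_iff]
    have f3 := (ZMod.natCast_eq_natCast_iff _ _ _).2 hg
    have f5 := congrArg (Nat.cast : ℕ → ZMod W) hπ
    have f6 := congrArg (Nat.cast : ℕ → ZMod W) hq
    push_cast at f3 f5 f6 ⊢
    rw [ZMod.natCast_self, mul_zero, zero_mul] at f5
    rw [ZMod.natCast_self, mul_zero, zero_mul, zero_mul] at f6
    linear_combination (w * n : ZMod W) * f5 - (w * n : ZMod W) * f6 + (w : ZMod W) * f3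
  · push_cast
    rw [abs_le]
    constructor <;> linarith

end Pool.Agent.MP_2876a2_nt.Tu.Z

end
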