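import Pool.Agent.MP_2876a2_nt.Tu.Fin5
import Pool.Agent.MP_2876a2_nt.Tu.X1
import Pool.Agent.MP_2876a2_nt.Tu.X2
import Pool.Agent.MP_2876a2_nt.Tu.Main6

/-!
Infinitely many pairwise coprime feebly amicable `k`-tuples for every `k ≥ 3`.
-/

set_option autoImplicit false

open Finset Filter

namespace Pool.Agent.MP_2876a2_nt.Tu.Z

theorem aSprP : StSprP := sSprP aProd sMul

theorem aZ : StZ := sZ aProd sMul sSlow sSel1 (sEg aProd aSprP) aSprP sMx0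
  (sMx sMx0 sLS sCov sPrim) (sZ1 sMx0) (sZ2 sMx0)

theorem aS3 : StS3 := sS3 (sDec6 aProd sMul sSlow sSel6 (sBil sCS (sH sH1) V.sNum3))
  (sEg6 aProd sMul)

theorem aNice6 : StNice6 := sNice6 aTh (sDep (sBad aBox sVec1 sLg) (sSched sBd sDv))
  (sGap aBox sVec2 sLg sPath) (sCl sPath aAn (sStr sDiv))

theorem aBlk6 : StBlk6 := sBlk6 (sFib sPsi sGr (sAz aAn) aCard aDq) (sAz aAn) aCard
  (sBlkA5 sCore sNs5 aSp5) (sAsm5 sDiv) sNumZ (sSz aDq) sSpr6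

theorem aAdm6 : StAdm6 := sAdm6 aNice6 (sPo1 aAn) (sPo2 aCard) aBlk6

theorem coprime_triples :
    Set.Infinite {Z : Finset ℕ | Z.card = 3 ∧ (∀ n ∈ Z, 0 < n) ∧
      (Z : Set ℕ).Pairwise Nat.Coprime ∧
      ∑ n ∈ Z, (n : ℚ) / ((ArithmeticFunction.sigma 1 n : ℕ) : ℚ) = 1} := by
  refine Set.Infinite.of_image (fun Z => Z.sup id) (Set.infinite_of_forall_exists_gt fun M => ?_)
  obtain ⟨Z, h1, h2, h3, h4, n, hn, h5⟩ := pc6 (sER (sER1 aA2 (sRound aBM)))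
    (sExt6 aAdm5 sTol6 sDC) aAdm5 aAdm6 aZ aS3 sMn
    (sDiff6 sFour2 (V.sAp3 (V.sMas3 sIn V.sGs))) (sPi aTh) (sAvg (sGw V.sBT3 sTot)) sBigS
    (sGam2 aZ sGam aProd aSprP) sLoc sWin sKey6 aProd sMul sTail (sKak sK1 (sK2 aTh)) sEnd M
  exact ⟨Z.sup id, ⟨Z, ⟨h1, h2, h3, h4⟩, rfl⟩, h5.trans_le (le_sup (f := id) hn)⟩

theorem coprime_tuples6 (k : ℕ) (hk : 3 ≤ k) :
    Set.Infinite {Z : Finset ℕ | Z.card = k ∧ (∀ n ∈ Z, 0 < n) ∧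
      (Z : Set ℕ).Pairwise Nat.Coprime ∧
      ∑ n ∈ Z, (n : ℚ) / ((ArithmeticFunction.sigma 1 n : ℕ) : ℚ) = 1} := by
  rcases hk.eq_or_lt with rfl | h
  · exact coprime_triples
  · exact coprime_tuples5 k h

end Pool.Agent.MP_2876a2_nt.Tu.Z
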