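import Pool.Agent.MP_2876a2_nt.Tu.St

set_option autoImplicit false

open Finset Filter
open scoped Pointwise

noncomputable section

namespace Pool.Agent.MP_2876a2_nt.Tu

theorem two_pow_dvd_Main {s : ℕ → ℕ} (h : ∀ i, 2 ∣ s i) (J : ℕ) : 2 ^ J ∣ ∏ i ∈ range J, s i := by
  induction J with
  | zero => simp
  | succ J ih => rw [prod_range_succ, pow_succ]; exact mul_dvd_mul ih (h J)

theorem card_ge_Main {A : Finset ℕ} {N S M : ℕ} (h : Blk A N S) (hM : M ^ 2 ≤ S) :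
    M ≤ A.card := by
  rcases Nat.eq_zero_or_pos M with rfl | hM0
  · exact Nat.zero_le _
  have h1 : M ^ 1000 ≤ A.card ^ 1000 := by
    calc M ^ 1000 ≤ M ^ (2 * 501) := Nat.pow_le_pow_right hM0 (by omega)
      _ = (M ^ 2) ^ 501 := pow_mul _ _ _
      _ ≤ S ^ 501 := Nat.pow_le_pow_left hM _
      _ ≤ _ := h.big
  exact (Nat.pow_le_pow_iff_left (by norm_num)).1 h1

theorem sMain (hS : StSeq) (hP : StProd) (hD : StDec) (hR : StRep) (hC : StCo) : StMain := by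
  obtain ⟨B, N, s, hq⟩ := hS
  obtain ⟨Y0, hY⟩ := hD B N s hq
  obtain ⟨k, W, ε, hk, hW, hε, hrep⟩ := hR Y0
  refine ⟨W * k, by positivity, fun n hn ρ hρ0 hρ1 M => ?_⟩
  obtain ⟨M1, hM1⟩ := hrep (n * W) (by positivity) (Dvd.intro_left _ rfl)
  have hL : 0 < W * ρ.den := Nat.mul_pos hW ρ.den_pos
  have hco := fun i : ℕ => hC N (fun i => (hq.blk i).sqf.ne_zero) hq.od hq.thin
    (max 2 (i * (ε / 2))) (ε / 2) (W * ρ.den) (le_max_left _ _) (by positivity) hL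
  choose c e hc0 hcc hcl hcd using hco
  have hρ0' : (0 : ℝ) < ρ := by exact_mod_cast hρ0
  have hρ1' : (ρ : ℝ) ≤ 1 := by exact_mod_cast hρ1
  set G := n * W with hG
  have hG0 : 0 < G := by positivity
  set I := ⌊(G * k / ρ : ℝ) / (ε / 2)⌋₊ with hI
  set J := (range (I + 1)).sup e + M1 ^ 2 + 3 * M + 1 with hJ
  obtain ⟨hA, hA'⟩ := hP B N s hq (range J)
  set A := ∏ i ∈ range J, B i
  set S := ∏ i ∈ range J, s i with hSd
  have h2 : 2 ^ J ∣ S := two_pow_dvd_Main hq.ev J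
  have hS0 : 0 < S := hA.s_pos
  have hJS : J < S := (Nat.lt_two_pow_self).trans_le (Nat.le_of_dvd hS0 h2)
  obtain ⟨T0, hT1, hT2, hT⟩ := hM1 A S hS0 (card_ge_Main hA (by omega))
    (fun a ha => (hA' a ha).2) (hY J)
  have hS0' : (0 : ℝ) < S := by exact_mod_cast hS0
  set t : ℝ := G * T0 / (ρ * S) with ht
  have hT1' : (T0 : ℝ) ≤ k * S := by exact_mod_cast hT1
  have hT2' : (k : ℝ) * S ≤ 3 * T0 := by exact_mod_cast hT2
  have hk' : (6 : ℝ) ≤ k := by exact_mod_cast hk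
  have hG' : (1 : ℝ) ≤ G := by exact_mod_cast hG0
  have ht2 : 2 ≤ t := by
    rw [ht, le_div_iff₀ (by positivity)]
    have h3 : 2 * S ≤ (T0 : ℝ) := by nlinarith
    have h4 : (ρ : ℝ) * S ≤ S := mul_le_of_le_one_left hS0'.le hρ1'
    nlinarith
  have ht3 : t ≤ G * k / ρ := by
    rw [ht, div_le_div_iff₀ (by positivity) hρ0']
    have : (G : ℝ) * ρ * T0 ≤ G * ρ * (k * S) := mul_le_mul_of_nonneg_left hT1' (by positivity)
    nlinarith
  set i := ⌊t / (ε / 2)⌋₊ with hi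
  have hε2 : 0 < ε / 2 := by positivity
  have hiI : i ≤ I := Nat.floor_le_floor (div_le_div_of_nonneg_right ht3 hε2.le)
  have hi1 : i * (ε / 2) ≤ t :=
    (le_div_iff₀ hε2).1 (Nat.floor_le (div_nonneg (by linarith) hε2.le))
  have hi2 : t < (i + 1) * (ε / 2) := (div_lt_iff₀ hε2).1 (Nat.lt_floor_add_one _)
  have hcl' : |(sg (c i) : ℝ) / c i - t| ≤ ε := by
    have h3 := abs_le.1 (hcl i)
    have h4 : max 2 (i * (ε / 2)) ≤ t := max_le ht2 hi1
    have h5 := le_max_right 2 (i * (ε / 2))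
    rw [abs_le]
    constructor <;> linarith [h3.1, h3.2]
  have he : e i ≤ J := by
    have : e i ≤ (range (I + 1)).sup e := le_sup (mem_range.2 (by omega))
    omega
  obtain ⟨x, hx⟩ := hcd i S ((pow_dvd_pow 2 he).trans h2)
  have hci : (0 : ℝ) < c i := by exact_mod_cast hc0 i
  have hnum : ((ρ.num.toNat : ℕ) : ℚ) = ρ * ρ.den := by
    have h3 : ((ρ.num.toNat : ℕ) : ℤ) = ρ.num := Int.toNat_of_nonneg (Rat.num_nonneg.2 hρ0.le)
    rw [Rat.mul_den_eq_num]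
    exact_mod_cast h3
  have hnum' : ((ρ.num.toNat : ℕ) : ℝ) = ρ * ρ.den := by exact_mod_cast hnum
  have hx' : (sg (c i) : ℝ) * S = W * ρ.den * c i * x := by exact_mod_cast hx
  obtain ⟨Z, hZA, hZc, hZs⟩ := hT (W * (ρ.num.toNat * x)) (Dvd.intro _ rfl) (by
    have h3 : ((W * (ρ.num.toNat * x) : ℕ) : ℝ) - G * T0 =
        ρ * S * ((sg (c i) : ℝ) / c i - t) := by
      push_cast
      rw [hnum', ht]
      field_simp
      linear_combination (-(ρ : ℝ)) * hx'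
    rw [h3, abs_mul, abs_of_pos (by positivity : (0 : ℝ) < ρ * S)]
    have h4 : (ρ : ℝ) * S ≤ S := mul_le_of_le_one_left hS0'.le hρ1'
    calc _ ≤ S * ε := mul_le_mul h4 hcl' (abs_nonneg _) hS0'.le
      _ = _ := mul_comm _ _)
  have hinj : Function.Injective fun z => c i * z := fun a b h => Nat.eq_of_mul_eq_mul_left (hc0 i) h
  refine ⟨Z.image fun z => c i * z, sg (c i) * S, ?_, ?_, ?_⟩
  · rw [card_image_of_injective _ hinj, hZc, hG, mul_assoc]
  · intro z hz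
    obtain ⟨a, ha, rfl⟩ := mem_image.1 hz
    have ha' := hZA ha
    constructor
    · have h3 := (hA' a ha').2.2
      have h4 : a ≤ c i * a := Nat.le_mul_of_pos_left _ (hc0 i)
      omega
    · have h3 : (c i).Coprime a :=
        Nat.Coprime.coprime_dvd_right (hA.dvd a ha') (Nat.Coprime.prod_right fun l _ => hcc i l)
      rw [← hA.sig a ha']
      exact ArithmeticFunction.isMultiplicative_sigma.map_mul_of_coprime h3
  · rw [sum_image fun a _ b _ h => hinj h, ← mul_sum, hZs, hx]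
    push_cast
    rw [hnum]
    ring

theorem harm (hM : StMain) (hP : StPad) : ∃ k0 : ℕ, ∀ k : ℕ, k0 ≤ k →
    Set.Infinite {Z : Finset ℕ | Z.card = k ∧ (∀ n ∈ Z, 0 < n) ∧ Z.gcd id = 1 ∧
      ∑ n ∈ Z, (n : ℚ) / ((ArithmeticFunction.sigma 1 n : ℕ) : ℚ) = 1} := by
  obtain ⟨k0, hk0, h⟩ := hM
  refine ⟨k0 + 2, fun k hk => ?_⟩
  obtain ⟨D, hD1, hD2, hD3, hD4⟩ := hP (k - k0) (by omega)
  set τ := ∑ n ∈ D, (n : ℚ) / (sg n : ℚ) with hτ
  have hτ0 : 0 ≤ τ := sum_nonneg fun n _ => by positivity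
  refine Set.Infinite.of_image (fun Z => Z.sup id) (Set.infinite_of_forall_exists_gt fun M => ?_)
  obtain ⟨Z, v, h1, h2, h3⟩ := h 1 one_pos (1 - τ) (by linarith) (by linarith) (M + D.sup id)
  have hd : Disjoint Z D := disjoint_left.2 fun z hz hz' => by
    have h4 := (h2 z hz).1
    have h5 : id z ≤ D.sup id := le_sup hz'
    simp only [id] at h5
    omega
  obtain ⟨z0, hz0⟩ : Z.Nonempty := card_pos.1 (by omega)
  have hv : 0 < v := by
    rw [← (h2 z0 hz0).2]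
    exact ArithmeticFunction.sigma_pos 1 z0 (by have := (h2 z0 hz0).1; omega)
  refine ⟨(Z ∪ D).sup id, ⟨Z ∪ D, ⟨?_, ?_, ?_, ?_⟩, rfl⟩, ?_⟩
  · rw [card_union_of_disjoint hd]
    omega
  · intro n hn
    rcases mem_union.1 hn with h4 | h4
    · have := (h2 n h4).1
      omega
    · exact hD2 n h4
  · exact Nat.dvd_one.1 (hD3 ▸ gcd_mono subset_union_right)
  · rw [sum_union hd, sum_congr rfl fun z hz => by rw [show ArithmeticFunction.sigma 1 z = v from
      (h2 z hz).2], ← sum_div]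
    push_cast at h3
    have hv' : (v : ℚ) ≠ 0 := by exact_mod_cast hv.ne'
    rw [h3, mul_div_cancel_right₀ _ hv']
    exact sub_add_cancel _ _
  · have h4 := (h2 z0 hz0).1
    have h5 : id z0 ≤ (Z ∪ D).sup id := le_sup (mem_union_left _ hz0)
    simp only [id] at h5 ⊢
    omega

theorem dick (hM : StMain) : ∃ k0 : ℕ, 0 < k0 ∧ ∀ k : ℕ, 0 < k → k0 ∣ k →
    Set.Infinite {Z : Finset ℕ | Z.card = k ∧
      ∀ n ∈ Z, 0 < n ∧ ArithmeticFunction.sigma 1 n = ∑ m ∈ Z, m} := by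
  obtain ⟨k0, hk0, h⟩ := hM
  refine ⟨k0, hk0, fun k hk ⟨n, hn⟩ => ?_⟩
  have hn0 : 0 < n := Nat.pos_of_ne_zero (by rintro rfl; omega)
  refine Set.Infinite.of_image (fun Z => Z.sup id) (Set.infinite_of_forall_exists_gt fun M => ?_)
  obtain ⟨Z, v, h1, h2, h3⟩ := h n hn0 1 one_pos le_rfl M
  rw [one_mul, Nat.cast_inj] at h3
  have hc : Z.card = k := by rw [h1, hn, mul_comm]
  obtain ⟨z0, hz0⟩ : Z.Nonempty := card_pos.1 (by omega)
  refine ⟨Z.sup id, ⟨Z, ⟨hc, fun z hz => ⟨by have := (h2 z hz).1; omega, ?_⟩⟩, rfl⟩, ?_⟩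
  · rw [h3]
    exact (h2 z hz).2
  · exact (h2 z0 hz0).1.trans_le (le_sup (f := id) hz0)

end Pool.Agent.MP_2876a2_nt.Tu
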