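import Pool.Agent.MP_2876a2_nt.Tu.Fin2
import Pool.Agent.MP_2876a2_nt.Tu.D1
import Pool.Agent.MP_2876a2_nt.Tu.Main

/-!
Infinitely many amicable `k`-tuples in the sense of Dickson for suitable fixed `k`.
-/

set_option autoImplicit false

namespace Pool.Agent.MP_2876a2_nt.Tu

theorem aMain : StMain :=
  sMain (sSeq (sBlock (sFib sPsi) sCore) (sPool aA) sSlow) (sProd sMul)
    (sDec (sProd sMul) sMul sSel sGcd (sBil sCS (sH sH1) sNum))
    (sRep (sUp sFour aAp) (sDiff sFour aAp) sPop sInj sGrp) (sCo sCof sTwo)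

theorem dickson : ∃ k0 : ℕ, 0 < k0 ∧ ∀ k : ℕ, 0 < k → k0 ∣ k →
    Set.Infinite {Z : Finset ℕ | Z.card = k ∧
      ∀ n ∈ Z, 0 < n ∧ ArithmeticFunction.sigma 1 n = ∑ m ∈ Z, m} := dick aMain

end Pool.Agent.MP_2876a2_nt.Tu
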