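import Pool.Agent.MP_2876a2_nt.Tu.St6
import Pool.Agent.MP_2876a2_nt.Tu.Main4

set_option autoImplicit false

open Finset Filter
open scoped Pointwise

noncomputable section

namespace Pool.Agent.MP_2876a2_nt.Tu.Z

theorem admQ_mono_M6 {j : ℕ} {Q Q' : (ℕ → Finset ℕ) → Finset ℕ → Prop} (h : AdmQ j Q)
    (h' : ∀ B Ψ, Q B Ψ → Q' B Ψ) : AdmQ j Q' := fun Φ hΦ => by
  obtain ⟨B, N, s, Ψ, h1, h2, h3, h4, h5⟩ := h Φ hΦ
  exact ⟨B, N, s, Ψ, h1, h2, h3, h4, h' _ _ h5⟩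

theorem two_Z_M6 (hZ : StZ) {j0 D : ℕ} (hj : 50 ^ 4 ≤ j0) (hD : 0 < D) {c : ℕ → ℕ}
    (hc : ∀ i < 3, 0 < c i ∧ c i ≤ D) : ∃ Y0 : ℝ, ∀ Y : ℕ, Y0 ≤ Y →
    ∀ (B : ℕ → ℕ → Finset ℕ) (N : ℕ → ℕ → ℕ) (s : ℕ → ℕ), SM 3 j0 B N s → ∀ t0 : ℕ,
      (Y : ℝ) ^ 2 ≤ ((D * ∏ t ∈ range t0, s t : ℕ) : ℝ) → ∃ Z : ℕ → ℝ, (∀ e, 0 ≤ Z e) ∧
        ∑ e ∈ Icc 1 (2 * Y), Z e ≤ 2 * (Y : ℝ) ^ (1 / 4 : ℝ) ∧
        ∀ (B' : ℕ → ℕ → Finset ℕ) (N' : ℕ → ℕ → ℕ) (s' : ℕ → ℕ), SM 3 j0 B' N' s' →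
          (∀ i < 3, ∀ t, Spr (B' i t)) → (∀ t < t0, s' t = s t ∧ ∀ i, B' i t = B i t) →
          ∀ J, t0 ≤ J →
            ZB ((∏ t ∈ range J, B' 0 t).image fun a => c 0 * a) (D * ∏ t ∈ range J, s' t) Y Z ∧
            ZB ((∏ t ∈ range J, B' 1 t).image fun a => c 1 * a) (D * ∏ t ∈ range J, s' t) Y Z := by
  obtain ⟨Y0, h0⟩ := eventually_atTop.1 (hZ j0 D hj hD)
  refine ⟨Y0, fun Y hY B N s hS t0 ht => ?_⟩
  obtain ⟨Z0, a1, a2, a3⟩ := h0 Y hY (B 0) (N 0) s (hS.one 0 (by omega)) t0 ht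
  obtain ⟨Z1, b1, b2, b3⟩ := h0 Y hY (B 1) (N 1) s (hS.one 1 (by omega)) t0 ht
  have e : ⌊2 * (Y : ℝ)⌋₊ = 2 * Y := by
    rw [show (2 : ℝ) * Y = ((2 * Y : ℕ) : ℝ) by push_cast; ring, Nat.floor_natCast]
  rw [e] at a2 b2
  refine ⟨fun e => Z0 e + Z1 e, fun e => add_nonneg (a1 e) (b1 e), by
    rw [sum_add_distrib]; linarith, fun B' N' s' hS' hp hs J hJ => ⟨?_, ?_⟩⟩
  · exact (a3 (B' 0) (N' 0) s' (hS'.one 0 (by omega)) (hp 0 (by omega))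
      (fun t ht => ⟨(hs t ht).2 0, (hs t ht).1⟩) (c 0) J (hc 0 (by omega)).1 (hc 0 (by omega)).2
      hJ).2.mono fun e => le_add_of_nonneg_right (b1 e)
  · exact (b3 (B' 1) (N' 1) s' (hS'.one 1 (by omega)) (hp 1 (by omega))
      (fun t ht => ⟨(hs t ht).2 1, (hs t ht).1⟩) (c 1) J (hc 1 (by omega)).1 (hc 1 (by omega)).2
      hJ).2.mono fun e => le_add_of_nonneg_left (a1 e)

theorem mulq_M6 {B : ℕ → Finset ℕ} {Bs I : Finset ℕ} {t q : ℕ} (ht : t ∈ I)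
    (h : ∀ b ∈ Bs, b * q ∈ B t) {b : ℕ} (hb : b ∈ ∏ i ∈ I, Function.update B t Bs i) :
    b * q ∈ ∏ i ∈ I, B i := by
  rw [prod_update_of_mem ht] at hb
  obtain ⟨b1, h1, b2, h2, rfl⟩ := Finset.mem_mul.1 hb
  rw [← mul_prod_erase I B ht, mul_right_comm, ← sdiff_singleton_eq_erase]
  exact mul_mem_mul (h b1 h1) h2

theorem ev_q0_M6 : ∀ᶠ q0 : ℕ in atTop, 80 * (q0 : ℝ) ^ (-(1 / 10) : ℝ) ≤ 1 / 832 := by
  have h := ((tendsto_rpow_neg_atTop (show (0 : ℝ) < 1 / 10 by norm_num)).comp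
    tendsto_natCast_atTop_atTop).const_mul 80
  rw [mul_zero] at h
  exact h.eventually_le_const (by norm_num)

theorem pos_M6 {Pi S r r' M E x y : ℝ} (hP : 0 < Pi) (hS : 0 < S) (h1 : M * Pi ≤ S * r')
    (h2 : |r - r'| ≤ (2 * (E + x) + y) * Pi / S) (h3 : 2 * E + 1 / 52 / 4 ≤ M)
    (h4 : 2 * x ≤ 1 / 832) (h5 : y ≤ 1 / 832) : 0 < r := by
  have h6 : M * Pi / S ≤ r' := by rw [div_le_iff₀ hS]; linarith
  have h7 : (2 * (E + x) + y) * Pi / S < M * Pi / S :=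
    div_lt_div_of_pos_right (mul_lt_mul_of_pos_right (by linarith) hP) hS
  linarith [(abs_le.1 h2).1]

theorem eta_M6 {C x : ℝ} (hC : 0 ≤ C) (hx : 0 < x) :
    ∃ η : ℝ, 0 < η ∧ η ≤ 1 / 32 ∧ C * (6 * η) * x ≤ 1 / 832 := by
  refine ⟨min (1 / 32) (1 / (832 * (6 * (C + 1) * x))),
    lt_min (by norm_num) (by positivity), min_le_left _ _, ?_⟩
  have h1 := (le_div_iff₀ (by positivity)).1
    (min_le_right (1 / 32 : ℝ) (1 / (832 * (6 * (C + 1) * x))))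
  have h2 : (0 : ℝ) ≤ min (1 / 32 : ℝ) (1 / (832 * (6 * (C + 1) * x))) * x := by positivity
  nlinarith

theorem loc_M6 {D H1 H3 a x1 x2 : ℕ} (a2 : a ≤ H3) (a3 : 2 * D * H3 ≤ (2 * D + 1) * a)
    (b1 : 6 * x1 ≤ D * H1 * H3) (b2 : H1 * H3 ≤ 3 * x1) (c1 : 6 * x2 ≤ D * H1 * H3)
    (c2 : H1 * H3 ≤ 3 * x2) : D * H1 * a ≤ D * H1 * H3 ∧
      2 * (x1 + x2) ≤ D * H1 * H3 ∧ D * H1 * H3 ≤ x1 + x2 + D * H1 * a := by
  refine ⟨Nat.mul_le_mul_left _ a2, by omega, ?_⟩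
  have d1 := Nat.mul_le_mul_left H1 a3
  have d2 := Nat.mul_le_mul_left H1 a2
  nlinarith

theorem rat_M6 {D H a : ℕ} {x : ℝ} (hD : 0 < D) (h3 : (H : ℝ) ≤ x * a) (hx : x ≤ 1 + 1 / (2 * D)) :
    2 * D * H ≤ (2 * D + 1) * a := by
  have hD' : (0 : ℝ) < D := by exact_mod_cast hD
  have h4 : (H : ℝ) ≤ (1 + 1 / (2 * D)) * a :=
    h3.trans (mul_le_mul_of_nonneg_right hx (Nat.cast_nonneg _))
  have h5 : (2 * D * H : ℝ) ≤ (2 * D + 1) * a := by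
    refine (mul_le_mul_of_nonneg_left h4 (by positivity)).trans (le_of_eq ?_)
    field_simp
  exact_mod_cast h5

theorem three_M6 {j0 a b : ℕ} (hj : 2 ≤ j0)
    (h : (a : ℝ) ≤ Real.exp (2 / ((j0 : ℝ) + (0 : ℕ))) * b) : a ≤ 3 * b := by
  exact_mod_cast h.trans (mul_le_mul_of_nonneg_right (exp_le_M4 hj) (Nat.cast_nonneg b))

theorem mu_M6 {π w σ q a m q0 : ℕ} (hπ : π ≤ 2 * 2 ^ (2 * a)) (hw : q + 1 = σ * w) (hσ : 0 < σ)
    (hq : q ≤ 2 * 2 ^ (100 * m)) (hm : 50 ≤ m) (hq0 : 1 ≤ q0) :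
    (π * w) ^ 20 ≤ q0 * 2 ^ (20 * (2 * a + 1 + 101 * m)) := by
  have h1 : w ≤ 2 ^ (101 * m) := by
    have h2 : w ≤ σ * w := Nat.le_mul_of_pos_left _ hσ
    have h3 : 2 ^ (100 * m + 2) ≤ 2 ^ (101 * m) := Nat.pow_le_pow_right two_pos (by omega)
    have h4 : 0 < 2 ^ (100 * m) := by positivity
    rw [pow_add] at h3
    omega
  have h2 : π * w ≤ 2 ^ (2 * a + 1 + 101 * m) := by
    rw [pow_add, pow_succ']
    exact Nat.mul_le_mul hπ h1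
  refine (Nat.pow_le_pow_left h2 20).trans ?_
  rw [← pow_mul, mul_comm _ 20]
  exact Nat.le_mul_of_pos_left _ hq0

theorem avg_M6 {P η x W : ℝ} (hP : 0 < P) (hη : 0 < η) (hW : 0 ≤ W) (h : η / 4 * P ≤ x) :
    1 / 52 * W ≤ x * (W / (13 * η * P)) := by
  refine le_trans (le_of_eq ?_) (mul_le_mul_of_nonneg_right h (by positivity))
  field_simp
  ring

theorem id_M6 {κ d W π π1 q w b m1 S : ℕ} (hπ : π.Prime) (hq : q.Prime) (h1 : d.Coprime π)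
    (h2 : (d * π).Coprime m1) (h3 : q.Coprime m1) (h4 : π + 1 = κ * d * W * π1)
    (h5 : q + 1 = sg d * W * π1 * w) (h6 : sg (q * m1) * (b * q) = S * (q * m1)) :
    π * w * b * sg (d * π * m1) = κ * S * (d * π * m1) := by
  rw [sg_mul_M4 h3, sg_prime_M4 hq] at h6
  have h7 : (q + 1) * sg m1 * b = S * m1 := Nat.eq_of_mul_eq_mul_right hq.pos (by linarith)
  rw [sg_mul_M4 h2, sg_mul_M4 h1, sg_prime_M4 hπ, h4]
  rw [h5] at h7
  calc π * w * b * (sg d * (κ * d * W * π1) * sg m1) =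
        π * κ * d * (sg d * W * π1 * w * sg m1 * b) := by ring
    _ = _ := by rw [h7]; ring

theorem sz_M6 {D κ H3 S μ a b X : ℕ} {τ η : ℝ} (hD : 0 < D) (h1 : 2 * D * H3 ≤ (2 * D + 1) * a)
    (h2 : a * b ≤ X) (h3 : X ≤ 3 * (a * b)) (h4 : μ * (a * b) ≤ κ * H3 * S)
    (h5 : |((μ * b : ℕ) : ℝ) - τ * κ * S| ≤ 4 * η * κ * S) (hτ : 1 / 2 ≤ τ) (hη : η ≤ 1 / 32) :
    μ * X ≤ 4 * (κ * H3 * S) ∧ κ * H3 * S ≤ 4 * (μ * X) := by
  have h7 := (abs_le.1 h5).1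
  have h8 : 2 * H3 ≤ 3 * a := by
    refine Nat.le_of_mul_le_mul_left (c := D) ?_ hD
    nlinarith
  have h9 : 3 * (κ * S) ≤ 8 * (μ * b) := by
    have h10 : (0 : ℝ) ≤ (κ : ℝ) * S := by positivity
    have h11 : (3 : ℝ) * ((κ : ℝ) * S) ≤ 8 * ((μ * b : ℕ) : ℝ) := by nlinarith
    exact_mod_cast h11
  refine ⟨(Nat.mul_le_mul_left _ h3).trans (by nlinarith), ?_⟩
  have h12 := Nat.mul_le_mul h8 h9
  have h13 := Nat.mul_le_mul_left μ h2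
  nlinarith

theorem win_M6 {H S T : ℕ} {η : ℝ} (hη : η ≤ 1 / 32) (h : |(T : ℝ) - H * S| ≤ 6 * η * H * S) :
    T ≤ 3 * (H * S) ∧ |((H * S : ℕ) : ℝ) - T| ≤ 6 * η * (H * S : ℕ) := by
  have h1 := (abs_le.1 h).2
  have h5 : (0 : ℝ) ≤ (H : ℝ) * S := by positivity
  have h4 : (T : ℝ) ≤ 3 * ((H : ℝ) * S) := by nlinarith
  refine ⟨by exact_mod_cast h4, ?_⟩
  rw [abs_sub_comm, Nat.cast_mul, ← mul_assoc]
  exact h

theorem low_M6 {a x1 x2 g1 g2 g3 c1 c2 c3 H S : ℕ} {N W η r : ℝ}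
    (hP : (0 : ℝ) < a * x1 * x2) (hη : 0 < η) (e1 : c1 = x1 * g1) (e2 : c2 = x2 * g2)
    (e3 : c3 = a * g3) (h : N * (g1 * g2 * g3) * W ≤ 13 * η * H * S * r) :
    N * (W / (13 * η * (a * x1 * x2))) * ((c1 : ℝ) * c2 * c3) ≤ (H * S : ℕ) * r := by
  have h1 : (a : ℝ) ≠ 0 := fun h => by simp [h] at hP
  have h2 : (x1 : ℝ) ≠ 0 := fun h => by simp [h] at hP
  have h3 : (x2 : ℝ) ≠ 0 := fun h => by simp [h] at hP
  rw [e1, e2, e3]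
  refine le_of_mul_le_mul_left (a := 13 * η) ?_ (by positivity)
  refine le_trans (le_of_eq ?_) (h.trans (le_of_eq ?_))
  · push_cast
    field_simp
  · push_cast
    ring

theorem dN_M6 {j0 D Z0 d : ℕ} {B : ℕ → Finset ℕ} {N s : ℕ → ℕ} (h : S1 j0 B N s) (hd : 0 < d)
    (hj : D + Z0 ≤ lev j0) (hdp : ∀ p ∈ d.primeFactors, D < p ∧ (p ≤ Z0 ∨ Rsv p)) (I : Finset ℕ) :
    d.Coprime (∏ t ∈ I, N t) :=
  Nat.Coprime.prod_right fun t _ => Nat.coprime_of_dvd fun p hp h1 h2 => by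
    have h3 := big_M4 (u := 0) h (Nat.zero_le t) hp h2
    rw [add_zero] at h3
    rcases (hdp p (Nat.mem_primeFactors.2 ⟨hp, h1, hd.ne'⟩)).2 with h4 | h4
    · omega
    · exact ((h.one t).prm p (Nat.mem_primeFactors.2 ⟨hp, h2, (h.one t).blk.sqf.ne_zero⟩)).2.2 h4

theorem piN_M6 {j0 t2 a π : ℕ} {B : ℕ → Finset ℕ} {N s : ℕ → ℕ} (h : S1 j0 B N s) (hπ : π.Prime)
    (h1 : 2 ^ (2 * a) < π) (ha : 101 * lev (j0 + t2) ≤ a)
    (h2 : ∀ t, t2 ≤ t → π ∉ (N t).primeFactors) (I : Finset ℕ) : π.Coprime (∏ t ∈ I, N t) :=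
  Nat.Coprime.prod_right fun t _ => hπ.coprime_iff_not_dvd.2 fun h3 => by
    have h4 := Nat.mem_primeFactors.2 ⟨hπ, h3, (h.one t).blk.sqf.ne_zero⟩
    rcases lt_or_ge t t2 with ht | ht
    · have h5 := ((h.one t).prm π h4).2.1
      have h6 : 2 ^ (101 * lev (j0 + t)) ≤ 2 ^ (2 * a) := by
        have := Nat.mul_le_mul_left 101 (lev_mono (show j0 + t ≤ j0 + t2 by omega))
        exact Nat.pow_le_pow_right two_pos (by omega)
      omega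
    · exact h2 t ht h4

theorem upd_M6 {j0 t3 Ns ss : ℕ} {B : ℕ → ℕ → Finset ℕ} {N : ℕ → ℕ → ℕ} {s : ℕ → ℕ}
    {Ψ : ℕ → Finset ℕ} {Bs : Finset ℕ} (h : SQ j0 B N s Ψ) (h1 : B1 (j0 + t3) Bs Ns ss)
    (h2 : Sp 18 Bs) (h3 : Ns.primeFactors ⊆ Ψ t3) :
    S1 j0 (Function.update (B 2) t3 Bs) (Function.update (N 2) t3 Ns) (Function.update s t3 ss) ∧
      ∀ t, Sp 18 (Function.update (B 2) t3 Bs t) := by
  have h4 : ∀ t, B1 (j0 + t) (Function.update (B 2) t3 Bs t) (Function.update (N 2) t3 Ns t)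
      (Function.update s t3 ss t) ∧ (Function.update (N 2) t3 Ns t).primeFactors ⊆ Ψ t ∧
      Sp 18 (Function.update (B 2) t3 Bs t) := fun t => by
    by_cases ht : t = t3
    · subst ht
      simp only [Function.update_self]
      exact ⟨h1, h3, h2⟩
    · simp only [Function.update_of_ne ht]
      exact ⟨(h.sm.one 2 (by omega)).one t, h.sub 2 (by omega) t, (h.spr 2 (by omega) t).sp⟩
  refine ⟨⟨fun t => (h4 t).1, fun t t' ht => ?_⟩, fun t => (h4 t).2.2⟩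
  rw [← Nat.disjoint_primeFactors (h4 t).1.blk.sqf.ne_zero (h4 t').1.blk.sqf.ne_zero]
  exact Disjoint.mono (h4 t).2.1 (h4 t').2.1 (h.dis t t' ht)

theorem fin_M6 (hProd : StProd) (hEnd : StEnd) {c : ℕ → ℕ} {D j0 J d π St M0 : ℕ}
    {B' : ℕ → ℕ → Finset ℕ} {N' : ℕ → ℕ → ℕ} {s' : ℕ → ℕ} {A2 : Finset ℕ} (hS' : SM 3 j0 B' N' s')
    (hj : 2 ≤ j0) (hc : ∀ i < 3, 1 < c i ∧ c i ≤ D ∧ sg (c i) = D)
    (hcc : ∀ i < 3, ∀ i' < 3, i ≠ i' → (c i).Coprime (c i')) (hjD : D ≤ lev j0)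
    (eS : D * ∏ t ∈ range J, s' t = St) (hd0 : 0 < d) (hπ : π.Prime) (hπD : D < π)
    (hdD : ∀ p ∈ d.primeFactors, D < p)
    (hdN : ∀ i < 3, d.Coprime (∏ t ∈ range J, N' i t))
    (hπN : ∀ i < 3, π.Coprime (∏ t ∈ range J, N' i t))
    (hX : ∀ x ∈ A2, ∃ m1, m1 ∣ ∏ t ∈ range J, N' 2 t ∧ 0 < m1 ∧
      x * sg (d * π * m1) = St * (d * π * m1)) (hSt : 0 < St) (hM : 3 * M0 ≤ J)
    (hpos : 0 < rm ![(∏ t ∈ range J, B' 0 t).image fun a => c 0 * a,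
      (∏ t ∈ range J, B' 1 t).image fun a => c 1 * a, A2] St) :
    ∃ Z : Finset ℕ, Z.card = 3 ∧ (∀ n ∈ Z, 0 < n) ∧
      (Z : Set ℕ).Pairwise Nat.Coprime ∧ ∑ n ∈ Z, (n : ℚ) / (sg n : ℚ) = 1 ∧ ∃ n ∈ Z, M0 < n := by
  have hP2' := fun i hi => hProd j0 (B' i) (N' i) s' hj (hS'.one i hi) 0 (range J)
    fun _ _ => Nat.zero_le _
  have hc0 : ∀ i < 3, 0 < c i := fun i hi => one_pos.trans (hc i hi).1
  have hcN : ∀ i < 3, ∀ i' < 3, ∀ t, (c i).Coprime (N' i' t) := fun i hi i' hi' t =>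
    cop_small_M4 (u := 0) (hS'.one i' hi') (hc0 i hi) ((hc i hi).2.1.trans hjD) (Nat.zero_le _)
  have hNN : ∀ i < 3, ∀ i' < 3, i ≠ i' →
      (c i * ∏ t ∈ range J, N' i t).Coprime (c i' * ∏ t ∈ range J, N' i' t) := by
    intro i hi i' hi' hne
    have h1 : ∀ a < 3, ∀ b < 3, (c a).Coprime (∏ t ∈ range J, N' b t) := fun a ha b hb =>
      Nat.Coprime.prod_right fun t _ => hcN a ha b hb t
    exact Nat.Coprime.mul_left ((hcc i hi i' hi' hne).mul_right (h1 i hi i' hi'))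
      ((h1 i' hi' i hi).symm.mul_right (Nat.Coprime.prod_left fun t _ =>
        Nat.Coprime.prod_right fun t' _ => hS'.cop i hi i' hi' hne t t'))
  have hNp : ∀ i < 3, 0 < ∏ t ∈ range J, N' i t := fun i hi =>
    Nat.pos_of_ne_zero (hP2' i hi).1.sqf.ne_zero
  have hπs : ∀ i < 3, π.Coprime (c i) := fun i hi =>
    hπ.coprime_iff_not_dvd.2 fun h3 => by
      have := (Nat.le_of_dvd (hc0 i hi) h3).trans (hc i hi).2.1
      omega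
  have hdc : ∀ i < 3, d.Coprime (c i) := fun i hi => Nat.coprime_of_dvd fun p hp h1 h2 => by
    have h3 := hdD p (Nat.mem_primeFactors.2 ⟨hp, h1, hd0.ne'⟩)
    have h4 := (Nat.le_of_dvd (hc0 i hi) h2).trans (hc i hi).2.1
    omega
  obtain ⟨x, hx⟩ := card_pos.1 hpos
  obtain ⟨ha1, ha2⟩ := mem_filter.1 hx
  have hv : ∀ i < 3, ∀ y ∈ (∏ t ∈ range J, B' i t).image fun a => c i * a, ∃ v,
      v ∣ c i * ∏ t ∈ range J, N' i t ∧ 1 < v ∧ y * sg v = St * v ∧ J < 3 * v := by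
    intro i hi y hy
    obtain ⟨b, hb, rfl⟩ := mem_image.1 hy
    obtain ⟨m, h1, h2, h3⟩ := (hP2' i hi).1.sup b hb
    have h4 : 0 < m := Nat.pos_of_dvd_of_pos h2 (hNp i hi)
    have h5 : (c i).Coprime m :=
      (Nat.Coprime.prod_right fun t _ => hcN i hi i hi t).coprime_dvd_right h2
    refine ⟨c i * m, Nat.mul_dvd_mul_left _ h2,
      (hc i hi).1.trans_le (Nat.le_mul_of_pos_right _ h4), ?_, ?_⟩
    · rw [sg_mul_M4 h5, (hc i hi).2.2, ← eS]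
      calc c i * b * (D * sg m) = c i * D * (sg m * b) := by ring
        _ = _ := by rw [h3]; ring
    · have h7 := three_M6 hj ((hP2' i hi).2 b hb).2.2
      have h8 := two_pow_le_M4 (hS'.one 0 (by omega)).two_le (range J)
      have h9 : b ≤ c i * m := (Nat.le_of_dvd h4 h1).trans (Nat.le_mul_of_pos_left _ (hc0 i hi))
      rw [card_range] at h8
      omega
  obtain ⟨v0, u1, u2, u3, u4⟩ := hv 0 (by omega) (x 0) (Fintype.mem_piFinset.1 ha1 0)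
  obtain ⟨v1, w1, w2, w3, -⟩ := hv 1 (by omega) (x 1) (Fintype.mem_piFinset.1 ha1 1)
  obtain ⟨m1, y1, y2, y3⟩ := hX (x 2) (Fintype.mem_piFinset.1 ha1 2)
  have hvk : ∀ i < 2, ∀ v, v ∣ c i * ∏ t ∈ range J, N' i t → (d * π * m1).Coprime v := by
    intro i hi v h
    refine Nat.Coprime.coprime_dvd_right h (Nat.Coprime.mul_left (Nat.Coprime.mul_left
      ((hdc i (by omega)).mul_right (hdN i (by omega)))
      ((hπs i (by omega)).mul_right (hπN i (by omega)))) ?_)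
    exact (hNN 2 (by omega) i (by omega) (by omega)).coprime_dvd_left (y1.mul_left _)
  have h01 : v0.Coprime v1 :=
    ((hNN 0 (by omega) 1 (by omega) (by omega)).coprime_dvd_left u1).coprime_dvd_right w1
  have h20 := hvk 0 (by omega) v0 u1
  have h21 := hvk 1 (by omega) v1 w1
  have h2 : 1 < d * π * m1 :=
    hπ.one_lt.trans_le ((Nat.le_mul_of_pos_left _ hd0).trans (Nat.le_mul_of_pos_right _ y2))
  obtain ⟨Z, hZ1, hZ2, hZ3, hZ4, hZ5⟩ := hEnd 3 St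
    (fun i => if i = 0 then v0 else if i = 1 then v1 else d * π * m1)
    (fun i => if i = 0 then x 0 else if i = 1 then x 1 else x 2) hSt
    (fun i hi => by
      interval_cases i
      exacts [⟨u2, u3⟩, ⟨w2, w3⟩, ⟨h2, y3⟩])
    (fun i hi i' hi' hne => by
      interval_cases i <;> interval_cases i'
      exacts [absurd rfl hne, h01, h20.symm, h01.symm, absurd rfl hne, h21.symm, h20, h21,
        absurd rfl hne])
    (by
      rw [Fin.sum_univ_three] at ha2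
      simpa [sum_range_succ] using ha2)
  exact ⟨Z, hZ1, hZ2, hZ3, hZ4, v0, hZ5 0 (by omega), by omega⟩

end Pool.Agent.MP_2876a2_nt.Tu.Z
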