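import Pool.Agent.MP_2876a2_nt.Tu.St2
import Pool.Agent.MP_c903c4_nt.K.BT

/-!
Primes with smooth successor, padding and residues.
-/

set_option autoImplicit false
set_option linter.all false

noncomputable section
open Finset Filter
open scoped Pointwise


namespace Pool.Agent.MP_2876a2_nt.Tu

section

open Real Pool.Agent.MP_c903c4_nt.K
open scoped Classical

lemma cntb_BT2 (h b : ℕ) {a q : ℕ} (hq : 0 < q) (hc : a.Coprime q) :
    |(∑ i ∈ range h, if q ∣ a * i + b then (1 : ℝ) else 0) - h * (q : ℝ)⁻¹| ≤ 1 := by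
  obtain ⟨c, -, h1⟩ := Nat.exists_mul_mod_eq_of_coprime ((q - 1) * b) hc hq.ne'
  have h2 : a * c + b ≡ 0 [MOD q] := by
    have h3 := Nat.ModEq.add_right b (show a * c ≡ (q - 1) * b [MOD q] from h1)
    rw [← Nat.succ_mul, Nat.succ_eq_add_one, Nat.sub_add_cancel hq] at h3
    exact h3.trans (Nat.modEq_zero_iff_dvd.2 (dvd_mul_right q b))
  have h3 : ∀ i, q ∣ a * i + b ↔ i ≡ c [MOD q] := fun i => by
    rw [← Nat.modEq_zero_iff_dvd]
    exact ⟨fun h4 => Nat.ModEq.cancel_left_of_coprime hc.symm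
      (Nat.ModEq.add_right_cancel' b (h4.trans h2.symm)),
      fun h4 => ((h4.mul_left a).add_right b).trans h2⟩
  simp only [h3]
  rw [sum_boole, ← Nat.count_eq_card_filter_range, Nat.count_modEq_card h hq c]
  have hq' : (0 : ℝ) < q := by exact_mod_cast hq
  have h4 : ((h / q : ℕ) : ℝ) ≤ h / q := Nat.cast_div_le
  have h5 := Nat.lt_floor_add_one ((h : ℝ) / q)
  rw [Nat.floor_div_natCast, Nat.floor_natCast] at h5
  rw [← div_eq_mul_inv, abs_le]
  split_ifs <;> push_cast <;> constructor <;> linarith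

lemma gen_BT2 (a b R x : ℕ) (ha : 0 < a) (hax : a ≤ x) (hR : 2 ≤ R) :
    (((range (x / a + 1)).filter fun i => (a * i + b).Prime ∧ R < a * i + b).card : ℝ) ≤
      2 * x / (a.totient * log R) + (R : ℝ) ^ 2 := by
  set g : ℕ → ℝ := fun p => ((p : ℝ) - 1)⁻¹ ⊔ 0 with hgd
  have hg : ∀ p : ℕ, p.Prime → g p = ((p : ℝ) - 1)⁻¹ := fun p hp =>
    sup_eq_left.2 (inv_nonneg.2 (sub_nonneg.2 (by exact_mod_cast hp.pos)))
  set L := Ld_BT R a with hLd
  set G : ℝ := ∑ l ∈ L, ∏ p ∈ l, g p with hG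
  set h : ℕ := x / a + 1 with hh
  have hp : ∀ {l}, l ∈ L → ∀ {p}, p ∈ l → p.Prime ∧ p ≤ R := fun hl _ hp =>
    prime_BT (mem_filter.1 hl).1 hp
  have hR1 : (1 : ℝ) < R := by exact_mod_cast hR
  have hφ : (0 : ℝ) < a.totient := by exact_mod_cast Nat.totient_pos.2 ha
  have hlog : a.totient * log R ≤ a * G := by
    have h1 : log R ≤ ∑ l ∈ L_BT R, ∏ p ∈ l, g p := by
      refine (log_le_log (by linarith) (by push_cast; linarith)).trans ((G_BT R).trans_eq ?_)
      exact sum_congr rfl fun l hl => prod_congr rfl fun p hp => (hg p (prime_BT hl hp).1).symm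
    have h2 := mul_le_mul_of_nonneg_left (h1.trans (split_BT (fun p => le_sup_right) R ha.ne'))
      hφ.le
    rwa [← mul_assoc, prod_congr rfl fun q hq => congrArg (1 + ·)
      (hg q (Nat.prime_of_mem_primeFactors hq)), tot_BT] at h2
  have hl0 := mul_pos hφ (log_pos hR1)
  have hG0 : 0 < G := (pos_iff_pos_of_mul_pos (hl0.trans_le hlog)).1 (Nat.cast_pos.2 ha)
  have hmain := main_BT (P := (Icc 1 R).filter Nat.Prime) (ν := fun p => (p : ℝ)⁻¹) (g := g)
    (L := L) (fun p hp => by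
      have h1 := (mem_filter.1 hp).2
      have h2 : (1 : ℝ) < p := by exact_mod_cast h1.one_lt
      have h3 : (p : ℝ) - 1 ≠ 0 := by linarith
      rw [hg p h1]
      field_simp) (fun l hl => mem_powerset.1 (mem_filter.1 (mem_filter.1 hl).1).1) downd_BT
  have habs := abs_BT (g := g) (fun p => le_sup_right) (downd_BT (R := R) (a := a))
  let F : ℕ → ℝ := fun m => ∑ d ∈ L, lam_BT g L d * if ∏ p ∈ d, p ∣ m then 1 else 0
  set S := (range h).filter fun i => (a * i + b).Prime ∧ R < a * i + b with hS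
  have hF : ∀ i ∈ S, F (a * i + b) * F (a * i + b) = G * G := by
    intro i hi
    obtain ⟨h2, h3⟩ := (mem_filter.1 hi).2
    have h4 : F (a * i + b) = G := by
      have h5 := exp_BT (g := g) (downd_BT (R := R) (a := a)) ∅
      simp only [h_BT, notMem_empty, if_false] at h5
      rw [hG, hLd, h5]
      refine sum_congr rfl fun d hd => ?_
      congr 2
      refine propext ⟨fun h6 p hp' => ?_, fun h6 => by simp [subset_empty.1 h6]⟩
      have h7 := hp hd hp'
      have h8 := (Nat.prime_dvd_prime_iff_eq h7.1 h2).1 ((dvd_prod_of_mem _ hp').trans h6)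
      omega
    rw [h4]
  have hu : ∀ d ∈ L, ∀ e ∈ L, ∀ p ∈ d ∪ e, p.Prime ∧ ¬ p ∣ a := fun d hd e he p hp' =>
    (mem_union.1 hp').elim (fun h2 => ⟨(hp hd h2).1, (mem_filter.1 hd).2 p h2⟩)
      fun h2 => ⟨(hp he h2).1, (mem_filter.1 he).2 p h2⟩
  have hdvd : ∀ d ∈ L, ∀ e ∈ L, ∀ m : ℕ,
      (∏ p ∈ d ∪ e, p ∣ m ↔ ∏ p ∈ d, p ∣ m ∧ ∏ p ∈ e, p ∣ m) := by
    intro d hd e he m
    refine ⟨fun h1 => ⟨(prod_dvd_prod_of_subset _ _ _ subset_union_left).trans h1,
      (prod_dvd_prod_of_subset _ _ _ subset_union_right).trans h1⟩, fun h1 => ?_⟩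
    refine prod_primes_dvd m (fun p hp' => (hu d hd e he p hp').1.prime) fun p hp' => ?_
    rcases mem_union.1 hp' with h2 | h2
    · exact (dvd_prod_of_mem _ h2).trans h1.1
    · exact (dvd_prod_of_mem _ h2).trans h1.2
  have h1 : ∑ i ∈ range h, F (a * i + b) * F (a * i + b) = ∑ d ∈ L, ∑ e ∈ L,
      lam_BT g L d * lam_BT g L e *
        ∑ i ∈ range h, if ∏ p ∈ d ∪ e, p ∣ a * i + b then (1 : ℝ) else 0 := by
    simp only [F, sum_mul_sum]
    simp only [mul_sum]
    rw [sum_comm]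
    refine sum_congr rfl fun d hd => ?_
    rw [sum_comm]
    refine sum_congr rfl fun e he => sum_congr rfl fun m _ => ?_
    simp only [hdvd d hd e he]
    by_cases h2 : ∏ p ∈ d, p ∣ a * m + b <;> by_cases h3 : ∏ p ∈ e, p ∣ a * m + b <;>
      simp [h2, h3]
  have h2 : ∑ i ∈ range h, F (a * i + b) * F (a * i + b) ≤ h * G + (R : ℝ) ^ 2 * (G * G) := by
    have h3 : (L.card : ℝ) ≤ R := by exact_mod_cast (card_filter_le _ _).trans (card_BT R)
    have h4 : ∑ d ∈ L, ∑ e ∈ L, G * G ≤ (R : ℝ) ^ 2 * (G * G) := by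
      rw [sum_const, sum_const, nsmul_eq_mul, nsmul_eq_mul, ← mul_assoc, ← sq]
      exact mul_le_mul_of_nonneg_right (pow_le_pow_left₀ (Nat.cast_nonneg _) h3 2)
        (mul_self_nonneg G)
    refine le_trans ?_ (add_le_add_right h4 _)
    rw [h1]
    conv_rhs => rw [show h * G = h * _ from congrArg _ hmain.symm]
    simp only [mul_sum (a := (h : ℝ)), ← sum_add_distrib]
    refine sum_le_sum fun d hd => sum_le_sum fun e he => ?_
    have h5 := cntb_BT2 h b (a := a) (q := ∏ p ∈ d ∪ e, p)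
      (prod_pos fun p hp' => (hu d hd e he p hp').1.pos)
      (Nat.Coprime.prod_right fun p hp' =>
        (((hu d hd e he p hp').1.coprime_iff_not_dvd).2 (hu d hd e he p hp').2).symm)
    rw [Nat.cast_prod, ← prod_inv_distrib] at h5
    have h6 : |lam_BT g L d * lam_BT g L e| ≤ G * G := by
      rw [abs_mul]
      exact mul_le_mul (habs d) (habs e) (abs_nonneg _) hG0.le
    have h7 := (le_abs_self _).trans ((abs_mul _ _).trans_le
      (mul_le_mul h6 h5 (abs_nonneg _) (mul_self_nonneg G)))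
    linarith
  have h3 : (S.card : ℝ) * (G * G) ≤ ∑ i ∈ range h, F (a * i + b) * F (a * i + b) := by
    rw [← nsmul_eq_mul, ← sum_const, ← sum_congr rfl hF]
    exact sum_le_sum_of_subset_of_nonneg (filter_subset _ _) fun m _ _ => mul_self_nonneg _
  have h4 : h * G ≤ 2 * x / (a.totient * log R) * (G * G) := by
    have h5 : h * a ≤ 2 * x := by
      have := Nat.div_mul_le_self x a
      rw [hh, add_mul]
      omega
    have h6 : (h : ℝ) * a ≤ 2 * x := by exact_mod_cast h5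
    rw [div_mul_eq_mul_div, le_div_iff₀ hl0]
    calc h * G * (a.totient * log R) ≤ h * G * (a * G) :=
          mul_le_mul_of_nonneg_left hlog (mul_nonneg (Nat.cast_nonneg _) hG0.le)
      _ = h * a * (G * G) := by ring
      _ ≤ _ := mul_le_mul_of_nonneg_right h6 (mul_self_nonneg G)
  refine le_of_mul_le_mul_right ?_ (mul_pos hG0 hG0)
  rw [add_mul]
  linarith

end

theorem sBT2 : StBT2 := by
  intro d a R x hd hdx hR
  refine le_trans (Nat.cast_le.2 ?_) (gen_BT2 d (a % d) R x hd hdx hR)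
  refine (card_le_card fun p hp' => ?_).trans (card_image_le (f := fun i => d * i + a % d))
  obtain ⟨h6, h7, h8⟩ := mem_filter.1 hp'
  obtain ⟨h9, h10⟩ := mem_Ioc.1 h6
  have e : d * (p / d) + a % d = p := by
    rw [← show p % d = a % d from h8]
    exact Nat.div_add_mod p d
  exact mem_image.2 ⟨p / d, mem_filter.2 ⟨mem_range.2 (Nat.lt_succ_of_le
    (Nat.div_le_div_right h10)), by rw [e]; exact ⟨h7, h9⟩⟩, e⟩

end Pool.Agent.MP_2876a2_nt.Tu

end

noncomputable section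
open Finset Filter
open scoped Pointwise


namespace Pool.Agent.MP_2876a2_nt.Tu

theorem fac_Mer (D : ℕ) : ∑ n ∈ Ioc 0 D, Real.log n = Real.log D.factorial := by
  induction D with
  | zero => simp
  | succ D ih =>
    rw [Finset.sum_Ioc_succ_top (Nat.zero_le D), ih, Nat.factorial_succ, Nat.cast_mul,
      Real.log_mul (by positivity) (by positivity), add_comm]

theorem id_Mer (D : ℕ) : ∑ d ∈ Ioc 0 D, La d * ((D / d : ℕ) : ℝ) = Real.log D.factorial := by
  rw [← fac_Mer, ← ArithmeticFunction.sum_Ioc_mul_zeta_eq_sum,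
    ArithmeticFunction.vonMangoldt_mul_zeta]
  simp only [ArithmeticFunction.log_apply]

theorem sMer : StMer := by
  have l4 : 0 ≤ Real.log 4 := Real.log_nonneg (by norm_num)
  refine ⟨Real.log 4 + 4, by linarith, fun D hD => ?_⟩
  have D0 : (0 : ℝ) < D := by exact_mod_cast hD
  have I : Icc 1 D = Ioc 0 D := by ext; simp [Nat.succ_le_iff]
  have F0 : (0 : ℝ) < D.factorial := by positivity
  have up : Real.log D.factorial ≤ D * Real.log D := by
    rw [← fac_Mer]
    refine (Finset.sum_le_card_nsmul _ _ (Real.log D) fun n hn => ?_).trans (by simp)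
    rw [mem_Ioc] at hn
    exact Real.log_le_log (by exact_mod_cast hn.1) (by exact_mod_cast hn.2)
  have lo : D * Real.log D - D ≤ Real.log D.factorial := by
    have h := Real.log_le_log (by positivity) (Real.pow_div_factorial_le_exp (D : ℝ) D0.le D)
    rw [Real.log_div (by positivity) F0.ne', Real.log_pow, Real.log_exp] at h
    linarith
  have ps : ∑ d ∈ Ioc 0 D, La d ≤ (Real.log 4 + 4) * D := by
    have := Chebyshev.psi_le_const_mul_self D0.le
    rwa [Chebyshev.psi, Nat.floor_natCast] at this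
  have a1 : Real.log D.factorial ≤ D * ∑ d ∈ Ioc 0 D, La d / d := by
    rw [← id_Mer, Finset.mul_sum]
    refine Finset.sum_le_sum fun d _ => ?_
    rw [mul_div_left_comm]
    exact mul_le_mul_of_nonneg_left Nat.cast_div_le ArithmeticFunction.vonMangoldt_nonneg
  have a2 : D * ∑ d ∈ Ioc 0 D, La d / d ≤ Real.log D.factorial + ∑ d ∈ Ioc 0 D, La d := by
    rw [← id_Mer, Finset.mul_sum, ← Finset.sum_add_distrib]
    refine Finset.sum_le_sum fun d hd => ?_
    have d0 : 0 < d := (mem_Ioc.1 hd).1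
    rw [mul_div_left_comm, ← mul_add_one]
    refine mul_le_mul_of_nonneg_left ?_ ArithmeticFunction.vonMangoldt_nonneg
    rw [div_le_iff₀ (by exact_mod_cast d0)]
    have : D ≤ (D / d + 1) * d := by
      have := Nat.lt_mul_div_succ D d0
      rw [mul_comm]
      exact this.le
    exact_mod_cast this
  rw [I]
  constructor
  · refine le_of_mul_le_mul_left ?_ D0
    nlinarith
  · refine le_of_mul_le_mul_left ?_ D0
    nlinarith

end Pool.Agent.MP_2876a2_nt.Tu

end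

noncomputable section
open Finset Filter
open scoped Pointwise
namespace Pool.Agent.MP_2876a2_nt.Tu

theorem pt_Mer2 {G D d : ℕ} (hG : 0 < G) (hd : d ≤ D) (hc : ¬ d.Coprime G) :
    La d / d ≤ ∑ l ∈ G.primeFactors, ∑ n ∈ range (D + 1),
      if d = l ^ n then Real.log G * (1 / 2) ^ n else 0 := by
  have lg : 0 ≤ Real.log G := Real.log_natCast_nonneg G
  have nn : ∀ l n : ℕ, (0 : ℝ) ≤ if d = l ^ n then Real.log G * (1 / 2) ^ n else 0 := by
    intro l n
    split_ifs <;> positivity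
  by_cases hp : IsPrimePow d
  · obtain ⟨p, k, pp, k0, rfl⟩ := (isPrimePow_nat_iff d).1 hp
    have pG : p ∣ G := by
      by_contra h
      exact hc (Nat.Coprime.pow_left k ((Nat.Prime.coprime_iff_not_dvd pp).2 h))
    have m1 : p ∈ G.primeFactors := Nat.mem_primeFactors.2 ⟨pp, pG, hG.ne'⟩
    have m2 : k ∈ range (D + 1) :=
      mem_range.2 (Nat.lt_succ_of_le ((Nat.lt_pow_self pp.one_lt).le.trans hd))
    refine le_trans ?_ (single_le_sum (f := fun l => ∑ n ∈ range (D + 1),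
      if p ^ k = l ^ n then Real.log G * (1 / 2) ^ n else 0)
      (fun l _ => sum_nonneg fun n _ => nn l n) m1)
    refine le_trans ?_ (single_le_sum
      (f := fun n => if p ^ k = p ^ n then Real.log G * (1 / 2) ^ n else 0) (fun n _ => nn p n) m2)
    rw [if_pos rfl, La, ArithmeticFunction.vonMangoldt_apply_pow k0.ne',
      ArithmeticFunction.vonMangoldt_apply_prime pp, div_eq_mul_one_div]
    have p2 : (2 : ℝ) ≤ p := by exact_mod_cast pp.two_le
    refine mul_le_mul (Real.log_le_log (by linarith) (by exact_mod_cast Nat.le_of_dvd hG pG)) ?_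
      (by positivity) lg
    rw [Nat.cast_pow, ← one_div_pow]
    exact pow_le_pow_left₀ (by positivity) (one_div_le_one_div_of_le (by norm_num) p2) k
  · rw [La, ArithmeticFunction.vonMangoldt_apply, if_neg hp, zero_div]
    exact sum_nonneg fun l _ => sum_nonneg fun n _ => nn l n

theorem bad_Mer2 {G : ℕ} (hG : 0 < G) (D : ℕ) :
    ∑ d ∈ (Icc 1 D).filter (fun d => ¬ d.Coprime G), La d / d ≤
      G.primeFactors.card * (Real.log G * 2) := by
  have lg : 0 ≤ Real.log G := Real.log_natCast_nonneg G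
  refine (sum_le_sum fun d hd => pt_Mer2 (D := D) hG (mem_Icc.1 (mem_filter.1 hd).1).2
    (mem_filter.1 hd).2).trans ?_
  rw [sum_comm, ← nsmul_eq_mul]
  refine sum_le_card_nsmul _ _ _ fun l _ => ?_
  rw [sum_comm]
  refine le_trans (sum_le_sum (g := fun n => Real.log G * (1 / 2) ^ n) fun n _ => ?_) ?_
  · rw [sum_ite_eq']
    split_ifs
    · exact le_rfl
    · positivity
  · rw [← mul_sum]
    exact mul_le_mul_of_nonneg_left (sum_geometric_two_le _) lg

theorem sMer2 (hM : StMer) : StMer2 := by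
  intro G hG
  obtain ⟨C, -, hC⟩ := hM
  refine ⟨C + G.primeFactors.card * (Real.log G * 2), fun D hD => ?_⟩
  have h1 := (hC D hD).1
  have h2 := bad_Mer2 hG D
  rw [← sum_filter_add_sum_filter_not (Icc 1 D) (fun d => d.Coprime G)] at h1
  linarith

end Pool.Agent.MP_2876a2_nt.Tu

end

noncomputable section
open Finset Filter
open scoped Pointwise


namespace Pool.Agent.MP_2876a2_nt.Tu

theorem theta_Th (N : ℕ) : TH (PN N) = ∑ n ∈ Icc 1 (2 * N), Pool.Agent.MP_43e117_nt.PG.th n -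
    ∑ n ∈ Icc 1 N, Pool.Agent.MP_43e117_nt.PG.th n := by
  have h1 : ∀ M : ℕ, Icc 1 M = Ioc 0 M := fun M => by
    ext x
    simp only [mem_Icc, mem_Ioc]
    omega
  rw [h1, h1, ← sum_Ioc_consecutive _ (Nat.zero_le N) (by omega : N ≤ 2 * N)]
  unfold TH PN Pool.Agent.MP_43e117_nt.PG.th
  rw [sum_filter]
  ring

theorem dl_Th (N G ρ : ℕ) (hG : 0 < G) (hN : G ≤ N) :
    Pool.Agent.MP_43e117_nt.PG.Dl Pool.Agent.MP_43e117_nt.PG.th (Ioc N (2 * N)) G ρ =
      TH (PA N G ρ) - TH (PN N) / G.totient := by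
  unfold Pool.Agent.MP_43e117_nt.PG.Dl TH PA PN Pool.Agent.MP_43e117_nt.PG.th
  congr 1
  · rw [filter_comm, sum_filter (p := Nat.Prime)]
  · congr 1
    rw [sum_filter, sum_filter]
    refine sum_congr rfl fun n hn => ?_
    by_cases hp : n.Prime
    · have hc : n.Coprime G := (Nat.Prime.coprime_iff_not_dvd hp).2 fun h => by
        have h1 := Nat.le_of_dvd hG h
        have h2 := (mem_Ioc.1 hn).1
        omega
      rw [if_pos hc]
    · simp only [if_neg hp, ite_self]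

theorem sTh (hBV : Pool.Agent.MP_43e117_nt.PG.StBV) (hP : Pool.Agent.MP_43e117_nt.PG.StPNT) :
    StTh := by
  intro G ρ hG hc ε hε
  have h2 : Tendsto (fun N : ℕ => 2 * N) atTop atTop :=
    tendsto_atTop_mono (fun N => by show N ≤ 2 * N; omega) tendsto_id
  have hlog : Tendsto (fun N : ℕ => Real.log N) atTop atTop :=
    Real.tendsto_log_atTop.comp tendsto_natCast_atTop_atTop
  have hq : Tendsto (fun N : ℕ => (N : ℝ) ^ (1 / 2 - 1 / 4 : ℝ)) atTop atTop :=
    (tendsto_rpow_atTop (by norm_num)).comp tendsto_natCast_atTop_atTop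
  filter_upwards [hP 1, h2.eventually (hP 1), hlog.eventually_ge_atTop (4 / ε),
    eventually_ge_atTop G, hBV (1 / 4) 1 0 (by norm_num) le_rfl,
    hq.eventually_ge_atTop (G : ℝ)] with N ha hb hl hN hv hQ
  have hN' : (1 : ℝ) ≤ N := by exact_mod_cast (show 1 ≤ N by omega)
  have h4 : 0 < 4 / ε := by positivity
  obtain ⟨E, hE0, hE1, hE2⟩ := hv N (2 * N) le_rfl (by omega) le_rfl
  rw [pow_one] at ha hb hE2
  have hd : 4 / ε ≤ Real.log ((2 * N : ℕ) : ℝ) := by
    refine hl.trans (Real.log_le_log (by linarith) ?_)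
    push_cast
    linarith
  have e0 : ∀ x : ℝ, x / (4 / ε) = ε / 4 * x := fun x => by field_simp
  have e1 : (N : ℝ) / Real.log N ≤ ε / 4 * N :=
    (div_le_div_of_nonneg_left (by linarith) h4 hl).trans (e0 _).le
  have e2 : ((2 * N : ℕ) : ℝ) / Real.log ((2 * N : ℕ) : ℝ) ≤ ε / 4 * ((2 * N : ℕ) : ℝ) :=
    (div_le_div_of_nonneg_left (Nat.cast_nonneg _) h4 hd).trans (e0 _).le
  have e3 := abs_le.1 (ha.trans e1)
  have e4 := abs_le.1 (hb.trans e2)
  push_cast at e4
  have e5 : |TH (PN N) - N| ≤ 3 * (ε / 4 * N) := by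
    rw [theta_Th, abs_le]
    constructor <;> linarith [e3.1, e3.2, e4.1, e4.2]
  have e6 : E G ≤ ε / 4 * N := by
    refine le_trans ?_ (hE2.trans e1)
    have hm : G ∈ Icc 1 ⌊(N : ℝ) ^ (1 / 2 - 1 / 4 : ℝ)⌋₊ := mem_Icc.2 ⟨hG, Nat.le_floor hQ⟩
    have := single_le_sum (f := fun q => Pool.Agent.MP_43e117_nt.PG.ta q ^ 0 * E q)
      (fun q _ => by rw [pow_zero, one_mul]; exact hE0 q) hm
    rwa [pow_zero, one_mul] at this
  have e7 := (hE1 G ρ hG hQ hc).trans e6
  rw [dl_Th N G ρ hG hN] at e7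
  have ht : (1 : ℝ) ≤ G.totient := by exact_mod_cast Nat.totient_pos.2 hG
  have e8 : |TH (PN N) / G.totient - N / G.totient| ≤ 3 * (ε / 4 * N) := by
    rw [← sub_div, abs_div, abs_of_pos (by linarith : (0 : ℝ) < G.totient)]
    exact (div_le_self (abs_nonneg _) ht).trans e5
  have e9 := abs_sub_le (TH (PA N G ρ)) (TH (PN N) / G.totient) (N / G.totient)
  linarith

end Pool.Agent.MP_2876a2_nt.Tu

end

noncomputable section
open Finset Filter
open scoped Pointwise


namespace Pool.Agent.MP_2876a2_nt.Tu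

open Pool.Agent.MP_43e117_nt.PG in
theorem sum_th_Lo2 (I : Finset ℕ) (P : ℕ → Prop) [DecidablePred P] :
    ∑ n ∈ I.filter P, th n = ∑ p ∈ (I.filter Nat.Prime).filter P, Real.log p := by
  rw [filter_comm, sum_filter (p := Nat.Prime)]
  rfl

theorem dvd_iff_Lo2 {d : ℕ} (hd : 1 ≤ d) (n : ℕ) : n ≡ d - 1 [MOD d] ↔ d ∣ n + 1 := by
  constructor
  · intro h
    have h2 : n + 1 ≡ d - 1 + 1 [MOD d] := h.add_right 1
    rw [Nat.sub_add_cancel hd] at h2
    exact (Nat.modEq_zero_iff_dvd.1 (h2.trans (Nat.modEq_zero_iff_dvd.2 dvd_rfl)))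
  · intro h
    apply Nat.ModEq.add_right_cancel' 1
    rw [Nat.sub_add_cancel hd]
    exact (Nat.modEq_zero_iff_dvd.2 h).trans (Nat.modEq_zero_iff_dvd.2 dvd_rfl).symm

theorem cop_Lo2 {d : ℕ} (hd : 1 ≤ d) : (d - 1).Coprime d := by
  obtain ⟨e, rfl⟩ : ∃ e, d = e + 1 := ⟨d - 1, by omega⟩
  simp

theorem TH_nonneg_Lo2 (S : Finset ℕ) : 0 ≤ TH S :=
  sum_nonneg fun p _ => Real.log_natCast_nonneg p

open Pool.Agent.MP_43e117_nt.PG in
theorem inner_Lo2 {N G ρ d a : ℕ} (hG : 0 < G) (hd : 1 ≤ d) (hc : d.Coprime G) (hdN : G * d ≤ N)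
    (ha : a ≡ ρ [MOD G]) (ha' : a ≡ d - 1 [MOD d]) {e : ℝ}
    (h : |Dl th (Ioc N (2 * N)) (G * d) a| ≤ e) :
    TH (PN N) / G.totient / d - e ≤
      ∑ p ∈ (PA N G ρ).filter (fun p => d ∣ p + 1), Real.log p := by
  have h1 : ∑ n ∈ (Ioc N (2 * N)).filter (fun n => n ≡ a [MOD G * d]), th n =
      ∑ p ∈ (PA N G ρ).filter (fun p => d ∣ p + 1), Real.log p := by
    rw [sum_th_Lo2]
    refine sum_congr ?_ fun _ _ => rfl
    ext n
    rw [PA, PN, mem_filter, mem_filter (s := filter _ (filter _ _)),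
      mem_filter (s := filter _ (Ioc _ _)), and_assoc,
      ← Nat.modEq_and_modEq_iff_modEq_mul hc.symm, ← dvd_iff_Lo2 hd n]
    exact and_congr_right fun _ => ⟨fun h => ⟨h.1.trans ha, h.2.trans ha'⟩,
      fun h => ⟨h.1.trans ha.symm, h.2.trans ha'.symm⟩⟩
  have h2 : ∑ n ∈ (Ioc N (2 * N)).filter (fun n => n.Coprime (G * d)), th n = TH (PN N) := by
    rw [sum_th_Lo2]
    unfold TH
    refine sum_congr ?_ fun _ _ => rfl
    refine filter_true_of_mem fun p hp => ?_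
    rw [mem_filter, mem_Ioc] at hp
    rw [hp.2.coprime_iff_not_dvd]
    intro hh
    have := Nat.le_of_dvd (Nat.mul_pos hG hd) hh
    omega
  unfold Dl at h
  rw [h1, h2, Nat.totient_mul hc.symm, Nat.cast_mul, ← div_div] at h
  have h3 := (abs_le.1 h).1
  have h4 : TH (PN N) / G.totient / d ≤ TH (PN N) / G.totient / d.totient := by
    apply div_le_div_of_nonneg_left (div_nonneg (TH_nonneg_Lo2 _) (Nat.cast_nonneg _))
    · exact_mod_cast Nat.totient_pos.2 hd
    · exact_mod_cast Nat.totient_le d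
  linarith

theorem swap_Lo2 (S D : Finset ℕ) :
    ∑ p ∈ S, Real.log p * ∑ d ∈ D.filter (fun d => d ∣ p + 1), La d =
      ∑ d ∈ D, La d * ∑ p ∈ S.filter (fun p => d ∣ p + 1), Real.log p := by
  simp only [sum_filter, mul_sum]
  rw [sum_comm]
  refine sum_congr rfl fun d _ => sum_congr rfl fun p _ => ?_
  split_ifs
  · ring
  · simp

theorem sLo2 (hBV : Pool.Agent.MP_43e117_nt.PG.StBV) (hM : StMer2) : StLo2 := by
  intro G ρ hG hρ
  obtain ⟨C, hC⟩ := hM G hG
  refine ⟨C + Real.log 2, ?_⟩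
  have hev : ∀ᶠ N : ℕ in atTop, (G : ℝ) ≤ (N : ℝ) ^ (1 / 1000 : ℝ) :=
    ((tendsto_rpow_atTop (by norm_num)).comp tendsto_natCast_atTop_atTop).eventually_ge_atTop _
  filter_upwards [hBV (1 / 1000) 1 0 (by norm_num) (by norm_num), eventually_ge_atTop 2, hev]
    with N hN h2 hGN
  obtain ⟨E, hE0, hE, hs⟩ := hN N (2 * N) le_rfl (by omega) le_rfl
  have e1 : (1 / 2 - 1 / 1000 : ℝ) = 499 / 1000 := by norm_num
  rw [e1] at hE hs
  have hN1 : (1 : ℝ) ≤ N := by exact_mod_cast (by omega : 1 ≤ N)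
  have hN2 : (1 : ℝ) < N := by exact_mod_cast (by omega : 1 < N)
  have hL : 0 < Real.log N := Real.log_pos hN2
  have hx1 : (1 : ℝ) ≤ (N : ℝ) ^ (249 / 500 : ℝ) := Real.one_le_rpow hN1 (by norm_num)
  have hxN : (N : ℝ) ^ (499 / 1000 : ℝ) ≤ N := by
    calc (N : ℝ) ^ (499 / 1000 : ℝ) ≤ (N : ℝ) ^ (1 : ℝ) :=
          Real.rpow_le_rpow_of_exponent_le hN1 (by norm_num)
      _ = N := Real.rpow_one _
  have hD1 : 1 ≤ Dz N := Nat.le_floor (by exact_mod_cast hx1)
  have hDx : (Dz N : ℝ) ≤ (N : ℝ) ^ (249 / 500 : ℝ) := Nat.floor_le (by linarith)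
  have hDh : (N : ℝ) ^ (249 / 500 : ℝ) / 2 < Dz N := Nat.div_two_lt_floor hx1
  have hlog : 249 / 500 * Real.log N - Real.log 2 ≤ Real.log (Dz N) := by
    have := Real.log_le_log (by positivity) hDh.le
    rw [Real.log_div (by positivity) (by norm_num), Real.log_rpow (by positivity)] at this
    exact this
  have hlev : ∀ d ∈ (Icc 1 (Dz N)).filter (fun d => d.Coprime G),
      ((G * d : ℕ) : ℝ) ≤ (N : ℝ) ^ (499 / 1000 : ℝ) := fun d hd => by
    have hd2 : (d : ℝ) ≤ Dz N := by exact_mod_cast (mem_Icc.1 (mem_filter.1 hd).1).2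
    rw [show (499 / 1000 : ℝ) = 1 / 1000 + 249 / 500 by norm_num, Real.rpow_add (by positivity),
      Nat.cast_mul]
    exact mul_le_mul hGN (hd2.trans hDx) (Nat.cast_nonneg _) (by positivity)
  have hs' : ∑ d ∈ (Icc 1 (Dz N)).filter (fun d => d.Coprime G), E (G * d) ≤ N / Real.log N := by
    have hs2 : ∑ q ∈ Icc 1 ⌊(N : ℝ) ^ (499 / 1000 : ℝ)⌋₊, E q ≤ N / Real.log N := by
      simpa using hs
    rw [← sum_image (f := E) fun _ _ _ _ h => Nat.eq_of_mul_eq_mul_left hG h]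
    refine le_trans (sum_le_sum_of_subset_of_nonneg (fun q hq => ?_) fun q _ _ => hE0 q) hs2
    obtain ⟨d, hd, rfl⟩ := mem_image.1 hq
    exact mem_Icc.2 ⟨Nat.mul_pos hG (mem_Icc.1 (mem_filter.1 hd).1).1, Nat.le_floor (hlev d hd)⟩
  rw [swap_Lo2]
  have key : ∀ d ∈ (Icc 1 (Dz N)).filter (fun d => d.Coprime G),
      TH (PN N) / G.totient * (La d / d) - Real.log N * E (G * d) ≤
      La d * ∑ p ∈ (PA N G ρ).filter (fun p => d ∣ p + 1), Real.log p := by
    intro d hd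
    have hdx := hlev d hd
    rw [mem_filter, mem_Icc] at hd
    have hdN : G * d ≤ N := by exact_mod_cast hdx.trans hxN
    obtain ⟨a, ha, ha'⟩ := Nat.chineseRemainder hd.2.symm ρ (d - 1)
    have hco : a.Coprime (G * d) := Nat.Coprime.mul_right
      (by rw [Nat.Coprime, ha.gcd_eq]; exact hρ) (by rw [Nat.Coprime, ha'.gcd_eq]; exact cop_Lo2 hd.1.1)
    have h1 := inner_Lo2 hG hd.1.1 hd.2 hdN ha ha' (hE (G * d) a (Nat.mul_pos hG hd.1.1) hdx hco)
    have h0 : 0 ≤ La d := ArithmeticFunction.vonMangoldt_nonneg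
    have h3 : La d ≤ Real.log N :=
      ArithmeticFunction.vonMangoldt_le_log.trans
        (Real.log_le_log (by exact_mod_cast hd.1.1)
          (by exact_mod_cast (Nat.le_mul_of_pos_left d hG).trans hdN))
    have h4 := mul_le_mul_of_nonneg_left h1 h0
    have h5 := mul_le_mul_of_nonneg_right h3 (hE0 (G * d))
    have h6 : TH (PN N) / G.totient * (La d / d) = La d * (TH (PN N) / G.totient / d) := by ring
    rw [h6]
    nlinarith
  refine le_trans ?_ ((sum_le_sum key).trans (sum_le_sum_of_subset_of_nonneg (filter_subset _ _)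
    fun d _ _ => mul_nonneg ArithmeticFunction.vonMangoldt_nonneg (TH_nonneg_Lo2 _)))
  rw [sum_sub_distrib, ← mul_sum, ← mul_sum]
  have h7 : Real.log N * ∑ d ∈ (Icc 1 (Dz N)).filter (fun d => d.Coprime G), E (G * d) ≤ N := by
    calc _ ≤ Real.log N * (N / Real.log N) := mul_le_mul_of_nonneg_left hs' hL.le
      _ = N := by field_simp
  have h8 : 249 / 500 * Real.log N - (C + Real.log 2) ≤
      ∑ d ∈ (Icc 1 (Dz N)).filter (fun d => d.Coprime G), La d / d := by
    have := hC (Dz N) hD1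
    linarith
  have h9 := mul_le_mul_of_nonneg_left h8
    (div_nonneg (TH_nonneg_Lo2 (PN N)) (Nat.cast_nonneg G.totient))
  linarith

end Pool.Agent.MP_2876a2_nt.Tu

end

noncomputable section
open Finset Filter
open scoped Pointwise


namespace Pool.Agent.MP_2876a2_nt.Tu

theorem sum_Mid2 (hM : StMer) : ∃ C : ℝ, 0 ≤ C ∧ ∀ D E : ℕ, 1 ≤ D → D ≤ E →
    ∑ l ∈ (Ioc D E).filter Nat.Prime, Real.log l / l ≤ Real.log E - Real.log D + 2 * C := by
  obtain ⟨C, C0, h⟩ := hM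
  refine ⟨C, C0, fun D E hD hE => ?_⟩
  have h1 := (h D hD).1
  have h2 := (h E (hD.trans hE)).2
  have e : ∀ n : ℕ, Icc 1 n = Ioc 0 n := fun n => by
    ext a; simp only [mem_Icc, mem_Ioc]; omega
  rw [e] at h1 h2
  have h3 := sum_Ioc_consecutive (fun d : ℕ => La d / d) (Nat.zero_le D) hE
  have h4 : ∑ l ∈ (Ioc D E).filter Nat.Prime, Real.log l / l ≤ ∑ d ∈ Ioc D E, La d / d := by
    calc ∑ l ∈ (Ioc D E).filter Nat.Prime, Real.log l / l
        = ∑ l ∈ (Ioc D E).filter Nat.Prime, La l / l :=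
          sum_congr rfl fun l hl => by
            rw [show La l = Real.log l from
              ArithmeticFunction.vonMangoldt_apply_prime (mem_filter.1 hl).2]
      _ ≤ _ := sum_le_sum_of_subset_of_nonneg (filter_subset _ _) fun d _ _ =>
          div_nonneg ArithmeticFunction.vonMangoldt_nonneg (Nat.cast_nonneg _)
  linarith

theorem floor_Mid2 {y : ℝ} (hy : 1 ≤ y) : Real.log y - 1 ≤ Real.log (⌊y⌋₊ : ℕ) := by
  have h1 : (1 : ℝ) ≤ (⌊y⌋₊ : ℕ) := by exact_mod_cast Nat.le_floor (by simpa using hy)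
  have h2 := Nat.lt_floor_add_one y
  have h3 : Real.log y ≤ Real.log (2 * (⌊y⌋₊ : ℕ)) :=
    Real.log_le_log (by linarith) (by linarith)
  rw [Real.log_mul (by norm_num) (by linarith)] at h3
  have := Real.log_two_lt_d9
  linarith

theorem num_Mid2 {L K r : ℝ} (hK : 1 ≤ K) (hL : 4000 * K ≤ L) (hr : L / 5 - 1 ≤ r) :
    (L + 1) * (4 / r * (101 / 100 * ((L / 100 + K) / (249 / 500 * L)))) ≤ 43 / 100 := by
  have L0 : 0 < L := by linarith
  have r0 : 0 < r := by linarith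
  have e : (L + 1) * (4 / r * (101 / 100 * ((L / 100 + K) / (249 / 500 * L)))) =
      (L + 1) * (404 / 100 * (L / 100 + K)) / (r * (249 / 500 * L)) := by
    field_simp
    ring
  rw [e, div_le_iff₀ (by positivity)]
  have h1 : (L / 5 - 1) * L ≤ r * L := mul_le_mul_of_nonneg_right hr L0.le
  have h2 : 4000 * K * L ≤ L * L := mul_le_mul_of_nonneg_right hL L0.le
  have h3 : 1 * L ≤ K * L := mul_le_mul_of_nonneg_right hK L0.le
  have h4 : K * 1 ≤ K * L := mul_le_mul_of_nonneg_left (by linarith) (by linarith)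
  nlinarith

theorem sMid2 (hB : StBT2) (hM : StMer) : StMid2 := by
  classical
  intro G ρ hG
  obtain ⟨φ, hφ⟩ : ∃ φ : ℝ, φ = G.totient := ⟨_, rfl⟩
  have φ0 : 0 < φ := by rw [hφ]; exact_mod_cast Nat.totient_pos.2 hG
  rw [← hφ]
  obtain ⟨C, C0, hC⟩ := sum_Mid2 hM
  have t0 : Tendsto (fun N : ℕ => (N : ℝ)) atTop atTop := tendsto_natCast_atTop_atTop
  have ev1 : ∀ᶠ N : ℕ in atTop, 4000 * (1 + 2 * C) ≤ Real.log N :=
    (Real.tendsto_log_atTop.comp t0).eventually_ge_atTop _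
  have ev2 : ∀ᶠ N : ℕ in atTop, (101 : ℝ) ≤ (N : ℝ) ^ (249 / 500 : ℝ) :=
    ((tendsto_rpow_atTop (by norm_num)).comp t0).eventually_ge_atTop _
  have ev3 : ∀ᶠ N : ℕ in atTop, (2 : ℝ) ≤ (N : ℝ) ^ (1 / 5 : ℝ) :=
    ((tendsto_rpow_atTop (by norm_num)).comp t0).eventually_ge_atTop _
  have ev4 : ∀ᶠ N : ℕ in atTop,
      ‖Real.log N‖ ≤ 1 / (100 * φ) * ‖(N : ℝ) ^ (23 / 250 : ℝ)‖ :=
    t0.eventually ((isLittleO_log_rpow_atTop (r := 23 / 250) (by norm_num)).def (by positivity))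
  have ev5 : ∀ᶠ N : ℕ in atTop, (G : ℝ) ≤ (N : ℝ) ^ (1 / 5 : ℝ) :=
    ((tendsto_rpow_atTop (by norm_num)).comp t0).eventually_ge_atTop _
  filter_upwards [ev1, ev2, ev3, ev4, ev5, eventually_ge_atTop 1] with N h1 h2 h3 h4 h5 hN
  have N1 : (1 : ℝ) ≤ N := by exact_mod_cast hN
  have N0 : (0 : ℝ) < N := by linarith
  obtain ⟨L, hL⟩ : ∃ L : ℝ, L = Real.log N := ⟨_, rfl⟩
  obtain ⟨R, hR⟩ : ∃ R : ℕ, R = ⌊(N : ℝ) ^ (1 / 5 : ℝ)⌋₊ := ⟨_, rfl⟩
  rw [← hL] at h1 h4
  have L1 : 4000 ≤ L := by linarith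
  have L0 : 0 < L := by linarith
  rw [Real.norm_of_nonneg L0.le, Real.norm_of_nonneg (by positivity)] at h4
  have R2 : 2 ≤ R := by rw [hR]; exact Nat.le_floor (by simpa using h3)
  have Rle : (R : ℝ) ≤ (N : ℝ) ^ (1 / 5 : ℝ) := by rw [hR]; exact Nat.floor_le (by positivity)
  have RN : R ≤ N := by
    have : (N : ℝ) ^ (1 / 5 : ℝ) ≤ N := Real.rpow_le_self_of_one_le N1 (by norm_num)
    exact_mod_cast Rle.trans this
  have logR : L / 5 - 1 ≤ Real.log R := by
    have := floor_Mid2 (y := (N : ℝ) ^ (1 / 5 : ℝ)) (by linarith)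
    rw [Real.log_rpow N0, ← hL, ← hR] at this
    linarith
  have r0 : 0 < Real.log R := by linarith
  have Ele : (Ez N : ℝ) ≤ (N : ℝ) ^ (127 / 250 : ℝ) := Nat.floor_le (by positivity)
  have EN : Ez N ≤ N := by
    have : (N : ℝ) ^ (127 / 250 : ℝ) ≤ N := Real.rpow_le_self_of_one_le N1 (by norm_num)
    exact_mod_cast Ele.trans this
  have D1 : 101 ≤ Dz N := Nat.le_floor (by simpa using h2)
  have DE : Dz N ≤ Ez N :=
    Nat.floor_le_floor (Real.rpow_le_rpow_of_exponent_le N1 (by norm_num))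
  have GD : G ≤ Dz N :=
    Nat.le_floor (h5.trans (Real.rpow_le_rpow_of_exponent_le N1 (by norm_num)))
  have GE : G * Ez N ≤ N := by
    have : (G : ℝ) * Ez N ≤ N := by
      calc (G : ℝ) * Ez N ≤ (N : ℝ) ^ (1 / 5 : ℝ) * (N : ℝ) ^ (127 / 250 : ℝ) := by gcongr
        _ ≤ N := by
          rw [← Real.rpow_add N0]
          exact Real.rpow_le_self_of_one_le N1 (by norm_num)
    exact_mod_cast this
  have logD : 249 / 500 * L - 1 ≤ Real.log (Dz N) := by
    have := floor_Mid2 (y := (N : ℝ) ^ (249 / 500 : ℝ)) (by linarith)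
    rw [Real.log_rpow N0, ← hL] at this
    exact this
  have logE : Real.log (Ez N) ≤ 127 / 250 * L := by
    have e0 : (0 : ℝ) < Ez N := by exact_mod_cast (show 0 < Ez N by omega)
    have := Real.log_le_log e0 Ele
    rwa [Real.log_rpow N0, ← hL] at this
  obtain ⟨Q, hQ⟩ : ∃ Q : Finset ℕ, Q = (Ioc (Dz N) (Ez N)).filter Nat.Prime := ⟨_, rfl⟩
  have sQ : ∑ l ∈ Q, Real.log l / l ≤ L / 100 + (1 + 2 * C) := by
    have := hC (Dz N) (Ez N) (by omega) DE
    rw [← hQ] at this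
    linarith
  have mQ : ∀ l ∈ Q, l.Prime ∧ Dz N < l ∧ l ≤ Ez N := fun l hl => by
    rw [hQ, mem_filter, mem_Ioc] at hl
    exact ⟨hl.2, hl.1.1, hl.1.2⟩
  have cQ : (Q.card : ℝ) ≤ (N : ℝ) ^ (127 / 250 : ℝ) := by
    refine le_trans ?_ Ele
    have : Q.card ≤ Ez N := by
      rw [hQ]
      refine (card_filter_le _ _).trans ?_
      rw [Nat.card_Ioc]
      omega
    exact_mod_cast this
  have each : ∀ l ∈ Q,
      (((Ioc R (2 * N)).filter fun p => p.Prime ∧ p ≡ ρ [MOD G] ∧ l ∣ p + 1).card : ℝ) ≤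
      N / φ * (4 / Real.log R * (101 / 100 * (Real.log l / l / (249 / 500 * L)))) + (R : ℝ) ^ 2 := by
    intro l hl
    obtain ⟨lp, l1, l2⟩ := mQ l hl
    have co : G.Coprime l :=
      ((Nat.coprime_of_lt_prime hG.ne' (by omega) lp)).symm
    have Gl : G * l ≤ 2 * N := (Nat.mul_le_mul_left G l2).trans (by omega)
    refine le_trans (Nat.cast_le.2 (card_le_card fun p hp => ?_))
      ((hB (G * l) (Nat.chineseRemainder co ρ (l - 1)) R (2 * N) (Nat.mul_pos hG lp.pos) Gl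
        R2).trans ?_)
    · obtain ⟨p1, p2, p3, p4⟩ := mem_filter.1 hp
      refine mem_filter.2 ⟨p1, p2, Nat.chineseRemainder_modEq_unique co p3 ?_⟩
      refine Nat.ModEq.add_right_cancel' 1 ((Nat.modEq_zero_iff_dvd.2 p4).trans ?_)
      rw [Nat.sub_add_cancel lp.one_le]
      exact (Nat.modEq_zero_iff_dvd.2 dvd_rfl).symm
    have a1 : (101 : ℝ) ≤ l := by exact_mod_cast (show 101 ≤ l by omega)
    have a2 : 249 / 500 * L ≤ Real.log l := by
      have b1 : (N : ℝ) ^ (249 / 500 : ℝ) ≤ l := by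
        have b2 := Nat.lt_floor_add_one ((N : ℝ) ^ (249 / 500 : ℝ))
        have b3 : ((Dz N : ℕ) : ℝ) + 1 ≤ l := by exact_mod_cast l1
        exact b2.le.trans b3
      have := Real.log_le_log (by positivity) b1
      rwa [Real.log_rpow N0, ← hL] at this
    have a3 : ((l.totient : ℕ) : ℝ) = l - 1 := by
      rw [Nat.totient_prime lp, Nat.cast_sub lp.one_le, Nat.cast_one]
    have a4 : 1 / ((l : ℝ) - 1) ≤ 101 / 100 * (Real.log l / l / (249 / 500 * L)) := by
      have b1 : 1 / (l : ℝ) ≤ Real.log l / l / (249 / 500 * L) := by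
        rw [div_right_comm]
        exact div_le_div_of_nonneg_right ((one_le_div (by positivity)).2 a2) (by linarith)
      have b2 : 1 / ((l : ℝ) - 1) ≤ 101 / 100 * (1 / (l : ℝ)) := by
        rw [mul_one_div, div_le_div_iff₀ (by linarith) (by linarith)]
        linarith
      linarith
    have a5 : 2 * ((2 * N : ℕ) : ℝ) / (((G * l).totient : ℕ) * Real.log R) =
        N / φ * (4 / Real.log R * (1 / ((l : ℝ) - 1))) := by
      have : (l : ℝ) - 1 ≠ 0 := by linarith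
      rw [Nat.totient_mul co, Nat.cast_mul G.totient, a3, ← hφ]
      push_cast
      field_simp
      ring
    rw [a5]
    have := mul_le_mul_of_nonneg_left
      (mul_le_mul_of_nonneg_left a4 (show 0 ≤ 4 / Real.log R by positivity))
      (show 0 ≤ (N : ℝ) / φ by positivity)
    linarith
  obtain ⟨S, hS⟩ : ∃ S : Finset ℕ, S = (PA N G ρ).filter fun p =>
      ∃ l : ℕ, l.Prime ∧ Dz N < l ∧ l ≤ Ez N ∧ l ∣ p + 1 := ⟨_, rfl⟩
  have goal : TH S ≤ 9 / 20 * N / φ := by
    have mS : ∀ p ∈ S, N < p ∧ p ≤ 2 * N ∧ p.Prime ∧ p ≡ ρ [MOD G] ∧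
        ∃ l ∈ Q, l ∣ p + 1 := fun p hp => by
      rw [hS, mem_filter, PA, mem_filter, PN, mem_filter, mem_Ioc] at hp
      obtain ⟨⟨⟨⟨a, b⟩, c⟩, d⟩, l, l1, l2, l3, l4⟩ := hp
      exact ⟨a, b, c, d, l, by rw [hQ, mem_filter, mem_Ioc]; exact ⟨⟨l2, l3⟩, l1⟩, l4⟩
    have s1 : TH S ≤ S.card * (L + 1) := by
      have := sum_le_card_nsmul S (fun p : ℕ => Real.log p) (L + 1) fun p hp => by
        obtain ⟨a, b, c, -⟩ := mS p hp
        have p0 : (0 : ℝ) < p := by exact_mod_cast c.pos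
        have p1 : (p : ℝ) ≤ 2 * N := by exact_mod_cast b
        have := Real.log_le_log p0 p1
        rw [Real.log_mul (by norm_num) N0.ne', ← hL] at this
        have := Real.log_two_lt_d9
        show Real.log p ≤ L + 1
        linarith
      rwa [nsmul_eq_mul] at this
    have s2 : S.card ≤ ∑ l ∈ Q,
        ((Ioc R (2 * N)).filter fun p => p.Prime ∧ p ≡ ρ [MOD G] ∧ l ∣ p + 1).card := by
      refine le_trans (card_le_card fun p hp => ?_) card_biUnion_le
      obtain ⟨a, b, c, d, l, l1, l2⟩ := mS p hp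
      exact mem_biUnion.2 ⟨l, l1, mem_filter.2 ⟨mem_Ioc.2 ⟨by omega, b⟩, c, d, l2⟩⟩
    have s3 : (S.card : ℝ) ≤
        N / φ * (4 / Real.log R * (101 / 100 * ((L / 100 + (1 + 2 * C)) / (249 / 500 * L)))) +
          (N : ℝ) ^ (227 / 250 : ℝ) := by
      have b1 : (S.card : ℝ) ≤ ∑ l ∈ Q,
          (((Ioc R (2 * N)).filter fun p => p.Prime ∧ p ≡ ρ [MOD G] ∧ l ∣ p + 1).card : ℝ) := by
        exact_mod_cast s2
      have b2 := b1.trans (sum_le_sum each)
      rw [sum_add_distrib, ← mul_sum, ← mul_sum, ← mul_sum, ← sum_div, sum_const,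
        nsmul_eq_mul] at b2
      have b3 : (Q.card : ℝ) * (R : ℝ) ^ 2 ≤ (N : ℝ) ^ (227 / 250 : ℝ) := by
        calc (Q.card : ℝ) * (R : ℝ) ^ 2
            ≤ (N : ℝ) ^ (127 / 250 : ℝ) * ((N : ℝ) ^ (1 / 5 : ℝ)) ^ 2 := by gcongr
          _ = _ := by
            rw [← Real.rpow_natCast, ← Real.rpow_mul N0.le, ← Real.rpow_add N0]
            norm_num
      have b4 : N / φ * (4 / Real.log R *
            (101 / 100 * ((∑ l ∈ Q, Real.log l / l) / (249 / 500 * L))))
          ≤ N / φ * (4 / Real.log R * (101 / 100 * ((L / 100 + (1 + 2 * C)) / (249 / 500 * L)))) := by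
        gcongr
      linarith
    have s4 := num_Mid2 (K := 1 + 2 * C) (by linarith) h1 logR
    have s5 : (N : ℝ) ^ (227 / 250 : ℝ) * (L + 1) ≤ 2 / 100 * (N / φ) := by
      have b1 : (N : ℝ) ^ (227 / 250 : ℝ) * (N : ℝ) ^ (23 / 250 : ℝ) = N := by
        rw [← Real.rpow_add N0]
        norm_num
      have b2 : (N : ℝ) ^ (227 / 250 : ℝ) * (L + 1) ≤
          (N : ℝ) ^ (227 / 250 : ℝ) * (2 * (1 / (100 * φ) * (N : ℝ) ^ (23 / 250 : ℝ))) :=
        mul_le_mul_of_nonneg_left (by linarith) (by positivity)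
      refine b2.trans (le_of_eq ?_)
      calc _ = 2 / 100 * ((N : ℝ) ^ (227 / 250 : ℝ) * (N : ℝ) ^ (23 / 250 : ℝ) / φ) := by
            field_simp
        _ = _ := by rw [b1]
    have s6 := mul_le_mul_of_nonneg_right s3 (show 0 ≤ L + 1 by linarith)
    have s7 := mul_le_mul_of_nonneg_left s4 (show 0 ≤ (N : ℝ) / φ by positivity)
    rw [mul_div_assoc]
    nlinarith
  rw [hS] at goal
  convert goal

end Pool.Agent.MP_2876a2_nt.Tu

end

noncomputable section
open Finset Filter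
open scoped Pointwise


namespace Pool.Agent.MP_2876a2_nt.Tu

theorem sub_A2 (n D : ℕ) (hn : n ≠ 0) :
    (Icc 1 D).filter (fun d => d ∣ n) ⊆ n.divisors := by
  intro d hd
  exact Nat.mem_divisors.2 ⟨(mem_filter.1 hd).2, hn⟩

theorem pt0_A2 (n D : ℕ) (hn : n ≠ 0) :
    ∑ d ∈ (Icc 1 D).filter (fun d => d ∣ n), La d ≤ Real.log n := by
  rw [← ArithmeticFunction.vonMangoldt_sum]
  exact sum_le_sum_of_subset_of_nonneg (sub_A2 n D hn)
    fun _ _ _ => ArithmeticFunction.vonMangoldt_nonneg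

theorem pt1_A2 (n D l : ℕ) (hn : n ≠ 0) (hl : l.Prime) (hD : D < l) (hd : l ∣ n) :
    ∑ d ∈ (Icc 1 D).filter (fun d => d ∣ n), La d + Real.log l ≤ Real.log n := by
  have hnot : l ∉ (Icc 1 D).filter (fun d => d ∣ n) := by
    intro h
    have := (mem_Icc.1 (mem_filter.1 h).1).2
    omega
  have h1 : ∑ d ∈ insert l ((Icc 1 D).filter (fun d => d ∣ n)), La d ≤ Real.log n := by
    rw [← ArithmeticFunction.vonMangoldt_sum]
    refine sum_le_sum_of_subset_of_nonneg ?_ fun _ _ _ => ArithmeticFunction.vonMangoldt_nonneg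
    exact insert_subset (Nat.mem_divisors.2 ⟨hd, hn⟩) (sub_A2 n D hn)
  rw [sum_insert hnot] at h1
  have h2 : La l = Real.log l := ArithmeticFunction.vonMangoldt_apply_prime hl
  linarith

theorem lg_A2 (N l : ℕ) (a : ℝ) (hN : 1 ≤ N) (h : ⌊(N : ℝ) ^ a⌋₊ < l) :
    a * Real.log N ≤ Real.log l := by
  have hN' : (0 : ℝ) < N := by exact_mod_cast hN
  have h1 : (N : ℝ) ^ a < l := by
    have h2 := Nat.lt_floor_add_one ((N : ℝ) ^ a)
    have h3 : ((⌊(N : ℝ) ^ a⌋₊ + 1 : ℕ) : ℝ) ≤ l := by exact_mod_cast h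
    push_cast at h3
    linarith
  rw [← Real.log_rpow hN']
  exact Real.log_le_log (Real.rpow_pos_of_pos hN' a) h1.le

open Classical in
theorem key_A2 (N p : ℕ) (hN : 1 ≤ N) (hp : p ∈ PN N) :
    Real.log p * ∑ d ∈ (Icc 1 (Dz N)).filter (fun d => d ∣ p + 1), La d ≤
      Real.log p * (123 / 250 * Real.log N + 2) +
        127 / 250 * Real.log N * (if Sm (Dz N) (p + 1) then Real.log p else 0) +
        1 / 100 * Real.log N *
          (if ∃ l : ℕ, l.Prime ∧ Dz N < l ∧ l ≤ Ez N ∧ l ∣ p + 1 then Real.log p else 0) := by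
  have hN' : (1 : ℝ) ≤ N := by exact_mod_cast hN
  have hL : 0 ≤ Real.log N := Real.log_nonneg hN'
  have hlp : 0 ≤ Real.log p := Real.log_natCast_nonneg p
  have hp2 : p ≤ 2 * N := (mem_Ioc.1 (mem_filter.1 hp).1).2
  have hup : Real.log ((p + 1 : ℕ) : ℝ) ≤ Real.log N + 2 := by
    have h1 : ((p + 1 : ℕ) : ℝ) ≤ N * 3 := by
      have : p + 1 ≤ N * 3 := by omega
      exact_mod_cast this
    have h2 : Real.log ((p + 1 : ℕ) : ℝ) ≤ Real.log (N * 3) :=
      Real.log_le_log (by positivity) h1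
    rw [Real.log_mul (by linarith) (by norm_num)] at h2
    have h3 : Real.log 3 ≤ 3 - 1 := Real.log_le_sub_one_of_pos (by norm_num)
    linarith
  have hLp : 0 ≤ Real.log N * Real.log p := mul_nonneg hL hlp
  by_cases hS : Sm (Dz N) (p + 1)
  · have h0 := (pt0_A2 (p + 1) (Dz N) (by omega)).trans hup
    have h1 := mul_le_mul_of_nonneg_left h0 hlp
    rw [if_pos hS]
    split_ifs <;> nlinarith
  · rw [if_neg hS]
    by_cases hB : ∃ l : ℕ, l.Prime ∧ Dz N < l ∧ l ≤ Ez N ∧ l ∣ p + 1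
    · rw [if_pos hB]
      obtain ⟨l, hl, hD, -, hd⟩ := hB
      have h0 := (pt1_A2 (p + 1) (Dz N) l (by omega) hl hD hd).trans hup
      have h1 := lg_A2 N l _ hN hD
      have h2 : ∑ d ∈ (Icc 1 (Dz N)).filter (fun d => d ∣ p + 1), La d ≤
          251 / 500 * Real.log N + 2 := by linarith
      have h3 := mul_le_mul_of_nonneg_left h2 hlp
      nlinarith
    · rw [if_neg hB]
      unfold Sm at hS
      push Not at hS
      obtain ⟨l, hl, hd, hD⟩ := hS
      have hE : Ez N < l := by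
        by_contra hE
        exact hB ⟨l, hl, hD, not_lt.1 hE, hd⟩
      have h0 := (pt1_A2 (p + 1) (Dz N) l (by omega) hl hD hd).trans hup
      have h1 := lg_A2 N l _ hN hE
      have h2 : ∑ d ∈ (Icc 1 (Dz N)).filter (fun d => d ∣ p + 1), La d ≤
          123 / 250 * Real.log N + 2 := by linarith
      have h3 := mul_le_mul_of_nonneg_left h2 hlp
      nlinarith

theorem card_A2 (N : ℕ) (hN : 2 ≤ N) (G : Finset ℕ) (hG : G ⊆ PN N) :
    TH G ≤ G.card * (2 * Real.log N) := by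
  have hN' : (2 : ℝ) ≤ N := by exact_mod_cast hN
  unfold TH
  rw [← nsmul_eq_mul]
  refine sum_le_card_nsmul _ _ _ fun p hp => ?_
  have hp' := mem_Ioc.1 (mem_filter.1 (hG hp)).1
  have h1 : (p : ℝ) ≤ N * N := by
    have : (p : ℝ) ≤ 2 * N := by exact_mod_cast hp'.2
    nlinarith
  have h0 : (0 : ℝ) < p := by
    have : 0 < p := by omega
    exact_mod_cast this
  have h2 := Real.log_le_log h0 h1
  rw [Real.log_mul (by linarith) (by linarith)] at h2
  linarith

theorem num_A2 (n L C T A g b c f : ℝ) (hn : 0 ≤ n) (hL : 20000 * (|C| + 3) ≤ L)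
    (hf : 10000 * f ≤ L) (hT : 9999 / 10000 * n ≤ T) (hA : A ≤ 10001 / 10000 * n)
    (hb : b ≤ 9 / 20 * n) (hg : g ≤ c * (2 * L))
    (h : T * (249 / 500 * L - C) - f * n ≤
      A * (123 / 250 * L + 2) + 127 / 250 * L * g + 1 / 100 * L * b) :
    n ≤ c * (1000 * L) := by
  have hC0 := abs_nonneg C
  have hC1 := le_abs_self C
  have hL0 : 0 < L := by linarith
  have h8 : 9999 / 10000 * n * (249 / 500 * L - |C|) ≤ T * (249 / 500 * L - C) :=
    mul_le_mul hT (by linarith) (by linarith) (by linarith)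
  have h7 : A * (123 / 250 * L + 2) ≤ 10001 / 10000 * n * (123 / 250 * L + 2) :=
    mul_le_mul_of_nonneg_right hA (by linarith)
  have h9 : L * b ≤ L * (9 / 20 * n) := mul_le_mul_of_nonneg_left hb hL0.le
  have h10 : L * g ≤ L * (c * (2 * L)) := mul_le_mul_of_nonneg_left hg hL0.le
  have h11 : n * (20000 * (|C| + 3)) ≤ n * L := mul_le_mul_of_nonneg_left hL hn
  have h12 : 0 ≤ n * |C| := mul_nonneg hn hC0
  have h15 : n * (10000 * f) ≤ n * L := mul_le_mul_of_nonneg_left hf hn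
  have h13 : L * n ≤ L * (c * (1000 * L)) := by nlinarith
  exact le_of_mul_le_mul_left h13 hL0

theorem sA2 (hT : StTh) (hL : StLo2) (hM : StMid2) : StA2 := by
  classical
  intro G ρ hG hc
  obtain ⟨C, hC⟩ := hL G ρ hG hc
  have hlog : Tendsto (fun N : ℕ => Real.log N) atTop atTop :=
    Real.tendsto_log_atTop.comp tendsto_natCast_atTop_atTop
  have hf0 : (0 : ℝ) < G.totient := by exact_mod_cast Nat.totient_pos.2 hG
  have hfG : (G.totient : ℝ) ≤ G := by exact_mod_cast Nat.totient_le G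
  have hG0 : (0 : ℝ) < G := by exact_mod_cast hG
  filter_upwards [hC, hM G ρ hG, hT G ρ hG hc (1 / (10000 * G.totient)) (by positivity),
    hT 1 0 one_pos (by simp) (1 / 10000) (by norm_num),
    hlog.eventually_ge_atTop (20000 * (|C| + 3)),
    hlog.eventually_ge_atTop (10000 * G.totient),
    eventually_ge_atTop 2] with N h1 h2 h3 h3' h4 h4' hN
  have hN' : (2 : ℝ) ≤ N := by exact_mod_cast hN
  have hsub : PA N G ρ ⊆ PN N := filter_subset _ _
  have h5 := sum_le_sum fun p (hp : p ∈ PA N G ρ) => key_A2 N p (by omega) (hsub hp)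
  rw [sum_add_distrib, sum_add_distrib, ← sum_mul, ← mul_sum, ← mul_sum, ← sum_filter,
    ← sum_filter] at h5
  have h6 := card_A2 N hN ((PA N G ρ).filter fun p => Sm (Dz N) (p + 1))
    ((filter_subset _ _).trans hsub)
  rw [PA_one, Nat.totient_one, Nat.cast_one, div_one] at h3'
  have hC0 := abs_nonneg C
  have hL0 : 0 < Real.log N := by linarith
  have e1 : (N : ℝ) = G.totient * (N / G.totient) := by field_simp
  have e2 : 1 / (10000 * (G.totient : ℝ)) * N = 1 / 10000 * (N / G.totient) := by field_simp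
  have e3 : 9999 / 10000 * ((N : ℝ) / G.totient) ≤ TH (PN N) / G.totient := by
    rw [← mul_div_assoc]
    refine div_le_div_of_nonneg_right ?_ hf0.le
    have := (abs_le.1 h3').1
    linarith
  have e4 : TH (PA N G ρ) ≤ 10001 / 10000 * ((N : ℝ) / G.totient) := by
    have := (abs_le.1 h3).2
    rw [e2] at this
    linarith
  rw [mul_div_assoc] at h2
  have h14 := num_A2 (N / G.totient) (Real.log N) C (TH (PN N) / G.totient) (TH (PA N G ρ)) _ _ _
    G.totient (by positivity) h4 h4' e3 e4 h2 h6 (by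
      rw [← e1]
      exact h1.trans h5)
  rw [div_le_iff₀ (by positivity)]
  have e5 : (G.totient : ℝ) * (N / G.totient) ≤ G * (N / G.totient) :=
    mul_le_mul_of_nonneg_right hfG (by positivity)
  have e6 := mul_le_mul_of_nonneg_left h14 hG0.le
  linarith

end Pool.Agent.MP_2876a2_nt.Tu

end

noncomputable section
open Finset Filter
open scoped Pointwise


namespace Pool.Agent.MP_2876a2_nt.Tu

theorem dz_Adm (j : ℕ) : Dz (j ^ 5000) = j ^ 2490 := by
  unfold Dz
  rw [Nat.cast_pow, ← Real.rpow_natCast, ← Real.rpow_mul (Nat.cast_nonneg j),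
    show ((5000 : ℕ) : ℝ) * (249 / 500) = (2490 : ℕ) by norm_num, Real.rpow_natCast,
    ← Nat.cast_pow, Nat.floor_natCast]

theorem sAdm (hA : StA2) : StAdm := by
  intro G ρ hG hρ
  have g : (0 : ℝ) < G := by exact_mod_cast hG
  have t : Tendsto (fun j : ℕ => j ^ 5000) atTop atTop := tendsto_pow_atTop (by norm_num)
  have l := (Real.isLittleO_log_id_atTop.bound (c := 1 / (5000000 * G)) (by positivity))
  filter_upwards [t.eventually (hA G ρ hG hρ), tendsto_natCast_atTop_atTop.eventually l,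
    eventually_ge_atTop 2] with j h1 h2 h3
  rw [dz_Adm] at h1
  have j1 : (1 : ℝ) < j := by exact_mod_cast h3
  have lp := Real.log_pos j1
  rw [id, Real.norm_of_nonneg lp.le, Real.norm_of_nonneg (by linarith), one_div, inv_mul_eq_div,
    le_div_iff₀ (by positivity)] at h2
  refine Nat.cast_le (α := ℝ).1 (le_trans ?_ h1)
  rw [Nat.cast_pow, Nat.cast_pow, Real.log_pow, le_div_iff₀ (by positivity),
    show (5000 : ℕ) = 4999 + 1 from rfl, pow_succ (j : ℝ) 4999]
  refine mul_le_mul_of_nonneg_left ?_ (pow_nonneg (by linarith) _)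
  push_cast
  linarith

end Pool.Agent.MP_2876a2_nt.Tu

end

noncomputable section
open Finset Filter
open scoped Pointwise


namespace Pool.Agent.MP_2876a2_nt.Tu

theorem mem_Div4 {N p : ℕ} (h : p ∈ PA N 4 1) : p.Prime ∧ p ≡ 1 [MOD 4] ∧ N < p ∧ p ≤ 2 * N := by
  simp only [PA, PN, mem_filter, mem_Ioc] at h
  tauto

theorem blk_Div4 {m : ℕ} (h : |TH (PA (2 ^ m) 4 1) - (2 ^ m : ℕ) / (Nat.totient 4 : ℕ)| ≤
    1 / 4 * (2 ^ m : ℕ)) : 1 / 8 * (1 / ((m : ℝ) + 1)) ≤ ∑ p ∈ PA (2 ^ m) 4 1, (1 / p : ℝ) := by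
  have ht : Nat.totient 4 = 2 := by decide
  rw [ht] at h
  have hN : (0 : ℝ) < (2 ^ m : ℕ) := by positivity
  have h1 : 1 / 4 * ((2 ^ m : ℕ) : ℝ) ≤ TH (PA (2 ^ m) 4 1) := by
    have := (abs_le.1 h).1
    push_cast at this ⊢
    linarith
  have h2 : TH (PA (2 ^ m) 4 1) ≤
      (2 * ((2 ^ m : ℕ) : ℝ) * ((m : ℝ) + 1)) * ∑ p ∈ PA (2 ^ m) 4 1, (1 / p : ℝ) := by
    unfold TH
    rw [mul_sum]
    refine sum_le_sum fun p hp => ?_
    obtain ⟨hp1, -, -, hp4⟩ := mem_Div4 hp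
    have hp0 : (0 : ℝ) < p := by exact_mod_cast hp1.pos
    have hp5 : (p : ℝ) ≤ 2 * ((2 ^ m : ℕ) : ℝ) := by exact_mod_cast hp4
    have hl : Real.log p ≤ (m : ℝ) + 1 := by
      have e : (2 : ℝ) * ((2 ^ m : ℕ) : ℝ) = 2 ^ (m + 1) := by push_cast; ring
      have h3 := Real.log_le_log hp0 (hp5.trans e.le)
      rw [Real.log_pow] at h3
      have h4 : Real.log 2 ≤ 1 := by linarith [Real.log_two_lt_d9]
      have h5 : ((m + 1 : ℕ) : ℝ) * Real.log 2 ≤ ((m + 1 : ℕ) : ℝ) * 1 := by gcongr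
      push_cast at h3 h5
      linarith
    rw [mul_one_div, le_div_iff₀ hp0, mul_comm]
    exact mul_le_mul hp5 hl (Real.log_natCast_nonneg p) (by positivity)
  have hm : (0 : ℝ) < (m : ℝ) + 1 := by positivity
  rw [mul_one_div, div_le_iff₀ hm]
  have h3 : ((2 ^ m : ℕ) : ℝ) * (1 / 8) ≤
      ((2 ^ m : ℕ) : ℝ) * ((∑ p ∈ PA (2 ^ m) 4 1, (1 / p : ℝ)) * ((m : ℝ) + 1)) := by
    linarith
  exact le_of_mul_le_mul_left h3 hN

theorem sDiv4 (hT : StTh) : StDiv4 := by
  intro x z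
  obtain ⟨N0, hN0⟩ := eventually_atTop.1 (hT 4 1 (by norm_num) (by norm_num) (1 / 4) (by norm_num))
  set m0 := N0 + z with hm0
  have hbig : ∀ m, m0 ≤ m → N0 ≤ 2 ^ m ∧ z ≤ 2 ^ m := fun m hm => by
    have := Nat.lt_two_pow_self (n := m)
    omega
  have key : ∀ n : ℕ, ∃ U : Finset ℕ,
      (∀ p ∈ U, p.Prime ∧ p ≡ 1 [MOD 4] ∧ z < p ∧ p ≤ 2 ^ (m0 + n)) ∧
      1 / 8 * (∑ i ∈ range (m0 + n), 1 / ((i : ℝ) + 1) - ∑ i ∈ range m0, 1 / ((i : ℝ) + 1)) ≤
        ∑ p ∈ U, (1 / p : ℝ) := by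
    intro n
    induction n with
    | zero => exact ⟨∅, by simp, by simp⟩
    | succ n ih =>
      obtain ⟨U, h1, h2⟩ := ih
      obtain ⟨hb1, hb2⟩ := hbig (m0 + n) (by omega)
      have h3 := blk_Div4 (hN0 _ hb1)
      have hd : Disjoint U (PA (2 ^ (m0 + n)) 4 1) := disjoint_left.2 fun p hp hq => by
        have := (h1 p hp).2.2.2
        have := (mem_Div4 hq).2.2.1
        omega
      have e : 2 ^ (m0 + (n + 1)) = 2 * 2 ^ (m0 + n) := by rw [← add_assoc, pow_succ, mul_comm]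
      refine ⟨U ∪ PA (2 ^ (m0 + n)) 4 1, fun p hp => ?_, ?_⟩
      · rcases mem_union.1 hp with hp | hp
        · obtain ⟨a, b, c, d⟩ := h1 p hp
          exact ⟨a, b, c, by omega⟩
        · obtain ⟨a, b, c, d⟩ := mem_Div4 hp
          exact ⟨a, b, by omega, by omega⟩
      · rw [sum_union hd, ← add_assoc, sum_range_succ]
        linarith
  obtain ⟨n, hn⟩ := eventually_atTop.1 (Real.tendsto_sum_range_one_div_nat_succ_atTop.eventually_ge_atTop
    (8 * x + ∑ i ∈ range m0, 1 / ((i : ℝ) + 1)))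
  obtain ⟨U, h1, h2⟩ := key n
  refine ⟨U, fun p hp => ⟨(h1 p hp).1, (h1 p hp).2.1, (h1 p hp).2.2.1⟩, ?_⟩
  have := hn (m0 + n) (by omega)
  linarith

end Pool.Agent.MP_2876a2_nt.Tu

end

noncomputable section
open Finset Filter
open scoped Pointwise


namespace Pool.Agent.MP_2876a2_nt.Tu

theorem prod_ge_Cof4 (V : Finset ℕ) : 1 + ∑ p ∈ V, (1 / p : ℝ) ≤ ∏ p ∈ V, (1 + 1 / p : ℝ) := by
  induction V using Finset.induction_on with
  | empty => simp
  | insert a s ha ih =>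
    rw [sum_insert ha, prod_insert ha]
    have h1 : (0 : ℝ) ≤ 1 / a := by positivity
    have h2 : (0 : ℝ) ≤ ∑ p ∈ s, (1 / p : ℝ) := sum_nonneg fun p _ => by positivity
    nlinarith [mul_le_mul_of_nonneg_left ih h1, mul_nonneg h1 h2]

theorem sig_Cof4 (V : Finset ℕ) (hV : ∀ p ∈ V, p.Prime) :
    (sg (∏ p ∈ V, p) : ℝ) / (∏ p ∈ V, p : ℕ) = ∏ p ∈ V, (1 + 1 / p : ℝ) := by
  have h := ArithmeticFunction.IsMultiplicative.map_prod_of_prime
    (ArithmeticFunction.isMultiplicative_sigma (k := 1)) V hV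
  rw [show sg (∏ p ∈ V, p) = ∏ p ∈ V, sg p from h]
  push_cast
  rw [← prod_div_distrib]
  refine prod_congr rfl fun p hp => ?_
  have hp0 : (p : ℝ) ≠ 0 := by exact_mod_cast (hV p hp).ne_zero
  have h1 : sg p = p + 1 := by
    have := ArithmeticFunction.sigma_one_apply_prime_pow (i := 1) (hV p hp)
    simpa [sum_range_succ, add_comm] using this
  rw [h1]
  push_cast
  field_simp

theorem sCof4 (hD : StDiv4) : StCof4 := by
  classical
  intro z1 t ε h1t hε
  obtain ⟨z0, hz0⟩ := exists_nat_ge (t / ε)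
  obtain ⟨z, hz⟩ : ∃ z, z = z0 + z1 + 2 := ⟨_, rfl⟩
  have hzpos : (0 : ℝ) < z := by rw [hz]; positivity
  have htz : t / z ≤ ε := by
    rw [div_le_iff₀ hzpos]
    rw [div_le_iff₀ hε] at hz0
    have : (z0 : ℝ) ≤ z := by exact_mod_cast (by omega : z0 ≤ z)
    nlinarith
  obtain ⟨V, hUp, hVsum⟩ := hD t z
  have hVprod : t ≤ ∏ p ∈ V, (1 + 1 / p : ℝ) := by
    have := prod_ge_Cof4 V
    linarith
  obtain ⟨V1, hV1, hmin⟩ := exists_min_image
    (V.powerset.filter fun X : Finset ℕ => t ≤ ∏ p ∈ X, (1 + 1 / (p : ℕ) : ℝ)) card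
    ⟨V, mem_filter.2 ⟨mem_powerset_self V, hVprod⟩⟩
  obtain ⟨hsub, hge⟩ := mem_filter.1 hV1
  have hsub' := mem_powerset.1 hsub
  have hmem : ∀ p ∈ V1, p.Prime ∧ p ≡ 1 [MOD 4] ∧ z < p := fun p hp => hUp p (hsub' hp)
  have hsig := sig_Cof4 V1 fun p hp => (hmem p hp).1
  refine ⟨∏ p ∈ V1, p, prod_pos fun p hp => (hmem p hp).1.pos, ?_, ?_, ?_⟩
  · intro p hp
    rw [Nat.primeFactors_prod fun p hp => (hmem p hp).1] at hp
    have := (hmem p hp).2.2
    exact ⟨(hmem p hp).2.1, by omega⟩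
  · rw [hsig]; exact hge
  · rw [hsig]
    rcases V1.eq_empty_or_nonempty with he | ⟨p, hp⟩
    · rw [he, prod_empty]; linarith
    · have hlt : ∏ q ∈ V1.erase p, (1 + 1 / q : ℝ) < t := by
        by_contra hc
        have := hmin (V1.erase p) (mem_filter.2 ⟨mem_powerset.2 ((erase_subset _ _).trans hsub'),
          not_lt.1 hc⟩)
        have h3 := card_erase_lt_of_mem hp
        omega
      rw [← mul_prod_erase V1 (fun q : ℕ => (1 + 1 / q : ℝ)) hp]
      have hpz : (1 / p : ℝ) ≤ 1 / z :=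
        one_div_le_one_div_of_le hzpos (by exact_mod_cast (hmem p hp).2.2.le)
      have hp0 : (0 : ℝ) ≤ 1 / p := by positivity
      have h4 : (1 + 1 / p : ℝ) * ∏ q ∈ V1.erase p, (1 + 1 / q : ℝ) ≤ (1 + 1 / p) * t :=
        mul_le_mul_of_nonneg_left hlt.le (by linarith)
      have h5 : 1 / (p : ℝ) * t ≤ 1 / z * t := mul_le_mul_of_nonneg_right hpz (by linarith)
      have h6 : 1 / (z : ℝ) * t = t / z := by ring
      nlinarith

end Pool.Agent.MP_2876a2_nt.Tu

end

noncomputable section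
open Finset Filter
open scoped Pointwise


namespace Pool.Agent.MP_2876a2_nt.Tu

theorem new_Pads (hC : StCof4) (E : Finset ℕ) (hE : ∀ d ∈ E, 1 < d) (z : ℕ) (t ε : ℝ)
    (ht : 1 ≤ t) (hε : 0 < ε) : ∃ c : ℕ, 0 < c ∧
      (∀ p ∈ c.primeFactors, p ≡ 1 [MOD 4] ∧ z < p) ∧ (∀ d ∈ E, c.Coprime d) ∧ c ∉ E ∧
      t ≤ (sg c : ℝ) / c ∧ (sg c : ℝ) / c ≤ t + ε := by
  obtain ⟨c, hc, hp, h1, h2⟩ := hC (max z (E.sup id)) t ε ht hε
  have hco : ∀ d ∈ E, c.Coprime d := fun d hd => by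
    refine Nat.Coprime.symm (Nat.coprime_of_dvd fun p pp hpd hpc => ?_)
    have h3 := (hp p (Nat.mem_primeFactors.2 ⟨pp, hpc, hc.ne'⟩)).2
    have h4 : d ≤ E.sup id := le_sup (f := id) hd
    have h5 := Nat.le_of_dvd (by have := hE d hd; omega) hpd
    omega
  refine ⟨c, hc, fun p h => ⟨(hp p h).1, by have := (hp p h).2; omega⟩, hco, fun h => ?_, h1, h2⟩
  have := (Nat.coprime_self c).1 (hco c h)
  have h6 := hE c h
  omega

theorem ins_Pads {E : Finset ℕ} {c : ℕ} (hE : (E : Set ℕ).Pairwise Nat.Coprime)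
    (hc : ∀ d ∈ E, c.Coprime d) : ((insert c E : Finset ℕ) : Set ℕ).Pairwise Nat.Coprime := by
  rw [coe_insert]
  exact hE.insert fun d hd _ => ⟨hc d hd, (hc d hd).symm⟩

theorem base_Pads (hC : StCof4) (l z : ℕ) (hl : 1 ≤ l) (n : ℕ) : ∃ E : Finset ℕ, E.card = n ∧
    (∀ d ∈ E, 1 < d ∧ ∀ p ∈ d.primeFactors, p ≡ 1 [MOD 4] ∧ z < p) ∧
    (E : Set ℕ).Pairwise Nat.Coprime ∧ ∑ d ∈ E, (d : ℝ) / (sg d : ℝ) ≤ n / (4 * l) := by
  have hl' : (1 : ℝ) ≤ l := by exact_mod_cast hl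
  induction n with
  | zero => exact ⟨∅, rfl, by simp, by simp, by simp⟩
  | succ n ih =>
    obtain ⟨E, h1, h2, h3, h4⟩ := ih
    obtain ⟨c, hc, hp, hco, hn, ha, -⟩ := new_Pads hC E (fun d hd => (h2 d hd).1) z (4 * l) 1
      (by linarith) one_pos
    have hc' : (0 : ℝ) < c := by exact_mod_cast hc
    have hc1 : 1 < c := by
      by_contra h
      have : c = 1 := by omega
      subst this
      simp [sg] at ha
      linarith
    refine ⟨insert c E, by rw [card_insert_of_notMem hn, h1], fun d hd => ?_, ins_Pads h3 hco, ?_⟩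
    · rcases mem_insert.1 hd with rfl | hd
      · exact ⟨hc1, hp⟩
      · exact h2 d hd
    · rw [sum_insert hn]
      have h5 : (c : ℝ) / (sg c : ℝ) ≤ 1 / (4 * l) := by
        have := one_div_le_one_div_of_le (by linarith : (0 : ℝ) < 4 * l) ha
        rwa [one_div_div] at this
      push_cast
      rw [add_div]
      linarith

theorem sPads (hC : StCof4) : StPads := by
  intro l z τ η hl h1 h2 hη
  have hl' : (1 : ℝ) ≤ l := by exact_mod_cast hl
  obtain ⟨E, e1, e2, e3, e4⟩ := base_Pads hC l z hl (l - 1)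
  have e5 : ((l - 1 : ℕ) : ℝ) / (4 * l) ≤ 1 / 4 := by
    rw [Nat.cast_sub hl, div_le_div_iff₀ (by linarith) (by norm_num)]
    push_cast
    linarith
  have e6 : 0 ≤ ∑ d ∈ E, (d : ℝ) / (sg d : ℝ) := sum_nonneg fun d _ => by positivity
  set s0 := ∑ d ∈ E, (d : ℝ) / (sg d : ℝ) with hs0
  have ht0 : 0 < τ - s0 := by linarith
  have ht1 : τ - s0 ≤ 1 := by linarith
  obtain ⟨c, hc, hp, hco, hn, ha, hb⟩ := new_Pads hC E (fun d hd => (e2 d hd).1) z (1 / (τ - s0)) η
    (by rw [le_div_iff₀ ht0]; linarith) hη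
  refine ⟨insert c E, by rw [card_insert_of_notMem hn, e1]; omega, fun d hd => ?_,
    ins_Pads e3 hco, ?_⟩
  · rcases mem_insert.1 hd with rfl | hd
    · exact ⟨hc, hp⟩
    · exact ⟨by have := (e2 d hd).1; omega, (e2 d hd).2⟩
  · rw [sum_insert hn, ← hs0]
    have hi : 0 < 1 / (τ - s0) := by positivity
    have hr : 0 < (sg c : ℝ) / c := by linarith
    have k1 : (c : ℝ) / (sg c : ℝ) ≤ τ - s0 := by
      have := one_div_le_one_div_of_le hi ha
      rwa [one_div_div, one_div_one_div] at this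
    have k2 : τ - s0 - η ≤ (c : ℝ) / (sg c : ℝ) := by
      have := one_div_le_one_div_of_le hr hb
      rw [one_div_div] at this
      refine le_trans ?_ this
      rw [le_div_iff₀ (by linarith)]
      have k3 : (τ - s0) * (1 / (τ - s0)) = 1 := by field_simp
      have k4 : 1 ≤ 1 / (τ - s0) := by rw [le_div_iff₀ ht0]; linarith
      nlinarith [mul_le_mul_of_nonneg_left k4 hη.le, mul_le_mul_of_nonneg_left ht1 hη.le,
        mul_pos hη hη]
    rw [abs_le]
    constructor <;> linarith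

end Pool.Agent.MP_2876a2_nt.Tu

end

noncomputable section
open Finset Filter
open scoped Pointwise


namespace Pool.Agent.MP_2876a2_nt.Tu

theorem one_Units {l A B y : ℤ} (hl : Prime l) (hA : ¬ l ∣ A) (hB : ¬ l ∣ B) (hB2 : ¬ 2 ∣ B)
    (h : IsCoprime A B) (hy : 2 ∣ y) : ∃ a b : ℤ, A * a + B * b = y ∧ ¬ l ∣ a ∧ ¬ l ∣ b := by
  obtain ⟨ε, hε, h1⟩ : ∃ ε : ℤ, ¬ l ∣ ε ∧ ¬ l ∣ y - B * ε := by
    by_contra hc
    push Not at hc
    have h1 := hc 1 hl.not_dvd_one
    have h2 := hc (-1) fun k => hl.not_dvd_one (dvd_neg.1 k)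
    have h3 : l ∣ 2 * B := by
      simpa only [show y - B * -1 - (y - B * 1) = 2 * B by ring] using h2.sub h1
    have h4 : (2 : ℤ) ∣ l := (hl.associated_of_dvd Int.prime_two
      ((hl.dvd_or_dvd h3).resolve_right hB)).symm.dvd
    exact hB2 (by simpa using hy.sub (h4.trans h1))
  obtain ⟨a, b, hab⟩ : IsCoprime A (B * l) :=
    h.mul_right ((hl.irreducible.coprime_iff_not_dvd.2 hA).symm)
  refine ⟨a * (y - B * ε), ε + l * (b * (y - B * ε)), by linear_combination (y - B * ε) * hab,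
    fun k => h1 ?_, fun k => hε ((dvd_add_left (dvd_mul_right _ _)).1 k)⟩
  rw [show y - B * ε = A * (a * (y - B * ε)) + l * (B * (b * (y - B * ε))) by
    linear_combination (B * ε - y) * hab]
  exact (k.mul_left _).add (dvd_mul_right _ _)

theorem pr_Units {l A B C s : ℤ} (hl : Prime l) (hA : ¬ 2 ∣ A) (hB : ¬ 2 ∣ B) (hC : ¬ 2 ∣ C)
    (ab : IsCoprime A B) (ac : IsCoprime A C) (bc : IsCoprime B C) (hs : ¬ 2 ∣ s) :
    ∃ a b c : ℤ, A * a + B * b + C * c = s ∧ ¬ l ∣ a ∧ ¬ l ∣ b ∧ ¬ l ∣ c := by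
  have k : ∀ {x y : ℤ}, IsCoprime x y → l ∣ x → ¬ l ∣ y := fun h hx hy =>
    hl.not_isUnit (h.isUnit_of_dvd' hx hy)
  by_cases h1 : l ∣ A
  · obtain ⟨b, c, h, hb, hc⟩ := one_Units (y := s - A) hl (k ab h1) (k ac h1) hC bc (by omega)
    exact ⟨1, b, c, by linear_combination h, hl.not_dvd_one, hb, hc⟩
  by_cases h2 : l ∣ B
  · obtain ⟨a, c, h, ha, hc⟩ := one_Units (y := s - B) hl h1 (k bc h2) hC ac (by omega)
    exact ⟨a, 1, c, by linear_combination h, ha, hl.not_dvd_one, hc⟩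
  · obtain ⟨a, b, h, ha, hb⟩ := one_Units (y := s - C) hl h1 h2 hB ab (by omega)
    exact ⟨a, b, 1, by linear_combination h, ha, hb, hl.not_dvd_one⟩

theorem all_Units {A B C s : ℤ} (hA : ¬ 2 ∣ A) (hB : ¬ 2 ∣ B) (hC : ¬ 2 ∣ C)
    (ab : IsCoprime A B) (ac : IsCoprime A C) (bc : IsCoprime B C) (hs : ¬ 2 ∣ s) (W : ℕ)
    (hW : W ≠ 0) : ∃ a b c : ℤ, A * a + B * b + C * c = s ∧
      IsCoprime a W ∧ IsCoprime b W ∧ IsCoprime c W := by
  induction W using Nat.recOnPrimeCoprime with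
  | zero => exact absurd rfl hW
  | prime_pow p n hp =>
    have hl := Nat.prime_iff_prime_int.1 hp
    obtain ⟨a, b, c, h, ha, hb, hc⟩ := pr_Units hl hA hB hC ab ac bc hs
    have k : ∀ {x : ℤ}, ¬ (p : ℤ) ∣ x → IsCoprime x ((p ^ n : ℕ) : ℤ) := fun h => by
      rw [Nat.cast_pow]
      exact (hl.irreducible.coprime_iff_not_dvd.2 h).symm.pow_right
    exact ⟨a, b, c, h, k ha, k hb, k hc⟩
  | coprime m n hm hn h ihm ihn =>
    obtain ⟨a, b, c, h1, ha, hb, hc⟩ := ihm (by omega)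
    obtain ⟨a', b', c', h2, ha', hb', hc'⟩ := ihn (by omega)
    obtain ⟨x, y, hxy⟩ := Nat.isCoprime_iff_coprime.2 h
    have k : ∀ {u v : ℤ}, IsCoprime u m → IsCoprime v n →
        IsCoprime (u + m * (x * (v - u))) ((m * n : ℕ) : ℤ) := fun {u v} hu hv => by
      rw [Nat.cast_mul]
      refine (hu.add_mul_left_left _).mul_right ?_
      rw [show u + m * (x * (v - u)) = v + n * (y * (u - v)) by linear_combination (v - u) * hxy]
      exact hv.add_mul_left_left _
    exact ⟨_, _, _, by linear_combination h1 + m * x * (h2 - h1), k ha ha', k hb hb', k hc hc'⟩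

theorem red_Units {W : ℕ} (hW : 0 < W) (a : ℤ) : ∃ n : ℕ, n < W ∧ (W : ℤ) ∣ n - a := by
  have h0 : (0 : ℤ) < W := by exact_mod_cast hW
  have h1 := Int.emod_nonneg a h0.ne'
  have h2 := Int.emod_lt_of_pos a h0
  refine ⟨(a % W).toNat, by omega, ?_⟩
  rw [Int.toNat_of_nonneg h1]
  exact (Int.mod_modEq a W).symm.dvd

theorem inv_Units {W : ℕ} (hW : 0 < W) {a : ℤ} (h : IsCoprime a W) : ∃ r u : ℕ,
    (r < W ∧ r.Coprime W ∧ r * u ≡ 1 [MOD W]) ∧ (W : ℤ) ∣ u - a := by
  obtain ⟨x, y, hxy⟩ := h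
  obtain ⟨r, hr, k, hk⟩ := red_Units hW x
  obtain ⟨u, -, j, hj⟩ := red_Units hW a
  have h1 : r * u ≡ 1 [MOD W] := by
    refine (Nat.modEq_iff_dvd.2 ⟨k * u + x * j - y, ?_⟩).symm
    push_cast
    linear_combination (u : ℤ) * hk + x * hj + hxy
  exact ⟨r, u, ⟨hr, Nat.coprime_of_mul_modEq_one u h1, h1⟩, j, hj⟩

theorem sUnits : StUnits := by
  intro W z X hW hc h2 hz
  have o : ∀ e < 3, ¬ (2 : ℤ) ∣ X e := fun e he h => h2 e he (by exact_mod_cast h)
  have c : ∀ e < 3, ∀ e' < 3, e ≠ e' → IsCoprime (X e : ℤ) (X e') := fun e he e' he' h =>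
    Nat.isCoprime_iff_coprime.2 (hc e he e' he' h)
  have o0 := o 0 (by norm_num)
  have o1 := o 1 (by norm_num)
  have o2 := o 2 (by norm_num)
  obtain ⟨a, b, d, h, ha, hb, hd⟩ := all_Units (s := -(z + X 0 + X 1 + X 2)) o0 o1 o2
    (c 0 (by norm_num) 1 (by norm_num) (by norm_num)) (c 0 (by norm_num) 2 (by norm_num) (by norm_num))
    (c 1 (by norm_num) 2 (by norm_num) (by norm_num)) (by omega) W hW.ne'
  obtain ⟨r0, u0, p0, k0, q0⟩ := inv_Units hW ha
  obtain ⟨r1, u1, p1, k1, q1⟩ := inv_Units hW hb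
  obtain ⟨r2, u2, p2, k2, q2⟩ := inv_Units hW hd
  refine ⟨fun e => if e = 0 then r0 else if e = 1 then r1 else r2,
    fun e => if e = 0 then u0 else if e = 1 then u1 else u2, fun e _ => ?_, ?_⟩
  · dsimp only
    split_ifs
    exacts [p0, p1, p2]
  · refine Int.natCast_dvd_natCast.1 ⟨X 0 * k0 + X 1 * k1 + X 2 * k2, ?_⟩
    simp only [sum_range_succ, sum_range_zero]
    push_cast
    linear_combination h + X 0 * q0 + X 1 * q1 + X 2 * q2

end Pool.Agent.MP_2876a2_nt.Tu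

end

noncomputable section
/-! The target of the circle method: size and residue. -/


open Finset Filter
open scoped Pointwise


namespace Pool.Agent.MP_2876a2_nt.Tu

theorem size_Key {S η X n p : ℝ} (hη : 0 < η) (hX : 0 ≤ X) (hn : 0 ≤ n) (h1 : n * p ≤ S)
    (h2 : S ≤ (1 + η) * (n * p)) (h3 : 1 ≤ η * p) :
    X * S - η * (X * S) ≤ X * n * (p + 1) ∧ X * n * (p + 1) ≤ X * S + η * (X * S) := by
  have a1 := mul_le_mul_of_nonneg_left h1 hη.le
  have a2 := mul_le_mul_of_nonneg_left h3 hn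
  have a3 : S - η * S ≤ n * (p + 1) := by linarith
  have a4 : n * (p + 1) ≤ S + η * S := by linarith
  have a5 := mul_le_mul_of_nonneg_left a3 hX
  have a6 := mul_le_mul_of_nonneg_left a4 hX
  constructor <;> linarith

theorem sKey : StKey := by
  intro H S W z g T' Pd η X n p u hη _ hz hH he hW hS hP h1 h2 h3
  have hb : ∀ e < 3, (X e : ℝ) * S - η * (X e * S) ≤ X e * n e * (p e + 1) ∧
      (X e : ℝ) * n e * (p e + 1) ≤ X e * S + η * (X e * S) := fun e h => by
    obtain ⟨-, -, a1, a2, a3⟩ := he e h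
    exact size_Key hη (Nat.cast_nonneg _) (Nat.cast_nonneg _) (by exact_mod_cast a1)
      (by exact_mod_cast a2) a3
  have hc : ∀ e < 3, (n e : ZMod W) * (p e + 1) = g * (1 + u e) := fun e h => by
    obtain ⟨a1, a2, -⟩ := he e h
    have b1 := (ZMod.natCast_eq_natCast_iff _ _ _).2 a1
    have b2 := (ZMod.natCast_eq_natCast_iff _ _ _).2 a2
    push_cast at b1 b2
    linear_combination (1 + u e : ZMod W) * b1 - (n e : ZMod W) * b2
  simp only [sum_range_succ, range_zero, sum_empty, zero_add] at hH hW h1 ⊢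
  have b0 := hb 0 (by norm_num)
  have b1 := hb 1 (by norm_num)
  have b2 := hb 2 (by norm_num)
  have hS0 : (0 : ℝ) ≤ S := Nat.cast_nonneg _
  have hz0 : (0 : ℝ) ≤ z := Nat.cast_nonneg _
  have hH' : 2 * ((z : ℝ) + (X 0 + X 1 + X 2)) ≤ H := by exact_mod_cast hH
  have c1 := mul_le_mul_of_nonneg_right hz hS0
  have c2 := mul_le_mul_of_nonneg_right hH' (mul_nonneg hη.le hS0)
  have c3 := mul_nonneg hz0 (mul_nonneg hη.le hS0)
  have c4 : 0 ≤ η * H * S := by positivity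
  push_cast at h1
  obtain ⟨d1, d2⟩ := abs_le.1 h1
  obtain ⟨d3, d4⟩ := abs_le.1 h3
  have hle : X 0 * n 0 * (p 0 + 1) + X 1 * n 1 * (p 1 + 1) + X 2 * n 2 * (p 2 + 1) + Pd ≤
      H * S := by
    rw [← Nat.cast_le (α := ℝ)]
    push_cast
    linarith [b0.2, b1.2, b2.2]
  obtain ⟨T, hT⟩ := Nat.exists_eq_add_of_le' hle
  refine ⟨T, by omega, ?_, ?_⟩
  · rw [← ZMod.natCast_eq_natCast_iff]
    have e1 := (ZMod.natCast_eq_zero_iff _ _).2 hW
    have e2 := (ZMod.natCast_eq_zero_iff _ _).2 hS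
    have e3 := (ZMod.natCast_eq_zero_iff _ _).2 hP
    have e4 := (ZMod.natCast_eq_natCast_iff _ _ _).2 h2
    rw [hT] at e2
    push_cast at e1 e2 e4
    linear_combination e2 - e3 - e4 - (g : ZMod W) * e1 - (X 0 : ZMod W) * hc 0 (by norm_num) -
      (X 1 : ZMod W) * hc 1 (by norm_num) - (X 2 : ZMod W) * hc 2 (by norm_num)
  · have e := congrArg (Nat.cast : ℕ → ℝ) hT
    push_cast at e
    rw [abs_le]
    constructor <;> linarith [b0.1, b1.1, b2.1, b0.2, b1.2, b2.2]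

end Pool.Agent.MP_2876a2_nt.Tu

end

noncomputable section
open Finset Filter
open scoped Pointwise


namespace Pool.Agent.MP_2876a2_nt.Tu

theorem frac_End (n q S : ℕ) (hS : 0 < S) (h : sg n * q = S) :
    (n : ℚ) / (sg n : ℚ) = ((n * q : ℕ) : ℚ) / S := by
  have h1 : sg n ≠ 0 := by
    intro h0
    rw [h0, zero_mul] at h
    omega
  have h2 : q ≠ 0 := by
    intro h0
    rw [h0, mul_zero] at h
    omega
  have h1' : ((sg n : ℕ) : ℚ) ≠ 0 := by exact_mod_cast h1
  have h2' : (q : ℚ) ≠ 0 := by exact_mod_cast h2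
  rw [← h]
  push_cast
  field_simp

theorem sEnd : StEnd := by
  intro M S v y E hS hv hc hE hEc hsum
  have hinj : Set.InjOn v (range M : Set ℕ) := by
    intro i hi i' hi' e
    by_contra hne
    have h1 := hc i (by simpa using hi) i' (by simpa using hi') hne
    rw [← e, Nat.coprime_self] at h1
    have := (hv i (by simpa using hi)).1
    omega
  have hdis : Disjoint ((range M).image v) E := by
    rw [disjoint_left]
    intro a ha haE
    obtain ⟨i, hi, rfl⟩ := mem_image.1 ha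
    have h1 := (hE _ haE).2.2 i (mem_range.1 hi)
    rw [Nat.coprime_self] at h1
    have := (hv i (mem_range.1 hi)).1
    omega
  refine ⟨(range M).image v ∪ E, ?_, ?_, ?_, ?_, ?_⟩
  · rw [card_union_of_disjoint hdis, card_image_of_injOn hinj, card_range]
  · intro n hn
    rcases mem_union.1 hn with h | h
    · obtain ⟨i, hi, rfl⟩ := mem_image.1 h
      have := (hv i (mem_range.1 hi)).1
      omega
    · exact (hE n h).1
  · intro a ha b hb hab
    rcases mem_union.1 (mem_coe.1 ha) with h | h <;> rcases mem_union.1 (mem_coe.1 hb) with g | g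
    · obtain ⟨i, hi, rfl⟩ := mem_image.1 h
      obtain ⟨i', hi', rfl⟩ := mem_image.1 g
      exact hc i (mem_range.1 hi) i' (mem_range.1 hi') fun e => hab (by rw [e])
    · obtain ⟨i, hi, rfl⟩ := mem_image.1 h
      exact (hE b g).2.2 i (mem_range.1 hi)
    · obtain ⟨i, hi, rfl⟩ := mem_image.1 g
      exact ((hE a h).2.2 i (mem_range.1 hi)).symm
    · exact hEc (mem_coe.2 h) (mem_coe.2 g) hab
  · rw [sum_union hdis, sum_image hinj]
    have e1 : ∑ i ∈ range M, (v i : ℚ) / (sg (v i) : ℚ) =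
        ∑ i ∈ range M, ((v i * y i : ℕ) : ℚ) / S :=
      sum_congr rfl fun i hi => frac_End _ _ _ hS (hv i (mem_range.1 hi)).2
    have e2 : ∑ d ∈ E, (d : ℚ) / (sg d : ℚ) = ∑ d ∈ E, ((d * (S / sg d) : ℕ) : ℚ) / S :=
      sum_congr rfl fun d hd => frac_End _ _ _ hS (Nat.mul_div_cancel' (hE d hd).2.1)
    have hS' : (S : ℚ) ≠ 0 := by exact_mod_cast hS.ne'
    rw [e1, e2, ← sum_div, ← sum_div, ← add_div, ← Nat.cast_sum, ← Nat.cast_sum, ← Nat.cast_add,
      hsum, div_self hS']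
  · intro i hi
    exact mem_union_left _ (mem_image_of_mem v (mem_range.2 hi))

end Pool.Agent.MP_2876a2_nt.Tu

end
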