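import Pool.Agent.Mg.F436a94p.G204ca6

/-!
Tuples with a common sum of divisors and a prescribed sum: definitions and statements.
-/

set_option autoImplicit false

open Finset Filter
open scoped Pointwise

noncomputable section

namespace Pool.Agent.MP_2876a2_nt.Tu

/-- the sum of the divisors -/
abbrev sg (n : ℕ) : ℕ := ArithmeticFunction.sigma 1 n

/-- the von Mangoldt function -/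
abbrev La (n : ℕ) : ℝ := ArithmeticFunction.vonMangoldt n

/-! ### primes `p` with smooth `p + 1` -/

/-- the primes of `(N, 2 N]` -/
def PN (N : ℕ) : Finset ℕ := (Ioc N (2 * N)).filter Nat.Prime

/-- logarithmic mass -/
def TH (S : Finset ℕ) : ℝ := ∑ p ∈ S, Real.log p

def Dz (N : ℕ) : ℕ := ⌊(N : ℝ) ^ (249 / 500 : ℝ)⌋₊

def Ez (N : ℕ) : ℕ := ⌊(N : ℝ) ^ (127 / 250 : ℝ)⌋₊

/-- all prime factors of `n` are at most `y` -/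
def Sm (y n : ℕ) : Prop := ∀ l : ℕ, l.Prime → l ∣ n → l ≤ y

def StBT : Prop := ∀ d R x : ℕ, 0 < d → d ≤ x → 2 ≤ R →
  (((Ioc R x).filter fun p => p.Prime ∧ d ∣ p + 1).card : ℝ) ≤
    2 * x / (d.totient * Real.log R) + (R : ℝ) ^ 2

def StMer : Prop := ∃ C : ℝ, 0 ≤ C ∧ ∀ D : ℕ, 1 ≤ D →
  Real.log D - C ≤ ∑ d ∈ Icc 1 D, La d / d ∧ ∑ d ∈ Icc 1 D, La d / d ≤ Real.log D + C

def StLo : Prop := ∃ C : ℝ, ∀ᶠ N : ℕ in atTop,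
  TH (PN N) * (249 / 500 * Real.log N - C) - N ≤
    ∑ p ∈ PN N, Real.log p * ∑ d ∈ (Icc 1 (Dz N)).filter (fun d => d ∣ p + 1), La d

open Classical in
def StMid : Prop := ∀ᶠ N : ℕ in atTop,
  TH ((PN N).filter fun p => ∃ l : ℕ, l.Prime ∧ Dz N < l ∧ l ≤ Ez N ∧ l ∣ p + 1) ≤ 9 / 20 * N

open Classical in
def StA : Prop := ∀ᶠ N : ℕ in atTop,
  (N : ℝ) / (1000 * Real.log N) ≤ ((PN N).filter fun p => Sm (Dz N) (p + 1)).card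

/-! ### blocks -/

/-- `B` is a large and spread out set of divisors of `N` with divisor sum `s` -/
structure Blk (B : Finset ℕ) (N s : ℕ) : Prop where
  sqf : Squarefree N
  ne : B.Nonempty
  dvd : ∀ b ∈ B, b ∣ N
  sig : ∀ b ∈ B, sg b = s
  big : s ^ 501 ≤ B.card ^ 1000
  spr : ∀ d : ℕ, (B.filter fun b => d ∣ b).card ^ 3 * d ≤ B.card ^ 3

/-- admissible primes at the scale `j` -/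
def Gd (j p : ℕ) : Prop := p.Prime ∧ j ^ 5000 < p ∧ p ≤ 2 * j ^ 5000 ∧ Sm (j ^ 2490) (p + 1)

open Classical in
def StPsi : Prop := ∀ E : ℕ, ∀ᶠ j : ℕ in atTop, ∀ r : ℕ, 1 ≤ r →
  ((Icc 1 (j ^ (E * r))).filter fun n => Sm r n).card ≤ j ^ r

def StFib : Prop := ∀ᶠ j : ℕ in atTop, ∀ P : Finset ℕ, P.card = j ^ 4998 → (∀ p ∈ P, Gd j p) →
  ∃ (F : Finset (Finset ℕ)) (s : ℕ), F ⊆ P.powersetCard (j ^ 2490) ∧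
    j ^ (2507 * j ^ 2490) ≤ F.card ∧ ∀ b ∈ F, ∏ p ∈ b, (p + 1) = s

def StCore : Prop := ∀ (F : Finset (Finset ℕ)) (R : ℕ), 1 ≤ R → ∃ K : Finset ℕ,
  F.card ≤ (F.filter fun b => K ⊆ b).card * R ^ K.card ∧
  ∀ J : Finset ℕ, Disjoint J K →
    (F.filter fun b => K ∪ J ⊆ b).card * R ^ J.card ≤ (F.filter fun b => K ⊆ b).card

def StBlock : Prop := ∀ᶠ j : ℕ in atTop, ∀ P : Finset ℕ, P.card = j ^ 4998 → (∀ p ∈ P, Gd j p) →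
  ∃ (B : Finset ℕ) (s : ℕ), Blk B (∏ p ∈ P, p) s ∧ 2 ∣ s ∧ j ^ j ^ 2490 ≤ s ∧
    s ≤ j ^ (5001 * j ^ 2490)

def StPool : Prop := ∀ᶠ j0 : ℕ in atTop, ∃ P : ℕ → Finset ℕ,
  (∀ i, (P i).card = (j0 + i) ^ 4998 ∧ ∀ p ∈ P i, Gd (j0 + i) p) ∧
    ∀ i i', i ≠ i' → Disjoint (P i) (P i')

def StSlow : Prop := ∀ (a E j0 : ℕ) (s : ℕ → ℕ), 2 ≤ j0 →
  (∀ i, (j0 + i) ^ (j0 + i) ^ a ≤ s i ∧ s i ≤ (j0 + i) ^ (E * (j0 + i) ^ a)) →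
  ∀ n : ℕ, ∀ᶠ t : ℕ in atTop, s t ^ n ≤ ∏ i ∈ range t, s i

/-- a slowly growing sequence of blocks with coprime, odd and thin supports -/
structure Sq (B : ℕ → Finset ℕ) (N s : ℕ → ℕ) : Prop where
  blk : ∀ i, Blk (B i) (N i) (s i)
  cop : ∀ i i', i ≠ i' → (N i).Coprime (N i')
  ev : ∀ i, 2 ∣ s i
  od : ∀ i, ¬ 2 ∣ N i
  thin : ∀ t, ∑ i ∈ range t, ∑ p ∈ (N i).primeFactors, (1 / p : ℝ) ≤ 1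
  slow : ∀ n : ℕ, ∀ᶠ t : ℕ in atTop, s t ^ n ≤ ∏ i ∈ range t, s i

def StSeq : Prop := ∃ (B : ℕ → Finset ℕ) (N s : ℕ → ℕ), Sq B N s

def StMul : Prop := ∀ (B B' : Finset ℕ) (N N' s s' : ℕ), Blk B N s → Blk B' N' s' →
  N.Coprime N' → Blk (B * B') (N * N') (s * s') ∧
    ∀ f : ℕ → ℂ, ∑ a ∈ B * B', f a = ∑ b ∈ B, ∑ b' ∈ B', f (b * b')

def StProd : Prop := ∀ (B : ℕ → Finset ℕ) (N s : ℕ → ℕ), Sq B N s → ∀ I : Finset ℕ,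
  Blk (∏ i ∈ I, B i) (∏ i ∈ I, N i) (∏ i ∈ I, s i) ∧
    ∀ a ∈ ∏ i ∈ I, B i, 1 ≤ a ∧ a ≤ ∏ i ∈ I, s i ∧ ∏ i ∈ I, s i ≤ 3 * a

/-! ### exponential sums -/

def ee (t : ℝ) : ℂ := Complex.exp ((2 * Real.pi * t : ℝ) * Complex.I)

def ES (A : Finset ℕ) (α : ℝ) : ℂ := ∑ a ∈ A, ee (α * a)

/-- distance to the nearest integer -/
def nz (t : ℝ) : ℝ := |t - round t|

/-- the minimum of `M` and `1 / (2 * nz t)` -/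
def mn (M t : ℝ) : ℝ := M / max 1 (2 * M * nz t)

/-- the height of `u / q + β` at the scale `S` -/
def qs (S q : ℕ) (β : ℝ) : ℝ := q * max 1 (|β| * S)

def StCS : Prop := ∀ (B B' : Finset ℕ) (Q Q' : ℕ) (θ : ℝ), (∀ b ∈ B, b ≤ Q) →
  (∀ b ∈ B', 1 ≤ b ∧ b ≤ Q') →
  ‖∑ b ∈ B, ∑ b' ∈ B', ee (θ * ((b * b' : ℕ) : ℝ))‖ ^ 2 ≤
    B.card * B'.card * ∑ h ∈ Icc (-(Q : ℤ)) Q, mn Q' (θ * h)

def StH1 : Prop := ∀ (u : ℤ) (q Q : ℕ) (M γ : ℝ), 0 < q → IsCoprime u (q : ℤ) → 0 ≤ M →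
  |γ| * Q ≤ 1 / (2 * q) →
  ∑ h ∈ (Icc (-(Q : ℤ)) Q).filter (fun h => ¬ (q : ℤ) ∣ h), mn M ((u / q + γ) * h) ≤
    2 * (2 * Q + q) * (1 + Real.log q)

def StH : Prop := ∀ (u : ℤ) (q m Q Q' S : ℕ) (β : ℝ), 0 < q → IsCoprime u (q : ℤ) → 0 < m →
  1 ≤ Q → 1 ≤ Q' → m * Q * Q' ≤ S → S ≤ 3 * (m * Q * Q') → 2 * qs S q β ≤ Q' →
  ∑ h ∈ Icc (-(Q : ℤ)) Q, mn Q' ((u / q + β) * m * h) ≤
    Q' + 2 * (2 * Q + q) * (1 + Real.log q) +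
      3 * (1 + Real.log Q) * (Nat.gcd m q) * Q * Q' / qs S q β

def StNum : Prop := ∀ᶠ Y : ℝ in atTop, ∀ q Q Q' g : ℝ, 1 ≤ q → q ≤ Y → 1 ≤ Q →
  Q ≤ Y ^ (5001 / 5000 : ℝ) → 0 ≤ Q' → Q' ≤ Y ^ (5001 / 5000 : ℝ) → 0 ≤ g →
  g ≤ Y ^ (1 / 5000 : ℝ) →
  Q' + 2 * (2 * Q + q) * (1 + Real.log q) + 3 * (1 + Real.log Q) * g * Q * Q' / Y ≤
    Y ^ (5004 / 5000 : ℝ)

def StSel : Prop := ∀ s : ℕ → ℕ, (∀ i, 2 ≤ s i) →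
  (∀ n : ℕ, ∀ᶠ t : ℕ in atTop, s t ^ n ≤ ∏ i ∈ range t, s i) →
  ∀ᶠ Y : ℝ in atTop, ∀ J : ℕ, Y ^ 2 ≤ ((∏ i ∈ range J, s i : ℕ) : ℝ) → ∃ t' t : ℕ,
    t' ≤ t ∧ t ≤ J ∧ 2 * Y ≤ ((∏ i ∈ range t', s i : ℕ) : ℝ) ∧
    ((∏ i ∈ range t', s i : ℕ) : ℝ) ≤ Y ^ (5001 / 5000 : ℝ) ∧
    Y ^ (4999 / 5000 : ℝ) ≤ ((∏ i ∈ Ico t' t, s i : ℕ) : ℝ) ∧
    ((∏ i ∈ Ico t' t, s i : ℕ) : ℝ) ≤ Y ^ (5001 / 5000 : ℝ)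

def StGcd : Prop := ∃ C : ℝ, 0 ≤ C ∧ ∀ (M : Finset ℕ) (N s q : ℕ) (Y : ℝ), Blk M N s → 0 < q →
  (q : ℝ) ≤ Y →
  ((M.filter fun m => Y ^ (1 / 5000 : ℝ) < (Nat.gcd m q : ℕ)).card : ℝ) ≤
    C * M.card * Y ^ (-(1 / 30000) : ℝ)

/-- the bilinear estimate for one multiplier -/
def StBil : Prop := ∀ᶠ Y : ℝ in atTop, ∀ (B B' : Finset ℕ) (N N' Q Q' m S q : ℕ) (u : ℤ) (β : ℝ),
  Blk B N Q → Blk B' N' Q' → (∀ b ∈ B, b ≤ Q) → (∀ b ∈ B', 1 ≤ b ∧ b ≤ Q') → 0 < q →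
  IsCoprime u (q : ℤ) → 0 < m → m * Q * Q' ≤ S → S ≤ 3 * (m * Q * Q') → qs S q β = Y →
  2 * Y ≤ Q' → (Q' : ℝ) ≤ Y ^ (5001 / 5000 : ℝ) → Y ^ (4999 / 5000 : ℝ) ≤ Q →
  (Q : ℝ) ≤ Y ^ (5001 / 5000 : ℝ) → ((Nat.gcd m q : ℕ) : ℝ) ≤ Y ^ (1 / 5000 : ℝ) →
  ‖∑ b ∈ B, ∑ b' ∈ B', ee ((u / q + β) * m * ((b * b' : ℕ) : ℝ))‖ ≤
    B.card * B'.card * Y ^ (-(1 / 2000) : ℝ)

/-- power decay of the exponential sum above the height `Y0` -/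
def Dec (A : Finset ℕ) (S : ℕ) (Y0 : ℝ) : Prop := ∀ (u : ℤ) (q : ℕ) (β : ℝ), 0 < q →
  IsCoprime u (q : ℤ) → Y0 ≤ qs S q β → qs S q β ^ 2 ≤ S →
  ‖ES A (u / q + β)‖ ≤ A.card * qs S q β ^ (-(1 / 60000) : ℝ)

def StDec : Prop := ∀ (B : ℕ → Finset ℕ) (N s : ℕ → ℕ), Sq B N s → ∃ Y0 : ℝ, ∀ J : ℕ,
  Dec (∏ i ∈ range J, B i) (∏ i ∈ range J, s i) Y0

/-! ### the circle method -/

/-- the number of representations of `T` as an ordered sum of `k` elements of `A` -/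
def rp (A : Finset ℕ) (k T : ℕ) : ℕ :=
  ((Fintype.piFinset fun _ : Fin k => A).filter fun a => ∑ i, a i = T).card

def StFour : Prop := ∀ (A : Finset ℕ) (S k P T : ℕ), (∀ a ∈ A, a ≤ S) → k * S < P → T < P →
  (rp A k T : ℂ) * P = ∑ v ∈ range P, ES A (v / P) ^ k * ee (-(T * v / P))

def StIn : Prop := ∀ (K P : ℕ) (y : ℝ), 1 ≤ K →
  ∑ v ∈ range P, (max 1 (|(v : ℝ) - y| / K))⁻¹ ^ 2 ≤ 12 * K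

def StMas : Prop := ∀ (K S : ℕ) (u : ℕ → ℤ) (q : ℕ → ℕ), 1 ≤ K → 1 ≤ S →
  (∀ v, 0 < q v ∧ |(v : ℝ) / (K * S : ℕ) - u v / q v| ≤ 1 / q v) →
  ∑ v ∈ range (K * S), (qs S (q v) ((v : ℝ) / (K * S : ℕ) - u v / q v))⁻¹ ^ 4 ≤ 100 * K

def StAp : Prop := ∀ K S : ℕ, 1 ≤ K → 1 ≤ S → ∃ (u : ℕ → ℤ) (q : ℕ → ℕ) (β : ℕ → ℝ),
  (∀ v, 0 < q v ∧ IsCoprime (u v) (q v : ℤ) ∧ (v : ℝ) / (K * S : ℕ) = u v / q v + β v ∧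
    qs S (q v) (β v) ^ 2 ≤ S) ∧
  ∑ v ∈ range (K * S), (qs S (q v) (β v))⁻¹ ^ 4 ≤ 100 * K

def StUp : Prop := ∀ (Y0 : ℝ) (k : ℕ), 300000 ≤ k → ∃ C : ℝ, 0 ≤ C ∧
  ∀ (A : Finset ℕ) (S : ℕ), 1 ≤ S → (∀ a ∈ A, a ≤ S) → Dec A S Y0 →
    ∀ T : ℕ, (rp A k T : ℝ) ≤ C * (A.card : ℝ) ^ k / S

def StDiff : Prop := ∀ (Y0 : ℝ) (k : ℕ), 300000 ≤ k → ∃ (W : ℕ) (ε : ℝ), 0 < W ∧ 0 < ε ∧ ε ≤ 1 ∧
  ∀ (A : Finset ℕ) (S : ℕ), 1 ≤ S → (∀ a ∈ A, a ≤ S) → Dec A S Y0 →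
    ∀ T T' : ℕ, T ≤ k * S → T' ≡ T [MOD W] → |(T' : ℝ) - T| ≤ ε * S →
      |(rp A k T' : ℝ) - rp A k T| ≤ (A.card : ℝ) ^ k / (2 * (k + 2) * S)

def StPop : Prop := ∀ (A : Finset ℕ) (S k : ℕ), 1 ≤ S → A.Nonempty →
  (∀ a ∈ A, a ≤ S ∧ S ≤ 3 * a) → ∃ T : ℕ, T ≤ k * S ∧ k * S ≤ 3 * T ∧
    (A.card : ℝ) ^ k / ((k + 2) * S) ≤ rp A k T

def StInj : Prop := ∀ (A F : Finset ℕ) (k T : ℕ) (U1 U2 : ℝ),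
  (∀ T1, (rp A (k + 1) T1 : ℝ) ≤ U1) → (∀ T2, (rp A k T2 : ℝ) ≤ U2) →
  (k + 2) * F.card * U1 + (k + 2) ^ 2 * A.card * U2 < rp A (k + 2) T →
  ∃ Z : Finset ℕ, Z ⊆ A ∧ Disjoint Z F ∧ Z.card = k + 2 ∧ ∑ z ∈ Z, z = T

def StGrp : Prop := ∀ (A : Finset ℕ) (k W G T0 T : ℕ) (e : ℝ), 0 < G → W ∣ G → W ∣ T →
  e ≤ T0 → |(T : ℝ) - G * T0| ≤ e →
  (∀ (T' : ℕ) (F : Finset ℕ), T' ≡ T0 [MOD W] → |(T' : ℝ) - T0| ≤ e → F.card ≤ G * k →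
    ∃ Z : Finset ℕ, Z ⊆ A ∧ Disjoint Z F ∧ Z.card = k ∧ ∑ z ∈ Z, z = T') →
  ∃ Z : Finset ℕ, Z ⊆ A ∧ Z.card = G * k ∧ ∑ z ∈ Z, z = T

/-- every multiple of `W` near `G` times a popular sum is a sum of `G * k` distinct elements -/
def StRep : Prop := ∀ Y0 : ℝ, ∃ (k W : ℕ) (ε : ℝ), 6 ≤ k ∧ 0 < W ∧ 0 < ε ∧ ∀ G : ℕ, 0 < G → W ∣ G →
  ∃ M : ℕ, ∀ (A : Finset ℕ) (S : ℕ), 1 ≤ S → M ≤ A.card → (∀ a ∈ A, a ≤ S ∧ S ≤ 3 * a) →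
    Dec A S Y0 → ∃ T0 : ℕ, T0 ≤ k * S ∧ k * S ≤ 3 * T0 ∧
      ∀ T : ℕ, W ∣ T → |(T : ℝ) - G * T0| ≤ ε * S →
        ∃ Z : Finset ℕ, Z ⊆ A ∧ Z.card = G * k ∧ ∑ z ∈ Z, z = T

/-! ### the common factor -/

def StCof : Prop := ∀ N : ℕ → ℕ, (∀ i, N i ≠ 0) →
  (∀ t, ∑ i ∈ range t, ∑ p ∈ (N i).primeFactors, (1 / p : ℝ) ≤ 1) →
  ∀ t ε : ℝ, 1 ≤ t → 0 < ε → ∃ c : ℕ, 0 < c ∧ ¬ 2 ∣ c ∧ (∀ i, c.Coprime (N i)) ∧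
    t ≤ (sg c : ℝ) / c ∧ (sg c : ℝ) / c ≤ t + ε

def StTwo : Prop := ∀ c L a0 : ℕ, 0 < c → ¬ 2 ∣ c → 0 < L → ∃ a e : ℕ, a0 ≤ a ∧
  sg (2 ^ a * c) + sg c = 2 ^ (a + 1) * sg c ∧
  ∀ S : ℕ, 2 ^ e ∣ S → L * (2 ^ a * c) ∣ sg (2 ^ a * c) * S

/-- a cofactor with prescribed abundancy and good divisibility -/
def StCo : Prop := ∀ N : ℕ → ℕ, (∀ i, N i ≠ 0) → (∀ i, ¬ 2 ∣ N i) →
  (∀ t, ∑ i ∈ range t, ∑ p ∈ (N i).primeFactors, (1 / p : ℝ) ≤ 1) →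
  ∀ (t ε : ℝ) (L : ℕ), 2 ≤ t → 0 < ε → 0 < L → ∃ c e : ℕ, 0 < c ∧ (∀ i, c.Coprime (N i)) ∧
    |(sg c : ℝ) / c - t| ≤ ε ∧ ∀ S : ℕ, 2 ^ e ∣ S → L * c ∣ sg c * S

def StMain : Prop := ∃ k0 : ℕ, 0 < k0 ∧ ∀ n : ℕ, 0 < n → ∀ ρ : ℚ, 0 < ρ → ρ ≤ 1 → ∀ M : ℕ,
  ∃ (Z : Finset ℕ) (v : ℕ), Z.card = n * k0 ∧ (∀ z ∈ Z, M < z ∧ sg z = v) ∧
    ((∑ z ∈ Z, z : ℕ) : ℚ) = ρ * v

def StPad : Prop := ∀ l : ℕ, 2 ≤ l → ∃ D : Finset ℕ, D.card = l ∧ (∀ n ∈ D, 0 < n) ∧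
  D.gcd id = 1 ∧ ∑ n ∈ D, (n : ℚ) / (sg n : ℚ) < 1

/-! ### small facts -/

theorem ee_add (s t : ℝ) : ee (s + t) = ee s * ee t := by
  unfold ee
  rw [← Complex.exp_add]
  congr 1
  push_cast
  ring

theorem ee_zero : ee 0 = 1 := by simp [ee]

theorem norm_ee (t : ℝ) : ‖ee t‖ = 1 := Complex.norm_exp_ofReal_mul_I _

theorem ee_int (n : ℤ) : ee n = 1 := by
  unfold ee
  rw [← Complex.exp_int_mul_two_pi_mul_I n]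
  congr 1
  push_cast
  ring

theorem norm_ee_sub_one (t : ℝ) : ‖ee t - 1‖ ≤ 2 * Real.pi * |t| := by
  have h := Real.norm_exp_I_mul_ofReal_sub_one_le (x := 2 * Real.pi * t)
  rw [mul_comm Complex.I, Real.norm_eq_abs, abs_mul, abs_of_pos Real.two_pi_pos] at h
  exact h

theorem norm_ES_le (A : Finset ℕ) (α : ℝ) : ‖ES A α‖ ≤ A.card := by
  refine (norm_sum_le _ _).trans ?_
  simp [norm_ee]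

theorem mn_nonneg {M : ℝ} (hM : 0 ≤ M) (t : ℝ) : 0 ≤ mn M t :=
  div_nonneg hM (zero_le_one.trans (le_max_left _ _))

theorem mn_le {M : ℝ} (hM : 0 ≤ M) (t : ℝ) : mn M t ≤ M := div_le_self hM (le_max_left _ _)

theorem mn_le_inv {M δ t : ℝ} (hM : 0 ≤ M) (hδ : 0 < δ) (h : δ ≤ nz t) : mn M t ≤ 1 / (2 * δ) := by
  unfold mn
  rw [div_le_div_iff₀ (lt_max_of_lt_left one_pos) (by positivity), one_mul]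
  refine le_trans ?_ (le_max_right _ _)
  nlinarith [mul_le_mul_of_nonneg_left h hM]

theorem one_le_qs (S : ℕ) {q : ℕ} (hq : 0 < q) (β : ℝ) : 1 ≤ qs S q β :=
  one_le_mul_of_one_le_of_one_le (by exact_mod_cast hq) (le_max_left _ _)

theorem le_qs (S q : ℕ) (β : ℝ) : (q : ℝ) ≤ qs S q β :=
  le_mul_of_one_le_right (Nat.cast_nonneg _) (le_max_left _ _)

theorem Blk.pos {B : Finset ℕ} {N s : ℕ} (h : Blk B N s) {b : ℕ} (hb : b ∈ B) : 0 < b :=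
  Nat.pos_of_dvd_of_pos (h.dvd b hb) (Nat.pos_of_ne_zero h.sqf.ne_zero)

theorem Blk.s_pos {B : Finset ℕ} {N s : ℕ} (h : Blk B N s) : 0 < s := by
  obtain ⟨b, hb⟩ := h.ne
  rw [← h.sig b hb]
  exact ArithmeticFunction.sigma_pos 1 b (h.pos hb).ne'

theorem Sq.two_le {B : ℕ → Finset ℕ} {N s : ℕ → ℕ} (h : Sq B N s) (i : ℕ) : 2 ≤ s i :=
  Nat.le_of_dvd (h.blk i).s_pos (h.ev i)

end Pool.Agent.MP_2876a2_nt.Tu
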