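import Pool.Agent.MP_2876a2_nt.Tu.St

/-!
Pairwise coprime tuples: definitions and statements.
-/

set_option autoImplicit false

open Finset Filter
open scoped Pointwise

noncomputable section

namespace Pool.Agent.MP_2876a2_nt.Tu

/-! ### primes in a progression with smooth `p + 1` -/

/-- the primes of `(N, 2 N]` in the class `ρ` modulo `G` -/
def PA (N G ρ : ℕ) : Finset ℕ := (PN N).filter fun p => p ≡ ρ [MOD G]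

def StBT2 : Prop := ∀ d a R x : ℕ, 0 < d → d ≤ x → 2 ≤ R →
  (((Ioc R x).filter fun p => p.Prime ∧ p ≡ a [MOD d]).card : ℝ) ≤
    2 * x / (d.totient * Real.log R) + (R : ℝ) ^ 2

def StMer2 : Prop := ∀ G : ℕ, 0 < G → ∃ C : ℝ, ∀ D : ℕ, 1 ≤ D →
  Real.log D - C ≤ ∑ d ∈ (Icc 1 D).filter (fun d => d.Coprime G), La d / d

def StTh : Prop := ∀ G ρ : ℕ, 0 < G → ρ.Coprime G → ∀ ε : ℝ, 0 < ε → ∀ᶠ N : ℕ in atTop,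
  |TH (PA N G ρ) - N / G.totient| ≤ ε * N

def StLo2 : Prop := ∀ G ρ : ℕ, 0 < G → ρ.Coprime G → ∃ C : ℝ, ∀ᶠ N : ℕ in atTop,
  TH (PN N) / G.totient * (249 / 500 * Real.log N - C) - N ≤
    ∑ p ∈ PA N G ρ, Real.log p * ∑ d ∈ (Icc 1 (Dz N)).filter (fun d => d ∣ p + 1), La d

open Classical in
def StMid2 : Prop := ∀ G ρ : ℕ, 0 < G → ∀ᶠ N : ℕ in atTop,
  TH ((PA N G ρ).filter fun p => ∃ l : ℕ, l.Prime ∧ Dz N < l ∧ l ≤ Ez N ∧ l ∣ p + 1) ≤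
    9 / 20 * N / G.totient

open Classical in
def StA2 : Prop := ∀ G ρ : ℕ, 0 < G → ρ.Coprime G → ∀ᶠ N : ℕ in atTop,
  (N : ℝ) / (1000 * G * Real.log N) ≤ ((PA N G ρ).filter fun p => Sm (Dz N) (p + 1)).card

open Classical in
/-- the admissible primes at the scale `j` in the class `ρ` modulo `G` -/
def GA (j G ρ : ℕ) : Finset ℕ := (PA (j ^ 5000) G ρ).filter fun p => Sm (j ^ 2490) (p + 1)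

def Adm (j G ρ : ℕ) : Prop := j ^ 4999 ≤ (GA j G ρ).card

def StAdm : Prop := ∀ G ρ : ℕ, 0 < G → ρ.Coprime G → ∀ᶠ j : ℕ in atTop, Adm j G ρ

/-! ### coloured blocks -/

/-- `B` is a large set of divisors of `N` with divisor sum `s` -/
structure Bk (B : Finset ℕ) (N s : ℕ) : Prop where
  sqf : Squarefree N
  ne : B.Nonempty
  dvd : ∀ b ∈ B, b ∣ N
  sig : ∀ b ∈ B, sg b = s
  big : s ^ 501 ≤ B.card ^ 1000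

open Classical in
/-- the pairwise disjoint `M`-tuples of members of `F` -/
def Dis (M : ℕ) (F : Finset (Finset ℕ)) : Finset (Fin M → Finset ℕ) :=
  (Fintype.piFinset fun _ : Fin M => F).filter fun b => ∀ i i', i ≠ i' → Disjoint (b i) (b i')

def StDis : Prop := ∀ (M r R : ℕ) (F : Finset (Finset ℕ)), (∀ b ∈ F, b.card = r) →
  (∀ p, (F.filter fun b => p ∈ b).card * R ≤ F.card) → 2 * M ^ 2 * r ≤ R → 0 < R →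
  F.card ^ M ≤ 2 * (Dis M F).card

def StAvg : Prop := ∀ (M r : ℕ) (F : Finset (Finset ℕ)), 0 < M → (∀ b ∈ F, b.card = r) →
  ∃ χ : ℕ → Fin M, (Dis M F).card ≤
    M ^ (M * r) * ∏ i : Fin M, (F.filter fun b => ∀ p ∈ b, χ p = i).card

def StCol : Prop := ∀ (M r R : ℕ) (F : Finset (Finset ℕ)), 0 < M → (∀ b ∈ F, b.card = r) →
  (∀ p, (F.filter fun b => p ∈ b).card * R ≤ F.card) → 2 * M ^ 2 * r ≤ R → 0 < R →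
  ∃ χ : ℕ → ℕ, ∀ i < M, F.card ≤ 2 * M ^ (M * r) * (F.filter fun b => ∀ p ∈ b, χ p = i).card

def StBM : Prop := ∀ M : ℕ, 0 < M → ∀ᶠ j : ℕ in atTop, ∀ P : Finset ℕ, P.card = j ^ 4998 →
  (∀ p ∈ P, Gd j p) → ∃ (B : ℕ → Finset ℕ) (N : ℕ → ℕ) (s r : ℕ),
    (∀ i < M, Bk (B i) (N i) s ∧ (N i).primeFactors ⊆ P ∧ ∀ b ∈ B i, b.primeFactors.card = r) ∧
    (∀ i < M, ∀ i' < M, i ≠ i' → (N i).Coprime (N i')) ∧ 1 ≤ r ∧ j ^ j ^ 2490 ≤ s ∧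
    s ≤ j ^ (5001 * j ^ 2490)

/-- a sequence of blocks at the scales `j0, j0 + 1, ...` -/
structure S1 (j0 : ℕ) (B : ℕ → Finset ℕ) (N s : ℕ → ℕ) : Prop where
  blk : ∀ t, Bk (B t) (N t) (s t)
  cop : ∀ t t', t ≠ t' → (N t).Coprime (N t')
  prm : ∀ t, ∀ p ∈ (N t).primeFactors, (j0 + t) ^ 5000 < p ∧ p ≤ 2 * (j0 + t) ^ 5000
  few : ∀ t, (N t).primeFactors.card ≤ (j0 + t) ^ 4998
  lo : ∀ t, (j0 + t) ^ (j0 + t) ^ 2490 ≤ s t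
  hi : ∀ t, s t ≤ (j0 + t) ^ (5001 * (j0 + t) ^ 2490)

/-- `M` sequences of blocks with coprime supports and the same divisor sums -/
structure SM (M j0 : ℕ) (B : ℕ → ℕ → Finset ℕ) (N : ℕ → ℕ → ℕ) (s : ℕ → ℕ) : Prop where
  one : ∀ i < M, S1 j0 (B i) (N i) s
  cop : ∀ i < M, ∀ i' < M, i ≠ i' → ∀ t t', (N i t).Coprime (N i' t')

def StRec : Prop := ∀ (U : Finset ℕ) (G : ℕ → Finset ℕ) (m : ℕ → ℕ),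
  (∀ i, U.card + ∑ l ∈ range (i + 1), m l ≤ (G i).card) → ∃ P : ℕ → Finset ℕ,
    (∀ i, P i ⊆ G i ∧ (P i).card = m i ∧ Disjoint (P i) U) ∧
      ∀ i i', i ≠ i' → Disjoint (P i) (P i')

def StExt : Prop := ∀ M : ℕ, 0 < M → ∀ᶠ j0 : ℕ in atTop,
  ∃ (B : ℕ → ℕ → Finset ℕ) (N : ℕ → ℕ → ℕ) (s : ℕ → ℕ), SM M j0 B N s ∧
    ∀ (t2 : ℕ) (G ρ : ℕ → ℕ), (∀ t, t2 ≤ t → Adm (j0 + t) (G t) (ρ t)) →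
      ∃ (B' : ℕ → ℕ → Finset ℕ) (N' : ℕ → ℕ → ℕ) (s' r : ℕ → ℕ), SM M j0 B' N' s' ∧
        (∀ t < t2, s' t = s t ∧ ∀ i, B' i t = B i t ∧ N' i t = N i t) ∧
        ∀ t, t2 ≤ t → 1 ≤ r t ∧ ∀ i < M, (∀ b ∈ B' i t, b.primeFactors.card = r t) ∧
          ∀ p ∈ (N' i t).primeFactors, p ≡ ρ t [MOD G t]

def StMul2 : Prop := ∀ (B B' : Finset ℕ) (N N' s s' : ℕ), Bk B N s → Bk B' N' s' →
  N.Coprime N' → Bk (B * B') (N * N') (s * s') ∧ (B * B').card = B.card * B'.card ∧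
    ∀ f : ℕ → ℂ, ∑ a ∈ B * B', f a = ∑ b ∈ B, ∑ b' ∈ B', f (b * b')

def StProd2 : Prop := ∀ (j0 : ℕ) (B : ℕ → Finset ℕ) (N s : ℕ → ℕ), 2 ≤ j0 → S1 j0 B N s →
  ∀ (u : ℕ) (I : Finset ℕ), (∀ t ∈ I, u ≤ t) →
    Bk (∏ t ∈ I, B t) (∏ t ∈ I, N t) (∏ t ∈ I, s t) ∧
    ∀ a ∈ ∏ t ∈ I, B t, 1 ≤ a ∧ a ≤ ∏ t ∈ I, s t ∧
      ((∏ t ∈ I, s t : ℕ) : ℝ) ≤ Real.exp (2 / (j0 + u)) * a

def StTail : Prop := ∀ (j0 t2 J W : ℕ) (B : ℕ → Finset ℕ) (N s G ρ r : ℕ → ℕ), S1 j0 B N s →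
  (∀ t, t2 ≤ t → 1 ≤ r t ∧ W ∣ G t ∧ (∀ b ∈ B t, b.primeFactors.card = r t) ∧
    ∀ p ∈ (N t).primeFactors, p ≡ ρ t [MOD G t]) →
  (∀ γ ∈ ∏ t ∈ Ico t2 J, B t, γ ≡ ∏ t ∈ Ico t2 J, ρ t ^ r t [MOD W]) ∧
  (∀ t ∈ Ico t2 J, ∃ n p : ℕ, p ∈ (N t).primeFactors ∧ n * p ∈ ∏ t ∈ Ico t2 J, B t) ∧
  ∀ t, t2 ≤ t → G t ∣ ρ t + 1 → G t ∣ s t

/-! ### decay -/

def StSlow2 : Prop := ∀ a E n : ℕ, ∃ t0 : ℕ, ∀ (j0 : ℕ) (s : ℕ → ℕ), 2 ≤ j0 →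
  (∀ i, (j0 + i) ^ (j0 + i) ^ a ≤ s i ∧ s i ≤ (j0 + i) ^ (E * (j0 + i) ^ a)) →
  ∀ t, t0 ≤ t → s t ^ n ≤ ∏ i ∈ range t, s i

def StSel2 : Prop := ∀ (t0 : ℕ) (U L : ℝ), ∀ᶠ Y : ℝ in atTop, ∀ s : ℕ → ℕ, (∀ i, 2 ≤ s i) →
  (∀ t, t0 ≤ t → s t ^ 20000 ≤ ∏ i ∈ range t, s i) →
  ((∏ i ∈ range (t0 + 1), s i : ℕ) : ℝ) ≤ U →
  ∀ J : ℕ, Y ^ 2 ≤ L * ((∏ i ∈ range J, s i : ℕ) : ℝ) → ∃ t' t : ℕ,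
    t' ≤ t ∧ t ≤ J ∧ 2 * Y ≤ ((∏ i ∈ range t', s i : ℕ) : ℝ) ∧
    ((∏ i ∈ range t', s i : ℕ) : ℝ) ≤ Y ^ (5001 / 5000 : ℝ) ∧
    Y ^ (4999 / 5000 : ℝ) ≤ ((∏ i ∈ Ico t' t, s i : ℕ) : ℝ) ∧
    ((∏ i ∈ Ico t' t, s i : ℕ) : ℝ) ≤ Y ^ (5001 / 5000 : ℝ)

def StBil2 : Prop := ∀ᶠ Y : ℝ in atTop, ∀ (B B' : Finset ℕ) (N N' Q Q' m S q : ℕ) (u : ℤ) (β : ℝ),
  Bk B N Q → Bk B' N' Q' → (∀ b ∈ B, b ≤ Q) → (∀ b ∈ B', 1 ≤ b ∧ b ≤ Q') → 0 < q →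
  IsCoprime u (q : ℤ) → 0 < m → m * Q * Q' ≤ S → S ≤ 3 * (m * Q * Q') → qs S q β = Y →
  2 * Y ≤ Q' → (Q' : ℝ) ≤ Y ^ (5001 / 5000 : ℝ) → Y ^ (4999 / 5000 : ℝ) ≤ Q →
  (Q : ℝ) ≤ Y ^ (5001 / 5000 : ℝ) → ((Nat.gcd m q : ℕ) : ℝ) ≤ Y ^ (1 / 5000 : ℝ) →
  ‖∑ b ∈ B, ∑ b' ∈ B', ee ((u / q + β) * m * ((b * b' : ℕ) : ℝ))‖ ≤
    B.card * B'.card * Y ^ (-(1 / 2000) : ℝ)

def StDec1 : Prop := ∀ j0 D : ℕ, 2 ≤ j0 → 0 < D → ∀ᶠ Y : ℝ in atTop,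
  ∀ (B : ℕ → Finset ℕ) (N s : ℕ → ℕ), S1 j0 B N s → ∀ (c J q : ℕ) (u : ℤ) (β : ℝ), 0 < c →
    c ≤ D → 0 < q → IsCoprime u (q : ℤ) → qs (D * ∏ t ∈ range J, s t) q β = Y →
    Y ^ 2 ≤ ((D * ∏ t ∈ range J, s t : ℕ) : ℝ) →
    ((Nat.gcd q (c * ∏ t ∈ range J, N t) : ℕ) : ℝ) ≤ (Y / D) ^ (1 / 5000 : ℝ) →
    ‖ES ((∏ t ∈ range J, B t).image fun a => c * a) (u / q + β)‖ ≤
      (∏ t ∈ range J, B t).card * Y ^ (-(1 / 4000) : ℝ)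

open Classical in
def StFew : Prop := ∀ (k q D : ℕ) (n : ℕ → ℕ) (Y : ℝ),
  (∀ i < k, ∀ i' < k, i ≠ i' → (n i).Coprime (n i')) → 0 < q → (q : ℝ) ≤ Y → 0 < D →
  (D : ℝ) ^ 2 ≤ Y → 1 < Y →
  ((range k).filter fun i => (Y / D) ^ (1 / 5000 : ℝ) < (Nat.gcd q (n i) : ℕ)).card ≤ 10000

/-- decay of a product of exponential sums above the height `Y0` -/
def DM {k : ℕ} (A : Fin k → Finset ℕ) (S : ℕ) (Y0 : ℝ) : Prop := ∀ (u : ℤ) (q : ℕ) (β : ℝ),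
  0 < q → IsCoprime u (q : ℤ) → Y0 ≤ qs S q β → qs S q β ^ 2 ≤ S →
  ∏ i, ‖ES (A i) (u / q + β)‖ ≤ (∏ i, ((A i).card : ℝ)) * (qs S q β)⁻¹ ^ 5

def StDM : Prop := ∀ j0 D k M : ℕ, 2 ≤ j0 → 0 < D → 30000 ≤ k → k ≤ M → ∃ Y0 : ℝ,
  ∀ (B : ℕ → ℕ → Finset ℕ) (N : ℕ → ℕ → ℕ) (s : ℕ → ℕ), SM M j0 B N s → ∀ c : ℕ → ℕ,
    (∀ i < M, 0 < c i ∧ c i ≤ D) → (∀ i < M, ∀ i' < M, i ≠ i' → (c i).Coprime (c i')) →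
    (∀ i < M, ∀ i' < M, ∀ t, (c i).Coprime (N i' t)) → ∀ J : ℕ,
      DM (fun i : Fin k => (∏ t ∈ range J, B i t).image fun a => c i * a)
        (D * ∏ t ∈ range J, s t) Y0

/-! ### the circle method with several sets -/

/-- the number of representations of `T` as a sum with one term from each `A i` -/
def rm {k : ℕ} (A : Fin k → Finset ℕ) (T : ℕ) : ℕ :=
  ((Fintype.piFinset A).filter fun a => ∑ i, a i = T).card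

def StFour2 : Prop := ∀ (k : ℕ) (A : Fin k → Finset ℕ) (S P T : ℕ), (∀ i, ∀ a ∈ A i, a ≤ S) →
  k * S < P → T < P →
  (rm A T : ℂ) * P = ∑ v ∈ range P, (∏ i, ES (A i) (v / P)) * ee (-(T * v / P))

def StDiff2 : Prop := ∀ (Y0 : ℝ) (k : ℕ), ∃ (W : ℕ) (ε : ℝ), 0 < W ∧ 0 < ε ∧ ε ≤ 1 ∧
  ∀ (A : Fin k → Finset ℕ) (S : ℕ), 1 ≤ S → (∀ i, ∀ a ∈ A i, a ≤ S) → DM A S Y0 →
    ∀ T T' : ℕ, T ≤ k * S → T' ≡ T [MOD W] → |(T' : ℝ) - T| ≤ ε * S →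
      |(rm A T' : ℝ) - rm A T| ≤ (∏ i, ((A i).card : ℝ)) / (2 * (k + 2) * S)

open Classical in
def StPopA : Prop := ∀ (k : ℕ) (X : Fin k → Finset ℕ) (H W : ℕ) (η : ℝ), 0 < W → 0 < H → 0 < η →
  η ≤ 1 → (∀ i, (X i).Nonempty) → (∀ x ∈ Fintype.piFinset X, ∑ i, x i ≤ H) →
  ∃ x0 ∈ Fintype.piFinset X, η * ∏ i, ((X i).card : ℝ) ≤
    2 * W * ((Fintype.piFinset X).filter fun x => ∑ i, x i ≡ ∑ i, x0 i [MOD W] ∧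
      |((∑ i, x i : ℕ) : ℝ) - (∑ i, x0 i : ℕ)| ≤ η * H).card

def StPop2 : Prop := ∀ (k : ℕ) (X : Fin k → Finset ℕ) (H W : ℕ) (η : ℝ), 0 < W → 0 < H → 0 < η →
  η ≤ 1 → (∀ i, (X i).Nonempty) → (∀ x ∈ Fintype.piFinset X, ∑ i, x i ≤ H) →
  ∃ x0 ∈ Fintype.piFinset X, ∀ (Γ : Fin k → Finset ℕ) (S g : ℕ), (∀ i, (Γ i).Nonempty) →
    (∀ i, ∀ γ ∈ Γ i, γ ≡ g [MOD W] ∧ γ ≤ S ∧ (S : ℝ) ≤ (1 + η) * γ) →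
    (∀ i, (X i * Γ i).card = (X i).card * (Γ i).card) → (W : ℝ) ≤ η * H * S →
    ∃ T : ℕ, T ≡ g * ∑ i, x0 i [MOD W] ∧
      |(T : ℝ) - (∑ i, x0 i : ℕ) * S| ≤ 2 * η * H * S ∧
      ∏ i, ((X i * Γ i).card : ℝ) ≤ 10 * H * S * rm (fun i => X i * Γ i) T

/-! ### cofactors, residues and padding -/

def StRound : Prop := ∀ M : ℕ, 0 < M → ∀ᶠ j : ℕ in atTop, ∀ P : Finset ℕ, (∀ p ∈ P, Gd j p) →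
  ∃ (c : ℕ → ℕ) (D w : ℕ), (∀ i < M, Squarefree (c i) ∧ (c i).primeFactors ⊆ P ∧
    (c i).primeFactors.card = w ∧ sg (c i) = D) ∧
    (∀ i < M, ∀ i' < M, i ≠ i' → (c i).Coprime (c i')) ∧ P.card ≤ M * w + j ^ 4998

def StER1 : Prop := ∀ M : ℕ, 0 < M → ∀ᶠ m : ℕ in atTop, ∃ (c : ℕ → ℕ) (D : ℕ),
  (∀ i < M, Squarefree (c i) ∧ sg (c i) = D ∧
    (∀ p ∈ (c i).primeFactors, 2 ^ (5000 * m) < p ∧ p ≤ 2 ^ (5000 * (m + 1))) ∧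
    1 / (20000000 * M * m : ℝ) ≤ ∑ p ∈ (c i).primeFactors, (1 / p : ℝ)) ∧
  ∀ i < M, ∀ i' < M, i ≠ i' → (c i).Coprime (c i')

def StER : Prop := ∀ M : ℕ, 0 < M → ∃ (c : ℕ → ℕ) (D : ℕ),
  (∀ i < M, 0 < c i ∧ ¬ 2 ∣ c i ∧ sg (c i) = D ∧ 2 * M * c i ≤ D) ∧
  ∀ i < M, ∀ i' < M, i ≠ i' → (c i).Coprime (c i')

def StUnits : Prop := ∀ (W z : ℕ) (X : ℕ → ℕ), 0 < W →
  (∀ e < 3, ∀ e' < 3, e ≠ e' → (X e).Coprime (X e')) → (∀ e < 3, ¬ 2 ∣ X e) → 2 ∣ z →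
  ∃ ρ u : ℕ → ℕ, (∀ e < 3, ρ e < W ∧ (ρ e).Coprime W ∧ ρ e * u e ≡ 1 [MOD W]) ∧
    W ∣ z + ∑ e ∈ range 3, X e * (1 + u e)

def StDiv4 : Prop := ∀ (x : ℝ) (z : ℕ), ∃ U : Finset ℕ,
  (∀ p ∈ U, p.Prime ∧ p ≡ 1 [MOD 4] ∧ z < p) ∧ x ≤ ∑ p ∈ U, (1 / p : ℝ)

def StCof4 : Prop := ∀ (z : ℕ) (t ε : ℝ), 1 ≤ t → 0 < ε → ∃ c : ℕ, 0 < c ∧
  (∀ p ∈ c.primeFactors, p ≡ 1 [MOD 4] ∧ z < p) ∧
  t ≤ (sg c : ℝ) / c ∧ (sg c : ℝ) / c ≤ t + ε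

def StPads : Prop := ∀ (l z : ℕ) (τ η : ℝ), 1 ≤ l → 1 / 2 ≤ τ → τ ≤ 1 → 0 < η →
  ∃ E : Finset ℕ, E.card = l ∧ (∀ d ∈ E, 0 < d ∧ ∀ p ∈ d.primeFactors, p ≡ 1 [MOD 4] ∧ z < p) ∧
    (E : Set ℕ).Pairwise Nat.Coprime ∧ |∑ d ∈ E, (d : ℝ) / (sg d : ℝ) - τ| ≤ η

def StKey : Prop := ∀ (H S W z g T' Pd : ℕ) (η : ℝ) (X n p u : ℕ → ℕ), 0 < η → η ≤ 1 →
  2 * η * H ≤ z → 2 * (z + ∑ e ∈ range 3, X e) ≤ H →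
  (∀ e < 3, n e * p e ≡ g [MOD W] ∧ p e * u e ≡ 1 [MOD W] ∧ n e * p e ≤ S ∧
    (S : ℝ) ≤ (1 + η) * (n e * p e : ℕ) ∧ 1 ≤ η * p e) →
  W ∣ z + ∑ e ∈ range 3, X e * (1 + u e) → W ∣ H * S → W ∣ Pd →
  |(Pd : ℝ) - ((H : ℝ) - z - (∑ e ∈ range 3, X e : ℕ)) * S| ≤ η * H * S →
  T' ≡ g * z [MOD W] → |(T' : ℝ) - z * S| ≤ 2 * η * H * S →
  ∃ T : ℕ, T + ∑ e ∈ range 3, X e * n e * (p e + 1) + Pd = H * S ∧ T ≡ T' [MOD W] ∧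
    |(T : ℝ) - T'| ≤ 4 * η * H * S

def StEnd : Prop := ∀ (M S : ℕ) (v y : ℕ → ℕ) (E : Finset ℕ), 0 < S →
  (∀ i < M, 1 < v i ∧ sg (v i) * y i = S) →
  (∀ i < M, ∀ i' < M, i ≠ i' → (v i).Coprime (v i')) →
  (∀ d ∈ E, 0 < d ∧ sg d ∣ S ∧ ∀ i < M, (v i).Coprime d) → (E : Set ℕ).Pairwise Nat.Coprime →
  ∑ i ∈ range M, v i * y i + ∑ d ∈ E, d * (S / sg d) = S →
  ∃ Z : Finset ℕ, Z.card = M + E.card ∧ (∀ n ∈ Z, 0 < n) ∧ (Z : Set ℕ).Pairwise Nat.Coprime ∧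
    ∑ n ∈ Z, (n : ℚ) / (sg n : ℚ) = 1 ∧ ∀ i < M, v i ∈ Z

/-! ### small facts -/

theorem mem_GA {j G ρ p : ℕ} : p ∈ GA j G ρ ↔ Gd j p ∧ p ≡ ρ [MOD G] := by
  classical
  simp only [GA, PA, PN, Gd, mem_filter, mem_Ioc]
  tauto

theorem PA_one (N ρ : ℕ) : PA N 1 ρ = PN N := filter_true_of_mem fun _ _ => Nat.modEq_one

theorem Bk.pos {B : Finset ℕ} {N s : ℕ} (h : Bk B N s) {b : ℕ} (hb : b ∈ B) : 0 < b :=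
  Nat.pos_of_dvd_of_pos (h.dvd b hb) (Nat.pos_of_ne_zero h.sqf.ne_zero)

theorem Bk.s_pos {B : Finset ℕ} {N s : ℕ} (h : Bk B N s) : 0 < s := by
  obtain ⟨b, hb⟩ := h.ne
  rw [← h.sig b hb]
  exact ArithmeticFunction.sigma_pos 1 b (h.pos hb).ne'

theorem S1.two_le {j0 : ℕ} {B : ℕ → Finset ℕ} {N s : ℕ → ℕ} (h : S1 j0 B N s) (hj : 2 ≤ j0)
    (t : ℕ) : 2 ≤ s t := by
  refine le_trans ?_ (h.lo t)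
  exact le_trans (by omega) (Nat.le_self_pow (pow_ne_zero _ (by omega)) (j0 + t))

end Pool.Agent.MP_2876a2_nt.Tu
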