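import Pool.Agent.MP_2876a2_nt.Tu.St2

/-!
Pairwise coprime tuples with sharper exponents: definitions and statements.
-/

set_option autoImplicit false

open Finset Filter
open scoped Pointwise

noncomputable section

namespace Pool.Agent.MP_2876a2_nt.Tu.V

/-! ### primes in a progression with smooth `p + 1` -/

def Dz (N : ℕ) : ℕ := ⌊(N : ℝ) ^ (91 / 200 : ℝ)⌋₊

def pw (N : ℕ) (u : ℝ) : ℕ := ⌊(N : ℝ) ^ u⌋₊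

/-- mass of the pairs `(l, p)` with `l ∣ p + 1` and `l` a prime of `(N ^ u, N ^ w]` -/
def TL (N G ρ : ℕ) (u w : ℝ) : ℝ := ∑ l ∈ (Ioc (pw N u) (pw N w)).filter Nat.Prime,
  TH ((PA N G ρ).filter fun p => l ∣ p + 1)

def StBT3 : Prop := ∀ d a R N : ℕ, 0 < d → 2 ≤ R → R ≤ N →
  (((Ioc N (2 * N)).filter fun p => p.Prime ∧ p ≡ a [MOD d]).card : ℝ) ≤
    (N + 2 * d) / (d.totient * Real.log R) + (R : ℝ) ^ 2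

/-- reciprocals of the primes of `(N ^ u, N ^ w]` -/
def StRc : Prop := ∀ u w ε : ℝ, 0 < u → u ≤ w → 0 < ε → ∀ᶠ N : ℕ in atTop,
  ∑ l ∈ (Ioc (pw N u) (pw N w)).filter Nat.Prime, 1 / ((l : ℝ) - 1) ≤ (w - u) / u + ε

def StPBV : Prop := ∀ (G ρ : ℕ) (u w ε : ℝ), 0 < G → ρ.Coprime G → 0 < u → u ≤ w → w < 1 / 2 →
  0 < ε → ∀ᶠ N : ℕ in atTop, TL N G ρ u w ≤ N / G.totient * ((w - u) / u + ε)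

def StPBT : Prop := ∀ (G ρ : ℕ) (u w ε : ℝ), 0 < G → 0 < u → u ≤ w → w < 1 →
  0 < ε → ∀ᶠ N : ℕ in atTop,
    TL N G ρ u w ≤ N / G.totient * (2 / (1 - w) * ((w - u) / u) + ε)

/-- the grid of exponents -/
def gr (i : ℕ) : ℝ := (455 + i) / 1000

/-- the weight of a piece of the grid -/
def wg (i : ℕ) : ℝ := if i < 44 then 1 else 2 / (1 - gr (i + 1))

def StSum : Prop := 100 / 61 * (109 / 200) +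
  ∑ i ∈ range 155, (1 - 100 / 61 * gr i) * (wg i * ((gr (i + 1) - gr i) / gr i)) ≤ 9961 / 10000

def StPc : Prop := ∀ G ρ : ℕ, 0 < G → ρ.Coprime G → ∀ᶠ N : ℕ in atTop,
  ∑ i ∈ range 155, (1 - 100 / 61 * gr i) * TL N G ρ (gr i) (gr (i + 1)) ≤
    N / G.totient * (9962 / 10000 - 100 / 61 * (109 / 200))

open Classical in
def StIneq : Prop := ∀ N G ρ : ℕ, 2 ≤ N →
  TH ((PA N G ρ).filter fun p => ¬ Sm (Dz N) (p + 1)) ≤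
    100 / 61 / Real.log N * (∑ p ∈ PA N G ρ, Real.log p * (Real.log (p + 1) -
      ∑ d ∈ (Icc 1 (Dz N)).filter (fun d => d ∣ p + 1), La d)) +
    ∑ i ∈ range 155, (1 - 100 / 61 * gr i) * TL N G ρ (gr i) (gr (i + 1))

def StLo2 : Prop := ∀ G ρ : ℕ, 0 < G → ρ.Coprime G → ∃ C : ℝ, ∀ᶠ N : ℕ in atTop,
  TH (PN N) / G.totient * (91 / 200 * Real.log N - C) - N ≤
    ∑ p ∈ PA N G ρ, Real.log p * ∑ d ∈ (Icc 1 (Dz N)).filter (fun d => d ∣ p + 1), La d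

open Classical in
def StA2 : Prop := ∀ G ρ : ℕ, 0 < G → ρ.Coprime G → ∀ᶠ N : ℕ in atTop,
  (N : ℝ) / (1000 * G * Real.log N) ≤ ((PA N G ρ).filter fun p => Sm (Dz N) (p + 1)).card

/-- admissible primes at the scale `j` -/
def Gd (j p : ℕ) : Prop := p.Prime ∧ j ^ 5000 < p ∧ p ≤ 2 * j ^ 5000 ∧ Sm (j ^ 2275) (p + 1)

open Classical in
/-- the admissible primes at the scale `j` in the class `ρ` modulo `G` -/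
def GA (j G ρ : ℕ) : Finset ℕ := (PA (j ^ 5000) G ρ).filter fun p => Sm (j ^ 2275) (p + 1)

def Adm (j G ρ : ℕ) : Prop := j ^ 4999 ≤ (GA j G ρ).card

def StAdm : Prop := ∀ G ρ : ℕ, 0 < G → ρ.Coprime G → ∀ᶠ j : ℕ in atTop, Adm j G ρ

/-! ### coloured blocks -/

/-- `B` is a large set of divisors of `N` with divisor sum `s` -/
structure Bk (B : Finset ℕ) (N s : ℕ) : Prop where
  sqf : Squarefree N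
  ne : B.Nonempty
  dvd : ∀ b ∈ B, b ∣ N
  sig : ∀ b ∈ B, sg b = s
  big : s ^ 544 ≤ B.card ^ 1000

def StFib : Prop := ∀ᶠ j : ℕ in atTop, ∀ P : Finset ℕ, P.card = j ^ 4998 → (∀ p ∈ P, Gd j p) →
  ∃ (F : Finset (Finset ℕ)) (s : ℕ), F ⊆ P.powersetCard (j ^ 2275) ∧
    j ^ (2722 * j ^ 2275) ≤ F.card ∧ ∀ b ∈ F, ∏ p ∈ b, (p + 1) = s

def StPool : Prop := ∀ᶠ j0 : ℕ in atTop, ∃ P : ℕ → Finset ℕ,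
  (∀ i, (P i).card = (j0 + i) ^ 4998 ∧ ∀ p ∈ P i, Gd (j0 + i) p) ∧
    ∀ i i', i ≠ i' → Disjoint (P i) (P i')

def StBM : Prop := ∀ M : ℕ, 0 < M → ∀ᶠ j : ℕ in atTop, ∀ P : Finset ℕ, P.card = j ^ 4998 →
  (∀ p ∈ P, Gd j p) → ∃ (B : ℕ → Finset ℕ) (N : ℕ → ℕ) (s r : ℕ),
    (∀ i < M, Bk (B i) (N i) s ∧ (N i).primeFactors ⊆ P ∧ ∀ b ∈ B i, b.primeFactors.card = r) ∧
    (∀ i < M, ∀ i' < M, i ≠ i' → (N i).Coprime (N i')) ∧ 1 ≤ r ∧ r ≤ j ^ 2275 ∧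
    j ^ j ^ 2275 ≤ s ∧
    s ≤ j ^ (5001 * j ^ 2275)

/-- a sequence of blocks at the scales `j0, j0 + 1, ...` -/
structure S1 (j0 : ℕ) (B : ℕ → Finset ℕ) (N s : ℕ → ℕ) : Prop where
  blk : ∀ t, Bk (B t) (N t) (s t)
  cop : ∀ t t', t ≠ t' → (N t).Coprime (N t')
  prm : ∀ t, ∀ p ∈ (N t).primeFactors, (j0 + t) ^ 5000 < p ∧ p ≤ 2 * (j0 + t) ^ 5000
  few : ∀ t, (N t).primeFactors.card ≤ (j0 + t) ^ 4998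
  lo : ∀ t, (j0 + t) ^ (j0 + t) ^ 2275 ≤ s t
  hi : ∀ t, s t ≤ (j0 + t) ^ (5001 * (j0 + t) ^ 2275)
  om : ∀ t, ∀ b ∈ B t, b.primeFactors.card ≤ (j0 + t) ^ 2275

/-- `M` sequences of blocks with coprime supports and the same divisor sums -/
structure SM (M j0 : ℕ) (B : ℕ → ℕ → Finset ℕ) (N : ℕ → ℕ → ℕ) (s : ℕ → ℕ) : Prop where
  one : ∀ i < M, S1 j0 (B i) (N i) s
  cop : ∀ i < M, ∀ i' < M, i ≠ i' → ∀ t t', (N i t).Coprime (N i' t')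

def StExt : Prop := ∀ M : ℕ, 0 < M → ∀ᶠ j0 : ℕ in atTop,
  ∃ (B : ℕ → ℕ → Finset ℕ) (N : ℕ → ℕ → ℕ) (s : ℕ → ℕ), SM M j0 B N s ∧
    ∀ (t2 : ℕ) (G ρ : ℕ → ℕ), (∀ t, t2 ≤ t → Adm (j0 + t) (G t) (ρ t)) →
      ∃ (B' : ℕ → ℕ → Finset ℕ) (N' : ℕ → ℕ → ℕ) (s' r : ℕ → ℕ), SM M j0 B' N' s' ∧
        (∀ t < t2, s' t = s t ∧ ∀ i, B' i t = B i t ∧ N' i t = N i t) ∧
        ∀ t, t2 ≤ t → 1 ≤ r t ∧ ∀ i < M, (∀ b ∈ B' i t, b.primeFactors.card = r t) ∧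
          ∀ p ∈ (N' i t).primeFactors, p ≡ ρ t [MOD G t]

def StMul2 : Prop := ∀ (B B' : Finset ℕ) (N N' s s' : ℕ), Bk B N s → Bk B' N' s' →
  N.Coprime N' → Bk (B * B') (N * N') (s * s') ∧ (B * B').card = B.card * B'.card ∧
    ∀ f : ℕ → ℂ, ∑ a ∈ B * B', f a = ∑ b ∈ B, ∑ b' ∈ B', f (b * b')

def StProd2 : Prop := ∀ (j0 : ℕ) (B : ℕ → Finset ℕ) (N s : ℕ → ℕ), 2 ≤ j0 → S1 j0 B N s →
  ∀ (u : ℕ) (I : Finset ℕ), (∀ t ∈ I, u ≤ t) →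
    Bk (∏ t ∈ I, B t) (∏ t ∈ I, N t) (∏ t ∈ I, s t) ∧
    ∀ a ∈ ∏ t ∈ I, B t, 1 ≤ a ∧ a ≤ ∏ t ∈ I, s t ∧
      ((∏ t ∈ I, s t : ℕ) : ℝ) ≤ Real.exp (2 / (j0 + u)) * a

def StTail : Prop := ∀ (j0 t2 J W : ℕ) (B : ℕ → Finset ℕ) (N s G ρ r : ℕ → ℕ), S1 j0 B N s →
  (∀ t, t2 ≤ t → 1 ≤ r t ∧ W ∣ G t ∧ (∀ b ∈ B t, b.primeFactors.card = r t) ∧
    ∀ p ∈ (N t).primeFactors, p ≡ ρ t [MOD G t]) →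
  (∀ γ ∈ ∏ t ∈ Ico t2 J, B t, γ ≡ ∏ t ∈ Ico t2 J, ρ t ^ r t [MOD W]) ∧
  (∀ t ∈ Ico t2 J, ∃ n p : ℕ, p ∈ (N t).primeFactors ∧ n * p ∈ ∏ t ∈ Ico t2 J, B t) ∧
  ∀ t, t2 ≤ t → G t ∣ ρ t + 1 → G t ∣ s t

/-! ### decay -/

/-- the sum of `d ^ (-1 / 2)` over the divisors -/
def wt (n : ℕ) : ℝ := ∑ d ∈ n.divisors, (√(d : ℝ))⁻¹

def StWt : Prop := (∀ m n : ℕ, wt (m * n) ≤ wt m * wt n) ∧ (∀ n : ℕ, 0 ≤ wt n ∧ wt n ≤ n) ∧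
  ∀ (j0 : ℕ) (B : ℕ → Finset ℕ) (N s : ℕ → ℕ), 2 ≤ j0 → S1 j0 B N s →
    ∀ I : Finset ℕ, ∀ a ∈ ∏ t ∈ I, B t, wt a ≤ 3

def StNum3 : Prop := ∀ᶠ Y : ℝ in atTop, ∀ q Q Q' g : ℝ, 1 ≤ q → q ≤ Y → 1 ≤ Q →
  Q ≤ Y ^ (5001 / 5000 : ℝ) → 0 ≤ Q' → Q' ≤ Y ^ (5001 / 5000 : ℝ) → 1 ≤ g →
  Q' + 2 * (2 * Q + q) * (1 + Real.log q) + 3 * (1 + Real.log Q) * g * Q * Q' / Y ≤
    g * Y ^ (5003 / 5000 : ℝ)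

def StBil3 : Prop := ∀ᶠ Y : ℝ in atTop, ∀ (B B' : Finset ℕ) (N N' Q Q' m S q : ℕ) (u : ℤ) (β : ℝ),
  Bk B N Q → Bk B' N' Q' → (∀ b ∈ B, b ≤ Q) → (∀ b ∈ B', 1 ≤ b ∧ b ≤ Q') → 0 < q →
  IsCoprime u (q : ℤ) → 0 < m → m * Q * Q' ≤ S → S ≤ 3 * (m * Q * Q') → qs S q β = Y →
  2 * Y ≤ Q' → (Q' : ℝ) ≤ Y ^ (5001 / 5000 : ℝ) → Y ^ (4999 / 5000 : ℝ) ≤ Q →
  (Q : ℝ) ≤ Y ^ (5001 / 5000 : ℝ) →
  ‖∑ b ∈ B, ∑ b' ∈ B', ee ((u / q + β) * m * ((b * b' : ℕ) : ℝ))‖ ≤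
    B.card * B'.card * √((Nat.gcd q m : ℕ) : ℝ) * Y ^ (-(436 / 10000) : ℝ)

def StDec3 : Prop := ∀ j0 D : ℕ, 2 ≤ j0 → 0 < D → ∀ᶠ Y : ℝ in atTop,
  ∀ (B : ℕ → Finset ℕ) (N s : ℕ → ℕ), S1 j0 B N s → ∀ (c J q : ℕ) (u : ℤ) (β : ℝ), 0 < c →
    c ≤ D → 0 < q → IsCoprime u (q : ℤ) → qs (D * ∏ t ∈ range J, s t) q β = Y →
    Y ^ 2 ≤ ((D * ∏ t ∈ range J, s t : ℕ) : ℝ) →
    ‖ES ((∏ t ∈ range J, B t).image fun a => c * a) (u / q + β)‖ ≤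
      Y ^ (-(4355 / 100000) : ℝ) *
        ∑ a ∈ (∏ t ∈ range J, B t).image (fun a => c * a), √((Nat.gcd q a : ℕ) : ℝ)

/-- decay of a product of exponential sums above the height `Y0` -/
def DM {k : ℕ} (A : Fin k → Finset ℕ) (S : ℕ) (Y0 Λ : ℝ) : Prop :=
  (∀ a ∈ Fintype.piFinset A, ∏ i, a i ≠ 0 ∧ wt (∏ i, a i) ≤ Λ) ∧
  ∀ (u : ℤ) (q : ℕ) (β : ℝ), 0 < q → IsCoprime u (q : ℤ) → Y0 ≤ qs S q β → qs S q β ^ 2 ≤ S →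
    ∏ i, ‖ES (A i) (u / q + β)‖ ≤ qs S q β ^ (-(2003 / 1000) : ℝ) *
      ∑ a ∈ Fintype.piFinset A, √((Nat.gcd q (∏ i, a i) : ℕ) : ℝ)

def StDM : Prop := ∀ j0 D k M : ℕ, 2 ≤ j0 → 0 < D → 46 ≤ k → k ≤ M → ∃ Y0 Λ : ℝ,
  ∀ (B : ℕ → ℕ → Finset ℕ) (N : ℕ → ℕ → ℕ) (s : ℕ → ℕ), SM M j0 B N s → ∀ c : ℕ → ℕ,
    (∀ i < M, 0 < c i ∧ c i ≤ D) → (∀ i < M, ∀ i' < M, i ≠ i' → (c i).Coprime (c i')) →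
    (∀ i < M, ∀ i' < M, ∀ t, (c i).Coprime (N i' t)) → ∀ J : ℕ,
      DM (fun i : Fin k => (∏ t ∈ range J, B i t).image fun a => c i * a)
        (D * ∏ t ∈ range J, s t) Y0 Λ

def StGs : Prop := ∃ C : ℝ, 0 ≤ C ∧ ∀ Q n : ℕ, n ≠ 0 →
  ∑ q ∈ Icc 1 Q, (q : ℝ) ^ (-(1002 / 1000) : ℝ) * √((Nat.gcd q n : ℕ) : ℝ) ≤ C * wt n

def StMas3 : Prop := ∃ C : ℝ, 0 ≤ C ∧ ∀ (K S n : ℕ) (u : ℕ → ℤ) (q : ℕ → ℕ), 1 ≤ K → 1 ≤ S →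
  n ≠ 0 → (∀ v, 0 < q v ∧ |(v : ℝ) / (K * S : ℕ) - u v / q v| ≤ 1 / q v) →
  ∑ v ∈ range (K * S), qs S (q v) ((v : ℝ) / (K * S : ℕ) - u v / q v) ^ (-(2002 / 1000) : ℝ) *
    √((Nat.gcd (q v) n : ℕ) : ℝ) ≤ C * K * wt n

def StAp3 : Prop := ∃ C : ℝ, 0 ≤ C ∧ ∀ K S : ℕ, 1 ≤ K → 1 ≤ S →
  ∃ (u : ℕ → ℤ) (q : ℕ → ℕ) (β : ℕ → ℝ),
    (∀ v, 0 < q v ∧ IsCoprime (u v) (q v : ℤ) ∧ (v : ℝ) / (K * S : ℕ) = u v / q v + β v ∧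
      qs S (q v) (β v) ^ 2 ≤ S) ∧
    ∀ n : ℕ, n ≠ 0 → ∑ v ∈ range (K * S), qs S (q v) (β v) ^ (-(2002 / 1000) : ℝ) *
      √((Nat.gcd (q v) n : ℕ) : ℝ) ≤ C * K * wt n

def StDiff3 : Prop := ∀ (Y0 Λ : ℝ) (k : ℕ), ∃ (W : ℕ) (ε : ℝ), 0 < W ∧ 0 < ε ∧ ε ≤ 1 ∧
  ∀ (A : Fin k → Finset ℕ) (S : ℕ), 1 ≤ S → (∀ i, ∀ a ∈ A i, a ≤ S) → DM A S Y0 Λ →
    ∀ T T' : ℕ, T ≤ k * S → T' ≡ T [MOD W] → |(T' : ℝ) - T| ≤ ε * S →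
      |(rm A T' : ℝ) - rm A T| ≤ (∏ i, ((A i).card : ℝ)) / (2 * (k + 2) * S)

/-! ### small facts -/

theorem mem_GA {j G ρ p : ℕ} : p ∈ GA j G ρ ↔ Gd j p ∧ p ≡ ρ [MOD G] := by
  classical
  simp only [GA, PA, PN, Gd, mem_filter, mem_Ioc]
  tauto

theorem Bk.pos {B : Finset ℕ} {N s : ℕ} (h : Bk B N s) {b : ℕ} (hb : b ∈ B) : 0 < b :=
  Nat.pos_of_dvd_of_pos (h.dvd b hb) (Nat.pos_of_ne_zero h.sqf.ne_zero)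

theorem Bk.s_pos {B : Finset ℕ} {N s : ℕ} (h : Bk B N s) : 0 < s := by
  obtain ⟨b, hb⟩ := h.ne
  rw [← h.sig b hb]
  exact ArithmeticFunction.sigma_pos 1 b (h.pos hb).ne'

theorem S1.two_le {j0 : ℕ} {B : ℕ → Finset ℕ} {N s : ℕ → ℕ} (h : S1 j0 B N s) (hj : 2 ≤ j0)
    (t : ℕ) : 2 ≤ s t := by
  refine le_trans ?_ (h.lo t)
  exact le_trans (by omega) (Nat.le_self_pow (pow_ne_zero _ (by omega)) (j0 + t))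

theorem wt_one : wt 1 = 1 := by simp [wt]

end Pool.Agent.MP_2876a2_nt.Tu.V
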