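import Pool.Agent.MP_2876a2_nt.Tu.St3

/-!
Pairwise coprime tuples from trees of primes: definitions and statements.
-/

set_option autoImplicit false

open Finset Filter
open scoped Pointwise

noncomputable section

namespace Pool.Agent.MP_2876a2_nt.Tu.Z

/-! ### trees of primes -/

/-- `p` is a child of `q` above the threshold `z` -/
def Ch (z q p : ℕ) : Prop := p.Prime ∧ z < p ∧ p < q ∧ p ∣ q + 1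

open Classical in
/-- `q` and its descendants -/
def nd (z q : ℕ) : Finset ℕ := (range (q + 1)).filter fun p => Relation.ReflTransGen (Ch z) q p

/-- `c` is a chain of length `j` -/
def Cn (z j : ℕ) (c : ℕ → ℕ) : Prop := ∀ i < j, Ch z (c i) (c (i + 1))

/-- no chain of length `K` starts at `q` -/
def Sh (K z q : ℕ) : Prop := ¬ ∃ c : ℕ → ℕ, c 0 = q ∧ Cn z K c

/-- the denominator attached to `q` -/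
def Dq (z q : ℕ) : ℕ := (∏ p ∈ nd z q, (p + 1)) * q / ∏ p ∈ nd z q, p

/-- primes with a short and clean tree that avoids a window above the threshold -/
structure Nice (K g m q : ℕ) : Prop where
  mem : q ∈ PN (2 ^ (100 * m))
  sh : Sh K (2 ^ m) q
  gap : ∀ p ∈ nd (2 ^ m) q, 2 ^ (m + 8 * (m / g)) < p
  sm : Sm (2 ^ m) (Dq (2 ^ m) q)

def StPath : Prop := (∀ z q p K : ℕ, p ∈ nd z q → Sh K z q →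
    Sh K z p ∧ ∃ j < K, ∃ c : ℕ → ℕ, c 0 = q ∧ c j = p ∧ Cn z j c) ∧
  (∀ z q p K : ℕ, Sh (K + 1) z q → Ch z q p → Sh K z p) ∧ ∀ z q : ℕ, ¬ Sh 0 z q

def StCard : Prop := ∀ K z q : ℕ, 2 ≤ z → q < z ^ 101 → Sh K z q → (nd z q).card ≤ 102 ^ K

open Classical in
def StAn : Prop := ∀ K z X p : ℕ, 1 ≤ p →
  ∑ u ∈ (Icc 1 X).filter (fun u => Sh K z u ∧ p ∈ nd z u), (1 / u : ℝ) ≤
      (3 + 2 * Real.log (X + 1)) ^ K / p ∧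
    (((Icc 1 X).filter fun u => Sh K z u ∧ p ∈ nd z u).card : ℝ) ≤
      X * (3 + 2 * Real.log (X + 1)) ^ K / p

def StDiv : Prop := ∀ z q : ℕ, q.Prime →
  (∏ p ∈ nd z q, (p + 1)) * q = Dq z q * ∏ p ∈ nd z q, p

def StStr : Prop := ∀ z q l : ℕ, 2 ≤ z → z < q → q.Prime → l.Prime → z < l → l ∣ Dq z q →
  ∃ q' ∈ nd z q, ∃ p1 p2 : ℕ, Ch z q' p1 ∧ Ch z q' p2 ∧ p1 * p2 ∣ q' + 1 ∧
    l ∈ nd z p1 ∧ l ∈ nd z p2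

open Classical in
def StCl : Prop := ∀ K : ℕ, ∀ᶠ m : ℕ in atTop,
  (((PN (2 ^ (100 * m))).filter fun q =>
    Sh K (2 ^ m) q ∧ ¬ Sm (2 ^ m) (Dq (2 ^ m) q)).card : ℝ) ≤ 2 ^ (100 * m) / (m : ℝ) ^ 2

def StDq : Prop := ∀ K g m q : ℕ, 1 ≤ m → Nice K g m q → q ≤ Dq (2 ^ m) q ∧
  (Dq (2 ^ m) q : ℝ) ≤ Real.exp (102 ^ K / 2 ^ (m + 8 * (m / g))) * q

/-! ### the sieve for chains -/

open Classical in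
def StFL0 : Prop := ∀ (K ρ : ℝ) (m J : ℕ) (S P : Finset ℕ) (E : ℕ → ℕ → Prop) (g : ℕ → ℝ)
  (blk : ℕ → ℕ), 3 ≤ m → Real.exp (4 * K) * 8 ≤ 2 ^ m → (∀ p ∈ P, 0 ≤ g p ∧ g p ≤ 1 / 2) →
  (∀ p ∈ P, blk p < J) → (∀ j, ∑ p ∈ P.filter (fun p => blk p = j), g p ≤ K) →
  ∑ T ∈ P.powerset.filter (fun T => ∀ j, (T.filter fun p => blk p = j).card ≤ 2 * (m + j) + 1),
    |((S.filter fun x => ∀ p ∈ T, E p x).card : ℝ) - S.card * ∏ p ∈ T, g p| ≤ ρ →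
  ((S.filter fun x => ∀ p ∈ P, ¬ E p x).card : ℝ) ≤
    2 * S.card * ∏ p ∈ P, (1 - g p) + (J + 1) * ρ

def StFL : Prop := ∃ C : ℕ, 1 ≤ C ∧ ∀ (κ w a X : ℕ) (I : Finset ℕ) (Ω : ℕ → Finset ℕ), 1 ≤ κ →
  2 ≤ w → (∀ l ∈ I, l.Prime ∧ 2 * κ ≤ l ∧ l ≤ w ∧ Ω l ⊆ range l ∧ (Ω l).card ≤ κ) →
  (((Ioc a (a + X)).filter fun x => ∀ l ∈ I, x % l ∉ Ω l).card : ℝ) ≤
    2 * X * ∏ l ∈ I, (1 - ((Ω l).card : ℝ) / l) + (w : ℝ) ^ (C * κ)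

def StMe : Prop := (∀ a w : ℕ, 2 ≤ a → a ≤ w →
    ∏ l ∈ (Ioc a w).filter Nat.Prime, (1 - 1 / (l : ℝ)) ≤ 30 * Real.log a / Real.log w) ∧
  ∀ w : ℕ, 2 ≤ w → ∏ l ∈ (Ioc 0 w).filter Nat.Prime, (1 + 1 / (l : ℝ)) ≤ 15 * Real.log w

/-- the constant term of `n` steps of a chain that start at the index `a` -/
def Bf (μ : ℕ → ℕ) : ℕ → ℕ → ℕ
  | 0, _ => 0
  | n + 1, a => μ a * Bf μ n (a + 1) + 1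

/-- reciprocals of the prime factors of `n` in a window -/
def gs (κ L n : ℕ) : ℝ := ∑ l ∈ (Ioc (4 * κ ^ 4) L).filter (fun l => l.Prime ∧ l ∣ n), (1 / l : ℝ)

def Gs (j L : ℕ) (μ : ℕ → ℕ) : ℝ := ∑ a ∈ range j, gs (j + 1) L (μ a) +
  ∑ a ∈ range j, ∑ n ∈ range (j - a), gs (j + 1) L (Bf μ (n + 1) a)

/-- the primes used in the sieve -/
def Ig (j w : ℕ) (μ : ℕ → ℕ) : Finset ℕ := (Ioc (4 * (j + 1) ^ 4) w).filter fun l =>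
  l.Prime ∧ (∀ a ∈ range j, ¬ l ∣ μ a) ∧ ∀ a ∈ range j, ∀ n ∈ range (j - a), ¬ l ∣ Bf μ (n + 1) a

def StOm : Prop := ∀ (j w l : ℕ) (μ : ℕ → ℕ), l ∈ Ig j w μ → ∃ Ω : Finset ℕ, Ω ⊆ range l ∧
  Ω.card = j + 1 ∧ ∀ c : ℕ → ℕ, (∀ i < j, c i + 1 = μ i * c (i + 1)) →
    (∀ i ≤ j, ¬ l ∣ c i) → c j % l ∉ Ω

def StPr : Prop := ∀ (j w L E : ℕ) (μ : ℕ → ℕ), 1 ≤ j → 4 * (j + 1) ^ 4 ≤ w → 1 ≤ L →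
  (∀ a < j, 0 < μ a ∧ μ a ≤ 2 ^ E) → (∀ a n, a + n < j → Bf μ (n + 1) a ≤ 2 ^ E) →
  ∏ l ∈ Ig j w μ, (1 - ((j + 1 : ℕ) : ℝ) / l) ≤
    (180 * Real.log (j + 1) / Real.log w) ^ (j + 1) *
      Real.exp (2 * (j + 1) * (Gs j L μ + (j + 1) ^ 2 * E / L))

open Classical in
/-- the tops of the chains with given multipliers -/
def cn (m j : ℕ) (μ : ℕ → ℕ) : Finset ℕ := (PN (2 ^ (100 * m))).filter fun q =>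
  ∃ c : ℕ → ℕ, c 0 = q ∧ Cn (2 ^ m) j c ∧ ∀ i < j, c i + 1 = μ i * c (i + 1)

def StOne : Prop := ∃ C : ℝ, 1 ≤ C ∧ ∀ j : ℕ, 1 ≤ j → ∀ᶠ m : ℕ in atTop, ∀ μ : ℕ → ℕ,
  (∀ i < j, 1 ≤ μ i) → ((cn m j μ).card : ℝ) ≤ 2 ^ (100 * m) / ((∏ i ∈ range j, μ i : ℕ) : ℝ) *
    (C * (j + 1) * Real.log (j + 1) / m) ^ (j + 1) * Real.exp (2 * (j + 1) * Gs j (m ^ 2) μ)

def StAv1 : Prop := ∀ κ L T β e : ℕ, 2 ≤ κ → 2 ≤ L → 1 ≤ T → (e = 1 ∨ β = 1 ∧ e = 0) →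
  ∑ x ∈ Ico T (2 * T), Real.exp (2 * κ ^ 3 * gs κ L (x * β + e)) ≤
    2 * T + (15 * Real.log L) ^ (4 * κ ^ 3)

/-- extension of a finite vector by the value one -/
def ex {j : ℕ} (μ : Fin j → ℕ) (i : ℕ) : ℕ := if h : i < j then μ ⟨i, h⟩ else 1

/-- a dyadic box -/
def bx {j : ℕ} (e : Fin j → ℕ) : Finset (Fin j → ℕ) :=
  Fintype.piFinset fun i => Ico (2 ^ e i) (2 * 2 ^ e i)

def StAv : Prop := ∀ (j L : ℕ) (e : Fin j → ℕ), 1 ≤ j → 2 ≤ L →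
  ∑ μ ∈ bx e, Real.exp (2 * (j + 1) * Gs j L (ex μ)) ≤ 2 ^ (∑ i, e i) * (j + 1) ^ 2 *
    (2 + (15 * Real.log L) ^ (4 * (j + 1) ^ 3) * ∑ i, 1 / (2 : ℝ) ^ e i)

/-- the dyadic size of a multiplier -/
def lg (c : ℕ → ℕ) (i : ℕ) : ℕ := Nat.log 2 ((c i + 1) / c (i + 1))

open Classical in
def StBox : Prop := ∃ C : ℝ, 1 ≤ C ∧ ∀ (j : ℕ) (δ : ℝ), 1 ≤ j → 0 < δ → ∀ᶠ m : ℕ in atTop,
  ∀ A : Finset (Fin j → ℕ), (∀ e ∈ A, ∀ i, e i ≤ 101 * m) →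
    (((PN (2 ^ (100 * m))).filter fun q => ∃ c : ℕ → ℕ, c 0 = q ∧ Cn (2 ^ m) j c ∧
      (fun i : Fin j => lg c i) ∈ A).card : ℝ) ≤ 2 ^ (100 * m) / (m : ℝ) ^ (j + 1) *
        ((C * (j + 1) * Real.log (j + 1)) ^ (j + 1) * A.card + δ * (m : ℝ) ^ j)

def StVec1 : Prop := ∀ (j K E F : ℕ) (A : Finset (Fin (j + K) → ℕ)),
  (∀ e ∈ A, ∑ i ∈ range j, ex e i ≤ E ∧ ∑ i ∈ range K, ex e (j + i) ≤ F) →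
  A.card * (j.factorial * K.factorial) ≤ (E + j) ^ j * (F + K) ^ K

def StVec2 : Prop := ∀ (j E F : ℕ) (A : Finset (Fin (j + 1) → ℕ)),
  (∀ e ∈ A, E ≤ ∑ i, e i ∧ ∑ i, e i ≤ E + F) → A.card ≤ (F + 1) * (E + F + 1) ^ j

/-- sizes of the multipliers of a chain -/
def StLg : Prop := ∀ (z j : ℕ) (c : ℕ → ℕ), Cn z j c → ∀ a n, a + n ≤ j →
  2 ^ (∑ i ∈ range n, lg c (a + i)) * c (a + n) ≤ 2 ^ n * c a ∧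
    c a ≤ 2 ^ (∑ i ∈ range n, lg c (a + i) + n) * c (a + n)

def bd (C : ℝ) (j K : ℕ) (f : ℝ) : ℝ :=
  (C * ((j + K : ℕ) + 1) * Real.log ((j + K : ℕ) + 1)) ^ (j + K + 1) * 101 ^ j / j.factorial *
    (2 * f) ^ K / K.factorial

open Classical in
def StBad : Prop := ∃ C : ℝ, 1 ≤ C ∧ ∀ (j K : ℕ) (f : ℝ), 1 ≤ j → 1 ≤ K → 0 < f →
  ∀ᶠ m : ℕ in atTop, (((PN (2 ^ (100 * m))).filter fun q => ∃ c : ℕ → ℕ, c 0 = q ∧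
    Cn (2 ^ m) (j + K) c ∧ (c j : ℝ) ≤ (2 : ℝ) ^ (f * m) * c (j + K)).card : ℝ) ≤
      2 ^ (100 * m) / (m : ℝ) * (2 * bd C j K f)

def StDv : Prop := ∀ (a : ℕ) (T : ℝ), 1 ≤ a → ∃ I : ℕ,
  T ≤ ∑ i ∈ range I, 1 / (((i : ℝ) + 1) * Real.log (2 * a * ((i : ℝ) + 1)))

def StBd : Prop := ∀ (C f : ℝ) (j K : ℕ), 1 ≤ C → 1 ≤ j → 0 ≤ f →
  bd C j K f ≤ (1111 * C * Real.log ((j + K : ℕ) + 1)) ^ (2 * j) *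
    (22 * C * Real.log ((j + K : ℕ) + 1) * f) ^ K

def StSched : Prop := ∀ C ε : ℝ, 1 ≤ C → 0 < ε → ∃ (I : ℕ) (j : ℕ → ℕ) (f : ℕ → ℝ), 1 ≤ j 0 ∧
  (∀ i, j i < j (i + 1)) ∧ (∀ i, 0 < f i) ∧ 101 ≤ ∑ i ∈ range I, f i ∧
  ∑ i ∈ range I, bd C (j i) (j (i + 1) - j i) (f i) ≤ ε

open Classical in
def StDep : Prop := ∀ ε : ℝ, 0 < ε → ∃ K : ℕ, ∀ᶠ m : ℕ in atTop,
  (((PN (2 ^ (100 * m))).filter fun q => ¬ Sh K (2 ^ m) q).card : ℝ) ≤ ε * 2 ^ (100 * m) / m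

open Classical in
def StGap : Prop := ∀ (K : ℕ) (ε : ℝ), 0 < ε → ∃ g : ℕ, 16 ≤ g ∧ ∀ᶠ m : ℕ in atTop,
  (((PN (2 ^ (100 * m))).filter fun q => Sh K (2 ^ m) q ∧
    ∃ p ∈ nd (2 ^ m) q, p ≤ 2 ^ (m + 8 * (m / g))).card : ℝ) ≤ ε * 2 ^ (100 * m) / m

open Classical in
def StNice : Prop := ∀ G ρ : ℕ, 0 < G → ρ.Coprime G → ∃ K g : ℕ, 16 ≤ g ∧ ∀ᶠ m : ℕ in atTop,
  2 ^ (100 * m) / (m : ℝ) ^ 2 ≤ ((PA (2 ^ (100 * m)) G ρ).filter fun q => Nice K g m q).card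

/-! ### pools -/

/-- the first eight primes of every dyadic interval -/
def Rsv (p : ℕ) : Prop := p.Prime ∧ ((Ioc (2 ^ Nat.log 2 p) p).filter Nat.Prime).card ≤ 8

def Tol (m : ℕ) (Φ : Finset ℕ) : Prop :=
  ∑ p ∈ Φ.filter (fun p => 2 ^ m < p), (1 / p : ℝ) ≤ Real.exp (-√(m : ℝ) / 30)

def Out (m : ℕ) (Ψ : Finset ℕ) : Prop := (∀ p ∈ Ψ, 2 ^ m < p ∧ p ≤ 2 ^ (101 * m)) ∧
  ∑ p ∈ Ψ, (1 / p : ℝ) ≤ Real.exp (-√(m : ℝ) / 2)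

def StPo1 : Prop := ∀ K g : ℕ, ∀ᶠ m : ℕ in atTop, ∀ Q Φ : Finset ℕ, (∀ q ∈ Q, Nice K g m q) →
  2 ^ (100 * m) / (m : ℝ) ^ 2 ≤ Q.card → Tol m Φ → ∃ Q' ⊆ Q,
    2 ^ (100 * m) / (2 * (m : ℝ) ^ 2) ≤ Q'.card ∧
      ∀ q ∈ Q', ∀ p ∈ nd (2 ^ m) q, p ∉ Φ ∧ ¬ Rsv p

def StPo2 : Prop := ∀ K g : ℕ, 1 ≤ g → ∀ᶠ m : ℕ in atTop, ∀ Q : Finset ℕ,
  (∀ q ∈ Q, Nice K g m q) → 2 ^ (100 * m) / (2 * (m : ℝ) ^ 2) ≤ Q.card → ∃ P ⊆ Q,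
    2 ^ (100 * m) ≤ P.card * 2 ^ (m / g) ∧ Out m (P.biUnion (nd (2 ^ m)))

/-- the members of `b` have disjoint sets -/
def PD (nb : ℕ → Finset ℕ) (b : Finset ℕ) : Prop :=
  ∀ q ∈ b, ∀ q' ∈ b, q ≠ q' → Disjoint (nb q) (nb q')

open Classical in
def StGr : Prop := ∀ (P : Finset ℕ) (nb : ℕ → Finset ℕ) (r Δ : ℕ),
  (∀ q ∈ P, (nb q).Nonempty ∧ (P.filter fun q' => ¬ Disjoint (nb q) (nb q')).card ≤ Δ) →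
  2 * r * Δ ≤ P.card → P.card ^ r ≤ (2 * r) ^ r * ((P.powersetCard r).filter (PD nb)).card

def StAz : Prop := ∀ K g : ℕ, 16 ≤ g → ∀ᶠ m : ℕ in atTop, ∀ P : Finset ℕ,
  (∀ q ∈ P, Nice K g m q) → ∀ p : ℕ,
    (P.filter fun q => p ∈ nd (2 ^ m) q).card ≤ 2 ^ (99 * m - 7 * (m / g))

def StFib : Prop := ∀ K g : ℕ, 16 ≤ g → ∀ᶠ m : ℕ in atTop, ∀ P : Finset ℕ,
  (∀ q ∈ P, Nice K g m q) → 2 ^ (100 * m) ≤ P.card * 2 ^ (m / g) →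
  ∃ (F : Finset (Finset ℕ)) (s : ℕ), F ⊆ P.powersetCard (2 ^ m) ∧
    2 ^ ((99 * m - 3 * (m / g)) * 2 ^ m) ≤ F.card ∧
    ∀ b ∈ F, PD (nd (2 ^ m)) b ∧ ∏ q ∈ b, Dq (2 ^ m) q = s

/-! ### spread families -/

def StNs : Prop := ∀ (P Kc : Finset ℕ) (nb : ℕ → Finset ℕ) (F : Finset (Finset ℕ))
  (K1 A R κ : ℕ), (∀ q ∈ P, (nb q).card ≤ K1) →
  (∀ p, (P.filter fun q => p ∈ nb q).card ≤ A) → (∀ b ∈ F, b ⊆ P) →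
  (∀ J : Finset ℕ, Disjoint J Kc →
    (F.filter fun b => Kc ∪ J ⊆ b).card * R ^ J.card ≤ (F.filter fun b => Kc ⊆ b).card) →
  (2 * κ) ^ K1 * A ≤ R → 1 ≤ κ → ∀ J : Finset ℕ,
    ((F.filter fun b => Kc ⊆ b).filter fun b => J ⊆ (b \ Kc).biUnion nb).card * κ ^ J.card ≤
      (F.filter fun b => Kc ⊆ b).card

/-- the mean of `f` over a random subset of `Ω` of density `p` -/
def Ex (p : ℝ) (Ω : Finset ℕ) (f : Finset ℕ → ℝ) : ℝ :=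
  ∑ W ∈ Ω.powerset, p ^ W.card * (1 - p) ^ (Ω \ W).card * f W

def StUn : Prop := (∀ (p p' : ℝ) (Ω : Finset ℕ) (f : Finset ℕ → ℝ),
    Ex (1 - (1 - p) * (1 - p')) Ω f = Ex p Ω fun W => Ex p' Ω fun W' => f (W ∪ W')) ∧
  ∀ (p c : ℝ) (Ω : Finset ℕ), Ex p Ω (fun _ => c) = c

def StMg : Prop := ∀ (M : ℕ) (Ω : Finset ℕ) (f : ℕ → Finset ℕ → ℝ), 0 < M → ∃ χ : ℕ → ℕ,
  ∑ c ∈ range M, f c (Ω.filter fun x => χ x = c) ≤ ∑ c ∈ range M, Ex (1 / M) Ω (f c)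

def StRd : Prop := ∀ (ι : Type) (I : Finset ι) (T : ι → Finset ℕ) (Ω : Finset ℕ) (h : ℕ)
  (p κ A : ℝ), 0 < p → p ≤ 1 → 4 ≤ p * κ → 1 ≤ h → (∀ i ∈ I, T i ⊆ Ω ∧ (T i).card < 2 * h) →
  (∀ J : Finset ℕ, ((I.filter fun i => J ⊆ T i).card : ℝ) * κ ^ J.card ≤ A) →
  ∃ T' : Finset ℕ → ι → Finset ℕ,
    (∀ W, ∀ i ∈ I, T' W i ⊆ T i ∧ ∃ i' ∈ I, T i' ⊆ W ∪ T' W i) ∧
    Ex p Ω (fun W => ((I.filter fun i => h ≤ (T' W i).card).card : ℝ)) ≤ 4 * A / (p * κ)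

open Classical in
def StEx : Prop := ∀ (ι : Type) (Ω : Finset ℕ) (p κ A : ℝ), 0 < p → p ≤ 1 → 4 ≤ p * κ →
  ∀ (l : ℕ) (I : Finset ι) (T : ι → Finset ℕ), (∀ i ∈ I, T i ⊆ Ω ∧ (T i).card < 2 ^ l) →
  (∀ J : Finset ℕ, ((I.filter fun i => J ⊆ T i).card : ℝ) * κ ^ J.card ≤ A) →
  Ex (1 - (1 - p) ^ l) Ω (fun W => if ∃ i ∈ I, T i ⊆ W then 0 else (I.card : ℝ)) ≤
    l * (4 * A / (p * κ))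

open Classical in
def StPoor : Prop := ∀ (ι : Type) (I : Finset ι) (T : ι → Finset ℕ) (Ω : Finset ℕ) (n : ℕ)
  (p τ : ℝ), 0 < p → p ≤ 1 → 0 ≤ τ → (∀ i ∈ I, T i ⊆ Ω ∧ (T i).card ≤ n) →
  Ex p Ω (fun W => ((I.filter fun i =>
    ((I.filter fun i' => T i' ⊆ T i ∪ W).card : ℝ) < τ).card : ℝ)) ≤ τ / p ^ n

def StSp : Prop := ∀ (ι : Type) (I : Finset ι) (T : ι → Finset ℕ) (M l n : ℕ), 2 ≤ M →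
  (∀ i ∈ I, (T i).card ≤ n) → n < 2 ^ l →
  (∀ J : Finset ℕ, (I.filter fun i => J ⊆ T i).card * (16 * M ^ 2 * (l + 1) ^ 2) ^ J.card ≤
    I.card) → ∃ χ : ℕ → ℕ, ∀ c < M,
      I.card ≤ 4 * M * (M * (l + 1)) ^ n * (I.filter fun i => ∀ x ∈ T i, χ x = c).card

/-! ### blocks -/

/-- `B` is a large set of numerators with the common denominator `s` and supports in `N` -/
structure Bk (B : Finset ℕ) (N s : ℕ) : Prop where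
  sqf : Squarefree N
  ne : B.Nonempty
  sup : ∀ b ∈ B, ∃ n, b ∣ n ∧ n ∣ N ∧ sg n * b = s * n
  big : s ^ 97 ≤ B.card ^ 100

/-- the level of the scale `j` -/
def lev (j : ℕ) : ℕ := Nat.sqrt (Nat.sqrt j)

/-- the sum of `d ^ (-1 / 50)` over the divisors -/
def wt (n : ℕ) : ℝ := ∑ d ∈ n.divisors, (d : ℝ) ^ (-(1 / 50) : ℝ)

/-- a block at the scale `j` -/
structure B1 (j : ℕ) (B : Finset ℕ) (N s : ℕ) : Prop where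
  blk : Bk B N s
  prm : ∀ p ∈ N.primeFactors, 2 ^ lev j < p ∧ p ≤ 2 ^ (101 * lev j) ∧ ¬ Rsv p
  rat : ∀ b ∈ B, (s : ℝ) ≤ Real.exp (1 / (j : ℝ) ^ 2) * b
  thin : ∀ b ∈ B, wt b ≤ Real.exp (1 / (j : ℝ) ^ 2)
  lo : 2 ^ 2 ^ lev j ≤ s
  hi : s ≤ 2 ^ (101 * lev j * 2 ^ lev j)

def StBlkA : Prop := ∀ (M K1 m h : ℕ) (P : Finset ℕ) (nb : ℕ → Finset ℕ)
  (F : Finset (Finset ℕ)), 2 ≤ M → 2 ≤ h → 16 * h ≤ m → P.card ≤ 2 ^ (100 * m) →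
  (∀ q ∈ P, (nb q).card ≤ K1) → (∀ p, (P.filter fun q => p ∈ nb q).card ≤ 2 ^ (99 * m - 7 * h)) →
  F ⊆ P.powersetCard (2 ^ m) → 2 ^ ((99 * m - 3 * h) * 2 ^ m) ≤ F.card →
  (32 * M ^ 2 * (m + K1 + 1) ^ 2) ^ K1 ≤ 2 ^ (3 * h) → 4 * M * (M * (m + K1 + 1)) ^ K1 ≤ 2 ^ h →
  ∃ (Kc : Finset ℕ) (χ : ℕ → ℕ) (r : ℕ), r + Kc.card = 2 ^ m ∧ 2 ^ m ≤ m * r ∧ ∀ i < M,
    2 ^ ((99 * m - 4 * h) * r) ≤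
      (F.filter fun b => Kc ⊆ b ∧ ∀ p ∈ (b \ Kc).biUnion nb, χ p = i).card

def StAsm : Prop := ∀ (z s0 : ℕ) (P Kc : Finset ℕ) (F : Finset (Finset ℕ)) (χ : ℕ → ℕ),
  (∀ q ∈ P, q.Prime) → (∀ b ∈ F, b ⊆ P ∧ PD (nd z) b ∧ ∏ q ∈ b, Dq z q = s0) →
  ∃ (B : ℕ → Finset ℕ) (N : ℕ → ℕ) (s : ℕ), (∀ i i', i ≠ i' → (N i).Coprime (N i')) ∧ ∀ i,
    Squarefree (N i) ∧ (N i).primeFactors ⊆ P.biUnion (nd z) ∧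
    (B i).card = (F.filter fun b => Kc ⊆ b ∧ ∀ p ∈ (b \ Kc).biUnion (nd z), χ p = i).card ∧
    ∀ x ∈ B i, (∃ b ∈ F, Kc ⊆ b ∧ x = ∏ q ∈ b \ Kc, q ∧ ∏ q ∈ b \ Kc, Dq z q = s) ∧
      ∃ n, x ∣ n ∧ n ∣ N i ∧ sg n * x = s * n

def StNumZ : Prop := ∀ M K1 g : ℕ, 1 ≤ g → ∀ᶠ j : ℕ in atTop, 2 ≤ lev j / g ∧
  (32 * M ^ 2 * (lev j + K1 + 1) ^ 2) ^ K1 ≤ 2 ^ (3 * (lev j / g)) ∧
  4 * M * (M * (lev j + K1 + 1)) ^ K1 ≤ 2 ^ (lev j / g) ∧ K1 * j ^ 2 ≤ 2 ^ (8 * (lev j / g)) ∧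
  j ^ 2 ≤ 2 ^ lev j

/-- sizes of a product of roots -/
def StSz : Prop := ∀ (K g m j r : ℕ) (b : Finset ℕ), 1 ≤ m → 1 ≤ j → (∀ q ∈ b, Nice K g m q) →
  b.card = r → r ≤ 2 ^ m → 102 ^ K * j ^ 2 ≤ 2 ^ (8 * (m / g)) → j ^ 2 ≤ 2 ^ m →
  (∏ q ∈ b, q).primeFactors = b ∧ 2 ^ (100 * m * r) ≤ ∏ q ∈ b, Dq (2 ^ m) q ∧
    ∏ q ∈ b, Dq (2 ^ m) q ≤ 2 ^ ((100 * m + 3) * r) ∧
    ((∏ q ∈ b, Dq (2 ^ m) q : ℕ) : ℝ) ≤ Real.exp (1 / (j : ℝ) ^ 2) * (∏ q ∈ b, q : ℕ) ∧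
    wt (∏ q ∈ b, q) ≤ Real.exp (1 / (j : ℝ) ^ 2)

def StBlk : Prop := ∀ M K g : ℕ, 2 ≤ M → 16 ≤ g → ∀ᶠ j : ℕ in atTop, ∀ P : Finset ℕ,
  (∀ q ∈ P, Nice K g (lev j) q) → 2 ^ (100 * lev j) ≤ P.card * 2 ^ (lev j / g) →
  (∀ q ∈ P, ∀ p ∈ nd (2 ^ lev j) q, ¬ Rsv p) →
  ∃ (B : ℕ → Finset ℕ) (N : ℕ → ℕ) (s r : ℕ), 1 ≤ r ∧ (∀ i i', i ≠ i' → (N i).Coprime (N i')) ∧
    ∀ i < M, B1 j (B i) (N i) s ∧ (N i).primeFactors ⊆ P.biUnion (nd (2 ^ lev j)) ∧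
      ∀ b ∈ B i, b.primeFactors.card = r ∧ b.primeFactors ⊆ P

/-- blocks exist at the scale `j` in the class `ρ` modulo `G` and avoid every thin set -/
def Adm (M j G ρ : ℕ) : Prop := ∀ Φ : Finset ℕ, Tol (lev j) Φ →
  ∃ (B : ℕ → Finset ℕ) (N : ℕ → ℕ) (s r : ℕ) (Ψ : Finset ℕ), Out (lev j) Ψ ∧ Disjoint Ψ Φ ∧
    1 ≤ r ∧ (∀ i i', i ≠ i' → (N i).Coprime (N i')) ∧
    ∀ i < M, B1 j (B i) (N i) s ∧ (N i).primeFactors ⊆ Ψ ∧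
      ∀ b ∈ B i, b.primeFactors.card = r ∧ ∀ p ∈ b.primeFactors, p ≡ ρ [MOD G]

def StAdm : Prop := ∀ M G ρ : ℕ, 2 ≤ M → 0 < G → ρ.Coprime G → ∀ᶠ j : ℕ in atTop, Adm M j G ρ

/-- a sequence of blocks at the scales `j0, j0 + 1, ...` -/
structure S1 (j0 : ℕ) (B : ℕ → Finset ℕ) (N s : ℕ → ℕ) : Prop where
  one : ∀ t, B1 (j0 + t) (B t) (N t) (s t)
  cop : ∀ t t', t ≠ t' → (N t).Coprime (N t')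

/-- `M` sequences of blocks with coprime supports and the same denominators -/
structure SM (M j0 : ℕ) (B : ℕ → ℕ → Finset ℕ) (N : ℕ → ℕ → ℕ) (s : ℕ → ℕ) : Prop where
  one : ∀ i < M, S1 j0 (B i) (N i) s
  cop : ∀ i < M, ∀ i' < M, i ≠ i' → ∀ t t', (N i t).Coprime (N i' t')

def StTol : Prop := ∀ᶠ j0 : ℕ in atTop, ∀ (t π : ℕ) (Ψ : ℕ → Finset ℕ),
  (∀ t' < t, Out (lev (j0 + t')) (Ψ t')) → Tol (lev (j0 + t)) (insert π ((range t).biUnion Ψ))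

def StDC : Prop := ∀ (α : Type) (Good Q : ℕ → α → Prop) (Rel : α → α → Prop) (x0 : ℕ → α)
  (t2 : ℕ), (∀ t < t2, Good t (x0 t)) →
  (∀ t, t2 ≤ t → ∀ x : ℕ → α, (∀ t' < t, Good t' (x t')) →
    ∃ a, Good t a ∧ Q t a ∧ ∀ t' < t, Rel (x t') a) →
  ∃ x : ℕ → α, (∀ t < t2, x t = x0 t) ∧ (∀ t, Good t (x t)) ∧
    ∀ t, t2 ≤ t → Q t (x t) ∧ ∀ t' < t, Rel (x t') (x t)

def StExt : Prop := ∀ M : ℕ, 2 ≤ M → ∀ᶠ j0 : ℕ in atTop,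
  ∃ (B : ℕ → ℕ → Finset ℕ) (N : ℕ → ℕ → ℕ) (s : ℕ → ℕ), SM M j0 B N s ∧
    ∀ (t2 π : ℕ) (G ρ : ℕ → ℕ), (∀ t, t2 ≤ t → Adm M (j0 + t) (G t) (ρ t)) →
      ∃ (B' : ℕ → ℕ → Finset ℕ) (N' : ℕ → ℕ → ℕ) (s' r : ℕ → ℕ), SM M j0 B' N' s' ∧
        (∀ t < t2, s' t = s t ∧ ∀ i, B' i t = B i t ∧ N' i t = N i t) ∧
        ∀ t, t2 ≤ t → 1 ≤ r t ∧ ∀ i < M, π ∉ (N' i t).primeFactors ∧
          ∀ b ∈ B' i t, b.primeFactors.card = r t ∧ ∀ p ∈ b.primeFactors, p ≡ ρ t [MOD G t]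

def StMul : Prop := ∀ (B B' : Finset ℕ) (N N' s s' : ℕ), Bk B N s → Bk B' N' s' →
  N.Coprime N' → Bk (B * B') (N * N') (s * s') ∧ (B * B').card = B.card * B'.card ∧
    ∀ f : ℕ → ℂ, ∑ a ∈ B * B', f a = ∑ b ∈ B, ∑ b' ∈ B', f (b * b')

def StProd : Prop := ∀ (j0 : ℕ) (B : ℕ → Finset ℕ) (N s : ℕ → ℕ), 2 ≤ j0 → S1 j0 B N s →
  ∀ (u : ℕ) (I : Finset ℕ), (∀ t ∈ I, u ≤ t) →
    Bk (∏ t ∈ I, B t) (∏ t ∈ I, N t) (∏ t ∈ I, s t) ∧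
    ∀ a ∈ ∏ t ∈ I, B t, 1 ≤ a ∧ a ≤ ∏ t ∈ I, s t ∧
      ((∏ t ∈ I, s t : ℕ) : ℝ) ≤ Real.exp (2 / (j0 + u)) * a

def StTail : Prop := ∀ (j0 t2 J W : ℕ) (B : ℕ → Finset ℕ) (N s G ρ r : ℕ → ℕ), S1 j0 B N s →
  (∀ t, t2 ≤ t → 1 ≤ r t ∧ W ∣ G t ∧
    ∀ b ∈ B t, b.primeFactors.card = r t ∧ ∀ p ∈ b.primeFactors, p ≡ ρ t [MOD G t]) →
  (∀ γ ∈ ∏ t ∈ Ico t2 J, B t, γ ≡ ∏ t ∈ Ico t2 J, ρ t ^ r t [MOD W]) ∧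
  (∀ t ∈ Ico t2 J, ∃ n p : ℕ, p ∈ (N t).primeFactors ∧ p ≡ ρ t [MOD G t] ∧
    n * p ∈ ∏ t ∈ Ico t2 J, B t) ∧
  ∀ t, t2 ≤ t → W ∣ ρ t + 1 → W.Coprime (N t) → W ∣ s t

/-! ### decay -/

def StWt : Prop := (∀ m n : ℕ, wt (m * n) ≤ wt m * wt n) ∧
  (∀ n : ℕ, 0 ≤ wt n ∧ wt n ≤ n ∧ V.wt n ≤ wt n) ∧
  ∀ (j0 : ℕ) (B : ℕ → Finset ℕ) (N s : ℕ → ℕ), 2 ≤ j0 → S1 j0 B N s →
    ∀ I : Finset ℕ, ∀ a ∈ ∏ t ∈ I, B t, wt a ≤ 3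

def StSlow : Prop := ∀ j0 n : ℕ, ∃ t0 : ℕ, ∀ s : ℕ → ℕ,
  (∀ i, 2 ^ 2 ^ lev (j0 + i) ≤ s i ∧ s i ≤ 2 ^ (101 * lev (j0 + i) * 2 ^ lev (j0 + i))) →
  ∀ t, t0 ≤ t → s t ^ n ≤ ∏ i ∈ range t, s i

def StBil : Prop := ∀ᶠ Y : ℝ in atTop, ∀ (B B' : Finset ℕ) (N N' Q Q' m S q : ℕ) (u : ℤ) (β : ℝ),
  Bk B N Q → Bk B' N' Q' → (∀ b ∈ B, b ≤ Q) → (∀ b ∈ B', 1 ≤ b ∧ b ≤ Q') → 0 < q →
  IsCoprime u (q : ℤ) → 0 < m → m * Q * Q' ≤ S → S ≤ 3 * (m * Q * Q') → qs S q β = Y →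
  2 * Y ≤ Q' → (Q' : ℝ) ≤ Y ^ (5001 / 5000 : ℝ) → Y ^ (4999 / 5000 : ℝ) ≤ Q →
  (Q : ℝ) ≤ Y ^ (5001 / 5000 : ℝ) →
  ‖∑ b ∈ B, ∑ b' ∈ B', ee ((u / q + β) * m * ((b * b' : ℕ) : ℝ))‖ ≤
    B.card * B'.card * √((Nat.gcd q m : ℕ) : ℝ) * Y ^ (-(469 / 1000) : ℝ)

def StDec : Prop := ∀ j0 D : ℕ, 2 ≤ j0 → 0 < D → ∀ᶠ Y : ℝ in atTop,
  ∀ (B : ℕ → Finset ℕ) (N s : ℕ → ℕ), S1 j0 B N s → ∀ (c J q : ℕ) (u : ℤ) (β : ℝ), 0 < c →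
    c ≤ D → 0 < q → IsCoprime u (q : ℤ) → qs (D * ∏ t ∈ range J, s t) q β = Y →
    Y ^ 2 ≤ ((D * ∏ t ∈ range J, s t : ℕ) : ℝ) →
    ‖ES ((∏ t ∈ range J, B t).image fun a => c * a) (u / q + β)‖ ≤
      Y ^ (-(468 / 1000) : ℝ) *
        ∑ a ∈ (∏ t ∈ range J, B t).image (fun a => c * a), √((Nat.gcd q a : ℕ) : ℝ)

/-- rational approximations to the points of the discrete circle -/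
def Ap (K S : ℕ) (u : ℕ → ℤ) (q : ℕ → ℕ) (β : ℕ → ℝ) : Prop := ∀ v : ℕ,
  0 < q v ∧ IsCoprime (u v) (q v : ℤ) ∧ (v : ℝ) / (K * S : ℕ) = u v / q v + β v ∧
    qs S (q v) (β v) ^ 2 ≤ S

open Classical in
/-- the points of height about `Y` -/
def Vy (K S : ℕ) (q : ℕ → ℕ) (β : ℕ → ℝ) (Y : ℝ) : Finset ℕ :=
  (range (K * S)).filter fun v => Y ≤ qs S (q v) (β v) ∧ qs S (q v) (β v) < 2 * Y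

def StLS : Prop := ∀ (V B : Finset ℕ) (Q : ℕ) (α ω : ℕ → ℝ) (H : ℝ),
  (∀ b ∈ B, 1 ≤ b ∧ b ≤ Q) → (∀ v ∈ V, 0 ≤ ω v) → (∀ x : ℝ, ∑ v ∈ V, ω v * mn Q (α v - x) ≤ H) →
  ∑ v ∈ V, ω v * ‖ES B (α v)‖ ^ 2 ≤ B.card * H

open Classical in
def StCov : Prop := ∀ (V : Finset ℕ) (Q : ℕ) (α : ℕ → ℝ) (μ : ℝ), 1 ≤ Q →
  (∀ x : ℝ, ((V.filter fun v => nz (α v - x) ≤ 1 / Q).card : ℝ) ≤ μ) →
  ∀ x : ℝ, ∑ v ∈ V, mn Q (α v - x) ≤ 4 * μ * Q * (1 + Real.log Q)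

def StPrim : Prop := ∀ (x η : ℝ) (Z : ℕ) (A : Finset (ℤ × ℕ)), 0 ≤ η →
  (∀ a ∈ A, 1 ≤ a.2 ∧ a.2 ≤ Z ∧ IsCoprime a.1 (a.2 : ℤ) ∧ |(a.1 : ℝ) - x * a.2| ≤ η) →
  (A.card : ℝ) ≤ 4 * η * Z + 1

open Classical in
def StCnt : Prop := ∀ (K S m Q L d : ℕ) (u : ℕ → ℤ) (q : ℕ → ℕ) (β : ℕ → ℝ) (Y x : ℝ),
  Ap K S u q β → 1 ≤ K → 0 < m → m * Q ≤ S → S ≤ L * (m * Q) → 2 ≤ Y → 8 * Y ≤ Q → Y ^ 2 ≤ S →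
  (((Vy K S q β Y).filter fun v => Nat.gcd (q v) m = d ∧
    nz ((v : ℝ) / (K * S : ℕ) * m - x) ≤ 1 / Q).card : ℝ) ≤ 500 * L * K * d * (1 + Y ^ 2 / Q)

def StHv : Prop := ∀ (K S m Q L : ℕ) (u : ℕ → ℤ) (q : ℕ → ℕ) (β : ℕ → ℝ) (Y : ℝ) (B : Finset ℕ),
  Ap K S u q β → 1 ≤ K → 0 < m → m * Q ≤ S → S ≤ L * (m * Q) → 2 ≤ Y → 8 * Y ≤ Q → Y ^ 2 ≤ S →
  (∀ b ∈ B, 1 ≤ b ∧ b ≤ Q) →
  ∑ v ∈ Vy K S q β Y, ((Nat.gcd (q v) m : ℕ) : ℝ)⁻¹ * ‖ES B ((v : ℝ) / (K * S : ℕ) * m)‖ ^ 2 ≤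
    B.card * (2000 * L * K * (Q + Y ^ 2) * (1 + Real.log Q) * ((2 * Y) ^ (1 / 50 : ℝ) * wt m))

def StSel1 : Prop := ∀ (t0 : ℕ) (U L : ℝ), ∀ᶠ Y : ℝ in atTop, ∀ s : ℕ → ℕ, (∀ i, 2 ≤ s i) →
  (∀ t, t0 ≤ t → s t ^ 20000 ≤ ∏ i ∈ range t, s i) →
  ((∏ i ∈ range (t0 + 1), s i : ℕ) : ℝ) ≤ U →
  ∀ J : ℕ, Y ^ 2 ≤ L * ((∏ i ∈ range J, s i : ℕ) : ℝ) → ∃ t ≤ J,
    Y ^ (199 / 100 : ℝ) ≤ ((∏ i ∈ range t, s i : ℕ) : ℝ) ∧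
      ((∏ i ∈ range t, s i : ℕ) : ℝ) ≤ Y ^ 2

def StL2 : Prop := ∀ j0 D : ℕ, 2 ≤ j0 → 0 < D → ∀ᶠ Y : ℝ in atTop,
  ∀ (B : ℕ → Finset ℕ) (N s : ℕ → ℕ), S1 j0 B N s → ∀ (c J K : ℕ) (u : ℕ → ℤ) (q : ℕ → ℕ)
    (β : ℕ → ℝ), 0 < c → c ≤ D → 1 ≤ K → Ap K (D * ∏ t ∈ range J, s t) u q β →
    Y ^ 2 ≤ ((D * ∏ t ∈ range J, s t : ℕ) : ℝ) → ∃ M' B' : Finset ℕ,
      (∀ α : ℝ, ES ((∏ t ∈ range J, B t).image fun a => c * a) α = ∑ m ∈ M', ES B' (α * m)) ∧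
      ((∏ t ∈ range J, B t).image fun a => c * a).card = M'.card * B'.card ∧
      ∀ m ∈ M', m ∣ c * ∏ t ∈ range J, N t ∧
        ∑ v ∈ Vy K (D * ∏ t ∈ range J, s t) q β Y, ((Nat.gcd (q v) m : ℕ) : ℝ)⁻¹ *
          ‖ES B' ((v : ℝ) / (K * (D * ∏ t ∈ range J, s t) : ℕ) * m)‖ ^ 2 ≤
            K * (B'.card : ℝ) ^ 2 * Y ^ (1 / 5 : ℝ)

def StM4 : Prop := ∀ (V A0 A1 M2 M3 : Finset ℕ) (q n : ℕ → ℕ) (S0 S1 S2 S3 : ℕ → ℝ)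
  (T2 T3 : ℕ → ℕ → ℝ) (δ Y H2 H3 : ℝ), 0 ≤ δ → 0 ≤ H2 → 0 ≤ H3 →
  (∀ i < 4, ∀ i' < 4, i ≠ i' → (n i).Coprime (n i')) →
  (∀ a ∈ A0, a ∣ n 0) → (∀ a ∈ A1, a ∣ n 1) → (∀ a ∈ M2, a ∣ n 2) → (∀ a ∈ M3, a ∣ n 3) →
  (∀ v ∈ V, 0 < q v ∧ (q v : ℝ) ≤ Y ∧ 0 ≤ S0 v ∧ 0 ≤ S1 v ∧ 0 ≤ S2 v ∧ 0 ≤ S3 v ∧
    S0 v ≤ δ * ∑ a ∈ A0, √((Nat.gcd (q v) a : ℕ) : ℝ) ∧
    S1 v ≤ δ * ∑ a ∈ A1, √((Nat.gcd (q v) a : ℕ) : ℝ) ∧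
    S2 v ≤ ∑ m ∈ M2, T2 m v ∧ S3 v ≤ ∑ m ∈ M3, T3 m v) →
  (∀ m v, 0 ≤ T2 m v ∧ 0 ≤ T3 m v) →
  (∀ m ∈ M2, ∑ v ∈ V, ((Nat.gcd (q v) m : ℕ) : ℝ)⁻¹ * T2 m v ^ 2 ≤ H2 ^ 2) →
  (∀ m ∈ M3, ∑ v ∈ V, ((Nat.gcd (q v) m : ℕ) : ℝ)⁻¹ * T3 m v ^ 2 ≤ H3 ^ 2) →
  ∑ v ∈ V, S0 v * S1 v * S2 v * S3 v ≤
    δ ^ 2 * √Y * A0.card * A1.card * (M2.card * H2) * (M3.card * H3)

/-- the mass of the points of height about `Y` decays -/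
def MS {k : ℕ} (A : Fin k → Finset ℕ) (S : ℕ) (Y0 : ℝ) : Prop :=
  ∀ (K : ℕ) (u : ℕ → ℤ) (q : ℕ → ℕ) (β : ℕ → ℝ), 1 ≤ K → Ap K S u q β → ∀ Y : ℝ, Y0 ≤ Y →
    ∑ v ∈ Vy K S q β Y, ∏ i, ‖ES (A i) ((v : ℝ) / (K * S : ℕ))‖ ≤
      K * (∏ i, ((A i).card : ℝ)) * Y ^ (-(1 / 5) : ℝ)

def StMS : Prop := ∀ j0 D k M : ℕ, 2 ≤ j0 → 0 < D → 4 ≤ k → k ≤ M → ∃ Y0 : ℝ,
  ∀ (B : ℕ → ℕ → Finset ℕ) (N : ℕ → ℕ → ℕ) (s : ℕ → ℕ), SM M j0 B N s → ∀ c : ℕ → ℕ,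
    (∀ i < M, 0 < c i ∧ c i ≤ D) → (∀ i < k, ∀ i' < k, i ≠ i' → ∀ J : ℕ,
      (c i * ∏ t ∈ range J, N i t).Coprime (c i' * ∏ t ∈ range J, N i' t)) → ∀ J : ℕ,
      MS (fun i : Fin k => (∏ t ∈ range J, B i t).image fun a => c i * a)
        (D * ∏ t ∈ range J, s t) Y0

def StDiff : Prop := ∀ (Y0 : ℝ) (k : ℕ), ∃ (W : ℕ) (ε : ℝ), 0 < W ∧ 0 < ε ∧ ε ≤ 1 ∧
  ∀ (A : Fin k → Finset ℕ) (S : ℕ), 1 ≤ S → (∀ i, ∀ a ∈ A i, a ≤ S) → MS A S Y0 →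
    ∀ T T' : ℕ, T ≤ k * S → T' ≡ T [MOD W] → |(T' : ℝ) - T| ≤ ε * S →
      |(rm A T' : ℝ) - rm A T| ≤ (∏ i, ((A i).card : ℝ)) / (2 * (k + 2) * S)

/-! ### the last member -/

def StK1 : Prop := ∀ a : ℕ → ℝ, (∀ n, 0 ≤ a n) → (∀ n, ∃ n', a n ≤ ∑ i ∈ Ioc n n', a i) →
  Tendsto a atTop (nhds 0) → ∀ (x η : ℝ) (n0 : ℕ), 0 ≤ x → x ≤ ∑ i ∈ range n0, a i → 0 < η →
    ∃ I : Finset ℕ, x - η ≤ ∑ i ∈ I, a i ∧ ∑ i ∈ I, a i ≤ x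

open Classical in
def StK2 : Prop := ∀ᶠ i : ℕ in atTop, 8 ≤ ((Ioc (2 ^ i) (2 * 2 ^ i)).filter Rsv).card

def StKak : Prop := ∀ D : ℕ, ∀ᶠ Z0 : ℕ in atTop, ∀ τ η : ℝ, 1 / 2 ≤ τ → τ ≤ 1 → 0 < η →
  ∃ d : ℕ, 0 < d ∧ (∀ p ∈ d.primeFactors, D < p ∧ (p ≤ Z0 ∨ Rsv p)) ∧
    |(d : ℝ) / (sg d : ℝ) - τ| ≤ η

def StKey : Prop := ∀ (H S W z g T' d sd π π1 n q w : ℕ) (η : ℝ), 0 < η → η ≤ 1 → 0 < H → 0 < d →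
  d ≤ sd → π + 1 = H * d * W * π1 → q + 1 = sd * W * π1 * w → W ∣ w + z → n * q ≡ g [MOD W] →
  n * q ≤ S → (S : ℝ) ≤ (1 + η) * (n * q : ℕ) → 1 ≤ η * q → 1 ≤ η * π → W ∣ H * S →
  3 * η * H ≤ z → |(d : ℝ) / sd - (1 - z / H)| ≤ η → T' ≡ g * z [MOD W] →
  |(T' : ℝ) - z * S| ≤ 2 * η * H * S →
  ∃ T : ℕ, T + π * n * w = H * S ∧ T ≡ T' [MOD W] ∧ |(T : ℝ) - T'| ≤ 5 * η * H * S

def StEnd : Prop := ∀ (M S : ℕ) (v x : ℕ → ℕ), 0 < S →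
  (∀ i < M, 1 < v i ∧ x i * sg (v i) = S * v i) →
  (∀ i < M, ∀ i' < M, i ≠ i' → (v i).Coprime (v i')) → ∑ i ∈ range M, x i = S →
  ∃ Z : Finset ℕ, Z.card = M ∧ (∀ n ∈ Z, 0 < n) ∧ (Z : Set ℕ).Pairwise Nat.Coprime ∧
    ∑ n ∈ Z, (n : ℚ) / (sg n : ℚ) = 1 ∧ ∀ i < M, v i ∈ Z

/-! ### small facts -/

theorem le_of_rt {z q p : ℕ} (h : Relation.ReflTransGen (Ch z) q p) : p ≤ q := by
  induction h with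
  | refl => exact le_rfl
  | tail _ h ih => exact h.2.2.1.le.trans ih

theorem mem_nd {z q p : ℕ} : p ∈ nd z q ↔ Relation.ReflTransGen (Ch z) q p := by
  classical
  simp only [nd, mem_filter, mem_range]
  exact ⟨fun h => h.2, fun h => ⟨Nat.lt_succ_of_le (le_of_rt h), h⟩⟩

theorem self_mem_nd (z q : ℕ) : q ∈ nd z q := mem_nd.2 Relation.ReflTransGen.refl

theorem le_of_mem_nd {z q p : ℕ} (h : p ∈ nd z q) : p ≤ q := le_of_rt (mem_nd.1 h)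

theorem nd_trans {z q p l : ℕ} (h : p ∈ nd z q) (h' : l ∈ nd z p) : l ∈ nd z q :=
  mem_nd.2 ((mem_nd.1 h).trans (mem_nd.1 h'))

theorem Ch.mem_nd {z q p : ℕ} (h : Ch z q p) : p ∈ nd z q :=
  Z.mem_nd.2 (Relation.ReflTransGen.single h)

/-- a node is the root or a descendant of a child -/
theorem nd_head {z q p : ℕ} (h : p ∈ nd z q) : p = q ∨ ∃ c, Ch z q c ∧ p ∈ nd z c := by
  rcases (mem_nd.1 h).cases_head with h | ⟨c, h1, h2⟩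
  exacts [Or.inl h.symm, Or.inr ⟨c, h1, mem_nd.2 h2⟩]

/-- a node is the root or a child of a node -/
theorem nd_tail {z q p : ℕ} (h : p ∈ nd z q) : p = q ∨ ∃ c ∈ nd z q, Ch z c p := by
  rcases (mem_nd.1 h).cases_tail with h | ⟨c, h1, h2⟩
  exacts [Or.inl h, Or.inr ⟨c, mem_nd.2 h1, h2⟩]

theorem prime_nd {z q p : ℕ} (hq : q.Prime) (h : p ∈ nd z q) : p.Prime := by
  rcases nd_tail h with rfl | ⟨c, -, h⟩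
  exacts [hq, h.1]

theorem Nice.prime {K g m q : ℕ} (h : Nice K g m q) : q.Prime := (mem_filter.1 h.mem).2

theorem Nice.lo {K g m q : ℕ} (h : Nice K g m q) : 2 ^ (100 * m) < q :=
  (mem_Ioc.1 (mem_filter.1 h.mem).1).1

theorem Nice.hi {K g m q : ℕ} (h : Nice K g m q) : q ≤ 2 * 2 ^ (100 * m) :=
  (mem_Ioc.1 (mem_filter.1 h.mem).1).2

theorem Bk.dvd {B : Finset ℕ} {N s : ℕ} (h : Bk B N s) (b : ℕ) (hb : b ∈ B) : b ∣ N := by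
  obtain ⟨n, h1, h2, -⟩ := h.sup b hb
  exact h1.trans h2

theorem Bk.pos {B : Finset ℕ} {N s : ℕ} (h : Bk B N s) {b : ℕ} (hb : b ∈ B) : 0 < b :=
  Nat.pos_of_dvd_of_pos (h.dvd b hb) (Nat.pos_of_ne_zero h.sqf.ne_zero)

theorem le_sg (n : ℕ) : n ≤ sg n := by
  rcases Nat.eq_zero_or_pos n with rfl | hn
  · exact Nat.zero_le _
  · rw [sg, ArithmeticFunction.sigma_one_apply]
    exact single_le_sum (f := fun d => d) (fun _ _ => Nat.zero_le _)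
      (Nat.mem_divisors_self n hn.ne')

theorem Bk.le {B : Finset ℕ} {N s : ℕ} (h : Bk B N s) {b : ℕ} (hb : b ∈ B) : b ≤ s := by
  obtain ⟨n, -, h2, h3⟩ := h.sup b hb
  have hn : 0 < n := Nat.pos_of_dvd_of_pos h2 (Nat.pos_of_ne_zero h.sqf.ne_zero)
  refine Nat.le_of_mul_le_mul_right (c := n) ?_ hn
  rw [← h3, mul_comm]
  exact Nat.mul_le_mul_right _ (le_sg n)

theorem Bk.s_pos {B : Finset ℕ} {N s : ℕ} (h : Bk B N s) : 0 < s := by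
  obtain ⟨b, hb⟩ := h.ne
  exact (h.pos hb).trans_le (h.le hb)

theorem S1.two_le {j0 : ℕ} {B : ℕ → Finset ℕ} {N s : ℕ → ℕ} (h : S1 j0 B N s) (t : ℕ) :
    2 ≤ s t :=
  le_trans (Nat.le_self_pow (pow_ne_zero _ two_ne_zero) 2) (h.one t).lo

theorem lev_mono {j j' : ℕ} (h : j ≤ j') : lev j ≤ lev j' := Nat.sqrt_le_sqrt (Nat.sqrt_le_sqrt h)

theorem le_lev {m j : ℕ} : m ≤ lev j ↔ m ^ 4 ≤ j := by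
  rw [lev, Nat.le_sqrt', Nat.le_sqrt', ← pow_mul]

theorem lt_lev (j : ℕ) : j < (lev j + 1) ^ 4 := by
  by_contra h
  have := le_lev.2 (not_lt.1 h)
  omega

theorem tendsto_lev : Tendsto lev atTop atTop :=
  tendsto_atTop_atTop.2 fun m => ⟨m ^ 4, fun _ h => le_lev.2 h⟩

theorem wt_one : wt 1 = 1 := by simp [wt]

end Pool.Agent.MP_2876a2_nt.Tu.Z
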