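import Pool.Agent.MP_2876a2_nt.Tu.St4

/-!
Pairwise coprime tuples from spread colour classes: definitions and statements.
-/

set_option autoImplicit false

open Finset Filter
open scoped Pointwise

noncomputable section

namespace Pool.Agent.MP_2876a2_nt.Tu.Z

/-- the mean of `f` over a random subset of `Ω` with densities `p` -/
def Ev (p : ℕ → ℝ) (Ω : Finset ℕ) (f : Finset ℕ → ℝ) : ℝ :=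
  ∑ W ∈ Ω.powerset, (∏ x ∈ W, p x) * (∏ x ∈ Ω \ W, (1 - p x)) * f W

def StEv : Prop := (∀ (p p' : ℕ → ℝ) (Ω : Finset ℕ) (f : Finset ℕ → ℝ),
    Ev (fun x => 1 - (1 - p x) * (1 - p' x)) Ω f =
      Ev p Ω fun W => Ev p' Ω fun W' => f (W ∪ W')) ∧
  (∀ (p : ℕ → ℝ) (c : ℝ) (Ω : Finset ℕ), Ev p Ω (fun _ => c) = c) ∧
  (∀ (p : ℕ → ℝ) (Ω Ω' : Finset ℕ) (f : Finset ℕ → ℝ), Disjoint Ω Ω' →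
    Ev p (Ω ∪ Ω') f = Ev p Ω fun W => Ev p Ω' fun W' => f (W ∪ W')) ∧
  ∀ (p : ℕ → ℝ) (Ω J : Finset ℕ), (∀ x, 0 ≤ p x ∧ p x ≤ 1) →
    Ev p Ω (fun W => if J ⊆ W then 1 else 0) ≤ ∏ x ∈ J, p x

def StRd5 : Prop := ∀ (ι : Type) (I : Finset ι) (T : ι → Finset ℕ) (Ω : Finset ℕ) (h : ℕ)
  (p κ : ℕ → ℝ) (θ A : ℝ), (∀ x, 0 < p x ∧ p x ≤ 1 ∧ θ ≤ p x * κ x) → 4 ≤ θ → 1 ≤ h →
  (∀ i ∈ I, T i ⊆ Ω ∧ (T i).card < 2 * h) →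
  (∀ J : Finset ℕ, ((I.filter fun i => J ⊆ T i).card : ℝ) * ∏ x ∈ J, κ x ≤ A) →
  ∃ T' : Finset ℕ → ι → Finset ℕ,
    (∀ W, ∀ i ∈ I, T' W i ⊆ T i ∧ ∃ i' ∈ I, T i' ⊆ W ∪ T' W i) ∧
    Ev p Ω (fun W => ((I.filter fun i => h ≤ (T' W i).card).card : ℝ)) ≤ 4 * A / θ

open Classical in
def StEx5 : Prop := ∀ (ι : Type) (Ω : Finset ℕ) (p κ : ℕ → ℝ) (θ A : ℝ),
  (∀ x, 0 < p x ∧ p x ≤ 1 ∧ θ ≤ p x * κ x) → 4 ≤ θ →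
  ∀ (l : ℕ) (I : Finset ι) (T : ι → Finset ℕ), (∀ i ∈ I, T i ⊆ Ω ∧ (T i).card < 2 ^ l) →
  (∀ J : Finset ℕ, ((I.filter fun i => J ⊆ T i).card : ℝ) * ∏ x ∈ J, κ x ≤ A) →
  Ev (fun x => 1 - (1 - p x) ^ l) Ω (fun W => if ∃ i ∈ I, T i ⊆ W then 0 else (I.card : ℝ)) ≤
    l * (4 * A / θ)

/-- a spread subfamily or a small cover -/
def StGd : Prop := ∀ (ι : Type) (T : ι → Finset ℕ) (R : ℕ) (G : Finset ι), 1 ≤ R →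
  (∃ I' ⊆ G, I'.Nonempty ∧
    ∀ J : Finset ℕ, (I'.filter fun i => J ⊆ T i).card * R ^ J.card ≤ I'.card) ∨
  ∃ C : Finset (Finset ℕ), (∀ J ∈ C, J.Nonempty) ∧ (∀ i ∈ G, ∃ J ∈ C, J ⊆ T i) ∧
    ∑ J ∈ C, 1 / (R : ℝ) ^ J.card ≤ 1 + Real.log G.card

open Classical in
def StSpA : Prop := ∀ (ι : Type) (I : Finset ι) (T1 T2 : ι → Finset ℕ) (Ω1 Ω2 : Finset ℕ)
  (M l R : ℕ), 2 ≤ M → I.Nonempty → Disjoint Ω1 Ω2 →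
  (∀ i ∈ I, T1 i ⊆ Ω1 ∧ T2 i ⊆ Ω2 ∧ (T1 i).card + (T2 i).card < 2 ^ l) →
  (∀ J1 J2 : Finset ℕ, (I.filter fun i => J1 ⊆ T1 i ∧ J2 ⊆ T2 i).card *
    (16 * M ^ 2 * (l + 1) ^ 2) ^ J1.card * R ^ J2.card ≤ I.card) → 16 * M * (l + 1) ≤ R →
  ∃ (χ : ℕ → ℕ) (p : ℝ), 0 ≤ p ∧ p ≤ 1 ∧ p * R ≤ 16 * M * (l + 1) ^ 2 ∧ ∀ c < M,
    Ev (fun _ => p) Ω2
      (fun V => if ∃ i ∈ I, (∀ x ∈ T1 i, χ x = c) ∧ T2 i ⊆ V then 0 else 1) ≤ 1 / 4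

def StSp5 : Prop := ∀ (ι : Type) (I : Finset ι) (T1 T2 : ι → Finset ℕ) (M l R R2 : ℕ), 2 ≤ M →
  I.Nonempty → (∀ i ∈ I, (T1 i).card + (T2 i).card < 2 ^ l) →
  (∀ J1 J2 : Finset ℕ, (I.filter fun i => J1 ⊆ T1 i ∧ J2 ⊆ T2 i).card *
    (16 * M ^ 2 * (l + 1) ^ 2) ^ J1.card * R ^ J2.card ≤ I.card) → 1 ≤ R2 →
  32 * M * (l + 1) ^ 2 * R2 * (1 + Real.log I.card) ≤ R →
  ∃ χ : ℕ → ℕ, ∀ c < M, ∃ I' ⊆ I, I'.Nonempty ∧ (∀ i ∈ I', ∀ x ∈ T1 i, χ x = c) ∧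
    ∀ J : Finset ℕ, (I'.filter fun i => J ⊆ T2 i).card * R2 ^ J.card ≤ I'.card

def StNs5 : Prop := ∀ (P Kc : Finset ℕ) (nb : ℕ → Finset ℕ) (F : Finset (Finset ℕ))
  (K1 A R R1 κ : ℕ), (∀ q ∈ P, (nb q).card ≤ K1) →
  (∀ p, (P.filter fun q => p ∈ nb q).card ≤ A) → (∀ b ∈ F, b ⊆ P) →
  (∀ J : Finset ℕ, Disjoint J Kc →
    (F.filter fun b => Kc ∪ J ⊆ b).card * R ^ J.card ≤ (F.filter fun b => Kc ⊆ b).card) →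
  (2 * κ) ^ K1 * A ≤ R → κ ^ K1 * R1 ≤ R → 1 ≤ κ → ∀ J1 J2 : Finset ℕ,
    ((F.filter fun b => Kc ⊆ b).filter fun b =>
      J1 ⊆ (b \ Kc).biUnion nb ∧ J2 ⊆ b \ Kc).card * κ ^ J1.card * R1 ^ J2.card ≤
      (F.filter fun b => Kc ⊆ b).card

def StBlkA5 : Prop := ∀ (M K1 m h : ℕ) (P : Finset ℕ) (nb : ℕ → Finset ℕ)
  (F : Finset (Finset ℕ)), 2 ≤ M → 1 ≤ K1 → 2 ≤ h → 16 * h ≤ m → P.card ≤ 2 ^ (100 * m) →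
  (∀ q ∈ P, (nb q).card ≤ K1) → (∀ p, (P.filter fun q => p ∈ nb q).card ≤ 2 ^ (99 * m - 7 * h)) →
  F ⊆ P.powersetCard (2 ^ m) → 2 ^ ((99 * m - 3 * h) * 2 ^ m) ≤ F.card →
  (32 * M ^ 2 * (m + (K1 + 1) + 1) ^ 2) ^ (K1 + 1) ≤ 2 ^ (3 * h) →
  4 * M * (M * (m + (K1 + 1) + 1)) ^ (K1 + 1) ≤ 2 ^ h →
  ∃ (Kc : Finset ℕ) (χ : ℕ → ℕ) (r : ℕ) (F' : ℕ → Finset (Finset ℕ)), r + Kc.card = 2 ^ m ∧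
    2 ^ m ≤ m * r ∧ ∀ i < M, F' i ⊆ F ∧ (F' i).Nonempty ∧
      (∀ b ∈ F' i, Kc ⊆ b ∧ ∀ p ∈ (b \ Kc).biUnion nb, χ p = i) ∧
      ∀ J : Finset ℕ, ((F' i).filter fun b => J ⊆ b \ Kc).card *
        (2 ^ (98 * m - 9 * h)) ^ J.card ≤ (F' i).card

def StAsm5 : Prop := ∀ (z s0 M : ℕ) (P Kc : Finset ℕ) (F : ℕ → Finset (Finset ℕ)) (χ : ℕ → ℕ),
  (∀ q ∈ P, q.Prime) → (∀ i < M, ∀ b ∈ F i, Kc ⊆ b ∧ b ⊆ P ∧ PD (nd z) b ∧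
    ∏ q ∈ b, Dq z q = s0 ∧ ∀ p ∈ (b \ Kc).biUnion (nd z), χ p = i) →
  ∃ (N : ℕ → ℕ) (s : ℕ), (∀ i i', i ≠ i' → (N i).Coprime (N i')) ∧ ∀ i < M,
    Squarefree (N i) ∧ (N i).primeFactors ⊆ P.biUnion (nd z) ∧
    ((F i).image fun b => ∏ q ∈ b \ Kc, q).card = (F i).card ∧
    ∀ b ∈ F i, ∏ q ∈ b \ Kc, Dq z q = s ∧
      ∃ n, ∏ q ∈ b \ Kc, q ∣ n ∧ n ∣ N i ∧ sg n * ∏ q ∈ b \ Kc, q = s * n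

/-- few members of `B` are multiples of `d` -/
def Spr (B : Finset ℕ) : Prop :=
  ∀ d : ℕ, (B.filter fun b => d ∣ b).card ^ 20 * d ^ 19 ≤ B.card ^ 20

def StSpr1 : Prop := ∀ (F : Finset (Finset ℕ)) (Kc : Finset ℕ) (R X : ℕ),
  (∀ b ∈ F, ∀ q ∈ b \ Kc, q.Prime ∧ q ≤ X) →
  (F.image fun b => ∏ q ∈ b \ Kc, q).card = F.card →
  (∀ J : Finset ℕ, (F.filter fun b => J ⊆ b \ Kc).card * R ^ J.card ≤ F.card) →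
  X ^ 19 ≤ R ^ 20 → Spr (F.image fun b => ∏ q ∈ b \ Kc, q)

def StBlk5 : Prop := ∀ M K g : ℕ, 2 ≤ M → 16 ≤ g → ∀ᶠ j : ℕ in atTop, ∀ P : Finset ℕ,
  (∀ q ∈ P, Nice K g (lev j) q) → 2 ^ (100 * lev j) ≤ P.card * 2 ^ (lev j / g) →
  (∀ q ∈ P, ∀ p ∈ nd (2 ^ lev j) q, ¬ Rsv p) →
  ∃ (B : ℕ → Finset ℕ) (N : ℕ → ℕ) (s r : ℕ), 1 ≤ r ∧ (∀ i i', i ≠ i' → (N i).Coprime (N i')) ∧
    ∀ i < M, (B1 j (B i) (N i) s ∧ Spr (B i)) ∧ (N i).primeFactors ⊆ P.biUnion (nd (2 ^ lev j)) ∧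
      ∀ b ∈ B i, b.primeFactors.card = r ∧ b.primeFactors ⊆ P

/-- spread blocks exist at the scale `j` in the class `ρ` modulo `G` and avoid every thin set -/
def Adm5 (M j G ρ : ℕ) : Prop := ∀ Φ : Finset ℕ, Tol (lev j) Φ →
  ∃ (B : ℕ → Finset ℕ) (N : ℕ → ℕ) (s r : ℕ) (Ψ : Finset ℕ), Out (lev j) Ψ ∧ Disjoint Ψ Φ ∧
    1 ≤ r ∧ (∀ i i', i ≠ i' → (N i).Coprime (N i')) ∧
    ∀ i < M, (B1 j (B i) (N i) s ∧ Spr (B i)) ∧ (N i).primeFactors ⊆ Ψ ∧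
      ∀ b ∈ B i, b.primeFactors.card = r ∧ ∀ p ∈ b.primeFactors, p ≡ ρ [MOD G]

def StAdm5 : Prop := ∀ M G ρ : ℕ, 2 ≤ M → 0 < G → ρ.Coprime G → ∀ᶠ j : ℕ in atTop, Adm5 M j G ρ

def StExt5 : Prop := ∀ M : ℕ, 2 ≤ M → ∀ᶠ j0 : ℕ in atTop,
  ∃ (B : ℕ → ℕ → Finset ℕ) (N : ℕ → ℕ → ℕ) (s : ℕ → ℕ), SM M j0 B N s ∧
    ∀ (t2 π : ℕ) (G ρ : ℕ → ℕ), (∀ t, t2 ≤ t → Adm5 M (j0 + t) (G t) (ρ t)) →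
      ∃ (B' : ℕ → ℕ → Finset ℕ) (N' : ℕ → ℕ → ℕ) (s' r : ℕ → ℕ), SM M j0 B' N' s' ∧
        (∀ i < M, ∀ t, Spr (B' i t)) ∧
        (∀ t < t2, s' t = s t ∧ ∀ i, B' i t = B i t ∧ N' i t = N i t) ∧
        ∀ t, t2 ≤ t → 1 ≤ r t ∧ ∀ i < M, π ∉ (N' i t).primeFactors ∧
          ∀ b ∈ B' i t, b.primeFactors.card = r t ∧ ∀ p ∈ b.primeFactors, p ≡ ρ t [MOD G t]

def StSprP : Prop := ∀ (j0 : ℕ) (B : ℕ → Finset ℕ) (N s : ℕ → ℕ), 2 ≤ j0 → S1 j0 B N s →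
  (∀ t, Spr (B t)) → ∀ I : Finset ℕ, Spr (∏ t ∈ I, B t)

def StEg : Prop := ∀ (j0 : ℕ) (B : ℕ → Finset ℕ) (N s : ℕ → ℕ), 50 ^ 4 ≤ j0 → S1 j0 B N s →
  (∀ t, Spr (B t)) → ∀ (I : Finset ℕ) (c D q : ℕ), 0 < c → c ≤ D → 0 < q →
    ∑ a ∈ (∏ t ∈ I, B t).image (fun a => c * a), ((Nat.gcd q a : ℕ) : ℝ) ≤
      D * (q : ℝ) ^ (7 / 100 : ℝ) * ((∏ t ∈ I, B t).image fun a => c * a).card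

def StL25 : Prop := ∀ j0 D : ℕ, 2 ≤ j0 → 0 < D → ∀ᶠ Y : ℝ in atTop,
  ∀ (B : ℕ → Finset ℕ) (N s : ℕ → ℕ), S1 j0 B N s → ∀ (c J K : ℕ) (u : ℕ → ℤ) (q : ℕ → ℕ)
    (β : ℕ → ℝ), 0 < c → c ≤ D → 1 ≤ K → Ap K (D * ∏ t ∈ range J, s t) u q β →
    Y ^ 2 ≤ ((D * ∏ t ∈ range J, s t : ℕ) : ℝ) → ∃ (I : Finset ℕ) (B' : Finset ℕ),
      (∀ α : ℝ, ES ((∏ t ∈ range J, B t).image fun a => c * a) α =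
        ∑ m ∈ (∏ t ∈ I, B t).image (fun a => c * a), ES B' (α * m)) ∧
      ((∏ t ∈ range J, B t).image fun a => c * a).card =
        ((∏ t ∈ I, B t).image fun a => c * a).card * B'.card ∧
      ∀ m ∈ (∏ t ∈ I, B t).image (fun a => c * a),
        ∑ v ∈ Vy K (D * ∏ t ∈ range J, s t) q β Y, ((Nat.gcd (q v) m : ℕ) : ℝ)⁻¹ *
          ‖ES B' ((v : ℝ) / (K * (D * ∏ t ∈ range J, s t) : ℕ) * m)‖ ^ 2 ≤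
            K * (B'.card : ℝ) ^ 2 * Y ^ (1 / 10 : ℝ)

def StM3 : Prop := ∀ (V A0 M1 M2 : Finset ℕ) (q : ℕ → ℕ) (S0 S1 S2 : ℕ → ℝ)
  (T1 T2 : ℕ → ℕ → ℝ) (δ Γ H1 H2 : ℝ), 0 ≤ δ → 0 ≤ Γ → 0 ≤ H1 → 0 ≤ H2 →
  (∀ v ∈ V, 0 < q v ∧ 0 ≤ S0 v ∧ 0 ≤ S1 v ∧ 0 ≤ S2 v ∧
    S0 v ≤ δ * ∑ a ∈ A0, √((Nat.gcd (q v) a : ℕ) : ℝ) ∧
    S1 v ≤ ∑ m ∈ M1, T1 m v ∧ S2 v ≤ ∑ m ∈ M2, T2 m v ∧
    ∑ a ∈ A0, ((Nat.gcd (q v) a : ℕ) : ℝ) ≤ Γ * A0.card ∧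
    ∑ a ∈ M1, ((Nat.gcd (q v) a : ℕ) : ℝ) ≤ Γ * M1.card ∧
    ∑ a ∈ M2, ((Nat.gcd (q v) a : ℕ) : ℝ) ≤ Γ * M2.card) →
  (∀ m ∈ M1, ∑ v ∈ V, ((Nat.gcd (q v) m : ℕ) : ℝ)⁻¹ * T1 m v ^ 2 ≤ H1 ^ 2) →
  (∀ m ∈ M2, ∑ v ∈ V, ((Nat.gcd (q v) m : ℕ) : ℝ)⁻¹ * T2 m v ^ 2 ≤ H2 ^ 2) →
  ∑ v ∈ V, S0 v * S1 v * S2 v ≤ δ * √Γ * Γ * A0.card * (M1.card * H1) * (M2.card * H2)

def StMS5 : Prop := ∀ j0 D k M : ℕ, 50 ^ 4 ≤ j0 → 0 < D → 3 ≤ k → k ≤ M → ∃ Y0 : ℝ,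
  ∀ (B : ℕ → ℕ → Finset ℕ) (N : ℕ → ℕ → ℕ) (s : ℕ → ℕ), SM M j0 B N s →
    (∀ i < M, ∀ t, Spr (B i t)) → ∀ c : ℕ → ℕ, (∀ i < M, 0 < c i ∧ c i ≤ D) → ∀ J : ℕ,
      MS (fun i : Fin k => (∏ t ∈ range J, B i t).image fun a => c i * a)
        (D * ∏ t ∈ range J, s t) Y0

def StDiff5 : Prop := ∀ (Y0 : ℝ) (k : ℕ), ∃ (W : ℕ) (ε : ℝ), 0 < W ∧ 0 < ε ∧ ε ≤ 1 ∧
  ∀ (A : Fin k → Finset ℕ) (S : ℕ), 1 ≤ S → (∀ i, ∀ a ∈ A i, a ≤ S) → MS A S Y0 →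
    ∀ T T' : ℕ, T ≤ k * S → T' ≡ T [MOD W] → |(T' : ℝ) - T| ≤ ε * S →
      |(rm A T' : ℝ) - rm A T| ≤ (∏ i, ((A i).card : ℝ)) / (4 * (k + 2) * S)

/-! ### small facts -/

theorem Ev_mono {p : ℕ → ℝ} (hp : ∀ x, 0 ≤ p x ∧ p x ≤ 1) {Ω : Finset ℕ} {f g : Finset ℕ → ℝ}
    (h : ∀ W ⊆ Ω, f W ≤ g W) : Ev p Ω f ≤ Ev p Ω g :=
  sum_le_sum fun W hW => mul_le_mul_of_nonneg_left (h W (mem_powerset.1 hW))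
    (mul_nonneg (prod_nonneg fun x _ => (hp x).1) (prod_nonneg fun x _ => sub_nonneg.2 (hp x).2))

theorem Ev_add (p : ℕ → ℝ) (Ω : Finset ℕ) (f g : Finset ℕ → ℝ) :
    Ev p Ω (fun W => f W + g W) = Ev p Ω f + Ev p Ω g := by
  simp only [Ev, mul_add, sum_add_distrib]

theorem Ev_mul (p : ℕ → ℝ) (Ω : Finset ℕ) (c : ℝ) (f : Finset ℕ → ℝ) :
    Ev p Ω (fun W => c * f W) = c * Ev p Ω f := by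
  simp only [Ev, mul_sum]
  exact sum_congr rfl fun _ _ => by ring

theorem Ev_sum {α : Type} (p : ℕ → ℝ) (Ω : Finset ℕ) (C : Finset α) (f : α → Finset ℕ → ℝ) :
    Ev p Ω (fun W => ∑ a ∈ C, f a W) = ∑ a ∈ C, Ev p Ω (f a) := by
  simp only [Ev, mul_sum]
  exact sum_comm

theorem Ev_congr {p p' : ℕ → ℝ} {Ω : Finset ℕ} (h : ∀ x ∈ Ω, p x = p' x) (f : Finset ℕ → ℝ) :
    Ev p Ω f = Ev p' Ω f :=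
  sum_congr rfl fun W hW => by
    rw [prod_congr rfl fun x hx => h x (mem_powerset.1 hW hx),
      prod_congr rfl fun x hx => congrArg (1 - ·) (h x (sdiff_subset hx))]

theorem Ev_const (p : ℝ) (Ω : Finset ℕ) (f : Finset ℕ → ℝ) : Ev (fun _ => p) Ω f = Ex p Ω f := by
  simp only [Ev, Ex, prod_const]

end Pool.Agent.MP_2876a2_nt.Tu.Z
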