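import Pool.Agent.MP_2876a2_nt.Tu.St5

/-!
Pairwise coprime triples: definitions and statements.
-/

set_option autoImplicit false

open Finset Filter
open scoped Pointwise

noncomputable section

namespace Pool.Agent.MP_2876a2_nt.Tu.Z

/-! ### majorants that depend on the first blocks only -/

/-- the largest value of the squared sum on a short interval -/
def Mx (B : Finset ℕ) (Q : ℕ) (α : ℝ) : ℝ := ⨆ θ : Set.Icc (0 : ℝ) 1, ‖ES B (α + θ / Q)‖ ^ 2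

def StMx0 : Prop := ∀ (B : Finset ℕ) (Q : ℕ) (α : ℝ),
  (∀ θ : ℝ, 0 ≤ θ → θ ≤ 1 → ‖ES B (α + θ / Q)‖ ^ 2 ≤ Mx B Q α) ∧
    ∃ θ : ℝ, 0 ≤ θ ∧ θ ≤ 1 ∧ Mx B Q α = ‖ES B (α + θ / Q)‖ ^ 2

/-- the mass near the fractions with denominator `b` -/
def Zb (B : Finset ℕ) (Q : ℕ) (Y : ℝ) (b : ℕ) : ℝ :=
  ∑ a ∈ (range b).filter (fun a => a.Coprime b),
    ∑ i ∈ Icc (-((⌊2 * Y / b⌋₊ + 1 : ℕ) : ℤ)) (⌊2 * Y / b⌋₊ + 1 : ℕ), Mx B Q (a / b + i / Q)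

def StMx : Prop := ∀ (B : Finset ℕ) (Q : ℕ) (Y : ℝ), (∀ b ∈ B, 1 ≤ b ∧ b ≤ Q) → 1 ≤ Q → 1 ≤ Y →
  ∑ b ∈ Icc 1 ⌊2 * Y⌋₊, Zb B Q Y b ≤ B.card * (1040 * (Q + Y ^ 2) * (1 + Real.log Q))

def StZ1 : Prop := ∀ (B : Finset ℕ) (Q e m : ℕ) (Y : ℝ), 0 < e →
  ∑ u ∈ (range e).filter (fun u => u.Coprime e), ‖ES B ((u : ℝ) / e * m)‖ ^ 2 ≤
    (Nat.gcd e m : ℕ) * Zb B Q Y (e / Nat.gcd e m)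

def StZ2 : Prop := ∀ (B : Finset ℕ) (K S m Q L e : ℕ) (u : ℕ → ℤ) (q : ℕ → ℕ) (β : ℕ → ℝ) (Y : ℝ),
  Ap K S u q β → 1 ≤ K → 0 < m → 1 ≤ Q → m * Q ≤ S → S ≤ L * (m * Q) → 2 ≤ Y → Y ^ 2 ≤ S →
  ∑ v ∈ (Vy K S q β Y).filter (fun v => q v = e), ‖ES B ((v : ℝ) / (K * S : ℕ) * m)‖ ^ 2 ≤
    4 * L * K * (Nat.gcd e m : ℕ) * Zb B Q Y (e / Nat.gcd e m)

/-- `Z` bounds the mass of `A` at every denominator, at the height `Y` -/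
def ZB (A : Finset ℕ) (S : ℕ) (Y : ℝ) (Z : ℕ → ℝ) : Prop :=
  ∀ (K : ℕ) (u : ℕ → ℤ) (q : ℕ → ℕ) (β : ℕ → ℝ), 1 ≤ K → Ap K S u q β → ∀ e : ℕ,
    ∑ v ∈ (Vy K S q β Y).filter (fun v => q v = e), ‖ES A ((v : ℝ) / (K * S : ℕ))‖ ^ 2 ≤
      K * (A.card : ℝ) ^ 2 * Z e

def StZ : Prop := ∀ j0 D : ℕ, 50 ^ 4 ≤ j0 → 0 < D → ∀ᶠ Y : ℝ in atTop,
  ∀ (B : ℕ → Finset ℕ) (N s : ℕ → ℕ), S1 j0 B N s → ∀ t0 : ℕ,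
    Y ^ 2 ≤ ((D * ∏ t ∈ range t0, s t : ℕ) : ℝ) → ∃ Z : ℕ → ℝ, (∀ e, 0 ≤ Z e) ∧
      ∑ e ∈ Icc 1 ⌊2 * Y⌋₊, Z e ≤ Y ^ (1 / 4 : ℝ) ∧
      ∀ (B' : ℕ → Finset ℕ) (N' s' : ℕ → ℕ), S1 j0 B' N' s' → (∀ t, Spr (B' t)) →
        (∀ t < t0, B' t = B t ∧ s' t = s t) → ∀ c J : ℕ, 0 < c → c ≤ D → t0 ≤ J →
          (∀ e : ℕ, 0 < e → (e : ℝ) ≤ 2 * Y → ∑ u ∈ (range e).filter (fun u => u.Coprime e),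
            ‖ES ((∏ t ∈ range J, B' t).image fun a => c * a) ((u : ℝ) / e)‖ ^ 2 ≤
              (((∏ t ∈ range J, B' t).image fun a => c * a).card : ℝ) ^ 2 * Z e) ∧
          ZB ((∏ t ∈ range J, B' t).image fun a => c * a) (D * ∏ t ∈ range J, s' t) Y Z

/-! ### the third member -/

def Sp (n : ℕ) (B : Finset ℕ) : Prop :=
  ∀ d : ℕ, (B.filter fun b => d ∣ b).card ^ 20 * d ^ n ≤ B.card ^ 20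

def StSel6 : Prop := ∀ (t0 : ℕ) (U L : ℝ), ∀ᶠ Y : ℝ in atTop, ∀ s : ℕ → ℕ, (∀ i, 2 ≤ s i) →
  (∀ t, t0 ≤ t → s t ^ 20000 ≤ ∏ i ∈ range t, s i) →
  ((∏ i ∈ range (t0 + 1), s i : ℕ) : ℝ) ≤ U →
  ∀ J : ℕ, Y ^ (19999 / 10000 : ℝ) ≤ L * ((∏ i ∈ range J, s i : ℕ) : ℝ) → ∃ t' t : ℕ,
    t' ≤ t ∧ t ≤ J ∧ 2 * Y ≤ ((∏ i ∈ range t', s i : ℕ) : ℝ) ∧
    ((∏ i ∈ range t', s i : ℕ) : ℝ) ≤ Y ^ (5001 / 5000 : ℝ) ∧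
    Y ^ (4999 / 5000 : ℝ) ≤ ((∏ i ∈ Ico t' t, s i : ℕ) : ℝ) ∧
    ((∏ i ∈ Ico t' t, s i : ℕ) : ℝ) ≤ Y ^ (5001 / 5000 : ℝ)

def StDec6 : Prop := ∀ j0 : ℕ, 2 ≤ j0 → ∀ᶠ Y : ℝ in atTop,
  ∀ (B : ℕ → Finset ℕ) (N s : ℕ → ℕ), S1 j0 B N s → ∀ (c J S q : ℕ) (u : ℤ) (β : ℝ), 0 < c →
    c * ∏ t ∈ range J, s t ≤ 4 * S → S ≤ 4 * (c * ∏ t ∈ range J, s t) →
    (4 * c) ^ 20000 ≤ ∏ t ∈ range J, s t → 0 < q → IsCoprime u (q : ℤ) → qs S q β = Y →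
    Y ^ 2 ≤ S → ‖ES ((∏ t ∈ range J, B t).image fun a => c * a) (u / q + β)‖ ≤
      Y ^ (-(468 / 1000) : ℝ) *
        ∑ a ∈ (∏ t ∈ range J, B t).image (fun a => c * a), √((Nat.gcd q a : ℕ) : ℝ)

def StEg6 : Prop := ∀ (j0 : ℕ) (B : ℕ → Finset ℕ) (N s : ℕ → ℕ), 50 ^ 4 ≤ j0 → S1 j0 B N s →
  (∀ t, Sp 18 (B t)) → ∀ (I : Finset ℕ) (q : ℕ), 0 < q →
    ∑ a ∈ ∏ t ∈ I, B t, ((Nat.gcd q a : ℕ) : ℝ) ≤ (q : ℝ) ^ (12 / 100 : ℝ) * (∏ t ∈ I, B t).card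

def StS3 : Prop := ∀ j0 t1 : ℕ, 50 ^ 4 ≤ j0 → ∀ᶠ Y : ℝ in atTop,
  ∀ (B : ℕ → Finset ℕ) (N s : ℕ → ℕ), S1 j0 B N s → (∀ t, Sp 18 (B t)) →
    ∀ (c J S q : ℕ) (u : ℤ) (β : ℝ), 0 < c →
    c * ∏ t ∈ Ico t1 J, s t ≤ 4 * S → S ≤ 4 * (c * ∏ t ∈ Ico t1 J, s t) →
    (4 * c) ^ 20000 ≤ ∏ t ∈ Ico t1 J, s t → 0 < q → IsCoprime u (q : ℤ) → qs S q β = Y →
    Y ^ 2 ≤ S → ‖ES ((∏ t ∈ Ico t1 J, B t).image fun a => c * a) (u / q + β)‖ ≤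
      Y ^ (-(38 / 100) : ℝ) * √((Nat.gcd q c : ℕ) : ℝ) *
        ((∏ t ∈ Ico t1 J, B t).image fun a => c * a).card

/-! ### minor arcs -/

/-- the error attached to the multiplier `μ` -/
def Er (Zs : ℕ → ℕ → ℝ) (q0 n μ : ℕ) : ℝ :=
  ∑ i ∈ range n, ((q0 * 2 ^ i : ℕ) : ℝ) ^ (-(38 / 100) : ℝ) *
    ∑ e ∈ Icc 1 (2 * (q0 * 2 ^ i)), √((Nat.gcd e μ : ℕ) : ℝ) * Zs i e

open Classical in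
/-- the points of height at least `q0` carry mass at most `E` -/
def MB (A : Fin 3 → Finset ℕ) (S q0 : ℕ) (E : ℝ) : Prop :=
  ∀ (u : ℕ → ℤ) (q : ℕ → ℕ) (β : ℕ → ℝ), Ap 5 S u q β →
    ∑ v ∈ (range (5 * S)).filter (fun v => (q0 : ℝ) ≤ qs S (q v) (β v)),
      ∏ i, ‖ES (A i) ((v : ℝ) / (5 * S : ℕ))‖ ≤ 5 * (∏ i, ((A i).card : ℝ)) * E

def StMn : Prop := ∀ (A : Fin 3 → Finset ℕ) (S q0 n μ : ℕ) (Zs : ℕ → ℕ → ℝ), 1 ≤ q0 → 0 < μ →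
  μ ^ 20 ≤ q0 * 2 ^ n → (∀ i e, 0 ≤ Zs i e) →
  (∀ (q : ℕ) (u : ℤ) (β : ℝ), 0 < q → IsCoprime u (q : ℤ) → (q0 : ℝ) ≤ qs S q β →
    qs S q β ^ 2 ≤ S → ‖ES (A 2) (u / q + β)‖ ≤
      qs S q β ^ (-(38 / 100) : ℝ) * √((Nat.gcd q μ : ℕ) : ℝ) * (A 2).card) →
  (∀ i < n, ZB (A 0) S (q0 * 2 ^ i : ℕ) (Zs i) ∧ ZB (A 1) S (q0 * 2 ^ i : ℕ) (Zs i)) →
  (∀ i, n ≤ i → ((q0 * 2 ^ i : ℕ) : ℝ) ^ 2 ≤ S → ∃ Z : ℕ → ℝ, (∀ e, 0 ≤ Z e) ∧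
    ∑ e ∈ Icc 1 (2 * (q0 * 2 ^ i)), Z e ≤ 2 * ((q0 * 2 ^ i : ℕ) : ℝ) ^ (1 / 4 : ℝ) ∧
    ZB (A 0) S (q0 * 2 ^ i : ℕ) Z ∧ ZB (A 1) S (q0 * 2 ^ i : ℕ) Z) →
  MB A S q0 (Er Zs q0 n μ + 40 * (q0 : ℝ) ^ (-(1 / 10) : ℝ))

def StDiff6 : Prop := ∃ C : ℝ, 0 ≤ C ∧ ∀ (A : Fin 3 → Finset ℕ) (S q0 : ℕ) (E ε : ℝ), 1 ≤ S →
  1 ≤ q0 → 0 ≤ ε → ε ≤ 1 → (∀ i, ∀ a ∈ A i, a ≤ S) → MB A S q0 E →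
  ∀ T T' : ℕ, T ≤ 3 * S → T' ≡ T [MOD q0.factorial] → |(T' : ℝ) - T| ≤ ε * S →
    |(rm A T' : ℝ) - rm A T| ≤ (2 * E + C * ε * (q0 : ℝ) ^ 4) * (∏ i, ((A i).card : ℝ)) / S

/-! ### the choice of the multiplier -/

def StPi : Prop := ∀ Q : ℕ, 0 < Q → ∀ᶠ a : ℕ in atTop,
  ∃ P ⊆ PA (2 ^ (2 * a)) Q (Q - 1), P.card = 2 ^ (a + 1)

def StTot : Prop := ∀ n : ℕ, n ≤ 2 * n.totient ^ 2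

def StGw : Prop := ∀ σ : ℕ, 0 < σ → ∀ᶠ m : ℕ in atTop, ∀ e : ℕ, 0 < e →
  ∑ q ∈ (PN (2 ^ (100 * m))).filter (fun q => σ ∣ q + 1), √((Nat.gcd e ((q + 1) / σ) : ℕ) : ℝ) ≤
    3 * e.divisors.card * 2 ^ (100 * m) / (σ.totient * m)

def StAvg : Prop := ∀ c0 : ℝ, 0 < c0 → ∀ᶠ q0 : ℕ in atTop, ∀ (W a : ℕ) (P : Finset ℕ) (σ : ℕ → ℕ),
  0 < W → P ⊆ PN (2 ^ (2 * a)) → P.card = 2 ^ (a + 1) → (∀ π ∈ P, 0 < σ π ∧ W ∣ σ π) →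
  ∀ᶠ m : ℕ in atTop, ∀ (n : ℕ) (Zs : ℕ → ℕ → ℝ) (Mn : ℕ → ℝ), (∀ i e, 0 ≤ Zs i e) →
    (∀ i < n, ∑ e ∈ Icc 1 (2 * (q0 * 2 ^ i)), Zs i e ≤ 2 * ((q0 * 2 ^ i : ℕ) : ℝ) ^ (1 / 4 : ℝ)) →
    c0 * W ≤ ∑ w ∈ Icc 1 W, Mn w → ∃ π ∈ P, ∃ w ∈ Icc 1 W, ∃ Bad : Finset ℕ,
      (Bad.card : ℝ) ≤ 2 ^ (100 * m) / (200 * (σ π * W).totient * m) ∧
      ∀ q ∈ PA (2 ^ (100 * m)) (σ π * W) (σ π * w - 1), q ∉ Bad →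
        2 * Er Zs q0 n (π * ((q + 1) / σ π)) + c0 / 4 ≤ Mn w

/-! ### blocks with a marked root -/

open Classical in
def StNice6 : Prop := ∀ G ρ : ℕ, 0 < G → ρ.Coprime G → ∃ K g : ℕ, 16 ≤ g ∧ ∀ᶠ m : ℕ in atTop,
  ∀ Bad : Finset ℕ, (Bad.card : ℝ) ≤ 2 ^ (100 * m) / (200 * G.totient * m) →
    2 ^ (100 * m) / (m : ℝ) ^ 2 ≤
      ((PA (2 ^ (100 * m)) G ρ).filter fun q => Nice K g m q ∧ q ∉ Bad).card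

def StSpr6 : Prop := ∀ (F : Finset (Finset ℕ)) (Kc : Finset ℕ) (R X n : ℕ),
  (∀ b ∈ F, ∀ q ∈ b \ Kc, q.Prime ∧ q ≤ X) →
  (F.image fun b => ∏ q ∈ b \ Kc, q).card = F.card →
  (∀ J : Finset ℕ, (F.filter fun b => J ⊆ b \ Kc).card * R ^ J.card ≤ F.card) →
  X ^ n ≤ R ^ 20 → Sp n (F.image fun b => ∏ q ∈ b \ Kc, q)

/-- a block of cofactors of the root `q` -/
def Mk (j q : ℕ) (B Ψ : Finset ℕ) : Prop := ∃ (B' : Finset ℕ) (N' s' : ℕ), B1 j B' N' s' ∧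
  Sp 18 B' ∧ N'.primeFactors ⊆ Ψ ∧ ∀ b ∈ B', b * q ∈ B

def StBlk6 : Prop := ∀ K g : ℕ, 16 ≤ g → ∀ᶠ j : ℕ in atTop, ∀ P : Finset ℕ,
  (∀ q ∈ P, Nice K g (lev j) q) → 2 ^ (100 * lev j) ≤ P.card * 2 ^ (lev j / g) →
  (∀ q ∈ P, ∀ p ∈ nd (2 ^ lev j) q, ¬ Rsv p) →
  ∃ (B : ℕ → Finset ℕ) (N : ℕ → ℕ) (s r : ℕ), 1 ≤ r ∧ (∀ i i', i ≠ i' → (N i).Coprime (N i')) ∧
    (∀ i < 3, (B1 j (B i) (N i) s ∧ Spr (B i)) ∧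
      (N i).primeFactors ⊆ P.biUnion (nd (2 ^ lev j)) ∧
      ∀ b ∈ B i, b.primeFactors.card = r ∧ b.primeFactors ⊆ P) ∧
    ∃ q ∈ P, Mk j q (B 2) (P.biUnion (nd (2 ^ lev j)))

/-- all members have the same number of prime factors, all in one class -/
def Cl (G ρ : ℕ) (B : ℕ → Finset ℕ) : Prop := ∃ r : ℕ, 1 ≤ r ∧
  ∀ i < 3, ∀ b ∈ B i, b.primeFactors.card = r ∧ ∀ p ∈ b.primeFactors, p ≡ ρ [MOD G]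

/-- blocks with the property `Q` exist at the scale `j` and avoid every thin set -/
def AdmQ (j : ℕ) (Q : (ℕ → Finset ℕ) → Finset ℕ → Prop) : Prop := ∀ Φ : Finset ℕ, Tol (lev j) Φ →
  ∃ (B : ℕ → Finset ℕ) (N : ℕ → ℕ) (s : ℕ) (Ψ : Finset ℕ), Out (lev j) Ψ ∧ Disjoint Ψ Φ ∧
    (∀ i i', i ≠ i' → (N i).Coprime (N i')) ∧
    (∀ i < 3, B1 j (B i) (N i) s ∧ Spr (B i) ∧ (N i).primeFactors ⊆ Ψ) ∧ Q B Ψ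

def StAdm6 : Prop := ∀ G ρ : ℕ, 0 < G → ρ.Coprime G → ∀ᶠ j : ℕ in atTop, ∀ Bad : Finset ℕ,
  (Bad.card : ℝ) ≤ 2 ^ (100 * lev j) / (200 * G.totient * lev j) →
  AdmQ j fun B Ψ => Cl G ρ B ∧ ∃ q ∈ PA (2 ^ (100 * lev j)) G ρ, q ∉ Bad ∧ Mk j q (B 2) Ψ

/-- three sequences of blocks with their sets of primes -/
structure SQ (j0 : ℕ) (B : ℕ → ℕ → Finset ℕ) (N : ℕ → ℕ → ℕ) (s : ℕ → ℕ) (Ψ : ℕ → Finset ℕ) :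
    Prop where
  sm : SM 3 j0 B N s
  spr : ∀ i < 3, ∀ t, Spr (B i t)
  out : ∀ t, Out (lev (j0 + t)) (Ψ t)
  sub : ∀ i < 3, ∀ t, (N i t).primeFactors ⊆ Ψ t
  dis : ∀ t t', t ≠ t' → Disjoint (Ψ t) (Ψ t')

def StTol6 : Prop := ∀ᶠ j0 : ℕ in atTop, ∀ (t a : ℕ) (P : Finset ℕ) (Ψ : ℕ → Finset ℕ),
  P ⊆ PN (2 ^ (2 * a)) → P.card ≤ 2 ^ (a + 1) → (∀ t' < t, Out (lev (j0 + t')) (Ψ t')) →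
    Tol (lev (j0 + t)) (P ∪ (range t).biUnion Ψ)

def StExt6 : Prop := ∀ᶠ j0 : ℕ in atTop, (∃ B N s Ψ, SQ j0 B N s Ψ) ∧
  ∀ B N s Ψ, SQ j0 B N s Ψ → ∀ (t2 a : ℕ) (P : Finset ℕ)
    (Q : ℕ → (ℕ → Finset ℕ) → Finset ℕ → Prop), P ⊆ PN (2 ^ (2 * a)) → P.card ≤ 2 ^ (a + 1) →
    (∀ t, t2 ≤ t → AdmQ (j0 + t) (Q t)) → ∃ B' N' s' Ψ', SQ j0 B' N' s' Ψ' ∧
      (∀ t < t2, s' t = s t ∧ Ψ' t = Ψ t ∧ ∀ i, B' i t = B i t ∧ N' i t = N i t) ∧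
      ∀ t, t2 ≤ t → Disjoint (Ψ' t) P ∧ Q t (fun i => B' i t) (Ψ' t)

def StBigS : Prop := ∀ j0 q0 a : ℕ, ∀ᶠ t : ℕ in atTop, ∀ s : ℕ → ℕ,
  (∀ i, 2 ^ 2 ^ lev (j0 + i) ≤ s i) →
    (q0 * 2 ^ (20 * (2 * a + 1 + 101 * lev (j0 + t)))) ^ 2 ≤ ∏ i ∈ range t, s i

/-! ### the main term -/

/-- on average the common divisors of `A` with `W` divide their share of the sums -/
def Gam (X1 X2 A : Finset ℕ) (W : ℕ) : Prop := A.card * X1.card * X2.card ≤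
  2 * ∑ a ∈ A, Nat.gcd a W * ((X1 ×ˢ X2).filter fun x => Nat.gcd a W ∣ x.1 + x.2).card

def StGam : Prop := ∀ (X1 X2 A : Finset ℕ) (W : ℕ) (Z : ℕ → ℝ), Spr A → 0 < W → (∀ e, 0 ≤ Z e) →
  (∀ e : ℕ, 1 < e → e ≤ W → (∃ a ∈ A, e ∣ a) →
    ∑ u ∈ (range e).filter (fun u => u.Coprime e), ‖ES X1 ((u : ℝ) / e)‖ ^ 2 ≤
      (X1.card : ℝ) ^ 2 * Z e ∧
    ∑ u ∈ (range e).filter (fun u => u.Coprime e), ‖ES X2 ((u : ℝ) / e)‖ ^ 2 ≤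
      (X2.card : ℝ) ^ 2 * Z e) →
  ∑ e ∈ Icc 2 W, (e : ℝ) ^ (-(19 / 20) : ℝ) * Z e ≤ 1 / 2 → Gam X1 X2 A W

def StGam2 : Prop := ∀ j0 D : ℕ, 50 ^ 4 ≤ j0 → 0 < D → ∀ᶠ t1 : ℕ in atTop,
  ∀ (B : ℕ → ℕ → Finset ℕ) (N : ℕ → ℕ → ℕ) (s : ℕ → ℕ), SM 3 j0 B N s →
    (∀ i < 3, ∀ t, Spr (B i t)) → ∀ c0 c1 W t2 : ℕ, 0 < c0 → c0 ≤ D → 0 < c1 → c1 ≤ D → 0 < W →
      W ^ 2 ≤ ∏ t ∈ range t2, s t →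
      Gam ((∏ t ∈ range t2, B 0 t).image fun a => c0 * a)
        ((∏ t ∈ range t2, B 1 t).image fun a => c1 * a) (∏ t ∈ Ico t1 t2, B 2 t) W

open Classical in
/-- the triples in the class `w` near the position `τ` -/
def Nw (X1 X2 A : Finset ℕ) (κ H W : ℕ) (η τ : ℝ) (w : ℕ) : ℕ :=
  (((X1 ×ˢ X2) ×ˢ A).filter fun x => W ∣ x.1.1 + x.1.2 + w * x.2 ∧
    |((x.1.1 + x.1.2 : ℕ) : ℝ) + τ * κ * x.2 - H| ≤ η * H).card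

def StLoc : Prop := ∀ (X1 X2 A : Finset ℕ) (κ H W : ℕ) (η : ℝ), 0 < W → 0 < κ → 0 < η → η ≤ 1 →
  (∀ x1 ∈ X1, ∀ x2 ∈ X2, ∀ a ∈ A, 0 < a ∧ κ * a ≤ H ∧ 2 * (x1 + x2) ≤ H ∧ H ≤ x1 + x2 + κ * a) →
  Gam X1 X2 A W → ∃ τ : ℝ, 1 / 2 ≤ τ ∧ τ ≤ 1 ∧
    η / 4 * (A.card * X1.card * X2.card) ≤ ∑ w ∈ Icc 1 W, (Nw X1 X2 A κ H W η τ w : ℝ)

def StWin : Prop := ∀ (X1 X2 A Γ1 Γ2 Γ3 : Finset ℕ) (κ H W S g w : ℕ) (η τ : ℝ), 0 < W → 0 < η →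
  (X1 * Γ1).card = X1.card * Γ1.card → (X2 * Γ2).card = X2.card * Γ2.card →
  (A * Γ3).card = A.card * Γ3.card →
  (∀ x1 ∈ X1, ∀ x2 ∈ X2, ∀ a ∈ A, κ * a ≤ H ∧ x1 + x2 ≤ H) →
  (∀ γ ∈ Γ1 ∪ Γ2, γ ≡ g [MOD W] ∧ γ ≤ S ∧ (S : ℝ) ≤ (1 + η) * γ) →
  (∀ γ ∈ Γ3, γ ≡ g * w [MOD W] ∧ |(γ : ℝ) - τ * κ * S| ≤ 4 * η * κ * S) →
  (W : ℝ) ≤ η * H * S → ∃ T : ℕ, W ∣ T ∧ |(T : ℝ) - H * S| ≤ 6 * η * H * S ∧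
    (Nw X1 X2 A κ H W η τ w : ℝ) * (Γ1.card * Γ2.card * Γ3.card) * W ≤
      13 * η * H * S * rm ![X1 * Γ1, X2 * Γ2, A * Γ3] T

def StKey6 : Prop := ∀ (κ S W g d sd π π1 n q w : ℕ) (η τ : ℝ), 0 < η → η ≤ 1 → 0 < κ → 0 < d →
  d ≤ sd → π + 1 = κ * d * W * π1 → q + 1 = sd * W * π1 * w → n * q ≡ g [MOD W] →
  n * q ≤ S → (S : ℝ) ≤ (1 + η) * (n * q : ℕ) → 1 ≤ η * q → 1 ≤ η * π →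
  |(d : ℝ) / sd - τ| ≤ η →
  π * w * n ≡ g * w [MOD W] ∧ |((π * w * n : ℕ) : ℝ) - τ * κ * S| ≤ 4 * η * κ * S

/-! ### small facts -/

theorem Spr.sp {B : Finset ℕ} (h : Spr B) : Sp 18 B := fun d => by
  rcases Nat.eq_zero_or_pos d with rfl | hd
  · simp
  · exact (Nat.mul_le_mul_left _ (Nat.pow_le_pow_right hd (by norm_num))).trans (h d)

theorem Adm5.admQ {j G ρ : ℕ} (h : Adm5 3 j G ρ) : AdmQ j fun B _ => Cl G ρ B := fun Φ hΦ => by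
  obtain ⟨B, N, s, r, Ψ, h1, h2, h3, h4, h5⟩ := h Φ hΦ
  exact ⟨B, N, s, Ψ, h1, h2, h4, fun i hi => ⟨(h5 i hi).1.1, (h5 i hi).1.2, (h5 i hi).2.1⟩,
    r, h3, fun i hi => (h5 i hi).2.2⟩

theorem ZB.mono {A : Finset ℕ} {S : ℕ} {Y : ℝ} {Z Z' : ℕ → ℝ} (h : ZB A S Y Z)
    (h' : ∀ e, Z e ≤ Z' e) : ZB A S Y Z' := fun K u q β h1 h2 e =>
  (h K u q β h1 h2 e).trans (mul_le_mul_of_nonneg_left (h' e) (by positivity))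

end Pool.Agent.MP_2876a2_nt.Tu.Z
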